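import Pool.Agent.Lib.MP_acf58e_gf.G1

/-! MP_acf58e_pr, row G5: shifts by harmonic functions, sign change, symmetries of the lattice. -/

open MeasureTheory Set
open scoped ENNReal

namespace GF

private theorem G5_ext {μ ν : Measure (V → ℝ)}
    (h : ∀ F : (V → ℝ) → ℝ≥0∞, Measurable F → ∫⁻ X, F X ∂μ = ∫⁻ X, F X ∂ν) : μ = ν := by
  ext s hs
  have := h (s.indicator 1) (measurable_one.indicator hs)
  rwa [lintegral_indicator_one hs, lintegral_indicator_one hs] at this

private theorem G5_pf (D : Finset V) (β : V → ℝ) :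
    pf D β = ∫⁻ y : D → ℝ, 1 * wt D (glue D β y) := by
  unfold pf
  simp

/-- abstract change of variables -/
private theorem G5_main {D D' : Finset V} {β β' : V → ℝ} {T : (D → ℝ) → (D' → ℝ)}
    (hT : MeasurePreserving T volume volume) {S : (V → ℝ) → (V → ℝ)} (hS : Measurable S)
    (h1 : ∀ y, glue D' β' (T y) = S (glue D β y)) {k : ℝ≥0∞} (hk0 : k ≠ 0) (hk1 : k ≠ ⊤)
    (h2 : ∀ y, wt D' (glue D' β' (T y)) = k * wt D (glue D β y)) :
    gam D' β' = (gam D β).map S := by
  have key : ∀ F : (V → ℝ) → ℝ≥0∞, Measurable F →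
      ∫⁻ y' : D' → ℝ, F (glue D' β' y') * wt D' (glue D' β' y')
        = k * ∫⁻ y : D → ℝ, F (S (glue D β y)) * wt D (glue D β y) := by
    intro F hF
    have hm : Measurable (fun y' : D' → ℝ => F (glue D' β' y') * wt D' (glue D' β' y')) :=
      (hF.comp (measurable_glue D' β')).mul ((measurable_wt D').comp (measurable_glue D' β'))
    rw [← hT.lintegral_comp hm, ← lintegral_const_mul]
    · apply lintegral_congr
      intro y
      rw [h2, h1]
      ring
    · exact (hF.comp (hS.comp (measurable_glue D β))).mul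
        ((measurable_wt D).comp (measurable_glue D β))
  apply G5_ext
  intro F hF
  rw [lintegral_map hF hS, lintegral_gam D' β' hF, lintegral_gam D β (F := fun X => F (S X)) (hF.comp hS),
    key F hF]
  have hpf : pf D' β' = k * pf D β := by
    rw [G5_pf, G5_pf]
    exact key (fun _ => 1) measurable_const
  rw [hpf, ENNReal.mul_inv (Or.inl hk0) (Or.inl hk1)]
  have e : k⁻¹ * (pf D β)⁻¹ * (k * ∫⁻ y : D → ℝ, F (S (glue D β y)) * wt D (glue D β y))
      = (k⁻¹ * k) * ((pf D β)⁻¹ * ∫⁻ y : D → ℝ, F (S (glue D β y)) * wt D (glue D β y)) := by ring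
  rw [e, ENNReal.inv_mul_cancel hk0 hk1, one_mul]

/-- adding a function harmonic on D -/
theorem gam_add_harm (D : Finset V) (β φ : V → ℝ) (hφ : ∀ x ∈ D, φ x = av φ x) :
    gam D (fun x => β x + φ x) = (gam D β).map (fun X x => X x + φ x) := by
  have hlap : ∀ x ∈ D, lap φ x = 0 := by
    intro x hx
    unfold lap
    rw [← hφ x hx]
    ring
  obtain ⟨K, hK⟩ : ∃ K : ℝ, K = ebil D (glue D β (fun _ => 0)) φ + energy D φ := ⟨_, rfl⟩
  have hen : ∀ y : D → ℝ, energy D (fun x => glue D β y x + φ x) = energy D (glue D β y) + K := by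
    intro y
    rw [energy_add, hK]
    have h1 : ebil D (glue D β y) φ = ebil D (glue D β (fun _ => 0)) φ := by
      have h2 : ebil D (fun x => glue D β y x - glue D β (fun _ => 0) x) φ = 0 := by
        rw [ebil_parts]
        · rw [Finset.sum_eq_zero, neg_zero]
          intro x hx
          rw [hlap x hx, mul_zero]
        · intro x hx
          rw [glue_apply, glue_apply]
          simp [hx]
      have h3 : ebil D (fun x => glue D β y x - glue D β (fun _ => 0) x) φ
          = ebil D (glue D β y) φ - ebil D (glue D β (fun _ => 0)) φ := by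
        unfold ebil
        have e1 : ∀ (a b c d e : ℝ), (a - b - (c - d)) * e = (a - c) * e - (b - d) * e := by
          intros; ring
        simp only [e1, Finset.sum_sub_distrib]
        ring
      linarith
    rw [h1]
    ring
  have hglue : ∀ y : D → ℝ, glue D (fun x => β x + φ x) (fun i => y i + φ i)
      = fun x => glue D β y x + φ x := by
    intro y
    funext x
    rw [glue_apply, glue_apply]
    by_cases hx : x ∈ D
    · simp [hx]
    · simp [hx]
  refine G5_main (T := fun y i => y i + φ i) (k := ENNReal.ofReal (Real.exp (-K))) ?_ ?_ ?_ ?_ ?_ ?_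
  · exact measurePreserving_add_right (volume : Measure (D → ℝ)) (fun i => φ i)
  · apply measurable_pi_lambda
    intro x
    exact (measurable_pi_apply x).add_const _
  · exact hglue
  · simp [Real.exp_pos]
  · exact ENNReal.ofReal_ne_top
  · intro y
    rw [hglue]
    unfold wt
    rw [hen, ← ENNReal.ofReal_mul (Real.exp_pos _).le, ← Real.exp_add]
    congr 2
    ring

theorem gam_eq_zero_map (D : Finset V) (β : V → ℝ) :
    gam D β = (gam D (fun _ => 0)).map (fun X x => X x + hx D β x) := by
  rw [← gam_add_harm D (fun _ => 0) (hx D β) (fun x hx => hx_harm D β hx)]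
  apply gam_congr
  intro x hx
  rw [hx_off hx]
  ring

theorem gam_add_const (D : Finset V) (β : V → ℝ) (c : ℝ) :
    gam D (fun x => β x + c) = (gam D β).map (fun X x => X x + c) :=
  gam_add_harm D β (fun _ => c) (fun x _ => by unfold av; ring)

theorem gam_neg (D : Finset V) (β : V → ℝ) :
    gam D (fun x => - β x) = (gam D β).map (fun X x => - X x) := by
  have hglue : ∀ y : D → ℝ, glue D (fun x => - β x) (-y) = fun x => - glue D β y x := by
    intro y
    funext x
    rw [glue_apply, glue_apply]
    by_cases hx : x ∈ D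
    · simp [hx]
    · simp [hx]
  refine G5_main (T := fun y => -y) (k := 1) ?_ ?_ hglue one_ne_zero ENNReal.one_ne_top ?_
  · exact Measure.measurePreserving_neg (volume : Measure (D → ℝ))
  · apply measurable_pi_lambda
    intro x
    exact (measurable_pi_apply x).neg
  · intro y
    rw [hglue, one_mul]
    unfold wt energy
    congr 5
    · apply Finset.sum_congr rfl
      intro x _
      ring
    · apply Finset.sum_congr rfl
      intro x _
      ring

/-! ### abstract symmetries -/

private theorem G5_mem_image (σ : V ≃ V) (D : Finset V) (x : V) : x ∈ D.image σ ↔ σ.symm x ∈ D := by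
  rw [Finset.mem_image]
  constructor
  · rintro ⟨y, hy, rfl⟩
    simpa using hy
  · intro h
    exact ⟨_, h, by simp⟩

/-- the bijection between D and its image -/
private def G5_equiv (σ : V ≃ V) (D : Finset V) : D ≃ (D.image σ : Finset V) where
  toFun x := ⟨σ x, by rw [G5_mem_image]; simp⟩
  invFun x := ⟨σ.symm x, (G5_mem_image σ D x).1 x.2⟩
  left_inv x := by simp
  right_inv x := by simp

private theorem G5_sym (σ : V ≃ V) (D : Finset V)
    (hE : ∀ X : V → ℝ, energy (D.image σ) (fun x => X (σ.symm x)) = energy D X) (β : V → ℝ) :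
    gam (D.image σ) (fun x => β (σ.symm x)) = (gam D β).map (fun X x => X (σ.symm x)) := by
  have hglue : ∀ y : D → ℝ, glue (D.image σ) (fun x => β (σ.symm x))
      ((MeasurableEquiv.piCongrLeft (fun _ => ℝ) (G5_equiv σ D)) y) = fun x => glue D β y (σ.symm x) := by
    intro y
    funext x
    rw [glue_apply, glue_apply]
    by_cases hx : x ∈ D.image σ
    · have hx' := (G5_mem_image σ D x).1 hx
      rw [dif_pos hx, dif_pos hx']
      have e : (⟨x, hx⟩ : (D.image σ : Finset V)) = G5_equiv σ D ⟨σ.symm x, hx'⟩ := by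
        apply Subtype.ext
        simp [G5_equiv]
      rw [e]
      exact MeasurableEquiv.piCongrLeft_apply_apply (β := fun _ => ℝ) (G5_equiv σ D) y ⟨σ.symm x, hx'⟩
    · have hx' : σ.symm x ∉ D := fun h => hx ((G5_mem_image σ D x).2 h)
      rw [dif_neg hx, dif_neg hx']
  refine G5_main (T := fun y => (MeasurableEquiv.piCongrLeft (fun _ => ℝ) (G5_equiv σ D)) y) (k := 1) ?_ ?_
    hglue one_ne_zero ENNReal.one_ne_top ?_
  · exact volume_measurePreserving_piCongrLeft (fun _ => ℝ) (G5_equiv σ D)
  · apply measurable_pi_lambda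
    intro x
    exact measurable_pi_apply _
  · intro y
    rw [hglue, one_mul]
    unfold wt
    rw [hE]

private theorem G5_sol (σ : V ≃ V) (hav : ∀ (f : V → ℝ) x, av (fun z => f (σ.symm z)) (σ x) = av f x)
    (D : Finset V) (β ρ : V → ℝ) (x : V) :
    sol (D.image σ) (fun z => β (σ.symm z)) (fun z => ρ (σ.symm z)) (σ x) = sol D β ρ x := by
  have : (fun z => sol D β ρ (σ.symm z)) = sol (D.image σ) (fun z => β (σ.symm z)) (fun z => ρ (σ.symm z)) := by
    apply sol_unique
    · intro z hz
      apply sol_off
      intro h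
      exact hz ((G5_mem_image σ D z).2 h)
    · intro z hz
      have h := sol_on (β := β) (ρ := ρ) ((G5_mem_image σ D z).1 hz)
      have e := hav (sol D β ρ) (σ.symm z)
      rw [Equiv.apply_symm_apply] at e
      rw [e]
      exact h
  rw [← this]
  simp

private theorem G5_gr (σ : V ≃ V) (hav : ∀ (f : V → ℝ) x, av (fun z => f (σ.symm z)) (σ x) = av f x)
    (D : Finset V) (x y : V) : gr (D.image σ) (σ x) (σ y) = gr D x y := by
  unfold gr
  rw [← G5_sol σ hav D (fun _ => 0) (fun z => if z = y then 1 else 0) x]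
  congr 1
  funext z
  have : (z = σ y) = (σ.symm z = y) := by
    apply propext
    rw [Equiv.symm_apply_eq]
  simp only [this]

private theorem G5_hx (σ : V ≃ V) (hav : ∀ (f : V → ℝ) x, av (fun z => f (σ.symm z)) (σ x) = av f x)
    (D : Finset V) (β : V → ℝ) (x : V) :
    hx (D.image σ) (fun z => β (σ.symm z)) (σ x) = hx D β x :=
  G5_sol σ hav D β (fun _ => 0) x

private theorem G5_hm (σ : V ≃ V) (hav : ∀ (f : V → ℝ) x, av (fun z => f (σ.symm z)) (σ x) = av f x)
    (D : Finset V) (x y : V) : hm (D.image σ) (σ x) (σ y) = hm D x y := by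
  unfold hm
  rw [← G5_hx σ hav D (fun z => if z = y then 1 else 0) x]
  congr 1
  funext z
  have : (z = σ y) = (σ.symm z = y) := by
    apply propext
    rw [Equiv.symm_apply_eq]
  simp only [this]

/-! ### translation -/

private theorem G5_av_trans (a : V) (f : V → ℝ) (x : V) :
    av (fun z => f ((Equiv.addRight a).symm z)) ((Equiv.addRight a) x) = av f x := by
  have e1 : (Equiv.addRight a).symm (nE ((Equiv.addRight a) x)) = nE x := by
    ext <;> simp [nE]
    ring
  have e2 : (Equiv.addRight a).symm (nW ((Equiv.addRight a) x)) = nW x := by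
    ext <;> simp [nW] <;> ring
  have e3 : (Equiv.addRight a).symm (nN ((Equiv.addRight a) x)) = nN x := by
    ext <;> simp [nN] <;> ring
  have e4 : (Equiv.addRight a).symm (nS ((Equiv.addRight a) x)) = nS x := by
    ext <;> simp [nS] <;> ring
  unfold av
  simp only [e1, e2, e3, e4]

private theorem G5_energy_trans (a : V) (D : Finset V) (X : V → ℝ) :
    energy (D.image (Equiv.addRight a)) (fun x => X ((Equiv.addRight a).symm x)) = energy D X := by
  have hinj : Function.Injective (Equiv.addRight a) := (Equiv.addRight a).injective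
  have hH : eH (D.image (Equiv.addRight a)) = (eH D).image (Equiv.addRight a) := by
    unfold eH
    rw [Finset.image_union, Finset.image_image, Finset.image_image]
    congr 2
    funext x
    ext <;> simp [nW] <;> ring
  have hV : eV (D.image (Equiv.addRight a)) = (eV D).image (Equiv.addRight a) := by
    unfold eV
    rw [Finset.image_union, Finset.image_image, Finset.image_image]
    congr 2
    funext x
    ext <;> simp [nS] <;> ring
  unfold energy
  rw [hH, hV, Finset.sum_image (fun x _ y _ h => hinj h), Finset.sum_image (fun x _ y _ h => hinj h)]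
  have e1 : ∀ x, (Equiv.addRight a).symm (nE ((Equiv.addRight a) x)) = nE x := by
    intro x
    ext <;> simp [nE] <;> ring
  have e3 : ∀ x, (Equiv.addRight a).symm (nN ((Equiv.addRight a) x)) = nN x := by
    intro x
    ext <;> simp [nN] <;> ring
  simp only [e1, e3, Equiv.symm_apply_apply]

/-- translation -/
theorem gam_trans (D : Finset V) (β : V → ℝ) (a : V) :
    gam (D.image (fun x => x + a)) (fun x => β (x - a)) = (gam D β).map (fun X x => X (x - a)) := by
  have h := G5_sym (Equiv.addRight a) D (G5_energy_trans a D) β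
  simpa [sub_eq_add_neg] using h

/-! ### swap -/

private theorem G5_av_swap (f : V → ℝ) (x : V) :
    av (fun z => f ((Equiv.prodComm ℤ ℤ).symm z)) ((Equiv.prodComm ℤ ℤ) x) = av f x := by
  unfold av
  simp only [Equiv.prodComm_symm, Equiv.prodComm_apply, nE, nW, nN, nS, Prod.fst_swap, Prod.snd_swap,
    Prod.swap_prod_mk]
  ring

private theorem G5_energy_swap (D : Finset V) (X : V → ℝ) :
    energy (D.image (Equiv.prodComm ℤ ℤ)) (fun x => X ((Equiv.prodComm ℤ ℤ).symm x)) = energy D X := by
  have hinj : Function.Injective (Equiv.prodComm ℤ ℤ) := (Equiv.prodComm ℤ ℤ).injective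
  have hH : eH (D.image (Equiv.prodComm ℤ ℤ)) = (eV D).image (Equiv.prodComm ℤ ℤ) := by
    unfold eH eV
    rw [Finset.image_union, Finset.image_image, Finset.image_image]
    congr 2
  have hV : eV (D.image (Equiv.prodComm ℤ ℤ)) = (eH D).image (Equiv.prodComm ℤ ℤ) := by
    unfold eH eV
    rw [Finset.image_union, Finset.image_image, Finset.image_image]
    congr 2
  unfold energy
  rw [hH, hV, Finset.sum_image (fun x _ y _ h => hinj h), Finset.sum_image (fun x _ y _ h => hinj h),
    add_comm]
  simp only [Equiv.prodComm_symm, Equiv.prodComm_apply, nE, nN, Prod.fst_swap, Prod.snd_swap,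
    Prod.swap_prod_mk, Prod.swap_swap]

/-- swap of the coordinates -/
theorem gam_swap (D : Finset V) (β : V → ℝ) :
    gam (D.image Prod.swap) (fun x => β x.swap) = (gam D β).map (fun X x => X x.swap) :=
  G5_sym (Equiv.prodComm ℤ ℤ) D (G5_energy_swap D) β

/-! ### reflection -/

/-- reflection of the first coordinate -/
def rfl1 (x : V) : V := (-x.1, x.2)

private theorem G5_rfl1_rfl1 (x : V) : rfl1 (rfl1 x) = x := by
  unfold rfl1
  simp

private def G5_r : V ≃ V := ⟨rfl1, rfl1, G5_rfl1_rfl1, G5_rfl1_rfl1⟩

private theorem G5_av_r (f : V → ℝ) (x : V) :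
    av (fun z => f (G5_r.symm z)) (G5_r x) = av f x := by
  have e1 : G5_r.symm (nE (G5_r x)) = nW x := by
    ext <;> simp [G5_r, rfl1, nE, nW] <;> ring
  have e2 : G5_r.symm (nW (G5_r x)) = nE x := by
    ext <;> simp [G5_r, rfl1, nE, nW] <;> ring
  have e3 : G5_r.symm (nN (G5_r x)) = nN x := by
    ext <;> simp [G5_r, rfl1, nN]
  have e4 : G5_r.symm (nS (G5_r x)) = nS x := by
    ext <;> simp [G5_r, rfl1, nS]
  unfold av
  simp only [e1, e2, e3, e4]
  ring

private theorem G5_energy_r (D : Finset V) (X : V → ℝ) :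
    energy (D.image G5_r) (fun x => X (G5_r.symm x)) = energy D X := by
  have hinj : Function.Injective G5_r := G5_r.injective
  have hinj' : Function.Injective (fun x => G5_r (nE x)) := by
    intro x y h
    have := hinj h
    simp only [nE, Prod.mk.injEq] at this
    ext
    · linarith [this.1]
    · exact this.2
  have hH : eH (D.image G5_r) = (eH D).image (fun x => G5_r (nE x)) := by
    unfold eH
    rw [Finset.image_union, Finset.image_image, Finset.image_image, Finset.union_comm]
    congr 1
    · apply Finset.image_congr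
      intro x _
      ext <;> simp [G5_r, rfl1, nE, nW] <;> ring
    · apply Finset.image_congr
      intro x _
      ext <;> simp [G5_r, rfl1, nE, nW]
      ring
  have hV : eV (D.image G5_r) = (eV D).image G5_r := by
    unfold eV
    rw [Finset.image_union, Finset.image_image, Finset.image_image]
    congr 2
  unfold energy
  rw [hH, hV, Finset.sum_image (fun x _ y _ h => hinj' h), Finset.sum_image (fun x _ y _ h => hinj h)]
  have e1 : ∀ x, G5_r.symm (nE (G5_r (nE x))) = x := by
    intro x
    ext <;> simp [G5_r, rfl1, nE]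
  have e3 : ∀ x, G5_r.symm (nN (G5_r x)) = nN x := by
    intro x
    ext <;> simp [G5_r, rfl1, nN]
  simp only [e1, e3, Equiv.symm_apply_apply]
  congr 2
  apply Finset.sum_congr rfl
  intro x _
  ring

theorem gam_rfl1 (D : Finset V) (β : V → ℝ) :
    gam (D.image rfl1) (fun x => β (rfl1 x)) = (gam D β).map (fun X x => X (rfl1 x)) :=
  G5_sym G5_r D (G5_energy_r D) β

theorem hx_trans (D : Finset V) (β : V → ℝ) (a x : V) :
    hx (D.image (fun x => x + a)) (fun x => β (x - a)) (x + a) = hx D β x := by
  have h := G5_hx (Equiv.addRight a) (G5_av_trans a) D β x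
  simpa [sub_eq_add_neg] using h
theorem hx_swap (D : Finset V) (β : V → ℝ) (x : V) :
    hx (D.image Prod.swap) (fun x => β x.swap) x.swap = hx D β x :=
  G5_hx (Equiv.prodComm ℤ ℤ) G5_av_swap D β x
theorem hx_rfl1 (D : Finset V) (β : V → ℝ) (x : V) :
    hx (D.image rfl1) (fun x => β (rfl1 x)) (rfl1 x) = hx D β x :=
  G5_hx G5_r G5_av_r D β x
theorem gr_trans (D : Finset V) (a x y : V) : gr (D.image (fun x => x + a)) (x + a) (y + a) = gr D x y := by
  have h := G5_gr (Equiv.addRight a) (G5_av_trans a) D x y
  simpa using h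
theorem gr_swap (D : Finset V) (x y : V) : gr (D.image Prod.swap) x.swap y.swap = gr D x y :=
  G5_gr (Equiv.prodComm ℤ ℤ) G5_av_swap D x y
theorem gr_rfl1 (D : Finset V) (x y : V) : gr (D.image rfl1) (rfl1 x) (rfl1 y) = gr D x y :=
  G5_gr G5_r G5_av_r D x y
theorem hm_trans (D : Finset V) (a x y : V) : hm (D.image (fun x => x + a)) (x + a) (y + a) = hm D x y := by
  have h := G5_hm (Equiv.addRight a) (G5_av_trans a) D x y
  simpa using h
theorem hm_swap (D : Finset V) (x y : V) : hm (D.image Prod.swap) x.swap y.swap = hm D x y :=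
  G5_hm (Equiv.prodComm ℤ ℤ) G5_av_swap D x y
theorem hm_rfl1 (D : Finset V) (x y : V) : hm (D.image rfl1) (rfl1 x) (rfl1 y) = hm D x y :=
  G5_hm G5_r G5_av_r D x y

end GF
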