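import Pool.Agent.Lib.MP_acf58e_gf.Func
import Pool.Agent.Lib.MP_acf58e_gf.G5

/-! MP_acf58e_pr, row Mrc: consequences rc_minus, rc_star of the rectangle crossing theorem RC
(planar duality, sign change, swap of the coordinates). -/

open MeasureTheory Set Filter Topology ProbabilityTheory
open scoped ENNReal

namespace GF

private theorem mrc_st_bd {x y : V} (h : st x y) :
    x.1 - y.1 ≤ 1 ∧ y.1 - x.1 ≤ 1 ∧ x.2 - y.2 ≤ 1 ∧ y.2 - x.2 ≤ 1 := by
  unfold st dI at h
  have h1 : |x.1 - y.1| ≤ 1 := h ▸ le_max_left _ _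
  have h2 : |x.2 - y.2| ≤ 1 := h ▸ le_max_right _ _
  rw [abs_le] at h1 h2
  omega

private theorem mrc_nn_cases {x y : V} (h : nn x y) :
    (x.1 = y.1 ∧ (y.2 = x.2 + 1 ∨ x.2 = y.2 + 1)) ∨
      (x.2 = y.2 ∧ (y.1 = x.1 + 1 ∨ x.1 = y.1 + 1)) := by
  unfold nn at h
  rcases abs_cases (x.1 - y.1) with h1 | h1 <;> rcases abs_cases (x.2 - y.2) with h2 | h2 <;> omega

private theorem mrc_nn_st {x y : V} (h : nn x y) : st x y := by
  unfold nn at h
  unfold st dI
  rcases abs_cases (x.1 - y.1) with h1 | h1 <;> rcases abs_cases (x.2 - y.2) with h2 | h2 <;>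
    rcases max_cases |x.1 - y.1| |x.2 - y.2| with h3 | h3 <;> omega

/-- the step x,y crosses the column gap v.1 | v.1+1 above v -/
private def mrcChi (v x y : V) : ZMod 2 := if x.1 + y.1 = 2 * v.1 + 1 ∧ 2 * v.2 < x.2 + y.2 then 1 else 0

private def mrcCnt (P : ℕ → V) (N : ℕ) (v : V) : ZMod 2 :=
  ∑ i ∈ Finset.range N, mrcChi v (P i) (P (i + 1))

private theorem mrc_chi_vert {v w x y : V} (hw1 : w.1 = v.1) (hw2 : w.2 = v.2 + 1) (h : st x y)
    (hxv : x ≠ v) (hyv : y ≠ v) (hxw : x ≠ w) (hyw : y ≠ w) : mrcChi v x y = mrcChi w x y := by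
  have hb := mrc_st_bd h
  have e1 : ¬ (x.1 = v.1 ∧ x.2 = v.2) := fun e => hxv (Prod.ext e.1 e.2)
  have e2 : ¬ (y.1 = v.1 ∧ y.2 = v.2) := fun e => hyv (Prod.ext e.1 e.2)
  have e3 : ¬ (x.1 = w.1 ∧ x.2 = w.2) := fun e => hxw (Prod.ext e.1 e.2)
  have e4 : ¬ (y.1 = w.1 ∧ y.2 = w.2) := fun e => hyw (Prod.ext e.1 e.2)
  unfold mrcChi
  have : (x.1 + y.1 = 2 * v.1 + 1 ∧ 2 * v.2 < x.2 + y.2) ↔
      (x.1 + y.1 = 2 * w.1 + 1 ∧ 2 * w.2 < x.2 + y.2) := by omega
  simp only [this]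

private theorem mrc_cnt_vert {P : ℕ → V} {N : ℕ} (hs : ∀ i < N, st (P i) (P (i + 1))) {v w : V}
    (hw1 : w.1 = v.1) (hw2 : w.2 = v.2 + 1) (hv : ∀ i ≤ N, P i ≠ v) (hw : ∀ i ≤ N, P i ≠ w) :
    mrcCnt P N v = mrcCnt P N w := by
  unfold mrcCnt
  apply Finset.sum_congr rfl
  intro i hi
  rw [Finset.mem_range] at hi
  exact mrc_chi_vert hw1 hw2 (hs i hi) (hv i hi.le) (hv (i + 1) hi) (hw i hi.le) (hw (i + 1) hi)

private def mrcF (w x : V) : ZMod 2 := if x.1 = w.1 ∧ w.2 < x.2 then 1 else 0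

private theorem mrc_chi_hor {v w x y : V} (hw1 : w.1 = v.1 + 1) (hw2 : w.2 = v.2) (h : st x y)
    (hxw : x ≠ w) (hyw : y ≠ w) : mrcChi v x y + mrcChi w x y = mrcF w y - mrcF w x := by
  have hb := mrc_st_bd h
  have e3 : ¬ (x.1 = w.1 ∧ x.2 = w.2) := fun e => hxw (Prod.ext e.1 e.2)
  have e4 : ¬ (y.1 = w.1 ∧ y.2 = w.2) := fun e => hyw (Prod.ext e.1 e.2)
  unfold mrcChi mrcF
  have h11 : (1 : ZMod 2) - 1 = 0 := by decide
  have h01 : (0 : ZMod 2) - 1 = 1 := by decide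
  have h1p1 : (1 : ZMod 2) + 1 = 0 := by decide
  split_ifs <;> first | (exfalso; omega) | (simp [h11, h01, h1p1])

private theorem mrc_cnt_hor {P : ℕ → V} {N : ℕ} (hs : ∀ i < N, st (P i) (P (i + 1))) {v w : V}
    (hw1 : w.1 = v.1 + 1) (hw2 : w.2 = v.2) (hw : ∀ i ≤ N, P i ≠ w)
    (h0 : (P 0).1 ≠ w.1) (hN : (P N).1 ≠ w.1) :
    mrcCnt P N v = mrcCnt P N w := by
  have h : mrcCnt P N v + mrcCnt P N w = 0 := by
    unfold mrcCnt
    rw [← Finset.sum_add_distrib]
    have : ∀ i ∈ Finset.range N, mrcChi v (P i) (P (i + 1)) + mrcChi w (P i) (P (i + 1)) =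
        mrcF w (P (i + 1)) - mrcF w (P i) := by
      intro i hi
      rw [Finset.mem_range] at hi
      exact mrc_chi_hor hw1 hw2 (hs i hi) (hw i hi.le) (hw (i + 1) hi)
    rw [Finset.sum_congr rfl this, Finset.sum_range_sub (fun i => mrcF w (P i))]
    simp [mrcF, h0, hN]
  have h2 : mrcCnt P N w + mrcCnt P N w = 0 := CharTwo.add_self_eq_zero _
  exact add_right_cancel (h.trans h2.symm)

private theorem mrc_cnt_low {P : ℕ → V} {N : ℕ} (hs : ∀ i < N, st (P i) (P (i + 1))) {v : V}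
    (hv : ∀ i ≤ N, P i ≠ v) (hlow : ∀ i ≤ N, v.2 ≤ (P i).2) (h0 : (P 0).1 ≤ v.1)
    (hN : v.1 < (P N).1) : mrcCnt P N v = 1 := by
  unfold mrcCnt
  have : ∀ i ∈ Finset.range N, mrcChi v (P i) (P (i + 1)) =
      (if v.1 < (P (i + 1)).1 then (1 : ZMod 2) else 0) - (if v.1 < (P i).1 then 1 else 0) := by
    intro i hi
    rw [Finset.mem_range] at hi
    have hb := mrc_st_bd (hs i hi)
    have l1 := hlow i hi.le
    have l2 := hlow (i + 1) hi
    have e1 : ¬ ((P i).1 = v.1 ∧ (P i).2 = v.2) := fun e => hv i hi.le (Prod.ext e.1 e.2)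
    have e2 : ¬ ((P (i + 1)).1 = v.1 ∧ (P (i + 1)).2 = v.2) := fun e => hv (i + 1) hi (Prod.ext e.1 e.2)
    unfold mrcChi
    have h11 : (1 : ZMod 2) - 1 = 0 := by decide
    have h01 : (0 : ZMod 2) - 1 = 1 := by decide
    split_ifs <;> first | (exfalso; omega) | (simp [h11, h01])
  rw [Finset.sum_congr rfl this,
    Finset.sum_range_sub (fun i => (if v.1 < (P i).1 then (1 : ZMod 2) else 0))]
  simp [hN, not_lt.2 h0]

private theorem mrc_cnt_high {P : ℕ → V} {N : ℕ} {v : V}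
    (hhigh : ∀ i ≤ N, (P i).2 ≤ v.2) : mrcCnt P N v = 0 := by
  unfold mrcCnt
  apply Finset.sum_eq_zero
  intro i hi
  rw [Finset.mem_range] at hi
  have l1 := hhigh i hi.le
  have l2 := hhigh (i + 1) hi
  unfold mrcChi
  rw [if_neg]
  omega

/-- a star left-right crossing and an nn bottom-top crossing of a rectangle have a common vertex -/
private theorem mrc_cross {a b c d : ℤ} {n m : ℕ} {p q : ℕ → V}
    (hp : ∀ i ≤ n, p i ∈ Rc a b c d) (hps : ∀ i < n, st (p i) (p (i + 1)))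
    (h0 : (p 0).1 = a) (hn : (p n).1 = b)
    (hq : ∀ j ≤ m, q j ∈ Rc a b c d) (hqs : ∀ j < m, nn (q j) (q (j + 1)))
    (hq0 : (q 0).2 = c) (hqm : (q m).2 = d) : ∃ i ≤ n, ∃ j ≤ m, p i = q j := by
  by_contra hcon
  push Not at hcon
  -- extended path
  obtain ⟨P, hP⟩ : ∃ P : ℕ → V, P = fun i =>
      if i = 0 then (a - 1, (p 0).2) else if i ≤ n + 1 then p (i - 1) else (b + 1, (p n).2) := ⟨_, rfl⟩
  have hP0 : P 0 = (a - 1, (p 0).2) := by rw [hP]; simp
  have hPi : ∀ i ≤ n, P (i + 1) = p i := by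
    intro i hi; rw [hP]; simp [hi]
  have hPN : P (n + 2) = (b + 1, (p n).2) := by rw [hP]; simp
  have hrow : ∀ x : V, x ∈ Rc a b c d ↔ (a ≤ x.1 ∧ c ≤ x.2) ∧ x.1 ≤ b ∧ x.2 ≤ d := by
    intro x; unfold Rc; rw [Finset.mem_Icc]; rfl
  have hs : ∀ i < n + 2, st (P i) (P (i + 1)) := by
    intro i hi
    rcases Nat.eq_zero_or_pos i with rfl | hpos
    · rw [hP0, hPi 0 (Nat.zero_le n)]
      unfold st dI
      simp only [h0]
      norm_num
    · obtain ⟨k, rfl⟩ : ∃ k, i = k + 1 := ⟨i - 1, by omega⟩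
      by_cases hk : k < n
      · rw [hPi k hk.le, hPi (k + 1) hk]
        exact hps k hk
      · have hkn : k = n := by omega
        subst hkn
        rw [hPi k le_rfl, show k + 1 + 1 = k + 2 from rfl, hPN]
        unfold st dI
        simp only [hn]
        norm_num
  have hPrange : ∀ i ≤ n + 2, c ≤ (P i).2 ∧ (P i).2 ≤ d := by
    intro i hi
    rcases Nat.eq_zero_or_pos i with rfl | hpos
    · have := (hrow _).1 (hp 0 (Nat.zero_le n))
      rw [hP0]
      exact ⟨this.1.2, this.2.2⟩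
    · obtain ⟨k, rfl⟩ : ∃ k, i = k + 1 := ⟨i - 1, by omega⟩
      by_cases hk : k ≤ n
      · have := (hrow _).1 (hp k hk)
        rw [hPi k hk]
        exact ⟨this.1.2, this.2.2⟩
      · have hkn : k = n + 1 := by omega
        subst hkn
        have := (hrow _).1 (hp n le_rfl)
        rw [show n + 1 + 1 = n + 2 from rfl, hPN]
        exact ⟨this.1.2, this.2.2⟩
  have hPq : ∀ j ≤ m, ∀ i ≤ n + 2, P i ≠ q j := by
    intro j hj i hi he
    have hqj := (hrow _).1 (hq j hj)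
    rcases Nat.eq_zero_or_pos i with rfl | hpos
    · rw [hP0] at he
      rw [← he] at hqj
      have := hqj.1.1
      simp only at this
      omega
    · obtain ⟨k, rfl⟩ : ∃ k, i = k + 1 := ⟨i - 1, by omega⟩
      by_cases hk : k ≤ n
      · rw [hPi k hk] at he
        exact hcon k hk j hj he
      · have hkn : k = n + 1 := by omega
        subst hkn
        rw [show n + 1 + 1 = n + 2 from rfl, hPN] at he
        rw [← he] at hqj
        have := hqj.2.1
        simp only at this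
        omega
  have hP0c : ∀ j ≤ m, (P 0).1 < (q j).1 := by
    intro j hj
    have := ((hrow _).1 (hq j hj)).1.1
    rw [hP0]; simp only; omega
  have hPNc : ∀ j ≤ m, (q j).1 < (P (n + 2)).1 := by
    intro j hj
    have := ((hrow _).1 (hq j hj)).2.1
    rw [hPN]; simp only; omega
  have hconst : ∀ j ≤ m, mrcCnt P (n + 2) (q j) = mrcCnt P (n + 2) (q 0) := by
    intro j
    induction j with
    | zero => intro _; rfl
    | succ j ih =>
      intro hj
      rw [← ih (by omega)]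
      have hj' : j ≤ m := by omega
      rcases mrc_nn_cases (hqs j (by omega)) with ⟨e1, e2 | e2⟩ | ⟨e1, e2 | e2⟩
      · exact (mrc_cnt_vert hs e1.symm e2 (hPq j hj') (hPq (j + 1) hj)).symm
      · exact mrc_cnt_vert hs e1 e2 (hPq (j + 1) hj) (hPq j hj')
      · exact (mrc_cnt_hor hs e2 e1.symm (hPq (j + 1) hj) (hP0c (j + 1) hj).ne
          (hPNc (j + 1) hj).ne').symm
      · exact mrc_cnt_hor hs e2 e1 (hPq j hj') (hP0c j hj').ne (hPNc j hj').ne'
  have e0 : mrcCnt P (n + 2) (q 0) = 1 :=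
    mrc_cnt_low hs (hPq 0 (Nat.zero_le m)) (fun i hi => by rw [hq0]; exact (hPrange i hi).1)
      (hP0c 0 (Nat.zero_le m)).le (hPNc 0 (Nat.zero_le m))
  have em : mrcCnt P (n + 2) (q m) = 0 :=
    mrc_cnt_high (fun i hi => by rw [hqm]; exact (hPrange i hi).2)
  rw [hconst m le_rfl, e0] at em
  exact one_ne_zero em

private theorem mrc_Q_swap {z : V} {k : ℤ} {D : Finset V} (h : D ⊆ Q z k) :
    D.image Prod.swap ⊆ Q z.swap k := by
  intro x hx
  rw [Finset.mem_image] at hx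
  obtain ⟨y, hy, rfl⟩ := hx
  have := h hy
  unfold Q at this ⊢
  rw [Finset.mem_Icc, Prod.le_def, Prod.le_def] at this ⊢
  simp only [Prod.fst_swap, Prod.snd_swap] at this ⊢
  exact ⟨⟨this.1.2, this.1.1⟩, ⟨this.2.2, this.2.1⟩⟩

private theorem mrc_Rc_swap {a b c d : ℤ} {D : Finset V} (h : Rc a b c d ⊆ D) :
    Rc c d a b ⊆ D.image Prod.swap := by
  intro x hx
  rw [Finset.mem_image]
  refine ⟨x.swap, h ?_, Prod.swap_swap x⟩
  unfold Rc at hx ⊢
  rw [Finset.mem_Icc, Prod.le_def, Prod.le_def] at hx ⊢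
  simp only [Prod.fst_swap, Prod.snd_swap] at hx ⊢
  exact ⟨⟨hx.1.2, hx.1.1⟩, ⟨hx.2.2, hx.2.1⟩⟩

/-- common part: a map Φ X = g ∘ X ∘ swap sending gam D m to gam (swap D) a' -/
private theorem mrc_core (h : RCProp) (A : ℕ) : ∃ C : ℝ, 0 < C ∧ ∀ (r : ℕ), 1 ≤ r →
    ∀ (D : Finset V) (z : V) (a' m : ℝ) (x0 y0 : ℤ) (W H : ℕ) (g : ℝ → ℝ) (S : Set ℝ),
      r ≤ W → W ≤ A * r → r ≤ H → H ≤ A * r → D ⊆ Q z (A * r) →
      Rc (x0 - 8) (x0 + W + 8) (y0 - r - 8) (y0 + H + r + 8) ⊆ D → 1 ≤ a' →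
      Measurable g → (∀ s ∈ S, g s < 0) →
      gam (D.image Prod.swap) (fun _ => a') =
        (gam D (fun _ => m)).map (fun X x => g (X x.swap)) →
      gam D (fun _ => m) {X | ∃ (n : ℕ) (p : ℕ → V), (∀ i ≤ n, X (p i) ∈ S ∧ p i ∈ Rc x0 (x0 + W) y0 (y0 + H)) ∧
        (∀ i < n, st (p i) (p (i + 1))) ∧ (p 0).1 = x0 ∧ (p n).1 = x0 + W}
        ≤ ENNReal.ofReal (C / a') := by
  obtain ⟨C, hC, hrc⟩ := h A 1 one_pos
  refine ⟨C, hC, ?_⟩
  intro r hr D z a' m x0 y0 W H g S hW1 hW2 hH1 hH2 hD hRc ha' hg hS hmap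
  have hA : 1 ≤ A := by
    rcases Nat.eq_zero_or_pos A with rfl | hA
    · omega
    · exact hA
  have hrA : r ≤ A * r := Nat.le_mul_of_pos_left r hA
  have key := hrc r hr (D.image Prod.swap) z.swap a' y0 x0 H W r hH1 hH2 hW1 hW2 le_rfl hrA
    (mrc_Q_swap hD) (mrc_Rc_swap hRc) ha'
  refine le_trans ?_ key
  rw [hmap]
  have hmeas : Measurable (fun (X : V → ℝ) (x : V) => g (X x.swap)) :=
    measurable_pi_lambda _ (fun x => hg.comp (measurable_pi_apply _))
  refine le_trans ?_ (Measure.le_map_apply hmeas.aemeasurable _)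
  apply measure_mono
  rintro X ⟨n, p, hp, hps, hp0, hpn⟩
  rw [mem_preimage, mem_ofPred_eq]
  rintro ⟨n', q, x, y, -, hx, hy, hq0, hqn, hqA, hqs⟩
  obtain ⟨i, hi, j, hj, hij⟩ := mrc_cross (p := p) (q := fun j => (q j).swap) (n := n) (m := n')
    (fun i hi => (hp i hi).2) hps hp0 hpn
    (fun j hj => by
      have := (hqA j hj).2
      have h2 : q j ∈ Rc y0 (y0 + H) x0 (x0 + W) := by exact_mod_cast this
      unfold Rc at h2 ⊢
      rw [Finset.mem_Icc, Prod.le_def, Prod.le_def] at h2 ⊢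
      simp only [Prod.fst_swap, Prod.snd_swap] at h2 ⊢
      exact ⟨⟨h2.1.2, h2.1.1⟩, ⟨h2.2.2, h2.2.1⟩⟩)
    (fun j hj => by
      have := hqs j hj
      unfold nn at this ⊢
      simp only [Prod.fst_swap, Prod.snd_swap]
      linarith)
    (by simp only [Prod.snd_swap, hq0, hx]) (by simp only [Prod.snd_swap, hqn, hy])
  have h1 := hS _ (hp i hi).1
  have h2 : (0 : ℝ) ≤ g (X (q j).swap) := (hqA j hj).1
  rw [← hij] at h2
  linarith

/-- RC-: mean ≤ -a: no open nn left-right crossing -/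
theorem rc_minus (h : RCProp) (A : ℕ) : ∃ C : ℝ, 0 < C ∧ ∀ (r : ℕ), 1 ≤ r →
    ∀ (D : Finset V) (z : V) (t a m : ℝ) (x0 y0 : ℤ) (W H : ℕ),
      r ≤ W → W ≤ A * r → r ≤ H → H ≤ A * r → D ⊆ Q z (A * r) →
      Rc (x0 - 8) (x0 + W + 8) (y0 - r - 8) (y0 + H + r + 8) ⊆ D → 1 ≤ a → m ≤ t - a →
      gam D (fun _ => m) {X | ∃ h n p, IsLR nn x0 (x0 + W) y0 (y0 + H) (lev X t) h n p}
        ≤ ENNReal.ofReal (C / a) := by
  obtain ⟨C, hC, key⟩ := mrc_core h A
  refine ⟨2 * C + 2, by linarith, ?_⟩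
  intro r hr D z t a m x0 y0 W H hW1 hW2 hH1 hH2 hD hRc ha hm
  have ha0 : 0 < a := by linarith
  by_cases ha2 : 2 ≤ a
  · have hmap : gam (D.image Prod.swap) (fun _ => t - a / 2 - m) =
        (gam D (fun _ => m)).map (fun X x => (t - a / 2) - X x.swap) := by
      have e1 := gam_swap D (fun _ => t - a / 2 - m)
      rw [e1]
      have e2 := gam_add_const D (fun _ => -m) (t - a / 2)
      have e3 := gam_neg D (fun _ => m)
      have e4 : (fun _ : V => t - a / 2 - m) = (fun _ => -m + (t - a / 2)) := by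
        funext x; ring
      have mS : Measurable (fun (X : V → ℝ) (x : V) => X x.swap) :=
        measurable_pi_lambda _ (fun x => measurable_pi_apply _)
      have mA : Measurable (fun (X : V → ℝ) (x : V) => X x + (t - a / 2)) :=
        measurable_pi_lambda _ (fun x => (measurable_pi_apply x).add_const _)
      have mN : Measurable (fun (X : V → ℝ) (x : V) => - X x) :=
        measurable_pi_lambda _ (fun x => (measurable_pi_apply x).neg)
      rw [e4, e2, e3, Measure.map_map mA mN, Measure.map_map mS (mA.comp mN)]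
      congr 1
      funext X x
      simp only [Function.comp]
      ring
    have k := key r hr D z (t - a / 2 - m) m x0 y0 W H (fun s => (t - a / 2) - s) {s | t ≤ s}
      hW1 hW2 hH1 hH2 hD hRc (by linarith) (measurable_const.sub measurable_id)
      (fun s hs => by
        have : t ≤ s := hs
        linarith) hmap
    refine le_trans (measure_mono ?_) (le_trans k (ENNReal.ofReal_le_ofReal ?_))
    · rintro X ⟨h', n, p, hp0, hpn, hpA, hps, -⟩
      refine ⟨n, p, fun i hi => ⟨(hpA i hi).1, (hpA i hi).2⟩, fun i hi => mrc_nn_st (hps i hi), ?_, hpn⟩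
      rw [hp0]
    · have h3 : a / 2 ≤ t - a / 2 - m := by linarith
      have h4 : C / (t - a / 2 - m) ≤ C / (a / 2) :=
        div_le_div_of_nonneg_left hC.le (by linarith) h3
      have h5 : C / (a / 2) = 2 * C / a := by field_simp
      have h6 : 2 * C / a ≤ (2 * C + 2) / a := by
        apply div_le_div_of_nonneg_right _ ha0.le
        linarith
      linarith
  · have h1 : gam D (fun _ => m) {X | ∃ h n p, IsLR nn x0 (x0 + W) y0 (y0 + H) (lev X t) h n p} ≤ 1 :=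
      prob_le_one
    refine h1.trans ?_
    rw [← ENNReal.ofReal_one]
    apply ENNReal.ofReal_le_ofReal
    rw [le_div_iff₀ ha0]
    linarith

/-- RC*: mean ≥ a: no closed star left-right crossing -/
theorem rc_star (h : RCProp) (A : ℕ) : ∃ C : ℝ, 0 < C ∧ ∀ (r : ℕ), 1 ≤ r →
    ∀ (D : Finset V) (z : V) (t a m : ℝ) (x0 y0 : ℤ) (W H : ℕ),
      r ≤ W → W ≤ A * r → r ≤ H → H ≤ A * r → D ⊆ Q z (A * r) →
      Rc (x0 - 8) (x0 + W + 8) (y0 - r - 8) (y0 + H + r + 8) ⊆ D → 1 ≤ a → t + a ≤ m →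
      gam D (fun _ => m) {X | ∃ h n p, IsLR st x0 (x0 + W) y0 (y0 + H) {v | X v < t} h n p}
        ≤ ENNReal.ofReal (C / a) := by
  obtain ⟨C, hC, key⟩ := mrc_core h A
  refine ⟨C, hC, ?_⟩
  intro r hr D z t a m x0 y0 W H hW1 hW2 hH1 hH2 hD hRc ha hm
  have ha0 : 0 < a := by linarith
  have hmap : gam (D.image Prod.swap) (fun _ => m - t) =
      (gam D (fun _ => m)).map (fun X x => X x.swap - t) := by
    have e1 := gam_swap D (fun _ => m - t)
    rw [e1]
    have e2 := gam_add_const D (fun _ => m) (-t)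
    have e4 : (fun _ : V => m - t) = (fun _ => m + (-t)) := by
      funext x; ring
    have mS : Measurable (fun (X : V → ℝ) (x : V) => X x.swap) :=
      measurable_pi_lambda _ (fun x => measurable_pi_apply _)
    have mA : Measurable (fun (X : V → ℝ) (x : V) => X x + (-t)) :=
      measurable_pi_lambda _ (fun x => (measurable_pi_apply x).add_const _)
    rw [e4, e2, Measure.map_map mS mA]
    congr 1
  have k := key r hr D z (m - t) m x0 y0 W H (fun s => s - t) {s | s < t}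
    hW1 hW2 hH1 hH2 hD hRc (by linarith) (measurable_id.sub measurable_const)
    (fun s hs => by
      have : s < t := hs
      linarith) hmap
  refine le_trans (measure_mono ?_) (le_trans k (ENNReal.ofReal_le_ofReal ?_))
  · rintro X ⟨h', n, p, hp0, hpn, hpA, hps, -⟩
    refine ⟨n, p, fun i hi => ⟨(hpA i hi).1, (hpA i hi).2⟩, hps, ?_, hpn⟩
    rw [hp0]
  · exact div_le_div_of_nonneg_left hC.le ha0 (by linarith)

end GF
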