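import Pool.Agent.Lib.MP_acf58e_gf.Func
import Pool.Agent.Lib.MP_acf58e_gf.Mrc

open MeasureTheory Set Filter Topology ProbabilityTheory
open scoped ENNReal

namespace GF

section B1aux

private theorem mem_Rc_B1 {a b c d : ℤ} {x : V} :
    x ∈ Rc a b c d ↔ (a ≤ x.1 ∧ c ≤ x.2) ∧ (x.1 ≤ b ∧ x.2 ≤ d) := by
  unfold Rc
  rw [Finset.mem_Icc, Prod.le_def, Prod.le_def]

private theorem mem_Q_B1 {z : V} {r : ℤ} {x : V} :
    x ∈ Q z r ↔ (z.1 - r ≤ x.1 ∧ z.2 - r ≤ x.2) ∧ (x.1 ≤ z.1 + r ∧ x.2 ≤ z.2 + r) := by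
  unfold Q
  rw [Finset.mem_Icc, Prod.le_def, Prod.le_def]

private theorem sw_sw_B1 (x : V) : sw (sw x) = x := rfl

private theorem nn_step_B1 {x y : V} (h : nn x y) : x.1 ≤ y.1 + 1 ∧ y.1 ≤ x.1 + 1 := by
  unfold nn at h
  have h2 := abs_nonneg (x.2 - y.2)
  have h3 : |x.1 - y.1| ≤ 1 := by linarith
  rw [abs_le] at h3
  constructor <;> linarith [h3.1, h3.2]

private theorem nn_sw_B1 {x y : V} (h : nn x y) : nn (sw x) (sw y) := by
  unfold nn at h ⊢
  change |x.2 - y.2| + |x.1 - y.1| = 1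
  linarith

/-- a path crossing a strip contains a crossing in normal form -/
private theorem lr_of_path_B1 {A : Set V} {a b c d : ℤ} (hab : a < b) {q : ℕ → V} {N : ℕ}
    (h0 : (q 0).1 ≤ a) (hN : b ≤ (q N).1) (hA : ∀ i ≤ N, q i ∈ A)
    (hcd : ∀ i ≤ N, c ≤ (q i).2 ∧ (q i).2 ≤ d) (hst : ∀ i < N, nn (q i) (q (i + 1))) :
    ∃ h n p, IsLR nn a b c d A h n p := by
  classical
  have hex : ∃ j, b ≤ (q j).1 := ⟨N, hN⟩
  set j := Nat.find hex with hj
  have hjb : b ≤ (q j).1 := Nat.find_spec hex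
  have hjN : j ≤ N := Nat.find_min' hex hN
  have hmin : ∀ k, k < j → (q k).1 < b := fun k hk => not_le.1 (Nat.find_min hex hk)
  have hj0 : 0 < j := by
    rcases Nat.eq_zero_or_pos j with h | h
    · rw [h] at hjb
      omega
    · exact h
  have hjb' : (q j).1 = b := by
    have h1 := hmin (j - 1) (by omega)
    have h2 := hst (j - 1) (by omega)
    have h3 : j - 1 + 1 = j := by omega
    rw [h3] at h2
    have := nn_step_B1 h2
    omega
  set i := Nat.findGreatest (fun i => (q i).1 ≤ a) j with hi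
  have hia : (q i).1 ≤ a := Nat.findGreatest_spec (P := fun i => (q i).1 ≤ a) (Nat.zero_le j) h0
  have hij : i ≤ j := Nat.findGreatest_le j
  have hij' : i < j := by
    rcases Nat.lt_or_ge i j with h | h
    · exact h
    · have : i = j := le_antisymm hij h
      rw [this, hjb'] at hia
      omega
  have hgt : ∀ k, i < k → k ≤ j → a < (q k).1 := fun k h1 h2 =>
    not_le.1 (Nat.findGreatest_is_greatest (P := fun i => (q i).1 ≤ a) h1 h2)
  have hia' : (q i).1 = a := by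
    have h1 := hgt (i + 1) (by omega) (by omega)
    have := nn_step_B1 (hst i (by omega))
    omega
  refine ⟨(q i).2, j - i, fun k => q (i + k), ?_, ?_, ?_, ?_, ?_⟩
  · exact Prod.ext hia' rfl
  · change (q (i + (j - i))).1 = b
    rw [show i + (j - i) = j by omega]
    exact hjb'
  · intro k hk
    have hk' : i + k ≤ j := by omega
    refine ⟨hA _ (by omega), mem_Rc_B1.2 ⟨⟨?_, (hcd _ (by omega)).1⟩, ?_, (hcd _ (by omega)).2⟩⟩
    · change a ≤ (q (i + k)).1
      rcases Nat.eq_zero_or_pos k with h | h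
      · rw [h, Nat.add_zero, hia']
      · exact (hgt (i + k) (by omega) hk').le
    · change (q (i + k)).1 ≤ b
      rcases Nat.lt_or_ge (i + k) j with h | h
      · exact (hmin _ h).le
      · rw [show i + k = j by omega, hjb']
  · intro k hk
    exact hst (i + k) (by omega)
  · intro k hk1 hk2
    exact ⟨hgt _ (by omega) (by omega), hmin _ (by omega)⟩

private theorem exists_path_B1 {A : Set V} {x y : V} (h : ConnIn nn A x y) :
    ∃ (N : ℕ) (q : ℕ → V), q 0 = x ∧ q N = y ∧ (∀ i ≤ N, q i ∈ A) ∧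
      ∀ i < N, nn (q i) (q (i + 1)) := by
  obtain ⟨hx, h⟩ := h
  induction h with
  | refl => exact ⟨0, fun _ => x, rfl, rfl, fun _ _ => hx, fun i hi => absurd hi (Nat.not_lt_zero i)⟩
  | @tail b c _ hbc ih =>
    obtain ⟨N, q, h0, hN, hA, hst⟩ := ih
    refine ⟨N + 1, fun i => if i ≤ N then q i else c, by simp [h0], by simp, ?_, ?_⟩
    · intro i hi
      by_cases h : i ≤ N
      · simp only [h, if_true]
        exact hA i h
      · simp only [h, if_false]
        exact hbc.2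
    · intro i hi
      by_cases h : i + 1 ≤ N
      · have h' : i ≤ N := by omega
        simp only [h, h', if_true]
        exact hst i (by omega)
      · have h' : i = N := by omega
        subst h'
        simp only [le_refl, if_true, h, if_false]
        rw [hN]
        exact hbc.1

/-- one of the strips is crossed -/
private theorem strip_B1 {ρ s : ℕ} (hρ : 64 ≤ ρ) (hs : s = ρ / 4) {w : V} {B A : Set V}
    (hAB : A ⊆ B) (hAQ : A ⊆ (Q w (4 * ρ) : Set V)) (hA : IsConn nn A) {x y : V}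
    (hx : x ∈ A) (hy : y ∈ A) (hxy : (ρ : ℤ) ≤ 2 * (y.1 - x.1)) :
    ∃ k : ℕ, k < 40 ∧ ∃ h n p, IsLR nn (w.1 - 4 * ρ + k * s) (w.1 - 4 * ρ + k * s + s)
      (w.2 - 4 * ρ) (w.2 - 4 * ρ + (8 * ρ : ℕ)) B h n p := by
  obtain ⟨N, q, h0, hN, hqA, hst⟩ := exists_path_B1 (hA x hx y hy)
  have hxQ := mem_Q_B1.1 (Finset.mem_coe.1 (hAQ hx))
  have hyQ := mem_Q_B1.1 (Finset.mem_coe.1 (hAQ hy))
  have hs1 : 16 ≤ s := by omega
  obtain ⟨u, hu⟩ : ∃ u : ℕ, (u : ℤ) = x.1 - (w.1 - 4 * ρ) :=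
    ⟨(x.1 - (w.1 - 4 * ρ)).toNat, Int.toNat_of_nonneg (by omega)⟩
  set k := (u + (s - 1)) / s with hk
  have hk1 : u ≤ k * s := by
    have h1 : u + (s - 1) < (k + 1) * s := by
      rw [hk, Nat.mul_comm]
      exact Nat.lt_mul_div_succ _ (by omega)
    have h3 : (k + 1) * s = k * s + s := by ring
    omega
  have hk2 : k * s ≤ u + (s - 1) := Nat.div_mul_le_self _ _
  have hk3 : k < 40 := by
    by_contra hno
    have h1 : 40 * s ≤ k * s := Nat.mul_le_mul_right s (by omega)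
    omega
  have hks : ((k * s : ℕ) : ℤ) = (k : ℤ) * s := by push_cast; ring
  refine ⟨k, hk3, lr_of_path_B1 (q := q) (N := N) (by omega) ?_ ?_ (fun i hi => hAB (hqA i hi)) ?_ hst⟩
  · rw [h0, ← hks]
    omega
  · rw [hN, ← hks]
    omega
  · intro i hi
    have h1 := mem_Q_B1.1 (Finset.mem_coe.1 (hAQ (hqA i hi)))
    push_cast
    omega

/-! ### swap of the coordinates -/

private theorem sum_sw_B1 {S T : Finset V} (h : ∀ x, x ∈ S ↔ sw x ∈ T) (g : V → ℝ) :
    ∑ x ∈ S, g (sw x) = ∑ x ∈ T, g x := by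
  refine Finset.sum_nbij' sw sw ?_ ?_ ?_ ?_ ?_
  · exact fun x hx => (h x).1 hx
  · intro x hx
    rw [h]
    exact hx
  · exact fun x _ => rfl
  · exact fun x _ => rfl
  · exact fun x _ => rfl

private theorem mem_eH_B1 {D : Finset V} {x : V} : x ∈ eH D ↔ x ∈ D ∨ nE x ∈ D := by
  unfold eH
  rw [Finset.mem_union, Finset.mem_image]
  constructor
  · rintro (h | ⟨y, hy, rfl⟩)
    · exact Or.inl h
    · right
      have : nE (nW y) = y := by
        unfold nE nW
        simp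
      rwa [this]
  · rintro (h | h)
    · exact Or.inl h
    · right
      refine ⟨nE x, h, ?_⟩
      unfold nE nW
      simp

private theorem mem_eV_B1 {D : Finset V} {x : V} : x ∈ eV D ↔ x ∈ D ∨ nN x ∈ D := by
  unfold eV
  rw [Finset.mem_union, Finset.mem_image]
  constructor
  · rintro (h | ⟨y, hy, rfl⟩)
    · exact Or.inl h
    · right
      have : nN (nS y) = y := by
        unfold nN nS
        simp
      rwa [this]
  · rintro (h | h)
    · exact Or.inl h
    · right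
      refine ⟨nN x, h, ?_⟩
      unfold nN nS
      simp

private theorem energy_sw_B1 {D D' : Finset V} (h : ∀ x, x ∈ D' ↔ sw x ∈ D) (X : V → ℝ) :
    energy D' (swF X) = energy D X := by
  unfold energy
  have h1 : ∑ x ∈ eH D', (swF X (nE x) - swF X x) ^ 2 = ∑ x ∈ eV D, (X (nN x) - X x) ^ 2 :=
    sum_sw_B1 (g := fun x => (X (nN x) - X x) ^ 2) (fun x => by
      rw [mem_eH_B1, mem_eV_B1, h x, h (nE x)]
      exact Iff.rfl)
  have h2 : ∑ x ∈ eV D', (swF X (nN x) - swF X x) ^ 2 = ∑ x ∈ eH D, (X (nE x) - X x) ^ 2 :=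
    sum_sw_B1 (g := fun x => (X (nE x) - X x) ^ 2) (fun x => by
      rw [mem_eH_B1, mem_eV_B1, h x, h (nN x)]
      exact Iff.rfl)
  rw [h1, h2, add_comm]

private theorem measurable_glue_B1 (D : Finset V) (β : V → ℝ) : Measurable (glue D β) := by
  unfold glue Function.updateFinset
  refine measurable_pi_lambda _ fun v => ?_
  by_cases h : v ∈ D
  · simp only [h, dif_pos]
    exact measurable_pi_apply _
  · simp only [h, dif_neg, not_false_eq_true]
    exact measurable_const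

private theorem measurable_wt_B1 (D : Finset V) : Measurable (wt D) := by
  unfold wt energy
  fun_prop

private theorem measurable_swF_B1 : Measurable swF :=
  measurable_pi_lambda _ fun _ => measurable_pi_apply _

private theorem gam_univ_B1 (D : Finset V) (β : V → ℝ) : gam D β Set.univ ≤ 1 := by
  unfold gam
  rw [Measure.smul_apply, Measure.map_apply (measurable_glue_B1 D β) MeasurableSet.univ,
    Set.preimage_univ, withDensity_apply _ MeasurableSet.univ, Measure.restrict_univ]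
  exact ENNReal.inv_mul_le_one _

private theorem gam_sw_B1 {D D' : Finset V} (h : ∀ x, x ∈ D' ↔ sw x ∈ D) (β : V → ℝ)
    {E : Set (V → ℝ)} : gam D β (swF ⁻¹' E) = gam D' (swF β) E := by
  classical
  let swE : (V → ℝ) ≃ᵐ (V → ℝ) :=
    { toFun := swF, invFun := swF, left_inv := fun _ => rfl, right_inv := fun _ => rfl
      measurable_toFun := measurable_swF_B1, measurable_invFun := measurable_swF_B1 }
  let e : D ≃ D' :=
    { toFun := fun v => ⟨sw v.1, (h _).2 (by rw [sw_sw_B1]; exact v.2)⟩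
      invFun := fun v => ⟨sw v.1, (h _).1 v.2⟩
      left_inv := fun _ => rfl
      right_inv := fun _ => rfl }
  let T : (D → ℝ) ≃ᵐ (D' → ℝ) := MeasurableEquiv.piCongrLeft (fun _ => ℝ) e
  have hT : MeasurePreserving T := volume_measurePreserving_piCongrLeft (fun _ => ℝ) e
  have hTv : ∀ (y : D → ℝ) (v : D'), T y v = y (e.symm v) := by
    intro y v
    obtain ⟨u, rfl⟩ := e.surjective v
    rw [e.symm_apply_apply]
    exact Equiv.piCongrLeft_apply_apply (fun _ => ℝ) e y u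
  have hglue : ∀ y : D → ℝ, swF (glue D β y) = glue D' (swF β) (T y) := by
    intro y
    funext v
    change glue D β y (sw v) = _
    unfold glue Function.updateFinset
    by_cases hv : v ∈ D'
    · rw [dif_pos hv, dif_pos ((h v).1 hv), hTv]
      rfl
    · rw [dif_neg hv, dif_neg (fun h' => hv ((h v).2 h'))]
      rfl
  have hwt : ∀ X, wt D X = wt D' (swF X) := by
    intro X
    unfold wt
    rw [energy_sw_B1 h]
  have hdens : ∀ y, wt D (glue D β y) = wt D' (glue D' (swF β) (T y)) := by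
    intro y
    rw [hwt, hglue]
  have hmeas : Measurable fun y : D' → ℝ => wt D' (glue D' (swF β) y) :=
    (measurable_wt_B1 D').comp (measurable_glue_B1 _ _)
  have hpf : pf D β = pf D' (swF β) := by
    unfold pf
    simp_rw [hdens]
    exact hT.lintegral_comp hmeas
  have hmap : ((volume : Measure (D → ℝ)).withDensity (fun y => wt D (glue D β y))).map T =
      (volume : Measure (D' → ℝ)).withDensity (fun y => wt D' (glue D' (swF β) y)) := by
    ext S hS
    rw [Measure.map_apply T.measurable hS, withDensity_apply _ (T.measurable hS),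
      withDensity_apply _ hS]
    simp_rw [hdens]
    exact hT.setLIntegral_comp_preimage hS hmeas
  have key : (gam D β).map swF = gam D' (swF β) := by
    unfold gam
    rw [Measure.map_smul, Measure.map_map measurable_swF_B1 (measurable_glue_B1 _ _), hpf,
      ← hmap, Measure.map_map (measurable_glue_B1 _ _) T.measurable]
    congr 2
    funext y
    exact hglue y
  rw [← key]
  exact (swE.map_apply (μ := gam D β) E).symm

private theorem gam_swQ_B1 (w : V) (r : ℤ) (a : ℝ) (E : Set (V → ℝ)) :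
    gam (Q w r) (fun _ => a) (swF ⁻¹' E) = gam (Q (sw w) r) (fun _ => a) E := by
  apply gam_sw_B1
  intro x
  rw [mem_Q_B1, mem_Q_B1]
  unfold sw
  tauto

private theorem ShortLR.mono_B1 {L L' : ℝ} (h : L ≤ L') {a b c d : ℤ} {X : V → ℝ}
    (hs : ShortLR L a b c d X) : ShortLR L' a b c d X := by
  obtain ⟨n, p, x, y, h1, h2⟩ := hs
  exact ⟨n, p, x, y, h1.trans h, h2⟩

/-- the crossing event of a strip -/
private def strEv_B1 (t : ℝ) (ρ s : ℕ) (w : V) (k : ℕ) : Set (V → ℝ) :=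
  {X | ∃ h n p, IsLR nn (w.1 - 4 * ρ + k * s) (w.1 - 4 * ρ + k * s + s)
      (w.2 - 4 * ρ) (w.2 - 4 * ρ + (8 * ρ : ℕ)) (lev X t) h n p}

private theorem image_sw_conn_B1 {A : Set V} (h : IsConn nn A) : IsConn nn {x | sw x ∈ A} := by
  intro x hx y hy
  obtain ⟨h1, h2⟩ := h (sw x) hx (sw y) hy
  refine ⟨hx, ?_⟩
  have key : ∀ z : V, Relation.ReflTransGen (fun a b => nn a b ∧ b ∈ A) (sw x) z →
      Relation.ReflTransGen (fun a b => nn a b ∧ b ∈ {x | sw x ∈ A}) x (sw z) := by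
    intro z hz
    induction hz with
    | refl => exact Relation.ReflTransGen.refl
    | tail _ hbc ih => exact ih.tail ⟨nn_sw_B1 hbc.1, hbc.2⟩
  exact key _ h2

private theorem cover_B1 {ρ s : ℕ} (hρ : 64 ≤ ρ) (hs : s = ρ / 4) {w : V} {t : ℝ} {X : V → ℝ}
    (hX : ∃ A ⊆ (Q w (4 * ρ) : Set V) ∩ lev X t, IsConn nn A ∧ ∃ x ∈ A, ∃ y ∈ A,
      (ρ : ℤ) ≤ 2 * dI x y) :
    (∃ k, k < 40 ∧ X ∈ strEv_B1 t ρ s w k) ∨ ∃ k, k < 40 ∧ swF X ∈ strEv_B1 t ρ s (sw w) k := by
  obtain ⟨A, hA, hconn, x, hx, y, hy, hxy⟩ := hX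
  have hAQ : A ⊆ (Q w (4 * ρ) : Set V) := fun z hz => (hA hz).1
  have hAl : A ⊆ lev X t := fun z hz => (hA hz).2
  have hAQ' : {x | sw x ∈ A} ⊆ (Q (sw w) (4 * ρ) : Set V) := by
    intro z hz
    have h1 := mem_Q_B1.1 (Finset.mem_coe.1 (hAQ hz))
    refine Finset.mem_coe.2 (mem_Q_B1.2 ?_)
    unfold sw at h1 ⊢
    dsimp only at h1 ⊢
    omega
  have hAl' : {x | sw x ∈ A} ⊆ lev (swF X) t := fun z hz => hAl hz
  have hconn' := image_sw_conn_B1 hconn
  have hd : (ρ : ℤ) ≤ 2 * (y.1 - x.1) ∨ (ρ : ℤ) ≤ 2 * (x.1 - y.1) ∨ (ρ : ℤ) ≤ 2 * (y.2 - x.2) ∨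
      (ρ : ℤ) ≤ 2 * (x.2 - y.2) := by
    unfold dI at hxy
    rcases max_cases |x.1 - y.1| |x.2 - y.2| with h | h <;> rw [h.1] at hxy
    · rcases abs_cases (x.1 - y.1) with h' | h' <;> rw [h'.1] at hxy <;> omega
    · rcases abs_cases (x.2 - y.2) with h' | h' <;> rw [h'.1] at hxy <;> omega
  rcases hd with h | h | h | h
  · exact Or.inl (strip_B1 hρ hs hAl hAQ hconn hx hy h)
  · exact Or.inl (strip_B1 hρ hs hAl hAQ hconn hy hx h)
  · exact Or.inr (strip_B1 hρ hs hAl' hAQ' hconn' (x := sw x) (y := sw y) hx hy h)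
  · exact Or.inr (strip_B1 hρ hs hAl' hAQ' hconn' (x := sw y) (y := sw x) hy hx h)

private theorem Q_mono_B1 {z : V} {r r' : ℤ} (h : r ≤ r') : Q z r ⊆ Q z r' := by
  intro x hx
  rw [mem_Q_B1] at hx ⊢
  omega

private theorem strip_prob_B1 {C1 : ℝ} (h : ∀ (r : ℕ), 1 ≤ r →
    ∀ (D : Finset V) (z : V) (t a m : ℝ) (x0 y0 : ℤ) (W H : ℕ),
      r ≤ W → W ≤ 200 * r → r ≤ H → H ≤ 200 * r → D ⊆ Q z ((200 : ℕ) * r) →
      Rc (x0 - 8) (x0 + W + 8) (y0 - r - 8) (y0 + H + r + 8) ⊆ D → 1 ≤ a → m ≤ t - a →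
      gam D (fun _ => m) {X | ∃ h n p, IsLR nn x0 (x0 + W) y0 (y0 + H) (lev X t) h n p}
        ≤ ENNReal.ofReal (C1 / a))
    {ρ s : ℕ} (hρ : 64 ≤ ρ) (hs : s = ρ / 4) (w : V) {t a : ℝ} (ht : 2 ≤ t) (ha : a < t / 2)
    {k : ℕ} (hk : k < 40) :
    gam (Q w (40 * ρ)) (fun _ => a) (strEv_B1 t ρ s w k) ≤ ENNReal.ofReal (C1 / (t / 2)) := by
  have hks : k * s ≤ 39 * s := Nat.mul_le_mul_right s (by omega)
  have hks' : ((k * s : ℕ) : ℤ) = (k : ℤ) * s := by push_cast; ring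
  refine h s (by omega) (Q w (40 * ρ)) w t (t / 2) a (w.1 - 4 * ρ + k * s) (w.2 - 4 * ρ) s
    (8 * ρ) le_rfl (by omega) (by omega) (by omega) (Q_mono_B1 (by push_cast; omega)) ?_
    (by linarith) (by linarith)
  intro x hx
  rw [mem_Rc_B1] at hx
  rw [mem_Q_B1]
  rw [← hks'] at hx
  push_cast at hx
  omega

private theorem arc_prob_B1 {C0 ε : ℝ} (h : ∀ (r : ℕ), 1 ≤ r →
    ∀ (D : Finset V) (z : V) (a : ℝ) (x0 y0 : ℤ) (W H Wd : ℕ),
      r ≤ W → W ≤ 41 * r → r ≤ H → H ≤ 41 * r → r ≤ Wd → Wd ≤ 41 * r → D ⊆ Q z ((41 : ℕ) * r) →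
      Rc (x0 - Wd - 8) (x0 + W + Wd + 8) (y0 - 8) (y0 + H + 8) ⊆ D → 1 ≤ a →
      gam D (fun _ => a) {X | ¬ ShortLR (C0 * (r : ℝ) ^ (1 + ε)) x0 (x0 + W) y0 (y0 + H) X}
        ≤ ENNReal.ofReal (C0 / a))
    {L : ℝ} {r : ℕ} (hr : 63 ≤ r) (hL : C0 * (r : ℝ) ^ (1 + ε) ≤ L) (w : V) {a : ℝ} (ha : 1 ≤ a)
    (y0 : ℤ) (hy : w.2 - 3 * (r + 1) ≤ y0) (hy' : y0 ≤ w.2 + 3 * (r + 1)) :
    gam (Q w (40 * (r + 1 : ℕ))) (fun _ => a) {X | ¬ ShortLR L (w.1 - 2 * (r + 1 : ℕ))
      (w.1 + 2 * (r + 1 : ℕ)) y0 (y0 + r) X} ≤ ENNReal.ofReal (C0 / a) := by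
  have h1 := h r (by omega) (Q w (40 * (r + 1 : ℕ))) w a (w.1 - 2 * (r + 1 : ℕ)) y0
    (4 * (r + 1)) r (r + 1) (by omega) (by omega) le_rfl (by omega) (by omega) (by omega)
    (Q_mono_B1 (by push_cast; omega)) (by
      intro x hx
      rw [mem_Rc_B1] at hx
      rw [mem_Q_B1]
      push_cast at hx ⊢
      omega) ha
  refine le_trans (measure_mono ?_) h1
  intro X hX hs
  apply hX
  have h2 : w.1 - 2 * ((r + 1 : ℕ) : ℤ) + ((4 * (r + 1) : ℕ) : ℤ) =
      w.1 + 2 * ((r + 1 : ℕ) : ℤ) := by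
    push_cast
    ring
  rw [h2] at hs
  exact hs.mono_B1 hL

end B1aux

theorem B1 (hR : RCProp) (ε : ℝ) (hε : 0 < ε) : ∃ C : ℝ, 0 < C ∧ ∀ (ρ : ℕ), 64 ≤ ρ → ∀ (w : V) (t a : ℝ), 1 ≤ t →
    gam (Q w (40 * ρ)) (fun _ => a) (BadB t (C * (ρ : ℝ) ^ (1 + ε)) ρ w) ≤ ENNReal.ofReal (C / t) := by
  obtain ⟨C0, hC0, h0⟩ := hR 41 ε hε
  obtain ⟨C1, hC1, h1⟩ := rc_minus hR 200
  refine ⟨2 + 8 * C0 + 160 * C1, by positivity, ?_⟩
  intro ρ hρ w t a ht
  set C : ℝ := 2 + 8 * C0 + 160 * C1 with hC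
  have ht0 : 0 < t := by linarith
  rcases lt_or_ge t 2 with ht2 | ht2
  · -- trivial bound
    refine (measure_mono (Set.subset_univ _)).trans ((gam_univ_B1 _ _).trans ?_)
    rw [← ENNReal.ofReal_one]
    apply ENNReal.ofReal_le_ofReal
    rw [le_div_iff₀ ht0]
    linarith
  rcases lt_or_ge a (t / 2) with ha | ha
  · -- low mean
    have hsub : BadB t (C * (ρ : ℝ) ^ (1 + ε)) ρ w ⊆
        (⋃ k ∈ Finset.range 40, strEv_B1 t ρ (ρ / 4) w k) ∪
          swF ⁻¹' (⋃ k ∈ Finset.range 40, strEv_B1 t ρ (ρ / 4) (sw w) k) := by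
      intro X hX
      rcases cover_B1 hρ rfl hX.1 with ⟨k, hk, h⟩ | ⟨k, hk, h⟩
      · left
        simp only [Set.mem_iUnion, Finset.mem_range]
        exact ⟨k, hk, h⟩
      · right
        simp only [Set.mem_preimage, Set.mem_iUnion, Finset.mem_range]
        exact ⟨k, hk, h⟩
    have hun : ∀ w : V, gam (Q w (40 * ρ)) (fun _ => a)
        (⋃ k ∈ Finset.range 40, strEv_B1 t ρ (ρ / 4) w k) ≤
          ENNReal.ofReal (40 * (C1 / (t / 2))) := by
      intro w
      refine (measure_biUnion_finset_le _ _).trans ?_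
      refine (Finset.sum_le_card_nsmul _ _ (ENNReal.ofReal (C1 / (t / 2))) ?_).trans ?_
      · intro k hk
        exact strip_prob_B1 h1 hρ rfl w ht2 ha (Finset.mem_range.1 hk)
      · rw [Finset.card_range, ENNReal.ofReal_mul (by norm_num), nsmul_eq_mul]
        apply le_of_eq
        congr 1
        simp
    refine (measure_mono hsub).trans ((measure_union_le _ _).trans ?_)
    rw [gam_swQ_B1]
    refine (add_le_add (hun w) (hun (sw w))).trans ?_
    rw [← ENNReal.ofReal_add (by positivity) (by positivity)]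
    apply ENNReal.ofReal_le_ofReal
    rw [div_div_eq_mul_div]
    rw [← mul_div_assoc, ← add_div]
    apply div_le_div_of_nonneg_right _ ht0.le
    rw [hC]
    linarith
  · -- high mean
    obtain ⟨r, rfl⟩ : ∃ r, ρ = r + 1 := ⟨ρ - 1, by omega⟩
    have ha1 : 1 ≤ a := by linarith
    have hL : C0 * (r : ℝ) ^ (1 + ε) ≤ C * ((r + 1 : ℕ) : ℝ) ^ (1 + ε) := by
      apply mul_le_mul (by rw [hC]; linarith) _ (by positivity) (by positivity)
      apply Real.rpow_le_rpow (by positivity) _ (by linarith)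
      push_cast
      linarith
    set L : ℝ := C * ((r + 1 : ℕ) : ℝ) ^ (1 + ε) with hLdef
    have harc : ∀ (w : V) (y0 : ℤ), w.2 - 3 * (r + 1) ≤ y0 → y0 ≤ w.2 + 3 * (r + 1) →
        gam (Q w (40 * (r + 1 : ℕ))) (fun _ => a) {X | ¬ ShortLR L (w.1 - 2 * (r + 1 : ℕ))
          (w.1 + 2 * (r + 1 : ℕ)) y0 (y0 + r) X} ≤ ENNReal.ofReal (C0 / a) :=
      fun w y0 hy hy' => arc_prob_B1 h0 (by omega) hL w ha1 y0 hy hy'
    set T : V → Set (V → ℝ) := fun w => {X | ¬ ShortLR L (w.1 - 2 * (r + 1 : ℕ))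
      (w.1 + 2 * (r + 1 : ℕ)) (w.2 + (r + 1 : ℕ) + 1) (w.2 + 2 * (r + 1 : ℕ)) X} with hT
    set B : V → Set (V → ℝ) := fun w => {X | ¬ ShortLR L (w.1 - 2 * (r + 1 : ℕ))
      (w.1 + 2 * (r + 1 : ℕ)) (w.2 - 2 * (r + 1 : ℕ)) (w.2 - (r + 1 : ℕ) - 1) X} with hB
    have hTp : ∀ w, gam (Q w (40 * (r + 1 : ℕ))) (fun _ => a) (T w) ≤
        ENNReal.ofReal (C0 / a) := by
      intro w
      have h2 := harc w (w.2 + (r + 1 : ℕ) + 1) (by push_cast; omega) (by push_cast; omega)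
      have h3 : w.2 + ((r + 1 : ℕ) : ℤ) + 1 + r = w.2 + 2 * ((r + 1 : ℕ) : ℤ) := by
        push_cast
        ring
      rw [h3] at h2
      exact h2
    have hBp : ∀ w, gam (Q w (40 * (r + 1 : ℕ))) (fun _ => a) (B w) ≤
        ENNReal.ofReal (C0 / a) := by
      intro w
      have h2 := harc w (w.2 - 2 * (r + 1 : ℕ)) (by push_cast; omega) (by push_cast; omega)
      have h3 : w.2 - 2 * ((r + 1 : ℕ) : ℤ) + r = w.2 - ((r + 1 : ℕ) : ℤ) - 1 := by
        push_cast
        ring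
      rw [h3] at h2
      exact h2
    have hsub : BadB t L (r + 1) w ⊆ (T w ∪ B w) ∪ swF ⁻¹' (T (sw w) ∪ B (sw w)) := by
      intro X hX
      by_contra hno
      apply hX.2
      simp only [Set.mem_union, not_or, Set.mem_preimage] at hno
      obtain ⟨⟨h2, h3⟩, h4, h5⟩ := hno
      exact ⟨not_not.1 h2, not_not.1 h3, not_not.1 h4, not_not.1 h5⟩
    refine (measure_mono hsub).trans ((measure_union_le _ _).trans ?_)
    rw [gam_swQ_B1]
    refine (add_le_add (measure_union_le _ _) (measure_union_le _ _)).trans ?_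
    refine (add_le_add (add_le_add (hTp w) (hBp w))
      (add_le_add (hTp (sw w)) (hBp (sw w)))).trans ?_
    have ha0 : 0 < a := by linarith
    have hpos : 0 ≤ C0 / a := by positivity
    rw [← ENNReal.ofReal_add hpos hpos, ← ENNReal.ofReal_add (by positivity) (by positivity)]
    apply ENNReal.ofReal_le_ofReal
    have h6 : C0 / a ≤ 2 * C0 / t := by
      rw [div_le_div_iff₀ ha0 ht0]
      nlinarith
    have h7 : 4 * (2 * C0 / t) ≤ C / t := by
      rw [← mul_div_assoc]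
      apply div_le_div_of_nonneg_right _ ht0.le
      rw [hC]
      linarith
    linarith

end GF
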