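import Pool.Agent.Lib.MP_acf58e_gf.Func

open MeasureTheory Set Filter Topology ProbabilityTheory
open scoped ENNReal

namespace GF

theorem IsPath.append {adj : V → V → Prop} {A : Set V} {n m : ℕ} {p q : ℕ → V} {x y z : V}
    (hp : IsPath adj A n p x y) (hq : IsPath adj A m q y z) : ∃ r, IsPath adj A (n + m) r x z := by
  obtain ⟨p0, pn, pA, pad⟩ := hp
  obtain ⟨q0, qn, qA, qad⟩ := hq
  refine ⟨fun i => if i ≤ n then p i else q (i - n), ?_, ?_, ?_, ?_⟩
  · simp [p0]
  · by_cases hm : m = 0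
    · subst hm
      simp only [add_zero, le_refl, if_true]
      rw [pn, ← q0, qn]
    · have : ¬ (n + m ≤ n) := by omega
      simp only [this, if_false]
      rw [Nat.add_sub_cancel_left, qn]
  · intro i hi
    by_cases h : i ≤ n
    · simp only [h, if_true]; exact pA i h
    · simp only [h, if_false]; exact qA _ (by omega)
  · intro i hi
    by_cases h : i + 1 ≤ n
    · have h' : i ≤ n := by omega
      simp only [h, h', if_true]; exact pad i (by omega)
    · by_cases h' : i ≤ n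
      · have hin : i = n := by omega
        subst hin
        simp only [le_refl, if_true, h, if_false]
        have := qad 0 (by omega)
        rw [q0] at this
        rw [pn]
        have e : i + 1 - i = 0 + 1 := by omega
        rw [e]
        exact this
      · simp only [h, h', if_false]
        have := qad (i - n) (by omega)
        have e : i + 1 - n = i - n + 1 := by omega
        rw [e]; exact this

theorem IsPath.single {adj : V → V → Prop} {A : Set V} {x y : V} (hx : x ∈ A) (hy : y ∈ A)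
    (h : adj x y) : ∃ p, IsPath adj A 1 p x y := by
  refine ⟨fun i => if i = 0 then x else y, by simp, by simp, ?_, ?_⟩
  · intro i _
    by_cases h : i = 0 <;> simp [h, hx, hy]
  · intro i hi
    have : i = 0 := by omega
    subst this
    simpa using h

theorem IsPath.refl {adj : V → V → Prop} {A : Set V} {x : V} (hx : x ∈ A) :
    IsPath adj A 0 (fun _ => x) x x :=
  ⟨rfl, rfl, fun _ _ => hx, fun i hi => absurd hi (by omega)⟩

theorem IsPath.tail {adj : V → V → Prop} {A : Set V} {n m : ℕ} {p : ℕ → V} {x y : V}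
    (hp : IsPath adj A n p x y) (hm : m ≤ n) :
    IsPath adj A (n - m) (fun i => p (m + i)) (p m) y := by
  obtain ⟨p0, pn, pA, pad⟩ := hp
  refine ⟨by simp, ?_, ?_, ?_⟩
  · rw [← pn]
    have e : m + (n - m) = n := by omega
    simp only [e]
  · intro i hi; exact pA _ (by omega)
  · intro i hi; exact pad (m + i) (by omega)

theorem IsPath.mono {adj : V → V → Prop} {A B : Set V} (hAB : A ⊆ B) {n : ℕ} {p : ℕ → V} {x y : V}
    (hp : IsPath adj A n p x y) : IsPath adj B n p x y :=
  ⟨hp.1, hp.2.1, fun i hi => hAB (hp.2.2.1 i hi), hp.2.2.2⟩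

theorem ConnIn.mem_left {adj : V → V → Prop} {A : Set V} {x y : V} (h : ConnIn adj A x y) :
    x ∈ A := h.1

theorem ConnIn.mem_right {adj : V → V → Prop} {A : Set V} {x y : V} (h : ConnIn adj A x y) :
    y ∈ A := by
  obtain ⟨hx, h⟩ := h
  induction h with
  | refl => exact hx
  | tail _ h _ => exact h.2

theorem ConnIn.refl {adj : V → V → Prop} {A : Set V} {x : V} (h : x ∈ A) : ConnIn adj A x x :=
  ⟨h, Relation.ReflTransGen.refl⟩

theorem ConnIn.trans {adj : V → V → Prop} {A : Set V} {x y z : V} (h : ConnIn adj A x y)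
    (h' : ConnIn adj A y z) : ConnIn adj A x z :=
  ⟨h.1, h.2.trans h'.2⟩

theorem ConnIn.step {adj : V → V → Prop} {A : Set V} {x y : V} (hx : x ∈ A) (hy : y ∈ A)
    (h : adj x y) : ConnIn adj A x y :=
  ⟨hx, Relation.ReflTransGen.single ⟨h, hy⟩⟩

theorem ConnIn.mono {adj : V → V → Prop} {A B : Set V} (hAB : A ⊆ B) {x y : V}
    (h : ConnIn adj A x y) : ConnIn adj B x y := by
  obtain ⟨hx, h⟩ := h
  exact ⟨hAB hx, Relation.ReflTransGen.mono (fun a b hab => ⟨hab.1, hAB hab.2⟩) _ _ h⟩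

theorem ConnIn.symm {adj : V → V → Prop} (hadj : ∀ x y, adj x y → adj y x) {A : Set V} {x y : V}
    (h : ConnIn adj A x y) : ConnIn adj A y x := by
  obtain ⟨hx, h⟩ := h
  induction h with
  | refl => exact ConnIn.refl hx
  | @tail b c hb hbc ih =>
    have hbA : b ∈ A := ih.1
    exact (ConnIn.step hbc.2 hbA (hadj _ _ hbc.1)).trans ih

theorem nn_symm (x y : V) (h : nn x y) : nn y x := by
  unfold nn at *
  rw [abs_sub_comm y.1, abs_sub_comm y.2]; exact h

theorem dI_comm (x y : V) : dI x y = dI y x := by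
  unfold dI
  rw [abs_sub_comm y.1, abs_sub_comm y.2]

theorem connIn_iff_path {adj : V → V → Prop} {A : Set V} {x y : V} :
    ConnIn adj A x y ↔ ∃ n p, IsPath adj A n p x y := by
  constructor
  · rintro ⟨hx, h⟩
    induction h with
    | refl => exact ⟨0, _, IsPath.refl hx⟩
    | @tail b c hb hbc ih =>
      obtain ⟨n, p, hp⟩ := ih
      have hbA : b ∈ A := by
        have := hp.2.2.1 n le_rfl
        rwa [hp.2.1] at this
      obtain ⟨q, hq⟩ := IsPath.single (adj := adj) hbA hbc.2 hbc.1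
      obtain ⟨r, hr⟩ := hp.append hq
      exact ⟨n + 1, r, hr⟩
  · rintro ⟨n, p, hp⟩
    have key : ∀ i ≤ n, ConnIn adj A x (p i) := by
      intro i
      induction i with
      | zero => intro _; rw [hp.1]; exact ConnIn.refl (by rw [← hp.1]; exact hp.2.2.1 0 (by omega))
      | succ i ih =>
        intro hi
        exact (ih (by omega)).trans (ConnIn.step (hp.2.2.1 _ (by omega)) (hp.2.2.1 _ hi)
          (hp.2.2.2 i (by omega)))
    have := key n le_rfl
    rwa [hp.2.1] at this

theorem cd_le_of_path {A : Set V} {n : ℕ} {p : ℕ → V} {x y : V} (h : IsPath nn A n p x y) :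
    cd A x y ≤ n := iInf₂_le n ⟨p, h⟩

theorem cd_self {A : Set V} {x : V} (h : x ∈ A) : cd A x x = 0 := by
  have := cd_le_of_path (IsPath.refl (adj := nn) h)
  simpa using this

theorem exists_path_of_cd_lt_top {A : Set V} {x y : V} (h : cd A x y < ⊤) :
    ∃ n p, IsPath nn A n p x y ∧ cd A x y = n := by
  classical
  have hex : ∃ n, ∃ p, IsPath nn A n p x y := by
    by_contra hc
    push Not at hc
    apply h.ne
    unfold cd
    simp only [iInf_eq_top]
    rintro n ⟨p, hp⟩
    exact absurd hp (hc n p)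
  obtain ⟨p, hp⟩ := Nat.find_spec hex
  refine ⟨Nat.find hex, p, hp, le_antisymm (cd_le_of_path hp) ?_⟩
  refine le_iInf₂ fun n hn => ?_
  exact_mod_cast Nat.find_min' hex hn

theorem cd_lt_top_iff {A : Set V} {x y : V} : cd A x y < ⊤ ↔ ConnIn nn A x y := by
  rw [connIn_iff_path]
  constructor
  · intro h
    obtain ⟨n, p, hp, _⟩ := exists_path_of_cd_lt_top h
    exact ⟨n, p, hp⟩
  · rintro ⟨n, p, hp⟩
    exact lt_of_le_of_lt (cd_le_of_path hp) (ENat.natCast_lt_top n)

theorem cd_triangle (A : Set V) (x y z : V) : cd A x z ≤ cd A x y + cd A y z := by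
  rcases eq_or_lt_of_le (le_top : cd A x y ≤ ⊤) with h | h
  · rw [h]; simp
  rcases eq_or_lt_of_le (le_top : cd A y z ≤ ⊤) with h' | h'
  · rw [h']; simp
  obtain ⟨n, p, hp, e⟩ := exists_path_of_cd_lt_top h
  obtain ⟨m, q, hq, e'⟩ := exists_path_of_cd_lt_top h'
  obtain ⟨r, hr⟩ := hp.append hq
  rw [e, e']
  exact_mod_cast cd_le_of_path hr

theorem cd_step {A : Set V} {x y : V} (hx : x ∈ A) (hy : y ∈ A) (h : nn x y) : cd A x y ≤ 1 := by
  obtain ⟨p, hp⟩ := IsPath.single (adj := nn) hx hy h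
  exact_mod_cast cd_le_of_path hp

theorem cd_mono {A B : Set V} (hAB : A ⊆ B) (x y : V) : cd B x y ≤ cd A x y := by
  refine le_iInf₂ fun n hn => ?_
  obtain ⟨p, hp⟩ := hn
  exact cd_le_of_path (hp.mono hAB)

theorem cd_comm (A : Set V) (x y : V) : cd A x y = cd A y x := by
  have key : ∀ x y, cd A y x ≤ cd A x y := by
    intro x y
    refine le_iInf₂ fun n hn => ?_
    obtain ⟨p, hp⟩ := hn
    refine cd_le_of_path (p := fun i => p (n - i)) ⟨?_, ?_, ?_, ?_⟩
    · simp [hp.2.1]
    · simp [hp.1]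
    · intro i _; exact hp.2.2.1 _ (by omega)
    · intro i hi
      have := hp.2.2.2 (n - (i + 1)) (by omega)
      have e : n - (i + 1) + 1 = n - i := by omega
      rw [e] at this
      exact nn_symm _ _ this
  exact le_antisymm (key y x) (key x y)

/-- path version of L1, only the vertices of the path have to be covered -/
theorem L1_path {ι : Type*} [DecidableEq ι] (κ S : Set V) (hκ : κ ⊆ S) (T : ι → Set V)
    (d : ι → ℝ≥0∞) (J : Finset ι) :
    (∀ j ∈ J, ∀ u ∈ κ ∩ T j, ∀ v ∈ κ ∩ T j, ((cd S u v : ℕ∞) : ℝ≥0∞) ≤ d j) →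
    ∀ (n : ℕ) (p : ℕ → V) (x y : V), IsPath nn κ n p x y → (∀ i ≤ n, ∃ j ∈ J, p i ∈ T j) →
    1 + ((cd S x y : ℕ∞) : ℝ≥0∞) ≤ ∑ j ∈ J, (1 + d j) := by
  classical
  induction J using Finset.strongInduction with
  | H J ih =>
    intro hd n p x y hp hcov
    obtain ⟨j0, hj0, h0⟩ := hcov 0 (by omega)
    -- the last exit
    let F : Finset ℕ := (Finset.range (n + 1)).filter (fun i => p i ∈ T j0)
    have hF : F.Nonempty := ⟨0, by simp [F, h0]⟩
    set m := F.max' hF with hm
    have hmF : m ∈ F := Finset.max'_mem _ _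
    have hmn : m ≤ n := by
      have := (Finset.mem_filter.1 hmF).1
      rw [Finset.mem_range] at this; omega
    have hmT : p m ∈ T j0 := (Finset.mem_filter.1 hmF).2
    have hlast : ∀ i ≤ n, m < i → p i ∉ T j0 := by
      intro i hi hmi hiT
      have : i ≤ m := Finset.le_max' F i (by simp [F, hiT]; omega)
      omega
    have h1 : ((cd S x (p m) : ℕ∞) : ℝ≥0∞) ≤ d j0 := by
      refine hd j0 hj0 x ⟨?_, ?_⟩ (p m) ⟨hp.2.2.1 m hmn, hmT⟩
      · rw [← hp.1]; exact hp.2.2.1 0 (by omega)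
      · rw [← hp.1]; exact h0
    have hsum : ∑ j ∈ J, (1 + d j) = (1 + d j0) + ∑ j ∈ J.erase j0, (1 + d j) :=
      (Finset.add_sum_erase J _ hj0).symm
    rcases Nat.lt_or_ge m n with hlt | hge
    · -- continue
      have hstep : nn (p m) (p (m + 1)) := hp.2.2.2 m hlt
      have hmem : p m ∈ S := hκ (hp.2.2.1 m hmn)
      have hmem' : p (m + 1) ∈ S := hκ (hp.2.2.1 (m + 1) hlt)
      have hpath := hp.tail (m := m + 1) hlt
      have h2 := ih (J.erase j0) (Finset.erase_ssubset hj0)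
        (fun j hj => hd j (Finset.mem_of_mem_erase hj)) (n - (m + 1)) _ (p (m + 1)) y hpath (by
          intro i hi
          obtain ⟨j, hj, hjT⟩ := hcov (m + 1 + i) (by omega)
          refine ⟨j, Finset.mem_erase.2 ⟨?_, hj⟩, hjT⟩
          rintro rfl
          exact hlast (m + 1 + i) (by omega) (by omega) hjT)
      have h3 : ((cd S x y : ℕ∞) : ℝ≥0∞) ≤ ((cd S x (p m) : ℕ∞) : ℝ≥0∞) +
          (1 + ((cd S (p (m + 1)) y : ℕ∞) : ℝ≥0∞)) := by
        have e1 : cd S x y ≤ cd S x (p m) + (1 + cd S (p (m + 1)) y) := by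
          refine (cd_triangle S x (p m) y).trans ?_
          gcongr
          refine (cd_triangle S (p m) (p (m + 1)) y).trans ?_
          gcongr
          exact cd_step hmem hmem' hstep
        have e2 := ENat.toENNReal_mono e1
        simpa using e2
      rw [hsum]
      calc 1 + ((cd S x y : ℕ∞) : ℝ≥0∞)
          ≤ 1 + (((cd S x (p m) : ℕ∞) : ℝ≥0∞) + (1 + ((cd S (p (m + 1)) y : ℕ∞) : ℝ≥0∞))) := by
            gcongr
        _ ≤ 1 + (d j0 + ∑ j ∈ J.erase j0, (1 + d j)) := by gcongr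
        _ = (1 + d j0) + ∑ j ∈ J.erase j0, (1 + d j) := by rw [add_assoc]
    · have hmn' : m = n := by omega
      have hy : p m = y := by rw [hmn']; exact hp.2.1
      rw [hy] at h1
      rw [hsum]
      calc 1 + ((cd S x y : ℕ∞) : ℝ≥0∞) ≤ 1 + d j0 := by gcongr
        _ ≤ _ := le_self_add

/-- L1: last exit decomposition -/
theorem L1 {ι : Type*} [DecidableEq ι] (κ S : Set V) (hκ : κ ⊆ S) (x y : V) (hxy : ConnIn nn κ x y)
    (J : Finset ι) (T : ι → Set V) (hT : κ ⊆ ⋃ j ∈ J, T j) (d : ι → ℝ≥0∞)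
    (hd : ∀ j ∈ J, ∀ u ∈ κ ∩ T j, ∀ v ∈ κ ∩ T j, ((cd S u v : ℕ∞) : ℝ≥0∞) ≤ d j) :
    1 + ((cd S x y : ℕ∞) : ℝ≥0∞) ≤ ∑ j ∈ J, (1 + d j) := by
  obtain ⟨n, p, hp⟩ := connIn_iff_path.1 hxy
  refine L1_path κ S hκ T d J hd n p x y hp ?_
  intro i hi
  have := hT (hp.2.2.1 i hi)
  simpa using this

end GF
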