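import Pool.Agent.Lib.MP_acf58e_gf.Func

open MeasureTheory Set Filter Topology ProbabilityTheory
open scoped ENNReal

namespace GF

private theorem mem_Rc {a b c d : ℤ} {v : V} : v ∈ Rc a b c d ↔ a ≤ v.1 ∧ v.1 ≤ b ∧ c ≤ v.2 ∧ v.2 ≤ d := by
  unfold Rc
  rw [Finset.mem_Icc, Prod.le_def, Prod.le_def]
  constructor
  · rintro ⟨⟨h1, h2⟩, h3, h4⟩; exact ⟨h1, h3, h2, h4⟩
  · rintro ⟨h1, h3, h2, h4⟩; exact ⟨⟨h1, h2⟩, h3, h4⟩

private theorem mem_Q {z v : V} {r : ℤ} : v ∈ Q z r ↔ z.1 - r ≤ v.1 ∧ v.1 ≤ z.1 + r ∧ z.2 - r ≤ v.2 ∧ v.2 ≤ z.2 + r := by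
  unfold Q
  rw [Finset.mem_Icc, Prod.le_def, Prod.le_def]
  constructor
  · rintro ⟨⟨h1, h2⟩, h3, h4⟩; exact ⟨h1, h3, h2, h4⟩
  · rintro ⟨h1, h3, h2, h4⟩; exact ⟨⟨h1, h2⟩, h3, h4⟩

private theorem idx_bound {q : ℤ} (hq : 1 ≤ q) {k : ℕ} {w v a : ℤ} (hd : q ∣ v - a)
    (h : |w - v| ≤ k * q) : (w - a) / q - k ≤ (v - a) / q ∧ (v - a) / q ≤ (w - a) / q + k := by
  obtain ⟨i, hi⟩ := hd
  have e : (v - a) / q = i := by rw [hi]; exact Int.mul_ediv_cancel_left i (by omega)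
  rw [e]
  rw [abs_le] at h
  have h1 := Int.emod_add_mul_ediv (w - a) q
  have h2 := Int.emod_nonneg (w - a) (show q ≠ 0 by omega)
  have h3 := Int.emod_lt_of_pos (w - a) (show 0 < q by omega)
  set m := (w - a) / q with hm
  set r := (w - a) % q with hr
  constructor
  · by_contra hcon
    push Not at hcon
    have : i + 1 ≤ m - k := by omega
    nlinarith [h.1, h.2, mul_le_mul_of_nonneg_left this (show 0 ≤ q by omega)]
  · by_contra hcon
    push Not at hcon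
    have : m + k + 1 ≤ i := by omega
    nlinarith [h.1, h.2, mul_le_mul_of_nonneg_left this (show 0 ≤ q by omega)]

theorem exists_net (a b c d : ℤ) (q : ℕ) (hq : 1 ≤ q) : ∃ Nt, IsNet (Rc a b c d) q Nt := by
  classical
  have hqZ : (1:ℤ) ≤ q := by exact_mod_cast hq
  refine ⟨(Rc a b c d).filter (fun v => (q:ℤ) ∣ v.1 - a ∧ (q:ℤ) ∣ v.2 - c), Finset.filter_subset _ _, ?_, ?_⟩
  · intro p hp
    rw [mem_Rc] at hp
    obtain ⟨h1, h2, h3, h4⟩ := hp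
    have e1 := Int.emod_add_mul_ediv (p.1 - a) q
    have e2 := Int.emod_nonneg (p.1 - a) (show (q:ℤ) ≠ 0 by omega)
    have e3 := Int.emod_lt_of_pos (p.1 - a) (show 0 < (q:ℤ) by omega)
    have f1 := Int.emod_add_mul_ediv (p.2 - c) q
    have f2 := Int.emod_nonneg (p.2 - c) (show (q:ℤ) ≠ 0 by omega)
    have f3 := Int.emod_lt_of_pos (p.2 - c) (show 0 < (q:ℤ) by omega)
    have e4 : 0 ≤ (q:ℤ) * ((p.1 - a) / q) :=
      mul_nonneg (by omega) (Int.ediv_nonneg (by omega) (by omega))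
    have f4 : 0 ≤ (q:ℤ) * ((p.2 - c) / q) :=
      mul_nonneg (by omega) (Int.ediv_nonneg (by omega) (by omega))
    refine ⟨(a + q * ((p.1 - a) / q), c + q * ((p.2 - c) / q)), ?_, ?_⟩
    · rw [Finset.mem_filter, mem_Rc]
      refine ⟨⟨?_, ?_, ?_, ?_⟩, ?_, ?_⟩
      · show a ≤ a + q * ((p.1 - a) / q); omega
      · show a + q * ((p.1 - a) / q) ≤ b; omega
      · show c ≤ c + q * ((p.2 - c) / q); omega
      · show c + q * ((p.2 - c) / q) ≤ d; omega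
      · exact ⟨(p.1 - a) / q, by ring⟩
      · exact ⟨(p.2 - c) / q, by ring⟩
    · show max |p.1 - (a + q * ((p.1 - a) / q))| |p.2 - (c + q * ((p.2 - c) / q))| ≤ (q:ℤ)
      apply max_le
      · rw [abs_le]; constructor <;> omega
      · rw [abs_le]; constructor <;> omega
  · intro w k
    have hcard : ((Finset.Icc ((w.1 - a) / (q:ℤ) - k) ((w.1 - a) / (q:ℤ) + k)) ×ˢ
        (Finset.Icc ((w.2 - c) / (q:ℤ) - k) ((w.2 - c) / (q:ℤ) + k))).card = (2 * k + 1) ^ 2 := by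
      rw [Finset.card_product, Int.card_Icc, Int.card_Icc, sq]
      congr 1 <;> omega
    rw [← hcard]
    apply Finset.card_le_card_of_injOn (fun v => ((v.1 - a) / (q:ℤ), (v.2 - c) / (q:ℤ)))
    · intro v hv
      rw [Finset.mem_coe, Finset.mem_filter, Finset.mem_filter] at hv
      obtain ⟨⟨_, h1, h2⟩, h3⟩ := hv
      have h3' : max |w.1 - v.1| |w.2 - v.2| ≤ ((k * q : ℕ) : ℤ) := h3
      rw [max_le_iff] at h3'
      push_cast at h3'
      rw [Finset.mem_coe, Finset.mem_product, Finset.mem_Icc, Finset.mem_Icc]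
      exact ⟨idx_bound hqZ h1 h3'.1, idx_bound hqZ h2 h3'.2⟩
    · intro v hv v' hv' hvv
      rw [Finset.mem_coe, Finset.mem_filter, Finset.mem_filter] at hv hv'
      obtain ⟨⟨_, h1, h2⟩, -⟩ := hv
      obtain ⟨⟨_, h1', h2'⟩, -⟩ := hv'
      simp only [Prod.mk.injEq] at hvv
      obtain ⟨g1, g2⟩ := hvv
      have k1 := Int.mul_ediv_cancel' h1
      have k2 := Int.mul_ediv_cancel' h2
      have k1' := Int.mul_ediv_cancel' h1'
      have k2' := Int.mul_ediv_cancel' h2'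
      rw [g1] at k1
      rw [g2] at k2
      ext
      · omega
      · omega

private theorem IsU_aux {R ρ : ℕ} {z c : V} {U : Finset V} (h : IsU R z U) (hρ : ρ ≤ R) {s : ℤ}
    (hs : 2 * (R:ℤ) ≤ s) (hc : c ∈ Q z s ∩ U) : IsU ρ c (Q z s ∩ U) := by
  obtain ⟨a, b, c', d, hU, hz, h1, h2⟩ := h
  subst hU
  have hz' := mem_Rc.1 hz
  obtain ⟨z1, z2, z3, z4⟩ := hz'
  have hρZ : (ρ:ℤ) ≤ R := by exact_mod_cast hρ
  refine ⟨max a (z.1 - s), min b (z.1 + s), max c' (z.2 - s), min d (z.2 + s), ?_, hc, ?_, ?_⟩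
  · ext v
    rw [Finset.mem_inter, mem_Q, mem_Rc, mem_Rc]
    omega
  · omega
  · omega

theorem IsU.inter {R ρ : ℕ} {z c : V} {U : Finset V} (h : IsU R z U) (hρ : ρ ≤ R)
    (hc : c ∈ Q z (2 * R) ∩ U) : IsU ρ c (Q z (2 * R) ∩ U) :=
  IsU_aux h hρ (le_refl _) hc

theorem IsU.inter3 {R ρ : ℕ} {z c : V} {U : Finset V} (h : IsU R z U) (hρ : ρ ≤ R)
    (hc : c ∈ Q z (3 * R) ∩ U) : IsU ρ c (Q z (3 * R) ∩ U) :=
  IsU_aux h hρ (by omega) hc

theorem IsU.mono {R ρ : ℕ} {z c : V} {U : Finset V} (h : IsU R z U) (hρ : ρ ≤ R) (hc : c ∈ U) :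
    IsU ρ c U := by
  obtain ⟨a, b, c', d, hU, _, h1, h2⟩ := h
  have hρZ : (ρ:ℤ) ≤ R := by exact_mod_cast hρ
  exact ⟨a, b, c', d, hU, hc, by omega, by omega⟩

end GF
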