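import Pool.Agent.Lib.MP_acf58e_gf.Func
import Pool.Agent.Lib.MP_acf58e_gf.L1
import Pool.Agent.Lib.MP_acf58e_gf.Lnet

open MeasureTheory Set Filter Topology ProbabilityTheory
open scoped ENNReal

namespace GF

theorem mem_Q {z v : V} {r : ℤ} : v ∈ Q z r ↔ dI v z ≤ r := by
  unfold Q dI
  rw [Finset.mem_Icc, max_le_iff, abs_le, abs_le, Prod.le_def, Prod.le_def]
  simp only
  constructor
  · rintro ⟨⟨h1, h2⟩, h3, h4⟩; refine ⟨⟨?_, ?_⟩, ?_, ?_⟩ <;> linarith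
  · rintro ⟨⟨h1, h2⟩, h3, h4⟩; refine ⟨⟨?_, ?_⟩, ?_, ?_⟩ <;> linarith

theorem dI_triangle (x y z : V) : dI x z ≤ dI x y + dI y z := by
  unfold dI
  have h1 := abs_sub_le x.1 y.1 z.1
  have h2 := abs_sub_le x.2 y.2 z.2
  have a1 := le_max_left |x.1 - y.1| |x.2 - y.2|
  have a2 := le_max_right |x.1 - y.1| |x.2 - y.2|
  have a3 := le_max_left |y.1 - z.1| |y.2 - z.2|
  have a4 := le_max_right |y.1 - z.1| |y.2 - z.2|
  apply max_le <;> linarith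

theorem dI_le_one_of_nn {x y : V} (h : nn x y) : dI x y ≤ 1 := by
  unfold nn at h
  unfold dI
  have h1 := abs_nonneg (x.1 - y.1)
  have h2 := abs_nonneg (x.2 - y.2)
  apply max_le <;> linarith

/-- a connection from a point of S to a point off S contains an exit step -/
theorem ConnIn.first_exit {adj : V → V → Prop} {A S : Set V} {x y : V} (h : ConnIn adj A x y)
    (hx : x ∈ S) (hy : y ∉ S) :
    ∃ q q', ConnIn adj (A ∩ S) x q ∧ adj q q' ∧ q' ∈ A ∧ q' ∉ S := by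
  obtain ⟨hxA, h⟩ := h
  induction h using Relation.ReflTransGen.head_induction_on with
  | refl => exact absurd hx hy
  | @head a c hac hcy ih =>
    by_cases hc : c ∈ S
    · obtain ⟨q, q', h1, h2, h3, h4⟩ := ih hc hac.2
      have h0 : ConnIn adj (A ∩ S) a c := ConnIn.step (⟨hxA, hx⟩ : a ∈ A ∩ S) ⟨hac.2, hc⟩ hac.1
      exact ⟨q, q', h0.trans h1, h2, h3, h4⟩
    · exact ⟨a, c, ConnIn.refl ⟨hxA, hx⟩, hac.1, hac.2, hc⟩

theorem comp_eq_of_mem {A : Set V} {x y : V} (h : y ∈ comp nn A x) : comp nn A y = comp nn A x := by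
  ext z
  exact ⟨fun hz => ConnIn.trans h hz, fun hz => ConnIn.trans (ConnIn.symm nn_symm h) hz⟩

/-- the diameter term of the functional -/
noncomputable def dia (T : Finset V) (X : V → ℝ) (κ : Set V) : ℝ≥0∞ :=
  ⨆ x ∈ κ ∩ (T : Set V), ⨆ y ∈ κ ∩ (T : Set V), ((cd (lev X 0) x y : ℕ∞) : ℝ≥0∞)

theorem FD_eq (t : ℝ) (U : Finset V) (z : V) (R : ℕ) (X : V → ℝ) :
    FD t U z R X = ∑ κ ∈ clus t (Q z (2 * R) ∩ U) (Q z R) R X, (1 + dia (Q z R) X κ) := rfl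

theorem mem_clus {t : ℝ} {B T : Finset V} {R : ℕ} {X : V → ℝ} {κ : Set V} :
    κ ∈ clus t B T R X ↔ ∃ x, x ∈ T ∧ x ∈ B ∧ x ∈ lev X t ∧
      (∃ u ∈ comp nn (lev X t ∩ B) x, ∃ v ∈ comp nn (lev X t ∩ B) x, (R : ℤ) ≤ 8 * dI u v) ∧
      comp nn (lev X t ∩ B) x = κ := by
  classical
  unfold clus
  rw [Finset.mem_image]
  constructor
  · rintro ⟨x, hx, rfl⟩
    rw [Finset.mem_filter, Finset.mem_inter] at hx
    exact ⟨x, hx.1.1, hx.1.2, hx.2.1, hx.2.2, rfl⟩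
  · rintro ⟨x, h1, h2, h3, h4, h5⟩
    refine ⟨x, ?_, h5⟩
    rw [Finset.mem_filter, Finset.mem_inter]
    exact ⟨⟨h1, h2⟩, h3, h4⟩

open Classical in
/-- the decomposition inside one component -/
theorem cd_decomp (t : ℝ) (ht : 0 ≤ t) (B : Finset V) (ρ : ℕ) (Nt : Finset V)
    (hN' : ∀ p ∈ B, ∃ c ∈ Nt, dI p c ≤ ρ) (X : V → ℝ) (x0 : V)
    (hext : ∃ u ∈ comp nn (lev X t ∩ B) x0, ∃ v ∈ comp nn (lev X t ∩ B) x0, 4 * (ρ : ℤ) < dI u v)
    (x y : V) (hx : x ∈ comp nn (lev X t ∩ B) x0) (hy : y ∈ comp nn (lev X t ∩ B) x0) :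
    1 + ((cd (lev X 0) x y : ℕ∞) : ℝ≥0∞) ≤
      ∑ c ∈ Nt, ∑ κ' ∈ (clus t (Q c (2 * ρ) ∩ B) (Q c ρ) ρ X).filter
        (fun κ' => κ' ⊆ comp nn (lev X t ∩ B) x0), (1 + dia (Q c ρ) X κ') := by
  set κ := comp nn (lev X t ∩ B) x0 with hκdef
  have hκlev : κ ⊆ lev X 0 := by
    intro v hv
    have : v ∈ lev X t ∩ B := ConnIn.mem_right hv
    exact le_trans ht this.1
  have hconn : ConnIn nn κ x y := by
    have h1 : ConnIn nn (lev X t ∩ B) x y := ConnIn.trans (ConnIn.symm nn_symm hx) hy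
    obtain ⟨n, p, hp⟩ := connIn_iff_path.1 h1
    refine connIn_iff_path.2 ⟨n, p, hp.1, hp.2.1, ?_, hp.2.2.2⟩
    intro i hi
    refine ConnIn.trans hx (connIn_iff_path.2 ⟨i, p, hp.1, rfl, ?_, ?_⟩)
    · intro j hj; exact hp.2.2.1 j (by omega)
    · intro j hj; exact hp.2.2.2 j (by omega)
  let J : Finset (Σ _ : V, Set V) := Nt.sigma (fun c =>
    (clus t (Q c (2 * ρ) ∩ B) (Q c ρ) ρ X).filter (fun κ' => κ' ⊆ κ))
  have key := L1 κ (lev X 0) hκlev x y hconn J (fun j => j.2 ∩ (Q j.1 ρ : Set V)) ?_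
    (fun j => dia (Q j.1 ρ) X j.2) ?_
  · refine key.trans (le_of_eq ?_)
    exact Finset.sum_sigma _ _ _
  · intro p hp
    have hpB : p ∈ lev X t ∩ B := ConnIn.mem_right hp
    obtain ⟨c, hc, hpc⟩ := hN' p hpB.2
    have hpQ : p ∈ Q c ρ := mem_Q.2 hpc
    have hpQ2 : p ∈ Q c (2 * ρ) := mem_Q.2 (by omega)
    have hsub : (lev X t ∩ ((Q c (2 * ρ) ∩ B : Finset V) : Set V)) ⊆ lev X t ∩ B := by
      intro v hv
      refine ⟨hv.1, ?_⟩
      have := hv.2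
      simp only [Finset.coe_inter] at this
      exact this.2
    have hcompsub : comp nn (lev X t ∩ ((Q c (2 * ρ) ∩ B : Finset V) : Set V)) p ⊆ κ := by
      intro v hv
      exact ConnIn.trans hp (ConnIn.mono hsub hv)
    have hpin : p ∈ lev X t ∩ ((Q c (2 * ρ) ∩ B : Finset V) : Set V) := by
      refine ⟨hpB.1, ?_⟩
      simp only [Finset.coe_inter]
      exact ⟨hpQ2, hpB.2⟩
    -- the cluster of p has extent at least ρ
    obtain ⟨u, hu, v, hv, huv⟩ := hext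
    have hw : ∃ w ∈ κ, w ∉ (Q c (2 * ρ) : Set V) := by
      by_contra hcon
      push Not at hcon
      have h1 : dI u c ≤ 2 * ρ := mem_Q.1 (hcon u hu)
      have h2 : dI v c ≤ 2 * ρ := mem_Q.1 (hcon v hv)
      have h3 := dI_triangle u c v
      rw [dI_comm c v] at h3
      omega
    obtain ⟨w, hwκ, hwQ⟩ := hw
    have hpw : ConnIn nn (lev X t ∩ B) p w := ConnIn.trans (ConnIn.symm nn_symm hp) hwκ
    obtain ⟨q, q', hq, hqq', hq'A, hq'S⟩ := hpw.first_exit (S := (Q c (2 * ρ) : Set V)) hpQ2 hwQ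
    have hq1 : ConnIn nn (lev X t ∩ ((Q c (2 * ρ) ∩ B : Finset V) : Set V)) p q := by
      refine hq.mono ?_
      intro v hv
      refine ⟨hv.1.1, ?_⟩
      simp only [Finset.coe_inter]
      exact ⟨hv.2, hv.1.2⟩
    have hqd : 2 * (ρ : ℤ) ≤ dI q c := by
      have h1 : ¬ dI q' c ≤ 2 * ρ := fun h => hq'S (mem_Q.2 h)
      have h2 := dI_triangle q' q c
      have h3 := dI_le_one_of_nn (nn_symm _ _ hqq')
      omega
    have hpq : (ρ : ℤ) ≤ dI p q := by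
      have h1 := dI_triangle q p c
      rw [dI_comm q p] at h1
      omega
    have hmem : comp nn (lev X t ∩ ((Q c (2 * ρ) ∩ B : Finset V) : Set V)) p ∈
        clus t (Q c (2 * ρ) ∩ B) (Q c ρ) ρ X := by
      rw [mem_clus]
      refine ⟨p, hpQ, Finset.mem_inter.2 ⟨hpQ2, hpB.2⟩, hpB.1, ⟨p, ConnIn.refl hpin, q, hq1, ?_⟩, rfl⟩
      have := hpq
      omega
    rw [Set.mem_iUnion₂]
    refine ⟨⟨c, comp nn (lev X t ∩ ((Q c (2 * ρ) ∩ B : Finset V) : Set V)) p⟩, ?_, ?_⟩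
    · rw [Finset.mem_sigma]
      exact ⟨hc, Finset.mem_filter.2 ⟨hmem, hcompsub⟩⟩
    · exact ⟨ConnIn.refl hpin, hpQ⟩
  · intro j hj u hu v hv
    exact le_iSup₂_of_le u hu.2 (le_iSup₂_of_le v hv.2 le_rfl)

/-- L2: trivial decomposition -/
theorem L2 (t : ℝ) (ht : 0 ≤ t) (U : Finset V) (z : V) (R ρ : ℕ) (hU : IsU R z U) (hρ : 1 ≤ ρ)
    (h : 64 * ρ ≤ R) (Nt : Finset V) (hN : Nt ⊆ Q z (2 * R) ∩ U)
    (hN' : ∀ p ∈ Q z (2 * R) ∩ U, ∃ c ∈ Nt, dI p c ≤ ρ) (X : V → ℝ) :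
    FD t U z R X ≤ ∑ c ∈ Nt, FD t (Q z (2 * R) ∩ U) c ρ X := by
  classical
  set B := Q z (2 * R) ∩ U with hB
  have step1 : FD t U z R X ≤ ∑ κ ∈ clus t B (Q z R) R X, ∑ c ∈ Nt,
      ∑ κ' ∈ (clus t (Q c (2 * ρ) ∩ B) (Q c ρ) ρ X).filter (fun κ' => κ' ⊆ κ),
        (1 + dia (Q c ρ) X κ') := by
    rw [FD_eq]
    refine Finset.sum_le_sum fun κ hκ => ?_
    obtain ⟨x0, h1, h2, h3, ⟨u, hu, v, hv, huv⟩, h5⟩ := mem_clus.1 hκ
    subst h5
    have hext : ∃ u ∈ comp nn (lev X t ∩ B) x0, ∃ v ∈ comp nn (lev X t ∩ B) x0,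
        4 * (ρ : ℤ) < dI u v := ⟨u, hu, v, hv, by
          have : 64 * (ρ : ℤ) ≤ R := by exact_mod_cast h
          have hρ' : (1 : ℤ) ≤ ρ := by exact_mod_cast hρ
          omega⟩
    have hx0 : x0 ∈ lev X t ∩ (B : Set V) := ⟨h3, h2⟩
    unfold dia
    have hne : (1 : ℝ≥0∞) + ⨆ x ∈ comp nn (lev X t ∩ ↑B) x0 ∩ (Q z R : Set V),
        ⨆ y ∈ comp nn (lev X t ∩ ↑B) x0 ∩ (Q z R : Set V), ((cd (lev X 0) x y : ℕ∞) : ℝ≥0∞) =
        ⨆ x ∈ comp nn (lev X t ∩ ↑B) x0 ∩ (Q z R : Set V),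
        ⨆ y ∈ comp nn (lev X t ∩ ↑B) x0 ∩ (Q z R : Set V),
          (1 + ((cd (lev X 0) x y : ℕ∞) : ℝ≥0∞)) := by
      have hne : (comp nn (lev X t ∩ ↑B) x0 ∩ (Q z R : Set V)).Nonempty :=
        ⟨x0, ConnIn.refl hx0, h1⟩
      rw [ENNReal.add_biSup hne]
      refine iSup_congr fun x => iSup_congr fun _ => ?_
      rw [ENNReal.add_biSup hne]
    rw [hne]
    refine iSup₂_le fun x hx => iSup₂_le fun y hy => ?_
    exact cd_decomp t ht B ρ Nt hN' X x0 hext x y hx.1 hy.1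
  refine step1.trans ?_
  rw [Finset.sum_comm]
  refine Finset.sum_le_sum fun c hc => ?_
  rw [FD_eq]
  -- each κ' is contained in at most one κ
  simp_rw [Finset.sum_filter]
  rw [Finset.sum_comm]
  refine Finset.sum_le_sum fun κ' hκ' => ?_
  obtain ⟨p, hp1, hp2, hp3, _, hp5⟩ := mem_clus.1 hκ'
  have hpκ' : p ∈ κ' := by rw [← hp5]; exact ConnIn.refl ⟨hp3, hp2⟩
  rw [← Finset.sum_filter]
  have hcard : ((clus t B (Q z R) R X).filter (fun κ => κ' ⊆ κ)).card ≤ 1 := by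
    rw [Finset.card_le_one]
    intro κ1 h1 κ2 h2
    rw [Finset.mem_filter] at h1 h2
    obtain ⟨x1, _, _, _, _, e1⟩ := mem_clus.1 h1.1
    obtain ⟨x2, _, _, _, _, e2⟩ := mem_clus.1 h2.1
    have m1 : p ∈ comp nn (lev X t ∩ ↑B) x1 := by rw [e1]; exact h1.2 hpκ'
    have m2 : p ∈ comp nn (lev X t ∩ ↑B) x2 := by rw [e2]; exact h2.2 hpκ'
    rw [← e1, ← e2, ← comp_eq_of_mem m1, ← comp_eq_of_mem m2]
  rw [Finset.sum_const]
  calc ((clus t B (Q z R) R X).filter (fun κ => κ' ⊆ κ)).card • (1 + dia (Q c ρ) X κ')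
      ≤ 1 • (1 + dia (Q c ρ) X κ') := by
        simp only [nsmul_eq_mul, Nat.cast_one]
        gcongr
        exact_mod_cast hcard
    _ = _ := one_smul _ _

/-- L2': decomposition inside one component -/
theorem L2' (t : ℝ) (ht : 0 ≤ t) (a b c d : ℤ) (r : ℕ) (hr : 1 ≤ r) (Nt : Finset V)
    (hN : Nt ⊆ Rc a b c d) (hN' : ∀ p ∈ Rc a b c d, ∃ w ∈ Nt, dI p w ≤ r) (X : V → ℝ) (x y : V)
    (hxy : ConnIn nn (lev X t ∩ Rc a b c d) x y)
    (hext : ∃ u ∈ comp nn (lev X t ∩ Rc a b c d) x, ∃ v ∈ comp nn (lev X t ∩ Rc a b c d) x,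
      4 * (r : ℤ) < dI u v) :
    ((cd (lev X 0) x y : ℕ∞) : ℝ≥0∞) ≤ ∑ w ∈ Nt, FD t (Rc a b c d) w r X := by
  classical
  refine le_trans le_add_self ((cd_decomp t ht (Rc a b c d) r Nt hN' X x hext x y
    (ConnIn.refl hxy.1) hxy).trans ?_)
  refine Finset.sum_le_sum fun w hw => ?_
  rw [FD_eq]
  exact Finset.sum_le_sum_of_subset (Finset.filter_subset _ _)

end GF
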