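import Pool.Agent.Lib.MP_acf58e_gf.Func
import Pool.Agent.Lib.MP_acf58e_gf.L2

open MeasureTheory Set Filter Topology ProbabilityTheory
open scoped ENNReal

namespace GF

private lemma b2nn {x y : V} : nn x y ↔ (y.1 = x.1 + 1 ∧ y.2 = x.2) ∨ (y.1 = x.1 - 1 ∧ y.2 = x.2) ∨
    (y.1 = x.1 ∧ y.2 = x.2 + 1) ∨ (y.1 = x.1 ∧ y.2 = x.2 - 1) := by
  unfold nn
  rcases abs_cases (x.1 - y.1) with ⟨h, h'⟩ | ⟨h, h'⟩ <;>
  rcases abs_cases (x.2 - y.2) with ⟨k, k'⟩ | ⟨k, k'⟩ <;> rw [h, k] <;> omega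

private lemma b2dle {x y : V} {r : ℤ} : dI x y ≤ r ↔ x.1 - y.1 ≤ r ∧ y.1 - x.1 ≤ r ∧
    x.2 - y.2 ≤ r ∧ y.2 - x.2 ≤ r := by
  unfold dI
  rw [max_le_iff, abs_le, abs_le]
  omega

private lemma b2led {x y : V} {r : ℤ} : r ≤ dI x y ↔ r ≤ x.1 - y.1 ∨ r ≤ y.1 - x.1 ∨
    r ≤ x.2 - y.2 ∨ r ≤ y.2 - x.2 := by
  unfold dI
  rw [le_max_iff, le_abs, le_abs]
  omega

private lemma b2Q {x z : V} {r : ℤ} : x ∈ Q z r ↔ dI x z ≤ r := by
  rw [b2dle]
  unfold Q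
  rw [Finset.mem_Icc, Prod.le_def, Prod.le_def]
  simp only
  omega

private noncomputable def b2N (q : ℕ → V) (m : ℕ) (x h : ℤ) : ℤ :=
  (if (q 0).1 < x then (1 : ℤ) else 0) + ∑ k ∈ Finset.range m,
    ((if (q (k + 1)).1 < x then (1 : ℤ) else 0) - (if (q k).1 < x then (1 : ℤ) else 0)) *
      (if (q (k + 1)).2 ≤ h then (1 : ℤ) else 0)

private lemma b2N_eq (q : ℕ → V) (m : ℕ) (x h : ℤ) : b2N q m x h =
    (if (q 0).1 < x then (1 : ℤ) else 0) * (1 - if (q 0).2 ≤ h then (1 : ℤ) else 0) +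
    ∑ k ∈ Finset.range m, (if (q k).1 < x then (1 : ℤ) else 0) *
      ((if (q k).2 ≤ h then (1 : ℤ) else 0) - (if (q (k + 1)).2 ≤ h then (1 : ℤ) else 0)) +
    (if (q m).1 < x then (1 : ℤ) else 0) * (if (q m).2 ≤ h then (1 : ℤ) else 0) := by
  unfold b2N
  induction m with
  | zero => simp only [Finset.range_zero, Finset.sum_empty]; ring
  | succ m ih =>
    rw [Finset.sum_range_succ, Finset.sum_range_succ, ← add_assoc, ih]
    ring

private lemma b2N_vert {q : ℕ → V} {m : ℕ} (hq : ∀ k < m, nn (q k) (q (k + 1))) {x h : ℤ}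
    (hx : ∀ k ≤ m, ¬ ((q k).1 = x ∧ (q k).2 = h + 1)) : b2N q m x (h + 1) = b2N q m x h := by
  unfold b2N
  congr 1
  refine Finset.sum_congr rfl fun k hk => ?_
  rw [Finset.mem_range] at hk
  have h1 := b2nn.1 (hq k hk)
  have h2 := hx k (by omega)
  have h3 := hx (k + 1) (by omega)
  split_ifs <;> first | rfl | (exfalso; omega)

private lemma b2N_hor {q : ℕ → V} {m : ℕ} (hq : ∀ k < m, nn (q k) (q (k + 1))) {x h : ℤ}
    (hx : ∀ k ≤ m, ¬ ((q k).1 = x ∧ (q k).2 = h)) (h0 : (q 0).2 ≤ h) (h1 : h ≤ (q m).2) :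
    b2N q m (x + 1) h = b2N q m x h := by
  rw [b2N_eq, b2N_eq]
  congr 1
  · congr 1
    · rw [if_pos h0]; ring
    · refine Finset.sum_congr rfl fun k hk => ?_
      rw [Finset.mem_range] at hk
      have h1 := b2nn.1 (hq k hk)
      have h2 := hx k (by omega)
      have h3 := hx (k + 1) (by omega)
      split_ifs <;> first | rfl | (exfalso; omega)
  · have h2 := hx m le_rfl
    split_ifs <;> first | rfl | (exfalso; omega)

private lemma b2cross {p q : ℕ → V} {n m : ℕ} {a b c d : ℤ} (hp : ∀ i < n, nn (p i) (p (i + 1)))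
    (hq : ∀ k < m, nn (q k) (q (k + 1))) (hpr : ∀ i ≤ n, c ≤ (p i).2 ∧ (p i).2 ≤ d)
    (hqc : ∀ k ≤ m, a ≤ (q k).1 ∧ (q k).1 ≤ b) (p0 : (p 0).1 ≤ a) (pn : b ≤ (p n).1)
    (q0 : (q 0).2 ≤ c) (qm : d ≤ (q m).2) : ∃ i ≤ n, ∃ k ≤ m, p i = q k := by
  by_contra hcon
  push Not at hcon
  have hne : ∀ i ≤ n, ∀ k ≤ m, ¬ ((q k).1 = (p i).1 ∧ (q k).2 = (p i).2) := by
    intro i hi k hk h
    exact hcon i hi k hk (Prod.ext h.1.symm h.2.symm)
  have hstep : ∀ i ≤ n, b2N q m (p i).1 (p i).2 = b2N q m (p 0).1 (p 0).2 := by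
    intro i
    induction i with
    | zero => intro _; rfl
    | succ i ih =>
      intro hi
      rw [← ih (by omega)]
      have e1 := hpr i (by omega)
      have e2 := hpr (i + 1) hi
      rcases b2nn.1 (hp i (by omega)) with ⟨h1, h2⟩ | ⟨h1, h2⟩ | ⟨h1, h2⟩ | ⟨h1, h2⟩
      · rw [h1, h2]
        exact b2N_hor hq (hne i (by omega)) (by omega) (by omega)
      · have e3 : (p i).1 = (p (i + 1)).1 + 1 := by omega
        rw [e3, ← h2]
        exact (b2N_hor hq (hne (i + 1) hi) (by omega) (by omega)).symm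
      · rw [h1, h2]
        refine b2N_vert hq ?_
        intro k hk h
        exact hne (i + 1) hi k hk ⟨by omega, by omega⟩
      · have e3 : (p i).2 = (p (i + 1)).2 + 1 := by omega
        rw [e3, h1]
        refine (b2N_vert hq ?_).symm
        intro k hk h
        exact hne i (by omega) k hk ⟨by omega, by omega⟩
  have hA : b2N q m (p 0).1 (p 0).2 = 0 := by
    unfold b2N
    have e0 := hqc 0 (by omega)
    rw [if_neg (by omega), zero_add]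
    refine Finset.sum_eq_zero fun k hk => ?_
    rw [Finset.mem_range] at hk
    have e1 := hqc k (by omega)
    have e2 := hqc (k + 1) (by omega)
    rw [if_neg (by omega), if_neg (by omega)]
    ring
  have hB : b2N q m (p n).1 (p n).2 = 1 := by
    have e3 := hpr n le_rfl
    rw [← b2N_hor hq (hne n le_rfl) (by omega) (by omega)]
    unfold b2N
    have e0 := hqc 0 (by omega)
    rw [if_pos (by omega)]
    rw [Finset.sum_eq_zero, add_zero]
    intro k hk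
    rw [Finset.mem_range] at hk
    have e1 := hqc k (by omega)
    have e2 := hqc (k + 1) (by omega)
    rw [if_pos (by omega), if_pos (by omega)]
    ring
  have := hstep n le_rfl
  omega

private lemma b2len {p : ℕ → V} {n : ℕ} (hp : ∀ i < n, nn (p i) (p (i + 1))) (h : p 0 ≠ p n) :
    1 ≤ n := by
  rcases Nat.eq_zero_or_pos n with rfl | h'
  · exact absurd rfl h
  · exact h'

/-- the vertex set of a path of length at most L in S -/
private def b2Arc (S : Set V) (L : ℝ) (A : Set V) : Prop :=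
  ∃ (n : ℕ) (p : ℕ → V), (n : ℝ) ≤ L ∧ (∀ i ≤ n, p i ∈ S) ∧ (∀ i < n, nn (p i) (p (i + 1))) ∧
    A = {v | ∃ i ≤ n, p i = v}

/-- horizontal arc -/
private def b2H (S : Set V) (L : ℝ) (a b c d : ℤ) (A : Set V) : Prop :=
  ∃ (n : ℕ) (p : ℕ → V), (n : ℝ) ≤ L ∧ (p 0).1 = a ∧ (p n).1 = b ∧
    (∀ i ≤ n, p i ∈ S ∧ c ≤ (p i).2 ∧ (p i).2 ≤ d) ∧ (∀ i < n, nn (p i) (p (i + 1))) ∧
    A = {v | ∃ i ≤ n, p i = v}

/-- vertical arc -/
private def b2V (S : Set V) (L : ℝ) (a b c d : ℤ) (A : Set V) : Prop :=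
  ∃ (n : ℕ) (p : ℕ → V), (n : ℝ) ≤ L ∧ (p 0).2 = a ∧ (p n).2 = b ∧
    (∀ i ≤ n, p i ∈ S ∧ c ≤ (p i).1 ∧ (p i).1 ≤ d) ∧ (∀ i < n, nn (p i) (p (i + 1))) ∧
    A = {v | ∃ i ≤ n, p i = v}

private lemma b2H.arc {S : Set V} {L : ℝ} {a b c d : ℤ} {A : Set V} (h : b2H S L a b c d A) :
    b2Arc S L A := by
  obtain ⟨n, p, h1, _, _, h2, h3, h4⟩ := h
  exact ⟨n, p, h1, fun i hi => (h2 i hi).1, h3, h4⟩

private lemma b2V.arc {S : Set V} {L : ℝ} {a b c d : ℤ} {A : Set V} (h : b2V S L a b c d A) :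
    b2Arc S L A := by
  obtain ⟨n, p, h1, _, _, h2, h3, h4⟩ := h
  exact ⟨n, p, h1, fun i hi => (h2 i hi).1, h3, h4⟩

private lemma b2Arc.sub {S : Set V} {L : ℝ} {A : Set V} (h : b2Arc S L A) : A ⊆ S := by
  obtain ⟨n, p, _, h2, _, rfl⟩ := h
  rintro v ⟨i, hi, rfl⟩
  exact h2 i hi

private lemma b2Arc.path {S : Set V} {L : ℝ} {A : Set V} (h : b2Arc S L A) {u v : V} (hu : u ∈ A)
    (hv : v ∈ A) : ∃ (n : ℕ) (p : ℕ → V), (n : ℝ) ≤ L ∧ IsPath nn A n p u v := by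
  obtain ⟨n, p, h1, h2, h3, rfl⟩ := h
  obtain ⟨i, hi, rfl⟩ := hu
  obtain ⟨j, hj, rfl⟩ := hv
  rcases le_total i j with hij | hij
  · refine ⟨j - i, fun k => p (i + k), ?_, ?_, ?_, ?_, ?_⟩
    · refine le_trans ?_ h1
      exact_mod_cast (by omega : j - i ≤ n)
    · simp
    · simp only
      rw [Nat.add_sub_cancel' hij]
    · intro k hk
      exact ⟨i + k, by omega, rfl⟩
    · intro k hk
      exact h3 (i + k) (by omega)
  · refine ⟨i - j, fun k => p (i - k), ?_, ?_, ?_, ?_, ?_⟩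
    · refine le_trans ?_ h1
      exact_mod_cast (by omega : i - j ≤ n)
    · simp
    · simp only
      rw [Nat.sub_sub_self hij]
    · intro k hk
      exact ⟨i - k, by omega, rfl⟩
    · intro k hk
      have h5 := h3 (i - (k + 1)) (by omega)
      rw [show i - (k + 1) + 1 = i - k by omega] at h5
      exact nn_symm _ _ h5

private lemma b2Arc.conn {S : Set V} {L : ℝ} {A : Set V} (h : b2Arc S L A) {u v : V} (hu : u ∈ A)
    (hv : v ∈ A) : ConnIn nn A u v := by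
  obtain ⟨n, p, _, h2⟩ := h.path hu hv
  exact connIn_iff_path.2 ⟨n, p, h2⟩

private lemma b2Arc.cd {S : Set V} {L : ℝ} {A : Set V} (h : b2Arc S L A) {u v : V} (hu : u ∈ A)
    (hv : v ∈ A) : ((GF.cd S u v : ℕ∞) : ℝ≥0∞) ≤ ENNReal.ofReal L := by
  obtain ⟨n, p, h1, h2⟩ := h.path hu hv
  have h3 : GF.cd S u v ≤ n := cd_le_of_path (h2.mono h.sub)
  have h4 := ENat.toENNReal_mono h3
  refine h4.trans ?_
  rw [ENat.toENNReal_coe, ← ENNReal.ofReal_natCast]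
  exact ENNReal.ofReal_le_ofReal h1

private lemma b2H.meetV {S S' : Set V} {L L' : ℝ} {a b c d a' b' c' d' : ℤ} {A A' : Set V}
    (h : b2H S L a b c d A) (h' : b2V S' L' a' b' c' d' A') (h1 : a ≤ c') (h2 : d' ≤ b)
    (h3 : a' ≤ c) (h4 : d ≤ b') : ∃ v, v ∈ A ∧ v ∈ A' := by
  obtain ⟨n, p, _, p0, pn, hpr, hp, rfl⟩ := h
  obtain ⟨m, q, _, q0, qm, hqc, hq, rfl⟩ := h'
  obtain ⟨i, hi, k, hk, e⟩ := b2cross (a := c') (b := d') (c := c) (d := d) hp hq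
    (fun i hi => (hpr i hi).2) (fun k hk => (hqc k hk).2) (by omega) (by omega) (by omega) (by omega)
  exact ⟨p i, ⟨i, hi, rfl⟩, ⟨k, hk, e.symm⟩⟩

/-- the four arcs of a ring -/
private def b2R (S : Set V) (L : ℝ) (ρ : ℕ) (w : V) (F : Fin 4 → Set V) : Prop :=
  b2H S L (w.1 - 2 * ρ) (w.1 + 2 * ρ) (w.2 + ρ + 1) (w.2 + 2 * ρ) (F 0) ∧
  b2H S L (w.1 - 2 * ρ) (w.1 + 2 * ρ) (w.2 - 2 * ρ) (w.2 - ρ - 1) (F 1) ∧
  b2V S L (w.2 - 2 * ρ) (w.2 + 2 * ρ) (w.1 + ρ + 1) (w.1 + 2 * ρ) (F 2) ∧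
  b2V S L (w.2 - 2 * ρ) (w.2 + 2 * ρ) (w.1 - 2 * ρ) (w.1 - ρ - 1) (F 3)

private lemma b2mkH {L : ℝ} {a b c d : ℤ} {X : V → ℝ} (h : ShortLR L a b c d X) :
    ∃ A, b2H (lev X 0) L a b c d A := by
  obtain ⟨n, p, x, y, h1, h2, h3, h4, h5, h6, h7⟩ := h
  refine ⟨_, n, p, h1, by rw [h4, h2], by rw [h5, h3], ?_, h7, rfl⟩
  intro i hi
  obtain ⟨h8, h9⟩ := h6 i hi
  refine ⟨h8, ?_⟩
  unfold Rc at h9
  rw [Finset.mem_coe, Finset.mem_Icc, Prod.le_def, Prod.le_def] at h9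
  exact ⟨h9.1.2, h9.2.2⟩

private lemma b2mkV {L : ℝ} {a b c d : ℤ} {X : V → ℝ} (h : ShortLR L a b c d (swF X)) :
    ∃ A, b2V (lev X 0) L a b c d A := by
  obtain ⟨n, p, x, y, h1, h2, h3, h4, h5, h6, h7⟩ := h
  refine ⟨_, n, fun i => sw (p i), h1, ?_, ?_, ?_, ?_, rfl⟩
  · simp only [sw, h4, h2]
  · simp only [sw, h5, h3]
  · intro i hi
    obtain ⟨h8, h9⟩ := h6 i hi
    refine ⟨h8, ?_⟩
    unfold Rc at h9
    rw [Finset.mem_coe, Finset.mem_Icc, Prod.le_def, Prod.le_def] at h9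
    exact ⟨h9.1.2, h9.2.2⟩
  · intro i hi
    have h8 := b2nn.1 (h7 i hi)
    rw [b2nn]
    simp only [sw]
    omega

private lemma b2ring {L : ℝ} {w : V} {ρ : ℕ} {X : V → ℝ} (h : Ring L w ρ X) :
    ∃ F, b2R (lev X 0) L ρ w F := by
  obtain ⟨h0, h1, h2, h3⟩ := h
  obtain ⟨A0, h0⟩ := b2mkH h0
  obtain ⟨A1, h1⟩ := b2mkH h1
  obtain ⟨A2, h2⟩ := b2mkV h2
  obtain ⟨A3, h3⟩ := b2mkV h3
  exact ⟨![A0, A1, A2, A3], h0, h1, h2, h3⟩

private lemma b2R.arc {S : Set V} {L : ℝ} {ρ : ℕ} {w : V} {F : Fin 4 → Set V} (h : b2R S L ρ w F)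
    (i : Fin 4) : b2Arc S L (F i) := by
  obtain ⟨h0, h1, h2, h3⟩ := h
  fin_cases i
  · exact h0.arc
  · exact h1.arc
  · exact h2.arc
  · exact h3.arc

private lemma b2R.inner {S : Set V} {L : ℝ} {ρ : ℕ} {w : V} {F : Fin 4 → Set V} (h : b2R S L ρ w F)
    {K : Set V} (hK : ∀ i, F i ⊆ K) {i j : Fin 4} {u v : V} (hu : u ∈ F i) (hv : v ∈ F j) :
    ConnIn nn K u v := by
  have harc := h.arc
  obtain ⟨h0, h1, h2, h3⟩ := h
  obtain ⟨x, hx0, hx2⟩ := h0.meetV h2 (by omega) (by omega) (by omega) (by omega)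
  obtain ⟨y, hy0, hy3⟩ := h0.meetV h3 (by omega) (by omega) (by omega) (by omega)
  obtain ⟨z, hz1, hz2⟩ := h1.meetV h2 (by omega) (by omega) (by omega) (by omega)
  have key : ∀ k : Fin 4, ∀ u ∈ F k, ConnIn nn K u x := by
    intro k u hu
    have hc : ∀ k : Fin 4, ∀ {u v : V}, u ∈ F k → v ∈ F k → ConnIn nn K u v :=
      fun k u v hu hv => ((harc k).conn hu hv).mono (hK k)
    fin_cases k
    · exact hc 0 hu hx0
    · exact (hc 1 hu hz1).trans (hc 2 hz2 hx2)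
    · exact hc 2 hu hx2
    · exact (hc 3 hu hy3).trans (hc 0 hy0 hx0)
  exact (key i u hu).trans ((key j v hv).symm nn_symm)

private lemma b2nbr {S : Set V} {L : ℝ} {ρ : ℕ} {w w' : V} {F F' : Fin 4 → Set V}
    (h : b2R S L ρ w F) (h' : b2R S L ρ w' F')
    (hw : (w'.1 = w.1 + ρ ∧ w'.2 = w.2) ∨ (w'.1 = w.1 ∧ w'.2 = w.2 + ρ)) :
    ∃ i j v, v ∈ F i ∧ v ∈ F' j := by
  rcases hw with ⟨e1, e2⟩ | ⟨e1, e2⟩
  · obtain ⟨v, h1, h2⟩ := h.1.meetV h'.2.2.2 (by omega) (by omega) (by omega) (by omega)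
    exact ⟨0, 3, v, h1, h2⟩
  · obtain ⟨v, h1, h2⟩ := h'.2.1.meetV h.2.2.2 (by omega) (by omega) (by omega) (by omega)
    exact ⟨3, 1, v, h2, h1⟩

private lemma b2R.one_le {S : Set V} {L : ℝ} {ρ : ℕ} (hρ : 1 ≤ ρ) {w : V} {F : Fin 4 → Set V}
    (h : b2R S L ρ w F) : 1 ≤ L := by
  obtain ⟨n, p, h1, h2, h3, _, h4, _⟩ := h.1
  have h5 : 1 ≤ n := b2len h4 (by
    intro h
    rw [h] at h2
    omega)
  exact le_trans (by exact_mod_cast h5) h1

/-- a path leaving the ring meets one of the arcs -/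
private lemma b2hit {S : Set V} {L : ℝ} {ρ : ℕ} {w : V} {F : Fin 4 → Set V} (h : b2R S L ρ w F)
    {n : ℕ} {f : ℕ → V} (hf : ∀ i < n, nn (f i) (f (i + 1))) (h0 : dI (f 0) w ≤ ρ)
    (h1 : ∀ i ≤ n, dI (f i) w ≤ 2 * ρ) (h2 : dI (f n) w = 2 * ρ) :
    ∃ i ≤ n, ∃ j, f i ∈ F j := by
  rw [b2dle] at h0
  have h1' : ∀ i ≤ n, _ := fun i hi => b2dle.1 (h1 i hi)
  have h2' := b2led.1 h2.ge
  have hfr : ∀ i < n, nn (f (n - i)) (f (n - (i + 1))) := by
    intro i hi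
    have := hf (n - (i + 1)) (by omega)
    rw [show n - (i + 1) + 1 = n - i by omega] at this
    exact nn_symm _ _ this
  obtain ⟨⟨n0, p0, -, a0, b0, c0, d0, e0⟩, ⟨n1, p1, -, a1, b1, c1, d1, e1⟩,
    ⟨n2, p2, -, a2, b2, c2, d2, e2⟩, ⟨n3, p3, -, a3, b3, c3, d3, e3⟩⟩ := h
  rcases h2' with h3 | h3 | h3 | h3
  · obtain ⟨i, hi, k, hk, e⟩ := b2cross (p := f) (q := p2) (n := n) (m := n2) (a := w.1 + ρ + 1)
      (b := w.1 + 2 * ρ) (c := w.2 - 2 * ρ) (d := w.2 + 2 * ρ) hf d2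
      (fun i hi => by have := h1' i hi; omega) (fun i hi => (c2 i hi).2) (by omega) (by omega)
      (by omega) (by omega)
    exact ⟨i, hi, 2, by rw [e2]; exact ⟨k, hk, e.symm⟩⟩
  · obtain ⟨i, hi, k, hk, e⟩ := b2cross (p := fun i => f (n - i)) (q := p3) (n := n) (m := n3)
      (a := w.1 - 2 * ρ) (b := w.1 - ρ - 1) (c := w.2 - 2 * ρ) (d := w.2 + 2 * ρ) hfr d3
      (fun i hi => by have := h1' (n - i) (by omega); omega) (fun i hi => (c3 i hi).2)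
      (by simp only [Nat.sub_zero]; omega) (by simp only [Nat.sub_self]; omega)
      (by omega) (by omega)
    exact ⟨n - i, by omega, 3, by rw [e3]; exact ⟨k, hk, e.symm⟩⟩
  · obtain ⟨i, hi, k, hk, e⟩ := b2cross (p := p0) (q := f) (n := n0) (m := n) (a := w.1 - 2 * ρ)
      (b := w.1 + 2 * ρ) (c := w.2 + ρ + 1) (d := w.2 + 2 * ρ) d0 hf
      (fun i hi => (c0 i hi).2) (fun i hi => by have := h1' i hi; omega) (by omega) (by omega)
      (by omega) (by omega)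
    exact ⟨k, hk, 0, by rw [e0]; exact ⟨i, hi, e⟩⟩
  · obtain ⟨i, hi, k, hk, e⟩ := b2cross (p := p1) (q := fun i => f (n - i)) (n := n1) (m := n)
      (a := w.1 - 2 * ρ) (b := w.1 + 2 * ρ) (c := w.2 - 2 * ρ) (d := w.2 - ρ - 1) d1 hfr
      (fun i hi => (c1 i hi).2) (fun i hi => by have := h1' (n - i) (by omega); omega)
      (by omega) (by omega)
      (by simp only [Nat.sub_zero]; omega) (by simp only [Nat.sub_self]; omega)
    exact ⟨n - k, by omega, 1, by rw [e1]; exact ⟨i, hi, e⟩⟩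

private lemma b2dstep {a b w : V} {r : ℤ} (h : nn a b) (h' : dI a w < r) : dI b w ≤ r := by
  have h1 := b2nn.1 h
  have h2 := b2dle.1 (show dI a w ≤ r - 1 by omega)
  rw [b2dle]
  omega

/-- first exit -/
private lemma b2exit {κ : Set V} {p u w : V} {r : ℤ} (h : ConnIn nn κ p u) (hp : dI p w ≤ r)
    (hu : r ≤ dI u w) : ∃ (n : ℕ) (f : ℕ → V), f 0 = p ∧ (∀ i ≤ n, f i ∈ κ ∧ dI (f i) w ≤ r) ∧
      (∀ i < n, nn (f i) (f (i + 1))) ∧ dI (f n) w = r := by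
  classical
  obtain ⟨N, f, f0, fN, fκ, fs⟩ := connIn_iff_path.1 h
  have hex : ∃ i, i ≤ N ∧ r ≤ dI (f i) w := ⟨N, le_rfl, by rw [fN]; exact hu⟩
  obtain ⟨h1, h2⟩ := Nat.find_spec hex
  set n := Nat.find hex with hn
  have hlt : ∀ i < n, dI (f i) w < r := by
    intro i hi
    have := Nat.find_min hex hi
    push Not at this
    exact this (by omega)
  have hle : dI (f n) w ≤ r := by
    rcases Nat.eq_zero_or_pos n with h0 | h0
    · rw [h0, f0]; exact hp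
    · have h3 := hlt (n - 1) (by omega)
      have h4 := fs (n - 1) (by omega)
      rw [show n - 1 + 1 = n by omega] at h4
      exact b2dstep h4 h3
  refine ⟨n, f, f0, ?_, fun i hi => fs i (by omega), le_antisymm hle h2⟩
  intro i hi
  refine ⟨fκ i (by omega), ?_⟩
  rcases Nat.lt_or_ge i n with h5 | h5
  · exact (hlt i h5).le
  · rw [show i = n by omega]; exact hle

private lemma b2comp {A : Set V} {x0 p u : V} (hp : p ∈ comp nn A x0) (hu : u ∈ comp nn A x0) :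
    ConnIn nn (comp nn A x0) p u := by
  have h1 : ConnIn nn A x0 p := hp
  have h2 : ConnIn nn A x0 u := hu
  obtain ⟨n, f, f0, fn, fA, fs⟩ := connIn_iff_path.1 ((h1.symm nn_symm).trans h2)
  refine connIn_iff_path.2 ⟨n, f, f0, fn, ?_, fs⟩
  intro i hi
  have h3 : ConnIn nn A p (f i) := connIn_iff_path.2 ⟨i, f, f0, rfl, fun j hj => fA j (by omega),
    fun j hj => fs j (by omega)⟩
  exact h1.trans h3

/-- the distance inside one component near a net point -/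
private lemma b2near {t : ℝ} {U : Finset V} {c : V} {ρ : ℕ} {X : V → ℝ} {n : ℕ} {f : ℕ → V}
    (hf : ∀ i < n, nn (f i) (f (i + 1))) (h1 : ∀ i ≤ n, f i ∈ lev X t ∧ f i ∈ U ∧ dI (f i) c ≤ 4 * ρ)
    (h2 : (4 * ρ : ℤ) ≤ 8 * dI (f 0) (f n)) (i : ℕ) (hi : i ≤ n) :
    ((cd (lev X 0) (f 0) (f i) : ℕ∞) : ℝ≥0∞) ≤ FD t U c (4 * ρ) X := by
  classical
  have hmem : ∀ i ≤ n, f i ∈ lev X t ∩ ((Q c (2 * (4 * ρ : ℕ)) ∩ U : Finset V) : Set V) := by
    intro i hi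
    obtain ⟨h3, h4, h5⟩ := h1 i hi
    refine ⟨h3, ?_⟩
    rw [Finset.mem_coe, Finset.mem_inter, b2Q]
    refine ⟨?_, h4⟩
    push_cast
    have : (0 : ℤ) ≤ ρ := by positivity
    omega
  have hco : ∀ i ≤ n, f i ∈ comp nn (lev X t ∩ ((Q c (2 * (4 * ρ : ℕ)) ∩ U : Finset V) : Set V)) (f 0) := by
    intro i hi
    exact connIn_iff_path.2 ⟨i, f, rfl, rfl, fun j hj => hmem j (by omega),
      fun j hj => hf j (by omega)⟩
  have hclus : comp nn (lev X t ∩ ((Q c (2 * (4 * ρ : ℕ)) ∩ U : Finset V) : Set V)) (f 0) ∈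
      clus t (Q c (2 * (4 * ρ : ℕ)) ∩ U) (Q c (4 * ρ : ℕ)) (4 * ρ) X := by
    unfold clus
    refine Finset.mem_image_of_mem _ ?_
    rw [Finset.mem_filter]
    have h3 := h1 0 (by omega)
    refine ⟨?_, h3.1, f 0, hco 0 (by omega), f n, hco n le_rfl, ?_⟩
    · rw [Finset.mem_inter]
      refine ⟨?_, (hmem 0 (by omega)).2⟩
      rw [b2Q]
      push_cast
      exact h3.2.2
    · push_cast
      exact h2
  unfold FD
  refine le_trans ?_ (Finset.single_le_sum (f := fun κ => (1 + ⨆ x ∈ κ ∩ (Q c (4 * ρ : ℕ) : Set V),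
    ⨆ y ∈ κ ∩ (Q c (4 * ρ : ℕ) : Set V), ((cd (lev X 0) x y : ℕ∞) : ℝ≥0∞)))
    (fun _ _ => bot_le) hclus)
  refine le_trans ?_ le_add_self
  have hq : ∀ j ≤ n, f j ∈ comp nn (lev X t ∩ ((Q c (2 * (4 * ρ : ℕ)) ∩ U : Finset V) : Set V)) (f 0) ∩
      (Q c (4 * ρ : ℕ) : Set V) := by
    intro j hj
    refine ⟨hco j hj, ?_⟩
    rw [Finset.mem_coe, b2Q]
    push_cast
    exact (h1 j hj).2.2
  refine le_trans ?_ (le_iSup₂ (f := fun x _ => ⨆ y ∈ comp nn (lev X t ∩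
    ((Q c (2 * (4 * ρ : ℕ)) ∩ U : Finset V) : Set V)) (f 0) ∩ (Q c (4 * ρ : ℕ) : Set V),
    ((cd (lev X 0) x y : ℕ∞) : ℝ≥0∞)) (f 0) (hq 0 (by omega)))
  exact le_iSup₂ (f := fun y _ => ((cd (lev X 0) (f 0) y : ℕ∞) : ℝ≥0∞)) (f i) (hq i hi)


/-- the grid point below p -/
private def b2g (ρ : ℕ) (p : V) : V := (ρ * (p.1 / ρ), ρ * (p.2 / ρ))

private lemma b2g_spec {ρ : ℕ} (hρ : 1 ≤ ρ) (a : ℤ) :
    (ρ : ℤ) * (a / ρ) ≤ a ∧ a < (ρ : ℤ) * (a / ρ) + ρ := by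
  have h0 : (0 : ℤ) < ρ := by exact_mod_cast hρ
  have h1 := Int.emod_nonneg a h0.ne'
  have h2 := Int.emod_lt_of_pos a h0
  have h3 := Int.mul_ediv_add_emod a ρ
  omega

private lemma b2g_dist {ρ : ℕ} (hρ : 1 ≤ ρ) (p : V) : dI p (b2g ρ p) < ρ := by
  have h1 := b2g_spec hρ p.1
  have h2 := b2g_spec hρ p.2
  have h3 : dI p (b2g ρ p) ≤ ρ - 1 := by
    rw [b2dle]
    simp only [b2g]
    omega
  omega

private lemma b2g_one {ρ : ℕ} (hρ : 1 ≤ ρ) {a b : ℤ} (h : b = a + 1) :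
    (ρ : ℤ) * (b / ρ) = ρ * (a / ρ) ∨ (ρ : ℤ) * (b / ρ) = ρ * (a / ρ) + ρ := by
  have h0 : (0 : ℤ) < ρ := by exact_mod_cast hρ
  have h1 := b2g_spec hρ a
  have h2 := b2g_spec hρ b
  set k := a / (ρ : ℤ)
  set l := b / (ρ : ℤ)
  have h3 : k ≤ l := by
    by_contra hc
    have : l + 1 ≤ k := by omega
    have : (ρ : ℤ) * (l + 1) ≤ ρ * k := mul_le_mul_of_nonneg_left this h0.le
    rw [mul_add, mul_one] at this
    omega
  have h4 : l ≤ k + 1 := by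
    by_contra hc
    have : k + 2 ≤ l := by omega
    have : (ρ : ℤ) * (k + 2) ≤ ρ * l := mul_le_mul_of_nonneg_left this h0.le
    rw [mul_add] at this
    omega
  rcases (by omega : l = k ∨ l = k + 1) with h5 | h5
  · left; rw [h5]
  · right; rw [h5]; ring

private lemma b2g_step {ρ : ℕ} (hρ : 1 ≤ ρ) {p p' : V} (h : nn p p') :
    b2g ρ p = b2g ρ p' ∨
    (((b2g ρ p').1 = (b2g ρ p).1 + ρ ∧ (b2g ρ p').2 = (b2g ρ p).2) ∨
      ((b2g ρ p').1 = (b2g ρ p).1 ∧ (b2g ρ p').2 = (b2g ρ p).2 + ρ)) ∨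
    (((b2g ρ p).1 = (b2g ρ p').1 + ρ ∧ (b2g ρ p).2 = (b2g ρ p').2) ∨
      ((b2g ρ p).1 = (b2g ρ p').1 ∧ (b2g ρ p).2 = (b2g ρ p').2 + ρ)) := by
  rcases b2nn.1 h with ⟨h1, h2⟩ | ⟨h1, h2⟩ | ⟨h1, h2⟩ | ⟨h1, h2⟩
  · rcases b2g_one hρ h1 with h3 | h3
    · left
      simp only [b2g]
      rw [h3, h2]
    · right; left; left
      simp only [b2g]
      exact ⟨h3, by rw [h2]⟩
  · rcases b2g_one hρ (show p.1 = p'.1 + 1 by omega) with h3 | h3
    · left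
      simp only [b2g]
      rw [h3, h2]
    · right; right; left
      simp only [b2g]
      exact ⟨h3, by rw [h2]⟩
  · rcases b2g_one hρ h2 with h3 | h3
    · left
      simp only [b2g]
      rw [h3, h1]
    · right; left; right
      simp only [b2g]
      exact ⟨by rw [h1], h3⟩
  · rcases b2g_one hρ (show p.2 = p'.2 + 1 by omega) with h3 | h3
    · left
      simp only [b2g]
      rw [h3, h1]
    · right; right; right
      simp only [b2g]
      exact ⟨by rw [h1], h3⟩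

/-- B2 (deterministic) -/
theorem B2 (t L : ℝ) (ht : 0 ≤ t) (U : Finset V) (z : V) (R ρ q : ℕ) (hU : IsU R z U) (hρ : 64 ≤ ρ)
    (h : 2000 * ρ ≤ R) (hq : 1 ≤ q) (hq' : 2 * q ≤ ρ) (Nt : Finset V) (hN : IsNet (Q z (2 * R) ∩ U) q Nt)
    (W : Finset V) (hW : ∀ w : V, w ∈ W ↔ w ∈ Q z (2 * R + 4 * ρ) ∧ (ρ : ℤ) ∣ w.1 ∧ (ρ : ℤ) ∣ w.2)
    (X : V → ℝ) (hB : ∀ w ∈ W, X ∉ BadB t L ρ w) :
    FD t U z R X ≤ (FM t U z R X : ℝ≥0∞) * (1 + 2 * (⨆ c ∈ Nt, FD t U c (4 * ρ) X) +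
      8 * W.card * ENNReal.ofReal L) := by
  classical
  have hlev : lev X t ⊆ lev X 0 := fun v hv => le_trans ht hv
  set M : ℝ≥0∞ := ⨆ c ∈ Nt, FD t U c (4 * ρ) X with hM
  set B : Finset V := Q z (2 * R) ∩ U with hBdef
  suffices hmain : ∀ κ ∈ clus t B (Q z R) R X, (1 + ⨆ x ∈ κ ∩ (Q z R : Set V),
      ⨆ y ∈ κ ∩ (Q z R : Set V), ((cd (lev X 0) x y : ℕ∞) : ℝ≥0∞)) ≤
      1 + 2 * M + 8 * W.card * ENNReal.ofReal L by
    unfold FD FM
    refine (Finset.sum_le_card_nsmul _ _ _ hmain).trans (le_of_eq ?_)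
    rw [nsmul_eq_mul]
  intro κ hκ
  -- the component
  obtain ⟨x0, hx0, hx0'⟩ := Finset.mem_image.1 hκ
  obtain ⟨hx1, hx2, u0, hu0, v0, hv0, huv⟩ := Finset.mem_filter.1 hx0
  have hκsub : κ ⊆ lev X t ∩ (B : Set V) := by
    intro v hv
    rw [← hx0'] at hv
    exact ConnIn.mem_right hv
  have hκconn : ∀ p ∈ κ, ∀ u ∈ κ, ConnIn nn κ p u := by
    intro p hp u hu
    rw [← hx0'] at hp hu ⊢
    exact b2comp hp hu
  rw [hx0'] at hu0 hv0
  -- every point is far from some point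
  have hfar : ∀ p ∈ κ, ∃ u ∈ κ, (3 * ρ : ℤ) ≤ dI u p := by
    intro p hp
    by_contra hcon
    push Not at hcon
    have h1 := b2dle.1 (show dI u0 p ≤ 3 * ρ - 1 by have := hcon u0 hu0; omega)
    have h2 := b2dle.1 (show dI v0 p ≤ 3 * ρ - 1 by have := hcon v0 hv0; omega)
    have h3 : dI u0 v0 ≤ 6 * ρ := by
      rw [b2dle]
      omega
    have h4 : (2000 * ρ : ℤ) ≤ R := by exact_mod_cast h
    have h5 : (64 : ℤ) ≤ ρ := by exact_mod_cast hρ
    omega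
  have hρ1 : 1 ≤ ρ := by omega
  have hρ' : (64 : ℤ) ≤ ρ := by exact_mod_cast hρ
  -- exit path
  have hexit : ∀ p ∈ κ, ∃ (n : ℕ) (f : ℕ → V), f 0 = p ∧
      (∀ i ≤ n, f i ∈ κ ∧ dI (f i) (b2g ρ p) ≤ 2 * ρ) ∧
      (∀ i < n, nn (f i) (f (i + 1))) ∧ dI (f n) (b2g ρ p) = 2 * ρ := by
    intro p hp
    obtain ⟨u, hu, hu'⟩ := hfar p hp
    have h1 := b2g_dist hρ1 p
    refine b2exit (hκconn p hp u hu) (by omega) ?_
    by_contra hcon
    have h2 := b2dle.1 (show dI u (b2g ρ p) ≤ 2 * ρ - 1 by omega)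
    have h3 := b2dle.1 (show dI p (b2g ρ p) ≤ ρ - 1 by omega)
    have h4 : dI u p ≤ 3 * ρ - 2 := by
      rw [b2dle]
      omega
    omega
  have hWmem : ∀ p ∈ κ, b2g ρ p ∈ W := by
    intro p hp
    rw [hW]
    refine ⟨?_, Dvd.intro _ rfl, Dvd.intro _ rfl⟩
    have h1 := b2g_dist hρ1 p
    have h2 := (hκsub hp).2
    rw [hBdef, Finset.mem_coe, Finset.mem_inter, b2Q] at h2
    have h3 := b2dle.1 h2.1
    have h4 := b2dle.1 (show dI p (b2g ρ p) ≤ ρ by omega)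
    rw [b2Q, b2dle]
    omega
  -- the rings
  have hring : ∀ p ∈ κ, Ring L (b2g ρ p) ρ X := by
    intro p hp
    have h1 := hB _ (hWmem p hp)
    by_contra hcon
    apply h1
    refine ⟨?_, hcon⟩
    obtain ⟨n, f, f0, hf, hs, hn⟩ := hexit p hp
    refine ⟨{v | ∃ i ≤ n, f i = v}, ?_, ?_, f 0, ⟨0, by omega, rfl⟩, f n, ⟨n, le_rfl, rfl⟩, ?_⟩
    · rintro v ⟨i, hi, rfl⟩
      refine ⟨?_, (hκsub (hf i hi).1).1⟩
      rw [Finset.mem_coe, b2Q]
      have := (hf i hi).2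
      omega
    · have harc : b2Arc Set.univ (n : ℝ) {v | ∃ i ≤ n, f i = v} :=
        ⟨n, f, le_rfl, fun _ _ => Set.mem_univ _, hs, rfl⟩
      exact fun x hx y hy => harc.conn hx hy
    · have h2 := b2g_dist hρ1 p
      rw [← f0] at h2
      by_contra hc
      have h3 := b2dle.1 (show dI (f 0) (b2g ρ p) ≤ ρ - 1 by rw [f0] at h2 ⊢; omega)
      have h4 := b2dle.1 (show dI (f 0) (f n) ≤ ρ - 1 by omega)
      have h5 : dI (f n) (b2g ρ p) ≤ 2 * ρ - 1 := by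
        rw [b2dle]
        omega
      omega
  choose! F hF using fun (w : V) (hw : Ring L w ρ X) => b2ring hw
  set K : Set V := {v | ∃ p ∈ κ, ∃ j, v ∈ F (b2g ρ p) j} with hK
  have hFK : ∀ p ∈ κ, ∀ j, F (b2g ρ p) j ⊆ K := fun p hp j v hv => ⟨p, hp, j, hv⟩
  have hKlev : K ⊆ lev X 0 := by
    rintro v ⟨p, hp, j, hv⟩
    exact ((hF _ (hring p hp)).arc j).sub hv
  -- inside one ring
  have hin : ∀ p ∈ κ, ∀ i j u v, u ∈ F (b2g ρ p) i → v ∈ F (b2g ρ p) j → ConnIn nn K u v :=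
    fun p hp i j u v hu hv => (hF _ (hring p hp)).inner (hFK p hp) hu hv
  -- nonempty arcs
  have hne : ∀ p ∈ κ, ∃ v, v ∈ F (b2g ρ p) 0 := by
    intro p hp
    obtain ⟨n, f, _, _, _, _, _, e⟩ := (hF _ (hring p hp)).1
    exact ⟨f 0, by rw [e]; exact ⟨0, by omega, rfl⟩⟩
  -- all rings are connected
  have hall : ∀ p ∈ κ, ∀ p' ∈ κ, ∀ i j u v, u ∈ F (b2g ρ p) i → v ∈ F (b2g ρ p') j →
      ConnIn nn K u v := by
    intro p hp p' hp'
    obtain ⟨n, f, f0, fn, fκ, fs⟩ := connIn_iff_path.1 (hκconn p hp p' hp')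
    have key : ∀ k ≤ n, ∀ i j u v, u ∈ F (b2g ρ p) i → v ∈ F (b2g ρ (f k)) j → ConnIn nn K u v := by
      intro k
      induction k with
      | zero =>
        intro _
        rw [f0]
        exact hin p hp
      | succ k ih =>
        intro hk i j u v hu hv
        have hk1 := fκ k (by omega)
        have hk2 := fκ (k + 1) hk
        have ih' := ih (by omega)
        have hstep : ∃ a b x, x ∈ F (b2g ρ (f k)) a ∧ x ∈ F (b2g ρ (f (k + 1))) b := by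
          rcases b2g_step hρ1 (fs k (by omega)) with h1 | h1 | h1
          · obtain ⟨x, hx⟩ := hne _ hk1
            exact ⟨0, 0, x, hx, by rw [← h1]; exact hx⟩
          · exact b2nbr (hF _ (hring _ hk1)) (hF _ (hring _ hk2)) h1
          · obtain ⟨a, b, x, h2, h3⟩ := b2nbr (hF _ (hring _ hk2)) (hF _ (hring _ hk1)) h1
            exact ⟨b, a, x, h3, h2⟩
        obtain ⟨a, b, x, h2, h3⟩ := hstep
        exact (ih' i a u x hu h2).trans (hin _ hk2 b j x v h3 hv)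
    have := key n le_rfl
    rwa [fn] at this
  have hκne : x0 ∈ κ := by
    rw [← hx0']
    exact ConnIn.refl ⟨hx2, (Finset.mem_inter.1 hx1).2⟩
  have hL1 : 1 ≤ L := (hF _ (hring x0 hκne)).one_le hρ1
  have hL1' : (1 : ℝ≥0∞) ≤ ENNReal.ofReal L := by
    rw [← ENNReal.ofReal_one]
    exact ENNReal.ofReal_le_ofReal hL1
  -- distance between two points of the rings
  have hdist : ∀ u ∈ K, ∀ v ∈ K, ((cd (lev X 0) u v : ℕ∞) : ℝ≥0∞) ≤
      8 * W.card * ENNReal.ofReal L := by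
    rintro u hu v hv
    obtain ⟨p, hp, i, hui⟩ := hu
    obtain ⟨p', hp', j, hvj⟩ := hv
    have hc := hall p hp p' hp' i j u v hui hvj
    have h1 := L1 K (lev X 0) hKlev u v hc
      ((W.filter (fun w => Ring L w ρ X)) ×ˢ (Finset.univ : Finset (Fin 4)))
      (fun a => F a.1 a.2) (by
        rintro x ⟨s, hs, k, hx⟩
        simp only [Set.mem_iUnion]
        refine ⟨(b2g ρ s, k), ?_, hx⟩
        rw [Finset.mem_product, Finset.mem_filter]
        exact ⟨⟨hWmem s hs, hring s hs⟩, Finset.mem_univ _⟩) (fun _ => ENNReal.ofReal L) (by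
        rintro a ha x hx y hy
        rw [Finset.mem_product, Finset.mem_filter] at ha
        exact ((hF _ ha.1.2).arc a.2).cd hx.2 hy.2)
    refine (le_add_self).trans (h1.trans ?_)
    rw [Finset.sum_const, nsmul_eq_mul, Finset.card_product, Finset.card_univ, Fintype.card_fin]
    have h2 : (((W.filter (fun w => Ring L w ρ X)).card * 4 : ℕ) : ℝ≥0∞) ≤ (4 * W.card : ℝ≥0∞) := by
      have h3 : (W.filter (fun w => Ring L w ρ X)).card * 4 ≤ 4 * W.card := by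
        have := Finset.card_filter_le W (fun w => Ring L w ρ X)
        omega
      exact_mod_cast h3
    calc (((W.filter (fun w => Ring L w ρ X)).card * 4 : ℕ) : ℝ≥0∞) * (1 + ENNReal.ofReal L)
        ≤ (4 * W.card : ℝ≥0∞) * (ENNReal.ofReal L + ENNReal.ofReal L) := by
          gcongr
      _ = 8 * W.card * ENNReal.ofReal L := by ring
  -- every point is close to a ring
  have hnear : ∀ x ∈ κ, ∃ x' ∈ K, ((cd (lev X 0) x x' : ℕ∞) : ℝ≥0∞) ≤ M := by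
    intro x hx
    obtain ⟨n, f, f0, hf, hs, hn⟩ := hexit x hx
    have hd := b2g_dist hρ1 x
    have hd' := b2dle.1 (show dI x (b2g ρ x) ≤ ρ - 1 by omega)
    obtain ⟨i, hi, j, hij⟩ := b2hit (hF _ (hring x hx)) hs (by rw [f0]; omega)
      (fun i hi => (hf i hi).2) hn
    refine ⟨f i, ⟨x, hx, j, hij⟩, ?_⟩
    obtain ⟨c, hc, hxc⟩ := hN.2.1 x (hκsub hx).2
    have hxc' := b2dle.1 hxc
    have h1 : ((cd (lev X 0) (f 0) (f i) : ℕ∞) : ℝ≥0∞) ≤ FD t U c (4 * ρ) X := by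
      refine b2near hs ?_ ?_ i hi
      · intro k hk
        have h2 := hκsub (hf k hk).1
        refine ⟨h2.1, (Finset.mem_inter.1 h2.2).2, ?_⟩
        have h3 := b2dle.1 (hf k hk).2
        rw [b2dle]
        omega
      · rw [f0]
        have h2 := b2led.1 hn.ge
        have h3 : (ρ : ℤ) ≤ dI x (f n) := by
          rw [b2led]
          omega
        omega
    rw [f0] at h1
    exact h1.trans (le_iSup₂ (f := fun c (_ : c ∈ Nt) => FD t U c (4 * ρ) X) c hc)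
  rw [add_assoc]
  refine add_le_add_right ?_ 1
  refine iSup₂_le fun x hx => iSup₂_le fun y hy => ?_
  obtain ⟨x', hx', hxx⟩ := hnear x hx.1
  obtain ⟨y', hy', hyy⟩ := hnear y hy.1
  have h1 : cd (lev X 0) x y ≤ cd (lev X 0) x x' + (cd (lev X 0) x' y' + cd (lev X 0) y y') := by
    refine (cd_triangle _ x x' y).trans ?_
    gcongr
    rw [cd_comm _ y y']
    exact cd_triangle _ x' y' y
  have h2 := ENat.toENNReal_mono h1
  rw [ENat.toENNReal_add, ENat.toENNReal_add] at h2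
  calc ((cd (lev X 0) x y : ℕ∞) : ℝ≥0∞) ≤ _ := h2
    _ ≤ M + (8 * W.card * ENNReal.ofReal L + M) := by
      gcongr
      exact hdist x' hx' y' hy'
    _ = 2 * M + 8 * W.card * ENNReal.ofReal L := by ring

end GF
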