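import Pool.Agent.Lib.MP_acf58e_gf.Func

open MeasureTheory Set Filter Topology ProbabilityTheory
open scoped ENNReal

namespace GF

namespace BlocR

/-- a set determined by two level patterns on a finite set is measurable -/
theorem meas_of_lev (F : Finset V) (t s : ℝ) (E : Set (V → ℝ))
    (hE : ∀ X X' : V → ℝ, (∀ v ∈ F, (t ≤ X v ↔ t ≤ X' v)) → (∀ v ∈ F, (s ≤ X v ↔ s ≤ X' v)) →
      X ∈ E → X' ∈ E) : MeasurableSet E := by
  classical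
  obtain ⟨P, hP⟩ : ∃ P : Finset V × Finset V → Set (V → ℝ), P = fun p =>
    {X | ∀ v ∈ F, (t ≤ X v ↔ v ∈ p.1) ∧ (s ≤ X v ↔ v ∈ p.2)} := ⟨_, rfl⟩
  have hm1 : ∀ (c : ℝ) (v : V) (q : Prop), MeasurableSet {X : V → ℝ | c ≤ X v ↔ q} := by
    intro c v q
    have h1 : MeasurableSet {X : V → ℝ | c ≤ X v} := measurableSet_le measurable_const (measurable_pi_apply v)
    by_cases hq : q
    · simpa [hq] using h1
    · have : {X : V → ℝ | c ≤ X v ↔ q} = {X : V → ℝ | c ≤ X v}ᶜ := by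
        ext X; simp [hq]
      rw [this]
      exact h1.compl
  have hPm : ∀ p, MeasurableSet (P p) := by
    intro p
    have : P p = ⋂ v ∈ F, ({X : V → ℝ | t ≤ X v ↔ v ∈ p.1} ∩ {X : V → ℝ | s ≤ X v ↔ v ∈ p.2}) := by
      rw [hP]
      ext X
      simp only [mem_iInter, mem_inter_iff]
      rfl
    rw [this]
    exact Finset.measurableSet_biInter F fun v _ => (hm1 t v _).inter (hm1 s v _)
  have hU : E = ⋃ p ∈ {p : Finset V × Finset V | ∃ X ∈ E, X ∈ P p}, P p := by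
    ext X
    simp only [mem_iUnion, exists_prop]
    constructor
    · intro hX
      refine ⟨(F.filter (fun v => t ≤ X v), F.filter (fun v => s ≤ X v)), ?_, ?_⟩
      · refine ⟨X, hX, ?_⟩
        rw [hP]
        intro v hv
        simp [hv]
      · rw [hP]
        intro v hv
        simp [hv]
    · rintro ⟨p, ⟨Y, hY, hYp⟩, hXp⟩
      rw [hP] at hYp hXp
      exact hE Y X (fun v hv => ((hYp v hv).1).trans ((hXp v hv).1).symm)
        (fun v hv => ((hYp v hv).2).trans ((hXp v hv).2).symm) hY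
  rw [hU]
  exact MeasurableSet.biUnion (to_countable _) fun p _ => hPm p

theorem mem_Rc {a b c d : ℤ} {v : V} : v ∈ Rc a b c d ↔ (a ≤ v.1 ∧ c ≤ v.2) ∧ v.1 ≤ b ∧ v.2 ≤ d := by
  unfold Rc
  rw [Finset.mem_Icc, Prod.le_def, Prod.le_def]

theorem mem_Q' {z v : V} {r : ℤ} : v ∈ Q z r ↔ (z.1 - r ≤ v.1 ∧ z.2 - r ≤ v.2) ∧ v.1 ≤ z.1 + r ∧ v.2 ≤ z.2 + r := by
  unfold Q
  rw [Finset.mem_Icc, Prod.le_def, Prod.le_def]

theorem short_congr {L : ℝ} {a b c d : ℤ} {X X' : V → ℝ}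
    (h : ∀ v ∈ Rc a b c d, (0 ≤ X v → 0 ≤ X' v)) (hX : ShortLR L a b c d X) : ShortLR L a b c d X' := by
  obtain ⟨n, p, x, y, hn, hx, hy, h0, h1, hA, hadj⟩ := hX
  refine ⟨n, p, x, y, hn, hx, hy, h0, h1, fun i hi => ?_, hadj⟩
  obtain ⟨h2, h3⟩ := hA i hi
  exact ⟨h _ h3 h2, h3⟩

theorem ring_congr {L : ℝ} {w : V} {ρ : ℕ} {X X' : V → ℝ}
    (h : ∀ v ∈ Q w (8 * ρ), (0 ≤ X v → 0 ≤ X' v)) (hX : Ring L w ρ X) : Ring L w ρ X' := by
  have hρ : (0 : ℤ) ≤ ρ := Int.natCast_nonneg ρ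
  obtain ⟨h1, h2, h3, h4⟩ := hX
  refine ⟨short_congr (fun v hv => h v ?_) h1, short_congr (fun v hv => h v ?_) h2,
    short_congr (fun v hv => h (sw v) ?_) h3, short_congr (fun v hv => h (sw v) ?_) h4⟩
  all_goals
    rw [mem_Rc] at hv
    rw [mem_Q']
    try simp only [sw]
    omega

theorem bad_congr {t L : ℝ} {ρ : ℕ} {w : V} (X X' : V → ℝ)
    (h1 : ∀ v ∈ Q w (8 * ρ), (t ≤ X v ↔ t ≤ X' v)) (h2 : ∀ v ∈ Q w (8 * ρ), (0 ≤ X v ↔ 0 ≤ X' v))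
    (hX : X ∈ BadB t L ρ w) : X' ∈ BadB t L ρ w := by
  have hρ : (0 : ℤ) ≤ ρ := Int.natCast_nonneg ρ
  obtain ⟨⟨A, hA, hc, hx⟩, hr⟩ := hX
  refine ⟨⟨A, fun v hv => ?_, hc, hx⟩, fun hr' => hr (ring_congr (fun v hv => (h2 v hv).2) hr')⟩
  obtain ⟨h3, h4⟩ := hA hv
  refine ⟨h3, (h1 v ?_).1 h4⟩
  rw [Finset.mem_coe, mem_Q'] at h3
  rw [mem_Q']
  omega

end BlocR

theorem loc_BadB (t L : ℝ) (ρ : ℕ) (w : V) : LocEv (Q w (8 * ρ) : Set V) (BadB t L ρ w) := by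
  refine ⟨BlocR.meas_of_lev (Q w (8 * ρ)) t 0 _ BlocR.bad_congr, fun X X' h => ⟨?_, ?_⟩⟩
  · exact BlocR.bad_congr X X' (fun v hv => by rw [h v hv]) (fun v hv => by rw [h v hv])
  · exact BlocR.bad_congr X' X (fun v hv => by rw [h v hv]) (fun v hv => by rw [h v hv])

end GF
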