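import Pool.Agent.Lib.MP_acf58e_gf.G1

/-! MP_acf58e_pr, row G2: Markov (DLR) property. -/

open MeasureTheory Set
open scoped ENNReal

namespace GF

/-- the factor of `wt D` which does not depend on the values on `E` -/
private noncomputable def G2_rr (D E : Finset V) (X : V → ℝ) : ℝ≥0∞ :=
  ENNReal.ofReal (Real.exp (-(energy D X - energy E X)))

private theorem G2_split (D E : Finset V) (X : V → ℝ) : wt D X = wt E X * G2_rr D E X := by
  unfold wt G2_rr
  rw [← ENNReal.ofReal_mul (Real.exp_nonneg _), ← Real.exp_add]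
  congr 2
  ring

private theorem G2_energy {D E : Finset V} (h : E ⊆ D) (X : V → ℝ) :
    energy D X - energy E X = (∑ x ∈ eH D \ eH E, (X (nE x) - X x) ^ 2 +
      ∑ x ∈ eV D \ eV E, (X (nN x) - X x) ^ 2) / 2 := by
  have h1 : eH E ⊆ eH D := Finset.union_subset_union h (Finset.image_subset_image h)
  have h2 : eV E ⊆ eV D := Finset.union_subset_union h (Finset.image_subset_image h)
  unfold energy
  rw [← Finset.sum_sdiff h1, ← Finset.sum_sdiff h2]
  ring

private theorem G2_notH {E : Finset V} {x : V} (hx : x ∉ eH E) : x ∉ E ∧ nE x ∉ E := by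
  unfold eH at hx
  rw [Finset.mem_union, not_or] at hx
  refine ⟨hx.1, fun h => hx.2 ?_⟩
  rw [Finset.mem_image]
  exact ⟨nE x, h, by simp [nE, nW]⟩

private theorem G2_notV {E : Finset V} {x : V} (hx : x ∉ eV E) : x ∉ E ∧ nN x ∉ E := by
  unfold eV at hx
  rw [Finset.mem_union, not_or] at hx
  refine ⟨hx.1, fun h => hx.2 ?_⟩
  rw [Finset.mem_image]
  exact ⟨nN x, h, by simp [nN, nS]⟩

private theorem G2_rr_congr {D E : Finset V} (h : E ⊆ D) {X Y : V → ℝ}
    (hXY : ∀ x ∉ E, X x = Y x) : G2_rr D E X = G2_rr D E Y := by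
  unfold G2_rr
  rw [G2_energy h, G2_energy h]
  have h1 : ∑ x ∈ eH D \ eH E, (X (nE x) - X x) ^ 2 = ∑ x ∈ eH D \ eH E, (Y (nE x) - Y x) ^ 2 := by
    apply Finset.sum_congr rfl
    intro x hx
    obtain ⟨h1, h2⟩ := G2_notH (Finset.mem_sdiff.1 hx).2
    rw [hXY x h1, hXY _ h2]
  have h2 : ∑ x ∈ eV D \ eV E, (X (nN x) - X x) ^ 2 = ∑ x ∈ eV D \ eV E, (Y (nN x) - Y x) ^ 2 := by
    apply Finset.sum_congr rfl
    intro x hx
    obtain ⟨h1, h2⟩ := G2_notV (Finset.mem_sdiff.1 hx).2
    rw [hXY x h1, hXY _ h2]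
  rw [h1, h2]

private theorem G2_meas_rr (D E : Finset V) : Measurable (G2_rr D E) := by
  unfold G2_rr
  exact (Real.measurable_exp.comp
    ((measurable_energy D).sub (measurable_energy E)).neg).ennreal_ofReal

private theorem G2_glue_off {E : Finset V} {X : V → ℝ} {y : E → ℝ} {x : V} (hx : x ∉ E) :
    glue E X y x = X x := by
  rw [glue_apply, dif_neg hx]

/-- marginals -/
private noncomputable def G2_lm (D : Finset V) (f : (V → ℝ) → ℝ≥0∞) (β : V → ℝ) : ℝ≥0∞ :=
  ∫⁻ y : D → ℝ, f (glue D β y)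

private theorem G2_lm_eq (D : Finset V) (f : (V → ℝ) → ℝ≥0∞) :
    G2_lm D f = lmarginal (fun _ : V => (volume : Measure ℝ)) D f := rfl

private theorem G2_meas_lm (D : Finset V) {f : (V → ℝ) → ℝ≥0∞} (hf : Measurable f) :
    Measurable (G2_lm D f) := by
  rw [G2_lm_eq]
  exact hf.lmarginal _

private theorem G2_lm_split {D E : Finset V} (h : E ⊆ D) {f : (V → ℝ) → ℝ≥0∞}
    (hf : Measurable f) : G2_lm D f = G2_lm (D \ E) (G2_lm E f) := by
  rw [G2_lm_eq, G2_lm_eq, G2_lm_eq, ← lmarginal_union _ f hf Finset.sdiff_disjoint,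
    Finset.sdiff_union_of_subset h]

private theorem G2_pf_eq (D : Finset V) : pf D = G2_lm D (wt D) := rfl

private theorem G2_meas_pf (D : Finset V) : Measurable (pf D) := by
  rw [G2_pf_eq]
  exact G2_meas_lm D (measurable_wt D)

/-- X ↦ gam E X is a kernel -/
theorem measurable_gam_lintegral (E : Finset V) {F : (V → ℝ) × (V → ℝ) → ℝ≥0∞} (hF : Measurable F) :
    Measurable (fun X : V → ℝ => ∫⁻ Y, F (X, Y) ∂gam E X) := by
  have h1 : (fun X : V → ℝ => ∫⁻ Y, F (X, Y) ∂gam E X) = fun X => (pf E X)⁻¹ *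
      ∫⁻ y : E → ℝ, F (X, glue E X y) * wt E (glue E X y) := by
    funext X
    exact lintegral_gam E X (F := fun Y => F (X, Y)) (hF.comp measurable_prodMk_left)
  rw [h1]
  have hg : Measurable (fun p : (V → ℝ) × (E → ℝ) => glue E p.1 p.2) :=
    measurable_updateFinset'
  exact (G2_meas_pf E).inv.mul (Measurable.lintegral_prod_right
    ((hF.comp (measurable_fst.prodMk hg)).mul ((measurable_wt E).comp hg)))

theorem measurable_gam (E : Finset V) : Measurable (fun X : V → ℝ => gam E X) := by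
  apply Measure.measurable_of_measurable_coe
  intro s hs
  have h1 := measurable_gam_lintegral E (F := fun p => s.indicator 1 p.2)
    ((measurable_one.indicator hs).comp measurable_snd)
  have h2 : (fun X : V → ℝ => ∫⁻ Y, s.indicator (1 : (V → ℝ) → ℝ≥0∞) Y ∂gam E X) =
      fun X => gam E X s := by
    funext X
    exact lintegral_indicator_one hs
  rw [← h2]
  exact h1

/-- two-variable version: F may depend on the outside configuration -/
theorem dlr_pair {D E : Finset V} (h : E ⊆ D) (β : V → ℝ) {F : (V → ℝ) × (V → ℝ) → ℝ≥0∞}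
    (hF : Measurable F) (hFE : ∀ X X' Y : V → ℝ, (∀ x ∉ E, X x = X' x) → F (X, Y) = F (X', Y)) :
    ∫⁻ X, F (X, X) ∂gam D β = ∫⁻ X, (∫⁻ Y, F (X, Y) ∂gam E X) ∂gam D β := by
  have hd : Measurable (fun X : V → ℝ => F (X, X)) := hF.comp (measurable_id.prodMk measurable_id)
  have hH := measurable_gam_lintegral E hF
  rw [lintegral_gam D β hd, lintegral_gam D β hH]
  congr 1
  have hinner : ∀ (G : (V → ℝ) × (V → ℝ) → ℝ≥0∞), Measurable G →
      (∀ X X' Y : V → ℝ, (∀ x ∉ E, X x = X' x) → G (X, Y) = G (X', Y)) → ∀ Z : V → ℝ,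
      G2_lm E (fun X => G (X, X) * wt D X) Z =
        G2_rr D E Z * (pf E Z * ∫⁻ Y, G (Z, Y) ∂gam E Z) := by
    intro G hG hGE Z
    have hGZ : Measurable (fun Y => G (Z, Y)) := hG.comp measurable_prodMk_left
    rw [lintegral_gam E Z hGZ, ← mul_assoc (pf E Z), ENNReal.mul_inv_cancel (pf_ne_zero E Z)
      (pf_ne_top E Z), one_mul, ← lintegral_const_mul]
    · unfold G2_lm
      apply lintegral_congr
      intro y
      have h1 : G (glue E Z y, glue E Z y) = G (Z, glue E Z y) :=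
        hGE _ _ _ fun x hx => G2_glue_off hx
      have h2 : G2_rr D E (glue E Z y) = G2_rr D E Z :=
        G2_rr_congr h fun x hx => G2_glue_off hx
      change G (glue E Z y, glue E Z y) * wt D (glue E Z y) = _
      rw [h1, G2_split D E, h2]
      ring
    · exact (hGZ.comp (measurable_glue E Z)).mul ((measurable_wt E).comp (measurable_glue E Z))
  have h2 : G2_lm D (fun X => F (X, X) * wt D X) β =
      G2_lm D (fun X => (∫⁻ Y, F (X, Y) ∂gam E X) * wt D X) β := by
    have hd' : Measurable (fun X => F (X, X) * wt D X) := hd.mul (measurable_wt D)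
    have hH' : Measurable (fun X => (∫⁻ Y, F (X, Y) ∂gam E X) * wt D X) :=
      hH.mul (measurable_wt D)
    rw [G2_lm_split h hd', G2_lm_split h hH']
    congr 1
    funext Z
    rw [hinner F hF hFE Z]
    have h3 := hinner (fun p => ∫⁻ Y, F (p.1, Y) ∂gam E p.1) (hH.comp measurable_fst)
      (fun X X' _ hXX => by
        change ∫⁻ Y, F (X, Y) ∂gam E X = ∫⁻ Y, F (X', Y) ∂gam E X'
        rw [gam_congr hXX]
        exact lintegral_congr fun Y => hFE X X' Y hXX) Z
    rw [h3]
    change _ = G2_rr D E Z * (pf E Z * ∫⁻ _, (∫⁻ Y, F (Z, Y) ∂gam E Z) ∂gam E Z)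
    rw [lintegral_const, measure_univ, mul_one]
  exact h2

theorem dlr {D E : Finset V} (h : E ⊆ D) (β : V → ℝ) {F : (V → ℝ) → ℝ≥0∞} (hF : Measurable F) :
    ∫⁻ X, F X ∂gam D β = ∫⁻ X, (∫⁻ Y, F Y ∂gam E X) ∂gam D β :=
  dlr_pair h β (F := fun p => F p.2) (hF.comp measurable_snd) fun _ _ _ _ => rfl

theorem dlr_mul {D E : Finset V} (h : E ⊆ D) (β : V → ℝ) {F G : (V → ℝ) → ℝ≥0∞} (hF : Measurable F)
    (hG : Measurable G) (hGE : ∀ X Y : V → ℝ, (∀ x ∉ E, X x = Y x) → G X = G Y) :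
    ∫⁻ X, G X * F X ∂gam D β = ∫⁻ X, G X * (∫⁻ Y, F Y ∂gam E X) ∂gam D β := by
  have h1 := dlr_pair h β (F := fun p => G p.1 * F p.2)
    ((hG.comp measurable_fst).mul (hF.comp measurable_snd))
    (fun X X' Y hXX => by
      change G X * F Y = G X' * F Y
      rw [hGE X X' hXX])
  refine h1.trans (lintegral_congr fun X => ?_)
  change ∫⁻ Y, G X * F Y ∂gam E X = _
  exact lintegral_const_mul _ hF

theorem dlr_apply {D E : Finset V} (h : E ⊆ D) (β : V → ℝ) {A : Set (V → ℝ)} (hA : MeasurableSet A) :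
    gam D β A = ∫⁻ X, gam E X A ∂gam D β := by
  have h1 := dlr h β (measurable_one.indicator hA)
  rw [lintegral_indicator_one hA] at h1
  rw [h1]
  exact lintegral_congr fun X => lintegral_indicator_one hA

theorem dlr_integral {D E : Finset V} (h : E ⊆ D) (β : V → ℝ) {F : (V → ℝ) → ℝ} (hF : Measurable F)
    (hi : Integrable F (gam D β)) :
    Integrable (fun X => ∫ Y, F Y ∂gam E X) (gam D β) ∧ (∀ᵐ X ∂gam D β, Integrable F (gam E X)) ∧
    ∫ X, F X ∂gam D β = ∫ X, (∫ Y, F Y ∂gam E X) ∂gam D β := by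
  let η : ProbabilityTheory.Kernel (V → ℝ) (V → ℝ) := ⟨fun X => gam E X, measurable_gam E⟩
  let κ : ProbabilityTheory.Kernel Unit (V → ℝ) := ProbabilityTheory.Kernel.const Unit (gam D β)
  have : ProbabilityTheory.IsMarkovKernel η := ⟨fun X => gam_prob E X⟩
  have : ProbabilityTheory.IsMarkovKernel κ := ⟨fun _ => gam_prob D β⟩
  have hcomp : (ProbabilityTheory.Kernel.comp η κ) () = gam D β := by
    ext s hs
    rw [ProbabilityTheory.Kernel.comp_apply' _ _ _ hs]
    exact (dlr_apply h β hs).symm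
  have hi' : Integrable F ((ProbabilityTheory.Kernel.comp η κ) ()) := by
    rw [hcomp]
    exact hi
  refine ⟨hi'.integral_comp, hi'.ae_of_comp, ?_⟩
  have h1 := ProbabilityTheory.Kernel.integral_comp hi'
  rw [hcomp] at h1
  exact h1

end GF
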