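import Pool.Agent.Lib.MP_acf58e_gf.Func

open MeasureTheory Set Filter Topology ProbabilityTheory
open scoped ENNReal

namespace GF

/-! ### measurability of the chemical distance -/

/-- existence of a path of length `n` is a countable union of finite intersections -/
private theorem path_set_eq (B : Set V) (n : ℕ) (x y : V) :
    {X : V → ℝ | ∃ p, IsPath nn (lev X 0 ∩ B) n p x y} =
      ⋃ q ∈ {q : Fin (n + 1) → V | q 0 = x ∧ q (Fin.last n) = y ∧ (∀ i, q i ∈ B) ∧
        ∀ i : Fin n, nn (q i.castSucc) (q i.succ)}, ⋂ i, {X : V → ℝ | 0 ≤ X (q i)} := by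
  ext X
  simp only [mem_ofPred_eq, mem_iUnion, mem_iInter, exists_prop]
  constructor
  · rintro ⟨p, h0, hn, hA, hs⟩
    refine ⟨fun i => p i, ⟨by simpa using h0, by simpa using hn, fun i => (hA i (by omega)).2,
      fun i => ?_⟩, fun i => (hA i (by omega)).1⟩
    simpa using hs i i.2
  · rintro ⟨q, ⟨h0, hn, hB, hs⟩, hX⟩
    refine ⟨fun i => if h : i < n + 1 then q ⟨i, h⟩ else x, ?_, ?_, ?_, ?_⟩
    · simpa using h0
    · simpa [Fin.last] using hn
    · intro i hi
      have hi' : i < n + 1 := by omega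
      simp only [hi', dif_pos]
      exact ⟨hX ⟨i, hi'⟩, hB ⟨i, hi'⟩⟩
    · intro i hi
      have hi' : i < n + 1 := by omega
      have hi'' : i + 1 < n + 1 := by omega
      simp only [hi', hi'', dif_pos]
      exact hs ⟨i, hi⟩

private theorem meas_path (B : Set V) (n : ℕ) (x y : V) :
    MeasurableSet {X : V → ℝ | ∃ p, IsPath nn (lev X 0 ∩ B) n p x y} := by
  rw [path_set_eq]
  refine MeasurableSet.biUnion (Set.to_countable _) fun q _ => ?_
  refine MeasurableSet.iInter fun i => ?_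
  exact measurableSet_le measurable_const (measurable_pi_apply _)

private theorem meas_cd (B : Set V) (x y : V) :
    Measurable fun X : V → ℝ => ((cd (lev X 0 ∩ B) x y : ℕ∞) : ℝ≥0∞) := by
  classical
  have h1 : (fun X : V → ℝ => ((cd (lev X 0 ∩ B) x y : ℕ∞) : ℝ≥0∞)) = fun X => ⨅ n : ℕ,
      if (∃ p, IsPath nn (lev X 0 ∩ B) n p x y) then (n : ℝ≥0∞) else ⊤ := by
    funext X
    rw [cd, ENat.toENNReal_iInf]
    refine iInf_congr fun n => ?_
    rw [ENat.toENNReal_iInf]
    split_ifs with h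
    · rw [ciInf_pos h]; simp
    · simp [h]
  rw [h1]
  refine Measurable.iInf fun n => ?_
  exact Measurable.ite (meas_path B n x y) measurable_const measurable_const

/-! ### the clusters depend on finitely many signs -/

open Classical in
private noncomputable def clusS (B T : Finset V) (R : ℕ) (S : Finset V) : Finset (Set V) :=
  ((T ∩ B).filter (fun x => x ∈ S ∧
    ∃ u ∈ comp nn (S : Set V) x, ∃ v ∈ comp nn (S : Set V) x, (R : ℤ) ≤ 8 * dI u v)).image
      (fun x => comp nn (S : Set V) x)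

private noncomputable def sgn (t : ℝ) (B : Finset V) (X : V → ℝ) : Finset V :=
  B.filter (fun v => t ≤ X v)

private theorem coe_sgn (t : ℝ) (B : Finset V) (X : V → ℝ) :
    (sgn t B X : Set V) = lev X t ∩ B := by
  ext v
  simp [sgn, lev, and_comm]

private theorem clus_eq (t : ℝ) (B T : Finset V) (R : ℕ) (X : V → ℝ) :
    clus t B T R X = clusS B T R (sgn t B X) := by
  classical
  unfold clus clusS
  rw [coe_sgn]
  have h1 : ∀ x ∈ T ∩ B, (x ∈ lev X t ∧ ∃ u ∈ comp nn (lev X t ∩ B) x,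
      ∃ v ∈ comp nn (lev X t ∩ B) x, (R : ℤ) ≤ 8 * dI u v) ↔ (x ∈ sgn t B X ∧
      ∃ u ∈ comp nn (lev X t ∩ B) x, ∃ v ∈ comp nn (lev X t ∩ B) x, (R : ℤ) ≤ 8 * dI u v) := by
    intro x hx
    have hxB : x ∈ B := (Finset.mem_inter.1 hx).2
    have : x ∈ lev X t ↔ x ∈ sgn t B X := by
      simp [sgn, lev, hxB]
    rw [this]
  rw [Finset.filter_congr h1]

private instance : MeasurableSpace (Finset V) := ⊤

private theorem meas_sgn (t : ℝ) (B : Finset V) : Measurable (sgn t B) := by
  refine measurable_to_countable' fun S => ?_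
  have h1 : sgn t B ⁻¹' {S} = ⋂ v : V, {X : V → ℝ | v ∈ S ↔ (v ∈ B ∧ t ≤ X v)} := by
    ext X
    simp only [mem_preimage, mem_singleton_iff, mem_iInter, mem_ofPred_eq]
    constructor
    · rintro rfl v
      simp [sgn]
    · intro h
      ext v
      rw [h v]
      simp [sgn]
  rw [h1]
  refine MeasurableSet.iInter fun v => ?_
  have h2 : MeasurableSet {X : V → ℝ | t ≤ X v} :=
    measurableSet_le measurable_const (measurable_pi_apply _)
  by_cases hS : v ∈ S
  · by_cases hB : v ∈ B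
    · simpa [hS, hB] using h2
    · simp [hS, hB]
  · by_cases hB : v ∈ B
    · have h3 : {X : V → ℝ | v ∈ S ↔ (v ∈ B ∧ t ≤ X v)} = {X : V → ℝ | t ≤ X v}ᶜ := by
        ext X
        simp [hS, hB]
      rw [h3]
      exact h2.compl
    · simp [hS, hB]

theorem meas_FD (t : ℝ) (U : Finset V) (z : V) (R : ℕ) : Measurable (FD t U z R) := by
  classical
  set B : Finset V := Q z (2 * R) ∩ U with hB
  let G : (V → ℝ) × Finset V → ℝ≥0∞ := fun p => ∑ κ ∈ clusS B (Q z R) R p.2,
    (1 + ⨆ x ∈ κ ∩ (Q z R : Set V), ⨆ y ∈ κ ∩ (Q z R : Set V),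
      ((cd (lev p.1 0) x y : ℕ∞) : ℝ≥0∞))
  have hG : Measurable G := by
    refine measurable_from_prod_countable_left fun S => ?_
    change Measurable fun X : V → ℝ => ∑ κ ∈ clusS B (Q z R) R S,
      ((1 : ℝ≥0∞) + ⨆ x ∈ κ ∩ (Q z R : Set V), ⨆ y ∈ κ ∩ (Q z R : Set V),
        ((cd (lev X 0) x y : ℕ∞) : ℝ≥0∞))
    refine Finset.measurable_sum _ fun κ _ => ?_
    have h0 : Measurable fun X : V → ℝ => ⨆ x ∈ κ ∩ (Q z R : Set V), ⨆ y ∈ κ ∩ (Q z R : Set V),
        ((cd (lev X 0) x y : ℕ∞) : ℝ≥0∞) := by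
      refine Measurable.iSup fun x => Measurable.iSup fun _ => Measurable.iSup fun y =>
        Measurable.iSup fun _ => ?_
      have := meas_cd univ x y
      simpa only [inter_univ] using this
    exact Measurable.const_add h0 (1 : ℝ≥0∞)
  have h1 : FD t U z R = G ∘ fun X => (X, sgn t B X) := by
    funext X
    change ∑ κ ∈ clus t B (Q z R) R X, _ = _
    rw [clus_eq]
    rfl
  rw [h1]
  exact hG.comp (measurable_id.prodMk (meas_sgn t B))

theorem meas_FM (t : ℝ) (U : Finset V) (z : V) (R : ℕ) : Measurable (FM t U z R) := by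
  have h1 : FM t U z R = (fun S => (clusS (Q z (2 * R) ∩ U) (Q z R) R S).card) ∘
      sgn t (Q z (2 * R) ∩ U) := by
    funext X
    rw [FM, clus_eq]
    rfl
  rw [h1]
  exact measurable_from_top.comp (meas_sgn t _)

/-! ### crude bounds -/

private theorem conn_path {A : Set V} {x y : V} (h : ConnIn nn A x y) :
    ∃ n p, IsPath nn A n p x y := by
  obtain ⟨hx, hc⟩ := h
  induction hc with
  | refl => exact ⟨0, fun _ => x, rfl, rfl, fun _ _ => hx, fun i hi => absurd hi (by omega)⟩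
  | @tail b c _ hbc ih =>
    obtain ⟨n, p, h0, hn, hA, hs⟩ := ih
    refine ⟨n + 1, fun i => if i ≤ n then p i else c, ?_, ?_, ?_, ?_⟩
    · simpa using h0
    · simp
    · intro i hi
      by_cases h : i ≤ n
      · simp only [h, if_true]; exact hA i h
      · simp only [h, if_false]; exact hbc.2
    · intro i hi
      by_cases h : i + 1 ≤ n
      · have h' : i ≤ n := by omega
        simp only [h, h', if_true]
        exact hs i (by omega)
      · have h' : i = n := by omega
        subst h'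
        simp only [le_refl, if_true, h, if_false, hn]
        exact hbc.1

private theorem conn_rel {A : Set V} {x y : V} (h : ConnIn nn A x y) :
    Relation.ReflTransGen (fun a b => nn a b ∧ a ∈ A ∧ b ∈ A) x y ∧ y ∈ A := by
  obtain ⟨hx, hc⟩ := h
  induction hc with
  | refl => exact ⟨Relation.ReflTransGen.refl, hx⟩
  | @tail b c _ hbc ih => exact ⟨ih.1.tail ⟨hbc.1, ih.2, hbc.2⟩, hbc.2⟩

private theorem conn_of {A : Set V} {x0 x y : V} (h1 : ConnIn nn A x0 x) (h2 : ConnIn nn A x0 y) :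
    ConnIn nn A x y := by
  obtain ⟨r1, hx⟩ := conn_rel h1
  obtain ⟨r2, hy⟩ := conn_rel h2
  have hsymm : ∀ a b : V, (nn a b ∧ a ∈ A ∧ b ∈ A) → (nn b a ∧ b ∈ A ∧ a ∈ A) := by
    rintro a b ⟨hab, ha, hb⟩
    refine ⟨?_, hb, ha⟩
    unfold nn at hab ⊢
    rw [abs_sub_comm b.1 a.1, abs_sub_comm b.2 a.2]
    exact hab
  have r0 : Relation.ReflTransGen (fun a b => nn a b ∧ a ∈ A ∧ b ∈ A) x x0 := by
    rw [← Relation.reflTransGen_swap] at r1
    exact Relation.ReflTransGen.mono (fun a b h => hsymm _ _ h) _ _ r1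
  have r3 := r0.trans r2
  exact ⟨hx, Relation.ReflTransGen.mono (fun a b h => ⟨h.1, h.2.2⟩) _ _ r3⟩

private theorem path_short {A : Set V} {B : Finset V} (hAB : A ⊆ B) {x y : V}
    (h : ConnIn nn A x y) : ∃ n p, IsPath nn A n p x y ∧ n + 1 ≤ B.card := by
  classical
  have hex : ∃ n, ∃ p, IsPath nn A n p x y := conn_path h
  let n := Nat.find hex
  obtain ⟨p, hp⟩ : ∃ p, IsPath nn A n p x y := Nat.find_spec hex
  refine ⟨n, p, hp, ?_⟩
  obtain ⟨h0, hn, hA, hs⟩ := hp
  have hinj : ∀ i j, i < j → j ≤ n → p i ≠ p j := by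
    intro i j hij hj heq
    have hlt : n - (j - i) < n := by omega
    refine Nat.find_min hex hlt ⟨fun k => if k ≤ i then p k else p (k + (j - i)), ?_, ?_, ?_, ?_⟩
    · simpa using h0
    · by_cases hk : n - (j - i) ≤ i
      · have hji : j = n := by omega
        have : n - (j - i) = i := by omega
        simp only [this, le_refl, if_true]
        rw [heq, hji, hn]
      · simp only [hk, if_false]
        rw [show n - (j - i) + (j - i) = n by omega, hn]
    · intro k hk
      by_cases hki : k ≤ i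
      · simp only [hki, if_true]; exact hA k (by omega)
      · simp only [hki, if_false]; exact hA _ (by omega)
    · intro k hk
      by_cases hki : k + 1 ≤ i
      · have hk2 : k ≤ i := by omega
        simp only [hki, hk2, if_true]
        exact hs k (by omega)
      · by_cases hk2 : k ≤ i
        · have hk3 : k = i := by omega
          subst hk3
          simp only [le_refl, if_true, hki, if_false]
          rw [heq, show k + 1 + (j - k) = j + 1 by omega]
          exact hs j (by omega)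
        · simp only [hki, hk2, if_false]
          rw [show k + 1 + (j - i) = k + (j - i) + 1 by omega]
          exact hs _ (by omega)
  have hsub : (Finset.range (n + 1)).image p ⊆ B := by
    intro v hv
    obtain ⟨i, hi, rfl⟩ := Finset.mem_image.1 hv
    exact hAB (hA i (by have := Finset.mem_range.1 hi; omega))
  have hcard := Finset.card_le_card hsub
  rw [Finset.card_image_of_injOn, Finset.card_range] at hcard
  · exact hcard
  · intro i hi j hj hij
    have hi' := Finset.mem_range.1 (Finset.mem_coe.1 hi)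
    have hj' := Finset.mem_range.1 (Finset.mem_coe.1 hj)
    rcases lt_trichotomy i j with h | h | h
    · exact absurd hij (hinj i j h (by omega))
    · exact h
    · exact absurd hij.symm (hinj j i h (by omega))

private theorem card_Q (z : V) (r : ℕ) : (Q z r).card = (2 * r + 1) ^ 2 := by
  unfold Q
  rw [Finset.card_Icc_prod]
  simp only [Int.card_Icc]
  have h1 : z.1 + (r : ℤ) + 1 - (z.1 - r) = ((2 * r + 1 : ℕ) : ℤ) := by push_cast; ring
  have h2 : z.2 + (r : ℤ) + 1 - (z.2 - r) = ((2 * r + 1 : ℕ) : ℤ) := by push_cast; ring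
  rw [h1, h2, Int.toNat_natCast, sq]

theorem FD_le (t : ℝ) (ht : 0 ≤ t) (U : Finset V) (z : V) (R : ℕ) (X : V → ℝ) :
    FD t U z R X ≤ (4 * R + 1 : ℝ≥0∞) ^ 4 := by
  classical
  set B : Finset V := Q z (2 * R) ∩ U with hB
  have hBc : B.card ≤ (4 * R + 1) ^ 2 := by
    refine (Finset.card_le_card Finset.inter_subset_left).trans ?_
    have := card_Q z (2 * R)
    push_cast at this
    rw [this]
    apply Nat.pow_le_pow_left
    omega
  have hclus : (clus t B (Q z R) R X).card ≤ (4 * R + 1) ^ 2 := by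
    unfold clus
    refine Finset.card_image_le.trans ?_
    refine (Finset.card_le_card (Finset.filter_subset _ _)).trans ?_
    refine (Finset.card_le_card Finset.inter_subset_left).trans ?_
    rw [card_Q z R]
    apply Nat.pow_le_pow_left
    omega
  have hterm : ∀ κ ∈ clus t B (Q z R) R X, (1 + ⨆ x ∈ κ ∩ (Q z R : Set V),
      ⨆ y ∈ κ ∩ (Q z R : Set V), ((cd (lev X 0) x y : ℕ∞) : ℝ≥0∞)) ≤ (4 * R + 1 : ℝ≥0∞) ^ 2 := by
    intro κ hκ
    unfold clus at hκ
    obtain ⟨x0, hx0, rfl⟩ := Finset.mem_image.1 hκ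
    obtain ⟨hx1, hx2, hx3⟩ := Finset.mem_filter.1 hx0
    have hx0B : x0 ∈ B := (Finset.mem_inter.1 hx1).2
    have hB1 : 1 ≤ B.card := Finset.card_pos.2 ⟨x0, hx0B⟩
    have hAB : lev X t ∩ (B : Set V) ⊆ B := inter_subset_right
    have hsup : (⨆ x ∈ comp nn (lev X t ∩ B) x0 ∩ (Q z R : Set V),
        ⨆ y ∈ comp nn (lev X t ∩ B) x0 ∩ (Q z R : Set V), ((cd (lev X 0) x y : ℕ∞) : ℝ≥0∞)) ≤
        ((B.card - 1 : ℕ) : ℝ≥0∞) := by
      refine iSup₂_le fun x hx => iSup₂_le fun y hy => ?_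
      have hxy : ConnIn nn (lev X t ∩ B) x y := conn_of hx.1 hy.1
      obtain ⟨n, p, ⟨h0, hn, hA, hs⟩, hc⟩ := path_short hAB hxy
      have h1 : cd (lev X 0) x y ≤ (n : ℕ∞) := by
        refine iInf₂_le n ⟨p, h0, hn, fun i hi => ?_, hs⟩
        exact ht.trans (hA i hi).1
      have h2 : ((cd (lev X 0) x y : ℕ∞) : ℝ≥0∞) ≤ (n : ℝ≥0∞) := by
        have := ENat.toENNReal_le.2 h1
        simpa using this
      refine h2.trans ?_
      exact_mod_cast (by omega : n ≤ B.card - 1)
    calc _ ≤ 1 + ((B.card - 1 : ℕ) : ℝ≥0∞) := by gcongr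
      _ = ((1 + (B.card - 1) : ℕ) : ℝ≥0∞) := by push_cast; rfl
      _ ≤ (((4 * R + 1) ^ 2 : ℕ) : ℝ≥0∞) := by
          apply Nat.cast_le.2
          omega
      _ = _ := by push_cast; ring
  calc FD t U z R X ≤ ∑ _κ ∈ clus t B (Q z R) R X, (4 * R + 1 : ℝ≥0∞) ^ 2 :=
        Finset.sum_le_sum hterm
    _ = ((clus t B (Q z R) R X).card : ℝ≥0∞) * (4 * R + 1 : ℝ≥0∞) ^ 2 := by
        rw [Finset.sum_const, nsmul_eq_mul]
    _ ≤ (4 * R + 1 : ℝ≥0∞) ^ 2 * (4 * R + 1 : ℝ≥0∞) ^ 2 := by
        gcongr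
        exact_mod_cast hclus
    _ = _ := by ring

private theorem gam_le_one (D : Finset V) (β : V → ℝ) : gam D β univ ≤ 1 := by
  unfold gam
  rw [Measure.smul_apply, smul_eq_mul]
  refine le_trans ?_ (ENNReal.inv_mul_le_one (pf D β))
  gcongr
  by_cases h : AEMeasurable (glue D β)
      ((volume : Measure (D → ℝ)).withDensity (fun y => wt D (glue D β y)))
  · rw [Measure.map_apply_of_aemeasurable h MeasurableSet.univ, preimage_univ,
      withDensity_apply _ MeasurableSet.univ, Measure.restrict_univ]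
    exact le_rfl
  · rw [Measure.map_of_not_aemeasurable h]
    simp

theorem Lam_le (t : ℝ) (ht : 0 ≤ t) (R : ℕ) : Lam t R ≤ (4 * R + 1 : ℝ≥0∞) ^ 4 := by
  refine iSup_le fun z => iSup_le fun U => iSup_le fun _ => iSup_le fun β => ?_
  have h1 : ENNReal.ofReal (Real.exp (-oscH z R β)) ≤ 1 := by
    rw [ENNReal.ofReal_le_one, Real.exp_le_one_iff]
    have : 0 ≤ oscH z R β := osc_nonneg _ _
    linarith
  have h2 : N4 (gam (Q z (8 * R)) β) (FD t U z R) ≤ (4 * R + 1 : ℝ≥0∞) ^ 4 := by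
    unfold N4
    calc (∫⁻ X, FD t U z R X ^ (4 : ℕ) ∂(gam (Q z (8 * R)) β)) ^ (1 / 4 : ℝ)
        ≤ (∫⁻ _X, ((4 * R + 1 : ℝ≥0∞) ^ 4) ^ (4 : ℕ) ∂(gam (Q z (8 * R)) β)) ^ (1 / 4 : ℝ) := by
          gcongr
          exact FD_le t ht U z R _
      _ ≤ (((4 * R + 1 : ℝ≥0∞) ^ 4) ^ (4 : ℕ)) ^ (1 / 4 : ℝ) := by
          gcongr
          rw [lintegral_const]
          calc _ ≤ ((4 * R + 1 : ℝ≥0∞) ^ 4) ^ (4 : ℕ) * 1 := by
                gcongr
                exact gam_le_one _ _
            _ = _ := mul_one _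
      _ = _ := by
          rw [← ENNReal.rpow_natCast _ 4, ← ENNReal.rpow_mul]
          norm_num
  calc _ ≤ (4 * R + 1 : ℝ≥0∞) ^ 4 * 1 := by gcongr
    _ = _ := mul_one _

end GF
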