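import Pool.Agent.Lib.MP_acf58e_gf.Func
import Pool.Agent.Lib.MP_acf58e_gf.Lmeas
import Pool.Agent.Lib.MP_acf58e_gf.G2

open MeasureTheory Set Filter Topology ProbabilityTheory
open scoped ENNReal

namespace GF

/-- the fourth moment of a child in terms of `Lam` -/
private theorem fourth_le (t : ℝ) (U : Finset V) (c : V) (ρ : ℕ) (hU : IsU ρ c U) (X : V → ℝ) :
    ∫⁻ Y, FD t U c ρ Y ^ (4 : ℕ) ∂(gam (Q c (8 * ρ)) X) ≤
      Lam t ρ ^ (4 : ℕ) * ENNReal.ofReal (Real.exp (4 * oscH c ρ X)) := by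
  set A : ℝ≥0∞ := ∫⁻ Y, FD t U c ρ Y ^ (4 : ℕ) ∂(gam (Q c (8 * ρ)) X) with hA
  have h1 : A ^ (1 / 4 : ℝ) * ENNReal.ofReal (Real.exp (-oscH c ρ X)) ≤ Lam t ρ := by
    unfold Lam
    exact le_iSup_of_le c (le_iSup_of_le U (le_iSup_of_le hU (le_iSup_of_le X le_rfl)))
  have h2 : A ^ (1 / 4 : ℝ) ≤ Lam t ρ * ENNReal.ofReal (Real.exp (oscH c ρ X)) := by
    have h3 : ENNReal.ofReal (Real.exp (-oscH c ρ X)) * ENNReal.ofReal (Real.exp (oscH c ρ X))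
        = 1 := by
      rw [← ENNReal.ofReal_mul (Real.exp_pos _).le, ← Real.exp_add, neg_add_cancel, Real.exp_zero,
        ENNReal.ofReal_one]
    calc A ^ (1 / 4 : ℝ) = A ^ (1 / 4 : ℝ) * (ENNReal.ofReal (Real.exp (-oscH c ρ X)) *
          ENNReal.ofReal (Real.exp (oscH c ρ X))) := by rw [h3, mul_one]
      _ = A ^ (1 / 4 : ℝ) * ENNReal.ofReal (Real.exp (-oscH c ρ X)) *
          ENNReal.ofReal (Real.exp (oscH c ρ X)) := by rw [mul_assoc]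
      _ ≤ _ := mul_le_mul_left h1 _
  have h4 : A = (A ^ (1 / 4 : ℝ)) ^ (4 : ℕ) := by
    rw [← ENNReal.rpow_natCast, ← ENNReal.rpow_mul]
    norm_num
  rw [h4]
  refine (pow_le_pow_left₀ zero_le h2 4).trans (le_of_eq ?_)
  rw [mul_pow, ← ENNReal.ofReal_pow (Real.exp_pos _).le, ← Real.exp_nat_mul]
  norm_num

/-- L0a -/
theorem L0a (t : ℝ) (U : Finset V) (c : V) (ρ : ℕ) (hU : IsU ρ c U) (D : Finset V)
    (hc : Q c (8 * ρ) ⊆ D) (β : V → ℝ) (E : Set (V → ℝ)) (hE : LocEv (Q c (8 * ρ) : Set V)ᶜ E) :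
    ∫⁻ X in E, FD t U c ρ X ^ (4 : ℕ) ∂(gam D β) ≤
      Lam t ρ ^ (4 : ℕ) * ∫⁻ X in E, ENNReal.ofReal (Real.exp (4 * oscH c ρ X)) ∂(gam D β) := by
  classical
  have hG : Measurable (E.indicator (1 : (V → ℝ) → ℝ≥0∞)) := measurable_one.indicator hE.1
  have hF : Measurable (fun X => FD t U c ρ X ^ (4 : ℕ)) := (meas_FD t U c ρ).pow_const 4
  have e1 : ∀ F : (V → ℝ) → ℝ≥0∞, ∫⁻ X in E, F X ∂(gam D β)
      = ∫⁻ X, E.indicator (1 : (V → ℝ) → ℝ≥0∞) X * F X ∂(gam D β) := by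
    intro F
    rw [← lintegral_indicator hE.1]
    refine lintegral_congr fun X => ?_
    by_cases hX : X ∈ E
    · simp [hX]
    · simp [hX]
  have hGE : ∀ X Y : V → ℝ, (∀ x ∉ Q c (8 * ρ), X x = Y x) →
      E.indicator (1 : (V → ℝ) → ℝ≥0∞) X = E.indicator (1 : (V → ℝ) → ℝ≥0∞) Y := by
    intro X Y h
    have h2 := hE.2 X Y (fun v hv => h v (fun hmem => hv (Finset.mem_coe.2 hmem)))
    by_cases hX : X ∈ E
    · have hY := h2.1 hX
      simp [hX, hY]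
    · have hY : Y ∉ E := fun h3 => hX (h2.2 h3)
      simp [hX, hY]
  rw [e1, dlr_mul hc β hF hG hGE]
  calc ∫⁻ X, E.indicator (1 : (V → ℝ) → ℝ≥0∞) X *
        (∫⁻ Y, FD t U c ρ Y ^ (4 : ℕ) ∂(gam (Q c (8 * ρ)) X)) ∂(gam D β)
      ≤ ∫⁻ X, E.indicator (1 : (V → ℝ) → ℝ≥0∞) X *
        (Lam t ρ ^ (4 : ℕ) * ENNReal.ofReal (Real.exp (4 * oscH c ρ X))) ∂(gam D β) :=
        lintegral_mono fun X => mul_le_mul_right (fourth_le t U c ρ hU X) _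
    _ = ∫⁻ X, Lam t ρ ^ (4 : ℕ) * (E.indicator (1 : (V → ℝ) → ℝ≥0∞) X *
        ENNReal.ofReal (Real.exp (4 * oscH c ρ X))) ∂(gam D β) := by
        refine lintegral_congr fun X => ?_
        ring
    _ = Lam t ρ ^ (4 : ℕ) * ∫⁻ X, E.indicator (1 : (V → ℝ) → ℝ≥0∞) X *
        ENNReal.ofReal (Real.exp (4 * oscH c ρ X)) ∂(gam D β) := by
        refine lintegral_const_mul _ (hG.mul ?_)
        refine ENNReal.measurable_ofReal.comp (Real.measurable_exp.comp (Measurable.const_mul ?_ 4))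
        exact measurable_osc _ fun x => measurable_hx _ x
    _ = Lam t ρ ^ (4 : ℕ) * ∫⁻ X in E, ENNReal.ofReal (Real.exp (4 * oscH c ρ X)) ∂(gam D β) := by
        rw [e1]

end GF
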