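import Pool.Agent.Lib.MP_acf58e_gf.G0b

/-! MP_acf58e_pr, row P5: gradient estimate. -/

open Set

namespace GF

private theorem mem_Q' {z x : V} {r : ℤ} : x ∈ Q z r ↔ dI x z ≤ r := by
  unfold Q dI
  rw [Finset.mem_Icc, Prod.le_def, Prod.le_def]
  simp only [max_le_iff, abs_le]
  constructor
  · rintro ⟨⟨h1, h2⟩, h3, h4⟩
    constructor <;> constructor <;> linarith
  · rintro ⟨⟨h1, h2⟩, h3, h4⟩
    constructor <;> constructor <;> linarith

/-- barrier function -/
private noncomputable def bar (x : V) (R : ℝ) (y : V) : ℝ :=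
  2 * ((y.1 : ℝ) - x.1 - 1 / 2) / R + (((y.2 : ℝ) - x.2) ^ 2 - ((y.1 : ℝ) - x.1 - 1 / 2) ^ 2) / R ^ 2
    + 1 / (4 * R ^ 2)

private theorem bar_harm (x : V) (R : ℝ) (y : V) : bar x R y = av (bar x R) y := by
  unfold av bar nE nW nN nS
  push_cast
  ring

private theorem step_aux {r : ℤ} {z : V} {f : V → ℝ} {o : ℝ} {R : ℤ} (hR : 1 ≤ R) (hf : Harm (Q z r) f)
    (ho : ∀ x ∈ Q z (r + 1), ∀ y ∈ Q z (r + 1), |f x - f y| ≤ o) (x : V) (hx : dI x z + R ≤ r) :
    f (nE x) - f x ≤ o / R := by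
  have hRr : (1 : ℝ) ≤ R := by exact_mod_cast hR
  have hRpos : (0 : ℝ) < R := by linarith
  have hxz : |x.1 - z.1| + R ≤ r ∧ |x.2 - z.2| + R ≤ r := by
    unfold dI at hx
    constructor
    · have := le_max_left |x.1 - z.1| |x.2 - z.2|; linarith
    · have := le_max_right |x.1 - z.1| |x.2 - z.2|; linarith
  obtain ⟨hx1, hx2⟩ := hxz
  have hx1' := abs_le.1 (show |x.1 - z.1| ≤ r - R by linarith)
  have hx2' := abs_le.1 (show |x.2 - z.2| ≤ r - R by linarith)
  have ho0 : 0 ≤ o := by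
    have hxQ : x ∈ Q z (r + 1) := by
      rw [mem_Q']; linarith
    have := ho x hxQ x hxQ
    simpa using this
  obtain ⟨σ, hσ⟩ : ∃ σ : V → V, σ = fun y => (2 * x.1 + 1 - y.1, y.2) := ⟨_, rfl⟩
  obtain ⟨g, hg⟩ : ∃ g : V → ℝ, g = fun y => f y - f (σ y) := ⟨_, rfl⟩
  obtain ⟨W, hW⟩ : ∃ W : V → ℝ, W = fun y => o * bar x R y - g y := ⟨_, rfl⟩
  obtain ⟨H, hH⟩ : ∃ H : Finset V, H = Rc (x.1 + 1) (x.1 + R) (x.2 - (R - 1)) (x.2 + (R - 1)) := ⟨_, rfl⟩
  have memH : ∀ y : V, y ∈ H ↔ (x.1 + 1 ≤ y.1 ∧ y.1 ≤ x.1 + R) ∧ x.2 - (R - 1) ≤ y.2 ∧ y.2 ≤ x.2 + (R - 1) := by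
    intro y
    rw [hH]; unfold Rc
    rw [Finset.mem_Icc, Prod.le_def, Prod.le_def]
    constructor
    · rintro ⟨⟨h1, h2⟩, h3, h4⟩; exact ⟨⟨h1, h3⟩, h2, h4⟩
    · rintro ⟨⟨h1, h2⟩, h3, h4⟩; exact ⟨⟨h1, h3⟩, h2, h4⟩
  have memQ : ∀ (y : V) (k : ℤ), y ∈ Q z k ↔ (-k ≤ y.1 - z.1 ∧ y.1 - z.1 ≤ k) ∧ -k ≤ y.2 - z.2 ∧ y.2 - z.2 ≤ k := by
    intro y k
    rw [mem_Q']; unfold dI
    rw [max_le_iff, abs_le, abs_le]
  -- harmonicity of g on H
  have hgH : ∀ y ∈ H, g y = av g y := by
    intro y hy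
    have hy' := (memH y).1 hy
    have h1 : f y = av f y := hf y (by
      rw [Finset.mem_coe, memQ]
      refine ⟨⟨?_, ?_⟩, ?_, ?_⟩ <;> linarith [hy'.1.1, hy'.1.2, hy'.2.1, hy'.2.2, hx1'.1, hx1'.2, hx2'.1, hx2'.2])
    have h2 : f (σ y) = av f (σ y) := hf (σ y) (by
      rw [Finset.mem_coe, memQ, hσ]
      refine ⟨⟨?_, ?_⟩, ?_, ?_⟩ <;> simp only <;>
        linarith [hy'.1.1, hy'.1.2, hy'.2.1, hy'.2.2, hx1'.1, hx1'.2, hx2'.1, hx2'.2])
    have h3 : av (fun y => f (σ y)) y = av f (σ y) := by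
      unfold av
      have e1 : σ (nE y) = nW (σ y) := by
        rw [hσ]; unfold nE nW; ext <;> simp; ring
      have e2 : σ (nW y) = nE (σ y) := by
        rw [hσ]; unfold nE nW; ext <;> simp; ring
      have e3 : σ (nN y) = nN (σ y) := by
        rw [hσ]; unfold nN; ext <;> simp
      have e4 : σ (nS y) = nS (σ y) := by
        rw [hσ]; unfold nS; ext <;> simp
      simp only [e1, e2, e3, e4]
      ring
    have h4 : av g y = av f y - av (fun y => f (σ y)) y := by
      rw [hg]; unfold av; ring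
    rw [h4, h3, ← h1, ← h2, hg]
  have hWH : ∀ y ∈ H, W y = av W y := by
    intro y hy
    have h1 := hgH y hy
    have h2 := bar_harm x R y
    have h3 : av W y = o * av (bar x R) y - av g y := by
      rw [hW]; unfold av; ring
    rw [h3, ← h1, ← h2, hW]
  obtain ⟨W0, hW0⟩ : ∃ W0 : V → ℝ, W0 = fun y => if x.1 + 1 ≤ y.1 then W y else 0 := ⟨_, rfl⟩
  have hW0p : ∀ y : V, x.1 + 1 ≤ y.1 → W0 y = W y := by
    intro y h; rw [hW0]; exact if_pos h
  have hW0n : ∀ y : V, ¬ (x.1 + 1 ≤ y.1) → W0 y = 0 := by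
    intro y h; rw [hW0]; exact if_neg h
  obtain ⟨E, hE⟩ : ∃ E : Finset V, E = H.filter (fun y => W y < 0) := ⟨_, rfl⟩
  have memE : ∀ y, y ∈ E ↔ y ∈ H ∧ W y < 0 := by
    intro y; rw [hE, Finset.mem_filter]
  have hmin := min_principle E (f := W0) (M := 0) (by
    intro y hy
    obtain ⟨hyH, hyW⟩ := (memE y).1 hy
    have hy' := (memH y).1 hyH
    have hav := hWH y hyH
    have c0 : W0 y = W y := hW0p y hy'.1.1
    have cE : W0 (nE y) = W (nE y) := hW0p _ (by show x.1 + 1 ≤ y.1 + 1; linarith [hy'.1.1])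
    have cN : W0 (nN y) = W (nN y) := hW0p _ hy'.1.1
    have cS : W0 (nS y) = W (nS y) := hW0p _ hy'.1.1
    by_cases hy1 : y.1 = x.1 + 1
    · have cW : W0 (nW y) = 0 := hW0n _ (by show ¬ (x.1 + 1 ≤ y.1 - 1); linarith)
      have hsy : σ y = nW y := by
        rw [hσ]; unfold nW; ext
        · simp only; linarith
        · rfl
      have hsy2 : σ (nW y) = y := by
        rw [hσ]; unfold nW; ext
        · simp only; linarith
        · rfl
      have hgW : g (nW y) = - g y := by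
        rw [hg]; simp only [hsy, hsy2]; ring
      have hb : 0 ≤ bar x R (nW y) + bar x R y := by
        unfold bar nW
        simp only
        have e1 : ((y.1 : ℤ) : ℝ) = x.1 + 1 := by exact_mod_cast hy1
        push_cast
        rw [e1]
        have : (2 * ((x.1 : ℝ) + 1 - 1 - x.1 - 1 / 2) / R + (((y.2 : ℝ) - x.2) ^ 2 - ((x.1 : ℝ) + 1 - 1 - x.1 - 1 / 2) ^ 2) / R ^ 2
            + 1 / (4 * (R:ℝ) ^ 2)) + (2 * ((x.1 : ℝ) + 1 - x.1 - 1 / 2) / R + (((y.2 : ℝ) - x.2) ^ 2 - ((x.1 : ℝ) + 1 - x.1 - 1 / 2) ^ 2) / R ^ 2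
            + 1 / (4 * (R:ℝ) ^ 2)) = 2 * ((y.2 : ℝ) - x.2) ^ 2 / R ^ 2 := by
          field_simp
          ring
        rw [this]
        positivity
      have hWW : - W y ≤ W (nW y) := by
        have : W (nW y) = o * (bar x R (nW y) + bar x R y) - W y := by
          rw [hW]; simp only [hgW]; ring
        rw [this]
        have := mul_nonneg ho0 hb
        linarith
      show av W0 y ≤ W0 y
      rw [c0]
      unfold av
      rw [cE, cW, cN, cS]
      unfold av at hav
      linarith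
    · have cW : W0 (nW y) = W (nW y) := hW0p _ (by
          show x.1 + 1 ≤ y.1 - 1
          have := hy'.1.1
          omega)
      show av W0 y ≤ W0 y
      rw [c0]
      unfold av
      rw [cE, cW, cN, cS]
      unfold av at hav
      linarith) (by
    intro y hy
    obtain ⟨hyE, hnb⟩ := mem_bd_iff.1 hy
    by_cases hy1 : x.1 + 1 ≤ y.1
    · have c0 : W0 y = W y := hW0p y hy1
      rw [c0]
      by_cases hyH : y ∈ H
      · by_contra hcon
        push Not at hcon
        exact hyE ((memE y).2 ⟨hyH, hcon⟩)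
      · -- y outside H, neighbour in H
        have hnb' : nE y ∈ H ∨ nW y ∈ H ∨ nN y ∈ H ∨ nS y ∈ H := by
          rcases hnb with h | h | h | h
          · exact Or.inl ((memE _).1 h).1
          · exact Or.inr (Or.inl ((memE _).1 h).1)
          · exact Or.inr (Or.inr (Or.inl ((memE _).1 h).1))
          · exact Or.inr (Or.inr (Or.inr ((memE _).1 h).1))
        rw [memH] at hyH
        -- position of y
        have hpos : y.1 ≤ x.1 + R + 1 ∧ -R ≤ y.2 - x.2 ∧ y.2 - x.2 ≤ R ∧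
            (y.1 = x.1 + R + 1 ∨ y.2 - x.2 = R ∨ y.2 - x.2 = -R) := by
          rcases hnb' with h | h | h | h <;> rw [memH] at h <;> simp only [nE, nW, nN, nS] at h <;>
            obtain ⟨⟨h1, h2⟩, h3, h4⟩ := h <;> refine ⟨by linarith, by linarith, by linarith, ?_⟩ <;>
            by_contra hc <;> push Not at hc <;> obtain ⟨hc1, hc2, hc3⟩ := hc <;> apply hyH <;>
            refine ⟨⟨hy1, ?_⟩, ?_, ?_⟩ <;> omega
        obtain ⟨p1, p2, p3, p4⟩ := hpos
        have hgo : g y ≤ o := by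
          rw [hg]
          have := ho y (by rw [memQ]; refine ⟨⟨?_, ?_⟩, ?_, ?_⟩ <;> linarith [hx1'.1, hx1'.2, hx2'.1, hx2'.2])
            (σ y) (by rw [memQ, hσ]; refine ⟨⟨?_, ?_⟩, ?_, ?_⟩ <;> simp only <;> linarith [hx1'.1, hx1'.2, hx2'.1, hx2'.2])
          exact (le_abs_self _).trans this
        have hbar : 1 ≤ bar x R y := by
          have q1 : (y.1 : ℝ) ≤ x.1 + R + 1 := by exact_mod_cast p1
          have q0 : (x.1 : ℝ) + 1 ≤ y.1 := by exact_mod_cast hy1
          obtain ⟨t, ht⟩ : ∃ t : ℝ, t = (y.1 : ℝ) - x.1 - 1 / 2 := ⟨_, rfl⟩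
          obtain ⟨s, hs⟩ : ∃ s : ℝ, s = (y.2 : ℝ) - x.2 := ⟨_, rfl⟩
          have hb : bar x R y = (2 * t * R + s ^ 2 - t ^ 2 + 1 / 4) / R ^ 2 := by
            unfold bar
            rw [← ht, ← hs]
            field_simp
            ring
          rw [hb, le_div_iff₀ (by positivity)]
          rcases p4 with h | h | h
          · have : (y.1 : ℝ) = x.1 + R + 1 := by exact_mod_cast h
            have ht2 : t = R + 1 / 2 := by rw [ht, this]; ring
            rw [ht2]
            nlinarith [sq_nonneg s]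
          · have : (y.2 : ℝ) - x.2 = R := by exact_mod_cast h
            rw [← hs] at this
            rw [this]
            have ht1 : 1 / 2 ≤ t := by rw [ht]; linarith
            have ht2 : t ≤ R + 1 / 2 := by rw [ht]; linarith
            nlinarith
          · have : (y.2 : ℝ) - x.2 = -R := by exact_mod_cast h
            rw [← hs] at this
            rw [this]
            have ht1 : 1 / 2 ≤ t := by rw [ht]; linarith
            have ht2 : t ≤ R + 1 / 2 := by rw [ht]; linarith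
            nlinarith
        rw [hW]
        have : o * 1 ≤ o * bar x R y := mul_le_mul_of_nonneg_left hbar ho0
        linarith
    · have c0 : W0 y = 0 := hW0n y hy1
      rw [c0])
  have hxH : nE x ∈ H := by
    rw [memH]; simp only [nE]; refine ⟨⟨le_refl _, ?_⟩, ?_, ?_⟩ <;> linarith
  have hWx : 0 ≤ W (nE x) := by
    by_contra hcon
    push Not at hcon
    have h1 := hmin (nE x) ((memE _).2 ⟨hxH, hcon⟩)
    have c0 : W0 (nE x) = W (nE x) := hW0p _ (le_refl _)
    rw [c0] at h1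
    linarith
  have hsx : σ (nE x) = x := by
    rw [hσ]; unfold nE; ext
    · simp only; ring
    · rfl
  have hb : bar x R (nE x) = 1 / R := by
    unfold bar nE
    simp only
    push_cast
    field_simp
    ring
  rw [hW] at hWx
  simp only [hb] at hWx
  rw [hg] at hWx
  simp only [hsx] at hWx
  have : o * (1 / (R:ℝ)) = o / R := by ring
  linarith

private theorem harm_neg {D : Set V} {f : V → ℝ} (h : Harm D f) : Harm D (fun y => - f y) := by
  intro y hy
  rw [av_neg, ← h y hy]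

private theorem step_E {r : ℤ} {z : V} {f : V → ℝ} {o : ℝ} {R : ℤ} (hR : 1 ≤ R) (hf : Harm (Q z r) f)
    (ho : ∀ x ∈ Q z (r + 1), ∀ y ∈ Q z (r + 1), |f x - f y| ≤ o) (x : V) (hx : dI x z + R ≤ r) :
    |f x - f (nE x)| ≤ o / R := by
  have h1 := step_aux hR hf ho x hx
  have h2 := step_aux hR (harm_neg hf) (o := o) (by
    intro a ha b hb
    have := ho a ha b hb
    rw [abs_sub_comm] at this
    have e : - f a - - f b = f b - f a := by ring
    rw [e]
    exact this) x hx
  rw [abs_le]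
  constructor <;> linarith

private theorem step_N {r : ℤ} {z : V} {f : V → ℝ} {o : ℝ} {R : ℤ} (hR : 1 ≤ R) (hf : Harm (Q z r) f)
    (ho : ∀ x ∈ Q z (r + 1), ∀ y ∈ Q z (r + 1), |f x - f y| ≤ o) (x : V) (hx : dI x z + R ≤ r) :
    |f x - f (nN x)| ≤ o / R := by
  have hsw : ∀ (a b : V), dI a.swap b.swap = dI a b := by
    intro a b; unfold dI; simp [max_comm]
  have h1 := step_E (z := z.swap) (f := fun y => f y.swap) hR (r := r) (o := o) (by
    intro y hy
    rw [Finset.mem_coe, mem_Q'] at hy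
    have hy2 : y.swap ∈ (Q z r : Set V) := by
      rw [Finset.mem_coe, mem_Q']
      have := hsw y z.swap
      rw [Prod.swap_swap] at this
      rw [this]; exact hy
    have := hf _ hy2
    show f y.swap = av (fun y => f y.swap) y
    rw [this]
    unfold av nE nW nN nS
    simp only [Prod.swap, Prod.fst_swap, Prod.snd_swap]
    ring) (by
    intro a ha b hb
    apply ho
    · rw [mem_Q'] at ha ⊢
      have := hsw a z.swap
      rw [Prod.swap_swap] at this
      rw [this]; exact ha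
    · rw [mem_Q'] at hb ⊢
      have := hsw b z.swap
      rw [Prod.swap_swap] at this
      rw [this]; exact hb) x.swap (by rw [hsw]; exact hx)
  simpa [nE, nN, Prod.swap] using h1

private theorem run_E {r : ℤ} {z : V} {f : V → ℝ} {o : ℝ} {R : ℤ} (hR : 1 ≤ R) (hf : Harm (Q z r) f)
    (ho : ∀ x ∈ Q z (r + 1), ∀ y ∈ Q z (r + 1), |f x - f y| ≤ o) (n : ℕ) (x : V)
    (hx : dI x z + R ≤ r) (hx' : dI (x.1 + n, x.2) z + R ≤ r) :
    |f x - f (x.1 + n, x.2)| ≤ n * (o / R) := by
  induction n with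
  | zero => simp
  | succ n ih =>
    have hm : dI (x.1 + n, x.2) z + R ≤ r := by
      unfold dI at *
      simp only at *
      have h1 : |x.1 + n - z.1| ≤ max |x.1 - z.1| |x.1 + ((n + 1 : ℕ) : ℤ) - z.1| := by
        rw [le_max_iff]
        rcases le_total 0 (x.1 + n - z.1) with h | h
        · right; rw [abs_of_nonneg h]
          apply le_trans _ (le_abs_self _)
          push_cast; linarith
        · left; rw [abs_of_nonpos h]
          apply le_trans _ (neg_le_abs _)
          have : (0:ℤ) ≤ n := by positivity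
          linarith
      have h2 : max |x.1 - z.1| |x.1 + ((n + 1 : ℕ) : ℤ) - z.1| ≤ r - R := by
        apply max_le
        · have := le_max_left |x.1 - z.1| |x.2 - z.2|; linarith
        · have := le_max_left |x.1 + ((n + 1 : ℕ) : ℤ) - z.1| |x.2 - z.2|; linarith
      have h3 : |x.2 - z.2| ≤ r - R := by
        have := le_max_right |x.1 - z.1| |x.2 - z.2|; linarith
      have : max |x.1 + (n:ℤ) - z.1| |x.2 - z.2| ≤ r - R := max_le (h1.trans h2) h3
      linarith
    have h1 := ih hm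
    have h2 := step_E hR hf ho (x.1 + n, x.2) hm
    have e : nE (x.1 + (n:ℤ), x.2) = (x.1 + ((n + 1 : ℕ) : ℤ), x.2) := by
      unfold nE; ext
      · push_cast; ring
      · rfl
    rw [e] at h2
    have h3 : |f x - f (x.1 + ((n + 1 : ℕ) : ℤ), x.2)| ≤ |f x - f (x.1 + (n:ℤ), x.2)|
        + |f (x.1 + (n:ℤ), x.2) - f (x.1 + ((n + 1 : ℕ) : ℤ), x.2)| := abs_sub_le _ _ _
    push_cast at *
    linarith

private theorem run_N {r : ℤ} {z : V} {f : V → ℝ} {o : ℝ} {R : ℤ} (hR : 1 ≤ R) (hf : Harm (Q z r) f)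
    (ho : ∀ x ∈ Q z (r + 1), ∀ y ∈ Q z (r + 1), |f x - f y| ≤ o) (n : ℕ) (x : V)
    (hx : dI x z + R ≤ r) (hx' : dI (x.1, x.2 + n) z + R ≤ r) :
    |f x - f (x.1, x.2 + n)| ≤ n * (o / R) := by
  induction n with
  | zero => simp
  | succ n ih =>
    have hm : dI (x.1, x.2 + n) z + R ≤ r := by
      unfold dI at *
      simp only at *
      have h1 : |x.2 + n - z.2| ≤ max |x.2 - z.2| |x.2 + ((n + 1 : ℕ) : ℤ) - z.2| := by
        rw [le_max_iff]
        rcases le_total 0 (x.2 + n - z.2) with h | h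
        · right; rw [abs_of_nonneg h]
          apply le_trans _ (le_abs_self _)
          push_cast; linarith
        · left; rw [abs_of_nonpos h]
          apply le_trans _ (neg_le_abs _)
          have : (0:ℤ) ≤ n := by positivity
          linarith
      have h2 : max |x.2 - z.2| |x.2 + ((n + 1 : ℕ) : ℤ) - z.2| ≤ r - R := by
        apply max_le
        · have := le_max_right |x.1 - z.1| |x.2 - z.2|; linarith
        · have := le_max_right |x.1 - z.1| |x.2 + ((n + 1 : ℕ) : ℤ) - z.2|; linarith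
      have h3 : |x.1 - z.1| ≤ r - R := by
        have := le_max_left |x.1 - z.1| |x.2 - z.2|; linarith
      have : max |x.1 - z.1| |x.2 + (n:ℤ) - z.2| ≤ r - R := max_le h3 (h1.trans h2)
      linarith
    have h1 := ih hm
    have h2 := step_N hR hf ho (x.1, x.2 + n) hm
    have e : nN (x.1, x.2 + (n:ℤ)) = (x.1, x.2 + ((n + 1 : ℕ) : ℤ)) := by
      unfold nN; ext
      · rfl
      · push_cast; ring
    rw [e] at h2
    have h3 : |f x - f (x.1, x.2 + ((n + 1 : ℕ) : ℤ))| ≤ |f x - f (x.1, x.2 + (n:ℤ))|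
        + |f (x.1, x.2 + (n:ℤ)) - f (x.1, x.2 + ((n + 1 : ℕ) : ℤ))| := abs_sub_le _ _ _
    push_cast at *
    linarith

/-- P5, gradient estimate; o bounds the oscillation of f on Q z (r+1) -/
theorem grad_le : ∃ C : ℝ, 0 < C ∧ ∀ (r : ℤ) (z : V) (f : V → ℝ) (o : ℝ), 1 ≤ r → Harm (Q z r) f →
    (∀ x ∈ Q z (r + 1), ∀ y ∈ Q z (r + 1), |f x - f y| ≤ o) →
    ∀ x x' : V, 5 * dI x z ≤ 4 * r → 5 * dI x' z ≤ 4 * r → |f x - f x'| ≤ C * (dI x x' / r) * o := by
  refine ⟨20, by norm_num, ?_⟩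
  intro r z f o hr hf ho x x' hx hx'
  have hrr : (1:ℝ) ≤ r := by exact_mod_cast hr
  have hrpos : (0:ℝ) < r := by linarith
  have ho0 : 0 ≤ o := by
    have hxQ : x ∈ Q z (r + 1) := by rw [mem_Q']; omega
    have := ho x hxQ x hxQ
    simpa using this
  by_cases hxx : x = x'
  · subst hxx
    have : dI x x = 0 := by unfold dI; simp
    simp [this]
  have hd : 1 ≤ dI x x' := by
    unfold dI
    by_contra hcon
    push Not at hcon
    apply hxx
    have h1 := lt_of_le_of_lt (le_max_left |x.1 - x'.1| |x.2 - x'.2|) hcon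
    have h2 := lt_of_le_of_lt (le_max_right |x.1 - x'.1| |x.2 - x'.2|) hcon
    rw [abs_lt] at h1 h2
    ext <;> omega
  have hdr : (1:ℝ) ≤ dI x x' := by exact_mod_cast hd
  by_cases h5 : r < 5
  · have h1 := ho x (by rw [mem_Q']; omega) x' (by rw [mem_Q']; omega)
    have h2 : (r:ℝ) ≤ 5 := by exact_mod_cast h5.le
    have h3 : 1 ≤ 20 * ((dI x x' : ℝ) / r) := by
      rw [← mul_div_assoc, le_div_iff₀ hrpos]; linarith
    calc |f x - f x'| ≤ 1 * o := by rw [one_mul]; exact h1
      _ ≤ 20 * ((dI x x' : ℝ) / r) * o := mul_le_mul_of_nonneg_right h3 ho0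
  push Not at h5
  obtain ⟨R, hRdef⟩ : ∃ R : ℤ, R = r / 5 := ⟨_, rfl⟩
  have hR : 1 ≤ R := by omega
  have hR10 : r ≤ 10 * R := by omega
  have hR5 : 5 * R ≤ r := by omega
  have hxR : dI x z + R ≤ r := by omega
  have hxR' : dI x' z + R ≤ r := by omega
  -- intermediate point
  have hmid : dI (x'.1, x.2) z + R ≤ r := by
    unfold dI at hxR hxR' ⊢
    simp only
    have h1 := le_max_left |x'.1 - z.1| |x'.2 - z.2|
    have h2 := le_max_right |x.1 - z.1| |x.2 - z.2|
    have : max |x'.1 - z.1| |x.2 - z.2| ≤ r - R := max_le (by linarith) (by linarith)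
    linarith
  have hoR : o / R ≤ 10 * o / r := by
    have hRp : (0:ℝ) < R := by
      have : (1:ℝ) ≤ R := by exact_mod_cast hR
      linarith
    rw [div_le_div_iff₀ hRp hrpos]
    have : (r:ℝ) ≤ 10 * R := by exact_mod_cast hR10
    nlinarith
  have hoR0 : 0 ≤ o / R := by
    apply div_nonneg ho0
    have : (1:ℝ) ≤ R := by exact_mod_cast hR
    linarith
  -- horizontal part
  have hH : |f x - f (x'.1, x.2)| ≤ |((x.1 - x'.1 : ℤ) : ℝ)| * (o / R) := by
    rcases le_total x.1 x'.1 with h | h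
    · obtain ⟨n, hn⟩ := Int.le.dest h
      have h1 := run_E hR hf ho n x hxR (by rw [hn]; exact hmid)
      rw [hn] at h1
      have e : |((x.1 - x'.1 : ℤ) : ℝ)| = n := by
        have : x.1 - x'.1 = -(n:ℤ) := by linarith
        rw [this]; push_cast; rw [abs_neg]; exact abs_of_nonneg (by positivity)
      rw [e]; exact h1
    · obtain ⟨n, hn⟩ := Int.le.dest h
      have h1 := run_E hR hf ho n (x'.1, x.2) hmid (by simp only; rw [hn]; exact hxR)
      simp only at h1
      rw [hn] at h1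
      have e : |((x.1 - x'.1 : ℤ) : ℝ)| = n := by
        have : x.1 - x'.1 = (n:ℤ) := by linarith
        rw [this]; push_cast; exact abs_of_nonneg (by positivity)
      rw [e, abs_sub_comm]; exact h1
  have hV : |f (x'.1, x.2) - f x'| ≤ |((x.2 - x'.2 : ℤ) : ℝ)| * (o / R) := by
    rcases le_total x.2 x'.2 with h | h
    · obtain ⟨n, hn⟩ := Int.le.dest h
      have h1 := run_N hR hf ho n (x'.1, x.2) hmid (by simp only; rw [hn]; exact hxR')
      simp only at h1
      rw [hn] at h1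
      have e : |((x.2 - x'.2 : ℤ) : ℝ)| = n := by
        have : x.2 - x'.2 = -(n:ℤ) := by linarith
        rw [this]; push_cast; rw [abs_neg]; exact abs_of_nonneg (by positivity)
      rw [e]; exact h1
    · obtain ⟨n, hn⟩ := Int.le.dest h
      have h1 := run_N hR hf ho n x' hxR' (by rw [hn]; exact hmid)
      rw [hn] at h1
      have e : |((x.2 - x'.2 : ℤ) : ℝ)| = n := by
        have : x.2 - x'.2 = (n:ℤ) := by linarith
        rw [this]; push_cast; exact abs_of_nonneg (by positivity)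
      rw [e, abs_sub_comm]; exact h1
  have hd1 : |((x.1 - x'.1 : ℤ) : ℝ)| ≤ dI x x' := by
    have := le_max_left |x.1 - x'.1| |x.2 - x'.2|
    unfold dI
    rw [← Int.cast_abs]
    exact_mod_cast this
  have hd2 : |((x.2 - x'.2 : ℤ) : ℝ)| ≤ dI x x' := by
    have := le_max_right |x.1 - x'.1| |x.2 - x'.2|
    unfold dI
    rw [← Int.cast_abs]
    exact_mod_cast this
  calc |f x - f x'| ≤ |f x - f (x'.1, x.2)| + |f (x'.1, x.2) - f x'| := abs_sub_le _ _ _
    _ ≤ dI x x' * (o / R) + dI x x' * (o / R) := add_le_add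
        (hH.trans (mul_le_mul_of_nonneg_right hd1 hoR0)) (hV.trans (mul_le_mul_of_nonneg_right hd2 hoR0))
    _ = 2 * dI x x' * (o / R) := by ring
    _ ≤ 2 * dI x x' * (10 * o / r) := mul_le_mul_of_nonneg_left hoR (by positivity)
    _ = 20 * ((dI x x' : ℝ) / r) * o := by ring

end GF
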