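import Pool.Agent.Lib.MP_acf58e_gf.P1c

/-! MP_acf58e_pr, row P4: exit density. -/

open Set

namespace GF

/-- barrier at a vertical side -/
private noncomputable def p4b (σ : ℤ) (y : V) (R : ℤ) (w : V) : ℝ :=
  (2 * ((σ * (w.1 - y.1) : ℤ) : ℝ) * R - ((w.1 - y.1 : ℤ) : ℝ) ^ 2 + ((w.2 - y.2 : ℤ) : ℝ) ^ 2) / (R : ℝ) ^ 2

private theorem p4b_harm (σ : ℤ) (y : V) (R : ℤ) (w : V) : av (p4b σ y R) w = p4b σ y R w := by
  unfold av p4b nE nW nN nS
  push_cast
  ring

private theorem p4_sideH {D : Finset V} {f : V → ℝ} {σ : ℤ} (hσ : σ = 1 ∨ σ = -1) {y : V} {R : ℤ}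
    (hR : 2 ≤ R) {C1 : ℝ} (hC : 0 ≤ C1) (h0 : ∀ w ∉ D, f w = 0)
    (hside : ∀ w ∈ D, 1 ≤ σ * (w.1 - y.1))
    (hharm : ∀ w ∈ D, σ * (w.1 - y.1) ≤ R → f w ≤ av f w)
    (hbound : ∀ w ∈ D, σ * (w.1 - y.1) ≤ R → f w ≤ C1) :
    f (y.1 + σ, y.2) ≤ 2 * C1 / R := by
  have hR0 : (0:ℝ) < R := by exact_mod_cast (by omega : 0 < R)
  have hnn : 0 ≤ 2 * C1 / R := by positivity
  by_cases hyD : ((y.1 + σ, y.2) : V) ∈ D
  swap
  · rw [h0 _ hyD]; exact hnn
  have hσ2 : σ * σ = 1 := by rcases hσ with rfl | rfl <;> norm_num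
  classical
  let E : Finset V := D.filter (fun w => σ * (w.1 - y.1) ≤ R - 1 ∧ |w.2 - y.2| ≤ R - 1)
  have hE : ∀ w, w ∈ E ↔ w ∈ D ∧ σ * (w.1 - y.1) ≤ R - 1 ∧ |w.2 - y.2| ≤ R - 1 := by
    intro w; simp only [E, Finset.mem_filter]
  have hform : ∀ w : V, p4b σ y R w =
      (((2 * (σ * (w.1 - y.1)) * R - (σ * (w.1 - y.1)) ^ 2 + (w.2 - y.2) ^ 2 : ℤ)) : ℝ) / (R : ℝ) ^ 2 := by
    intro w
    have h1 : (σ * (w.1 - y.1)) ^ 2 = (w.1 - y.1) ^ 2 := by
      calc (σ * (w.1 - y.1)) ^ 2 = (σ * σ) * (w.1 - y.1) ^ 2 := by ring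
        _ = _ := by rw [hσ2, one_mul]
    rw [h1]
    unfold p4b
    push_cast
    ring
  have hb0 : ∀ w : V, 0 ≤ σ * (w.1 - y.1) → σ * (w.1 - y.1) ≤ R → 0 ≤ p4b σ y R w := by
    intro w h1 h2
    rw [hform]
    refine div_nonneg ?_ (by positivity)
    have h3 : 0 ≤ 2 * (σ * (w.1 - y.1)) * R - (σ * (w.1 - y.1)) ^ 2 + (w.2 - y.2) ^ 2 := by
      nlinarith [mul_nonneg h1 (sub_nonneg.2 h2), sq_nonneg (w.2 - y.2), mul_nonneg h1 (by omega : (0:ℤ) ≤ R)]
    exact_mod_cast h3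
  have hb1 : ∀ w : V, 0 ≤ σ * (w.1 - y.1) → σ * (w.1 - y.1) ≤ R →
      (σ * (w.1 - y.1) = R ∨ |w.2 - y.2| = R) → 1 ≤ p4b σ y R w := by
    intro w h1 h2 h3
    rw [hform, le_div_iff₀ (by positivity), one_mul]
    have h4 : R ^ 2 ≤ 2 * (σ * (w.1 - y.1)) * R - (σ * (w.1 - y.1)) ^ 2 + (w.2 - y.2) ^ 2 := by
      rcases h3 with h3 | h3
      · rw [h3]; nlinarith [sq_nonneg (w.2 - y.2)]
      · have h5 : (w.2 - y.2) ^ 2 = R ^ 2 := by rw [← h3, sq_abs]
        rw [h5]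
        nlinarith [mul_nonneg h1 (sub_nonneg.2 h2), mul_nonneg h1 (by omega : (0:ℤ) ≤ R)]
    exact_mod_cast h4
  have key := max_principle E (f := fun w => f w - C1 * p4b σ y R w) (M := 0) (by
    intro w hw
    have hw' := (hE w).1 hw
    have h1 := hharm w hw'.1 (by omega)
    have h2 := p4b_harm σ y R w
    have h3 : av (fun w => f w - C1 * p4b σ y R w) w = av f w - C1 * av (p4b σ y R) w := by
      unfold av; ring
    rw [h3, h2]
    linarith) (by
    intro w hw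
    rw [mem_bd_iff] at hw
    obtain ⟨hwE, hnb⟩ := hw
    have hst : 0 ≤ σ * (w.1 - y.1) ∧ σ * (w.1 - y.1) ≤ R ∧ |w.2 - y.2| ≤ R := by
      rcases hnb with h | h | h | h
      all_goals
        have h' := (hE _).1 h
        have h2 := hside _ h'.1
        obtain ⟨-, h3, h4⟩ := h'
        rw [abs_le] at h4 ⊢
        simp only [nE, nW, nN, nS] at h2 h3 h4
        rcases hσ with rfl | rfl
        · constructor
          · omega
          · constructor <;> omega
        · constructor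
          · omega
          · constructor <;> omega
    obtain ⟨s0, s1, s2⟩ := hst
    show f w - C1 * p4b σ y R w ≤ 0
    by_cases hwD : w ∈ D
    · have h5 : σ * (w.1 - y.1) = R ∨ |w.2 - y.2| = R := by
        by_contra hcon
        push Not at hcon
        apply hwE
        rw [hE]
        refine ⟨hwD, ?_, ?_⟩
        · have := lt_of_le_of_ne s1 hcon.1
          omega
        · have := lt_of_le_of_ne s2 hcon.2
          omega
      have h6 := hb1 w s0 s1 h5
      have h7 := hbound w hwD s1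
      nlinarith
    · rw [h0 w hwD]
      have := mul_nonneg hC (hb0 w s0 s1)
      linarith)
  have hyE : ((y.1 + σ, y.2) : V) ∈ E := by
    rw [hE]
    refine ⟨hyD, ?_, ?_⟩
    · show σ * (y.1 + σ - y.1) ≤ R - 1
      have : σ * (y.1 + σ - y.1) = 1 := by rw [add_sub_cancel_left, hσ2]
      omega
    · show |y.2 - y.2| ≤ R - 1
      rw [sub_self, abs_zero]; omega
  have h1 := key _ hyE
  have h2 : p4b σ y R (y.1 + σ, y.2) ≤ 2 / R := by
    rw [hform]
    have h3 : (2 * (σ * (((y.1 + σ, y.2) : V).1 - y.1)) * R - (σ * (((y.1 + σ, y.2) : V).1 - y.1)) ^ 2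
        + (((y.1 + σ, y.2) : V).2 - y.2) ^ 2 : ℤ) = 2 * R - 1 := by
      show (2 * (σ * (y.1 + σ - y.1)) * R - (σ * (y.1 + σ - y.1)) ^ 2 + (y.2 - y.2) ^ 2 : ℤ) = 2 * R - 1
      have : σ * (y.1 + σ - y.1) = 1 := by rw [add_sub_cancel_left, hσ2]
      rw [this]; ring
    rw [h3, div_le_div_iff₀ (by positivity) hR0]
    push_cast
    nlinarith
  have h3 : C1 * p4b σ y R (y.1 + σ, y.2) ≤ C1 * (2 / R) := mul_le_mul_of_nonneg_left h2 hC
  have h4 : C1 * (2 / R) = 2 * C1 / R := by ring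
  have h5 : f (y.1 + σ, y.2) - C1 * p4b σ y R (y.1 + σ, y.2) ≤ 0 := h1
  linarith

private theorem p4_sideV {D : Finset V} {f : V → ℝ} {σ : ℤ} (hσ : σ = 1 ∨ σ = -1) {y : V} {R : ℤ}
    (hR : 2 ≤ R) {C1 : ℝ} (hC : 0 ≤ C1) (h0 : ∀ w ∉ D, f w = 0)
    (hside : ∀ w ∈ D, 1 ≤ σ * (w.2 - y.2))
    (hharm : ∀ w ∈ D, σ * (w.2 - y.2) ≤ R → f w ≤ av f w)
    (hbound : ∀ w ∈ D, σ * (w.2 - y.2) ≤ R → f w ≤ C1) :
    f (y.1, y.2 + σ) ≤ 2 * C1 / R := by
  classical
  have hmem : ∀ w : V, w ∈ D.image Prod.swap ↔ w.swap ∈ D := by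
    intro w
    constructor
    · intro h
      obtain ⟨u, hu, rfl⟩ := Finset.mem_image.1 h
      simpa using hu
    · intro h
      exact Finset.mem_image.2 ⟨w.swap, h, by simp⟩
  have hav : ∀ w : V, av (fun u => f u.swap) w = av f w.swap := by
    intro w
    unfold av nE nW nN nS
    simp only [Prod.swap_prod_mk, Prod.fst_swap, Prod.snd_swap]
    ring
  have key := p4_sideH (D := D.image Prod.swap) (f := fun u => f u.swap) hσ (y := y.swap) hR hC
    (fun w hw => h0 _ (fun h => hw ((hmem w).2 h)))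
    (fun w hw => hside _ ((hmem w).1 hw))
    (fun w hw h => by
      rw [hav]
      exact hharm _ ((hmem w).1 hw) h)
    (fun w hw h => hbound _ ((hmem w).1 hw) h)
  exact key

/-- P4 for rectangles -/
theorem exit_density_rect (A : ℝ) : ∃ C : ℝ, 0 < C ∧ ∀ (r a b c d : ℤ) (x y : V), 1 ≤ r →
    r ≤ b - a → (b - a : ℝ) ≤ A * r → r ≤ d - c → (d - c : ℝ) ≤ A * r →
    (∀ x' : V, 10 * dI x x' ≤ r → x' ∈ Rc a b c d) → hm (Rc a b c d) x y ≤ C / r := by
  obtain ⟨C0, hC0⟩ := green_upper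
  obtain ⟨C1, hC1⟩ : ∃ C1, C1 = max 0 (kap⁻¹ * Real.log (20 * max A 1) + C0) := ⟨_, rfl⟩
  have hC1n : 0 ≤ C1 := by rw [hC1]; exact le_max_left _ _
  refine ⟨40 + 320 * C1, by positivity, ?_⟩
  intro r a b c d x y hr hab hab' hcd hcd' hx
  have hr0 : (0:ℝ) < r := by exact_mod_cast (by omega : 0 < r)
  have hrhs : ∀ t : ℝ, t * r ≤ 40 + 320 * C1 → t ≤ (40 + 320 * C1) / r := by
    intro t ht
    rwa [le_div_iff₀ hr0]
  rcases Int.lt_or_le r 40 with hsmall | hbig
  · apply hrhs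
    have h1 := hm_le_one (Rc a b c d) x y
    have h2 : (r : ℝ) ≤ 40 := by exact_mod_cast hsmall.le
    have h3 : hm (Rc a b c d) x y * r ≤ 1 * r := mul_le_mul_of_nonneg_right h1 hr0.le
    linarith
  obtain ⟨D, hD⟩ : ∃ D, D = Rc a b c d := ⟨_, rfl⟩
  have hmem : ∀ w : V, w ∈ D ↔ (a ≤ w.1 ∧ w.1 ≤ b) ∧ (c ≤ w.2 ∧ w.2 ≤ d) := by
    intro w
    rw [hD]
    unfold Rc
    rw [Finset.mem_Icc, Prod.le_def, Prod.le_def]
    constructor
    · rintro ⟨⟨h1, h2⟩, h3, h4⟩
      exact ⟨⟨h1, h3⟩, h2, h4⟩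
    · rintro ⟨⟨h1, h3⟩, h2, h4⟩
      exact ⟨⟨h1, h2⟩, h3, h4⟩
  rw [← hD] at hx ⊢
  have hxD : x ∈ D := hx x (by unfold dI; simp; omega)
  by_cases hyD : y ∈ D
  · have h1 : hm D x y = 0 := hm_eq_zero hxD (fun h => not_mem_of_mem_bd h hyD)
    rw [h1]
    positivity
  obtain ⟨R, hR⟩ : ∃ R : ℤ, R = r / 20 := ⟨_, rfl⟩
  obtain ⟨m, hm'⟩ : ∃ m : ℤ, m = r / 10 := ⟨_, rfl⟩
  have hR2 : 2 ≤ R := by omega
  have hR40 : r ≤ 40 * R := by omega
  have hmR : r ≤ 20 * (m + 1 - R) := by omega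
  have hm10 : 10 * m ≤ r := by omega
  have hm0 : 0 ≤ m := by omega
  -- position of x
  have hx1 : a + m ≤ x.1 := by
    have h := (hmem _).1 (hx (x.1 - m, x.2) (by
      unfold dI
      rw [show x.1 - (x.1 - m, x.2).1 = m by simp, show x.2 - (x.1 - m, x.2).2 = 0 by simp,
        abs_zero, abs_of_nonneg hm0, max_eq_left hm0]
      exact hm10))
    have := h.1.1
    simp only at this
    omega
  have hx2 : x.1 + m ≤ b := by
    have h := (hmem _).1 (hx (x.1 + m, x.2) (by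
      unfold dI
      rw [show x.1 - (x.1 + m, x.2).1 = -m by simp, show x.2 - (x.1 + m, x.2).2 = 0 by simp,
        abs_zero, abs_neg, abs_of_nonneg hm0, max_eq_left hm0]
      exact hm10))
    have := h.1.2
    simp only at this
    omega
  have hx3 : c + m ≤ x.2 := by
    have h := (hmem _).1 (hx (x.1, x.2 - m) (by
      unfold dI
      rw [show x.2 - (x.1, x.2 - m).2 = m by simp, show x.1 - (x.1, x.2 - m).1 = 0 by simp,
        abs_zero, abs_of_nonneg hm0, max_eq_right hm0]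
      exact hm10))
    have := h.2.1
    simp only at this
    omega
  have hx4 : x.2 + m ≤ d := by
    have h := (hmem _).1 (hx (x.1, x.2 + m) (by
      unfold dI
      rw [show x.2 - (x.1, x.2 + m).2 = -m by simp, show x.1 - (x.1, x.2 + m).1 = 0 by simp,
        abs_zero, abs_neg, abs_of_nonneg hm0, max_eq_right hm0]
      exact hm10))
    have := h.2.2
    simp only at this
    omega
  -- the Green function far from x
  obtain ⟨N, hN⟩ : ∃ N : ℤ, N = max (b - a) (d - c) := ⟨_, rfl⟩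
  have hN1 : 1 ≤ N := by rw [hN]; exact le_max_of_le_left (by omega)
  have hNA : (N : ℝ) ≤ max A 1 * r := by
    rw [hN]
    push_cast
    have h1 : A * r ≤ max A 1 * r := mul_le_mul_of_nonneg_right (le_max_left _ _) hr0.le
    exact max_le (hab'.trans h1) (hcd'.trans h1)
  have hDQ : D ⊆ Q (a, c) N := by
    intro w hw
    have h := (hmem w).1 hw
    have h1 : b - a ≤ N := by rw [hN]; exact le_max_left _ _
    have h2 : d - c ≤ N := by rw [hN]; exact le_max_right _ _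
    unfold Q
    rw [Finset.mem_Icc, Prod.le_def, Prod.le_def]
    simp only
    omega
  have hfar : ∀ w ∈ D, r ≤ 20 * dI w x → gr D w x ≤ C1 := by
    intro w hw hd
    have h1 := hC0 D (a, c) N hN1 hDQ w hw x hxD
    refine h1.trans ?_
    rw [hC1]
    refine le_trans ?_ (le_max_right _ _)
    have hdr : (r : ℝ) ≤ 20 * (dI w x : ℝ) := by exact_mod_cast hd
    have hN0 : (0:ℝ) < N := by exact_mod_cast (by omega : 0 < N)
    have hd0 : (0:ℝ) < 1 + (dI w x : ℝ) := by linarith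
    have h2 : (N : ℝ) / (1 + dI w x) ≤ 20 * max A 1 := by
      rw [div_le_iff₀ hd0]
      have h3 : (0:ℝ) ≤ max A 1 := le_trans zero_le_one (le_max_right _ _)
      nlinarith
    have h3 := Real.log_le_log (div_pos hN0 hd0) h2
    have h4 : (0:ℝ) ≤ kap⁻¹ := (inv_pos.2 kap_pos).le
    have h5 := mul_le_mul_of_nonneg_left h3 h4
    linarith
  have hharm : ∀ w ∈ D, r ≤ 20 * dI w x → (fun w => gr D w x) w ≤ av (fun w => gr D w x) w := by
    intro w hw hd
    have h1 := gr_on (D := D) x hw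
    have h2 : w ≠ x := by
      rintro rfl
      have : dI w w = 0 := by unfold dI; simp
      rw [this] at hd
      omega
    rw [if_neg h2] at h1
    show gr D w x ≤ av (fun w => gr D w x) w
    linarith
  have hoff : ∀ w ∉ D, (fun w => gr D w x) w = 0 := fun w hw => gr_off_left hw
  have hnn : 0 ≤ 2 * C1 / R := by
    have : (0:ℝ) < R := by exact_mod_cast (by omega : 0 < R)
    positivity
  have hdist1 : ∀ w : V, r ≤ 20 * (x.1 - w.1) → r ≤ 20 * dI w x := by
    intro w h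
    have h1 : x.1 - w.1 ≤ dI w x := le_max_of_le_left (by
      rw [abs_sub_comm]
      exact le_abs_self _)
    omega
  have hdist2 : ∀ w : V, r ≤ 20 * (w.1 - x.1) → r ≤ 20 * dI w x := by
    intro w h
    have h1 : w.1 - x.1 ≤ dI w x := le_max_of_le_left (le_abs_self _)
    omega
  have hdist3 : ∀ w : V, r ≤ 20 * (x.2 - w.2) → r ≤ 20 * dI w x := by
    intro w h
    have h1 : x.2 - w.2 ≤ dI w x := le_max_of_le_right (by
      rw [abs_sub_comm]
      exact le_abs_self _)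
    omega
  have hdist4 : ∀ w : V, r ≤ 20 * (w.2 - x.2) → r ≤ 20 * dI w x := by
    intro w h
    have h1 : w.2 - x.2 ≤ dI w x := le_max_of_le_right (le_abs_self _)
    omega
  have hyD' : ¬ ((a ≤ y.1 ∧ y.1 ≤ b) ∧ (c ≤ y.2 ∧ y.2 ≤ d)) := fun h => hyD ((hmem y).2 h)
  have hE : gr D x (nE y) ≤ 2 * C1 / R := by
    rw [gr_symm]
    by_cases h : nE y ∈ D
    · have h' := (hmem _).1 h
      simp only [nE] at h'
      have hy1 : y.1 = a - 1 := by omega
      have hd : ∀ w ∈ D, (1:ℤ) * (w.1 - y.1) ≤ R → r ≤ 20 * dI w x := fun w _ h2 =>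
        hdist1 w (by omega)
      exact p4_sideH (σ := 1) (Or.inl rfl) (y := y) hR2 hC1n hoff
        (fun w hw => by have := (hmem w).1 hw; omega)
        (fun w hw h2 => hharm w hw (hd w hw h2)) (fun w hw h2 => hfar w hw (hd w hw h2))
    · rw [gr_off_left h]; exact hnn
  have hW : gr D x (nW y) ≤ 2 * C1 / R := by
    rw [gr_symm]
    by_cases h : nW y ∈ D
    · have h' := (hmem _).1 h
      simp only [nW] at h'
      have hy1 : y.1 = b + 1 := by omega
      have hd : ∀ w ∈ D, (-1:ℤ) * (w.1 - y.1) ≤ R → r ≤ 20 * dI w x := fun w _ h2 =>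
        hdist2 w (by omega)
      exact p4_sideH (σ := -1) (Or.inr rfl) (y := y) hR2 hC1n hoff
        (fun w hw => by have := (hmem w).1 hw; omega)
        (fun w hw h2 => hharm w hw (hd w hw h2)) (fun w hw h2 => hfar w hw (hd w hw h2))
    · rw [gr_off_left h]; exact hnn
  have hNN : gr D x (nN y) ≤ 2 * C1 / R := by
    rw [gr_symm]
    by_cases h : nN y ∈ D
    · have h' := (hmem _).1 h
      simp only [nN] at h'
      have hy1 : y.2 = c - 1 := by omega
      have hd : ∀ w ∈ D, (1:ℤ) * (w.2 - y.2) ≤ R → r ≤ 20 * dI w x := fun w _ h2 =>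
        hdist3 w (by omega)
      exact p4_sideV (σ := 1) (Or.inl rfl) (y := y) hR2 hC1n hoff
        (fun w hw => by have := (hmem w).1 hw; omega)
        (fun w hw h2 => hharm w hw (hd w hw h2)) (fun w hw h2 => hfar w hw (hd w hw h2))
    · rw [gr_off_left h]; exact hnn
  have hSS : gr D x (nS y) ≤ 2 * C1 / R := by
    rw [gr_symm]
    by_cases h : nS y ∈ D
    · have h' := (hmem _).1 h
      simp only [nS] at h'
      have hy1 : y.2 = d + 1 := by omega
      have hd : ∀ w ∈ D, (-1:ℤ) * (w.2 - y.2) ≤ R → r ≤ 20 * dI w x := fun w _ h2 =>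
        hdist4 w (by omega)
      exact p4_sideV (σ := -1) (Or.inr rfl) (y := y) hR2 hC1n hoff
        (fun w hw => by have := (hmem w).1 hw; omega)
        (fun w hw h2 => hharm w hw (hd w hw h2)) (fun w hw h2 => hfar w hw (hd w hw h2))
    · rw [gr_off_left h]; exact hnn
  rw [hm_eq_gr hxD hyD]
  apply hrhs
  have hRr : (r : ℝ) ≤ 40 * R := by exact_mod_cast hR40
  have hR0 : (0:ℝ) < R := by exact_mod_cast (by omega : 0 < R)
  have h1 : 2 * C1 / R * r ≤ 80 * C1 := by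
    rw [div_mul_eq_mul_div, div_le_iff₀ hR0]
    nlinarith
  have h2 : (gr D x (nE y) + gr D x (nW y) + gr D x (nN y) + gr D x (nS y)) * r ≤
      4 * (2 * C1 / R) * r := by
    apply mul_le_mul_of_nonneg_right _ hr0.le
    linarith
  linarith

/-- P4 -/
theorem exit_density : ∃ C : ℝ, 0 < C ∧ ∀ (r : ℤ) (z x y : V), 1 ≤ r → 5 * dI x z ≤ 4 * r →
    hm (Q z r) x y ≤ C / r := by
  obtain ⟨C, hC, h⟩ := exit_density_rect 1
  refine ⟨C, hC, ?_⟩
  intro r z x y hr hxz
  have hr0 : (0:ℝ) < r := by exact_mod_cast (by omega : 0 < r)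
  have h1 := h (2 * r) (z.1 - r) (z.1 + r) (z.2 - r) (z.2 + r) x y (by omega) (by omega)
    (by push_cast; linarith) (by omega) (by push_cast; linarith) (by
      intro x' hx'
      unfold dI at hx' hxz
      have a1 : |x.1 - x'.1| ≤ max |x.1 - x'.1| |x.2 - x'.2| := le_max_left _ _
      have a2 : |x.2 - x'.2| ≤ max |x.1 - x'.1| |x.2 - x'.2| := le_max_right _ _
      have a3 : |x.1 - z.1| ≤ max |x.1 - z.1| |x.2 - z.2| := le_max_left _ _
      have a4 : |x.2 - z.2| ≤ max |x.1 - z.1| |x.2 - z.2| := le_max_right _ _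
      have b1 := abs_le.1 (le_refl |x.1 - x'.1|)
      have b2 := abs_le.1 (le_refl |x.2 - x'.2|)
      have b3 := abs_le.1 (le_refl |x.1 - z.1|)
      have b4 := abs_le.1 (le_refl |x.2 - z.2|)
      unfold Rc
      rw [Finset.mem_Icc, Prod.le_def, Prod.le_def]
      simp only
      omega)
  refine h1.trans ?_
  push_cast
  apply div_le_div_of_nonneg_left hC.le hr0
  linarith

end GF
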