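import Pool.Agent.Lib.MP_acf58e_gf.G5

/-! MP_acf58e_pr, row G3: linear functionals are Gaussian. -/

open MeasureTheory Set ProbabilityTheory
open scoped ENNReal NNReal

namespace GF

/-- centred linear functional -/
noncomputable def lin (D : Finset V) (β : V → ℝ) (s : Finset V) (ψ : V → ℝ) (X : V → ℝ) : ℝ :=
  ∑ x ∈ s, ψ x * (X x - hx D β x)

/-- its variance -/
noncomputable def vr (D s : Finset V) (ψ : V → ℝ) : ℝ := ∑ x ∈ s, ∑ y ∈ s, ψ x * gr D x y * ψ y

/-- the charge ψ restricted to s -/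
noncomputable def chg (s : Finset V) (ψ : V → ℝ) (x : V) : ℝ := if x ∈ s then ψ x else 0

theorem sum_chg (D s : Finset V) (ψ g : V → ℝ) (hg : ∀ x ∉ D, g x = 0) :
    ∑ x ∈ s, ψ x * g x = ∑ x ∈ D, chg s ψ x * g x := by
  have h1 : ∑ x ∈ s, ψ x * g x = ∑ x ∈ s ∩ D, ψ x * g x := by
    symm
    apply Finset.sum_subset Finset.inter_subset_left
    intro x hxs hxd
    have : x ∉ D := fun h => hxd (Finset.mem_inter.2 ⟨hxs, h⟩)
    rw [hg x this, mul_zero]
  have h2 : ∑ x ∈ D, chg s ψ x * g x = ∑ x ∈ s ∩ D, chg s ψ x * g x := by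
    symm
    apply Finset.sum_subset Finset.inter_subset_right
    intro x hxs hxd
    have : x ∉ s := fun h => hxd (Finset.mem_inter.2 ⟨h, hxs⟩)
    simp [chg, this]
  rw [h1, h2]
  apply Finset.sum_congr rfl
  intro x hxs
  simp [chg, (Finset.mem_inter.1 hxs).1]

theorem vr_chg (D s : Finset V) (ψ : V → ℝ) :
    vr D s ψ = ∑ x ∈ D, ∑ y ∈ D, chg s ψ x * gr D x y * chg s ψ y := by
  unfold vr
  have h1 : ∀ x, ∑ y ∈ s, ψ x * gr D x y * ψ y = ψ x * ∑ y ∈ D, gr D x y * chg s ψ y := by
    intro x
    have := sum_chg D s ψ (fun y => gr D x y) (fun y hy => gr_off_right hy)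
    rw [Finset.mul_sum]
    have e : ∑ y ∈ s, ψ x * gr D x y * ψ y = ψ x * ∑ y ∈ s, ψ y * gr D x y := by
      rw [Finset.mul_sum]; exact Finset.sum_congr rfl (fun y _ => by ring)
    rw [e, this, Finset.mul_sum]
    exact Finset.sum_congr rfl (fun y _ => by ring)
  rw [Finset.sum_congr rfl (fun x _ => h1 x)]
  rw [sum_chg D s ψ (fun x => ∑ y ∈ D, gr D x y * chg s ψ y) (fun x hxD => by
    apply Finset.sum_eq_zero; intro y _; rw [gr_off_left hxD, zero_mul])]
  apply Finset.sum_congr rfl
  intro x _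
  rw [Finset.mul_sum]
  exact Finset.sum_congr rfl (fun y _ => by ring)

theorem vr_nonneg (D s : Finset V) (ψ : V → ℝ) : 0 ≤ vr D s ψ := by
  rw [vr_chg]
  exact quad_nonneg D (chg s ψ)

theorem vr_smul (D s : Finset V) (ψ : V → ℝ) (t : ℝ) : vr D s (fun x => t * ψ x) = t ^ 2 * vr D s ψ := by
  unfold vr
  rw [Finset.mul_sum]
  apply Finset.sum_congr rfl
  intro x _
  rw [Finset.mul_sum]
  exact Finset.sum_congr rfl (fun y _ => by ring)

theorem lin_smul (D : Finset V) (β : V → ℝ) (s : Finset V) (ψ : V → ℝ) (t : ℝ) (X : V → ℝ) :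
    lin D β s (fun x => t * ψ x) X = t * lin D β s ψ X := by
  unfold lin
  rw [Finset.mul_sum]
  exact Finset.sum_congr rfl (fun y _ => by ring)

theorem measurable_lin (D : Finset V) (β : V → ℝ) (s : Finset V) (ψ : V → ℝ) :
    Measurable (lin D β s ψ) := by
  unfold lin
  apply Finset.measurable_sum
  intro x _
  exact ((measurable_pi_apply x).sub measurable_const).const_mul _

theorem lintegral_exp_zero (D : Finset V) (ψ : V → ℝ) :
    ∫⁻ X, ENNReal.ofReal (Real.exp (∑ x ∈ D, ψ x * X x)) ∂gam D (fun _ => 0)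
      = ENNReal.ofReal (Real.exp ((∑ x ∈ D, ∑ y ∈ D, ψ x * gr D x y * ψ y) / 2)) := by
  have hmeas : Measurable (fun X : V → ℝ => ENNReal.ofReal (Real.exp (∑ x ∈ D, ψ x * X x))) := by
    apply ENNReal.measurable_ofReal.comp
    apply Real.measurable_exp.comp
    apply Finset.measurable_sum
    intro x _
    exact (measurable_pi_apply x).const_mul _
  rw [lintegral_gam D (fun _ => 0) hmeas]
  have hφ : ∀ x ∉ D, - pot D ψ x = 0 := fun x h => by rw [pot_off h, neg_zero]
  have key : ∀ y : D → ℝ, ENNReal.ofReal (Real.exp (∑ x ∈ D, ψ x * glue D (fun _ => 0) y x))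
        * wt D (glue D (fun _ => 0) y)
      = ENNReal.ofReal (Real.exp ((∑ x ∈ D, ∑ y ∈ D, ψ x * gr D x y * ψ y) / 2))
        * wt D (glue D (fun _ => 0) (y - fun x : D => pot D ψ x)) := by
    intro y
    have e1 : glue D (fun _ => 0) (y - fun x : D => pot D ψ x)
        = fun x => glue D (fun _ => 0) y x + (- pot D ψ x) := by
      funext x
      rw [glue_apply, glue_apply]
      by_cases h : x ∈ D
      · simp only [h, dif_pos, Pi.sub_apply]; ring
      · simp only [h, dif_neg, not_false_eq_true, hφ x h]; ring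
    have hX0 : ∀ x ∉ D, glue D (fun _ => (0:ℝ)) y x = 0 := by
      intro x h; rw [glue_apply]; simp [h]
    rw [e1]
    unfold wt
    rw [energy_add_parts _ hφ, ← ENNReal.ofReal_mul (Real.exp_pos _).le,
      ← ENNReal.ofReal_mul (Real.exp_pos _).le, ← Real.exp_add, ← Real.exp_add]
    congr 2
    have e2 : ∑ x ∈ D, -pot D ψ x * lap (glue D (fun _ => (0:ℝ)) y) x
        = ∑ x ∈ D, ψ x * glue D (fun _ => (0:ℝ)) y x := by
      rw [sum_lap_comm (φ := fun x => - pot D ψ x) hφ hX0]
      apply Finset.sum_congr rfl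
      intro x hxD
      have : lap (fun x => - pot D ψ x) x = - lap (pot D ψ) x := by unfold lap; rw [av_neg]; ring
      rw [this, lap_pot hxD]; ring
    have e3 : energy D (fun x => - pot D ψ x) = energy D (pot D ψ) := by
      unfold energy
      congr 2 <;> exact Finset.sum_congr rfl (fun x _ => by ring)
    rw [e2, e3, energy_pot]
    ring
  simp_rw [key]
  have hmw : Measurable (fun y : D → ℝ => wt D (glue D (fun _ => (0:ℝ)) (y - fun x : D => pot D ψ x))) :=
    (measurable_wt D).comp ((measurable_glue D _).comp (measurable_id.sub_const _))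
  rw [lintegral_const_mul _ hmw]
  rw [lintegral_sub_right_eq_self (fun y => wt D (glue D (fun _ => 0) y))]
  have h0 := pf_ne_zero D (fun _ => 0)
  have h1 := pf_ne_top D (fun _ => 0)
  change (pf D (fun _ => 0))⁻¹ * (_ * pf D (fun _ => 0)) = _
  rw [mul_comm (ENNReal.ofReal _) (pf D _), ← mul_assoc, ENNReal.inv_mul_cancel h0 h1, one_mul]

theorem measurable_shift (g : V → ℝ) : Measurable (fun (X : V → ℝ) x => X x + g x) := by
  rw [measurable_pi_iff]
  intro x
  exact (measurable_pi_apply x).add_const _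

theorem lintegral_exp_lin (D : Finset V) (β : V → ℝ) (s : Finset V) (ψ : V → ℝ) :
    ∫⁻ X, ENNReal.ofReal (Real.exp (lin D β s ψ X)) ∂gam D β = ENNReal.ofReal (Real.exp (vr D s ψ / 2)) := by
  have hm : Measurable (fun X => ENNReal.ofReal (Real.exp (lin D β s ψ X))) :=
    ENNReal.measurable_ofReal.comp (Real.measurable_exp.comp (measurable_lin D β s ψ))
  rw [gam_eq_zero_map D β, lintegral_map hm (measurable_shift _)]
  rw [vr_chg, ← lintegral_exp_zero]
  apply lintegral_congr_ae
  filter_upwards [gam_ae_off D (fun _ => 0)] with X hX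
  congr 2
  rw [← sum_chg D s ψ X hX]
  unfold lin
  exact Finset.sum_congr rfl (fun x _ => by ring)

theorem integrable_exp_lin (D : Finset V) (β : V → ℝ) (s : Finset V) (ψ : V → ℝ) (t : ℝ) :
    Integrable (fun X => Real.exp (t * lin D β s ψ X)) (gam D β) := by
  have hm : Measurable (fun X => Real.exp (t * lin D β s ψ X)) :=
    Real.measurable_exp.comp ((measurable_lin D β s ψ).const_mul t)
  rw [← lintegral_ofReal_ne_top_iff_integrable hm.aestronglyMeasurable
    (Filter.Eventually.of_forall (fun X => (Real.exp_pos _).le))]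
  have := lintegral_exp_lin D β s (fun x => t * ψ x)
  simp_rw [lin_smul] at this
  rw [this]
  exact ENNReal.ofReal_ne_top

theorem integral_exp_lin (D : Finset V) (β : V → ℝ) (s : Finset V) (ψ : V → ℝ) (t : ℝ) :
    ∫ X, Real.exp (t * lin D β s ψ X) ∂gam D β = Real.exp (t ^ 2 * vr D s ψ / 2) := by
  have hm : Measurable (fun X => Real.exp (t * lin D β s ψ X)) :=
    Real.measurable_exp.comp ((measurable_lin D β s ψ).const_mul t)
  rw [integral_eq_lintegral_of_nonneg_ae
    (Filter.Eventually.of_forall (fun X => (Real.exp_pos _).le)) hm.aestronglyMeasurable]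
  have := lintegral_exp_lin D β s (fun x => t * ψ x)
  simp_rw [lin_smul, vr_smul] at this
  rw [this, ENNReal.toReal_ofReal (Real.exp_pos _).le]

theorem law_lin (D : Finset V) (β : V → ℝ) (s : Finset V) (ψ : V → ℝ) :
    (gam D β).map (lin D β s ψ) = gaussianReal 0 (Real.toNNReal (vr D s ψ)) := by
  have hm := measurable_lin D β s ψ
  have : IsProbabilityMeasure ((gam D β).map (lin D β s ψ)) :=
    Measure.isProbabilityMeasure_map hm.aemeasurable
  apply Measure.ext_of_complexMGF_id_eq
  have h1 : mgf id (gaussianReal 0 (Real.toNNReal (vr D s ψ))) = mgf id ((gam D β).map (lin D β s ψ)) := by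
    rw [mgf_id_gaussianReal]
    funext t
    rw [mgf_id_map hm.aemeasurable]
    unfold mgf
    rw [integral_exp_lin, Real.coe_toNNReal _ (vr_nonneg _ _ _)]
    congr 1; ring
  have h2 := eqOn_complexMGF_of_mgf h1
  funext z
  have h3 := h2 (x := z) (by simp)
  exact h3.symm

theorem memLp_lin (D : Finset V) (β : V → ℝ) (s : Finset V) (ψ : V → ℝ) (p : ℝ≥0) :
    MemLp (lin D β s ψ) p (gam D β) := by
  have h := memLp_id_gaussianReal (μ := 0) (v := Real.toNNReal (vr D s ψ)) p
  rw [← law_lin D β s ψ] at h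
  have := (memLp_map_measure_iff (measurable_id.aestronglyMeasurable)
    (measurable_lin D β s ψ).aemeasurable).1 h
  simpa using this

theorem integrable_lin (D : Finset V) (β : V → ℝ) (s : Finset V) (ψ : V → ℝ) :
    Integrable (lin D β s ψ) (gam D β) := by
  have := memLp_lin D β s ψ 1
  exact memLp_one_iff_integrable.1 (by simpa using this)

theorem integral_lin (D : Finset V) (β : V → ℝ) (s : Finset V) (ψ : V → ℝ) :
    ∫ X, lin D β s ψ X ∂gam D β = 0 := by
  have h := integral_map (μ := gam D β) (measurable_lin D β s ψ).aemeasurable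
    (f := fun x : ℝ => x) (measurable_id.aestronglyMeasurable)
  rw [← h, law_lin, integral_id_gaussianReal]

theorem memLp_lin_two (D : Finset V) (β : V → ℝ) (s : Finset V) (ψ : V → ℝ) :
    MemLp (lin D β s ψ) 2 (gam D β) := by
  have := memLp_lin D β s ψ 2
  simpa using this

theorem integrable_lin_sq (D : Finset V) (β : V → ℝ) (s : Finset V) (ψ : V → ℝ) :
    Integrable (fun X => (lin D β s ψ X) ^ 2) (gam D β) :=
  (memLp_lin_two D β s ψ).integrable_sq

theorem integral_lin_sq (D : Finset V) (β : V → ℝ) (s : Finset V) (ψ : V → ℝ) :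
    ∫ X, (lin D β s ψ X) ^ 2 ∂gam D β = vr D s ψ := by
  have h := integral_map (μ := gam D β) (measurable_lin D β s ψ).aemeasurable
    (f := fun x : ℝ => x ^ 2) ((measurable_id.pow_const 2).aestronglyMeasurable)
  rw [← h, law_lin]
  have h2 := variance_fun_id_gaussianReal (μ := 0) (v := Real.toNNReal (vr D s ψ))
  rw [variance_eq_integral measurable_id'.aemeasurable] at h2
  simp only [integral_id_gaussianReal, sub_zero] at h2
  rw [h2, Real.coe_toNNReal _ (vr_nonneg _ _ _)]

theorem integral_abs_lin_le (D : Finset V) (β : V → ℝ) (s : Finset V) (ψ : V → ℝ) :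
    ∫ X, |lin D β s ψ X| ∂gam D β ≤ Real.sqrt (vr D s ψ) := by
  apply Real.le_sqrt_of_sq_le
  have hL : MemLp (fun X => |lin D β s ψ X|) 2 (gam D β) := (memLp_lin_two D β s ψ).abs
  have h := variance_nonneg (fun X => |lin D β s ψ X|) (gam D β)
  rw [variance_eq_sub hL] at h
  have e : ∫ X, ((fun X => |lin D β s ψ X|) ^ 2) X ∂gam D β = vr D s ψ := by
    rw [← integral_lin_sq D β s ψ]
    apply integral_congr_ae
    filter_upwards with X
    simp [sq_abs]
  rw [e] at h
  linarith

theorem integral_exp_abs_lin_le (D : Finset V) (β : V → ℝ) (s : Finset V) (ψ : V → ℝ) (t : ℝ) :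
    Integrable (fun X => Real.exp (t * |lin D β s ψ X|)) (gam D β) ∧
    ∫ X, Real.exp (t * |lin D β s ψ X|) ∂gam D β ≤ 2 * Real.exp (t ^ 2 * vr D s ψ / 2) := by
  have hb : ∀ X, Real.exp (t * |lin D β s ψ X|)
      ≤ Real.exp (t * lin D β s ψ X) + Real.exp ((-t) * lin D β s ψ X) := by
    intro X
    rcases abs_cases (lin D β s ψ X) with ⟨h, _⟩ | ⟨h, _⟩
    · rw [h]; linarith [Real.exp_pos ((-t) * lin D β s ψ X)]
    · rw [h]
      have : t * -lin D β s ψ X = (-t) * lin D β s ψ X := by ring
      rw [this]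
      linarith [Real.exp_pos (t * lin D β s ψ X)]
  have hm : Measurable (fun X => Real.exp (t * |lin D β s ψ X|)) :=
    Real.measurable_exp.comp ((measurable_lin D β s ψ).abs.const_mul t)
  have hi := (integrable_exp_lin D β s ψ t).add (integrable_exp_lin D β s ψ (-t))
  have hi2 : Integrable (fun X => Real.exp (t * |lin D β s ψ X|)) (gam D β) := by
    apply hi.mono' hm.aestronglyMeasurable
    filter_upwards with X
    rw [Real.norm_eq_abs, abs_of_pos (Real.exp_pos _)]
    exact hb X
  refine ⟨hi2, ?_⟩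
  calc ∫ X, Real.exp (t * |lin D β s ψ X|) ∂gam D β
      ≤ ∫ X, (Real.exp (t * lin D β s ψ X) + Real.exp ((-t) * lin D β s ψ X)) ∂gam D β :=
        integral_mono hi2 hi hb
    _ = 2 * Real.exp (t ^ 2 * vr D s ψ / 2) := by
        rw [integral_add (integrable_exp_lin D β s ψ t) (integrable_exp_lin D β s ψ (-t)),
          integral_exp_lin, integral_exp_lin]
        rw [neg_sq]; ring

theorem coord_eq_lin (D : Finset V) (β : V → ℝ) (x : V) (X : V → ℝ) :
    X x = lin D β {x} (fun _ => 1) X + hx D β x := by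
  unfold lin
  simp

theorem memLp_coord (D : Finset V) (β : V → ℝ) (x : V) (p : ℝ≥0) : MemLp (fun X : V → ℝ => X x) p (gam D β) := by
  have h1 := (memLp_lin D β {x} (fun _ => 1) p).add (memLp_const (hx D β x))
  have e : (fun X : V → ℝ => X x) = (lin D β {x} (fun _ => 1)) + fun _ => hx D β x := by
    funext X
    exact coord_eq_lin D β x X
  rw [e]
  exact h1

theorem integrable_coord (D : Finset V) (β : V → ℝ) (x : V) : Integrable (fun X : V → ℝ => X x) (gam D β) := by
  have := memLp_coord D β x 1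
  exact memLp_one_iff_integrable.1 (by simpa using this)

theorem integral_coord (D : Finset V) (β : V → ℝ) (x : V) : ∫ X : V → ℝ, X x ∂gam D β = hx D β x := by
  have h : ∫ X : V → ℝ, X x ∂gam D β = ∫ X : V → ℝ, (lin D β {x} (fun _ => 1) X + hx D β x) ∂gam D β :=
    integral_congr_ae (Filter.Eventually.of_forall (fun X => coord_eq_lin D β x X))
  rw [h, integral_add (integrable_lin _ _ _ _) (integrable_const _), integral_lin]
  simp

theorem integral_coord_mul (D : Finset V) (β : V → ℝ) (x y : V) :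
    ∫ X : V → ℝ, (X x - hx D β x) * (X y - hx D β y) ∂gam D β = gr D x y := by
  classical
  have ea : ∀ z : V, ∀ X : V → ℝ, X z - hx D β z = lin D β {z} (fun _ => 1) X := by
    intro z X; unfold lin; simp
  obtain ⟨ψ, hψ⟩ : ∃ ψ : V → ℝ, ψ = fun z => (if z = x then (1:ℝ) else 0) + (if z = y then 1 else 0) :=
    ⟨_, rfl⟩
  have hs : ∀ g : V → ℝ, ∑ z ∈ ({x, y} : Finset V), ψ z * g z = g x + g y := by
    intro g
    by_cases hxy : x = y
    · subst hxy
      simp [hψ]; ring
    · rw [Finset.sum_pair hxy, hψ]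
      simp [hxy, Ne.symm hxy]
  have eab : ∀ X : V → ℝ, lin D β {x, y} ψ X
      = lin D β {x} (fun _ => 1) X + lin D β {y} (fun _ => 1) X := by
    intro X
    rw [← ea, ← ea]
    exact hs (fun z => X z - hx D β z)
  have hv : vr D {x, y} ψ = gr D x x + gr D y y + 2 * gr D x y := by
    unfold vr
    have e1 : ∀ z, ∑ w ∈ ({x, y} : Finset V), ψ z * gr D z w * ψ w = ψ z * (gr D z x + gr D z y) := by
      intro z
      have := hs (fun w => gr D z w)
      rw [← this, Finset.mul_sum]
      exact Finset.sum_congr rfl (fun w _ => by ring)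
    rw [Finset.sum_congr rfl (fun z _ => e1 z), hs (fun z => gr D z x + gr D z y), gr_symm D y x]
    ring
  have hvz : ∀ z, vr D {z} (fun _ => 1) = gr D z z := by intro z; unfold vr; simp
  have e : ∫ X : V → ℝ, (X x - hx D β x) * (X y - hx D β y) ∂gam D β
      = ∫ X : V → ℝ, ((lin D β {x, y} ψ X) ^ 2 - (lin D β {x} (fun _ => 1) X) ^ 2
          - (lin D β {y} (fun _ => 1) X) ^ 2) / 2 ∂gam D β := by
    apply integral_congr_ae
    filter_upwards with X
    rw [eab, ea, ea]; ring
  rw [e, integral_div, integral_sub, integral_sub, integral_lin_sq, integral_lin_sq, integral_lin_sq,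
    hv, hvz, hvz]
  · ring
  · exact integrable_lin_sq _ _ _ _
  · exact integrable_lin_sq _ _ _ _
  · exact (integrable_lin_sq _ _ _ _).sub (integrable_lin_sq _ _ _ _)
  · exact integrable_lin_sq _ _ _ _

end GF
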