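import Pool.Agent.Lib.MP_acf58e_gf.P1c
import Pool.Agent.Lib.MP_acf58e_gf.G3

/-! MP_acf58e_pr, row P6a: variance of the harmonic extension. -/

open MeasureTheory Set
open scoped ENNReal

namespace GF

/-- the variance of the harmonic extension at a point -/
theorem var_hx {D E : Finset V} (h : E ⊆ D) {x : V} (hxE : x ∈ E) :
    vr D (bd E) (fun y => hm E x y) = gr D x x - gr E x x := by
  rw [gr_diff2 h hxE hxE]
  rfl

/-- centred harmonic extension as a linear functional -/
theorem hx_sub_eq_lin {D E : Finset V} (h : E ⊆ D) {x : V} (hxE : x ∈ E) (β X : V → ℝ) :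
    hx E X x - hx D β x = lin D β (bd E) (fun y => hm E x y) X := by
  have h1 : hx D β x = hx E (hx D β) x := by rw [hx_consist h]
  rw [h1, hx_eq_sum hxE X, hx_eq_sum hxE (hx D β), ← Finset.sum_sub_distrib]
  unfold lin
  exact Finset.sum_congr rfl (fun y _ => by ring)

/-- P6 (i): E ⊆ D ⊆ Q z N, distance of x to the complement of E more than m -/
theorem var_hx_le : ∃ C : ℝ, 0 < C ∧ ∀ (D E : Finset V) (z x : V) (N m : ℤ), 1 ≤ m → 1 ≤ N → D ⊆ Q z N → E ⊆ D →
    Q x m ⊆ E → vr D (bd E) (fun y => hm E x y) ≤ kap⁻¹ * Real.log (N / m) + C := by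
  obtain ⟨C1, h1⟩ := green_upper
  obtain ⟨C2, h2⟩ := green_diag_lower
  refine ⟨|C1| + |C2| + 1, by positivity, fun D E z x N m hm hN hD hE hQ => ?_⟩
  have hxE : x ∈ E := by
    apply hQ
    unfold Q
    rw [Finset.mem_Icc, Prod.le_def, Prod.le_def]
    refine ⟨⟨?_, ?_⟩, ?_, ?_⟩ <;> dsimp only <;> omega
  rw [var_hx hE hxE]
  have h3 := h1 D z N hN hD x (hE hxE) x (hE hxE)
  have h4 := h2 E x m hm hQ
  have h5 : dI x x = 0 := by
    unfold dI
    simp
  rw [h5, Int.cast_zero, add_zero, div_one] at h3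
  have hN0 : (N : ℝ) ≠ 0 := by
    have : N ≠ 0 := by omega
    exact_mod_cast this
  have hm0 : (m : ℝ) ≠ 0 := by
    have : m ≠ 0 := by omega
    exact_mod_cast this
  rw [Real.log_div hN0 hm0, mul_sub]
  have h6 := le_abs_self C1
  have h7 := le_abs_self C2
  linarith

end GF
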