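import Pool.Agent.Lib.MP_acf58e_gf.P8a
import Pool.Agent.Lib.MP_acf58e_gf.P6a
import Pool.Agent.Lib.MP_acf58e_gf.P4

/-! MP_acf58e_pr, row P8b: oscillation of the field. -/

open MeasureTheory Set
open scoped ENNReal

namespace GF

private theorem mem_Q' (w z : V) (r : ℤ) : w ∈ Q z r ↔ dI w z ≤ r := by
  unfold Q dI
  rw [Finset.mem_Icc, Prod.le_def, Prod.le_def]
  simp only
  rw [max_le_iff, abs_le, abs_le]
  constructor
  · rintro ⟨⟨h1, h2⟩, h3, h4⟩; constructor <;> constructor <;> linarith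
  · rintro ⟨⟨h1, h2⟩, h3, h4⟩; constructor <;> constructor <;> linarith

private theorem hx_abs_le {D : Finset V} {f : V → ℝ} {c : ℝ} (h : ∀ x ∉ D, |f x| ≤ c) (x : V) :
    |hx D f x| ≤ c := by
  rw [abs_le]
  constructor
  · have := hx_mono (D := D) (β := fun _ => -c) (γ := f) (fun z hz => (abs_le.1 (h z hz)).1) x
    rwa [hx_const] at this
  · have := hx_mono (D := D) (β := f) (γ := fun _ => c) (fun z hz => (abs_le.1 (h z hz)).2) x
    rwa [hx_const] at this

/-- far away the two logarithmic potentials differ by a bounded amount -/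
private theorem Fp_far {w y y' v : V} {r : ℤ} (hr : 1 ≤ r) (hy : dI y w ≤ 7 * r)
    (hy' : dI y' w ≤ 7 * r) (hv : 8 * r < dI v w) : |Fp y v - Fp y' v| ≤ Real.log 512 := by
  -- one sided bound
  have key : ∀ a b : V, dI a w ≤ 7 * r → dI b w ≤ 7 * r → Fp a v - Fp b v ≤ Real.log 512 := by
    intro a b ha hb
    unfold dI at ha hb hv
    rw [max_le_iff, abs_le, abs_le] at ha hb
    obtain ⟨⟨a1, a2⟩, a3, a4⟩ := ha
    obtain ⟨⟨b1, b2⟩, b3, b4⟩ := hb
    set s : ℤ := max |v.1 - w.1| |v.2 - w.2| with hs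
    have s1 : |v.1 - w.1| ≤ s := le_max_left _ _
    have s2 : |v.2 - w.2| ≤ s := le_max_right _ _
    rw [abs_le] at s1 s2
    have hs8 : 8 * r < s := hv
    -- upper bounds for v - a
    have u1 : (v.1 - a.1) ^ 2 ≤ (2 * s) ^ 2 := sq_le_sq' (by linarith) (by linarith)
    have u2 : (v.2 - a.2) ^ 2 ≤ (2 * s) ^ 2 := sq_le_sq' (by linarith) (by linarith)
    -- lower bound for v - b
    have l1 : s ^ 2 ≤ 64 * ((v.1 - b.1) ^ 2 + (v.2 - b.2) ^ 2) := by
      have hcase : |v.1 - w.1| = s ∨ |v.2 - w.2| = s := by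
        rcases max_choice |v.1 - w.1| |v.2 - w.2| with h | h
        · left; rw [hs, h]
        · right; rw [hs, h]
      have hsb : ∀ c : ℤ, s ≤ 8 * c → s ^ 2 ≤ 64 * c ^ 2 := by
        intro c hc
        have : s ^ 2 ≤ (8 * c) ^ 2 := pow_le_pow_left₀ (by linarith) hc 2
        linarith
      rcases hcase with h | h
      · rcases abs_cases (v.1 - w.1) with ⟨h1, _⟩ | ⟨h1, _⟩
        · have := hsb (v.1 - b.1) (by linarith)
          nlinarith [sq_nonneg (v.2 - b.2)]
        · have := hsb (-(v.1 - b.1)) (by linarith)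
          nlinarith [sq_nonneg (v.2 - b.2)]
      · rcases abs_cases (v.2 - w.2) with ⟨h1, _⟩ | ⟨h1, _⟩
        · have := hsb (v.2 - b.2) (by linarith)
          nlinarith [sq_nonneg (v.1 - b.1)]
        · have := hsb (-(v.2 - b.2)) (by linarith)
          nlinarith [sq_nonneg (v.1 - b.1)]
    have hZ : 1 + (v.1 - a.1) ^ 2 + (v.2 - a.2) ^ 2 ≤
        512 * (1 + (v.1 - b.1) ^ 2 + (v.2 - b.2) ^ 2) := by nlinarith
    have hR : (1 + ((v.1 - a.1 : ℤ) : ℝ) ^ 2 + ((v.2 - a.2 : ℤ) : ℝ) ^ 2) ≤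
        512 * (1 + ((v.1 - b.1 : ℤ) : ℝ) ^ 2 + ((v.2 - b.2 : ℤ) : ℝ) ^ 2) := by
      exact_mod_cast hZ
    unfold Fp
    have h1 : Real.log (1 + ((v.1 - a.1 : ℤ) : ℝ) ^ 2 + ((v.2 - a.2 : ℤ) : ℝ) ^ 2) ≤
        Real.log 512 + Real.log (1 + ((v.1 - b.1 : ℤ) : ℝ) ^ 2 + ((v.2 - b.2 : ℤ) : ℝ) ^ 2) := by
      rw [← Real.log_mul (by norm_num) (by positivity)]
      exact Real.log_le_log (by positivity) hR
    have h2 : 0 ≤ Real.log 512 := Real.log_nonneg (by norm_num)
    linarith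
  rw [abs_le]
  constructor
  · have := key y' y hy' hy
    linarith
  · exact key y y' hy hy'

/-- P8 (0): increments of the field E[X - h | outside of Q w (8r)] have bounded variance -/
theorem var_incr : ∃ C : ℝ, 0 < C ∧ ∀ (D : Finset V) (w y y' : V) (r : ℤ), 1 ≤ r → Q w (8 * r) ⊆ D →
    dI y w ≤ 7 * r → dI y' w ≤ 7 * r →
    vr D (bd (Q w (8 * r))) (fun v => hm (Q w (8 * r)) y v - hm (Q w (8 * r)) y' v) ≤ C := by
  obtain ⟨C0, hC0⟩ := green_precise
  have hC0n : 0 ≤ C0 := (abs_nonneg _).trans (hC0 {(0, 0)} (0, 0) (0, 0) (by simp) (by simp))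
  have hlog : 0 < Real.log 512 := Real.log_pos (by norm_num)
  refine ⟨2 * (kap⁻¹ * (2 * Real.log 512 + 4 * C0)), by have := inv_pos.2 kap_pos; positivity, ?_⟩
  intro D w y y' r hr hQD hy hy'
  set E := Q w (8 * r) with hE
  have hyE : y ∈ E := (mem_Q' _ _ _).2 (by omega)
  have hyE' : y' ∈ E := (mem_Q' _ _ _).2 (by omega)
  -- the variance
  have hvr : vr D (bd E) (fun v => hm E y v - hm E y' v) =
      ((gr D y y - gr E y y) - (gr D y y' - gr E y y')) +
        ((gr D y' y' - gr E y' y') - (gr D y' y - gr E y' y)) := by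
    rw [gr_diff2 hQD hyE hyE, gr_diff2 hQD hyE hyE', gr_diff2 hQD hyE' hyE',
      gr_diff2 hQD hyE' hyE]
    unfold vr
    simp only [← Finset.sum_sub_distrib, ← Finset.sum_add_distrib]
    refine Finset.sum_congr rfl fun z _ => Finset.sum_congr rfl fun v _ => ?_
    ring
  -- the main estimate
  have key : ∀ a b : V, dI a w ≤ 7 * r → dI b w ≤ 7 * r →
      (gr D a a - gr E a a) - (gr D a b - gr E a b) ≤ kap⁻¹ * (2 * Real.log 512 + 4 * C0) := by
    intro a b ha hb
    have haE : a ∈ E := (mem_Q' _ _ _).2 (by omega)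
    have hbE : b ∈ E := (mem_Q' _ _ _).2 (by omega)
    have hfar : ∀ v ∉ E, |Fp a v - Fp b v| ≤ Real.log 512 := by
      intro v hv
      rw [hE, mem_Q'] at hv
      exact Fp_far hr ha hb (by omega)
    have hD1 : |hx D (fun v => Fp a v - Fp b v) a| ≤ Real.log 512 :=
      hx_abs_le (fun v hv => hfar v fun h => hv (hQD h)) a
    have hE1 : |hx E (fun v => Fp a v - Fp b v) a| ≤ Real.log 512 := hx_abs_le hfar a
    have hsub : ∀ G : Finset V, hx G (fun v => Fp a v - Fp b v) a = hx G (Fp a) a - hx G (Fp b) a :=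
      fun G => congrFun (hx_sub G (Fp a) (Fp b)) a
    rw [hsub] at hD1 hE1
    have g1 := hC0 D a a (hQD haE) (hQD haE)
    have g2 := hC0 D a b (hQD haE) (hQD hbE)
    have g3 := hC0 E a a haE haE
    have g4 := hC0 E a b haE hbE
    rw [abs_le] at g1 g2 g3 g4 hD1 hE1
    have h5 : kap * ((gr D a a - gr E a a) - (gr D a b - gr E a b)) ≤
        2 * Real.log 512 + 4 * C0 := by
      have e : kap * ((gr D a a - gr E a a) - (gr D a b - gr E a b)) =
          kap * gr D a a - kap * gr E a a - (kap * gr D a b - kap * gr E a b) := by ring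
      rw [e]
      linarith [g1.1, g1.2, g2.1, g2.2, g3.1, g3.2, g4.1, g4.2, hD1.1, hD1.2, hE1.1, hE1.2]
    have h6 := mul_le_mul_of_nonneg_left h5 (inv_pos.2 kap_pos).le
    rwa [← mul_assoc, inv_mul_cancel₀ kap_pos.ne', one_mul] at h6
  rw [hvr]
  have k1 := key y y' hy hy'
  have k2 := key y' y hy' hy
  linarith

private theorem dI_bd {w z : V} {q : ℤ} (h : z ∈ bd (Q w q)) : dI z w = q + 1 := by
  rw [mem_bd_iff] at h
  obtain ⟨h1, h2⟩ := h
  rw [mem_Q'] at h1
  simp only [mem_Q'] at h2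
  unfold dI nE nW nN nS at *
  simp only [max_le_iff, abs_le] at h2
  have h3 : max |z.1 - w.1| |z.2 - w.2| ≤ q + 1 := by
    rw [max_le_iff, abs_le, abs_le]
    rcases h2 with h | h | h | h <;> obtain ⟨⟨a, b⟩, c, d⟩ := h <;>
      refine ⟨⟨?_, ?_⟩, ?_, ?_⟩ <;> linarith
  omega

/-- the spheres of different radii are disjoint -/
private theorem sum_spheres {w : V} {r : ℤ} (_hr : 1 ≤ r) {f : V → ℝ} (hf : ∀ z, 0 ≤ f z) :
    ∑ q ∈ Finset.Ico (5 * r) (6 * r), ∑ z ∈ bd (Q w q), f z ≤ ∑ z ∈ Q w (7 * r), f z := by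
  classical
  rw [← Finset.sum_biUnion]
  · refine Finset.sum_le_sum_of_subset_of_nonneg ?_ fun z _ _ => hf z
    intro z hz
    obtain ⟨q, hq, hz'⟩ := Finset.mem_biUnion.1 hz
    rw [Finset.mem_Ico] at hq
    rw [mem_Q', dI_bd hz']
    omega
  · intro q _ q' _ hne
    rw [Function.onFun, Finset.disjoint_left]
    intro z hz hz'
    have h1 := dI_bd hz
    have h2 := dI_bd hz'
    omega

private theorem card_Q_le {w : V} {r : ℤ} (hr : 1 ≤ r) :
    ((Q w (7 * r)).card : ℝ) ≤ 225 * (r : ℝ) ^ 2 := by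
  have h1 : (Q w (7 * r)).card = (14 * r + 1).toNat * (14 * r + 1).toNat := by
    unfold Q
    rw [Finset.card_Icc_prod]
    simp only [Int.card_Icc]
    congr 1 <;> congr 1 <;> ring
  have h2 : (((14 * r + 1).toNat : ℤ) : ℝ) = 14 * r + 1 := by
    rw [Int.toNat_of_nonneg (by omega)]
    push_cast; ring
  have h3 : (((14 * r + 1).toNat : ℕ) : ℝ) = 14 * r + 1 := by exact_mod_cast h2
  rw [h1]
  push_cast
  rw [h3]
  have hrR : (1:ℝ) ≤ r := by exact_mod_cast hr
  nlinarith

/-- P8 (i) -/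
theorem osc_step (p : ℝ) : ∃ C : ℝ, 0 < C ∧ ∀ (D : Finset V) (β : V → ℝ) (w : V) (r : ℤ), 1 ≤ r → Q w (8 * r) ⊆ D →
    ∫⁻ X, ENNReal.ofReal (Real.exp (p * osc (Q w (4 * r)) (fun x => hx (Q w (8 * r)) X x - hx D β x))) ∂gam D β
      ≤ ENNReal.ofReal C := by
  obtain ⟨C4, hC4, hexit⟩ := exit_density
  obtain ⟨Cv, hCv, hvar⟩ := var_incr
  set a0 : ℝ := 450 * C4 * |p| with ha0
  have ha0n : 0 ≤ a0 := by positivity
  refine ⟨2 * Real.exp (a0 ^ 2 * Cv / 2), by positivity, ?_⟩
  intro D β w r hr hQD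
  have hrR : (1:ℝ) ≤ r := by exact_mod_cast hr
  set E := Q w (8 * r) with hE
  set S := Q w (7 * r) with hS
  have hwS : w ∈ S := by
    rw [hS, mem_Q']; unfold dI; simp; omega
  have hSE : S ⊆ E := fun z hz => by
    rw [hS, mem_Q'] at hz; rw [hE, mem_Q']; omega
  have hwE : w ∈ E := hSE hwS
  set ψ : V → V → ℝ := fun z v => hm E z v - hm E w v with hψ
  -- increments are linear functionals
  have hlin : ∀ (X : V → ℝ), ∀ z ∈ S, (hx E X z - hx D β z) - (hx E X w - hx D β w) =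
      lin D β (bd E) (ψ z) X := by
    intro X z hz
    rw [hx_sub_eq_lin hQD (hSE hz), hx_sub_eq_lin hQD hwE]
    unfold lin
    rw [← Finset.sum_sub_distrib]
    refine Finset.sum_congr rfl fun v _ => ?_
    simp only [hψ]
    ring
  have hvz : ∀ z ∈ S, vr D (bd E) (ψ z) ≤ Cv := by
    intro z hz
    rw [hS, mem_Q'] at hz
    exact hvar D w z w r hr hQD hz (by unfold dI; simp; omega)
  -- pointwise bound for the increments
  have hpt : ∀ (X : V → ℝ), ∀ x ∈ Q w (4 * r),
      |(hx E X x - hx D β x) - (hx E X w - hx D β w)| ≤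
        C4 / (r : ℝ) ^ 2 * ∑ z ∈ S, |lin D β (bd E) (ψ z) X| := by
    intro X x hxQ
    rw [mem_Q'] at hxQ
    set Y : V → ℝ := fun x => hx E X x - hx D β x with hY
    have hYharm : ∀ z ∈ E, Y z = av Y z := by
      intro z hz
      have h1 := hx_harm E X hz
      have h2 := hx_harm D β (hQD hz)
      have e : av Y z = av (hx E X) z - av (hx D β) z := by
        simp only [hY, av]; ring
      rw [e, ← h1, ← h2]
    have hq : ∀ q ∈ Finset.Ico (5 * r) (6 * r), |Y x - Y w| ≤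
        C4 / r * ∑ z ∈ bd (Q w q), |Y z - Y w| := by
      intro q hq
      rw [Finset.mem_Ico] at hq
      have hxq : x ∈ Q w q := (mem_Q' _ _ _).2 (by omega)
      have hsub : Q w q ⊆ E := fun z hz => by
        rw [mem_Q'] at hz; rw [hE, mem_Q']; omega
      have h1 : Y x = ∑ z ∈ bd (Q w q), hm (Q w q) x z * Y z := by
        rw [← hx_eq_sum hxq Y, hx_self (fun z hz => hYharm z (hsub hz))]
      have h2 : Y x - Y w = ∑ z ∈ bd (Q w q), hm (Q w q) x z * (Y z - Y w) := by
        simp only [mul_sub, Finset.sum_sub_distrib, ← Finset.sum_mul]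
        rw [hm_sum hxq, one_mul, ← h1]
      rw [h2, Finset.mul_sum]
      refine (Finset.abs_sum_le_sum_abs _ _).trans (Finset.sum_le_sum fun z _ => ?_)
      rw [abs_mul, abs_of_nonneg (hm_nonneg _ _ _)]
      refine mul_le_mul_of_nonneg_right ?_ (abs_nonneg _)
      refine (hexit q w x z (by omega) (by omega)).trans ?_
      apply div_le_div_of_nonneg_left hC4.le (by linarith)
      have : r ≤ q := by omega
      exact_mod_cast this
    have h3 := Finset.sum_le_sum hq
    rw [Finset.sum_const, Int.card_Ico, nsmul_eq_mul, ← Finset.mul_sum] at h3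
    have h4 : (((6 * r - 5 * r).toNat : ℕ) : ℝ) = r := by
      have : ((6 * r - 5 * r).toNat : ℤ) = r := by
        rw [Int.toNat_of_nonneg (by omega)]; ring
      exact_mod_cast this
    rw [h4] at h3
    have h5 := sum_spheres (w := w) hr (f := fun z => |Y z - Y w|) fun z => abs_nonneg _
    have h6 : (r : ℝ) * |Y x - Y w| ≤ C4 / r * ∑ z ∈ S, |Y z - Y w| :=
      h3.trans (mul_le_mul_of_nonneg_left h5 (by positivity))
    have h7 : ∑ z ∈ S, |Y z - Y w| = ∑ z ∈ S, |lin D β (bd E) (ψ z) X| :=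
      Finset.sum_congr rfl fun z hz => by rw [← hlin X z hz]
    rw [h7] at h6
    have h8 : C4 / (r:ℝ) ^ 2 * ∑ z ∈ S, |lin D β (bd E) (ψ z) X| =
        (C4 / r * ∑ z ∈ S, |lin D β (bd E) (ψ z) X|) / r := by
      field_simp
    rw [h8, le_div_iff₀ (by linarith), mul_comm]
    exact h6
  -- Jensen
  have hn : (0:ℝ) < S.card := by exact_mod_cast Finset.card_pos.2 ⟨w, hwS⟩
  have hcard := card_Q_le (w := w) hr
  have hexp : ∀ X : V → ℝ, Real.exp (p * osc (Q w (4 * r)) (fun x => hx E X x - hx D β x)) ≤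
      ∑ z ∈ S, (S.card : ℝ)⁻¹ * Real.exp (a0 * |lin D β (bd E) (ψ z) X|) := by
    intro X
    set T : ℝ := ∑ z ∈ S, |lin D β (bd E) (ψ z) X| with hT
    have hT0 : 0 ≤ T := Finset.sum_nonneg fun _ _ => abs_nonneg _
    have hosc : osc (Q w (4 * r)) (fun x => hx E X x - hx D β x) ≤ 2 * (C4 / (r:ℝ) ^ 2 * T) := by
      apply osc_le (by positivity)
      intro x hxQ y hyQ
      have h1 := hpt X x hxQ
      have h2 := hpt X y hyQ
      have h3 : (hx E X x - hx D β x) - (hx E X y - hx D β y) =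
          ((hx E X x - hx D β x) - (hx E X w - hx D β w)) -
            ((hx E X y - hx D β y) - (hx E X w - hx D β w)) := by ring
      rw [h3]
      refine (abs_sub _ _).trans ?_
      linarith
    have hoscn := osc_nonneg (Q w (4 * r)) (fun x => hx E X x - hx D β x)
    have h1 : p * osc (Q w (4 * r)) (fun x => hx E X x - hx D β x) ≤
        ∑ z ∈ S, (S.card : ℝ)⁻¹ • (a0 * |lin D β (bd E) (ψ z) X|) := by
      calc p * osc (Q w (4 * r)) (fun x => hx E X x - hx D β x)
          ≤ |p| * osc (Q w (4 * r)) (fun x => hx E X x - hx D β x) :=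
            mul_le_mul_of_nonneg_right (le_abs_self p) hoscn
        _ ≤ |p| * (2 * (C4 / (r:ℝ) ^ 2 * T)) := mul_le_mul_of_nonneg_left hosc (abs_nonneg p)
        _ ≤ (S.card : ℝ)⁻¹ * a0 * T := by
            have h2 : |p| * (2 * (C4 / (r:ℝ) ^ 2)) ≤ (S.card : ℝ)⁻¹ * a0 := by
              rw [inv_mul_eq_div, le_div_iff₀ hn]
              calc |p| * (2 * (C4 / (r:ℝ) ^ 2)) * S.card
                  ≤ |p| * (2 * (C4 / (r:ℝ) ^ 2)) * (225 * (r:ℝ) ^ 2) :=
                    mul_le_mul_of_nonneg_left hcard (by positivity)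
                _ = a0 := by rw [ha0]; field_simp; ring
            calc |p| * (2 * (C4 / (r:ℝ) ^ 2 * T)) = (|p| * (2 * (C4 / (r:ℝ) ^ 2))) * T := by ring
              _ ≤ _ := mul_le_mul_of_nonneg_right h2 hT0
        _ = ∑ z ∈ S, (S.card : ℝ)⁻¹ • (a0 * |lin D β (bd E) (ψ z) X|) := by
            rw [hT, Finset.mul_sum]
            refine Finset.sum_congr rfl fun z _ => ?_
            rw [smul_eq_mul]; ring
    refine (Real.exp_le_exp.2 h1).trans ?_
    have h2 := convexOn_exp.map_sum_le (t := S) (w := fun _ => (S.card : ℝ)⁻¹)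
      (p := fun z => a0 * |lin D β (bd E) (ψ z) X|) (fun _ _ => by positivity)
      (by rw [Finset.sum_const, nsmul_eq_mul, mul_inv_cancel₀ hn.ne']) (fun _ _ => mem_univ _)
    simpa only [smul_eq_mul] using h2
  -- integrate
  have hint : ∀ z ∈ S, Integrable (fun X => (S.card : ℝ)⁻¹ *
      Real.exp (a0 * |lin D β (bd E) (ψ z) X|)) (gam D β) := fun z _ =>
    (integral_exp_abs_lin_le D β (bd E) (ψ z) a0).1.const_mul _
  calc ∫⁻ X, ENNReal.ofReal (Real.exp (p * osc (Q w (4 * r))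
        (fun x => hx E X x - hx D β x))) ∂gam D β
      ≤ ∫⁻ X, ENNReal.ofReal (∑ z ∈ S, (S.card : ℝ)⁻¹ *
          Real.exp (a0 * |lin D β (bd E) (ψ z) X|)) ∂gam D β :=
        lintegral_mono fun X => ENNReal.ofReal_le_ofReal (hexp X)
    _ = ENNReal.ofReal (∫ X, ∑ z ∈ S, (S.card : ℝ)⁻¹ *
          Real.exp (a0 * |lin D β (bd E) (ψ z) X|) ∂gam D β) := by
        rw [ofReal_integral_eq_lintegral_ofReal (integrable_finsetSum _ hint)
          (Filter.Eventually.of_forall fun X => Finset.sum_nonneg fun z _ => by positivity)]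
    _ ≤ ENNReal.ofReal (2 * Real.exp (a0 ^ 2 * Cv / 2)) := by
        apply ENNReal.ofReal_le_ofReal
        rw [integral_finsetSum _ hint]
        have h1 : ∀ z ∈ S, ∫ X, (S.card : ℝ)⁻¹ *
            Real.exp (a0 * |lin D β (bd E) (ψ z) X|) ∂gam D β ≤
            (S.card : ℝ)⁻¹ * (2 * Real.exp (a0 ^ 2 * Cv / 2)) := by
          intro z hz
          rw [integral_const_mul]
          refine mul_le_mul_of_nonneg_left ?_ (by positivity)
          refine (integral_exp_abs_lin_le D β (bd E) (ψ z) a0).2.trans ?_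
          have := hvz z hz
          have h2 : a0 ^ 2 * vr D (bd E) (ψ z) / 2 ≤ a0 ^ 2 * Cv / 2 := by
            have := mul_le_mul_of_nonneg_left this (sq_nonneg a0)
            linarith
          have := Real.exp_le_exp.2 h2
          linarith
        refine (Finset.sum_le_sum h1).trans (le_of_eq ?_)
        rw [Finset.sum_const, nsmul_eq_mul, ← mul_assoc, mul_inv_cancel₀ hn.ne', one_mul]

end GF
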