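import Pool.Agent.Lib.MP_acf58e_gf.Func
import Pool.Agent.Lib.MP_acf58e_gf.P5
import Pool.Agent.Lib.MP_acf58e_gf.P8b

open MeasureTheory Set Filter Topology ProbabilityTheory
open scoped ENNReal

namespace GF

private theorem mem_Q_iff' {z x : V} {r : ℤ} : x ∈ Q z r ↔ dI x z ≤ r := by
  unfold Q dI
  rw [Finset.mem_Icc, Prod.le_def, Prod.le_def, max_le_iff, abs_le, abs_le]
  constructor
  · rintro ⟨⟨h1, h2⟩, h3, h4⟩
    refine ⟨⟨?_, ?_⟩, ?_, ?_⟩ <;> simp only at h1 h2 h3 h4 ⊢ <;> linarith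
  · rintro ⟨⟨h1, h2⟩, h3, h4⟩
    refine ⟨⟨?_, ?_⟩, ?_, ?_⟩ <;> simp only at h1 h2 h3 h4 ⊢ <;> linarith

private theorem Q_mono' {z : V} {r s : ℤ} (h : r ≤ s) : Q z r ⊆ Q z s := by
  intro x hx
  rw [mem_Q_iff'] at hx ⊢
  exact hx.trans h

private theorem dI_tri' (x y z : V) : dI x y ≤ dI x z + dI y z := by
  unfold dI
  have h1 : |x.1 - y.1| ≤ |x.1 - z.1| + |y.1 - z.1| := by
    have := abs_sub_le x.1 z.1 y.1
    rwa [abs_sub_comm z.1 y.1] at this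
  have h2 : |x.2 - y.2| ≤ |x.2 - z.2| + |y.2 - z.2| := by
    have := abs_sub_le x.2 z.2 y.2
    rwa [abs_sub_comm z.2 y.2] at this
  refine max_le ?_ ?_
  · exact h1.trans (add_le_add (le_max_left _ _) (le_max_left _ _))
  · exact h2.trans (add_le_add (le_max_right _ _) (le_max_right _ _))

/-- L0b with a weaker hypothesis -/
theorem L0b' (p : ℝ) (hp : 0 < p) : ∃ C : ℝ, 0 < C ∧ ∀ (z c : V) (R ρ : ℕ), 1 ≤ ρ → 400 * ρ ≤ R →
    Q c (8 * ρ) ⊆ Q z (3 * R + 8 * ρ) → ∀ β : V → ℝ,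
    ∫⁻ X, ENNReal.ofReal (Real.exp (p * oscH c ρ X)) ∂(gam (Q z (8 * R)) β) ≤
      ENNReal.ofReal (C * Real.exp (p * (C * ρ / R) * oscH z R β)) := by
  obtain ⟨C1, hC1, h1⟩ := osc_step p
  obtain ⟨C2, hC2, h2⟩ := grad_le
  refine ⟨C1 + 8 * C2, by positivity, ?_⟩
  intro z c R ρ hρ hR hQ β
  have hR0 : (0 : ℝ) < R := by
    have : 0 < R := by omega
    exact_mod_cast this
  have hρR : (400 : ℤ) * ρ ≤ R := by exact_mod_cast hR
  have hρZ : (1 : ℤ) ≤ ρ := by exact_mod_cast hρ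
  set D := Q z (8 * (R : ℤ)) with hD
  set f := hx D β with hf
  set o := oscH z R β with ho
  have ho0 : 0 ≤ o := osc_nonneg _ _
  have hsub : Q c (8 * (ρ : ℤ)) ⊆ D := hQ.trans (Q_mono' (by linarith))
  -- the deterministic part
  have hdet : osc (Q c (4 * (ρ : ℤ))) f ≤ 8 * C2 * (ρ / R) * o := by
    have hharm : Harm (Q z (4 * R - 1 : ℤ)) f := by
      intro x hx
      refine hx_harm D β ?_
      have hx' : x ∈ Q z (4 * R - 1 : ℤ) := hx
      exact Q_mono' (by linarith) hx'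
    have hosc : ∀ x ∈ Q z ((4 * R - 1 : ℤ) + 1), ∀ y ∈ Q z ((4 * R - 1 : ℤ) + 1),
        |f x - f y| ≤ o := by
      intro x hx y hy
      have e : (4 * R - 1 : ℤ) + 1 = 4 * (R : ℤ) := by ring
      rw [e] at hx hy
      exact le_osc f hx hy
    have key := h2 (4 * R - 1 : ℤ) z f o (by linarith) hharm hosc
    refine osc_le (by positivity) ?_
    intro x hx y hy
    have hin : ∀ x ∈ Q c (4 * (ρ : ℤ)), 5 * dI x z ≤ 4 * (4 * R - 1 : ℤ) := by
      intro x hx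
      have h3 : x ∈ Q c (8 * (ρ : ℤ)) := Q_mono' (by linarith) hx
      have h4 := mem_Q_iff'.1 (hQ h3)
      linarith
    refine (key x y (hin x hx) (hin y hy)).trans ?_
    have hd : dI x y ≤ 8 * (ρ : ℤ) := by
      have h5 := dI_tri' x y c
      have h6 := mem_Q_iff'.1 hx
      have h7 := mem_Q_iff'.1 hy
      linarith
    have hdR : (dI x y : ℝ) ≤ 8 * (ρ : ℝ) := by exact_mod_cast hd
    have hr : (R : ℝ) ≤ ((4 * R - 1 : ℤ) : ℝ) := by
      have : (R : ℤ) ≤ 4 * R - 1 := by linarith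
      exact_mod_cast this
    have h8 : (dI x y : ℝ) / ((4 * R - 1 : ℤ) : ℝ) ≤ 8 * (ρ : ℝ) / R :=
      div_le_div₀ (by positivity) hdR hR0 hr
    calc C2 * ((dI x y : ℝ) / ((4 * R - 1 : ℤ) : ℝ)) * o ≤ C2 * (8 * (ρ : ℝ) / R) * o := by
          refine mul_le_mul_of_nonneg_right (mul_le_mul_of_nonneg_left h8 hC2.le) ho0
      _ = 8 * C2 * (ρ / R) * o := by ring
  set b : ℝ := 8 * C2 * (ρ / R) * o with hb
  -- pointwise bound
  have hpt : ∀ X : V → ℝ, ENNReal.ofReal (Real.exp (p * oscH c ρ X))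
      ≤ ENNReal.ofReal (Real.exp (p * b)) * ENNReal.ofReal (Real.exp (p *
        osc (Q c (4 * (ρ : ℤ))) (fun x => hx (Q c (8 * (ρ : ℤ))) X x - hx D β x))) := by
    intro X
    rw [← ENNReal.ofReal_mul (Real.exp_pos _).le, ← Real.exp_add]
    refine ENNReal.ofReal_le_ofReal (Real.exp_le_exp.2 ?_)
    rw [← mul_add]
    refine mul_le_mul_of_nonneg_left ?_ hp.le
    have h9 := osc_add_le (Q c (4 * (ρ : ℤ)))
      (fun x => hx (Q c (8 * (ρ : ℤ))) X x - hx D β x) f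
    have h10 : (fun x => hx (Q c (8 * (ρ : ℤ))) X x - hx D β x + f x)
        = hx (Q c (8 * (ρ : ℤ))) X := by
      funext x
      rw [hf]
      ring
    rw [h10] at h9
    have h11 : oscH c ρ X = osc (Q c (4 * (ρ : ℤ))) (hx (Q c (8 * (ρ : ℤ))) X) := rfl
    rw [h11]
    linarith
  calc ∫⁻ X, ENNReal.ofReal (Real.exp (p * oscH c ρ X)) ∂(gam D β)
      ≤ ∫⁻ X, ENNReal.ofReal (Real.exp (p * b)) * ENNReal.ofReal (Real.exp (p *
        osc (Q c (4 * (ρ : ℤ))) (fun x => hx (Q c (8 * (ρ : ℤ))) X x - hx D β x))) ∂(gam D β) :=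
        lintegral_mono hpt
    _ = ENNReal.ofReal (Real.exp (p * b)) * ∫⁻ X, ENNReal.ofReal (Real.exp (p *
        osc (Q c (4 * (ρ : ℤ))) (fun x => hx (Q c (8 * (ρ : ℤ))) X x - hx D β x))) ∂(gam D β) :=
        lintegral_const_mul' _ _ ENNReal.ofReal_ne_top
    _ ≤ ENNReal.ofReal (Real.exp (p * b)) * ENNReal.ofReal C1 :=
        mul_le_mul_right (h1 D β c ρ hρZ hsub) _
    _ = ENNReal.ofReal (C1 * Real.exp (p * b)) := by
        rw [← ENNReal.ofReal_mul (Real.exp_pos _).le, mul_comm]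
    _ ≤ ENNReal.ofReal ((C1 + 8 * C2) * Real.exp (p * ((C1 + 8 * C2) * ρ / R) * o)) := by
        refine ENNReal.ofReal_le_ofReal ?_
        refine mul_le_mul (by linarith) (Real.exp_le_exp.2 ?_) (Real.exp_pos _).le (by positivity)
        have h12 : p * ((C1 + 8 * C2) * ρ / R) * o = p * b + p * (C1 * (ρ / R) * o) := by
          rw [hb]; ring
        rw [h12]
        have : 0 ≤ p * (C1 * (ρ / R) * o) := by positivity
        linarith

/-- L0b -/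
theorem L0b (p : ℝ) (hp : 0 < p) : ∃ C : ℝ, 0 < C ∧ ∀ (z c : V) (R ρ : ℕ), 1 ≤ ρ → 400 * ρ ≤ R →
    Q c (8 * ρ) ⊆ Q z (3 * R) → ∀ β : V → ℝ,
    ∫⁻ X, ENNReal.ofReal (Real.exp (p * oscH c ρ X)) ∂(gam (Q z (8 * R)) β) ≤
      ENNReal.ofReal (C * Real.exp (p * (C * ρ / R) * oscH z R β)) := by
  obtain ⟨C, hC, h⟩ := L0b' p hp
  refine ⟨C, hC, fun z c R ρ hρ hR hQ β => h z c R ρ hρ hR (hQ.trans (Q_mono' ?_)) β⟩
  have : (0 : ℤ) ≤ ρ := by positivity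
  linarith

end GF
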