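import Pool.Agent.Lib.MP_acf58e_gf.Func
import Pool.Agent.Lib.MP_acf58e_gf.L0a
import Pool.Agent.Lib.MP_acf58e_gf.L0b
import Pool.Agent.Lib.MP_acf58e_gf.L2

open MeasureTheory Set Filter Topology ProbabilityTheory
open scoped ENNReal

namespace GF

private theorem l4d_add (μ : Measure (V → ℝ)) {F G : (V → ℝ) → ℝ≥0∞} (hF : Measurable F)
    (hG : Measurable G) : N4 μ (fun X => F X + G X) ≤ N4 μ F + N4 μ G := by
  unfold N4
  have h := ENNReal.lintegral_Lp_add_le (μ := μ) (p := (4 : ℝ)) hF.aemeasurable hG.aemeasurable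
    (by norm_num)
  have e : ∀ x : ℝ≥0∞, x ^ (4 : ℝ) = x ^ (4 : ℕ) := fun x => by
    rw [← ENNReal.rpow_natCast]
    norm_num
  simpa only [e, Pi.add_apply] using h

private theorem l4d_mono (μ : Measure (V → ℝ)) {F G : (V → ℝ) → ℝ≥0∞} (h : ∀ X, F X ≤ G X) :
    N4 μ F ≤ N4 μ G := by
  unfold N4
  refine ENNReal.rpow_le_rpow ?_ (by norm_num)
  exact lintegral_mono fun X => pow_le_pow_left' (h X) 4

private theorem l4d_sum {ι : Type*} (μ : Measure (V → ℝ)) (s : Finset ι)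
    (F : ι → (V → ℝ) → ℝ≥0∞) (hF : ∀ i ∈ s, Measurable (F i)) :
    N4 μ (fun X => ∑ i ∈ s, F i X) ≤ ∑ i ∈ s, N4 μ (F i) := by
  classical
  induction s using Finset.induction_on with
  | empty =>
    simp [N4]
  | insert a s ha ih =>
    have h1 : (fun X => ∑ i ∈ insert a s, F i X) = fun X => F a X + ∑ i ∈ s, F i X := by
      funext X
      rw [Finset.sum_insert ha]
    rw [h1, Finset.sum_insert ha]
    refine (l4d_add μ (hF a (Finset.mem_insert_self _ _)) ?_).trans ?_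
    · exact Finset.measurable_sum _ fun i hi => hF i (Finset.mem_insert_of_mem hi)
    · exact add_le_add le_rfl (ih fun i hi => hF i (Finset.mem_insert_of_mem hi))

private theorem l4d_rect {R : ℕ} {z : V} {U : Finset V} (h : IsU R z U) :
    ∃ a b c d : ℤ, Q z (2 * R) ∩ U = Rc a b c d := by
  obtain ⟨a, b, c, d, rfl, -⟩ := h
  refine ⟨max (z.1 - 2 * R) a, min (z.1 + 2 * R) b, max (z.2 - 2 * R) c, min (z.2 + 2 * R) d, ?_⟩
  ext v
  simp only [Q, Rc, Finset.mem_inter, Finset.mem_Icc, Prod.le_def]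
  omega

/-- L4D: large oscillation -/
theorem L4D : ∃ (b2 : ℕ) (C : ℝ≥0∞), 3200 ≤ b2 ∧ C < ⊤ ∧ ∀ (t : ℝ), 0 ≤ t → ∀ (U : Finset V) (z : V) (R : ℕ), IsU R z U →
    b2 ≤ R → ∀ β : V → ℝ,
    N4 (gam (Q z (8 * R)) β) (FD t U z R) ≤
      C * Lam t (R / b2) * ENNReal.ofReal (Real.exp (oscH z R β / 2)) := by
  obtain ⟨C0, hC0, h0⟩ := L0b 4 (by norm_num)
  set b2 : ℕ := max 3200 ⌈2 * C0⌉₊ with hb2
  have hb2a : 3200 ≤ b2 := le_max_left _ _
  have hb2b : 2 * C0 ≤ b2 := (Nat.le_ceil _).trans (by exact_mod_cast le_max_right _ _)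
  refine ⟨b2, ((8 * b2 + 1 : ℕ) : ℝ≥0∞) ^ 2 * ENNReal.ofReal (C0 ^ (1 / 4 : ℝ)), hb2a,
    ENNReal.mul_lt_top (ENNReal.pow_lt_top (ENNReal.natCast_lt_top _)) ENNReal.ofReal_lt_top, ?_⟩
  intro t ht U z R hU hR β
  set ρ : ℕ := R / b2 with hρ
  have hb2pos : 0 < b2 := by omega
  have hρ1 : 1 ≤ ρ := (Nat.one_le_div_iff hb2pos).2 hR
  have hρR : b2 * ρ ≤ R := Nat.mul_div_le R b2
  have hRρ : R < b2 * ρ + b2 := by
    have := Nat.lt_mul_div_succ R hb2pos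
    rw [mul_add, mul_one] at this
    exact this
  have hbig : 3200 * ρ ≤ R := le_trans (Nat.mul_le_mul_right _ hb2a) hρR
  have hR2 : R ≤ 2 * (b2 * ρ) := by
    have : b2 ≤ b2 * ρ := Nat.le_mul_of_pos_right _ hρ1
    omega
  obtain ⟨a, b, c, d, hrect⟩ := l4d_rect hU
  obtain ⟨Nt, hNt⟩ := exists_net a b c d ρ hρ1
  rw [← hrect] at hNt
  obtain ⟨hN1, hN2, hN3⟩ := hNt
  have hcard : Nt.card ≤ (8 * b2 + 1) ^ 2 := by
    have h1 := hN3 z (4 * b2)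
    have h2 : Nt.filter (fun c => dI z c ≤ ((4 * b2 * ρ : ℕ) : ℤ)) = Nt := by
      refine Finset.filter_true_of_mem ?_
      intro w hw
      have hw' := (Finset.mem_inter.1 (hN1 hw)).1
      simp only [Q, Finset.mem_Icc, Prod.le_def] at hw'
      have h3 : ((R : ℕ) : ℤ) ≤ ((2 * (b2 * ρ) : ℕ) : ℤ) := by exact_mod_cast hR2
      have h4 : ((4 * b2 * ρ : ℕ) : ℤ) = 2 * ((2 * (b2 * ρ) : ℕ) : ℤ) := by push_cast; ring
      rw [h4]
      unfold dI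
      have e1 := abs_le.2 (⟨by linarith [hw'.2.1], by linarith [hw'.1.1]⟩ :
        -(2 * ((2 * (b2 * ρ) : ℕ) : ℤ)) ≤ z.1 - w.1 ∧ z.1 - w.1 ≤ 2 * ((2 * (b2 * ρ) : ℕ) : ℤ))
      have e2 := abs_le.2 (⟨by linarith [hw'.2.2], by linarith [hw'.1.2]⟩ :
        -(2 * ((2 * (b2 * ρ) : ℕ) : ℤ)) ≤ z.2 - w.2 ∧ z.2 - w.2 ≤ 2 * ((2 * (b2 * ρ) : ℕ) : ℤ))
      exact max_le e1 e2
    rw [h2] at h1
    have h5 : 2 * (4 * b2) + 1 = 8 * b2 + 1 := by ring
    rw [h5] at h1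
    exact h1
  -- the children
  have hchild : ∀ w ∈ Nt, N4 (gam (Q z (8 * R)) β) (FD t (Q z (2 * R) ∩ U) w ρ) ≤
      Lam t ρ * (ENNReal.ofReal (C0 ^ (1 / 4 : ℝ)) *
        ENNReal.ofReal (Real.exp (oscH z R β / 2))) := by
    intro w hw
    have hwQ := (Finset.mem_inter.1 (hN1 hw)).1
    simp only [Q, Finset.mem_Icc, Prod.le_def] at hwQ
    have hb' : ((3200 * ρ : ℕ) : ℤ) ≤ (R : ℤ) := by exact_mod_cast hbig
    have hsub3 : Q w (8 * ρ) ⊆ Q z (3 * R) := by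
      intro v hv
      simp only [Q, Finset.mem_Icc, Prod.le_def] at hv ⊢
      push_cast at hb'
      omega
    have hsub8 : Q w (8 * ρ) ⊆ Q z (8 * R) := by
      intro v hv
      simp only [Q, Finset.mem_Icc, Prod.le_def] at hv ⊢
      push_cast at hb'
      omega
    have hIsU : IsU ρ w (Q z (2 * R) ∩ U) :=
      hU.inter (by omega) (hN1 hw)
    have h1 := L0a t (Q z (2 * R) ∩ U) w ρ hIsU (Q z (8 * R)) hsub8 β univ
      ⟨MeasurableSet.univ, fun _ _ _ => by simp⟩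
    have h2 := h0 z w R ρ hρ1 (by omega) hsub3 β
    simp only [Measure.restrict_univ] at h1
    have h3 : ∫⁻ X, FD t (Q z (2 * R) ∩ U) w ρ X ^ (4 : ℕ) ∂(gam (Q z (8 * R)) β) ≤
        Lam t ρ ^ (4 : ℕ) * ENNReal.ofReal (C0 * Real.exp (4 * (C0 * ρ / R) * oscH z R β)) :=
      h1.trans (mul_le_mul_right h2 _)
    have hosc : 0 ≤ oscH z R β := osc_nonneg _ _
    have hRpos : (0 : ℝ) < R := by
      have : 0 < R := by omega
      exact_mod_cast this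
    have hfrac : C0 * ρ / R ≤ 1 / 2 := by
      rw [div_le_iff₀ hRpos]
      have h5 : (b2 : ℝ) * ρ ≤ R := by exact_mod_cast hρR
      have h6 : 2 * C0 * ρ ≤ b2 * ρ := mul_le_mul_of_nonneg_right hb2b (Nat.cast_nonneg _)
      linarith
    have h4 : C0 * Real.exp (4 * (C0 * ρ / R) * oscH z R β) ≤
        (C0 ^ (1 / 4 : ℝ) * Real.exp (oscH z R β / 2)) ^ (4 : ℕ) := by
      rw [mul_pow, ← Real.exp_nat_mul, ← Real.rpow_natCast (C0 ^ (1 / 4 : ℝ)) 4,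
        ← Real.rpow_mul hC0.le]
      have : (1 / 4 : ℝ) * ((4 : ℕ) : ℝ) = 1 := by norm_num
      rw [this, Real.rpow_one]
      refine mul_le_mul_of_nonneg_left (Real.exp_le_exp.2 ?_) hC0.le
      push_cast
      nlinarith
    unfold N4
    calc (∫⁻ X, FD t (Q z (2 * R) ∩ U) w ρ X ^ (4 : ℕ) ∂(gam (Q z (8 * R)) β)) ^ (1 / 4 : ℝ)
        ≤ (Lam t ρ ^ (4 : ℕ) * ENNReal.ofReal
            ((C0 ^ (1 / 4 : ℝ) * Real.exp (oscH z R β / 2)) ^ (4 : ℕ))) ^ (1 / 4 : ℝ) := by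
          refine ENNReal.rpow_le_rpow (h3.trans ?_) (by norm_num)
          exact mul_le_mul_right (ENNReal.ofReal_le_ofReal h4) _
      _ = (Lam t ρ * (ENNReal.ofReal (C0 ^ (1 / 4 : ℝ)) *
            ENNReal.ofReal (Real.exp (oscH z R β / 2)))) := by
          rw [ENNReal.ofReal_pow (by positivity), ← mul_pow, ← ENNReal.rpow_natCast,
            ← ENNReal.rpow_mul, ENNReal.ofReal_mul (by positivity)]
          norm_num
  calc N4 (gam (Q z (8 * R)) β) (FD t U z R)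
      ≤ N4 (gam (Q z (8 * R)) β) (fun X => ∑ w ∈ Nt, FD t (Q z (2 * R) ∩ U) w ρ X) :=
        l4d_mono _ fun X => L2 t ht U z R ρ hU hρ1 (by omega) Nt hN1 hN2 X
    _ ≤ ∑ w ∈ Nt, N4 (gam (Q z (8 * R)) β) (FD t (Q z (2 * R) ∩ U) w ρ) :=
        l4d_sum _ _ _ fun w _ => meas_FD _ _ _ _
    _ ≤ ∑ _w ∈ Nt, Lam t ρ * (ENNReal.ofReal (C0 ^ (1 / 4 : ℝ)) *
        ENNReal.ofReal (Real.exp (oscH z R β / 2))) := Finset.sum_le_sum hchild
    _ = (Nt.card : ℝ≥0∞) * (Lam t ρ * (ENNReal.ofReal (C0 ^ (1 / 4 : ℝ)) *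
        ENNReal.ofReal (Real.exp (oscH z R β / 2)))) := by
        rw [Finset.sum_const, nsmul_eq_mul]
    _ ≤ ((8 * b2 + 1 : ℕ) : ℝ≥0∞) ^ 2 * (Lam t ρ * (ENNReal.ofReal (C0 ^ (1 / 4 : ℝ)) *
        ENNReal.ofReal (Real.exp (oscH z R β / 2)))) := by
        refine mul_le_mul_left ?_ _
        exact_mod_cast hcard
    _ = _ := by ring

end GF
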