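import Pool.Agent.Lib.MP_acf58e_gf.TBase

/-!
MP_acf58e_pr, module T, T3: boundary connectivity.
-/

set_option autoImplicit false

open Set

namespace GF

open TT

variable {a b c d : ℤ}

/-- cochain lemma -/
private theorem cochain {e : V → V → ZMod 2} (hs : ∀ x y, e x y = e y x)
    (hsq : ∀ x y : ℤ, a ≤ x → x + 1 ≤ b → c ≤ y → y + 1 ≤ d →
      e (x, y) (x + 1, y) + e (x + 1, y) (x + 1, y + 1) + e (x, y + 1) (x + 1, y + 1)
        + e (x, y) (x, y + 1) = 0) :
    ∃ φ : V → ZMod 2, ∀ u v, u ∈ Rc a b c d → v ∈ Rc a b c d → nn u v → e u v = φ u + φ v := by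
  have h2 : (2 : ZMod 2) = 0 := rfl
  set φ : V → ZMod 2 := fun v =>
    ∑ j ∈ Finset.range (v.2 - c).toNat, e (a, c + j) (a, c + j + 1) +
      ∑ i ∈ Finset.range (v.1 - a).toNat, e (a + i, v.2) (a + i + 1, v.2) with hφ
  have hH : ∀ x y : ℤ, a ≤ x → φ (x + 1, y) = φ (x, y) + e (x, y) (x + 1, y) := by
    intro x y hx
    have h1 : (x + 1 - a).toNat = (x - a).toNat + 1 := by omega
    have h3 : a + ((x - a).toNat : ℤ) = x := by omega
    simp only [hφ, h1, Finset.sum_range_succ, h3]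
    ring
  have hV : ∀ (i : ℕ) (y : ℤ), a + i ≤ b → c ≤ y → y + 1 ≤ d →
      φ (a + i, y + 1) = φ (a + i, y) + e (a + i, y) (a + i, y + 1) := by
    intro i
    induction i with
    | zero =>
      intro y _ hy _
      have h1 : (y + 1 - c).toNat = (y - c).toNat + 1 := by omega
      have h3 : c + ((y - c).toNat : ℤ) = y := by omega
      simp only [hφ, h1, Finset.sum_range_succ, h3, Nat.cast_zero, add_zero, sub_self,
        Int.toNat_zero, Finset.range_zero, Finset.sum_empty]
    | succ i ih =>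
      intro y hi hy hyd
      push_cast at hi
      have h4 := ih y (by omega) hy hyd
      have h5 := hH (a + i) y (by omega)
      have h6 := hH (a + i) (y + 1) (by omega)
      have h7 := hsq (a + i) y (by omega) (by omega) hy hyd
      have h8 : a + ((i + 1 : ℕ) : ℤ) = a + i + 1 := by push_cast; ring
      rw [h8, h6, h5, h4]
      linear_combination h7 - (e (a + i, y) (a + i + 1, y)) * h2
        - (e (a + i + 1, y) (a + i + 1, y + 1)) * h2
  have hV' : ∀ x y : ℤ, a ≤ x → x ≤ b → c ≤ y → y + 1 ≤ d →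
      φ (x, y + 1) = φ (x, y) + e (x, y) (x, y + 1) := by
    intro x y hx hxb hy hyd
    have h1 := hV (x - a).toNat y (by omega) hy hyd
    have h3 : a + ((x - a).toNat : ℤ) = x := by omega
    rw [h3] at h1
    exact h1
  refine ⟨φ, fun u v hu hv huv => ?_⟩
  rw [mem_Rc] at hu hv
  obtain ⟨x, y⟩ := u
  obtain ⟨x', y'⟩ := v
  simp only at hu hv
  rcases nn_iff'.1 huv with ⟨h3, h4⟩ | ⟨h3, h4⟩ | ⟨h3, h4⟩ | ⟨h3, h4⟩
  · simp only at h3 h4
    subst h3 h4
    rw [hH x y' (by omega)]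
    linear_combination - (φ (x, y')) * h2
  · simp only at h3 h4
    obtain rfl : x = x' + 1 := by omega
    subst h4
    rw [hs, hH x' y' (by omega)]
    linear_combination - (φ (x', y')) * h2
  · simp only at h3 h4
    subst h3 h4
    rw [hV' x' y (by omega) (by omega) (by omega) (by omega)]
    linear_combination - (φ (x', y)) * h2
  · simp only at h3 h4
    obtain rfl : y = y' + 1 := by omega
    subst h3
    rw [hs, hV' x' y' (by omega) (by omega) (by omega) (by omega)]
    linear_combination - (φ (x', y')) * h2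

private lemma sq_adj {x y : ℤ} {u v : V} (hu : x ≤ u.1 ∧ u.1 ≤ x + 1 ∧ y ≤ u.2 ∧ u.2 ≤ y + 1)
    (hv : x ≤ v.1 ∧ v.1 ≤ x + 1 ∧ y ≤ v.2 ∧ v.2 ≤ y + 1) : u = v ∨ st u v := by
  by_cases h : u = v
  · exact Or.inl h
  · right
    rw [st_iff']
    exact ⟨h, by omega, by omega, by omega, by omega⟩

/-- the corner of a diagonal step -/
private lemma diag {w w' : V} (h : st w w') (hn : ¬ nn w w') :
    nn w (w.1, w'.2) ∧ nn w' (w.1, w'.2) := by
  have h4 := st_iff'.1 h
  rw [nn_iff'] at hn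
  have h5 : w.1 ≠ w'.1 ∨ w.2 ≠ w'.2 := by
    by_contra hcon
    push Not at hcon
    exact h4.1 (Prod.ext hcon.1 hcon.2)
  rw [nn_iff', nn_iff']
  dsimp only
  omega

private lemma corner_mem {w w' : V} (h : w ∈ (Rc a b c d : Set V))
    (h' : w' ∈ (Rc a b c d : Set V)) : ((w.1, w'.2) : V) ∈ (Rc a b c d : Set V) := by
  rw [Finset.mem_coe, mem_Rc] at h h' ⊢
  dsimp only
  omega

private lemma bool_key : ∀ a00 a10 a01 a11 p00 p10 p01 p11 : Bool,
    (p00 = true → a00 = false) → (p10 = true → a10 = false) → (p01 = true → a01 = false) →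
    (p11 = true → a11 = false) →
    ((a00 || a10 || a01 || a11) = true →
      (p00 = true → a10 = false → p10 = true) ∧ (p10 = true → a00 = false → p00 = true) ∧
      (p10 = true → a11 = false → p11 = true) ∧ (p11 = true → a10 = false → p10 = true) ∧
      (p01 = true → a11 = false → p11 = true) ∧ (p11 = true → a01 = false → p01 = true) ∧
      (p00 = true → a01 = false → p01 = true) ∧ (p01 = true → a00 = false → p00 = true)) →
    (if (a00 && p10 || a10 && p00) = true then (1 : ZMod 2) else 0) +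
      (if (a10 && p11 || a11 && p10) = true then 1 else 0) +
      (if (a01 && p11 || a11 && p01) = true then 1 else 0) +
      (if (a00 && p01 || a01 && p00) = true then 1 else 0) = 0 := by
  intro a00 a10 a01 a11 p00 p10 p01 p11
  have h2 : (1 : ZMod 2) + 1 = 0 := rfl
  cases a00 <;> cases a10 <;> cases a01 <;> cases a11 <;> cases p00 <;> cases p10 <;>
    cases p01 <;> cases p11 <;> simp [h2]

/-- T3 (i): the nearest neighbour boundary, inside a star component of the complement of a nearest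
neighbour connected set, is star connected. -/
theorem T3_star {A : Set V} (hA : A ⊆ (Rc a b c d : Set V)) (hAc : IsConn nn A) (s : V) :
    IsConn st {v | v ∈ comp st ((Rc a b c d : Set V) \ A) s ∧ ∃ u ∈ A, nn v u} := by
  classical
  set C := comp st ((Rc a b c d : Set V) \ A) s with hC
  set P : Set V := {v | v ∈ C ∧ ∃ u ∈ A, nn v u} with hP
  intro x hx y hy
  by_contra hxy
  set P1 : Set V := comp st P x with hP1
  have hx1 : x ∈ P1 := conn_refl hx
  have hy1 : y ∉ P1 := hxy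
  have hP1P : P1 ⊆ P := fun v hv => conn_mem_right hv
  have hCR : ∀ v ∈ C, v ∈ (Rc a b c d : Set V) \ A := fun v hv => conn_mem_right hv
  have hCs : ∀ u v, u ∈ C → v ∈ (Rc a b c d : Set V) → v ∉ A → st u v → v ∈ C := by
    intro u v hu hv hvA huv
    exact conn_trans hu (conn_single (hCR u hu) ⟨hv, hvA⟩ huv)
  have hP1s : ∀ u v, u ∈ P1 → v ∈ P → st u v → v ∈ P1 := by
    intro u v hu hv huv
    exact conn_trans hu (conn_single (hP1P hu) hv huv)
  set e : V → V → ZMod 2 := fun u v => if (u ∈ A ∧ v ∈ P1) ∨ (v ∈ A ∧ u ∈ P1) then 1 else 0 with he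
  have hP1A : ∀ v ∈ P1, v ∉ A := fun v hv => (hCR v (hP1P hv).1).2
  have hes : ∀ u v, e u v = e v u := by
    intro u v
    simp only [he]
    congr 1
    exact propext or_comm
  obtain ⟨φ, hφ⟩ := cochain (a := a) (b := b) (c := c) (d := d) hes (by
    intro p q h1 h2 h3 h4
    by_cases hw : ∃ w : V, (p ≤ w.1 ∧ w.1 ≤ p + 1 ∧ q ≤ w.2 ∧ w.2 ≤ q + 1) ∧ w ∈ P1
    · obtain ⟨w, hwq, hw1⟩ := hw
      have side : ∀ u v : V, (p ≤ u.1 ∧ u.1 ≤ p + 1 ∧ q ≤ u.2 ∧ u.2 ≤ q + 1) →
          (p ≤ v.1 ∧ v.1 ≤ p + 1 ∧ q ≤ v.2 ∧ v.2 ≤ q + 1) → nn u v →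
          e u v = (if u ∈ A then 1 else 0) + (if v ∈ A then 1 else 0) := by
        have key : ∀ u v : V, (p ≤ u.1 ∧ u.1 ≤ p + 1 ∧ q ≤ u.2 ∧ u.2 ≤ q + 1) →
            (p ≤ v.1 ∧ v.1 ≤ p + 1 ∧ q ≤ v.2 ∧ v.2 ≤ q + 1) → nn u v → u ∈ A → v ∉ A →
            v ∈ P1 := by
          intro u v hu hv huv huA hvA
          have hvR : v ∈ (Rc a b c d : Set V) := by
            rw [Finset.mem_coe, mem_Rc]
            omega
          have hvC : v ∈ C := by
            rcases sq_adj hwq hv with h5 | h5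
            · rw [← h5]
              exact (hP1P hw1).1
            · exact hCs w v (hP1P hw1).1 hvR hvA h5
          have hvP : v ∈ P := ⟨hvC, u, huA, nn_comm.1 huv⟩
          rcases sq_adj hwq hv with h5 | h5
          · rw [← h5]
            exact hw1
          · exact hP1s w v hw1 hvP h5
        intro u v hu hv huv
        simp only [he]
        by_cases huA : u ∈ A <;> by_cases hvA : v ∈ A
        · have h5 : u ∉ P1 := fun h6 => hP1A u h6 huA
          have h6 : v ∉ P1 := fun h7 => hP1A v h7 hvA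
          simp only [huA, hvA, h5, h6, and_false, or_self, if_false, if_true]
          decide
        · have h5 := key u v hu hv huv huA hvA
          simp [huA, hvA, h5]
        · have h5 := key v u hv hu (nn_comm.1 huv) hvA huA
          simp [huA, hvA, h5]
        · simp [huA, hvA]
      have hn1 : nn ((p, q) : V) (p + 1, q) := by rw [nn_iff']; left; simp
      have hn2 : nn ((p + 1, q) : V) (p + 1, q + 1) := by rw [nn_iff']; right; right; left; simp
      have hn3 : nn ((p, q + 1) : V) (p + 1, q + 1) := by rw [nn_iff']; left; simp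
      have hn4 : nn ((p, q) : V) (p, q + 1) := by rw [nn_iff']; right; right; left; simp
      rw [side (p, q) (p + 1, q) (by simp) (by simp) hn1,
        side (p + 1, q) (p + 1, q + 1) (by simp) (by simp) hn2,
        side (p, q + 1) (p + 1, q + 1) (by simp) (by simp) hn3,
        side (p, q) (p, q + 1) (by simp) (by simp) hn4]
      have h2 : (2 : ZMod 2) = 0 := rfl
      linear_combination ((if ((p, q) : V) ∈ A then (1 : ZMod 2) else 0) +
        (if ((p + 1, q) : V) ∈ A then 1 else 0) + (if ((p, q + 1) : V) ∈ A then 1 else 0) +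
        (if ((p + 1, q + 1) : V) ∈ A then 1 else 0)) * h2
    · have h5 : ∀ w : V, (p ≤ w.1 ∧ w.1 ≤ p + 1 ∧ q ≤ w.2 ∧ w.2 ≤ q + 1) → w ∉ P1 :=
        fun w hw1 hw2 => hw ⟨w, hw1, hw2⟩
      have h6 := h5 (p, q) (by simp)
      have h7 := h5 (p + 1, q) (by simp)
      have h8 := h5 (p, q + 1) (by simp)
      have h9 := h5 (p + 1, q + 1) (by simp)
      simp [he, h6, h7, h8, h9])
  -- constant on A
  have h2 : (2 : ZMod 2) = 0 := rfl
  have hφA : ∀ u ∈ A, ∀ v ∈ A, φ u = φ v := by
    intro u hu v hv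
    refine conn_induction (Q := fun v => φ u = φ v) (hAc u hu v hv) rfl ?_
    intro w w' hw hw' hadj hq
    have h3 := hφ w w' (hA hw) (hA hw') hadj
    have h4 : e w w' = 0 := by
      have h5 : w ∉ P1 := fun h6 => hP1A w h6 hw
      have h6 : w' ∉ P1 := fun h7 => hP1A w' h7 hw'
      simp [he, h5, h6]
    rw [h4] at h3
    linear_combination hq - h3 - φ w' * h2
  have hCC : ∀ u ∈ C, ∀ v ∈ C, nn u v → φ u = φ v := by
    intro u hu v hv huv
    have h3 := hφ u v (hCR u hu).1 (hCR v hv).1 huv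
    have h4 : e u v = 0 := by
      have h5 := (hCR u hu).2
      have h6 := (hCR v hv).2
      simp [he, h5, h6]
    rw [h4] at h3
    linear_combination - h3 - φ v * h2
  have hφC : ∀ u ∈ C, ∀ v ∈ C, φ u = φ v := by
    have h3 : ∀ v ∈ C, φ s = φ v := by
      intro v hv
      refine (conn_induction (Q := fun v => v ∈ C ∧ φ s = φ v) hv ⟨conn_refl hv.1, rfl⟩ ?_).2
      rintro w w' hw hw' hadj ⟨hwC, hq⟩
      have hw'C : w' ∈ C := hCs w w' hwC hw'.1 hw'.2 hadj
      refine ⟨hw'C, ?_⟩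
      rw [hq]
      by_cases hn : nn w w'
      · exact hCC w hwC w' hw'C hn
      · obtain ⟨hn1, hn2⟩ := diag hadj hn
        have hβR := corner_mem hw.1 hw'.1
        set β : V := (w.1, w'.2) with hβ
        by_cases hβA : β ∈ A
        · have h6 := hφ w β hw.1 hβR hn1
          have h7 := hφ w' β hw'.1 hβR hn2
          have hwP : w ∈ P := ⟨hwC, β, hβA, hn1⟩
          have hw'P : w' ∈ P := ⟨hw'C, β, hβA, hn2⟩
          have h8 : w ∈ P1 ↔ w' ∈ P1 :=
            ⟨fun h9 => hP1s w w' h9 hw'P hadj, fun h9 => hP1s w' w h9 hwP (st_comm.1 hadj)⟩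
          have h9 : e w β = e w' β := by
            simp only [he, hβA, hw.2, hw'.2, h8, false_and, true_and, false_or]
          rw [h6, h7] at h9
          exact add_right_cancel h9
        · have hβC : β ∈ C := hCs w β hwC hβR hβA (st_of_nn hn1)
          rw [hCC w hwC β hβC hn1, hCC w' hw'C β hβC hn2]
    intro u hu v hv
    rw [← h3 u hu, ← h3 v hv]
  obtain ⟨hxC, u, huA, hxu⟩ := hx
  obtain ⟨hyC, u', hu'A, hyu'⟩ := hy
  have h3 := hφ x u (hCR x hxC).1 (hA huA) hxu
  have h4 := hφ y u' (hCR y hyC).1 (hA hu'A) hyu'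
  have h5 : e x u = 1 := by
    simp only [he]
    rw [if_pos (Or.inr ⟨huA, hx1⟩)]
  have h6 : e y u' = 0 := by
    simp only [he]
    rw [if_neg]
    rintro (⟨h7, -⟩ | ⟨-, h7⟩)
    · exact (hCR y hyC).2 h7
    · exact hy1 h7
  rw [h5, hφC x hxC y hyC, hφA u huA u' hu'A, ← h4, h6] at h3
  exact one_ne_zero h3

/-- T3 (ii): the star boundary, inside a nearest neighbour component of the complement of a star
connected set, is nearest neighbour connected. -/
theorem T3_nn {A : Set V} (hA : A ⊆ (Rc a b c d : Set V)) (hAc : IsConn st A) (s : V) :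
    IsConn nn {v | v ∈ comp nn ((Rc a b c d : Set V) \ A) s ∧ ∃ u ∈ A, st v u} := by
  classical
  set C := comp nn ((Rc a b c d : Set V) \ A) s with hC
  set P : Set V := {v | v ∈ C ∧ ∃ u ∈ A, st v u} with hP
  intro x hx y hy
  by_contra hxy
  set P1 : Set V := comp nn P x with hP1
  have hx1 : x ∈ P1 := conn_refl hx
  have hy1 : y ∉ P1 := hxy
  have hP1P : P1 ⊆ P := fun v hv => conn_mem_right hv
  have hCR : ∀ v ∈ C, v ∈ (Rc a b c d : Set V) \ A := fun v hv => conn_mem_right hv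
  have hCs : ∀ u v, u ∈ C → v ∈ (Rc a b c d : Set V) → v ∉ A → nn u v → v ∈ C := by
    intro u v hu hv hvA huv
    exact conn_trans hu (conn_single (hCR u hu) ⟨hv, hvA⟩ huv)
  have hP1s : ∀ u v, u ∈ P1 → v ∈ P → nn u v → v ∈ P1 := by
    intro u v hu hv huv
    exact conn_trans hu (conn_single (hP1P hu) hv huv)
  set e : V → V → ZMod 2 := fun u v =>
    if (decide (u ∈ A) && decide (v ∈ P1) || decide (v ∈ A) && decide (u ∈ P1)) = true then 1
      else 0 with he
  have hP1A : ∀ v ∈ P1, v ∉ A := fun v hv => (hCR v (hP1P hv).1).2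
  have hes : ∀ u v, e u v = e v u := by
    intro u v
    simp only [he]
    rw [Bool.or_comm]
  obtain ⟨φ, hφ⟩ := cochain (a := a) (b := b) (c := c) (d := d) hes (by
    intro p q h1 h2 h3 h4
    have step : ∀ u v : V, (p ≤ u.1 ∧ u.1 ≤ p + 1 ∧ q ≤ u.2 ∧ u.2 ≤ q + 1) →
        (p ≤ v.1 ∧ v.1 ≤ p + 1 ∧ q ≤ v.2 ∧ v.2 ≤ q + 1) → nn u v →
        (∃ w : V, (p ≤ w.1 ∧ w.1 ≤ p + 1 ∧ q ≤ w.2 ∧ w.2 ≤ q + 1) ∧ w ∈ A) →
        (decide (u ∈ P1) = true → decide (v ∈ A) = false → decide (v ∈ P1) = true) := by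
      rintro u v hu hv huv ⟨w, hw, hwA⟩ huP hvA
      rw [decide_eq_true_eq] at huP ⊢
      rw [decide_eq_false_iff_not] at hvA
      have hvR : v ∈ (Rc a b c d : Set V) := by
        rw [Finset.mem_coe, mem_Rc]
        omega
      have hvC : v ∈ C := hCs u v (hP1P huP).1 hvR hvA huv
      have hvw : st v w := by
        rcases sq_adj hv hw with h5 | h5
        · exact absurd (h5 ▸ hwA) hvA
        · exact h5
      exact hP1s u v huP ⟨hvC, w, hwA, hvw⟩ huv
    have hn1 : nn ((p, q) : V) (p + 1, q) := by rw [nn_iff']; left; simp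
    have hn2 : nn ((p + 1, q) : V) (p + 1, q + 1) := by rw [nn_iff']; right; right; left; simp
    have hn3 : nn ((p, q + 1) : V) (p + 1, q + 1) := by rw [nn_iff']; left; simp
    have hn4 : nn ((p, q) : V) (p, q + 1) := by rw [nn_iff']; right; right; left; simp
    have hdis : ∀ v : V, decide (v ∈ P1) = true → decide (v ∈ A) = false := by
      intro v hv
      rw [decide_eq_true_eq] at hv
      rw [decide_eq_false_iff_not]
      exact hP1A v hv
    refine bool_key _ _ _ _ _ _ _ _ (hdis _) (hdis _) (hdis _) (hdis _) ?_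
    intro hex
    have hex' : ∃ w : V, (p ≤ w.1 ∧ w.1 ≤ p + 1 ∧ q ≤ w.2 ∧ w.2 ≤ q + 1) ∧ w ∈ A := by
      simp only [Bool.or_eq_true, decide_eq_true_eq] at hex
      rcases hex with ((h5 | h5) | h5) | h5
      · exact ⟨_, by simp, h5⟩
      · exact ⟨_, by simp, h5⟩
      · exact ⟨_, by simp, h5⟩
      · exact ⟨_, by simp, h5⟩
    exact ⟨step _ _ (by simp) (by simp) hn1 hex', step _ _ (by simp) (by simp) (nn_comm.1 hn1) hex',
      step _ _ (by simp) (by simp) hn2 hex', step _ _ (by simp) (by simp) (nn_comm.1 hn2) hex',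
      step _ _ (by simp) (by simp) hn3 hex', step _ _ (by simp) (by simp) (nn_comm.1 hn3) hex',
      step _ _ (by simp) (by simp) hn4 hex', step _ _ (by simp) (by simp) (nn_comm.1 hn4) hex'⟩)
  have h2 : (2 : ZMod 2) = 0 := rfl
  have hCC : ∀ u ∈ C, ∀ v ∈ C, nn u v → φ u = φ v := by
    intro u hu v hv huv
    have h3 := hφ u v (hCR u hu).1 (hCR v hv).1 huv
    have h4 : e u v = 0 := by
      have h5 := (hCR u hu).2
      have h6 := (hCR v hv).2
      simp [he, h5, h6]
    rw [h4] at h3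
    linear_combination - h3 - φ v * h2
  have hφC : ∀ u ∈ C, ∀ v ∈ C, φ u = φ v := by
    have h3 : ∀ v ∈ C, φ s = φ v := by
      intro v hv
      refine (conn_induction (Q := fun v => v ∈ C ∧ φ s = φ v) hv ⟨conn_refl hv.1, rfl⟩ ?_).2
      rintro w w' hw hw' hadj ⟨hwC, hq⟩
      have hw'C : w' ∈ C := hCs w w' hwC hw'.1 hw'.2 hadj
      exact ⟨hw'C, hq.trans (hCC w hwC w' hw'C hadj)⟩
    intro u hu v hv
    rw [← h3 u hu, ← h3 v hv]
  have hAA : ∀ u ∈ A, ∀ v ∈ A, nn u v → φ u = φ v := by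
    intro u hu v hv huv
    have h3 := hφ u v (hA hu) (hA hv) huv
    have h4 : e u v = 0 := by
      have h5 : u ∉ P1 := fun h6 => hP1A u h6 hu
      have h6 : v ∉ P1 := fun h7 => hP1A v h7 hv
      simp [he, h5, h6]
    rw [h4] at h3
    linear_combination - h3 - φ v * h2
  have hφA : ∀ u ∈ A, ∀ v ∈ A, φ u = φ v := by
    intro u hu v hv
    refine conn_induction (Q := fun v => φ u = φ v) (hAc u hu v hv) rfl ?_
    intro w w' hw hw' hadj hq
    rw [hq]
    by_cases hn : nn w w'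
    · exact hAA w hw w' hw' hn
    · obtain ⟨hn1, hn2⟩ := diag hadj hn
      have hβR := corner_mem (hA hw) (hA hw')
      set β : V := (w.1, w'.2) with hβ
      by_cases hβA : β ∈ A
      · rw [hAA w hw β hβA hn1, hAA w' hw' β hβA hn2]
      · have h6 := hφ w β (hA hw) hβR hn1
        have h7 := hφ w' β (hA hw') hβR hn2
        have h8 : w ∉ P1 := fun h9 => hP1A w h9 hw
        have h9 : w' ∉ P1 := fun h10 => hP1A w' h10 hw'
        have h10 : e w β = e w' β := by
          simp [he, hw, hw', h8, h9, hβA]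
        rw [h6, h7] at h10
        exact add_right_cancel h10
  -- a point of the star boundary is joined to a nearest neighbour boundary point of its class
  have hfin : ∀ v ∈ P, ∃ v' ∈ P, ∃ u ∈ A, nn v' u ∧ φ v' = φ v ∧ (v' ∈ P1 ↔ v ∈ P1) := by
    rintro v ⟨hvC, u, huA, hvu⟩
    by_cases hn : nn v u
    · exact ⟨v, ⟨hvC, u, huA, hvu⟩, u, huA, hn, rfl, Iff.rfl⟩
    · obtain ⟨hn1, hn2⟩ := diag hvu hn
      have hn2 := nn_comm.1 hn2
      have hβR := corner_mem (hCR v hvC).1 (hA huA)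
      set β : V := (v.1, u.2) with hβ
      by_cases hβA : β ∈ A
      · exact ⟨v, ⟨hvC, u, huA, hvu⟩, β, hβA, hn1, rfl, Iff.rfl⟩
      · have hβC : β ∈ C := hCs v β hvC hβR hβA hn1
        have hβP : β ∈ P := ⟨hβC, u, huA, st_of_nn hn2⟩
        refine ⟨β, hβP, u, huA, hn2, (hCC v hvC β hβC hn1).symm, ?_⟩
        exact ⟨fun h9 => hP1s β v h9 ⟨hvC, u, huA, hvu⟩ (nn_comm.1 hn1),
          fun h9 => hP1s v β h9 hβP hn1⟩
  obtain ⟨x', hx'P, u, huA, hxu, hφx, hx'1⟩ := hfin x hx
  obtain ⟨y', hy'P, u', hu'A, hyu', hφy, hy'1⟩ := hfin y hy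
  have h3 := hφ x' u (hCR x' hx'P.1).1 (hA huA) hxu
  have h4 := hφ y' u' (hCR y' hy'P.1).1 (hA hu'A) hyu'
  have h5 : e x' u = 1 := by
    have h7 : x' ∈ P1 := hx'1.2 hx1
    simp [he, h7, huA]
  have h6 : e y' u' = 0 := by
    have h7 : y' ∉ P1 := fun h8 => hy1 (hy'1.1 h8)
    have h8 := (hCR y' hy'P.1).2
    simp [he, h7, h8]
  rw [h5, hφC x' hx'P.1 y' hy'P.1, hφA u huA u' hu'A, ← h4, h6] at h3
  exact one_ne_zero h3

end GF
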