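import Pool.Agent.Lib.MP_acf58e_gf.T2b
import Pool.Agent.Lib.MP_acf58e_gf.T3

/-!
MP_acf58e_pr, module T, T1: between two nearest neighbour crossings which are not connected there is
a star crossing of the complement.
-/

set_option autoImplicit false

open Set

namespace GF

open TT

private lemma seq_bd {R A : Set V} {s : V} {f : ℕ → V} {m : ℕ} (hf : ∀ i ≤ m, f i ∈ R)
    (hs : ∀ i < m, nn (f i) (f (i + 1))) (h0 : f 0 ∈ comp st (R \ A) s) (hm : f m ∈ A) :
    ∃ i < m, f i ∈ comp st (R \ A) s ∧ ∃ u ∈ A, nn (f i) u := by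
  classical
  have hex : ∃ i, i ≤ m ∧ f i ∈ A := ⟨m, le_rfl, hm⟩
  obtain ⟨h1, h2⟩ := Nat.find_spec hex
  have hmin : ∀ j, j < Nat.find hex → f j ∉ A := by
    intro j hj hA
    exact Nat.find_min hex hj ⟨by omega, hA⟩
  have h00 : f 0 ∉ A := (conn_mem_right h0).2
  have hpos : 0 < Nat.find hex := by
    by_contra hcon
    have : Nat.find hex = 0 := by omega
    rw [this] at h2
    exact h00 h2
  obtain ⟨k, hk⟩ : ∃ k, Nat.find hex = k + 1 := ⟨Nat.find hex - 1, by omega⟩
  rw [hk] at h1 h2 hmin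
  refine ⟨k, by omega, ?_, f (k + 1), h2, hs k (by omega)⟩
  have h3 : ∀ j, j ≤ k → f j ∈ comp st (R \ A) s := by
    intro j
    induction j with
    | zero => intro _; exact h0
    | succ j ih =>
      intro hj
      have h4 := ih (by omega)
      exact conn_trans h4 (conn_single (conn_mem_right h4)
        ⟨hf _ (by omega), hmin _ (by omega)⟩ (st_of_nn (hs j (by omega))))
  exact h3 k le_rfl

/-- a star connected set which meets two columns contains a crossing -/
private lemma cut_path {a b c d : ℤ} (hab : a < b) {P : Set V} (hPR : P ⊆ (Rc a b c d : Set V))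
    {g0 g1 : ℤ} (hc : ConnIn st P (a, g0) (b, g1)) :
    ∃ (g : ℤ) (len : ℕ) (q : ℕ → V), IsLR st a b c d P g len q ∧ ConnIn st P (a, g0) (a, g) := by
  classical
  obtain ⟨N, q, hq0, hqN, hqP, hqs⟩ := exists_path hc
  have hex : ∃ i, i ≤ N ∧ (q i).1 = b := ⟨N, le_rfl, by rw [hqN]⟩
  obtain ⟨h1, h2⟩ := Nat.find_spec hex
  have hmin : ∀ j, j < Nat.find hex → (q j).1 ≠ b := by
    intro j hj hA
    exact Nat.find_min hex hj ⟨by omega, hA⟩
  have hpos : 0 < Nat.find hex := by
    by_contra hcon
    have h3 : Nat.find hex = 0 := by omega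
    rw [h3, hq0] at h2
    dsimp only at h2
    omega
  obtain ⟨k, hk⟩ : ∃ k, Nat.find hex = k + 1 := ⟨Nat.find hex - 1, by omega⟩
  rw [hk] at h1 h2 hmin
  set i0 := Nat.findGreatest (fun i => (q i).1 = a) k with hi0
  have h3 : (q i0).1 = a := Nat.findGreatest_spec (P := fun i => (q i).1 = a) (Nat.zero_le k)
    (by rw [hq0])
  have h4 : i0 ≤ k := Nat.findGreatest_le k
  have h5 : ∀ j, i0 < j → j ≤ k → (q j).1 ≠ a := fun j hj hjk =>
    Nat.findGreatest_is_greatest hj hjk
  refine ⟨(q i0).2, k + 1 - i0, fun j => q (i0 + j), ⟨?_, ?_, ?_, ?_, ?_⟩, ?_⟩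
  · dsimp only
    rw [add_zero]
    exact Prod.ext h3 rfl
  · dsimp only
    rw [show i0 + (k + 1 - i0) = k + 1 by omega]
    exact h2
  · intro i hi
    have h6 := hqP (i0 + i) (by omega)
    exact ⟨h6, Finset.mem_coe.1 (hPR h6)⟩
  · intro i hi
    exact hqs (i0 + i) (by omega)
  · intro i hi hi'
    have h6 := hPR (hqP (i0 + i) (by omega))
    rw [Finset.mem_coe, mem_Rc] at h6
    have h7 := h5 (i0 + i) (by omega) (by omega)
    have h8 := hmin (i0 + i) (by omega)
    dsimp only
    omega
  · have h6 := conn_of_path (adj := st) (A := P) (n := N) (p := q) hqP hqs (i := 0) (j := i0)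
      (Nat.zero_le _) (by omega)
    rw [hq0] at h6
    have h7 : q i0 = (a, (q i0).2) := Prod.ext h3 rfl
    rw [h7] at h6
    exact h6

/-- T1 -/
theorem T1 {a b c d : ℤ} (hab : a < b) {O : Set V} {h h' : ℤ} {n n' : ℕ} {p p' : ℕ → V}
    (hp : IsLR nn a b c d O h n p) (hp' : IsLR nn a b c d O h' n' p') (hh : h < h')
    (hno : ¬ ConnIn nn (O ∩ (Rc a b c d : Set V)) (a, h) (a, h')) :
    ∃ (g : ℤ) (len : ℕ) (q : ℕ → V), h < g ∧ g < h' ∧ IsLR st a b c d Oᶜ g len q := by
  classical
  set R : Set V := (Rc a b c d : Set V) with hR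
  set A : Set V := comp nn (O ∩ R) (a, h) with hA
  set s : V := (a, h') with hs
  set C : Set V := comp st (R \ A) s with hC
  set P : Set V := {v | v ∈ C ∧ ∃ u ∈ A, nn v u} with hP
  have hpO : ∀ i ≤ n, p i ∈ O ∩ R := fun i hi => ⟨(hp.2.2.1 i hi).1, (hp.2.2.1 i hi).2⟩
  have hp'O : ∀ i ≤ n', p' i ∈ O ∩ R := fun i hi => ⟨(hp'.2.2.1 i hi).1, (hp'.2.2.1 i hi).2⟩
  have hpA : ∀ i ≤ n, p i ∈ A := by
    intro i hi
    have h1 := conn_of_path hpO hp.2.2.2.1 (Nat.zero_le i) hi
    rw [hp.1] at h1
    exact h1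
  have hsA : s ∉ A := hno
  have hp'A : ∀ i ≤ n', p' i ∉ A := by
    intro i hi h1
    have h2 := conn_of_path hp'O hp'.2.2.2.1 (Nat.zero_le i) hi
    rw [hp'.1] at h2
    exact hsA (conn_trans h1 (conn_symm nn_symm' h2))
  have hAR : A ⊆ R := fun v hv => (conn_mem_right hv).2
  have hsR : s ∈ R := by
    have h1 := hp'O 0 (Nat.zero_le _)
    rw [hp'.1] at h1
    exact h1.2
  have hahA : ((a, h) : V) ∈ A := by
    have h1 := hpA 0 (Nat.zero_le _)
    rw [hp.1] at h1
    exact h1
  have hsC : s ∈ C := conn_refl ⟨hsR, hsA⟩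
  have hPc : IsConn st P := T3_star hAR (isConn_comp nn_symm' _) s
  have hCR : ∀ v ∈ C, v ∈ R \ A := fun v hv => conn_mem_right hv
  have hPO : ∀ v ∈ P, v ∉ O := by
    rintro v ⟨hvC, u, huA, hvu⟩ hvO
    have h1 := hCR v hvC
    exact h1.2 (conn_trans huA (conn_single (conn_mem_right huA) ⟨hvO, h1.1⟩ (nn_comm.1 hvu)))
  have hPR : P ⊆ R := fun v hv => (hCR v hv.1).1
  have hRa : a ≤ a ∧ a ≤ b ∧ c ≤ h ∧ h ≤ d := mem_Rc.1 (Finset.mem_coe.1 (hAR hahA))
  have hRs : a ≤ a ∧ a ≤ b ∧ c ≤ h' ∧ h' ≤ d := mem_Rc.1 (Finset.mem_coe.1 hsR)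
  -- the point of the boundary on the column `a`
  obtain ⟨i, hi, hiP⟩ := seq_bd (R := R) (A := A) (s := s) (f := fun i : ℕ => ((a, h' - i) : V))
    (m := (h' - h).toNat)
    (by
      intro i hi
      rw [hR, Finset.mem_coe, mem_Rc]
      dsimp only
      omega)
    (by
      intro i hi
      rw [nn_iff']
      dsimp only
      push_cast
      omega)
    (by
      have h1 : ((a, h' - (0 : ℕ)) : V) = s := by
        rw [hs]
        simp
      rw [h1]
      exact hsC)
    (by
      have h1 : ((a, h' - ((h' - h).toNat : ℕ)) : V) = (a, h) := by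
        apply Prod.ext
        · rfl
        · dsimp only
          omega
      rw [h1]
      exact hahA)
  set g0 : ℤ := h' - i with hg0
  have hg0P : ((a, g0) : V) ∈ P := hiP
  have hg0h : h < g0 := by omega
  have hg0h' : g0 < h' := by
    have h1 : g0 ≠ h' := by
      intro h2
      apply hPO _ hg0P
      rw [h2]
      have h3 := hp'O 0 (Nat.zero_le _)
      rw [hp'.1] at h3
      exact h3.1
    omega
  -- the point of the boundary on the column `b`
  have hlast : ∃ g1 : ℤ, ((b, g1) : V) ∈ P := by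
    have h1 : p' n' ∈ C := by
      have h2 : ConnIn nn (R \ A) (p' 0) (p' n') :=
        conn_of_path (A := R \ A) (fun i hi => ⟨(hp'O i hi).2, hp'A i hi⟩) hp'.2.2.2.1
          (Nat.zero_le _) le_rfl
      rw [hp'.1] at h2
      exact conn_st_of_nn h2
    have h2 : p n ∈ A := hpA n le_rfl
    have h3 := mem_Rc.1 (hp.2.2.1 n le_rfl).2
    have h4 := mem_Rc.1 (hp'.2.2.1 n' le_rfl).2
    have h5 := hp.2.1
    have h6 := hp'.2.1
    rcases le_total (p n).2 (p' n').2 with h7 | h7
    · obtain ⟨i, hi, hiP⟩ := seq_bd (R := R) (A := A) (s := s)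
        (f := fun i : ℕ => ((b, (p' n').2 - i) : V)) (m := ((p' n').2 - (p n).2).toNat)
        (by
          intro i hi
          rw [hR, Finset.mem_coe, mem_Rc]
          dsimp only
          omega)
        (by
          intro i hi
          rw [nn_iff']
          dsimp only
          push_cast
          omega)
        (by
          have h8 : ((b, (p' n').2 - (0 : ℕ)) : V) = p' n' := by
            apply Prod.ext
            · exact h6.symm
            · simp
          rw [h8]
          exact h1)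
        (by
          have h8 : ((b, (p' n').2 - (((p' n').2 - (p n).2).toNat : ℕ)) : V) = p n := by
            apply Prod.ext
            · exact h5.symm
            · dsimp only
              omega
          rw [h8]
          exact h2)
      exact ⟨_, hiP⟩
    · obtain ⟨i, hi, hiP⟩ := seq_bd (R := R) (A := A) (s := s)
        (f := fun i : ℕ => ((b, (p' n').2 + i) : V)) (m := ((p n).2 - (p' n').2).toNat)
        (by
          intro i hi
          rw [hR, Finset.mem_coe, mem_Rc]
          dsimp only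
          omega)
        (by
          intro i hi
          rw [nn_iff']
          dsimp only
          push_cast
          omega)
        (by
          have h8 : ((b, (p' n').2 + (0 : ℕ)) : V) = p' n' := by
            apply Prod.ext
            · exact h6.symm
            · simp
          rw [h8]
          exact h1)
        (by
          have h8 : ((b, (p' n').2 + (((p n).2 - (p' n').2).toNat : ℕ)) : V) = p n := by
            apply Prod.ext
            · exact h5.symm
            · dsimp only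
              omega
          rw [h8]
          exact h2)
      exact ⟨_, hiP⟩
  obtain ⟨g1, hg1P⟩ := hlast
  obtain ⟨g, len, q, hq, hgc⟩ := cut_path hab hPR (hPc _ hg0P _ hg1P)
  have hPcol : ∀ v ∈ P, a ≤ v.1 ∧ v.1 ≤ b := by
    intro v hv
    have h1 := mem_Rc.1 (Finset.mem_coe.1 (hPR hv))
    exact ⟨h1.1, h1.2.1⟩
  have hgP : ((a, g) : V) ∈ P := conn_mem_right hgc
  have hgh : g ≠ h := by
    rintro rfl
    exact (hCR _ hgP.1).2 hahA
  have hgh' : g ≠ h' := by
    rintro rfl
    apply hPO _ hgP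
    have h3 := hp'O 0 (Nat.zero_le _)
    rw [hp'.1] at h3
    exact h3.1
  have hpar := par_conn_nn hp hPcol (fun i hi h1 => (hCR _ h1.1).2 (hpA i hi)) hgc
  have hpar' := par_conn_nn hp' hPcol (fun i hi h1 => hPO _ h1 (hp'O i hi).1) hgc
  rw [par_start_nn hp hab (by omega), par_start_nn hp hab hgh, if_neg (by omega)] at hpar
  rw [par_start_nn hp' hab (by omega), par_start_nn hp' hab hgh', if_pos hg0h'] at hpar'
  refine ⟨g, len, q, ?_, ?_, hq.1, hq.2.1, ?_, hq.2.2.2.1, hq.2.2.2.2⟩
  · by_contra hcon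
    rw [if_pos (by omega)] at hpar
    omega
  · by_contra hcon
    rw [if_neg (by omega)] at hpar'
    omega
  · intro i hi
    exact ⟨hPO _ (hq.2.2.1 i hi).1, (hq.2.2.1 i hi).2⟩

end GF
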