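import Pool.Agent.Lib.MP_acf58e_gf.Func
import Pool.Agent.Lib.MP_acf58e_gf.T1

open MeasureTheory Set Filter Topology ProbabilityTheory
open scoped ENNReal

namespace GF

/-! ### elementary connectivity -/

theorem m1_cin_left {adj : V → V → Prop} {A : Set V} {x y : V} (h : ConnIn adj A x y) : x ∈ A := h.1

theorem m1_cin_right {adj : V → V → Prop} {A : Set V} {x y : V} (h : ConnIn adj A x y) : y ∈ A := by
  obtain ⟨h1, h2⟩ := h
  induction h2 with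
  | refl => exact h1
  | tail _ h4 _ => exact h4.2

theorem m1_cin_refl {adj : V → V → Prop} {A : Set V} {x : V} (h : x ∈ A) : ConnIn adj A x x :=
  ⟨h, Relation.ReflTransGen.refl⟩

theorem m1_cin_trans {adj : V → V → Prop} {A : Set V} {x y z : V} (h : ConnIn adj A x y)
    (h' : ConnIn adj A y z) : ConnIn adj A x z := ⟨h.1, h.2.trans h'.2⟩

theorem m1_cin_step {adj : V → V → Prop} {A : Set V} {x y : V} (h : x ∈ A) (h' : y ∈ A) (h2 : adj x y) :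
    ConnIn adj A x y := ⟨h, Relation.ReflTransGen.single ⟨h2, h'⟩⟩

theorem m1_cin_mono {adj : V → V → Prop} {A B : Set V} {x y : V} (h : A ⊆ B) (h' : ConnIn adj A x y) :
    ConnIn adj B x y :=
  ⟨h h'.1, Relation.ReflTransGen.mono (fun _ _ hab => ⟨hab.1, h hab.2⟩) _ _ h'.2⟩

theorem m1_cin_symm {adj : V → V → Prop} (hs : ∀ x y, adj x y → adj y x) {A : Set V} {x y : V}
    (h : ConnIn adj A x y) : ConnIn adj A y x := by
  obtain ⟨h1, h2⟩ := h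
  induction h2 with
  | refl => exact m1_cin_refl h1
  | tail h3 h4 ih =>
    have hb : _ ∈ A := m1_cin_right ⟨h1, h3⟩
    exact m1_cin_trans (m1_cin_step h4.2 hb (hs _ _ h4.1)) ih

theorem m1_nn_symm (x y : V) (h : nn x y) : nn y x := by
  unfold nn at *
  rw [abs_sub_comm y.1, abs_sub_comm y.2]; exact h

theorem m1_path_of_cin {adj : V → V → Prop} {A : Set V} {x y : V} (h : ConnIn adj A x y) :
    ∃ (n : ℕ) (p : ℕ → V), IsPath adj A n p x y := by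
  obtain ⟨h1, h2⟩ := h
  induction h2 with
  | refl => exact ⟨0, fun _ => x, rfl, rfl, fun _ _ => h1, fun i hi => by omega⟩
  | @tail y z h3 h4 ih =>
    obtain ⟨n, p, h5, h6, h7, h8⟩ := ih
    refine ⟨n + 1, fun i => if i ≤ n then p i else z, ?_, ?_, ?_, ?_⟩
    · simp [h5]
    · simp
    · intro i hi
      by_cases h : i ≤ n
      · simpa [h] using h7 i h
      · simpa [h] using h4.2
    · intro i hi
      by_cases h : i + 1 ≤ n
      · have : i ≤ n := by omega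
        simp only [this, h, if_true]
        exact h8 i (by omega)
      · have e : i = n := by omega
        subst e
        simp only [le_refl, if_true, h, if_false]
        rw [h6]; exact h4.1

theorem m1_cin_of_path {adj : V → V → Prop} {A : Set V} {n : ℕ} {p : ℕ → V}
    (h1 : ∀ i ≤ n, p i ∈ A) (h2 : ∀ i < n, adj (p i) (p (i + 1))) :
    ConnIn adj A (p 0) (p n) := by
  induction n with
  | zero => exact m1_cin_refl (h1 0 le_rfl)
  | succ n ih =>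
    exact m1_cin_trans (ih (fun i hi => h1 i (by omega)) (fun i hi => h2 i (by omega)))
      (m1_cin_step (h1 n (by omega)) (h1 (n + 1) le_rfl) (h2 n (by omega)))

/-! ### extraction of a crossing -/

/-- the horizontal coordinate changes by at most one along a step -/
theorem m1_nn_fst {x y : V} (h : nn x y) : y.1 ≤ x.1 + 1 ∧ x.1 ≤ y.1 + 1 := by
  unfold nn at h
  have h1 := abs_nonneg (x.2 - y.2)
  have h2 : |x.1 - y.1| ≤ 1 := by omega
  rw [abs_le] at h2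
  omega

/-- a path from {x.1 ≤ α} to {x.1 ≥ β} contains a crossing of [α,β] -/
theorem m1_cross {A : Set V} {n : ℕ} {p : ℕ → V} {α β : ℤ} (hαβ : α < β)
    (h1 : ∀ i ≤ n, p i ∈ A) (h2 : ∀ i < n, nn (p i) (p (i + 1))) (h3 : (p 0).1 ≤ α)
    (h4 : β ≤ (p n).1) :
    ∃ (len : ℕ) (q : ℕ → V), (q 0).1 = α ∧ (q len).1 = β ∧ (∀ i ≤ len, q i ∈ A) ∧
      (∀ i < len, nn (q i) (q (i + 1))) ∧ (∀ i, 0 < i → i < len → α < (q i).1 ∧ (q i).1 < β) := by
  classical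
  -- first index with value ≥ β
  have hex : ∃ j, β ≤ (p j).1 := ⟨n, h4⟩
  obtain ⟨j, hj⟩ : ∃ j, j = Nat.find hex := ⟨_, rfl⟩
  have hj1 : β ≤ (p j).1 := by rw [hj]; exact Nat.find_spec hex
  have hjn : j ≤ n := by rw [hj]; exact Nat.find_min' hex h4
  have hj2 : ∀ i < j, (p i).1 < β := by
    intro i hi
    rw [hj] at hi
    have := Nat.find_min hex hi
    omega
  have hj0 : 0 < j := by
    rcases Nat.eq_zero_or_pos j with h | h
    · rw [h] at hj1; omega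
    · exact h
  have hjβ : (p j).1 = β := by
    have h5 := h2 (j - 1) (by omega)
    have h6 := hj2 (j - 1) (by omega)
    have h7 := m1_nn_fst h5
    have e : j - 1 + 1 = j := by omega
    rw [e] at h7
    omega
  -- last index i < j with value ≤ α
  obtain ⟨S, hS⟩ : ∃ S : Finset ℕ, S = (Finset.range j).filter (fun i => (p i).1 ≤ α) := ⟨_, rfl⟩
  have hSne : S.Nonempty := ⟨0, by rw [hS]; simp [hj0, h3]⟩
  obtain ⟨i, hi⟩ : ∃ i, i = S.max' hSne := ⟨_, rfl⟩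
  have hiS : i ∈ S := by rw [hi]; exact S.max'_mem hSne
  have hi1 : i < j ∧ (p i).1 ≤ α := by rw [hS] at hiS; simpa using hiS
  have hi2 : ∀ k, i < k → k < j → α < (p k).1 := by
    intro k hk hkj
    by_contra hcon
    have : k ∈ S := by rw [hS]; simp [hkj]; omega
    have := S.le_max' k this
    omega
  have hiα : (p i).1 = α := by
    have h5 := m1_nn_fst (h2 i (by omega))
    by_cases h : i + 1 = j
    · rw [h] at h5; omega
    · have := hi2 (i + 1) (by omega) (by omega)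
      omega
  refine ⟨j - i, fun k => p (i + k), by simpa using hiα, ?_, ?_, ?_, ?_⟩
  · have e : i + (j - i) = j := by omega
    simp only [e]; exact hjβ
  · intro k hk
    exact h1 _ (by omega)
  · intro k hk
    exact h2 _ (by omega)
  · intro k hk hk2
    exact ⟨hi2 _ (by omega) (by omega), hj2 _ (by omega)⟩

/-- crossing of the strip, as an IsLR path -/
theorem m1_cross' {A : Set V} {a b c d α β : ℤ} (hαβ : α < β)
    (hA : A ⊆ (Rc a b c d : Set V)) (hc : IsConn nn A) (hx : ∃ x ∈ A, x.1 ≤ α)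
    (hy : ∃ y ∈ A, β ≤ y.1) :
    ∃ (h : ℤ) (n : ℕ) (p : ℕ → V), IsLR nn α β c d A h n p := by
  obtain ⟨x, hxA, hx⟩ := hx
  obtain ⟨y, hyA, hy⟩ := hy
  obtain ⟨n, p, h1, h2, h3, h4⟩ := m1_path_of_cin (hc x hxA y hyA)
  obtain ⟨len, q, q1, q2, q3, q4, q5⟩ := m1_cross hαβ h3 h4 (by rw [h1]; exact hx) (by rw [h2]; exact hy)
  refine ⟨(q 0).2, len, q, ?_, q2, ?_, q4, q5⟩
  · ext
    · exact q1
    · rfl
  · intro i hi
    refine ⟨q3 i hi, ?_⟩
    have h5 := hA (q3 i hi)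
    simp only [Rc, Finset.coe_Icc, Set.mem_Icc, Prod.le_def] at h5
    simp only [Rc, Finset.mem_Icc, Prod.le_def]
    have h6 : α ≤ (q i).1 ∧ (q i).1 ≤ β := by
      rcases Nat.eq_zero_or_pos i with h | h
      · subst h; rw [q1]; exact ⟨le_refl _, hαβ.le⟩
      · rcases Nat.lt_or_ge i len with h' | h'
        · exact ⟨(q5 i h h').1.le, (q5 i h h').2.le⟩
        · have e : i = len := by omega
          rw [e, q2]; exact ⟨hαβ.le, le_refl _⟩
    exact ⟨⟨h6.1, h5.1.2⟩, ⟨h6.2, h5.2.2⟩⟩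

/-! ### assembling the alternating sequence -/

theorem m1_IsLR_mono {adj : V → V → Prop} {a b c d : ℤ} {A B : Set V} {h : ℤ} {n : ℕ} {p : ℕ → V}
    (hAB : A ⊆ B) (hp : IsLR adj a b c d A h n p) : IsLR adj a b c d B h n p :=
  ⟨hp.1, hp.2.1, fun i hi => ⟨hAB (hp.2.2.1 i hi).1, (hp.2.2.1 i hi).2⟩, hp.2.2.2.1, hp.2.2.2.2⟩

theorem m1_assemble {t0 t1 : ℝ} {a b c d : ℤ} {X : V → ℝ} {m : ℕ} (hP : ℕ → ℤ) (nP : ℕ → ℕ)
    (P : ℕ → ℕ → V) (hG : ℕ → ℤ) (nG : ℕ → ℕ) (G : ℕ → ℕ → V)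
    (h1 : ∀ i ≤ m, IsLR nn a b c d (lev X t0) (hP i) (nP i) (P i))
    (h2 : ∀ i < m, IsLR st a b c d {v | X v < t1} (hG i) (nG i) (G i))
    (h3 : ∀ i < m, hP i < hG i ∧ hG i < hP (i + 1))
    (h4 : ∀ i < m, ∀ k ≤ nP i, ∀ k' ≤ nG i, P i k ≠ G i k')
    (h5 : ∀ i < m, ∀ k ≤ nG i, ∀ k' ≤ nP (i + 1), G i k ≠ P (i + 1) k') :
    Alt 1 (2 * m + 1) t0 t1 a b c d X := by
  refine ⟨fun j => if j % 2 = 0 then hP (j / 2) else hG (j / 2),
    fun j => if j % 2 = 0 then nP (j / 2) else nG (j / 2),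
    fun j => if j % 2 = 0 then P (j / 2) else G (j / 2), ?_, ?_, ?_, ?_⟩
  · intro j hj hj2
    have e : j % 2 = 1 := by omega
    simp only [e, one_ne_zero, if_false]
    exact h2 (j / 2) (by omega)
  · intro j hj hj2
    have e : j % 2 = 0 := by omega
    simp only [e, if_true]
    exact h1 (j / 2) (by omega)
  · intro j hj
    rcases Nat.mod_two_eq_zero_or_one j with e | e
    · have e' : (j + 1) % 2 = 1 := by omega
      have e2 : (j + 1) / 2 = j / 2 := by omega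
      simp only [e, e', e2, if_true, one_ne_zero, if_false]
      exact (h3 (j / 2) (by omega)).1
    · have e' : (j + 1) % 2 = 0 := by omega
      have e2 : (j + 1) / 2 = j / 2 + 1 := by omega
      simp only [e, e', e2, if_true, one_ne_zero, if_false]
      exact (h3 (j / 2) (by omega)).2
  · intro j hj
    rcases Nat.mod_two_eq_zero_or_one j with e | e
    · have e' : (j + 1) % 2 = 1 := by omega
      have e2 : (j + 1) / 2 = j / 2 := by omega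
      simp only [e, e', e2, if_true, one_ne_zero, if_false]
      exact h4 (j / 2) (by omega)
    · have e' : (j + 1) % 2 = 0 := by omega
      have e2 : (j + 1) / 2 = j / 2 + 1 := by omega
      simp only [e, e', e2, if_true, one_ne_zero, if_false]
      exact h5 (j / 2) (by omega)

/-- Core of M1 and L4B: m+1 separated connected sets crossing the same strip. -/
theorem m1_core {ι : Type*} (T : Finset ι) {m : ℕ} (hT : m + 1 ≤ T.card) {t w : ℝ} (u : ι → ℝ)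
    (A : ι → Set V) {a b c d α β : ℤ} (ha : a ≤ α) (hb : β ≤ b) (hαβ : α < β) {X : V → ℝ}
    (hu : ∀ i ∈ T, t ≤ u i ∧ u i ≤ t + w) (hA : ∀ i ∈ T, A i ⊆ (Rc a b c d : Set V) ∩ lev X (u i))
    (hc : ∀ i ∈ T, IsConn nn (A i)) (hx : ∀ i ∈ T, ∃ x ∈ A i, x.1 ≤ α)
    (hy : ∀ i ∈ T, ∃ y ∈ A i, β ≤ y.1)
    (hs : ∀ i ∈ T, ∀ l ∈ T, i ≠ l → ∀ x ∈ A i, ∀ y ∈ A l,
      ¬ ConnIn nn (lev X (min (u i) (u l)) ∩ (Rc a b c d : Set V)) x y) :
    Alt 1 (2 * m + 1) t (t + w) α β c d X := by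
  classical
  have hcr : ∀ i : ι, ∃ (h : ℤ) (n : ℕ) (p : ℕ → V), i ∈ T → IsLR nn α β c d (A i) h n p := by
    intro i
    by_cases hi : i ∈ T
    · obtain ⟨h, n, p, hp⟩ := m1_cross' hαβ (fun x hx => (hA i hi hx).1) (hc i hi) (hx i hi) (hy i hi)
      exact ⟨h, n, p, fun _ => hp⟩
    · exact ⟨0, 0, fun _ => (0, 0), fun h => absurd h hi⟩
  choose H N P hP using hcr
  have hstart : ∀ i ∈ T, (α, H i) ∈ A i := by
    intro i hi
    have h1 := hP i hi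
    have h2 := (h1.2.2.1 0 (Nat.zero_le _)).1
    rwa [h1.1] at h2
  have hinj : Set.InjOn H (T : Set ι) := by
    intro i hi l hl hil
    by_contra hne
    have h1 := hstart i hi
    have h2 := hstart l hl
    rw [← hil] at h2
    apply hs i hi l hl hne _ h1 _ h2
    refine m1_cin_refl ⟨?_, (hA i hi h1).1⟩
    have h3 := (hA i hi h1).2
    simp only [lev, Set.mem_ofPred_eq] at h3 ⊢
    exact le_trans (min_le_left _ _) h3
  obtain ⟨S, hS⟩ : ∃ S, S = T.image H := ⟨_, rfl⟩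
  have hScard : m + 1 ≤ S.card := by rw [hS, Finset.card_image_of_injOn hinj]; exact hT
  have hST : ∀ x ∈ S, ∃ i ∈ T, H i = x := by
    intro x hx'
    rw [hS, Finset.mem_image] at hx'
    exact hx'
  obtain ⟨e, he⟩ : ∃ e, e = S.orderEmbOfFin rfl := ⟨_, rfl⟩
  have hidx : ∀ j : ℕ, ∃ i : ι, ∀ hj : j < S.card, i ∈ T ∧ H i = e ⟨j, hj⟩ := by
    have hne : Nonempty ι := by
      have : 0 < T.card := by omega
      obtain ⟨i, _⟩ := Finset.card_pos.1 this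
      exact ⟨i⟩
    intro j
    by_cases hj : j < S.card
    · have h1 : e ⟨j, hj⟩ ∈ S := by rw [he]; exact Finset.orderEmbOfFin_mem _ _ _
      obtain ⟨i, hi, hi2⟩ := hST _ h1
      exact ⟨i, fun _ => ⟨hi, hi2⟩⟩
    · exact ⟨hne.some, fun h => absurd h hj⟩
  choose σ hσ using hidx
  have hσT : ∀ j ≤ m, σ j ∈ T := fun j hj => (hσ j (by omega)).1
  have hσlt : ∀ j < m, H (σ j) < H (σ (j + 1)) := by
    intro j hj
    rw [(hσ j (by omega)).2, (hσ (j + 1) (by omega)).2]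
    exact e.strictMono (by simp [Fin.lt_def])
  have hlevA : ∀ i ∈ T, ∀ s ≤ u i, A i ⊆ lev X s := by
    intro i hi s hs' x hx'
    have h3 := (hA i hi hx').2
    simp only [lev, Set.mem_ofPred_eq] at h3 ⊢
    exact le_trans hs' h3
  have hG : ∀ j : ℕ, ∃ (g : ℤ) (len : ℕ) (q : ℕ → V), j < m → H (σ j) < g ∧ g < H (σ (j + 1)) ∧
      IsLR st α β c d (lev X (min (u (σ j)) (u (σ (j + 1)))))ᶜ g len q := by
    intro j
    by_cases hj : j < m
    · have h1 := hσT j hj.le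
      have h2 := hσT (j + 1) hj
      have hne : σ j ≠ σ (j + 1) := by
        intro h
        have := hσlt j hj
        rw [← h] at this
        exact lt_irrefl _ this
      obtain ⟨g, len, q, h3, h4, h5⟩ := T1 hαβ
        (O := lev X (min (u (σ j)) (u (σ (j + 1)))))
        (m1_IsLR_mono (hlevA _ h1 _ (min_le_left _ _)) (hP _ h1))
        (m1_IsLR_mono (hlevA _ h2 _ (min_le_right _ _)) (hP _ h2)) (hσlt j hj)
        (by
          intro hcon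
          apply hs _ h1 _ h2 hne _ (hstart _ h1) _ (hstart _ h2)
          apply m1_cin_mono _ hcon
          intro x hx'
          refine ⟨hx'.1, ?_⟩
          have h6 := hx'.2
          simp only [Rc, Finset.coe_Icc, Set.mem_Icc, Prod.le_def] at h6 ⊢
          exact ⟨⟨le_trans ha h6.1.1, h6.1.2⟩, ⟨le_trans h6.2.1 hb, h6.2.2⟩⟩)
      exact ⟨g, len, q, fun _ => ⟨h3, h4, h5⟩⟩
    · exact ⟨0, 0, fun _ => (0, 0), fun h => absurd h hj⟩
  choose g len q hq using hG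
  refine m1_assemble (fun j => H (σ j)) (fun j => N (σ j)) (fun j => P (σ j)) g len q ?_ ?_ ?_ ?_ ?_
  · intro i hi
    exact m1_IsLR_mono (hlevA _ (hσT i hi) _ (hu _ (hσT i hi)).1) (hP _ (hσT i hi))
  · intro i hi
    refine m1_IsLR_mono ?_ (hq i hi).2.2
    intro x hx'
    simp only [lev, Set.mem_compl_iff, Set.mem_ofPred_eq, not_le] at hx' ⊢
    exact lt_of_lt_of_le hx' (le_trans (min_le_left _ _) (hu _ (hσT i hi.le)).2)
  · intro i hi
    exact ⟨(hq i hi).1, (hq i hi).2.1⟩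
  · intro i hi k hk k' hk' heq
    have h1 := ((hq i hi).2.2.2.2.1 k' hk').1
    apply h1
    rw [← heq]
    exact hlevA _ (hσT i hi.le) _ (min_le_left _ _) ((hP _ (hσT i hi.le)).2.2.1 k hk).1
  · intro i hi k hk k' hk' heq
    have h1 := ((hq i hi).2.2.2.2.1 k hk).1
    apply h1
    rw [heq]
    exact hlevA _ (hσT (i + 1) hi) _ (min_le_right _ _) ((hP _ (hσT (i + 1) hi)).2.2.1 k' hk').1

/-! ### swap of the coordinates -/

theorem m1_sw_sw (x : V) : sw (sw x) = x := rfl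

theorem m1_nn_sw {x y : V} (h : nn x y) : nn (sw x) (sw y) := by
  unfold nn sw at *
  simp only
  omega

theorem m1_cin_sw {A : Set V} {x y : V} (h : ConnIn nn (sw ⁻¹' A) x y) :
    ConnIn nn A (sw x) (sw y) :=
  ⟨h.1, h.2.lift sw (fun _ _ hab => ⟨m1_nn_sw hab.1, hab.2⟩)⟩

theorem m1_conn_sw {A : Set V} (h : IsConn nn A) : IsConn nn (sw ⁻¹' A) := by
  intro x hx y hy
  have h1 := h (sw x) hx (sw y) hy
  have h2 : ConnIn nn (sw ⁻¹' (sw ⁻¹' A)) (sw x) (sw y) := h1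
  exact m1_cin_sw h2

theorem m1_mem_Rc {a b c d : ℤ} {x : V} : x ∈ Rc a b c d ↔ (a ≤ x.1 ∧ x.1 ≤ b) ∧ c ≤ x.2 ∧ x.2 ≤ d := by
  simp only [Rc, Finset.mem_Icc, Prod.le_def]
  tauto

theorem m1_mem_Rc_sw {a b c d : ℤ} {x : V} : sw x ∈ Rc a b c d ↔ x ∈ Rc c d a b := by
  rw [m1_mem_Rc, m1_mem_Rc]
  unfold sw
  simp only
  tauto

/-- core of M1 for horizontal strips (vertical crossings) -/
theorem m1_core_sw {ι : Type*} (T : Finset ι) {m : ℕ} (hT : m + 1 ≤ T.card) {t w : ℝ} (u : ι → ℝ)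
    (A : ι → Set V) {a b c d α β : ℤ} (ha : c ≤ α) (hb : β ≤ d) (hαβ : α < β) {X : V → ℝ}
    (hu : ∀ i ∈ T, t ≤ u i ∧ u i ≤ t + w) (hA : ∀ i ∈ T, A i ⊆ (Rc a b c d : Set V) ∩ lev X (u i))
    (hc : ∀ i ∈ T, IsConn nn (A i)) (hx : ∀ i ∈ T, ∃ x ∈ A i, x.2 ≤ α)
    (hy : ∀ i ∈ T, ∃ y ∈ A i, β ≤ y.2)
    (hs : ∀ i ∈ T, ∀ l ∈ T, i ≠ l → ∀ x ∈ A i, ∀ y ∈ A l,
      ¬ ConnIn nn (lev X (min (u i) (u l)) ∩ (Rc a b c d : Set V)) x y) :
    Alt 1 (2 * m + 1) t (t + w) α β a b (swF X) := by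
  apply m1_core T hT u (fun i => sw ⁻¹' (A i)) (a := c) (b := d) ha hb hαβ hu
  · intro i hi x hx'
    have h1 := hA i hi hx'
    exact ⟨m1_mem_Rc_sw.1 h1.1, h1.2⟩
  · intro i hi
    exact m1_conn_sw (hc i hi)
  · intro i hi
    obtain ⟨x, h1, h2⟩ := hx i hi
    exact ⟨sw x, h1, h2⟩
  · intro i hi
    obtain ⟨x, h1, h2⟩ := hy i hi
    exact ⟨sw x, h1, h2⟩
  · intro i hi l hl hne x hx' y hy' hcon
    apply hs i hi l hl hne (sw x) hx' (sw y) hy'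
    apply m1_cin_sw
    apply m1_cin_mono _ hcon
    intro v hv
    exact ⟨hv.1, m1_mem_Rc_sw.2 hv.2⟩

/-! ### the strip crossed by an interval -/

theorem m1_strip {a x y : ℤ} {w : ℕ} (hw : 0 < w) (hx : a ≤ x) (hxy : x + 2 * w ≤ y + 1) :
    ∃ k : ℕ, x ≤ a + k * w ∧ a + (k + 1) * w ≤ y := by
  obtain ⟨k, hk⟩ : ∃ k : ℕ, k = ((x - a).toNat + (w - 1)) / w := ⟨_, rfl⟩
  have h1 : (x - a).toNat + (w - 1) < (k + 1) * w := by
    rw [hk]
    exact (Nat.div_lt_iff_lt_mul hw).1 (Nat.lt_succ_self _)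
  have h2 : k * w ≤ (x - a).toNat + (w - 1) := by
    rw [hk]; exact Nat.div_mul_le_self _ _
  have h3 : ((x - a).toNat : ℤ) = x - a := Int.toNat_of_nonneg (by omega)
  have h4 : ((w - 1 : ℕ) : ℤ) = (w : ℤ) - 1 := by omega
  refine ⟨k, ?_, ?_⟩
  · zify at h1
    rw [h3] at h1
    push_cast [Nat.cast_sub (show 1 ≤ w by omega)] at h1
    nlinarith
  · zify at h2
    rw [h3] at h2
    push_cast [Nat.cast_sub (show 1 ≤ w by omega)] at h2
    nlinarith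

/-- a connected set of large horizontal extent crosses a vertical strip -/
theorem m1_cls {A : Set V} {a b c d : ℤ} {w : ℕ} (hw : 0 < w) (hA : A ⊆ (Rc a b c d : Set V)) {ℓ : ℤ}
    (hℓ : 2 * (w : ℤ) ≤ ℓ + 1) (h : ∃ x ∈ A, ∃ y ∈ A, ℓ ≤ |x.1 - y.1|) :
    ∃ k : ℕ, a + (k + 1) * w ≤ b ∧ (∃ x ∈ A, x.1 ≤ a + k * w) ∧ ∃ y ∈ A, a + (k + 1) * w ≤ y.1 := by
  obtain ⟨x, hx, y, hy, hxy⟩ := h
  have h1 := m1_mem_Rc.1 (hA hx)
  have h2 := m1_mem_Rc.1 (hA hy)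
  rcases le_total x.1 y.1 with hle | hle
  · rw [abs_sub_comm, abs_of_nonneg (by omega)] at hxy
    obtain ⟨k, h3, h4⟩ := m1_strip (a := a) (x := x.1) (y := y.1) hw h1.1.1 (by omega)
    exact ⟨k, le_trans h4 h2.1.2, ⟨x, hx, h3⟩, ⟨y, hy, h4⟩⟩
  · rw [abs_of_nonneg (by omega)] at hxy
    obtain ⟨k, h3, h4⟩ := m1_strip (a := a) (x := y.1) (y := x.1) hw h2.1.1 (by omega)
    exact ⟨k, le_trans h4 h1.1.2, ⟨y, hy, h3⟩, ⟨x, hx, h4⟩⟩

theorem m1_cls_sw {A : Set V} {a b c d : ℤ} {w : ℕ} (hw : 0 < w) (hA : A ⊆ (Rc a b c d : Set V)) {ℓ : ℤ}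
    (hℓ : 2 * (w : ℤ) ≤ ℓ + 1) (h : ∃ x ∈ A, ∃ y ∈ A, ℓ ≤ |x.2 - y.2|) :
    ∃ k : ℕ, c + (k + 1) * w ≤ d ∧ (∃ x ∈ A, x.2 ≤ c + k * w) ∧ ∃ y ∈ A, c + (k + 1) * w ≤ y.2 := by
  obtain ⟨k, h1, ⟨x, h2, h3⟩, ⟨y, h4, h5⟩⟩ := m1_cls (A := sw ⁻¹' A) (a := c) (b := d) (c := a) (d := b) hw
    (fun x hx => m1_mem_Rc_sw.1 (hA hx)) hℓ
    (by
      obtain ⟨x, hx, y, hy, hxy⟩ := h
      exact ⟨sw x, hx, sw y, hy, hxy⟩)
  exact ⟨k, h1, ⟨sw x, h2, h3⟩, ⟨sw y, h4, h5⟩⟩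

theorem m1_k_le {a b : ℤ} {ℓ A k : ℕ} (hℓ : 16 ≤ ℓ) (h1 : b - a ≤ A * ℓ)
    (h : a + (k + 1) * ((ℓ / 4 : ℕ) : ℤ) ≤ b) : k ≤ 5 * A := by
  have h2 : 4 ≤ ℓ / 4 := by omega
  have h3 : ℓ ≤ 5 * (ℓ / 4) := by omega
  obtain ⟨w, hw⟩ : ∃ w, w = ℓ / 4 := ⟨_, rfl⟩
  rw [← hw] at h h2 h3
  have h4 : ((k + 1) * w : ℤ) ≤ A * (5 * w) := by
    have : (A * ℓ : ℤ) ≤ A * (5 * w) := by
      apply mul_le_mul_of_nonneg_left _ (by positivity)
      exact_mod_cast h3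
    linarith
  have h5 : (k + 1) * w ≤ (5 * A) * w := by
    zify; linarith
  have h6 : k + 1 ≤ 5 * A := Nat.le_of_mul_le_mul_right h5 (by omega)
  omega

/-- M1 strips: a separated family gives a long alternating sequence in one of the strips. -/
theorem M1 (A : ℕ) : ∃ K : ℕ, ∀ (ℓ : ℕ), 16 ≤ ℓ → ∀ (a b c d : ℤ), (ℓ : ℤ) ≤ b - a → b - a ≤ A * ℓ →
    (ℓ : ℤ) ≤ d - c → d - c ≤ A * ℓ → ∀ (m : ℕ) (t w : ℝ) (X : V → ℝ), 0 ≤ w →
    SepP (Rc a b c d) (K * (m + 1)) ℓ t w X →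
    (∃ k : ℕ, k ≤ 5 * A ∧ a + (k + 1) * (ℓ / 4 : ℕ) ≤ b ∧
      Alt 1 (2 * m + 1) t (t + w) (a + k * (ℓ / 4 : ℕ)) (a + (k + 1) * (ℓ / 4 : ℕ)) c d X) ∨
    (∃ k : ℕ, k ≤ 5 * A ∧ c + (k + 1) * (ℓ / 4 : ℕ) ≤ d ∧
      Alt 1 (2 * m + 1) t (t + w) (c + k * (ℓ / 4 : ℕ)) (c + (k + 1) * (ℓ / 4 : ℕ)) a b (swF X)) := by
  classical
  refine ⟨2 * (5 * A + 1), ?_⟩
  intro ℓ hℓ a b c d _ hab2 _ hcd2 m t w X _ hS
  obtain ⟨u, S, hS1, hS2⟩ := hS
  have hq : 0 < ℓ / 4 := by omega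
  have hq2 : 2 * ((ℓ / 4 : ℕ) : ℤ) ≤ (ℓ : ℤ) + 1 := by omega
  obtain ⟨q, hqd⟩ : ∃ q, q = ℓ / 4 := ⟨_, rfl⟩
  have hcls : ∀ i, ∃ kd : ℕ × Bool, kd ∈ (Finset.range (5 * A + 1)) ×ˢ (Finset.univ : Finset Bool) ∧
      ((kd.2 = true → a + (kd.1 + 1) * (ℓ / 4 : ℕ) ≤ b ∧ (∃ x ∈ S i, x.1 ≤ a + kd.1 * (ℓ / 4 : ℕ)) ∧
        ∃ y ∈ S i, a + (kd.1 + 1) * (ℓ / 4 : ℕ) ≤ y.1) ∧
      (kd.2 = false → c + (kd.1 + 1) * (ℓ / 4 : ℕ) ≤ d ∧ (∃ x ∈ S i, x.2 ≤ c + kd.1 * (ℓ / 4 : ℕ)) ∧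
        ∃ y ∈ S i, c + (kd.1 + 1) * (ℓ / 4 : ℕ) ≤ y.2)) := by
    intro i
    obtain ⟨_, _, h3, _, ⟨x, hx, y, hy, hxy⟩⟩ := hS1 i
    have h4 : S i ⊆ (Rc a b c d : Set V) := fun x hx => (h3 hx).1
    unfold dI at hxy
    rcases le_max_iff.1 hxy with h | h
    · obtain ⟨k, h5, h6, h7⟩ := m1_cls hq h4 hq2 ⟨x, hx, y, hy, h⟩
      refine ⟨(k, true), ?_, fun _ => ⟨h5, h6, h7⟩, fun h => by simp at h⟩
      have := m1_k_le hℓ hab2 h5
      simp; omega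
    · obtain ⟨k, h5, h6, h7⟩ := m1_cls_sw hq h4 hq2 ⟨x, hx, y, hy, h⟩
      refine ⟨(k, false), ?_, fun h => by simp at h, fun _ => ⟨h5, h6, h7⟩⟩
      have := m1_k_le hℓ hcd2 h5
      simp; omega
  choose f hf1 hf2 using hcls
  obtain ⟨kd, hkd, hcard⟩ := Finset.exists_le_card_fiber_of_mul_le_card_of_maps_to
    (s := (Finset.univ : Finset (Fin (2 * (5 * A + 1) * (m + 1)))))
    (t := (Finset.range (5 * A + 1)) ×ˢ (Finset.univ : Finset Bool)) (f := f) (n := m + 1)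
    (fun i _ => hf1 i) ⟨(0, true), by simp⟩ (by simp; apply le_of_eq; ring)
  obtain ⟨k, dir⟩ := kd
  have hk : k ≤ 5 * A := by simp at hkd; omega
  obtain ⟨T, hTd⟩ : ∃ T, T = Finset.univ.filter (fun i => f i = (k, dir)) := ⟨_, rfl⟩
  rw [← hTd] at hcard
  have hTf : ∀ i ∈ T, f i = (k, dir) := by
    intro i hi; rw [hTd] at hi; exact (Finset.mem_filter.1 hi).2
  obtain ⟨i0, hi0⟩ : T.Nonempty := Finset.card_pos.1 (by omega)
  have hlt : ∀ e : ℤ, e + k * (ℓ / 4 : ℕ) < e + (k + 1) * (ℓ / 4 : ℕ) := by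
    intro e
    have : (0 : ℤ) < ((ℓ / 4 : ℕ) : ℤ) := by exact_mod_cast hq
    linarith
  have h0 : ∀ e : ℤ, e ≤ e + k * (ℓ / 4 : ℕ) := by
    intro e
    have : (0 : ℤ) ≤ k * ((ℓ / 4 : ℕ) : ℤ) := by positivity
    linarith
  cases dir with
  | true =>
    left
    have hb : ∀ i ∈ T, _ := fun i hi => (hf2 i).1 (by rw [hTf i hi])
    have hb0 := (hb i0 hi0).1
    rw [hTf i0 hi0] at hb0
    refine ⟨k, hk, hb0, ?_⟩
    refine m1_core T hcard u S (a := a) (b := b) (h0 a) hb0 (hlt a)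
      (fun i _ => ⟨(hS1 i).1, (hS1 i).2.1⟩) (fun i _ => (hS1 i).2.2.1)
      (fun i _ => (hS1 i).2.2.2.1) ?_ ?_ ?_
    · intro i hi
      have := (hb i hi).2.1
      rwa [hTf i hi] at this
    · intro i hi
      have := (hb i hi).2.2
      rwa [hTf i hi] at this
    · intro i _ l _ hne x hx y hy
      exact hS2 i l hne x hx y hy
  | false =>
    right
    have hb : ∀ i ∈ T, _ := fun i hi => (hf2 i).2 (by rw [hTf i hi])
    have hb0 := (hb i0 hi0).1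
    rw [hTf i0 hi0] at hb0
    refine ⟨k, hk, hb0, ?_⟩
    refine m1_core_sw T hcard u S (c := c) (d := d) (h0 c) hb0 (hlt c)
      (fun i _ => ⟨(hS1 i).1, (hS1 i).2.1⟩) (fun i _ => (hS1 i).2.2.1)
      (fun i _ => (hS1 i).2.2.2.1) ?_ ?_ ?_
    · intro i hi
      have := (hb i hi).2.1
      rwa [hTf i hi] at this
    · intro i hi
      have := (hb i hi).2.2
      rwa [hTf i hi] at this
    · intro i _ l _ hne x hx y hy
      exact hS2 i l hne x hx y hy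

/-- drop the first crossing -/
theorem Alt.tail {n : ℕ} {t0 t1 : ℝ} {a b c d : ℤ} {X : V → ℝ} (h : Alt 1 (n + 1) t0 t1 a b c d X) :
    Alt 0 n t0 t1 a b c d X := by
  obtain ⟨H, len, p, h1, h2, h3, h4⟩ := h
  refine ⟨fun j => H (j + 1), fun j => len (j + 1), fun j => p (j + 1), ?_, ?_, ?_, ?_⟩
  · intro j hj hj2
    exact h1 (j + 1) (by omega) (by omega)
  · intro j hj hj2
    exact h2 (j + 1) (by omega) (by omega)
  · intro j hj
    exact h3 (j + 1) (by omega)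
  · intro j hj
    exact h4 (j + 1) (by omega)

theorem Alt.mono {e n n' : ℕ} {t0 t1 : ℝ} {a b c d : ℤ} {X : V → ℝ} (h : Alt e n t0 t1 a b c d X)
    (hn : n' ≤ n) : Alt e n' t0 t1 a b c d X := by
  obtain ⟨H, len, p, h1, h2, h3, h4⟩ := h
  exact ⟨H, len, p, fun j hj => h1 j (by omega), fun j hj => h2 j (by omega),
    fun j hj => h3 j (by omega), fun j hj => h4 j (by omega)⟩

end GF
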