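import Pool.Agent.Lib.MP_acf58e_gf.Func
import Pool.Agent.Lib.MP_acf58e_gf.M1

open MeasureTheory Set Filter Topology ProbabilityTheory
open scoped ENNReal

namespace GF

/-- an event which depends only on the truth values of `s ≤ X v` for finitely many v, s is measurable -/
theorem l4b_meas_of_finite (F : Finset V) (S : Finset ℝ) (E : Set (V → ℝ))
    (h : ∀ X X' : V → ℝ, (∀ v ∈ F, ∀ s ∈ S, (s ≤ X v ↔ s ≤ X' v)) → X ∈ E → X' ∈ E) :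
    MeasurableSet E := by
  classical
  obtain ⟨φ, hφ⟩ : ∃ φ : (V → ℝ) → (F → S → Prop), φ = fun (X : V → ℝ) (v : F) (s : S) => (s : ℝ) ≤ X v := ⟨_, rfl⟩
  have hm : Measurable φ := by
    rw [hφ]
    refine measurable_pi_lambda _ (fun v => measurable_pi_lambda _ (fun s => ?_))
    exact measurableSet_setOfPred.1 (measurableSet_le measurable_const (measurable_pi_apply _))
  have he : E = φ ⁻¹' (φ '' E) := by
    apply Set.Subset.antisymm (Set.subset_preimage_image _ _)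
    rintro X ⟨X', hX', hXX⟩
    apply h X' X _ hX'
    intro v hv s hs
    have h1 := congrFun (congrFun hXX ⟨v, hv⟩) ⟨s, hs⟩
    rw [hφ] at h1
    exact iff_of_eq h1
  rw [he]
  exact hm (Set.toFinite _).measurableSet

theorem l4b_IsLR_congr {adj : V → V → Prop} {a b c d : ℤ} {A B : Set V} {h : ℤ} {n : ℕ} {p : ℕ → V}
    (hAB : ∀ v ∈ Rc a b c d, v ∈ A → v ∈ B) (hp : IsLR adj a b c d A h n p) :
    IsLR adj a b c d B h n p :=
  ⟨hp.1, hp.2.1, fun i hi => ⟨hAB _ (hp.2.2.1 i hi).2 (hp.2.2.1 i hi).1, (hp.2.2.1 i hi).2⟩,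
    hp.2.2.2.1, hp.2.2.2.2⟩

/-- Alt depends only on the truth values of `t0 ≤ X v`, `t1 ≤ X v` in the rectangle -/
theorem l4b_alt_congr {e n : ℕ} {t0 t1 : ℝ} {a b c d : ℤ} {X X' : V → ℝ}
    (h : ∀ v ∈ Rc a b c d, (t0 ≤ X v ↔ t0 ≤ X' v) ∧ (t1 ≤ X v ↔ t1 ≤ X' v))
    (hA : Alt e n t0 t1 a b c d X) : Alt e n t0 t1 a b c d X' := by
  obtain ⟨H, len, p, h1, h2, h3, h4⟩ := hA
  refine ⟨H, len, p, ?_, ?_, h3, h4⟩
  · intro j hj hj2
    refine l4b_IsLR_congr (fun v hv hv2 => ?_) (h1 j hj hj2)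
    have h5 : X v < t1 := hv2
    show X' v < t1
    rw [← not_le] at h5 ⊢
    rwa [← (h v hv).2]
  · intro j hj hj2
    refine l4b_IsLR_congr (fun v hv hv2 => ?_) (h2 j hj hj2)
    exact (h v hv).1.1 hv2

theorem l4b_strip_congr {t w0 : ℝ} {n : ℕ} {a b c d : ℤ} {R : ℕ} {y : V} {ρ : ℕ} {X X' : V → ℝ}
    (h : ∀ v ∈ Rc a b c d, v ∉ Q y (8 * ρ) → ((t ≤ X v ↔ t ≤ X' v) ∧ (t + w0 ≤ X v ↔ t + w0 ≤ X' v)))
    (hA : StripEv t w0 n a b c d R y ρ X) : StripEv t w0 n a b c d R y ρ X' := by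
  rcases hA with ⟨k, h1, h2, h3⟩ | ⟨k, h1, h2, h3⟩
  · refine Or.inl ⟨k, h1, h2, l4b_alt_congr ?_ h3⟩
    intro v hv
    apply h v _ (Finset.disjoint_left.1 h2 hv)
    rw [m1_mem_Rc] at hv ⊢
    have : (0 : ℤ) ≤ k * ((R / 100 : ℕ) : ℤ) := by positivity
    exact ⟨⟨by linarith [hv.1.1], by linarith [hv.1.2]⟩, hv.2⟩
  · refine Or.inr ⟨k, h1, h2, l4b_alt_congr ?_ h3⟩
    intro v hv
    have hv' : sw v ∈ Rc a b (c + k * (R / 100 : ℕ)) (c + (k + 1) * (R / 100 : ℕ)) := m1_mem_Rc_sw.2 hv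
    apply h (sw v) _ (Finset.disjoint_left.1 h2 hv')
    rw [m1_mem_Rc] at hv' ⊢
    have : (0 : ℤ) ≤ k * ((R / 100 : ℕ) : ℤ) := by positivity
    exact ⟨hv'.1, ⟨by linarith [hv'.2.1], by linarith [hv'.2.2]⟩⟩

theorem meas_StripEv (t w0 : ℝ) (n : ℕ) (a b c d : ℤ) (R : ℕ) (y : V) (ρ : ℕ) :
    LocEv ((Rc a b c d : Set V) ∩ (Q y (8 * ρ) : Set V)ᶜ) {X | StripEv t w0 n a b c d R y ρ X} := by
  classical
  constructor
  · apply l4b_meas_of_finite (Rc a b c d) {t, t + w0}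
    intro X X' h hX
    refine l4b_strip_congr (fun v hv _ => ?_) hX
    exact ⟨h v hv t (by simp), h v hv (t + w0) (by simp)⟩
  · intro X X' h
    constructor
    · intro hX
      refine l4b_strip_congr (fun v hv hv2 => ?_) hX
      have := h v ⟨hv, hv2⟩
      rw [this]; exact ⟨Iff.rfl, Iff.rfl⟩
    · intro hX
      refine l4b_strip_congr (fun v hv hv2 => ?_) hX
      have := h v ⟨hv, hv2⟩
      rw [this]; exact ⟨Iff.rfl, Iff.rfl⟩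

/-- three consecutive strips crossed: one is disjoint from an interval of length 16ρ < w -/
theorem l4b_strip {a x y : ℤ} {w ρ : ℕ} {s : ℤ} (hw : 0 < w) (hρ : 16 * ρ < w) (hx : a ≤ x)
    (hxy : x + 4 * w ≤ y + 1) :
    ∃ k : ℕ, x ≤ a + k * w ∧ a + (k + 1) * w ≤ y ∧
      (s + 8 * ρ < a + k * w ∨ a + (k + 1) * w < s - 8 * ρ) := by
  obtain ⟨k, h1, h2⟩ := m1_strip (a := a) (x := x) (y := y - 2 * w) hw hx (by linarith)
  by_cases h : s - 8 * ρ ≤ a + (k + 1) * w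
  · refine ⟨k + 2, ?_, ?_, Or.inl ?_⟩
    · push_cast; nlinarith
    · push_cast; nlinarith
    · push_cast
      have : (16 * ρ : ℤ) < w := by exact_mod_cast hρ
      nlinarith
  · refine ⟨k, h1, ?_, Or.inr (not_le.1 h)⟩
    have : (0 : ℤ) ≤ 2 * w := by positivity
    linarith

theorem l4b_cls {A : Set V} {a b c d : ℤ} {w ρ : ℕ} {y : V} (hw : 0 < w) (hρ : 16 * ρ < w)
    (hA : A ⊆ (Rc a b c d : Set V)) {ℓ : ℤ}
    (hℓ : 4 * (w : ℤ) ≤ ℓ + 1) (h : ∃ x ∈ A, ∃ y ∈ A, ℓ ≤ |x.1 - y.1|) :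
    ∃ k : ℕ, a + (k + 1) * w ≤ b ∧ Disjoint (Rc (a + k * w) (a + (k + 1) * w) c d) (Q y (8 * ρ)) ∧
      (∃ x ∈ A, x.1 ≤ a + k * w) ∧ ∃ y ∈ A, a + (k + 1) * w ≤ y.1 := by
  have key : ∀ x ∈ A, ∀ x' ∈ A, x.1 + ℓ ≤ x'.1 →
      ∃ k : ℕ, a + (k + 1) * w ≤ b ∧ Disjoint (Rc (a + k * w) (a + (k + 1) * w) c d) (Q y (8 * ρ)) ∧
      (∃ x ∈ A, x.1 ≤ a + k * w) ∧ ∃ y ∈ A, a + (k + 1) * w ≤ y.1 := by
    intro x hx x' hx' hxx
    have h1 := m1_mem_Rc.1 (hA hx)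
    have h2 := m1_mem_Rc.1 (hA hx')
    obtain ⟨k, h3, h4, h5⟩ := l4b_strip (a := a) (x := x.1) (y := x'.1) (s := y.1) hw hρ h1.1.1 (by linarith)
    refine ⟨k, le_trans h4 h2.1.2, ?_, ⟨x, hx, h3⟩, ⟨x', hx', h4⟩⟩
    rw [Finset.disjoint_left]
    intro v hv hv2
    rw [m1_mem_Rc] at hv
    simp only [Q, Finset.mem_Icc, Prod.le_def] at hv2
    rcases h5 with h5 | h5
    · linarith [hv2.2.1, hv.1.1]
    · linarith [hv2.1.1, hv.1.2]
  obtain ⟨x, hx, x', hx', hxy⟩ := h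
  rcases le_total x.1 x'.1 with hle | hle
  · rw [abs_sub_comm, abs_of_nonneg (by omega)] at hxy
    exact key x hx x' hx' (by linarith)
  · rw [abs_of_nonneg (by omega)] at hxy
    exact key x' hx' x hx (by linarith)

theorem l4b_cls_sw {A : Set V} {a b c d : ℤ} {w ρ : ℕ} {y : V} (hw : 0 < w) (hρ : 16 * ρ < w)
    (hA : A ⊆ (Rc a b c d : Set V)) {ℓ : ℤ}
    (hℓ : 4 * (w : ℤ) ≤ ℓ + 1) (h : ∃ x ∈ A, ∃ y ∈ A, ℓ ≤ |x.2 - y.2|) :
    ∃ k : ℕ, c + (k + 1) * w ≤ d ∧ Disjoint (Rc a b (c + k * w) (c + (k + 1) * w)) (Q y (8 * ρ)) ∧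
      (∃ x ∈ A, x.2 ≤ c + k * w) ∧ ∃ y ∈ A, c + (k + 1) * w ≤ y.2 := by
  obtain ⟨k, h1, h2, ⟨x, h3, h4⟩, ⟨x', h5, h6⟩⟩ := l4b_cls (A := sw ⁻¹' A) (a := c) (b := d) (c := a)
    (d := b) (y := sw y) hw hρ
    (fun x hx => m1_mem_Rc_sw.1 (hA hx)) hℓ
    (by
      obtain ⟨x, hx, y, hy, hxy⟩ := h
      exact ⟨sw x, hx, sw y, hy, hxy⟩)
  refine ⟨k, h1, ?_, ⟨sw x, h3, h4⟩, ⟨sw x', h5, h6⟩⟩
  rw [Finset.disjoint_left] at h2 ⊢
  intro v hv hv2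
  apply h2 (m1_mem_Rc_sw.2 hv)
  simp only [Q, Finset.mem_Icc, Prod.le_def, sw] at hv2 ⊢
  exact ⟨⟨hv2.1.2, hv2.1.1⟩, ⟨hv2.2.2, hv2.2.1⟩⟩

theorem l4b_k_le {a b : ℤ} {R k : ℕ} (hR : 200 ≤ R) (h1 : b - a ≤ 4 * R)
    (h : a + (k + 1) * ((R / 100 : ℕ) : ℤ) ≤ b) : k ≤ 600 := by
  obtain ⟨w, hw⟩ : ∃ w, w = R / 100 := ⟨_, rfl⟩
  have h2 : 2 ≤ w := by omega
  have h3 : R ≤ 150 * w := by omega
  rw [← hw] at h
  have h4 : ((k + 1) * w : ℤ) ≤ 600 * w := by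
    have : (R : ℤ) ≤ 150 * w := by exact_mod_cast h3
    linarith
  have h5 : (k + 1) * w ≤ 600 * w := by
    zify; linarith
  have h6 : k + 1 ≤ 600 := Nat.le_of_mul_le_mul_right h5 (by omega)
  omega

theorem l4b_comp_conn (A : Set V) (x : V) : IsConn nn (comp nn A x) := by
  -- a component is connected inside itself
  have key : ∀ y, ConnIn nn A x y → ConnIn nn (comp nn A x) x y := by
    intro y h
    obtain ⟨h1, h2⟩ := h
    induction h2 with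
    | refl => exact m1_cin_refl (m1_cin_refl h1)
    | tail h3 h4 ih =>
      have h5 : ConnIn nn A x _ := ⟨h1, h3⟩
      have h6 := m1_cin_trans h5 (m1_cin_step (m1_cin_right h5) h4.2 h4.1)
      exact m1_cin_trans ih (m1_cin_step h5 h6 h4.1)
  intro y hy z hz
  exact m1_cin_trans (m1_cin_symm m1_nn_symm (key y hy)) (key z hz)

theorem l4b_comp_eq {A : Set V} {x y u v : V} (hu : u ∈ comp nn A x) (hv : v ∈ comp nn A y)
    (h : ConnIn nn A u v) : comp nn A x = comp nn A y := by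
  have h1 : ConnIn nn A x y := m1_cin_trans (m1_cin_trans hu h) (m1_cin_symm m1_nn_symm hv)
  ext z
  constructor
  · intro hz; exact m1_cin_trans (m1_cin_symm m1_nn_symm h1) hz
  · intro hz; exact m1_cin_trans h1 hz

/-- L4B (deterministic): many macroscopic components force many alternating crossings away from Q(y,8ρ) -/
theorem L4B : ∃ K : ℕ, ∀ (t w0 : ℝ), 0 ≤ w0 → ∀ (m : ℕ) (U : Finset V) (z y : V) (R ρ : ℕ), IsU R z U →
    200 ≤ R → 3200 * ρ ≤ R → ∀ a b c d : ℤ, Q z (2 * R) ∩ U = Rc a b c d → ∀ X : V → ℝ,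
    K * (m + 1) ≤ FM t U z R X → StripEv t w0 (2 * m + 1) a b c d R y ρ X := by
  classical
  obtain ⟨N0, hN0⟩ : ∃ N0 : ℕ, N0 = 601 := ⟨_, rfl⟩
  refine ⟨2 * N0, ?_⟩
  intro t w0 hw0 m U z y R ρ hU hR hρ a b c d hB X hM
  obtain ⟨S, hS⟩ : ∃ S, S = clus t (Q z (2 * R) ∩ U) (Q z R) R X := ⟨_, rfl⟩
  have hM' : 2 * N0 * (m + 1) ≤ S.card := by rw [hS]; exact hM
  have hq : 0 < R / 100 := by omega
  have hρ2 : 16 * ρ < R / 100 := by omega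
  have hz : z ∈ Rc a b c d := by
    obtain ⟨_, _, _, _, _, h2, _⟩ := hU
    rw [← hB, Finset.mem_inter]
    refine ⟨?_, h2⟩
    simp only [Q, Finset.mem_Icc, Prod.le_def]
    constructor <;> constructor <;> simp
  have hz' := m1_mem_Rc.1 hz
  have hsub : ∀ v ∈ Rc a b c d, v ∈ Q z (2 * R) := by
    intro v hv; rw [← hB] at hv; exact (Finset.mem_inter.1 hv).1
  have hab : b - a ≤ 4 * R := by
    have h1 := hsub (a, z.2) (m1_mem_Rc.2 ⟨⟨le_refl _, le_trans hz'.1.1 hz'.1.2⟩, hz'.2⟩)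
    have h2 := hsub (b, z.2) (m1_mem_Rc.2 ⟨⟨le_trans hz'.1.1 hz'.1.2, le_refl _⟩, hz'.2⟩)
    simp only [Q, Finset.mem_Icc, Prod.le_def] at h1 h2
    linarith [h1.1.1, h2.2.1]
  have hcd : d - c ≤ 4 * R := by
    have h1 := hsub (z.1, c) (m1_mem_Rc.2 ⟨hz'.1, ⟨le_refl _, le_trans hz'.2.1 hz'.2.2⟩⟩)
    have h2 := hsub (z.1, d) (m1_mem_Rc.2 ⟨hz'.1, ⟨le_trans hz'.2.1 hz'.2.2, le_refl _⟩⟩)
    simp only [Q, Finset.mem_Icc, Prod.le_def] at h1 h2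
    linarith [h1.1.2, h2.2.2]
  -- elements of S
  have hS1 : ∀ κ ∈ S, ∃ x, κ = comp nn (lev X t ∩ (Rc a b c d : Set V)) x ∧
      ∃ u ∈ κ, ∃ v ∈ κ, (R : ℤ) ≤ 8 * dI u v := by
    intro κ hκ
    rw [hS] at hκ
    unfold clus at hκ
    rw [Finset.mem_image] at hκ
    obtain ⟨x, hx, hx2⟩ := hκ
    rw [Finset.mem_filter] at hx
    obtain ⟨_, _, u, hu, v, hv, huv⟩ := hx
    rw [hB] at hx2 hu hv
    refine ⟨x, hx2.symm, u, by rw [← hx2]; exact hu, v, by rw [← hx2]; exact hv, huv⟩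
  have hS2 : ∀ κ ∈ S, κ ⊆ (Rc a b c d : Set V) ∩ lev X t := by
    intro κ hκ v hv
    obtain ⟨x, hx, _⟩ := hS1 κ hκ
    rw [hx] at hv
    have := m1_cin_right hv
    exact ⟨this.2, this.1⟩
  have hcls : ∀ κ : Set V, ∃ kd : ℕ × Bool, κ ∈ S →
      kd ∈ (Finset.range N0) ×ˢ (Finset.univ : Finset Bool) ∧
      ((kd.2 = true → a + (kd.1 + 1) * (R / 100 : ℕ) ≤ b ∧
        Disjoint (Rc (a + kd.1 * (R / 100 : ℕ)) (a + (kd.1 + 1) * (R / 100 : ℕ)) c d) (Q y (8 * ρ)) ∧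
        (∃ x ∈ κ, x.1 ≤ a + kd.1 * (R / 100 : ℕ)) ∧
        ∃ y ∈ κ, a + (kd.1 + 1) * (R / 100 : ℕ) ≤ y.1) ∧
      (kd.2 = false → c + (kd.1 + 1) * (R / 100 : ℕ) ≤ d ∧
        Disjoint (Rc a b (c + kd.1 * (R / 100 : ℕ)) (c + (kd.1 + 1) * (R / 100 : ℕ))) (Q y (8 * ρ)) ∧
        (∃ x ∈ κ, x.2 ≤ c + kd.1 * (R / 100 : ℕ)) ∧
        ∃ y ∈ κ, c + (kd.1 + 1) * (R / 100 : ℕ) ≤ y.2)) := by
    intro κ
    by_cases hκ : κ ∈ S
    · obtain ⟨_, _, x, hx, x', hx', hxy⟩ := hS1 κ hκ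
      have h4 : κ ⊆ (Rc a b c d : Set V) := fun x hx => (hS2 κ hκ hx).1
      obtain ⟨ℓ, hℓd⟩ : ∃ ℓ, ℓ = dI x x' := ⟨_, rfl⟩
      have hℓ : 4 * ((R / 100 : ℕ) : ℤ) ≤ ℓ + 1 := by
        rw [hℓd]; omega
      have hxy' : ℓ ≤ dI x x' := hℓd.le
      unfold dI at hxy'
      rcases le_max_iff.1 hxy' with h | h
      · obtain ⟨k, h5, h6, h7⟩ := l4b_cls (y := y) (ρ := ρ) hq hρ2 h4 hℓ ⟨x, hx, x', hx', h⟩
        refine ⟨(k, true), fun _ => ⟨?_, fun _ => ⟨h5, h6, h7⟩, fun h => by simp at h⟩⟩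
        have := l4b_k_le hR hab h5
        exact Finset.mem_product.2 ⟨Finset.mem_range.2 (by show k < N0; omega), Finset.mem_univ _⟩
      · obtain ⟨k, h5, h6, h7⟩ := l4b_cls_sw (y := y) (ρ := ρ) hq hρ2 h4 hℓ ⟨x, hx, x', hx', h⟩
        refine ⟨(k, false), fun _ => ⟨?_, fun h => by simp at h, fun _ => ⟨h5, h6, h7⟩⟩⟩
        have := l4b_k_le hR hcd h5
        exact Finset.mem_product.2 ⟨Finset.mem_range.2 (by show k < N0; omega), Finset.mem_univ _⟩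
    · exact ⟨(0, true), fun h => absurd h hκ⟩
  choose f hf using hcls
  obtain ⟨kd, hkd, hcard⟩ := Finset.exists_le_card_fiber_of_mul_le_card_of_maps_to
    (s := S) (t := (Finset.range N0) ×ˢ (Finset.univ : Finset Bool)) (f := f) (n := m + 1)
    (fun i hi => (hf i hi).1) ⟨(0, true), Finset.mem_product.2 ⟨Finset.mem_range.2 (by omega), Finset.mem_univ _⟩⟩
    (by rw [Finset.card_product, Finset.card_range, Finset.card_univ, Fintype.card_bool, mul_comm N0 2]; exact hM')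
  obtain ⟨k, dir⟩ := kd
  obtain ⟨T, hTd⟩ : ∃ T, T = S.filter (fun i => f i = (k, dir)) := ⟨_, rfl⟩
  rw [← hTd] at hcard
  have hTS : ∀ i ∈ T, i ∈ S := by
    intro i hi; rw [hTd] at hi; exact (Finset.mem_filter.1 hi).1
  have hTf : ∀ i ∈ T, f i = (k, dir) := by
    intro i hi; rw [hTd] at hi; exact (Finset.mem_filter.1 hi).2
  obtain ⟨i0, hi0⟩ : T.Nonempty := Finset.card_pos.1 (by omega)
  have hlt : ∀ e : ℤ, e + k * (R / 100 : ℕ) < e + (k + 1) * (R / 100 : ℕ) := by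
    intro e
    have : (0 : ℤ) < ((R / 100 : ℕ) : ℤ) := by exact_mod_cast hq
    linarith
  have h0 : ∀ e : ℤ, e ≤ e + k * (R / 100 : ℕ) := by
    intro e
    have : (0 : ℤ) ≤ k * ((R / 100 : ℕ) : ℤ) := by positivity
    linarith
  have hconn : ∀ κ ∈ T, IsConn nn κ := by
    intro κ hκ
    obtain ⟨x, hx, _⟩ := hS1 κ (hTS κ hκ)
    rw [hx]; exact l4b_comp_conn _ _
  have hsep : ∀ i ∈ T, ∀ l ∈ T, i ≠ l → ∀ x ∈ i, ∀ y ∈ l,
      ¬ ConnIn nn (lev X (min t t) ∩ (Rc a b c d : Set V)) x y := by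
    intro i hi l hl hne x hx y hy hcon
    rw [min_self] at hcon
    obtain ⟨x0, hx0, _⟩ := hS1 i (hTS i hi)
    obtain ⟨y0, hy0, _⟩ := hS1 l (hTS l hl)
    apply hne
    rw [hx0] at hx ⊢
    rw [hy0] at hy ⊢
    exact l4b_comp_eq hx hy hcon
  cases dir with
  | true =>
    left
    have hb : ∀ i ∈ T, _ := fun i hi => (hf i (hTS i hi)).2.1 (by rw [hTf i hi])
    have hb0 := (hb i0 hi0).1
    have hd0 := (hb i0 hi0).2.1
    rw [hTf i0 hi0] at hb0 hd0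
    refine ⟨k, hb0, hd0, ?_⟩
    refine m1_core T hcard (fun _ => t) (fun κ => κ) (a := a) (b := b) (h0 a) hb0 (hlt a)
      (fun i _ => ⟨le_refl _, by linarith⟩) (fun i hi => hS2 i (hTS i hi)) hconn ?_ ?_ hsep
    · intro i hi
      have := (hb i hi).2.2.1
      rwa [hTf i hi] at this
    · intro i hi
      have := (hb i hi).2.2.2
      rwa [hTf i hi] at this
  | false =>
    right
    have hb : ∀ i ∈ T, _ := fun i hi => (hf i (hTS i hi)).2.2 (by rw [hTf i hi])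
    have hb0 := (hb i0 hi0).1
    have hd0 := (hb i0 hi0).2.1
    rw [hTf i0 hi0] at hb0 hd0
    refine ⟨k, hb0, hd0, ?_⟩
    refine m1_core_sw T hcard (fun _ => t) (fun κ => κ) (c := c) (d := d) (h0 c) hb0 (hlt c)
      (fun i _ => ⟨le_refl _, by linarith⟩) (fun i hi => hS2 i (hTS i hi)) hconn ?_ ?_ hsep
    · intro i hi
      have := (hb i hi).2.2.1
      rwa [hTf i hi] at this
    · intro i hi
      have := (hb i hi).2.2.2
      rwa [hTf i hi] at this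

end GF
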