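import Pool.Agent.Lib.MP_acf58e_gf.G3

/-! MP_acf58e_pr, row G4: Cameron-Martin. -/

open MeasureTheory Set ProbabilityTheory
open scoped ENNReal NNReal

namespace GF

theorem lin_lap (D : Finset V) (β : V → ℝ) {φ : V → ℝ} (hφ : ∀ x ∉ D, φ x = 0) {X : V → ℝ}
    (hX : ∀ x ∉ D, X x = β x) : ∑ x ∈ D, φ x * lap X x = lin D β D (lap φ) X := by
  have h1 := sum_lap_comm (D := D) (φ := φ) (ψ := fun x => X x - hx D β x) hφ
    (fun x h => by rw [hX x h, hx_off h, sub_self])
  have h2 : ∑ x ∈ D, φ x * lap (fun x => X x - hx D β x) x = ∑ x ∈ D, φ x * lap X x := by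
    apply Finset.sum_congr rfl
    intro x hxD
    have h3 := hx_harm D β hxD
    have : lap (fun x => X x - hx D β x) x = lap X x := by
      unfold lap
      have e : av (fun x => X x - hx D β x) x = av X x - av (hx D β) x := by unfold av; ring
      rw [e, ← h3]; ring
    rw [this]
  rw [← h2, h1]
  unfold lin
  exact Finset.sum_congr rfl (fun x _ => by ring)

theorem energy_neg (D : Finset V) (φ : V → ℝ) : energy D (fun x => - φ x) = energy D φ := by
  unfold energy
  congr 2 <;> exact Finset.sum_congr rfl (fun x _ => by ring)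

theorem cm_density (D : Finset V) (β : V → ℝ) {φ : V → ℝ} (hφ : ∀ x ∉ D, φ x = 0)
    {F : (V → ℝ) → ℝ≥0∞} (hF : Measurable F) :
    ∫⁻ X, F (fun x => X x + φ x) ∂gam D β
      = ∫⁻ X, F X * ENNReal.ofReal (Real.exp (- lin D β D (lap φ) X - energy D φ)) ∂gam D β := by
  have hm1 : Measurable (fun X : V → ℝ => F (fun x => X x + φ x)) := hF.comp (measurable_shift φ)
  have hm2 : Measurable (fun X : V → ℝ =>
      F X * ENNReal.ofReal (Real.exp (- lin D β D (lap φ) X - energy D φ))) :=
    hF.mul (ENNReal.measurable_ofReal.comp (Real.measurable_exp.comp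
      ((measurable_lin D β D (lap φ)).neg.sub_const _)))
  rw [lintegral_gam D β hm1, lintegral_gam D β hm2]
  congr 1
  -- the integrand as a function of the translated point
  have key : ∀ y : D → ℝ, F (fun x => glue D β y x + φ x) * wt D (glue D β y)
      = (fun y' : D → ℝ => F (glue D β y')
          * ENNReal.ofReal (Real.exp (- lin D β D (lap φ) (glue D β y') - energy D φ))
          * wt D (glue D β y')) (y + fun x : D => φ x) := by
    intro y
    have e1 : glue D β (y + fun x : D => φ x) = fun x => glue D β y x + φ x := by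
      funext x
      rw [glue_apply, glue_apply]
      by_cases h : x ∈ D
      · simp only [h, dif_pos, Pi.add_apply]
      · simp only [h, dif_neg, not_false_eq_true, hφ x h]; ring
    have hX : ∀ x ∉ D, glue D β (y + fun x : D => φ x) x = β x := by
      intro x h; rw [glue_apply]; simp [h]
    have e2 := lin_lap D β hφ hX
    show _ = F (glue D β (y + fun x : D => φ x))
          * ENNReal.ofReal (Real.exp (- lin D β D (lap φ) (glue D β (y + fun x : D => φ x)) - energy D φ))
          * wt D (glue D β (y + fun x : D => φ x))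
    rw [mul_assoc, ← e2, e1]
    congr 1
    unfold wt
    rw [← ENNReal.ofReal_mul (Real.exp_pos _).le, ← Real.exp_add]
    congr 2
    have e3 := energy_add_parts (D := D) (fun x => glue D β y x + φ x) (φ := fun x => - φ x)
      (fun x h => by rw [hφ x h, neg_zero])
    have e4 : (fun x => glue D β y x + φ x + -φ x) = glue D β y := by
      funext x; ring
    have e5 : ∑ x ∈ D, -φ x * lap (fun x => glue D β y x + φ x) x
        = - ∑ x ∈ D, φ x * lap (fun x => glue D β y x + φ x) x := by
      rw [← Finset.sum_neg_distrib]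
      exact Finset.sum_congr rfl (fun x _ => by ring)
    rw [e4, energy_neg, e5] at e3
    rw [e3]
    ring
  simp_rw [key]
  rw [lintegral_add_right_eq_self (fun y' : D → ℝ => F (glue D β y')
          * ENNReal.ofReal (Real.exp (- lin D β D (lap φ) (glue D β y') - energy D φ))
          * wt D (glue D β y'))]

/-- the variance of the exponent is twice the energy -/
theorem vr_lap (D : Finset V) {φ : V → ℝ} (hφ : ∀ x ∉ D, φ x = 0) : vr D D (lap φ) = 2 * energy D φ := by
  have h1 := energy_pot D (lap φ)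
  have h2 : ∀ x, pot D (lap φ) x + φ x = 0 := by
    apply zero_of_harm (D := D)
    · intro x h; rw [pot_off h, hφ x h, add_zero]
    · intro x h
      have h3 := lap_pot (ψ := lap φ) h
      have e : av (fun x => pot D (lap φ) x + φ x) x = av (pot D (lap φ)) x + av φ x := by
        unfold av; ring
      rw [e]
      unfold lap at h3 ⊢
      linarith
  have h3 : pot D (lap φ) = fun x => - φ x := by
    funext x
    linarith [h2 x]
  rw [h3, energy_neg] at h1
  unfold vr
  linarith

theorem lintegral_exp_cm (D : Finset V) (β : V → ℝ) {φ : V → ℝ} (hφ : ∀ x ∉ D, φ x = 0) (t : ℝ) :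
    ∫⁻ X, ENNReal.ofReal (Real.exp (t * (- lin D β D (lap φ) X - energy D φ))) ∂gam D β
      = ENNReal.ofReal (Real.exp ((t ^ 2 - t) * energy D φ)) := by
  have h := lintegral_exp_lin D β D (fun x => -t * lap φ x)
  simp_rw [lin_smul, vr_smul, vr_lap D hφ] at h
  have e : ∀ X, ENNReal.ofReal (Real.exp (t * (- lin D β D (lap φ) X - energy D φ)))
      = ENNReal.ofReal (Real.exp (- t * energy D φ)) * ENNReal.ofReal (Real.exp (-t * lin D β D (lap φ) X)) := by
    intro X
    rw [← ENNReal.ofReal_mul (Real.exp_pos _).le, ← Real.exp_add]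
    congr 2
    ring
  simp_rw [e]
  have hmm : Measurable (fun X => ENNReal.ofReal (Real.exp (-t * lin D β D (lap φ) X))) :=
    ENNReal.measurable_ofReal.comp (Real.measurable_exp.comp
      ((measurable_lin D β D (lap φ)).const_mul _))
  rw [lintegral_const_mul _ hmm]
  have h' : ∫⁻ X, ENNReal.ofReal (Real.exp (-t * lin D β D (lap φ) X)) ∂gam D β
      = ENNReal.ofReal (Real.exp ((-t) ^ 2 * (2 * energy D φ) / 2)) := h
  rw [h', ← ENNReal.ofReal_mul (Real.exp_pos _).le, ← Real.exp_add]
  congr 2
  ring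

/-- function version of cm_sqrt -/
theorem cm_sqrt_fun (D : Finset V) (β : V → ℝ) {φ : V → ℝ} (hφ : ∀ x ∉ D, φ x = 0)
    {F : (V → ℝ) → ℝ≥0∞} (hF : Measurable F) :
    ∫⁻ X, F X ∂gam D β ≤ (∫⁻ X, (F (fun x => X x + φ x)) ^ (2:ℝ) ∂gam D β) ^ (1/2 : ℝ)
      * ENNReal.ofReal (Real.exp (energy D φ)) := by
  obtain ⟨g, hg⟩ : ∃ g : (V → ℝ) → ℝ, g = fun X => - lin D β D (lap φ) X - energy D φ := ⟨_, rfl⟩
  have hgm : Measurable g := by
    rw [hg]; exact (measurable_lin D β D (lap φ)).neg.sub_const _
  have hexp : ∀ c : ℝ, Measurable (fun X => ENNReal.ofReal (Real.exp (c * g X))) := fun c =>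
    ENNReal.measurable_ofReal.comp (Real.measurable_exp.comp (hgm.const_mul c))
  have e1 : ∀ X, F X = (F X * ENNReal.ofReal (Real.exp ((1/2) * g X)))
      * ENNReal.ofReal (Real.exp (-(1/2) * g X)) := by
    intro X
    rw [mul_assoc, ← ENNReal.ofReal_mul (Real.exp_pos _).le, ← Real.exp_add]
    have : (1/2) * g X + -(1/2) * g X = 0 := by ring
    rw [this, Real.exp_zero, ENNReal.ofReal_one, mul_one]
  have hH := ENNReal.lintegral_mul_le_Lp_mul_Lq (gam D β) Real.HolderConjugate.two_two
    (f := fun X => F X * ENNReal.ofReal (Real.exp ((1/2) * g X)))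
    (g := fun X => ENNReal.ofReal (Real.exp (-(1/2) * g X)))
    (hF.mul (hexp _)).aemeasurable (hexp _).aemeasurable
  have e2 : ∫⁻ X, F X ∂gam D β = ∫⁻ X, ((fun X => F X * ENNReal.ofReal (Real.exp ((1/2) * g X))) *
      (fun X => ENNReal.ofReal (Real.exp (-(1/2) * g X)))) X ∂gam D β := by
    apply lintegral_congr
    intro X
    exact e1 X
  rw [e2]
  refine hH.trans (mul_le_mul' (le_of_eq ?_) (le_of_eq ?_))
  · congr 1
    have hF2 : Measurable (fun X => F X ^ (2:ℝ)) := hF.pow_const _
    rw [cm_density D β hφ hF2]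
    apply lintegral_congr
    intro X
    rw [ENNReal.mul_rpow_of_nonneg _ _ (by norm_num)]
    congr 1
    rw [ENNReal.ofReal_rpow_of_pos (Real.exp_pos _), ← Real.exp_mul, hg]
    congr 2
    ring
  · have e3 : ∫⁻ X, (ENNReal.ofReal (Real.exp (-(1/2) * g X))) ^ (2:ℝ) ∂gam D β
        = ENNReal.ofReal (Real.exp (2 * energy D φ)) := by
      have := lintegral_exp_cm D β hφ (-1)
      have e4 : ∀ X, (ENNReal.ofReal (Real.exp (-(1/2) * g X))) ^ (2:ℝ)
          = ENNReal.ofReal (Real.exp (-1 * (- lin D β D (lap φ) X - energy D φ))) := by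
        intro X
        rw [ENNReal.ofReal_rpow_of_pos (Real.exp_pos _), ← Real.exp_mul, hg]
        congr 2
        ring
      simp_rw [e4]
      rw [this]
      congr 2
      ring
    rw [e3, ENNReal.ofReal_rpow_of_pos (Real.exp_pos _), ← Real.exp_mul]
    congr 2
    ring

theorem cm_sqrt (D : Finset V) (β : V → ℝ) {φ : V → ℝ} (hφ : ∀ x ∉ D, φ x = 0)
    {A : Set (V → ℝ)} (hA : MeasurableSet A) :
    (gam D β).real A ≤ Real.sqrt ((gam D β).real {X | (fun x => X x + φ x) ∈ A}) * Real.exp (energy D φ) := by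
  have hA' : MeasurableSet {X : V → ℝ | (fun x => X x + φ x) ∈ A} := measurable_shift φ hA
  have h := cm_sqrt_fun D β hφ (F := A.indicator (fun _ => 1)) (measurable_const.indicator hA)
  have e1 : ∫⁻ X, A.indicator (fun _ => (1:ℝ≥0∞)) X ∂gam D β = gam D β A := by
    rw [lintegral_indicator hA]; simp
  have e2 : ∫⁻ X, (A.indicator (fun _ => (1:ℝ≥0∞)) (fun x => X x + φ x)) ^ (2:ℝ) ∂gam D β
      = gam D β {X : V → ℝ | (fun x => X x + φ x) ∈ A} := by
    have e3 : ∀ X : V → ℝ, (A.indicator (fun _ => (1:ℝ≥0∞)) (fun x => X x + φ x)) ^ (2:ℝ)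
        = ({X : V → ℝ | (fun x => X x + φ x) ∈ A}).indicator (fun _ => 1) X := by
      intro X
      by_cases h : (fun x => X x + φ x) ∈ A
      · rw [Set.indicator_of_mem h, Set.indicator_of_mem (by exact h)]; simp
      · rw [Set.indicator_of_notMem h, Set.indicator_of_notMem (by exact h)]
        exact ENNReal.zero_rpow_of_pos (by norm_num)
    simp_rw [e3]
    rw [lintegral_indicator hA']; simp
  rw [e1, e2] at h
  have h2 := ENNReal.toReal_mono (ENNReal.mul_ne_top
    (ENNReal.rpow_ne_top_of_nonneg (by norm_num) (measure_ne_top _ _)) ENNReal.ofReal_ne_top) h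
  rw [ENNReal.toReal_mul, ENNReal.toReal_ofReal (Real.exp_pos _).le, ← ENNReal.toReal_rpow] at h2
  rw [Real.sqrt_eq_rpow]
  exact h2

/-- the same in the other direction -/
theorem cm_sqrt' (D : Finset V) (β : V → ℝ) {φ : V → ℝ} (hφ : ∀ x ∉ D, φ x = 0)
    {A : Set (V → ℝ)} (hA : MeasurableSet A) :
    (gam D β).real {X | (fun x => X x + φ x) ∈ A} ≤ Real.sqrt ((gam D β).real A) * Real.exp (energy D φ) := by
  have hA' : MeasurableSet {X : V → ℝ | (fun x => X x + φ x) ∈ A} := measurable_shift φ hA
  have h := cm_sqrt D β (φ := fun x => - φ x) (fun x h => by rw [hφ x h, neg_zero]) hA'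
  rw [energy_neg] at h
  have e : {X : V → ℝ | (fun x => X x + -φ x) ∈ {X : V → ℝ | (fun x => X x + φ x) ∈ A}} = A := by
    ext X
    simp only [mem_ofPred_eq]
    have : (fun x => X x + -φ x + φ x) = X := by funext x; ring
    rw [this]
  rw [e] at h
  exact h

theorem integral_abs_le_sqrt {Ω : Type*} [MeasurableSpace Ω] {μ : Measure Ω} [IsProbabilityMeasure μ]
    {g : Ω → ℝ} (hg : MemLp g 2 μ) : ∫ x, |g x| ∂μ ≤ Real.sqrt (∫ x, (g x) ^ 2 ∂μ) := by
  apply Real.le_sqrt_of_sq_le
  have hL : MemLp (fun X => |g X|) 2 μ := hg.abs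
  have h := variance_nonneg (fun X => |g X|) μ
  rw [variance_eq_sub hL] at h
  have e : ∫ X, ((fun X => |g X|) ^ 2) X ∂μ = ∫ X, (g X) ^ 2 ∂μ := by
    apply integral_congr_ae
    filter_upwards with X
    simp [sq_abs]
  rw [e] at h
  linarith

/-- bounded functionals -/
theorem cm_tv (D : Finset V) (β : V → ℝ) {φ : V → ℝ} (hφ : ∀ x ∉ D, φ x = 0) (he : energy D φ ≤ 1)
    {F : (V → ℝ) → ℝ} (hF : Measurable F) {M : ℝ} (h0 : ∀ X, 0 ≤ F X) (hM : ∀ X, F X ≤ M) :
    |∫ X, F (fun x => X x + φ x) ∂gam D β - ∫ X, F X ∂gam D β| ≤ 4 * M * Real.sqrt (energy D φ) := by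
  have hM0 : 0 ≤ M := (h0 (fun _ => 0)).trans (hM _)
  obtain ⟨g, hg⟩ : ∃ g : (V → ℝ) → ℝ, g = fun X => - lin D β D (lap φ) X - energy D φ := ⟨_, rfl⟩
  have hgm : Measurable g := by
    rw [hg]; exact (measurable_lin D β D (lap φ)).neg.sub_const _
  have hem : ∀ c : ℝ, Measurable (fun X => Real.exp (c * g X)) := fun c =>
    Real.measurable_exp.comp (hgm.const_mul c)
  have hlint : ∀ t : ℝ, ∫⁻ X, ENNReal.ofReal (Real.exp (t * g X)) ∂gam D β
      = ENNReal.ofReal (Real.exp ((t ^ 2 - t) * energy D φ)) := by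
    intro t; rw [hg]; exact lintegral_exp_cm D β hφ t
  have hint : ∀ t : ℝ, Integrable (fun X => Real.exp (t * g X)) (gam D β) := by
    intro t
    rw [← lintegral_ofReal_ne_top_iff_integrable (hem t).aestronglyMeasurable
      (Filter.Eventually.of_forall (fun X => (Real.exp_pos _).le)), hlint]
    exact ENNReal.ofReal_ne_top
  have hval : ∀ t : ℝ, ∫ X, Real.exp (t * g X) ∂gam D β = Real.exp ((t ^ 2 - t) * energy D φ) := by
    intro t
    rw [integral_eq_lintegral_of_nonneg_ae
      (Filter.Eventually.of_forall (fun X => (Real.exp_pos _).le)) (hem t).aestronglyMeasurable,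
      hlint, ENNReal.toReal_ofReal (Real.exp_pos _).le]
  have i1 : Integrable (fun X => Real.exp (g X)) (gam D β) := by simpa using hint 1
  have i2 : Integrable (fun X => Real.exp (2 * g X)) (gam D β) := hint 2
  have v1 : ∫ X, Real.exp (g X) ∂gam D β = 1 := by simpa using hval 1
  have v2 : ∫ X, Real.exp (2 * g X) ∂gam D β = Real.exp (2 * energy D φ) := by
    rw [hval 2]; congr 1; ring
  have hem1 : Measurable (fun X => Real.exp (g X)) := Real.measurable_exp.comp hgm
  -- the density
  have e1 : ∫ X, F (fun x => X x + φ x) ∂gam D β = ∫ X, F X * Real.exp (g X) ∂gam D β := by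
    rw [integral_eq_lintegral_of_nonneg_ae (Filter.Eventually.of_forall (fun X => h0 _))
      (hF.comp (measurable_shift φ)).aestronglyMeasurable,
      integral_eq_lintegral_of_nonneg_ae (Filter.Eventually.of_forall
        (fun X => mul_nonneg (h0 _) (Real.exp_pos _).le)) (hF.mul hem1).aestronglyMeasurable]
    congr 1
    have h1 : Measurable (fun X => ENNReal.ofReal (F X)) := ENNReal.measurable_ofReal.comp hF
    rw [cm_density D β hφ h1]
    apply lintegral_congr
    intro X
    rw [ENNReal.ofReal_mul (h0 _), hg]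
  have iF : Integrable F (gam D β) := by
    apply (integrable_const M).mono' hF.aestronglyMeasurable
    filter_upwards with X
    rw [Real.norm_eq_abs, abs_of_nonneg (h0 X)]
    exact hM X
  have iFe : Integrable (fun X => F X * Real.exp (g X)) (gam D β) := by
    apply (i1.const_mul M).mono' (hF.mul hem1).aestronglyMeasurable
    filter_upwards with X
    show |F X * Real.exp (g X)| ≤ M * Real.exp (g X)
    rw [abs_of_nonneg (mul_nonneg (h0 _) (Real.exp_pos _).le)]
    exact mul_le_mul_of_nonneg_right (hM X) (Real.exp_pos _).le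
  rw [e1, ← integral_sub iFe iF]
  -- second moment of `exp g - 1`
  have hg2 : MemLp (fun X => Real.exp (g X) - 1) 2 (gam D β) := by
    have : MemLp (fun X => Real.exp (g X)) 2 (gam D β) := by
      rw [memLp_two_iff_integrable_sq hem1.aestronglyMeasurable]
      refine i2.congr ?_
      filter_upwards with X
      rw [← Real.exp_nat_mul]
      norm_num
    exact this.sub (memLp_const 1)
  have hsq : ∫ X, (Real.exp (g X) - 1) ^ 2 ∂gam D β = Real.exp (2 * energy D φ) - 1 := by
    have e2 : ∀ X, (Real.exp (g X) - 1) ^ 2 = Real.exp (2 * g X) - 2 * Real.exp (g X) + 1 := by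
      intro X
      have : Real.exp (2 * g X) = Real.exp (g X) ^ 2 := by
        rw [← Real.exp_nat_mul]; norm_num
      rw [this]; ring
    simp_rw [e2]
    have i3 : Integrable (fun X => Real.exp (2 * g X) - 2 * Real.exp (g X)) (gam D β) :=
      i2.sub (i1.const_mul 2)
    rw [integral_add i3 (integrable_const _),
      integral_sub i2 (i1.const_mul 2), integral_const_mul, v1, v2]
    simp
    ring
  have h3 : |∫ X, (F X * Real.exp (g X) - F X) ∂gam D β| ≤ M * ∫ X, |Real.exp (g X) - 1| ∂gam D β := by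
    rw [← integral_const_mul]
    refine (abs_integral_le_integral_abs).trans ?_
    apply integral_mono (iFe.sub iF).abs ((i1.sub (integrable_const 1)).abs.const_mul M)
    intro X
    have : F X * Real.exp (g X) - F X = F X * (Real.exp (g X) - 1) := by ring
    show |F X * Real.exp (g X) - F X| ≤ M * |Real.exp (g X) - 1|
    rw [this, abs_mul, abs_of_nonneg (h0 X)]
    exact mul_le_mul_of_nonneg_right (hM X) (abs_nonneg _)
  have h4 := integral_abs_le_sqrt hg2
  rw [hsq] at h4
  have he0 := energy_nonneg D φ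
  have h5 : Real.exp (2 * energy D φ) - 1 ≤ 16 * energy D φ := by
    have h6 : 1 - 2 * energy D φ ≤ Real.exp (-(2 * energy D φ)) := by
      linarith [Real.add_one_le_exp (-(2 * energy D φ))]
    have h7 : Real.exp (2 * energy D φ) * Real.exp (-(2 * energy D φ)) = 1 := by
      rw [← Real.exp_add]; simp
    have h8 : Real.exp (2 * energy D φ) * (1 - 2 * energy D φ) ≤ 1 := by
      calc _ ≤ Real.exp (2 * energy D φ) * Real.exp (-(2 * energy D φ)) :=
            mul_le_mul_of_nonneg_left h6 (Real.exp_pos _).le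
        _ = 1 := h7
    have h9 : Real.exp (2 * energy D φ) ≤ 8 := by
      have h10 : Real.exp (2 * energy D φ) ≤ Real.exp 2 := Real.exp_le_exp.2 (by linarith)
      have h11 : Real.exp 2 = Real.exp 1 ^ 2 := by rw [← Real.exp_nat_mul]; norm_num
      have h12 := Real.exp_one_lt_d9
      have h13 := Real.exp_pos 1
      rw [h11] at h10
      nlinarith
    nlinarith
  have h6 : Real.sqrt (Real.exp (2 * energy D φ) - 1) ≤ 4 * Real.sqrt (energy D φ) := by
    have : (4:ℝ) * Real.sqrt (energy D φ) = Real.sqrt (16 * energy D φ) := by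
      rw [Real.sqrt_mul (by norm_num), show (16:ℝ) = 4 ^ 2 by norm_num, Real.sqrt_sq (by norm_num)]
    rw [this]
    exact Real.sqrt_le_sqrt h5
  calc |∫ X, (F X * Real.exp (g X) - F X) ∂gam D β| ≤ M * ∫ X, |Real.exp (g X) - 1| ∂gam D β := h3
    _ ≤ M * (4 * Real.sqrt (energy D φ)) := mul_le_mul_of_nonneg_left (h4.trans h6) hM0
    _ = 4 * M * Real.sqrt (energy D φ) := by ring

theorem cm_tv_set (D : Finset V) (β : V → ℝ) {φ : V → ℝ} (hφ : ∀ x ∉ D, φ x = 0) (he : energy D φ ≤ 1)
    {A : Set (V → ℝ)} (hA : MeasurableSet A) :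
    |(gam D β).real {X | (fun x => X x + φ x) ∈ A} - (gam D β).real A| ≤ 4 * Real.sqrt (energy D φ) := by
  have hA' : MeasurableSet {X : V → ℝ | (fun x => X x + φ x) ∈ A} := measurable_shift φ hA
  have h := cm_tv D β hφ he (F := A.indicator (fun _ => (1:ℝ))) (measurable_const.indicator hA)
    (M := 1) (fun X => Set.indicator_nonneg (fun _ _ => zero_le_one) X)
    (fun X => Set.indicator_le_self' (fun _ _ => zero_le_one) X)
  have e1 : ∫ X, A.indicator (fun _ => (1:ℝ)) X ∂gam D β = (gam D β).real A := by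
    rw [integral_indicator hA]; simp
  have e2 : ∫ X : V → ℝ, A.indicator (fun _ => (1:ℝ)) (fun x => X x + φ x) ∂gam D β
      = (gam D β).real {X : V → ℝ | (fun x => X x + φ x) ∈ A} := by
    have e3 : ∀ X : V → ℝ, A.indicator (fun _ => (1:ℝ)) (fun x => X x + φ x)
        = ({X : V → ℝ | (fun x => X x + φ x) ∈ A}).indicator (fun _ => 1) X := by
      intro X
      by_cases h : (fun x => X x + φ x) ∈ A
      · rw [Set.indicator_of_mem h, Set.indicator_of_mem (by exact h)]
      · rw [Set.indicator_of_notMem h, Set.indicator_of_notMem (by exact h)]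
    simp_rw [e3]
    rw [integral_indicator hA']; simp
  rw [e1, e2] at h
  linarith

end GF
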