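import Pool.Agent.Lib.MP_acf58e_gf.G0b

/-! MP_acf58e_pr, module P, row P7: cut-off functions. -/

open Set

namespace GF

/-- cut-off: 1 on Q z r, 0 where dI x z ≥ R -/
noncomputable def cut (z : V) (r R : ℝ) (x : V) : ℝ := max 0 (min 1 ((R - dI x z) / (R - r)))

theorem cut_one {z x : V} {r R : ℝ} (hrR : r < R) (h : (dI x z : ℝ) ≤ r) : cut z r R x = 1 := by
  have h0 : 0 < R - r := by linarith
  have h1 : 1 ≤ (R - dI x z) / (R - r) := by
    rw [le_div_iff₀ h0]; linarith
  unfold cut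
  rw [min_eq_left h1, max_eq_right zero_le_one]

theorem cut_zero {z x : V} {r R : ℝ} (hrR : r < R) (h : R ≤ dI x z) : cut z r R x = 0 := by
  have h0 : 0 < R - r := by linarith
  have h1 : (R - dI x z) / (R - r) ≤ 0 := div_nonpos_of_nonpos_of_nonneg (by linarith) h0.le
  unfold cut
  exact max_eq_left ((min_le_right _ _).trans h1)

theorem cut_nonneg (z x : V) (r R : ℝ) : 0 ≤ cut z r R x := le_max_left _ _

theorem cut_le_one (z x : V) (r R : ℝ) : cut z r R x ≤ 1 :=
  max_le zero_le_one (min_le_left _ _)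

namespace P7r

theorem dI_tri (x y z : V) : dI x z ≤ dI x y + dI y z := by
  have h1 := abs_add_le (x.1 - y.1) (y.1 - z.1)
  have h2 := abs_add_le (x.2 - y.2) (y.2 - z.2)
  rw [sub_add_sub_cancel] at h1 h2
  have h3 : |x.1 - y.1| ≤ dI x y := le_max_left _ _
  have h4 : |x.2 - y.2| ≤ dI x y := le_max_right _ _
  have h5 : |y.1 - z.1| ≤ dI y z := le_max_left _ _
  have h6 : |y.2 - z.2| ≤ dI y z := le_max_right _ _
  exact max_le (by linarith) (by linarith)

theorem dI_comm (x y : V) : dI x y = dI y x := by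
  unfold dI
  rw [abs_sub_comm x.1, abs_sub_comm x.2]

theorem dI_nn {x y : V} (h : nn x y) : dI x y ≤ 1 := by
  have h1 := abs_nonneg (x.1 - y.1)
  have h2 := abs_nonneg (x.2 - y.2)
  unfold nn at h
  exact max_le (by linarith) (by linarith)

theorem nn_E (x : V) : nn x (nE x) := by
  simp [nn, nE]

theorem nn_N (x : V) : nn x (nN x) := by
  simp [nn, nN]

theorem mem_Q {z x : V} {M : ℤ} : x ∈ Q z M ↔ dI x z ≤ M := by
  unfold Q dI
  rw [Finset.mem_Icc, Prod.le_def, Prod.le_def, max_le_iff, abs_le, abs_le]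
  constructor
  · rintro ⟨⟨h1, h2⟩, h3, h4⟩
    simp only at h1 h2 h3 h4
    exact ⟨⟨by linarith, by linarith⟩, by linarith, by linarith⟩
  · rintro ⟨⟨h1, h2⟩, h3, h4⟩
    exact ⟨⟨by show z.1 - M ≤ x.1; linarith, by show z.2 - M ≤ x.2; linarith⟩,
      by show x.1 ≤ z.1 + M; linarith, by show x.2 ≤ z.2 + M; linarith⟩

theorem card_Q (z : V) {M : ℤ} (hM : 0 ≤ M) : ((Q z M).card : ℝ) = (2 * M + 1) ^ 2 := by
  unfold Q
  rw [Finset.card_Icc_prod, Int.card_Icc, Int.card_Icc]
  simp only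
  rw [show z.1 + M + 1 - (z.1 - M) = 2 * M + 1 by ring, show z.2 + M + 1 - (z.2 - M) = 2 * M + 1 by ring]
  have h : (((2 * M + 1).toNat : ℕ) : ℝ) = 2 * M + 1 := by
    have h1 : (((2 * M + 1).toNat : ℕ) : ℤ) = 2 * M + 1 := Int.toNat_of_nonneg (by linarith)
    have h2 := congrArg (fun k : ℤ => (k : ℝ)) h1
    simp only [Int.cast_natCast] at h2
    rw [h2]
    push_cast
    ring
  push_cast
  rw [h]
  ring

/-- energy of a function supported in a ball with bounded increments -/
theorem energy_le {D : Finset V} {z : V} {R B : ℝ} (hR : 1 ≤ R) {h : V → ℝ}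
    (h0 : ∀ x, R ≤ dI x z → h x = 0) (hB : ∀ x y, nn x y → |h x - h y| ≤ B) :
    energy D h ≤ 25 * (R ^ 2 * B ^ 2) := by
  set M : ℤ := ⌊R⌋ + 1 with hM
  have hMR : (M : ℝ) ≤ R + 1 := by
    rw [hM]; push_cast
    linarith [Int.floor_le R]
  have hM0 : 0 ≤ M := by
    have : (0 : ℤ) ≤ ⌊R⌋ := Int.floor_nonneg.mpr (by linarith)
    linarith
  have hout : ∀ x, x ∉ Q z M → ∀ y, nn x y → h y - h x = 0 := by
    intro x hx y hxy
    rw [mem_Q, not_le] at hx
    have h1 : M + 1 ≤ dI x z := hx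
    have h2 : ((M : ℝ)) + 1 ≤ dI x z := by exact_mod_cast h1
    have h3 : R < M := by
      rw [hM]; push_cast
      exact Int.lt_floor_add_one R
    have h4 := dI_tri x y z
    have h5 := dI_nn hxy
    have h6 : (dI x z : ℝ) ≤ 1 + dI y z := by
      have : dI x z ≤ 1 + dI y z := by linarith
      exact_mod_cast this
    rw [h0 y (by linarith), h0 x (by linarith), sub_zero]
  have hcard : ((Q z M).card : ℝ) ≤ 25 * R ^ 2 := by
    rw [card_Q z hM0]
    have h1 : (0 : ℝ) ≤ M := by exact_mod_cast hM0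
    have h2 : 2 * (M : ℝ) + 1 ≤ 5 * R := by linarith
    nlinarith
  have key : ∀ (S : Finset V) (e : V → V), (∀ x, nn x (e x)) →
      ∑ x ∈ S, (h (e x) - h x) ^ 2 ≤ 25 * R ^ 2 * B ^ 2 := by
    intro S e he
    classical
    have h1 : ∑ x ∈ S, (h (e x) - h x) ^ 2 = ∑ x ∈ S.filter (fun x => x ∈ Q z M), (h (e x) - h x) ^ 2 := by
      rw [Finset.sum_filter]
      apply Finset.sum_congr rfl
      intro x _
      by_cases hx : x ∈ Q z M
      · rw [if_pos hx]
      · rw [if_neg hx, hout x hx _ (he x)]; ring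
    rw [h1]
    calc ∑ x ∈ S.filter (fun x => x ∈ Q z M), (h (e x) - h x) ^ 2
        ≤ ∑ x ∈ S.filter (fun x => x ∈ Q z M), B ^ 2 := by
          apply Finset.sum_le_sum
          intro x _
          have h2 := hB x (e x) (he x)
          rw [abs_sub_comm] at h2
          rw [← sq_abs]
          exact pow_le_pow_left₀ (abs_nonneg _) h2 2
      _ = ((S.filter (fun x => x ∈ Q z M)).card : ℝ) * B ^ 2 := by
          rw [Finset.sum_const, nsmul_eq_mul]
      _ ≤ ((Q z M).card : ℝ) * B ^ 2 := by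
          have h3 : (S.filter (fun x => x ∈ Q z M)).card ≤ (Q z M).card :=
            Finset.card_le_card (fun x hx => (Finset.mem_filter.1 hx).2)
          have h4 : ((S.filter (fun x => x ∈ Q z M)).card : ℝ) ≤ (Q z M).card := by
            exact_mod_cast h3
          exact mul_le_mul_of_nonneg_right h4 (sq_nonneg _)
      _ ≤ 25 * R ^ 2 * B ^ 2 := mul_le_mul_of_nonneg_right hcard (sq_nonneg _)
  have k1 := key (eH D) nE nn_E
  have k2 := key (eV D) nN nn_N
  unfold energy
  linarith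

end P7r

theorem cut_lip (z : V) {r R : ℝ} (hrR : r < R) {x y : V} (h : dI x y ≤ 1) :
    |cut z r R x - cut z r R y| ≤ (R - r)⁻¹ := by
  have h0 : 0 < R - r := by linarith
  unfold cut
  have h1 : |max 0 (min 1 ((R - dI x z) / (R - r))) - max 0 (min 1 ((R - dI y z) / (R - r)))|
      ≤ |min 1 ((R - dI x z) / (R - r)) - min 1 ((R - dI y z) / (R - r))| := by
    refine (abs_max_sub_max_le_max 0 (min 1 ((R - dI x z) / (R - r))) 0
      (min 1 ((R - dI y z) / (R - r)))).trans ?_
    rw [sub_zero, abs_zero]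
    exact max_le (abs_nonneg _) le_rfl
  have h2 : |min 1 ((R - dI x z) / (R - r)) - min 1 ((R - dI y z) / (R - r))|
      ≤ |(R - dI x z) / (R - r) - (R - dI y z) / (R - r)| := by
    refine (abs_min_sub_min_le_max 1 ((R - dI x z) / (R - r)) 1 ((R - dI y z) / (R - r))).trans ?_
    rw [sub_self, abs_zero]
    exact max_le (abs_nonneg _) le_rfl
  have h3 : |(R - dI x z) / (R - r) - (R - dI y z) / (R - r)| ≤ (R - r)⁻¹ := by
    rw [← sub_div, abs_div, abs_of_pos h0, div_eq_mul_inv]
    have h4 : |R - (dI x z : ℝ) - (R - dI y z)| ≤ 1 := by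
      have a1 := P7r.dI_tri x y z
      have a2 := P7r.dI_tri y x z
      rw [P7r.dI_comm y x] at a2
      have a3 : (dI x z : ℝ) ≤ 1 + dI y z := by
        have : dI x z ≤ 1 + dI y z := by linarith
        exact_mod_cast this
      have a4 : (dI y z : ℝ) ≤ 1 + dI x z := by
        have : dI y z ≤ 1 + dI x z := by linarith
        exact_mod_cast this
      rw [abs_le]
      constructor <;> linarith
    calc |R - (dI x z : ℝ) - (R - dI y z)| * (R - r)⁻¹ ≤ 1 * (R - r)⁻¹ :=
          mul_le_mul_of_nonneg_right h4 (inv_nonneg.mpr h0.le)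
      _ = _ := one_mul _
  exact h1.trans (h2.trans h3)

theorem cut_energy : ∃ C : ℝ, 0 < C ∧ ∀ (D : Finset V) (z : V) (r R : ℝ), 1 ≤ R → r < R →
    energy D (cut z r R) ≤ C * (R / (R - r)) ^ 2 := by
  refine ⟨25, by norm_num, fun D z r R hR hr => ?_⟩
  have h1 := P7r.energy_le (D := D) (z := z) (B := (R - r)⁻¹) hR (h := cut z r R)
    (fun x hx => cut_zero hr hx) (fun x y hxy => cut_lip z hr (P7r.dI_nn hxy))
  refine h1.trans (le_of_eq ?_)
  rw [div_eq_mul_inv, mul_pow]

/-- energy of a product f * cut: f varies by at most a along edges and is at most M in absolute value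
on Q z (R+1) -/
theorem cut_energy_mul : ∃ C : ℝ, 0 < C ∧ ∀ (D : Finset V) (z : V) (r R a M : ℝ) (f : V → ℝ), 1 ≤ R → r < R →
    0 ≤ a → 0 ≤ M → (∀ x : V, (dI x z : ℝ) ≤ R → |f x| ≤ M) →
    (∀ x y : V, (dI x z : ℝ) ≤ R → (dI y z : ℝ) ≤ R → nn x y → |f x - f y| ≤ a) →
    energy D (fun x => f x * cut z r R x) ≤ C * (R ^ 2 * a ^ 2 + M ^ 2 * (R / (R - r)) ^ 2) := by
  refine ⟨50, by norm_num, fun D z r R a M f hR hr ha hM hfM hfa => ?_⟩
  have h0 : 0 < R - r := by linarith
  have hi : 0 ≤ (R - r)⁻¹ := inv_nonneg.mpr h0.le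
  -- one end point outside
  have hout : ∀ x y : V, nn x y → R < dI y z → |f x * cut z r R x - f y * cut z r R y|
      ≤ a + M * (R - r)⁻¹ := by
    intro x y hxy hy
    rw [cut_zero hr hy.le, mul_zero, sub_zero]
    by_cases hx : (dI x z : ℝ) ≤ R
    · have h1 := cut_lip z hr (P7r.dI_nn hxy)
      rw [cut_zero (x := y) hr hy.le, sub_zero] at h1
      rw [abs_mul]
      have h2 := hfM x hx
      calc |f x| * |cut z r R x| ≤ M * (R - r)⁻¹ := mul_le_mul h2 h1 (abs_nonneg _) hM
        _ ≤ a + M * (R - r)⁻¹ := by linarith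
    · rw [cut_zero hr (not_le.mp hx).le, mul_zero, abs_zero]
      positivity
  have h1 := P7r.energy_le (D := D) (z := z) (B := a + M * (R - r)⁻¹) hR
    (h := fun x => f x * cut z r R x)
    (fun x hx => by
      show f x * cut z r R x = 0
      rw [cut_zero hr hx, mul_zero])
    (fun x y hxy => by
      show |f x * cut z r R x - f y * cut z r R y| ≤ _
      by_cases hy : (dI y z : ℝ) ≤ R
      · by_cases hx : (dI x z : ℝ) ≤ R
        · have e : f x * cut z r R x - f y * cut z r R y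
              = f x * (cut z r R x - cut z r R y) + (f x - f y) * cut z r R y := by ring
          rw [e]
          refine (abs_add_le _ _).trans ?_
          rw [abs_mul, abs_mul]
          have a1 := hfM x hx
          have a2 := cut_lip z hr (P7r.dI_nn hxy)
          have a3 := hfa x y hx hy hxy
          have a4 : |cut z r R y| ≤ 1 := by
            rw [abs_of_nonneg (cut_nonneg _ _ _ _)]
            exact cut_le_one _ _ _ _
          have b1 : |f x| * |cut z r R x - cut z r R y| ≤ M * (R - r)⁻¹ :=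
            mul_le_mul a1 a2 (abs_nonneg _) hM
          have b2 : |f x - f y| * |cut z r R y| ≤ a * 1 :=
            mul_le_mul a3 a4 (abs_nonneg _) ha
          linarith
        · have hyx : nn y x := by
            unfold nn at hxy ⊢
            rw [abs_sub_comm y.1, abs_sub_comm y.2]
            exact hxy
          rw [abs_sub_comm]
          exact hout y x hyx (not_le.mp hx)
      · exact hout x y hxy (not_le.mp hy))
  refine h1.trans ?_
  have h2 : (a + M * (R - r)⁻¹) ^ 2 ≤ 2 * (a ^ 2 + (M * (R - r)⁻¹) ^ 2) := by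
    nlinarith [sq_nonneg (a - M * (R - r)⁻¹)]
  have h3 : 50 * (R ^ 2 * a ^ 2 + M ^ 2 * (R / (R - r)) ^ 2)
      = 25 * (R ^ 2 * (2 * (a ^ 2 + (M * (R - r)⁻¹) ^ 2))) := by
    rw [div_eq_mul_inv]
    ring
  rw [h3]
  have : 0 ≤ R ^ 2 := sq_nonneg _
  gcongr

end GF
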