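import Pool.Agent.Lib.MP_acf58e_gf.P8a
import Pool.Agent.Lib.MP_acf58e_gf.P7
import Pool.Agent.Lib.MP_acf58e_gf.P5
import Pool.Agent.Lib.MP_acf58e_gf.G4
import Pool.Agent.Lib.MP_acf58e_gf.G5

/-! MP_acf58e_pr, module P, row P10: comparison of environments. -/

open MeasureTheory Set
open scoped ENNReal

namespace GF

private theorem p10_memQ {x z : V} {r : ℤ} : x ∈ Q z r ↔ dI x z ≤ r := by
  unfold Q dI
  rw [Finset.mem_Icc, Prod.le_def, Prod.le_def, max_le_iff, abs_le, abs_le]
  constructor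
  · rintro ⟨⟨h1, h2⟩, h3, h4⟩
    simp only at h1 h2 h3 h4
    exact ⟨⟨by linarith, by linarith⟩, ⟨by linarith, by linarith⟩⟩
  · rintro ⟨⟨h1, h2⟩, h3, h4⟩
    exact ⟨⟨by simp only; linarith, by simp only; linarith⟩,
      ⟨by simp only; linarith, by simp only; linarith⟩⟩

private theorem p10_nn {x y : V} (h : nn x y) : dI x y = 1 := by
  unfold nn at h
  unfold dI
  have h1 := abs_nonneg (x.1 - y.1)
  have h2 := abs_nonneg (x.2 - y.2)
  rcases le_total |x.1 - y.1| |x.2 - y.2| with h3 | h3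
  · rw [max_eq_right h3]
    omega
  · rw [max_eq_left h3]
    omega

/-- P10: A depends on the values on Q z (3R) -/
theorem compare_env : ∃ C : ℝ, 0 < C ∧ ∀ (R : ℤ) (z : V) (β : V → ℝ) (A : Set (V → ℝ)), 1 ≤ R → MeasurableSet A →
    (∀ X Y : V → ℝ, (∀ x ∈ Q z (3 * R), X x = Y x) → (X ∈ A ↔ Y ∈ A)) →
    (gam (Q z (8 * R)) β).real A ≤ Real.exp (C * (1 + (osc (Q z (4 * R)) (hx (Q z (8 * R)) β)) ^ 2))
      * Real.sqrt ((gam (Q z (8 * R)) (fun _ => hx (Q z (8 * R)) β z)).real A) := by
  obtain ⟨C1, hC1, hmul⟩ := cut_energy_mul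
  obtain ⟨C2, hC2, hgrad⟩ := grad_le
  refine ⟨C1 * (1600 + 961 + 10 * C2 ^ 2), by positivity, ?_⟩
  intro R z β A hR hA hloc
  have hR' : (1 : ℝ) ≤ (R : ℝ) := by exact_mod_cast hR
  set D := Q z (8 * R) with hD
  set h : V → ℝ := hx D β with hh
  set o : ℝ := osc (Q z (4 * R)) h with ho
  have ho0 : 0 ≤ o := osc_nonneg _ _
  have hosc : ∀ x y : V, (dI x z : ℝ) ≤ 4 * R → (dI y z : ℝ) ≤ 4 * R → |h x - h y| ≤ o := by
    intro x y hx1 hy1
    refine le_osc h (p10_memQ.2 ?_) (p10_memQ.2 ?_)
    · exact_mod_cast hx1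
    · exact_mod_cast hy1
  have hzz : (dI z z : ℝ) ≤ 4 * R := by
    have h1 : dI z z = 0 := by simp [dI]
    rw [h1]
    push_cast
    linarith
  set a : ℝ := h z with ha
  -- the energy of the cut off function
  have key : ∃ S : ℝ, 3 * (R : ℝ) < S ∧ S ≤ 4 * R ∧
      energy D (fun x => (h x - a) * cut z (3 * R) S x) ≤ C1 * (1600 + 961 + 10 * C2 ^ 2) * o ^ 2 := by
    rcases lt_or_ge R 10 with hR10 | hR10
    · have hR10' : (R : ℝ) ≤ 10 := by exact_mod_cast hR10.le
      refine ⟨4 * R, by linarith, le_rfl, ?_⟩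
      have h1 := hmul D z (3 * R) (4 * R) o o (fun x => h x - a) (by linarith) (by linarith) ho0 ho0
        (fun x hx1 => hosc x z hx1 hzz)
        (fun x y hx1 hy1 _ => by
          rw [sub_sub_sub_cancel_right]
          exact hosc x y hx1 hy1)
      refine h1.trans ?_
      have h2 : 4 * (R : ℝ) / (4 * R - 3 * R) = 4 := by
        have : 4 * (R : ℝ) - 3 * R = R := by ring
        rw [this]
        field_simp
      rw [h2, mul_assoc C1]
      refine mul_le_mul_of_nonneg_left ?_ hC1.le
      have h3 : (R : ℝ) ^ 2 ≤ 100 := by nlinarith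
      have h4 : (4 * (R : ℝ)) ^ 2 * o ^ 2 ≤ 1600 * o ^ 2 := by
        refine mul_le_mul_of_nonneg_right ?_ (sq_nonneg o)
        nlinarith
      nlinarith [sq_nonneg o, sq_nonneg (C2 * o)]
    · have hR10' : (10 : ℝ) ≤ (R : ℝ) := by exact_mod_cast hR10
      refine ⟨31 / 10 * R, by linarith, by linarith, ?_⟩
      have hharm : Harm (Q z (4 * R - 1)) h := by
        intro x hx1
        have hx2 : dI x z ≤ 4 * R - 1 := p10_memQ.1 (by exact_mod_cast hx1)
        exact hx_harm D β (p10_memQ.2 (by linarith))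
      have hg : ∀ x y : V, (dI x z : ℝ) ≤ 31 / 10 * R → (dI y z : ℝ) ≤ 31 / 10 * R → nn x y →
          |(h x - a) - (h y - a)| ≤ C2 * o / R := by
        intro x y hx1 hy1 hxy
        rw [sub_sub_sub_cancel_right]
        have h5 : ∀ w : V, (dI w z : ℝ) ≤ 31 / 10 * R → 5 * dI w z ≤ 4 * (4 * R - 1) := by
          intro w hw
          have : (5 * dI w z : ℝ) ≤ 4 * (4 * R - 1) := by linarith
          exact_mod_cast this
        have h6 := hgrad (4 * R - 1) z h o (by linarith) hharm (by
          intro u hu v hv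
          rw [sub_add_cancel] at hu hv
          exact le_osc h hu hv) x y (h5 x hx1) (h5 y hy1)
        refine h6.trans ?_
        rw [p10_nn hxy]
        push_cast
        have h7 : 1 / (4 * (R : ℝ) - 1) ≤ 1 / R := by
          apply one_div_le_one_div_of_le <;> linarith
        calc C2 * (1 / (4 * (R : ℝ) - 1)) * o ≤ C2 * (1 / R) * o := by
              refine mul_le_mul_of_nonneg_right ?_ ho0
              exact mul_le_mul_of_nonneg_left h7 hC2.le
          _ = C2 * o / R := by ring
      have h1 := hmul D z (3 * R) (31 / 10 * R) (C2 * o / R) o (fun x => h x - a) (by linarith)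
        (by linarith) (by positivity) ho0
        (fun x hx1 => hosc x z (by linarith) hzz) hg
      refine h1.trans ?_
      have h2 : 31 / 10 * (R : ℝ) / (31 / 10 * R - 3 * R) = 31 := by
        have h3 : 31 / 10 * (R : ℝ) - 3 * R = 1 / 10 * R := by ring
        rw [h3]
        field_simp
      have h4 : (31 / 10 * (R : ℝ)) ^ 2 * (C2 * o / R) ^ 2 = 961 / 100 * (C2 ^ 2 * o ^ 2) := by
        field_simp
        ring
      rw [h2, h4, mul_assoc C1]
      refine mul_le_mul_of_nonneg_left ?_ hC1.le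
      nlinarith [sq_nonneg o, mul_nonneg (sq_nonneg C2) (sq_nonneg o)]
  obtain ⟨S, hS1, hS2, hen⟩ := key
  set φ : V → ℝ := fun x => (h x - a) * cut z (3 * R) S x with hφ
  have hφ0 : ∀ x ∉ D, φ x = 0 := by
    intro x hx1
    have h1 : ¬ dI x z ≤ 8 * R := fun h2 => hx1 (p10_memQ.2 h2)
    have h2 : (8 * R : ℝ) < dI x z := by exact_mod_cast not_le.1 h1
    show (h x - a) * cut z (3 * R) S x = 0
    rw [cut_zero hS1 (by linarith), mul_zero]
  -- the law
  have hlaw : gam D β = (gam D (fun _ => a)).map (fun X x => X x + (h x - a)) := by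
    have h1 := gam_add_harm D (fun _ => a) (fun x => h x - a) (by
      intro x hx1
      show h x - a = av (fun x => h x - a) x
      rw [show h x = av h x from hx_harm D β hx1]
      unfold av
      ring)
    rw [← h1]
    refine gam_congr ?_
    intro x hx1
    rw [hh, hx_off hx1]
    ring
  have hmeas : Measurable (fun (X : V → ℝ) x => X x + (h x - a)) := by
    rw [measurable_pi_iff]
    intro x
    exact (measurable_pi_apply x).add_const _
  have hset : (fun (X : V → ℝ) x => X x + (h x - a)) ⁻¹' A = {X | (fun x => X x + φ x) ∈ A} := by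
    ext X
    show (fun x => X x + (h x - a)) ∈ A ↔ (fun x => X x + φ x) ∈ A
    apply hloc
    intro x hx1
    show X x + (h x - a) = X x + (h x - a) * cut z (3 * R) S x
    have h1 : dI x z ≤ 3 * R := p10_memQ.1 hx1
    rw [cut_one hS1 (by exact_mod_cast h1), mul_one]
  have h8 : (gam D β).real A = (gam D (fun _ => a)).real {X | (fun x => X x + φ x) ∈ A} := by
    rw [hlaw, measureReal_def, measureReal_def, Measure.map_apply hmeas hA, hset]
  rw [h8]
  have h9 := cm_sqrt' D (fun _ => a) hφ0 hA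
  refine h9.trans ?_
  rw [mul_comm]
  refine mul_le_mul_of_nonneg_right ?_ (Real.sqrt_nonneg _)
  rw [Real.exp_le_exp]
  refine hen.trans ?_
  refine mul_le_mul_of_nonneg_left ?_ (by positivity)
  linarith

end GF
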