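import Pool.Agent.Lib.MP_acf58e_gf.Func
import Pool.Agent.Lib.MP_acf58e_gf.P10

open MeasureTheory Set Filter Topology ProbabilityTheory
open scoped ENNReal

namespace GF

/-- P10 in the form used here: comparison with a constant environment -/
theorem env_compare : ∃ C : ℝ, 0 < C ∧ ∀ (z : V) (R : ℕ), 1 ≤ R → ∀ (β : V → ℝ) (A : Set (V → ℝ)),
    LocEv (Q z (3 * R) : Set V) A →
    gam (Q z (8 * R)) β A ≤ ENNReal.ofReal (Real.exp (C * (1 + oscH z R β ^ 2))) *
      (gam (Q z (8 * R)) (fun _ => hx (Q z (8 * R)) β z) A) ^ (1 / 2 : ℝ) := by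
  obtain ⟨C, hC, h⟩ := compare_env
  refine ⟨C, hC, ?_⟩
  intro z R hR β A hA
  obtain ⟨hm, hloc⟩ := hA
  have h1 := h (R : ℤ) z β A (by exact_mod_cast hR) hm (fun X Y hXY => hloc X Y (fun v hv => hXY v (by exact_mod_cast hv)))
  have e1 : gam (Q z (8 * R)) β A = ENNReal.ofReal ((gam (Q z (8 * R)) β).real A) := by
    rw [Measure.real, ENNReal.ofReal_toReal (measure_ne_top _ _)]
  have e2 : (gam (Q z (8 * R)) (fun _ => hx (Q z (8 * R)) β z) A) ^ (1 / 2 : ℝ)
      = ENNReal.ofReal (Real.sqrt ((gam (Q z (8 * R)) (fun _ => hx (Q z (8 * R)) β z)).real A)) := by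
    rw [Real.sqrt_eq_rpow, ← ENNReal.ofReal_rpow_of_nonneg measureReal_nonneg (by norm_num), Measure.real,
      ENNReal.ofReal_toReal (measure_ne_top _ _)]
  rw [e1, e2, ← ENNReal.ofReal_mul (Real.exp_nonneg _)]
  exact ENNReal.ofReal_le_ofReal h1

end GF
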