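import Pool.Agent.Lib.MP_acf58e_gf.Func
import Pool.Agent.Lib.MP_acf58e_gf.L4B
import Pool.Agent.Lib.MP_acf58e_gf.Lenv
import Pool.Agent.Lib.MP_acf58e_gf.G5

open MeasureTheory Set Filter Topology ProbabilityTheory
open scoped ENNReal

namespace GF

/-- the swap of the coordinates as a measurable equivalence of configurations -/
private def swE : (V → ℝ) ≃ᵐ (V → ℝ) where
  toFun := fun X x => X x.swap
  invFun := fun X x => X x.swap
  left_inv := fun X => by funext x; simp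
  right_inv := fun X => by funext x; simp
  measurable_toFun := measurable_pi_lambda _ fun x => measurable_pi_apply _
  measurable_invFun := measurable_pi_lambda _ fun x => measurable_pi_apply _

private theorem gam_swap_apply (D : Finset V) (mu : ℝ) (E : Set (V → ℝ)) :
    gam D (fun _ => mu) {X | swF X ∈ E} = gam (D.image Prod.swap) (fun _ => mu) E := by
  have h := gam_swap D (fun _ => mu)
  have h2 : gam (D.image Prod.swap) (fun _ => mu) E = (gam D (fun _ => mu)).map swE E := by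
    rw [show ((fun _ => mu : V → ℝ)) = (fun x : V => (fun _ => mu : V → ℝ) x.swap) from rfl, h]
    rfl
  rw [h2, MeasurableEquiv.map_apply]
  rfl

private theorem Rc_swap (a b c d : ℤ) : Rc a b c d = (Rc c d a b).image Prod.swap := by
  ext ⟨x, y⟩
  simp only [Rc, Finset.mem_Icc, Finset.mem_image, Prod.mk_le_mk]
  constructor
  · rintro ⟨⟨h1, h2⟩, h3, h4⟩
    exact ⟨(y, x), by simp [h1, h2, h3, h4], rfl⟩
  · rintro ⟨⟨u, v⟩, h, h2⟩
    simp only [Prod.swap, Prod.mk.injEq] at h2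
    obtain ⟨rfl, rfl⟩ := h2
    simp at h
    exact ⟨⟨h.1.2, h.1.1⟩, h.2.2, h.2.1⟩

private theorem Q_swap (z : V) (r : ℤ) : Q z.swap r = (Q z r).image Prod.swap := by
  show Rc _ _ _ _ = (Rc _ _ _ _).image Prod.swap
  exact Rc_swap _ _ _ _

/-- L4C: the strip events are unlikely, uniformly -/
theorem L4C {w0 : ℝ} (h0 : 0 < w0) (hJ : JProp w0) (H1 : ℝ) (η : ℝ≥0∞) (hη : 0 < η) :
    ∃ m : ℕ, ∀ (t : ℝ) (z y : V) (R ρ : ℕ), 2000 ≤ R → ∀ (a b c d : ℤ), Rc a b c d ⊆ Q z (2 * R) →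
      2 * (R : ℤ) ≤ b - a → 2 * (R : ℤ) ≤ d - c → ∀ β : V → ℝ, oscH z R β ≤ H1 →
      gam (Q z (8 * R)) β {X | StripEv t w0 (2 * m + 1) a b c d R y ρ X} ≤ η := by
  obtain ⟨e, he0, he1⟩ : ∃ e : ℝ, 0 < e ∧ ENNReal.ofReal e ≤ η := by
    refine ⟨(min η 1).toReal, ENNReal.toReal_pos (lt_min hη one_pos).ne'
      (ne_top_of_le_ne_top ENNReal.one_ne_top (min_le_right _ _)), ?_⟩
    rw [ENNReal.ofReal_toReal (ne_top_of_le_ne_top ENNReal.one_ne_top (min_le_right _ _))]
    exact min_le_left _ _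
  obtain ⟨C, hC0, hC⟩ := env_compare
  obtain ⟨E, hE⟩ : ∃ E, E = Real.exp (C * (1 + H1 ^ 2)) := ⟨_, rfl⟩
  have hE0 : 0 < E := by rw [hE]; exact Real.exp_pos _
  obtain ⟨n, hn⟩ := hJ 840 (ENNReal.ofReal ((e / E) ^ 2 / 840)) (ENNReal.ofReal_pos.2 (by positivity))
  -- one strip in a constant environment
  have strip : ∀ (t : ℝ) (z : V) (R : ℕ), 2000 ≤ R → ∀ (a b c d : ℤ), Rc a b c d ⊆ Q z (2 * R) →
      2 * (R : ℤ) ≤ b - a → 2 * (R : ℤ) ≤ d - c → ∀ (mu : ℝ) (k : ℕ),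
      gam (Q z (8 * R)) (fun _ => mu) {X | a + (k + 1) * (R / 100 : ℕ) ≤ b ∧
        Alt 0 n t (t + w0) (a + k * (R / 100 : ℕ)) (a + (k + 1) * (R / 100 : ℕ)) c d X}
        ≤ ENNReal.ofReal ((e / E) ^ 2 / 840) := by
    intro t z R hR a b c d hB hab hcd mu k
    by_cases hk : a + (k + 1) * (R / 100 : ℕ) ≤ b
    · have hc1 : (a, c) ∈ Q z (2 * R) := hB (by
        simp only [Rc, Finset.mem_Icc, Prod.le_def]; omega)
      have hc2 : (b, d) ∈ Q z (2 * R) := hB (by
        simp only [Rc, Finset.mem_Icc, Prod.le_def]; omega)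
      simp only [Q, Finset.mem_Icc, Prod.le_def] at hc1 hc2
      obtain ⟨r, hr⟩ : ∃ r : ℕ, r = R / 100 := ⟨_, rfl⟩
      rw [← hr] at hk
      rw [← hr]
      have hr4 : 20 ≤ r := by omega
      have hrl : R ≤ 105 * r := by omega
      have hrl2 : 100 * r ≤ R := by omega
      obtain ⟨H, hH⟩ : ∃ H : ℕ, (H : ℤ) = d - c := ⟨(d - c).toNat, by
        rw [Int.toNat_of_nonneg (by omega)]⟩
      have h7 : (0 : ℤ) ≤ k * r := by positivity
      have h8 : ((k : ℤ) + 1) * r = k * r + r := by ring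
      rw [h8] at hk
      obtain ⟨q, hq⟩ : ∃ q : ℤ, q = k * r := ⟨_, rfl⟩
      have h1 := hn r (by omega) (Q z (8 * R)) z t mu (a + k * r) c r H le_rfl (by omega) (by omega)
        (by omega)
        (by
          intro x hx
          simp only [Q, Finset.mem_Icc, Prod.le_def] at hx ⊢
          push_cast
          omega)
        (by
          intro x hx
          rw [← hq] at hx h7 hk
          simp only [Rc, Q, Finset.mem_Icc, Prod.le_def] at hx ⊢
          omega)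
      have h2 : {X : V → ℝ | a + (k + 1) * (r : ℤ) ≤ b ∧
          Alt 0 n t (t + w0) (a + k * r) (a + (k + 1) * r) c d X} ⊆
          {X | Alt 0 n t (t + w0) (a + k * r) (a + k * r + r) c (c + H) X} := by
        rintro X ⟨_, h3⟩
        rw [show a + ((k : ℤ) + 1) * r = a + k * r + r by ring] at h3
        show Alt 0 n t (t + w0) (a + k * r) (a + k * r + r) c (c + H) X
        rw [hH, show c + (d - c) = d by ring]
        exact h3
      exact (measure_mono h2).trans h1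
    · have h2 : {X : V → ℝ | a + (k + 1) * ((R / 100 : ℕ) : ℤ) ≤ b ∧
          Alt 0 n t (t + w0) (a + k * (R / 100 : ℕ)) (a + (k + 1) * (R / 100 : ℕ)) c d X} = ∅ := by
        ext X
        refine ⟨fun h => absurd h.1 hk, fun h => h.elim⟩
      rw [h2, measure_empty]
      exact bot_le
  refine ⟨n, ?_⟩
  intro t z y R ρ hR a b c d hB hab hcd β hβ
  have hc1 : (a, c) ∈ Q z (2 * R) := hB (by
    simp only [Rc, Finset.mem_Icc, Prod.le_def]; omega)
  have hc2 : (b, d) ∈ Q z (2 * R) := hB (by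
    simp only [Rc, Finset.mem_Icc, Prod.le_def]; omega)
  simp only [Q, Finset.mem_Icc, Prod.le_def] at hc1 hc2
  obtain ⟨S, hS⟩ : ∃ S : Set (V → ℝ), S = {X | StripEv t w0 (2 * n + 1) a b c d R y ρ X} := ⟨_, rfl⟩
  have hloc : LocEv (Q z (3 * R) : Set V) S := by
    have h1 := meas_StripEv t w0 (2 * n + 1) a b c d R y ρ
    rw [← hS] at h1
    refine ⟨h1.1, fun X X' h2 => h1.2 X X' fun v hv => h2 v ?_⟩
    have h3 := hv.1
    simp only [Rc, Finset.coe_Icc, Set.mem_Icc, Prod.le_def] at h3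
    simp only [Q, Finset.coe_Icc, Set.mem_Icc, Prod.le_def]
    omega
  rw [← hS]
  obtain ⟨mu, hmu⟩ : ∃ mu, mu = hx (Q z (8 * R)) β z := ⟨_, rfl⟩
  obtain ⟨E1, hE1⟩ : ∃ E1 : ℕ → Set (V → ℝ), E1 = fun k : ℕ => {X | a + (k + 1) * (R / 100 : ℕ) ≤ b ∧
        Alt 0 n t (t + w0) (a + k * (R / 100 : ℕ)) (a + (k + 1) * (R / 100 : ℕ)) c d X} := ⟨_, rfl⟩
  obtain ⟨E2, hE2⟩ : ∃ E2 : ℕ → Set (V → ℝ), E2 = fun k : ℕ => {X | c + (k + 1) * (R / 100 : ℕ) ≤ d ∧
        Alt 0 n t (t + w0) (c + k * (R / 100 : ℕ)) (c + (k + 1) * (R / 100 : ℕ)) a b X} := ⟨_, rfl⟩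
  have hkk : ∀ (k : ℕ) (u : ℤ), u ≤ 4 * R → (k + 1) * ((R / 100 : ℕ) : ℤ) ≤ u → k < 420 := by
    intro k u hu hk
    by_contra hcon
    push Not at hcon
    have h1 : (421 : ℤ) ≤ k + 1 := by exact_mod_cast Nat.succ_le_succ hcon
    have h2 : (R : ℤ) ≤ 105 * (R / 100 : ℕ) := by omega
    have h3 : (0 : ℤ) < (R / 100 : ℕ) := by omega
    have h4 := mul_le_mul_of_nonneg_right h1 h3.le
    linarith
  have hsub : S ⊆ (⋃ k ∈ Finset.range 420, E1 k) ∪
        (⋃ k ∈ Finset.range 420, {X | swF X ∈ E2 k}) := by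
    rw [hS]
    rintro X (⟨k, hk2, -, hk3⟩ | ⟨k, hk2, -, hk3⟩)
    · left
      simp only [Set.mem_iUnion]
      refine ⟨k, Finset.mem_range.2 (hkk k (b - a) (by omega) (by omega)), ?_⟩
      rw [hE1]
      exact ⟨hk2, (Alt.tail hk3).mono (by omega)⟩
    · right
      simp only [Set.mem_iUnion]
      refine ⟨k, Finset.mem_range.2 (hkk k (d - c) (by omega) (by omega)), ?_⟩
      rw [hE2]
      exact ⟨hk2, (Alt.tail hk3).mono (by omega)⟩
  have hb1 : ∀ k : ℕ, gam (Q z (8 * R)) (fun _ => mu) (E1 k) ≤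
      ENNReal.ofReal ((e / E) ^ 2 / 840) := by
    intro k
    rw [hE1]
    exact strip t z R hR a b c d hB hab hcd mu k
  have hb2 : ∀ k : ℕ, gam (Q z (8 * R)) (fun _ => mu) {X | swF X ∈ E2 k} ≤
      ENNReal.ofReal ((e / E) ^ 2 / 840) := by
    intro k
    rw [gam_swap_apply, hE2, ← Q_swap]
    refine strip t z.swap R hR c d a b ?_ hcd hab mu k
    rw [Q_swap, Rc_swap]
    exact Finset.image_subset_image hB
  have hconst : gam (Q z (8 * R)) (fun _ => mu) S ≤ ENNReal.ofReal ((e / E) ^ 2) := by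
    calc gam (Q z (8 * R)) (fun _ => mu) S
        ≤ gam (Q z (8 * R)) (fun _ => mu) ((⋃ k ∈ Finset.range 420, E1 k) ∪
          (⋃ k ∈ Finset.range 420, {X | swF X ∈ E2 k})) := measure_mono hsub
      _ ≤ gam (Q z (8 * R)) (fun _ => mu) (⋃ k ∈ Finset.range 420, E1 k) +
          gam (Q z (8 * R)) (fun _ => mu) (⋃ k ∈ Finset.range 420, {X | swF X ∈ E2 k}) :=
          measure_union_le _ _
      _ ≤ (∑ k ∈ Finset.range 420, gam (Q z (8 * R)) (fun _ => mu) (E1 k)) +
          ∑ k ∈ Finset.range 420, gam (Q z (8 * R)) (fun _ => mu) {X | swF X ∈ E2 k} :=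
          add_le_add (measure_biUnion_finset_le _ _) (measure_biUnion_finset_le _ _)
      _ ≤ (∑ k ∈ Finset.range 420, ENNReal.ofReal ((e / E) ^ 2 / 840)) +
          ∑ k ∈ Finset.range 420, ENNReal.ofReal ((e / E) ^ 2 / 840) :=
          add_le_add (Finset.sum_le_sum fun k _ => hb1 k) (Finset.sum_le_sum fun k _ => hb2 k)
      _ = ENNReal.ofReal ((e / E) ^ 2) := by
          rw [Finset.sum_const, Finset.card_range, ← two_mul, nsmul_eq_mul, ← mul_assoc]
          rw [show (2 * ((420 : ℕ) : ℝ≥0∞)) = ENNReal.ofReal 840 by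
            rw [← ENNReal.ofReal_natCast, show (2 : ℝ≥0∞) = ENNReal.ofReal 2 by simp,
              ← ENNReal.ofReal_mul (by norm_num)]
            norm_num, ← ENNReal.ofReal_mul (by norm_num)]
          congr 1
          ring
  have h1 := hC z R (by omega) β S hloc
  rw [← hmu] at h1
  refine h1.trans ?_
  have h2 : (gam (Q z (8 * R)) (fun _ => mu) S) ^ (1 / 2 : ℝ) ≤ ENNReal.ofReal (e / E) := by
    refine (ENNReal.rpow_le_rpow hconst (by norm_num)).trans ?_
    rw [ENNReal.ofReal_rpow_of_nonneg (by positivity) (by norm_num), ← Real.sqrt_eq_rpow,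
      Real.sqrt_sq (by positivity)]
  have h3 : Real.exp (C * (1 + oscH z R β ^ 2)) ≤ E := by
    rw [hE]
    apply Real.exp_le_exp.2
    have h4 : 0 ≤ oscH z R β := by
      unfold oscH
      first
        | exact osc_nonneg _ _
        | (unfold osc; exact ENNReal.toReal_nonneg)
    have h5 : oscH z R β ^ 2 ≤ H1 ^ 2 := pow_le_pow_left₀ h4 hβ 2
    exact mul_le_mul_of_nonneg_left (by linarith) hC0.le
  calc ENNReal.ofReal (Real.exp (C * (1 + oscH z R β ^ 2))) *
        (gam (Q z (8 * R)) (fun _ => mu) S) ^ (1 / 2 : ℝ)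
      ≤ ENNReal.ofReal E * ENNReal.ofReal (e / E) :=
        mul_le_mul' (ENNReal.ofReal_le_ofReal h3) h2
    _ = ENNReal.ofReal e := by
        rw [← ENNReal.ofReal_mul hE0.le]
        congr 1
        field_simp
    _ ≤ η := he1

end GF
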