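import Pool.Agent.Lib.MP_acf58e_gf.G0b

/-! MP_acf58e_pr, row G1: the measure gam D β is a probability measure, basic formulas. -/

open MeasureTheory Set
open scoped ENNReal

namespace GF

theorem glue_apply (D : Finset V) (β : V → ℝ) (y : D → ℝ) (x : V) :
    glue D β y x = if h : x ∈ D then y ⟨x, h⟩ else β x := by
  unfold glue Function.updateFinset
  rfl

theorem measurable_glue (D : Finset V) (β : V → ℝ) : Measurable (glue D β) := by
  unfold glue
  exact measurable_updateFinset

theorem measurable_energy (D : Finset V) : Measurable (energy D) := by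
  unfold energy
  refine Measurable.div_const (Measurable.add ?_ ?_) 2
  · exact Finset.measurable_sum _ (fun x _ => by fun_prop)
  · exact Finset.measurable_sum _ (fun x _ => by fun_prop)

theorem measurable_wt (D : Finset V) : Measurable (wt D) := by
  unfold wt
  exact ENNReal.measurable_ofReal.comp (Real.measurable_exp.comp (measurable_energy D).neg)

private theorem meas_wt_glue (D : Finset V) (β : V → ℝ) : Measurable (fun y => wt D (glue D β y)) :=
  (measurable_wt D).comp (measurable_glue D β)

theorem pf_ne_zero (D : Finset V) (β : V → ℝ) : pf D β ≠ 0 := by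
  unfold pf
  have h := (lintegral_pos_iff_support (μ := (volume : Measure (D → ℝ))) (meas_wt_glue D β)).2 (by
    have : Function.support (fun y => wt D (glue D β y)) = univ := by
      ext y
      simp only [Function.mem_support, mem_univ, iff_true]
      unfold wt
      exact (ENNReal.ofReal_pos.2 (Real.exp_pos _)).ne'
    rw [this]
    exact Measure.measure_univ_pos.2 (NeZero.ne _))
  exact h.ne'

private theorem energy_lower {D : Finset V} {φ : V → ℝ} (hφ : ∀ x ∉ D, φ x = 0) {x : V} (hxD : x ∈ D) :
    φ x ^ 2 / (2 * gr D x x) ≤ energy D φ := by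
  have hg := gr_diag_ge hxD
  have hgpos : 0 < gr D x x := by linarith
  set t : ℝ := - (φ x / gr D x x) with ht
  have h0 := energy_nonneg D (fun z => φ z + t * gr D z x)
  have h1 := energy_add D φ (fun z => t * gr D z x)
  rw [h1, ebil_parts hφ] at h0
  have e1 : ∑ z ∈ D, φ z * lap (fun w => t * gr D w x) z = - (t * φ x) := by
    have : ∀ z ∈ D, φ z * lap (fun w => t * gr D w x) z = if z = x then - (t * φ x) else 0 := by
      intro z hz
      have e2 : lap (fun w => t * gr D w x) z = t * lap (fun w => gr D w x) z := by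
        unfold lap av; ring
      rw [e2, lap_gr x hz]
      split_ifs with h
      · subst h; ring
      · ring
    rw [Finset.sum_congr rfl this]
    simp [hxD]
  have e3 : energy D (fun z => t * gr D z x) = t ^ 2 * gr D x x / 2 := by
    rw [energy_parts (fun z hz => by rw [gr_off_left hz, mul_zero])]
    have : ∀ z ∈ D, t * gr D z x * lap (fun w => t * gr D w x) z
        = if z = x then - (t ^ 2 * gr D x x) else 0 := by
      intro z hz
      have e2 : lap (fun w => t * gr D w x) z = t * lap (fun w => gr D w x) z := by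
        unfold lap av; ring
      rw [e2, lap_gr x hz]
      split_ifs with h
      · subst h; ring
      · ring
    rw [Finset.sum_congr rfl this]
    simp [hxD]
  rw [e1, e3] at h0
  have e4 : - - (t * φ x) + t ^ 2 * gr D x x / 2 = - (φ x ^ 2 / (2 * gr D x x)) := by
    rw [ht]; field_simp; ring
  linarith

private theorem energy_lower_sum {D : Finset V} {φ : V → ℝ} (hφ : ∀ x ∉ D, φ x = 0) (hD : D.Nonempty) :
    ∑ x : D, φ x ^ 2 / (2 * gr D x x * D.card) ≤ energy D φ := by
  have hc : (0:ℝ) < D.card := by exact_mod_cast hD.card_pos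
  have h1 : ∑ x ∈ D, φ x ^ 2 / (2 * gr D x x) ≤ D.card * energy D φ := by
    calc ∑ x ∈ D, φ x ^ 2 / (2 * gr D x x) ≤ ∑ _x ∈ D, energy D φ :=
          Finset.sum_le_sum (fun x hx => energy_lower hφ hx)
      _ = D.card * energy D φ := by rw [Finset.sum_const, nsmul_eq_mul]
  have h2 : ∑ x : D, φ x ^ 2 / (2 * gr D x x * D.card)
      = (∑ x ∈ D, φ x ^ 2 / (2 * gr D x x)) / (D.card : ℝ) := by
    rw [Finset.sum_div, ← Finset.sum_coe_sort D (fun x => φ x ^ 2 / (2 * gr D x x) / (D.card : ℝ))]
    exact Finset.sum_congr rfl (fun x _ => by rw [div_div])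
  rw [h2, div_le_iff₀ hc]
  linarith

private theorem energy_shift (D : Finset V) (β : V → ℝ) (y : D → ℝ) :
    energy D (glue D β y) = energy D (hx D β) + energy D (fun x => glue D β y x - hx D β x) := by
  have h : ∀ x ∉ D, (fun x => glue D β y x - hx D β x) x = 0 := by
    intro x h
    show glue D β y x - hx D β x = 0
    rw [hx_off h, glue_apply, dif_neg h, sub_self]
  have h2 := energy_add_parts (hx D β) h
  have e1 : (fun x => hx D β x + (glue D β y x - hx D β x)) = glue D β y := by
    funext x; ring
  have e2 : ∑ x ∈ D, (glue D β y x - hx D β x) * lap (hx D β) x = 0 := by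
    apply Finset.sum_eq_zero
    intro x hxD
    have : lap (hx D β) x = 0 := by
      unfold lap
      rw [← hx_harm D β hxD]; ring
    rw [this, mul_zero]
  rw [e1, e2] at h2
  linarith

theorem pf_ne_top (D : Finset V) (β : V → ℝ) : pf D β ≠ ∞ := by
  unfold pf
  rcases D.eq_empty_or_nonempty with hD | hD
  · subst hD
    have : ∀ y : ((∅ : Finset V) : Type _) → ℝ, wt ∅ (glue ∅ β y) ≤ 1 := by
      intro y
      unfold wt
      rw [← ENNReal.ofReal_one]
      apply ENNReal.ofReal_le_ofReal
      rw [Real.exp_le_one_iff]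
      linarith [energy_nonneg ∅ (glue ∅ β y)]
    refine ne_top_of_le_ne_top ?_ (lintegral_mono this)
    rw [lintegral_one]
    exact (measure_lt_top _ _).ne
  · have hc : (0:ℝ) < D.card := by exact_mod_cast hD.card_pos
    have hpos : ∀ x : D, 0 < 1 / (2 * gr D x x * D.card) := by
      intro x
      have := gr_diag_ge x.2
      have : 0 < gr D x x := by linarith
      positivity
    have hint : Integrable (fun y : D → ℝ => ∏ x : D,
        Real.exp (-(1 / (2 * gr D x x * D.card)) * (y x - hx D β x) ^ 2)) volume := by
      have := Integrable.fintype_prod (𝕜 := ℝ) (ι := D) (E := ℝ) (μ := fun _ => volume)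
        (f := fun x t => Real.exp (-(1 / (2 * gr D x x * D.card)) * (t - hx D β x) ^ 2))
        (fun x => (integrable_exp_neg_mul_sq (hpos x)).comp_sub_right (hx D β x))
      exact this
    refine ne_top_of_le_ne_top hint.lintegral_lt_top.ne (lintegral_mono ?_)
    intro y
    show wt D (glue D β y) ≤ _
    unfold wt
    apply ENNReal.ofReal_le_ofReal
    rw [← Real.exp_sum]
    apply Real.exp_le_exp.2
    have h1 := energy_shift D β y
    have h2 := energy_nonneg D (hx D β)
    have h3 := energy_lower_sum (D := D) (φ := fun x => glue D β y x - hx D β x) (by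
      intro x h
      show glue D β y x - hx D β x = 0
      rw [hx_off h, glue_apply, dif_neg h, sub_self]) hD
    have e : ∑ x : D, -(1 / (2 * gr D x x * D.card)) * (y x - hx D β x) ^ 2
        = - ∑ x : D, (glue D β y x - hx D β x) ^ 2 / (2 * gr D x x * D.card) := by
      rw [← Finset.sum_neg_distrib]
      apply Finset.sum_congr rfl
      intro x _
      rw [glue_apply, dif_pos x.2]
      ring
    rw [e]
    linarith

theorem lintegral_gam (D : Finset V) (β : V → ℝ) {F : (V → ℝ) → ℝ≥0∞} (hF : Measurable F) :
    ∫⁻ X, F X ∂gam D β = (pf D β)⁻¹ * ∫⁻ y : D → ℝ, F (glue D β y) * wt D (glue D β y) := by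
  unfold gam
  rw [lintegral_smul_measure, lintegral_map hF (measurable_glue D β), smul_eq_mul]
  congr 1
  have h := lintegral_withDensity_eq_lintegral_mul (volume : Measure (D → ℝ)) (meas_wt_glue D β)
    (hF.comp (measurable_glue D β))
  refine h.trans ?_
  exact lintegral_congr (fun y => mul_comm _ _)

instance gam_prob (D : Finset V) (β : V → ℝ) : IsProbabilityMeasure (gam D β) := by
  constructor
  have h := lintegral_gam D β (F := fun _ => 1) measurable_const
  simp only [lintegral_one, one_mul] at h
  rw [h]
  exact ENNReal.inv_mul_cancel (pf_ne_zero D β) (pf_ne_top D β)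

/-- a property holding Lebesgue-a.e. on D (glued with β) holds gam-a.s. -/
theorem gam_ae_of_volume {D : Finset V} {β : V → ℝ} {P : (V → ℝ) → Prop} (hP : MeasurableSet {X | P X})
    (h : ∀ᵐ y : D → ℝ, P (glue D β y)) : ∀ᵐ X ∂gam D β, P X := by
  unfold gam
  apply Measure.ae_smul_measure
  rw [ae_map_iff (measurable_glue D β).aemeasurable hP]
  exact (withDensity_absolutelyContinuous _ _) h

theorem gam_ae_off (D : Finset V) (β : V → ℝ) : ∀ᵐ X ∂gam D β, ∀ x ∉ D, X x = β x := by
  apply gam_ae_of_volume
  · have : {X : V → ℝ | ∀ x ∉ D, X x = β x} = ⋂ x : V, ⋂ _ : x ∉ D, {X | X x = β x} := by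
      ext X; simp
    rw [this]
    apply MeasurableSet.iInter
    intro x
    apply MeasurableSet.iInter
    intro _
    exact measurableSet_eq_fun (measurable_pi_apply x) measurable_const
  · exact Filter.Eventually.of_forall (fun y x hx => by rw [glue_apply, dif_neg hx])

theorem gam_congr {D : Finset V} {β β' : V → ℝ} (h : ∀ x ∉ D, β x = β' x) : gam D β = gam D β' := by
  have e : glue D β = glue D β' := by
    funext y x
    rw [glue_apply, glue_apply]
    split_ifs with hx
    · rfl
    · exact h x hx
  unfold gam pf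
  rw [e]

private theorem energy_congr {D : Finset V} {X Y : V → ℝ} (h : ∀ x ∈ D ∪ bd D, X x = Y x) :
    energy D X = energy D Y := by
  have key : ∀ x, x ∈ D → X x = Y x := fun x hx => h x (Finset.mem_union_left _ hx)
  have keyb : ∀ x, x ∈ bd D → X x = Y x := fun x hx => h x (Finset.mem_union_right _ hx)
  have hE : ∀ x ∈ eH D, X x = Y x ∧ X (nE x) = Y (nE x) := by
    intro x hx
    unfold eH at hx
    rcases Finset.mem_union.1 hx with hx | hx
    · refine ⟨key x hx, ?_⟩
      by_cases h2 : nE x ∈ D
      · exact key _ h2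
      · exact keyb _ (nE_mem_bd hx h2)
    · obtain ⟨z, hz, rfl⟩ := Finset.mem_image.1 hx
      have e : nE (nW z) = z := by simp [nE, nW]
      rw [e]
      refine ⟨?_, key z hz⟩
      by_cases h2 : nW z ∈ D
      · exact key _ h2
      · exact keyb _ (nW_mem_bd hz h2)
  have hV : ∀ x ∈ eV D, X x = Y x ∧ X (nN x) = Y (nN x) := by
    intro x hx
    unfold eV at hx
    rcases Finset.mem_union.1 hx with hx | hx
    · refine ⟨key x hx, ?_⟩
      by_cases h2 : nN x ∈ D
      · exact key _ h2
      · exact keyb _ (nN_mem_bd hx h2)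
    · obtain ⟨z, hz, rfl⟩ := Finset.mem_image.1 hx
      have e : nN (nS z) = z := by simp [nN, nS]
      rw [e]
      refine ⟨?_, key z hz⟩
      by_cases h2 : nS z ∈ D
      · exact key _ h2
      · exact keyb _ (nS_mem_bd hz h2)
  unfold energy
  congr 2
  · exact Finset.sum_congr rfl (fun x hx => by rw [(hE x hx).1, (hE x hx).2])
  · exact Finset.sum_congr rfl (fun x hx => by rw [(hV x hx).1, (hV x hx).2])

/-- the law on D depends only on the values on bd D -/
theorem gam_congr_bd {D : Finset V} {β β' : V → ℝ} (h : ∀ x ∈ bd D, β x = β' x)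
    {F : (V → ℝ) → ℝ≥0∞} (hF : Measurable F)
    (hloc : ∀ X Y : V → ℝ, (∀ x ∈ D ∪ bd D, X x = Y x) → F X = F Y) :
    ∫⁻ X, F X ∂gam D β = ∫⁻ X, F X ∂gam D β' := by
  have hg : ∀ (y : D → ℝ), ∀ x ∈ D ∪ bd D, glue D β y x = glue D β' y x := by
    intro y x hx
    rw [glue_apply, glue_apply]
    split_ifs with hxD
    · rfl
    · rcases Finset.mem_union.1 hx with h1 | h1
      · exact absurd h1 hxD
      · exact h x h1
  have hw : ∀ y : D → ℝ, wt D (glue D β y) = wt D (glue D β' y) := by
    intro y
    unfold wt
    rw [energy_congr (hg y)]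
  have hp : pf D β = pf D β' := by
    unfold pf
    exact lintegral_congr hw
  rw [lintegral_gam D β hF, lintegral_gam D β' hF, hp]
  congr 1
  exact lintegral_congr (fun y => by rw [hw y, hloc _ _ (hg y)])

end GF
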