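import Pool.Agent.Lib.MP_acf58e_gf.G0b

/-! MP_acf58e_pr, row P8a: oscillation, basic facts (helper40; definition `osc` here). -/

open MeasureTheory Set
open scoped ENNReal

namespace GF

/-- oscillation -/
noncomputable def osc (S : Finset V) (f : V → ℝ) : ℝ := ⨆ p : S × S, |f p.1 - f p.2|

theorem osc_nonneg (S : Finset V) (f : V → ℝ) : 0 ≤ osc S f := by
  unfold osc
  exact Real.iSup_nonneg fun p => abs_nonneg _

theorem le_osc {S : Finset V} (f : V → ℝ) {x y : V} (hx : x ∈ S) (hy : y ∈ S) :
    |f x - f y| ≤ osc S f := by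
  unfold osc
  have hb : BddAbove (Set.range fun p : S × S => |f p.1 - f p.2|) :=
    (Set.finite_range _).bddAbove
  exact le_ciSup hb (⟨⟨x, hx⟩, ⟨y, hy⟩⟩ : S × S)

theorem sub_le_osc {S : Finset V} (f : V → ℝ) {x y : V} (hx : x ∈ S) (hy : y ∈ S) :
    f x - f y ≤ osc S f := (le_abs_self _).trans (le_osc f hx hy)

theorem osc_le {S : Finset V} {f : V → ℝ} {o : ℝ} (h0 : 0 ≤ o) (h : ∀ x ∈ S, ∀ y ∈ S, |f x - f y| ≤ o) :
    osc S f ≤ o := by
  unfold osc
  exact Real.iSup_le (fun p => h _ p.1.2 _ p.2.2) h0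

theorem osc_add_le (S : Finset V) (f g : V → ℝ) : osc S (fun x => f x + g x) ≤ osc S f + osc S g := by
  apply osc_le (add_nonneg (osc_nonneg _ _) (osc_nonneg _ _))
  intro x hx y hy
  have h1 := le_osc f hx hy
  have h2 := le_osc g hx hy
  have h3 : f x + g x - (f y + g y) = (f x - f y) + (g x - g y) := by ring
  rw [h3]
  exact (abs_add_le _ _).trans (add_le_add h1 h2)

theorem osc_mono {S T : Finset V} (h : S ⊆ T) (f : V → ℝ) : osc S f ≤ osc T f :=
  osc_le (osc_nonneg _ _) fun _ hx _ hy => le_osc f (h hx) (h hy)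

theorem osc_add_const (S : Finset V) (f : V → ℝ) (c : ℝ) : osc S (fun x => f x + c) = osc S f := by
  unfold osc
  simp only [add_sub_add_right_eq_sub]

theorem measurable_hx (E : Finset V) (x : V) : Measurable (fun X : V → ℝ => hx E X x) := by
  by_cases h : x ∈ E
  · simp only [fun X : V → ℝ => hx_eq_sum h X]
    exact Finset.measurable_sum _ fun y _ => (measurable_pi_apply y).const_mul _
  · simp only [fun X : V → ℝ => hx_off (β := X) h]
    exact measurable_pi_apply x

theorem measurable_osc (S : Finset V) {F : (V → ℝ) → V → ℝ} (hF : ∀ x, Measurable (fun X => F X x)) :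
    Measurable (fun X => osc S (F X)) := by
  unfold osc
  refine Measurable.iSup fun p => ?_
  have h : Measurable fun X => F X p.1 - F X p.2 := (hF _).sub (hF _)
  exact measurable_norm.comp h

end GF
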