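import Pool.Agent.Lib.MP_acf58e_gf.Func
import Pool.Agent.Lib.MP_acf58e_gf.G1
import Pool.Agent.Lib.MP_acf58e_gf.L0a
import Pool.Agent.Lib.MP_acf58e_gf.L0b
import Pool.Agent.Lib.MP_acf58e_gf.Lmeas
import Pool.Agent.Lib.MP_acf58e_gf.P8a

open MeasureTheory Set Filter Topology ProbabilityTheory
open scoped ENNReal

namespace GF

private theorem ch_mem_Q {z x : V} {r : ℤ} : x ∈ Q z r ↔ dI x z ≤ r := by
  unfold Q dI
  rw [Finset.mem_Icc, Prod.le_def, Prod.le_def, max_le_iff, abs_le, abs_le]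
  constructor
  · rintro ⟨⟨h1, h2⟩, h3, h4⟩
    refine ⟨⟨?_, ?_⟩, ?_, ?_⟩ <;> simp only at h1 h2 h3 h4 ⊢ <;> linarith
  · rintro ⟨⟨h1, h2⟩, h3, h4⟩
    refine ⟨⟨?_, ?_⟩, ?_, ?_⟩ <;> simp only at h1 h2 h3 h4 ⊢ <;> linarith

private theorem ch_Q_mono {z : V} {r s : ℤ} (h : r ≤ s) : Q z r ⊆ Q z s := by
  intro x hx
  rw [ch_mem_Q] at hx ⊢
  exact hx.trans h

private theorem ch_tri (x y z : V) : dI x y ≤ dI x z + dI y z := by
  unfold dI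
  have h1 : |x.1 - y.1| ≤ |x.1 - z.1| + |y.1 - z.1| := by
    have := abs_sub_le x.1 z.1 y.1
    rwa [abs_sub_comm z.1 y.1] at this
  have h2 : |x.2 - y.2| ≤ |x.2 - z.2| + |y.2 - z.2| := by
    have := abs_sub_le x.2 z.2 y.2
    rwa [abs_sub_comm z.2 y.2] at this
  refine max_le ?_ ?_
  · exact h1.trans (add_le_add (le_max_left _ _) (le_max_left _ _))
  · exact h2.trans (add_le_add (le_max_right _ _) (le_max_right _ _))

private theorem ch_meas_oscH (c : V) (ρ : ℕ) : Measurable (fun X : V → ℝ => oscH c ρ X) :=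
  measurable_osc _ (fun x => measurable_hx _ x)

/-- norm of a child on an event outside it, weaker hypothesis on the position -/
theorem child_ev' : ∃ C : ℝ → ℝ≥0∞, (∀ H, C H < ⊤) ∧ ∀ (t : ℝ) (U : Finset V) (z c : V) (R ρ : ℕ), IsU ρ c U →
    1 ≤ ρ → 400 * ρ ≤ R → Q c (8 * ρ) ⊆ Q z (3 * R + 8 * ρ) → ∀ (β : V → ℝ) (H : ℝ), oscH z R β ≤ H →
    ∀ E : Set (V → ℝ), LocEv (Q c (8 * ρ) : Set V)ᶜ E →
    N4 (gam (Q z (8 * R)) β) (E.indicator (FD t U c ρ)) ≤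
      C H * Lam t ρ * (gam (Q z (8 * R)) β E) ^ (1 / 8 : ℝ) := by
  obtain ⟨C8, hC8, h8⟩ := L0b' 8 (by norm_num)
  refine ⟨fun H => (ENNReal.ofReal (C8 * Real.exp (8 * C8 * |H|))) ^ (1 / 8 : ℝ), ?_, ?_⟩
  · intro H
    exact ENNReal.rpow_lt_top_of_nonneg (by norm_num) ENNReal.ofReal_ne_top
  intro t U z c R ρ hU hρ hR hQ β H hH E hE
  have hR0 : (0 : ℝ) < R := by
    have : 0 < R := by omega
    exact_mod_cast this
  have hρR : (400 : ℤ) * ρ ≤ R := by exact_mod_cast hR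
  have hsub : Q c (8 * (ρ : ℤ)) ⊆ Q z (8 * (R : ℤ)) := hQ.trans (ch_Q_mono (by linarith))
  set μ := gam (Q z (8 * (R : ℤ))) β with hμ
  have hL := L0a t U c ρ hU (Q z (8 * (R : ℤ))) hsub β E hE
  rw [← hμ] at hL
  set g : (V → ℝ) → ℝ≥0∞ := fun X => ENNReal.ofReal (Real.exp (4 * oscH c ρ X)) with hg
  have hgm : Measurable g :=
    ((ch_meas_oscH c ρ).const_mul 4).exp.ennreal_ofReal
  -- Cauchy-Schwarz
  have hCS : ∫⁻ X in E, g X ∂μ ≤ (∫⁻ X, g X ^ (2 : ℝ) ∂μ) ^ (1 / 2 : ℝ) * (μ E) ^ (1 / 2 : ℝ) := by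
    have h1 := ENNReal.lintegral_mul_le_Lp_mul_Lq (μ.restrict E) Real.HolderConjugate.two_two
      (f := g) (g := fun _ => 1) hgm.aemeasurable aemeasurable_const
    have e1 : ∫⁻ X in E, (g * (fun _ => (1 : ℝ≥0∞) : (V → ℝ) → ℝ≥0∞)) X ∂μ = ∫⁻ X in E, g X ∂μ := by
      refine lintegral_congr fun X => ?_
      rw [Pi.mul_apply, mul_one]
    rw [e1] at h1
    refine h1.trans (mul_le_mul' ?_ ?_)
    · exact ENNReal.rpow_le_rpow (setLIntegral_le_lintegral _ _) (by norm_num)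
    · refine ENNReal.rpow_le_rpow ?_ (by norm_num)
      simp
  have hg2 : ∀ X, g X ^ (2 : ℝ) = ENNReal.ofReal (Real.exp (8 * oscH c ρ X)) := by
    intro X
    rw [hg]
    simp only
    rw [ENNReal.ofReal_rpow_of_pos (Real.exp_pos _), ← Real.exp_mul]
    congr 2
    ring
  have hI : ∫⁻ X, g X ^ (2 : ℝ) ∂μ ≤ ENNReal.ofReal (C8 * Real.exp (8 * C8 * |H|)) := by
    rw [lintegral_congr hg2]
    refine (h8 z c R ρ hρ hR hQ β).trans (ENNReal.ofReal_le_ofReal ?_)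
    refine mul_le_mul_of_nonneg_left (Real.exp_le_exp.2 ?_) hC8.le
    have ho0 : 0 ≤ oscH z R β := osc_nonneg _ _
    have hr1 : (ρ : ℝ) / R ≤ 1 := by
      rw [div_le_one hR0]
      have h3 : ρ ≤ R := by omega
      exact_mod_cast h3
    have h4 : oscH z R β ≤ |H| := hH.trans (le_abs_self H)
    have h5 : C8 * (ρ : ℝ) / R ≤ C8 := by
      rw [mul_div_assoc]
      exact mul_le_of_le_one_right hC8.le hr1
    calc 8 * (C8 * (ρ : ℝ) / R) * oscH z R β ≤ 8 * C8 * oscH z R β :=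
          mul_le_mul_of_nonneg_right (by linarith) ho0
      _ ≤ 8 * C8 * |H| := mul_le_mul_of_nonneg_left h4 (by positivity)
  -- the L4 norm
  have hN : ∫⁻ X, (E.indicator (FD t U c ρ)) X ^ (4 : ℕ) ∂μ = ∫⁻ X in E, FD t U c ρ X ^ (4 : ℕ) ∂μ := by
    rw [← lintegral_indicator hE.1]
    refine lintegral_congr fun X => ?_
    by_cases hX : X ∈ E
    · simp [Set.indicator_of_mem hX]
    · simp [Set.indicator_of_notMem hX]
  unfold N4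
  rw [hN]
  calc (∫⁻ X in E, FD t U c ρ X ^ (4 : ℕ) ∂μ) ^ (1 / 4 : ℝ)
      ≤ (Lam t ρ ^ (4 : ℕ) * ((ENNReal.ofReal (C8 * Real.exp (8 * C8 * |H|))) ^ (1 / 2 : ℝ)
          * (μ E) ^ (1 / 2 : ℝ))) ^ (1 / 4 : ℝ) := by
        refine ENNReal.rpow_le_rpow (hL.trans (mul_le_mul' le_rfl (hCS.trans (mul_le_mul' ?_ le_rfl))))
          (by norm_num)
        exact ENNReal.rpow_le_rpow hI (by norm_num)
    _ = (ENNReal.ofReal (C8 * Real.exp (8 * C8 * |H|))) ^ (1 / 8 : ℝ) * Lam t ρ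
          * (μ E) ^ (1 / 8 : ℝ) := by
        rw [ENNReal.mul_rpow_of_nonneg _ _ (by norm_num), ENNReal.mul_rpow_of_nonneg _ _ (by norm_num),
          ← ENNReal.rpow_mul, ← ENNReal.rpow_mul, ← ENNReal.rpow_natCast, ← ENNReal.rpow_mul]
        norm_num
        ring

/-- norm of a child on an event outside it -/
theorem child_ev : ∃ C : ℝ → ℝ≥0∞, (∀ H, C H < ⊤) ∧ ∀ (t : ℝ) (U : Finset V) (z c : V) (R ρ : ℕ), IsU ρ c U →
    1 ≤ ρ → 400 * ρ ≤ R → Q c (8 * ρ) ⊆ Q z (3 * R) → ∀ (β : V → ℝ) (H : ℝ), oscH z R β ≤ H →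
    ∀ E : Set (V → ℝ), LocEv (Q c (8 * ρ) : Set V)ᶜ E →
    N4 (gam (Q z (8 * R)) β) (E.indicator (FD t U c ρ)) ≤
      C H * Lam t ρ * (gam (Q z (8 * R)) β E) ^ (1 / 8 : ℝ) := by
  obtain ⟨C, hC, h⟩ := child_ev'
  refine ⟨C, hC, ?_⟩
  intro t U z c R ρ hU hρ hR hQ β H hH E hE
  exact h t U z c R ρ hU hρ hR (hQ.trans (ch_Q_mono (by omega))) β H hH E hE

/-- norm of a child -/
theorem child_univ : ∃ C : ℝ → ℝ≥0∞, (∀ H, C H < ⊤) ∧ ∀ (t : ℝ) (U : Finset V) (z c : V) (R ρ : ℕ), IsU ρ c U →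
    1 ≤ ρ → 400 * ρ ≤ R → Q c (8 * ρ) ⊆ Q z (3 * R + 8 * ρ) → ∀ (β : V → ℝ) (H : ℝ), oscH z R β ≤ H →
    N4 (gam (Q z (8 * R)) β) (FD t U c ρ) ≤ C H * Lam t ρ := by
  obtain ⟨C, hC, h⟩ := child_ev'
  refine ⟨C, hC, ?_⟩
  intro t U z c R ρ hU hρ hR hQ β H hH
  have h1 := h t U z c R ρ hU hρ hR hQ β H hH univ ⟨MeasurableSet.univ, fun X X' _ => by simp⟩
  rw [Set.indicator_univ, measure_univ, ENNReal.one_rpow, mul_one] at h1
  exact h1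

/-- L4 norm of a finite supremum -/
theorem N4_biSup_le (μ : Measure (V → ℝ)) {ι : Type*} (s : Finset ι) (F : ι → (V → ℝ) → ℝ≥0∞)
    (hF : ∀ c ∈ s, Measurable (F c)) (B : ℝ≥0∞) (hB : ∀ c ∈ s, N4 μ (F c) ≤ B) :
    N4 μ (fun X => ⨆ c ∈ s, F c X) ≤ (s.card : ℝ≥0∞) ^ (1 / 4 : ℝ) * B := by
  have h1 : ∀ X, (⨆ c ∈ s, F c X) ^ (4 : ℕ) ≤ ∑ c ∈ s, F c X ^ (4 : ℕ) := by
    intro X
    rcases s.eq_empty_or_nonempty with hs | hs
    · subst hs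
      simp
    · obtain ⟨c0, hc0, hmax⟩ := Finset.exists_max_image s (fun c => F c X) hs
      have h2 : ⨆ c ∈ s, F c X ≤ F c0 X := iSup₂_le hmax
      calc (⨆ c ∈ s, F c X) ^ (4 : ℕ) ≤ F c0 X ^ (4 : ℕ) := by gcongr
        _ ≤ ∑ c ∈ s, F c X ^ (4 : ℕ) :=
          Finset.single_le_sum (f := fun c => F c X ^ (4 : ℕ)) (fun _ _ => zero_le) hc0
  have h3 : ∀ c ∈ s, ∫⁻ X, F c X ^ (4 : ℕ) ∂μ ≤ B ^ (4 : ℕ) := by
    intro c hc
    have h4 := hB c hc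
    unfold N4 at h4
    calc ∫⁻ X, F c X ^ (4 : ℕ) ∂μ = ((∫⁻ X, F c X ^ (4 : ℕ) ∂μ) ^ (1 / 4 : ℝ)) ^ (4 : ℕ) := by
          rw [← ENNReal.rpow_natCast, ← ENNReal.rpow_mul]
          norm_num
      _ ≤ B ^ (4 : ℕ) := by gcongr
  unfold N4
  calc (∫⁻ X, (⨆ c ∈ s, F c X) ^ (4 : ℕ) ∂μ) ^ (1 / 4 : ℝ)
      ≤ ((s.card : ℝ≥0∞) * B ^ (4 : ℕ)) ^ (1 / 4 : ℝ) := by
        refine ENNReal.rpow_le_rpow ?_ (by norm_num)
        calc ∫⁻ X, (⨆ c ∈ s, F c X) ^ (4 : ℕ) ∂μ ≤ ∫⁻ X, ∑ c ∈ s, F c X ^ (4 : ℕ) ∂μ :=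
              lintegral_mono h1
          _ = ∑ c ∈ s, ∫⁻ X, F c X ^ (4 : ℕ) ∂μ :=
              lintegral_finsetSum _ (fun c hc => (hF c hc).pow_const _)
          _ ≤ ∑ c ∈ s, B ^ (4 : ℕ) := Finset.sum_le_sum h3
          _ = (s.card : ℝ≥0∞) * B ^ (4 : ℕ) := by simp
    _ = (s.card : ℝ≥0∞) ^ (1 / 4 : ℝ) * B := by
        rw [ENNReal.mul_rpow_of_nonneg _ _ (by norm_num), ← ENNReal.rpow_natCast B, ← ENNReal.rpow_mul]
        norm_num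

/-- position of a child -/
theorem Q_child_sub {z c : V} {R ρ m : ℤ} (hc : c ∈ Q z m) (h : m + ρ ≤ R) : Q c ρ ⊆ Q z R := by
  intro x hx
  rw [ch_mem_Q] at hx hc ⊢
  have h1 := ch_tri x z c
  have h2 : dI z c = dI c z := by
    unfold dI
    rw [abs_sub_comm, abs_sub_comm z.2 c.2]
  linarith

end GF
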