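import Pool.Agent.Lib.MP_acf58e_gf.Func
import Pool.Agent.Lib.MP_acf58e_gf.L4C
import Pool.Agent.Lib.MP_acf58e_gf.Lchild
import Pool.Agent.Lib.MP_acf58e_gf.L2

open MeasureTheory Set Filter Topology ProbabilityTheory
open scoped ENNReal

namespace GF

private theorem L4E_N4_mono {μ : Measure (V → ℝ)} {F G : (V → ℝ) → ℝ≥0∞} (h : ∀ X, F X ≤ G X) :
    N4 μ F ≤ N4 μ G := by
  unfold N4
  apply ENNReal.rpow_le_rpow _ (by norm_num)
  exact lintegral_mono (fun X => pow_le_pow_left' (h X) 4)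

private theorem L4E_N4_eq {μ : Measure (V → ℝ)} (F : (V → ℝ) → ℝ≥0∞) :
    N4 μ F = (∫⁻ X, F X ^ (4 : ℝ) ∂μ) ^ (1 / 4 : ℝ) := by
  unfold N4
  congr 1
  apply lintegral_congr
  intro X
  rw [← ENNReal.rpow_natCast]
  norm_num

private theorem L4E_N4_add {μ : Measure (V → ℝ)} {F G : (V → ℝ) → ℝ≥0∞} (hF : Measurable F)
    (hG : Measurable G) : N4 μ (fun X => F X + G X) ≤ N4 μ F + N4 μ G := by
  rw [L4E_N4_eq, L4E_N4_eq, L4E_N4_eq]
  have := ENNReal.lintegral_Lp_add_le (μ := μ) hF.aemeasurable hG.aemeasurable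
    (show (1:ℝ) ≤ 4 by norm_num)
  simpa using this

private theorem L4E_N4_sum {ι : Type*} {μ : Measure (V → ℝ)} (s : Finset ι)
    (F : ι → (V → ℝ) → ℝ≥0∞) (hF : ∀ i ∈ s, Measurable (F i)) :
    N4 μ (fun X => ∑ i ∈ s, F i X) ≤ ∑ i ∈ s, N4 μ (F i) := by
  classical
  induction s using Finset.induction_on with
  | empty =>
    simp [N4]
  | insert a s ha ih =>
    simp only [Finset.sum_insert ha]
    refine le_trans (L4E_N4_add (hF a (Finset.mem_insert_self a s)) ?_) ?_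
    · exact Finset.measurable_fun_sum s (fun i hi => hF i (Finset.mem_insert_of_mem hi))
    · exact add_le_add le_rfl (ih (fun i hi => hF i (Finset.mem_insert_of_mem hi)))

private theorem L4E_mem_Q {z p : V} {r : ℤ} : p ∈ Q z r ↔ dI z p ≤ r := by
  unfold Q dI
  rw [Finset.mem_Icc, Prod.le_def, Prod.le_def, max_le_iff, abs_le, abs_le]
  constructor
  · rintro ⟨⟨h1, h2⟩, h3, h4⟩
    simp only at h1 h2 h3 h4
    refine ⟨⟨?_, ?_⟩, ?_, ?_⟩ <;> linarith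
  · rintro ⟨⟨h1, h2⟩, h3, h4⟩
    refine ⟨⟨?_, ?_⟩, ?_, ?_⟩ <;> simp only <;> linarith

private theorem L4E_mem_Rc {p : V} {a b c d : ℤ} :
    p ∈ Rc a b c d ↔ a ≤ p.1 ∧ p.1 ≤ b ∧ c ≤ p.2 ∧ p.2 ≤ d := by
  unfold Rc
  rw [Finset.mem_Icc, Prod.le_def, Prod.le_def]
  constructor
  · rintro ⟨⟨h1, h2⟩, h3, h4⟩
    exact ⟨h1, h3, h2, h4⟩
  · rintro ⟨h1, h2, h3, h4⟩
    exact ⟨⟨h1, h3⟩, h2, h4⟩

private theorem L4E_rect {R : ℕ} {z : V} {U : Finset V} (hU : IsU R z U) :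
    ∃ a b c d : ℤ, Q z (2 * R) ∩ U = Rc a b c d ∧ 2 * (R : ℤ) ≤ b - a ∧ 2 * (R : ℤ) ≤ d - c := by
  obtain ⟨a, b, c, d, rfl, hz, h1, h2⟩ := hU
  rw [L4E_mem_Rc] at hz
  obtain ⟨z1, z2, z3, z4⟩ := hz
  refine ⟨max (z.1 - 2 * R) a, min (z.1 + 2 * R) b, max (z.2 - 2 * R) c, min (z.2 + 2 * R) d, ?_, ?_, ?_⟩
  · ext p
    rw [Finset.mem_inter, L4E_mem_Rc, L4E_mem_Rc]
    unfold Q
    rw [Finset.mem_Icc, Prod.le_def, Prod.le_def]
    simp only [max_le_iff, le_min_iff]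
    tauto
  · rcases max_cases (z.1 - 2 * (R:ℤ)) a with h | h <;>
    rcases min_cases (z.1 + 2 * (R:ℤ)) b with h' | h' <;> rw [h.1, h'.1] <;> linarith
  · rcases max_cases (z.2 - 2 * (R:ℤ)) c with h | h <;>
    rcases min_cases (z.2 + 2 * (R:ℤ)) d with h' | h' <;> rw [h.1, h'.1] <;> linarith

/-- L4E: many components -/
theorem L4E {w0 : ℝ} (h0 : 0 < w0) (hJ : JProp w0) (b2 : ℕ) (hb2 : 3200 ≤ b2) (H1 : ℝ) (η : ℝ≥0∞) (hη : 0 < η) :
    ∃ M0 : ℕ, ∀ (t : ℝ), 0 ≤ t → ∀ (U : Finset V) (z : V) (R : ℕ), IsU R z U → 2 * b2 ≤ R → ∀ β : V → ℝ,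
      oscH z R β ≤ H1 →
      N4 (gam (Q z (8 * R)) β) ({X | M0 ≤ FM t U z R X}.indicator (FD t U z R)) ≤ η * Lam t (R / b2) := by
  obtain ⟨C, hC, hchild⟩ := child_ev
  obtain ⟨K, hK⟩ := L4B
  obtain ⟨B, hB⟩ : ∃ B : ℝ≥0∞, B = ((8 * b2 + 1) ^ 2 : ℕ) * C H1 + 1 := ⟨_, rfl⟩
  have hBtop : B ≠ ⊤ := by
    rw [hB]
    exact ENNReal.add_ne_top.2 ⟨ENNReal.mul_ne_top (ENNReal.natCast_ne_top _) (hC H1).ne, ENNReal.one_ne_top⟩
  have hB0 : B ≠ 0 := by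
    rw [hB]; simp
  have hη' : 0 < (η / B) ^ (8 : ℝ) := by
    apply ENNReal.rpow_pos_of_nonneg _ (by norm_num)
    exact ENNReal.div_pos hη.ne' hBtop
  obtain ⟨m, hm⟩ := L4C h0 hJ H1 ((η / B) ^ (8 : ℝ)) hη'
  refine ⟨K * (m + 1), ?_⟩
  intro t ht U z R hU hR β hβ
  have hR1 : 6400 ≤ R := by omega
  obtain ⟨ρ, hρdef⟩ : ∃ ρ : ℕ, ρ = R / b2 := ⟨_, rfl⟩
  rw [← hρdef]
  have hρ1 : 2 ≤ ρ := by
    rw [hρdef]
    exact (Nat.le_div_iff_mul_le (by omega)).2 hR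
  have hρ2 : b2 * ρ ≤ R := by
    rw [hρdef]; exact Nat.mul_div_le R b2
  have hρ3 : R ≤ 2 * b2 * ρ := by
    have := Nat.lt_mul_div_succ R (show 0 < b2 by omega)
    rw [← hρdef] at this
    nlinarith
  have hρ4 : 3200 * ρ ≤ R := le_trans (Nat.mul_le_mul_right ρ hb2) hρ2
  obtain ⟨a, b, c, d, hrect, hab, hcd⟩ := L4E_rect hU
  obtain ⟨Nt, hNt⟩ := exists_net a b c d ρ (by omega)
  rw [← hrect] at hNt
  obtain ⟨hN1, hN2, hN3⟩ := hNt
  have hcard : Nt.card ≤ (8 * b2 + 1) ^ 2 := by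
    have h := hN3 z (4 * b2)
    have e : Nt.filter (fun c => dI z c ≤ (4 * b2 * ρ : ℕ)) = Nt := by
      apply Finset.filter_true_of_mem
      intro c hc
      have h1 := (Finset.mem_inter.1 (hN1 hc)).1
      rw [L4E_mem_Q] at h1
      have h2 : ((2 * R : ℕ) : ℤ) ≤ ((4 * b2 * ρ : ℕ) : ℤ) := by
        exact_mod_cast (by nlinarith : 2 * R ≤ 4 * b2 * ρ)
      refine le_trans h1 ?_
      push_cast at h2 ⊢
      exact h2
    rw [e] at h
    refine le_trans h (le_of_eq ?_)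
    ring
  have hQsub : ∀ y ∈ Nt, Q y (8 * ρ) ⊆ Q z (3 * R) := by
    intro y hy p hp
    have h1 := (Finset.mem_inter.1 (hN1 hy)).1
    rw [L4E_mem_Q] at h1 hp ⊢
    unfold dI at h1 hp ⊢
    have h2 : (8 * (ρ : ℤ)) ≤ R := by exact_mod_cast (by omega : 8 * ρ ≤ R)
    rw [max_le_iff, abs_le, abs_le] at h1 hp ⊢
    refine ⟨⟨?_, ?_⟩, ?_, ?_⟩ <;> linarith [h1.1.1, h1.1.2, h1.2.1, h1.2.2, hp.1.1, hp.1.2, hp.2.1, hp.2.2]
  have hloc : ∀ y : V, LocEv (Q y (8 * ρ) : Set V)ᶜ {X | StripEv t w0 (2 * m + 1) a b c d R y ρ X} := by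
    intro y
    obtain ⟨h1, h2⟩ := meas_StripEv t w0 (2 * m + 1) a b c d R y ρ
    exact ⟨h1, fun X X' h => h2 X X' (fun v hv => h v hv.2)⟩
  have hsub : Rc a b c d ⊆ Q z (2 * R) := by
    rw [← hrect]; exact Finset.inter_subset_left
  calc N4 (gam (Q z (8 * R)) β) ({X | K * (m + 1) ≤ FM t U z R X}.indicator (FD t U z R))
      ≤ N4 (gam (Q z (8 * R)) β) (fun X => ∑ y ∈ Nt,
          {X | StripEv t w0 (2 * m + 1) a b c d R y ρ X}.indicator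
            (FD t (Q z (2 * R) ∩ U) y ρ) X) := by
        apply L4E_N4_mono
        intro X
        by_cases hX : X ∈ {X | K * (m + 1) ≤ FM t U z R X}
        · rw [Set.indicator_of_mem hX]
          refine le_trans (L2 t ht U z R ρ hU (by omega) (by omega) Nt hN1 hN2 X) ?_
          apply Finset.sum_le_sum
          intro y hy
          rw [Set.indicator_of_mem]
          exact hK t w0 h0.le m U z y R ρ hU (by omega) hρ4 a b c d hrect X hX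
        · rw [Set.indicator_of_notMem hX]
          exact bot_le
    _ ≤ ∑ y ∈ Nt, N4 (gam (Q z (8 * R)) β) ({X | StripEv t w0 (2 * m + 1) a b c d R y ρ X}.indicator
            (FD t (Q z (2 * R) ∩ U) y ρ)) := by
        apply L4E_N4_sum
        intro y _
        exact (meas_FD _ _ _ _).indicator (hloc y).1
    _ ≤ ∑ y ∈ Nt, C H1 * Lam t ρ * (η / B) := by
        apply Finset.sum_le_sum
        intro y hy
        refine le_trans (hchild t (Q z (2 * R) ∩ U) z y R ρ (hU.inter (by omega) (hN1 hy)) (by omega)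
          (by omega) (hQsub y hy) β H1 hβ _ (hloc y)) ?_
        apply mul_le_mul' le_rfl
        have h1 := hm t z y R ρ (by omega) a b c d hsub hab hcd β hβ
        calc (gam (Q z (8 * R)) β {X | StripEv t w0 (2 * m + 1) a b c d R y ρ X}) ^ (1 / 8 : ℝ)
            ≤ ((η / B) ^ (8 : ℝ)) ^ (1 / 8 : ℝ) := ENNReal.rpow_le_rpow h1 (by norm_num)
          _ = η / B := by
            rw [← ENNReal.rpow_mul]; norm_num
    _ = (Nt.card : ℝ≥0∞) * (C H1 * Lam t ρ * (η / B)) := by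
        rw [Finset.sum_const, nsmul_eq_mul]
    _ ≤ (((8 * b2 + 1) ^ 2 : ℕ) : ℝ≥0∞) * (C H1 * Lam t ρ * (η / B)) := by
        apply mul_le_mul' _ le_rfl
        exact_mod_cast hcard
    _ = ((((8 * b2 + 1) ^ 2 : ℕ) : ℝ≥0∞) * C H1) * (η / B) * Lam t ρ := by ring
    _ ≤ B * (η / B) * Lam t ρ := by
        apply mul_le_mul' _ le_rfl
        apply mul_le_mul' _ le_rfl
        rw [hB]
        exact le_self_add
    _ = η * Lam t ρ := by
        rw [ENNReal.mul_div_cancel hB0 hBtop]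

end GF
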