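import Pool.Agent.Lib.MP_acf58e_gf.Func
import Pool.Agent.Lib.MP_acf58e_gf.G2
import Pool.Agent.Lib.MP_acf58e_gf.P8b
import Pool.Agent.Lib.MP_acf58e_gf.Lenv
import Pool.Agent.Lib.MP_acf58e_gf.L0b

open MeasureTheory Set Filter Topology ProbabilityTheory
open scoped ENNReal

namespace GF

private theorem Q_mono_h35 {z : V} {r s : ℤ} (h : r ≤ s) : Q z r ⊆ Q z s := by
  unfold Q
  refine Finset.Icc_subset_Icc ?_ ?_
  · exact ⟨by simp only; linarith, by simp only; linarith⟩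
  · exact ⟨by simp only; linarith, by simp only; linarith⟩

/-- L4F: bad events in a general environment -/
theorem L4F (H1 : ℝ) (η : ℝ≥0∞) (hη : 0 < η) : ∃ ε1 : ℝ≥0∞, 0 < ε1 ∧ ∀ (z w : V) (R ρ : ℕ), 1 ≤ ρ → 400 * ρ ≤ R →
    Q w (40 * ρ) ⊆ Q z (3 * R) → ∀ E : Set (V → ℝ), LocEv (Q w (8 * ρ) : Set V) E →
    (∀ a : ℝ, gam (Q w (40 * ρ)) (fun _ => a) E ≤ ε1) → ∀ β : V → ℝ, oscH z R β ≤ H1 →
    gam (Q z (8 * R)) β E ≤ η := by
  obtain ⟨C, hC, henv⟩ := env_compare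
  obtain ⟨C1, hC1, hstep⟩ := osc_step 1
  obtain ⟨η0, hη0, hη0'⟩ : ∃ η0 : ℝ, 0 < η0 ∧ ENNReal.ofReal η0 ≤ η := by
    by_cases h : η = ⊤
    · exact ⟨1, one_pos, by rw [h]; exact le_top⟩
    · exact ⟨η.toReal, ENNReal.toReal_pos hη.ne' h, by rw [ENNReal.ofReal_toReal h]⟩
  obtain ⟨H, hH0, hH⟩ : ∃ H : ℝ, 0 ≤ H ∧ Real.exp (-H) * (Real.exp H1 * C1) ≤ η0 / 2 := by
    have h1 : 0 < Real.exp H1 * C1 := by positivity
    refine ⟨max 0 (Real.log (2 * (Real.exp H1 * C1) / η0)), le_max_left _ _, ?_⟩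
    have h2 : Real.exp (-max 0 (Real.log (2 * (Real.exp H1 * C1) / η0))) ≤
        η0 / (2 * (Real.exp H1 * C1)) := by
      have h3 : Real.exp (-max 0 (Real.log (2 * (Real.exp H1 * C1) / η0))) ≤
          Real.exp (-Real.log (2 * (Real.exp H1 * C1) / η0)) :=
        Real.exp_le_exp.2 (neg_le_neg (le_max_right _ _))
      rw [Real.exp_neg (Real.log _), Real.exp_log (by positivity), inv_div] at h3
      exact h3
    calc Real.exp (-max 0 (Real.log (2 * (Real.exp H1 * C1) / η0))) * (Real.exp H1 * C1)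
        ≤ η0 / (2 * (Real.exp H1 * C1)) * (Real.exp H1 * C1) :=
          mul_le_mul_of_nonneg_right h2 h1.le
      _ = η0 / 2 := by field_simp
  obtain ⟨x1, hx1⟩ : ∃ x1 : ℝ, x1 = η0 / 2 * Real.exp (-(C * (1 + H ^ 2))) := ⟨_, rfl⟩
  have hx10 : 0 < x1 := by rw [hx1]; positivity
  refine ⟨ENNReal.ofReal (x1 ^ 2), by rw [ENNReal.ofReal_pos]; positivity, ?_⟩
  intro z w R ρ hρ hR hQ E hE hEa β hβ
  have hloc : LocEv (Q w (3 * ((5 * ρ : ℕ) : ℤ)) : Set V) E := by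
    refine ⟨hE.1, fun X X' h => hE.2 X X' fun v hv => h v ?_⟩
    have : Q w (8 * (ρ : ℤ)) ⊆ Q w (3 * ((5 * ρ : ℕ) : ℤ)) := Q_mono_h35 (by push_cast; linarith)
    exact this hv
  have e40 : (40 : ℤ) * ρ = 8 * ((5 * ρ : ℕ) : ℤ) := by push_cast; ring
  rw [e40] at hQ hEa
  have hsub : Q w (8 * ((5 * ρ : ℕ) : ℤ)) ⊆ Q z (8 * (R : ℤ)) :=
    hQ.trans (Q_mono_h35 (by linarith [(Nat.cast_nonneg R : (0 : ℤ) ≤ R)]))
  obtain ⟨μ, hμ⟩ : ∃ μ, μ = gam (Q z (8 * (R : ℤ))) β := ⟨_, rfl⟩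
  have hμp : IsProbabilityMeasure μ := by rw [hμ]; infer_instance
  have hmeas : Measurable fun X : V → ℝ => oscH w (5 * ρ) X :=
    measurable_osc _ fun x => measurable_hx _ x
  -- exponential moment of the oscillation
  have hmom : ∫⁻ X, ENNReal.ofReal (Real.exp (oscH w (5 * ρ) X)) ∂μ ≤
      ENNReal.ofReal (Real.exp H1 * C1) := by
    have h1 := hstep (Q z (8 * (R : ℤ))) β w ((5 * ρ : ℕ) : ℤ) (by exact_mod_cast (by omega))
      hsub
    rw [← hμ] at h1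
    calc ∫⁻ X, ENNReal.ofReal (Real.exp (oscH w (5 * ρ) X)) ∂μ
        ≤ ∫⁻ X, ENNReal.ofReal (Real.exp H1) * ENNReal.ofReal (Real.exp (1 *
          osc (Q w (4 * ((5 * ρ : ℕ) : ℤ))) (fun x => hx (Q w (8 * ((5 * ρ : ℕ) : ℤ))) X x -
            hx (Q z (8 * (R : ℤ))) β x))) ∂μ := by
          refine lintegral_mono fun X => ?_
          rw [← ENNReal.ofReal_mul (Real.exp_pos _).le, ← Real.exp_add]
          refine ENNReal.ofReal_le_ofReal (Real.exp_le_exp.2 ?_)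
          have h2 := osc_add_le (Q w (4 * ((5 * ρ : ℕ) : ℤ)))
            (fun x => hx (Q w (8 * ((5 * ρ : ℕ) : ℤ))) X x - hx (Q z (8 * (R : ℤ))) β x)
            (fun x => hx (Q z (8 * (R : ℤ))) β x)
          simp only [sub_add_cancel] at h2
          have h3 : osc (Q w (4 * ((5 * ρ : ℕ) : ℤ))) (fun x => hx (Q z (8 * (R : ℤ))) β x) ≤
              H1 := by
            refine le_trans (osc_mono ?_ _) hβ
            refine (Q_mono_h35 ?_).trans (hQ.trans (Q_mono_h35 ?_))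
            · push_cast
              linarith [(Nat.cast_nonneg ρ : (0 : ℤ) ≤ ρ)]
            · linarith [(Nat.cast_nonneg R : (0 : ℤ) ≤ R)]
          have h4 : oscH w (5 * ρ) X = osc (Q w (4 * ((5 * ρ : ℕ) : ℤ)))
              (fun x => hx (Q w (8 * ((5 * ρ : ℕ) : ℤ))) X x) := rfl
          rw [h4]
          linarith
      _ = ENNReal.ofReal (Real.exp H1) * ∫⁻ X, ENNReal.ofReal (Real.exp (1 *
          osc (Q w (4 * ((5 * ρ : ℕ) : ℤ))) (fun x => hx (Q w (8 * ((5 * ρ : ℕ) : ℤ))) X x -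
            hx (Q z (8 * (R : ℤ))) β x))) ∂μ := by
          rw [lintegral_const_mul' _ _ ENNReal.ofReal_ne_top]
      _ ≤ ENNReal.ofReal (Real.exp H1) * ENNReal.ofReal C1 := by gcongr
      _ = _ := by rw [← ENNReal.ofReal_mul (Real.exp_pos _).le]
  -- the pointwise bound
  have hpt : ∀ X : V → ℝ, gam (Q w (8 * ((5 * ρ : ℕ) : ℤ))) X E ≤
      ENNReal.ofReal (Real.exp (-H)) * ENNReal.ofReal (Real.exp (oscH w (5 * ρ) X)) +
        ENNReal.ofReal (η0 / 2) := by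
    intro X
    rcases le_or_gt (oscH w (5 * ρ) X) H with h | h
    · refine le_trans ?_ le_add_self
      have h1 := henv w (5 * ρ) (by omega) X E hloc
      refine h1.trans ?_
      have h2 := hEa (hx (Q w (8 * ((5 * ρ : ℕ) : ℤ))) X w)
      have h3 : (gam (Q w (8 * ((5 * ρ : ℕ) : ℤ)))
          (fun _ => hx (Q w (8 * ((5 * ρ : ℕ) : ℤ))) X w) E) ^ (1 / 2 : ℝ) ≤
          ENNReal.ofReal x1 := by
        refine (ENNReal.rpow_le_rpow h2 (by norm_num)).trans ?_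
        rw [ENNReal.ofReal_rpow_of_pos (by positivity), ← Real.rpow_natCast,
          ← Real.rpow_mul hx10.le]
        norm_num
      have h4 : Real.exp (C * (1 + oscH w (5 * ρ) X ^ 2)) ≤ Real.exp (C * (1 + H ^ 2)) := by
        refine Real.exp_le_exp.2 (mul_le_mul_of_nonneg_left ?_ hC.le)
        have h5 : 0 ≤ oscH w (5 * ρ) X := osc_nonneg _ _
        have := pow_le_pow_left₀ h5 h 2
        linarith
      calc ENNReal.ofReal (Real.exp (C * (1 + oscH w (5 * ρ) X ^ 2))) *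
          (gam (Q w (8 * ((5 * ρ : ℕ) : ℤ)))
            (fun _ => hx (Q w (8 * ((5 * ρ : ℕ) : ℤ))) X w) E) ^ (1 / 2 : ℝ)
          ≤ ENNReal.ofReal (Real.exp (C * (1 + H ^ 2))) * ENNReal.ofReal x1 := by gcongr
        _ = ENNReal.ofReal (η0 / 2) := by
          rw [← ENNReal.ofReal_mul (Real.exp_pos _).le, hx1]
          congr 1
          rw [mul_comm (Real.exp (C * (1 + H ^ 2))), mul_assoc, ← Real.exp_add]
          simp
    · refine le_trans (prob_le_one) (le_trans ?_ le_self_add)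
      rw [← ENNReal.ofReal_mul (Real.exp_pos _).le, ← Real.exp_add, ← ENNReal.ofReal_one]
      refine ENNReal.ofReal_le_ofReal ?_
      rw [← Real.exp_zero]
      exact Real.exp_le_exp.2 (by linarith)
  have h1 := dlr_apply hsub β hE.1
  rw [h1, ← hμ]
  calc ∫⁻ X, gam (Q w (8 * ((5 * ρ : ℕ) : ℤ))) X E ∂μ
      ≤ ∫⁻ X, (ENNReal.ofReal (Real.exp (-H)) * ENNReal.ofReal (Real.exp (oscH w (5 * ρ) X)) +
        ENNReal.ofReal (η0 / 2)) ∂μ := lintegral_mono hpt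
    _ = ENNReal.ofReal (Real.exp (-H)) * ∫⁻ X, ENNReal.ofReal (Real.exp (oscH w (5 * ρ) X)) ∂μ +
        ENNReal.ofReal (η0 / 2) := by
        rw [lintegral_add_right _ measurable_const, lintegral_const_mul' _ _ ENNReal.ofReal_ne_top,
          lintegral_const, measure_univ, mul_one]
    _ ≤ ENNReal.ofReal (Real.exp (-H)) * ENNReal.ofReal (Real.exp H1 * C1) +
        ENNReal.ofReal (η0 / 2) := by gcongr
    _ ≤ ENNReal.ofReal (η0 / 2) + ENNReal.ofReal (η0 / 2) := by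
        gcongr
        rw [← ENNReal.ofReal_mul (Real.exp_pos _).le]
        exact ENNReal.ofReal_le_ofReal hH
    _ = ENNReal.ofReal η0 := by
        rw [← ENNReal.ofReal_add (by positivity) (by positivity)]
        congr 1
        ring
    _ ≤ η := hη0'

end GF
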