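import Pool.Agent.Lib.MP_acf58e_gf.Func
import Pool.Agent.Lib.MP_acf58e_gf.Lmeas
import Pool.Agent.Lib.MP_acf58e_gf.Lnet
import Pool.Agent.Lib.MP_acf58e_gf.L4F
import Pool.Agent.Lib.MP_acf58e_gf.Lchild
import Pool.Agent.Lib.MP_acf58e_gf.L2

open MeasureTheory Set Filter Topology ProbabilityTheory
open scoped ENNReal

namespace GF

namespace L4Gaux

theorem mem_Q_iff {z x : V} {r : ℤ} : x ∈ Q z r ↔ dI x z ≤ r := by
  unfold Q dI
  rw [Finset.mem_Icc, Prod.le_def, Prod.le_def, max_le_iff, abs_le, abs_le]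
  constructor
  · rintro ⟨⟨h1, h2⟩, h3, h4⟩
    refine ⟨⟨?_, ?_⟩, ?_, ?_⟩ <;> simp only at h1 h2 h3 h4 ⊢ <;> linarith
  · rintro ⟨⟨h1, h2⟩, h3, h4⟩
    refine ⟨⟨?_, ?_⟩, ?_, ?_⟩ <;> simp only at h1 h2 h3 h4 ⊢ <;> linarith

theorem dI_comm (x y : V) : dI x y = dI y x := by
  unfold dI
  rw [abs_sub_comm x.1, abs_sub_comm x.2]

theorem dI_tri (x y z : V) : dI x z ≤ dI x y + dI y z := by
  unfold dI
  refine max_le ?_ ?_
  · exact (abs_sub_le x.1 y.1 z.1).trans (add_le_add (le_max_left _ _) (le_max_left _ _))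
  · exact (abs_sub_le x.2 y.2 z.2).trans (add_le_add (le_max_right _ _) (le_max_right _ _))

theorem N4_mono (μ : Measure (V → ℝ)) {F G : (V → ℝ) → ℝ≥0∞} (h : ∀ X, F X ≤ G X) :
    N4 μ F ≤ N4 μ G := by
  unfold N4
  refine ENNReal.rpow_le_rpow (lintegral_mono fun X => ?_) (by norm_num)
  exact pow_le_pow_left' (h X) 4

theorem N4_add (μ : Measure (V → ℝ)) {F G : (V → ℝ) → ℝ≥0∞} (hF : Measurable F)
    (hG : Measurable G) : N4 μ (fun X => F X + G X) ≤ N4 μ F + N4 μ G := by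
  unfold N4
  have h := ENNReal.lintegral_Lp_add_le (μ := μ) (p := (4 : ℝ)) hF.aemeasurable hG.aemeasurable
    (by norm_num)
  have e : ∀ x : ℝ≥0∞, x ^ (4 : ℝ) = x ^ (4 : ℕ) := fun x => by
    rw [← ENNReal.rpow_natCast]
    norm_num
  simp only [Pi.add_apply, e] at h
  exact h

theorem N4_const_mul (μ : Measure (V → ℝ)) {c : ℝ≥0∞} (hc : c ≠ ⊤) (F : (V → ℝ) → ℝ≥0∞) :
    N4 μ (fun X => c * F X) = c * N4 μ F := by
  unfold N4
  simp only [mul_pow]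
  rw [lintegral_const_mul' _ _ (ENNReal.pow_ne_top hc),
    ENNReal.mul_rpow_of_nonneg _ _ (by norm_num)]
  congr 1
  rw [← ENNReal.rpow_natCast, ← ENNReal.rpow_mul]
  norm_num

theorem N4_sum (μ : Measure (V → ℝ)) (s : Finset V) (F : V → (V → ℝ) → ℝ≥0∞)
    (hF : ∀ c, Measurable (F c)) : N4 μ (fun X => ∑ c ∈ s, F c X) ≤ ∑ c ∈ s, N4 μ (F c) := by
  classical
  induction s using Finset.induction_on with
  | empty =>
    simp only [Finset.sum_empty]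
    unfold N4
    simp
  | insert a s ha ih =>
    simp only [Finset.sum_insert ha]
    exact (N4_add μ (hF a) (Finset.measurable_sum s fun c _ => hF c)).trans
      (add_le_add le_rfl ih)

/-- the l^4 norm of a finite family -/
noncomputable def l4 (s : Finset V) (F : V → (V → ℝ) → ℝ≥0∞) (X : V → ℝ) : ℝ≥0∞ :=
  (∑ c ∈ s, F c X ^ (4 : ℕ)) ^ (1 / 4 : ℝ)

theorem pow_four_rpow (x : ℝ≥0∞) : (x ^ (4 : ℕ)) ^ (1 / 4 : ℝ) = x := by
  rw [← ENNReal.rpow_natCast, ← ENNReal.rpow_mul]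
  norm_num

theorem rpow_pow_four (x : ℝ≥0∞) : (x ^ (1 / 4 : ℝ)) ^ (4 : ℕ) = x := by
  rw [← ENNReal.rpow_natCast, ← ENNReal.rpow_mul]
  norm_num

theorem le_l4 {s : Finset V} {F : V → (V → ℝ) → ℝ≥0∞} {c : V} (hc : c ∈ s) (X : V → ℝ) :
    F c X ≤ l4 s F X := by
  rw [← pow_four_rpow (F c X)]
  unfold l4
  refine ENNReal.rpow_le_rpow ?_ (by norm_num)
  exact Finset.single_le_sum (f := fun c => F c X ^ (4 : ℕ)) (fun _ _ => zero_le) hc

theorem measurable_l4 (s : Finset V) {F : V → (V → ℝ) → ℝ≥0∞} (hF : ∀ c, Measurable (F c)) :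
    Measurable (l4 s F) := by
  unfold l4
  exact (Finset.measurable_sum s fun c _ => (hF c).pow_const 4).pow_const _

theorem N4_l4 (μ : Measure (V → ℝ)) (s : Finset V) {F : V → (V → ℝ) → ℝ≥0∞}
    (hF : ∀ c, Measurable (F c)) {B : ℝ≥0∞} (hB : ∀ c ∈ s, N4 μ (F c) ≤ B) :
    N4 μ (l4 s F) ≤ (s.card : ℝ≥0∞) ^ (1 / 4 : ℝ) * B := by
  unfold N4
  have h1 : ∀ X, l4 s F X ^ (4 : ℕ) = ∑ c ∈ s, F c X ^ (4 : ℕ) := fun X => by
    unfold l4
    rw [rpow_pow_four]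
  simp only [h1]
  rw [lintegral_finsetSum s fun c _ => (hF c).pow_const 4]
  have h2 : ∑ c ∈ s, ∫⁻ X, F c X ^ (4 : ℕ) ∂μ ≤ (s.card : ℝ≥0∞) * B ^ (4 : ℕ) := by
    rw [← nsmul_eq_mul]
    refine Finset.sum_le_card_nsmul _ _ _ fun c hc => ?_
    have h3 := hB c hc
    have h4 := pow_le_pow_left' h3 4
    unfold N4 at h4
    rwa [rpow_pow_four] at h4
  refine (ENNReal.rpow_le_rpow h2 (by norm_num)).trans ?_
  rw [ENNReal.mul_rpow_of_nonneg _ _ (by norm_num), pow_four_rpow]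

/-- the union of the bad events far from `c` -/
def Far (W : Finset V) (Bad : V → Set (V → ℝ)) (ρ : ℕ) (c : V) : Set (V → ℝ) :=
  ⋃ w ∈ W.filter (fun w => 17 * (ρ : ℤ) < dI w c), Bad w

theorem loc_Far {W : Finset V} {Bad : V → Set (V → ℝ)} {ρ : ℕ}
    (hloc : ∀ w ∈ W, LocEv (Q w (8 * (ρ : ℤ)) : Set V) (Bad w)) (c : V) :
    LocEv (Q c (8 * (ρ : ℤ)) : Set V)ᶜ (Far W Bad ρ c) := by
  have key : ∀ X X' : V → ℝ, (∀ v ∈ (Q c (8 * (ρ : ℤ)) : Set V)ᶜ, X v = X' v) →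
      X ∈ Far W Bad ρ c → X' ∈ Far W Bad ρ c := by
    intro X X' h hX
    unfold Far at hX ⊢
    simp only [mem_iUnion, exists_prop] at hX ⊢
    obtain ⟨w, hw, hX⟩ := hX
    refine ⟨w, hw, ?_⟩
    rw [Finset.mem_filter] at hw
    refine ((hloc w hw.1).2 X X' fun v hv => h v ?_).1 hX
    intro hv'
    have h1 : dI v w ≤ 8 * (ρ : ℤ) := mem_Q_iff.1 hv
    have h2 : dI v c ≤ 8 * (ρ : ℤ) := mem_Q_iff.1 hv'
    have h3 := dI_tri w v c
    rw [dI_comm w v] at h3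
    have h4 := hw.2
    have : (0 : ℤ) ≤ ρ := Nat.cast_nonneg _
    linarith
  refine ⟨?_, fun X X' h => ⟨key X X' h, key X' X fun v hv => (h v hv).symm⟩⟩
  unfold Far
  exact Finset.measurableSet_biUnion _ fun w hw => (hloc w (Finset.mem_filter.1 hw).1).1

theorem point (t : ℝ) (ht : 0 ≤ t) (U : Finset V) (z : V) (R ρ : ℕ) (hU : IsU R z U) (hρ : 1 ≤ ρ)
    (h : 64 * ρ ≤ R) (Nt : Finset V) (hN : IsNet (Q z (2 * R) ∩ U) ρ Nt) (W : Finset V)
    (Bad : V → Set (V → ℝ)) (X : V → ℝ) :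
    (⋃ w ∈ W, Bad w).indicator (FD t U z R) X ≤
      ∑ c ∈ Nt, (Far W Bad ρ c).indicator (FD t (Q z (2 * R) ∩ U) c ρ) X +
        1225 * l4 Nt (fun c => FD t (Q z (2 * R) ∩ U) c ρ) X := by
  classical
  by_cases hX : X ∈ ⋃ w ∈ W, Bad w
  swap
  · rw [indicator_of_notMem hX]
    exact zero_le
  rw [indicator_of_mem hX]
  simp only [mem_iUnion, exists_prop] at hX
  obtain ⟨w, hw, hX⟩ := hX
  refine (L2 t ht U z R ρ hU hρ h Nt hN.1 (fun p hp => hN.2.1 p hp) X).trans ?_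
  obtain ⟨F, hF⟩ : ∃ F : V → (V → ℝ) → ℝ≥0∞, F = fun c => FD t (Q z (2 * R) ∩ U) c ρ := ⟨_, rfl⟩
  have hF' : ∀ c, FD t (Q z (2 * R) ∩ U) c ρ = F c := fun c => by rw [hF]
  simp only [hF']
  obtain ⟨S, hS⟩ : ∃ S, S = Nt.filter (fun c => dI w c ≤ ((17 * ρ : ℕ) : ℤ)) := ⟨_, rfl⟩
  have h1 : ∀ c ∈ Nt, F c X ≤ (Far W Bad ρ c).indicator (F c) X +
      if c ∈ S then l4 Nt F X else 0 := by
    intro c hc
    by_cases hcS : c ∈ S
    · rw [if_pos hcS]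
      exact (le_l4 hc X).trans le_add_self
    · have h2 : X ∈ Far W Bad ρ c := by
        unfold Far
        simp only [mem_iUnion, exists_prop]
        refine ⟨w, ?_, hX⟩
        rw [Finset.mem_filter]
        refine ⟨hw, ?_⟩
        by_contra hcon
        apply hcS
        rw [hS, Finset.mem_filter]
        refine ⟨hc, ?_⟩
        push_cast
        exact not_lt.1 hcon
      rw [indicator_of_mem h2]
      exact le_self_add
  refine (Finset.sum_le_sum h1).trans ?_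
  rw [Finset.sum_add_distrib]
  refine add_le_add le_rfl ?_
  rw [← Finset.sum_filter, Finset.sum_const, nsmul_eq_mul]
  have h2 : (Nt.filter fun c => c ∈ S).card ≤ 1225 := by
    have h3 := hN.2.2 w 17
    rw [← hS] at h3
    refine (Finset.card_le_card ?_).trans (h3.trans (by norm_num))
    intro c hc
    exact (Finset.mem_filter.1 hc).2
  gcongr
  exact_mod_cast h2

end L4Gaux

open L4Gaux

/-- L4G: some bad box -/
theorem L4G (H1 : ℝ) : ∃ C : ℝ≥0∞, C < ⊤ ∧ ∀ (b : ℕ), 2000 ≤ b → ∃ ε1 : ℝ≥0∞, 0 < ε1 ∧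
    ∀ (t : ℝ), 0 ≤ t → ∀ (U : Finset V) (z : V) (R : ℕ), IsU R z U → 2 * b ≤ R →
    ∀ (W : Finset V) (Bad : V → Set (V → ℝ)), W ⊆ Q z (2 * R + 8 * (R / b : ℕ)) → W.card ≤ 100 * b ^ 2 →
    (∀ w ∈ W, LocEv (Q w (8 * (R / b : ℕ)) : Set V) (Bad w)) →
    (∀ w ∈ W, ∀ a : ℝ, gam (Q w (40 * (R / b : ℕ))) (fun _ => a) (Bad w) ≤ ε1) → ∀ β : V → ℝ, oscH z R β ≤ H1 →
    N4 (gam (Q z (8 * R)) β) ((⋃ w ∈ W, Bad w).indicator (FD t U z R)) ≤
      C * ENNReal.ofReal ((b : ℝ) ^ (1 / 2 : ℝ)) * Lam t (R / b) := by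
  obtain ⟨C, hC, hch⟩ := child_ev
  refine ⟨3676 * C H1, ENNReal.mul_lt_top (by simp) (hC H1), ?_⟩
  intro b hb
  have hb' : (2000 : ℝ) ≤ b := by exact_mod_cast hb
  have hb0 : (0 : ℝ) < b := by linarith
  obtain ⟨y, hy⟩ : ∃ y : ℝ, y = 1 / (81 * (b : ℝ) ^ 2) := ⟨_, rfl⟩
  have hy0 : 0 < y := by rw [hy]; positivity
  obtain ⟨ε1, hε1, hF⟩ := L4F H1 (ENNReal.ofReal (y ^ 8 / (100 * (b : ℝ) ^ 2)))
    (by rw [ENNReal.ofReal_pos]; positivity)
  refine ⟨ε1, hε1, ?_⟩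
  intro t ht U z R hU hR W Bad hW hWc hloc hbad β hβ
  obtain ⟨ρ, hρ⟩ : ∃ ρ, ρ = R / b := ⟨_, rfl⟩
  rw [← hρ] at hW hloc hbad ⊢
  have hρ1 : 1 ≤ ρ := by
    rw [hρ]
    exact (Nat.one_le_div_iff (by omega)).2 (by omega)
  have hbρ : b * ρ ≤ R := by rw [hρ]; exact Nat.mul_div_le R b
  have hbρ' : R < b * (ρ + 1) := by
    rw [hρ]
    exact Nat.lt_mul_div_succ R (by omega)
  have h2000 : 2000 * ρ ≤ R := (Nat.mul_le_mul_right ρ hb).trans hbρ
  have h2000Z : 2000 * (ρ : ℤ) ≤ R := by exact_mod_cast h2000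
  have hρZ : (1 : ℤ) ≤ ρ := by exact_mod_cast hρ1
  have hzU : z ∈ Q z (2 * R) ∩ U := by
    obtain ⟨a', b', c', d', h1, h2, h3, h4⟩ := hU
    rw [Finset.mem_inter]
    refine ⟨mem_Q_iff.2 ?_, h2⟩
    unfold dI
    simp
  obtain ⟨a', b', c', d', hU', -⟩ := hU.inter (ρ := ρ) (by omega) hzU
  obtain ⟨Nt, hNt⟩ := exists_net a' b' c' d' ρ hρ1
  rw [← hU'] at hNt
  obtain ⟨μ, hμ⟩ : ∃ μ, μ = gam (Q z (8 * (R : ℤ))) β := ⟨_, rfl⟩
  have hNc : Nt.card ≤ 81 * b ^ 2 := by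
    have h1 := hNt.2.2 z (4 * b)
    have h2 : Nt.filter (fun c => dI z c ≤ ((4 * b * ρ : ℕ) : ℤ)) = Nt := by
      refine Finset.filter_true_of_mem fun c hc => ?_
      have h3 := (Finset.mem_inter.1 (hNt.1 hc)).1
      rw [mem_Q_iff, dI_comm] at h3
      refine h3.trans ?_
      have h4 : 2 * R ≤ 4 * b * ρ := by nlinarith
      exact_mod_cast h4
    rw [h2] at h1
    refine h1.trans ?_
    have : 2 * (4 * b) + 1 ≤ 9 * b := by omega
    calc (2 * (4 * b) + 1) ^ 2 ≤ (9 * b) ^ 2 := Nat.pow_le_pow_left this 2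
      _ = 81 * b ^ 2 := by ring
  obtain ⟨F, hFd⟩ : ∃ F : V → (V → ℝ) → ℝ≥0∞, F = fun c => FD t (Q z (2 * R) ∩ U) c ρ := ⟨_, rfl⟩
  have hFm : ∀ c, Measurable (F c) := fun c => by rw [hFd]; exact meas_FD _ _ _ _
  -- the children
  have hchild : ∀ c ∈ Nt, ∀ E : Set (V → ℝ), LocEv (Q c (8 * (ρ : ℤ)) : Set V)ᶜ E →
      N4 μ (E.indicator (F c)) ≤ C H1 * Lam t ρ * (μ E) ^ (1 / 8 : ℝ) := by
    intro c hc E hE
    rw [hμ, hFd]
    refine hch t _ z c R ρ (hU.inter (by omega) (hNt.1 hc)) hρ1 (by omega) ?_ β H1 hβ E hE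
    intro v hv
    have h1 := mem_Q_iff.1 hv
    have h2 := mem_Q_iff.1 (Finset.mem_inter.1 (hNt.1 hc)).1
    have h3 := dI_tri v c z
    rw [mem_Q_iff]
    linarith
  have hfar : ∀ c, μ (Far W Bad ρ c) ≤ ENNReal.ofReal (y ^ 8) := by
    intro c
    unfold Far
    have h1 : ∀ w ∈ W, μ (Bad w) ≤ ENNReal.ofReal (y ^ 8 / (100 * (b : ℝ) ^ 2)) := by
      intro w hw
      rw [hμ]
      refine hF z w R ρ hρ1 (by omega) ?_ (Bad w) (hloc w hw) (hbad w hw) β hβ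
      intro v hv
      have h1 := mem_Q_iff.1 hv
      have h2 := mem_Q_iff.1 (hW hw)
      have h3 := dI_tri v w z
      rw [mem_Q_iff]
      linarith
    calc μ (⋃ w ∈ W.filter (fun w => 17 * (ρ : ℤ) < dI w c), Bad w)
        ≤ ∑ w ∈ W.filter (fun w => 17 * (ρ : ℤ) < dI w c), μ (Bad w) :=
          measure_biUnion_finset_le _ _
      _ ≤ ∑ w ∈ W, μ (Bad w) := Finset.sum_le_sum_of_subset (Finset.filter_subset _ _)
      _ ≤ W.card • ENNReal.ofReal (y ^ 8 / (100 * (b : ℝ) ^ 2)) :=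
          Finset.sum_le_card_nsmul _ _ _ h1
      _ ≤ ENNReal.ofReal (y ^ 8) := by
          rw [nsmul_eq_mul, ← ENNReal.ofReal_natCast, ← ENNReal.ofReal_mul (Nat.cast_nonneg _)]
          refine ENNReal.ofReal_le_ofReal ?_
          have h2 : (W.card : ℝ) ≤ 100 * (b : ℝ) ^ 2 := by exact_mod_cast hWc
          calc (W.card : ℝ) * (y ^ 8 / (100 * (b : ℝ) ^ 2))
              ≤ 100 * (b : ℝ) ^ 2 * (y ^ 8 / (100 * (b : ℝ) ^ 2)) := by gcongr
            _ = y ^ 8 := by field_simp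
  have hfirst : N4 μ (fun X => ∑ c ∈ Nt, (Far W Bad ρ c).indicator (F c) X) ≤ C H1 * Lam t ρ := by
    refine (N4_sum μ Nt (fun c => (Far W Bad ρ c).indicator (F c))
      fun c => (hFm c).indicator (loc_Far hloc c).1).trans ?_
    calc ∑ c ∈ Nt, N4 μ ((Far W Bad ρ c).indicator (F c))
        ≤ Nt.card • (C H1 * Lam t ρ * ENNReal.ofReal y) := by
          refine Finset.sum_le_card_nsmul _ _ _ fun c hc => ?_
          refine (hchild c hc _ (loc_Far hloc c)).trans ?_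
          gcongr
          refine (ENNReal.rpow_le_rpow (hfar c) (by norm_num)).trans ?_
          rw [ENNReal.ofReal_rpow_of_pos (by positivity), ← Real.rpow_natCast,
            ← Real.rpow_mul hy0.le]
          norm_num
      _ = C H1 * Lam t ρ * (Nt.card * ENNReal.ofReal y) := by rw [nsmul_eq_mul]; ring
      _ ≤ C H1 * Lam t ρ * 1 := by
          gcongr
          rw [← ENNReal.ofReal_natCast, ← ENNReal.ofReal_mul (Nat.cast_nonneg _),
            ← ENNReal.ofReal_one]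
          refine ENNReal.ofReal_le_ofReal ?_
          have h2 : (Nt.card : ℝ) ≤ 81 * (b : ℝ) ^ 2 := by exact_mod_cast hNc
          calc (Nt.card : ℝ) * y ≤ 81 * (b : ℝ) ^ 2 * y := by gcongr
            _ = 1 := by rw [hy]; field_simp
      _ = C H1 * Lam t ρ := mul_one _
  have hall : ∀ c ∈ Nt, N4 μ (F c) ≤ C H1 * Lam t ρ := by
    intro c hc
    have h1 := hchild c hc univ ⟨MeasurableSet.univ, fun _ _ _ => Iff.rfl⟩
    rw [indicator_univ] at h1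
    refine h1.trans ?_
    calc C H1 * Lam t ρ * (μ univ) ^ (1 / 8 : ℝ) ≤ C H1 * Lam t ρ * 1 := by
          gcongr
          rw [hμ]
          exact ENNReal.rpow_le_one (prob_le_one) (by norm_num)
      _ = _ := mul_one _
  have hsecond : N4 μ (l4 Nt F) ≤ 3 * ENNReal.ofReal ((b : ℝ) ^ (1 / 2 : ℝ)) *
      (C H1 * Lam t ρ) := by
    refine (N4_l4 μ Nt hFm hall).trans ?_
    gcongr
    have h1 : (Nt.card : ℝ≥0∞) ≤ ENNReal.ofReal (81 * (b : ℝ) ^ 2) := by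
      rw [← ENNReal.ofReal_natCast]
      exact ENNReal.ofReal_le_ofReal (by exact_mod_cast hNc)
    refine (ENNReal.rpow_le_rpow h1 (by norm_num)).trans ?_
    rw [ENNReal.ofReal_rpow_of_pos (by positivity)]
    have h2 : (81 * (b : ℝ) ^ 2) ^ (1 / 4 : ℝ) = 3 * (b : ℝ) ^ (1 / 2 : ℝ) := by
      rw [Real.mul_rpow (by norm_num) (by positivity)]
      have e1 : (81 : ℝ) ^ (1 / 4 : ℝ) = 3 := by
        have : (81 : ℝ) = 3 ^ (4 : ℝ) := by norm_num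
        rw [this, ← Real.rpow_mul (by norm_num)]
        norm_num
      have e2 : ((b : ℝ) ^ 2) ^ (1 / 4 : ℝ) = (b : ℝ) ^ (1 / 2 : ℝ) := by
        rw [← Real.rpow_natCast, ← Real.rpow_mul hb0.le]
        norm_num
      rw [e1, e2]
    rw [h2, ENNReal.ofReal_mul (by norm_num)]
    simp
  have hb1 : 1 ≤ ENNReal.ofReal ((b : ℝ) ^ (1 / 2 : ℝ)) := by
    rw [← ENNReal.ofReal_one]
    refine ENNReal.ofReal_le_ofReal ?_
    exact Real.one_le_rpow (by linarith) (by norm_num)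
  have hpt : ∀ X, (⋃ w ∈ W, Bad w).indicator (FD t U z R) X ≤
      (fun X => ∑ c ∈ Nt, (Far W Bad ρ c).indicator (F c) X) X +
        (fun X => 1225 * l4 Nt F X) X := by
    intro X
    rw [hFd]
    exact point t ht U z R ρ hU hρ1 (by omega) Nt hNt W Bad X
  rw [← hμ]
  refine (N4_mono μ hpt).trans ((N4_add μ ?_ ?_).trans ?_)
  · exact Finset.measurable_sum Nt fun c _ => (hFm c).indicator (loc_Far hloc c).1
  · exact measurable_const.mul (measurable_l4 Nt hFm)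
  rw [N4_const_mul μ (by simp) (l4 Nt F)]
  calc N4 μ (fun X => ∑ c ∈ Nt, (Far W Bad ρ c).indicator (F c) X) + 1225 * N4 μ (l4 Nt F)
      ≤ 1 * (C H1 * Lam t ρ) + 1225 * (3 * ENNReal.ofReal ((b : ℝ) ^ (1 / 2 : ℝ)) *
        (C H1 * Lam t ρ)) := by
        rw [one_mul]
        gcongr
    _ ≤ ENNReal.ofReal ((b : ℝ) ^ (1 / 2 : ℝ)) * (C H1 * Lam t ρ) +
        1225 * (3 * ENNReal.ofReal ((b : ℝ) ^ (1 / 2 : ℝ)) * (C H1 * Lam t ρ)) := by gcongr
    _ = 3676 * C H1 * ENNReal.ofReal ((b : ℝ) ^ (1 / 2 : ℝ)) * Lam t ρ := by ring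

end GF
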