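import Pool.Agent.Lib.MP_acf58e_gf.Func
import Pool.Agent.Lib.MP_acf58e_gf.Lchild
import Pool.Agent.Lib.MP_acf58e_gf.Lnet
import Pool.Agent.Lib.MP_acf58e_gf.Lmeas

open MeasureTheory Set Filter Topology ProbabilityTheory
open scoped ENNReal

namespace GF

private theorem h_mem_Q {z x : V} {r : ℤ} : x ∈ Q z r ↔ dI x z ≤ r := by
  unfold Q dI
  rw [Finset.mem_Icc, Prod.le_def, Prod.le_def, max_le_iff, abs_le, abs_le]
  constructor
  · rintro ⟨⟨h1, h2⟩, h3, h4⟩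
    refine ⟨⟨?_, ?_⟩, ?_, ?_⟩ <;> simp only at h1 h2 h3 h4 ⊢ <;> linarith
  · rintro ⟨⟨h1, h2⟩, h3, h4⟩
    refine ⟨⟨?_, ?_⟩, ?_, ?_⟩ <;> simp only at h1 h2 h3 h4 ⊢ <;> linarith

private theorem h_dI_comm (x y : V) : dI x y = dI y x := by
  unfold dI
  rw [abs_sub_comm, abs_sub_comm x.2 y.2]

/-- L4H: maximum over the children -/
theorem L4H (H1 : ℝ) : ∃ C : ℝ≥0∞, C < ⊤ ∧ ∀ (b : ℕ), 2000 ≤ b →
    ∀ (t : ℝ), 0 ≤ t → ∀ (U : Finset V) (z : V) (R : ℕ), IsU R z U → 4 * b ≤ R →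
    ∀ Nt, IsNet (Q z (2 * R) ∩ U) (R / b / 2) Nt → ∀ β : V → ℝ, oscH z R β ≤ H1 →
    N4 (gam (Q z (8 * R)) β) (fun X => ⨆ c ∈ Nt, FD t U c (4 * (R / b)) X) ≤
      C * ENNReal.ofReal ((b : ℝ) ^ (1 / 2 : ℝ)) * Lam t (4 * (R / b)) := by
  obtain ⟨Cc, hCc, hch⟩ := child_univ
  refine ⟨4 * Cc H1, ENNReal.mul_lt_top (by norm_num) (hCc H1), ?_⟩
  intro b hb t ht U z R hU hR Nt hNt β hβ
  obtain ⟨hN1, hN2, hN3⟩ := hNt
  have hb0 : 0 < b := by omega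
  set m := R / b with hm
  have hm4 : 4 ≤ m := (Nat.le_div_iff_mul_le hb0).2 hR
  have hmb : m * b ≤ R := Nat.div_mul_le_self R b
  have hm2000 : 2000 * m ≤ R := by
    calc 2000 * m = m * 2000 := mul_comm _ _
      _ ≤ m * b := Nat.mul_le_mul_left _ hb
      _ ≤ R := hmb
  have hRb : R < (m + 1) * b := by
    have h1 := Nat.lt_div_mul_add (a := R) hb0
    rw [← hm] at h1
    calc R < m * b + b := h1
      _ = (m + 1) * b := by ring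
  set q := m / 2 with hq
  have hq2 : 2 ≤ q := by omega
  have hmq : m + 1 ≤ 3 * q := by omega
  have hR3 : R ≤ 3 * q * b := le_trans hRb.le (Nat.mul_le_mul_right _ hmq)
  -- cardinality
  have hcard : Nt.card ≤ (16 * b) ^ 2 := by
    have h1 := hN3 z (6 * b)
    have h2 : Nt.filter (fun c => dI z c ≤ ((6 * b) * q : ℕ)) = Nt := by
      refine Finset.filter_true_of_mem ?_
      intro c hc
      have h3 := Finset.mem_of_mem_inter_left (hN1 hc)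
      rw [h_mem_Q] at h3
      rw [h_dI_comm]
      refine h3.trans ?_
      have h4 : 2 * R ≤ (6 * b) * q := by
        calc 2 * R ≤ 2 * (3 * q * b) := Nat.mul_le_mul_left _ hR3
          _ = (6 * b) * q := by ring
      exact_mod_cast h4
    rw [h2] at h1
    refine h1.trans (Nat.pow_le_pow_left ?_ 2)
    omega
  have hcard' : (Nt.card : ℝ≥0∞) ^ (1 / 4 : ℝ) ≤ 4 * ENNReal.ofReal ((b : ℝ) ^ (1 / 2 : ℝ)) := by
    have hb' : (0 : ℝ) ≤ b := Nat.cast_nonneg b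
    have h1 : (Nt.card : ℝ≥0∞) ≤ ENNReal.ofReal (((16 : ℝ) * b) ^ 2) := by
      rw [← ENNReal.ofReal_natCast]
      refine ENNReal.ofReal_le_ofReal ?_
      exact_mod_cast hcard
    have h2 : (((16 : ℝ) * b) ^ 2) ^ (1 / 4 : ℝ) = 4 * (b : ℝ) ^ (1 / 2 : ℝ) := by
      have h3 : ((16 : ℝ) * b) ^ 2 = (4 * (b : ℝ) ^ (1 / 2 : ℝ)) ^ (4 : ℕ) := by
        rw [mul_pow, mul_pow, ← Real.rpow_natCast ((b : ℝ) ^ (1 / 2 : ℝ)) 4, ← Real.rpow_mul hb']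
        norm_num
      rw [h3, ← Real.rpow_natCast (4 * (b : ℝ) ^ (1 / 2 : ℝ)) 4, ← Real.rpow_mul (by positivity)]
      norm_num
    calc (Nt.card : ℝ≥0∞) ^ (1 / 4 : ℝ) ≤ (ENNReal.ofReal (((16 : ℝ) * b) ^ 2)) ^ (1 / 4 : ℝ) :=
          ENNReal.rpow_le_rpow h1 (by norm_num)
      _ = ENNReal.ofReal ((((16 : ℝ) * b) ^ 2) ^ (1 / 4 : ℝ)) :=
          ENNReal.ofReal_rpow_of_nonneg (by positivity) (by norm_num)
      _ = 4 * ENNReal.ofReal ((b : ℝ) ^ (1 / 2 : ℝ)) := by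
          rw [h2, ENNReal.ofReal_mul (by norm_num)]
          norm_num
  -- the children
  have hkey : N4 (gam (Q z (8 * (R : ℤ))) β) (fun X => ⨆ c ∈ Nt, FD t U c (4 * m) X) ≤
      (Nt.card : ℝ≥0∞) ^ (1 / 4 : ℝ) * (Cc H1 * Lam t (4 * m)) := by
    refine N4_biSup_le _ Nt (fun c => FD t U c (4 * m)) (fun c _ => meas_FD t U c (4 * m)) _ ?_
    intro c hc
    have hcU : c ∈ U := Finset.mem_of_mem_inter_right (hN1 hc)
    have hcQ : c ∈ Q z (2 * (R : ℤ)) := Finset.mem_of_mem_inter_left (hN1 hc)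
    refine hch t U z c R (4 * m) (hU.mono (by omega) hcU) (by omega) (by omega) ?_ β H1 hβ
    refine Q_child_sub hcQ ?_
    have h5 : (0 : ℤ) ≤ R := Int.natCast_nonneg R
    linarith
  calc N4 (gam (Q z (8 * (R : ℤ))) β) (fun X => ⨆ c ∈ Nt, FD t U c (4 * m) X)
      ≤ (Nt.card : ℝ≥0∞) ^ (1 / 4 : ℝ) * (Cc H1 * Lam t (4 * m)) := hkey
    _ ≤ (4 * ENNReal.ofReal ((b : ℝ) ^ (1 / 2 : ℝ))) * (Cc H1 * Lam t (4 * m)) :=
        mul_le_mul' hcard' le_rfl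
    _ = 4 * Cc H1 * ENNReal.ofReal ((b : ℝ) ^ (1 / 2 : ℝ)) * Lam t (4 * m) := by ring

end GF
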