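import Pool.Agent.Lib.MP_acf58e_gf.Func
import Pool.Agent.Lib.MP_acf58e_gf.Lmeas
import Pool.Agent.Lib.MP_acf58e_gf.L4D
import Pool.Agent.Lib.MP_acf58e_gf.L4E
import Pool.Agent.Lib.MP_acf58e_gf.L4G
import Pool.Agent.Lib.MP_acf58e_gf.L4H

open MeasureTheory Set Filter Topology ProbabilityTheory
open scoped ENNReal

namespace GF

namespace L4aux

theorem N4_mono (μ : Measure (V → ℝ)) {F G : (V → ℝ) → ℝ≥0∞} (h : ∀ X, F X ≤ G X) :
    N4 μ F ≤ N4 μ G := by
  unfold N4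
  refine ENNReal.rpow_le_rpow (lintegral_mono fun X => ?_) (by norm_num)
  exact pow_le_pow_left' (h X) 4

theorem N4_add (μ : Measure (V → ℝ)) {F G : (V → ℝ) → ℝ≥0∞} (hF : Measurable F)
    (hG : Measurable G) : N4 μ (fun X => F X + G X) ≤ N4 μ F + N4 μ G := by
  unfold N4
  have h := ENNReal.lintegral_Lp_add_le (μ := μ) (p := (4 : ℝ)) hF.aemeasurable hG.aemeasurable
    (by norm_num)
  have e : ∀ x : ℝ≥0∞, x ^ (4 : ℝ) = x ^ (4 : ℕ) := fun x => by
    rw [← ENNReal.rpow_natCast]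
    norm_num
  simp only [Pi.add_apply, e] at h
  exact h

theorem N4_const_mul (μ : Measure (V → ℝ)) {c : ℝ≥0∞} (hc : c ≠ ⊤) (F : (V → ℝ) → ℝ≥0∞) :
    N4 μ (fun X => c * F X) = c * N4 μ F := by
  unfold N4
  simp only [mul_pow]
  rw [lintegral_const_mul' _ _ (ENNReal.pow_ne_top hc),
    ENNReal.mul_rpow_of_nonneg _ _ (by norm_num)]
  congr 1
  rw [← ENNReal.rpow_natCast, ← ENNReal.rpow_mul]
  norm_num

theorem gam_univ_le (D : Finset V) (β : V → ℝ) : gam D β univ ≤ 1 := by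
  unfold gam
  rw [Measure.smul_apply, smul_eq_mul]
  have h1 : (((volume : Measure (D → ℝ)).withDensity (fun y => wt D (glue D β y))).map
      (glue D β)) univ ≤ pf D β := by
    by_cases hm : AEMeasurable (glue D β)
      ((volume : Measure (D → ℝ)).withDensity (fun y => wt D (glue D β y)))
    · rw [Measure.map_apply_of_aemeasurable hm MeasurableSet.univ, preimage_univ,
        withDensity_apply _ MeasurableSet.univ, Measure.restrict_univ]
      exact le_rfl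
    · rw [Measure.map_of_not_aemeasurable hm]
      simp
  refine (mul_le_mul_right h1 _).trans ?_
  exact ENNReal.inv_mul_le_one _

theorem N4_one (D : Finset V) (β : V → ℝ) : N4 (gam D β) (fun _ => 1) ≤ 1 := by
  unfold N4
  simp only [one_pow, lintegral_one]
  exact ENNReal.rpow_le_one (gam_univ_le D β) (by norm_num)

theorem e_div {ε : ℝ} (hε : 0 < ε) {b R m : ℕ} (hb : 1 ≤ b) (hm : m ≤ R / b) :
    ((m : ℕ) : ℝ) ^ (1 + ε) * (b : ℝ) ≤ (R : ℝ) ^ (1 + ε) := by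
  have hb' : (1 : ℝ) ≤ b := by exact_mod_cast hb
  have h1 : ((m : ℕ) : ℝ) ≤ (R : ℝ) / b := by
    refine le_trans ?_ (Nat.cast_div_le (α := ℝ) (m := R) (n := b))
    exact_mod_cast hm
  have h2 : ((m : ℕ) : ℝ) ^ (1 + ε) ≤ ((R : ℝ) / b) ^ (1 + ε) :=
    Real.rpow_le_rpow (Nat.cast_nonneg _) h1 (by linarith)
  have h3 : (b : ℝ) ≤ (b : ℝ) ^ (1 + ε) := by
    have := Real.rpow_le_rpow_of_exponent_le hb' (by linarith : (1 : ℝ) ≤ 1 + ε)
    rwa [Real.rpow_one] at this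
  have h4 : ((R : ℝ) / b) ^ (1 + ε) = (R : ℝ) ^ (1 + ε) / (b : ℝ) ^ (1 + ε) :=
    Real.div_rpow (Nat.cast_nonneg _) (by linarith) _
  rw [h4] at h2
  have h5 : 0 < (b : ℝ) ^ (1 + ε) := by positivity
  have h6 : 0 ≤ (R : ℝ) ^ (1 + ε) := by positivity
  calc ((m : ℕ) : ℝ) ^ (1 + ε) * (b : ℝ)
      ≤ (R : ℝ) ^ (1 + ε) / (b : ℝ) ^ (1 + ε) * (b : ℝ) ^ (1 + ε) :=
        mul_le_mul h2 h3 (by linarith) (by positivity)
    _ = (R : ℝ) ^ (1 + ε) := by field_simp

theorem FD_split (t : ℝ) (U : Finset V) (z : V) (R M0 : ℕ) (B : Set (V → ℝ))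
    (S Y : (V → ℝ) → ℝ≥0∞) (h : ∀ X, X ∉ B → FD t U z R X ≤ (FM t U z R X : ℝ≥0∞) *
      (1 + 2 * S X + Y X)) (X : V → ℝ) :
    FD t U z R X ≤ {X | M0 ≤ FM t U z R X}.indicator (FD t U z R) X +
      (B.indicator (FD t U z R) X + (M0 : ℝ≥0∞) * (1 + 2 * S X + Y X)) := by
  classical
  by_cases h1 : M0 ≤ FM t U z R X
  · rw [indicator_of_mem (show X ∈ {X | M0 ≤ FM t U z R X} from h1)]
    exact le_self_add
  by_cases h2 : X ∈ B
  · rw [indicator_of_mem h2]
    exact le_add_left le_self_add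
  · refine (h X h2).trans (le_add_left (le_add_left ?_))
    gcongr
    omega

end L4aux

open L4aux

/-- L4: the abstract recursion -/
theorem L4 {w0 : ℝ} (h0 : 0 < w0) (hJ : JProp w0) (ε : ℝ) (hε : 0 < ε) :
    ∃ (b : ℕ) (H1 : ℝ) (ε1 C : ℝ≥0∞), 2000 ≤ b ∧ 0 < H1 ∧ 0 < ε1 ∧ C < ⊤ ∧
      ∀ (t : ℝ), 0 ≤ t → ∀ (CY : ℝ≥0∞) (R0 : ℕ),
        (∀ R : ℕ, R0 ≤ R → Dec t R b H1 ε1 (CY * ENNReal.ofReal ((R : ℝ) ^ (1 + ε)))) →
        ∀ R : ℕ, 1 ≤ R → Lam t R ≤ C * (1 + CY + (R0 : ℝ≥0∞) ^ 4) * ENNReal.ofReal ((R : ℝ) ^ (1 + ε)) := by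
  obtain ⟨b2, CD, hb2, hCD, HD⟩ := L4D
  -- the threshold for the oscillation
  obtain ⟨H1, hH1, hH1'⟩ : ∃ H1 : ℝ, 0 < H1 ∧
      CD * ENNReal.ofReal (Real.exp (-(H1 / 2))) ≤ ENNReal.ofReal (1 / 8) := by
    obtain ⟨cd, hcd0, hcd⟩ : ∃ cd : ℝ, 0 ≤ cd ∧ CD = ENNReal.ofReal cd :=
      ⟨CD.toReal, ENNReal.toReal_nonneg, (ENNReal.ofReal_toReal hCD.ne).symm⟩
    refine ⟨2 * Real.log (8 * cd + 2), ?_, ?_⟩
    · have := Real.log_pos (show 1 < 8 * cd + 2 by linarith)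
      linarith
    · have h2 : (0 : ℝ) < 8 * cd + 2 := by linarith
      have h3 : -(2 * Real.log (8 * cd + 2) / 2) = -Real.log (8 * cd + 2) := by ring
      rw [h3, Real.exp_neg, Real.exp_log h2, hcd, ← ENNReal.ofReal_mul hcd0]
      refine ENNReal.ofReal_le_ofReal ?_
      rw [← div_eq_mul_inv, div_le_div_iff₀ h2 (by norm_num)]
      linarith
  obtain ⟨M0, HE⟩ := L4E h0 hJ b2 hb2 H1 (ENNReal.ofReal (1 / 8)) (by simp)
  obtain ⟨CG, hCG, HG⟩ := L4G H1
  obtain ⟨CH, hCH, HH⟩ := L4H H1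
  -- the ratio of the radii
  obtain ⟨κ, hκ⟩ : ∃ κ : ℝ, κ = CG.toReal + 2 * M0 * CH.toReal * (4 : ℝ) ^ (1 + ε) := ⟨_, rfl⟩
  have hcg := ENNReal.toReal_nonneg (a := CG)
  have hch := ENNReal.toReal_nonneg (a := CH)
  have hκ1 : CG.toReal ≤ κ := by
    rw [hκ]
    have : 0 ≤ 2 * (M0 : ℝ) * CH.toReal * (4 : ℝ) ^ (1 + ε) := by positivity
    linarith
  have hκ2 : 2 * M0 * CH.toReal * (4 : ℝ) ^ (1 + ε) ≤ κ := by
    rw [hκ]
    linarith
  have hκ0 : 0 ≤ κ := hcg.trans hκ1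
  obtain ⟨b0, hb0⟩ := exists_nat_ge ((8 * κ) ^ 2)
  obtain ⟨b, hb⟩ : ∃ b : ℕ, b = max 2000 b0 := ⟨_, rfl⟩
  have hb2000 : 2000 ≤ b := by rw [hb]; exact le_max_left _ _
  have hb1 : 1 ≤ b := by omega
  have hbκ : (8 * κ) ^ 2 ≤ (b : ℝ) := by
    refine hb0.trans ?_
    rw [hb]
    exact_mod_cast le_max_right _ _
  have hbpos : (0 : ℝ) < b := by exact_mod_cast hb1
  obtain ⟨s, hs⟩ : ∃ s : ℝ, s = (b : ℝ) ^ (1 / 2 : ℝ) := ⟨_, rfl⟩
  have hs0 : 0 < s := by rw [hs]; positivity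
  have hss : s * s = b := by
    rw [hs, ← Real.rpow_add hbpos]
    norm_num
  have hsκ : 8 * κ ≤ s := by
    have : (8 * κ) ^ 2 ≤ s ^ 2 := by rw [sq s, hss]; exact hbκ
    exact le_of_sq_le_sq this hs0.le
  obtain ⟨ε1, hε1, HG'⟩ := HG b hb2000
  obtain ⟨B, hB⟩ : ∃ B : ℕ, B = 4 * b + 2 * b2 := ⟨_, rfl⟩
  refine ⟨b, H1, ε1, 256 + (4 * (B : ℝ≥0∞)) ^ 4 + 2 * M0, hb2000, hH1, hε1, ?_, ?_⟩
  · refine ENNReal.add_lt_top.2 ⟨ENNReal.add_lt_top.2 ⟨by simp, ?_⟩, ?_⟩
    · exact ENNReal.pow_lt_top (ENNReal.mul_lt_top (by simp) (by simp))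
    · exact ENNReal.mul_lt_top (by simp) (by simp)
  intro t ht CY R0 hDec
  obtain ⟨K, hK⟩ : ∃ K : ℝ≥0∞, K = (256 + (4 * (B : ℝ≥0∞)) ^ 4 + 2 * M0) *
    (1 + CY + (R0 : ℝ≥0∞) ^ 4) := ⟨_, rfl⟩
  rw [← hK]
  have hK1 : 256 * (R0 : ℝ≥0∞) ^ 4 ≤ K := by
    rw [hK]
    exact mul_le_mul' (le_trans le_self_add le_self_add) le_add_self
  have hK2 : (4 * (B : ℝ≥0∞)) ^ 4 ≤ K := by
    rw [hK]
    calc (4 * (B : ℝ≥0∞)) ^ 4 = (4 * (B : ℝ≥0∞)) ^ 4 * 1 := (mul_one _).symm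
      _ ≤ _ := mul_le_mul' (le_trans le_add_self le_self_add) (le_trans le_self_add le_self_add)
  have hK3 : 2 * (M0 : ℝ≥0∞) * (1 + CY) ≤ K := by
    rw [hK]
    exact mul_le_mul' le_add_self le_self_add
  obtain ⟨e, he⟩ : ∃ e : ℕ → ℝ≥0∞, e = fun R : ℕ => ENNReal.ofReal ((R : ℝ) ^ (1 + ε)) :=
    ⟨_, rfl⟩
  have he' : ∀ R : ℕ, ENNReal.ofReal ((R : ℝ) ^ (1 + ε)) = e R := fun R => by rw [he]
  simp only [he'] at hDec ⊢
  have he1 : ∀ R : ℕ, 1 ≤ R → 1 ≤ e R := by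
    intro R hR
    rw [he]
    have h1 : (1 : ℝ) ≤ R := by exact_mod_cast hR
    have h2 : (1 : ℝ) ≤ (R : ℝ) ^ (1 + ε) := Real.one_le_rpow h1 (by linarith)
    have := ENNReal.ofReal_le_ofReal h2
    rwa [ENNReal.ofReal_one] at this
  have hemono : ∀ m R : ℕ, m ≤ R → e m ≤ e R := by
    intro m R hm
    rw [he]
    exact ENNReal.ofReal_le_ofReal (Real.rpow_le_rpow (Nat.cast_nonneg _)
      (by exact_mod_cast hm) (by linarith))
  intro R
  induction R using Nat.strong_induction_on with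
  | _ R ih =>
  intro hR
  by_cases hsmall : R < max R0 B
  · -- small radii
    refine (Lam_le t ht R).trans ?_
    have h1 : (4 * (R : ℝ≥0∞) + 1) ^ 4 ≤ K := by
      rcases lt_max_iff.1 hsmall with h | h
      · refine le_trans ?_ hK1
        have h2 : (4 * (R : ℝ≥0∞) + 1) ≤ 4 * (R0 : ℝ≥0∞) := by
          have : 4 * R + 1 ≤ 4 * R0 := by omega
          exact_mod_cast this
        calc (4 * (R : ℝ≥0∞) + 1) ^ 4 ≤ (4 * (R0 : ℝ≥0∞)) ^ 4 := pow_le_pow_left' h2 4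
          _ = 256 * (R0 : ℝ≥0∞) ^ 4 := by rw [mul_pow]; norm_num
      · refine le_trans ?_ hK2
        have h2 : (4 * (R : ℝ≥0∞) + 1) ≤ 4 * (B : ℝ≥0∞) := by
          have : 4 * R + 1 ≤ 4 * B := by omega
          exact_mod_cast this
        exact pow_le_pow_left' h2 4
    calc (4 * (R : ℝ≥0∞) + 1) ^ 4 ≤ K * 1 := by rw [mul_one]; exact h1
      _ ≤ K * e R := by gcongr; exact he1 R hR
  have hRR0 : R0 ≤ R := (le_max_left _ _).trans (not_lt.1 hsmall)
  have hRB : B ≤ R := (le_max_right _ _).trans (not_lt.1 hsmall)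
  have hR4b : 4 * b ≤ R := by omega
  have hR2b2 : 2 * b2 ≤ R := by omega
  -- the radii of the children
  have hL2 : Lam t (R / b2) ≤ K * e R := by
    have h1 : R / b2 < R := Nat.div_lt_self (by omega) (by omega)
    have h2 : 1 ≤ R / b2 := (Nat.one_le_div_iff (by omega)).2 (by omega)
    refine (ih _ h1 h2).trans ?_
    gcongr
    exact hemono _ _ h1.le
  have hLb : CG * ENNReal.ofReal s * Lam t (R / b) ≤ ENNReal.ofReal (1 / 8) * (K * e R) := by
    have h1 : R / b < R := Nat.div_lt_self (by omega) (by omega)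
    have h2 : 1 ≤ R / b := (Nat.one_le_div_iff (by omega)).2 (by omega)
    have h3 := ih _ h1 h2
    have h4 : CG * ENNReal.ofReal s * e (R / b) ≤ ENNReal.ofReal (1 / 8) * e R := by
      rw [he]
      simp only
      conv_lhs => rw [← ENNReal.ofReal_toReal hCG.ne]
      rw [← ENNReal.ofReal_mul hcg, ← ENNReal.ofReal_mul (by positivity),
        ← ENNReal.ofReal_mul (by positivity)]
      refine ENNReal.ofReal_le_ofReal ?_
      have h5 := e_div hε hb1 (le_refl (R / b))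
      obtain ⟨x, hx⟩ : ∃ x : ℝ, x = ((R / b : ℕ) : ℝ) ^ (1 + ε) := ⟨_, rfl⟩
      obtain ⟨y, hy⟩ : ∃ y : ℝ, y = (R : ℝ) ^ (1 + ε) := ⟨_, rfl⟩
      rw [← hx, ← hy] at h5 ⊢
      have hx0 : 0 ≤ x := by rw [hx]; positivity
      rw [← hss] at h5
      have h6 : 8 * CG.toReal ≤ s := by linarith
      have h7 : 8 * CG.toReal * (s * x) ≤ s * (s * x) :=
        mul_le_mul_of_nonneg_right h6 (by positivity)
      linarith
    calc CG * ENNReal.ofReal s * Lam t (R / b) ≤ CG * ENNReal.ofReal s * (K * e (R / b)) := by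
          gcongr
      _ = K * (CG * ENNReal.ofReal s * e (R / b)) := by ring
      _ ≤ K * (ENNReal.ofReal (1 / 8) * e R) := by gcongr
      _ = _ := by ring
  have hLH : (M0 : ℝ≥0∞) * (2 * (CH * ENNReal.ofReal s * Lam t (4 * (R / b)))) ≤
      ENNReal.ofReal (1 / 8) * (K * e R) := by
    have h1 : 4 * (R / b) < R := by
      have : b * (R / b) ≤ R := Nat.mul_div_le R b
      have h2 : 1 ≤ R / b := (Nat.one_le_div_iff (by omega)).2 (by omega)
      nlinarith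
    have h2 : 1 ≤ 4 * (R / b) := by
      have h2 : 1 ≤ R / b := (Nat.one_le_div_iff (by omega)).2 (by omega)
      omega
    have h3 := ih _ h1 h2
    have h4 : (M0 : ℝ≥0∞) * (2 * (CH * ENNReal.ofReal s * e (4 * (R / b)))) ≤
        ENNReal.ofReal (1 / 8) * e R := by
      rw [he]
      simp only
      have e1 : (M0 : ℝ≥0∞) * (2 * (CH * ENNReal.ofReal s *
          ENNReal.ofReal (((4 * (R / b) : ℕ) : ℝ) ^ (1 + ε)))) =
          ENNReal.ofReal (M0 * (2 * (CH.toReal * s * (((4 * (R / b) : ℕ) : ℝ) ^ (1 + ε))))) := by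
        rw [ENNReal.ofReal_mul (by positivity), ENNReal.ofReal_mul (by norm_num),
          ENNReal.ofReal_mul (by positivity), ENNReal.ofReal_mul hch, ENNReal.ofReal_toReal hCH.ne,
          ENNReal.ofReal_natCast]
        norm_num
      rw [e1, ← ENNReal.ofReal_mul (by norm_num)]
      refine ENNReal.ofReal_le_ofReal ?_
      have h5 := e_div hε hb1 (le_refl (R / b))
      have h6 : (((4 * (R / b) : ℕ) : ℝ)) ^ (1 + ε) =
          (4 : ℝ) ^ (1 + ε) * ((R / b : ℕ) : ℝ) ^ (1 + ε) := by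
        push_cast
        rw [Real.mul_rpow (by norm_num) (by positivity)]
      rw [h6]
      obtain ⟨x, hx⟩ : ∃ x : ℝ, x = ((R / b : ℕ) : ℝ) ^ (1 + ε) := ⟨_, rfl⟩
      obtain ⟨y, hy⟩ : ∃ y : ℝ, y = (R : ℝ) ^ (1 + ε) := ⟨_, rfl⟩
      rw [← hx, ← hy] at h5 ⊢
      have hx0 : 0 ≤ x := by rw [hx]; positivity
      rw [← hss] at h5
      have h7 : 8 * (2 * M0 * CH.toReal * (4 : ℝ) ^ (1 + ε)) ≤ s := by linarith
      have h8 : 8 * (2 * M0 * CH.toReal * (4 : ℝ) ^ (1 + ε)) * (s * x) ≤ s * (s * x) :=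
        mul_le_mul_of_nonneg_right h7 (by positivity)
      linarith
    calc (M0 : ℝ≥0∞) * (2 * (CH * ENNReal.ofReal s * Lam t (4 * (R / b))))
        ≤ (M0 : ℝ≥0∞) * (2 * (CH * ENNReal.ofReal s * (K * e (4 * (R / b))))) := by gcongr
      _ = K * ((M0 : ℝ≥0∞) * (2 * (CH * ENNReal.ofReal s * e (4 * (R / b))))) := by ring
      _ ≤ K * (ENNReal.ofReal (1 / 8) * e R) := by gcongr
      _ = _ := by ring
  unfold Lam
  refine iSup_le fun z => iSup_le fun U => iSup_le fun hU => iSup_le fun β => ?_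
  have h8 : ENNReal.ofReal (1 / 8) ≤ 1 := by
    rw [← ENNReal.ofReal_one]
    exact ENNReal.ofReal_le_ofReal (by norm_num)
  by_cases hosc : oscH z R β ≤ H1
  · obtain ⟨Nt, W, Bad, Y, hNt, hY, hW, hWc, hloc, hbad, hYn, hdec⟩ := hDec R hRR0 z U hU
    obtain ⟨μ, hμ⟩ : ∃ μ, μ = gam (Q z (8 * R)) β := ⟨_, rfl⟩
    have hE := HE t ht U z R hU hR2b2 β hosc
    have hG := HG' t ht U z R hU (by omega) W Bad hW hWc hloc hbad β hosc
    have hH := HH b hb2000 t ht U z R hU hR4b Nt hNt β hosc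
    have hYn' := hYn β hosc
    rw [← hs] at hG hH
    rw [← hμ] at hE hG hH hYn' ⊢
    have hfd := meas_FD t U z R
    have hmB : MeasurableSet (⋃ w ∈ W, Bad w) :=
      Finset.measurableSet_biUnion W fun w hw => (hloc w hw).1
    obtain ⟨S, hS⟩ : ∃ S : (V → ℝ) → ℝ≥0∞, S = fun X => ⨆ c ∈ Nt, FD t U c (4 * (R / b)) X :=
      ⟨_, rfl⟩
    have hmS : Measurable S := by
      rw [hS]
      exact Measurable.biSup (Nt : Set V) Nt.countable_toSet fun c _ => meas_FD t U c _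
    have hm1 : Measurable fun X => (1 : ℝ≥0∞) + 2 * S X :=
      measurable_const.add (measurable_const.mul hmS)
    have hm2 : Measurable fun X => (1 : ℝ≥0∞) + 2 * S X + Y X := hm1.add hY
    have hm3 : Measurable fun X => (M0 : ℝ≥0∞) * (1 + 2 * S X + Y X) := measurable_const.mul hm2
    have hmM : MeasurableSet {X | M0 ≤ FM t U z R X} :=
      (meas_FM t U z R) (MeasurableSet.of_discrete (s := {n | M0 ≤ n}))
    rw [← hS] at hH
    have h1 := FD_split t U z R M0 (⋃ w ∈ W, Bad w) S Y (fun X hX => by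
      have := hdec X fun w hw hw' => hX (mem_biUnion (x := w) hw hw')
      rwa [hS])
    have h2 := N4_mono μ h1
    have h3 : N4 μ (FD t U z R) ≤ ENNReal.ofReal (1 / 8) * Lam t (R / b2) +
        (CG * ENNReal.ofReal s * Lam t (R / b) + M0 * (1 +
          2 * (CH * ENNReal.ofReal s * Lam t (4 * (R / b))) + CY * e R)) := by
      refine h2.trans ?_
      refine (N4_add μ (hfd.indicator hmM) ((hfd.indicator hmB).add hm3)).trans ?_
      refine add_le_add hE ?_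
      refine (N4_add μ (hfd.indicator hmB) hm3).trans ?_
      refine add_le_add hG ?_
      rw [N4_const_mul μ (by simp) fun X => 1 + 2 * S X + Y X]
      refine mul_le_mul' le_rfl ?_
      refine (N4_add μ hm1 hY).trans ?_
      refine add_le_add ?_ hYn'
      refine (N4_add μ (F := fun _ => 1) (G := fun X => 2 * S X) measurable_const
        (measurable_const.mul hmS)).trans ?_
      refine add_le_add (by rw [hμ]; exact N4_one _ _) ?_
      rw [N4_const_mul μ (by simp) S]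
      exact mul_le_mul' le_rfl hH
    have h4 : ENNReal.ofReal (Real.exp (-oscH z R β)) ≤ 1 := by
      rw [← ENNReal.ofReal_one]
      refine ENNReal.ofReal_le_ofReal ?_
      rw [Real.exp_le_one_iff, neg_nonpos]
      unfold oscH
      exact osc_nonneg _ _
    calc N4 μ (FD t U z R) * ENNReal.ofReal (Real.exp (-oscH z R β))
        ≤ N4 μ (FD t U z R) * 1 := by gcongr
      _ = N4 μ (FD t U z R) := mul_one _
      _ ≤ _ := h3
      _ = ENNReal.ofReal (1 / 8) * Lam t (R / b2) + CG * ENNReal.ofReal s * Lam t (R / b) +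
          M0 * (2 * (CH * ENNReal.ofReal s * Lam t (4 * (R / b)))) + M0 * (1 + CY * e R) := by
        ring
      _ ≤ ENNReal.ofReal (1 / 8) * (K * e R) + ENNReal.ofReal (1 / 8) * (K * e R) +
          ENNReal.ofReal (1 / 8) * (K * e R) + ENNReal.ofReal (1 / 2) * (K * e R) := by
        refine add_le_add (add_le_add (add_le_add (mul_le_mul' le_rfl hL2) hLb) hLH) ?_
        have h5 : (M0 : ℝ≥0∞) * (1 + CY * e R) ≤ M0 * (1 + CY) * e R := by
          have h6 : (1 : ℝ≥0∞) + CY * e R ≤ (1 + CY) * e R := by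
            rw [add_mul, one_mul]
            gcongr
            exact he1 R hR
          calc (M0 : ℝ≥0∞) * (1 + CY * e R) ≤ M0 * ((1 + CY) * e R) := by gcongr
            _ = _ := by ring
        refine h5.trans ?_
        have h6 : (M0 : ℝ≥0∞) * (1 + CY) ≤ ENNReal.ofReal (1 / 2) * K := by
          have h7 : ENNReal.ofReal (1 / 2) * (2 * (M0 : ℝ≥0∞) * (1 + CY)) =
              (M0 : ℝ≥0∞) * (1 + CY) := by
            have h8 : ENNReal.ofReal (1 / 2) * 2 = 1 := by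
              have : (2 : ℝ≥0∞) = ENNReal.ofReal 2 := by simp
              rw [this, ← ENNReal.ofReal_mul (by norm_num)]
              norm_num
            calc ENNReal.ofReal (1 / 2) * (2 * (M0 : ℝ≥0∞) * (1 + CY)) =
                (ENNReal.ofReal (1 / 2) * 2) * ((M0 : ℝ≥0∞) * (1 + CY)) := by ring
              _ = _ := by rw [h8, one_mul]
          rw [← h7]
          gcongr
        calc (M0 : ℝ≥0∞) * (1 + CY) * e R ≤ ENNReal.ofReal (1 / 2) * K * e R := by gcongr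
          _ = _ := by ring
      _ = (ENNReal.ofReal (1 / 8) + ENNReal.ofReal (1 / 8) + ENNReal.ofReal (1 / 8) +
          ENNReal.ofReal (1 / 2)) * (K * e R) := by ring
      _ ≤ 1 * (K * e R) := by
        gcongr
        rw [← ENNReal.ofReal_add (by norm_num) (by norm_num),
          ← ENNReal.ofReal_add (by norm_num) (by norm_num),
          ← ENNReal.ofReal_add (by norm_num) (by norm_num), ← ENNReal.ofReal_one]
        exact ENNReal.ofReal_le_ofReal (by norm_num)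
      _ = K * e R := one_mul _
  · push Not at hosc
    have hD := HD t ht U z R hU (by omega) β
    have h1 : ENNReal.ofReal (Real.exp (oscH z R β / 2)) *
        ENNReal.ofReal (Real.exp (-oscH z R β)) ≤ ENNReal.ofReal (Real.exp (-(H1 / 2))) := by
      rw [← ENNReal.ofReal_mul (Real.exp_pos _).le, ← Real.exp_add]
      refine ENNReal.ofReal_le_ofReal (Real.exp_le_exp.2 ?_)
      linarith
    calc N4 (gam (Q z (8 * R)) β) (FD t U z R) * ENNReal.ofReal (Real.exp (-oscH z R β))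
        ≤ CD * Lam t (R / b2) * ENNReal.ofReal (Real.exp (oscH z R β / 2)) *
          ENNReal.ofReal (Real.exp (-oscH z R β)) := by gcongr
      _ = CD * (ENNReal.ofReal (Real.exp (oscH z R β / 2)) *
          ENNReal.ofReal (Real.exp (-oscH z R β))) * Lam t (R / b2) := by ring
      _ ≤ CD * ENNReal.ofReal (Real.exp (-(H1 / 2))) * Lam t (R / b2) := by gcongr
      _ ≤ ENNReal.ofReal (1 / 8) * (K * e R) := by gcongr
      _ ≤ 1 * (K * e R) := by gcongr
      _ = K * e R := one_mul _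

end GF
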