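import Pool.Agent.Lib.MP_acf58e_gf.Func
import Pool.Agent.Lib.MP_acf58e_gf.B1
import Pool.Agent.Lib.MP_acf58e_gf.B2
import Pool.Agent.Lib.MP_acf58e_gf.Bloc
import Pool.Agent.Lib.MP_acf58e_gf.L4
import Pool.Agent.Lib.MP_acf58e_gf.Lnet

open MeasureTheory Set Filter Topology ProbabilityTheory
open scoped ENNReal

namespace GF

private theorem b3_gam_univ (D : Finset V) (β : V → ℝ) : gam D β Set.univ ≤ 1 := by
  unfold gam
  rw [Measure.smul_apply, smul_eq_mul]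
  have h1 : (((volume : Measure (D → ℝ)).withDensity (fun y => wt D (glue D β y))).map
      (glue D β)) Set.univ ≤ pf D β := by
    by_cases hm : AEMeasurable (glue D β)
        ((volume : Measure (D → ℝ)).withDensity (fun y => wt D (glue D β y)))
    · rw [Measure.map_apply_of_aemeasurable hm MeasurableSet.univ, Set.preimage_univ,
        withDensity_apply _ MeasurableSet.univ, Measure.restrict_univ]
      exact le_rfl
    · rw [Measure.map_of_not_aemeasurable hm]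
      simp
  calc (pf D β)⁻¹ * _ ≤ (pf D β)⁻¹ * pf D β := mul_le_mul_right h1 _
    _ ≤ 1 := ENNReal.inv_mul_le_one _

private theorem b3_N4_const (D : Finset V) (β : V → ℝ) (c : ℝ≥0∞) :
    N4 (gam D β) (fun _ => c) ≤ c := by
  unfold N4
  rw [lintegral_const]
  calc (c ^ (4 : ℕ) * gam D β Set.univ) ^ (1 / 4 : ℝ) ≤ (c ^ (4 : ℕ) * 1) ^ (1 / 4 : ℝ) := by
        apply ENNReal.rpow_le_rpow _ (by norm_num)
        exact mul_le_mul_right (b3_gam_univ D β) _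
    _ = c := by
        rw [mul_one, ← ENNReal.rpow_natCast, ← ENNReal.rpow_mul]
        norm_num

private theorem b3_rect (z : V) (m : ℤ) (a b c d : ℤ) :
    Q z m ∩ Rc a b c d = Rc (max (z.1 - m) a) (min (z.1 + m) b) (max (z.2 - m) c)
      (min (z.2 + m) d) := by
  ext w
  simp only [Q, Rc, Finset.mem_inter, Finset.mem_Icc, Prod.le_def]
  constructor
  · rintro ⟨⟨⟨h1, h2⟩, h3, h4⟩, ⟨h5, h6⟩, h7, h8⟩
    exact ⟨⟨max_le h1 h5, max_le h2 h6⟩, le_min h3 h7, le_min h4 h8⟩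
  · rintro ⟨⟨h1, h2⟩, h3, h4⟩
    exact ⟨⟨⟨(le_max_left _ _).trans h1, (le_max_left _ _).trans h2⟩,
      h3.trans (min_le_left _ _), h4.trans (min_le_left _ _)⟩,
      ⟨(le_max_right _ _).trans h1, (le_max_right _ _).trans h2⟩,
      h3.trans (min_le_right _ _), h4.trans (min_le_right _ _)⟩

/-- multiples of `ρ` in an interval -/
private theorem b3_range (x m : ℤ) (ρ b R : ℕ) (hρ : 64 ≤ ρ) (hb : 2000 ≤ b)
    (hR : R < b * (ρ + 1)) (hm : m = 2 * R + 4 * ρ) :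
    (x + m) / (ρ : ℤ) + 1 - (x - m) / (ρ : ℤ) ≤ 5 * b := by
  have hρ0 : (0 : ℤ) < ρ := by
    have : 0 < ρ := by omega
    exact_mod_cast this
  have h1 : (x + m) / (ρ : ℤ) < (x - m) / (ρ : ℤ) + 5 * b := by
    rw [Int.ediv_lt_iff_lt_mul hρ0]
    have h2 := Int.mul_ediv_add_emod (x - m) ρ
    have h3 := Int.emod_lt_of_pos (x - m) hρ0
    have h4 : (R : ℤ) < b * (ρ + 1) := by exact_mod_cast hR
    have h5 : (64 : ℤ) ≤ ρ := by exact_mod_cast hρ
    have h6 : (2000 : ℤ) ≤ b := by exact_mod_cast hb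
    have h7 : (64 : ℤ) * b ≤ ρ * b := by nlinarith
    have h8 : (2000 : ℤ) * ρ ≤ ρ * b := by nlinarith
    nlinarith
  omega

private theorem b3_card (z : V) (ρ b R : ℕ) (hρ : 64 ≤ ρ) (hb : 2000 ≤ b)
    (hR : R < b * (ρ + 1)) (W : Finset V)
    (hW : ∀ w : V, w ∈ W → w ∈ Q z (2 * R + 4 * ρ) ∧ (ρ : ℤ) ∣ w.1 ∧ (ρ : ℤ) ∣ w.2) :
    W.card ≤ 100 * b ^ 2 := by
  classical
  set m : ℤ := 2 * R + 4 * ρ with hm
  have hρ0 : (0 : ℤ) < ρ := by
    have : 0 < ρ := by omega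
    exact_mod_cast this
  have hsub : W ⊆ ((Finset.Icc ((z.1 - m) / (ρ : ℤ)) ((z.1 + m) / (ρ : ℤ))) ×ˢ
      (Finset.Icc ((z.2 - m) / (ρ : ℤ)) ((z.2 + m) / (ρ : ℤ)))).image
        (fun p : ℤ × ℤ => ((ρ : ℤ) * p.1, (ρ : ℤ) * p.2)) := by
    intro w hw
    obtain ⟨h1, ⟨i, hi⟩, ⟨j, hj⟩⟩ := hW w hw
    simp only [Q, Finset.mem_Icc, Prod.le_def] at h1
    obtain ⟨⟨h1, h2⟩, h3, h4⟩ := h1
    have key : ∀ x k : ℤ, x - m ≤ ρ * k → ρ * k ≤ x + m →
        k ∈ Finset.Icc ((x - m) / (ρ : ℤ)) ((x + m) / (ρ : ℤ)) := by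
      intro x k h5 h6
      rw [Finset.mem_Icc]
      constructor
      · have := Int.ediv_le_ediv hρ0 h5
        rwa [Int.mul_ediv_cancel_left _ (ne_of_gt hρ0)] at this
      · have := Int.ediv_le_ediv hρ0 h6
        rwa [Int.mul_ediv_cancel_left _ (ne_of_gt hρ0)] at this
    rw [Finset.mem_image]
    refine ⟨(i, j), Finset.mem_product.2 ⟨key z.1 i ?_ ?_, key z.2 j ?_ ?_⟩, ?_⟩
    · rw [← hi]; exact h1
    · rw [← hi]; exact h3
    · rw [← hj]; exact h2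
    · rw [← hj]; exact h4
    · exact Prod.ext hi.symm hj.symm
  have hc1 : (Finset.Icc ((z.1 - m) / (ρ : ℤ)) ((z.1 + m) / (ρ : ℤ))).card ≤ 5 * b := by
    rw [Int.card_Icc]
    have := b3_range z.1 m ρ b R hρ hb hR hm
    omega
  have hc2 : (Finset.Icc ((z.2 - m) / (ρ : ℤ)) ((z.2 + m) / (ρ : ℤ))).card ≤ 5 * b := by
    rw [Int.card_Icc]
    have := b3_range z.2 m ρ b R hρ hb hR hm
    omega
  calc W.card ≤ _ := Finset.card_le_card hsub
    _ ≤ _ := Finset.card_image_le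
    _ ≤ (5 * b) * (5 * b) := by
        rw [Finset.card_product]
        exact Nat.mul_le_mul hc1 hc2
    _ ≤ 100 * b ^ 2 := by nlinarith [Nat.zero_le (b * b)]

theorem B3 {w0 : ℝ} (h0 : 0 < w0) (hJ : JProp w0) (hR : RCProp) (ε : ℝ) (hε : 0 < ε) :
    ∃ (K' : ℝ) (C : ℝ≥0∞), 0 < K' ∧ C < ⊤ ∧ ∀ t : ℝ, K' ≤ t → ∀ R : ℕ, 1 ≤ R →
      Lam t R ≤ C * ENNReal.ofReal ((R : ℝ) ^ (1 + ε)) := by
  classical
  obtain ⟨b, H1, ε1, C, hb, hH1, hε1, hC, hrec⟩ := L4 h0 hJ ε hε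
  obtain ⟨CB, hCB, hB1⟩ := B1 hR ε hε
  set e : ℝ := (min ε1 1).toReal with he
  have hetop : min ε1 1 ≠ ⊤ := ne_top_of_le_ne_top ENNReal.one_ne_top (min_le_right _ _)
  have hepos : 0 < e := ENNReal.toReal_pos (ne_of_gt (lt_min hε1 one_pos)) hetop
  have hee : ENNReal.ofReal e ≤ ε1 := by
    rw [he, ENNReal.ofReal_toReal hetop]
    exact min_le_left _ _
  set CY : ℝ≥0∞ := 800 * (b : ℝ≥0∞) ^ 2 * ENNReal.ofReal CB with hCY
  have hCYtop : CY < ⊤ := by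
    rw [hCY]
    exact ENNReal.mul_lt_top (ENNReal.mul_lt_top (by norm_num)
      (ENNReal.pow_lt_top (ENNReal.natCast_lt_top b))) ENNReal.ofReal_lt_top
  refine ⟨max 1 (CB / e), C * (1 + CY + ((64 * b : ℕ) : ℝ≥0∞) ^ 4), ?_, ?_, ?_⟩
  · exact lt_of_lt_of_le one_pos (le_max_left _ _)
  · apply ENNReal.mul_lt_top hC
    rw [ENNReal.add_lt_top, ENNReal.add_lt_top]
    exact ⟨⟨by norm_num, hCYtop⟩, ENNReal.pow_lt_top (ENNReal.natCast_lt_top _)⟩
  · intro t ht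
    have ht1 : 1 ≤ t := le_trans (le_max_left _ _) ht
    have ht2 : CB / t ≤ e := by
      rw [div_le_iff₀ (lt_of_lt_of_le one_pos ht1)]
      have h1 := le_trans (le_max_right _ _) ht
      rw [div_le_iff₀ hepos] at h1
      linarith
    apply hrec t (by linarith) CY (64 * b)
    intro R hRb z U hU
    have hb0 : 0 < b := by omega
    have hρ : 64 ≤ R / b := by
      rw [Nat.le_div_iff_mul_le hb0]
      exact hRb
    have hρR : 2000 * (R / b) ≤ R :=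
      le_trans (Nat.mul_le_mul_right _ hb) (Nat.mul_div_le R b)
    have hRlt : R < b * (R / b + 1) := Nat.lt_mul_div_succ R hb0
    set ρ : ℕ := R / b with hρdef
    obtain ⟨a1, b1, c1, d1, rfl, hzU, h2, h3⟩ := hU
    have hU' : IsU R z (Rc a1 b1 c1 d1) := ⟨a1, b1, c1, d1, rfl, hzU, h2, h3⟩
    have hnet : ∃ Nt, IsNet (Q z (2 * R) ∩ Rc a1 b1 c1 d1) (ρ / 2) Nt := by
      rw [b3_rect]
      exact exists_net _ _ _ _ _ (by omega)
    obtain ⟨Nt, hNt⟩ := hnet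
    set W : Finset V := (Q z (2 * R + 4 * ρ)).filter (fun w => (ρ : ℤ) ∣ w.1 ∧ (ρ : ℤ) ∣ w.2)
      with hWdef
    have hW : ∀ w : V, w ∈ W ↔ w ∈ Q z (2 * R + 4 * ρ) ∧ (ρ : ℤ) ∣ w.1 ∧ (ρ : ℤ) ∣ w.2 := by
      intro w
      rw [hWdef, Finset.mem_filter]
    have hWcard : W.card ≤ 100 * b ^ 2 :=
      b3_card z ρ b R hρ hb hRlt W (fun w hw => (hW w).1 hw)
    set L : ℝ := CB * (ρ : ℝ) ^ (1 + ε) with hL
    refine ⟨Nt, W, fun w => BadB t L ρ w, fun _ => 8 * W.card * ENNReal.ofReal L, hNt,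
      measurable_const, ?_, hWcard, ?_, ?_, ?_, ?_⟩
    · intro w hw
      have h4 := ((hW w).1 hw).1
      simp only [Q, Finset.mem_Icc, Prod.le_def] at h4 ⊢
      obtain ⟨⟨h5, h6⟩, h7, h8⟩ := h4
      have hρ0 : (0 : ℤ) ≤ (ρ : ℤ) := Int.natCast_nonneg ρ
      refine ⟨⟨?_, ?_⟩, ?_, ?_⟩ <;> linarith
    · intro w _
      exact loc_BadB t L ρ w
    · intro w _ a
      exact (hB1 ρ hρ w t a ht1).trans ((ENNReal.ofReal_le_ofReal ht2).trans hee)
    · intro β _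
      refine (b3_N4_const _ _ _).trans ?_
      have h5 : ENNReal.ofReal L ≤ ENNReal.ofReal CB * ENNReal.ofReal ((R : ℝ) ^ (1 + ε)) := by
        rw [← ENNReal.ofReal_mul hCB.le]
        apply ENNReal.ofReal_le_ofReal
        rw [hL]
        apply mul_le_mul_of_nonneg_left _ hCB.le
        apply Real.rpow_le_rpow (Nat.cast_nonneg _) _ (by linarith)
        exact_mod_cast Nat.div_le_self R b
      have h6 : (8 * (W.card : ℝ≥0∞)) ≤ 800 * (b : ℝ≥0∞) ^ 2 := by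
        have : 8 * W.card ≤ 800 * b ^ 2 := by omega
        exact_mod_cast this
      calc 8 * (W.card : ℝ≥0∞) * ENNReal.ofReal L
          ≤ (800 * (b : ℝ≥0∞) ^ 2) * (ENNReal.ofReal CB * ENNReal.ofReal ((R : ℝ) ^ (1 + ε))) :=
            mul_le_mul' h6 h5
        _ = CY * ENNReal.ofReal ((R : ℝ) ^ (1 + ε)) := by
            rw [hCY, mul_assoc _ (ENNReal.ofReal CB)]
    · intro X hX
      exact B2 t L (by linarith) _ z R ρ (ρ / 2) hU' hρ hρR (by omega) (by omega) Nt hNt W hW X hX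

end GF
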