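import Pool.Agent.Lib.MP_acf58e_gf.Func

/-!
Basic facts on `ConnIn`, `comp`, `IsConn`, `dI`, `Q` (helper40), namespace `GF.CB`.
-/

open MeasureTheory Set
open scoped ENNReal

namespace GF.CB

theorem nn_symm {x y : V} (h : nn x y) : nn y x := by
  unfold nn at *
  rw [abs_sub_comm y.1 x.1, abs_sub_comm y.2 x.2]
  exact h

theorem dI_nonneg (x y : V) : 0 ≤ dI x y := le_trans (abs_nonneg _) (le_max_left _ _)

theorem dI_self (x : V) : dI x x = 0 := by simp [dI]

theorem dI_comm (x y : V) : dI x y = dI y x := by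
  unfold dI
  rw [abs_sub_comm x.1 y.1, abs_sub_comm x.2 y.2]

theorem dI_le_iff {x y : V} {r : ℤ} :
    dI x y ≤ r ↔ x.1 - y.1 ≤ r ∧ y.1 - x.1 ≤ r ∧ x.2 - y.2 ≤ r ∧ y.2 - x.2 ≤ r := by
  unfold dI
  rw [max_le_iff, abs_le, abs_le]
  constructor
  · rintro ⟨⟨h1, h2⟩, h3, h4⟩
    exact ⟨h2, by omega, h4, by omega⟩
  · rintro ⟨h1, h2, h3, h4⟩
    exact ⟨⟨by omega, h1⟩, by omega, h3⟩

theorem dI_tri (x y z : V) : dI x z ≤ dI x y + dI y z := by
  have h1 := dI_le_iff.1 (le_refl (dI x y))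
  have h2 := dI_le_iff.1 (le_refl (dI y z))
  rw [dI_le_iff]
  omega

theorem mem_Q {z x : V} {r : ℤ} : x ∈ Q z r ↔ dI z x ≤ r := by
  unfold Q
  rw [Finset.mem_Icc, dI_le_iff, Prod.le_def, Prod.le_def]
  constructor
  · rintro ⟨⟨h1, h2⟩, h3, h4⟩
    simp only at h1 h2 h3 h4
    omega
  · rintro ⟨h1, h2, h3, h4⟩
    refine ⟨⟨?_, ?_⟩, ?_, ?_⟩ <;> simp only <;> omega

theorem mem_Rc {a b c d : ℤ} {x : V} :
    x ∈ Rc a b c d ↔ a ≤ x.1 ∧ x.1 ≤ b ∧ c ≤ x.2 ∧ x.2 ≤ d := by
  unfold Rc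
  rw [Finset.mem_Icc, Prod.le_def, Prod.le_def]
  simp only
  tauto

theorem nn_dI {x y : V} (h : nn x y) : dI x y ≤ 1 := by
  unfold nn at h
  unfold dI
  have h1 := abs_nonneg (x.1 - y.1)
  have h2 := abs_nonneg (x.2 - y.2)
  rw [max_le_iff]
  omega

/-! ConnIn -/

variable {adj : V → V → Prop} {A A' : Set V} {x y z : V}

theorem refl (h : x ∈ A) : ConnIn adj A x x := ⟨h, Relation.ReflTransGen.refl⟩

theorem left (h : ConnIn adj A x y) : x ∈ A := h.1

theorem right (h : ConnIn adj A x y) : y ∈ A := by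
  obtain ⟨h1, h2⟩ := h
  induction h2 with
  | refl => exact h1
  | tail _ h3 _ => exact h3.2

theorem trans (h : ConnIn adj A x y) (h' : ConnIn adj A y z) : ConnIn adj A x z :=
  ⟨h.1, h.2.trans h'.2⟩

theorem step (h : ConnIn adj A x y) (h1 : adj y z) (hz : z ∈ A) : ConnIn adj A x z :=
  ⟨h.1, h.2.tail ⟨h1, hz⟩⟩

theorem single (hx : x ∈ A) (h1 : adj x y) (hy : y ∈ A) : ConnIn adj A x y :=
  step (refl hx) h1 hy

theorem symm' (hs : ∀ a b, adj a b → adj b a) (h : ConnIn adj A x y) : ConnIn adj A y x := by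
  obtain ⟨h1, h2⟩ := h
  induction h2 with
  | refl => exact refl h1
  | @tail b c h2 h3 ih =>
    exact trans (single h3.2 (hs _ _ h3.1) (right ⟨h1, h2⟩)) ih

theorem symm (h : ConnIn nn A x y) : ConnIn nn A y x := symm' (fun _ _ => nn_symm) h

theorem mono (h : ConnIn adj A x y) (hA : A ⊆ A') : ConnIn adj A' x y :=
  ⟨hA h.1, Relation.ReflTransGen.mono (fun _ _ h => ⟨h.1, hA h.2⟩) _ _ h.2⟩

theorem comp_sub : comp adj A x ⊆ A := fun _ h => right h

theorem mem_comp_self (h : x ∈ A) : x ∈ comp adj A x := refl h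

theorem comp_mono (hA : A ⊆ A') : comp adj A x ⊆ comp adj A' x := fun _ h => mono h hA

theorem comp_eq (h : ConnIn nn A x y) : comp nn A x = comp nn A y := by
  ext z
  exact ⟨fun hz => trans (symm h) hz, fun hz => trans h hz⟩

theorem comp_eq_of_mem (h : y ∈ comp nn A x) : comp nn A x = comp nn A y := comp_eq h

theorem comp_eq_of_inter (h : z ∈ comp nn A x) (h' : z ∈ comp nn A y) :
    comp nn A x = comp nn A y := (comp_eq h).trans (comp_eq h').symm

/-- a path inside A starting at x stays in the component of x -/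
theorem conn_comp (h : ConnIn adj A x y) : ConnIn adj (comp adj A x) x y := by
  obtain ⟨h1, h2⟩ := h
  induction h2 with
  | refl => exact refl (refl h1)
  | @tail b c h2 h3 ih => exact step ih h3.1 ⟨h1, h2.tail h3⟩

theorem isConn_comp : IsConn nn (comp nn A x) := by
  intro y hy z hz
  exact trans (symm (conn_comp hy)) (conn_comp hz)

theorem isConn_sub_comp {S : Set V} (hS : IsConn adj S) (hSA : S ⊆ A) (hy : y ∈ S)
    (hxy : ConnIn adj A x y) : S ⊆ comp adj A x := by
  intro z hz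
  exact trans hxy (mono (hS y hy z hz) hSA)

theorem isConn_sub_comp' {S : Set V} (hS : IsConn adj S) (hSA : S ⊆ A) (hy : y ∈ S) :
    S ⊆ comp adj A y := isConn_sub_comp hS hSA hy (refl (hSA hy))

theorem isConn_union {S T : Set V} (hS : IsConn nn S) (hT : IsConn nn T) (hx : x ∈ S)
    (hx' : x ∈ T) : IsConn nn (S ∪ T) := by
  have key : ∀ y ∈ S ∪ T, ConnIn nn (S ∪ T) x y := by
    rintro y (hy | hy)
    · exact mono (hS x hx y hy) subset_union_left
    · exact mono (hT x hx' y hy) subset_union_right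
  intro y hy z hz
  exact trans (symm (key y hy)) (key z hz)

theorem lev_mono {X : V → ℝ} {t t' : ℝ} (h : t ≤ t') : lev X t' ⊆ lev X t :=
  fun _ hv => le_trans h hv

theorem ExtGe.mono {S T : Set V} {ℓ : ℤ} (h : ExtGe S ℓ) (hST : S ⊆ T) : ExtGe T ℓ := by
  obtain ⟨x, hx, y, hy, h⟩ := h
  exact ⟨x, hST hx, y, hST hy, h⟩

theorem ExtGe.nonempty {S : Set V} {ℓ : ℤ} (h : ExtGe S ℓ) : S.Nonempty := by
  obtain ⟨x, hx, _⟩ := h
  exact ⟨x, hx⟩

/-! events depending on two level sets in a finite region -/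

theorem measurableSet_levels (B : Finset V) (t t' : ℝ) (P : Set V → Set V → Prop) :
    MeasurableSet {X : V → ℝ | P (lev X t ∩ B) (lev X t' ∩ B)} := by
  classical
  have hm : Measurable (fun X : V → ℝ =>
      ((fun v : B => decide (t ≤ X v)), (fun v : B => decide (t' ≤ X v)))) := by
    apply Measurable.prodMk
    · rw [measurable_pi_iff]
      intro v
      exact measurable_to_bool (by
        have : (fun X : V → ℝ => decide (t ≤ X v)) ⁻¹' {true} = (fun X : V → ℝ => X v) ⁻¹' (Set.Ici t) := by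
          ext X; simp
        rw [this]
        exact (measurable_pi_apply (v : V)) measurableSet_Ici)
    · rw [measurable_pi_iff]
      intro v
      exact measurable_to_bool (by
        have : (fun X : V → ℝ => decide (t' ≤ X v)) ⁻¹' {true} = (fun X : V → ℝ => X v) ⁻¹' (Set.Ici t') := by
          ext X; simp
        rw [this]
        exact (measurable_pi_apply (v : V)) measurableSet_Ici)
  have hset : {X : V → ℝ | P (lev X t ∩ B) (lev X t' ∩ B)} =
      (fun X : V → ℝ =>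
      ((fun v : B => decide (t ≤ X v)), (fun v : B => decide (t' ≤ X v)))) ⁻¹'
      {p : (B → Bool) × (B → Bool) | P {v | ∃ h : v ∈ B, p.1 ⟨v, h⟩ = true}
        {v | ∃ h : v ∈ B, p.2 ⟨v, h⟩ = true}} := by
    ext X
    simp only [mem_ofPred_eq, mem_preimage, decide_eq_true_eq]
    have h1 : ∀ s : ℝ, lev X s ∩ B = {v | ∃ _ : v ∈ B, s ≤ X v} := by
      intro s
      ext v
      simp only [lev, mem_inter_iff, mem_ofPred_eq, Finset.mem_coe]
      constructor
      · rintro ⟨h1, h2⟩; exact ⟨h2, h1⟩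
      · rintro ⟨h1, h2⟩; exact ⟨h2, h1⟩
    rw [h1 t, h1 t']
  rw [hset]
  exact hm (Set.to_countable _).measurableSet

theorem locEv_levels (B : Finset V) (t t' : ℝ) (P : Set V → Set V → Prop) :
    LocEv (B : Set V) {X | P (lev X t ∩ B) (lev X t' ∩ B)} := by
  refine ⟨measurableSet_levels B t t' P, ?_⟩
  intro X X' h
  have h1 : ∀ s : ℝ, lev X s ∩ B = lev X' s ∩ B := by
    intro s
    ext v
    simp only [lev, mem_inter_iff, mem_ofPred_eq]
    constructor
    · rintro ⟨h1, h2⟩; exact ⟨by rw [← h v h2]; exact h1, h2⟩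
    · rintro ⟨h1, h2⟩; exact ⟨by rw [h v h2]; exact h1, h2⟩
  simp only [mem_ofPred_eq, h1]

end GF.CB
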