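import Mathlib

/-!
MP_acf58e_pr : chemical distance in level sets of the planar DGFF.
Basic definitions: lattice, adjacency, boxes, connectivity, chemical distance,
field measures `gam D β` (density proportional to exp(-energy), boundary values β).
-/

open MeasureTheory Set
open scoped ENNReal

namespace GF

abbrev V := ℤ × ℤ

/-- sup-norm distance (as an integer) -/
def dI (x y : V) : ℤ := max |x.1 - y.1| |x.2 - y.2|

/-- nearest neighbour adjacency -/
def nn (x y : V) : Prop := |x.1 - y.1| + |x.2 - y.2| = 1

/-- king (star) adjacency -/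
def st (x y : V) : Prop := dI x y = 1

/-- the four neighbours -/
def nE (x : V) : V := (x.1 + 1, x.2)
def nW (x : V) : V := (x.1 - 1, x.2)
def nN (x : V) : V := (x.1, x.2 + 1)
def nS (x : V) : V := (x.1, x.2 - 1)

/-- box of centre z and radius r -/
noncomputable def Q (z : V) (r : ℤ) : Finset V := Finset.Icc (z.1 - r, z.2 - r) (z.1 + r, z.2 + r)

/-- rectangle [a,b] x [c,d] -/
noncomputable def Rc (a b c d : ℤ) : Finset V := Finset.Icc (a, c) (b, d)

/-- average over the four neighbours -/
noncomputable def av (f : V → ℝ) (x : V) : ℝ := (f (nE x) + f (nW x) + f (nN x) + f (nS x)) / 4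

/-- harmonic at every point of D -/
def Harm (D : Set V) (f : V → ℝ) : Prop := ∀ x ∈ D, f x = av f x

/-- outer boundary of D: points outside D with a neighbour in D -/
noncomputable def bd (D : Finset V) : Finset V :=
  (D.image nE ∪ D.image nW ∪ D.image nN ∪ D.image nS) \ D

/-- left endpoints of the horizontal edges touching D, lower endpoints of the vertical ones -/
noncomputable def eH (D : Finset V) : Finset V := D ∪ D.image nW
noncomputable def eV (D : Finset V) : Finset V := D ∪ D.image nS

/-- Dirichlet energy over the edges touching D -/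
noncomputable def energy (D : Finset V) (X : V → ℝ) : ℝ :=
  (∑ x ∈ eH D, (X (nE x) - X x) ^ 2 + ∑ x ∈ eV D, (X (nN x) - X x) ^ 2) / 2

noncomputable def wt (D : Finset V) (X : V → ℝ) : ℝ≥0∞ := ENNReal.ofReal (Real.exp (-energy D X))

/-- glue: y on D, β outside -/
noncomputable def glue (D : Finset V) (β : V → ℝ) (y : D → ℝ) : V → ℝ :=
  Function.updateFinset β D y

noncomputable def pf (D : Finset V) (β : V → ℝ) : ℝ≥0∞ := ∫⁻ y : D → ℝ, wt D (glue D β y)

/-- DGFF on D with boundary values β (as a law on configurations V → ℝ, equal to β off D). -/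
noncomputable def gam (D : Finset V) (β : V → ℝ) : Measure (V → ℝ) :=
  (pf D β)⁻¹ • ((volume : Measure (D → ℝ)).withDensity (fun y => wt D (glue D β y))).map (glue D β)

/-- x is joined to y by steps of type `adj` staying in A -/
def ConnIn (adj : V → V → Prop) (A : Set V) (x y : V) : Prop :=
  x ∈ A ∧ Relation.ReflTransGen (fun a b => adj a b ∧ b ∈ A) x y

/-- A is connected for the adjacency adj -/
def IsConn (adj : V → V → Prop) (A : Set V) : Prop := ∀ x ∈ A, ∀ y ∈ A, ConnIn adj A x y

/-- the component of x in A -/
def comp (adj : V → V → Prop) (A : Set V) (x : V) : Set V := {y | ConnIn adj A x y}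

/-- p is a path of length n from x to y with steps of type adj, in A -/
def IsPath (adj : V → V → Prop) (A : Set V) (n : ℕ) (p : ℕ → V) (x y : V) : Prop :=
  p 0 = x ∧ p n = y ∧ (∀ i ≤ n, p i ∈ A) ∧ ∀ i < n, adj (p i) (p (i + 1))

/-- chemical distance in A (⊤ if not connected) -/
noncomputable def cd (A : Set V) (x y : V) : ℕ∞ :=
  ⨅ (n : ℕ) (_ : ∃ p, IsPath nn A n p x y), (n : ℕ∞)

/-- level set {X ≥ t} -/
def lev (X : V → ℝ) (t : ℝ) : Set V := {v | t ≤ X v}

end GF
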