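import Pool.Agent.Lib.MP_acf58e_gf.Func

open MeasureTheory Set Filter Topology ProbabilityTheory
open scoped ENNReal

namespace GF

/-- existence of a path of length `n` is a countable union of finite intersections -/
private theorem path_set_eq (B : Set V) (n : ℕ) (x y : V) :
    {X : V → ℝ | ∃ p, IsPath nn (lev X 0 ∩ B) n p x y} =
      ⋃ q ∈ {q : Fin (n + 1) → V | q 0 = x ∧ q (Fin.last n) = y ∧ (∀ i, q i ∈ B) ∧
        ∀ i : Fin n, nn (q i.castSucc) (q i.succ)}, ⋂ i, {X : V → ℝ | 0 ≤ X (q i)} := by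
  ext X
  simp only [mem_ofPred_eq, mem_iUnion, mem_iInter, exists_prop]
  constructor
  · rintro ⟨p, h0, hn, hA, hs⟩
    refine ⟨fun i => p i, ⟨by simpa using h0, by simpa using hn, fun i => (hA i (by omega)).2,
      fun i => ?_⟩, fun i => (hA i (by omega)).1⟩
    simpa using hs i i.2
  · rintro ⟨q, ⟨h0, hn, hB, hs⟩, hX⟩
    refine ⟨fun i => if h : i < n + 1 then q ⟨i, h⟩ else x, ?_, ?_, ?_, ?_⟩
    · simpa using h0
    · simpa [Fin.last] using hn
    · intro i hi
      have hi' : i < n + 1 := by omega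
      simp only [hi', dif_pos]
      exact ⟨hX ⟨i, hi'⟩, hB ⟨i, hi'⟩⟩
    · intro i hi
      have hi' : i < n + 1 := by omega
      have hi'' : i + 1 < n + 1 := by omega
      simp only [hi', hi'', dif_pos]
      exact hs ⟨i, hi⟩

private theorem meas_path (B : Set V) (n : ℕ) (x y : V) :
    MeasurableSet {X : V → ℝ | ∃ p, IsPath nn (lev X 0 ∩ B) n p x y} := by
  rw [path_set_eq]
  refine MeasurableSet.biUnion (Set.to_countable _) fun q _ => ?_
  refine MeasurableSet.iInter fun i => ?_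
  exact measurableSet_le measurable_const (measurable_pi_apply _)

private theorem meas_cd (B : Set V) (x y : V) :
    Measurable fun X : V → ℝ => ((cd (lev X 0 ∩ B) x y : ℕ∞) : ℝ≥0∞) := by
  classical
  have h1 : (fun X : V → ℝ => ((cd (lev X 0 ∩ B) x y : ℕ∞) : ℝ≥0∞)) = fun X => ⨅ n : ℕ,
      if (∃ p, IsPath nn (lev X 0 ∩ B) n p x y) then (n : ℝ≥0∞) else ⊤ := by
    funext X
    rw [cd, ENat.toENNReal_iInf]
    refine iInf_congr fun n => ?_
    rw [ENat.toENNReal_iInf]
    split_ifs with h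
    · rw [ciInf_pos h]; simp
    · simp [h]
  rw [h1]
  refine Measurable.iInf fun n => ?_
  exact Measurable.ite (meas_path B n x y) measurable_const measurable_const

theorem meas_DX (N : ℕ) (α β : ℝ) (k : ℕ∞) : MeasurableSet {X : V → ℝ | DX N α β X ≤ k} := by
  have h1 : Measurable fun X : V → ℝ => ((DX N α β X : ℕ∞) : ℝ≥0∞) := by
    have h2 : (fun X : V → ℝ => ((DX N α β X : ℕ∞) : ℝ≥0∞)) = fun X : V → ℝ =>
        ⨅ u ∈ bN ⌊α * N⌋₊, ⨅ v ∈ bN ⌊β * N⌋₊, ((cd (lev X 0 ∩ VN N) u v : ℕ∞) : ℝ≥0∞) := by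
      funext X
      simp only [DX, ENat.toENNReal_iInf]
    rw [h2]
    exact Measurable.iInf fun u => Measurable.iInf fun _ => Measurable.iInf fun v =>
      Measurable.iInf fun _ => meas_cd _ u v
  have h3 : {X : V → ℝ | DX N α β X ≤ k} =
      {X : V → ℝ | ((DX N α β X : ℕ∞) : ℝ≥0∞) ≤ ((k : ℕ∞) : ℝ≥0∞)} := by
    ext X
    simp only [mem_ofPred_eq]
    exact ENat.toENNReal_le.symm
  rw [h3]
  exact measurableSet_le h1 measurable_const

end GF
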