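import Pool.Agent.Lib.MP_acf58e_gf.Func
import Pool.Agent.Lib.MP_acf58e_gf.EDX
import Pool.Agent.Lib.MP_acf58e_gf.G4
import Pool.Agent.Lib.MP_acf58e_gf.P7

open MeasureTheory Set Filter Topology ProbabilityTheory
open scoped ENNReal

namespace GF

private lemma e1_local {L : ℝ} {a b c d : ℤ} {X Y : V → ℝ} (h : ∀ v ∈ Rc a b c d, X v = Y v) :
    ShortLR L a b c d X → ShortLR L a b c d Y := by
  rintro ⟨n, p, x, y, hn, hx, hy, h0, h1, h2, h3⟩
  refine ⟨n, p, x, y, hn, hx, hy, h0, h1, ?_, h3⟩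
  intro i hi
  have := h2 i hi
  refine ⟨?_, this.2⟩
  have h4 : (0:ℝ) ≤ X (p i) := this.1
  show (0:ℝ) ≤ Y (p i)
  rw [← h _ this.2]; exact h4

private lemma e1_local' {L : ℝ} {a b c d : ℤ} {X Y : V → ℝ} (h : ∀ v ∈ Rc a b c d, X v = Y v) :
    ShortLR L a b c d X ↔ ShortLR L a b c d Y :=
  ⟨e1_local h, e1_local (fun v hv => (h v hv).symm)⟩

private lemma e1_meas (L : ℝ) (a b c d : ℤ) : MeasurableSet {X : V → ℝ | ShortLR L a b c d X} := by
  classical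
  have key : {X : V → ℝ | ShortLR L a b c d X} =
      ⋃ S ∈ (Rc a b c d).powerset, {X : V → ℝ | (∀ v ∈ Rc a b c d, (0 ≤ X v ↔ v ∈ S)) ∧
        ShortLR L a b c d (fun v => if v ∈ S then 0 else -1)} := by
    ext X
    simp only [Set.mem_iUnion, Set.mem_ofPred_eq, Finset.mem_powerset, exists_prop]
    have tr : ∀ (Y Z : V → ℝ), (∀ v ∈ Rc a b c d, (0 ≤ Y v ↔ 0 ≤ Z v)) → ShortLR L a b c d Y →
        ShortLR L a b c d Z := by
      rintro Y Z h ⟨n, p, x, y, hn, hx, hy, h0, h1, h2, h3⟩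
      refine ⟨n, p, x, y, hn, hx, hy, h0, h1, ?_, h3⟩
      intro i hi
      have := h2 i hi
      exact ⟨(h _ this.2).1 this.1, this.2⟩
    have hz : ∀ (S : Finset V) (v : V), (0:ℝ) ≤ (if v ∈ S then (0:ℝ) else -1) ↔ v ∈ S := by
      intro S v
      by_cases h : v ∈ S
      · simp [h]
      · simp [h]
    constructor
    · intro hX
      refine ⟨(Rc a b c d).filter (fun v => 0 ≤ X v), Finset.filter_subset _ _, ?_, ?_⟩
      · intro v hv
        simp [hv]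
      · refine tr X _ ?_ hX
        intro v hv
        rw [hz]
        simp [hv]
    · rintro ⟨S, hS, h1, h2⟩
      refine tr _ X ?_ h2
      intro v hv
      rw [hz]
      exact (h1 v hv).symm
  rw [key]
  refine Finset.measurableSet_biUnion _ (fun S _ => ?_)
  by_cases hS : ShortLR L a b c d (fun v => if v ∈ S then 0 else -1)
  · have : {X : V → ℝ | (∀ v ∈ Rc a b c d, (0 ≤ X v ↔ v ∈ S)) ∧
        ShortLR L a b c d (fun v => if v ∈ S then 0 else -1)} =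
        ⋂ v ∈ Rc a b c d, {X : V → ℝ | 0 ≤ X v ↔ v ∈ S} := by
      ext X
      simp only [Set.mem_ofPred_eq, Set.mem_iInter]
      exact ⟨fun h => h.1, fun h => ⟨h, hS⟩⟩
    rw [this]
    refine Finset.measurableSet_biInter _ (fun v _ => ?_)
    by_cases hv : v ∈ S
    · simp only [hv, iff_true]
      exact measurableSet_le measurable_const (measurable_pi_apply v)
    · simp only [hv, iff_false, not_le]
      exact measurableSet_lt (measurable_pi_apply v) measurable_const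
  · have : {X : V → ℝ | (∀ v ∈ Rc a b c d, (0 ≤ X v ↔ v ∈ S)) ∧
        ShortLR L a b c d (fun v => if v ∈ S then 0 else -1)} = ∅ := by
      ext X
      simp only [Set.mem_ofPred_eq, Set.mem_empty_iff_false, iff_false]
      exact fun h => hS h.2
    rw [this]
    exact MeasurableSet.empty

private lemma e1_mem_Rc {a b c d : ℤ} {v : V} : v ∈ Rc a b c d ↔ a ≤ v.1 ∧ v.1 ≤ b ∧ c ≤ v.2 ∧ v.2 ≤ d := by
  unfold Rc
  rw [Finset.mem_Icc]
  constructor
  · rintro ⟨h1, h2⟩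
    exact ⟨h1.1, h2.1, h1.2, h2.2⟩
  · rintro ⟨h1, h2, h3, h4⟩
    exact ⟨⟨h1, h3⟩, ⟨h2, h4⟩⟩

private lemma e1_mem_VN {N : ℕ} {v : V} : v ∈ VN N ↔ -(((N - 1) / 2 : ℕ) : ℤ) ≤ v.1 ∧ v.1 ≤ ((N / 2 : ℕ) : ℤ) ∧
    -(((N - 1) / 2 : ℕ) : ℤ) ≤ v.2 ∧ v.2 ≤ ((N / 2 : ℕ) : ℤ) := by
  unfold VN; exact e1_mem_Rc

private lemma e1_mem_bN {N : ℕ} {v : V} : v ∈ bN N ↔ v ∈ VN N ∧ ∃ u : V, nn v u ∧ u ∉ VN N := by
  classical
  unfold bN
  simp

private lemma e1_mem_iN {N : ℕ} {v : V} : v ∈ iN N ↔ v ∈ VN N ∧ ∀ u : V, nn v u → u ∈ VN N := by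
  classical
  unfold iN
  rw [Finset.mem_sdiff, e1_mem_bN]
  constructor
  · rintro ⟨h1, h2⟩
    refine ⟨h1, fun u hu => ?_⟩
    by_contra hc
    exact h2 ⟨h1, u, hu, hc⟩
  · rintro ⟨h1, h2⟩
    refine ⟨h1, fun h3 => ?_⟩
    obtain ⟨_, u, hu, hc⟩ := h3
    exact hc (h2 u hu)

private lemma e1_nn_bound {v u : V} (h : nn v u) : |v.1 - u.1| ≤ 1 ∧ |v.2 - u.2| ≤ 1 := by
  unfold nn at h
  have h1 := abs_nonneg (v.1 - u.1)
  have h2 := abs_nonneg (v.2 - u.2)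
  constructor <;> omega

/-- the box of radius k is inside iN N -/
private lemma e1_box_iN {N : ℕ} {k : ℤ} (hk : k + 1 ≤ (((N - 1) / 2 : ℕ) : ℤ)) {v : V} (h1 : |v.1| ≤ k) (h2 : |v.2| ≤ k) :
    v ∈ iN N := by
  have h3 : (((N - 1) / 2 : ℕ) : ℤ) ≤ ((N / 2 : ℕ) : ℤ) := by
    have : (N - 1) / 2 ≤ N / 2 := Nat.div_le_div_right (Nat.sub_le N 1)
    exact_mod_cast this
  rw [abs_le] at h1 h2
  rw [e1_mem_iN, e1_mem_VN]
  refine ⟨⟨by omega, by omega, by omega, by omega⟩, fun u hu => ?_⟩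
  obtain ⟨h4, h5⟩ := e1_nn_bound hu
  rw [abs_le] at h4 h5
  rw [e1_mem_VN]
  exact ⟨by omega, by omega, by omega, by omega⟩

private lemma e1_bd {N : ℕ} {x : V} (h : x ∈ bd (iN N)) : x ∈ VN N := by
  rw [mem_bd_iff] at h
  obtain ⟨_, h | h | h | h⟩ := h
  · exact (e1_mem_iN.1 h).2 x (by unfold nn nE; simp)
  · exact (e1_mem_iN.1 h).2 x (by unfold nn nW; simp)
  · exact (e1_mem_iN.1 h).2 x (by unfold nn nN; simp)
  · exact (e1_mem_iN.1 h).2 x (by unfold nn nS; simp)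

/-- first exit from a box -/
private lemma e1_exit {M : ℕ} {n : ℕ} {p : ℕ → V} (h0 : p 0 ∈ VN M) (hn : p n ∉ VN M)
    (hs : ∀ i < n, nn (p i) (p (i + 1))) :
    ∃ i < n, p i ∈ bN M ∧ p (i + 1) ∉ VN M := by
  classical
  have hex : ∃ i, p i ∉ VN M := ⟨n, hn⟩
  set k := Nat.find hex with hk
  have hk1 : p k ∉ VN M := Nat.find_spec hex
  have hk0 : k ≠ 0 := by
    intro h; rw [h] at hk1; exact hk1 h0
  have hkn : k ≤ n := Nat.find_min' hex hn
  have hmin : ∀ j < k, p j ∈ VN M := by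
    intro j hj
    have := Nat.find_min hex hj
    simpa using this
  obtain ⟨i, hi⟩ := Nat.exists_eq_succ_of_ne_zero hk0
  refine ⟨i, by omega, ?_, by rw [← Nat.succ_eq_add_one, ← hi]; exact hk1⟩
  rw [e1_mem_bN]
  refine ⟨hmin i (by omega), p k, ?_, hk1⟩
  rw [hi]
  exact hs i (by omega)

private lemma e1_DX {N : ℕ} {α β : ℝ} {L : ℝ} {W H : ℤ} {X : V → ℝ}
    (hM : ∀ y : ℤ, 0 ≤ y → y ≤ H → ((0 : ℤ), y) ∈ VN ⌊α * N⌋₊)
    (hM' : ∀ y : ℤ, (W, y) ∉ VN ⌊β * N⌋₊)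
    (hMM : VN ⌊α * N⌋₊ ⊆ VN ⌊β * N⌋₊)
    (hR : Rc 0 W 0 H ⊆ VN N) (hX : ShortLR L 0 W 0 H X) : DX N α β X < ⊤ := by
  obtain ⟨n, p, x, y, _, hx, hy, h0, h1, h2, h3⟩ := hX
  have hx0 : p 0 ∈ VN ⌊α * N⌋₊ := by
    have h4 := (h2 0 (Nat.zero_le n)).2
    have h5 := e1_mem_Rc.1 h4
    have h6 : p 0 = ((0:ℤ), (p 0).2) := by
      rw [← h0] at hx
      ext
      · exact hx
      · rfl
    rw [h6]
    exact hM _ h5.2.2.1 h5.2.2.2
  have hyn : p n ∉ VN ⌊β * N⌋₊ := by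
    have h6 : p n = (W, (p n).2) := by
      rw [← h1] at hy
      ext
      · exact hy
      · rfl
    rw [h6]
    exact hM' _
  obtain ⟨j, hj, hjb, hj1⟩ := e1_exit (hMM hx0) hyn h3
  -- the first exit of the small box comes first
  obtain ⟨i', hi', hib', _⟩ := e1_exit (n := j + 1) hx0 (fun h => hj1 (hMM h)) (fun k hk => h3 k (by omega))
  have hij' : i' ≤ j := by omega
  have hi'n : i' < n := by omega
  have hcd : cd (lev X 0 ∩ VN N) (p i') (p j) ≤ ((j - i' : ℕ) : ℕ∞) := by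
    unfold cd
    refine iInf₂_le (j - i') ?_
    refine ⟨fun k => p (i' + k), by simp, ?_, ?_, ?_⟩
    · show p (i' + (j - i')) = p j
      congr 1; omega
    · intro k hk
      have := h2 (i' + k) (by omega)
      exact ⟨this.1, hR this.2⟩
    · intro k hk
      have := h3 (i' + k) (by omega)
      exact this
  have h7 : DX N α β X ≤ cd (lev X 0 ∩ VN N) (p i') (p j) := by
    unfold DX
    exact (iInf₂_le (p i') hib').trans (iInf₂_le (p j) hjb)
  exact lt_of_le_of_lt (h7.trans hcd) (ENat.natCast_lt_top _)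

/-- comparison of the two boundary values -/
private lemma e1_cm (D : Finset V) (β : V → ℝ) (lam K : ℝ) (hβ : ∀ x ∈ bd D, β x = lam)
    (A : Set (V → ℝ)) (hA : MeasurableSet A) (R : Finset V) (hRD : R ⊆ D)
    (hloc : ∀ X Y : V → ℝ, (∀ x ∈ R, X x = Y x) → (X ∈ A ↔ Y ∈ A)) (φ : V → ℝ) (hφ0 : ∀ x ∉ D, φ x = 0)
    (hφ1 : ∀ x ∈ R, φ x = K - lam) :
    (gam D (fun _ => K)).real A ≤ Real.sqrt ((gam D β).real A) * Real.exp (energy D φ) := by
  have h1 : gam D β A = gam D (fun _ => lam) A := by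
    have hF : Measurable (A.indicator (fun _ : V → ℝ => (1 : ℝ≥0∞))) := measurable_const.indicator hA
    have h2 := gam_congr_bd (D := D) (β := β) (β' := fun _ => lam) hβ hF (by
      intro X Y hXY
      have h3 := hloc X Y (fun x hx => hXY x (Finset.mem_union_left _ (hRD hx)))
      by_cases hX : X ∈ A
      · rw [Set.indicator_of_mem hX, Set.indicator_of_mem (h3.1 hX)]
      · rw [Set.indicator_of_notMem hX, Set.indicator_of_notMem (fun h => hX (h3.2 h))])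
    rw [lintegral_indicator_const hA, lintegral_indicator_const hA, one_mul, one_mul] at h2
    exact h2
  have h2 : (gam D β).real A = (gam D (fun _ => lam)).real A := by
    rw [measureReal_def, measureReal_def, h1]
  have h3 : gam D (fun _ => K) = (gam D (fun _ => lam)).map (fun X x => X x + (K - lam)) := by
    have := gam_add_const D (fun _ => lam) (K - lam)
    rw [← this]
    congr 1
    funext x
    ring
  have hm : Measurable (fun (X : V → ℝ) (x : V) => X x + (K - lam)) :=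
    measurable_pi_lambda _ (fun x => (measurable_pi_apply x).add_const _)
  rw [h2, h3, measureReal_def, Measure.map_apply hm hA, ← measureReal_def]
  have h4 : (fun (X : V → ℝ) (x : V) => X x + (K - lam)) ⁻¹' A = {X | (fun x => X x + φ x) ∈ A} := by
    ext X
    rw [Set.mem_preimage, Set.mem_ofPred_eq]
    refine hloc _ _ (fun x hx => ?_)
    rw [hφ1 x hx]
  rw [h4]
  exact cm_sqrt' D (fun _ => lam) hφ0 hA

/-- E1: crossing probability bounded below -/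
theorem E1 (hR : RCProp) (α β lam : ℝ) (hα : 0 < α) (hαβ : α < β) (hβ : β < 1) :
    ∃ (c : ℝ≥0∞) (N0 : ℕ), 0 < c ∧ ∀ N ≥ N0,
      c ≤ gam (iN N) (fun v => if v ∈ VN N then lam else -1) {X | DX N α β X < ⊤} := by
  obtain ⟨C2, hC2, hcut⟩ := cut_energy_mul
  obtain ⟨δ, hδdef⟩ : ∃ δ : ℝ, δ = min (α / 4) ((1 - β) / 4) := ⟨_, rfl⟩
  have hδ0 : 0 < δ := by rw [hδdef]; exact lt_min (by linarith) (by linarith)
  have hδα : δ ≤ α / 4 := by rw [hδdef]; exact min_le_left _ _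
  have hδβ : δ ≤ (1 - β) / 4 := by rw [hδdef]; exact min_le_right _ _
  obtain ⟨A, hA⟩ : ∃ A : ℕ, 2 / δ ≤ A := ⟨⌈2 / δ⌉₊, Nat.le_ceil _⟩
  obtain ⟨C, hC, hRC⟩ := hR A 1 one_pos
  obtain ⟨K, hK⟩ : ∃ K : ℝ, K = max 1 (2 * C) := ⟨_, rfl⟩
  have hK1 : 1 ≤ K := by rw [hK]; exact le_max_left _ _
  have hK2 : 2 * C ≤ K := by rw [hK]; exact le_max_right _ _
  obtain ⟨E, hE⟩ : ∃ E : ℝ, E = C2 * (|K - lam| ^ 2 * (2 / δ) ^ 2) := ⟨_, rfl⟩
  obtain ⟨N0, hN0⟩ : ∃ N0 : ℕ, 2 / δ ≤ N0 ∧ 4 / α ≤ N0 ∧ 44 / (1 - β) ≤ N0 ∧ 1 / (β - α) ≤ N0 ∧ 1 ≤ N0 := by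
    refine ⟨⌈2 / δ⌉₊ + ⌈4 / α⌉₊ + ⌈44 / (1 - β)⌉₊ + ⌈1 / (β - α)⌉₊ + 1, ?_⟩
    have h1 := Nat.le_ceil (2 / δ)
    have h2 := Nat.le_ceil (4 / α)
    have h3 := Nat.le_ceil (44 / (1 - β))
    have h4 := Nat.le_ceil (1 / (β - α))
    push_cast
    have h5 : (0:ℝ) ≤ (⌈2 / δ⌉₊ : ℝ) := by positivity
    have h6 : (0:ℝ) ≤ (⌈4 / α⌉₊ : ℝ) := by positivity
    have h7 : (0:ℝ) ≤ (⌈44 / (1 - β)⌉₊ : ℝ) := by positivity
    have h8 : (0:ℝ) ≤ (⌈1 / (β - α)⌉₊ : ℝ) := by positivity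
    exact ⟨by linarith, by linarith, by linarith, by linarith, by trivial⟩
  refine ⟨ENNReal.ofReal ((Real.exp (-E) / 2) ^ 2), N0, ENNReal.ofReal_pos.2 (by positivity), ?_⟩
  intro N hN
  have hNr : (N0 : ℝ) ≤ N := by exact_mod_cast hN
  obtain ⟨g1, g2, g3, g4, g5⟩ := hN0
  have hN1 : 2 ≤ δ * N := by
    have : 2 / δ ≤ (N : ℝ) := g1.trans hNr
    rw [div_le_iff₀ hδ0] at this; linarith
  have hN2 : 4 ≤ α * N := by
    have : 4 / α ≤ (N : ℝ) := g2.trans hNr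
    rw [div_le_iff₀ hα] at this; linarith
  have hN3 : 44 ≤ (1 - β) * N := by
    have : 44 / (1 - β) ≤ (N : ℝ) := g3.trans hNr
    rw [div_le_iff₀ (by linarith)] at this; linarith
  have hN4 : 1 ≤ (β - α) * N := by
    have : 1 / (β - α) ≤ (N : ℝ) := g4.trans hNr
    rw [div_le_iff₀ (by linarith)] at this; linarith
  have hNpos : (0:ℝ) < N := by
    have : 1 ≤ N := g5.trans hN
    exact_mod_cast this
  -- the integers
  obtain ⟨M, hM⟩ : ∃ M : ℕ, M = ⌊α * N⌋₊ := ⟨_, rfl⟩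
  obtain ⟨M', hM'⟩ : ∃ M' : ℕ, M' = ⌊β * N⌋₊ := ⟨_, rfl⟩
  obtain ⟨r, hr⟩ : ∃ r : ℕ, r = ⌊δ * N⌋₊ := ⟨_, rfl⟩
  have hr1 : (r : ℝ) ≤ δ * N := by rw [hr]; exact Nat.floor_le (by positivity)
  have hr2 : δ * N < r + 1 := by rw [hr]; exact Nat.lt_floor_add_one _
  have hM1 : (M : ℝ) ≤ α * N := by rw [hM]; exact Nat.floor_le (by positivity)
  have hM2 : α * N < M + 1 := by rw [hM]; exact Nat.lt_floor_add_one _
  have hM1' : (M' : ℝ) ≤ β * N := by rw [hM']; exact Nat.floor_le (by nlinarith)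
  have hM2' : β * N < M' + 1 := by rw [hM']; exact Nat.lt_floor_add_one _
  have hr0 : 1 ≤ r := by
    have : (0:ℝ) < r := by linarith
    exact_mod_cast this
  have hMM' : M ≤ M' := by
    rw [hM, hM']
    exact Nat.floor_le_floor (by nlinarith)
  obtain ⟨W, hW⟩ : ∃ W : ℕ, W = M' / 2 + 1 := ⟨_, rfl⟩
  have hW1 : M' + 1 ≤ 2 * W := by omega
  have hW2 : 2 * W ≤ M' + 2 := by omega
  have hW1r : (M' : ℝ) + 1 ≤ 2 * W := by exact_mod_cast hW1
  have hW2r : 2 * (W : ℝ) ≤ M' + 2 := by exact_mod_cast hW2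
  have hrM : 2 * r ≤ M := by
    have h1 : (2 * r : ℝ) ≤ α * N / 2 := by nlinarith
    have h2 : (2 * r : ℝ) < M + 1 := by linarith
    have h3 : 2 * r < M + 1 := by exact_mod_cast h2
    omega
  have hrW : r ≤ W := by omega
  have hbig : W + r + 8 + 1 ≤ (N - 1) / 2 := by
    have h1 : (2 * (W + r + 9) : ℝ) + 2 ≤ N := by nlinarith
    have h2 : 2 * (W + r + 9) + 2 ≤ N := by exact_mod_cast h1
    omega
  have hNA : N ≤ A * r := by
    have h1 : δ * N / 2 ≤ r := by linarith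
    have h2 : (N : ℝ) ≤ A * r := by
      have h3 : (N : ℝ) = (2 / δ) * (δ * N / 2) := by field_simp
      rw [h3]
      exact mul_le_mul hA h1 (by positivity) (by positivity)
    exact_mod_cast h2
  -- the mean K
  obtain ⟨L, hL⟩ : ∃ L : ℝ, L = C * (r : ℝ) ^ ((1:ℝ) + 1) := ⟨_, rfl⟩
  have hbox : ∀ v : V, |v.1| ≤ (W : ℤ) + r + 8 → |v.2| ≤ (W : ℤ) + r + 8 → v ∈ iN N := by
    intro v h1 h2
    exact e1_box_iN (k := (W : ℤ) + r + 8) (by omega) h1 h2
  have hRC1 := hRC r hr0 (iN N) (0, 0) K 0 0 W r r hrW (by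
      have : W ≤ N := by omega
      exact this.trans hNA) le_rfl (by
      have : r ≤ N := by omega
      exact this.trans hNA) le_rfl (by
      have : r ≤ N := by omega
      exact this.trans hNA) (by
      intro v hv
      have h1 := e1_mem_VN.1 (e1_mem_iN.1 hv).1
      have h2 : ((N : ℕ) : ℤ) ≤ A * r := by exact_mod_cast hNA
      show v ∈ Rc (0 - (A * r : ℤ)) (0 + (A * r : ℤ)) (0 - (A * r : ℤ)) (0 + (A * r : ℤ))
      rw [e1_mem_Rc]
      have h3 : (((N - 1) / 2 : ℕ) : ℤ) ≤ N := by omega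
      have h4 : ((N / 2 : ℕ) : ℤ) ≤ N := by omega
      exact ⟨by omega, by omega, by omega, by omega⟩) (by
      intro v hv
      rw [e1_mem_Rc] at hv
      have h0 : ((r:ℕ) : ℤ) ≤ (W : ℤ) := by exact_mod_cast hrW
      exact hbox v (abs_le.2 ⟨by omega, by omega⟩) (abs_le.2 ⟨by omega, by omega⟩)) hK1
  rw [← hL] at hRC1
  obtain ⟨S, hS⟩ : ∃ S : Set (V → ℝ), S = {X | ShortLR L 0 (0 + (W : ℤ)) 0 (0 + (r : ℤ)) X} := ⟨_, rfl⟩
  have hSm : MeasurableSet S := by rw [hS]; exact e1_meas _ _ _ _ _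
  have hScompl : {X : V → ℝ | ¬ ShortLR L 0 (0 + (W : ℤ)) 0 (0 + (r : ℤ)) X} = Sᶜ := by
    rw [hS]; rfl
  rw [hScompl] at hRC1
  have hhalf : 1 / 2 ≤ (gam (iN N) (fun _ => K)).real S := by
    have h1 : (gam (iN N) (fun _ => K)).real Sᶜ ≤ 1 / 2 := by
      rw [measureReal_def]
      have h2 : C / K ≤ 1 / 2 := by
        rw [div_le_iff₀ (by linarith)]; linarith
      have h3 : (gam (iN N) (fun _ => K)) Sᶜ ≤ ENNReal.ofReal (1 / 2) :=
        hRC1.trans (ENNReal.ofReal_le_ofReal h2)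
      exact ENNReal.toReal_le_of_le_ofReal (by norm_num) h3
    have h2 := prob_compl_eq_one_sub (μ := gam (iN N) (fun _ => K)) hSm
    have h3 : (gam (iN N) (fun _ => K)).real Sᶜ = 1 - (gam (iN N) (fun _ => K)).real S :=
      probReal_compl_eq_one_sub hSm
    linarith
  -- the cut-off
  have hWr : (W : ℝ) < W + r := by
    have : (0:ℝ) < r := by exact_mod_cast hr0
    linarith
  have hW0 : (1 : ℝ) ≤ W + r := by
    have h1 : (1:ℝ) ≤ r := by exact_mod_cast hr0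
    have h2 : (0:ℝ) ≤ W := by positivity
    linarith
  obtain ⟨φ, hφ⟩ : ∃ φ : V → ℝ, φ = fun x => (K - lam) * cut (0, 0) W (W + r) x := ⟨_, rfl⟩
  have hφ0 : ∀ x ∉ iN N, φ x = 0 := by
    intro x hx
    rw [hφ]
    have h1 : ((W : ℝ) + r) ≤ dI x (0, 0) := by
      by_contra hcon
      push Not at hcon
      have h2 : (dI x (0, 0)) < (W : ℤ) + r := by exact_mod_cast hcon
      unfold dI at h2
      rw [max_lt_iff] at h2
      simp only [sub_zero] at h2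
      exact hx (hbox x (by omega) (by omega))
    show (K - lam) * cut (0, 0) W (W + r) x = 0
    rw [cut_zero hWr h1, mul_zero]
  have hφ1 : ∀ x ∈ Rc 0 (0 + (W : ℤ)) 0 (0 + (r : ℤ)), φ x = K - lam := by
    intro x hx
    rw [e1_mem_Rc] at hx
    rw [hφ]
    have h0 : ((r:ℕ) : ℤ) ≤ (W : ℤ) := by exact_mod_cast hrW
    have h1 : dI x (0, 0) ≤ (W : ℤ) := by
      unfold dI
      simp only [sub_zero]
      exact max_le (abs_le.2 ⟨by omega, by omega⟩) (abs_le.2 ⟨by omega, by omega⟩)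
    have h2 : (dI x (0, 0) : ℝ) ≤ (W : ℝ) := by exact_mod_cast h1
    show (K - lam) * cut (0, 0) W (W + r) x = K - lam
    rw [cut_one hWr h2, mul_one]
  have hEn : energy (iN N) φ ≤ E := by
    have h1 := hcut (iN N) (0, 0) W (W + r) 0 |K - lam| (fun _ => K - lam) hW0 hWr le_rfl (abs_nonneg _)
      (fun _ _ => le_rfl) (fun _ _ _ _ _ => by simp)
    rw [hφ, hE]
    refine h1.trans ?_
    have h2 : ((W : ℝ) + r) / ((W + r) - W) ≤ 2 / δ := by
      have h3 : ((W : ℝ) + r) - W = r := by ring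
      rw [h3]
      have hrpos : (0:ℝ) < r := by exact_mod_cast hr0
      rw [div_le_div_iff₀ hrpos hδ0]
      have h4 : (2 * (W + r + 9) : ℝ) + 2 ≤ N := by nlinarith
      have h5 : δ * N ≤ 2 * r := by linarith
      nlinarith
    have h3 : (0:ℝ) ≤ ((W : ℝ) + r) / ((W + r) - W) := by
      have h3 : ((W : ℝ) + r) - W = r := by ring
      rw [h3]; positivity
    have h4 : (((W : ℝ) + r) / ((W + r) - W)) ^ 2 ≤ (2 / δ) ^ 2 := pow_le_pow_left₀ h3 h2 2
    have h5 : (0:ℝ) ≤ |K - lam| ^ 2 := by positivity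
    nlinarith [mul_le_mul_of_nonneg_left h4 h5]
  -- comparison
  obtain ⟨bb, hbb⟩ : ∃ bb : V → ℝ, bb = fun v => if v ∈ VN N then lam else -1 := ⟨_, rfl⟩
  have hcm := e1_cm (iN N) bb lam K (by
      intro x hx
      rw [hbb]
      show (if x ∈ VN N then lam else -1) = lam
      rw [if_pos (e1_bd hx)]) S hSm (Rc 0 (0 + (W : ℤ)) 0 (0 + (r : ℤ))) (by
      intro v hv
      rw [e1_mem_Rc] at hv
      have h0 : ((r:ℕ) : ℤ) ≤ (W : ℤ) := by exact_mod_cast hrW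
      exact hbox v (abs_le.2 ⟨by omega, by omega⟩) (abs_le.2 ⟨by omega, by omega⟩)) (by
      intro X Y hXY
      rw [hS]
      exact e1_local' hXY) φ hφ0 hφ1
  have hprob : (Real.exp (-E) / 2) ^ 2 ≤ (gam (iN N) bb).real S := by
    have h1 : Real.exp (-E) * Real.exp (energy (iN N) φ) ≤ 1 := by
      rw [← Real.exp_add, Real.exp_le_one_iff]; linarith
    have h2 : 1 / 2 ≤ Real.sqrt ((gam (iN N) bb).real S) * Real.exp (energy (iN N) φ) := hhalf.trans hcm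
    have h3 : Real.exp (-E) / 2 ≤ Real.sqrt ((gam (iN N) bb).real S) := by
      have h4 : 0 < Real.exp (-E) := Real.exp_pos _
      have h5 : 0 ≤ Real.sqrt ((gam (iN N) bb).real S) := Real.sqrt_nonneg _
      calc Real.exp (-E) / 2 = Real.exp (-E) * (1 / 2) := by ring
        _ ≤ Real.exp (-E) * (Real.sqrt ((gam (iN N) bb).real S) * Real.exp (energy (iN N) φ)) :=
            mul_le_mul_of_nonneg_left h2 h4.le
        _ = Real.sqrt ((gam (iN N) bb).real S) * (Real.exp (-E) * Real.exp (energy (iN N) φ)) := by ring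
        _ ≤ Real.sqrt ((gam (iN N) bb).real S) * 1 := mul_le_mul_of_nonneg_left h1 h5
        _ = _ := mul_one _
    calc (Real.exp (-E) / 2) ^ 2 ≤ (Real.sqrt ((gam (iN N) bb).real S)) ^ 2 :=
          pow_le_pow_left₀ (by positivity) h3 2
      _ = _ := Real.sq_sqrt measureReal_nonneg
  have hsub : S ⊆ {X | DX N α β X < ⊤} := by
    intro X hX
    rw [hS] at hX
    have hX' : ShortLR L 0 (0 + (W : ℤ)) 0 (0 + (r : ℤ)) X := hX
    rw [zero_add, zero_add] at hX'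
    refine e1_DX (W := W) (H := r) (L := L) ?_ ?_ ?_ ?_ hX'
    · intro y hy0 hyr
      rw [← hM, e1_mem_VN]
      refine ⟨?_, ?_, ?_, ?_⟩
      · show -(((M - 1) / 2 : ℕ) : ℤ) ≤ 0
        omega
      · show (0 : ℤ) ≤ ((M / 2 : ℕ) : ℤ)
        omega
      · show -(((M - 1) / 2 : ℕ) : ℤ) ≤ y
        omega
      · show y ≤ ((M / 2 : ℕ) : ℤ)
        omega
    · intro y hy
      rw [← hM', e1_mem_VN] at hy
      have h1 : (W : ℤ) ≤ ((M' / 2 : ℕ) : ℤ) := hy.2.1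
      omega
    · intro v hv
      rw [← hM, e1_mem_VN] at hv
      rw [← hM', e1_mem_VN]
      exact ⟨by omega, by omega, by omega, by omega⟩
    · intro v hv
      rw [e1_mem_Rc] at hv
      have h0 : ((r:ℕ) : ℤ) ≤ (W : ℤ) := by exact_mod_cast hrW
      exact (e1_mem_iN.1 (hbox v (abs_le.2 ⟨by omega, by omega⟩) (abs_le.2 ⟨by omega, by omega⟩))).1
  calc ENNReal.ofReal ((Real.exp (-E) / 2) ^ 2) ≤ ENNReal.ofReal ((gam (iN N) bb).real S) :=
        ENNReal.ofReal_le_ofReal hprob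
    _ = gam (iN N) bb S := by
        rw [measureReal_def, ENNReal.ofReal_toReal (measure_ne_top _ _)]
    _ ≤ gam (iN N) bb {X | DX N α β X < ⊤} := measure_mono hsub
    _ = _ := by rw [hbb]

end GF
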