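import Pool.Agent.Lib.MP_acf58e_gf.Func
import Pool.Agent.Lib.MP_acf58e_gf.L2
import Pool.Agent.Lib.MP_acf58e_gf.ConnB

open MeasureTheory Set Filter Topology ProbabilityTheory
open scoped ENNReal

namespace GF

namespace E2aux

theorem mem_VN {M : ℕ} {x : V} : x ∈ VN M ↔ -(((M - 1) / 2 : ℕ) : ℤ) ≤ x.1 ∧ x.1 ≤ ((M / 2 : ℕ) : ℤ) ∧
    -(((M - 1) / 2 : ℕ) : ℤ) ≤ x.2 ∧ x.2 ≤ ((M / 2 : ℕ) : ℤ) := by
  unfold VN
  rw [CB.mem_Rc]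

theorem mem_bN {M : ℕ} {x : V} : x ∈ bN M ↔ x ∈ VN M ∧ ∃ u : V, nn x u ∧ u ∉ VN M := by
  classical
  unfold bN
  rw [Finset.mem_filter]

theorem bN_coord {M : ℕ} {x : V} (h : x ∈ bN M) : x.1 = ((M / 2 : ℕ) : ℤ) ∨
    x.1 = -(((M - 1) / 2 : ℕ) : ℤ) ∨ x.2 = ((M / 2 : ℕ) : ℤ) ∨ x.2 = -(((M - 1) / 2 : ℕ) : ℤ) := by
  obtain ⟨h1, u, h2, h3⟩ := mem_bN.1 h
  rw [mem_VN] at h1 h3
  unfold nn at h2
  have a1 := abs_nonneg (x.1 - u.1)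
  have a2 := abs_nonneg (x.2 - u.2)
  have a3 : |x.1 - u.1| ≤ 1 := by omega
  have a4 : |x.2 - u.2| ≤ 1 := by omega
  rw [abs_le] at a3 a4
  omega

theorem cut {A : Set V} {M : ℕ} {u v : V} (h : ConnIn nn A u v) (hu : u ∈ VN M) :
    ConnIn nn (A ∩ VN M) u v ∨ ∃ v' ∈ bN M, ConnIn nn (A ∩ VN M) u v' := by
  obtain ⟨h1, h2⟩ := h
  induction h2 with
  | refl => exact Or.inl (CB.refl ⟨h1, hu⟩)
  | @tail b c hb hbc ih =>
    rcases ih with h | h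
    · by_cases hc : c ∈ VN M
      · exact Or.inl (CB.step h hbc.1 ⟨hbc.2, hc⟩)
      · exact Or.inr ⟨b, mem_bN.2 ⟨(CB.right h).2, c, hbc.1, hc⟩, h⟩
    · exact Or.inr h

end E2aux

open E2aux in
/-- E2a (deterministic) -/
theorem E2a (α β : ℝ) (hα : 0 < α) (hαβ : α < β) (hβ : β < 1) : ∃ (δ : ℝ) (N0 K : ℕ), 0 < δ ∧ ∀ N ≥ N0,
    ∃ Nt : Finset V, Nt.card ≤ K ∧ Nt ⊆ VN ⌊β * N⌋₊ ∧ (∀ c ∈ Nt, Q c (8 * ⌊δ * N⌋₊ : ℕ) ⊆ iN N ∧ IsU ⌊δ * N⌋₊ c (VN ⌊β * N⌋₊)) ∧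
    ∀ X : V → ℝ, (∀ v ∉ VN N, X v < 0) → DX N α β X < ⊤ →
      ((DX N α β X : ℕ∞) : ℝ≥0∞) ≤ ∑ c ∈ Nt, FD 0 (VN ⌊β * N⌋₊) c ⌊δ * N⌋₊ X := by
  classical
  have h1 : 0 < β - α := by linarith
  have h2 : 0 < 1 - β := by linarith
  obtain ⟨δ, hδ, hδ1, hδ2⟩ : ∃ δ : ℝ, 0 < δ ∧ 16 * δ ≤ β - α ∧ 32 * δ ≤ 1 - β := by
    refine ⟨min ((β - α) / 16) ((1 - β) / 32), lt_min (by positivity) (by positivity), ?_, ?_⟩
    · have := min_le_left ((β - α) / 16) ((1 - β) / 32)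
      linarith
    · have := min_le_right ((β - α) / 16) ((1 - β) / 32)
      linarith
  refine ⟨δ, ⌈8 / δ⌉₊, (2 * ⌈2 / δ⌉₊ + 1) ^ 2, hδ, ?_⟩
  intro N hN
  have hN8 : 8 ≤ δ * N := by
    have e1 : 8 / δ ≤ N := (Nat.le_ceil _).trans (by exact_mod_cast hN)
    rw [div_le_iff₀ hδ] at e1
    linarith
  obtain ⟨ρ, hρdef⟩ : ∃ ρ, ρ = ⌊δ * N⌋₊ := ⟨_, rfl⟩
  obtain ⟨M, hMdef⟩ : ∃ M, M = ⌊β * N⌋₊ := ⟨_, rfl⟩
  obtain ⟨m, hmdef⟩ : ∃ m, m = ⌊α * N⌋₊ := ⟨_, rfl⟩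
  rw [← hρdef, ← hMdef]
  have hN0 : (0 : ℝ) ≤ N := Nat.cast_nonneg N
  have f1 : (ρ : ℝ) ≤ δ * N := by rw [hρdef]; exact Nat.floor_le (by positivity)
  have f2 : δ * N < ρ + 1 := by rw [hρdef]; exact Nat.lt_floor_add_one _
  have f3 : (M : ℝ) ≤ β * N := by rw [hMdef]; exact Nat.floor_le (by nlinarith)
  have f4 : β * N < M + 1 := by rw [hMdef]; exact Nat.lt_floor_add_one _
  have f5 : (m : ℝ) ≤ α * N := by rw [hmdef]; exact Nat.floor_le (by positivity)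
  have g1 : 16 * ρ + m ≤ M := by
    have : (16 * ρ + m : ℝ) < M + 1 := by nlinarith
    have : 16 * ρ + m < M + 1 := by exact_mod_cast this
    omega
  have g2 : 32 * ρ + M ≤ N := by
    have : (32 * ρ + M : ℝ) ≤ N := by nlinarith
    exact_mod_cast this
  have g3 : 8 ≤ ρ := by rw [hρdef]; exact Nat.le_floor (by exact_mod_cast hN8)
  have g4 : N ≤ ⌈2 / δ⌉₊ * ρ := by
    have e1 : 2 / δ ≤ ⌈2 / δ⌉₊ := Nat.le_ceil _
    have e2 : δ * N / 2 ≤ ρ := by linarith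
    have e3 : (N : ℝ) ≤ ⌈2 / δ⌉₊ * ρ := by
      calc (N : ℝ) = 2 / δ * (δ * N / 2) := by field_simp
        _ ≤ ⌈2 / δ⌉₊ * ρ := mul_le_mul e1 e2 (by positivity) (by positivity)
    exact_mod_cast e3
  have hVN : VN M = Rc (-(((M - 1) / 2 : ℕ) : ℤ)) ((M / 2 : ℕ) : ℤ) (-(((M - 1) / 2 : ℕ) : ℤ))
    ((M / 2 : ℕ) : ℤ) := rfl
  obtain ⟨Nt, hNt1, hNt2, hNt3⟩ := exists_net (-(((M - 1) / 2 : ℕ) : ℤ)) ((M / 2 : ℕ) : ℤ)
    (-(((M - 1) / 2 : ℕ) : ℤ)) ((M / 2 : ℕ) : ℤ) ρ (by omega)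
  rw [← hVN] at hNt1 hNt2
  refine ⟨Nt, ?_, hNt1, ?_, ?_⟩
  · refine le_trans (Finset.card_le_card ?_) (hNt3 (0, 0) ⌈2 / δ⌉₊)
    intro c hc
    rw [Finset.mem_filter]
    refine ⟨hc, ?_⟩
    have := mem_VN.1 (hNt1 hc)
    rw [CB.dI_le_iff]
    have g5 : (N : ℤ) ≤ ((⌈2 / δ⌉₊ * ρ : ℕ) : ℤ) := by exact_mod_cast g4
    simp only
    omega
  · intro c hc
    have hcV := mem_VN.1 (hNt1 hc)
    constructor
    · intro x hx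
      rw [CB.mem_Q, CB.dI_le_iff] at hx
      unfold iN
      rw [Finset.mem_sdiff]
      push_cast at hx
      constructor
      · rw [mem_VN]; omega
      · intro hb
        have := bN_coord hb
        omega
    · exact ⟨_, _, _, _, hVN, hNt1 hc, by omega, by omega⟩
  · intro X hX hfin
    have hsub : lev X 0 ⊆ VN N := by
      intro v hv
      by_contra hcon
      have := hX v hcon
      exact absurd hv (not_le.2 this)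
    have hA : lev X 0 ∩ VN N = lev X 0 := inter_eq_left.2 hsub
    unfold DX at hfin ⊢
    rw [hA, ← hmdef, ← hMdef] at hfin ⊢
    obtain ⟨u, hu, v, hv, huv⟩ : ∃ u ∈ bN m, ∃ v ∈ bN M, cd (lev X 0) u v < ⊤ := by
      by_contra hcon
      push Not at hcon
      refine hfin.ne ?_
      rw [iInf₂_eq_top]
      intro u hu
      rw [iInf₂_eq_top]
      intro v hv
      exact top_le_iff.1 (hcon u hu v hv)
    rw [cd_lt_top_iff] at huv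
    have huV := mem_VN.1 (mem_bN.1 hu).1
    have huM : u ∈ VN M := mem_VN.2 (by omega)
    obtain ⟨v', hv', hc⟩ : ∃ v' ∈ bN M, ConnIn nn (lev X 0 ∩ VN M) u v' := by
      rcases cut huv huM with h | h
      · exact ⟨v, hv, h⟩
      · exact h
    have hd : 4 * (ρ : ℤ) < dI u v' := by
      by_contra hcon
      rw [not_lt, CB.dI_le_iff] at hcon
      have := bN_coord hv'
      omega
    have key := L2' 0 le_rfl (-(((M - 1) / 2 : ℕ) : ℤ)) ((M / 2 : ℕ) : ℤ) (-(((M - 1) / 2 : ℕ) : ℤ))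
      ((M / 2 : ℕ) : ℤ) ρ (by omega) Nt hNt1 hNt2 X u v' hc
      ⟨u, CB.mem_comp_self (CB.left hc), v', hc, hd⟩
    rw [← hVN] at key
    refine le_trans (ENat.toENNReal_mono ?_) key
    exact iInf₂_le_of_le u hu (iInf₂_le_of_le v' hv' le_rfl)

end GF
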