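import Pool.Agent.Lib.MP_acf58e_gf.Func
import Pool.Agent.Lib.MP_acf58e_gf.E2a
import Pool.Agent.Lib.MP_acf58e_gf.L0a
import Pool.Agent.Lib.MP_acf58e_gf.L0b
import Pool.Agent.Lib.MP_acf58e_gf.P8b
import Pool.Agent.Lib.MP_acf58e_gf.G1
import Pool.Agent.Lib.MP_acf58e_gf.EDX

open MeasureTheory Set Filter Topology ProbabilityTheory
open scoped ENNReal

namespace GF

private theorem e2_bd {N : ℕ} {y : V} (hy : y ∈ bd (iN N)) : y ∈ VN N := by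
  classical
  by_contra hV
  have key : ∀ x : V, nn x y → x ∉ iN N := by
    intro x hxy hx
    unfold iN at hx
    rw [Finset.mem_sdiff] at hx
    apply hx.2
    unfold bN
    rw [Finset.mem_filter]
    exact ⟨hx.1, y, hxy, hV⟩
  obtain ⟨-, h⟩ := mem_bd_iff.1 hy
  rcases h with h | h | h | h
  · exact key _ (by simp [nn, nE]) h
  · exact key _ (by simp [nn, nW]) h
  · exact key _ (by simp [nn, nN]) h
  · exact key _ (by simp [nn, nS]) h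

private theorem e2_jensen (μ : Measure (V → ℝ)) [IsProbabilityMeasure μ] {F : (V → ℝ) → ℝ≥0∞}
    (hF : Measurable F) : ∫⁻ X, F X ∂μ ≤ (∫⁻ X, F X ^ (4 : ℕ) ∂μ) ^ (1 / 4 : ℝ) := by
  have hpq : Real.HolderConjugate 4 (4 / 3) := by
    constructor <;> norm_num
  have h := ENNReal.lintegral_mul_le_Lp_mul_Lq μ hpq hF.aemeasurable
    (aemeasurable_const (b := (1 : ℝ≥0∞)))
  have e : ∀ x : ℝ≥0∞, x ^ (4 : ℝ) = x ^ (4 : ℕ) := fun x => by
    rw [← ENNReal.rpow_natCast]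
    norm_num
  simpa [e] using h

/-- E2: expected distance -/
theorem E2 (α β lam : ℝ) (hα : 0 < α) (hαβ : α < β) (hβ : β < 1) (ε : ℝ) (hε : 0 < ε)
    (hL : ∃ C : ℝ≥0∞, C < ⊤ ∧ ∀ R : ℕ, 1 ≤ R → Lam 0 R ≤ C * ENNReal.ofReal ((R : ℝ) ^ (1 + ε))) :
    ∃ (C : ℝ≥0∞) (N0 : ℕ), C < ⊤ ∧ ∀ N ≥ N0,
      ∫⁻ X in {X | DX N α β X < ⊤}, ((DX N α β X : ℕ∞) : ℝ≥0∞)
        ∂(gam (iN N) (fun v => if v ∈ VN N then lam else -1)) ≤ C * ENNReal.ofReal ((N : ℝ) ^ (1 + ε)) := by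
  obtain ⟨CL, hCL, hLam⟩ := hL
  obtain ⟨δ, N0, K, hδ, hE⟩ := E2a α β hα hαβ hβ
  obtain ⟨C1, hC1, hstep⟩ := osc_step 4
  refine ⟨(K : ℝ≥0∞) * (CL * ENNReal.ofReal (δ ^ (1 + ε)) * ENNReal.ofReal (C1 ^ (1 / 4 : ℝ))),
    max N0 ⌈1 / δ⌉₊, ?_, ?_⟩
  · exact ENNReal.mul_lt_top (ENNReal.natCast_lt_top _)
      (ENNReal.mul_lt_top (ENNReal.mul_lt_top hCL ENNReal.ofReal_lt_top) ENNReal.ofReal_lt_top)
  intro N hN
  obtain ⟨Nt, hcard, -, hNt, hDX⟩ := hE N (le_of_max_le_left hN)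
  set β0 : V → ℝ := fun v => if v ∈ VN N then lam else -1 with hβ0
  set D : Finset V := iN N with hD
  set ρ : ℕ := ⌊δ * N⌋₊ with hρ
  have hNδ : 1 / δ ≤ (N : ℝ) :=
    (Nat.le_ceil _).trans (by exact_mod_cast le_of_max_le_right hN)
  have hδN : 1 ≤ δ * N := by
    rw [div_le_iff₀ hδ] at hNδ
    linarith
  have hρ1 : 1 ≤ ρ := by
    rw [hρ]
    exact Nat.le_floor (by exact_mod_cast hδN)
  have hρN : (ρ : ℝ) ≤ δ * N := Nat.floor_le (by positivity)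
  have hN0 : (0 : ℝ) ≤ N := Nat.cast_nonneg _
  -- the harmonic extension is constant on D
  have hconst : ∀ x ∈ D, hx D β0 x = lam := by
    intro x hxD
    have h1 : hx D β0 x = hx D (fun _ => lam) x := by
      refine hx_congr_bd (fun y hy => ?_) x hxD
      rw [hβ0]
      exact if_pos (e2_bd hy)
    rw [h1, hx_const]
  -- one child
  have hchild : ∀ c ∈ Nt, ∫⁻ X, FD 0 (VN ⌊β * N⌋₊) c ρ X ∂(gam D β0) ≤
      CL * ENNReal.ofReal (δ ^ (1 + ε)) * ENNReal.ofReal (C1 ^ (1 / 4 : ℝ)) *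
        ENNReal.ofReal ((N : ℝ) ^ (1 + ε)) := by
    intro c hc
    obtain ⟨hQ, hU⟩ := hNt c hc
    have hQ' : Q c (8 * (ρ : ℤ)) ⊆ D := by
      have e : ((8 * ρ : ℕ) : ℤ) = 8 * (ρ : ℤ) := by push_cast; ring
      rw [← e]
      exact hQ
    have hexp : ∫⁻ X, ENNReal.ofReal (Real.exp (4 * oscH c ρ X)) ∂(gam D β0) ≤
        ENNReal.ofReal C1 := by
      refine le_trans (lintegral_mono fun X => ?_)
        (hstep D β0 c ρ (by exact_mod_cast hρ1) hQ')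
      refine ENNReal.ofReal_le_ofReal (Real.exp_le_exp.2 ?_)
      refine mul_le_mul_of_nonneg_left ?_ (by norm_num)
      have h9 := osc_add_le (Q c (4 * (ρ : ℤ)))
        (fun x => hx (Q c (8 * (ρ : ℤ))) X x - hx D β0 x) (hx D β0)
      have h10 : (fun x => hx (Q c (8 * (ρ : ℤ))) X x - hx D β0 x + hx D β0 x)
          = hx (Q c (8 * (ρ : ℤ))) X := by
        funext x
        ring
      rw [h10] at h9
      have h11 : oscH c ρ X = osc (Q c (4 * (ρ : ℤ))) (hx (Q c (8 * (ρ : ℤ))) X) := rfl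
      have hin : ∀ x ∈ Q c (4 * (ρ : ℤ)), x ∈ D := by
        intro x hx
        refine hQ' ?_
        simp only [Q, Finset.mem_Icc, Prod.le_def] at hx ⊢
        have : (0 : ℤ) ≤ ρ := Nat.cast_nonneg _
        omega
      have h12 : osc (Q c (4 * (ρ : ℤ))) (hx D β0) ≤ 0 := by
        refine osc_le le_rfl ?_
        intro x hx y hy
        rw [hconst x (hin x hx), hconst y (hin y hy), sub_self, abs_zero]
      rw [h11]
      linarith
    have h4 := L0a 0 (VN ⌊β * N⌋₊) c ρ hU D hQ' β0 univ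
      ⟨MeasurableSet.univ, fun _ _ _ => by simp⟩
    simp only [Measure.restrict_univ] at h4
    have h5 : Lam 0 ρ ≤ CL * ENNReal.ofReal (δ ^ (1 + ε)) * ENNReal.ofReal ((N : ℝ) ^ (1 + ε)) := by
      refine (hLam ρ hρ1).trans ?_
      rw [mul_assoc, ← ENNReal.ofReal_mul (by positivity), ← Real.mul_rpow hδ.le hN0]
      exact mul_le_mul_right (ENNReal.ofReal_le_ofReal
        (Real.rpow_le_rpow (Nat.cast_nonneg _) hρN (by linarith))) _
    have h6 : ENNReal.ofReal C1 = ENNReal.ofReal (C1 ^ (1 / 4 : ℝ)) ^ (4 : ℕ) := by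
      rw [← ENNReal.ofReal_pow (by positivity), ← Real.rpow_natCast (C1 ^ (1 / 4 : ℝ)) 4,
        ← Real.rpow_mul hC1.le]
      norm_num
    calc ∫⁻ X, FD 0 (VN ⌊β * N⌋₊) c ρ X ∂(gam D β0)
        ≤ (∫⁻ X, FD 0 (VN ⌊β * N⌋₊) c ρ X ^ (4 : ℕ) ∂(gam D β0)) ^ (1 / 4 : ℝ) :=
          e2_jensen _ (meas_FD _ _ _ _)
      _ ≤ (Lam 0 ρ ^ (4 : ℕ) * ENNReal.ofReal (C1 ^ (1 / 4 : ℝ)) ^ (4 : ℕ)) ^ (1 / 4 : ℝ) := by
          refine ENNReal.rpow_le_rpow (h4.trans ?_) (by norm_num)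
          rw [← h6]
          exact mul_le_mul_right hexp _
      _ = Lam 0 ρ * ENNReal.ofReal (C1 ^ (1 / 4 : ℝ)) := by
          rw [← mul_pow, ← ENNReal.rpow_natCast, ← ENNReal.rpow_mul]
          norm_num
      _ ≤ CL * ENNReal.ofReal (δ ^ (1 + ε)) * ENNReal.ofReal ((N : ℝ) ^ (1 + ε)) *
            ENNReal.ofReal (C1 ^ (1 / 4 : ℝ)) := mul_le_mul_left h5 _
      _ = _ := by ring
  -- the bound almost everywhere
  have hae : ∀ᵐ X ∂(gam D β0), DX N α β X < ⊤ →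
      ((DX N α β X : ℕ∞) : ℝ≥0∞) ≤ ∑ c ∈ Nt, FD 0 (VN ⌊β * N⌋₊) c ρ X := by
    filter_upwards [gam_ae_off D β0] with X hX hlt
    refine hDX X ?_ hlt
    intro v hv
    have hv' : v ∉ D := by
      intro h
      rw [hD] at h
      unfold iN at h
      exact hv (Finset.mem_sdiff.1 h).1
    rw [hX v hv', hβ0]
    have : (fun v => if v ∈ VN N then lam else (-1 : ℝ)) v = -1 := if_neg hv
    rw [this]
    norm_num
  have hmeas : MeasurableSet {X : V → ℝ | DX N α β X < ⊤} := by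
    have e : {X : V → ℝ | DX N α β X < ⊤} = ⋃ k : ℕ, {X : V → ℝ | DX N α β X ≤ (k : ℕ∞)} := by
      ext X
      simp only [mem_setOf_eq, mem_iUnion]
      constructor
      · intro h
        lift DX N α β X to ℕ using h.ne with k hk
        exact ⟨k, le_rfl⟩
      · rintro ⟨k, hk⟩
        exact lt_of_le_of_lt hk (ENat.coe_lt_top k)
    rw [e]
    exact MeasurableSet.iUnion fun k => meas_DX N α β k
  calc ∫⁻ X in {X | DX N α β X < ⊤}, ((DX N α β X : ℕ∞) : ℝ≥0∞) ∂(gam D β0)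
      ≤ ∫⁻ X in {X | DX N α β X < ⊤}, ∑ c ∈ Nt, FD 0 (VN ⌊β * N⌋₊) c ρ X ∂(gam D β0) := by
        exact lintegral_mono_ae ((ae_restrict_iff' hmeas).2 hae)
    _ ≤ ∫⁻ X, ∑ c ∈ Nt, FD 0 (VN ⌊β * N⌋₊) c ρ X ∂(gam D β0) := setLIntegral_le_lintegral _ _
    _ = ∑ c ∈ Nt, ∫⁻ X, FD 0 (VN ⌊β * N⌋₊) c ρ X ∂(gam D β0) :=
        lintegral_finset_sum _ fun c _ => meas_FD _ _ _ _
    _ ≤ ∑ _c ∈ Nt, CL * ENNReal.ofReal (δ ^ (1 + ε)) * ENNReal.ofReal (C1 ^ (1 / 4 : ℝ)) *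
        ENNReal.ofReal ((N : ℝ) ^ (1 + ε)) := Finset.sum_le_sum hchild
    _ = (Nt.card : ℝ≥0∞) * (CL * ENNReal.ofReal (δ ^ (1 + ε)) * ENNReal.ofReal (C1 ^ (1 / 4 : ℝ)) *
        ENNReal.ofReal ((N : ℝ) ^ (1 + ε))) := by
        rw [Finset.sum_const, nsmul_eq_mul]
    _ ≤ (K : ℝ≥0∞) * (CL * ENNReal.ofReal (δ ^ (1 + ε)) * ENNReal.ofReal (C1 ^ (1 / 4 : ℝ)) *
        ENNReal.ofReal ((N : ℝ) ^ (1 + ε))) := by
        refine mul_le_mul_left ?_ _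
        exact_mod_cast hcard
    _ = _ := by ring

end GF
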