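import Pool.Agent.Lib.MP_acf58e_gf.Func
import Pool.Agent.Lib.MP_acf58e_gf.L2
import Pool.Agent.Lib.MP_acf58e_gf.ConnB

open MeasureTheory Set Filter Topology ProbabilityTheory
open scoped ENNReal

namespace GF

namespace L3aux

theorem cd_le_FD {t : ℝ} {U : Finset V} {z : V} {R : ℕ} {X : V → ℝ} {κ : Set V}
    (hκ : κ ∈ clus t (Q z (2 * R) ∩ U) (Q z R) R X) {x y : V} (hx : x ∈ κ) (hy : y ∈ κ)
    (hxQ : x ∈ Q z R) (hyQ : y ∈ Q z R) :
    ((cd (lev X 0) x y : ℕ∞) : ℝ≥0∞) ≤ FD t U z R X := by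
  classical
  rw [FD_eq]
  have h1 : ((cd (lev X 0) x y : ℕ∞) : ℝ≥0∞) ≤ dia (Q z R) X κ :=
    le_iSup₂_of_le x ⟨hx, hxQ⟩ (le_iSup₂_of_le y ⟨hy, hyQ⟩ le_rfl)
  refine h1.trans (le_trans ?_ (Finset.single_le_sum (f := fun κ => 1 + dia (Q z R) X κ)
    (fun _ _ => zero_le) hκ))
  exact le_add_self

/-- a component which leaves the box has large extent in the box -/
theorem exit_pt {S : Set V} {U : Finset V} {p e w : V} {ρ : ℕ} (hSU : S ⊆ (U : Set V))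
    (h : ConnIn nn S p e) (hp : dI w p ≤ 2 * ρ) (he : 2 * (ρ : ℤ) < dI w e) :
    ∃ v, ConnIn nn (S ∩ ((Q w (2 * ρ) ∩ U : Finset V) : Set V)) p v ∧ 2 * (ρ : ℤ) ≤ dI w v := by
  obtain ⟨v, v', h1, h2, h3, h4⟩ := h.first_exit (S := (Q w (2 * ρ) : Set V)) (CB.mem_Q.2 hp)
    (fun hh => by have := CB.mem_Q.1 hh; omega)
  refine ⟨v, CB.mono h1 ?_, ?_⟩
  · rintro x ⟨hx, hx2⟩
    refine ⟨hx, ?_⟩
    rw [Finset.coe_inter]
    exact ⟨hx2, hSU hx⟩
  · have h5 : ¬ dI w v' ≤ 2 * ρ := fun hh => h4 (CB.mem_Q.2 hh)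
    have h6 := CB.dI_tri w v v'
    have h7 := CB.nn_dI h2
    omega

end L3aux

open L3aux in
/-- L3: good decomposition -/
theorem L3 (t s : ℝ) (ht : 0 ≤ t) (hs : 0 ≤ s) (U : Finset V) (z : V) (R ρ r q : ℕ) (hU : IsU R z U)
    (hρ : 16 ≤ ρ) (h : 2000 * ρ ≤ R) (hr : 1 ≤ r) (hr' : 400 * r ≤ R) (hq : 1 ≤ q) (hq' : 2 * q ≤ ρ)
    (Nt : Finset V) (hN : IsNet (Q z (2 * R) ∩ U) q Nt) (Nr : Finset V)
    (hNr : IsNet (Q z (3 * R) ∩ U) r Nr) (X : V → ℝ)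
    (hB : ∀ w ∈ Nt, ¬ Birth (Q w (2 * ρ) ∩ U) ρ t (t + s) X)
    (hM : ∀ w ∈ Nt, ¬ Merge (Q w (8 * ρ) ∩ U) ρ t (t + s) X) :
    FD t U z R X ≤ (FM t U z R X : ℝ≥0∞) * (1 + 2 * (⨆ c ∈ Nt, FD t U c (4 * ρ) X) +
      ∑ c ∈ Nr, FD (t + s) (Q z (3 * R) ∩ U) c r X) := by
  classical
  have hlev : lev X (t + s) ⊆ lev X t := CB.lev_mono (by linarith)
  have hlev0 : lev X t ⊆ lev X 0 := CB.lev_mono ht
  rw [FD_eq]
  have hgoal : ∀ κ ∈ clus t (Q z (2 * R) ∩ U) (Q z R) R X, 1 + dia (Q z R) X κ ≤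
      1 + 2 * (⨆ c ∈ Nt, FD t U c (4 * ρ) X) +
      ∑ c ∈ Nr, FD (t + s) (Q z (3 * R) ∩ U) c r X := by
    intro κ hκ
    rw [add_assoc]
    refine add_le_add_right ?_ 1
    obtain ⟨x0, hx0Q, hx0B, hx0l, ⟨u, hu, v, hv, huv⟩, hκe⟩ := mem_clus.1 hκ
    have hκsub : κ ⊆ lev X t ∩ ((Q z (2 * R) ∩ U : Finset V) : Set V) := hκe ▸ CB.comp_sub
    have hκU : ∀ p ∈ κ, p ∈ U := fun p hp => (Finset.mem_inter.1 (hκsub hp).2).2
    have hκconn : IsConn nn κ := hκe ▸ CB.isConn_comp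
    rw [hκe] at hu hv
    have hx0κ : x0 ∈ κ := hκe ▸ CB.mem_comp_self ⟨hx0l, hx0B⟩
    -- the sets A_p
    have claim1 : ∀ p ∈ κ, ∃ (w : V) (A : Set V), w ∈ Nt ∧ dI p w ≤ q ∧
        A ⊆ comp nn (lev X t ∩ ((Q w (2 * ρ) ∩ U : Finset V) : Set V)) p ∧ IsConn nn A ∧
        A ⊆ lev X (t + s) ∧ ExtGe A ρ ∧
        ∃ e ∈ comp nn (lev X t ∩ ((Q w (2 * ρ) ∩ U : Finset V) : Set V)) p, (ρ : ℤ) ≤ dI p e := by
      intro p hp
      obtain ⟨w, hw, hpw⟩ := hN.2.1 p (hκsub hp).2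
      rw [CB.dI_comm] at hpw
      -- a point of κ outside the box
      have hex : ∃ e ∈ κ, 2 * (ρ : ℤ) < dI w e := by
        by_contra hcon
        push Not at hcon
        have h1 := hcon u hu
        have h2 := hcon v hv
        have h3 := CB.dI_tri u w v
        rw [CB.dI_comm u w] at h3
        omega
      obtain ⟨e, he, hwe⟩ := hex
      obtain ⟨e', he', hwe'⟩ := exit_pt (U := U) (w := w) (ρ := ρ) (fun x hx => hκU x hx)
        (hκconn p hp e he) (by omega) hwe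
      have he'2 : e' ∈ comp nn (lev X t ∩ ((Q w (2 * ρ) ∩ U : Finset V) : Set V)) p :=
        CB.mono he' (inter_subset_inter_left _ (fun x hx => (hκsub hx).1))
      have hpe : (ρ : ℤ) ≤ dI p e' := by
        have := CB.dI_tri w p e'
        omega
      have hpB : p ∈ ((Q w (2 * ρ) ∩ U : Finset V) : Set V) ∩ lev X t := ⟨(CB.left he'2).2, (CB.left he'2).1⟩
      have hnb := hB w hw
      unfold Birth at hnb
      push Not at hnb
      obtain ⟨A, hA, hAc, hAl, hAe⟩ := hnb p hpB ⟨p, CB.mem_comp_self ⟨hpB.2, hpB.1⟩, e', he'2, hpe⟩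
      exact ⟨w, A, hw, by rw [CB.dI_comm]; exact hpw, hA, hAc, hAl, hAe, e', he'2, hpe⟩
    choose! w A hw using claim1
    -- A p is contained in U''
    have hAU : ∀ p ∈ κ, A p ⊆ lev X (t + s) ∩ ((Q z (3 * R) ∩ U : Finset V) : Set V) := by
      intro p hp a ha
      obtain ⟨h1, h2, h3, h4, h5, h6, h7⟩ := hw p hp
      have h8 := (CB.comp_sub (h3 ha)).2
      rw [Finset.mem_coe, Finset.mem_inter, CB.mem_Q] at h8
      have h9 := hN.1 h1
      rw [Finset.mem_inter, CB.mem_Q] at h9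
      refine ⟨h5 ha, ?_⟩
      rw [Finset.mem_coe, Finset.mem_inter, CB.mem_Q]
      have h10 := CB.dI_tri z (w p) a
      exact ⟨by omega, h8.2⟩
    have claim2 : ∀ p ∈ κ, ∀ p' ∈ κ, nn p p' → ∃ a ∈ A p, ∃ a' ∈ A p',
        ConnIn nn (lev X (t + s) ∩ ((Q z (3 * R) ∩ U : Finset V) : Set V)) a a' := by
      intro p hp p' hp' hpp
      obtain ⟨h1, h2, h3, h4, h5, h6, h7⟩ := hw p hp
      obtain ⟨g1, g2, g3, g4, g5, g6, g7⟩ := hw p' hp'
      have hww : dI (w p) (w p') ≤ 2 * q + 1 := by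
        have e1 := CB.dI_tri (w p) p (w p')
        have e2 := CB.dI_tri p p' (w p')
        have e3 := CB.nn_dI hpp
        rw [CB.dI_comm (w p) p] at e1
        omega
      have hsub1 : (Q (w p) (2 * ρ) ∩ U : Finset V) ⊆ Q (w p) (8 * ρ) ∩ U := by
        intro x hx
        rw [Finset.mem_inter, CB.mem_Q] at hx ⊢
        exact ⟨by omega, hx.2⟩
      have hsub2 : (Q (w p') (2 * ρ) ∩ U : Finset V) ⊆ Q (w p) (8 * ρ) ∩ U := by
        intro x hx
        rw [Finset.mem_inter, CB.mem_Q] at hx ⊢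
        have := CB.dI_tri (w p) (w p') x
        exact ⟨by omega, hx.2⟩
      have hsub3 : (Q (w p) (8 * ρ) ∩ U : Finset V) ⊆ Q z (3 * R) ∩ U := by
        intro x hx
        rw [Finset.mem_inter, CB.mem_Q] at hx ⊢
        have h9 := hN.1 h1
        rw [Finset.mem_inter, CB.mem_Q] at h9
        have := CB.dI_tri z (w p) x
        exact ⟨by omega, hx.2⟩
      have hAp : A p ⊆ ((Q (w p) (8 * ρ) ∩ U : Finset V) : Set V) ∩ lev X (t + s) := fun a ha =>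
        ⟨hsub1 (CB.comp_sub (h3 ha)).2, h5 ha⟩
      have hAp' : A p' ⊆ ((Q (w p) (8 * ρ) ∩ U : Finset V) : Set V) ∩ lev X (t + s) := fun a ha =>
        ⟨hsub2 (CB.comp_sub (g3 ha)).2, g5 ha⟩
      have hnm := hM (w p) h1
      unfold Merge at hnm
      push Not at hnm
      obtain ⟨a, ha⟩ := CB.ExtGe.nonempty h6
      obtain ⟨a', ha'⟩ := CB.ExtGe.nonempty g6
      have hj : ConnIn nn (lev X t ∩ ((Q (w p) (8 * ρ) ∩ U : Finset V) : Set V)) a a' := by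
        have e1 : ConnIn nn (lev X t ∩ ((Q (w p) (8 * ρ) ∩ U : Finset V) : Set V)) p a :=
          CB.mono (h3 ha) (inter_subset_inter_right _ (by exact_mod_cast hsub1))
        have e2 : ConnIn nn (lev X t ∩ ((Q (w p) (8 * ρ) ∩ U : Finset V) : Set V)) p' a' :=
          CB.mono (g3 ha') (inter_subset_inter_right _ (by exact_mod_cast hsub2))
        exact CB.trans (CB.symm e1) (CB.trans (CB.single (CB.left e1) hpp (CB.left e2)) e2)
      obtain ⟨b, hb, b', hb', hbb⟩ := hnm (A p) (A p') hAp hAp' h4 g4 h6 g6 ⟨a, ha, a', ha', hj⟩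
      exact ⟨b, hb, b', hb', CB.mono hbb (inter_subset_inter_right _ (by exact_mod_cast hsub3))⟩
    have claim3 : ∀ p ∈ κ, ∀ a ∈ A x0, ∀ a' ∈ A p,
        ConnIn nn (lev X (t + s) ∩ ((Q z (3 * R) ∩ U : Finset V) : Set V)) a a' := by
      intro p hp
      have hcp := hκconn x0 hx0κ p hp
      obtain ⟨-, hcp⟩ := hcp
      clear hp
      induction hcp with
      | refl =>
        intro a ha a' ha'
        exact CB.mono ((hw x0 hx0κ).2.2.2.1 a ha a' ha') (hAU x0 hx0κ)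
      | @tail b c hb hbc ih =>
        intro a ha a' ha'
        have hbκ : b ∈ κ := CB.right ⟨hx0κ, hb⟩
        obtain ⟨b1, hb1, c1, hc1, hbc1⟩ := claim2 b hbκ c hbc.2 hbc.1
        exact CB.trans (ih a ha b1 hb1) (CB.trans hbc1
          (CB.mono ((hw c hbc.2).2.2.2.1 c1 hc1 a' ha') (hAU c hbc.2)))
    have claim3' : ∀ p ∈ κ, ∀ p' ∈ κ, ∀ a ∈ A p, ∀ a' ∈ A p',
        ConnIn nn (lev X (t + s) ∩ ((Q z (3 * R) ∩ U : Finset V) : Set V)) a a' := by
      intro p hp p' hp' a ha a' ha'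
      obtain ⟨a0, ha0⟩ := CB.ExtGe.nonempty (hw x0 hx0κ).2.2.2.2.2.1
      exact CB.trans (CB.symm (claim3 p hp a0 ha0 a ha)) (claim3 p' hp' a0 ha0 a' ha')
    -- near part
    have near : ∀ p ∈ κ, ∀ a ∈ A p, ((cd (lev X 0) p a : ℕ∞) : ℝ≥0∞) ≤
        ⨆ c ∈ Nt, FD t U c (4 * ρ) X := by
      intro p hp a ha
      obtain ⟨h1, h2, h3, h4, h5, h6, e, he, hpe⟩ := hw p hp
      refine le_trans ?_ (le_iSup₂_of_le (w p) h1 le_rfl)
      have hpB := CB.left he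
      have hsub : (lev X t ∩ ((Q (w p) (2 * ρ) ∩ U : Finset V) : Set V)) ⊆
          lev X t ∩ ((Q (w p) (2 * ((4 * ρ : ℕ) : ℤ)) ∩ U : Finset V) : Set V) := by
        rintro x ⟨hx1, hx2⟩
        refine ⟨hx1, ?_⟩
        rw [Finset.mem_coe, Finset.mem_inter, CB.mem_Q] at hx2 ⊢
        push_cast
        exact ⟨by omega, hx2.2⟩
      have hpQ : dI (w p) p ≤ q := by rw [CB.dI_comm]; exact h2
      refine cd_le_FD (κ := comp nn (lev X t ∩
        ((Q (w p) (2 * ((4 * ρ : ℕ) : ℤ)) ∩ U : Finset V) : Set V)) p) ?_ ?_ ?_ ?_ ?_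
      · rw [mem_clus]
        refine ⟨p, ?_, (hsub hpB).2, hpB.1, ⟨p, CB.mem_comp_self (hsub hpB), e,
          CB.comp_mono hsub he, ?_⟩, rfl⟩
        · rw [CB.mem_Q]; push_cast; omega
        · push_cast; omega
      · exact CB.mem_comp_self (hsub hpB)
      · exact CB.comp_mono hsub (h3 ha)
      · rw [CB.mem_Q]; push_cast; omega
      · have h8 := (CB.comp_sub (h3 ha)).2
        rw [Finset.mem_coe, Finset.mem_inter, CB.mem_Q] at h8
        rw [CB.mem_Q]; push_cast; omega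
    -- far part
    obtain ⟨a1, b1, c1, d1, hUR, -, -, -⟩ := hU
    have hrect : Q z (3 * R) ∩ U = Rc (max (z.1 - 3 * R) a1) (min (z.1 + 3 * R) b1)
        (max (z.2 - 3 * R) c1) (min (z.2 + 3 * R) d1) := by
      ext x
      rw [hUR, Finset.mem_inter, CB.mem_Q, CB.mem_Rc, CB.mem_Rc, CB.dI_le_iff]
      omega
    have far : ∀ p ∈ κ, ∀ p' ∈ κ, ∀ a ∈ A p, ∀ a' ∈ A p', ((cd (lev X 0) a a' : ℕ∞) : ℝ≥0∞) ≤
        ∑ c ∈ Nr, FD (t + s) (Q z (3 * R) ∩ U) c r X := by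
      intro p hp p' hp' a ha a' ha'
      have hc := claim3' p hp p' hp' a ha a' ha'
      obtain ⟨u', hu'⟩ := CB.ExtGe.nonempty (hw u hu).2.2.2.2.2.1
      obtain ⟨v', hv'⟩ := CB.ExtGe.nonempty (hw v hv).2.2.2.2.2.1
      have hcu := claim3' p hp u hu a ha u' hu'
      have hcv := claim3' p hp v hv a ha v' hv'
      have hduv : 4 * (r : ℤ) < dI u' v' := by
        obtain ⟨h1, h2, h3, h4, h5, h6, h7⟩ := hw u hu
        obtain ⟨g1, g2, g3, g4, g5, g6, g7⟩ := hw v hv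
        have h8 := (CB.comp_sub (h3 hu')).2
        have g8 := (CB.comp_sub (g3 hv')).2
        rw [Finset.mem_coe, Finset.mem_inter, CB.mem_Q] at h8 g8
        have e1 := CB.dI_tri u (w u) u'
        have e2 := CB.dI_tri v (w v) v'
        have e3 := CB.dI_tri u u' v
        have e4 := CB.dI_tri u' v' v
        rw [CB.dI_comm v' v] at e4
        omega
      have key := L2' (t + s) (by linarith) (max (z.1 - 3 * R) a1) (min (z.1 + 3 * R) b1)
        (max (z.2 - 3 * R) c1) (min (z.2 + 3 * R) d1) r hr Nr (hrect ▸ hNr.1) (hrect ▸ hNr.2.1) X a a'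
        (hrect ▸ hc) ⟨u', hrect ▸ hcu, v', hrect ▸ hcv, hduv⟩
      rw [← hrect] at key
      exact key
    -- conclusion
    unfold dia
    refine iSup₂_le fun x hx => iSup₂_le fun y hy => ?_
    obtain ⟨x', hx'⟩ := CB.ExtGe.nonempty (hw x hx.1).2.2.2.2.2.1
    obtain ⟨y', hy'⟩ := CB.ExtGe.nonempty (hw y hy.1).2.2.2.2.2.1
    have e1 : cd (lev X 0) x y ≤ cd (lev X 0) x x' + (cd (lev X 0) x' y' + cd (lev X 0) y y') := by
      refine (cd_triangle _ x x' y).trans ?_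
      gcongr
      refine (cd_triangle _ x' y' y).trans ?_
      rw [cd_comm _ y' y]
    have e2 := ENat.toENNReal_mono e1
    rw [ENat.toENNReal_add, ENat.toENNReal_add] at e2
    refine e2.trans ?_
    have n1 := near x hx.1 x' hx'
    have n2 := near y hy.1 y' hy'
    have n3 := far x hx.1 y hy.1 x' hx' y' hy'
    calc _ ≤ (⨆ c ∈ Nt, FD t U c (4 * ρ) X) + ((∑ c ∈ Nr, FD (t + s) (Q z (3 * R) ∩ U) c r X) +
          (⨆ c ∈ Nt, FD t U c (4 * ρ) X)) := add_le_add n1 (add_le_add n3 n2)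
      _ = _ := by rw [two_mul]; ring
  refine (Finset.sum_le_sum hgoal).trans ?_
  rw [Finset.sum_const, nsmul_eq_mul]
  exact le_rfl

end GF
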