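import Pool.Agent.Lib.MP_acf58e_gf.Func
import Pool.Agent.Lib.MP_acf58e_gf.Lchild
import Pool.Agent.Lib.MP_acf58e_gf.Lnet
import Pool.Agent.Lib.MP_acf58e_gf.Lmeas

open MeasureTheory Set Filter Topology ProbabilityTheory
open scoped ENNReal

namespace GF

private theorem y_mem_Q {z x : V} {r : ℤ} : x ∈ Q z r ↔ dI x z ≤ r := by
  unfold Q dI
  rw [Finset.mem_Icc, Prod.le_def, Prod.le_def, max_le_iff, abs_le, abs_le]
  constructor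
  · rintro ⟨⟨h1, h2⟩, h3, h4⟩
    refine ⟨⟨?_, ?_⟩, ?_, ?_⟩ <;> simp only at h1 h2 h3 h4 ⊢ <;> linarith
  · rintro ⟨⟨h1, h2⟩, h3, h4⟩
    refine ⟨⟨?_, ?_⟩, ?_, ?_⟩ <;> simp only at h1 h2 h3 h4 ⊢ <;> linarith

private theorem y_dI_comm (x y : V) : dI x y = dI y x := by
  unfold dI
  rw [abs_sub_comm, abs_sub_comm x.2 y.2]

/-- sum over the net at the next level -/
theorem L5Y (H1 : ℝ) : ∃ C : ℝ≥0∞, C < ⊤ ∧ ∀ (t : ℝ), 0 ≤ t → ∀ (U : Finset V) (z : V) (R : ℕ), IsU R z U → 800 ≤ R →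
    ∀ Nr, IsNet (Q z (3 * R) ∩ U) (R / 400) Nr → ∀ β : V → ℝ, oscH z R β ≤ H1 →
    N4 (gam (Q z (8 * R)) β) (fun X => ∑ c ∈ Nr, FD t (Q z (3 * R) ∩ U) c (R / 400) X) ≤ C * Lam t (R / 400) := by
  obtain ⟨Cc, hCc, hch⟩ := child_univ
  refine ⟨((3601 ^ 2 : ℕ) : ℝ≥0∞) * (((3601 ^ 2 : ℕ) : ℝ≥0∞) ^ (1 / 4 : ℝ) * Cc H1), ?_, ?_⟩
  · refine ENNReal.mul_lt_top (ENNReal.natCast_lt_top _) (ENNReal.mul_lt_top ?_ (hCc H1))
    exact ENNReal.rpow_lt_top_of_nonneg (by norm_num) (ENNReal.natCast_ne_top _)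
  intro t ht U z R hU hR Nr hNr β hβ
  obtain ⟨hN1, hN2, hN3⟩ := hNr
  set q := R / 400 with hq
  have hq2 : 2 ≤ q := by omega
  have hqR : 400 * q ≤ R := by omega
  have hRq : R ≤ 600 * q := by omega
  -- cardinality
  have hcard : Nr.card ≤ 3601 ^ 2 := by
    have h1 := hN3 z 1800
    have h2 : Nr.filter (fun c => dI z c ≤ (1800 * q : ℕ)) = Nr := by
      refine Finset.filter_true_of_mem ?_
      intro c hc
      have h3 := Finset.mem_of_mem_inter_left (hN1 hc)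
      rw [y_mem_Q] at h3
      rw [y_dI_comm]
      refine h3.trans ?_
      have h4 : 3 * R ≤ 1800 * q := by omega
      exact_mod_cast h4
    rw [h2] at h1
    exact h1
  have hcard' : (Nr.card : ℝ≥0∞) ≤ ((3601 ^ 2 : ℕ) : ℝ≥0∞) := by exact_mod_cast hcard
  set W := Q z (3 * (R : ℤ)) ∩ U with hW
  -- the children
  have hkey : N4 (gam (Q z (8 * (R : ℤ))) β) (fun X => ⨆ c ∈ Nr, FD t W c q X) ≤
      (Nr.card : ℝ≥0∞) ^ (1 / 4 : ℝ) * (Cc H1 * Lam t q) := by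
    refine N4_biSup_le _ Nr (fun c => FD t W c q) (fun c _ => meas_FD t W c q) _ ?_
    intro c hc
    have hcW : c ∈ W := hN1 hc
    have hcQ : c ∈ Q z (3 * (R : ℤ)) := Finset.mem_of_mem_inter_left hcW
    refine hch t W z c R q (hU.inter3 (by omega) hcW) (by omega) (by omega) ?_ β H1 hβ
    exact Q_child_sub hcQ le_rfl
  -- the sum
  have hsum : ∀ X, ∑ c ∈ Nr, FD t W c q X ≤ (Nr.card : ℝ≥0∞) * ⨆ c ∈ Nr, FD t W c q X := by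
    intro X
    calc ∑ c ∈ Nr, FD t W c q X ≤ ∑ _c ∈ Nr, ⨆ c ∈ Nr, FD t W c q X := by
          refine Finset.sum_le_sum fun c hc => ?_
          exact le_iSup₂_of_le c hc le_rfl
      _ = (Nr.card : ℝ≥0∞) * ⨆ c ∈ Nr, FD t W c q X := by
          rw [Finset.sum_const, nsmul_eq_mul]
  have hmul : N4 (gam (Q z (8 * (R : ℤ))) β) (fun X => ∑ c ∈ Nr, FD t W c q X) ≤
      (Nr.card : ℝ≥0∞) * N4 (gam (Q z (8 * (R : ℤ))) β) (fun X => ⨆ c ∈ Nr, FD t W c q X) := by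
    unfold N4
    calc (∫⁻ X, (∑ c ∈ Nr, FD t W c q X) ^ (4 : ℕ) ∂gam (Q z (8 * (R : ℤ))) β) ^ (1 / 4 : ℝ)
        ≤ (∫⁻ X, (Nr.card : ℝ≥0∞) ^ (4 : ℕ) * (⨆ c ∈ Nr, FD t W c q X) ^ (4 : ℕ)
            ∂gam (Q z (8 * (R : ℤ))) β) ^ (1 / 4 : ℝ) := by
          refine ENNReal.rpow_le_rpow (lintegral_mono fun X => ?_) (by norm_num)
          rw [← mul_pow]
          exact pow_le_pow_left' (hsum X) 4
      _ = (Nr.card : ℝ≥0∞) * (∫⁻ X, (⨆ c ∈ Nr, FD t W c q X) ^ (4 : ℕ)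
            ∂gam (Q z (8 * (R : ℤ))) β) ^ (1 / 4 : ℝ) := by
          rw [lintegral_const_mul' _ _ (ENNReal.pow_ne_top (ENNReal.natCast_ne_top _)),
            ENNReal.mul_rpow_of_nonneg _ _ (by norm_num), ← ENNReal.rpow_natCast (Nr.card : ℝ≥0∞),
            ← ENNReal.rpow_mul]
          norm_num
  calc N4 (gam (Q z (8 * (R : ℤ))) β) (fun X => ∑ c ∈ Nr, FD t W c q X)
      ≤ (Nr.card : ℝ≥0∞) * ((Nr.card : ℝ≥0∞) ^ (1 / 4 : ℝ) * (Cc H1 * Lam t q)) :=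
        hmul.trans (mul_le_mul' le_rfl hkey)
    _ ≤ ((3601 ^ 2 : ℕ) : ℝ≥0∞) * (((3601 ^ 2 : ℕ) : ℝ≥0∞) ^ (1 / 4 : ℝ) * (Cc H1 * Lam t q)) :=
        mul_le_mul' hcard' (mul_le_mul' (ENNReal.rpow_le_rpow hcard' (by norm_num)) le_rfl)
    _ = ((3601 ^ 2 : ℕ) : ℝ≥0∞) * (((3601 ^ 2 : ℕ) : ℝ≥0∞) ^ (1 / 4 : ℝ) * Cc H1) * Lam t q := by
        rw [mul_assoc, mul_assoc]

end GF
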