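import Pool.Agent.Lib.MP_acf58e_gf.Func
import Pool.Agent.Lib.MP_acf58e_gf.M1
import Pool.Agent.Lib.MP_acf58e_gf.G5

open MeasureTheory Set Filter Topology ProbabilityTheory
open scoped ENNReal

namespace GF

/-- the swap of the coordinates as a measurable equivalence of configurations -/
private def swE : (V → ℝ) ≃ᵐ (V → ℝ) where
  toFun := fun X x => X x.swap
  invFun := fun X x => X x.swap
  left_inv := fun X => by funext x; simp
  right_inv := fun X => by funext x; simp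
  measurable_toFun := measurable_pi_lambda _ fun x => measurable_pi_apply _
  measurable_invFun := measurable_pi_lambda _ fun x => measurable_pi_apply _

private theorem gam_swap_apply (D : Finset V) (mu : ℝ) (E : Set (V → ℝ)) :
    gam D (fun _ => mu) {X | swF X ∈ E} = gam (D.image Prod.swap) (fun _ => mu) E := by
  have h := gam_swap D (fun _ => mu)
  have h2 : gam (D.image Prod.swap) (fun _ => mu) E = (gam D (fun _ => mu)).map swE E := by
    rw [show ((fun _ => mu : V → ℝ)) = (fun x : V => (fun _ => mu : V → ℝ) x.swap) from rfl, h]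
    rfl
  rw [h2, MeasurableEquiv.map_apply]
  rfl

private theorem Rc_swap (a b c d : ℤ) : Rc a b c d = (Rc c d a b).image Prod.swap := by
  ext ⟨x, y⟩
  simp only [Rc, Finset.mem_Icc, Finset.mem_image, Prod.mk_le_mk]
  constructor
  · rintro ⟨⟨h1, h2⟩, h3, h4⟩
    exact ⟨(y, x), by simp [h1, h2, h3, h4], rfl⟩
  · rintro ⟨⟨u, v⟩, h, h2⟩
    simp only [Prod.swap, Prod.mk.injEq] at h2
    obtain ⟨rfl, rfl⟩ := h2
    simp at h
    exact ⟨⟨h.1.2, h.1.1⟩, h.2.2, h.2.1⟩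

private theorem Q_swap (z : V) (r : ℤ) : Q z.swap r = (Q z r).image Prod.swap := by
  show Rc _ _ _ _ = (Rc _ _ _ _).image Prod.swap
  exact Rc_swap _ _ _ _

/-- M2: probability of a large separated family -/
theorem M2 {w0 : ℝ} (h0 : 0 < w0) (hJ : JProp w0) (A : ℕ) (ε : ℝ≥0∞) (hε : 0 < ε) :
    ∃ m : ℕ, ∀ (ℓ : ℕ), 16 ≤ ℓ → ∀ (a b c d : ℤ), (ℓ : ℤ) ≤ b - a → b - a ≤ A * ℓ →
      (ℓ : ℤ) ≤ d - c → d - c ≤ A * ℓ → ∀ (D : Finset V) (z : V) (t mu : ℝ), D ⊆ Q z (A * ℓ) →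
      Rc (a - 3 * ℓ - 8) (b + 3 * ℓ + 8) (c - 3 * ℓ - 8) (d + 3 * ℓ + 8) ⊆ D →
      gam D (fun _ => mu) {X | SepP (Rc a b c d) m ℓ t w0 X} ≤ ε := by
  obtain ⟨K, hK⟩ := M1 A
  have hε' : 0 < ε / (2 * (5 * A + 1 : ℕ) : ℝ≥0∞) := by
    apply ENNReal.div_pos hε.ne'
    exact ENNReal.mul_ne_top (by norm_num) (ENNReal.natCast_ne_top _)
  obtain ⟨n, hn⟩ := hJ (5 * A) _ hε'
  -- one strip
  have strip : ∀ (ℓ : ℕ), 16 ≤ ℓ → ∀ (a b c d : ℤ), (ℓ : ℤ) ≤ b - a → b - a ≤ A * ℓ →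
      (ℓ : ℤ) ≤ d - c → d - c ≤ A * ℓ → ∀ (D : Finset V) (z : V) (t mu : ℝ), D ⊆ Q z (A * ℓ) →
      Rc (a - 3 * ℓ - 8) (b + 3 * ℓ + 8) (c - 3 * ℓ - 8) (d + 3 * ℓ + 8) ⊆ D → ∀ k : ℕ,
      gam D (fun _ => mu) {X | a + (k + 1) * (ℓ / 4 : ℕ) ≤ b ∧
        Alt 0 n t (t + w0) (a + k * (ℓ / 4 : ℕ)) (a + (k + 1) * (ℓ / 4 : ℕ)) c d X}
        ≤ ε / (2 * (5 * A + 1 : ℕ) : ℝ≥0∞) := by
    intro ℓ hℓ a b c d hab1 hab2 hcd1 hcd2 D z t mu hD1 hD2 k
    by_cases hk : a + (k + 1) * (ℓ / 4 : ℕ) ≤ b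
    · obtain ⟨r, hr⟩ : ∃ r : ℕ, r = ℓ / 4 := ⟨_, rfl⟩
      rw [← hr] at hk
      rw [← hr]
      have hr4 : 4 ≤ r := by omega
      have hrl : ℓ ≤ 4 * r + 3 := by omega
      have hrl2 : 4 * r ≤ ℓ := by omega
      have hrl3 : ℓ ≤ 5 * r := by omega
      obtain ⟨H, hH⟩ : ∃ H : ℕ, (H : ℤ) = d - c := ⟨(d - c).toNat, by
        rw [Int.toNat_of_nonneg (by omega)]⟩
      have hA1 : 1 ≤ A := by
        by_contra h
        have h3 : A = 0 := by omega
        subst h3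
        push_cast at hab2
        omega
      have hAl : (A : ℤ) * ℓ ≤ 5 * A * r := by
        have h3 : (ℓ : ℤ) ≤ 5 * r := by exact_mod_cast hrl3
        nlinarith [h3]
      have h1 := hn r (by omega) D z t mu (a + k * r) c r H le_rfl (by nlinarith) (by omega)
        (by
          have h3 : (H : ℤ) ≤ 5 * A * r := by rw [hH]; linarith
          exact_mod_cast h3)
        (by
          refine hD1.trans ?_
          intro x hx
          simp only [Q, Finset.mem_Icc, Prod.le_def] at hx ⊢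
          push_cast
          obtain ⟨⟨h3, h4⟩, h5, h6⟩ := hx
          refine ⟨⟨?_, ?_⟩, ?_, ?_⟩ <;> linarith)
        (by
          refine Finset.Subset.trans ?_ hD2
          intro x hx
          simp only [Rc, Finset.mem_Icc, Prod.le_def] at hx ⊢
          obtain ⟨⟨h3, h4⟩, h5, h6⟩ := hx
          have h7 : (0 : ℤ) ≤ k * r := by positivity
          have h8 : ((k : ℤ) + 1) * r = k * r + r := by ring
          rw [h8] at hk
          refine ⟨⟨?_, ?_⟩, ?_, ?_⟩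
          · linarith
          · have : (2 : ℤ) * r ≤ 3 * ℓ := by omega
            linarith
          · linarith
          · have : (2 : ℤ) * r ≤ 3 * ℓ := by omega
            linarith)
      have h2 : {X : V → ℝ | a + (k + 1) * (r : ℤ) ≤ b ∧
          Alt 0 n t (t + w0) (a + k * r) (a + (k + 1) * r) c d X} ⊆
          {X | Alt 0 n t (t + w0) (a + k * r) (a + k * r + r) c (c + H) X} := by
        rintro X ⟨_, h3⟩
        rw [show a + ((k : ℤ) + 1) * r = a + k * r + r by ring] at h3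
        show Alt 0 n t (t + w0) (a + k * r) (a + k * r + r) c (c + H) X
        rw [hH, show c + (d - c) = d by ring]
        exact h3
      exact (measure_mono h2).trans h1
    · have h2 : {X : V → ℝ | a + (k + 1) * ((ℓ / 4 : ℕ) : ℤ) ≤ b ∧
          Alt 0 n t (t + w0) (a + k * (ℓ / 4 : ℕ)) (a + (k + 1) * (ℓ / 4 : ℕ)) c d X} = ∅ := by
        ext X
        refine ⟨fun h => absurd h.1 hk, fun h => h.elim⟩
      rw [h2, measure_empty]
      exact bot_le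
  refine ⟨K * (n + 1), ?_⟩
  intro ℓ hℓ a b c d hab1 hab2 hcd1 hcd2 D z t mu hD1 hD2
  obtain ⟨E1, hE1⟩ : ∃ E1 : ℕ → Set (V → ℝ), E1 = fun k : ℕ => {X | a + (k + 1) * (ℓ / 4 : ℕ) ≤ b ∧
        Alt 0 n t (t + w0) (a + k * (ℓ / 4 : ℕ)) (a + (k + 1) * (ℓ / 4 : ℕ)) c d X} := ⟨_, rfl⟩
  obtain ⟨E2, hE2⟩ : ∃ E2 : ℕ → Set (V → ℝ), E2 = fun k : ℕ => {X | c + (k + 1) * (ℓ / 4 : ℕ) ≤ d ∧
        Alt 0 n t (t + w0) (c + k * (ℓ / 4 : ℕ)) (c + (k + 1) * (ℓ / 4 : ℕ)) a b X} := ⟨_, rfl⟩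
  have hsub : {X : V → ℝ | SepP (Rc a b c d) (K * (n + 1)) ℓ t w0 X} ⊆
      (⋃ k ∈ Finset.range (5 * A + 1), E1 k) ∪
        (⋃ k ∈ Finset.range (5 * A + 1), {X | swF X ∈ E2 k}) := by
    intro X hX
    rcases hK ℓ hℓ a b c d hab1 hab2 hcd1 hcd2 n t w0 X h0.le hX with ⟨k, hk1, hk2, hk3⟩ |
      ⟨k, hk1, hk2, hk3⟩
    · left
      simp only [Set.mem_iUnion]
      refine ⟨k, Finset.mem_range.2 (by omega), ?_⟩
      rw [hE1]
      exact ⟨hk2, (Alt.tail hk3).mono (by omega)⟩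
    · right
      simp only [Set.mem_iUnion]
      refine ⟨k, Finset.mem_range.2 (by omega), ?_⟩
      rw [hE2]
      exact ⟨hk2, (Alt.tail hk3).mono (by omega)⟩
  have hb1 : ∀ k : ℕ, gam D (fun _ => mu) (E1 k) ≤ ε / (2 * (5 * A + 1 : ℕ) : ℝ≥0∞) := by
    intro k
    rw [hE1]
    exact strip ℓ hℓ a b c d hab1 hab2 hcd1 hcd2 D z t mu hD1 hD2 k
  have hb2 : ∀ k : ℕ, gam D (fun _ => mu) {X | swF X ∈ E2 k} ≤
      ε / (2 * (5 * A + 1 : ℕ) : ℝ≥0∞) := by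
    intro k
    rw [gam_swap_apply, hE2]
    refine strip ℓ hℓ c d a b hcd1 hcd2 hab1 hab2 (D.image Prod.swap) z.swap t mu ?_ ?_ k
    · rw [Q_swap]
      exact Finset.image_subset_image hD1
    · rw [Rc_swap]
      exact Finset.image_subset_image hD2
  calc gam D (fun _ => mu) {X | SepP (Rc a b c d) (K * (n + 1)) ℓ t w0 X}
      ≤ gam D (fun _ => mu) ((⋃ k ∈ Finset.range (5 * A + 1), E1 k) ∪
        (⋃ k ∈ Finset.range (5 * A + 1), {X | swF X ∈ E2 k})) := measure_mono hsub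
    _ ≤ gam D (fun _ => mu) (⋃ k ∈ Finset.range (5 * A + 1), E1 k) +
        gam D (fun _ => mu) (⋃ k ∈ Finset.range (5 * A + 1), {X | swF X ∈ E2 k}) :=
        measure_union_le _ _
    _ ≤ (∑ k ∈ Finset.range (5 * A + 1), gam D (fun _ => mu) (E1 k)) +
        ∑ k ∈ Finset.range (5 * A + 1), gam D (fun _ => mu) {X | swF X ∈ E2 k} :=
        add_le_add (measure_biUnion_finset_le _ _) (measure_biUnion_finset_le _ _)
    _ ≤ (∑ k ∈ Finset.range (5 * A + 1), ε / (2 * (5 * A + 1 : ℕ) : ℝ≥0∞)) +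
        ∑ k ∈ Finset.range (5 * A + 1), ε / (2 * (5 * A + 1 : ℕ) : ℝ≥0∞) :=
        add_le_add (Finset.sum_le_sum fun k _ => hb1 k) (Finset.sum_le_sum fun k _ => hb2 k)
    _ = (2 * (5 * A + 1 : ℕ) : ℝ≥0∞) * (ε / (2 * (5 * A + 1 : ℕ) : ℝ≥0∞)) := by
        rw [Finset.sum_const, Finset.card_range, nsmul_eq_mul]
        ring
    _ ≤ ε := ENNReal.mul_div_le

end GF
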