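import Pool.Agent.Lib.MP_acf58e_gf.Func
import Pool.Agent.Lib.MP_acf58e_gf.ConnB

open MeasureTheory Set Filter Topology ProbabilityTheory
open scoped ENNReal

namespace GF

namespace M3aux

open CB

variable {B : Finset V} {ℓ : ℤ} {X : V → ℝ}

open Classical in
/-- macroscopic components at level t -/
noncomputable def mc (B : Finset V) (ℓ : ℤ) (X : V → ℝ) (t : ℝ) : Finset (Set V) :=
  (B.filter (fun x => x ∈ lev X t ∧ ExtGe (comp nn (lev X t ∩ B) x) ℓ)).image
    (fun x => comp nn (lev X t ∩ B) x)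

open Classical in
theorem mem_mc {t : ℝ} {κ : Set V} : κ ∈ mc B ℓ X t ↔
    ∃ x ∈ lev X t ∩ B, ExtGe κ ℓ ∧ κ = comp nn (lev X t ∩ B) x := by
  unfold mc
  rw [Finset.mem_image]
  constructor
  · rintro ⟨x, hx, rfl⟩
    rw [Finset.mem_filter] at hx
    exact ⟨x, ⟨hx.2.1, hx.1⟩, hx.2.2, rfl⟩
  · rintro ⟨x, hx, h1, rfl⟩
    exact ⟨x, Finset.mem_filter.2 ⟨hx.2, hx.1, h1⟩, rfl⟩

/-- born components -/
def IsBorn (B : Finset V) (ℓ : ℤ) (X : V → ℝ) (t t' : ℝ) (κ : Set V) : Prop :=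
  ∀ A ⊆ κ, IsConn nn A → A ⊆ lev X t' → ¬ ExtGe A ℓ

/-- a separated family -/
structure Fam (B : Finset V) (ℓ : ℤ) (X : V → ℝ) (t0 t1 : ℝ) (F : Finset (ℝ × Set V)) : Prop where
  lo : ∀ p ∈ F, t0 ≤ p.1
  hi : ∀ p ∈ F, p.1 ≤ t1
  sub : ∀ p ∈ F, p.2 ⊆ (B : Set V) ∩ lev X p.1
  conn : ∀ p ∈ F, IsConn nn p.2
  ext : ∀ p ∈ F, ExtGe p.2 ℓ
  sep : ∀ p ∈ F, ∀ q ∈ F, p ≠ q → ∀ x ∈ p.2, ∀ y ∈ q.2,
    ¬ ConnIn nn (lev X (min p.1 q.1) ∩ B) x y

theorem Fam.sepP {t0 t1 w : ℝ} {F : Finset (ℝ × Set V)} (h : Fam B ℓ X t0 t1 F)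
    (hw : t1 ≤ t0 + w) {m : ℕ} (hm : m ≤ F.card) : SepP B m ℓ t0 w X := by
  classical
  obtain ⟨G, hGF, hG⟩ := Finset.exists_subset_card_eq hm
  let e : Fin m ≃ G := (Fintype.equivFinOfCardEq (by simp [hG])).symm
  refine ⟨fun i => (e i).1.1, fun i => (e i).1.2, ?_, ?_⟩
  · intro i
    have hi : (e i).1 ∈ F := hGF (e i).2
    exact ⟨h.lo _ hi, (h.hi _ hi).trans hw, h.sub _ hi, h.conn _ hi, h.ext _ hi⟩
  · intro i l hil x hx y hy
    refine h.sep _ (hGF (e i).2) _ (hGF (e l).2) ?_ x hx y hy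
    intro he
    exact hil (e.injective (Subtype.ext he))

theorem mc_facts {t : ℝ} {κ : Set V} (h : κ ∈ mc B ℓ X t) :
    κ ⊆ lev X t ∩ B ∧ IsConn nn κ ∧ ExtGe κ ℓ ∧
      ∀ x ∈ κ, κ = comp nn (lev X t ∩ B) x := by
  obtain ⟨x, hx, h1, h2⟩ := mem_mc.1 h
  refine ⟨h2 ▸ comp_sub, h2 ▸ isConn_comp, h1, fun y hy => ?_⟩
  rw [h2] at hy ⊢
  exact comp_eq_of_mem hy

/-- a connected macroscopic set in the level set of the higher level, contained in κ, yields
a macroscopic component of the higher level contained in κ -/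
theorem exists_upper {t t' : ℝ} (ht : t ≤ t') {κ : Set V} (h : κ ∈ mc B ℓ X t) {A : Set V}
    (hA : A ⊆ κ) (hc : IsConn nn A) (hl : A ⊆ lev X t') (he : ExtGe A ℓ) :
    ∃ κ' ∈ mc B ℓ X t', κ' ⊆ κ ∧ A ⊆ κ' := by
  obtain ⟨k1, k2, k3, k4⟩ := mc_facts h
  obtain ⟨x, hx⟩ := ExtGe.nonempty he
  have hAB : A ⊆ lev X t' ∩ B := fun y hy => ⟨hl hy, (k1 (hA hy)).2⟩
  have hAc : A ⊆ comp nn (lev X t' ∩ B) x := isConn_sub_comp' hc hAB hx
  refine ⟨comp nn (lev X t' ∩ B) x, mem_mc.2 ⟨x, hAB hx, ExtGe.mono he hAc, rfl⟩, ?_, hAc⟩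
  rw [k4 x (hA hx)]
  exact comp_mono (inter_subset_inter_left _ (lev_mono ht))

open Classical in
/-- the inequality N_j + [Merge_j] ≤ N_{j+1} + b_j -/
theorem count_step {t t' : ℝ} (ht : t ≤ t') :
    (mc B ℓ X t).card + (if Merge B ℓ t t' X then 1 else 0) ≤
      (mc B ℓ X t').card + ((mc B ℓ X t).filter (IsBorn B ℓ X t t')).card := by
  have hsplit := Finset.card_filter_add_card_filter_not (s := mc B ℓ X t) (IsBorn B ℓ X t t')
  -- the map from upper components to lower components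
  let φ : Set V → Set V := fun κ' => if h : κ'.Nonempty then comp nn (lev X t ∩ B) h.choose else ∅
  have hφ : ∀ κ' ∈ mc B ℓ X t', ∀ x ∈ κ', φ κ' = comp nn (lev X t ∩ B) x := by
    intro κ' hκ' x hx
    have hne : κ'.Nonempty := ⟨x, hx⟩
    have h1 : φ κ' = comp nn (lev X t ∩ B) hne.choose := by
      change (if h : κ'.Nonempty then comp nn (lev X t ∩ B) h.choose else ∅) = _
      rw [dif_pos hne]
    rw [h1]
    obtain ⟨k1, k2, k3, k4⟩ := mc_facts hκ'
    apply comp_eq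
    have h2 := k2 _ hne.choose_spec _ hx
    exact mono h2 (k1.trans (inter_subset_inter_left _ (lev_mono ht)))
  have hsurj : (mc B ℓ X t).filter (fun κ => ¬ IsBorn B ℓ X t t' κ) ⊆ (mc B ℓ X t').image φ := by
    intro κ hκ
    rw [Finset.mem_filter] at hκ
    obtain ⟨h1, h2⟩ := hκ
    unfold IsBorn at h2
    push Not at h2
    obtain ⟨A, hA, hc, hl, he⟩ := h2
    obtain ⟨κ', h3, h4, h5⟩ := exists_upper ht h1 hA hc hl he
    rw [Finset.mem_image]
    refine ⟨κ', h3, ?_⟩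
    obtain ⟨x, hx⟩ := ExtGe.nonempty he
    rw [hφ κ' h3 x (h5 hx)]
    exact ((mc_facts h1).2.2.2 x (hA hx)).symm
  have hle := Finset.card_le_card hsurj
  by_cases hM : Merge B ℓ t t' X
  · have hlt : ((mc B ℓ X t').image φ).card < (mc B ℓ X t').card := by
      obtain ⟨A, A', hA, hA', hc, hc', he, he', ⟨x, hx, y, hy, hxy⟩, hno⟩ := hM
      have hAB : A ⊆ lev X t' ∩ B := fun z hz => ⟨(hA hz).2, (hA hz).1⟩
      have hAB' : A' ⊆ lev X t' ∩ B := fun z hz => ⟨(hA' hz).2, (hA' hz).1⟩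
      have hm1 : comp nn (lev X t' ∩ B) x ∈ mc B ℓ X t' :=
        mem_mc.2 ⟨x, hAB hx, ExtGe.mono he (isConn_sub_comp' hc hAB hx), rfl⟩
      have hm2 : comp nn (lev X t' ∩ B) y ∈ mc B ℓ X t' :=
        mem_mc.2 ⟨y, hAB' hy, ExtGe.mono he' (isConn_sub_comp' hc' hAB' hy), rfl⟩
      have hne : comp nn (lev X t' ∩ B) x ≠ comp nn (lev X t' ∩ B) y := by
        intro heq
        apply hno x hx y hy
        have : y ∈ comp nn (lev X t' ∩ B) y := mem_comp_self (hAB' hy)
        rw [← heq] at this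
        exact this
      have hφe : φ (comp nn (lev X t' ∩ B) x) = φ (comp nn (lev X t' ∩ B) y) := by
        rw [hφ _ hm1 x (mem_comp_self (hAB hx)), hφ _ hm2 y (mem_comp_self (hAB' hy))]
        exact comp_eq hxy
      rcases (Finset.card_image_le (s := mc B ℓ X t') (f := φ)).lt_or_eq with h | h
      · exact h
      · exact absurd ((Finset.card_image_iff.1 h) hm1 hm2 hφe) hne
    rw [if_pos hM]
    omega
  · have := Finset.card_image_le (s := mc B ℓ X t') (f := φ)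
    rw [if_neg hM]
    omega

open Classical in
theorem fam_exists (B : Finset V) (ℓ : ℤ) (k : ℕ) (τ : ℕ → ℝ) (hτ : Monotone τ) (X : V → ℝ) :
    ∀ d j, j + d = k → ∃ F, Fam B ℓ X (τ j) (τ k) F ∧
      ((Finset.Ico j k).filter (fun j => Birth B ℓ (τ j) (τ (j + 1)) X)).card ≤ F.card ∧
      (mc B ℓ X (τ j)).card +
        ((Finset.Ico j k).filter (fun j => Merge B ℓ (τ j) (τ (j + 1)) X)).card ≤ F.card := by
  intro d
  induction d with
  | zero =>
    intro j hj
    obtain rfl : j = k := by omega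
    refine ⟨(mc B ℓ X (τ j)).image (fun κ => (τ j, κ)), ?_, by simp, ?_⟩
    · constructor
      · intro p hp
        obtain ⟨κ, hκ, rfl⟩ := Finset.mem_image.1 hp
        exact le_rfl
      · intro p hp
        obtain ⟨κ, hκ, rfl⟩ := Finset.mem_image.1 hp
        exact le_rfl
      · intro p hp
        obtain ⟨κ, hκ, rfl⟩ := Finset.mem_image.1 hp
        intro x hx
        exact ⟨((mc_facts hκ).1 hx).2, ((mc_facts hκ).1 hx).1⟩
      · intro p hp
        obtain ⟨κ, hκ, rfl⟩ := Finset.mem_image.1 hp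
        exact (mc_facts hκ).2.1
      · intro p hp
        obtain ⟨κ, hκ, rfl⟩ := Finset.mem_image.1 hp
        exact (mc_facts hκ).2.2.1
      · intro p hp q hq hpq x hx y hy hxy
        obtain ⟨κ, hκ, rfl⟩ := Finset.mem_image.1 hp
        obtain ⟨κ', hκ', rfl⟩ := Finset.mem_image.1 hq
        apply hpq
        simp only [min_self] at hxy
        rw [(mc_facts hκ).2.2.2 x hx, (mc_facts hκ').2.2.2 y hy, comp_eq hxy]
    · rw [Finset.card_image_of_injective _ (Prod.mk_right_injective _)]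
      simp
  | succ d ih =>
    intro j hj
    obtain ⟨F, hF, h1, h2⟩ := ih (j + 1) (by omega)
    have hjk : j < k := by omega
    have hle : τ j ≤ τ (j + 1) := hτ (Nat.le_succ j)
    -- the born components of level j
    let Bo : Finset (Set V) := (mc B ℓ X (τ j)).filter (IsBorn B ℓ X (τ j) (τ (j + 1)))
    have hBo : ∀ κ ∈ Bo, κ ∈ mc B ℓ X (τ j) ∧ IsBorn B ℓ X (τ j) (τ (j + 1)) κ :=
      fun κ hκ => Finset.mem_filter.1 hκ
    let F' : Finset (ℝ × Set V) := F ∪ Bo.image (fun κ => (τ j, κ))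
    have hcross : ∀ κ ∈ Bo, ∀ q ∈ F, ∀ x ∈ κ, ∀ y ∈ q.2, ¬ ConnIn nn (lev X (τ j) ∩ B) x y := by
      intro κ hκ q hq x hx y hy hxy
      obtain ⟨k1, k2⟩ := hBo κ hκ
      have hq1 : q.2 ⊆ lev X (τ (j + 1)) :=
        fun z hz => lev_mono (hF.lo q hq) ((hF.sub q hq hz).2)
      apply k2 q.2 ?_ (hF.conn q hq) hq1 (hF.ext q hq)
      rw [(mc_facts k1).2.2.2 x hx]
      exact isConn_sub_comp (hF.conn q hq)
        (fun z hz => ⟨lev_mono hle (hq1 hz), (hF.sub q hq hz).1⟩) hy hxy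
    have hdisj : Disjoint F (Bo.image (fun κ => (τ j, κ))) := by
      rw [Finset.disjoint_left]
      intro p hp hp'
      obtain ⟨κ, hκ, rfl⟩ := Finset.mem_image.1 hp'
      obtain ⟨x, hx⟩ := ExtGe.nonempty (mc_facts (hBo κ hκ).1).2.2.1
      exact hcross κ hκ _ hp x hx x hx (refl ((mc_facts (hBo κ hκ).1).1 hx))
    have hcard : F'.card = F.card + Bo.card := by
      rw [Finset.card_union_of_disjoint hdisj,
        Finset.card_image_of_injective _ (Prod.mk_right_injective _)]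
    have hIco : Finset.Ico j k = insert j (Finset.Ico (j + 1) k) := by
      ext i; simp only [Finset.mem_Ico, Finset.mem_insert]; omega
    refine ⟨F', ?_, ?_, ?_⟩
    · constructor
      · intro p hp
        rcases Finset.mem_union.1 hp with hp | hp
        · exact hle.trans (hF.lo p hp)
        · obtain ⟨κ, hκ, rfl⟩ := Finset.mem_image.1 hp
          exact le_rfl
      · intro p hp
        rcases Finset.mem_union.1 hp with hp | hp
        · exact hF.hi p hp
        · obtain ⟨κ, hκ, rfl⟩ := Finset.mem_image.1 hp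
          exact hτ hjk.le
      · intro p hp
        rcases Finset.mem_union.1 hp with hp | hp
        · exact hF.sub p hp
        · obtain ⟨κ, hκ, rfl⟩ := Finset.mem_image.1 hp
          intro x hx
          have := (mc_facts (hBo κ hκ).1).1 hx
          exact ⟨this.2, this.1⟩
      · intro p hp
        rcases Finset.mem_union.1 hp with hp | hp
        · exact hF.conn p hp
        · obtain ⟨κ, hκ, rfl⟩ := Finset.mem_image.1 hp
          exact (mc_facts (hBo κ hκ).1).2.1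
      · intro p hp
        rcases Finset.mem_union.1 hp with hp | hp
        · exact hF.ext p hp
        · obtain ⟨κ, hκ, rfl⟩ := Finset.mem_image.1 hp
          exact (mc_facts (hBo κ hκ).1).2.2.1
      · intro p hp q hq hpq x hx y hy hxy
        rcases Finset.mem_union.1 hp with hp | hp
        · rcases Finset.mem_union.1 hq with hq | hq
          · exact hF.sep p hp q hq hpq x hx y hy hxy
          · obtain ⟨κ, hκ, rfl⟩ := Finset.mem_image.1 hq
            refine hcross κ hκ p hp y hy x hx (symm ?_)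
            have : τ j ≤ min p.1 (τ j) := le_min (hle.trans (hF.lo p hp)) le_rfl
            exact mono hxy (inter_subset_inter_left _ (lev_mono this))
        · obtain ⟨κ, hκ, rfl⟩ := Finset.mem_image.1 hp
          rcases Finset.mem_union.1 hq with hq | hq
          · refine hcross κ hκ q hq x hx y hy ?_
            have : τ j ≤ min (τ j) q.1 := le_min le_rfl (hle.trans (hF.lo q hq))
            exact mono hxy (inter_subset_inter_left _ (lev_mono this))
          · obtain ⟨κ', hκ', rfl⟩ := Finset.mem_image.1 hq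
            apply hpq
            simp only [min_self] at hxy
            rw [(mc_facts (hBo κ hκ).1).2.2.2 x hx, (mc_facts (hBo κ' hκ').1).2.2.2 y hy,
              comp_eq hxy]
    · rw [hcard, hIco, Finset.filter_insert]
      split_ifs with hB
      · rw [Finset.card_insert_of_notMem (by simp)]
        have : 1 ≤ Bo.card := by
          obtain ⟨x, hx, he, hno⟩ := hB
          apply Finset.card_pos.2
          refine ⟨comp nn (lev X (τ j) ∩ B) x, Finset.mem_filter.2 ⟨mem_mc.2 ⟨x, ⟨hx.2, hx.1⟩,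
            he, rfl⟩, hno⟩⟩
        omega
      · omega
    · rw [hcard, hIco, Finset.filter_insert]
      have h3 := count_step (B := B) (ℓ := ℓ) (X := X) hle
      have h4 : Bo.card = ((mc B ℓ X (τ j)).filter (IsBorn B ℓ X (τ j) (τ (j + 1)))).card := rfl
      split_ifs with hM
      · rw [Finset.card_insert_of_notMem (by simp)]
        rw [if_pos hM] at h3
        omega
      · rw [if_neg hM] at h3
        omega

end M3aux

open Classical in
/-- M3: births -/
theorem M3a (B : Finset V) (ℓ : ℤ) (k : ℕ) (τ : ℕ → ℝ) (hτ : Monotone τ) (w : ℝ) (hw : τ k ≤ τ 0 + w)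
    (m : ℕ) (X : V → ℝ) (hS : ¬ SepP B (m + 1) ℓ (τ 0) w X) :
    ((Finset.range k).filter (fun j => Birth B ℓ (τ j) (τ (j + 1)) X)).card ≤ m := by
  obtain ⟨F, hF, h1, h2⟩ := M3aux.fam_exists B ℓ k τ hτ X k 0 (by omega)
  rw [← Nat.Ico_zero_eq_range]
  by_contra hcon
  exact hS (hF.sepP hw (by omega))

open Classical in
/-- M3: merges -/
theorem M3b (B : Finset V) (ℓ : ℤ) (k : ℕ) (τ : ℕ → ℝ) (hτ : Monotone τ) (w : ℝ) (hw : τ k ≤ τ 0 + w)
    (m : ℕ) (X : V → ℝ) (hS : ¬ SepP B (m + 1) ℓ (τ 0) w X) :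
    ((Finset.range k).filter (fun j => Merge B ℓ (τ j) (τ (j + 1)) X)).card ≤ m := by
  obtain ⟨F, hF, h1, h2⟩ := M3aux.fam_exists B ℓ k τ hτ X k 0 (by omega)
  rw [← Nat.Ico_zero_eq_range]
  by_contra hcon
  exact hS (hF.sepP hw (by omega))

theorem meas_Birth (B : Finset V) (ℓ : ℤ) (t t' : ℝ) : LocEv (B : Set V) {X | Birth B ℓ t t' X} := by
  have h := CB.locEv_levels B t t' (fun S S' => ∃ x ∈ S, ExtGe (comp nn S x) ℓ ∧
    ∀ A ⊆ comp nn S x, IsConn nn A → A ⊆ S' → ¬ ExtGe A ℓ)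
  convert h using 1
  ext X
  simp only [mem_ofPred_eq, Birth]
  constructor
  · rintro ⟨x, hx, h1, h2⟩
    exact ⟨x, ⟨hx.2, hx.1⟩, h1, fun A hA hc hl => h2 A hA hc (hl.trans inter_subset_left)⟩
  · rintro ⟨x, hx, h1, h2⟩
    exact ⟨x, ⟨hx.2, hx.1⟩, h1, fun A hA hc hl => h2 A hA hc
      (fun v hv => ⟨hl hv, (CB.comp_sub (hA hv)).2⟩)⟩

theorem meas_Merge (B : Finset V) (ℓ : ℤ) (t t' : ℝ) : LocEv (B : Set V) {X | Merge B ℓ t t' X} := by
  have h := CB.locEv_levels B t t' (fun S S' => ∃ A A' : Set V, A ⊆ S' ∧ A' ⊆ S' ∧ IsConn nn A ∧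
    IsConn nn A' ∧ ExtGe A ℓ ∧ ExtGe A' ℓ ∧ (∃ x ∈ A, ∃ y ∈ A', ConnIn nn S x y) ∧
    (∀ x ∈ A, ∀ y ∈ A', ¬ ConnIn nn S' x y))
  convert h using 1
  ext X
  simp only [mem_ofPred_eq, Merge, inter_comm (B : Set V) (lev X t')]

end GF
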