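import Pool.Agent.Lib.MP_acf58e_gf.Func
import Pool.Agent.Lib.MP_acf58e_gf.M2
import Pool.Agent.Lib.MP_acf58e_gf.M3
import Pool.Agent.Lib.MP_acf58e_gf.G4
import Pool.Agent.Lib.MP_acf58e_gf.P7

open MeasureTheory Set Filter Topology ProbabilityTheory
open scoped ENNReal

namespace GF

private theorem SepP_pred {B : Finset V} {m : ℕ} {ℓ : ℤ} {t w : ℝ} {X : V → ℝ}
    (h : SepP B (m + 1) ℓ t w X) : SepP B m ℓ t w X := by
  obtain ⟨u, A, h1, h2⟩ := h
  refine ⟨fun i => u i.castSucc, fun i => A i.castSucc, fun i => h1 _, fun i l hil => ?_⟩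
  exact h2 _ _ (fun h3 => hil (Fin.castSucc_injective m h3))

private theorem lev_shift (X : V → ℝ) (t h : ℝ) : lev (fun v => X v + h) (t + h) = lev X t := by
  ext v
  show t + h ≤ X v + h ↔ t ≤ X v
  constructor <;> intro h1 <;> linarith

private theorem energy_smul (D : Finset V) (c : ℝ) (f : V → ℝ) :
    energy D (fun x => c * f x) = c ^ 2 * energy D f := by
  unfold energy
  rw [mul_div_assoc']
  congr 1
  rw [mul_add, Finset.mul_sum, Finset.mul_sum]
  congr 1 <;> exact Finset.sum_congr rfl fun x _ => by ring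

open Classical in
private theorem avg_bound {Ω : Type*} [MeasurableSpace Ω] (μ : Measure Ω) [IsProbabilityMeasure μ]
    (k m : ℕ) (hk : 0 < k) (E : ℕ → Set Ω) (hE : ∀ j, MeasurableSet (E j)) (S : Set Ω)
    (hS : ∀ ω, ω ∉ S → ((Finset.range k).filter (fun j => ω ∈ E j)).card ≤ m) (p δ : ℝ)
    (hp : ∀ j < k, p ≤ μ.real (E j) + δ) : p ≤ m / k + μ.real S + δ := by
  have h1 : ∑ j ∈ Finset.range k, μ (E j) ≤ (m : ℝ≥0∞) + k * μ S := by
    calc ∑ j ∈ Finset.range k, μ (E j)
        = ∑ j ∈ Finset.range k, ∫⁻ ω, (E j).indicator 1 ω ∂μ :=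
          Finset.sum_congr rfl fun j _ => (lintegral_indicator_one (hE j)).symm
      _ = ∫⁻ ω, ∑ j ∈ Finset.range k, (E j).indicator (1 : Ω → ℝ≥0∞) ω ∂μ := by
          rw [lintegral_finsetSum]
          intro j _
          exact measurable_one.indicator (hE j)
      _ ≤ ∫⁻ ω, ((m : ℝ≥0∞) + k * (toMeasurable μ S).indicator (1 : Ω → ℝ≥0∞) ω) ∂μ := by
          refine lintegral_mono fun ω => ?_
          have h2 : ∑ j ∈ Finset.range k, (E j).indicator (1 : Ω → ℝ≥0∞) ω =
              (((Finset.range k).filter (fun j => ω ∈ E j)).card : ℝ≥0∞) := by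
            rw [Finset.card_filter]
            push_cast
            refine Finset.sum_congr rfl fun j _ => ?_
            by_cases h : ω ∈ E j
            · simp [h]
            · simp [h]
          rw [h2]
          by_cases hω : ω ∈ toMeasurable μ S
          · rw [Set.indicator_of_mem hω]
            have h3 : ((Finset.range k).filter (fun j => ω ∈ E j)).card ≤ k := by
              simpa using Finset.card_filter_le (Finset.range k) (fun j => ω ∈ E j)
            calc (((Finset.range k).filter (fun j => ω ∈ E j)).card : ℝ≥0∞) ≤ (k : ℝ≥0∞) := by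
                  exact_mod_cast h3
              _ = k * (1 : Ω → ℝ≥0∞) ω := by simp
              _ ≤ _ := le_add_self
          · rw [Set.indicator_of_notMem hω, mul_zero, add_zero]
            have h3 := hS ω (fun h => hω (subset_toMeasurable μ S h))
            exact Nat.cast_le.2 h3
      _ = (m : ℝ≥0∞) + k * μ S := by
          rw [lintegral_add_left measurable_const, lintegral_const, measure_univ, mul_one,
            lintegral_const_mul _ (measurable_one.indicator (measurableSet_toMeasurable μ S)),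
            lintegral_indicator_one (measurableSet_toMeasurable μ S), measure_toMeasurable]
  have h2 : ∑ j ∈ Finset.range k, μ.real (E j) ≤ m + k * μ.real S := by
    have h3 := ENNReal.toReal_mono (ENNReal.add_ne_top.2 ⟨ENNReal.natCast_ne_top m,
      ENNReal.mul_ne_top (ENNReal.natCast_ne_top k) (measure_ne_top μ S)⟩) h1
    rw [ENNReal.toReal_sum (fun j _ => measure_ne_top μ (E j)), ENNReal.toReal_add
      (ENNReal.natCast_ne_top m) (ENNReal.mul_ne_top (ENNReal.natCast_ne_top k) (measure_ne_top μ S)),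
      ENNReal.toReal_mul, ENNReal.toReal_natCast, ENNReal.toReal_natCast] at h3
    exact h3
  have h3 : (k : ℝ) * p ≤ ∑ j ∈ Finset.range k, (μ.real (E j) + δ) := by
    have h4 := Finset.sum_le_sum (s := Finset.range k) (f := fun _ => p)
      (g := fun j => μ.real (E j) + δ) (fun j hj => hp j (Finset.mem_range.1 hj))
    simpa using h4
  rw [Finset.sum_add_distrib, Finset.sum_const, Finset.card_range, nsmul_eq_mul] at h3
  have hk0 : (0 : ℝ) < k := by exact_mod_cast hk
  have h4 : (k : ℝ) * p ≤ k * (m / k + μ.real S + δ) := by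
    have h5 : (k : ℝ) * (m / k + μ.real S + δ) = m + k * μ.real S + k * δ := by
      field_simp
    rw [h5]
    linarith
  exact le_of_mul_le_mul_left h4 hk0

/-- M4: births and merges in a short window have small probability, uniformly -/
theorem M4 {w0 : ℝ} (h0 : 0 < w0) (hJ : JProp w0) (ε : ℝ≥0∞) (hε : 0 < ε) :
    ∃ s : ℝ, 0 < s ∧ s ≤ w0 ∧ ∀ (ρ : ℕ), 16 ≤ ρ → ∀ (w : V) (a b c d : ℤ),
      Rc a b c d ⊆ Q w (8 * ρ) → 2 * (ρ : ℤ) ≤ b - a → 2 * (ρ : ℤ) ≤ d - c → ∀ (t mu : ℝ),
      gam (Q w (40 * ρ)) (fun _ => mu)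
        {X | Birth (Rc a b c d) ρ t (t + s) X ∨ Merge (Rc a b c d) ρ t (t + s) X} ≤ ε := by
  classical
  obtain ⟨e, he0, he1⟩ : ∃ e : ℝ, 0 < e ∧ ENNReal.ofReal e ≤ ε := by
    refine ⟨(min ε 1).toReal, ENNReal.toReal_pos (lt_min hε one_pos).ne'
      (ne_top_of_le_ne_top ENNReal.one_ne_top (min_le_right _ _)), ?_⟩
    rw [ENNReal.ofReal_toReal (ne_top_of_le_ne_top ENNReal.one_ne_top (min_le_right _ _))]
    exact min_le_left _ _
  obtain ⟨C0, hC0, hcut⟩ := cut_energy
  obtain ⟨m, hm⟩ := M2 h0 hJ 40 (ENNReal.ofReal (e / 6)) (ENNReal.ofReal_pos.2 (by positivity))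
  -- the window
  obtain ⟨w1, hw1, hw10, hw1a, hw1b⟩ : ∃ w1 : ℝ, 0 < w1 ∧ w1 ≤ w0 ∧ w1 ^ 2 * (C0 * (13 / 10) ^ 2) ≤ 1 ∧
      4 * (w1 * Real.sqrt (C0 * (13 / 10) ^ 2)) ≤ e / 6 := by
    obtain ⟨M, hM⟩ : ∃ M, M = C0 * (13 / 10 : ℝ) ^ 2 := ⟨_, rfl⟩
    rw [← hM]
    have hM0 : 0 < M := by rw [hM]; positivity
    have hsM : 0 < Real.sqrt M := Real.sqrt_pos.2 hM0
    refine ⟨min w0 (min (1 / Real.sqrt M) (e / (24 * Real.sqrt M))), ?_, min_le_left _ _, ?_, ?_⟩
    · positivity
    · have h1 : min w0 (min (1 / Real.sqrt M) (e / (24 * Real.sqrt M))) ≤ 1 / Real.sqrt M :=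
        (min_le_right _ _).trans (min_le_left _ _)
      have h2 : 0 ≤ min w0 (min (1 / Real.sqrt M) (e / (24 * Real.sqrt M))) := by positivity
      calc (min w0 (min (1 / Real.sqrt M) (e / (24 * Real.sqrt M)))) ^ 2 * M
          ≤ (1 / Real.sqrt M) ^ 2 * M :=
            mul_le_mul_of_nonneg_right (pow_le_pow_left₀ h2 h1 2) hM0.le
        _ = 1 := by
            rw [div_pow, one_pow, Real.sq_sqrt hM0.le]
            field_simp
    · have h1 : min w0 (min (1 / Real.sqrt M) (e / (24 * Real.sqrt M))) ≤ e / (24 * Real.sqrt M) :=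
        (min_le_right _ _).trans (min_le_right _ _)
      calc 4 * (min w0 (min (1 / Real.sqrt M) (e / (24 * Real.sqrt M))) * Real.sqrt M)
          ≤ 4 * (e / (24 * Real.sqrt M) * Real.sqrt M) := by
            have := mul_le_mul_of_nonneg_right h1 hsM.le
            linarith
        _ = e / 6 := by
            field_simp
            norm_num
  obtain ⟨k, hk⟩ : ∃ k : ℕ, 0 < k ∧ (m : ℝ) / k ≤ e / 6 := by
    refine ⟨⌈6 * m / e⌉₊ + 1, Nat.succ_pos _, ?_⟩
    have h1 : 6 * m / e ≤ ((⌈6 * m / e⌉₊ + 1 : ℕ) : ℝ) := by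
      push_cast
      linarith [Nat.le_ceil (6 * m / e)]
    rw [div_le_iff₀ (by positivity)]
    rw [div_le_iff₀ he0] at h1
    linarith
  obtain ⟨hk0, hk1⟩ := hk
  have hkR : (0 : ℝ) < k := by exact_mod_cast hk0
  obtain ⟨s, hs⟩ : ∃ s : ℝ, s = w1 / k := ⟨_, rfl⟩
  have hs0 : 0 < s := by rw [hs]; positivity
  have hks : (k : ℝ) * s = w1 := by rw [hs]; field_simp
  refine ⟨s, hs0, ?_, ?_⟩
  · have h1 : (1 : ℝ) ≤ k := by exact_mod_cast hk0
    nlinarith
  intro ρ hρ w a b c d hB hab hcd t mu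
  have hρR : (16 : ℝ) ≤ ρ := by exact_mod_cast hρ
  -- the box is inside the arena
  have hc1 : (a, c) ∈ Q w (8 * ρ) := hB (by
    simp only [Rc, Finset.mem_Icc, Prod.le_def]; omega)
  have hc2 : (b, d) ∈ Q w (8 * ρ) := hB (by
    simp only [Rc, Finset.mem_Icc, Prod.le_def]; omega)
  simp only [Q, Finset.mem_Icc, Prod.le_def] at hc1 hc2
  obtain ⟨B, hBe⟩ : ∃ B, B = Rc a b c d := ⟨_, rfl⟩
  obtain ⟨μ, hμ⟩ : ∃ μ, μ = gam (Q w (40 * ρ)) (fun _ => mu) := ⟨_, rfl⟩
  have : IsProbabilityMeasure μ := by rw [hμ]; infer_instance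
  rw [← hBe, ← hμ]
  have hSep : μ.real {X | SepP B (m + 1) ρ t w0 X} ≤ e / 6 := by
    have h1 : μ {X | SepP B (m + 1) ρ t w0 X} ≤ ENNReal.ofReal (e / 6) := by
      refine (measure_mono (fun X hX => SepP_pred hX)).trans ?_
      rw [hμ, hBe]
      refine hm ρ hρ a b c d (by omega) (by push_cast; omega) (by omega) (by push_cast; omega)
        (Q w (40 * ρ)) w t mu (by push_cast; exact Finset.Subset.refl _) ?_
      intro x hx
      simp only [Rc, Q, Finset.mem_Icc, Prod.le_def] at hx ⊢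
      omega
    calc μ.real {X | SepP B (m + 1) ρ t w0 X} ≤ (ENNReal.ofReal (e / 6)).toReal :=
          ENNReal.toReal_mono ENNReal.ofReal_ne_top h1
      _ = e / 6 := ENNReal.toReal_ofReal (by positivity)
  -- the general estimate for an event which is local and shift covariant
  have key : ∀ P : ℝ → ℝ → (V → ℝ) → Prop,
      (∀ u u', LocEv (B : Set V) {X | P u u' X}) →
      (∀ u u' h X, P (u + h) (u' + h) (fun v => X v + h) ↔ P u u' X) →
      (∀ X, ¬ SepP B (m + 1) ρ t w0 X → ((Finset.range k).filter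
        (fun j : ℕ => P (t + j * s) (t + (j + 1 : ℕ) * s) X)).card ≤ m) →
      μ.real {X | P t (t + s) X} ≤ e / 2 := by
    intro P hP1 hP2 hP3
    have h1 := avg_bound μ k m hk0 (fun j : ℕ => {X | P (t + j * s) (t + (j + 1 : ℕ) * s) X})
      (fun j => (hP1 _ _).1) {X | SepP B (m + 1) ρ t w0 X} (fun X hX => hP3 X hX)
      (μ.real {X | P t (t + s) X}) (e / 6) (fun j hj => ?_)
    · linarith
    · -- Cameron-Martin
      have hjs : (j : ℝ) * s ≤ w1 := by
        rw [← hks]
        have : (j : ℝ) ≤ k := by exact_mod_cast hj.le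
        exact mul_le_mul_of_nonneg_right this hs0.le
      have hjs0 : 0 ≤ (j : ℝ) * s := by positivity
      obtain ⟨φ, hφ⟩ : ∃ φ : V → ℝ, φ = fun x => (j * s) * cut w (9 * ρ) (39 * ρ) x := ⟨_, rfl⟩
      have hRr : (9 : ℝ) * ρ < 39 * ρ := by linarith
      have hφ0 : ∀ x ∉ Q w (40 * ρ), φ x = 0 := by
        intro x hx
        rw [hφ]
        have h2 : (39 : ℝ) * ρ ≤ dI x w := by
          have h3 : 39 * (ρ : ℤ) ≤ dI x w := by
            by_contra h4
            push Not at h4
            apply hx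
            have h5 : |x.1 - w.1| < 39 * ρ := lt_of_le_of_lt (le_max_left _ _) h4
            have h6 : |x.2 - w.2| < 39 * ρ := lt_of_le_of_lt (le_max_right _ _) h4
            rw [abs_lt] at h5 h6
            simp only [Q, Finset.mem_Icc, Prod.le_def]
            omega
          exact_mod_cast h3
        show (j * s) * cut w (9 * ρ) (39 * ρ) x = 0
        rw [cut_zero hRr h2, mul_zero]
      have hφ1 : ∀ x ∈ B, φ x = j * s := by
        intro x hx
        rw [hφ]
        have h2 : (dI x w : ℝ) ≤ 9 * ρ := by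
          have h3 : dI x w ≤ 9 * (ρ : ℤ) := by
            have h4 := hB (hBe ▸ hx)
            simp only [Q, Finset.mem_Icc, Prod.le_def] at h4
            refine max_le ?_ ?_ <;> rw [abs_le] <;> omega
          exact_mod_cast h3
        show (j * s) * cut w (9 * ρ) (39 * ρ) x = j * s
        rw [cut_one hRr h2, mul_one]
      have hen : energy (Q w (40 * ρ)) φ ≤ w1 ^ 2 * (C0 * (13 / 10) ^ 2) := by
        rw [hφ, energy_smul]
        have h2 := hcut (Q w (40 * ρ)) w (9 * ρ) (39 * ρ) (by linarith) hRr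
        have h3 : (39 * (ρ : ℝ)) / (39 * ρ - 9 * ρ) = 13 / 10 := by
          have : (ρ : ℝ) ≠ 0 := by linarith
          rw [show 39 * (ρ : ℝ) - 9 * ρ = 30 * ρ by ring]
          field_simp
          norm_num
        rw [h3] at h2
        have h4 : ((j : ℝ) * s) ^ 2 ≤ w1 ^ 2 := pow_le_pow_left₀ hjs0 hjs 2
        exact mul_le_mul h4 h2 (energy_nonneg _ _) (by positivity)
      have h2 := cm_tv_set (Q w (40 * ρ)) (fun _ => mu) hφ0 (hen.trans hw1a)
        (hP1 (t + j * s) (t + (j + 1 : ℕ) * s)).1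
      rw [← hμ] at h2
      have h3 : {X : V → ℝ | (fun x => X x + φ x) ∈ {X | P (t + j * s) (t + (j + 1 : ℕ) * s) X}} =
          {X | P t (t + s) X} := by
        ext X
        show (fun x => X x + φ x) ∈ {X | P (t + j * s) (t + (j + 1 : ℕ) * s) X} ↔ P t (t + s) X
        rw [(hP1 (t + j * s) (t + (j + 1 : ℕ) * s)).2 (fun x => X x + φ x) (fun v => X v + j * s)
          (fun v hv => by rw [hφ1 v hv])]
        have h4 := hP2 t (t + s) (j * s) X
        rw [show t + s + (j : ℝ) * s = t + (j + 1 : ℕ) * s by push_cast; ring] at h4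
        exact h4
      rw [h3] at h2
      have h5 : 4 * Real.sqrt (energy (Q w (40 * ρ)) φ) ≤ e / 6 := by
        refine le_trans ?_ hw1b
        have h6 : Real.sqrt (energy (Q w (40 * ρ)) φ) ≤ w1 * Real.sqrt (C0 * (13 / 10) ^ 2) := by
          rw [← Real.sqrt_sq hw1.le, ← Real.sqrt_mul (sq_nonneg w1)]
          exact Real.sqrt_le_sqrt hen
        linarith
      have h7 := (abs_le.1 h2).2
      show μ.real {X | P t (t + s) X} ≤ μ.real {X | P (t + j * s) (t + (j + 1 : ℕ) * s) X} + e / 6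
      linarith
  have hτ : Monotone (fun j : ℕ => t + j * s) := by
    intro i j hij
    have : (i : ℝ) ≤ j := by exact_mod_cast hij
    show t + i * s ≤ t + j * s
    have := mul_le_mul_of_nonneg_right this hs0.le
    linarith
  have hτk : (fun j : ℕ => t + j * s) k ≤ (fun j : ℕ => t + j * s) 0 + w0 := by
    show t + k * s ≤ t + ((0 : ℕ) : ℝ) * s + w0
    rw [hks]
    push_cast
    linarith
  have hb := key (fun u u' X => Birth B ρ u u' X) (fun u u' => meas_Birth B ρ u u')
    (fun u u' h X => by unfold Birth; rw [lev_shift, lev_shift]) (fun X hX => by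
      have h1 := M3a B ρ k (fun j : ℕ => t + j * s) hτ w0 hτk m X (by simpa using hX)
      exact h1)
  have hmg := key (fun u u' X => Merge B ρ u u' X) (fun u u' => meas_Merge B ρ u u')
    (fun u u' h X => by unfold Merge; rw [lev_shift, lev_shift]) (fun X hX => by
      have h1 := M3b B ρ k (fun j : ℕ => t + j * s) hτ w0 hτk m X (by simpa using hX)
      exact h1)
  have hun : μ.real {X | Birth B ρ t (t + s) X ∨ Merge B ρ t (t + s) X} ≤ e := by
    have h1 : {X | Birth B ρ t (t + s) X ∨ Merge B ρ t (t + s) X} =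
        {X | Birth B ρ t (t + s) X} ∪ {X | Merge B ρ t (t + s) X} := rfl
    rw [h1]
    refine (measureReal_union_le _ _).trans ?_
    have hb' : μ.real {X | Birth B ρ t (t + s) X} ≤ e / 2 := hb
    have hm' : μ.real {X | Merge B ρ t (t + s) X} ≤ e / 2 := hmg
    linarith
  calc μ {X | Birth B ρ t (t + s) X ∨ Merge B ρ t (t + s) X}
      = ENNReal.ofReal (μ.real {X | Birth B ρ t (t + s) X ∨ Merge B ρ t (t + s) X}) :=
        (ofReal_measureReal (measure_ne_top μ _)).symm
    _ ≤ ENNReal.ofReal e := ENNReal.ofReal_le_ofReal hun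
    _ ≤ ε := he1

end GF
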