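import Pool.Agent.Lib.MP_acf58e_gf.Func
import Pool.Agent.Lib.MP_acf58e_gf.L3
import Pool.Agent.Lib.MP_acf58e_gf.M4
import Pool.Agent.Lib.MP_acf58e_gf.L4
import Pool.Agent.Lib.MP_acf58e_gf.L5Y

open MeasureTheory Set Filter Topology ProbabilityTheory
open scoped ENNReal

namespace GF

private theorem l5_QRc (w : V) (k a b c d : ℤ) : Q w k ∩ Rc a b c d =
    Rc (max a (w.1 - k)) (min b (w.1 + k)) (max c (w.2 - k)) (min d (w.2 + k)) := by
  ext ⟨x, y⟩
  simp only [Q, Rc, Finset.mem_inter, Finset.mem_Icc, Prod.mk_le_mk]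
  omega

private theorem l5_mono {A B : Set V} (hAB : A ⊆ B) {E : Set (V → ℝ)} (h : LocEv A E) :
    LocEv B E := ⟨h.1, fun X X' hX => h.2 X X' fun v hv => hX v (hAB hv)⟩

private theorem l5_union {B : Set V} {E E' : Set (V → ℝ)} (h : LocEv B E) (h' : LocEv B E') :
    LocEv B (E ∪ E') :=
  ⟨h.1.union h'.1, fun X X' hX => or_congr (h.2 X X' hX) (h'.2 X X' hX)⟩

/-- L5: level step -/
theorem L5 {w0 : ℝ} (h0 : 0 < w0) (hJ : JProp w0) (ε : ℝ) (hε : 0 < ε) :
    ∃ (s : ℝ) (C : ℝ≥0∞), 0 < s ∧ C < ⊤ ∧ ∀ (t : ℝ), 0 ≤ t → ∀ C' : ℝ≥0∞,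
      (∀ R : ℕ, 1 ≤ R → Lam (t + s) R ≤ C' * ENNReal.ofReal ((R : ℝ) ^ (1 + ε))) →
      ∀ R : ℕ, 1 ≤ R → Lam t R ≤ C * (1 + C') * ENNReal.ofReal ((R : ℝ) ^ (1 + ε)) := by
  obtain ⟨b, H1, ε1, C4, hb, hH1, hε1, hC4, h4⟩ := L4 h0 hJ ε hε
  have hε2 : 0 < ε1 / 2 := ENNReal.div_pos hε1.ne' ENNReal.ofNat_ne_top
  obtain ⟨s, hs, -, hM4⟩ := M4 h0 hJ (ε1 / 2) hε2
  obtain ⟨CY, hCY, hY⟩ := L5Y H1
  set R0 : ℕ := 1000 * b with hR0
  refine ⟨s, C4 * (1 + CY + (R0 : ℝ≥0∞) ^ 4), hs, ?_, fun t ht C' hC' R hR => ?_⟩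
  · refine ENNReal.mul_lt_top hC4 (ENNReal.add_lt_top.2 ⟨ENNReal.add_lt_top.2
      ⟨ENNReal.one_lt_top, hCY⟩, ?_⟩)
    exact ENNReal.pow_lt_top (ENNReal.natCast_lt_top _)
  have hts : 0 ≤ t + s := by linarith
  have key : ∀ R : ℕ, R0 ≤ R → Dec t R b H1 ε1 (CY * C' * ENNReal.ofReal ((R : ℝ) ^ (1 + ε))) := by
    intro R hR z U hU
    obtain ⟨a, a', c, c', hUe, hzU, hw1, hw2⟩ := hU
    have hU : IsU R z U := ⟨a, a', c, c', hUe, hzU, hw1, hw2⟩
    have hbpos : 0 < b := by omega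
    set ρ : ℕ := R / b with hρ
    set q : ℕ := ρ / 2 with hq
    set r : ℕ := R / 400 with hr
    have hρb : ρ * b ≤ R := Nat.div_mul_le_self R b
    have hρ1000 : 1000 ≤ ρ := (Nat.le_div_iff_mul_le hbpos).2 hR
    have hRlt : R < (ρ + 1) * b := by
      have := Nat.lt_div_mul_add (a := R) hbpos
      rw [← hρ] at this
      nlinarith
    have h2000 : 2000 * ρ ≤ R := by
      calc 2000 * ρ ≤ b * ρ := Nat.mul_le_mul_right _ hb
        _ = ρ * b := mul_comm _ _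
        _ ≤ R := hρb
    have hq1 : 1 ≤ q := by omega
    have hq2 : 2 * q ≤ ρ := by omega
    have hr400 : 400 * r ≤ R := by omega
    have hr1 : 1 ≤ r := by omega
    -- the nets
    obtain ⟨Nt, hNt⟩ : ∃ Nt, IsNet (Q z (2 * R) ∩ U) q Nt := by
      rw [hUe, l5_QRc]
      exact exists_net _ _ _ _ q hq1
    obtain ⟨Nr, hNr⟩ : ∃ Nr, IsNet (Q z (3 * R) ∩ U) r Nr := by
      rw [hUe, l5_QRc]
      exact exists_net _ _ _ _ r hr1
    have hNt1 := hNt.1
    have hrect : ∀ (w : V) (a1 b1 c1 d1 : ℤ), Rc a1 b1 c1 d1 ⊆ Q w (8 * ρ) →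
        2 * (ρ : ℤ) ≤ b1 - a1 → 2 * (ρ : ℤ) ≤ d1 - c1 → ∀ m : ℝ,
        gam (Q w (40 * ρ)) (fun _ => m) {X | Birth (Rc a1 b1 c1 d1) ρ t (t + s) X} ≤ ε1 / 2 ∧
        gam (Q w (40 * ρ)) (fun _ => m) {X | Merge (Rc a1 b1 c1 d1) ρ t (t + s) X} ≤ ε1 / 2 :=
      fun w a1 b1 c1 d1 k1 k2 k3 m =>
        ⟨(measure_mono fun X hX => Or.inl hX).trans (hM4 ρ (by omega) w a1 b1 c1 d1 k1 k2 k3 t m),
        (measure_mono fun X hX => Or.inr hX).trans (hM4 ρ (by omega) w a1 b1 c1 d1 k1 k2 k3 t m)⟩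
    refine ⟨Nt, Nt, fun w => {X | Birth (Q w (2 * ρ) ∩ U) ρ t (t + s) X} ∪
      {X | Merge (Q w (8 * ρ) ∩ U) ρ t (t + s) X},
      fun X => ∑ c ∈ Nr, FD (t + s) (Q z (3 * R) ∩ U) c r X, hNt,
      Finset.measurable_sum _ fun c _ => meas_FD _ _ _ _, ?_, ?_, ?_, ?_, ?_, ?_⟩
    · intro w hw
      have h1 := (Finset.mem_inter.1 (hNt1 hw)).1
      simp only [Q, Finset.mem_Icc, Prod.le_def] at h1 ⊢
      omega
    · -- the number of boxes
      have h1 := hNt.2.2 z (4 * b + b / 10)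
      have h2 : Nt.filter (fun c => dI z c ≤ ((4 * b + b / 10) * q : ℕ)) = Nt := by
        refine Finset.filter_true_of_mem fun w hw => ?_
        have h3 := (Finset.mem_inter.1 (hNt1 hw)).1
        have h4 : 2 * R ≤ (4 * b + b / 10) * q := by
          have h5 : ρ ≤ 2 * q + 1 := by omega
          have h6 : 500 ≤ q := by omega
          have h7 : 200 ≤ b / 10 := by omega
          have h8 : 2 * R ≤ 2 * ((2 * q + 2) * b) := by
            have : (ρ + 1) * b ≤ (2 * q + 2) * b := Nat.mul_le_mul_right _ (by omega)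
            omega
          have h9 : 4 * b ≤ (b / 10) * q := by
            have h10 : b ≤ 10 * (b / 10) + 9 := by omega
            have h11 : 500 * (b / 10) ≤ (b / 10) * q := by
              rw [mul_comm]
              exact Nat.mul_le_mul_left _ h6
            omega
          calc 2 * R ≤ 2 * ((2 * q + 2) * b) := h8
            _ = 4 * b * q + 4 * b := by ring
            _ ≤ 4 * b * q + (b / 10) * q := Nat.add_le_add_left h9 _
            _ = _ := by ring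
        simp only [Q, Finset.mem_Icc, Prod.le_def] at h3
        have h5 : dI z w ≤ 2 * R := by
          unfold dI
          rw [max_le_iff, abs_le, abs_le]
          constructor <;> constructor <;> omega
        exact h5.trans (by exact_mod_cast h4)
      rw [h2] at h1
      refine h1.trans ?_
      have h3 : 2 * (4 * b + b / 10) + 1 ≤ 9 * b := by omega
      calc (2 * (4 * b + b / 10) + 1) ^ 2 ≤ (9 * b) ^ 2 := Nat.pow_le_pow_left h3 2
        _ = 81 * b ^ 2 := by ring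
        _ ≤ 100 * b ^ 2 := Nat.mul_le_mul_right _ (by norm_num)
    · intro w _
      refine l5_union (l5_mono ?_ (meas_Birth _ _ _ _)) (l5_mono ?_ (meas_Merge _ _ _ _))
      · intro v hv
        have h1 := (Finset.mem_inter.1 (Finset.mem_coe.1 hv)).1
        rw [Finset.mem_coe]
        simp only [Q, Finset.mem_Icc, Prod.le_def] at h1 ⊢
        omega
      · intro v hv
        exact (Finset.mem_inter.1 (Finset.mem_coe.1 hv)).1
    · intro w hw m
      have hwU : w ∈ Rc a a' c c' := hUe ▸ (Finset.mem_inter.1 (hNt1 hw)).2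
      simp only [Rc, Finset.mem_Icc, Prod.le_def] at hwU
      have h1 : gam (Q w (40 * ρ)) (fun _ => m) {X | Birth (Q w (2 * ρ) ∩ U) ρ t (t + s) X} ≤
          ε1 / 2 := by
        rw [hUe, l5_QRc]
        refine (hrect w _ _ _ _ ?_ ?_ ?_ m).1
        · rw [← l5_QRc]
          intro v hv
          have h2 := (Finset.mem_inter.1 hv).1
          simp only [Q, Finset.mem_Icc, Prod.le_def] at h2 ⊢
          omega
        · omega
        · omega
      have h2 : gam (Q w (40 * ρ)) (fun _ => m) {X | Merge (Q w (8 * ρ) ∩ U) ρ t (t + s) X} ≤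
          ε1 / 2 := by
        rw [hUe, l5_QRc]
        refine (hrect w _ _ _ _ ?_ ?_ ?_ m).2
        · rw [← l5_QRc]
          exact Finset.inter_subset_left
        · omega
        · omega
      calc _ ≤ _ := measure_union_le _ _
        _ ≤ ε1 / 2 + ε1 / 2 := add_le_add h1 h2
        _ = ε1 := ENNReal.add_halves ε1
    · intro β hβ
      refine (hY (t + s) hts U z R hU (by omega) Nr hNr β hβ).trans ?_
      rw [mul_assoc]
      refine mul_le_mul' le_rfl ((hC' r hr1).trans (mul_le_mul' le_rfl ?_))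
      refine ENNReal.ofReal_le_ofReal (Real.rpow_le_rpow (Nat.cast_nonneg _) ?_ (by linarith))
      exact_mod_cast (by omega : r ≤ R)
    · intro X hX
      refine L3 t s ht hs.le U z R ρ r q hU (by omega) h2000 hr1 hr400 hq1 hq2 Nt hNt Nr hNr X
        (fun w hw hB => hX w hw (Or.inl hB)) (fun w hw hM => hX w hw (Or.inr hM))
  refine (h4 t ht (CY * C') R0 key R hR).trans (mul_le_mul' ?_ le_rfl)
  rw [mul_assoc]
  refine mul_le_mul' le_rfl ?_
  have e : (1 + CY + (R0 : ℝ≥0∞) ^ 4) * (1 + C') =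
      1 + CY * C' + (R0 : ℝ≥0∞) ^ 4 + (C' + CY + (R0 : ℝ≥0∞) ^ 4 * C') := by ring
  rw [e]
  exact le_self_add

end GF
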