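import Pool.Agent.Lib.MP_acf58e_gf.Func
import Pool.Agent.Lib.MP_acf58e_gf.B3
import Pool.Agent.Lib.MP_acf58e_gf.L5

open MeasureTheory Set Filter Topology ProbabilityTheory
open scoped ENNReal

namespace GF

theorem Lam0 {w0 : ℝ} (h0 : 0 < w0) (hJ : JProp w0) (hR : RCProp) (ε : ℝ) (hε : 0 < ε) :
    ∃ C : ℝ≥0∞, C < ⊤ ∧ ∀ R : ℕ, 1 ≤ R → Lam 0 R ≤ C * ENNReal.ofReal ((R : ℝ) ^ (1 + ε)) := by
  obtain ⟨K', C0, hK', hC0, hB⟩ := B3 h0 hJ hR ε hε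
  obtain ⟨s, C1, hs, hC1, hL⟩ := L5 h0 hJ ε hε
  have key : ∀ k : ℕ, ∀ t : ℝ, 0 ≤ t → K' ≤ t + k * s → ∃ C : ℝ≥0∞, C < ⊤ ∧ ∀ R : ℕ, 1 ≤ R →
      Lam t R ≤ C * ENNReal.ofReal ((R : ℝ) ^ (1 + ε)) := by
    intro k
    induction k with
    | zero =>
      intro t _ h
      refine ⟨C0, hC0, hB t ?_⟩
      simpa using h
    | succ k ih =>
      intro t ht h
      obtain ⟨C', hC', hb⟩ := ih (t + s) (by linarith) (by push_cast at h; linarith)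
      exact ⟨C1 * (1 + C'), ENNReal.mul_lt_top hC1 (ENNReal.add_lt_top.2 ⟨ENNReal.one_lt_top, hC'⟩),
        hL t ht C' hb⟩
  obtain ⟨k, hk⟩ := exists_nat_ge (K' / s)
  refine key k 0 le_rfl ?_
  rw [div_le_iff₀ hs] at hk
  linarith

end GF
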