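import Pool.Agent.Lib.MP_acf58e_gf.Func
import Pool.Agent.Lib.MP_acf58e_gf.Lam0
import Pool.Agent.Lib.MP_acf58e_gf.E2

open MeasureTheory Set Filter Topology ProbabilityTheory
open scoped ENNReal

namespace GF

theorem E3_meas (N : ℕ) (α β M : ℝ) (hM : 0 ≤ M) :
    MeasurableSet {X : V → ℝ | ENNReal.ofReal M < ((DX N α β X : ℕ∞) : ℝ≥0∞) ∧
      DX N α β X < ⊤} := by
  have h1 : {X : V → ℝ | ENNReal.ofReal M < ((DX N α β X : ℕ∞) : ℝ≥0∞) ∧ DX N α β X < ⊤} =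
      {X : V → ℝ | DX N α β X ≤ ((⌊M⌋₊ : ℕ) : ℕ∞)}ᶜ ∩
        ⋃ k : ℕ, {X : V → ℝ | DX N α β X ≤ ((k : ℕ) : ℕ∞)} := by
    ext X
    simp only [mem_ofPred_eq, mem_inter_iff, mem_compl_iff, mem_iUnion]
    constructor
    · rintro ⟨ha, hb⟩
      obtain ⟨k, hk⟩ := ENat.ne_top_iff_exists.mp (ne_of_lt hb)
      rw [← hk] at ha ⊢
      refine ⟨?_, k, le_rfl⟩
      intro hle
      have hle' : k ≤ ⌊M⌋₊ := by exact_mod_cast hle
      have h2 : (k : ℝ) ≤ M := (Nat.le_floor_iff hM).mp hle'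
      have h3 : ((k : ℕ∞) : ℝ≥0∞) ≤ ENNReal.ofReal M := by
        rw [ENat.toENNReal_coe, ← ENNReal.ofReal_natCast]
        exact ENNReal.ofReal_le_ofReal h2
      exact absurd ha (not_lt.mpr h3)
    · rintro ⟨ha, k, hk⟩
      have hb : DX N α β X < ⊤ := lt_of_le_of_lt hk (ENat.natCast_lt_top k)
      obtain ⟨j, hj⟩ := ENat.ne_top_iff_exists.mp (ne_of_lt hb)
      refine ⟨?_, hb⟩
      rw [← hj] at ha ⊢
      have ha' : ¬ j ≤ ⌊M⌋₊ := fun h => ha (by exact_mod_cast h)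
      have h2 : M < (j : ℝ) := by
        by_contra hcon
        exact ha' ((Nat.le_floor_iff hM).mpr (not_lt.mp hcon))
      rw [ENat.toENNReal_coe, ← ENNReal.ofReal_natCast]
      exact (ENNReal.ofReal_lt_ofReal_iff_of_nonneg hM).mpr h2
  rw [h1]
  exact (meas_DX N α β _).compl.inter (MeasurableSet.iUnion fun k => meas_DX N α β _)

/-- E3: the tail -/
theorem E3 {w0 : ℝ} (h0 : 0 < w0) (hJ : JProp w0) (hR : RCProp) (α β lam : ℝ) (hα : 0 < α) (hαβ : α < β)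
    (hβ : β < 1) (ε : ℝ) (hε : 0 < ε) :
    Tendsto (fun N : ℕ => gam (iN N) (fun v => if v ∈ VN N then lam else -1)
      {X | ENNReal.ofReal ((N : ℝ) ^ (1 + ε)) < ((DX N α β X : ℕ∞) : ℝ≥0∞) ∧ DX N α β X < ⊤}) atTop (𝓝 0) := by
  obtain ⟨C, N0, hC, hE⟩ := E2 α β lam hα hαβ hβ (ε / 2) (half_pos hε)
    (Lam0 h0 hJ hR (ε / 2) (half_pos hε))
  have hbound : ∀ N : ℕ, max N0 1 ≤ N →
      gam (iN N) (fun v => if v ∈ VN N then lam else -1)
        {X | ENNReal.ofReal ((N : ℝ) ^ (1 + ε)) < ((DX N α β X : ℕ∞) : ℝ≥0∞) ∧ DX N α β X < ⊤} ≤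
      C * ENNReal.ofReal ((N : ℝ) ^ (-(ε / 2))) := by
    intro N hN
    have hN0 : N0 ≤ N := le_trans (le_max_left _ _) hN
    have hN1 : 1 ≤ N := le_trans (le_max_right _ _) hN
    have hNpos : (0 : ℝ) < (N : ℝ) := by exact_mod_cast hN1
    have hMpos : (0 : ℝ) < (N : ℝ) ^ (1 + ε) := Real.rpow_pos_of_pos hNpos _
    set μ := gam (iN N) (fun v => if v ∈ VN N then lam else -1) with hμ
    set T : Set (V → ℝ) :=
      {X | ENNReal.ofReal ((N : ℝ) ^ (1 + ε)) < ((DX N α β X : ℕ∞) : ℝ≥0∞) ∧ DX N α β X < ⊤} with hT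
    have hTm : MeasurableSet T := E3_meas N α β _ hMpos.le
    have h1 : ENNReal.ofReal ((N : ℝ) ^ (1 + ε)) * μ T ≤
        C * ENNReal.ofReal ((N : ℝ) ^ (1 + ε / 2)) := by
      calc ENNReal.ofReal ((N : ℝ) ^ (1 + ε)) * μ T
          = ∫⁻ _X in T, ENNReal.ofReal ((N : ℝ) ^ (1 + ε)) ∂μ := (setLIntegral_const _ _).symm
        _ ≤ ∫⁻ X in T, ((DX N α β X : ℕ∞) : ℝ≥0∞) ∂μ :=
            setLIntegral_mono' hTm fun X hX => le_of_lt hX.1
        _ ≤ ∫⁻ X in {X | DX N α β X < ⊤}, ((DX N α β X : ℕ∞) : ℝ≥0∞) ∂μ :=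
            lintegral_mono_set fun X hX => hX.2
        _ ≤ C * ENNReal.ofReal ((N : ℝ) ^ (1 + ε / 2)) := hE N hN0
    have h2 : (N : ℝ) ^ (1 + ε / 2) = (N : ℝ) ^ (1 + ε) * (N : ℝ) ^ (-(ε / 2)) := by
      rw [← Real.rpow_add hNpos]
      congr 1
      ring
    have h3 : C * ENNReal.ofReal ((N : ℝ) ^ (1 + ε / 2)) =
        ENNReal.ofReal ((N : ℝ) ^ (1 + ε)) * (C * ENNReal.ofReal ((N : ℝ) ^ (-(ε / 2)))) := by
      rw [h2, ENNReal.ofReal_mul hMpos.le]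
      ring
    rw [h3] at h1
    exact (ENNReal.mul_le_mul_iff_right (ENNReal.ofReal_pos.mpr hMpos).ne' ENNReal.ofReal_ne_top).mp h1
  have hlim : Tendsto (fun N : ℕ => C * ENNReal.ofReal ((N : ℝ) ^ (-(ε / 2)))) atTop (𝓝 0) := by
    have h1 : Tendsto (fun N : ℕ => ((N : ℝ)) ^ (-(ε / 2))) atTop (𝓝 0) :=
      (tendsto_rpow_neg_atTop (half_pos hε)).comp tendsto_natCast_atTop_atTop
    have h2 : Tendsto (fun N : ℕ => ENNReal.ofReal (((N : ℝ)) ^ (-(ε / 2)))) atTop (𝓝 0) := by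
      have h4 := (ENNReal.continuous_ofReal.tendsto 0).comp h1
      rw [ENNReal.ofReal_zero] at h4
      exact h4
    have h3 := ENNReal.Tendsto.const_mul (a := C) h2 (Or.inr hC.ne)
    simpa using h3
  refine tendsto_of_tendsto_of_tendsto_of_le_of_le' tendsto_const_nhds hlim
    (Eventually.of_forall fun _ => bot_le) ?_
  filter_upwards [eventually_ge_atTop (max N0 1)] with N hN using hbound N hN

end GF
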