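import Pool.Agent.Lib.MP_acf58e_gf.Func

open MeasureTheory Set Filter Topology ProbabilityTheory
open scoped ENNReal

namespace GF

private theorem kp_nonneg (N : ℕ) (n : ℕ) (u v : V) : 0 ≤ kp N n u v := by
  induction n generalizing u with
  | zero => simp only [kp]; split_ifs <;> norm_num
  | succ n ih =>
    simp only [kp]
    split_ifs
    · unfold av
      have := ih (nE u); have := ih (nW u); have := ih (nN u); have := ih (nS u)
      positivity
    · exact le_rfl

private theorem kp_off (N : ℕ) (n : ℕ) {u : V} (v : V) (h : u ∉ iN N) : kp N n u v = 0 := by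
  cases n with
  | zero => simp [kp, h]
  | succ n => simp [kp, h]

private theorem kp_on (N : ℕ) (n : ℕ) {u : V} (v : V) (h : u ∈ iN N) :
    kp N (n + 1) u v = av (fun w => kp N n w v) u := by
  simp [kp, h]

private theorem partial_le (N : ℕ) (v : V) (n : ℕ) (u : V) :
    ∑ i ∈ Finset.range n, kp N i u v ≤ 4 * gr (iN N) u v := by
  induction n generalizing u with
  | zero => simp; exact gr_nonneg _ _ _
  | succ n ih =>
    by_cases h : u ∈ iN N
    · rw [Finset.sum_range_succ']
      simp only [kp_on N _ v h]
      have h0 : kp N 0 u v = if u = v then 1 else 0 := by simp [kp, h]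
      rw [h0]
      have e : ∑ i ∈ Finset.range n, av (fun w => kp N i w v) u
          = av (fun w => ∑ i ∈ Finset.range n, kp N i w v) u := by
        unfold av
        simp only [← Finset.sum_add_distrib, Finset.sum_div]
      rw [e]
      have h1 := gr_on v h
      have h2 : av (fun w => ∑ i ∈ Finset.range n, kp N i w v) u ≤ 4 * av (fun z => gr (iN N) z v) u := by
        have a1 := ih (nE u); have a2 := ih (nW u); have a3 := ih (nN u); have a4 := ih (nS u)
        unfold av
        linarith
      linarith
    · rw [Finset.sum_eq_zero (fun i _ => kp_off N i v h)]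
      have := gr_nonneg (iN N) u v
      linarith

theorem GN_summable (N : ℕ) (u v : V) : Summable (fun n => kp N n u v) :=
  summable_of_sum_range_le (fun n => kp_nonneg N n u v) (fun n => partial_le N v n u)

/-- G_{V_N} = 4 gr -/
theorem GN_eq (N : ℕ) (u v : V) : GN N u v = 4 * gr (iN N) u v := by
  have h1 : ∀ x ∉ iN N, GN N x v / 4 = (fun _ => (0:ℝ)) x := by
    intro x hx
    unfold GN
    simp [kp_off N _ v hx]
  have h2 : ∀ x ∈ iN N, 4 * (GN N x v / 4 - av (fun y => GN N y v / 4) x) =
      (fun z => if z = v then (1:ℝ) else 0) x := by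
    intro x hx
    have e1 : GN N x v = kp N 0 x v + ∑' n, kp N (n + 1) x v := (GN_summable N x v).tsum_eq_zero_add
    have h0 : kp N 0 x v = if x = v then 1 else 0 := by simp [kp, hx]
    have e2 : ∑' n, kp N (n + 1) x v = av (fun y => GN N y v) x := by
      simp only [kp_on N _ v hx]
      unfold av GN
      have s1 := GN_summable N (nE x) v
      have s2 := GN_summable N (nW x) v
      have s3 := GN_summable N (nN x) v
      have s4 := GN_summable N (nS x) v
      rw [tsum_div_const, ((s1.add s2).add s3).tsum_add s4, (s1.add s2).tsum_add s3, s1.tsum_add s2]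
    have e3 : av (fun y => GN N y v / 4) x = av (fun y => GN N y v) x / 4 := by
      unfold av; ring
    rw [e3, ← e2]
    show 4 * (GN N x v / 4 - (∑' n, kp N (n + 1) x v) / 4) = if x = v then 1 else 0
    rw [e1, h0]
    ring
  have h3 := sol_unique (D := iN N) (β := fun _ => 0) (ρ := fun z => if z = v then (1:ℝ) else 0)
    (f := fun x => GN N x v / 4) h1 h2
  have h4 := congrFun h3 u
  unfold gr
  rw [← h4]
  ring

end GF
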