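import Pool.Agent.Lib.MP_acf58e_gf.Func
import Pool.Agent.Lib.MP_acf58e_gf.G3
import Pool.Agent.Lib.MP_acf58e_gf.EG

open MeasureTheory Set Filter Topology ProbabilityTheory
open scoped ENNReal

namespace GF

private theorem Elaw_bd {N : ℕ} {x : V} (hx : x ∈ bd (iN N)) : x ∈ VN N := by
  rw [mem_bd_iff] at hx
  obtain ⟨-, h⟩ := hx
  have key : ∀ y : V, y ∈ iN N → nn y x → x ∈ VN N := by
    intro y hy hyx
    unfold iN at hy
    rw [Finset.mem_sdiff] at hy
    by_contra hxV
    apply hy.2
    unfold bN
    classical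
    simp only [Finset.mem_filter]
    exact ⟨hy.1, x, hyx, hxV⟩
  rcases h with h | h | h | h
  · exact key _ h (by simp [nn, nE])
  · exact key _ h (by simp [nn, nW])
  · exact key _ h (by simp [nn, nN])
  · exact key _ h (by simp [nn, nS])

private theorem Elaw_sub (N : ℕ) : iN N ⊆ VN N := Finset.sdiff_subset

private theorem Elaw_hx (N : ℕ) (lam : ℝ) {x : V} (hxV : x ∈ VN N) :
    hx (iN N) (fun v => if v ∈ VN N then lam else -1) x = lam := by
  by_cases h : x ∈ iN N
  · rw [hx_congr_bd (γ := fun _ => lam) (fun y hy => if_pos (Elaw_bd hy)) x h, hx_const]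
  · rw [hx_off h, if_pos hxV]

private theorem Elaw_vr (N : ℕ) (c : V → ℝ) :
    ∑ u ∈ VN N, ∑ v ∈ VN N, c u * c v * (GN N u v / 4) = vr (iN N) (VN N) c := by
  unfold vr
  apply Finset.sum_congr rfl
  intro u _
  apply Finset.sum_congr rfl
  intro v _
  rw [GN_eq]
  ring

private theorem Elaw_L (S : Finset V) (L : StrongDual ℝ (S → ℝ)) :
    ∃ c : V → ℝ, ∀ X : V → ℝ, L (fun v : S => X v) = ∑ v ∈ S, c v * X v := by
  classical
  refine ⟨fun v => if hv : v ∈ S then L (fun j => if (⟨v, hv⟩ : S) = j then 1 else 0) else 0,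
    fun X => ?_⟩
  have h1 := LinearMap.pi_apply_eq_sum_univ (L : (S → ℝ) →ₗ[ℝ] ℝ) (fun v : S => X v)
  have h2 : L (fun v : S => X v) = ∑ i : S, X i * L (fun j => if i = j then 1 else 0) := by
    simpa [smul_eq_mul] using h1
  rw [h2, ← Finset.sum_coe_sort S]
  apply Finset.sum_congr rfl
  intro i _
  simp only [dif_pos i.2]
  rw [mul_comm]

/-- the law of the level field -/
theorem law_field {N : ℕ} (hN : 1 ≤ N) {Ω : Type*} [MeasurableSpace Ω] {P : Measure Ω} [IsProbabilityMeasure P]
    {η : V → Ω → ℝ} (h : IsDGFF N P η) (lam : ℝ) (F : Set (V → ℝ)) (hF : MeasurableSet F) :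
    gam (iN N) (fun v => if v ∈ VN N then lam else -1) F =
      P {ω | (fun v => if v ∈ VN N then lam - η v ω else -1) ∈ F} := by
  set β : V → ℝ := fun v => if v ∈ VN N then lam else -1 with hβ
  set μ := gam (iN N) β with hμ
  let T : Ω → V → ℝ := fun ω v => if v ∈ VN N then lam - η v ω else -1
  have hT : Measurable T := by
    rw [measurable_pi_iff]
    intro v
    by_cases hv : v ∈ VN N
    · simp only [T, if_pos hv]
      exact measurable_const.sub (h.1 v hv)
    · simp only [T, if_neg hv]
      exact measurable_const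
  let ρ : (V → ℝ) → (VN N → ℝ) := fun X v => X v
  have hρ : Measurable ρ := measurable_pi_iff.2 fun v => measurable_pi_apply _
  let g : (VN N → ℝ) → V → ℝ := fun y v => if hv : v ∈ VN N then y ⟨v, hv⟩ else -1
  have hg : Measurable g := by
    rw [measurable_pi_iff]
    intro v
    by_cases hv : v ∈ VN N
    · simp only [g, dif_pos hv]
      exact measurable_pi_apply _
    · simp only [g, dif_neg hv]
      exact measurable_const
  have hν : IsProbabilityMeasure (P.map T) := Measure.isProbabilityMeasure_map hT.aemeasurable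
  -- restrictions
  have hres : μ.map ρ = (P.map T).map ρ := by
    have : IsProbabilityMeasure (μ.map ρ) := Measure.isProbabilityMeasure_map hρ.aemeasurable
    have : IsProbabilityMeasure ((P.map T).map ρ) :=
      Measure.isProbabilityMeasure_map hρ.aemeasurable
    apply Measure.ext_of_charFunDual
    funext L
    rw [charFunDual_eq_charFun_map_one, charFunDual_eq_charFun_map_one]
    congr 1
    have hLm : Measurable (L : (VN N → ℝ) → ℝ) := L.continuous.measurable
    obtain ⟨c, hc⟩ := Elaw_L (VN N) L
    rw [Measure.map_map hLm hρ, Measure.map_map hLm hρ, Measure.map_map (hLm.comp hρ) hT]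
    set σ : ℝ := lam * ∑ v ∈ VN N, c v with hσ
    have e1 : (L ∘ ρ) = (fun x => x + σ) ∘ lin (iN N) β (VN N) c := by
      funext X
      change L (fun v : VN N => X v) = lin (iN N) β (VN N) c X + σ
      rw [hc X, hσ, Finset.mul_sum]
      unfold lin
      rw [← Finset.sum_add_distrib]
      apply Finset.sum_congr rfl
      intro v hv
      rw [hβ, Elaw_hx N lam hv]
      ring
    have e2 : (L ∘ ρ) ∘ T = (fun x => x + σ) ∘ fun ω => ∑ v ∈ VN N, (- c v) * η v ω := by
      funext ω
      change L (fun v : VN N => T ω v) = ∑ v ∈ VN N, (- c v) * η v ω + σ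
      rw [hc (T ω), hσ, Finset.mul_sum, ← Finset.sum_add_distrib]
      apply Finset.sum_congr rfl
      intro v hv
      simp only [T, if_pos hv]
      ring
    have hm1 : Measurable (fun x : ℝ => x + σ) := measurable_id.add_const σ
    have hm2 : Measurable (fun ω => ∑ v ∈ VN N, (- c v) * η v ω) :=
      Finset.measurable_fun_sum _ fun v hv => (h.1 v hv).const_mul _
    rw [e2, e1, ← Measure.map_map hm1 (measurable_lin _ _ _ _), ← Measure.map_map hm1 hm2,
      law_lin, h.2 (fun v => - c v)]
    congr 3
    rw [← Elaw_vr]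
    apply Finset.sum_congr rfl
    intro u _
    apply Finset.sum_congr rfl
    intro v _
    ring
  -- both laws are the image of their restriction
  have g1 : (μ.map ρ).map g = μ := by
    rw [Measure.map_map hg hρ]
    have hae : (g ∘ ρ) =ᵐ[μ] id := by
      filter_upwards [gam_ae_off (iN N) β] with X hX
      funext v
      change (if hv : v ∈ VN N then X v else -1) = X v
      by_cases hv : v ∈ VN N
      · rw [dif_pos hv]
      · rw [dif_neg hv, hX v (fun h' => hv (Elaw_sub N h')), hβ]
        simp only [if_neg hv]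
    rw [Measure.map_congr hae, Measure.map_id]
  have g2 : ((P.map T).map ρ).map g = P.map T := by
    rw [Measure.map_map hρ hT, Measure.map_map hg (hρ.comp hT)]
    congr 1
    funext ω v
    change (if hv : v ∈ VN N then T ω v else -1) = T ω v
    by_cases hv : v ∈ VN N
    · rw [dif_pos hv]
    · rw [dif_neg hv]
      simp only [T, if_neg hv]
  rw [← g1, hres, g2, Measure.map_apply hT hF]
  rfl

/-- existence of the field -/
theorem exists_DGFF (N : ℕ) : ∃ (P : Measure (V → ℝ)) (_ : IsProbabilityMeasure P), IsDGFF N P (fun v X => X v) := by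
  refine ⟨gam (iN N) (fun _ => 0), gam_prob _ _, fun v _ => measurable_pi_apply v, fun c => ?_⟩
  have h1 : (fun X : V → ℝ => ∑ v ∈ VN N, c v * X v) = lin (iN N) (fun _ => 0) (VN N) c := by
    funext X
    unfold lin
    apply Finset.sum_congr rfl
    intro x _
    rw [hx_const, sub_zero]
  rw [Elaw_vr, ← law_lin, h1]

end GF
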