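import Pool.Agent.Lib.MP_acf58e_gf.Func
import Pool.Agent.Lib.MP_acf58e_gf.E3
import Pool.Agent.Lib.MP_acf58e_gf.E1
import Pool.Agent.Lib.MP_acf58e_gf.Elaw
import Pool.Agent.Lib.MP_acf58e_gf.EDX

open MeasureTheory Set Filter Topology ProbabilityTheory
open scoped ENNReal

namespace GF

/-- the level field as a function of the Gaussian process -/
noncomputable def fieldOf (N : ℕ) (lam : ℝ) {Ω : Type*} (η : V → Ω → ℝ) (ω : Ω) : V → ℝ :=
  fun v => if v ∈ VN N then lam - η v ω else -1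

theorem measurable_fieldOf (N : ℕ) (lam : ℝ) {Ω : Type*} [MeasurableSpace Ω] (η : V → Ω → ℝ)
    (h : ∀ v ∈ VN N, Measurable (η v)) : Measurable (fieldOf N lam η) := by
  refine measurable_pi_lambda _ fun v => ?_
  by_cases hv : v ∈ VN N
  · simpa [fieldOf, hv] using (h v hv).const_sub lam
  · simp [fieldOf, hv]

theorem DX_fieldOf (N : ℕ) (α β lam : ℝ) {Ω : Type*} (η : V → Ω → ℝ) (ω : Ω) :
    DX N α β (fieldOf N lam η ω) = DN N α β lam η ω := by
  have hs : lev (fieldOf N lam η ω) 0 ∩ (VN N : Set V) = opn N lam η ω := by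
    ext v
    simp only [lev, opn, fieldOf, Set.mem_inter_iff, Set.mem_setOf_eq, Finset.mem_coe]
    constructor
    · rintro ⟨h1, h2⟩
      rw [if_pos h2] at h1
      exact ⟨h2, by linarith⟩
    · rintro ⟨h1, h2⟩
      rw [if_pos h1]
      exact ⟨by linarith, h1⟩
  unfold DX DN
  rw [hs]

theorem meas_DX_lt_top (N : ℕ) (α β : ℝ) : MeasurableSet {X : V → ℝ | DX N α β X < ⊤} := by
  have : {X : V → ℝ | DX N α β X < ⊤} = ⋃ n : ℕ, {X : V → ℝ | DX N α β X ≤ (n : ℕ∞)} := by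
    ext X
    simp only [Set.mem_setOf_eq, Set.mem_iUnion]
    constructor
    · intro h
      obtain ⟨n, hn⟩ := ENat.ne_top_iff_exists.1 h.ne
      exact ⟨n, by rw [← hn]⟩
    · rintro ⟨n, hn⟩
      exact lt_of_le_of_lt hn (ENat.coe_lt_top n)
  rw [this]
  exact MeasurableSet.iUnion fun n => meas_DX N α β n

theorem meas_DX_le (N : ℕ) (α β : ℝ) (r : ℝ) :
    MeasurableSet {X : V → ℝ | ((DX N α β X : ℕ∞) : ℝ≥0∞) ≤ ENNReal.ofReal r} := by
  have : {X : V → ℝ | ((DX N α β X : ℕ∞) : ℝ≥0∞) ≤ ENNReal.ofReal r} =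
      ⋃ n : ℕ, ⋃ (_ : ((n : ℕ∞) : ℝ≥0∞) ≤ ENNReal.ofReal r), {X : V → ℝ | DX N α β X ≤ (n : ℕ∞)} := by
    ext X
    simp only [Set.mem_setOf_eq, Set.mem_iUnion, exists_prop]
    constructor
    · intro h
      have hne : DX N α β X ≠ ⊤ := by
        intro ht
        rw [ht] at h
        simp at h
      obtain ⟨n, hn⟩ := ENat.ne_top_iff_exists.1 hne
      exact ⟨n, by rw [← hn] at h; exact h, by rw [← hn]⟩
    · rintro ⟨n, hn, hle⟩
      exact le_trans (by exact_mod_cast hle) hn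
  rw [this]
  exact MeasurableSet.iUnion fun n => MeasurableSet.iUnion fun _ => meas_DX N α β n

/-- MAIN THEOREM (Q1 of MP_acf58e_pr). -/
theorem main {w0 : ℝ} (h0 : 0 < w0) (hJ : JProp w0) (hR : RCProp) (α β lam ε : ℝ) (hα : 0 < α) (hαβ : α < β)
    (hβ : β < 1) (hε : 0 < ε) (Ω : ℕ → Type) [∀ N, MeasurableSpace (Ω N)] (P : ∀ N, Measure (Ω N))
    [∀ N, IsProbabilityMeasure (P N)] (η : ∀ N, V → Ω N → ℝ) (h : ∀ N, 1 ≤ N → IsDGFF N (P N) (η N)) :
    (∀ᶠ N in atTop, 0 < P N {ω | DN N α β lam (η N) ω < ⊤}) ∧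
    Tendsto (fun N : ℕ => (P N)[{ω | ((DN N α β lam (η N) ω : ℕ∞) : ℝ≥0∞) ≤ ENNReal.ofReal ((N : ℝ) ^ (1 + ε))} |
      {ω | DN N α β lam (η N) ω < ⊤}]) atTop (𝓝 1) := by
  obtain ⟨c, N0, hc, hE1⟩ := E1 hR α β lam hα hαβ hβ
  have hE3 := E3 h0 hJ hR α β lam hα hαβ hβ ε hε
  -- the two events
  set A : ℕ → Set (V → ℝ) := fun N => {X | DX N α β X < ⊤} with hA
  set T : ℕ → Set (V → ℝ) := fun N =>
    {X | ENNReal.ofReal ((N : ℝ) ^ (1 + ε)) < ((DX N α β X : ℕ∞) : ℝ≥0∞) ∧ DX N α β X < ⊤} with hT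
  set μ : ℕ → Measure (V → ℝ) := fun N => gam (iN N) (fun v => if v ∈ VN N then lam else -1) with hμ
  have mA : ∀ N, MeasurableSet (A N) := fun N => meas_DX_lt_top N α β
  have mT : ∀ N, MeasurableSet (T N) := by
    intro N
    have : T N = {X : V → ℝ | ((DX N α β X : ℕ∞) : ℝ≥0∞) ≤ ENNReal.ofReal ((N : ℝ) ^ (1 + ε))}ᶜ ∩ A N := by
      ext X
      simp [hT, hA, not_le]
    rw [this]
    exact (meas_DX_le N α β _).compl.inter (mA N)
  have mf : ∀ N, 1 ≤ N → Measurable (fieldOf N lam (η N)) := fun N hN =>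
    measurable_fieldOf N lam (η N) (h N hN).1
  have law : ∀ N, 1 ≤ N → ∀ F, MeasurableSet F → μ N F = P N (fieldOf N lam (η N) ⁻¹' F) := by
    intro N hN F hF
    exact law_field hN (h N hN) lam F hF
  have preA : ∀ N, fieldOf N lam (η N) ⁻¹' (A N) = {ω | DN N α β lam (η N) ω < ⊤} := by
    intro N
    ext ω
    simp only [hA, Set.mem_preimage, Set.mem_setOf_eq, DX_fieldOf]
  have preT : ∀ N, fieldOf N lam (η N) ⁻¹' (T N) =
      {ω | ENNReal.ofReal ((N : ℝ) ^ (1 + ε)) < ((DN N α β lam (η N) ω : ℕ∞) : ℝ≥0∞) ∧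
        DN N α β lam (η N) ω < ⊤} := by
    intro N
    ext ω
    simp only [hT, Set.mem_preimage, Set.mem_setOf_eq, DX_fieldOf]
  have hlow : ∀ N, max N0 1 ≤ N → c ≤ P N {ω | DN N α β lam (η N) ω < ⊤} := by
    intro N hN
    rw [← preA N, ← law N (le_trans (le_max_right _ _) hN) (A N) (mA N)]
    exact hE1 N (le_trans (le_max_left _ _) hN)
  refine ⟨?_, ?_⟩
  · filter_upwards [eventually_ge_atTop (max N0 1)] with N hN
    exact lt_of_lt_of_le hc (hlow N hN)
  · -- squeeze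
    have hcc : c ≠ 0 := hc.ne'
    have hcfin : c ≠ ⊤ := by
      have := hlow (max N0 1) le_rfl
      exact ne_top_of_le_ne_top (measure_ne_top _ _) this
    have hlim : Tendsto (fun N : ℕ => 1 - μ N (T N) / c) atTop (𝓝 1) := by
      have h1 : Tendsto (fun N : ℕ => μ N (T N) / c) atTop (𝓝 (0 / c)) :=
        ENNReal.Tendsto.div_const hE3 (Or.inr hcc)
      have h2 : Tendsto (fun N : ℕ => (1 : ℝ≥0∞) - μ N (T N) / c) atTop (𝓝 (1 - 0 / c)) :=
        ENNReal.Tendsto.sub tendsto_const_nhds h1 (Or.inl ENNReal.one_ne_top)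
      simpa using h2
    refine tendsto_of_tendsto_of_tendsto_of_le_of_le' hlim tendsto_const_nhds ?_ ?_
    · filter_upwards [eventually_ge_atTop (max N0 1)] with N hN
      have hN1 : 1 ≤ N := le_trans (le_max_right _ _) hN
      have mB : MeasurableSet {ω | DN N α β lam (η N) ω < ⊤} := by
        rw [← preA N]
        exact mf N hN1 (mA N)
      have mTT : MeasurableSet {ω | ENNReal.ofReal ((N : ℝ) ^ (1 + ε)) <
          ((DN N α β lam (η N) ω : ℕ∞) : ℝ≥0∞) ∧ DN N α β lam (η N) ω < ⊤} := by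
        rw [← preT N]
        exact mf N hN1 (mT N)
      have hb := hlow N hN
      rw [cond_apply mB]
      set B := {ω | DN N α β lam (η N) ω < ⊤} with hB
      set TT := {ω | ENNReal.ofReal ((N : ℝ) ^ (1 + ε)) <
          ((DN N α β lam (η N) ω : ℕ∞) : ℝ≥0∞) ∧ DN N α β lam (η N) ω < ⊤} with hTT
      have hB0 : P N B ≠ 0 := (lt_of_lt_of_le hc hb).ne'
      have hBt : P N B ≠ ⊤ := measure_ne_top _ _
      have hset : B ∩ {ω | ((DN N α β lam (η N) ω : ℕ∞) : ℝ≥0∞) ≤ ENNReal.ofReal ((N : ℝ) ^ (1 + ε))}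
          = B \ TT := by
        ext ω
        simp only [hB, hTT, Set.mem_inter_iff, Set.mem_setOf_eq, Set.mem_diff, not_and, not_lt]
        constructor
        · rintro ⟨h1, h2⟩
          exact ⟨h1, fun h3 => absurd h3 (not_lt.2 h2)⟩
        · rintro ⟨h1, h2⟩
          refine ⟨h1, ?_⟩
          by_contra h3
          exact absurd (h2 (not_le.1 h3)) (not_le.2 h1)
      have hsub : TT ⊆ B := fun ω hω => hω.2
      have hμT : μ N (T N) = P N TT := by
        rw [law N hN1 (T N) (mT N), preT N]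
      rw [hset, measure_diff hsub mTT.nullMeasurableSet (measure_ne_top _ _), hμT]
      calc 1 - P N TT / c ≤ 1 - P N TT / P N B := by
            exact tsub_le_tsub_left (ENNReal.div_le_div_left hb _) _
        _ = (P N B)⁻¹ * P N B - (P N B)⁻¹ * P N TT := by
            rw [ENNReal.inv_mul_cancel hB0 hBt, ENNReal.div_eq_inv_mul]
        _ = (P N B)⁻¹ * (P N B - P N TT) := by
            rw [ENNReal.mul_sub]
            intro _ _
            exact ENNReal.inv_ne_top.2 hB0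
    · exact Eventually.of_forall fun N => prob_le_one

end GF
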