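import Mathlib

/-!
MP_acf58e_pr, module F, row FA: the four functions inequality on the line.

Proof. For real numbers x, y put a = f1 x * f2 y, b = f1 y * f2 x, c = f3 (min x y) * f4 (max x y), d = f3 (max x y) * f4 (min x y).
Then a <= c, b <= c (hypothesis for (x,y) and (y,x)) and a * b = (f1 x * f2 x) * (f1 y * f2 y) <= (f3 x * f4 x) * (f3 y * f4 y) = c * d
(hypothesis for (x,x) and (y,y)). Hence a + b <= c + d (`four_num`: trivial if c = 0 (then a = b = 0) or c = top or d = top; otherwise all are finite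
real numbers and (c - a) (c - b) >= 0 gives c (a + b) <= c^2 + a b <= c^2 + c d). And c + d = f3 x * f4 y + f3 y * f4 x whichever of x, y is larger
(`four_pt`). Integrate over (x,y) with respect to the product measure mu x mu (`lintegral_prod_mul` / `lintegral_lintegral_mul` or two applications of
`lintegral_const_mul`, `lintegral_mul_const`): both sides are doubled: 2 (∫f1)(∫f2) <= 2 (∫f3)(∫f4).
-/

set_option autoImplicit false

open MeasureTheory Set
open scoped ENNReal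

namespace GF

theorem four_num {a b c d : ℝ≥0∞} (ha : a ≤ c) (hb : b ≤ c) (hab : a * b ≤ c * d) :
    a + b ≤ c + d := by
  rcases eq_or_ne c ⊤ with rfl | hc
  · simp
  rcases eq_or_ne d ⊤ with rfl | hd
  · simp
  rcases eq_or_ne c 0 with rfl | hc0
  · rw [nonpos_iff_eq_zero] at ha hb
    simp [ha, hb]
  lift c to NNReal using hc
  lift d to NNReal using hd
  lift a to NNReal using ne_top_of_le_ne_top ENNReal.coe_ne_top ha
  lift b to NNReal using ne_top_of_le_ne_top ENNReal.coe_ne_top hb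
  rw [ENNReal.coe_le_coe] at ha hb
  rw [← ENNReal.coe_mul, ← ENNReal.coe_mul, ENNReal.coe_le_coe] at hab
  rw [← ENNReal.coe_add, ← ENNReal.coe_add, ENNReal.coe_le_coe]
  have hc0' : c ≠ 0 := fun e => hc0 (by rw [e]; rfl)
  have hcpos : (0 : ℝ) < c := by
    have := pos_iff_ne_zero.2 hc0'
    exact_mod_cast this
  have h1 : (a : ℝ) ≤ c := by exact_mod_cast ha
  have h2 : (b : ℝ) ≤ c := by exact_mod_cast hb
  have h3 : (a : ℝ) * b ≤ c * d := by exact_mod_cast hab
  have h4 : (a : ℝ) + b ≤ c + d := by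
    have h5 : (c : ℝ) * (a + b) ≤ c * (c + d) := by
      nlinarith [mul_nonneg (sub_nonneg.2 h1) (sub_nonneg.2 h2)]
    exact le_of_mul_le_mul_left h5 hcpos
  exact_mod_cast h4

theorem four_pt {f1 f2 f3 f4 : ℝ → ℝ≥0∞}
    (h : ∀ s t, f1 s * f2 t ≤ f3 (min s t) * f4 (max s t)) (x y : ℝ) :
    f1 x * f2 y + f1 y * f2 x ≤ f3 x * f4 y + f3 y * f4 x := by
  have hx := h x x
  have hy := h y y
  rw [min_self, max_self] at hx hy
  have hab : f1 x * f2 y * (f1 y * f2 x) ≤ f3 x * f4 y * (f3 y * f4 x) := by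
    calc f1 x * f2 y * (f1 y * f2 x) = f1 x * f2 x * (f1 y * f2 y) := by ring
      _ ≤ f3 x * f4 x * (f3 y * f4 y) := mul_le_mul' hx hy
      _ = _ := by ring
  rcases le_total x y with hxy | hxy
  · have h1 := h x y
    have h2 := h y x
    rw [min_eq_left hxy, max_eq_right hxy] at h1
    rw [min_eq_right hxy, max_eq_left hxy] at h2
    exact four_num h1 h2 hab
  · have h1 := h x y
    have h2 := h y x
    rw [min_eq_right hxy, max_eq_left hxy] at h1
    rw [min_eq_left hxy, max_eq_right hxy] at h2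
    rw [add_comm (f3 x * f4 y)]
    exact four_num h1 h2 (hab.trans (le_of_eq (mul_comm _ _)))

theorem four_one (μ : Measure ℝ) [SFinite μ] {f1 f2 f3 f4 : ℝ → ℝ≥0∞} (h1 : Measurable f1)
    (h2 : Measurable f2) (h3 : Measurable f3) (h4 : Measurable f4)
    (h : ∀ s t, f1 s * f2 t ≤ f3 (min s t) * f4 (max s t)) :
    (∫⁻ s, f1 s ∂μ) * (∫⁻ s, f2 s ∂μ) ≤ (∫⁻ s, f3 s ∂μ) * ∫⁻ s, f4 s ∂μ := by
  have key : ∀ {g g' : ℝ → ℝ≥0∞}, Measurable g → Measurable g' →
      ∫⁻ z : ℝ × ℝ, (g z.1 * g' z.2 + g z.2 * g' z.1) ∂(μ.prod μ) =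
        2 * ((∫⁻ s, g s ∂μ) * ∫⁻ s, g' s ∂μ) := by
    intro g g' hg hg'
    have e1 := lintegral_prod_mul (μ := μ) (ν := μ) hg.aemeasurable hg'.aemeasurable
    have e2 := lintegral_prod_mul (μ := μ) (ν := μ) hg'.aemeasurable hg.aemeasurable
    have m1 : Measurable fun z : ℝ × ℝ => g z.1 * g' z.2 :=
      (hg.comp measurable_fst).mul (hg'.comp measurable_snd)
    rw [lintegral_add_left m1, e1]
    have e3 : ∫⁻ z : ℝ × ℝ, g z.2 * g' z.1 ∂(μ.prod μ) =
        ∫⁻ z : ℝ × ℝ, g' z.1 * g z.2 ∂(μ.prod μ) := lintegral_congr fun z => mul_comm _ _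
    rw [e3, e2, mul_comm (∫⁻ s, g' s ∂μ), two_mul]
  have h5 : 2 * ((∫⁻ s, f1 s ∂μ) * ∫⁻ s, f2 s ∂μ) ≤ 2 * ((∫⁻ s, f3 s ∂μ) * ∫⁻ s, f4 s ∂μ) := by
    rw [← key h1 h2, ← key h3 h4]
    exact lintegral_mono fun z => four_pt h z.1 z.2
  exact (ENNReal.mul_le_mul_iff_right two_ne_zero ENNReal.ofNat_ne_top).1 h5

end GF
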