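import Pool.Agent.Lib.MP_acf58e_gf.Defs
import Pool.Agent.Lib.MP_acf58e_gf.FA

/-!
MP_acf58e_pr, module F, row FB: the four functions theorem for marginals with respect to Lebesgue measure.
-/

set_option autoImplicit false

open MeasureTheory Set
open scoped ENNReal

namespace GF

/-- marginal with respect to Lebesgue measure in the coordinates of `s` -/
noncomputable def mg (s : Finset V) (f : (V → ℝ) → ℝ≥0∞) : (V → ℝ) → ℝ≥0∞ :=
  lmarginal (fun _ : V => (volume : Measure ℝ)) s f

theorem update_inf_aux (x y : V → ℝ) (a : V) (s t : ℝ) :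
    Function.update x a s ⊓ Function.update y a t = Function.update (x ⊓ y) a (min s t) := by
  funext v
  by_cases h : v = a
  · subst h; simp
  · simp [h]

theorem update_sup_aux (x y : V → ℝ) (a : V) (s t : ℝ) :
    Function.update x a s ⊔ Function.update y a t = Function.update (x ⊔ y) a (max s t) := by
  funext v
  by_cases h : v = a
  · subst h; simp
  · simp [h]

theorem four_marg {f1 f2 f3 f4 : (V → ℝ) → ℝ≥0∞} (h1 : Measurable f1) (h2 : Measurable f2)
    (h3 : Measurable f3) (h4 : Measurable f4)
    (h : ∀ x y, f1 x * f2 y ≤ f3 (x ⊓ y) * f4 (x ⊔ y)) (s : Finset V) (x y : V → ℝ) :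
    mg s f1 x * mg s f2 y ≤ mg s f3 (x ⊓ y) * mg s f4 (x ⊔ y) := by
  induction s using Finset.induction_on generalizing x y with
  | empty =>
    unfold mg
    rw [lmarginal_empty, lmarginal_empty, lmarginal_empty, lmarginal_empty]
    exact h x y
  | insert a s ha ih =>
    unfold mg
    rw [lmarginal_insert f1 h1 ha, lmarginal_insert f2 h2 ha, lmarginal_insert f3 h3 ha,
      lmarginal_insert f4 h4 ha]
    refine four_one volume (h1.lmarginal _ |>.comp (measurable_update x))
      (h2.lmarginal _ |>.comp (measurable_update y))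
      (h3.lmarginal _ |>.comp (measurable_update (x ⊓ y)))
      (h4.lmarginal _ |>.comp (measurable_update (x ⊔ y))) ?_
    intro u v
    have := ih (Function.update x a u) (Function.update y a v)
    rw [update_inf_aux, update_sup_aux] at this
    exact this

/-- the marginal depends only on the coordinates off `s` -/
theorem mg_congr (s : Finset V) (f : (V → ℝ) → ℝ≥0∞) {x y : V → ℝ} (h : ∀ v, v ∉ s → x v = y v) :
    mg s f x = mg s f y :=
  lmarginal_congr (fun _ : V => (volume : Measure ℝ)) f h

theorem measurable_mg (s : Finset V) {f : (V → ℝ) → ℝ≥0∞} (hf : Measurable f) :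
    Measurable (mg s f) :=
  hf.lmarginal _

/-- iterated marginals (E ⊆ D) -/
theorem mg_sdiff {D E : Finset V} (hE : E ⊆ D) {f : (V → ℝ) → ℝ≥0∞} (hf : Measurable f) :
    mg D f = mg (D \ E) (mg E f) := by
  unfold mg
  conv_lhs => rw [← Finset.sdiff_union_of_subset hE]
  exact lmarginal_union _ f hf Finset.sdiff_disjoint

theorem updateFinset_off (s : Finset V) (x : V → ℝ) (y : s → ℝ) {v : V} (hv : v ∉ s) :
    Function.updateFinset x s y v = x v := by
  simp [Function.updateFinset, hv]

/-- factors which do not depend on the coordinates of `s` -/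
theorem mg_mul_left (s : Finset V) {f g : (V → ℝ) → ℝ≥0∞} (hg : Measurable g)
    (hf : ∀ x y : V → ℝ, (∀ v, v ∉ s → x v = y v) → f x = f y) (x : V → ℝ) :
    mg s (fun X => f X * g X) x = f x * mg s g x := by
  unfold mg lmarginal
  have h : ∀ y : s → ℝ, f (Function.updateFinset x s y) = f x := fun y =>
    hf _ _ fun v hv => updateFinset_off s x y hv
  simp_rw [h]
  rw [lintegral_const_mul]
  exact hg.comp measurable_updateFinset

/-- monotonicity, pointwise on the configurations equal to `x` off `s` -/
theorem mg_mono (s : Finset V) {f g : (V → ℝ) → ℝ≥0∞} {x : V → ℝ}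
    (h : ∀ X : V → ℝ, (∀ v, v ∉ s → X v = x v) → f X ≤ g X) : mg s f x ≤ mg s g x := by
  unfold mg lmarginal
  exact lintegral_mono fun y => h _ fun v hv => updateFinset_off s x y hv

end GF
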