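import Pool.Agent.Lib.MP_acf58e_gf.Defs

/-!
MP_acf58e_pr, module F, row FC: the weight `wt D` is log-supermodular.
-/

set_option autoImplicit false

open MeasureTheory Set
open scoped ENNReal

namespace GF

theorem sq_inf_sup (a b c d : ℝ) :
    (min a b - min c d) ^ 2 + (max a b - max c d) ^ 2 ≤ (a - c) ^ 2 + (b - d) ^ 2 := by
  rcases le_total a b with h1 | h1 <;> rcases le_total c d with h2 | h2
  · rw [min_eq_left h1, max_eq_right h1, min_eq_left h2, max_eq_right h2]
  · rw [min_eq_left h1, max_eq_right h1, min_eq_right h2, max_eq_left h2]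
    nlinarith [mul_nonneg (sub_nonneg.2 h1) (sub_nonneg.2 h2)]
  · rw [min_eq_right h1, max_eq_left h1, min_eq_left h2, max_eq_right h2]
    nlinarith [mul_nonneg (sub_nonneg.2 h1) (sub_nonneg.2 h2)]
  · rw [min_eq_right h1, max_eq_left h1, min_eq_right h2, max_eq_left h2]
    linarith

theorem sum_inf_sup (s : Finset V) (φ : V → V) (X Y : V → ℝ) :
    ∑ x ∈ s, ((X ⊓ Y) (φ x) - (X ⊓ Y) x) ^ 2 + ∑ x ∈ s, ((X ⊔ Y) (φ x) - (X ⊔ Y) x) ^ 2
      ≤ ∑ x ∈ s, (X (φ x) - X x) ^ 2 + ∑ x ∈ s, (Y (φ x) - Y x) ^ 2 := by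
  rw [← Finset.sum_add_distrib, ← Finset.sum_add_distrib]
  refine Finset.sum_le_sum fun x _ => ?_
  exact sq_inf_sup _ _ _ _

theorem energy_inf_sup (D : Finset V) (X Y : V → ℝ) :
    energy D (X ⊓ Y) + energy D (X ⊔ Y) ≤ energy D X + energy D Y := by
  have h1 := sum_inf_sup (eH D) nE X Y
  have h2 := sum_inf_sup (eV D) nN X Y
  unfold energy
  linarith

theorem wt_mul (D : Finset V) (X Y : V → ℝ) :
    wt D X * wt D Y = ENNReal.ofReal (Real.exp (-(energy D X + energy D Y))) := by
  unfold wt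
  rw [← ENNReal.ofReal_mul (Real.exp_pos _).le, ← Real.exp_add]
  congr 2
  ring

theorem wt_inf_sup (D : Finset V) (X Y : V → ℝ) : wt D X * wt D Y ≤ wt D (X ⊓ Y) * wt D (X ⊔ Y) := by
  rw [wt_mul, wt_mul]
  refine ENNReal.ofReal_le_ofReal (Real.exp_le_exp.2 ?_)
  have := energy_inf_sup D X Y
  linarith

theorem meas_sum (s : Finset V) (φ : V → V) :
    Measurable fun X : V → ℝ => ∑ x ∈ s, (X (φ x) - X x) ^ 2 :=
  Finset.measurable_sum _ fun x _ =>
    ((measurable_pi_apply (φ x)).sub (measurable_pi_apply x)).pow_const 2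

theorem meas_energy (D : Finset V) : Measurable (energy D) := by
  unfold energy
  exact ((meas_sum (eH D) nE).add (meas_sum (eV D) nN)).div_const 2

theorem meas_wt (D : Finset V) : Measurable (wt D) := by
  unfold wt
  exact ENNReal.measurable_ofReal.comp (Real.measurable_exp.comp (meas_energy D).neg)

/-- the part of the energy on the edges touching `D` and not touching `E` -/
noncomputable def erest (D E : Finset V) (X : V → ℝ) : ℝ :=
  (∑ x ∈ eH D \ eH E, (X (nE x) - X x) ^ 2 + ∑ x ∈ eV D \ eV E, (X (nN x) - X x) ^ 2) / 2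

theorem eH_mono {D E : Finset V} (h : E ⊆ D) : eH E ⊆ eH D :=
  Finset.union_subset_union h (Finset.image_subset_image h)

theorem eV_mono {D E : Finset V} (h : E ⊆ D) : eV E ⊆ eV D :=
  Finset.union_subset_union h (Finset.image_subset_image h)

theorem energy_split {D E : Finset V} (h : E ⊆ D) (X : V → ℝ) :
    energy D X = energy E X + erest D E X := by
  unfold energy erest
  rw [← Finset.sum_sdiff (eH_mono h), ← Finset.sum_sdiff (eV_mono h)]
  ring

theorem erest_congr (D E : Finset V) {X Y : V → ℝ} (h : ∀ v, v ∉ E → X v = Y v) :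
    erest D E X = erest D E Y := by
  have h1 : ∀ x ∈ eH D \ eH E, (X (nE x) - X x) ^ 2 = (Y (nE x) - Y x) ^ 2 := by
    intro x hx
    rw [Finset.mem_sdiff] at hx
    have hx1 : x ∉ E := fun hc => hx.2 (Finset.mem_union_left _ hc)
    have hx2 : nE x ∉ E := fun hc => hx.2 (Finset.mem_union_right _
      (Finset.mem_image.2 ⟨nE x, hc, by simp [nE, nW]⟩))
    rw [h x hx1, h _ hx2]
  have h2 : ∀ x ∈ eV D \ eV E, (X (nN x) - X x) ^ 2 = (Y (nN x) - Y x) ^ 2 := by
    intro x hx
    rw [Finset.mem_sdiff] at hx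
    have hx1 : x ∉ E := fun hc => hx.2 (Finset.mem_union_left _ hc)
    have hx2 : nN x ∉ E := fun hc => hx.2 (Finset.mem_union_right _
      (Finset.mem_image.2 ⟨nN x, hc, by simp [nN, nS]⟩))
    rw [h x hx1, h _ hx2]
  unfold erest
  rw [Finset.sum_congr rfl h1, Finset.sum_congr rfl h2]

theorem meas_erest (D E : Finset V) : Measurable (erest D E) := by
  unfold erest
  exact ((meas_sum (eH D \ eH E) nE).add (meas_sum (eV D \ eV E) nN)).div_const 2

/-- the remaining weight -/
noncomputable def wrest (D E : Finset V) (X : V → ℝ) : ℝ≥0∞ :=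
  ENNReal.ofReal (Real.exp (-erest D E X))

theorem wt_split {D E : Finset V} (h : E ⊆ D) (X : V → ℝ) : wt D X = wrest D E X * wt E X := by
  unfold wt wrest
  rw [← ENNReal.ofReal_mul (Real.exp_pos _).le, ← Real.exp_add, energy_split h]
  congr 2
  ring

end GF
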