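import Pool.Agent.Lib.MP_acf58e_gf.FB
import Pool.Agent.Lib.MP_acf58e_gf.FC

/-!
MP_acf58e_pr, module F, row FD: integrals with respect to `gam D β` as marginals.

Proof. `glue D β y = Function.updateFinset β D y`, and `lmarginal μ s f x = ∫⁻ y : (i : s) → ℝ, f (updateFinset x s y) ∂Measure.pi fun i : s => μ i`
by definition; `volume` on `D → ℝ` is `Measure.pi fun _ => volume` (`volume_pi`). `pf_eq`: unfold. `lint_gam`: `lintegral_smul_measure`,
`lintegral_map` (measurability of F and of `glue D β` = `measurable_updateFinset`), `lintegral_withDensity_eq_lintegral_mul` with `meas_wt`.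
`lint_gam_set`: the same for `S.indicator F` (`lintegral_indicator`). `gam_apply`: F = 1.
-/

set_option autoImplicit false

open MeasureTheory Set
open scoped ENNReal

namespace GF

theorem meas_glue (D : Finset V) (β : V → ℝ) : Measurable (glue D β) :=
  measurable_updateFinset

theorem pf_eq (D : Finset V) (β : V → ℝ) : pf D β = mg D (wt D) β := by
  unfold pf mg lmarginal
  rw [volume_pi]
  rfl

private theorem fd_mg (D : Finset V) (β : V → ℝ) (F : (V → ℝ) → ℝ≥0∞) :
    mg D F β = ∫⁻ y : D → ℝ, F (glue D β y) := by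
  unfold mg lmarginal
  rw [volume_pi]
  rfl

theorem lint_gam (D : Finset V) (β : V → ℝ) {F : (V → ℝ) → ℝ≥0∞} (hF : Measurable F) :
    ∫⁻ X, F X ∂(gam D β) = (pf D β)⁻¹ * mg D (fun X => F X * wt D X) β := by
  have hw : Measurable (fun y : D → ℝ => wt D (glue D β y)) := (meas_wt D).comp (meas_glue D β)
  have hg : Measurable (fun y : D → ℝ => F (glue D β y)) := hF.comp (meas_glue D β)
  unfold gam
  rw [lintegral_smul_measure, lintegral_map hF (meas_glue D β),
    lintegral_withDensity_eq_lintegral_mul _ hw hg, fd_mg, smul_eq_mul]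
  congr 1
  refine lintegral_congr fun y => ?_
  simp only [Pi.mul_apply]
  rw [mul_comm]

theorem lint_gam_set (D : Finset V) (β : V → ℝ) {S : Set (V → ℝ)} (hS : MeasurableSet S)
    {F : (V → ℝ) → ℝ≥0∞} (hF : Measurable F) :
    ∫⁻ X in S, F X ∂(gam D β) =
      (pf D β)⁻¹ * mg D (fun X => S.indicator (fun X => F X * wt D X) X) β := by
  rw [← lintegral_indicator hS, lint_gam D β (hF.indicator hS)]
  congr 2
  funext X
  by_cases h : X ∈ S
  · rw [indicator_of_mem h, indicator_of_mem h]
  · rw [indicator_of_notMem h, indicator_of_notMem h, zero_mul]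

theorem gam_set (D : Finset V) (β : V → ℝ) {S : Set (V → ℝ)} (hS : MeasurableSet S) :
    gam D β S = (pf D β)⁻¹ * mg D (fun X => S.indicator (wt D) X) β := by
  have h := lint_gam_set D β hS (F := fun _ => 1) measurable_const
  rw [lintegral_one, Measure.restrict_apply_univ] at h
  rw [h]
  simp only [one_mul]

end GF
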