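import Pool.Agent.Lib.MP_acf58e_gf.FD

/-!
MP_acf58e_pr, module F, row FE: monotonicity of conditional laws (F1, F2, F3).

Proof of `cmp_main`. By `lint_gam_set` and `gam_set` both sides are (pf D β)⁻¹ * (pf D β')⁻¹ times a product of two marginals, so it is enough that
 mg D (S.indicator (F * wt D)) β * mg D (S'.indicator (wt D)) β' ≤ mg D (S.indicator (wt D)) β * mg D (S'.indicator (F * wt D)) β'.
`four_marg` with f1 = S.indicator (F * wt), f2 = S'.indicator wt, f3 = S.indicator wt, f4 = S'.indicator (F * wt) at the points β, β': hypothesis: if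
x ∈ S, y ∈ S' then x ⊓ y ∈ S, x ⊔ y ∈ S' and F x * wt x * wt y ≤ wt (x ⊓ y) * (F (x ⊔ y) * wt (x ⊔ y)) (F monotone, `wt_inf_sup`), otherwise the left side
is 0. It gives the marginals at β ⊓ β' and β ⊔ β', which agree with β, β' off D (`mg_congr`).
Proof of `assoc_main`: the same with f1 = S.indicator (F * wt), f2 = S.indicator (G * wt), f3 = S.indicator wt, f4 = S.indicator (F * G * wt),
β' = β (here F x * G y ≤ F (x ⊔ y) * G (x ⊔ y)).
-/

set_option autoImplicit false

open MeasureTheory Set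
open scoped ENNReal

namespace GF

/-- `γ'` conditioned on `S'` dominates `γ` conditioned on `S` -/
def Dom (γ : Measure (V → ℝ)) (S : Set (V → ℝ)) (γ' : Measure (V → ℝ)) (S' : Set (V → ℝ)) : Prop :=
  ∀ F : (V → ℝ) → ℝ≥0∞, Measurable F → Monotone F →
    (∫⁻ X in S, F X ∂γ) * γ' S' ≤ (∫⁻ X in S', F X ∂γ') * γ S

/-- the order of sublattices -/
def SLe (S S' : Set (V → ℝ)) : Prop := ∀ x ∈ S, ∀ y ∈ S', x ⊓ y ∈ S ∧ x ⊔ y ∈ S'

/-- cells: `X v < θ v` on `C`, `θ' v ≤ X v` on `O` -/
def cl (C O : Finset V) (θ θ' : V → ℝ) : Set (V → ℝ) :=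
  {X | (∀ v ∈ C, X v < θ v) ∧ ∀ v ∈ O, θ' v ≤ X v}

theorem meas_cl (C O : Finset V) (θ θ' : V → ℝ) : MeasurableSet (cl C O θ θ') := by
  have h : cl C O θ θ' =
      (⋂ v ∈ C, {X : V → ℝ | X v < θ v}) ∩ ⋂ v ∈ O, {X : V → ℝ | θ' v ≤ X v} := by
    ext X
    simp [cl]
  rw [h]
  refine MeasurableSet.inter ?_ ?_
  · exact Finset.measurableSet_biInter _ fun v _ =>
      measurableSet_lt (measurable_pi_apply v) measurable_const
  · exact Finset.measurableSet_biInter _ fun v _ =>
      measurableSet_le measurable_const (measurable_pi_apply v)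

/-- more open vertices, fewer closed vertices, higher thresholds -/
theorem sle_cl {C O C' O' : Finset V} {θ θ' ϑ ϑ' : V → ℝ} (hC : C' ⊆ C) (hO : O ⊆ O')
    (h1 : ∀ v ∈ C', θ v ≤ ϑ v) (h2 : ∀ v ∈ O, θ' v ≤ ϑ' v) :
    SLe (cl C O θ θ') (cl C' O' ϑ ϑ') := by
  intro x hx y hy
  refine ⟨⟨fun v hv => ?_, fun v hv => ?_⟩, ⟨fun v hv => ?_, fun v hv => ?_⟩⟩
  · exact lt_of_le_of_lt (by rw [Pi.inf_apply]; exact inf_le_left) (hx.1 v hv)
  · rw [Pi.inf_apply]
    exact le_inf (hx.2 v hv) ((h2 v hv).trans (hy.2 v (hO hv)))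
  · rw [Pi.sup_apply]
    exact sup_lt_iff.2 ⟨lt_of_lt_of_le (hx.1 v (hC hv)) (h1 v hv), hy.1 v hv⟩
  · exact (hy.2 v hv).trans (by rw [Pi.sup_apply]; exact le_sup_right)

private theorem FE_mul4 {a b A B A' B' : ℝ≥0∞} (h : A * B ≤ A' * B') :
    a * A * (b * B) ≤ b * B' * (a * A') := by
  calc a * A * (b * B) = a * b * (A * B) := by ring
    _ ≤ a * b * (A' * B') := by gcongr
    _ = b * B' * (a * A') := by ring

theorem cmp_main (D : Finset V) {β β' : V → ℝ} (hβ : ∀ v, v ∉ D → β v ≤ β' v) {S S' : Set (V → ℝ)}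
    (hS : MeasurableSet S) (hS' : MeasurableSet S') (h : SLe S S') :
    Dom (gam D β) S (gam D β') S' := by
  intro F hF hm
  rw [lint_gam_set D β hS hF, lint_gam_set D β' hS' hF, gam_set D β hS, gam_set D β' hS']
  apply FE_mul4
  have key := four_marg (f1 := S.indicator (fun X => F X * wt D X)) (f2 := S'.indicator (wt D))
    (f3 := S.indicator (wt D)) (f4 := S'.indicator (fun X => F X * wt D X))
    ((hF.mul (meas_wt D)).indicator hS) ((meas_wt D).indicator hS') ((meas_wt D).indicator hS)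
    ((hF.mul (meas_wt D)).indicator hS') (by
      intro x y
      by_cases hx : x ∈ S
      · by_cases hy : y ∈ S'
        · obtain ⟨h1, h2⟩ := h x hx y hy
          rw [indicator_of_mem hx, indicator_of_mem hy, indicator_of_mem h1, indicator_of_mem h2]
          calc F x * wt D x * wt D y = F x * (wt D x * wt D y) := by ring
            _ ≤ F (x ⊔ y) * (wt D (x ⊓ y) * wt D (x ⊔ y)) :=
              mul_le_mul' (hm le_sup_left) (wt_inf_sup D x y)
            _ = wt D (x ⊓ y) * (F (x ⊔ y) * wt D (x ⊔ y)) := by ring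
        · rw [indicator_of_notMem hy, mul_zero]
          exact zero_le
      · rw [indicator_of_notMem hx, zero_mul]
        exact zero_le) D β β'
  rw [mg_congr D (S.indicator (wt D)) (x := β ⊓ β') (y := β)
      (fun v hv => by rw [Pi.inf_apply]; exact inf_eq_left.2 (hβ v hv)),
    mg_congr D (S'.indicator (fun X => F X * wt D X)) (x := β ⊔ β') (y := β')
      (fun v hv => by rw [Pi.sup_apply]; exact sup_eq_right.2 (hβ v hv))] at key
  exact key

theorem assoc_main (D : Finset V) (β : V → ℝ) {S : Set (V → ℝ)} (hS : MeasurableSet S)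
    (h : SLe S S) {F G : (V → ℝ) → ℝ≥0∞} (hF : Measurable F) (hG : Measurable G)
    (hFm : Monotone F) (hGm : Monotone G) :
    (∫⁻ X in S, F X ∂(gam D β)) * (∫⁻ X in S, G X ∂(gam D β)) ≤
      (∫⁻ X in S, F X * G X ∂(gam D β)) * gam D β S := by
  rw [lint_gam_set D β hS hF, lint_gam_set D β hS hG,
    lint_gam_set D β hS (F := fun X => F X * G X) (hF.mul hG), gam_set D β hS]
  apply FE_mul4
  have key := four_marg (f1 := S.indicator (fun X => F X * wt D X))
    (f2 := S.indicator (fun X => G X * wt D X)) (f3 := S.indicator (wt D))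
    (f4 := S.indicator (fun X => F X * G X * wt D X))
    ((hF.mul (meas_wt D)).indicator hS) ((hG.mul (meas_wt D)).indicator hS)
    ((meas_wt D).indicator hS) (((hF.mul hG).mul (meas_wt D)).indicator hS) (by
      intro x y
      by_cases hx : x ∈ S
      · by_cases hy : y ∈ S
        · obtain ⟨h1, h2⟩ := h x hx y hy
          rw [indicator_of_mem hx, indicator_of_mem hy, indicator_of_mem h1, indicator_of_mem h2]
          calc F x * wt D x * (G y * wt D y) = F x * G y * (wt D x * wt D y) := by ring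
            _ ≤ F (x ⊔ y) * G (x ⊔ y) * (wt D (x ⊓ y) * wt D (x ⊔ y)) :=
              mul_le_mul' (mul_le_mul' (hFm le_sup_left) (hGm le_sup_right)) (wt_inf_sup D x y)
            _ = wt D (x ⊓ y) * (F (x ⊔ y) * G (x ⊔ y) * wt D (x ⊔ y)) := by ring
        · rw [indicator_of_notMem hy, mul_zero]
          exact zero_le
      · rw [indicator_of_notMem hx, zero_mul]
        exact zero_le) D β β
  rw [inf_idem, sup_idem] at key
  exact key

end GF
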