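import Pool.Agent.Lib.MP_acf58e_gf.FE

/-!
MP_acf58e_pr, module F, row FG: comparison with pinned vertices (F4).

Proof. E = D \ C, b = β^C (θ on C, β elsewhere), oS = {X | ∀ v ∈ O, θ' v ≤ X v}, cS = {X | ∀ v ∈ C, X v < θ v}.
G x = mg E (oS.indicator (F * wt E)) x, H x = mg E (oS.indicator (wt E)) x. `wt_split`: wt D = wrest D E * wt E. By `lint_gam_set`, `mg_sdiff`
(mg D = mg (D \ E) (mg E ..), D \ E = C ∩ D) and `mg_mul_left` (cS.indicator 1 and wrest D E do not depend on the coordinates of E: E ∩ C = ∅):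
  ∫⁻ X in cS ∩ oS, F = (pf D β)⁻¹ * mg (D \ E) (fun x => cS.indicator (wrest D E) x * G x) β, the same without F: H instead of G.
For x ∈ cS which agrees with β off D \ E (this is the case in the marginal, `mg_mono`): x ≤ b off E, so `four_marg` (as in `cmp_main`, with
oS.indicator (F * wt E), oS.indicator (wt E), oS.indicator (wt E), oS.indicator (F * wt E)) and `mg_congr` give G x * H b ≤ H x * G b. Multiply by
cS.indicator (wrest D E) x, apply mg (D \ E) at β and multiply by (pf D β)⁻¹ * (pf E b)⁻¹.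
-/

set_option autoImplicit false

open MeasureTheory Set
open scoped ENNReal

namespace GF

/-- boundary values `θ` on `C`, `β` elsewhere -/
noncomputable def pin (C : Finset V) (θ β : V → ℝ) (v : V) : ℝ := by
  classical exact if v ∈ C then θ v else β v

theorem pin_on {C : Finset V} {θ β : V → ℝ} {v : V} (h : v ∈ C) : pin C θ β v = θ v := by
  unfold pin
  rw [if_pos h]

theorem pin_off {C : Finset V} {θ β : V → ℝ} {v : V} (h : v ∉ C) : pin C θ β v = β v := by
  unfold pin
  rw [if_neg h]

/-- the comparison of marginals at two ordered boundary conditions -/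
private theorem FG_mg (E : Finset V) {S S' : Set (V → ℝ)} (hS : MeasurableSet S)
    (hS' : MeasurableSet S') (h : SLe S S') {F : (V → ℝ) → ℝ≥0∞} (hF : Measurable F)
    (hm : Monotone F) {x y : V → ℝ} (hxy : ∀ v, v ∉ E → x v ≤ y v) :
    mg E (S.indicator (fun X => F X * wt E X)) x * mg E (S'.indicator (wt E)) y ≤
      mg E (S.indicator (wt E)) x * mg E (S'.indicator (fun X => F X * wt E X)) y := by
  have key := four_marg (f1 := S.indicator (fun X => F X * wt E X)) (f2 := S'.indicator (wt E))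
    (f3 := S.indicator (wt E)) (f4 := S'.indicator (fun X => F X * wt E X))
    ((hF.mul (meas_wt E)).indicator hS) ((meas_wt E).indicator hS') ((meas_wt E).indicator hS)
    ((hF.mul (meas_wt E)).indicator hS') (by
      intro x y
      by_cases hx : x ∈ S
      · by_cases hy : y ∈ S'
        · obtain ⟨h1, h2⟩ := h x hx y hy
          rw [indicator_of_mem hx, indicator_of_mem hy, indicator_of_mem h1, indicator_of_mem h2]
          calc F x * wt E x * wt E y = F x * (wt E x * wt E y) := by ring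
            _ ≤ F (x ⊔ y) * (wt E (x ⊓ y) * wt E (x ⊔ y)) :=
              mul_le_mul' (hm le_sup_left) (wt_inf_sup E x y)
            _ = wt E (x ⊓ y) * (F (x ⊔ y) * wt E (x ⊔ y)) := by ring
        · rw [indicator_of_notMem hy, mul_zero]
          exact zero_le
      · rw [indicator_of_notMem hx, zero_mul]
        exact zero_le) E x y
  rw [mg_congr E (S.indicator (wt E)) (x := x ⊓ y) (y := x)
      (fun v hv => by rw [Pi.inf_apply]; exact inf_eq_left.2 (hxy v hv)),
    mg_congr E (S'.indicator (fun X => F X * wt E X)) (x := x ⊔ y) (y := y)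
      (fun v hv => by rw [Pi.sup_apply]; exact sup_eq_right.2 (hxy v hv))] at key
  exact key

private theorem FG_mul4 {a b A B A' B' : ℝ≥0∞} (h : A * B ≤ A' * B') :
    a * A * (b * B) ≤ b * B' * (a * A') := by
  calc a * A * (b * B) = a * b * (A * B) := by ring
    _ ≤ a * b * (A' * B') := by gcongr
    _ = b * B' * (a * A') := by ring

private theorem FG_meas_wrest (D E : Finset V) : Measurable (wrest D E) := by
  unfold wrest
  exact ENNReal.measurable_ofReal.comp (Real.measurable_exp.comp (meas_erest D E).neg)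

/-- splitting of a marginal on `D` along `E` -/
private theorem FG_split {D E : Finset V} (hE : E ⊆ D) {S S1 S2 : Set (V → ℝ)}
    (hS : ∀ X, X ∈ S ↔ X ∈ S1 ∧ X ∈ S2) (h2 : MeasurableSet S2)
    (h1 : MeasurableSet S1) (hd : ∀ x y : V → ℝ, (∀ v, v ∉ E → x v = y v) → (x ∈ S1 ↔ y ∈ S1))
    {F : (V → ℝ) → ℝ≥0∞} (hF : Measurable F) (β : V → ℝ) :
    mg D (S.indicator (fun X => F X * wt D X)) β =
      mg (D \ E) (fun x => S1.indicator (wrest D E) x *
        mg E (S2.indicator (fun X => F X * wt E X)) x) β := by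
  have e : S.indicator (fun X => F X * wt D X) =
      fun X => S1.indicator (wrest D E) X * S2.indicator (fun X => F X * wt E X) X := by
    funext X
    by_cases a1 : X ∈ S1
    · by_cases a2 : X ∈ S2
      · rw [indicator_of_mem a1, indicator_of_mem a2, indicator_of_mem ((hS X).2 ⟨a1, a2⟩),
          wt_split hE X]
        ring
      · rw [indicator_of_notMem a2, mul_zero,
          indicator_of_notMem (fun hh => a2 ((hS X).1 hh).2)]
    · rw [indicator_of_notMem a1, zero_mul,
        indicator_of_notMem (fun hh => a1 ((hS X).1 hh).1)]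
  have hm2 : Measurable (S2.indicator (fun X => F X * wt E X)) :=
    (hF.mul (meas_wt E)).indicator h2
  have hm1 : Measurable (S1.indicator (wrest D E)) := (FG_meas_wrest D E).indicator h1
  rw [e, mg_sdiff hE (f := fun X => S1.indicator (wrest D E) X *
    S2.indicator (fun X => F X * wt E X) X) (hm1.mul hm2)]
  congr 1
  funext x
  refine mg_mul_left E hm2 ?_ x
  intro x y hxy
  have hw : wrest D E x = wrest D E y := by
    unfold wrest
    rw [erest_congr D E hxy]
  by_cases hx : x ∈ S1
  · rw [indicator_of_mem hx, indicator_of_mem ((hd x y hxy).1 hx), hw]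
  · rw [indicator_of_notMem hx, indicator_of_notMem (fun hh => hx ((hd x y hxy).2 hh))]

private theorem FG_split1 {D E : Finset V} (hE : E ⊆ D) {S S1 S2 : Set (V → ℝ)}
    (hS : ∀ X, X ∈ S ↔ X ∈ S1 ∧ X ∈ S2) (h2 : MeasurableSet S2)
    (h1 : MeasurableSet S1) (hd : ∀ x y : V → ℝ, (∀ v, v ∉ E → x v = y v) → (x ∈ S1 ↔ y ∈ S1))
    (β : V → ℝ) :
    mg D (S.indicator (wt D)) β =
      mg (D \ E) (fun x => S1.indicator (wrest D E) x * mg E (S2.indicator (wt E)) x) β := by
  have h := FG_split hE hS h2 h1 hd (F := fun _ => 1) measurable_const β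
  simp only [one_mul] at h
  exact h

private theorem FG_const (s : Finset V) (c : ℝ≥0∞) {a g : (V → ℝ) → ℝ≥0∞} (ha : Measurable a)
    (hg : Measurable g) (x : V → ℝ) :
    c * mg s (fun X => a X * g X) x = mg s (fun X => c * (a X * g X)) x :=
  (mg_mul_left s (f := fun _ => c) (g := fun X => a X * g X) (ha.mul hg)
    (fun _ _ _ => rfl) x).symm

theorem cmp_pinned (D C O : Finset V) (hC : C ⊆ D) (θ θ' β : V → ℝ) :
    Dom (gam D β) (cl C O θ θ') (gam (D \ C) (pin C θ β)) (cl ∅ O θ θ') := by
  intro F hF hm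
  have hE : D \ C ⊆ D := Finset.sdiff_subset
  have mO : MeasurableSet (cl ∅ O θ θ') := meas_cl _ _ _ _
  have mC : MeasurableSet (cl C ∅ θ θ') := meas_cl _ _ _ _
  have hS : ∀ X, X ∈ cl C O θ θ' ↔ X ∈ cl C ∅ θ θ' ∧ X ∈ cl ∅ O θ θ' := by
    intro X
    simp [cl]
  have hd : ∀ x y : V → ℝ, (∀ v, v ∉ D \ C → x v = y v) →
      (x ∈ cl C ∅ θ θ' ↔ y ∈ cl C ∅ θ θ') := by
    intro x y hxy
    have h3 : ∀ v ∈ C, x v = y v := fun v hv => hxy v (fun h => (Finset.mem_sdiff.1 h).2 hv)
    constructor
    · intro h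
      exact ⟨fun v hv => (h3 v hv) ▸ h.1 v hv, fun v hv => absurd hv (Finset.notMem_empty v)⟩
    · intro h
      exact ⟨fun v hv => (h3 v hv).symm ▸ h.1 v hv, fun v hv => absurd hv (Finset.notMem_empty v)⟩
  rw [lint_gam_set D β (meas_cl _ _ _ _) hF, lint_gam_set (D \ C) _ mO hF,
    gam_set D β (meas_cl _ _ _ _), gam_set (D \ C) _ mO]
  apply FG_mul4
  change mg D ((cl C O θ θ').indicator (fun X => F X * wt D X)) β *
      mg (D \ C) ((cl ∅ O θ θ').indicator (wt (D \ C))) (pin C θ β) ≤
    mg D ((cl C O θ θ').indicator (wt D)) β *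
      mg (D \ C) ((cl ∅ O θ θ').indicator (fun X => F X * wt (D \ C) X)) (pin C θ β)
  have hmG : Measurable (mg (D \ C) ((cl ∅ O θ θ').indicator (fun X => F X * wt (D \ C) X))) :=
    measurable_mg _ ((hF.mul (meas_wt _)).indicator mO)
  have hmH : Measurable (mg (D \ C) ((cl ∅ O θ θ').indicator (wt (D \ C)))) :=
    measurable_mg _ ((meas_wt _).indicator mO)
  have hmA : Measurable ((cl C ∅ θ θ').indicator (wrest D (D \ C))) :=
    (FG_meas_wrest D _).indicator mC
  rw [FG_split hE hS mO mC hd hF β, FG_split1 hE hS mO mC hd β, mul_comm, mul_comm (mg _ _ β),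
    FG_const _ _ hmA hmG, FG_const _ _ hmA hmH]
  refine mg_mono _ ?_
  intro X hX
  by_cases hc : X ∈ cl C ∅ θ θ'
  · rw [indicator_of_mem hc]
    have hle : ∀ v, v ∉ D \ C → X v ≤ pin C θ β v := by
      intro v hv
      by_cases hvC : v ∈ C
      · rw [pin_on hvC]
        exact (hc.1 v hvC).le
      · rw [pin_off hvC]
        have hvD : v ∉ D := fun h => hv (Finset.mem_sdiff.2 ⟨h, hvC⟩)
        exact (hX v (fun h => hvD (Finset.mem_sdiff.1 h).1)).le
    have key := FG_mg (D \ C) mO mO
      (sle_cl (Finset.Subset.refl _) (Finset.Subset.refl _) (fun _ _ => le_rfl)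
        (fun _ _ => le_rfl)) hF hm hle
    calc mg (D \ C) ((cl ∅ O θ θ').indicator (wt (D \ C))) (pin C θ β) *
          (wrest D (D \ C) X *
            mg (D \ C) ((cl ∅ O θ θ').indicator (fun X => F X * wt (D \ C) X)) X)
        = wrest D (D \ C) X *
          (mg (D \ C) ((cl ∅ O θ θ').indicator (fun X => F X * wt (D \ C) X)) X *
            mg (D \ C) ((cl ∅ O θ θ').indicator (wt (D \ C))) (pin C θ β)) := by ring
      _ ≤ wrest D (D \ C) X *
          (mg (D \ C) ((cl ∅ O θ θ').indicator (wt (D \ C))) X *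
            mg (D \ C) ((cl ∅ O θ θ').indicator (fun X => F X * wt (D \ C) X))
              (pin C θ β)) := by gcongr
      _ = _ := by ring
  · rw [indicator_of_notMem hc, zero_mul, mul_zero]
    exact zero_le

/-- the lower version: open vertices pinned at their threshold -/
theorem cmp_pinned' (D C O : Finset V) (hO : O ⊆ D) (θ θ' β : V → ℝ) :
    Dom (gam (D \ O) (pin O θ' β)) (cl C ∅ θ θ') (gam D β) (cl C O θ θ') := by
  intro F hF hm
  have hE : D \ O ⊆ D := Finset.sdiff_subset
  have mO : MeasurableSet (cl ∅ O θ θ') := meas_cl _ _ _ _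
  have mC : MeasurableSet (cl C ∅ θ θ') := meas_cl _ _ _ _
  have hS : ∀ X, X ∈ cl C O θ θ' ↔ X ∈ cl ∅ O θ θ' ∧ X ∈ cl C ∅ θ θ' := by
    intro X
    simp only [cl, Finset.notMem_empty, IsEmpty.forall_iff, implies_true, true_and, and_true,
      Set.mem_ofPred_eq]
    exact and_comm
  have hd : ∀ x y : V → ℝ, (∀ v, v ∉ D \ O → x v = y v) →
      (x ∈ cl ∅ O θ θ' ↔ y ∈ cl ∅ O θ θ') := by
    intro x y hxy
    have h3 : ∀ v ∈ O, x v = y v := fun v hv => hxy v (fun h => (Finset.mem_sdiff.1 h).2 hv)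
    constructor
    · intro h
      exact ⟨fun v hv => absurd hv (Finset.notMem_empty v), fun v hv => (h3 v hv) ▸ h.2 v hv⟩
    · intro h
      exact ⟨fun v hv => absurd hv (Finset.notMem_empty v),
        fun v hv => (h3 v hv).symm ▸ h.2 v hv⟩
  rw [lint_gam_set D β (meas_cl _ _ _ _) hF, lint_gam_set (D \ O) _ mC hF,
    gam_set D β (meas_cl _ _ _ _), gam_set (D \ O) _ mC]
  apply FG_mul4
  change mg (D \ O) ((cl C ∅ θ θ').indicator (fun X => F X * wt (D \ O) X)) (pin O θ' β) *
      mg D ((cl C O θ θ').indicator (wt D)) β ≤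
    mg (D \ O) ((cl C ∅ θ θ').indicator (wt (D \ O))) (pin O θ' β) *
      mg D ((cl C O θ θ').indicator (fun X => F X * wt D X)) β
  have hmG : Measurable (mg (D \ O) ((cl C ∅ θ θ').indicator (fun X => F X * wt (D \ O) X))) :=
    measurable_mg _ ((hF.mul (meas_wt _)).indicator mC)
  have hmH : Measurable (mg (D \ O) ((cl C ∅ θ θ').indicator (wt (D \ O)))) :=
    measurable_mg _ ((meas_wt _).indicator mC)
  have hmA : Measurable ((cl ∅ O θ θ').indicator (wrest D (D \ O))) :=
    (FG_meas_wrest D _).indicator mO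
  rw [FG_split hE hS mC mO hd hF β, FG_split1 hE hS mC mO hd β,
    FG_const _ _ hmA hmH, FG_const _ _ hmA hmG]
  refine mg_mono _ ?_
  intro X hX
  by_cases hc : X ∈ cl ∅ O θ θ'
  · rw [indicator_of_mem hc]
    have hle : ∀ v, v ∉ D \ O → pin O θ' β v ≤ X v := by
      intro v hv
      by_cases hvO : v ∈ O
      · rw [pin_on hvO]
        exact hc.2 v hvO
      · rw [pin_off hvO]
        have hvD : v ∉ D := fun h => hv (Finset.mem_sdiff.2 ⟨h, hvO⟩)
        exact (hX v (fun h => hvD (Finset.mem_sdiff.1 h).1)).ge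
    have key := FG_mg (D \ O) mC mC
      (sle_cl (Finset.Subset.refl _) (Finset.Subset.refl _) (fun _ _ => le_rfl)
        (fun _ _ => le_rfl)) hF hm hle
    calc mg (D \ O) ((cl C ∅ θ θ').indicator (fun X => F X * wt (D \ O) X)) (pin O θ' β) *
          (wrest D (D \ O) X * mg (D \ O) ((cl C ∅ θ θ').indicator (wt (D \ O))) X)
        = wrest D (D \ O) X *
          (mg (D \ O) ((cl C ∅ θ θ').indicator (fun X => F X * wt (D \ O) X)) (pin O θ' β) *
            mg (D \ O) ((cl C ∅ θ θ').indicator (wt (D \ O))) X) := by ring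
      _ ≤ wrest D (D \ O) X *
          (mg (D \ O) ((cl C ∅ θ θ').indicator (wt (D \ O))) (pin O θ' β) *
            mg (D \ O) ((cl C ∅ θ θ').indicator (fun X => F X * wt (D \ O) X)) X) := by gcongr
      _ = _ := by ring
  · rw [indicator_of_notMem hc, zero_mul, mul_zero]
    exact zero_le

end GF
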