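import Pool.Agent.Lib.MP_acf58e_gf.FE

/-!
MP_acf58e_pr, module F, row FH: transitivity, real valued functions, averages.

Proofs. `Dom.trans`: multiply the second inequality by γ S and the first by γ'' S'', compare (γ' S' ≠ 0, ⊤ can be cancelled: `ENNReal.mul_le_mul_left`
or `ENNReal.mul_le_mul_iff..`).
`Dom.real`: first F bounded below by -n: apply Dom to the ENNReal valued function X ↦ ENNReal.ofReal (max (F X) (-n) + n), which is monotone and
measurable; `ofReal_integral_eq_lintegral_ofReal`; all quantities are finite; ∫ in S (max F (-n) + n) = ∫ in S max F (-n) + n * γ(S); the terms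
n γ(S) γ'(S') cancel. Then n → ∞ by dominated convergence (|max F (-n)| ≤ |F|).
`Dom.real_anti`: apply `Dom.real` to -F with the roles exchanged: for an antitone F the inequality is reversed.
-/

set_option autoImplicit false

open MeasureTheory Set
open scoped ENNReal

namespace GF

theorem Dom.trans {γ γ' γ'' : Measure (V → ℝ)} {S S' S'' : Set (V → ℝ)} (h : Dom γ S γ' S')
    (h' : Dom γ' S' γ'' S'') (h0 : γ' S' ≠ 0) (h1 : γ' S' ≠ ⊤) : Dom γ S γ'' S'' := by
  intro F hF hm
  have a := h F hF hm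
  have b := h' F hF hm
  set A := ∫⁻ X in S, F X ∂γ
  set A' := ∫⁻ X in S', F X ∂γ'
  set A'' := ∫⁻ X in S'', F X ∂γ''
  have c : (A * γ'' S'') * γ' S' ≤ (A'' * γ S) * γ' S' := by
    calc (A * γ'' S'') * γ' S' = (A * γ' S') * γ'' S'' := by ring
      _ ≤ (A' * γ S) * γ'' S'' := by gcongr
      _ = (A' * γ'' S'') * γ S := by ring
      _ ≤ (A'' * γ' S') * γ S := by gcongr
      _ = (A'' * γ S) * γ' S' := by ring
  have d : γ' S' * (A * γ'' S'') ≤ γ' S' * (A'' * γ S) := by
    rwa [mul_comm (γ' S'), mul_comm (γ' S')]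
  calc A * γ'' S'' = (γ' S')⁻¹ * (γ' S' * (A * γ'' S'')) := by
        rw [← mul_assoc, ENNReal.inv_mul_cancel h0 h1, one_mul]
    _ ≤ (γ' S')⁻¹ * (γ' S' * (A'' * γ S)) := by gcongr
    _ = A'' * γ S := by rw [← mul_assoc, ENNReal.inv_mul_cancel h0 h1, one_mul]

private theorem fh_bdd {γ γ' : Measure (V → ℝ)} {S S' : Set (V → ℝ)} (h : Dom γ S γ' S')
    (h1 : γ S ≠ ⊤) (h1' : γ' S' ≠ ⊤) {F : (V → ℝ) → ℝ} (hF : Measurable F) (hm : Monotone F)
    (hi : IntegrableOn F S γ) (hi' : IntegrableOn F S' γ') (n : ℝ) (hb : ∀ X, -n ≤ F X) :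
    (∫ X in S, F X ∂γ) * (γ' S').toReal ≤ (∫ X in S', F X ∂γ') * (γ S).toReal := by
  have hG := h (fun X => ENNReal.ofReal (F X + n)) (by fun_prop)
    (fun X Y hXY => ENNReal.ofReal_le_ofReal (by have := hm hXY; linarith))
  have key : ∀ (μ : Measure (V → ℝ)) (T : Set (V → ℝ)), μ T ≠ ⊤ → IntegrableOn F T μ →
      (∫⁻ X in T, ENNReal.ofReal (F X + n) ∂μ) =
        ENNReal.ofReal ((∫ X in T, F X ∂μ) + n * (μ T).toReal) ∧
      0 ≤ (∫ X in T, F X ∂μ) + n * (μ T).toReal := by
    intro μ T hT hI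
    have hc : IntegrableOn (fun _ : V → ℝ => n) T μ := integrableOn_const hT
    have hI2 : Integrable (fun X => F X + n) (μ.restrict T) := hI.add hc
    have hnn : 0 ≤ᵐ[μ.restrict T] fun X => F X + n :=
      Filter.Eventually.of_forall fun X => by
        have := hb X
        show 0 ≤ F X + n
        linarith
    have e : (∫ X in T, (F X + n) ∂μ) = (∫ X in T, F X ∂μ) + n * (μ T).toReal := by
      rw [integral_add hI hc, setIntegral_const, smul_eq_mul, Measure.real, mul_comm n]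
    refine ⟨?_, ?_⟩
    · rw [← e, ofReal_integral_eq_lintegral_ofReal hI2 hnn]
    · rw [← e]
      exact integral_nonneg_of_ae hnn
  obtain ⟨e1, p1⟩ := key γ S h1 hi
  obtain ⟨e2, p2⟩ := key γ' S' h1' hi'
  rw [e1, e2] at hG
  have h2 := ENNReal.toReal_mono (ENNReal.mul_ne_top ENNReal.ofReal_ne_top h1) hG
  rw [ENNReal.toReal_mul, ENNReal.toReal_mul, ENNReal.toReal_ofReal p1,
    ENNReal.toReal_ofReal p2] at h2
  linarith

theorem Dom.real {γ γ' : Measure (V → ℝ)} {S S' : Set (V → ℝ)} (h : Dom γ S γ' S')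
    (h1 : γ S ≠ ⊤) (h1' : γ' S' ≠ ⊤) {F : (V → ℝ) → ℝ} (hF : Measurable F) (hm : Monotone F)
    (hi : IntegrableOn F S γ) (hi' : IntegrableOn F S' γ') :
    (∫ X in S, F X ∂γ) * (γ' S').toReal ≤ (∫ X in S', F X ∂γ') * (γ S).toReal := by
  have hpt : ∀ (X : V → ℝ) (n : ℕ), |max (F X) (-(n : ℝ))| ≤ |F X| := by
    intro X n
    have hn : (0 : ℝ) ≤ n := Nat.cast_nonneg n
    rcases le_total (F X) (-(n : ℝ)) with h2 | h2
    · rw [max_eq_right h2, abs_neg, abs_of_nonneg hn, abs_of_nonpos (by linarith)]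
      linarith
    · rw [max_eq_left h2]
  have key : ∀ (μ : Measure (V → ℝ)) (T : Set (V → ℝ)), IntegrableOn F T μ →
      (∀ n : ℕ, IntegrableOn (fun X => max (F X) (-(n : ℝ))) T μ) ∧
      Filter.Tendsto (fun n : ℕ => ∫ X in T, max (F X) (-(n : ℝ)) ∂μ) Filter.atTop
        (nhds (∫ X in T, F X ∂μ)) := by
    intro μ T hI
    have hmeas : ∀ n : ℕ, Measurable fun X => max (F X) (-(n : ℝ)) := fun n =>
      hF.max measurable_const
    refine ⟨fun n => ?_, ?_⟩
    · refine Integrable.mono' hI.norm (hmeas n).aestronglyMeasurable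
        (Filter.Eventually.of_forall fun X => ?_)
      rw [Real.norm_eq_abs, Real.norm_eq_abs]
      exact hpt X n
    · refine tendsto_integral_of_dominated_convergence (fun X => |F X|)
        (fun n => (hmeas n).aestronglyMeasurable) hI.norm
        (fun n => Filter.Eventually.of_forall fun X => ?_)
        (Filter.Eventually.of_forall fun X => ?_)
      · rw [Real.norm_eq_abs]
        exact hpt X n
      · obtain ⟨m, hmm⟩ := exists_nat_ge (-(F X))
        refine tendsto_atTop_of_eventually_const (i₀ := m) fun n hn => ?_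
        refine max_eq_left ?_
        have : (m : ℝ) ≤ n := by exact_mod_cast hn
        linarith
  obtain ⟨i1, t1⟩ := key γ S hi
  obtain ⟨i2, t2⟩ := key γ' S' hi'
  refine le_of_tendsto_of_tendsto' (t1.mul_const _) (t2.mul_const _) fun n => ?_
  exact fh_bdd h h1 h1' (hF.max measurable_const) (fun X Y hXY => max_le_max (hm hXY) le_rfl)
    (i1 n) (i2 n) n fun X => le_max_right _ _

theorem Dom.real_anti {γ γ' : Measure (V → ℝ)} {S S' : Set (V → ℝ)} (h : Dom γ S γ' S')
    (h1 : γ S ≠ ⊤) (h1' : γ' S' ≠ ⊤) {F : (V → ℝ) → ℝ} (hF : Measurable F) (hm : Antitone F)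
    (hi : IntegrableOn F S γ) (hi' : IntegrableOn F S' γ') :
    (∫ X in S', F X ∂γ') * (γ S).toReal ≤ (∫ X in S, F X ∂γ) * (γ' S').toReal := by
  have h2 := Dom.real h h1 h1' (F := fun X => -F X) hF.neg
    (fun X Y hXY => neg_le_neg (hm hXY)) hi.neg hi'.neg
  rw [integral_neg, integral_neg] at h2
  linarith

/-- the conditional expectations, if the conditions have positive probability -/
theorem Dom.avg {γ γ' : Measure (V → ℝ)} {S S' : Set (V → ℝ)} (h : Dom γ S γ' S')
    (h0 : γ S ≠ 0) (h0' : γ' S' ≠ 0) (h1 : γ S ≠ ⊤) (h1' : γ' S' ≠ ⊤) {F : (V → ℝ) → ℝ}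
    (hF : Measurable F) (hm : Monotone F) (hi : IntegrableOn F S γ) (hi' : IntegrableOn F S' γ') :
    (γ S).toReal⁻¹ * (∫ X in S, F X ∂γ) ≤ (γ' S').toReal⁻¹ * ∫ X in S', F X ∂γ' := by
  have h2 := Dom.real h h1 h1' hF hm hi hi'
  have p1 : 0 < (γ S).toReal := ENNReal.toReal_pos h0 h1
  have p2 : 0 < (γ' S').toReal := ENNReal.toReal_pos h0' h1'
  rw [inv_mul_eq_div, inv_mul_eq_div, div_le_div_iff₀ p1 p2]
  exact h2

end GF
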