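import Mathlib

set_option autoImplicit false

open MeasureTheory Set ProbabilityTheory
open scoped ENNReal

namespace GF

private lemma quarter_ne : (1 / 4 : NNReal) ≠ 0 := by norm_num

private lemma pdf_eq (m z : ℝ) : gaussianPDFReal m (1 / 4) z =
    (√(Real.pi / 2))⁻¹ * Real.exp (-2 * (z - m) ^ 2) := by
  rw [gaussianPDFReal]
  congr 1
  · congr 2
    push_cast
    ring
  · congr 1
    push_cast
    ring

private lemma int_id (m : ℝ) : Integrable (fun z : ℝ => z) (gaussianReal m (1 / 4)) := by
  have := memLp_id_gaussianReal (μ := m) (v := 1 / 4) 1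
  exact memLp_one_iff_integrable.1 this

private lemma setInt_eq (m : ℝ) (A : Set ℝ) (hA : MeasurableSet A) (F : ℝ → ℝ) :
    ∫ z in A, F z ∂(gaussianReal m (1 / 4)) =
      (√(Real.pi / 2))⁻¹ * ∫ z in A, F z * Real.exp (-2 * (z - m) ^ 2) := by
  rw [← integral_indicator hA, integral_gaussianReal_eq_integral_smul quarter_ne,
    ← integral_indicator hA, ← integral_const_mul]
  refine integral_congr_ae (ae_of_all _ fun z => ?_)
  by_cases hz : z ∈ A
  · simp only [indicator_of_mem hz, pdf_eq, smul_eq_mul]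
    ring
  · simp only [indicator_of_notMem hz, smul_eq_mul, mul_zero]

private lemma int_aux : ∫ y in Ici (0 : ℝ), (y - 1) * Real.exp (-2 * y ^ 2) ≤ 0 := by
  rw [integral_Ici_eq_integral_Ioi]
  have h1 : IntegrableOn (fun y : ℝ => y * Real.exp (-2 * y ^ 2)) (Ioi 0) := by
    have := (integrable_mul_exp_neg_mul_sq (b := 2) (by norm_num)).integrableOn (s := Ioi (0 : ℝ))
    simpa using this
  have h2 : IntegrableOn (fun y : ℝ => Real.exp (-2 * y ^ 2)) (Ioi 0) := by
    have := (integrable_exp_neg_mul_sq (b := 2) (by norm_num)).integrableOn (s := Ioi (0 : ℝ))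
    simpa using this
  have h3 : ∫ y in Ioi (0 : ℝ), (y - 1) * Real.exp (-2 * y ^ 2) =
      (∫ y in Ioi (0 : ℝ), y * Real.exp (-2 * y ^ 2)) - ∫ y in Ioi (0 : ℝ), Real.exp (-2 * y ^ 2) := by
    rw [← integral_sub h1 h2]
    congr 1
    funext y
    ring
  have h4 : ∫ y in Ioi (0 : ℝ), y * Real.exp (-2 * y ^ 2) = 1 / 4 := by
    have := integral_rpow_mul_exp_neg_mul_rpow (p := 2) (q := 1) (b := 2) (by norm_num) (by norm_num)
      (by norm_num)
    have h5 : ∀ y : ℝ, y ^ (1 : ℝ) * Real.exp (-2 * y ^ (2 : ℝ)) = y * Real.exp (-2 * y ^ 2) := by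
      intro y
      rw [Real.rpow_one]
      congr 2
      norm_cast
    simp only [h5] at this
    rw [this]
    have h6 : ((1 : ℝ) + 1) / 2 = 1 := by norm_num
    rw [show -((1 : ℝ) + 1) / 2 = -1 by norm_num, h6, Real.Gamma_one, Real.rpow_neg_one]
    norm_num
  have h5 : ∫ y in Ioi (0 : ℝ), Real.exp (-2 * y ^ 2) = √(Real.pi / 2) / 2 := by
    simpa using integral_gaussian_Ioi 2
  rw [h3, h4, h5]
  have h6 : (1 / 2 : ℝ) ≤ √(Real.pi / 2) := by
    apply Real.le_sqrt_of_sq_le
    have := Real.pi_gt_three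
    norm_num
    linarith
  linarith

private lemma intOn (m : ℝ) (A : Set ℝ) (c : ℝ) :
    IntegrableOn (fun z => (z - c) * Real.exp (-2 * (z - m) ^ 2)) A := by
  have h1 : Integrable (fun y : ℝ => y * Real.exp (-2 * y ^ 2)) := by
    have := (integrable_mul_exp_neg_mul_sq (b := 2) (by norm_num))
    simpa using this
  have h2 : Integrable (fun y : ℝ => Real.exp (-2 * y ^ 2)) := by
    have := (integrable_exp_neg_mul_sq (b := 2) (by norm_num))
    simpa using this
  have h3 := (h1.add (h2.const_mul (m - c))).comp_sub_right m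
  refine (h3.congr (ae_of_all _ fun z => ?_)).integrableOn
  simp only [Pi.add_apply]
  ring

private lemma core {m θ : ℝ} (h : m ≤ θ) :
    ∫ z in Ici θ, (z - (θ + 1)) * Real.exp (-2 * (z - m) ^ 2) ≤ 0 := by
  set t := θ - m with ht
  have ht0 : 0 ≤ t := by linarith
  have h1 : ∫ z in Ici θ, (z - (θ + 1)) * Real.exp (-2 * (z - m) ^ 2) ≤
      ∫ z in Ici θ, Real.exp (-2 * t ^ 2 - 4 * t) * ((z - (θ + 1)) * Real.exp (-2 * (z - θ) ^ 2)) := by
    refine setIntegral_mono_on (intOn m _ _) ((intOn θ _ _).const_mul _) measurableSet_Ici ?_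
    intro z hz
    have hz0 : 0 ≤ z - θ := by
      have : θ ≤ z := hz
      linarith
    have e1 : Real.exp (-2 * (z - m) ^ 2) =
        Real.exp (-2 * t ^ 2) * Real.exp (-4 * t * (z - θ)) * Real.exp (-2 * (z - θ) ^ 2) := by
      rw [← Real.exp_add, ← Real.exp_add]
      congr 1
      rw [ht]
      ring
    have e2 : Real.exp (-2 * t ^ 2 - 4 * t) = Real.exp (-2 * t ^ 2) * Real.exp (-4 * t) := by
      rw [← Real.exp_add]
      congr 1
      ring
    rw [e1, e2]
    have key : (z - (θ + 1)) * Real.exp (-4 * t * (z - θ)) ≤ (z - (θ + 1)) * Real.exp (-4 * t) := by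
      rcases le_total (z - θ) 1 with hz1 | hz1
      · apply mul_le_mul_of_nonpos_left
        · apply Real.exp_le_exp.2
          nlinarith
        · linarith
      · apply mul_le_mul_of_nonneg_left
        · apply Real.exp_le_exp.2
          nlinarith
        · linarith
    have hp := Real.exp_pos (-2 * t ^ 2)
    have hq := Real.exp_pos (-2 * (z - θ) ^ 2)
    have := mul_le_mul_of_nonneg_left key (mul_pos hp hq).le
    calc (z - (θ + 1)) * (Real.exp (-2 * t ^ 2) * Real.exp (-4 * t * (z - θ)) *
          Real.exp (-2 * (z - θ) ^ 2))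
        = Real.exp (-2 * t ^ 2) * Real.exp (-2 * (z - θ) ^ 2) *
          ((z - (θ + 1)) * Real.exp (-4 * t * (z - θ))) := by ring
      _ ≤ Real.exp (-2 * t ^ 2) * Real.exp (-2 * (z - θ) ^ 2) *
          ((z - (θ + 1)) * Real.exp (-4 * t)) := this
      _ = _ := by ring
  refine h1.trans ?_
  rw [integral_const_mul]
  have h2 : ∫ z in Ici θ, (z - (θ + 1)) * Real.exp (-2 * (z - θ) ^ 2) =
      ∫ y in Ici (0 : ℝ), (y - 1) * Real.exp (-2 * y ^ 2) := by
    rw [← integral_indicator measurableSet_Ici, ← integral_indicator measurableSet_Ici,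
      ← integral_sub_right_eq_self ((Ici (0 : ℝ)).indicator
        fun y => (y - 1) * Real.exp (-2 * y ^ 2)) θ]
    congr 1
    funext z
    by_cases hz : θ ≤ z
    · rw [indicator_of_mem (show z ∈ Ici θ from hz),
        indicator_of_mem (show z - θ ∈ Ici (0 : ℝ) from sub_nonneg.2 hz)]
      ring
    · rw [indicator_of_notMem (show z ∉ Ici θ from hz),
        indicator_of_notMem (show z - θ ∉ Ici (0 : ℝ) from fun h' => hz (sub_nonneg.1 h'))]
  rw [h2]
  exact mul_nonpos_of_nonneg_of_nonpos (Real.exp_pos _).le int_aux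

theorem tn_up (m θ : ℝ) :
    ∫ z in Ici θ, z ∂(gaussianReal m (1 / 4)) ≤
      (m + 1 + max (θ - m) 0) * (gaussianReal m (1 / 4) (Ici θ)).toReal := by
  set τ := m + max (θ - m) 0 with hτ
  have hmain : ∫ z in Ici θ, (z - (τ + 1)) ∂(gaussianReal m (1 / 4)) ≤ 0 := by
    rw [setInt_eq m _ measurableSet_Ici]
    refine mul_nonpos_of_nonneg_of_nonpos (inv_nonneg.2 (Real.sqrt_nonneg _)) ?_
    rcases le_total m θ with h | h
    · have : τ = θ := by
        rw [hτ, max_eq_left (by linarith)]
        ring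
      rw [this]
      exact core h
    · have hτm : τ = m := by
        rw [hτ, max_eq_right (by linarith)]
        ring
      rw [hτm]
      refine le_trans ?_ (core (le_refl m))
      rw [← integral_indicator measurableSet_Ici, ← integral_indicator measurableSet_Ici]
      refine integral_mono ((intOn m _ _).integrable_indicator measurableSet_Ici)
        ((intOn m _ _).integrable_indicator measurableSet_Ici) fun z => ?_
      by_cases hz : m ≤ z
      · rw [indicator_of_mem (show z ∈ Ici θ from h.trans hz), indicator_of_mem (by exact hz)]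
      · rw [indicator_of_notMem (show z ∉ Ici m from hz)]
        by_cases hz2 : θ ≤ z
        · rw [indicator_of_mem (show z ∈ Ici θ from hz2)]
          push Not at hz
          exact mul_nonpos_of_nonpos_of_nonneg (by linarith) (Real.exp_pos _).le
        · rw [indicator_of_notMem (show z ∉ Ici θ from hz2)]
  have h1 : ∫ z in Ici θ, (z - (τ + 1)) ∂(gaussianReal m (1 / 4)) =
      (∫ z in Ici θ, z ∂(gaussianReal m (1 / 4))) -
        (τ + 1) * (gaussianReal m (1 / 4) (Ici θ)).toReal := by
    rw [integral_sub (int_id m).integrableOn (integrable_const _), integral_const, smul_eq_mul,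
      mul_comm]
    simp [Measure.real]
  rw [h1] at hmain
  have : m + 1 + max (θ - m) 0 = τ + 1 := by
    rw [hτ]
    ring
  rw [this]
  linarith

end GF
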