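import Mathlib

set_option autoImplicit false

open MeasureTheory Set ProbabilityTheory
open scoped ENNReal

namespace GF

private lemma quarter_ne' : (1 / 4 : NNReal) ≠ 0 := by norm_num

private lemma pdf_eq' (m z : ℝ) : gaussianPDFReal m (1 / 4) z =
    (√(Real.pi / 2))⁻¹ * Real.exp (-2 * (z - m) ^ 2) := by
  rw [gaussianPDFReal]
  congr 1
  · congr 2
    push_cast
    ring
  · congr 1
    push_cast
    ring

private lemma int_id' (m : ℝ) : Integrable (fun z : ℝ => z) (gaussianReal m (1 / 4)) := by
  have := memLp_id_gaussianReal (μ := m) (v := 1 / 4) 1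
  exact memLp_one_iff_integrable.1 this

private lemma setInt_eq' (m : ℝ) (A : Set ℝ) (hA : MeasurableSet A) (F : ℝ → ℝ) :
    ∫ z in A, F z ∂(gaussianReal m (1 / 4)) =
      (√(Real.pi / 2))⁻¹ * ∫ z in A, F z * Real.exp (-2 * (z - m) ^ 2) := by
  rw [← integral_indicator hA, integral_gaussianReal_eq_integral_smul quarter_ne',
    ← integral_indicator hA, ← integral_const_mul]
  refine integral_congr_ae (ae_of_all _ fun z => ?_)
  by_cases hz : z ∈ A
  · simp only [indicator_of_mem hz, pdf_eq', smul_eq_mul]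
    ring
  · simp only [indicator_of_notMem hz, smul_eq_mul, mul_zero]

private lemma int_all (m c : ℝ) :
    Integrable (fun z => (c - z) * Real.exp (-2 * (z - m) ^ 2)) := by
  have h1 : Integrable (fun y : ℝ => y * Real.exp (-2 * y ^ 2)) := by
    have := (integrable_mul_exp_neg_mul_sq (b := 2) (by norm_num))
    simpa using this
  have h2 : Integrable (fun y : ℝ => Real.exp (-2 * y ^ 2)) := by
    have := (integrable_exp_neg_mul_sq (b := 2) (by norm_num))
    simpa using this
  have h3 := ((h2.const_mul (c - m)).sub h1).comp_sub_right m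
  refine (h3.congr (ae_of_all _ fun z => ?_))
  simp only [Pi.sub_apply]
  ring

private lemma core' (m θ a : ℝ) (ha : 0 < a) (hau : a * (1 + max (m - θ) 0) ≤ 1 / 100) :
    0 ≤ ∫ z in Iio θ, ((θ - a) - z) * Real.exp (-2 * (z - m) ^ 2) := by
  set F : ℝ → ℝ := fun z => ((θ - a) - z) * Real.exp (-2 * (z - m) ^ 2) with hF
  have hFi : Integrable F := int_all m (θ - a)
  set A : Set ℝ := Ioo (θ - a) θ with hA
  set B : Set ℝ := Ioo (θ - 4 * a) (θ - 3 * a) with hB
  have hmA : MeasurableSet A := measurableSet_Ioo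
  have hmB : MeasurableSet B := measurableSet_Ioo
  have hu : m - θ ≤ max (m - θ) 0 := le_max_left _ _
  have hu0 : 0 ≤ max (m - θ) 0 := le_max_right _ _
  set u := max (m - θ) 0 with hudef
  have ha1 : a ≤ 1 / 100 := by nlinarith
  have hau1 : a * u ≤ 1 / 100 := by nlinarith
  -- the value of `F` on `Iio θ` outside `A` is nonnegative
  have h1 : ∫ z, (A.indicator F z + B.indicator F z) ≤ ∫ z in Iio θ, F z := by
    rw [← integral_indicator measurableSet_Iio]
    refine integral_mono ((hFi.indicator hmA).add (hFi.indicator hmB))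
      (hFi.indicator measurableSet_Iio) fun z => ?_
    by_cases hzA : z ∈ A
    · have hzB : z ∉ B := fun h => by
        have := hzA.1
        have := h.2
        linarith
      rw [indicator_of_mem hzA, indicator_of_notMem hzB, add_zero,
        indicator_of_mem (show z ∈ Iio θ from hzA.2)]
    · by_cases hzB : z ∈ B
      · rw [indicator_of_notMem hzA, indicator_of_mem hzB, zero_add,
          indicator_of_mem (show z ∈ Iio θ from by
            have := hzB.2
            show z < θ
            linarith)]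
      · rw [indicator_of_notMem hzA, indicator_of_notMem hzB, add_zero]
        by_cases hz : z < θ
        · rw [indicator_of_mem (show z ∈ Iio θ from hz)]
          have hz2 : z ≤ θ - a := by
            by_contra h
            push Not at h
            exact hzA ⟨h, hz⟩
          exact mul_nonneg (by linarith) (Real.exp_pos _).le
        · rw [indicator_of_notMem (show z ∉ Iio θ from hz)]
  refine le_trans ?_ h1
  rw [integral_add (hFi.indicator hmA) (hFi.indicator hmB),
    ← integral_sub_right_eq_self (B.indicator F) (3 * a)]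
  rw [← integral_add (hFi.indicator hmA) ((hFi.indicator hmB).comp_sub_right (3 * a))]
  refine integral_nonneg fun z => ?_
  by_cases hz : z ∈ A
  · have hz2 : z - 3 * a ∈ B := ⟨by linarith [hz.1], by linarith [hz.2]⟩
    simp only [Pi.zero_apply]
    rw [indicator_of_mem hz, indicator_of_mem hz2]
    have hz3 := hz.1
    have hz4 := hz.2
    have e1 : Real.exp (-2 * (z - 3 * a - m) ^ 2) =
        Real.exp (-2 * (z - m) ^ 2) * Real.exp (-2 * (3 * a * (2 * (θ - z) + 2 * (m - θ) + 3 * a))) := by
      rw [← Real.exp_add]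
      congr 1
      ring
    have e2 : (1 / 2 : ℝ) ≤ Real.exp (-2 * (3 * a * (2 * (θ - z) + 2 * (m - θ) + 3 * a))) := by
      refine le_trans ?_ (Real.add_one_le_exp _)
      have h5 : a * (θ - z) ≤ a * a := mul_le_mul_of_nonneg_left (by linarith) ha.le
      have h6 : a * (m - θ) ≤ a * u := mul_le_mul_of_nonneg_left hu ha.le
      have h7 : a * a ≤ 1 / 100 * (1 / 100) := mul_le_mul ha1 ha1 ha.le (by norm_num)
      nlinarith
    show 0 ≤ (θ - a - z) * Real.exp (-2 * (z - m) ^ 2) +
      (θ - a - (z - 3 * a)) * Real.exp (-2 * (z - 3 * a - m) ^ 2)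
    rw [e1]
    have hp := Real.exp_pos (-2 * (z - m) ^ 2)
    set E := Real.exp (-2 * (z - m) ^ 2)
    set G := Real.exp (-2 * (3 * a * (2 * (θ - z) + 2 * (m - θ) + 3 * a)))
    have h8 : 0 ≤ (θ - a - z) + (θ - a - (z - 3 * a)) * G := by
      have : (θ - a - (z - 3 * a)) * (1 / 2) ≤ (θ - a - (z - 3 * a)) * G :=
        mul_le_mul_of_nonneg_left e2 (by linarith)
      nlinarith
    have := mul_nonneg hp.le h8
    nlinarith
  · have hz2 : z - 3 * a ∉ B := fun h => hz ⟨by linarith [h.1], by linarith [h.2]⟩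
    simp only [Pi.zero_apply]
    rw [indicator_of_notMem hz, indicator_of_notMem hz2, add_zero]

theorem tn_gap : ∃ c0 : ℝ, 0 < c0 ∧ c0 ≤ 1 ∧ ∀ m θ : ℝ,
    c0 / (1 + max (m - θ) 0) * (gaussianReal m (1 / 4) (Iio θ)).toReal ≤
      ∫ z in Iio θ, (θ - z) ∂(gaussianReal m (1 / 4)) := by
  refine ⟨1 / 100, by norm_num, by norm_num, fun m θ => ?_⟩
  have hu0 : 0 ≤ max (m - θ) 0 := le_max_right _ _
  set a := 1 / 100 / (1 + max (m - θ) 0) with ha
  have hpos : 0 < 1 + max (m - θ) 0 := by linarith
  have ha0 : 0 < a := div_pos (by norm_num) hpos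
  have hmain : 0 ≤ ∫ z in Iio θ, ((θ - a) - z) ∂(gaussianReal m (1 / 4)) := by
    rw [setInt_eq' m _ measurableSet_Iio]
    refine mul_nonneg (inv_nonneg.2 (Real.sqrt_nonneg _)) (core' m θ a ha0 ?_)
    rw [ha, div_mul_cancel₀ _ hpos.ne']
  have h1 : ∫ z in Iio θ, ((θ - a) - z) ∂(gaussianReal m (1 / 4)) =
      (∫ z in Iio θ, (θ - z) ∂(gaussianReal m (1 / 4))) -
        a * (gaussianReal m (1 / 4) (Iio θ)).toReal := by
    have h2 : ∀ z : ℝ, (θ - a) - z = (θ - z) - a := fun z => by ring
    simp only [h2]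
    have h3 : IntegrableOn (fun z : ℝ => θ - z) (Iio θ) (gaussianReal m (1 / 4)) :=
      ((integrable_const θ).sub (int_id' m)).integrableOn
    have h4 : IntegrableOn (fun _ : ℝ => a) (Iio θ) (gaussianReal m (1 / 4)) :=
      (integrable_const a).integrableOn
    have h5 := integral_sub h3 h4
    rw [h5, integral_const, smul_eq_mul, mul_comm]
    simp [Measure.real]
  rw [h1] at hmain
  linarith

end GF
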