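import Pool.Agent.Lib.MP_acf58e_gf.G2

/-! MP_acf58e_pr, row G6: one site, no atoms, positivity of cells. -/

open MeasureTheory Set ProbabilityTheory
open scoped ENNReal NNReal

namespace GF

/-- cell: closed at C, open at O -/
def cell (C O : Finset V) (θ : V → ℝ) : Set (V → ℝ) := {X | (∀ v ∈ C, X v < θ v) ∧ ∀ v ∈ O, θ v ≤ X v}

theorem measurableSet_cell (C O : Finset V) (θ : V → ℝ) : MeasurableSet (cell C O θ) := by
  have h : cell C O θ = (⋂ v ∈ C, {X : V → ℝ | X v < θ v}) ∩ ⋂ v ∈ O, {X : V → ℝ | θ v ≤ X v} := by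
    ext X
    simp only [cell, mem_ofPred_eq, mem_inter_iff, mem_iInter]
  rw [h]
  exact (C.measurableSet_biInter fun v _ => measurableSet_lt (measurable_pi_apply v)
    measurable_const).inter (O.measurableSet_biInter fun v _ =>
      measurableSet_le measurable_const (measurable_pi_apply v))

private theorem g6_energy_site (v : V) (β : V → ℝ) (y : (({v} : Finset V) : Type) → ℝ) :
    energy {v} (glue {v} β y) = 2 * (y ⟨v, Finset.mem_singleton_self v⟩ - av β v) ^ 2 +
      ((β (nE v) ^ 2 + β (nW v) ^ 2 + β (nN v) ^ 2 + β (nS v) ^ 2) / 2 - 2 * (av β v) ^ 2) := by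
  have hv : glue {v} β y v = y ⟨v, Finset.mem_singleton_self v⟩ := by
    rw [glue_apply, dif_pos (Finset.mem_singleton_self v)]
  have hE : nE v ≠ v := by simp [nE, Prod.ext_iff]
  have hW : nW v ≠ v := by simp [nW, Prod.ext_iff]
  have hN : nN v ≠ v := by simp [nN, Prod.ext_iff]
  have hS : nS v ≠ v := by simp [nS, Prod.ext_iff]
  have hoff : ∀ w, w ≠ v → glue {v} β y w = β w := by
    intro w hw
    rw [glue_apply, dif_neg (by simpa using hw)]
  have e1 : nE (nW v) = v := by simp [nE, nW]
  have e2 : nN (nS v) = v := by simp [nN, nS]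
  have h1 : eH {v} = {v, nW v} := by
    unfold eH
    rw [Finset.image_singleton]
    rfl
  have h2 : eV {v} = {v, nS v} := by
    unfold eV
    rw [Finset.image_singleton]
    rfl
  unfold energy
  rw [h1, h2, Finset.sum_pair hW.symm, Finset.sum_pair hS.symm, e1, e2, hv, hoff _ hE, hoff _ hW,
    hoff _ hN, hoff _ hS]
  unfold av
  ring

private theorem g6_lint (v : V) (β : V → ℝ) {F : ℝ → ℝ≥0∞} (hF : Measurable F) :
    ∫⁻ y : (({v} : Finset V) : Type) → ℝ, F (y ⟨v, Finset.mem_singleton_self v⟩) *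
      wt {v} (glue {v} β y) =
    ENNReal.ofReal (Real.exp (-((β (nE v) ^ 2 + β (nW v) ^ 2 + β (nN v) ^ 2 + β (nS v) ^ 2) / 2 -
      2 * (av β v) ^ 2)) * √(2 * Real.pi * (1 / 4 : ℝ≥0))) *
      ∫⁻ t, F t ∂gaussianReal (av β v) (1 / 4) := by
  have h0 : (1 / 4 : ℝ≥0) ≠ 0 := by norm_num
  have hsq : 0 < √(2 * Real.pi * (1 / 4 : ℝ≥0)) := by
    apply Real.sqrt_pos.2
    have := Real.pi_pos
    positivity
  rw [gaussianReal_of_var_ne_zero _ h0, lintegral_withDensity_eq_lintegral_mul _
    (measurable_gaussianPDF _ _) hF, ← lintegral_const_mul _ ((measurable_gaussianPDF _ _).mul hF)]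
  have hu : Unique (({v} : Finset V) : Type) :=
    { default := ⟨v, Finset.mem_singleton_self v⟩
      uniq := fun w => Subtype.ext (Finset.mem_singleton.1 w.2) }
  have hmp := volume_preserving_piUnique (fun _ : (({v} : Finset V) : Type) => ℝ)
  rw [← hmp.lintegral_comp_emb (MeasurableEquiv.measurableEmbedding _)]
  apply lintegral_congr
  intro y
  have hy : (MeasurableEquiv.piUnique (fun _ : (({v} : Finset V) : Type) => ℝ)) y =
      y ⟨v, Finset.mem_singleton_self v⟩ := by
    show y default = _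
    congr 1
    exact (hu.uniq _).symm
  rw [hy]
  set t := y ⟨v, Finset.mem_singleton_self v⟩ with ht
  rw [Pi.mul_apply, ← mul_assoc, mul_comm (F t)]
  congr 1
  unfold wt gaussianPDF gaussianPDFReal
  rw [g6_energy_site v β y, ← ht, ← ENNReal.ofReal_mul (by positivity)]
  congr 1
  have h4 : ((1 / 4 : ℝ≥0) : ℝ) = 1 / 4 := by norm_num
  have h5 : -(t - av β v) ^ 2 / (2 * ((1 / 4 : ℝ≥0) : ℝ)) = -(2 * (t - av β v) ^ 2) := by
    rw [h4]
    ring
  rw [h5, neg_add, Real.exp_add, mul_assoc, ← mul_assoc (√(2 * Real.pi * ((1 / 4 : ℝ≥0) : ℝ))),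
    mul_inv_cancel₀ hsq.ne', one_mul, mul_comm]

theorem law_site (v : V) (β : V → ℝ) :
    (gam {v} β).map (fun X : V → ℝ => X v) = gaussianReal (av β v) (1/4) := by
  set κ : ℝ≥0∞ := ENNReal.ofReal (Real.exp (-((β (nE v) ^ 2 + β (nW v) ^ 2 + β (nN v) ^ 2 +
    β (nS v) ^ 2) / 2 - 2 * (av β v) ^ 2)) * √(2 * Real.pi * (1 / 4 : ℝ≥0))) with hκ
  have hpf : pf {v} β = κ := by
    have h := g6_lint v β (F := fun _ => 1) measurable_const
    simp only [one_mul, lintegral_const, measure_univ, mul_one] at h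
    exact h
  ext A hA
  rw [Measure.map_apply (measurable_pi_apply v) hA]
  have hA' : MeasurableSet ((fun X : V → ℝ => X v) ⁻¹' A) := measurable_pi_apply v hA
  rw [← lintegral_indicator_one hA', lintegral_gam {v} β (measurable_one.indicator hA')]
  have h1 : ∀ y : (({v} : Finset V) : Type) → ℝ,
      ((fun X : V → ℝ => X v) ⁻¹' A).indicator (1 : (V → ℝ) → ℝ≥0∞) (glue {v} β y) =
        A.indicator (1 : ℝ → ℝ≥0∞) (y ⟨v, Finset.mem_singleton_self v⟩) := by
    intro y
    have hv : glue {v} β y v = y ⟨v, Finset.mem_singleton_self v⟩ := by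
      rw [glue_apply, dif_pos (Finset.mem_singleton_self v)]
    rw [← hv]
    rfl
  simp only [h1]
  rw [g6_lint v β (measurable_one.indicator hA), lintegral_indicator_one hA, ← hκ, hpf, ← mul_assoc,
    ENNReal.inv_mul_cancel, one_mul]
  · rw [← hpf]
    exact pf_ne_zero _ _
  · rw [← hpf]
    exact pf_ne_top _ _

theorem gam_noatom {D : Finset V} {v : V} (hv : v ∈ D) (β : V → ℝ) (t : ℝ) :
    gam D β {X | X v = t} = 0 := by
  have hm : MeasurableSet {X : V → ℝ | X v = t} :=
    measurableSet_eq_fun (measurable_pi_apply v) measurable_const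
  rw [dlr_apply (Finset.singleton_subset_iff.2 hv) β hm]
  have h1 : ∀ X : V → ℝ, gam {v} X {Y : V → ℝ | Y v = t} = 0 := by
    intro X
    have h2 : gam {v} X {Y : V → ℝ | Y v = t} = (gam {v} X).map (fun Y : V → ℝ => Y v) {t} := by
      rw [Measure.map_apply (measurable_pi_apply v) (measurableSet_singleton t)]
      rfl
    have : NullSingletonClass (gaussianReal (av X v) (1 / 4)) :=
      nullSingletonClass_gaussianReal (by norm_num)
    rw [h2, law_site, measure_singleton]
  simp only [h1, lintegral_zero]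

/-- simultaneous version -/
theorem gam_ae_ne (D : Finset V) (β : V → ℝ) (t : ℝ) : ∀ᵐ X ∂gam D β, ∀ v ∈ D, X v ≠ t := by
  rw [ae_all_iff]
  intro v
  by_cases hv : v ∈ D
  · have h : ∀ᵐ X ∂gam D β, X v ≠ t := by
      rw [ae_iff]
      simp only [not_not]
      exact gam_noatom hv β t
    filter_upwards [h] with X hX _
    exact hX
  · exact Filter.Eventually.of_forall fun X h => absurd h hv

theorem cell_pos {D C O : Finset V} (hC : C ⊆ D) (hO : O ⊆ D) (hd : Disjoint C O) (θ β : V → ℝ) :
    0 < gam D β (cell C O θ) := by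
  have hm := measurableSet_cell C O θ
  rw [← lintegral_indicator_one hm, lintegral_gam D β (measurable_one.indicator hm)]
  apply ENNReal.mul_pos (ENNReal.inv_ne_zero.2 (pf_ne_top D β))
  apply ne_of_gt
  have hmeas : Measurable (fun y : D → ℝ => (cell C O θ).indicator (1 : (V → ℝ) → ℝ≥0∞)
      (glue D β y) * wt D (glue D β y)) :=
    ((measurable_one.indicator hm).comp (measurable_glue D β)).mul
      ((measurable_wt D).comp (measurable_glue D β))
  rw [lintegral_pos_iff_support hmeas]
  set U : Set (D → ℝ) := {y | ∀ w : D, ((w : V) ∈ C → y w < θ w) ∧ ((w : V) ∈ O → θ w < y w)} with hU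
  have hUo : IsOpen U := by
    rw [hU, ofPred_forall]
    apply isOpen_iInter_of_finite
    intro w
    rw [ofPred_and]
    apply IsOpen.inter
    · by_cases hw : (w : V) ∈ C
      · simp only [hw, true_imp_iff]
        exact isOpen_lt (continuous_apply w) continuous_const
      · simp only [hw, false_imp_iff, ofPred_true]
        exact isOpen_univ
    · by_cases hw : (w : V) ∈ O
      · simp only [hw, true_imp_iff]
        exact isOpen_lt continuous_const (continuous_apply w)
      · simp only [hw, false_imp_iff, ofPred_true]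
        exact isOpen_univ
  have hUn : U.Nonempty := by
    classical
    refine ⟨fun w => if (w : V) ∈ C then θ w - 1 else θ w + 1, fun w => ⟨fun hw => ?_, fun hw => ?_⟩⟩
    · simp only [hw, if_true]
      linarith
    · have : (w : V) ∉ C := fun h => Finset.disjoint_left.1 hd h hw
      simp only [this, if_false]
      linarith
  refine lt_of_lt_of_le (hUo.measure_pos volume hUn) (measure_mono ?_)
  intro y hy
  rw [Function.mem_support]
  have hyc : glue D β y ∈ cell C O θ := by
    refine ⟨fun v hv => ?_, fun v hv => ?_⟩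
    · rw [glue_apply, dif_pos (hC hv)]
      exact (hy ⟨v, hC hv⟩).1 hv
    · rw [glue_apply, dif_pos (hO hv)]
      exact ((hy ⟨v, hO hv⟩).2 hv).le
  rw [indicator_of_mem hyc, Pi.one_apply, one_mul]
  unfold wt
  exact (ENNReal.ofReal_pos.2 (Real.exp_pos _)).ne'

end GF
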