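import Pool.Agent.Lib.MP_acf58e_gf.G3
import Pool.Agent.Lib.MP_acf58e_gf.G6

/-!
MP_acf58e_pr, module F, row FK: integrating out one coordinate on a set which does not depend on it otherwise (DLR at one vertex).
-/

set_option autoImplicit false

open MeasureTheory Set ProbabilityTheory
open scoped ENNReal NNReal

namespace GF

/-- the set `S` does not depend on the coordinate `v` -/
def NotDep (v : V) (S : Set (V → ℝ)) : Prop :=
  ∀ X Y : V → ℝ, (∀ x, x ≠ v → X x = Y x) → (X ∈ S ↔ Y ∈ S)

theorem av_congr {v : V} {X Y : V → ℝ} (h : ∀ x, x ≠ v → X x = Y x) : av X v = av Y v := by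
  have hE : nE v ≠ v := by
    intro e
    have := congrArg Prod.fst e
    simp [nE] at this
  have hW : nW v ≠ v := by
    intro e
    have := congrArg Prod.fst e
    simp [nW] at this
  have hN : nN v ≠ v := by
    intro e
    have := congrArg Prod.snd e
    simp [nN] at this
  have hS : nS v ≠ v := by
    intro e
    have := congrArg Prod.snd e
    simp [nS] at this
  unfold av
  rw [h _ hE, h _ hW, h _ hN, h _ hS]

theorem measurable_av (v : V) : Measurable (fun X : V → ℝ => av X v) := by
  unfold av
  exact ((((measurable_pi_apply (nE v)).add (measurable_pi_apply (nW v))).add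
    (measurable_pi_apply (nN v))).add (measurable_pi_apply (nS v))).div_const 4

theorem integrable_av (D : Finset V) (β : V → ℝ) (v : V) :
    Integrable (fun X : V → ℝ => av X v) (gam D β) := by
  unfold av
  exact ((((integrable_coord D β (nE v)).add (integrable_coord D β (nW v))).add
    (integrable_coord D β (nN v))).add (integrable_coord D β (nS v))).div_const 4

theorem fk_off {v : V} {X Y : V → ℝ} (h : ∀ x ∉ ({v} : Finset V), Y x = X x) :
    ∀ x, x ≠ v → Y x = X x := fun x hx => h x (by simpa using hx)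

theorem lint_site {D : Finset V} {v : V} (hv : v ∈ D) (β : V → ℝ) {S : Set (V → ℝ)}
    (hS : MeasurableSet S) (hd : NotDep v S) {B : Set ℝ} (hB : MeasurableSet B)
    {F : ℝ → ℝ → ℝ≥0∞} (hF : Measurable (Function.uncurry F)) :
    ∫⁻ X in S ∩ {X | X v ∈ B}, F (av X v) (X v) ∂gam D β =
      ∫⁻ X in S, (∫⁻ z in B, F (av X v) z ∂gaussianReal (av X v) (1 / 4)) ∂gam D β := by
  have hBv : MeasurableSet {X : V → ℝ | X v ∈ B} := (measurable_pi_apply v) hB
  have hSB : MeasurableSet (S ∩ {X : V → ℝ | X v ∈ B}) := hS.inter hBv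
  have hG : Measurable (fun X : V → ℝ => F (av X v) (X v)) :=
    hF.comp ((measurable_av v).prodMk (measurable_pi_apply v))
  rw [← lintegral_indicator hSB, ← lintegral_indicator hS]
  rw [dlr (Finset.singleton_subset_iff.2 hv) β (hG.indicator hSB)]
  refine lintegral_congr fun X => ?_
  have hFX : Measurable (F (av X v)) := hF.comp measurable_prodMk_left
  have e1 : ∫⁻ Y, (S ∩ {X : V → ℝ | X v ∈ B}).indicator (fun X : V → ℝ => F (av X v) (X v)) Y ∂gam {v} X
      = ∫⁻ Y, S.indicator (fun _ => (B.indicator (F (av X v))) (Y v)) X ∂gam {v} X := by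
    refine lintegral_congr_ae ?_
    filter_upwards [gam_ae_off {v} X] with Y hY
    have hY' := fk_off hY
    have hav : av Y v = av X v := av_congr hY'
    have hSS : Y ∈ S ↔ X ∈ S := hd Y X hY'
    by_cases hX : X ∈ S
    · by_cases hb : Y v ∈ B
      · rw [Set.indicator_of_mem (show Y ∈ S ∩ {X : V → ℝ | X v ∈ B} from ⟨hSS.2 hX, hb⟩),
          Set.indicator_of_mem hX, Set.indicator_of_mem hb, hav]
      · rw [Set.indicator_of_notMem (show Y ∉ S ∩ {X : V → ℝ | X v ∈ B} from fun h => hb h.2),
          Set.indicator_of_mem hX, Set.indicator_of_notMem hb]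
    · rw [Set.indicator_of_notMem (show Y ∉ S ∩ {X : V → ℝ | X v ∈ B} from fun h => hX (hSS.1 h.1)),
        Set.indicator_of_notMem hX]
  rw [e1]
  by_cases hX : X ∈ S
  · simp only [Set.indicator_of_mem hX]
    have e2 : ∫⁻ Y, (B.indicator (F (av X v))) (Y v) ∂gam {v} X
        = ∫⁻ z, (B.indicator (F (av X v))) z ∂((gam {v} X).map (fun Y : V → ℝ => Y v)) := by
      rw [lintegral_map (hFX.indicator hB) (measurable_pi_apply v)]
    rw [e2, law_site, lintegral_indicator hB]
  · simp only [Set.indicator_of_notMem hX, lintegral_zero]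

theorem int_site {D : Finset V} {v : V} (hv : v ∈ D) (β : V → ℝ) {S : Set (V → ℝ)}
    (hS : MeasurableSet S) (hd : NotDep v S) {B : Set ℝ} (hB : MeasurableSet B)
    {f : ℝ → ℝ → ℝ} (hf : Measurable (Function.uncurry f))
    (hi : IntegrableOn (fun X : V → ℝ => f (av X v) (X v)) (S ∩ {X | X v ∈ B}) (gam D β)) :
    IntegrableOn (fun X : V → ℝ => ∫ z in B, f (av X v) z ∂gaussianReal (av X v) (1 / 4)) S
        (gam D β) ∧
    ∫ X in S ∩ {X | X v ∈ B}, f (av X v) (X v) ∂gam D β =
      ∫ X in S, (∫ z in B, f (av X v) z ∂gaussianReal (av X v) (1 / 4)) ∂gam D β := by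
  have hBv : MeasurableSet {X : V → ℝ | X v ∈ B} := (measurable_pi_apply v) hB
  have hSB : MeasurableSet (S ∩ {X : V → ℝ | X v ∈ B}) := hS.inter hBv
  have hG : Measurable (fun X : V → ℝ => f (av X v) (X v)) :=
    hf.comp ((measurable_av v).prodMk (measurable_pi_apply v))
  have hi' : Integrable ((S ∩ {X : V → ℝ | X v ∈ B}).indicator
      (fun X : V → ℝ => f (av X v) (X v))) (gam D β) := (integrable_indicator_iff hSB).2 hi
  obtain ⟨h1, -, h3⟩ := dlr_integral (Finset.singleton_subset_iff.2 hv) β (hG.indicator hSB) hi'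
  have key : ∀ X : V → ℝ, ∫ Y, (S ∩ {X : V → ℝ | X v ∈ B}).indicator
      (fun X : V → ℝ => f (av X v) (X v)) Y ∂gam {v} X =
      S.indicator (fun X : V → ℝ => ∫ z in B, f (av X v) z ∂gaussianReal (av X v) (1 / 4)) X := by
    intro X
    have hFX : Measurable (f (av X v)) := hf.comp measurable_prodMk_left
    have e1 : ∫ Y, (S ∩ {X : V → ℝ | X v ∈ B}).indicator (fun X : V → ℝ => f (av X v) (X v)) Y ∂gam {v} X
        = ∫ Y, S.indicator (fun _ => (B.indicator (f (av X v))) (Y v)) X ∂gam {v} X := by
      refine integral_congr_ae ?_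
      filter_upwards [gam_ae_off {v} X] with Y hY
      have hY' := fk_off hY
      have hav : av Y v = av X v := av_congr hY'
      have hSS : Y ∈ S ↔ X ∈ S := hd Y X hY'
      by_cases hX : X ∈ S
      · by_cases hb : Y v ∈ B
        · rw [Set.indicator_of_mem (show Y ∈ S ∩ {X : V → ℝ | X v ∈ B} from ⟨hSS.2 hX, hb⟩),
            Set.indicator_of_mem hX, Set.indicator_of_mem hb, hav]
        · rw [Set.indicator_of_notMem (show Y ∉ S ∩ {X : V → ℝ | X v ∈ B} from fun h => hb h.2),
            Set.indicator_of_mem hX, Set.indicator_of_notMem hb]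
      · rw [Set.indicator_of_notMem (show Y ∉ S ∩ {X : V → ℝ | X v ∈ B} from fun h => hX (hSS.1 h.1)),
          Set.indicator_of_notMem hX]
    rw [e1]
    by_cases hX : X ∈ S
    · simp only [Set.indicator_of_mem hX]
      have e2 : ∫ Y, (B.indicator (f (av X v))) (Y v) ∂gam {v} X
          = ∫ z, (B.indicator (f (av X v))) z ∂((gam {v} X).map (fun Y : V → ℝ => Y v)) := by
        rw [integral_map (measurable_pi_apply v).aemeasurable
          (hFX.indicator hB).aestronglyMeasurable]
      rw [e2, law_site, integral_indicator hB]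
    · simp only [Set.indicator_of_notMem hX, integral_zero]
  simp only [key] at h1 h3
  refine ⟨(integrable_indicator_iff hS).1 h1, ?_⟩
  rw [← integral_indicator hSB, ← integral_indicator hS]
  exact h3

end GF
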