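import Pool.Agent.Lib.MP_acf58e_gf.FK
import Pool.Agent.Lib.MP_acf58e_gf.FI
import Pool.Agent.Lib.MP_acf58e_gf.FJ
import Pool.Agent.Lib.MP_acf58e_gf.FH

/-!
MP_acf58e_pr, module F, row FL (F6): one site of a conditioned field.
-/

set_option autoImplicit false

open MeasureTheory Set ProbabilityTheory
open scoped ENNReal NNReal

namespace GF

theorem site_free {D : Finset V} {v : V} (hv : v ∈ D) (β : V → ℝ) {S : Set (V → ℝ)}
    (hS : MeasurableSet S) (hd : NotDep v S) :
    ∫ X in S, X v ∂gam D β = ∫ X in S, av X v ∂gam D β := by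
  have hf : Measurable (Function.uncurry (fun _ z : ℝ => z)) := measurable_snd
  have hset : S ∩ {X : V → ℝ | X v ∈ (univ : Set ℝ)} = S := by
    ext X
    simp
  have h := (int_site hv β hS hd (B := univ) MeasurableSet.univ (f := fun _ z => z) hf
    ((integrable_coord D β v).integrableOn)).2
  rw [hset] at h
  rw [h]
  refine integral_congr_ae (Filter.Eventually.of_forall fun X => ?_)
  simp only [Measure.restrict_univ]
  exact integral_id_gaussianReal

theorem fl_meas_open (t : ℝ) :
    Measurable (Function.uncurry (fun m _ : ℝ => m + 1 + max (t - m) 0)) := by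
  have h : Measurable (fun p : ℝ × ℝ => p.1 + 1 + max (t - p.1) 0) := by fun_prop
  exact h

theorem fl_int_open (D : Finset V) (β : V → ℝ) (v : V) (t : ℝ) :
    Integrable (fun X : V → ℝ => av X v + 1 + max (t - av X v) 0) (gam D β) := by
  have h1 := integrable_av D β v
  have h2 : Integrable (fun X : V → ℝ => t - av X v) (gam D β) := (integrable_const t).sub h1
  exact (h1.add (integrable_const 1)).add h2.pos_part

theorem site_open {D : Finset V} {v : V} (hv : v ∈ D) (β : V → ℝ) {S : Set (V → ℝ)}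
    (hS : MeasurableSet S) (hd : NotDep v S) (t : ℝ) :
    ∫ X in S ∩ {X | X v ∈ Ici t}, X v ∂gam D β ≤
      ∫ X in S ∩ {X | X v ∈ Ici t}, (av X v + 1 + max (t - av X v) 0) ∂gam D β := by
  have hf : Measurable (Function.uncurry (fun _ z : ℝ => z)) := measurable_snd
  obtain ⟨a1, a2⟩ := int_site hv β hS hd (B := Ici t) measurableSet_Ici (f := fun _ z => z) hf
    ((integrable_coord D β v).integrableOn)
  obtain ⟨b1, b2⟩ := int_site hv β hS hd (B := Ici t) measurableSet_Ici
    (f := fun m _ => m + 1 + max (t - m) 0) (fl_meas_open t) ((fl_int_open D β v t).integrableOn)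
  rw [a2, b2]
  refine setIntegral_mono a1 b1 fun X => ?_
  have := tn_up (av X v) t
  refine le_trans this (le_of_eq ?_)
  rw [setIntegral_const, smul_eq_mul, Measure.real, mul_comm]

/-- one constant for all -/
theorem site_closed : ∃ c0 : ℝ, 0 < c0 ∧ c0 ≤ 1 ∧ ∀ (D : Finset V) (v : V), v ∈ D →
    ∀ (β : V → ℝ) (S : Set (V → ℝ)), MeasurableSet S → NotDep v S → ∀ t : ℝ,
    ∫ X in S ∩ {X | X v ∈ Iio t}, c0 / (1 + max (av X v - t) 0) ∂gam D β ≤
      ∫ X in S ∩ {X | X v ∈ Iio t}, (t - X v) ∂gam D β := by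
  obtain ⟨c0, h0, h1, hg⟩ := tn_gap
  refine ⟨c0, h0, h1, ?_⟩
  intro D v hv β S hS hd t
  have hf : Measurable (Function.uncurry (fun _ z : ℝ => t - z)) := measurable_snd.const_sub t
  have hf2 : Measurable (Function.uncurry (fun m _ : ℝ => c0 / (1 + max (m - t) 0))) := by
    have h : Measurable (fun p : ℝ × ℝ => c0 / (1 + max (p.1 - t) 0)) := by fun_prop
    exact h
  have hbd : Integrable (fun X : V → ℝ => c0 / (1 + max (av X v - t) 0)) (gam D β) := by
    have hm : Measurable (fun X : V → ℝ => c0 / (1 + max (av X v - t) 0)) :=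
      measurable_const.div (measurable_const.add (((measurable_av v).sub_const t).max measurable_const))
    refine Integrable.of_bound hm.aestronglyMeasurable c0 (Filter.Eventually.of_forall fun X => ?_)
    have hp : (0 : ℝ) ≤ max (av X v - t) 0 := le_max_right _ _
    rw [Real.norm_eq_abs, abs_of_nonneg (by positivity)]
    exact div_le_self h0.le (by linarith)
  obtain ⟨a1, a2⟩ := int_site hv β hS hd (B := Iio t) measurableSet_Iio (f := fun _ z => t - z) hf
    (((integrable_const t).sub (integrable_coord D β v)).integrableOn)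
  obtain ⟨b1, b2⟩ := int_site hv β hS hd (B := Iio t) measurableSet_Iio
    (f := fun m _ => c0 / (1 + max (m - t) 0)) hf2 hbd.integrableOn
  rw [a2, b2]
  refine setIntegral_mono b1 a1 fun X => ?_
  have := hg (av X v) t
  refine le_trans (le_of_eq ?_) this
  rw [setIntegral_const, smul_eq_mul, Measure.real, mul_comm]

theorem notDep_cell {C O : Finset V} {v : V} (hC : v ∉ C) (hO : v ∉ O) (θ : V → ℝ) :
    NotDep v (cell C O θ) := by
  have key : ∀ X Y : V → ℝ, (∀ x, x ≠ v → X x = Y x) → X ∈ cell C O θ → Y ∈ cell C O θ := by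
    intro X Y h hX
    refine ⟨fun x hx => ?_, fun x hx => ?_⟩
    · rw [← h x (fun e => hC (e ▸ hx))]
      exact hX.1 x hx
    · rw [← h x (fun e => hO (e ▸ hx))]
      exact hX.2 x hx
  exact fun X Y h => ⟨key X Y h, key Y X fun x hx => (h x hx).symm⟩

theorem cell_free {D C O : Finset V} {v : V} (hv : v ∈ D) (hC : v ∉ C) (hO : v ∉ O)
    (θ β : V → ℝ) :
    ∫ X in cell C O θ, X v ∂gam D β = ∫ X in cell C O θ, av X v ∂gam D β :=
  site_free hv β (measurableSet_cell C O θ) (notDep_cell hC hO θ)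

theorem cell_eq_open {C O : Finset V} {v : V} (hO : v ∈ O) (θ : V → ℝ) :
    cell C O θ = cell C (O.erase v) θ ∩ {X | X v ∈ Ici (θ v)} := by
  ext X
  constructor
  · intro h
    exact ⟨⟨h.1, fun x hx => h.2 x (Finset.mem_of_mem_erase hx)⟩, h.2 v hO⟩
  · rintro ⟨h1, h2⟩
    refine ⟨h1.1, fun x hx => ?_⟩
    by_cases e : x = v
    · rw [e]; exact h2
    · exact h1.2 x (Finset.mem_erase.2 ⟨e, hx⟩)

theorem cell_eq_closed {C O : Finset V} {v : V} (hC : v ∈ C) (θ : V → ℝ) :
    cell C O θ = cell (C.erase v) O θ ∩ {X | X v ∈ Iio (θ v)} := by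
  ext X
  constructor
  · intro h
    exact ⟨⟨fun x hx => h.1 x (Finset.mem_of_mem_erase hx), h.2⟩, h.1 v hC⟩
  · rintro ⟨h1, h2⟩
    refine ⟨fun x hx => ?_, h1.2⟩
    by_cases e : x = v
    · rw [e]; exact h2
    · exact h1.1 x (Finset.mem_erase.2 ⟨e, hx⟩)

theorem cell_open {D C O : Finset V} {v : V} (hv : v ∈ D) (hC : v ∉ C) (hO : v ∈ O)
    (θ β : V → ℝ) :
    ∫ X in cell C O θ, X v ∂gam D β ≤
      ∫ X in cell C O θ, (av X v + 1 + max (θ v - av X v) 0) ∂gam D β := by
  rw [cell_eq_open hO θ]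
  exact site_open hv β (measurableSet_cell _ _ θ) (notDep_cell hC (Finset.notMem_erase v O) θ) (θ v)

theorem cell_closed : ∃ c0 : ℝ, 0 < c0 ∧ c0 ≤ 1 ∧ ∀ (D C O : Finset V) (v : V), v ∈ D → v ∈ C →
    v ∉ O → ∀ θ β : V → ℝ,
    ∫ X in cell C O θ, c0 / (1 + max (av X v - θ v) 0) ∂gam D β ≤
      ∫ X in cell C O θ, (θ v - X v) ∂gam D β := by
  obtain ⟨c0, h0, h1, hc⟩ := site_closed
  refine ⟨c0, h0, h1, ?_⟩
  intro D C O v hv hC hO θ β
  rw [cell_eq_closed hC θ]
  exact hc D v hv β _ (measurableSet_cell _ _ θ) (notDep_cell (Finset.notMem_erase v C) hO θ) (θ v)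

/-- Jensen: the same with the averages -/
theorem cell_gap : ∃ c0 : ℝ, 0 < c0 ∧ c0 ≤ 1 ∧ ∀ (D C O : Finset V) (v : V), v ∈ D → v ∈ C →
    v ∉ O → ∀ (θ β : V → ℝ) (A : ℝ), 0 ≤ A → gam D β (cell C O θ) ≠ 0 →
    ∫ X in cell C O θ, max (av X v - θ v) 0 ∂gam D β ≤ A * (gam D β (cell C O θ)).toReal →
    (gam D β (cell C O θ)).toReal⁻¹ * ∫ X in cell C O θ, X v ∂gam D β ≤ θ v - c0 / (1 + A) := by
  obtain ⟨c0, h0, h1, hc⟩ := cell_closed
  refine ⟨c0, h0, h1, ?_⟩
  intro D C O v hv hC hO θ β A hA hne hT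
  set μ := gam D β with hμ
  set S := cell C O θ with hSdef
  have hp : 0 < (μ S).toReal := ENNReal.toReal_pos hne (measure_ne_top _ _)
  set p := (μ S).toReal with hpdef
  have hc' := hc D C O v hv hC hO θ β
  have iT : Integrable (fun X : V → ℝ => max (av X v - θ v) 0) μ :=
    ((integrable_av D β v).sub (integrable_const (θ v))).pos_part
  have iX : Integrable (fun X : V → ℝ => X v) μ := integrable_coord D β v
  have iq : Integrable (fun X : V → ℝ => c0 / (1 + max (av X v - θ v) 0)) μ := by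
    have hm : Measurable (fun X : V → ℝ => c0 / (1 + max (av X v - θ v) 0)) :=
      measurable_const.div (measurable_const.add (((measurable_av v).sub_const _).max measurable_const))
    refine Integrable.of_bound hm.aestronglyMeasurable c0 (Filter.Eventually.of_forall fun X => ?_)
    have hp : (0 : ℝ) ≤ max (av X v - θ v) 0 := le_max_right _ _
    rw [Real.norm_eq_abs, abs_of_nonneg (by positivity)]
    exact div_le_self h0.le (by linarith)
  -- tangent line
  have tl : ∀ s : ℝ, 0 ≤ s → c0 / (1 + A) - c0 / (1 + A) ^ 2 * (s - A) ≤ c0 / (1 + s) := by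
    intro s hs
    have hA1 : 0 < 1 + A := by linarith
    have hs1 : 0 < 1 + s := by linarith
    rw [← sub_nonneg]
    have e : c0 / (1 + s) - (c0 / (1 + A) - c0 / (1 + A) ^ 2 * (s - A)) =
        c0 * (s - A) ^ 2 / ((1 + s) * (1 + A) ^ 2) := by
      field_simp
      ring
    rw [e]
    positivity
  have step : ∫ X in S, (c0 / (1 + A) - c0 / (1 + A) ^ 2 * (max (av X v - θ v) 0 - A)) ∂μ ≤
      ∫ X in S, c0 / (1 + max (av X v - θ v) 0) ∂μ := by
    refine setIntegral_mono ?_ iq.integrableOn fun X => tl _ (le_max_right _ _)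
    exact ((integrable_const _).sub ((iT.sub (integrable_const A)).const_mul _)).integrableOn
  have ev : ∫ X in S, (c0 / (1 + A) - c0 / (1 + A) ^ 2 * (max (av X v - θ v) 0 - A)) ∂μ =
      c0 / (1 + A) * p - c0 / (1 + A) ^ 2 * (∫ X in S, max (av X v - θ v) 0 ∂μ - A * p) := by
    have i1 : Integrable (fun X : V → ℝ => max (av X v - θ v) 0) (μ.restrict S) := iT.integrableOn
    have i2 : Integrable (fun X : V → ℝ => c0 / (1 + A) ^ 2 * (max (av X v - θ v) 0 - A))
        (μ.restrict S) := (i1.sub (integrable_const A)).const_mul _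
    rw [integral_sub (integrable_const _) i2, integral_const_mul, integral_sub i1 (integrable_const A)]
    simp only [setIntegral_const, smul_eq_mul, Measure.real]
    rw [mul_comm (μ S).toReal, mul_comm (μ S).toReal]
  have ex : ∫ X in S, (θ v - X v) ∂μ = θ v * p - ∫ X in S, X v ∂μ := by
    rw [integral_sub (integrable_const _) iX.integrableOn]
    simp only [setIntegral_const, smul_eq_mul, Measure.real]
    rw [mul_comm (μ S).toReal]
  have hfin : c0 / (1 + A) * p ≤ θ v * p - ∫ X in S, X v ∂μ := by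
    have q1 : 0 ≤ c0 / (1 + A) ^ 2 := by positivity
    have q2 : ∫ X in S, max (av X v - θ v) 0 ∂μ - A * p ≤ 0 := by linarith
    have q3 : c0 / (1 + A) ^ 2 * (∫ X in S, max (av X v - θ v) 0 ∂μ - A * p) ≤ 0 :=
      mul_nonpos_of_nonneg_of_nonpos q1 q2
    rw [ev] at step
    rw [ex] at hc'
    linarith
  rw [inv_mul_le_iff₀ hp]
  nlinarith

end GF
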