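import Pool.Agent.Lib.MP_acf58e_gf.P8a

/-!
Interface definitions of the modules R, J, M, L, B, E (blueprint parts 2 and 3).
-/

open MeasureTheory Set ProbabilityTheory
open scoped ENNReal

namespace GF

/-- extent (sup-diameter) at least ℓ -/
def ExtGe (A : Set V) (ℓ : ℤ) : Prop := ∃ x ∈ A, ∃ y ∈ A, ℓ ≤ dI x y

/-- left-right crossing path of the rectangle [a,b]x[c,d], with vertices in A, starting at (a,h),
touching the columns a and b only at its end points -/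
def IsLR (adj : V → V → Prop) (a b c d : ℤ) (A : Set V) (h : ℤ) (n : ℕ) (p : ℕ → V) : Prop :=
  p 0 = (a, h) ∧ (p n).1 = b ∧ (∀ i ≤ n, p i ∈ A ∧ p i ∈ Rc a b c d) ∧
    (∀ i < n, adj (p i) (p (i + 1))) ∧ (∀ i, 0 < i → i < n → a < (p i).1 ∧ (p i).1 < b)

/-- n alternating crossings, ordered from below to above: the j-th one is closed (star, X < t1)
if j + e is even and open (nn, X ≥ t0) if j + e is odd. -/
def Alt (e n : ℕ) (t0 t1 : ℝ) (a b c d : ℤ) (X : V → ℝ) : Prop :=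
  ∃ (h : ℕ → ℤ) (len : ℕ → ℕ) (p : ℕ → ℕ → V),
    (∀ j < n, (j + e) % 2 = 0 → IsLR st a b c d {v | X v < t1} (h j) (len j) (p j)) ∧
    (∀ j < n, (j + e) % 2 = 1 → IsLR nn a b c d (lev X t0) (h j) (len j) (p j)) ∧
    (∀ j, j + 1 < n → h j < h (j + 1)) ∧
    (∀ j, j + 1 < n → ∀ i ≤ len j, ∀ i' ≤ len (j + 1), p j i ≠ p (j + 1) i')

/-- swap of the two coordinates -/
def sw (x : V) : V := (x.2, x.1)
def swF (X : V → ℝ) : V → ℝ := fun v => X (sw v)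

/-- Theorem J (tightness of alternating crossings), blueprint 7.4. -/
def JProp (w0 : ℝ) : Prop :=
  ∀ (A : ℕ) (ε : ℝ≥0∞), 0 < ε → ∃ n : ℕ, ∀ (r : ℕ), 1 ≤ r →
    ∀ (D : Finset V) (z : V) (t a : ℝ) (x0 y0 : ℤ) (W H : ℕ),
      r ≤ W → W ≤ A * r → r ≤ H → H ≤ A * r → D ⊆ Q z (A * r) →
      Rc (x0 - 8) (x0 + W + 8) (y0 - W - r - 8) (y0 + H + W + r + 8) ⊆ D →
      gam D (fun _ => a) {X | Alt 0 n t (t + w0) x0 (x0 + W) y0 (y0 + H) X} ≤ ε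

/-- there is an nn left-right crossing of the rectangle at level 0 of length ≤ L -/
def ShortLR (L : ℝ) (a b c d : ℤ) (X : V → ℝ) : Prop :=
  ∃ (n : ℕ) (p : ℕ → V) (x y : V), (n : ℝ) ≤ L ∧ x.1 = a ∧ y.1 = b ∧
    IsPath nn (lev X 0 ∩ Rc a b c d) n p x y

/-- Theorem RC (rectangle crossing), blueprint 6. -/
def RCProp : Prop :=
  ∀ (A : ℕ) (ε : ℝ), 0 < ε → ∃ C : ℝ, 0 < C ∧ ∀ (r : ℕ), 1 ≤ r →
    ∀ (D : Finset V) (z : V) (a : ℝ) (x0 y0 : ℤ) (W H Wd : ℕ),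
      r ≤ W → W ≤ A * r → r ≤ H → H ≤ A * r → r ≤ Wd → Wd ≤ A * r → D ⊆ Q z (A * r) →
      Rc (x0 - Wd - 8) (x0 + W + Wd + 8) (y0 - 8) (y0 + H + 8) ⊆ D → 1 ≤ a →
      gam D (fun _ => a) {X | ¬ ShortLR (C * (r : ℝ) ^ (1 + ε)) x0 (x0 + W) y0 (y0 + H) X}
        ≤ ENNReal.ofReal (C / a)

/-- blueprint 8: separated macroscopic families -/
def SepP (B : Finset V) (m : ℕ) (ℓ : ℤ) (t w : ℝ) (X : V → ℝ) : Prop :=
  ∃ (u : Fin m → ℝ) (A : Fin m → Set V),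
    (∀ i, t ≤ u i ∧ u i ≤ t + w ∧ A i ⊆ (B : Set V) ∩ lev X (u i) ∧ IsConn nn (A i) ∧
      ExtGe (A i) ℓ) ∧
    ∀ i l, i ≠ l → ∀ x ∈ A i, ∀ y ∈ A l, ¬ ConnIn nn (lev X (min (u i) (u l)) ∩ B) x y

/-- blueprint 8: a macroscopic t-component of B without macroscopic t'-connected subset -/
def Birth (B : Finset V) (ℓ : ℤ) (t t' : ℝ) (X : V → ℝ) : Prop :=
  ∃ x ∈ (B : Set V) ∩ lev X t, ExtGe (comp nn (lev X t ∩ B) x) ℓ ∧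
    ∀ A ⊆ comp nn (lev X t ∩ B) x, IsConn nn A → A ⊆ lev X t' → ¬ ExtGe A ℓ

/-- blueprint 8: two macroscopic t'-connected sets of B joined at level t but not at level t' -/
def Merge (B : Finset V) (ℓ : ℤ) (t t' : ℝ) (X : V → ℝ) : Prop :=
  ∃ A A' : Set V, A ⊆ (B : Set V) ∩ lev X t' ∧ A' ⊆ (B : Set V) ∩ lev X t' ∧ IsConn nn A ∧
    IsConn nn A' ∧ ExtGe A ℓ ∧ ExtGe A' ℓ ∧
    (∃ x ∈ A, ∃ y ∈ A', ConnIn nn (lev X t ∩ B) x y) ∧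
    (∀ x ∈ A, ∀ y ∈ A', ¬ ConnIn nn (lev X t' ∩ B) x y)

/-- components of lev X t ∩ B which meet T and have extent ≥ R/8 -/
noncomputable def clus (t : ℝ) (B T : Finset V) (R : ℕ) (X : V → ℝ) : Finset (Set V) := by
  classical
  exact ((T ∩ B).filter (fun x => x ∈ lev X t ∧
    ∃ u ∈ comp nn (lev X t ∩ B) x, ∃ v ∈ comp nn (lev X t ∩ B) x, (R : ℤ) ≤ 8 * dI u v)).image
      (fun x => comp nn (lev X t ∩ B) x)

/-- the functional 𝐃(t,U,z,R), blueprint 9 -/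
noncomputable def FD (t : ℝ) (U : Finset V) (z : V) (R : ℕ) (X : V → ℝ) : ℝ≥0∞ :=
  ∑ κ ∈ clus t (Q z (2 * R) ∩ U) (Q z R) R X,
    (1 + ⨆ x ∈ κ ∩ (Q z R : Set V), ⨆ y ∈ κ ∩ (Q z R : Set V), ((cd (lev X 0) x y : ℕ∞) : ℝ≥0∞))

/-- the number of components in the functional -/
noncomputable def FM (t : ℝ) (U : Finset V) (z : V) (R : ℕ) (X : V → ℝ) : ℕ :=
  (clus t (Q z (2 * R) ∩ U) (Q z R) R X).card

/-- admissible rectangles 𝒰(R,z) -/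
def IsU (R : ℕ) (z : V) (U : Finset V) : Prop :=
  ∃ a b c d : ℤ, U = Rc a b c d ∧ z ∈ U ∧ 2 * (R : ℤ) ≤ b - a ∧ 2 * (R : ℤ) ≤ d - c

/-- L^4 norm -/
noncomputable def N4 (μ : Measure (V → ℝ)) (F : (V → ℝ) → ℝ≥0∞) : ℝ≥0∞ :=
  (∫⁻ X, F X ^ (4 : ℕ) ∂μ) ^ (1 / 4 : ℝ)

/-- oscillation of the harmonic extension, blueprint 9 -/
noncomputable def oscH (z : V) (R : ℕ) (β : V → ℝ) : ℝ := osc (Q z (4 * R)) (hx (Q z (8 * R)) β)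

/-- Λ(t,R) -/
noncomputable def Lam (t : ℝ) (R : ℕ) : ℝ≥0∞ :=
  ⨆ (z : V) (U : Finset V) (_ : IsU R z U) (β : V → ℝ),
    N4 (gam (Q z (8 * R)) β) (FD t U z R) * ENNReal.ofReal (Real.exp (-oscH z R β))

/-- event (or function) determined by the field on A -/
def LocEv (A : Set V) (E : Set (V → ℝ)) : Prop :=
  MeasurableSet E ∧ ∀ X X', (∀ v ∈ A, X v = X' v) → (X ∈ E ↔ X' ∈ E)

/-- Nt is a net of mesh q in B -/
def IsNet (B : Finset V) (q : ℕ) (Nt : Finset V) : Prop :=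
  Nt ⊆ B ∧ (∀ p ∈ B, ∃ c ∈ Nt, dI p c ≤ q) ∧
    ∀ (w : V) (k : ℕ), (Nt.filter (fun c => dI w c ≤ (k * q : ℕ))).card ≤ (2 * k + 1) ^ 2

/-- hypothesis of the abstract recursion at radius R -/
def Dec (t : ℝ) (R b : ℕ) (H1 : ℝ) (ε1 L : ℝ≥0∞) : Prop :=
  ∀ (z : V) (U : Finset V), IsU R z U → ∃ (Nt W : Finset V) (Bad : V → Set (V → ℝ))
    (Y : (V → ℝ) → ℝ≥0∞), IsNet (Q z (2 * R) ∩ U) (R / b / 2) Nt ∧ Measurable Y ∧
    W ⊆ Q z (2 * R + 8 * (R / b : ℕ)) ∧ W.card ≤ 100 * b ^ 2 ∧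
    (∀ w ∈ W, LocEv (Q w (8 * (R / b : ℕ)) : Set V) (Bad w)) ∧
    (∀ w ∈ W, ∀ a : ℝ, gam (Q w (40 * (R / b : ℕ))) (fun _ => a) (Bad w) ≤ ε1) ∧
    (∀ β : V → ℝ, oscH z R β ≤ H1 → N4 (gam (Q z (8 * R)) β) Y ≤ L) ∧
    ∀ X : V → ℝ, (∀ w ∈ W, X ∉ Bad w) →
      FD t U z R X ≤ (FM t U z R X : ℝ≥0∞) * (1 + 2 * (⨆ c ∈ Nt, FD t U c (4 * (R / b)) X) + Y X)

/-- L4B event: some strip of U' (width R/100) disjoint from Q(c,8ρ) has n alternating crossings -/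
def StripEv (t w0 : ℝ) (n : ℕ) (a b c d : ℤ) (R : ℕ) (y : V) (ρ : ℕ) (X : V → ℝ) : Prop :=
  (∃ k : ℕ, a + (k + 1) * (R / 100 : ℕ) ≤ b ∧
    Disjoint (Rc (a + k * (R / 100 : ℕ)) (a + (k + 1) * (R / 100 : ℕ)) c d) (Q y (8 * ρ)) ∧
    Alt 1 n t (t + w0) (a + k * (R / 100 : ℕ)) (a + (k + 1) * (R / 100 : ℕ)) c d X) ∨
  (∃ k : ℕ, c + (k + 1) * (R / 100 : ℕ) ≤ d ∧
    Disjoint (Rc a b (c + k * (R / 100 : ℕ)) (c + (k + 1) * (R / 100 : ℕ))) (Q y (8 * ρ)) ∧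
    Alt 1 n t (t + w0) (c + k * (R / 100 : ℕ)) (c + (k + 1) * (R / 100 : ℕ)) a b (swF X))

/-- the four arcs around w exist with length ≤ L -/
def Ring (L : ℝ) (w : V) (ρ : ℕ) (X : V → ℝ) : Prop :=
  ShortLR L (w.1 - 2 * ρ) (w.1 + 2 * ρ) (w.2 + ρ + 1) (w.2 + 2 * ρ) X ∧
  ShortLR L (w.1 - 2 * ρ) (w.1 + 2 * ρ) (w.2 - 2 * ρ) (w.2 - ρ - 1) X ∧
  ShortLR L (w.2 - 2 * ρ) (w.2 + 2 * ρ) (w.1 + ρ + 1) (w.1 + 2 * ρ) (swF X) ∧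
  ShortLR L (w.2 - 2 * ρ) (w.2 + 2 * ρ) (w.1 - 2 * ρ) (w.1 - ρ - 1) (swF X)

def BadB (t L : ℝ) (ρ : ℕ) (w : V) : Set (V → ℝ) :=
  {X | (∃ A ⊆ (Q w (4 * ρ) : Set V) ∩ lev X t, IsConn nn A ∧ ∃ x ∈ A, ∃ y ∈ A, (ρ : ℤ) ≤ 2 * dI x y) ∧
    ¬ Ring L w ρ X}

/-- the N × N box centred at the origin (N odd) or at (1/2,1/2) (N even) -/
noncomputable def VN (N : ℕ) : Finset V :=
  Rc (-(((N - 1) / 2 : ℕ) : ℤ)) ((N / 2 : ℕ) : ℤ) (-(((N - 1) / 2 : ℕ) : ℤ)) ((N / 2 : ℕ) : ℤ)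

/-- inner vertex boundary: points of V_N with a nearest neighbour outside V_N -/
noncomputable def bN (N : ℕ) : Finset V := by
  classical
  exact (VN N).filter (fun v => ∃ u : V, nn v u ∧ u ∉ VN N)

/-- interior -/
noncomputable def iN (N : ℕ) : Finset V := VN N \ bN N

/-- probability that simple random walk from u is at v at time n and has not met ∂V_N up to time n -/
noncomputable def kp (N : ℕ) : ℕ → V → V → ℝ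
  | 0, u, v => if u ∈ iN N ∧ u = v then 1 else 0
  | n + 1, u, v => if u ∈ iN N then av (fun w => kp N n w v) u else 0

/-- expected number of visits to v before ∂V_N -/
noncomputable def GN (N : ℕ) (u v : V) : ℝ := ∑' n, kp N n u v

/-- η is a Gaussian process on V_N, centred, with covariance (1/4) G_{V_N} -/
def IsDGFF (N : ℕ) {Ω : Type*} [MeasurableSpace Ω] (P : Measure Ω) (η : V → Ω → ℝ) : Prop :=
  (∀ v ∈ VN N, Measurable (η v)) ∧ ∀ c : V → ℝ,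
    P.map (fun ω => ∑ v ∈ VN N, c v * η v ω) =
      gaussianReal 0 (Real.toNNReal (∑ u ∈ VN N, ∑ v ∈ VN N, c u * c v * (GN N u v / 4)))

/-- the open vertices -/
def opn (N : ℕ) (lam : ℝ) {Ω : Type*} (η : V → Ω → ℝ) (ω : Ω) : Set V :=
  {v | v ∈ VN N ∧ η v ω ≤ lam}

/-- D_N : chemical distance between ∂V_{αN} and ∂V_{βN} -/
noncomputable def DN (N : ℕ) (α β lam : ℝ) {Ω : Type*} (η : V → Ω → ℝ) (ω : Ω) : ℕ∞ :=
  ⨅ u ∈ bN ⌊α * N⌋₊, ⨅ v ∈ bN ⌊β * N⌋₊, cd (opn N lam η ω) u v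

/-- D_N as a function of the level field -/
noncomputable def DX (N : ℕ) (α β : ℝ) (X : V → ℝ) : ℕ∞ :=
  ⨅ u ∈ bN ⌊α * N⌋₊, ⨅ v ∈ bN ⌊β * N⌋₊, cd (lev X 0 ∩ VN N) u v

end GF
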