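import Pool.Agent.Lib.MP_acf58e_gf.Defs

/-!
MP_acf58e_pr, module G0: maximum principle, Dirichlet problem, harmonic extension `hx`, Green function `gr`,
harmonic measure `hm`.
-/

open Set

namespace GF

/-- Laplacian -/
noncomputable def lap (f : V → ℝ) (x : V) : ℝ := 4 * (av f x - f x)

open Classical in
/-- the solution of `4 (f - av f) = ρ` on D, `f = β` off D -/
noncomputable def sol (D : Finset V) (β ρ : V → ℝ) : V → ℝ :=
  if h : ∃ f : V → ℝ, (∀ x ∉ D, f x = β x) ∧ ∀ x ∈ D, 4 * (f x - av f x) = ρ x then h.choose else β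

/-- harmonic extension -/
noncomputable def hx (D : Finset V) (β : V → ℝ) : V → ℝ := sol D β (fun _ => 0)

/-- Green function (normalised as the covariance) -/
noncomputable def gr (D : Finset V) (x y : V) : ℝ := sol D (fun _ => 0) (fun z => if z = y then 1 else 0) x

/-- harmonic measure -/
noncomputable def hm (D : Finset V) (x y : V) : ℝ := hx D (fun z => if z = y then 1 else 0) x

theorem nE_mem_bd {D : Finset V} {x : V} (hx : x ∈ D) (h : nE x ∉ D) : nE x ∈ bd D := by
  simp only [bd, Finset.mem_sdiff, Finset.mem_union, Finset.mem_image]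
  exact ⟨Or.inl (Or.inl (Or.inl ⟨x, hx, rfl⟩)), h⟩
theorem nW_mem_bd {D : Finset V} {x : V} (hx : x ∈ D) (h : nW x ∉ D) : nW x ∈ bd D := by
  simp only [bd, Finset.mem_sdiff, Finset.mem_union, Finset.mem_image]
  exact ⟨Or.inl (Or.inl (Or.inr ⟨x, hx, rfl⟩)), h⟩
theorem nN_mem_bd {D : Finset V} {x : V} (hx : x ∈ D) (h : nN x ∉ D) : nN x ∈ bd D := by
  simp only [bd, Finset.mem_sdiff, Finset.mem_union, Finset.mem_image]
  exact ⟨Or.inl (Or.inr ⟨x, hx, rfl⟩), h⟩
theorem nS_mem_bd {D : Finset V} {x : V} (hx : x ∈ D) (h : nS x ∉ D) : nS x ∈ bd D := by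
  simp only [bd, Finset.mem_sdiff, Finset.mem_union, Finset.mem_image]
  exact ⟨Or.inr ⟨x, hx, rfl⟩, h⟩

theorem mem_bd_iff {D : Finset V} {y : V} :
    y ∈ bd D ↔ y ∉ D ∧ (nE y ∈ D ∨ nW y ∈ D ∨ nN y ∈ D ∨ nS y ∈ D) := by
  simp only [bd, Finset.mem_sdiff, Finset.mem_union, Finset.mem_image]
  constructor
  · rintro ⟨h, h2⟩
    refine ⟨h2, ?_⟩
    rcases h with ((⟨x, hx, rfl⟩ | ⟨x, hx, rfl⟩) | ⟨x, hx, rfl⟩) | ⟨x, hx, rfl⟩
    · right; left; simpa [nE, nW] using hx
    · left; simpa [nE, nW] using hx
    · right; right; right; simpa [nN, nS] using hx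
    · right; right; left; simpa [nN, nS] using hx
  · rintro ⟨h2, h⟩
    refine ⟨?_, h2⟩
    rcases h with h | h | h | h
    · exact Or.inl (Or.inl (Or.inr ⟨_, h, by simp [nE, nW]⟩))
    · exact Or.inl (Or.inl (Or.inl ⟨_, h, by simp [nE, nW]⟩))
    · exact Or.inr ⟨_, h, by simp [nN, nS]⟩
    · exact Or.inl (Or.inr ⟨_, h, by simp [nN, nS]⟩)

theorem not_mem_of_mem_bd {D : Finset V} {y : V} (h : y ∈ bd D) : y ∉ D := (mem_bd_iff.1 h).1

/-- maximum principle -/
theorem max_principle (D : Finset V) {f : V → ℝ} (hf : ∀ x ∈ D, f x ≤ av f x) {M : ℝ}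
    (hM : ∀ x ∈ bd D, f x ≤ M) : ∀ x ∈ D, f x ≤ M := by
  intro x₀ hx₀
  by_contra hcon
  push Not at hcon
  obtain ⟨m, hmD, hmax⟩ := D.exists_max_image f ⟨x₀, hx₀⟩
  have hmM : M < f m := lt_of_lt_of_le hcon (hmax x₀ hx₀)
  obtain ⟨E, hE⟩ : ∃ E, E = D.filter (fun x => f x = f m) := ⟨_, rfl⟩
  obtain ⟨e, heE, hemax⟩ := E.exists_max_image (fun x => x.1) ⟨m, by rw [hE]; simp [hmD]⟩
  rw [hE, Finset.mem_filter] at heE
  obtain ⟨heD, hem⟩ := heE
  have key : ∀ y, (y ∈ D ∨ y ∈ bd D) → f y ≤ f m := by
    rintro y (h | h)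
    · exact hmax y h
    · exact le_trans (hM y h) hmM.le
  have hE1 : f (nE e) ≤ f m := key _ (by
    by_cases h : nE e ∈ D
    · exact Or.inl h
    · exact Or.inr (nE_mem_bd heD h))
  have hW1 : f (nW e) ≤ f m := key _ (by
    by_cases h : nW e ∈ D
    · exact Or.inl h
    · exact Or.inr (nW_mem_bd heD h))
  have hN1 : f (nN e) ≤ f m := key _ (by
    by_cases h : nN e ∈ D
    · exact Or.inl h
    · exact Or.inr (nN_mem_bd heD h))
  have hS1 : f (nS e) ≤ f m := key _ (by
    by_cases h : nS e ∈ D
    · exact Or.inl h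
    · exact Or.inr (nS_mem_bd heD h))
  have hav := hf e heD
  have hEe : f (nE e) = f m := by
    unfold av at hav
    linarith
  have hED : nE e ∈ D := by
    by_contra h
    have := hM _ (nE_mem_bd heD h)
    linarith
  have h5 := hemax (nE e) (by rw [hE]; simp [hED, hEe])
  simp [nE] at h5

theorem av_neg (f : V → ℝ) (x : V) : av (fun y => - f y) x = - av f x := by
  unfold av; ring

theorem min_principle (D : Finset V) {f : V → ℝ} (hf : ∀ x ∈ D, av f x ≤ f x) {M : ℝ}
    (hM : ∀ x ∈ bd D, M ≤ f x) : ∀ x ∈ D, M ≤ f x := by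
  intro x hxD
  have := max_principle D (f := fun y => - f y) (M := -M)
    (fun y hy => by rw [av_neg]; exact neg_le_neg (hf y hy))
    (fun y hy => neg_le_neg (hM y hy)) x hxD
  linarith

/-- vanishing off D and harmonic on D implies zero -/
theorem zero_of_harm {D : Finset V} {f : V → ℝ} (h1 : ∀ x ∉ D, f x = 0)
    (h2 : ∀ x ∈ D, f x = av f x) : ∀ x, f x = 0 := by
  intro x
  by_cases hxD : x ∈ D
  · apply le_antisymm
    · exact max_principle D (fun y hy => (h2 y hy).le)
        (fun y hy => (h1 y (not_mem_of_mem_bd hy)).le) x hxD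
    · exact min_principle D (fun y hy => (h2 y hy).ge)
        (fun y hy => (h1 y (not_mem_of_mem_bd hy)).ge) x hxD
  · exact h1 x hxD

open Classical in
theorem exists_sol (D : Finset V) (β ρ : V → ℝ) :
    ∃ f : V → ℝ, (∀ x ∉ D, f x = β x) ∧ ∀ x ∈ D, 4 * (f x - av f x) = ρ x := by
  -- extension by zero
  obtain ⟨ext, hext⟩ : ∃ ext : (D → ℝ) → V → ℝ, ext = fun y x => if h : x ∈ D then y ⟨x, h⟩ else 0 := ⟨_, rfl⟩
  have hadd : ∀ y z, ext (y + z) = ext y + ext z := by
    intro y z; rw [hext]; funext x
    by_cases h : x ∈ D <;> simp [h]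
  have hsmul : ∀ (c : ℝ) y, ext (c • y) = c • ext y := by
    intro c y; rw [hext]; funext x
    by_cases h : x ∈ D <;> simp [h]
  let T : (D → ℝ) →ₗ[ℝ] (D → ℝ) :=
    { toFun := fun y x => 4 * (ext y x - av (ext y) x)
      map_add' := by
        intro y z
        funext x
        simp only [hadd, Pi.add_apply, av]
        ring
      map_smul' := by
        intro c y
        funext x
        simp only [hsmul, Pi.smul_apply, av, smul_eq_mul, RingHom.id_apply]
        ring }
  have hinj : Function.Injective T := by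
    rw [injective_iff_map_eq_zero]
    intro y hy
    have h0 : ∀ x, ext y x = 0 := by
      apply zero_of_harm (D := D)
      · intro x hxD; rw [hext]; simp [hxD]
      · intro x hxD
        have := congrFun hy ⟨x, hxD⟩
        simp only [T, LinearMap.coe_mk, AddHom.coe_mk, Pi.zero_apply] at this
        linarith
    funext x
    have := h0 x
    rw [hext] at this
    simpa using this
  have hsurj : Function.Surjective T := LinearMap.injective_iff_surjective.1 hinj
  obtain ⟨b, hb⟩ : ∃ b : V → ℝ, b = fun x => if x ∈ D then 0 else β x := ⟨_, rfl⟩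
  obtain ⟨y, hy⟩ := hsurj (fun x => ρ x - 4 * (b x - av b x))
  refine ⟨fun x => ext y x + b x, ?_, ?_⟩
  · intro x hxD
    rw [hext, hb]; simp [hxD]
  · intro x hxD
    have := congrFun hy ⟨x, hxD⟩
    simp only [T, LinearMap.coe_mk, AddHom.coe_mk] at this
    have h2 : av (fun x => ext y x + b x) x = av (ext y) x + av b x := by unfold av; ring
    rw [h2]
    linarith

theorem sol_spec (D : Finset V) (β ρ : V → ℝ) :
    (∀ x ∉ D, sol D β ρ x = β x) ∧ ∀ x ∈ D, 4 * (sol D β ρ x - av (sol D β ρ) x) = ρ x := by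
  have h := exists_sol D β ρ
  have e : sol D β ρ = h.choose := by unfold sol; rw [dif_pos h]
  rw [e]
  exact h.choose_spec

theorem sol_off {D : Finset V} {β ρ : V → ℝ} {x : V} (h : x ∉ D) : sol D β ρ x = β x :=
  (sol_spec D β ρ).1 x h

theorem sol_on {D : Finset V} {β ρ : V → ℝ} {x : V} (h : x ∈ D) :
    4 * (sol D β ρ x - av (sol D β ρ) x) = ρ x := (sol_spec D β ρ).2 x h

theorem sol_unique {D : Finset V} {β ρ f : V → ℝ} (h1 : ∀ x ∉ D, f x = β x)
    (h2 : ∀ x ∈ D, 4 * (f x - av f x) = ρ x) : f = sol D β ρ := by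
  funext x
  have := zero_of_harm (D := D) (f := fun y => f y - sol D β ρ y)
    (fun y hy => by rw [h1 y hy, sol_off hy]; ring)
    (fun y hy => by
      have e : av (fun y => f y - sol D β ρ y) y = av f y - av (sol D β ρ) y := by unfold av; ring
      rw [e]
      have := h2 y hy
      have := sol_on (β := β) (ρ := ρ) hy
      linarith) x
  linarith

theorem hx_off {D : Finset V} {β : V → ℝ} {x : V} (h : x ∉ D) : hx D β x = β x := sol_off h

theorem hx_harm (D : Finset V) (β : V → ℝ) {x : V} (h : x ∈ D) : hx D β x = av (hx D β) x := by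
  have := sol_on (β := β) (ρ := fun _ => 0) h
  unfold hx
  linarith

theorem hx_unique {D : Finset V} {β f : V → ℝ} (h1 : ∀ x ∉ D, f x = β x)
    (h2 : ∀ x ∈ D, f x = av f x) : f = hx D β :=
  sol_unique h1 (fun x hxD => by have := h2 x hxD; linarith)

theorem hx_self {D : Finset V} {f : V → ℝ} (h2 : ∀ x ∈ D, f x = av f x) : hx D f = f :=
  (hx_unique (fun _ _ => rfl) h2).symm

theorem hx_add (D : Finset V) (β γ : V → ℝ) :
    hx D (fun x => β x + γ x) = fun x => hx D β x + hx D γ x := by
  symm
  apply hx_unique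
  · intro x h; rw [hx_off h, hx_off h]
  · intro x h
    have e : av (fun x => hx D β x + hx D γ x) x = av (hx D β) x + av (hx D γ) x := by unfold av; ring
    rw [e, ← hx_harm D β h, ← hx_harm D γ h]

theorem hx_smul (D : Finset V) (c : ℝ) (β : V → ℝ) :
    hx D (fun x => c * β x) = fun x => c * hx D β x := by
  symm
  apply hx_unique
  · intro x h; rw [hx_off h]
  · intro x h
    have e : av (fun x => c * hx D β x) x = c * av (hx D β) x := by unfold av; ring
    rw [e, ← hx_harm D β h]

theorem hx_neg (D : Finset V) (β : V → ℝ) :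
    hx D (fun x => - β x) = fun x => - hx D β x := by
  have := hx_smul D (-1) β
  simpa using this

theorem hx_sub (D : Finset V) (β γ : V → ℝ) :
    hx D (fun x => β x - γ x) = fun x => hx D β x - hx D γ x := by
  have h := hx_add D β (fun x => - γ x)
  rw [hx_neg] at h
  simpa [sub_eq_add_neg] using h

theorem hx_const (D : Finset V) (c : ℝ) : hx D (fun _ => c) = fun _ => c :=
  hx_self (fun x _ => by unfold av; ring)

theorem hx_sum {ι : Type*} (s : Finset ι) (D : Finset V) (β : ι → V → ℝ) :
    hx D (fun x => ∑ i ∈ s, β i x) = fun x => ∑ i ∈ s, hx D (β i) x := by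
  symm
  apply hx_unique
  · intro x h; exact Finset.sum_congr rfl (fun i _ => hx_off h)
  · intro x h
    have e : av (fun x => ∑ i ∈ s, hx D (β i) x) x = ∑ i ∈ s, av (hx D (β i)) x := by
      unfold av
      simp only [← Finset.sum_add_distrib, Finset.sum_div]
    rw [e]
    exact Finset.sum_congr rfl (fun i _ => hx_harm D (β i) h)

/-- monotone in the boundary values -/
theorem hx_mono {D : Finset V} {β γ : V → ℝ} (h : ∀ x ∉ D, β x ≤ γ x) : ∀ x, hx D β x ≤ hx D γ x := by
  intro x
  by_cases hxD : x ∈ D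
  · have := max_principle D (f := fun y => hx D β y - hx D γ y) (M := 0)
      (fun y hy => by
        have e : av (fun y => hx D β y - hx D γ y) y = av (hx D β) y - av (hx D γ) y := by unfold av; ring
        rw [e, ← hx_harm D β hy, ← hx_harm D γ hy])
      (fun y hy => by
        have h1 := not_mem_of_mem_bd hy
        rw [hx_off h1, hx_off h1]
        have := h y h1
        linarith) x hxD
    linarith
  · rw [hx_off hxD, hx_off hxD]; exact h x hxD

/-- on D only the values on bd D matter -/
theorem hx_congr_bd {D : Finset V} {β γ : V → ℝ} (h : ∀ x ∈ bd D, β x = γ x) :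
    ∀ x ∈ D, hx D β x = hx D γ x := by
  intro x hxD
  have h1 := max_principle D (f := fun y => hx D β y - hx D γ y) (M := 0)
      (fun y hy => by
        have e : av (fun y => hx D β y - hx D γ y) y = av (hx D β) y - av (hx D γ) y := by unfold av; ring
        rw [e, ← hx_harm D β hy, ← hx_harm D γ hy])
      (fun y hy => by
        have h1 := not_mem_of_mem_bd hy
        rw [hx_off h1, hx_off h1, h y hy, sub_self]) x hxD
  have h2 := min_principle D (f := fun y => hx D β y - hx D γ y) (M := 0)
      (fun y hy => by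
        have e : av (fun y => hx D β y - hx D γ y) y = av (hx D β) y - av (hx D γ) y := by unfold av; ring
        rw [e, ← hx_harm D β hy, ← hx_harm D γ hy])
      (fun y hy => by
        have h1 := not_mem_of_mem_bd hy
        rw [hx_off h1, hx_off h1, h y hy, sub_self]) x hxD
  linarith

theorem hx_mono_bd {D : Finset V} {β γ : V → ℝ} (h : ∀ x ∈ bd D, β x ≤ γ x) :
    ∀ x ∈ D, hx D β x ≤ hx D γ x := by
  intro x hxD
  have := max_principle D (f := fun y => hx D β y - hx D γ y) (M := 0)
      (fun y hy => by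
        have e : av (fun y => hx D β y - hx D γ y) y = av (hx D β) y - av (hx D γ) y := by unfold av; ring
        rw [e, ← hx_harm D β hy, ← hx_harm D γ hy])
      (fun y hy => by
        have h1 := not_mem_of_mem_bd hy
        rw [hx_off h1, hx_off h1]
        have := h y hy
        linarith) x hxD
  linarith

theorem hm_off {D : Finset V} {x y : V} (h : x ∉ D) : hm D x y = if x = y then 1 else 0 := hx_off h

theorem hm_nonneg (D : Finset V) (x y : V) : 0 ≤ hm D x y := by
  have := hx_mono (D := D) (β := fun _ => 0) (γ := fun z => if z = y then (1:ℝ) else 0)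
    (fun z _ => by positivity) x
  rwa [hx_const] at this

theorem hm_le_one (D : Finset V) (x y : V) : hm D x y ≤ 1 := by
  have := hx_mono (D := D) (γ := fun _ => 1) (β := fun z => if z = y then (1:ℝ) else 0)
    (fun z _ => by show (if z = y then (1:ℝ) else 0) ≤ 1; split_ifs <;> norm_num) x
  rwa [hx_const] at this

theorem hm_eq_zero {D : Finset V} {x y : V} (hxD : x ∈ D) (hy : y ∉ bd D) : hm D x y = 0 := by
  have := hx_congr_bd (D := D) (β := fun z => if z = y then (1:ℝ) else 0) (γ := fun _ => 0)
    (fun z hz => by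
      have : z ≠ y := by rintro rfl; exact hy hz
      simp [this]) x hxD
  rw [hx_const] at this
  exact this

theorem hx_eq_sum {D : Finset V} {x : V} (hxD : x ∈ D) (β : V → ℝ) :
    hx D β x = ∑ y ∈ bd D, hm D x y * β y := by
  have h1 := hx_congr_bd (D := D) (β := β)
    (γ := fun z => ∑ y ∈ bd D, β y * (if z = y then 1 else 0))
    (fun z hz => by simp [hz]) x hxD
  rw [h1, hx_sum]
  apply Finset.sum_congr rfl
  intro y _
  have := congrFun (hx_smul D (β y) (fun z => if z = y then (1:ℝ) else 0)) x
  rw [this]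
  unfold hm
  ring

theorem hm_sum {D : Finset V} {x : V} (hxD : x ∈ D) : ∑ y ∈ bd D, hm D x y = 1 := by
  have := hx_eq_sum hxD (fun _ => (1:ℝ))
  rw [hx_const] at this
  simpa using this.symm

theorem hx_consist {D E : Finset V} (h : E ⊆ D) (β : V → ℝ) : hx E (hx D β) = hx D β :=
  hx_self (fun _ hxE => hx_harm D β (h hxE))

/-- strong Markov property of the harmonic measure -/
theorem hm_markov {D E : Finset V} (h : E ⊆ D) {x : V} (hxE : x ∈ E) (y : V) :
    hm D x y = ∑ z ∈ bd E, hm E x z * hm D z y := by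
  unfold hm
  conv_lhs => rw [← hx_consist h]
  rw [hx_eq_sum hxE]
  rfl

theorem hm_mono {D E : Finset V} (h : E ⊆ D) (x : V) {y : V} (hy : y ∉ D) :
    hm E x y ≤ hm D x y := by
  unfold hm
  conv_rhs => rw [← hx_consist h]
  apply hx_mono
  intro z _
  by_cases hz : z = y
  · subst hz; rw [hx_off hy]
  · simp only [hz, if_false]; exact hm_nonneg D z y

/-! ### Green function -/

theorem gr_off_left {D : Finset V} {x y : V} (h : x ∉ D) : gr D x y = 0 := sol_off h

theorem gr_on {D : Finset V} {x : V} (y : V) (h : x ∈ D) :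
    4 * (gr D x y - av (fun z => gr D z y) x) = if x = y then 1 else 0 :=
  sol_on (β := fun _ => 0) (ρ := fun z => if z = y then 1 else 0) h

theorem gr_nonneg (D : Finset V) (x y : V) : 0 ≤ gr D x y := by
  by_cases hxD : x ∈ D
  · exact min_principle D (f := fun z => gr D z y)
      (fun z hz => by
        have := gr_on y hz
        have h2 : (0:ℝ) ≤ if z = y then 1 else 0 := by positivity
        show av (fun z => gr D z y) z ≤ gr D z y
        linarith)
      (fun z hz => (gr_off_left (not_mem_of_mem_bd hz)).ge) x hxD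
  · exact (gr_off_left hxD).ge

theorem gr_off_right {D : Finset V} {x y : V} (h : y ∉ D) : gr D x y = 0 :=
  zero_of_harm (D := D) (f := fun z => gr D z y) (fun _ hz => gr_off_left hz)
    (fun z hz => by
      have := gr_on y hz
      have h2 : z ≠ y := by rintro rfl; exact h hz
      rw [if_neg h2] at this
      show gr D z y = av (fun z => gr D z y) z
      linarith) x

theorem sol_eq (D : Finset V) (β ρ : V → ℝ) (x : V) :
    sol D β ρ x = hx D β x + ∑ z ∈ D, gr D x z * ρ z := by
  have : (fun x => hx D β x + ∑ z ∈ D, gr D x z * ρ z) = sol D β ρ := by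
    apply sol_unique
    · intro x hxD
      rw [hx_off hxD, Finset.sum_eq_zero (fun z _ => by rw [gr_off_left hxD, zero_mul]), add_zero]
    · intro x hxD
      have e : av (fun x => hx D β x + ∑ z ∈ D, gr D x z * ρ z) x
          = av (hx D β) x + ∑ z ∈ D, av (fun w => gr D w z) x * ρ z := by
        unfold av
        simp only [add_div, Finset.sum_div, add_mul, Finset.sum_add_distrib, div_mul_eq_mul_div]
        ring
      rw [e, ← hx_harm D β hxD]
      have e2 : ∑ z ∈ D, gr D x z * ρ z - ∑ z ∈ D, av (fun w => gr D w z) x * ρ z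
          = ρ x / 4 := by
        rw [← Finset.sum_sub_distrib]
        have : ∀ z ∈ D, gr D x z * ρ z - av (fun w => gr D w z) x * ρ z
            = (if x = z then 1 else 0) * ρ z / 4 := by
          intro z _
          have := gr_on z hxD
          rw [← this]; ring
        rw [Finset.sum_congr rfl this]
        simp [hxD, ← Finset.sum_div]
      linarith
  rw [← this]

end GF
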