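import Pool.Agent.Lib.MP_acf58e_gf.G0

/-!
MP_acf58e_pr, module G0b: energy, summation by parts, symmetry of the Green function, comparison of domains.
-/

open Set

namespace GF

/-- bilinear Dirichlet form over the edges touching D -/
noncomputable def ebil (D : Finset V) (X Y : V → ℝ) : ℝ :=
  (∑ x ∈ eH D, (X (nE x) - X x) * (Y (nE x) - Y x) + ∑ x ∈ eV D, (X (nN x) - X x) * (Y (nN x) - Y x))

theorem energy_eq_ebil (D : Finset V) (X : V → ℝ) : energy D X = ebil D X X / 2 := by
  unfold energy ebil
  congr 2 <;> exact Finset.sum_congr rfl (fun x _ => by ring)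

theorem energy_nonneg (D : Finset V) (X : V → ℝ) : 0 ≤ energy D X := by
  unfold energy
  positivity

theorem ebil_comm (D : Finset V) (X Y : V → ℝ) : ebil D X Y = ebil D Y X := by
  unfold ebil
  congr 1 <;> exact Finset.sum_congr rfl (fun x _ => by ring)

theorem sum_eH {D : Finset V} {φ g : V → ℝ} (hφ : ∀ x ∉ D, φ x = 0) :
    ∑ x ∈ eH D, (φ (nE x) - φ x) * g x = ∑ x ∈ D, φ x * (g (nW x) - g x) := by
  have h1 : ∑ x ∈ eH D, φ x * g x = ∑ x ∈ D, φ x * g x := by
    symm
    apply Finset.sum_subset
    · intro x hx; unfold eH; exact Finset.mem_union_left _ hx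
    · intro x _ hx; rw [hφ x hx, zero_mul]
  have h2 : ∑ x ∈ eH D, φ (nE x) * g x = ∑ x ∈ D, φ x * g (nW x) := by
    have e : ∑ x ∈ D, φ x * g (nW x) = ∑ x ∈ D.image nW, φ (nE x) * g x := by
      rw [Finset.sum_image]
      · apply Finset.sum_congr rfl
        intro x _
        simp [nE, nW]
      · intro a _ b _ hab
        simp only [nW, Prod.mk.injEq] at hab
        ext
        · linarith [hab.1]
        · exact hab.2
    rw [e]
    symm
    apply Finset.sum_subset
    · intro x hx; unfold eH; exact Finset.mem_union_right _ hx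
    · intro x _ hx
      rw [hφ (nE x), zero_mul]
      intro h
      apply hx
      rw [Finset.mem_image]
      exact ⟨nE x, h, by simp [nE, nW]⟩
  have e3 : ∑ x ∈ eH D, (φ (nE x) - φ x) * g x = ∑ x ∈ eH D, φ (nE x) * g x - ∑ x ∈ eH D, φ x * g x := by
    rw [← Finset.sum_sub_distrib]; exact Finset.sum_congr rfl (fun x _ => by ring)
  rw [e3, h1, h2, ← Finset.sum_sub_distrib]
  exact Finset.sum_congr rfl (fun x _ => by ring)

theorem sum_eV {D : Finset V} {φ g : V → ℝ} (hφ : ∀ x ∉ D, φ x = 0) :
    ∑ x ∈ eV D, (φ (nN x) - φ x) * g x = ∑ x ∈ D, φ x * (g (nS x) - g x) := by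
  have h1 : ∑ x ∈ eV D, φ x * g x = ∑ x ∈ D, φ x * g x := by
    symm
    apply Finset.sum_subset
    · intro x hx; unfold eV; exact Finset.mem_union_left _ hx
    · intro x _ hx; rw [hφ x hx, zero_mul]
  have h2 : ∑ x ∈ eV D, φ (nN x) * g x = ∑ x ∈ D, φ x * g (nS x) := by
    have e : ∑ x ∈ D, φ x * g (nS x) = ∑ x ∈ D.image nS, φ (nN x) * g x := by
      rw [Finset.sum_image]
      · apply Finset.sum_congr rfl
        intro x _
        simp [nN, nS]
      · intro a _ b _ hab
        simp only [nS, Prod.mk.injEq] at hab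
        ext
        · exact hab.1
        · linarith [hab.2]
    rw [e]
    symm
    apply Finset.sum_subset
    · intro x hx; unfold eV; exact Finset.mem_union_right _ hx
    · intro x _ hx
      rw [hφ (nN x), zero_mul]
      intro h
      apply hx
      rw [Finset.mem_image]
      exact ⟨nN x, h, by simp [nN, nS]⟩
  have e3 : ∑ x ∈ eV D, (φ (nN x) - φ x) * g x = ∑ x ∈ eV D, φ (nN x) * g x - ∑ x ∈ eV D, φ x * g x := by
    rw [← Finset.sum_sub_distrib]; exact Finset.sum_congr rfl (fun x _ => by ring)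
  rw [e3, h1, h2, ← Finset.sum_sub_distrib]
  exact Finset.sum_congr rfl (fun x _ => by ring)

/-- summation by parts -/
theorem ebil_parts {D : Finset V} {φ : V → ℝ} (hφ : ∀ x ∉ D, φ x = 0) (X : V → ℝ) :
    ebil D φ X = - ∑ x ∈ D, φ x * lap X x := by
  unfold ebil
  rw [sum_eH (g := fun x => X (nE x) - X x) hφ, sum_eV (g := fun x => X (nN x) - X x) hφ,
    ← Finset.sum_add_distrib, ← Finset.sum_neg_distrib]
  apply Finset.sum_congr rfl
  intro x _
  have e1 : nE (nW x) = x := by simp [nE, nW]
  have e2 : nN (nS x) = x := by simp [nN, nS]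
  simp only [e1, e2, lap, av]
  ring

theorem ebil_parts' {D : Finset V} {φ : V → ℝ} (hφ : ∀ x ∉ D, φ x = 0) (X : V → ℝ) :
    ebil D X φ = - ∑ x ∈ D, φ x * lap X x := by
  rw [ebil_comm, ebil_parts hφ]

theorem energy_add (D : Finset V) (X Y : V → ℝ) :
    energy D (fun x => X x + Y x) = energy D X + ebil D X Y + energy D Y := by
  unfold energy ebil
  have e1 : ∀ x, (X (nE x) + Y (nE x) - (X x + Y x)) ^ 2
      = (X (nE x) - X x) ^ 2 + 2 * ((X (nE x) - X x) * (Y (nE x) - Y x)) + (Y (nE x) - Y x) ^ 2 :=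
    fun x => by ring
  have e2 : ∀ x, (X (nN x) + Y (nN x) - (X x + Y x)) ^ 2
      = (X (nN x) - X x) ^ 2 + 2 * ((X (nN x) - X x) * (Y (nN x) - Y x)) + (Y (nN x) - Y x) ^ 2 :=
    fun x => by ring
  simp only [e1, e2, Finset.sum_add_distrib, ← Finset.mul_sum]
  ring

/-- energy of a perturbation vanishing off D -/
theorem energy_add_parts {D : Finset V} (X : V → ℝ) {φ : V → ℝ} (hφ : ∀ x ∉ D, φ x = 0) :
    energy D (fun x => X x + φ x) = energy D X - ∑ x ∈ D, φ x * lap X x + energy D φ := by
  rw [energy_add, ebil_parts' hφ]; ring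

theorem energy_parts {D : Finset V} {φ : V → ℝ} (hφ : ∀ x ∉ D, φ x = 0) :
    energy D φ = - (∑ x ∈ D, φ x * lap φ x) / 2 := by
  rw [energy_eq_ebil, ebil_parts hφ]

/-- symmetry of the Laplacian -/
theorem sum_lap_comm {D : Finset V} {φ ψ : V → ℝ} (hφ : ∀ x ∉ D, φ x = 0) (hψ : ∀ x ∉ D, ψ x = 0) :
    ∑ x ∈ D, φ x * lap ψ x = ∑ x ∈ D, ψ x * lap φ x := by
  have h1 := ebil_parts hφ ψ
  have h2 := ebil_parts' hψ φ
  linarith

theorem lap_gr {D : Finset V} {x : V} (y : V) (h : x ∈ D) :
    lap (fun z => gr D z y) x = - (if x = y then 1 else 0) := by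
  have := gr_on y h
  unfold lap
  linarith

theorem gr_symm (D : Finset V) (x y : V) : gr D x y = gr D y x := by
  by_cases hxD : x ∈ D
  · by_cases hyD : y ∈ D
    · have h := sum_lap_comm (D := D) (φ := fun z => gr D z x) (ψ := fun z => gr D z y)
        (fun _ hz => gr_off_left hz) (fun _ hz => gr_off_left hz)
      have h1 : ∑ z ∈ D, gr D z x * lap (fun w => gr D w y) z = - gr D y x := by
        rw [Finset.sum_congr rfl (g := fun z => gr D z x * -(if z = y then (1:ℝ) else 0))
          (fun z hz => by rw [lap_gr y hz])]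
        simp [hyD]
      have h2 : ∑ z ∈ D, gr D z y * lap (fun w => gr D w x) z = - gr D x y := by
        rw [Finset.sum_congr rfl (g := fun z => gr D z y * -(if z = x then (1:ℝ) else 0))
          (fun z hz => by rw [lap_gr x hz])]
        simp [hxD]
      rw [h1, h2] at h
      linarith
    · rw [gr_off_right hyD, gr_off_left hyD]
  · rw [gr_off_right hxD, gr_off_left hxD]

theorem gr_le_diag (D : Finset V) (x y : V) : gr D x y ≤ gr D y y := by
  by_cases hyx : x = y
  · rw [hyx]
  by_cases hxD : x ∈ D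
  · apply max_principle (D.erase y) (f := fun z => gr D z y) _ _ x (Finset.mem_erase.2 ⟨hyx, hxD⟩)
    · intro z hz
      obtain ⟨h1, h2⟩ := Finset.mem_erase.1 hz
      have := gr_on y h2
      rw [if_neg h1] at this
      show gr D z y ≤ av (fun z => gr D z y) z
      linarith
    · intro z hz
      have h3 := not_mem_of_mem_bd hz
      by_cases hzy : z = y
      · rw [hzy]
      · have : z ∉ D := fun h => h3 (Finset.mem_erase.2 ⟨hzy, h⟩)
        show gr D z y ≤ gr D y y
        rw [gr_off_left this]
        exact gr_nonneg _ _ _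
  · rw [gr_off_left hxD]; exact gr_nonneg _ _ _

theorem gr_diag_ge {D : Finset V} {x : V} (hxD : x ∈ D) : 1 / 4 ≤ gr D x x := by
  have h := gr_on x hxD
  rw [if_pos rfl] at h
  have h2 : 0 ≤ av (fun z => gr D z x) x := by
    unfold av
    have := gr_nonneg D (nE x) x
    have := gr_nonneg D (nW x) x
    have := gr_nonneg D (nN x) x
    have := gr_nonneg D (nS x) x
    positivity
  linarith

/-- difference of two Green functions -/
theorem gr_diff {D E : Finset V} (h : E ⊆ D) {x : V} (hxE : x ∈ E) (y : V) :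
    gr D x y - gr E x y = ∑ z ∈ bd E, hm E x z * gr D z y := by
  rw [← hx_eq_sum hxE (fun z => gr D z y)]
  have : (fun z => gr D z y - gr E z y) = hx E (fun z => gr D z y) := by
    apply hx_unique
    · intro z hz; rw [gr_off_left hz, sub_zero]
    · intro z hz
      have h1 := gr_on (D := D) y (h hz)
      have h2 := gr_on (D := E) y hz
      have e : av (fun z => gr D z y - gr E z y) z
          = av (fun z => gr D z y) z - av (fun z => gr E z y) z := by unfold av; ring
      rw [e]
      show gr D z y - gr E z y = _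
      linarith
  rw [← this]

theorem gr_mono {D E : Finset V} (h : E ⊆ D) (x y : V) : gr E x y ≤ gr D x y := by
  by_cases hxE : x ∈ E
  · have := gr_diff h hxE y
    have h2 : 0 ≤ ∑ z ∈ bd E, hm E x z * gr D z y :=
      Finset.sum_nonneg (fun z _ => mul_nonneg (hm_nonneg _ _ _) (gr_nonneg _ _ _))
    linarith
  · rw [gr_off_left hxE]; exact gr_nonneg _ _ _

/-- last step decomposition -/
theorem hm_eq_gr {D : Finset V} {x y : V} (hxD : x ∈ D) (hy : y ∉ D) :
    hm D x y = gr D x (nE y) + gr D x (nW y) + gr D x (nN y) + gr D x (nS y) := by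
  have h1 : ∀ z ∈ D, 4 * ((if z = y then (1:ℝ) else 0) - av (fun z => if z = y then (1:ℝ) else 0) z)
      = - ((if z = nE y then 1 else 0) + (if z = nW y then 1 else 0) + (if z = nN y then 1 else 0)
        + (if z = nS y then 1 else 0)) := by
    intro z hz
    have hzy : z ≠ y := by rintro rfl; exact hy hz
    have a1 : (nE z = y) = (z = nW y) := by
      apply propext; constructor
      · rintro rfl; simp [nE, nW]
      · rintro rfl; simp [nE, nW]
    have a2 : (nW z = y) = (z = nE y) := by
      apply propext; constructor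
      · rintro rfl; simp [nE, nW]
      · rintro rfl; simp [nE, nW]
    have a3 : (nN z = y) = (z = nS y) := by
      apply propext; constructor
      · rintro rfl; simp [nN, nS]
      · rintro rfl; simp [nN, nS]
    have a4 : (nS z = y) = (z = nN y) := by
      apply propext; constructor
      · rintro rfl; simp [nN, nS]
      · rintro rfl; simp [nN, nS]
    unfold av
    simp only [hzy, if_false, a1, a2, a3, a4]
    ring
  have h2 : (fun z => if z = y then (1:ℝ) else 0) = sol D (fun z => if z = y then (1:ℝ) else 0)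
      (fun z => - ((if z = nE y then 1 else 0) + (if z = nW y then 1 else 0) + (if z = nN y then 1 else 0)
        + (if z = nS y then 1 else 0))) :=
    sol_unique (fun _ _ => rfl) h1
  have h3 := congrFun h2 x
  rw [sol_eq] at h3
  have hxy : x ≠ y := by rintro rfl; exact hy hxD
  have h4 : ∀ w : V, ∑ z ∈ D, gr D x z * (if z = w then (1:ℝ) else 0) = gr D x w := by
    intro w
    by_cases hw : w ∈ D
    · simp [hw]
    · rw [gr_off_right hw]
      apply Finset.sum_eq_zero
      intro z hz
      have : z ≠ w := by rintro rfl; exact hw hz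
      simp [this]
  have h5 : ∑ z ∈ D, gr D x z * -((if z = nE y then (1:ℝ) else 0) + (if z = nW y then 1 else 0)
      + (if z = nN y then 1 else 0) + (if z = nS y then 1 else 0))
      = - (gr D x (nE y) + gr D x (nW y) + gr D x (nN y) + gr D x (nS y)) := by
    rw [← h4 (nE y), ← h4 (nW y), ← h4 (nN y), ← h4 (nS y)]
    simp only [← Finset.sum_add_distrib, ← Finset.sum_neg_distrib]
    exact Finset.sum_congr rfl (fun z _ => by ring)
  rw [h5, if_neg hxy] at h3
  unfold hm
  linarith

/-- potential of a charge -/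
noncomputable def pot (D : Finset V) (ψ : V → ℝ) (x : V) : ℝ := ∑ z ∈ D, gr D x z * ψ z

theorem pot_off {D : Finset V} {ψ : V → ℝ} {x : V} (h : x ∉ D) : pot D ψ x = 0 :=
  Finset.sum_eq_zero (fun z _ => by rw [gr_off_left h, zero_mul])

theorem lap_pot {D : Finset V} {ψ : V → ℝ} {x : V} (h : x ∈ D) : lap (pot D ψ) x = - ψ x := by
  have e : pot D ψ = sol D (fun _ => 0) ψ := by
    funext z
    rw [sol_eq, hx_const, zero_add]
    rfl
  have := sol_on (β := fun _ => 0) (ρ := ψ) h
  rw [← e] at this
  unfold lap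
  linarith

theorem energy_pot (D : Finset V) (ψ : V → ℝ) :
    energy D (pot D ψ) = (∑ x ∈ D, ∑ y ∈ D, ψ x * gr D x y * ψ y) / 2 := by
  rw [energy_parts (fun x h => pot_off h)]
  congr 1
  rw [← Finset.sum_neg_distrib]
  apply Finset.sum_congr rfl
  intro x hx
  rw [lap_pot hx, pot]
  rw [mul_neg, neg_neg, Finset.sum_mul]
  exact Finset.sum_congr rfl (fun z _ => by ring)

theorem quad_nonneg (D : Finset V) (ψ : V → ℝ) :
    0 ≤ ∑ x ∈ D, ∑ y ∈ D, ψ x * gr D x y * ψ y := by
  have := energy_nonneg D (pot D ψ)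
  rw [energy_pot] at this
  linarith

/-- two-sided formula for the quadratic form of the difference of Green functions -/
theorem gr_diff2 {D E : Finset V} (h : E ⊆ D) {x y : V} (hxE : x ∈ E) (hyE : y ∈ E) :
    gr D x y - gr E x y = ∑ z ∈ bd E, ∑ w ∈ bd E, hm E x z * gr D z w * hm E y w := by
  have e0 : ∀ z ∈ bd E, gr D z y = ∑ w ∈ bd E, gr D z w * hm E y w := by
    intro z hz
    rw [gr_symm]
    have h1 := gr_diff h hyE z
    rw [gr_off_right (not_mem_of_mem_bd hz), sub_zero] at h1
    rw [h1]
    exact Finset.sum_congr rfl (fun w _ => by rw [gr_symm D w z]; ring)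
  rw [gr_diff h hxE y]
  apply Finset.sum_congr rfl
  intro z hz
  rw [e0 z hz, Finset.mul_sum]
  exact Finset.sum_congr rfl (fun w _ => by ring)

end GF
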