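import Pool.Agent.Lib.MP_acf58e_gf.G0b

/-! MP_acf58e_pr, row G7: Green function bounded by the length of a path to the complement. -/

open Set

namespace GF

namespace G7r

theorem nn_cases {x y : V} (h : nn x y) : y = nE x ∨ y = nW x ∨ y = nN x ∨ y = nS x := by
  obtain ⟨x1, x2⟩ := x
  obtain ⟨y1, y2⟩ := y
  simp only [nn] at h
  simp only [nE, nW, nN, nS, Prod.mk.injEq]
  have h1 := abs_nonneg (x1 - y1)
  have h2 := abs_nonneg (x2 - y2)
  rcases abs_cases (x1 - y1) with ⟨e1, -⟩ | ⟨e1, -⟩ <;>
    rcases abs_cases (x2 - y2) with ⟨e2, -⟩ | ⟨e2, -⟩ <;> omega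

/-- an edge with an end point in D contributes to the energy -/
theorem edge_le {D : Finset V} {h : V → ℝ} {x y : V} (hx : x ∈ D) (hxy : nn x y) :
    (h x - h y) ^ 2 ≤ 2 * energy D h := by
  have hH : ∀ w ∈ eH D, (h (nE w) - h w) ^ 2 ≤ ∑ x ∈ eH D, (h (nE x) - h x) ^ 2 := fun w hw =>
    Finset.single_le_sum (f := fun x => (h (nE x) - h x) ^ 2) (fun _ _ => sq_nonneg _) hw
  have hV : ∀ w ∈ eV D, (h (nN w) - h w) ^ 2 ≤ ∑ x ∈ eV D, (h (nN x) - h x) ^ 2 := fun w hw =>
    Finset.single_le_sum (f := fun x => (h (nN x) - h x) ^ 2) (fun _ _ => sq_nonneg _) hw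
  have sH : 0 ≤ ∑ x ∈ eH D, (h (nE x) - h x) ^ 2 := Finset.sum_nonneg fun _ _ => sq_nonneg _
  have sV : 0 ≤ ∑ x ∈ eV D, (h (nN x) - h x) ^ 2 := Finset.sum_nonneg fun _ _ => sq_nonneg _
  have e : 2 * energy D h = ∑ x ∈ eH D, (h (nE x) - h x) ^ 2 + ∑ x ∈ eV D, (h (nN x) - h x) ^ 2 := by
    unfold energy; ring
  rw [e]
  rcases nn_cases hxy with rfl | rfl | rfl | rfl
  · have h1 := hH x (Finset.mem_union_left _ hx)
    have h2 : (h x - h (nE x)) ^ 2 = (h (nE x) - h x) ^ 2 := by ring
    linarith
  · have h1 := hH (nW x) (Finset.mem_union_right _ (Finset.mem_image_of_mem nW hx))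
    have h2 : nE (nW x) = x := by simp [nE, nW]
    rw [h2] at h1
    linarith
  · have h1 := hV x (Finset.mem_union_left _ hx)
    have h2 : (h x - h (nN x)) ^ 2 = (h (nN x) - h x) ^ 2 := by ring
    linarith
  · have h1 := hV (nS x) (Finset.mem_union_right _ (Finset.mem_image_of_mem nS hx))
    have h2 : nN (nS x) = x := by simp [nN, nS]
    rw [h2] at h1
    linarith

theorem two_energy {D : Finset V} {x y : V} (hx : x ∈ D) :
    2 * energy D (fun z => gr D z x - gr D z y)
      = (gr D x x - gr D x y) - (gr D y x - gr D y y) := by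
  have hoff : ∀ z ∉ D, (fun z => gr D z x - gr D z y) z = 0 := fun z hz => by
    show gr D z x - gr D z y = 0
    rw [gr_off_left hz, gr_off_left hz, sub_zero]
  have h1 := energy_parts hoff
  have h2 : ∀ z ∈ D, (gr D z x - gr D z y) * lap (fun z => gr D z x - gr D z y) z
      = (gr D z x - gr D z y) * (-(if z = x then 1 else 0)) +
        (gr D z x - gr D z y) * (if z = y then 1 else 0) := by
    intro z hz
    have e : lap (fun z => gr D z x - gr D z y) z
        = lap (fun z => gr D z x) z - lap (fun z => gr D z y) z := by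
      unfold lap av; ring
    rw [e, lap_gr x hz, lap_gr y hz]
    ring
  have h3 : ∑ z ∈ D, (gr D z x - gr D z y) * (-(if z = x then (1:ℝ) else 0))
      = -(gr D x x - gr D x y) := by
    rw [Finset.sum_eq_single x]
    · simp
    · intro b _ hb; simp [hb]
    · intro h; exact absurd hx h
  have h4 : ∑ z ∈ D, (gr D z x - gr D z y) * (if z = y then (1:ℝ) else 0)
      = gr D y x - gr D y y := by
    by_cases hy : y ∈ D
    · rw [Finset.sum_eq_single y]
      · simp
      · intro b _ hb; simp [hb]
      · intro h; exact absurd hy h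
    · rw [gr_off_left hy, gr_off_left hy, sub_zero]
      apply Finset.sum_eq_zero
      intro z hz
      have : z ≠ y := by rintro rfl; exact hy hz
      simp [this]
  rw [h1, Finset.sum_congr rfl h2, Finset.sum_add_distrib, h3, h4]
  ring

theorem step {D : Finset V} {x y : V} (h : x = y ∨ nn x y) : gr D x x ≤ 1 + gr D y y := by
  rcases h with rfl | h
  · linarith
  by_cases hx : x ∈ D
  · have h1 := edge_le (h := fun z => gr D z x - gr D z y) hx h
    rw [two_energy hx] at h1
    have h2 : (gr D x x - gr D x y) - (gr D y x - gr D y y) ≤ 1 := by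
      have h3 : ((gr D x x - gr D x y) - (gr D y x - gr D y y)) ^ 2
          ≤ (gr D x x - gr D x y) - (gr D y x - gr D y y) := h1
      nlinarith
    have h3 := gr_le_diag D x y
    have h4 := gr_symm D x y
    rw [← h4] at h2
    linarith
  · rw [gr_off_left hx]
    have := gr_nonneg D y y
    linarith

end G7r

theorem gr_le_path {D : Finset V} {y z : V} {n : ℕ} {p : ℕ → V} (hp : IsPath nn univ n p y z) (hz : z ∉ D) :
    gr D y y ≤ n := by
  obtain ⟨h0, hn, -, hadj⟩ := hp
  have key : ∀ k, k ≤ n → gr D (p (n - k)) (p (n - k)) ≤ k := by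
    intro k
    induction k with
    | zero =>
      intro _
      rw [Nat.sub_zero, hn, gr_off_left hz]
      simp
    | succ k ih =>
      intro hk
      have h1 := ih (by omega)
      have h2 : n - (k + 1) + 1 = n - k := by omega
      have h3 := hadj (n - (k + 1)) (by omega)
      rw [h2] at h3
      have h4 := G7r.step (D := D) (Or.inr h3)
      push_cast
      linarith
  have h5 := key n le_rfl
  rwa [Nat.sub_self, h0] at h5

/-- a star-neighbour outside D: all nearest neighbours have Green function at most 3 -/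
theorem gr_near {D : Finset V} {x y p : V} (hp : p ∉ D) (hxp : dI x p ≤ 1) (hxy : x = y ∨ nn x y) :
    gr D y y ≤ 3 := by
  have hyx : y = x ∨ nn y x := by
    rcases hxy with rfl | h
    · exact Or.inl rfl
    · refine Or.inr ?_
      simp only [nn] at h ⊢
      rw [abs_sub_comm y.1, abs_sub_comm y.2]
      exact h
  have h1 := G7r.step (D := D) hyx
  obtain ⟨x1, x2⟩ := x
  obtain ⟨p1, p2⟩ := p
  simp only [dI, max_le_iff] at hxp
  have h2 : gr D (x1, x2) (x1, x2) ≤ 1 + gr D (p1, x2) (p1, x2) := by
    apply G7r.step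
    by_cases h : x1 = p1
    · left; rw [h]
    · right
      simp only [nn, sub_self, abs_zero, add_zero]
      have := abs_pos.mpr (sub_ne_zero.mpr h)
      omega
  have h3 : gr D (p1, x2) (p1, x2) ≤ 1 + gr D (p1, p2) (p1, p2) := by
    apply G7r.step
    by_cases h : x2 = p2
    · left; rw [h]
    · right
      simp only [nn, sub_self, abs_zero, zero_add]
      have := abs_pos.mpr (sub_ne_zero.mpr h)
      omega
  rw [gr_off_left hp] at h3
  linarith

end GF
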