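import Pool.Agent.Lib.MP_acf58e_gf.X0

/-! Staged exploration (blueprint 7.0, 7.1): definitions. Arena: columns 0..W, rows 0..T+1. -/

open MeasureTheory Set ProbabilityTheory
open scoped ENNReal

namespace GF

/-- arena 𝓣 -/
noncomputable def TT (W T : ℕ) : Finset V := Rc 0 W 0 (T + 1)

/-- sides: left column, right column, top row -/
noncomputable def Sd (W T : ℕ) : Finset V := (TT W T).filter (fun v => v.1 = 0 ∨ v.1 = W ∨ v.2 = T + 1)

/-- seed row -/
noncomputable def row0 (W : ℕ) : Finset V := Rc 1 (W - 1) 0 0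

def s0 (T : ℕ) : V := (0, T + 1)

/-- component of s0 in 𝓣 \ A -/
noncomputable def Top (adj : V → V → Prop) (W T : ℕ) (A : Finset V) : Finset V := by
  classical
  exact (TT W T).filter (fun v => ConnIn adj ((TT W T : Set V) \ (A : Set V)) (s0 T) v)

/-- filling -/
noncomputable def fl (adj : V → V → Prop) (W T : ℕ) (A : Finset V) : Finset V := TT W T \ Top adj W T A

/-- frontier for O-growth -/
noncomputable def PO (W T : ℕ) (A : Finset V) : Finset V := by
  classical
  exact (Top st W T A).filter (fun v => ∃ a ∈ A, nn v a)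

/-- frontier for C-growth -/
noncomputable def PC (W T : ℕ) (A : Finset V) : Finset V := by
  classical
  exact (Top nn W T A).filter (fun v => ∃ a ∈ A, st v a)

/-- state: cell, filled set, vertices revealed closed in the present O-growth stage -/
structure JS where
  c : Cell
  A : Finset V
  K : Finset V

noncomputable def candO (W T : ℕ) (q : JS) : Finset V := by
  classical
  exact (PO W T q.A \ Sd W T).filter (fun v => v ∉ q.c.C ∧ v ∉ q.c.O ∧
    ∃ p ∈ PO W T q.A, st v p ∧ (p ∈ Sd W T ∨ p ∈ q.K))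

noncomputable def candC (W T : ℕ) (q : JS) : Finset V := by
  classical
  exact (PC W T q.A \ Sd W T).filter (fun v => v ∉ q.c.C ∧ v ∉ q.c.O)

open Classical in
noncomputable def nxtO (W T : ℕ) (w0 : ℝ) (q : JS) : Option (V × ℝ) :=
  if h : (candO W T q).Nonempty then some (h.choose, w0) else none

open Classical in
noncomputable def nxtC (W T : ℕ) (q : JS) : Option (V × ℝ) :=
  if h : (candC W T q).Nonempty then some (h.choose, 0) else none

noncomputable def updO (W T : ℕ) (w0 : ℝ) (q : JS) (v : V) (b : Bool) : JS := by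
  classical
  exact if b then ⟨q.c.reveal v w0 true, q.A, insert v q.K⟩
    else ⟨q.c.reveal v w0 false, fl st W T (insert v q.A), q.K⟩

noncomputable def updC (W T : ℕ) (q : JS) (v : V) (b : Bool) : JS := by
  classical
  exact if b then ⟨q.c.reveal v 0 true, fl nn W T (insert v q.A), q.K⟩
    else ⟨q.c.reveal v 0 false, q.A, q.K⟩

noncomputable def endO (W T : ℕ) (q : JS) : JS := ⟨q.c, fl nn W T (q.A ∪ (PO W T q.A \ Sd W T)), ∅⟩
noncomputable def endC (W T : ℕ) (q : JS) : JS := ⟨q.c, fl st W T (q.A ∪ (PC W T q.A \ Sd W T)), ∅⟩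

/-- one complete O-growth stage -/
noncomputable def stgO (W T : ℕ) (w0 : ℝ) (q : JS) (X : V → ℝ) : JS :=
  endO W T (runA (nxtO W T w0) (updO W T w0) (TT W T).card q X)

/-- one complete C-growth stage -/
noncomputable def stgC (W T : ℕ) (q : JS) (X : V → ℝ) : JS :=
  endC W T (runA (nxtC W T) (updC W T) (TT W T).card q X)

noncomputable def jinit (W : ℕ) : JS := ⟨⟨∅, ∅, fun _ => 0⟩, row0 W, ∅⟩

/-- state after j stages (stage j is an O-growth for j odd, a C-growth for j even) -/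
noncomputable def Jst (W T : ℕ) (w0 : ℝ) : ℕ → (V → ℝ) → JS
  | 0, _ => jinit W
  | j + 1, X => if (j + 1) % 2 = 1 then stgO W T w0 (Jst W T w0 j X) X else stgC W T (Jst W T w0 j X) X

/-- common part of the invariants at the end of a stage -/
structure GoodB (W T : ℕ) (w0 : ℝ) (q : JS) : Prop where
  sub : q.A ⊆ TT W T \ Sd W T
  row : row0 W ⊆ q.A
  conn : IsConn nn (q.A : Set V)
  revC : q.c.C ⊆ q.A
  revO : q.c.O ⊆ q.A
  up : ∀ v ∈ q.c.C ∪ q.c.O, 1 ≤ v.2
  dis : Disjoint q.c.C q.c.O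
  thr : ∀ v ∈ q.c.C ∪ q.c.O, q.c.θ v = 0 ∨ q.c.θ v = w0
  K : q.K = ∅
  i3 : ∀ v ∈ q.c.O, ∃ p, st v p ∧ (p ∈ q.c.C ∨ p ∈ Sd W T)
  i4 : ∀ v ∈ q.c.C, q.c.θ v = w0 → ∃ p, ConnIn st (q.c.C : Set V) v p ∧ ∃ s ∈ Sd W T, st p s

/-- invariants after a C-growth stage (and for the initial state) -/
structure GoodC (W T : ℕ) (w0 : ℝ) (q : JS) : Prop extends GoodB W T w0 q where
  fill : fl st W T q.A = q.A

/-- visible vertices after a C-growth stage are open with threshold 0 -/
def VisC (W T : ℕ) (q : JS) : Prop :=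
  ∀ v ∈ q.A, ∀ y ∈ TT W T, y ∉ q.A → y ∉ Sd W T → nn v y → v ∈ q.c.O ∧ q.c.θ v = 0

/-- invariants after an O-growth stage; visible vertices are closed with threshold w0 -/
structure GoodO (W T : ℕ) (w0 : ℝ) (q : JS) : Prop extends GoodB W T w0 q where
  fill : fl nn W T q.A = q.A
  vis : ∀ v ∈ q.A, ∀ y ∈ TT W T, y ∉ q.A → y ∉ Sd W T → nn v y → v ∈ q.c.C ∧ q.c.θ v = w0
  q3 : ∀ v ∈ Top nn W T q.A, (∃ a ∈ q.A, st v a) → ∃ p, st v p ∧ (p ∈ q.c.C ∨ p ∈ Sd W T)

/-- lattice domain of the field: rows -B..T -/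
noncomputable def DJ (W T B : ℕ) : Finset V := Rc 1 (W - 1) (-B) T

end GF
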