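import Pool.Agent.Lib.MP_acf58e_gf.T2

/-!
MP_acf58e_pr, module T: parity with respect to a left-right crossing (extended by one step on each
side).
-/

set_option autoImplicit false

open Set

namespace GF

/-- the crossing extended by one horizontal step on each side, a path of length `n + 2` -/
def extP (n : ℕ) (p : ℕ → V) (i : ℕ) : V :=
  if i = 0 then ((p 0).1 - 1, (p 0).2) else if i ≤ n + 1 then p (i - 1) else
    ((p n).1 + 1, (p n).2)

/-- parity of `v` with respect to a crossing: `1` below, `0` above -/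
def par (n : ℕ) (p : ℕ → V) (v : V) : ℕ := nAb (n + 2) (extP n p) v % 2

open TT

variable {adj : V → V → Prop} {a b c d h : ℤ} {A : Set V} {n : ℕ} {p : ℕ → V} {v w : V}

theorem extP_zero : extP n p 0 = ((p 0).1 - 1, (p 0).2) := rfl

theorem extP_succ {i : ℕ} (hi : i ≤ n) : extP n p (i + 1) = p i := by
  unfold extP
  rw [if_neg (Nat.succ_ne_zero i), if_pos (by omega), Nat.add_sub_cancel]

theorem extP_last : extP n p (n + 2) = ((p n).1 + 1, (p n).2) := by
  unfold extP
  rw [if_neg (by omega), if_neg (by omega)]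

theorem IsLR.pos (hp : IsLR adj a b c d A h n p) (hab : a < b) : 1 ≤ n := by
  obtain ⟨h0, hn, -⟩ := hp
  rcases Nat.eq_zero_or_pos n with h1 | h1
  · subst h1
    rw [h0] at hn
    simp only at hn
    omega
  · exact h1

theorem extP_steps_nn (hp : IsLR nn a b c d A h n p) :
    ∀ i < n + 2, nn (extP n p i) (extP n p (i + 1)) := by
  intro i hi
  rcases Nat.eq_zero_or_pos i with h1 | h1
  · subst h1
    rw [extP_zero, extP_succ (Nat.zero_le n), nn_iff']
    left
    simp
  · obtain ⟨j, rfl⟩ : ∃ j, i = j + 1 := ⟨i - 1, by omega⟩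
    rcases Nat.lt_or_ge j n with h2 | h2
    · rw [extP_succ h2.le, extP_succ (Nat.succ_le_of_lt h2)]
      exact hp.2.2.2.1 j h2
    · have : j = n := by omega
      subst this
      rw [extP_succ le_rfl, extP_last, nn_iff']
      left
      simp

theorem extP_steps_st (hp : IsLR st a b c d A h n p) :
    ∀ i < n + 2, st (extP n p i) (extP n p (i + 1)) := by
  intro i hi
  rcases Nat.eq_zero_or_pos i with h1 | h1
  · subst h1
    rw [extP_zero, extP_succ (Nat.zero_le n)]
    apply st_of_nn
    rw [nn_iff']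
    left
    simp
  · obtain ⟨j, rfl⟩ : ∃ j, i = j + 1 := ⟨i - 1, by omega⟩
    rcases Nat.lt_or_ge j n with h2 | h2
    · rw [extP_succ h2.le, extP_succ (Nat.succ_le_of_lt h2)]
      exact hp.2.2.2.1 j h2
    · have : j = n := by omega
      subst this
      rw [extP_succ le_rfl, extP_last]
      apply st_of_nn
      rw [nn_iff']
      left
      simp

theorem extP_first (hp : IsLR adj a b c d A h n p) : (extP n p 0).1 < a := by
  rw [extP_zero, hp.1]
  simp

theorem extP_end (hp : IsLR adj a b c d A h n p) : b < (extP n p (n + 2)).1 := by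
  rw [extP_last, hp.2.1]
  simp

theorem extP_avoid (hp : IsLR adj a b c d A h n p) (hv : a ≤ v.1 ∧ v.1 ≤ b)
    (hvp : ∀ i ≤ n, p i ≠ v) : ∀ i ≤ n + 2, extP n p i ≠ v := by
  intro i hi
  rcases Nat.eq_zero_or_pos i with h1 | h1
  · subst h1
    intro h2
    have h3 := extP_first hp
    rw [h2] at h3
    omega
  · obtain ⟨j, rfl⟩ : ∃ j, i = j + 1 := ⟨i - 1, by omega⟩
    rcases Nat.lt_or_ge n j with h2 | h2
    · have : j = n + 1 := by omega
      subst this
      intro h4
      have h3 := extP_end hp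
      rw [h4] at h3
      omega
    · rw [extP_succ h2]
      exact hvp j h2

/-- The parity with respect to an nn crossing is constant on star connected sets of the columns
which avoid it. -/
theorem par_conn_nn {B : Set V} (hp : IsLR nn a b c d A h n p)
    (hB : ∀ v ∈ B, a ≤ v.1 ∧ v.1 ≤ b) (hBp : ∀ i ≤ n, p i ∉ B) (hvw : ConnIn st B v w) :
    par n p v = par n p w :=
  nAb_conn_nn (extP_steps_nn hp) (extP_first hp) (extP_end hp) hB
    (fun i hi h1 => extP_avoid hp (hB _ h1) (fun j hj h2 => hBp j hj (h2 ▸ h1)) i hi rfl) hvw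

/-- The parity with respect to a star crossing is constant on nn connected sets of the columns
which avoid it. -/
theorem par_conn_st {B : Set V} (hp : IsLR st a b c d A h n p)
    (hB : ∀ v ∈ B, a ≤ v.1 ∧ v.1 ≤ b) (hBp : ∀ i ≤ n, p i ∉ B) (hvw : ConnIn nn B v w) :
    par n p v = par n p w :=
  nAb_conn_st (extP_steps_st hp) (extP_first hp) (extP_end hp) hB
    (fun i hi h1 => extP_avoid hp (hB _ h1) (fun j hj h2 => hBp j hj (h2 ▸ h1)) i hi rfl) hvw

theorem par_start_st {y : ℤ} (hp : IsLR st a b c d A h n p) (hab : a < b) (hy : y ≠ h) :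
    par n p (a, y) = if y < h then 1 else 0 := by
  have hn := hp.pos hab
  unfold par
  rw [nAb_start (extP_steps_st hp) (by rw [extP_zero, hp.1])
    (by rw [show (1 : ℕ) = 0 + 1 from rfl, extP_succ (Nat.zero_le n), hp.1]) ?_ (by omega) hy]
  · split_ifs <;> rfl
  · intro i h2 hi
    obtain ⟨j, rfl⟩ : ∃ j, i = j + 1 := ⟨i - 1, by omega⟩
    rcases Nat.lt_or_ge j n with h3 | h3
    · rw [extP_succ h3.le]
      exact (hp.2.2.2.2 j (by omega) h3).1
    · rcases Nat.lt_or_ge n j with h4 | h4
      · have : j = n + 1 := by omega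
        subst this
        have h3 := extP_end hp
        change b < (extP n p (n + 1 + 1)).1 at h3
        omega
      · have : j = n := by omega
        subst this
        rw [extP_succ le_rfl, hp.2.1]
        exact hab

theorem par_start_nn {y : ℤ} (hp : IsLR nn a b c d A h n p) (hab : a < b) (hy : y ≠ h) :
    par n p (a, y) = if y < h then 1 else 0 := by
  have hst : IsLR st a b c d A h n p :=
    ⟨hp.1, hp.2.1, hp.2.2.1, fun i hi => st_of_nn (hp.2.2.2.1 i hi), hp.2.2.2.2⟩
  exact par_start_st hst hab hy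

theorem par_above (h1 : ∀ i ≤ n, (p i).2 < v.2) : par n p v = 0 := by
  unfold par
  rw [nAb_above]
  intro i hi
  rcases Nat.eq_zero_or_pos i with h2 | h2
  · subst h2
    rw [extP_zero]
    exact h1 0 (Nat.zero_le n)
  · obtain ⟨j, rfl⟩ : ∃ j, i = j + 1 := ⟨i - 1, by omega⟩
    rcases Nat.lt_or_ge n j with h3 | h3
    · have : j = n + 1 := by omega
      subst this
      rw [extP_last]
      exact h1 n le_rfl
    · rw [extP_succ h3]
      exact h1 j h3

theorem par_below_st (hp : IsLR st a b c d A h n p) (hv : a ≤ v.1 ∧ v.1 ≤ b)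
    (h1 : ∀ i ≤ n, v.2 < (p i).2) : par n p v = 1 := by
  unfold par
  apply nAb_below (extP_steps_st hp) (extP_first hp) (extP_end hp) hv
  intro i hi
  rcases Nat.eq_zero_or_pos i with h2 | h2
  · subst h2
    rw [extP_zero]
    exact h1 0 (Nat.zero_le n)
  · obtain ⟨j, rfl⟩ : ∃ j, i = j + 1 := ⟨i - 1, by omega⟩
    rcases Nat.lt_or_ge n j with h3 | h3
    · have : j = n + 1 := by omega
      subst this
      rw [extP_last]
      exact h1 n le_rfl
    · rw [extP_succ h3]
      exact h1 j h3

theorem IsLR.toSt (hp : IsLR nn a b c d A h n p) : IsLR st a b c d A h n p :=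
  ⟨hp.1, hp.2.1, hp.2.2.1, fun i hi => st_of_nn (hp.2.2.2.1 i hi), hp.2.2.2.2⟩

theorem par_below_nn (hp : IsLR nn a b c d A h n p) (hv : a ≤ v.1 ∧ v.1 ≤ b)
    (h1 : ∀ i ≤ n, v.2 < (p i).2) : par n p v = 1 :=
  par_below_st hp.toSt hv h1

theorem par_le_one : par n p v = 0 ∨ par n p v = 1 := by
  unfold par
  omega

end GF
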