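import Pool.Agent.Lib.MP_acf58e_gf.J0
import Pool.Agent.Lib.MP_acf58e_gf.T2b

/-! common part of the blocking lemmas JBO and JBC -/

set_option autoImplicit false

open Set

namespace GF.JBlk

open GF.TT

theorem conn_up {S : Set V} (x y : ℤ) (k : ℕ) (h : ∀ i : ℕ, i ≤ k → ((x, y + i) : V) ∈ S) :
    ConnIn nn S (x, y) (x, y + k) := by
  have h1 := conn_of_path (adj := nn) (A := S) (n := k) (p := fun i : ℕ => ((x, y + i) : V)) h ?_
    (Nat.zero_le k) le_rfl
  · simpa using h1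
  · intro i _
    rw [nn_iff']
    right; right; left
    push_cast
    constructor
    · rfl
    · ring

theorem conn_right {S : Set V} (x y : ℤ) (k : ℕ) (h : ∀ i : ℕ, i ≤ k → ((x + i, y) : V) ∈ S) :
    ConnIn nn S (x, y) (x + k, y) := by
  have h1 := conn_of_path (adj := nn) (A := S) (n := k) (p := fun i : ℕ => ((x + i, y) : V)) h ?_
    (Nat.zero_le k) le_rfl
  · simpa using h1
  · intro i _
    rw [nn_iff']
    left
    push_cast
    constructor
    · ring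
    · rfl

theorem mem_TT {W T : ℕ} {v : V} :
    v ∈ TT W T ↔ 0 ≤ v.1 ∧ v.1 ≤ W ∧ 0 ≤ v.2 ∧ v.2 ≤ T + 1 := by
  unfold GF.TT
  exact mem_Rc

theorem mem_Sd {W T : ℕ} {v : V} :
    v ∈ Sd W T ↔ (0 ≤ v.1 ∧ v.1 ≤ W ∧ 0 ≤ v.2 ∧ v.2 ≤ T + 1) ∧ (v.1 = 0 ∨ v.1 = W ∨ v.2 = T + 1) := by
  unfold Sd
  rw [Finset.mem_filter, mem_TT]

theorem mem_Top {adj : V → V → Prop} {W T : ℕ} {A : Finset V} {v : V} :
    v ∈ Top adj W T A ↔ v ∈ TT W T ∧ ConnIn adj ((TT W T : Set V) \ (A : Set V)) (s0 T) v := by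
  classical
  unfold Top
  rw [Finset.mem_filter]

theorem mem_fl {adj : V → V → Prop} {W T : ℕ} {A : Finset V} {v : V} :
    v ∈ fl adj W T A ↔ v ∈ TT W T ∧ v ∉ Top adj W T A := by
  unfold fl
  rw [Finset.mem_sdiff]

theorem Top_not_mem {adj : V → V → Prop} {W T : ℕ} {A : Finset V} {v : V}
    (h : v ∈ Top adj W T A) : v ∉ A := fun hv => (conn_mem_right (mem_Top.1 h).2).2 hv

theorem sub_fl {adj : V → V → Prop} {W T : ℕ} {A : Finset V} (hA : A ⊆ TT W T) :
    A ⊆ fl adj W T A := fun _ hv => mem_fl.2 ⟨hA hv, fun h => Top_not_mem h hv⟩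

/-- the sides are nn connected -/
theorem Sd_conn {W T : ℕ} {S : Set V} (hS : (Sd W T : Set V) ⊆ S) {s : V} (hs : s ∈ Sd W T) :
    ConnIn nn S (s0 T) s := by
  have hs' := mem_Sd.1 hs
  obtain ⟨⟨h1, h2, h3, h4⟩, h5⟩ := hs'
  have htop : ∀ x : ℤ, 0 ≤ x → x ≤ W → ConnIn nn S (s0 T) (x, T + 1) := by
    intro x hx hx'
    have := conn_right (S := S) 0 (T + 1) x.toNat (fun i hi => hS (Finset.mem_coe.2 (mem_Sd.2
      ⟨⟨by simp, by simp only; omega, by simp only; omega, by simp only; omega⟩, by simp⟩)))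
    have e : (0 : ℤ) + (x.toNat : ℤ) = x := by omega
    rw [e] at this
    exact this
  have hcol : ∀ x : ℤ, (x = 0 ∨ x = W) → ∀ y : ℤ, 0 ≤ y → y ≤ T + 1 →
      ConnIn nn S (x, (T : ℤ) + 1) (x, y) := by
    intro x hx y hy hy'
    have := conn_up (S := S) x y (T + 1 - y).toNat (fun i hi => hS (Finset.mem_coe.2 (mem_Sd.2
      ⟨⟨by simp only; omega, by simp only; omega, by simp only; omega, by simp only; omega⟩,
        by simp only; omega⟩)))
    have e : y + ((T + 1 - y).toNat : ℤ) = T + 1 := by omega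
    rw [e] at this
    exact conn_symm nn_symm' this
  rcases h5 with h5 | h5 | h5
  · have := conn_trans (htop 0 le_rfl (by omega)) (hcol 0 (Or.inl rfl) s.2 h3 h4)
    have e : s = (0, s.2) := Prod.ext h5 rfl
    rw [e]; exact this
  · have := conn_trans (htop W (by omega) le_rfl) (hcol W (Or.inr rfl) s.2 h3 h4)
    have e : s = ((W : ℤ), s.2) := Prod.ext h5 rfl
    rw [e]; exact this
  · have := htop s.1 h1 h2
    have e : s = (s.1, (T : ℤ) + 1) := Prod.ext rfl h5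
    rw [e]; exact this

variable {W T H : ℕ} {fa ga : V → V → Prop}

theorem conn_of_nn (hf : ∀ x y, nn x y → fa x y) {S : Set V} {x y : V} (h : ConnIn nn S x y) :
    ConnIn fa S x y :=
  ⟨h.1, Relation.ReflTransGen.mono (fun _ _ hab => ⟨hf _ _ hab.1, hab.2⟩) _ _ h.2⟩

theorem Sd_sub_compl {A : Finset V} (hA : ∀ s ∈ Sd W T, s ∉ A) :
    (Sd W T : Set V) ⊆ (TT W T : Set V) \ (A : Set V) := fun s hs =>
  ⟨Finset.mem_coe.2 (mem_TT.2 (mem_Sd.1 (Finset.mem_coe.1 hs)).1),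
    fun h => hA s (Finset.mem_coe.1 hs) (Finset.mem_coe.1 h)⟩

theorem Sd_Top (hf : ∀ x y, nn x y → fa x y) {A : Finset V} (hA : ∀ s ∈ Sd W T, s ∉ A) {s : V}
    (hs : s ∈ Sd W T) : s ∈ Top fa W T A :=
  mem_Top.2 ⟨mem_TT.2 (mem_Sd.1 hs).1, conn_of_nn hf (Sd_conn (Sd_sub_compl hA) hs)⟩

theorem fl_not_Sd (hf : ∀ x y, nn x y → fa x y) {A : Finset V} (hA : ∀ s ∈ Sd W T, s ∉ A) :
    ∀ s ∈ Sd W T, s ∉ fl fa W T A := fun _ hs h => (mem_fl.1 h).2 (Sd_Top hf hA hs)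

theorem Top_step {A : Finset V} {u v : V} (hu : u ∈ Top fa W T A) (hv : v ∈ TT W T) (hvA : v ∉ A)
    (h : fa u v) : v ∈ Top fa W T A :=
  mem_Top.2 ⟨hv, conn_trans (mem_Top.1 hu).2 (conn_single (conn_mem_right (mem_Top.1 hu).2)
    ⟨Finset.mem_coe.2 hv, fun h' => hvA (Finset.mem_coe.1 h')⟩ h)⟩

/-- a vertex of the filling walks to the left until it meets the set -/
theorem fl_walk (hf : ∀ x y, nn x y → fa x y) {B : Finset V} (hB : ∀ s ∈ Sd W T, s ∉ B) :
    ∀ u ∈ fl fa W T B, ∃ b ∈ B, ConnIn nn (fl fa W T B : Set V) u b := by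
  have key : ∀ k : ℕ, ∀ u : V, u.1.toNat = k → u ∈ fl fa W T B →
      ∃ b ∈ B, ConnIn nn (fl fa W T B : Set V) u b := by
    intro k
    induction k with
    | zero =>
      intro u hk hu
      exfalso
      have h1 := mem_TT.1 (mem_fl.1 hu).1
      exact fl_not_Sd hf hB u (mem_Sd.2 ⟨h1, Or.inl (by omega)⟩) hu
    | succ k ih =>
      intro u hk hu
      by_cases hub : u ∈ B
      · exact ⟨u, hub, conn_refl (Finset.mem_coe.2 hu)⟩
      · have h1 := mem_TT.1 (mem_fl.1 hu).1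
        have h2 : ((u.1 - 1, u.2) : V) ∈ TT W T :=
          mem_TT.2 ⟨by simp only; omega, by simp only; omega, h1.2.2.1, h1.2.2.2⟩
        have h3 : nn ((u.1 - 1, u.2) : V) u := by
          rw [nn_iff']
          left
          exact ⟨by simp, rfl⟩
        have hu' : ((u.1 - 1, u.2) : V) ∈ fl fa W T B :=
          mem_fl.2 ⟨h2, fun ht => (mem_fl.1 hu).2 (Top_step ht (mem_fl.1 hu).1 hub (hf _ _ h3))⟩
        obtain ⟨b, hb, hc⟩ := ih _ (by simp only; omega) hu'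
        exact ⟨b, hb, conn_trans (conn_single (Finset.mem_coe.2 hu) (Finset.mem_coe.2 hu')
          (nn_symm' _ _ h3)) hc⟩
  exact fun u hu => key _ u rfl hu

/-- a crossing which avoids the set is in the top component -/
theorem path_Top {adj : V → V → Prop} (hf : ∀ x y, nn x y → adj x y) {O : Set V} {h : ℤ} {n : ℕ}
    {p : ℕ → V} (hW : 3 ≤ W) (hT : H ≤ T) (hp : IsLR adj 1 (W - 1) 1 H O h n p) {B : Finset V}
    (hB : ∀ s ∈ Sd W T, s ∉ B) (hpB : ∀ i ≤ n, p i ∉ B) : ∀ i ≤ n, p i ∈ Top adj W T B := by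
  obtain ⟨h0, hn, hA, hs, -⟩ := hp
  have hm : ∀ i ≤ n, p i ∈ TT W T := by
    intro i hi
    have := mem_Rc.1 (hA i hi).2
    exact mem_TT.2 ⟨by omega, by omega, by omega, by omega⟩
  have h1 := mem_Rc.1 (hA 0 (Nat.zero_le n)).2
  rw [h0] at h1
  simp only at h1
  have h2 : ((0, h) : V) ∈ Sd W T :=
    mem_Sd.2 ⟨⟨le_rfl, by simp only; omega, by simp only; omega, by simp only; omega⟩, Or.inl rfl⟩
  have h3 : p 0 ∈ Top adj W T B := by
    refine Top_step (Sd_Top hf hB h2) (hm 0 (Nat.zero_le n)) (hpB 0 (Nat.zero_le n)) (hf _ _ ?_)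
    rw [h0, nn_iff']
    left
    simp
  intro i hi
  induction i with
  | zero => exact h3
  | succ i ih => exact Top_step (ih (by omega)) (hm _ hi) (hpB _ hi) (hs i (by omega))

/-- the set is below the crossing -/
structure Inv (W T n : ℕ) (p : ℕ → V) (A : Finset V) : Prop where
  sub : A ⊆ TT W T
  sd : ∀ s ∈ Sd W T, s ∉ A
  av : ∀ i ≤ n, p i ∉ A
  pr : ∀ v ∈ A, par n p v = 1

theorem col {W T : ℕ} {v : V} (h : v ∈ TT W T) (h' : v ∉ Sd W T) : 1 ≤ v.1 ∧ v.1 ≤ (W : ℤ) - 1 := by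
  have h1 := mem_TT.1 h
  have h2 : ¬ (v.1 = 0 ∨ v.1 = W ∨ v.2 = T + 1) := fun h3 => h' (mem_Sd.2 ⟨h1, h3⟩)
  omega

/-- the parity is constant on ga connected sets which avoid p -/
def ParC (W n : ℕ) (p : ℕ → V) (ga : V → V → Prop) : Prop :=
  ∀ (B : Set V) (v w : V), (∀ v ∈ B, 1 ≤ v.1 ∧ v.1 ≤ (W : ℤ) - 1) → (∀ i ≤ n, p i ∉ B) →
    ConnIn ga B v w → par n p v = par n p w

theorem par_adj {n : ℕ} {p : ℕ → V} (hc : ParC W n p ga) {A : Finset V} (hI : Inv W T n p A)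
    {v a : V} (hv : v ∈ TT W T) (hvs : v ∉ Sd W T) (hvp : ∀ i ≤ n, p i ≠ v) (ha : a ∈ A)
    (hva : ga v a) : par n p v = 1 := by
  rw [← hI.pr a ha]
  refine hc {v, a} v a ?_ ?_ (conn_single (by simp) (by simp) hva)
  · rintro x (rfl | rfl)
    · exact col hv hvs
    · exact col (hI.sub ha) (fun h => hI.sd _ h ha)
  · rintro i hi (h | h)
    · exact hvp i hi h
    · have h' : p i = a := h
      exact hI.av i hi (h' ▸ ha)

theorem Inv.insert {n : ℕ} {p : ℕ → V} (hc : ParC W n p ga) {A : Finset V} (hI : Inv W T n p A)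
    {v a : V} (hv : v ∈ TT W T) (hvs : v ∉ Sd W T) (hvp : ∀ i ≤ n, p i ≠ v) (ha : a ∈ A)
    (hva : ga v a) : Inv W T n p (insert v A) where
  sub := Finset.insert_subset hv hI.sub
  sd := fun s hs h => by
    rcases Finset.mem_insert.1 h with h | h
    · exact hvs (h ▸ hs)
    · exact hI.sd s hs h
  av := fun i hi h => by
    rcases Finset.mem_insert.1 h with h | h
    · exact hvp i hi h
    · exact hI.av i hi h
  pr := fun u hu => by
    rcases Finset.mem_insert.1 hu with h | h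
    · rw [h]; exact par_adj hc hI hv hvs hvp ha hva
    · exact hI.pr u h

theorem Inv.fill (hf : ∀ x y, nn x y → fa x y) (hg : ∀ x y, nn x y → ga x y) {O : Set V} {h : ℤ}
    {n : ℕ} {p : ℕ → V} (hW : 3 ≤ W) (hT : H ≤ T) (hp : IsLR fa 1 (W - 1) 1 H O h n p)
    (hc : ParC W n p ga) {A : Finset V} (hI : Inv W T n p A) : Inv W T n p (fl fa W T A) where
  sub := fun _ hv => (mem_fl.1 hv).1
  sd := fl_not_Sd hf hI.sd
  av := fun i hi hm => (mem_fl.1 hm).2 (path_Top hf hW hT hp hI.sd hI.av i hi)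
  pr := fun u hu => by
    obtain ⟨b, hb, hub⟩ := fl_walk hf hI.sd u hu
    rw [← hI.pr b hb]
    refine hc _ u b ?_ ?_ (conn_of_nn hg hub)
    · intro x hx
      exact col (mem_fl.1 (Finset.mem_coe.1 hx)).1 (fun h => fl_not_Sd hf hI.sd x h (Finset.mem_coe.1 hx))
    · intro i hi hm
      exact (mem_fl.1 (Finset.mem_coe.1 hm)).2 (path_Top hf hW hT hp hI.sd hI.av i hi)

theorem Inv.init {O : Set V} {h : ℤ} {n : ℕ} {p : ℕ → V} (hW : 3 ≤ W)
    (hps : IsLR st 1 (W - 1) 1 H O h n p) (hg : ∀ x y, nn x y → ga x y)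
    (hc : ParC W n p ga) {A : Finset V} (hA : A ⊆ TT W T \ Sd W T) (hr : row0 W ⊆ A)
    (hco : IsConn nn (A : Set V)) (hd : ∀ i ≤ n, p i ∉ A) : Inv W T n p A where
  sub := fun v hv => (Finset.mem_sdiff.1 (hA hv)).1
  sd := fun s hs h => (Finset.mem_sdiff.1 (hA h)).2 hs
  av := hd
  pr := fun v hv => by
    have h0 : ((1, 0) : V) ∈ A := hr (by
      unfold row0
      exact mem_Rc.2 ⟨le_rfl, by simp only; omega, le_rfl, le_rfl⟩)
    have h1 : par n p (1, 0) = 1 := by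
      refine par_below_st hps ⟨le_rfl, by simp only; omega⟩ ?_
      intro i hi
      have := mem_Rc.1 (hps.2.2.1 i hi).2
      simp only
      omega
    rw [← h1]
    refine hc A v (1, 0) ?_ (fun i hi h => hd i hi (Finset.mem_coe.1 h))
      (conn_of_nn hg (hco v (Finset.mem_coe.2 hv) _ (Finset.mem_coe.2 h0)))
    intro x hx
    have := Finset.mem_sdiff.1 (hA (Finset.mem_coe.1 hx))
    exact col this.1 this.2

/-- end of a stage -/
theorem fin (hg : ∀ x y, nn x y → ga x y) {O : Set V} {h : ℤ} {n : ℕ} {p : ℕ → V} (hW : 3 ≤ W)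
    (hT : H + 1 ≤ T) (hps : IsLR st 1 (W - 1) 1 H O h n p) (hc : ParC W n p ga) {A : Finset V}
    (hI : Inv W T n p A) {P : Finset V} (hP : ∀ v ∈ P, v ∈ TT W T ∧ v ∉ Sd W T ∧ ∃ a ∈ A, ga v a) :
    (∀ v ∈ fl ga W T (A ∪ P), v.2 ≤ H) ∧
    ∀ (h' : ℤ) (n' : ℕ) (p' : ℕ → V), h < h' → IsLR ga 1 (W - 1) 1 H univ h' n' p' →
      (∀ i ≤ n, ∀ i' ≤ n', p i ≠ p' i') → ∀ i' ≤ n', p' i' ∉ fl ga W T (A ∪ P) := by
  have hsd : ∀ s ∈ Sd W T, s ∉ A ∪ P := by
    intro s hs h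
    rcases Finset.mem_union.1 h with h | h
    · exact hI.sd s hs h
    · exact (hP s h).2.1 hs
  have hpar : ∀ v ∈ A ∪ P, (∀ i ≤ n, p i ≠ v) → par n p v = 1 := by
    intro v hv hvp
    rcases Finset.mem_union.1 hv with h | h
    · exact hI.pr v h
    · obtain ⟨h1, h2, a, ha, hva⟩ := hP v h
      exact par_adj hc hI h1 h2 hvp ha hva
  have hH : ∀ i ≤ n, (p i).2 ≤ H := fun i hi => (mem_Rc.1 (hps.2.2.1 i hi).2).2.2.2
  have hle : ∀ v ∈ A ∪ P, v.2 ≤ H := by
    intro v hv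
    by_cases hvp : ∀ i ≤ n, p i ≠ v
    · by_contra hlt
      push Not at hlt
      have h1 := hpar v hv hvp
      rw [par_above (fun i hi => lt_of_le_of_lt (hH i hi) hlt)] at h1
      exact absurd h1 (by norm_num)
    · push Not at hvp
      obtain ⟨i, hi, rfl⟩ := hvp
      exact hH i hi
  constructor
  · intro v hv
    by_contra hlt
    push Not at hlt
    refine (mem_fl.1 hv).2 (mem_Top.2 ⟨(mem_fl.1 hv).1, ?_⟩)
    have h1 := mem_TT.1 (mem_fl.1 hv).1
    have h2 := conn_up (S := (TT W T : Set V) \ ((A ∪ P : Finset V) : Set V)) v.1 v.2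
      (T + 1 - v.2).toNat (by
        intro i hi
        have hin : ((v.1, v.2 + (i : ℤ)) : V) ∈ TT W T :=
          mem_TT.2 ⟨h1.1, h1.2.1, by simp only; omega, by simp only; omega⟩
        refine ⟨Finset.mem_coe.2 hin, ?_⟩
        intro h3
        have := hle _ (Finset.mem_coe.1 h3)
        simp only at this
        omega)
    have e : v.2 + ((T + 1 - v.2).toNat : ℤ) = T + 1 := by omega
    rw [e] at h2
    have h3 : ((v.1, (T : ℤ) + 1) : V) ∈ Sd W T :=
      mem_Sd.2 ⟨⟨h1.1, h1.2.1, by simp only; omega, le_rfl⟩, Or.inr (Or.inr rfl)⟩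
    exact conn_of_nn hg (conn_trans (Sd_conn (Sd_sub_compl hsd) h3) (conn_symm nn_symm' h2))
  · intro h' n' p' hh hp' hdis
    have hpA : ∀ i' ≤ n', p' i' ∉ A ∪ P := by
      intro i' hi' hm
      have h1 := hpar _ hm (fun i hi => hdis i hi i' hi')
      have h2 : par n p (p' 0) = par n p (p' i') := by
        refine hc {v | ∃ i ≤ n', v = p' i} _ _ ?_ ?_
          (conn_of_path (A := {v | ∃ i ≤ n', v = p' i}) (fun i hi => ⟨i, hi, rfl⟩) hp'.2.2.2.1
            (Nat.zero_le i') hi')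
        · rintro x ⟨i, hi, rfl⟩
          have := mem_Rc.1 (hp'.2.2.1 i hi).2
          exact ⟨this.1, this.2.1⟩
        · rintro i hi ⟨i'', hi'', e⟩
          exact hdis i hi i'' hi'' e
      rw [h1, hp'.1, par_start_st hps (by omega) (by omega), if_neg (by omega)] at h2
      exact absurd h2 (by norm_num)
    intro i' hi' hm
    exact (mem_fl.1 hm).2 (path_Top hg hW (by omega) hp' hsd hpA i' hi')

end GF.JBlk
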