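import Pool.Agent.Lib.MP_acf58e_gf.J0
import Pool.Agent.Lib.MP_acf58e_gf.JBlk
/-! blocking of an O-growth stage by a closed star crossing (blueprint 7.3) -/
open MeasureTheory Set ProbabilityTheory
open scoped ENNReal
namespace GF

theorem JBlk.runA_inv {σ : Type*} {nxt : σ → Option (V × ℝ)} {upd : σ → V → Bool → σ} {X : V → ℝ}
    {P : σ → Prop} (hs : ∀ q v th, P q → nxt q = some (v, th) → P (upd q v (decide (X v < th))))
    {q : σ} (hq : P q) (n : ℕ) : P (runA nxt upd n q X) := by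
  induction n with
  | zero => exact hq
  | succ n ih =>
    unfold runA stepA
    split
    · exact ih
    · rename_i v th h
      exact hs _ v th ih h

theorem blockO {W T H : ℕ} (hW : 3 ≤ W) (hT : H + 1 ≤ T) {w0 : ℝ} (h0 : 0 < w0) {q : JS} (hq : GoodC W T w0 q)
    (X : V → ℝ) {h : ℤ} {n : ℕ} {p : ℕ → V} (hp : IsLR st 1 (W - 1) 1 H {v | X v < w0} h n p)
    (hd : ∀ i ≤ n, p i ∉ q.A) :
    (∀ v ∈ (stgO W T w0 q X).A, v.2 ≤ H) ∧
    ∀ (h' : ℤ) (n' : ℕ) (p' : ℕ → V), h < h' → IsLR nn 1 (W - 1) 1 H univ h' n' p' →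
      (∀ i ≤ n, ∀ i' ≤ n', p i ≠ p' i') → ∀ i' ≤ n', p' i' ∉ (stgO W T w0 q X).A := by
  classical
  have hc : JBlk.ParC W n p nn := fun B v w h1 h2 h3 => par_conn_st hp h1 h2 h3
  have hg : ∀ x y, nn x y → nn x y := fun _ _ h => h
  have hf : ∀ x y, nn x y → st x y := fun _ _ h => TT.st_of_nn h
  have hI0 : JBlk.Inv W T n p q.A :=
    JBlk.Inv.init hW hp hg hc hq.sub hq.row hq.conn hd
  have hPO : ∀ (q : JS), ∀ v ∈ PO W T q.A \ Sd W T, v ∈ TT W T ∧ v ∉ Sd W T ∧ ∃ a ∈ q.A, nn v a := by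
    intro q v hv
    rw [Finset.mem_sdiff] at hv
    unfold PO at hv
    rw [Finset.mem_filter] at hv
    exact ⟨(JBlk.mem_Top.1 hv.1.1).1, hv.2, hv.1.2⟩
  have hrun : JBlk.Inv W T n p (runA (nxtO W T w0) (updO W T w0) (TT W T).card q X).A := by
    refine JBlk.runA_inv (P := fun q : JS => JBlk.Inv W T n p q.A) ?_ hI0 _
    intro q v th hI hn
    unfold nxtO at hn
    split at hn
    · rename_i hne
      simp only [Option.some.injEq, Prod.mk.injEq] at hn
      obtain ⟨h1, h2⟩ := hn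
      have h3 : v ∈ candO W T q := h1 ▸ hne.choose_spec
      unfold candO at h3
      rw [Finset.mem_filter] at h3
      unfold updO
      by_cases hb : X v < th
      · simpa [hb] using hI
      · simp only [hb, decide_false]
        obtain ⟨h4, h5, a, ha, hva⟩ := hPO q v h3.1
        refine JBlk.Inv.fill hf hg hW (by omega) hp hc (JBlk.Inv.insert hc hI h4 h5 ?_ ha hva)
        intro i hi e
        have := (hp.2.2.1 i hi).1
        rw [e] at this
        exact hb (h2 ▸ this)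
    · exact absurd hn (by simp)
  have hfin := JBlk.fin (H := H) hg hW hT hp hc hrun (hPO _)
  unfold stgO endO
  exact hfin

end GF
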