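import Pool.Agent.Lib.MP_acf58e_gf.J0
import Pool.Agent.Lib.MP_acf58e_gf.JBO
/-! blocking of a C-growth stage by an open nn crossing (blueprint 7.3) -/
open MeasureTheory Set ProbabilityTheory
open scoped ENNReal
namespace GF

theorem blockC {W T H : ℕ} (hW : 3 ≤ W) (hT : H + 1 ≤ T) {w0 : ℝ} (h0 : 0 < w0) {q : JS} (hq : GoodO W T w0 q)
    (X : V → ℝ) {h : ℤ} {n : ℕ} {p : ℕ → V} (hp : IsLR nn 1 (W - 1) 1 H (lev X 0) h n p)
    (hd : ∀ i ≤ n, p i ∉ q.A) :
    (∀ v ∈ (stgC W T q X).A, v.2 ≤ H) ∧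
    ∀ (h' : ℤ) (n' : ℕ) (p' : ℕ → V), h < h' → IsLR st 1 (W - 1) 1 H univ h' n' p' →
      (∀ i ≤ n, ∀ i' ≤ n', p i ≠ p' i') → ∀ i' ≤ n', p' i' ∉ (stgC W T q X).A := by
  classical
  have hc : JBlk.ParC W n p st := fun B v w h1 h2 h3 => par_conn_nn hp h1 h2 h3
  have hf : ∀ x y, nn x y → nn x y := fun _ _ h => h
  have hg : ∀ x y, nn x y → st x y := fun _ _ h => TT.st_of_nn h
  have hI0 : JBlk.Inv W T n p q.A :=
    JBlk.Inv.init hW hp.toSt hg hc hq.sub hq.row hq.conn hd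
  have hPC : ∀ (q : JS), ∀ v ∈ PC W T q.A \ Sd W T, v ∈ TT W T ∧ v ∉ Sd W T ∧ ∃ a ∈ q.A, st v a := by
    intro q v hv
    rw [Finset.mem_sdiff] at hv
    unfold PC at hv
    rw [Finset.mem_filter] at hv
    exact ⟨(JBlk.mem_Top.1 hv.1.1).1, hv.2, hv.1.2⟩
  have hrun : JBlk.Inv W T n p (runA (nxtC W T) (updC W T) (TT W T).card q X).A := by
    refine JBlk.runA_inv (P := fun q : JS => JBlk.Inv W T n p q.A) ?_ hI0 _
    intro q v th hI hn
    unfold nxtC at hn
    split at hn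
    · rename_i hne
      simp only [Option.some.injEq, Prod.mk.injEq] at hn
      obtain ⟨h1, h2⟩ := hn
      have h3 : v ∈ candC W T q := h1 ▸ hne.choose_spec
      unfold candC at h3
      rw [Finset.mem_filter] at h3
      unfold updC
      by_cases hb : X v < th
      · simp only [hb, decide_true, if_true]
        obtain ⟨h4, h5, a, ha, hva⟩ := hPC q v h3.1
        refine JBlk.Inv.fill hf hg hW (by omega) hp hc (JBlk.Inv.insert hc hI h4 h5 ?_ ha hva)
        intro i hi e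
        have h6 : 0 ≤ X (p i) := (hp.2.2.1 i hi).1
        rw [e] at h6
        rw [← h2] at hb
        exact absurd h6 (not_le.2 hb)
      · simpa [hb] using hI
    · exact absurd hn (by simp)
  have hfin := JBlk.fin (H := H) hg hW hT hp.toSt hc hrun (hPC _)
  unfold stgC endC
  exact hfin

end GF
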