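import Pool.Agent.Lib.MP_acf58e_gf.Func

/-!
MP_acf58e_pr, module T: basic facts on adjacency, connectivity and paths.
-/

set_option autoImplicit false

open Set

namespace GF.TT

lemma nn_comm {x y : V} : nn x y ↔ nn y x := by
  unfold nn
  rw [abs_sub_comm x.1, abs_sub_comm x.2]

lemma st_comm {x y : V} : st x y ↔ st y x := by
  unfold st dI
  rw [abs_sub_comm x.1, abs_sub_comm x.2]

lemma nn_iff' {x y : V} : nn x y ↔ (y.1 = x.1 + 1 ∧ y.2 = x.2) ∨ (y.1 = x.1 - 1 ∧ y.2 = x.2) ∨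
    (y.1 = x.1 ∧ y.2 = x.2 + 1) ∨ (y.1 = x.1 ∧ y.2 = x.2 - 1) := by
  unfold nn
  constructor
  · intro h
    rcases abs_cases (x.1 - y.1) with ⟨h1, h2⟩ | ⟨h1, h2⟩ <;>
    rcases abs_cases (x.2 - y.2) with ⟨h3, h4⟩ | ⟨h3, h4⟩ <;> omega
  · intro h
    rcases abs_cases (x.1 - y.1) with ⟨h1, h2⟩ | ⟨h1, h2⟩ <;>
    rcases abs_cases (x.2 - y.2) with ⟨h3, h4⟩ | ⟨h3, h4⟩ <;> omega

lemma st_iff' {x y : V} : st x y ↔ (x ≠ y ∧ x.1 - 1 ≤ y.1 ∧ y.1 ≤ x.1 + 1 ∧ x.2 - 1 ≤ y.2 ∧
    y.2 ≤ x.2 + 1) := by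
  unfold st dI
  constructor
  · intro h
    have h1 := le_max_left |x.1 - y.1| |x.2 - y.2|
    have h2 := le_max_right |x.1 - y.1| |x.2 - y.2|
    rw [h] at h1 h2
    rw [abs_le] at h1 h2
    refine ⟨?_, by omega, by omega, by omega, by omega⟩
    rintro rfl
    simp at h
  · rintro ⟨h0, h1, h2, h3, h4⟩
    apply le_antisymm
    · apply max_le <;> rw [abs_le] <;> omega
    · by_contra hcon
      push Not at hcon
      have h5 := lt_of_le_of_lt (le_max_left |x.1 - y.1| |x.2 - y.2|) hcon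
      have h6 := lt_of_le_of_lt (le_max_right |x.1 - y.1| |x.2 - y.2|) hcon
      rw [abs_lt] at h5 h6
      apply h0
      apply Prod.ext <;> omega

lemma st_of_nn {x y : V} (h : nn x y) : st x y := by
  rw [st_iff']
  rw [nn_iff'] at h
  refine ⟨?_, by omega, by omega, by omega, by omega⟩
  rintro rfl
  omega

lemma mem_Rc {a b c d : ℤ} {x : V} : x ∈ Rc a b c d ↔ a ≤ x.1 ∧ x.1 ≤ b ∧ c ≤ x.2 ∧ x.2 ≤ d := by
  rw [Rc, Finset.mem_Icc, Prod.le_def, Prod.le_def]
  constructor
  · rintro ⟨⟨h1, h2⟩, h3, h4⟩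
    exact ⟨h1, h3, h2, h4⟩
  · rintro ⟨h1, h2, h3, h4⟩
    exact ⟨⟨h1, h3⟩, h2, h4⟩

/-! ### connectivity -/

variable {adj : V → V → Prop} {A B : Set V} {x y z : V}

lemma conn_refl (hx : x ∈ A) : ConnIn adj A x x := ⟨hx, Relation.ReflTransGen.refl⟩

lemma conn_trans (h : ConnIn adj A x y) (h' : ConnIn adj A y z) : ConnIn adj A x z :=
  ⟨h.1, h.2.trans h'.2⟩

lemma conn_mem_right (h : ConnIn adj A x y) : y ∈ A := by
  obtain ⟨hx, hp⟩ := h
  induction hp with
  | refl => exact hx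
  | tail _ hbc _ => exact hbc.2

lemma conn_single (hx : x ∈ A) (hy : y ∈ A) (h : adj x y) : ConnIn adj A x y :=
  ⟨hx, Relation.ReflTransGen.single ⟨h, hy⟩⟩

lemma conn_symm (hs : ∀ x y, adj x y → adj y x) (h : ConnIn adj A x y) : ConnIn adj A y x := by
  obtain ⟨hx, hp⟩ := h
  induction hp with
  | refl => exact conn_refl hx
  | tail hab hbc ih =>
    have hb := conn_mem_right ⟨hx, hab⟩
    exact conn_trans (conn_single hbc.2 hb (hs _ _ hbc.1)) ih

lemma conn_mono (hAB : A ⊆ B) (h : ConnIn adj A x y) : ConnIn adj B x y :=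
  ⟨hAB h.1, Relation.ReflTransGen.mono (fun _ _ hab => ⟨hab.1, hAB hab.2⟩) _ _ h.2⟩

lemma conn_st_of_nn (h : ConnIn nn A x y) : ConnIn st A x y :=
  ⟨h.1, Relation.ReflTransGen.mono (fun _ _ hab => ⟨st_of_nn hab.1, hab.2⟩) _ _ h.2⟩

lemma nn_symm' : ∀ x y : V, nn x y → nn y x := fun _ _ => nn_comm.1
lemma st_symm' : ∀ x y : V, st x y → st y x := fun _ _ => st_comm.1

/-- A predicate which is preserved by steps inside `A` is constant on the component. -/
lemma conn_induction {Q : V → Prop} (h : ConnIn adj A x y) (h0 : Q x)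
    (hs : ∀ u v, u ∈ A → v ∈ A → adj u v → Q u → Q v) : Q y := by
  obtain ⟨hx, hp⟩ := h
  have : y ∈ A ∧ Q y := by
    induction hp with
    | refl => exact ⟨hx, h0⟩
    | tail _ hbc ih => exact ⟨hbc.2, hs _ _ ih.1 hbc.2 hbc.1 ih.2⟩
  exact this.2

lemma exists_path (h : ConnIn adj A x y) : ∃ (n : ℕ) (p : ℕ → V), IsPath adj A n p x y := by
  obtain ⟨hx, hp⟩ := h
  induction hp with
  | refl => exact ⟨0, fun _ => x, rfl, rfl, fun i hi => hx, fun i hi => absurd hi (Nat.not_lt_zero i)⟩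
  | tail hab hbc ih =>
    rename_i b c
    obtain ⟨n, p, h0, hn, hm, hs⟩ := ih
    refine ⟨n + 1, fun i => if i ≤ n then p i else c, ?_, ?_, ?_, ?_⟩
    · simpa using h0
    · simp
    · intro i hi
      by_cases h : i ≤ n
      · simp only [h, if_true]
        exact hm i h
      · simp only [h, if_false]
        exact hbc.2
    · intro i hi
      have hi' : i ≤ n := Nat.lt_succ_iff.1 hi
      by_cases h : i + 1 ≤ n
      · simp only [hi', h, if_true]
        exact hs i (by omega)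
      · have : i = n := by omega
        subst this
        simp only [le_refl, if_true, h, if_false]
        rw [hn]
        exact hbc.1

lemma conn_of_path {n : ℕ} {p : ℕ → V} (h : ∀ i ≤ n, p i ∈ A) (hs : ∀ i < n, adj (p i) (p (i + 1)))
    {i j : ℕ} (hij : i ≤ j) (hj : j ≤ n) : ConnIn adj A (p i) (p j) := by
  induction j with
  | zero =>
    have : i = 0 := Nat.le_zero.1 hij
    subst this
    exact conn_refl (h 0 hj)
  | succ j ih =>
    rcases Nat.lt_or_ge j i with h1 | h1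
    · have : i = j + 1 := by omega
      subst this
      exact conn_refl (h _ hj)
    · exact conn_trans (ih h1 (by omega)) (conn_single (h j (by omega)) (h _ hj) (hs j (by omega)))

lemma isConn_comp (hs : ∀ x y, adj x y → adj y x) (x : V) : IsConn adj (comp adj A x) := by
  intro u hu v hv
  have key : ∀ w, ConnIn adj A x w → ConnIn adj (comp adj A x) x w := by
    intro w hw
    have hx : x ∈ comp adj A x := conn_refl hw.1
    obtain ⟨h1, h2⟩ := hw
    induction h2 with
    | refl => exact conn_refl hx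
    | tail hab hbc ih =>
      rename_i b c
      have hc : c ∈ comp adj A x := ⟨h1, hab.tail hbc⟩
      exact conn_trans ih (conn_single (conn_mem_right ih) hc hbc.1)
  exact conn_trans (conn_symm hs (key u hu)) (key v hv)

/-- the parity of the number of changes of a predicate -/
lemma changes_parity (Q : ℕ → Prop) [DecidablePred Q] (n : ℕ) :
    ((Finset.range n).filter fun i => ¬ (Q i ↔ Q (i + 1))).card % 2 =
      if (Q 0 ↔ Q n) then 0 else 1 := by
  induction n with
  | zero => simp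
  | succ n ih =>
    rw [Finset.range_add_one, Finset.filter_insert]
    by_cases h : (Q n ↔ Q (n + 1))
    · rw [if_neg (not_not.2 h), ih]
      by_cases h0 : Q 0 <;> by_cases h1 : Q n <;> by_cases h2 : Q (n + 1) <;> simp_all
    · rw [if_pos h, Finset.card_insert_of_notMem (by simp), Nat.add_mod, ih]
      by_cases h0 : Q 0 <;> by_cases h1 : Q n <;> by_cases h2 : Q (n + 1) <;> simp_all

end GF.TT
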