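import Pool.Agent.Lib.MP_acf58e_gf.J0
import Pool.Agent.Lib.MP_acf58e_gf.TBase

/-! Fillings: common facts for the stages (blueprint 7.1). -/

set_option autoImplicit false

open Set

namespace GF

open TT in
/-- symmetric adjacency between nn and st -/
structure JFadj (adj : V → V → Prop) : Prop where
  symm : ∀ x y, adj x y → adj y x
  of_nn : ∀ x y, nn x y → adj x y
  st : ∀ x y, adj x y → GF.st x y

theorem JFadj_nn : JFadj nn := ⟨fun _ _ => TT.nn_comm.1, fun _ _ h => h, fun _ _ h => TT.st_of_nn h⟩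
theorem JFadj_st : JFadj st := ⟨fun _ _ => TT.st_comm.1, fun _ _ h => TT.st_of_nn h, fun _ _ h => h⟩

theorem JF_mem_TT {W T : ℕ} {v : V} : v ∈ TT W T ↔ 0 ≤ v.1 ∧ v.1 ≤ W ∧ 0 ≤ v.2 ∧ v.2 ≤ T + 1 := by
  unfold TT; exact TT.mem_Rc

theorem JF_mem_Sd {W T : ℕ} {v : V} :
    v ∈ Sd W T ↔ v ∈ TT W T ∧ (v.1 = 0 ∨ v.1 = W ∨ v.2 = T + 1) := by
  unfold Sd; exact Finset.mem_filter

/-- TT \ Sd is the rectangle of columns 1..W-1 and rows 0..T -/
theorem JF_mem_in {W T : ℕ} {v : V} :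
    v ∈ TT W T \ Sd W T ↔ 1 ≤ v.1 ∧ v.1 ≤ W - 1 ∧ 0 ≤ v.2 ∧ v.2 ≤ T := by
  rw [Finset.mem_sdiff, JF_mem_Sd, JF_mem_TT]
  constructor
  · rintro ⟨⟨h1, h2, h3, h4⟩, h5⟩
    have h6 : ¬ (v.1 = 0 ∨ v.1 = W ∨ v.2 = T + 1) := fun h => h5 ⟨⟨h1, h2, h3, h4⟩, h⟩
    push Not at h6
    omega
  · rintro ⟨h1, h2, h3, h4⟩
    refine ⟨⟨by omega, by omega, by omega, by omega⟩, ?_⟩
    rintro ⟨_, h5⟩
    omega

theorem JF_row0 {W : ℕ} {v : V} : v ∈ row0 W ↔ 1 ≤ v.1 ∧ v.1 ≤ W - 1 ∧ v.2 = 0 := by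
  unfold row0
  rw [TT.mem_Rc]
  constructor
  · rintro ⟨h1, h2, h3, h4⟩; exact ⟨h1, h2, le_antisymm h4 h3⟩
  · rintro ⟨h1, h2, h3⟩; exact ⟨h1, h2, h3.ge, h3.le⟩

theorem JF_mem_Top {adj : V → V → Prop} {W T : ℕ} {A : Finset V} {v : V} :
    v ∈ Top adj W T A ↔ ConnIn adj ((TT W T : Set V) \ (A : Set V)) (s0 T) v := by
  classical
  unfold Top
  rw [Finset.mem_filter]
  constructor
  · exact fun h => h.2
  · intro h
    exact ⟨(TT.conn_mem_right h).1, h⟩

theorem JF_Top_sub {adj : V → V → Prop} {W T : ℕ} {A : Finset V} {v : V} (h : v ∈ Top adj W T A) :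
    v ∈ TT W T ∧ v ∉ A := by
  have := TT.conn_mem_right (JF_mem_Top.1 h)
  exact ⟨this.1, this.2⟩

theorem JF_Top_step {adj : V → V → Prop} {W T : ℕ} {A : Finset V} {v w : V} (h : v ∈ Top adj W T A)
    (hw : w ∈ TT W T) (hwA : w ∉ A) (hvw : adj v w) : w ∈ Top adj W T A := by
  rw [JF_mem_Top] at h ⊢
  exact TT.conn_trans h (TT.conn_single (TT.conn_mem_right h) ⟨hw, hwA⟩ hvw)

theorem JF_mem_fl {adj : V → V → Prop} {W T : ℕ} {A : Finset V} {v : V} :
    v ∈ fl adj W T A ↔ v ∈ TT W T ∧ v ∉ Top adj W T A := by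
  unfold fl; exact Finset.mem_sdiff

theorem JF_sub_fl {adj : V → V → Prop} {W T : ℕ} {A : Finset V} (hA : A ⊆ TT W T) : A ⊆ fl adj W T A := by
  intro v hv
  rw [JF_mem_fl]
  exact ⟨hA hv, fun h => (JF_Top_sub h).2 hv⟩

theorem JF_Top_mono {adj : V → V → Prop} {W T : ℕ} {A B : Finset V} (h : A ⊆ B) :
    Top adj W T B ⊆ Top adj W T A := by
  intro v hv
  rw [JF_mem_Top] at hv ⊢
  exact TT.conn_mono (fun x hx => ⟨hx.1, fun hxA => hx.2 (h hxA)⟩) hv

theorem JF_fl_mono {adj : V → V → Prop} {W T : ℕ} {A B : Finset V} (h : A ⊆ B) :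
    fl adj W T A ⊆ fl adj W T B := by
  intro v hv
  rw [JF_mem_fl] at hv ⊢
  exact ⟨hv.1, fun h2 => hv.2 (JF_Top_mono h h2)⟩

theorem JF_Top_nn_st {W T : ℕ} {A : Finset V} : Top nn W T A ⊆ Top st W T A := by
  intro v hv
  rw [JF_mem_Top] at hv ⊢
  exact TT.conn_st_of_nn hv

/-- the top component is the complement of the filling -/
theorem JF_Top_fl {adj : V → V → Prop} {W T : ℕ} {A : Finset V} (hA : A ⊆ TT W T) :
    Top adj W T (fl adj W T A) = Top adj W T A := by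
  apply Finset.Subset.antisymm
  · exact JF_Top_mono (JF_sub_fl hA)
  · intro v hv
    rw [JF_mem_Top] at hv ⊢
    have key : ∀ w, ConnIn adj ((TT W T : Set V) \ (A : Set V)) (s0 T) w →
        ConnIn adj ((TT W T : Set V) \ (fl adj W T A : Finset V)) (s0 T) w := by
      intro w hw
      have hs : s0 T ∈ (TT W T : Set V) \ (fl adj W T A : Finset V) := by
        refine ⟨hw.1.1, ?_⟩
        intro h
        have h' := (JF_mem_fl.1 (Finset.mem_coe.1 h)).2
        exact h' (JF_mem_Top.2 (TT.conn_refl hw.1))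
      obtain ⟨h1, h2⟩ := hw
      induction h2 with
      | refl => exact TT.conn_refl hs
      | tail hab hbc ih =>
        rename_i b c
        refine TT.conn_trans ih (TT.conn_single (TT.conn_mem_right ih) ?_ hbc.1)
        refine ⟨hbc.2.1, ?_⟩
        intro h
        exact (JF_mem_fl.1 (Finset.mem_coe.1 h)).2 (JF_mem_Top.2 ⟨h1, hab.tail hbc⟩)
    exact key v hv

theorem JF_fl_fl {adj : V → V → Prop} {W T : ℕ} {A : Finset V} (hA : A ⊆ TT W T) :
    fl adj W T (fl adj W T A) = fl adj W T A := by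
  conv_lhs => unfold fl
  rw [show TT W T \ Top adj W T A = fl adj W T A from rfl, JF_Top_fl hA]
  rfl

/-- outside of a filled set everything is in the top component -/
theorem JF_mem_Top_of_fill {adj : V → V → Prop} {W T : ℕ} {A : Finset V} (hfl : fl adj W T A = A) {v : V}
    (hv : v ∈ TT W T) (hvA : v ∉ A) : v ∈ Top adj W T A := by
  by_contra h
  exact hvA (hfl ▸ JF_mem_fl.2 ⟨hv, h⟩)

/-- rectangles are nn-connected -/
theorem JF_rect_conn (a b c d : ℤ) : IsConn nn (Rc a b c d : Set V) := by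
  have hor : ∀ (n : ℕ) (x y : ℤ), a ≤ x → x + n ≤ b → c ≤ y → y ≤ d →
      ConnIn nn (Rc a b c d : Set V) (x, y) (x + n, y) := by
    intro n x y h1 h2 h3 h4
    induction n with
    | zero =>
      have e : (x + ((0 : ℕ) : ℤ), y) = (x, y) := by simp
      rw [e]
      refine TT.conn_refl (Finset.mem_coe.2 (TT.mem_Rc.2 ⟨h1, ?_, h3, h4⟩))
      simpa using h2
    | succ n ih =>
      push_cast at h2
      have := ih (by linarith)
      refine TT.conn_trans this (TT.conn_single (TT.conn_mem_right this) ?_ ?_)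
      · refine Finset.mem_coe.2 (TT.mem_Rc.2 ⟨?_, ?_, h3, h4⟩)
        · show a ≤ x + ((n + 1 : ℕ) : ℤ); push_cast; linarith [Int.natCast_nonneg n]
        · show x + ((n + 1 : ℕ) : ℤ) ≤ b; push_cast; linarith
      · rw [TT.nn_iff']; left; exact ⟨by push_cast; ring, rfl⟩
  have ver : ∀ (n : ℕ) (x y : ℤ), a ≤ x → x ≤ b → c ≤ y → y + n ≤ d →
      ConnIn nn (Rc a b c d : Set V) (x, y) (x, y + n) := by
    intro n x y h1 h2 h3 h4
    induction n with
    | zero =>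
      have e : (x, y + ((0 : ℕ) : ℤ)) = (x, y) := by simp
      rw [e]
      refine TT.conn_refl (Finset.mem_coe.2 (TT.mem_Rc.2 ⟨h1, h2, h3, ?_⟩))
      simpa using h4
    | succ n ih =>
      push_cast at h4
      have := ih (by linarith)
      refine TT.conn_trans this (TT.conn_single (TT.conn_mem_right this) ?_ ?_)
      · refine Finset.mem_coe.2 (TT.mem_Rc.2 ⟨h1, h2, ?_, ?_⟩)
        · show c ≤ y + ((n + 1 : ℕ) : ℤ); push_cast; linarith [Int.natCast_nonneg n]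
        · show y + ((n + 1 : ℕ) : ℤ) ≤ d; push_cast; linarith
      · rw [TT.nn_iff']; right; right; left; exact ⟨rfl, by push_cast; ring⟩
  have hor' : ∀ (x x' y : ℤ), a ≤ x → x ≤ b → a ≤ x' → x' ≤ b → c ≤ y → y ≤ d →
      ConnIn nn (Rc a b c d : Set V) (x, y) (x', y) := by
    intro x x' y h1 h2 h1' h2' h3 h4
    rcases le_total x x' with h | h
    · obtain ⟨n, hn⟩ := Int.le.dest h
      have := hor n x y h1 (by linarith) h3 h4
      rwa [hn] at this
    · obtain ⟨n, hn⟩ := Int.le.dest h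
      have := hor n x' y h1' (by linarith) h3 h4
      rw [hn] at this
      exact TT.conn_symm TT.nn_symm' this
  have ver' : ∀ (x y y' : ℤ), a ≤ x → x ≤ b → c ≤ y → y ≤ d → c ≤ y' → y' ≤ d →
      ConnIn nn (Rc a b c d : Set V) (x, y) (x, y') := by
    intro x y y' h1 h2 h3 h4 h3' h4'
    rcases le_total y y' with h | h
    · obtain ⟨n, hn⟩ := Int.le.dest h
      have := ver n x y h1 h2 h3 (by linarith)
      rwa [hn] at this
    · obtain ⟨n, hn⟩ := Int.le.dest h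
      have := ver n x y' h1 h2 h3' (by linarith)
      rw [hn] at this
      exact TT.conn_symm TT.nn_symm' this
  intro u hu v hv
  have hu' := TT.mem_Rc.1 (Finset.mem_coe.1 hu)
  have hv' := TT.mem_Rc.1 (Finset.mem_coe.1 hv)
  exact TT.conn_trans (hor' u.1 v.1 u.2 hu'.1 hu'.2.1 hv'.1 hv'.2.1 hu'.2.2.1 hu'.2.2.2)
    (ver' v.1 u.2 v.2 hv'.1 hv'.2.1 hu'.2.2.1 hu'.2.2.2 hv'.2.2.1 hv'.2.2.2)

/-- every point of a filling is nn-joined inside the filling to a point of the set -/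
theorem JF_fl_reach {adj : V → V → Prop} (ha : JFadj adj) {W T : ℕ} {A : Finset V} (hA : A ⊆ TT W T)
    (hne : A.Nonempty) {v : V} (hv : v ∈ fl adj W T A) :
    ∃ a ∈ A, ConnIn nn (fl adj W T A : Set V) v a := by
  obtain ⟨a0, ha0⟩ := hne
  have hconn : ConnIn nn (TT W T : Set V) v a0 :=
    JF_rect_conn _ _ _ _ v (JF_mem_fl.1 hv).1 a0 (hA ha0)
  obtain ⟨_, h2⟩ := hconn
  have key : ∀ u, Relation.ReflTransGen (fun a b => nn a b ∧ b ∈ (TT W T : Set V)) u a0 →
      u ∈ fl adj W T A → ∃ a ∈ A, ConnIn nn (fl adj W T A : Set V) u a := by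
    intro u hu
    induction hu using Relation.ReflTransGen.head_induction_on with
    | refl => intro h; exact ⟨a0, ha0, TT.conn_refl h⟩
    | head h1 h2 ih =>
      rename_i u w
      intro hu
      by_cases huA : u ∈ A
      · exact ⟨u, huA, TT.conn_refl hu⟩
      · by_cases hwA : w ∈ A
        · exact ⟨w, hwA, TT.conn_single hu (JF_sub_fl hA hwA) h1.1⟩
        · have hw : w ∈ fl adj W T A := by
            rw [JF_mem_fl]
            refine ⟨h1.2, fun hwT => ?_⟩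
            exact (JF_mem_fl.1 hu).2 (JF_Top_step hwT (JF_mem_fl.1 hu).1 huA (ha.symm _ _ (ha.of_nn _ _ h1.1)))
          obtain ⟨a, haA, hwa⟩ := ih hw
          exact ⟨a, haA, TT.conn_trans (TT.conn_single hu hw h1.1) hwa⟩
  exact key v h2 hv

/-- filling preserves connectivity -/
theorem JF_fl_conn {adj adj' : V → V → Prop} (ha : JFadj adj) (ha' : JFadj adj') {W T : ℕ} {A : Finset V}
    (hA : A ⊆ TT W T) (hne : A.Nonempty) (hc : IsConn adj' (A : Set V)) :
    IsConn adj' (fl adj W T A : Set V) := by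
  have up : ∀ u v, ConnIn nn (fl adj W T A : Set V) u v → ConnIn adj' (fl adj W T A : Set V) u v := by
    rintro u v ⟨h1, h2⟩
    exact ⟨h1, Relation.ReflTransGen.mono (fun _ _ h => ⟨ha'.of_nn _ _ h.1, h.2⟩) _ _ h2⟩
  intro u hu v hv
  obtain ⟨a, haA, h1⟩ := JF_fl_reach ha hA hne (Finset.mem_coe.1 hu)
  obtain ⟨b, hbA, h2⟩ := JF_fl_reach ha hA hne (Finset.mem_coe.1 hv)
  have h3 := TT.conn_mono (B := (fl adj W T A : Set V)) (fun x hx => JF_sub_fl hA hx) (hc a haA b hbA)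
  exact TT.conn_trans (up _ _ h1) (TT.conn_trans h3 (TT.conn_symm ha'.symm (up _ _ h2)))

/-- the sides are nn-connected -/
theorem JF_Sd_conn {W T : ℕ} {v : V} (hv : v ∈ Sd W T) : ConnIn nn (Sd W T : Set V) (s0 T) v := by
  -- left column
  have left : ∀ n : ℕ, n ≤ T + 1 → ConnIn nn (Sd W T : Set V) (s0 T) (0, (T : ℤ) + 1 - n) := by
    intro n
    induction n with
    | zero =>
      intro _
      have e : ((0 : ℤ), (T : ℤ) + 1 - ((0 : ℕ) : ℤ)) = s0 T := by simp [s0]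
      rw [e]
      apply TT.conn_refl
      rw [Finset.mem_coe, JF_mem_Sd, JF_mem_TT]
      simp only [s0]
      exact ⟨⟨le_refl _, by positivity, by positivity, le_refl _⟩, Or.inl trivial⟩
    | succ n ih =>
      intro hn
      have := ih (by omega)
      refine TT.conn_trans this (TT.conn_single (TT.conn_mem_right this) ?_ ?_)
      · rw [Finset.mem_coe, JF_mem_Sd, JF_mem_TT]
        refine ⟨⟨le_refl _, by positivity, ?_, ?_⟩, Or.inl rfl⟩
        · show 0 ≤ (T : ℤ) + 1 - ((n + 1 : ℕ) : ℤ); push_cast; omega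
        · show (T : ℤ) + 1 - ((n + 1 : ℕ) : ℤ) ≤ T + 1; push_cast; omega
      · rw [TT.nn_iff']; right; right; right; exact ⟨rfl, by push_cast; ring⟩
  have top : ∀ n : ℕ, n ≤ W → ConnIn nn (Sd W T : Set V) (s0 T) ((n : ℤ), (T : ℤ) + 1) := by
    intro n
    induction n with
    | zero =>
      intro _
      have := left 0 (by omega)
      simpa using this
    | succ n ih =>
      intro hn
      have := ih (by omega)
      refine TT.conn_trans this (TT.conn_single (TT.conn_mem_right this) ?_ ?_)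
      · rw [Finset.mem_coe, JF_mem_Sd, JF_mem_TT]
        refine ⟨⟨by positivity, ?_, by positivity, le_refl _⟩, Or.inr (Or.inr rfl)⟩
        show ((n + 1 : ℕ) : ℤ) ≤ W; exact_mod_cast hn
      · rw [TT.nn_iff']; left; exact ⟨by push_cast; ring, rfl⟩
  have right : ∀ n : ℕ, n ≤ T + 1 → ConnIn nn (Sd W T : Set V) (s0 T) ((W : ℤ), (T : ℤ) + 1 - n) := by
    intro n
    induction n with
    | zero =>
      intro _
      have := top W le_rfl
      simpa using this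
    | succ n ih =>
      intro hn
      have := ih (by omega)
      refine TT.conn_trans this (TT.conn_single (TT.conn_mem_right this) ?_ ?_)
      · rw [Finset.mem_coe, JF_mem_Sd, JF_mem_TT]
        refine ⟨⟨by positivity, le_refl _, ?_, ?_⟩, Or.inr (Or.inl rfl)⟩
        · show 0 ≤ (T : ℤ) + 1 - ((n + 1 : ℕ) : ℤ); push_cast; omega
        · show (T : ℤ) + 1 - ((n + 1 : ℕ) : ℤ) ≤ T + 1; push_cast; omega
      · rw [TT.nn_iff']; right; right; right; exact ⟨rfl, by push_cast; ring⟩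
  obtain ⟨hT, h⟩ := JF_mem_Sd.1 hv
  rw [JF_mem_TT] at hT
  rcases h with h | h | h
  · have := left ((T : ℤ) + 1 - v.2).toNat (by omega)
    rw [Int.toNat_of_nonneg (by omega)] at this
    have e : ((0 : ℤ), (T : ℤ) + 1 - ((T : ℤ) + 1 - v.2)) = v := by
      ext
      · exact h.symm
      · show (T : ℤ) + 1 - ((T : ℤ) + 1 - v.2) = v.2; ring
    rwa [e] at this
  · have := right ((T : ℤ) + 1 - v.2).toNat (by omega)
    rw [Int.toNat_of_nonneg (by omega)] at this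
    have e : ((W : ℤ), (T : ℤ) + 1 - ((T : ℤ) + 1 - v.2)) = v := by
      ext
      · exact h.symm
      · show (T : ℤ) + 1 - ((T : ℤ) + 1 - v.2) = v.2; ring
    rwa [e] at this
  · have := top v.1.toNat (by omega)
    rw [Int.toNat_of_nonneg (by omega)] at this
    have e : (v.1, (T : ℤ) + 1) = v := by
      ext
      · rfl
      · exact h.symm
    rwa [e] at this

theorem JF_Sd_Top {adj : V → V → Prop} (ha : JFadj adj) {W T : ℕ} {A : Finset V} (hA : A ⊆ TT W T \ Sd W T)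
    {v : V} (hv : v ∈ Sd W T) : v ∈ Top adj W T A := by
  rw [JF_mem_Top]
  have h := JF_Sd_conn hv
  have h2 := TT.conn_mono (B := (TT W T : Set V) \ (A : Set V)) (fun x hx =>
    ⟨(JF_mem_Sd.1 (Finset.mem_coe.1 hx)).1, fun hxA => (Finset.mem_sdiff.1 (hA hxA)).2 hx⟩) h
  exact ⟨h2.1, Relation.ReflTransGen.mono (fun _ _ h => ⟨ha.of_nn _ _ h.1, h.2⟩) _ _ h2.2⟩

/-- filling of a set avoiding the sides avoids the sides -/
theorem JF_fl_in {adj : V → V → Prop} (ha : JFadj adj) {W T : ℕ} {A : Finset V} (hA : A ⊆ TT W T \ Sd W T) :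
    fl adj W T A ⊆ TT W T \ Sd W T := by
  intro v hv
  rw [Finset.mem_sdiff]
  exact ⟨(JF_mem_fl.1 hv).1, fun h => (JF_mem_fl.1 hv).2 (JF_Sd_Top ha hA h)⟩

theorem JF_insert_in {W T : ℕ} {A : Finset V} {v : V} (hA : A ⊆ TT W T \ Sd W T) (hv : v ∈ TT W T \ Sd W T) :
    insert v A ⊆ TT W T \ Sd W T := by
  intro w hw
  rcases Finset.mem_insert.1 hw with rfl | hw
  · exact hv
  · exact hA hw

theorem JF_sub_TT {W T : ℕ} {A : Finset V} (hA : A ⊆ TT W T \ Sd W T) : A ⊆ TT W T :=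
  fun _ hv => (Finset.mem_sdiff.1 (hA hv)).1

/-- common neighbour of a diagonal pair -/
theorem JF_diag {u v : V} (h : st u v) (hn : ¬ nn u v) :
    nn u (u.1, v.2) ∧ nn v (u.1, v.2) ∧ nn u (v.1, u.2) ∧ nn v (v.1, u.2) := by
  have hst := TT.st_iff'.1 h
  have hdiag : (v.1 = u.1 + 1 ∨ v.1 = u.1 - 1) ∧ (v.2 = u.2 + 1 ∨ v.2 = u.2 - 1) := by
    have hn' : ¬ ((v.1 = u.1 + 1 ∧ v.2 = u.2) ∨ (v.1 = u.1 - 1 ∧ v.2 = u.2) ∨
      (v.1 = u.1 ∧ v.2 = u.2 + 1) ∨ (v.1 = u.1 ∧ v.2 = u.2 - 1)) := fun h => hn (TT.nn_iff'.2 h)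
    have h0 : ¬ (v.1 = u.1 ∧ v.2 = u.2) := by
      rintro ⟨e1, e2⟩
      exact hst.1 (Prod.ext e1.symm e2.symm)
    omega
  obtain ⟨d1, d2⟩ := hdiag
  refine ⟨?_, ?_, ?_, ?_⟩ <;> rw [TT.nn_iff']
  · rcases d2 with h | h
    · exact Or.inr (Or.inr (Or.inl ⟨rfl, h⟩))
    · exact Or.inr (Or.inr (Or.inr ⟨rfl, h⟩))
  · rcases d1 with h | h
    · exact Or.inr (Or.inl ⟨by show u.1 = v.1 - 1; omega, rfl⟩)
    · exact Or.inl ⟨by show u.1 = v.1 + 1; omega, rfl⟩
  · rcases d1 with h | h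
    · exact Or.inl ⟨h, rfl⟩
    · exact Or.inr (Or.inl ⟨h, rfl⟩)
  · rcases d2 with h | h
    · exact Or.inr (Or.inr (Or.inr ⟨rfl, by show u.2 = v.2 - 1; omega⟩))
    · exact Or.inr (Or.inr (Or.inl ⟨rfl, by show u.2 = v.2 + 1; omega⟩))

theorem JF_corner_in {W T : ℕ} {u v : V} (hu : u ∈ TT W T \ Sd W T) (hv : v ∈ TT W T \ Sd W T) :
    (u.1, v.2) ∈ TT W T \ Sd W T := by
  rw [JF_mem_in] at hu hv ⊢
  exact ⟨hu.1, hu.2.1, hv.2.2.1, hv.2.2.2⟩

theorem JF_corner_TT {W T : ℕ} {u v : V} (hu : u ∈ TT W T) (hv : v ∈ TT W T) : (u.1, v.2) ∈ TT W T := by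
  rw [JF_mem_TT] at hu hv ⊢
  exact ⟨hu.1, hu.2.1, hv.2.2.1, hv.2.2.2⟩

theorem JF_mem_PC {W T : ℕ} {A : Finset V} {v : V} : v ∈ PC W T A ↔ v ∈ Top nn W T A ∧ ∃ a ∈ A, st v a := by
  classical
  unfold PC; exact Finset.mem_filter

theorem JF_mem_PO {W T : ℕ} {A : Finset V} {v : V} : v ∈ PO W T A ↔ v ∈ Top st W T A ∧ ∃ a ∈ A, nn v a := by
  classical
  unfold PO; exact Finset.mem_filter

/-- a vertex of the top component which is star adjacent to the filling is star adjacent to the set -/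
theorem JF_adj_fl {W T : ℕ} {A : Finset V} {v a : V} (hv : v ∈ Top nn W T A)
    (ha : a ∈ fl nn W T A) (hva : st v a) : ∃ b ∈ A, st v b := by
  by_cases haA : a ∈ A
  · exact ⟨a, haA, hva⟩
  · have haT := JF_mem_fl.1 ha
    by_cases hnn : nn v a
    · exact absurd (JF_Top_step hv haT.1 haA hnn) haT.2
    · obtain ⟨h1, h2, _, _⟩ := JF_diag hva hnn
      have hw := JF_corner_TT (JF_Top_sub hv).1 haT.1
      by_cases hwA : (v.1, a.2) ∈ A
      · exact ⟨_, hwA, TT.st_of_nn h1⟩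
      · exact absurd (JF_Top_step (JF_Top_step hv hw hwA h1) haT.1 haA (TT.nn_comm.1 h2)) haT.2

end GF
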