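import Pool.Agent.Lib.MP_acf58e_gf.X0
open MeasureTheory Set ProbabilityTheory
open scoped ENNReal
namespace GF

private theorem x3_reveal {c : Cell} {v : V} (hC : v ∉ c.C) (hO : v ∉ c.O) (th : ℝ) (b : Bool)
    (X : V → ℝ) : X ∈ (c.reveal v th b).S ↔ X ∈ c.S ∧ (b = true ↔ X v < th) := by
  classical
  have key : ∀ w : V, w ≠ v → Function.update c.θ v th w = c.θ w :=
    fun w hw => Function.update_of_ne hw _ _
  have hCv : ∀ w ∈ c.C, w ≠ v := fun w hw e => hC (e ▸ hw)
  have hOv : ∀ w ∈ c.O, w ≠ v := fun w hw e => hO (e ▸ hw)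
  cases b with
  | true =>
    have e : c.reveal v th true = ⟨insert v c.C, c.O, Function.update c.θ v th⟩ := by
      unfold Cell.reveal
      rw [if_pos rfl]
    rw [e]
    constructor
    · rintro ⟨h1, h2⟩
      refine ⟨⟨fun w hw => ?_, fun w hw => ?_⟩, ?_⟩
      · rw [← key w (hCv w hw)]
        exact h1 w (Finset.mem_insert_of_mem hw)
      · rw [← key w (hOv w hw)]
        exact h2 w hw
      · have := h1 v (Finset.mem_insert_self v _)
        dsimp only at this
        rw [Function.update_self] at this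
        exact ⟨fun _ => this, fun _ => rfl⟩
    · rintro ⟨⟨h1, h2⟩, h3⟩
      refine ⟨fun w hw => ?_, fun w hw => ?_⟩
      · rcases Finset.mem_insert.1 hw with rfl | hw
        · dsimp only
          rw [Function.update_self]
          exact h3.1 rfl
        · dsimp only
          rw [key w (hCv w hw)]
          exact h1 w hw
      · dsimp only
        rw [key w (hOv w hw)]
        exact h2 w hw
  | false =>
    have e : c.reveal v th false = ⟨c.C, insert v c.O, Function.update c.θ v th⟩ := by
      unfold Cell.reveal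
      rw [if_neg Bool.false_ne_true]
    rw [e]
    constructor
    · rintro ⟨h1, h2⟩
      refine ⟨⟨fun w hw => ?_, fun w hw => ?_⟩, ?_⟩
      · rw [← key w (hCv w hw)]
        exact h1 w hw
      · rw [← key w (hOv w hw)]
        exact h2 w (Finset.mem_insert_of_mem hw)
      · have := h2 v (Finset.mem_insert_self v _)
        dsimp only at this
        rw [Function.update_self] at this
        exact ⟨fun h => absurd h Bool.false_ne_true, fun h => absurd h (not_lt.2 this)⟩
    · rintro ⟨⟨h1, h2⟩, h3⟩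
      refine ⟨fun w hw => ?_, fun w hw => ?_⟩
      · dsimp only
        rw [key w (hCv w hw)]
        exact h1 w hw
      · rcases Finset.mem_insert.1 hw with rfl | hw
        · dsimp only
          rw [Function.update_self]
          exact not_lt.1 fun h => Bool.false_ne_true (h3.2 h)
        · dsimp only
          rw [key w (hOv w hw)]
          exact h2 w hw

private theorem x3_revealC (c : Cell) (v : V) (th : ℝ) (b : Bool) :
    (b = true ∧ (c.reveal v th b).C = insert v c.C ∧ (c.reveal v th b).O = c.O) ∨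
    (b = false ∧ (c.reveal v th b).C = c.C ∧ (c.reveal v th b).O = insert v c.O) := by
  classical
  cases b with
  | true =>
    left
    unfold Cell.reveal
    rw [if_pos rfl]
    refine ⟨rfl, ?_, rfl⟩
    ext w
    simp [Finset.mem_insert]
  | false =>
    right
    unfold Cell.reveal
    rw [if_neg Bool.false_ne_true]
    refine ⟨rfl, rfl, ?_⟩
    ext w
    simp [Finset.mem_insert]

private theorem x3_step {σ : Type*} (nxt : σ → Option (V × ℝ)) (upd : σ → V → Bool → σ) (q : σ)
    (X : V → ℝ) : (nxt q = none ∧ stepA nxt upd q X = q) ∨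
    ∃ v th b, nxt q = some (v, th) ∧ (b = true ↔ X v < th) ∧ stepA nxt upd q X = upd q v b := by
  unfold stepA
  cases h : nxt q with
  | none => exact Or.inl ⟨rfl, rfl⟩
  | some p =>
    obtain ⟨v, th⟩ := p
    right
    exact ⟨v, th, _, rfl, decide_eq_true_iff, rfl⟩

private theorem x3_ok {c : Cell} {D : Finset V} (h : c.Ok D) {v : V} (hv : v ∈ D) (hC : v ∉ c.C)
    (hO : v ∉ c.O) (th : ℝ) (b : Bool) : (c.reveal v th b).Ok D := by
  classical
  obtain ⟨h1, h2, h3⟩ := h
  rcases x3_revealC c v th b with ⟨-, e1, e2⟩ | ⟨-, e1, e2⟩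
  · refine ⟨?_, ?_, ?_⟩
    · rw [e1]
      exact Finset.insert_subset hv h1
    · rw [e2]
      exact h2
    · rw [e1, e2, Finset.disjoint_insert_left]
      exact ⟨hO, h3⟩
  · refine ⟨?_, ?_, ?_⟩
    · rw [e1]
      exact h1
    · rw [e2]
      exact Finset.insert_subset hv h2
    · rw [e1, e2, Finset.disjoint_insert_right]
      exact ⟨hC, h3⟩

theorem IsExp.const (D : Finset V) {σ : Type*} (q : σ) (cell : σ → Cell) (h : (cell q).C = ∅)
    (h' : (cell q).O = ∅) : IsExp D (fun _ => q) cell := by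
  refine ⟨?_, fun X => ⟨?_, ?_, ?_⟩, fun X => ⟨?_, ?_⟩, fun _ _ _ => rfl⟩
  · exact (Set.finite_singleton q).subset (by rintro _ ⟨_, rfl⟩; rfl)
  · dsimp only
    rw [h]
    exact Finset.empty_subset _
  · dsimp only
    rw [h']
    exact Finset.empty_subset _
  · dsimp only
    rw [h]
    exact Finset.disjoint_empty_left _
  · intro v hv
    dsimp only at hv
    rw [h] at hv
    exact absurd hv (Finset.notMem_empty v)
  · intro v hv
    dsimp only at hv
    rw [h'] at hv
    exact absurd hv (Finset.notMem_empty v)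

/-- hypotheses on an algorithm on the states satisfying P -/
structure IsAlg (D : Finset V) {σ : Type*} (cell : σ → Cell) (P : σ → Prop) (nxt : σ → Option (V × ℝ))
    (upd : σ → V → Bool → σ) : Prop where
  mem : ∀ q v th, P q → nxt q = some (v, th) → v ∈ D ∧ v ∉ (cell q).C ∧ v ∉ (cell q).O
  cell_upd : ∀ q v th b, P q → nxt q = some (v, th) → cell (upd q v b) = (cell q).reveal v th b
  pres : ∀ q v th b, P q → nxt q = some (v, th) → P (upd q v b)

private theorem x3_step_pres {D : Finset V} {σ : Type*} {cell : σ → Cell}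
    {P : σ → Prop} {nxt : σ → Option (V × ℝ)} {upd : σ → V → Bool → σ} (hA : IsAlg D cell P nxt upd)
    {q : σ} (hP : P q) (X : V → ℝ) : P (stepA nxt upd q X) := by
  rcases x3_step nxt upd q X with ⟨-, e⟩ | ⟨v, th, b, h1, -, e⟩
  · rw [e]
    exact hP
  · rw [e]
    exact hA.pres q v th b hP h1

private theorem x3_run_pres {D : Finset V} {σ : Type*} {cell : σ → Cell}
    {P : σ → Prop} {nxt : σ → Option (V × ℝ)} {upd : σ → V → Bool → σ} (hA : IsAlg D cell P nxt upd)
    {q : σ} (hP : P q) (n : ℕ) (X : V → ℝ) : P (runA nxt upd n q X) := by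
  induction n with
  | zero => exact hP
  | succ n ih => exact x3_step_pres hA ih X

private theorem x3_exp_step {D : Finset V} {σ : Type*} {s : (V → ℝ) → σ} {cell : σ → Cell}
    (hs : IsExp D s cell) {P : σ → Prop} {nxt : σ → Option (V × ℝ)} {upd : σ → V → Bool → σ}
    (hA : IsAlg D cell P nxt upd) (hP : ∀ X, P (s X)) :
    IsExp D (fun X => stepA nxt upd (s X) X) cell := by
  obtain ⟨h1, h2, h3, h4⟩ := hs
  refine ⟨?_, ?_, ?_, ?_⟩
  · have hfin : (⋃ q ∈ range s, (insert q (⋃ p ∈ nxt q, {upd q p.1 true, upd q p.1 false} :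
        Set σ) : Set σ)).Finite := by
      apply h1.biUnion
      intro q _
      apply Set.Finite.insert
      cases h : nxt q with
      | none => simp
      | some p => simp
    refine hfin.subset ?_
    rintro _ ⟨X, rfl⟩
    rw [Set.mem_iUnion₂]
    refine ⟨s X, ⟨X, rfl⟩, ?_⟩
    dsimp only
    rcases x3_step nxt upd (s X) X with ⟨-, e⟩ | ⟨v, th, b, h5, -, e⟩
    · rw [e]
      exact Set.mem_insert _ _
    · rw [e]
      right
      rw [Set.mem_iUnion₂]
      refine ⟨(v, th), h5, ?_⟩
      cases b with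
      | true => exact Or.inl rfl
      | false => exact Or.inr rfl
  · intro X
    dsimp only
    rcases x3_step nxt upd (s X) X with ⟨-, e⟩ | ⟨v, th, b, h5, -, e⟩
    · rw [e]
      exact h2 X
    · rw [e, hA.cell_upd _ _ _ _ (hP X) h5]
      obtain ⟨h6, h7, h8⟩ := hA.mem _ _ _ (hP X) h5
      exact x3_ok (h2 X) h6 h7 h8 th b
  · intro X
    dsimp only
    rcases x3_step nxt upd (s X) X with ⟨-, e⟩ | ⟨v, th, b, h5, hb, e⟩
    · rw [e]
      exact h3 X
    · rw [e, hA.cell_upd _ _ _ _ (hP X) h5]
      obtain ⟨h6, h7, h8⟩ := hA.mem _ _ _ (hP X) h5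
      exact (x3_reveal h7 h8 th b X).2 ⟨h3 X, hb⟩
  · intro X X' hX'
    dsimp only at hX' ⊢
    rcases x3_step nxt upd (s X) X with ⟨h5, e⟩ | ⟨v, th, b, h5, hb, e⟩
    · rw [e] at hX'
      have h6 := h4 X X' hX'
      rw [h6, e]
      rcases x3_step nxt upd (s X) X' with ⟨-, e'⟩ | ⟨v', th', b', h5', -, -⟩
      · exact e'
      · rw [h5] at h5'
        exact absurd h5' (by simp)
    · rw [e, hA.cell_upd _ _ _ _ (hP X) h5] at hX'
      obtain ⟨h6, h7, h8⟩ := hA.mem _ _ _ (hP X) h5
      obtain ⟨h9, h10⟩ := (x3_reveal h7 h8 th b X').1 hX'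
      have h11 := h4 X X' h9
      rw [h11, e]
      rcases x3_step nxt upd (s X) X' with ⟨h5', -⟩ | ⟨v', th', b', h5', hb', e'⟩
      · rw [h5] at h5'
        exact absurd h5' (by simp)
      · rw [h5] at h5'
        have h12 : v = v' ∧ th = th' := by simpa using h5'
        obtain ⟨rfl, rfl⟩ := h12
        rw [e']
        have : b' = b := by
          rw [Bool.eq_iff_iff]
          exact hb'.trans h10.symm
        rw [this]

theorem IsExp.run {D : Finset V} {σ : Type*} {s : (V → ℝ) → σ} {cell : σ → Cell} (hs : IsExp D s cell)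
    {P : σ → Prop} {nxt : σ → Option (V × ℝ)} {upd : σ → V → Bool → σ} (hA : IsAlg D cell P nxt upd)
    (hP : ∀ X, P (s X)) (n : ℕ) : IsExp D (fun X => runA nxt upd n (s X) X) cell := by
  induction n with
  | zero => exact hs
  | succ n ih => exact x3_exp_step ih hA fun X => x3_run_pres hA (hP X) n X

theorem runA_pres {D : Finset V} {σ : Type*} {cell : σ → Cell}
    {P : σ → Prop} {nxt : σ → Option (V × ℝ)} {upd : σ → V → Bool → σ} (hA : IsAlg D cell P nxt upd)
    {q : σ} (hP : P q) (n : ℕ) (X : V → ℝ) : P (runA nxt upd n q X) := by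
  exact x3_run_pres hA hP n X

/-- after card D steps the algorithm has stopped -/
theorem runA_stop {D : Finset V} {σ : Type*} {cell : σ → Cell}
    {P : σ → Prop} {nxt : σ → Option (V × ℝ)} {upd : σ → V → Bool → σ} (hA : IsAlg D cell P nxt upd)
    {q : σ} (hP : P q) (hq : (cell q).Ok D) (n : ℕ) (hn : D.card ≤ n) (X : V → ℝ) : nxt (runA nxt upd n q X) = none := by
  classical
  have key : ∀ n, (cell (runA nxt upd n q X)).Ok D ∧ (nxt (runA nxt upd n q X) = none ∨
      n ≤ (cell (runA nxt upd n q X)).C.card + (cell (runA nxt upd n q X)).O.card) := by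
    intro n
    induction n with
    | zero => exact ⟨hq, Or.inr (Nat.zero_le _)⟩
    | succ n ih =>
      obtain ⟨ih1, ih2⟩ := ih
      have hPn := x3_run_pres hA hP n X
      have hdef : runA nxt upd (n + 1) q X = stepA nxt upd (runA nxt upd n q X) X := rfl
      rw [hdef]
      rcases x3_step nxt upd (runA nxt upd n q X) X with ⟨h5, e⟩ | ⟨v, th, b, h5, -, e⟩
      · rw [e]
        exact ⟨ih1, Or.inl h5⟩
      · rw [e, hA.cell_upd _ _ _ _ hPn h5]
        obtain ⟨h6, h7, h8⟩ := hA.mem _ _ _ hPn h5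
        refine ⟨x3_ok ih1 h6 h7 h8 th b, Or.inr ?_⟩
        have h9 : n ≤ (cell (runA nxt upd n q X)).C.card +
            (cell (runA nxt upd n q X)).O.card := by
          rcases ih2 with h | h
          · rw [h] at h5
            exact absurd h5 (by simp)
          · exact h
        rcases x3_revealC (cell (runA nxt upd n q X)) v th b with ⟨-, e1, e2⟩ | ⟨-, e1, e2⟩
        · rw [e1, e2, Finset.card_insert_of_notMem h7]
          omega
        · rw [e1, e2, Finset.card_insert_of_notMem h8]
          omega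
  obtain ⟨⟨h1, h2, h3⟩, h4⟩ := key n
  rcases h4 with h4 | h4
  · exact h4
  · cases h : nxt (runA nxt upd n q X) with
    | none => rfl
    | some p =>
      obtain ⟨v, th⟩ := p
      obtain ⟨h6, h7, h8⟩ := hA.mem _ _ _ (x3_run_pres hA hP n X) h
      have h9 : insert v ((cell (runA nxt upd n q X)).C ∪ (cell (runA nxt upd n q X)).O) ⊆ D :=
        Finset.insert_subset h6 (Finset.union_subset h1 h2)
      have h10 := Finset.card_le_card h9
      rw [Finset.card_insert_of_notMem (by
        rw [Finset.mem_union]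
        exact fun h => h.elim h7 h8), Finset.card_union_of_disjoint h3] at h10
      omega

theorem runA_subset {D : Finset V} {σ : Type*} {cell : σ → Cell}
    {P : σ → Prop} {nxt : σ → Option (V × ℝ)} {upd : σ → V → Bool → σ} (hA : IsAlg D cell P nxt upd)
    {q : σ} (hP : P q) (n : ℕ) (X : V → ℝ) :
    (cell (runA nxt upd n q X)).S ⊆ (cell q).S ∧ (cell q).C ⊆ (cell (runA nxt upd n q X)).C ∧
      (cell q).O ⊆ (cell (runA nxt upd n q X)).O := by
  classical
  induction n with
  | zero => exact ⟨Subset.rfl, Finset.Subset.refl _, Finset.Subset.refl _⟩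
  | succ n ih =>
    obtain ⟨ih1, ih2, ih3⟩ := ih
    have hPn := x3_run_pres hA hP n X
    have hdef : runA nxt upd (n + 1) q X = stepA nxt upd (runA nxt upd n q X) X := rfl
    rw [hdef]
    rcases x3_step nxt upd (runA nxt upd n q X) X with ⟨h5, e⟩ | ⟨v, th, b, h5, -, e⟩
    · rw [e]
      exact ⟨ih1, ih2, ih3⟩
    · rw [e, hA.cell_upd _ _ _ _ hPn h5]
      obtain ⟨h6, h7, h8⟩ := hA.mem _ _ _ hPn h5
      refine ⟨fun Y hY => ih1 ((x3_reveal h7 h8 th b Y).1 hY).1, ?_⟩
      rcases x3_revealC (cell (runA nxt upd n q X)) v th b with ⟨-, e1, e2⟩ | ⟨-, e1, e2⟩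
      · rw [e1, e2]
        exact ⟨ih2.trans (Finset.subset_insert _ _), ih3⟩
      · rw [e1, e2]
        exact ⟨ih2, ih3.trans (Finset.subset_insert _ _)⟩

/-- post-processing of the state -/
theorem IsExp.map {D : Finset V} {σ τ : Type*} {s : (V → ℝ) → σ} {cell : σ → Cell} (hs : IsExp D s cell)
    (f : σ → τ) (cell' : τ → Cell) (h : ∀ X, cell' (f (s X)) = cell (s X)) : IsExp D (fun X => f (s X)) cell' := by
  obtain ⟨h1, h2, h3, h4⟩ := hs
  refine ⟨?_, fun X => ?_, fun X => ?_, fun X X' hX' => ?_⟩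
  · refine (h1.image f).subset ?_
    rintro _ ⟨X, rfl⟩
    exact ⟨s X, ⟨X, rfl⟩, rfl⟩
  · dsimp only
    rw [h X]
    exact h2 X
  · dsimp only
    rw [h X]
    exact h3 X
  · dsimp only at hX' ⊢
    rw [h X] at hX'
    rw [h4 X X' hX']

end GF
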