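import Pool.Agent.Lib.MP_acf58e_gf.J0
import Pool.Agent.Lib.MP_acf58e_gf.X3
import Pool.Agent.Lib.MP_acf58e_gf.JF
/-! C-growth stage (blueprint 7.1) -/
open MeasureTheory Set ProbabilityTheory
open scoped ENNReal
namespace GF

/-- invariants inside a C-growth stage -/
private structure InvC (W T : ℕ) (w0 : ℝ) (q : JS) : Prop where
  sub : q.A ⊆ TT W T \ Sd W T
  row : row0 W ⊆ q.A
  conn : IsConn st (q.A : Set V)
  fill : fl nn W T q.A = q.A
  revC : q.c.C ⊆ q.A
  revO : ∀ v ∈ q.c.O, v ∈ q.A ∨ (v ∈ PC W T q.A ∧ v ∉ Sd W T ∧ q.c.θ v = 0)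
  up : ∀ v ∈ q.c.C ∪ q.c.O, 1 ≤ v.2
  dis : Disjoint q.c.C q.c.O
  thr : ∀ v ∈ q.c.C ∪ q.c.O, q.c.θ v = 0 ∨ q.c.θ v = w0
  K : q.K = ∅
  i3 : ∀ v ∈ q.c.O, ∃ p, st v p ∧ (p ∈ q.c.C ∨ p ∈ Sd W T)
  i4 : ∀ v ∈ q.c.C, q.c.θ v = w0 → ∃ p, ConnIn st (q.c.C : Set V) v p ∧ ∃ s ∈ Sd W T, st p s
  q3 : ∀ v ∈ Top nn W T q.A, (∃ a ∈ q.A, st v a) → ∃ p, st v p ∧ (p ∈ q.c.C ∨ p ∈ Sd W T)

private theorem conn_st_of_conn_nn {S : Set V} (h : IsConn nn S) : IsConn st S :=
  fun x hx y hy => TT.conn_st_of_nn (h x hx y hy)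

private theorem InvC_of_GoodO {W T : ℕ} {w0 : ℝ} {q : JS} (hq : GoodO W T w0 q) : InvC W T w0 q where
  sub := hq.sub
  row := hq.row
  conn := conn_st_of_conn_nn hq.conn
  fill := hq.fill
  revC := hq.revC
  revO := fun v hv => Or.inl (hq.revO hv)
  up := hq.up
  dis := hq.dis
  thr := hq.thr
  K := hq.K
  i3 := hq.i3
  i4 := hq.i4
  q3 := hq.q3

private theorem row0_nonempty {W : ℕ} (hW : 3 ≤ W) : (row0 W).Nonempty := by
  refine ⟨(1, 0), JF_row0.2 ⟨le_refl _, ?_, rfl⟩⟩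
  show (1 : ℤ) ≤ W - 1
  omega

private theorem mem_candC {W T : ℕ} {q : JS} {v : V} :
    v ∈ candC W T q ↔ (v ∈ PC W T q.A ∧ v ∉ Sd W T) ∧ v ∉ q.c.C ∧ v ∉ q.c.O := by
  classical
  unfold candC
  rw [Finset.mem_filter, Finset.mem_sdiff]

private theorem nxtC_some {W T : ℕ} {q : JS} {v : V} {th : ℝ} (h : nxtC W T q = some (v, th)) :
    v ∈ candC W T q ∧ th = 0 := by
  classical
  unfold nxtC at h
  by_cases hc : (candC W T q).Nonempty
  · rw [dif_pos hc] at h
    have h' := Option.some.inj h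
    have h1 : hc.choose = v := congrArg Prod.fst h'
    have h2 : (0 : ℝ) = th := congrArg Prod.snd h'
    exact ⟨h1 ▸ hc.choose_spec, h2.symm⟩
  · rw [dif_neg hc] at h
    exact absurd h (by simp)

private theorem nxtC_none {W T : ℕ} {q : JS} (h : nxtC W T q = none) : ∀ v, v ∉ candC W T q := by
  classical
  intro v hv
  unfold nxtC at h
  rw [dif_pos ⟨v, hv⟩] at h
  exact absurd h (by simp)

private theorem updC_true (W T : ℕ) (q : JS) (v : V) :
    updC W T q v true = ⟨⟨insert v q.c.C, q.c.O, Function.update q.c.θ v 0⟩, fl nn W T (insert v q.A), q.K⟩ := by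
  unfold updC Cell.reveal
  simp

private theorem updC_false (W T : ℕ) (q : JS) (v : V) :
    updC W T q v false = ⟨⟨q.c.C, insert v q.c.O, Function.update q.c.θ v 0⟩, q.A, q.K⟩ := by
  unfold updC Cell.reveal
  simp

private theorem cand_in {W T : ℕ} {w0 : ℝ} {q : JS} {v : V} (hv : v ∈ candC W T q) :
    v ∈ TT W T \ Sd W T ∧ v ∉ q.A ∧ v ∈ Top nn W T q.A ∧ ∃ a ∈ q.A, st v a := by
  obtain ⟨⟨h1, h2⟩, h3, h4⟩ := mem_candC.1 hv
  obtain ⟨h5, h6⟩ := JF_mem_PC.1 h1
  exact ⟨Finset.mem_sdiff.2 ⟨(JF_Top_sub h5).1, h2⟩, (JF_Top_sub h5).2, h5, h6⟩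

private theorem InvC_up {W T : ℕ} {w0 : ℝ} {q : JS} (hq : InvC W T w0 q) {v : V} (hv : v ∈ candC W T q) :
    1 ≤ v.2 := by
  obtain ⟨h1, h2, _, _⟩ := cand_in (w0 := w0) hv
  rw [JF_mem_in] at h1
  by_contra hcon
  have : v.2 = 0 := by omega
  exact h2 (hq.row (JF_row0.2 ⟨h1.1, h1.2.1, this⟩))

private theorem conn_insert_star {A : Finset V} (hc : IsConn st (A : Set V)) {v a : V} (ha : a ∈ A)
    (hva : st v a) : IsConn st ((insert v A : Finset V) : Set V) := by
  classical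
  have hv : v ∈ ((insert v A : Finset V) : Set V) := Finset.mem_coe.2 (Finset.mem_insert_self _ _)
  have hA : ∀ x ∈ (A : Set V), x ∈ ((insert v A : Finset V) : Set V) := fun x hx =>
    Finset.mem_coe.2 (Finset.mem_insert_of_mem hx)
  have h1 : ConnIn st ((insert v A : Finset V) : Set V) v a := TT.conn_single hv (hA a ha) hva
  have key : ∀ x ∈ ((insert v A : Finset V) : Set V), ConnIn st ((insert v A : Finset V) : Set V) a x := by
    intro x hx
    rcases Finset.mem_insert.1 (Finset.mem_coe.1 hx) with rfl | hx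
    · exact TT.conn_symm TT.st_symm' h1
    · exact TT.conn_mono hA (hc a ha x hx)
  intro x hx y hy
  exact TT.conn_trans (TT.conn_symm TT.st_symm' (key x hx)) (key y hy)

private theorem InvC_pres_true {W T : ℕ} {w0 : ℝ} (h0 : 0 < w0) {q : JS} (hq : InvC W T w0 q) {v : V}
    (hv : v ∈ candC W T q) : InvC W T w0 (updC W T q v true) := by
  classical
  obtain ⟨c1, c2, c3, a, haA, hva⟩ := cand_in (w0 := w0) hv
  obtain ⟨⟨_, hvS⟩, hvC, hvO⟩ := mem_candC.1 hv
  have hins : insert v q.A ⊆ TT W T \ Sd W T := JF_insert_in hq.sub c1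
  have hinsT := JF_sub_TT hins
  have hne : (insert v q.A).Nonempty := ⟨v, Finset.mem_insert_self _ _⟩
  have hsubfl : insert v q.A ⊆ fl nn W T (insert v q.A) := JF_sub_fl hinsT
  have hAfl : q.A ⊆ fl nn W T (insert v q.A) := (Finset.subset_insert _ _).trans hsubfl
  have hTop : Top nn W T (fl nn W T (insert v q.A)) ⊆ Top nn W T q.A := JF_Top_mono hAfl
  have thold : ∀ w, w ≠ v → Function.update q.c.θ v 0 w = q.c.θ w := fun w hw => Function.update_of_ne hw _ _
  rw [updC_true]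
  refine ⟨JF_fl_in JFadj_nn hins, hq.row.trans hAfl, ?_, JF_fl_fl hinsT, ?_, ?_, ?_, ?_, ?_, hq.K, ?_, ?_, ?_⟩
  · exact JF_fl_conn JFadj_nn JFadj_st hinsT hne (conn_insert_star hq.conn haA hva)
  · intro w hw
    rcases Finset.mem_insert.1 hw with rfl | hw
    · exact hsubfl (Finset.mem_insert_self _ _)
    · exact hAfl (hq.revC hw)
  · intro w hw
    have hwv : w ≠ v := by rintro rfl; exact hvO hw
    rcases hq.revO w hw with h | ⟨h1, h2, h3⟩
    · exact Or.inl (hAfl h)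
    · by_cases hwf : w ∈ fl nn W T (insert v q.A)
      · exact Or.inl hwf
      · right
        obtain ⟨h4, b, hb, hwb⟩ := JF_mem_PC.1 h1
        refine ⟨JF_mem_PC.2 ⟨?_, b, hAfl hb, hwb⟩, h2, ?_⟩
        · exact JF_mem_Top_of_fill (JF_fl_fl hinsT) (JF_Top_sub h4).1 hwf
        · show Function.update q.c.θ v 0 w = 0
          rw [thold w hwv]; exact h3
  · intro w hw
    rcases Finset.mem_union.1 hw with hw | hw
    · rcases Finset.mem_insert.1 hw with rfl | hw
      · exact InvC_up hq hv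
      · exact hq.up w (Finset.mem_union_left _ hw)
    · exact hq.up w (Finset.mem_union_right _ hw)
  · rw [Finset.disjoint_left]
    intro w hw hwO
    rcases Finset.mem_insert.1 hw with rfl | hw
    · exact hvO hwO
    · exact Finset.disjoint_left.1 hq.dis hw hwO
  · intro w hw
    show Function.update q.c.θ v 0 w = 0 ∨ Function.update q.c.θ v 0 w = w0
    by_cases hwv : w = v
    · left; rw [hwv, Function.update_self]
    · rw [thold w hwv]
      rcases Finset.mem_union.1 hw with hw | hw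
      · rcases Finset.mem_insert.1 hw with rfl | hw
        · exact absurd rfl hwv
        · exact hq.thr w (Finset.mem_union_left _ hw)
      · exact hq.thr w (Finset.mem_union_right _ hw)
  · intro w hw
    obtain ⟨p, h1, h2⟩ := hq.i3 w hw
    exact ⟨p, h1, h2.imp (fun h => Finset.mem_insert_of_mem h) id⟩
  · intro w hw hθ
    have hwv : w ≠ v := by
      rintro rfl
      have : Function.update q.c.θ w 0 w = w0 := hθ
      rw [Function.update_self] at this
      exact absurd this h0.ne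
    have hwC : w ∈ q.c.C := (Finset.mem_insert.1 hw).resolve_left hwv
    have hθ' : q.c.θ w = w0 := by rw [← thold w hwv]; exact hθ
    obtain ⟨p, h1, h2⟩ := hq.i4 w hwC hθ'
    exact ⟨p, TT.conn_mono (fun x hx => Finset.mem_coe.2 (Finset.mem_insert_of_mem hx)) h1, h2⟩
  · rintro w hw ⟨b, hb, hwb⟩
    have hwT : w ∈ Top nn W T (insert v q.A) := by
      have := JF_Top_fl (adj := nn) hinsT
      rw [← this]; exact hw
    obtain ⟨b', hb', hwb'⟩ := JF_adj_fl hwT hb hwb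
    rcases Finset.mem_insert.1 hb' with rfl | hb'
    · exact ⟨b', hwb', Or.inl (Finset.mem_insert_self _ _)⟩
    · obtain ⟨p, h1, h2⟩ := hq.q3 w (hTop hw) ⟨b', hb', hwb'⟩
      exact ⟨p, h1, h2.imp (fun h => Finset.mem_insert_of_mem h) id⟩

private theorem InvC_pres_false {W T : ℕ} {w0 : ℝ} {q : JS} (hq : InvC W T w0 q) {v : V}
    (hv : v ∈ candC W T q) : InvC W T w0 (updC W T q v false) := by
  classical
  obtain ⟨c1, c2, c3, hst⟩ := cand_in (w0 := w0) hv
  obtain ⟨⟨hvP, hvS⟩, hvC, hvO⟩ := mem_candC.1 hv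
  have thold : ∀ w, w ≠ v → Function.update q.c.θ v 0 w = q.c.θ w := fun w hw => Function.update_of_ne hw _ _
  rw [updC_false]
  refine ⟨hq.sub, hq.row, hq.conn, hq.fill, hq.revC, ?_, ?_, ?_, ?_, hq.K, ?_, ?_, hq.q3⟩
  · intro w hw
    rcases Finset.mem_insert.1 hw with rfl | _
    · right
      refine ⟨hvP, hvS, ?_⟩
      show Function.update q.c.θ w 0 w = 0
      rw [Function.update_self]
    · rename_i hwO
      have hwv : w ≠ v := fun e => hvO (e ▸ hwO)
      rcases hq.revO w hwO with h | ⟨h1, h2, h3⟩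
      · exact Or.inl h
      · right
        refine ⟨h1, h2, ?_⟩
        show Function.update q.c.θ v 0 w = 0
        rw [thold w hwv]; exact h3
  · intro w hw
    rcases Finset.mem_union.1 hw with hw | hw
    · exact hq.up w (Finset.mem_union_left _ hw)
    · rcases Finset.mem_insert.1 hw with rfl | hw
      · exact InvC_up hq hv
      · exact hq.up w (Finset.mem_union_right _ hw)
  · rw [Finset.disjoint_left]
    intro w hw hwO
    rcases Finset.mem_insert.1 hwO with rfl | hwO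
    · exact hvC hw
    · exact Finset.disjoint_left.1 hq.dis hw hwO
  · intro w hw
    show Function.update q.c.θ v 0 w = 0 ∨ Function.update q.c.θ v 0 w = w0
    by_cases hwv : w = v
    · left; rw [hwv, Function.update_self]
    · rw [thold w hwv]
      rcases Finset.mem_union.1 hw with hw | hw
      · exact hq.thr w (Finset.mem_union_left _ hw)
      · rcases Finset.mem_insert.1 hw with rfl | hw
        · exact absurd rfl hwv
        · exact hq.thr w (Finset.mem_union_right _ hw)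
  · intro w hw
    rcases Finset.mem_insert.1 hw with rfl | hw
    · exact hq.q3 w c3 hst
    · exact hq.i3 w hw
  · intro w hw hθ
    have hwv : w ≠ v := by rintro rfl; exact hvC hw
    have hθ' : q.c.θ w = w0 := by rw [← thold w hwv]; exact hθ
    exact hq.i4 w hw hθ'

private theorem InvC_alg {W T : ℕ} {w0 : ℝ} (h0 : 0 < w0) (D : Finset V) (hD : TT W T \ Sd W T ⊆ D) :
    IsAlg D JS.c (InvC W T w0) (nxtC W T) (updC W T) where
  mem := by
    intro q v th hq h
    obtain ⟨hv, _⟩ := nxtC_some h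
    obtain ⟨_, h2, h3⟩ := mem_candC.1 hv
    exact ⟨hD (cand_in (w0 := w0) hv).1, h2, h3⟩
  cell_upd := by
    intro q v th b hq h
    obtain ⟨hv, hth⟩ := nxtC_some h
    subst hth
    unfold updC
    cases b <;> simp
  pres := by
    intro q v th b hq h
    obtain ⟨hv, hth⟩ := nxtC_some h
    cases b
    · exact InvC_pres_false hq hv
    · exact InvC_pres_true h0 hq hv

/-- the invariant together with monotonicity from a fixed start -/
private theorem InvC_alg2 {W T : ℕ} {w0 : ℝ} (h0 : 0 < w0) (A0 : Finset V) :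
    IsAlg (TT W T) JS.c (fun q => InvC W T w0 q ∧ A0 ⊆ q.A) (nxtC W T) (updC W T) where
  mem := fun q v th hq h => (InvC_alg h0 (TT W T) Finset.sdiff_subset).mem q v th hq.1 h
  cell_upd := fun q v th b hq h => (InvC_alg h0 (TT W T) Finset.sdiff_subset).cell_upd q v th b hq.1 h
  pres := by
    classical
    intro q v th b hq h
    refine ⟨(InvC_alg h0 (TT W T) Finset.sdiff_subset).pres q v th b hq.1 h, ?_⟩
    obtain ⟨hv, hth⟩ := nxtC_some h
    cases b
    · rw [updC_false]; exact hq.2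
    · rw [updC_true]
      have hins : insert v q.A ⊆ TT W T \ Sd W T := JF_insert_in hq.1.sub (cand_in (w0 := w0) hv).1
      exact hq.2.trans ((Finset.subset_insert _ _).trans (JF_sub_fl (JF_sub_TT hins)))

private theorem okTT {W T : ℕ} {w0 : ℝ} {q : JS} (hq : GoodO W T w0 q) : Cell.Ok q.c (TT W T) :=
  ⟨hq.revC.trans (JF_sub_TT hq.sub), hq.revO.trans (JF_sub_TT hq.sub), hq.dis⟩

private theorem run_facts {W T : ℕ} {w0 : ℝ} (h0 : 0 < w0) {q : JS} (hq : GoodO W T w0 q) (X : V → ℝ) :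
    InvC W T w0 (runA (nxtC W T) (updC W T) (TT W T).card q X) ∧
    q.A ⊆ (runA (nxtC W T) (updC W T) (TT W T).card q X).A ∧
    (∀ v, v ∉ candC W T (runA (nxtC W T) (updC W T) (TT W T).card q X)) ∧
    (runA (nxtC W T) (updC W T) (TT W T).card q X).c.S ⊆ q.c.S := by
  have hA := InvC_alg2 (W := W) (T := T) h0 q.A
  have hP : InvC W T w0 q ∧ q.A ⊆ q.A := ⟨InvC_of_GoodO hq, Finset.Subset.refl _⟩
  have h1 := runA_pres hA (q := q) hP (TT W T).card X
  exact ⟨h1.1, h1.2, nxtC_none (runA_stop hA hP (okTT hq) _ le_rfl X),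
    (runA_subset hA hP (TT W T).card X).1⟩

/-- the set before the last filling -/
private theorem end_sub {W T : ℕ} {w0 : ℝ} {q : JS} (hq : InvC W T w0 q) :
    q.A ∪ (PC W T q.A \ Sd W T) ⊆ TT W T \ Sd W T := by
  intro v hv
  rcases Finset.mem_union.1 hv with h | h
  · exact hq.sub h
  · obtain ⟨h1, h2⟩ := Finset.mem_sdiff.1 h
    exact Finset.mem_sdiff.2 ⟨(JF_Top_sub (JF_mem_PC.1 h1).1).1, h2⟩

private theorem end_conn {W T : ℕ} {w0 : ℝ} {q : JS} (hq : InvC W T w0 q) :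
    IsConn nn ((q.A ∪ (PC W T q.A \ Sd W T) : Finset V) : Set V) := by
  obtain ⟨B, hB⟩ : ∃ B : Finset V, B = q.A ∪ (PC W T q.A \ Sd W T) := ⟨_, rfl⟩
  rw [← hB]
  have hAB : ∀ v ∈ q.A, v ∈ (B : Set V) := fun v hv => by
    rw [hB]; exact Finset.mem_coe.2 (Finset.mem_union_left _ hv)
  have hBin : B ⊆ TT W T \ Sd W T := by rw [hB]; exact end_sub hq
  -- a nearest neighbour inside TT \ Sd of a point of A is in B
  have hnb : ∀ a ∈ q.A, ∀ w ∈ TT W T \ Sd W T, nn w a → w ∈ (B : Set V) := by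
    intro a ha w hw hwa
    by_cases hwA : w ∈ q.A
    · exact hAB w hwA
    · rw [hB]
      refine Finset.mem_coe.2 (Finset.mem_union_right _ (Finset.mem_sdiff.2 ⟨?_, (Finset.mem_sdiff.1 hw).2⟩))
      exact JF_mem_PC.2 ⟨JF_mem_Top_of_fill hq.fill (Finset.mem_sdiff.1 hw).1 hwA, a, ha, TT.st_of_nn hwa⟩
  -- star adjacent to a point of A: joined in B
  have hst : ∀ a ∈ q.A, ∀ v ∈ (B : Set V), st v a → ConnIn nn (B : Set V) v a := by
    intro a ha v hv hva
    by_cases hnn : nn v a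
    · exact TT.conn_single hv (hAB a ha) hnn
    · obtain ⟨h1, h2, _, _⟩ := JF_diag hva hnn
      have hw := JF_corner_in (hBin hv) (hq.sub ha)
      have hwB := hnb a ha _ hw (TT.nn_comm.1 h2)
      exact TT.conn_trans (TT.conn_single hv hwB h1) (TT.conn_single hwB (hAB a ha) (TT.nn_comm.1 h2))
  have hAA : ∀ a ∈ q.A, ∀ b ∈ q.A, ConnIn nn (B : Set V) a b := by
    intro a ha b hb
    have h := hq.conn a ha b hb
    have := TT.conn_induction (Q := fun v => ConnIn nn (B : Set V) a v) h (TT.conn_refl (hAB a ha)) (by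
      intro u v hu hv huv hQ
      exact TT.conn_trans hQ (hst v hv u (hAB u hu) huv))
    exact this
  have hBA : ∀ v ∈ (B : Set V), ∃ a ∈ q.A, ConnIn nn (B : Set V) v a := by
    intro v hv
    have hv' := hv
    rw [hB] at hv'
    rcases Finset.mem_union.1 (Finset.mem_coe.1 hv') with h | h
    · exact ⟨v, h, TT.conn_refl hv⟩
    · obtain ⟨h1, h2⟩ := Finset.mem_sdiff.1 h
      obtain ⟨_, a, ha, hva⟩ := JF_mem_PC.1 h1
      exact ⟨a, ha, hst a ha v hv hva⟩
  intro u hu v hv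
  obtain ⟨a, ha, h1⟩ := hBA u hu
  obtain ⟨b, hb, h2⟩ := hBA v hv
  exact TT.conn_trans h1 (TT.conn_trans (hAA a ha b hb) (TT.conn_symm TT.nn_symm' h2))

theorem stageC_good {W T : ℕ} (hW : 3 ≤ W) (hT : 1 ≤ T) {w0 : ℝ} (h0 : 0 < w0) {q : JS} (hq : GoodO W T w0 q) (X : V → ℝ) :
    GoodC W T w0 (stgC W T q X) ∧ VisC W T (stgC W T q X) := by
  obtain ⟨hI, _, hcand, _⟩ := run_facts h0 hq X
  unfold stgC
  obtain ⟨r, hr⟩ : ∃ r : JS, r = runA (nxtC W T) (updC W T) (TT W T).card q X := ⟨_, rfl⟩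
  rw [← hr] at hI hcand ⊢
  obtain ⟨B, hB⟩ : ∃ B : Finset V, B = r.A ∪ (PC W T r.A \ Sd W T) := ⟨_, rfl⟩
  have hBin : B ⊆ TT W T \ Sd W T := by rw [hB]; exact end_sub hI
  have hBT := JF_sub_TT hBin
  have hAB : r.A ⊆ B := by rw [hB]; exact Finset.subset_union_left
  have hAfl : r.A ⊆ fl st W T B := hAB.trans (JF_sub_fl hBT)
  have hPO : ∀ v ∈ PC W T r.A, v ∉ Sd W T → v ∈ r.c.O ∧ r.c.θ v = 0 := by
    intro v hv hvS
    have hvA : v ∉ r.A := (JF_Top_sub (JF_mem_PC.1 hv).1).2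
    have h1 := hcand v
    rw [mem_candC] at h1
    have hvO : v ∈ r.c.O := by
      by_contra hvO
      exact h1 ⟨⟨hv, hvS⟩, fun hvC => hvA (hI.revC hvC), hvO⟩
    rcases hI.revO v hvO with h | h
    · exact absurd h hvA
    · exact ⟨hvO, h.2.2⟩
  have hend : endC W T r = ⟨r.c, fl st W T B, ∅⟩ := by unfold endC; rw [hB]
  rw [hend]
  have hne : B.Nonempty := (row0_nonempty hW).mono (hI.row.trans hAB)
  refine ⟨⟨⟨JF_fl_in JFadj_st hBin, hI.row.trans hAfl, ?_, hI.revC.trans hAfl, ?_, hI.up, hI.dis, hI.thr, rfl,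
    hI.i3, hI.i4⟩, JF_fl_fl hBT⟩, ?_⟩
  · exact JF_fl_conn JFadj_st JFadj_nn hBT hne (by rw [hB]; exact end_conn hI)
  · intro v hv
    rcases hI.revO v hv with h | ⟨h1, h2, _⟩
    · exact hAfl h
    · exact JF_sub_fl hBT (by rw [hB]; exact Finset.mem_union_right _ (Finset.mem_sdiff.2 ⟨h1, h2⟩))
  · intro v hv y hy hyA hyS hvy
    change v ∈ fl st W T B at hv
    change y ∉ fl st W T B at hyA
    change v ∈ r.c.O ∧ r.c.θ v = 0
    have hyB : y ∉ B := fun h => hyA (JF_sub_fl hBT h)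
    have hyT : y ∈ Top st W T B := by
      by_contra h
      exact hyA (JF_mem_fl.2 ⟨hy, h⟩)
    have hvB : v ∈ B := by
      by_contra hvB
      exact (JF_mem_fl.1 hv).2 (JF_Top_step hyT (JF_mem_fl.1 hv).1 hvB (TT.st_comm.1 (TT.st_of_nn hvy)))
    have hvA : v ∉ r.A := by
      intro hvA
      have hyA' : y ∉ r.A := fun h => hyB (hAB h)
      apply hyB
      rw [hB]
      refine Finset.mem_union_right _ (Finset.mem_sdiff.2 ⟨JF_mem_PC.2 ⟨?_, v, hvA, ?_⟩, hyS⟩)
      · exact JF_mem_Top_of_fill hI.fill hy hyA'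
      · exact TT.st_comm.1 (TT.st_of_nn hvy)
    rw [hB] at hvB
    rcases Finset.mem_union.1 hvB with h | h
    · exact absurd h hvA
    · obtain ⟨h1, h2⟩ := Finset.mem_sdiff.1 h
      exact hPO v h1 h2

theorem stageC_mono {W T : ℕ} (hW : 3 ≤ W) (hT : 1 ≤ T) {w0 : ℝ} (h0 : 0 < w0) {q : JS} (hq : GoodO W T w0 q) (X : V → ℝ) :
    q.A ⊆ (stgC W T q X).A ∧ (stgC W T q X).c.S ⊆ q.c.S := by
  obtain ⟨hI, hsub, _, hS⟩ := run_facts h0 hq X
  refine ⟨?_, hS⟩
  have h1 := JF_sub_fl (adj := st) (JF_sub_TT (end_sub hI))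
  exact hsub.trans ((Finset.subset_union_left).trans h1)

theorem stageC_exp {W T B : ℕ} (hW : 3 ≤ W) (hT : 1 ≤ T) {w0 : ℝ} (h0 : 0 < w0) {s : (V → ℝ) → JS}
    (hs : IsExp (DJ W T B) s JS.c) (hq : ∀ X, GoodO W T w0 (s X)) :
    IsExp (DJ W T B) (fun X => stgC W T (s X) X) JS.c := by
  have hD : TT W T \ Sd W T ⊆ DJ W T B := by
    intro v hv
    rw [JF_mem_in] at hv
    unfold DJ
    rw [TT.mem_Rc]
    refine ⟨hv.1, hv.2.1, ?_, hv.2.2.2⟩
    have : (0 : ℤ) ≤ (B : ℤ) := Int.natCast_nonneg B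
    linarith [hv.2.2.1]
  have h1 := IsExp.run hs (InvC_alg h0 _ hD) (fun X => InvC_of_GoodO (hq X)) (TT W T).card
  exact IsExp.map h1 (endC W T) JS.c (fun X => rfl)

end GF
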