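import Pool.Agent.Lib.MP_acf58e_gf.JJ
/-! the explored set G_j (blueprint 7.1 (I6)) -/
open MeasureTheory Set ProbabilityTheory
open scoped ENNReal
namespace GF

/-- explored set: filled set and the rows ≤ 0 -/
noncomputable def GJ (W B : ℕ) (q : JS) : Finset V := q.A ∪ Rc 1 (W - 1) (-B) 0

private theorem JG_memRc {a b c d : ℤ} {v : V} :
    v ∈ Rc a b c d ↔ a ≤ v.1 ∧ v.1 ≤ b ∧ c ≤ v.2 ∧ v.2 ≤ d := by
  unfold Rc
  rw [Finset.mem_Icc, Prod.le_def, Prod.le_def]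
  constructor
  · rintro ⟨⟨h1, h2⟩, h3, h4⟩
    exact ⟨h1, h3, h2, h4⟩
  · rintro ⟨h1, h2, h3, h4⟩
    exact ⟨⟨h1, h3⟩, h2, h4⟩

private theorem JG_memA {W T : ℕ} {A : Finset V} (h : A ⊆ TT W T \ Sd W T) {v : V} (hv : v ∈ A) :
    1 ≤ v.1 ∧ v.1 ≤ W - 1 ∧ 0 ≤ v.2 ∧ v.2 ≤ T := by
  have h1 := h hv
  rw [Finset.mem_sdiff] at h1
  have h2 := h1.1
  have h3 : ¬ (v.1 = 0 ∨ v.1 = W ∨ v.2 = T + 1) := by
    intro h4
    exact h1.2 (Finset.mem_filter.2 ⟨h2, h4⟩)
  unfold TT at h2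
  rw [JG_memRc] at h2
  omega

private theorem JG_ivt {A : Finset V} {g : V} (hg : g ∈ A) {x : V}
    (h : Relation.ReflTransGen (fun a b => nn a b ∧ b ∈ (A : Set V)) g x) (k : ℤ) (h0 : 0 ≤ k)
    (hk : k ≤ dI g x) : ∃ y ∈ A, dI g y = k := by
  induction h with
  | refl =>
    refine ⟨g, hg, ?_⟩
    have h1 : dI g g = 0 := by simp [dI]
    omega
  | @tail y z _ hyz ih =>
    by_cases h1 : k ≤ dI g y
    · exact ih h1
    · refine ⟨z, hyz.2, ?_⟩
      have h2 := hyz.1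
      unfold nn at h2
      unfold dI at h1 hk ⊢
      have h3 : |y.1 - z.1| ≤ 1 := by
        have := abs_nonneg (y.2 - z.2)
        omega
      have h4 : |y.2 - z.2| ≤ 1 := by
        have := abs_nonneg (y.1 - z.1)
        omega
      rw [abs_le] at h3 h4
      have h5 : |g.1 - z.1| ≤ |g.1 - y.1| + 1 := by
        have h6 := abs_sub_abs_le_abs_sub (g.1 - z.1) (g.1 - y.1)
        have h7 : |g.1 - z.1 - (g.1 - y.1)| ≤ 1 := by
          rw [abs_le]
          omega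
        omega
      have h6 : |g.2 - z.2| ≤ |g.2 - y.2| + 1 := by
        have h6 := abs_sub_abs_le_abs_sub (g.2 - z.2) (g.2 - y.2)
        have h7 : |g.2 - z.2 - (g.2 - y.2)| ≤ 1 := by
          rw [abs_le]
          omega
        omega
      omega

private theorem JG_y {W T B : ℕ} {q : JS} {y : V} (hy : y ∈ DJ W T B) (hy' : y ∉ GJ W B q) :
    y ∉ q.A ∧ y ∈ TT W T ∧ y ∉ Sd W T ∧ 1 ≤ y.2 := by
  unfold GJ at hy'
  rw [Finset.mem_union, not_or] at hy'
  obtain ⟨h1, h2⟩ := hy'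
  unfold DJ at hy
  rw [JG_memRc] at hy h2
  have h3 : 1 ≤ y.2 := by omega
  refine ⟨h1, ?_, ?_, h3⟩
  · unfold TT
    rw [JG_memRc]
    omega
  · intro h4
    have h5 := (Finset.mem_filter.1 h4).2
    omega

private theorem JG_v {W T B : ℕ} {w0 : ℝ} {q : JS} (h : GoodB W T w0 q) {v y : V}
    (hv : v ∈ GJ W B q) (hy : 1 ≤ y.2) (hn : nn v y) : v ∈ q.A := by
  unfold GJ at hv
  rw [Finset.mem_union] at hv
  rcases hv with hv | hv
  · exact hv
  · apply h.row
    unfold row0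
    rw [JG_memRc] at hv ⊢
    unfold nn at hn
    have h1 : |v.2 - y.2| ≤ 1 := by
      have := abs_nonneg (v.1 - y.1)
      omega
    rw [abs_le] at h1
    omega

theorem GJ_sub {W T B : ℕ} {w0 : ℝ} {q : JS} (h : GoodB W T w0 q) :
    GJ W B q ⊆ DJ W T B ∧ q.c.C ⊆ GJ W B q ∧ q.c.O ⊆ GJ W B q := by
  refine ⟨?_, fun v hv => Finset.mem_union_left _ (h.revC hv),
    fun v hv => Finset.mem_union_left _ (h.revO hv)⟩
  intro v hv
  unfold GJ at hv
  rw [Finset.mem_union] at hv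
  unfold DJ
  rw [JG_memRc]
  rcases hv with hv | hv
  · have h1 := JG_memA h.sub hv
    omega
  · rw [JG_memRc] at hv
    omega

theorem GJ_thick {W T B : ℕ} (hW : 3 ≤ W) (hB : W ≤ B) {w0 : ℝ} {q : JS} (h : GoodB W T w0 q) {g : V}
    (hg : g ∈ GJ W B q) (k : ℕ) (h1 : 1 ≤ k) (hk : 2 * k + 2 ≤ W) : ∃ g' ∈ GJ W B q, dI g g' = k := by
  have hkk : |(k : ℤ)| = k := abs_of_nonneg (by omega)
  by_cases hg2 : g.2 ≤ 0
  · have h2 : g ∈ Rc 1 (W - 1) (-B) 0 := by
      unfold GJ at hg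
      rw [Finset.mem_union] at hg
      rcases hg with hg | hg
      · have h3 := JG_memA h.sub hg
        rw [JG_memRc]
        omega
      · exact hg
    rw [JG_memRc] at h2
    by_cases h3 : g.1 + k ≤ W - 1
    · refine ⟨(g.1 + k, g.2), Finset.mem_union_right _ ?_, ?_⟩
      · rw [JG_memRc]
        exact ⟨by omega, h3, h2.2.2.1, h2.2.2.2⟩
      · unfold dI
        have h4 : |g.1 - (g.1 + k)| = (k : ℤ) := by
          rw [abs_sub_comm, add_sub_cancel_left, hkk]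
        rw [h4, sub_self, abs_zero]
        omega
    · refine ⟨(g.1 - k, g.2), Finset.mem_union_right _ ?_, ?_⟩
      · rw [JG_memRc]
        exact ⟨by omega, by omega, h2.2.2.1, h2.2.2.2⟩
      · unfold dI
        have h4 : |g.1 - (g.1 - k)| = (k : ℤ) := by
          rw [sub_sub_cancel, hkk]
        rw [h4, sub_self, abs_zero]
        omega
  · have hgA : g ∈ q.A := by
      unfold GJ at hg
      rw [Finset.mem_union] at hg
      rcases hg with hg | hg
      · exact hg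
      · rw [JG_memRc] at hg
        omega
    have h2 := JG_memA h.sub hgA
    obtain ⟨r, hr, hr'⟩ : ∃ r ∈ q.A, (k : ℤ) ≤ dI g r := by
      by_cases h3 : g.1 + k ≤ W - 1
      · refine ⟨(g.1 + k, 0), h.row ?_, ?_⟩
        · unfold row0
          rw [JG_memRc]
          exact ⟨by omega, h3, le_rfl, le_rfl⟩
        · unfold dI
          have h4 : |g.1 - (g.1 + k)| = (k : ℤ) := by
            rw [abs_sub_comm, add_sub_cancel_left, hkk]
          rw [h4]
          exact le_max_left _ _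
      · refine ⟨(g.1 - k, 0), h.row ?_, ?_⟩
        · unfold row0
          rw [JG_memRc]
          exact ⟨by omega, by omega, le_rfl, le_rfl⟩
        · unfold dI
          have h4 : |g.1 - (g.1 - k)| = (k : ℤ) := by
            rw [sub_sub_cancel, hkk]
          rw [h4]
          exact le_max_left _ _
    obtain ⟨y, hy, hy'⟩ := JG_ivt hgA (h.conn g hgA r hr).2 k (by omega) hr'
    exact ⟨y, Finset.mem_union_left _ hy, hy'⟩

theorem GJ_visO {W T B : ℕ} {w0 : ℝ} {q : JS} (h : GoodO W T w0 q) {v y : V} (hv : v ∈ GJ W B q)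
    (hy : y ∈ DJ W T B) (hy' : y ∉ GJ W B q) (hn : nn v y) : v ∈ q.c.C ∧ q.c.θ v = w0 := by
  obtain ⟨h1, h2, h3, h4⟩ := JG_y hy hy'
  exact h.vis v (JG_v h.toGoodB hv h4 hn) y h2 h1 h3 hn

theorem GJ_visC {W T B : ℕ} {w0 : ℝ} {q : JS} (h : GoodC W T w0 q) (h' : VisC W T q) {v y : V} (hv : v ∈ GJ W B q)
    (hy : y ∈ DJ W T B) (hy' : y ∉ GJ W B q) (hn : nn v y) : v ∈ q.c.O ∧ q.c.θ v = 0 := by
  obtain ⟨h1, h2, h3, h4⟩ := JG_y hy hy'
  exact h' v (JG_v h.toGoodB hv h4 hn) y h2 h1 h3 hn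

end GF
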