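import Pool.Agent.Lib.MP_acf58e_gf.JV4
/-! VISIBLE BOUND (blueprint 7.2) -/
open MeasureTheory Set ProbabilityTheory
open scoped ENNReal
namespace GF

/-- the visible bound for the level gap w0 -/
def VisProp (w0 : ℝ) : Prop := ∀ (A : ℕ) (Cf δ : ℝ), 0 < Cf → 0 < δ → ∃ r0 : ℕ, ∀ (r : ℕ), r0 ≤ r →
    ∀ (a b c d : ℤ) (z : V), Rc a b c d ⊆ Q z (A * r) → ∀ (q : Cell), q.Ok (Rc a b c d) →
    (∀ v ∈ q.C ∪ q.O, q.θ v = 0 ∨ q.θ v = w0) →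
    (∀ v ∈ q.O, ∃ p, st v p ∧ (p ∈ q.C ∨ p ∉ Rc a b c d)) →
    ∀ v ∈ q.C, q.θ v = w0 → Deep (Rc a b c d) v (δ * r) →
    (∃ p, ConnIn st (q.C : Set V) v p ∧ ∃ s ∉ Rc a b c d, st p s) →
    ∀ β : V → ℝ, (∀ x ∈ bd (Rc a b c d), β x ≤ Cf * Real.log r) →
    cm (Rc a b c d) β q v ≤ - w0

theorem vis_bound : ∃ w0 : ℝ, 0 < w0 ∧ w0 ≤ 1 ∧ VisProp w0 := by
  obtain ⟨C6, hC6, H⟩ := pinned_bound
  obtain ⟨c0, hc0, hc1, G⟩ := cell_gap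
  have hp : (0 : ℝ) < 1 + C6 := by linarith
  obtain ⟨w0, hw⟩ : ∃ w0 : ℝ, w0 = c0 / (1 + C6) / 2 := ⟨_, rfl⟩
  have hw0 : 0 < w0 := by rw [hw]; positivity
  have hle : c0 / (1 + C6) ≤ 1 := by
    rw [div_le_one hp]; linarith
  have hw1 : w0 ≤ 1 := by rw [hw]; linarith
  refine ⟨w0, hw0, hw1, ?_⟩
  intro A Cf δ hCf hδ
  obtain ⟨r0, H0⟩ := H w0 hw0 hw1 A Cf δ hCf hδ
  refine ⟨r0, ?_⟩
  intro r hr a b c d z hz q hq h1 h2 v hv hθ hdeep hconn β hβ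
  have h3 := H0 r hr a b c d z hz q hq h1 h2 v hv hθ hdeep hconn β hβ
  have hvO : v ∉ q.O := fun h => (Finset.disjoint_left.1 hq.2.2) hv h
  have hpos : gam (Rc a b c d) β (cell q.C q.O q.θ) ≠ 0 := (cell_pos hq.1 hq.2.1 hq.2.2 q.θ β).ne'
  have h4 := G (Rc a b c d) q.C q.O v (hq.1 hv) hv hvO q.θ β C6 hC6 hpos h3
  rw [hθ] at h4
  have h5 : cm (Rc a b c d) β q v = (gam (Rc a b c d) β (cell q.C q.O q.θ)).toReal⁻¹ *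
      ∫ X in cell q.C q.O q.θ, X v ∂gam (Rc a b c d) β := by
    unfold cm Cell.S
    rw [div_eq_inv_mul]
  rw [h5]
  refine h4.trans ?_
  have : c0 / (1 + C6) = 2 * w0 := by rw [hw]; ring
  linarith

end GF
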