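import Pool.Agent.Lib.MP_acf58e_gf.JU
import Pool.Agent.Lib.MP_acf58e_gf.JV
/-! conditional mean close to the explored set -/
open MeasureTheory Set ProbabilityTheory
open scoped ENNReal
namespace GF

private lemma mem_Q {z x : V} {r : ℤ} :
    x ∈ Q z r ↔ (z.1 - r ≤ x.1 ∧ x.1 ≤ z.1 + r) ∧ (z.2 - r ≤ x.2 ∧ x.2 ≤ z.2 + r) := by
  simp only [Q, Finset.mem_Icc, Prod.le_def]
  tauto

private lemma mem_Rc {x : V} {a b c d : ℤ} :
    x ∈ Rc a b c d ↔ (a ≤ x.1 ∧ x.1 ≤ b) ∧ (c ≤ x.2 ∧ x.2 ≤ d) := by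
  simp only [Rc, Finset.mem_Icc, Prod.le_def]
  tauto

private lemma card_Q_le (z : V) (n : ℕ) : ((Q z n).card : ℝ) ≤ (2 * n + 1) ^ 2 := by
  have h : (Q z n).card = (2 * n + 1) * (2 * n + 1) := by
    rw [Q, Finset.card_Icc_prod, Int.card_Icc, Int.card_Icc]
    congr 1 <;> omega
  rw [h]
  push_cast
  ring_nf
  rfl

private lemma deep_of_near {D : Finset V} {g x : V} {r ρ : ℕ} (hρ : 4 * ρ + 1 ≤ r)
    (hg : Deep D g (1 / 4 * r)) (hx : x ∈ Q g (ρ / 2 : ℕ)) : Deep D x (1 / 8 * r) := by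
  intro k hk y hy
  have h1 : ((k + ρ / 2 : ℕ) : ℝ) < 1 / 4 * r := by
    have h2 : ((ρ / 2 : ℕ) : ℝ) ≤ (ρ : ℝ) / 2 := Nat.cast_div_le
    have h3 : (4 : ℝ) * ρ + 1 ≤ r := by exact_mod_cast hρ
    push_cast
    linarith
  refine hg (k + ρ / 2) h1 ?_
  rw [mem_Q] at hx hy ⊢
  push_cast at *
  omega

private lemma deep_mem {D : Finset V} {x : V} {r : ℕ} (hr : 1 ≤ r) (hx : Deep D x (1 / 8 * r)) :
    x ∈ D := by
  refine hx 0 ?_ ?_
  · have : (1 : ℝ) ≤ r := by exact_mod_cast hr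
    push_cast
    linarith
  · rw [mem_Q]
    push_cast
    omega

private lemma dI_comm' (x y : V) : dI x y = dI y x := by
  unfold dI
  rw [abs_sub_comm, abs_sub_comm x.2]

private lemma mem_Q_of_dI {g x : V} {n : ℕ} (h : dI g x ≤ n) : x ∈ Q g n := by
  unfold dI at h
  have h1 := (le_max_left _ _).trans h
  have h2 := (le_max_right _ _).trans h
  rw [abs_le] at h1 h2
  rw [mem_Q]
  omega

/-- common part: the application of X4near -/
private lemma near_apply {C c0 : ℝ} (hC : 0 < C) (hc0 : 0 < c0)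
    (hX : ∀ (ρ m : ℕ), 1 ≤ m → 32 * m ≤ ρ → ∀ (D G F : Finset V) (y : V) (f : V → ℝ)
    (B M : ℝ), G ⊆ D → F ⊆ G → Q y ρ ⊆ D → y ∉ G → 0 ≤ B → 0 ≤ M →
    (∃ g ∈ G, dI y g ≤ m) → (∀ g ∈ G, ∀ k : ℕ, 1 ≤ k → k ≤ ρ → ∃ g' ∈ G, dI g g' = k) →
    (∀ x ∈ D \ G, f x = av f x) →
    (∀ v ∈ G, dI y v ≤ (ρ / 2 : ℕ) → (∃ x ∈ D \ G, nn v x) → v ∈ F ∨ f v ≤ B) → (∀ v ∈ F, f v ≤ M) →
    f y ≤ B + M * (∑ v ∈ F, hm (D \ G) y v) +
      C * ((m : ℝ) / ρ) ^ c0 / (ρ : ℝ) ^ 2 * ∑ x ∈ Q y (ρ / 2 : ℕ) \ G, max 0 (f x))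
    {w L : ℝ} (hw0 : 0 ≤ w) (hw1 : w ≤ 1) (hL : 0 < L) {t η : ℝ} (hη : 0 < η) (hη' : η ≤ 1 / 512)
    (hηt : C * (16 * η) ^ c0 * (64 * L + 4) ≤ t)
    {r : ℕ} (hr : 512 ≤ r) (hr' : 1 / η ≤ r) {D G : Finset V} {g : V} {f h : V → ℝ}
    (hGD : G ⊆ D) (hgG : g ∉ G) (hdeep : Deep D g (1 / 4 * r))
    (hnear : ∃ g' ∈ G, (dI g g' : ℝ) ≤ η * r)
    (hthick : ∀ g ∈ G, ∀ k : ℕ, 1 ≤ k → 2 * k + 2 ≤ r → ∃ g' ∈ G, dI g g' = k)
    (hharm : ∀ x ∈ D \ G, f x = av f x)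
    (hvis : ∀ v ∈ G, Deep D v (1 / 8 * r) → (∃ x ∈ D \ G, nn v x) → f v ≤ 0)
    (hfh : ∀ x, f x ≤ max 0 (h x) + w) 
    (hU : ∑ x ∈ D.filter (fun y => y ∈ D ∧ y ∉ G ∧ y ∈ Q g ((r - 1) / 4 / 2 : ℕ)), max 0 (h x)
      ≤ L * (r : ℝ) ^ 2) : f g ≤ t := by
  classical
  set ρ : ℕ := (r - 1) / 4 with hρ
  set m : ℕ := ⌈η * r⌉₊ with hm
  have hrR : (512 : ℝ) ≤ r := by exact_mod_cast hr
  have hρ1 : 4 * ρ + 1 ≤ r := by omega
  have hρ2 : r ≤ 8 * ρ := by omega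
  have hρR : (r : ℝ) ≤ 8 * ρ := by exact_mod_cast hρ2
  have hρpos : (0 : ℝ) < ρ := by linarith
  have hηr : 1 ≤ η * r := by
    rw [div_le_iff₀ hη] at hr'
    linarith
  have hm1 : 1 ≤ m := by
    rw [hm]
    exact Nat.one_le_ceil_iff.2 (by linarith)
  have hmle : (m : ℝ) ≤ 2 * (η * r) := by
    have := Nat.ceil_lt_add_one (by positivity : 0 ≤ η * (r : ℝ))
    rw [← hm] at this
    linarith
  have hm32 : 32 * m ≤ ρ := by
    have h1 : (32 : ℝ) * m ≤ ρ := by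
      have h2 : η * r ≤ 1 / 512 * r := mul_le_mul_of_nonneg_right hη' (by linarith)
      linarith
    exact_mod_cast h1
  have hQD : Q g ρ ⊆ D := by
    refine hdeep ρ ?_
    have : (4 : ℝ) * ρ + 1 ≤ r := by exact_mod_cast hρ1
    linarith
  have hkey := hX ρ m hm1 hm32 D G ∅ g f 0 0 hGD (Finset.empty_subset _) hQD hgG le_rfl le_rfl
    (by
      obtain ⟨g', hg', hd⟩ := hnear
      refine ⟨g', hg', ?_⟩
      have h1 : (dI g g' : ℝ) ≤ (m : ℝ) := hd.trans (Nat.le_ceil _)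
      exact_mod_cast h1)
    (fun g' hg' k hk1 hk2 => hthick g' hg' k hk1 (by omega)) hharm
    (fun v hv hdv hx => Or.inr (hvis v hv (deep_of_near hρ1 hdeep (mem_Q_of_dI hdv)) hx))
    (fun v hv => absurd hv (Finset.notMem_empty v))
  rw [zero_mul, add_zero, zero_add] at hkey
  -- the sum
  have hsum : ∑ x ∈ Q g (ρ / 2 : ℕ) \ G, max 0 (f x) ≤ L * (r : ℝ) ^ 2 + 4 * (ρ : ℝ) ^ 2 * w := by
    have h1 : ∀ x ∈ Q g (ρ / 2 : ℕ) \ G, max 0 (f x) ≤ max 0 (h x) + w := by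
      intro x _
      refine max_le ?_ (hfh x)
      have := le_max_left 0 (h x)
      linarith
    refine (Finset.sum_le_sum h1).trans ?_
    rw [Finset.sum_add_distrib]
    refine add_le_add ?_ ?_
    · refine (Finset.sum_le_sum_of_subset_of_nonneg ?_ ?_).trans hU
      · intro x hx
        obtain ⟨hx1, hx2⟩ := Finset.mem_sdiff.1 hx
        have hxD := deep_mem (by omega) (deep_of_near hρ1 hdeep hx1)
        exact Finset.mem_filter.2 ⟨hxD, hxD, hx2, hx1⟩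
      · intro x _ _
        exact le_max_left _ _
    · rw [Finset.sum_const, nsmul_eq_mul]
      refine mul_le_mul_of_nonneg_right ?_ hw0
      have h2 : ((Q g (ρ / 2 : ℕ) \ G).card : ℝ) ≤ ((Q g (ρ / 2 : ℕ)).card : ℝ) := by
        exact_mod_cast Finset.card_le_card Finset.sdiff_subset
      refine h2.trans ((card_Q_le g (ρ / 2)).trans ?_)
      have h3 : ((ρ / 2 : ℕ) : ℝ) ≤ (ρ : ℝ) / 2 := Nat.cast_div_le
      have h4 : (1 : ℝ) ≤ ρ := by linarith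
      have h5 : (2 * ((ρ / 2 : ℕ) : ℝ) + 1) ≤ 2 * ρ := by linarith
      calc (2 * ((ρ / 2 : ℕ) : ℝ) + 1) ^ 2 ≤ (2 * (ρ : ℝ)) ^ 2 :=
            pow_le_pow_left₀ (by positivity) h5 2
        _ = 4 * (ρ : ℝ) ^ 2 := by ring
  have hmρ : (m : ℝ) / ρ ≤ 16 * η := by
    rw [div_le_iff₀ hρpos]
    calc (m : ℝ) ≤ 2 * (η * r) := hmle
      _ ≤ 2 * (η * (8 * ρ)) := by gcongr
      _ = 16 * η * ρ := by ring
  have hpow : ((m : ℝ) / ρ) ^ c0 ≤ (16 * η) ^ c0 :=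
    Real.rpow_le_rpow (by positivity) hmρ hc0.le
  calc f g ≤ C * ((m : ℝ) / ρ) ^ c0 / (ρ : ℝ) ^ 2 * ∑ x ∈ Q g (ρ / 2 : ℕ) \ G, max 0 (f x) := hkey
    _ ≤ C * (16 * η) ^ c0 / (ρ : ℝ) ^ 2 * (L * (r : ℝ) ^ 2 + 4 * (ρ : ℝ) ^ 2 * w) := by
        gcongr
    _ ≤ C * (16 * η) ^ c0 / (ρ : ℝ) ^ 2 * ((64 * L + 4) * (ρ : ℝ) ^ 2) := by
        refine mul_le_mul_of_nonneg_left ?_ (by positivity)
        have h6 : (r : ℝ) ^ 2 ≤ (8 * ρ) ^ 2 := pow_le_pow_left₀ (by positivity) hρR 2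
        have h7 : L * (r : ℝ) ^ 2 ≤ L * (8 * ρ) ^ 2 := mul_le_mul_of_nonneg_left h6 hL.le
        have h8 : 4 * (ρ : ℝ) ^ 2 * w ≤ 4 * (ρ : ℝ) ^ 2 * 1 :=
          mul_le_mul_of_nonneg_left hw1 (by positivity)
        linarith
    _ = C * (16 * η) ^ c0 * (64 * L + 4) := by
        field_simp
    _ ≤ t := hηt

theorem JI {w0 : ℝ} (h0 : 0 < w0) (h1 : w0 ≤ 1) (hV : VisProp w0) (A : ℕ) (Cf L : ℝ) (hCf : 0 < Cf) (hL : 0 < L) :
    ∃ (η : ℝ) (r0 : ℕ), 0 < η ∧ η ≤ 1 / 64 ∧ ∀ (r W T B : ℕ), r0 ≤ r → r + 2 ≤ W → W ≤ A * r → W ≤ T → T ≤ A * r → W ≤ B →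
    B ≤ A * r → ∀ (X : V → ℝ), (∀ x ∈ bd (DJ W T B), |X x| ≤ Cf * Real.log r) → ∀ (j : ℕ), 1 ≤ j →
    UJ W T B r w0 j X ≤ L → ∀ g : V, g ∈ DJ W T B → g ∉ GJ W B (Jst W T w0 j X) → Deep (DJ W T B) g (1 / 4 * r) →
    (∃ g' ∈ GJ W B (Jst W T w0 j X), (dI g g' : ℝ) ≤ η * r) →
    (j % 2 = 1 → cm (DJ W T B) X (Jst W T w0 j X).c g ≤ - (7 / 8) * w0) ∧
    (j % 2 = 0 → - (1 / 8) * w0 ≤ cm (DJ W T B) X (Jst W T w0 j X).c g) := by
  classical
  obtain ⟨C, c0, hC, hc0, hX4⟩ := X4near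
  obtain ⟨rV, hrV⟩ := hV A Cf (1 / 8) hCf (by norm_num)
  -- choice of η
  set κ : ℝ := w0 / 8 / (C * (64 * L + 4)) with hκ
  have hκpos : 0 < κ := by positivity
  set η : ℝ := min (1 / 512) (κ ^ (1 / c0) / 16) with hη
  have hηpos : 0 < η := lt_min (by norm_num) (by positivity)
  have hη512 : η ≤ 1 / 512 := min_le_left _ _
  have hηt : C * (16 * η) ^ c0 * (64 * L + 4) ≤ w0 / 8 := by
    have e1 : 16 * η ≤ κ ^ (1 / c0) := by
      have := min_le_right (1 / 512 : ℝ) (κ ^ (1 / c0) / 16)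
      rw [← hη] at this
      linarith
    have e2 : (16 * η) ^ c0 ≤ κ := by
      calc (16 * η) ^ c0 ≤ (κ ^ (1 / c0)) ^ c0 := Real.rpow_le_rpow (by positivity) e1 hc0.le
        _ = κ := by
          rw [← Real.rpow_mul hκpos.le, one_div_mul_cancel hc0.ne', Real.rpow_one]
    have e3 : 0 < C * (64 * L + 4) := by positivity
    calc C * (16 * η) ^ c0 * (64 * L + 4) = (16 * η) ^ c0 * (C * (64 * L + 4)) := by ring
      _ ≤ κ * (C * (64 * L + 4)) := mul_le_mul_of_nonneg_right e2 e3.le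
      _ = w0 / 8 := by rw [hκ]; field_simp
  obtain ⟨N, hN⟩ := exists_nat_ge (1 / η)
  refine ⟨η, max rV (max 512 N), hηpos, hη512.trans (by norm_num), ?_⟩
  intro r W T B hr hrW hWA hWT hTA hWB hBA X hXb j hj hUL g hgD hgG hdeep hnear
  have hrV' : rV ≤ r := (le_max_left _ _).trans hr
  have hr512 : 512 ≤ r := ((le_max_left _ _).trans (le_max_right _ _)).trans hr
  have hrN : N ≤ r := ((le_max_right _ _).trans (le_max_right _ _)).trans hr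
  have hrη : 1 / η ≤ (r : ℝ) := hN.trans (by exact_mod_cast hrN)
  have hW3 : 3 ≤ W := by omega
  have hT1 : 1 ≤ T := by omega
  have hrpos : (0 : ℝ) < r := by
    have : (512 : ℝ) ≤ r := by exact_mod_cast hr512
    linarith
  obtain ⟨hgO, hgC, hvC⟩ := Jst_good hW3 hT1 h0 j X
  set q := Jst W T w0 j X with hq
  have hGB : GoodB W T w0 q := by
    rcases Nat.mod_two_eq_zero_or_one j with hj0 | hj1
    · exact (hgC hj0).toGoodB
    · exact (hgO hj1).toGoodB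
  obtain ⟨hG1, hG2, hG3⟩ := GJ_sub (B := B) hGB
  have hok : q.c.Ok (DJ W T B) := ⟨hG2.trans hG1, hG3.trans hG1, hGB.dis⟩
  have hthick : ∀ g ∈ GJ W B q, ∀ k : ℕ, 1 ≤ k → 2 * k + 2 ≤ r → ∃ g' ∈ GJ W B q, dI g g' = k :=
    fun g' hg' k hk1 hk2 => GJ_thick hW3 hWB hGB hg' k hk1 (by omega)
  have hcm : ∀ x ∈ DJ W T B \ GJ W B q, cm (DJ W T B) X q.c x = av (cm (DJ W T B) X q.c) x := by
    intro x hx
    obtain ⟨hx1, hx2⟩ := Finset.mem_sdiff.1 hx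
    exact cm_harm _ _ _ hok hx1 (fun h => hx2 (hG2 h)) (fun h => hx2 (hG3 h))
  -- the sum of the positive parts
  have hUsum : ∑ x ∈ (DJ W T B).filter (fun y => y ∈ DJ W T B ∧ y ∉ GJ W B q ∧
        y ∈ Q g ((r - 1) / 4 / 2 : ℕ)), max 0 (sgJ j * cm (DJ W T B) X q.c x)
        ≤ L * (r : ℝ) ^ 2 := by
    have e1 : UJ W T B r w0 j X ≤ L := hUL
    rw [UJ, div_le_iff₀ (by positivity)] at e1
    refine le_trans (Finset.sum_le_sum_of_subset_of_nonneg ?_ ?_) e1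
    · intro x hx
      obtain ⟨hx1, -, hx2, hx3⟩ := Finset.mem_filter.1 hx
      exact Finset.mem_filter.2 ⟨hx1, deep_of_near (by omega) hdeep hx3, hx2⟩
    · intro x _ _
      exact le_max_left _ _
  constructor
  · intro hj1
    have hgo := hgO hj1
    have hsg : sgJ j = 1 := if_pos hj1
    rw [hsg] at hUsum
    simp only [one_mul] at hUsum
    have hharm : ∀ x ∈ DJ W T B \ GJ W B q, (fun v => cm (DJ W T B) X q.c v + w0) x
        = av (fun v => cm (DJ W T B) X q.c v + w0) x := by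
      intro x hx
      have e1 := hcm x hx
      simp only [av] at e1 ⊢
      linarith
    have hRsub : Rc 1 ((W : ℤ) - 1) (-B) T ⊆ Q (0, 0) (A * r) := by
      intro x hx
      rw [mem_Rc] at hx
      rw [mem_Q]
      have e1 : (W : ℤ) ≤ A * r := by exact_mod_cast hWA
      have e2 : (T : ℤ) ≤ A * r := by exact_mod_cast hTA
      have e3 : (B : ℤ) ≤ A * r := by exact_mod_cast hBA
      simp only
      omega
    have hSd : ∀ s ∈ Sd W T, s ∉ Rc 1 ((W : ℤ) - 1) (-B) T := by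
      intro s hs hs'
      rw [mem_Rc] at hs'
      have e1 := (Finset.mem_filter.1 hs).2
      omega
    have hvis : ∀ v ∈ GJ W B q, Deep (DJ W T B) v (1 / 8 * r) →
        (∃ x ∈ DJ W T B \ GJ W B q, nn v x) → (fun v => cm (DJ W T B) X q.c v + w0) v ≤ 0 := by
      intro v hv hdv hx
      obtain ⟨x, hx1, hx2⟩ := hx
      obtain ⟨hx3, hx4⟩ := Finset.mem_sdiff.1 hx1
      obtain ⟨hvC, hvθ⟩ := GJ_visO hgo hv hx3 hx4 hx2
      have e1 := hrV r hrV' 1 ((W : ℤ) - 1) (-B) T (0, 0) hRsub q.c hok hGB.thr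
        (fun v hv => by
          obtain ⟨p, hp1, hp2⟩ := hGB.i3 v hv
          exact ⟨p, hp1, hp2.imp id (hSd p)⟩) v hvC hvθ hdv
        (by
          obtain ⟨p, hp1, s, hs1, hs2⟩ := hGB.i4 v hvC hvθ
          exact ⟨p, hp1, s, hSd s hs1, hs2⟩) X
        (fun x hx => (le_abs_self _).trans (hXb x hx))
      have e2 : cm (DJ W T B) X q.c v ≤ - w0 := e1
      show cm (DJ W T B) X q.c v + w0 ≤ 0
      linarith
    have hfh : ∀ x, (fun v => cm (DJ W T B) X q.c v + w0) x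
        ≤ max 0 ((fun v => cm (DJ W T B) X q.c v) x) + w0 := by
      intro x
      have := le_max_right 0 (cm (DJ W T B) X q.c x)
      show cm (DJ W T B) X q.c x + w0 ≤ max 0 (cm (DJ W T B) X q.c x) + w0
      linarith
    have hkey : cm (DJ W T B) X q.c g + w0 ≤ w0 / 8 :=
      near_apply hC hc0 hX4 (w := w0) (L := L) h0.le h1 hL (t := w0 / 8) hηpos hη512 hηt
        hr512 hrη (D := DJ W T B) (G := GJ W B q) (g := g)
        (f := fun v => cm (DJ W T B) X q.c v + w0) (h := fun v => cm (DJ W T B) X q.c v)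
        hG1 hgG hdeep hnear hthick hharm hvis hfh hUsum
    linarith
  · intro hj0
    have hgc := hgC hj0
    have hvc := hvC hj0 hj
    have hsg : sgJ j = -1 := if_neg (by omega)
    rw [hsg] at hUsum
    have hharm : ∀ x ∈ DJ W T B \ GJ W B q, (fun v => -1 * cm (DJ W T B) X q.c v) x
        = av (fun v => -1 * cm (DJ W T B) X q.c v) x := by
      intro x hx
      have e1 := hcm x hx
      simp only [av] at e1 ⊢
      linarith
    have hvis : ∀ v ∈ GJ W B q, Deep (DJ W T B) v (1 / 8 * r) →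
        (∃ x ∈ DJ W T B \ GJ W B q, nn v x) → (fun v => -1 * cm (DJ W T B) X q.c v) v ≤ 0 := by
      intro v hv _ hx
      obtain ⟨x, hx1, hx2⟩ := hx
      obtain ⟨hx3, hx4⟩ := Finset.mem_sdiff.1 hx1
      obtain ⟨hvO, hvθ⟩ := GJ_visC hgc hvc hv hx3 hx4 hx2
      have e1 := le_cm (DJ W T B) X q.c hok hvO
      rw [hvθ] at e1
      show -1 * cm (DJ W T B) X q.c v ≤ 0
      linarith
    have hfh : ∀ x, (fun v => -1 * cm (DJ W T B) X q.c v) x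
        ≤ max 0 ((fun v => -1 * cm (DJ W T B) X q.c v) x) + 0 := by
      intro x
      have := le_max_right 0 (-1 * cm (DJ W T B) X q.c x)
      show -1 * cm (DJ W T B) X q.c x ≤ max 0 (-1 * cm (DJ W T B) X q.c x) + 0
      linarith
    have hkey : -1 * cm (DJ W T B) X q.c g ≤ w0 / 8 :=
      near_apply hC hc0 hX4 (w := 0) (L := L) le_rfl zero_le_one hL (t := w0 / 8) hηpos hη512 hηt
        hr512 hrη (D := DJ W T B) (G := GJ W B q) (g := g)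
        (f := fun v => -1 * cm (DJ W T B) X q.c v) (h := fun v => -1 * cm (DJ W T B) X q.c v)
        hG1 hgG hdeep hnear hthick hharm hvis hfh hUsum
    linarith

end GF
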