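import Pool.Agent.Lib.MP_acf58e_gf.JO
import Pool.Agent.Lib.MP_acf58e_gf.JC
import Pool.Agent.Lib.MP_acf58e_gf.JBO
import Pool.Agent.Lib.MP_acf58e_gf.JBC
/-! all stages together -/
open MeasureTheory Set ProbabilityTheory
open scoped ENNReal
namespace GF

private theorem mem_Rc' {a b c d : ℤ} {v : V} :
    v ∈ Rc a b c d ↔ (a ≤ v.1 ∧ c ≤ v.2) ∧ v.1 ≤ b ∧ v.2 ≤ d := by
  unfold Rc
  rw [Finset.mem_Icc, Prod.le_def, Prod.le_def]

private theorem conn_cons {adj : V → V → Prop} {A : Set V} {x y z : V} (h : ConnIn adj A x y)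
    (hyz : adj y z) (hz : z ∈ A) : ConnIn adj A x z :=
  ⟨h.1, h.2.tail ⟨hyz, hz⟩⟩

private theorem conn_right {adj : V → V → Prop} (hadj : ∀ x y, nn x y → adj x y) {A : Set V}
    {s : V} {x y : ℤ} (h : ConnIn adj A s (x, y)) (k : ℕ)
    (hA : ∀ i : ℕ, i ≤ k → ((x + i, y) : V) ∈ A) : ConnIn adj A s (x + k, y) := by
  induction k with
  | zero => simpa using h
  | succ k ih =>
    refine conn_cons (ih fun i hi => hA i (by omega)) (hadj _ _ ?_) (hA (k + 1) le_rfl)
    unfold nn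
    push_cast
    have h1 : |x + (k : ℤ) - (x + (k + 1))| = 1 := by
      rw [show x + (k : ℤ) - (x + (k + 1)) = -1 by ring, abs_neg, abs_one]
    rw [h1, sub_self, abs_zero, add_zero]

private theorem conn_left {adj : V → V → Prop} (hadj : ∀ x y, nn x y → adj x y) {A : Set V}
    {s : V} {x y : ℤ} (h : ConnIn adj A s (x, y)) (k : ℕ)
    (hA : ∀ i : ℕ, i ≤ k → ((x - i, y) : V) ∈ A) : ConnIn adj A s (x - k, y) := by
  induction k with
  | zero => simpa using h
  | succ k ih =>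
    refine conn_cons (ih fun i hi => hA i (by omega)) (hadj _ _ ?_) (hA (k + 1) le_rfl)
    unfold nn
    push_cast
    have h1 : |x - (k : ℤ) - (x - (k + 1))| = 1 := by
      rw [show x - (k : ℤ) - (x - (k + 1)) = 1 by ring, abs_one]
    rw [h1, sub_self, abs_zero, add_zero]

private theorem conn_down {adj : V → V → Prop} (hadj : ∀ x y, nn x y → adj x y) {A : Set V}
    {s : V} {x y : ℤ} (h : ConnIn adj A s (x, y)) (k : ℕ)
    (hA : ∀ i : ℕ, i ≤ k → ((x, y - i) : V) ∈ A) : ConnIn adj A s (x, y - k) := by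
  induction k with
  | zero => simpa using h
  | succ k ih =>
    refine conn_cons (ih fun i hi => hA i (by omega)) (hadj _ _ ?_) (hA (k + 1) le_rfl)
    unfold nn
    push_cast
    have h1 : |y - (k : ℤ) - (y - (k + 1))| = 1 := by
      rw [show y - (k : ℤ) - (y - (k + 1)) = 1 by ring, abs_one]
    rw [h1, sub_self, abs_zero, zero_add]

private theorem nn_st {x y : V} (h : nn x y) : st x y := by
  unfold nn at h
  unfold st dI
  rcases abs_cases (x.1 - y.1) with h1 | h1 <;> rcases abs_cases (x.2 - y.2) with h2 | h2 <;>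
    omega

private theorem row0_conn (W : ℕ) : IsConn nn (row0 W : Set V) := by
  rintro ⟨x, y⟩ hx ⟨x', y'⟩ hx'
  rw [Finset.mem_coe] at hx hx'
  have h1 := mem_Rc'.1 hx
  have h2 := mem_Rc'.1 hx'
  simp only at h1 h2
  obtain rfl : y = 0 := by omega
  obtain rfl : y' = 0 := by omega
  have hs : ConnIn nn (row0 W : Set V) (x, 0) (x, 0) := ⟨hx, Relation.ReflTransGen.refl⟩
  rcases le_total x x' with h | h
  · have h3 := conn_right (fun _ _ h => h) hs (x' - x).toNat (by
      intro i hi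
      rw [Finset.mem_coe]
      apply mem_Rc'.2
      simp only
      omega)
    have h4 : x + ((x' - x).toNat : ℤ) = x' := by omega
    rwa [h4] at h3
  · have h3 := conn_left (fun _ _ h => h) hs (x - x').toNat (by
      intro i hi
      rw [Finset.mem_coe]
      apply mem_Rc'.2
      simp only
      omega)
    have h4 : x - ((x - x').toNat : ℤ) = x' := by omega
    rwa [h4] at h3

private theorem row0_fill {W T : ℕ} (hW : 3 ≤ W) : fl st W T (row0 W) = row0 W := by
  classical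
  have key : ∀ v ∈ TT W T, v ∉ row0 W → v ∈ Top st W T (row0 W) := by
    rintro ⟨x, y⟩ hv hvr
    have h1 := mem_Rc'.1 hv
    have h2 : ¬ ((1 ≤ x ∧ 0 ≤ y) ∧ x ≤ (W : ℤ) - 1 ∧ y ≤ 0) := fun h => hvr (mem_Rc'.2 h)
    simp only at h1
    unfold Top
    rw [Finset.mem_filter]
    refine ⟨hv, ?_⟩
    have hmem : ∀ a b : ℤ, 0 ≤ a → a ≤ W → 0 ≤ b → b ≤ T + 1 →
        ¬ ((1 ≤ a ∧ 0 ≤ b) ∧ a ≤ (W : ℤ) - 1 ∧ b ≤ 0) →
        ((a, b) : V) ∈ ((TT W T : Set V) \ (row0 W : Set V)) := by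
      intro a b h3 h4 h5 h6 h7
      refine ⟨Finset.mem_coe.2 (mem_Rc'.2 ⟨⟨h3, h5⟩, h4, h6⟩), fun h => h7 ?_⟩
      exact mem_Rc'.1 (Finset.mem_coe.1 h)
    have hs : ConnIn st ((TT W T : Set V) \ (row0 W : Set V)) (s0 T) ((0 : ℤ), (T : ℤ) + 1) :=
      ⟨hmem _ _ (by omega) (by omega) (by omega) (by omega) (by omega),
        Relation.ReflTransGen.refl⟩
    have h3 := conn_right (fun _ _ h => nn_st h) hs x.toNat (by
      intro i hi
      apply hmem <;> omega)
    have h4 : (0 : ℤ) + (x.toNat : ℤ) = x := by omega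
    rw [h4] at h3
    have h5 := conn_down (fun _ _ h => nn_st h) h3 ((T : ℤ) + 1 - y).toNat (by
      intro i hi
      apply hmem <;> omega)
    have h6 : (T : ℤ) + 1 - (((T : ℤ) + 1 - y).toNat : ℤ) = y := by omega
    rwa [h6] at h5
  ext v
  unfold fl
  rw [Finset.mem_sdiff]
  constructor
  · rintro ⟨h1, h2⟩
    by_contra h3
    exact h2 (key v h1 h3)
  · intro h
    have h1 := mem_Rc'.1 h
    refine ⟨mem_Rc'.2 ⟨⟨by omega, by omega⟩, by omega, by omega⟩, ?_⟩
    unfold Top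
    rw [Finset.mem_filter]
    rintro ⟨-, h2, h3⟩
    rcases Relation.ReflTransGen.cases_tail h3 with h4 | ⟨c, -, -, h4⟩
    · -- v = s0
      have h5 := h1.2.2
      rw [h4] at h5
      unfold s0 at h5
      simp only at h5
      omega
    · exact h4.2 (Finset.mem_coe.2 h)

private theorem jinit_good {W T : ℕ} (hW : 3 ≤ W) (w0 : ℝ) : GoodC W T w0 (jinit W) where
  sub := by
    intro v hv
    have h1 := mem_Rc'.1 hv
    rw [Finset.mem_sdiff]
    refine ⟨mem_Rc'.2 ⟨⟨by omega, by omega⟩, by omega, by omega⟩, ?_⟩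
    unfold Sd
    rw [Finset.mem_filter]
    rintro ⟨-, h | h | h⟩ <;> omega
  row := fun _ h => h
  conn := row0_conn W
  revC := Finset.empty_subset _
  revO := Finset.empty_subset _
  up := fun v hv => by simp [jinit] at hv
  dis := Finset.disjoint_empty_left _
  thr := fun v hv => by simp [jinit] at hv
  K := rfl
  i3 := fun v hv => by simp [jinit] at hv
  i4 := fun v hv => by simp [jinit] at hv
  fill := row0_fill hW

private theorem Jst_odd {W T : ℕ} {w0 : ℝ} {j : ℕ} (h : (j + 1) % 2 = 1) (X : V → ℝ) :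
    Jst W T w0 (j + 1) X = stgO W T w0 (Jst W T w0 j X) X := if_pos h

private theorem Jst_even {W T : ℕ} {w0 : ℝ} {j : ℕ} (h : ¬ (j + 1) % 2 = 1) (X : V → ℝ) :
    Jst W T w0 (j + 1) X = stgC W T (Jst W T w0 j X) X := if_neg h

theorem Jst_good {W T : ℕ} (hW : 3 ≤ W) (hT : 1 ≤ T) {w0 : ℝ} (h0 : 0 < w0) (j : ℕ) (X : V → ℝ) :
    (j % 2 = 1 → GoodO W T w0 (Jst W T w0 j X)) ∧ (j % 2 = 0 → GoodC W T w0 (Jst W T w0 j X)) ∧
      (j % 2 = 0 → 1 ≤ j → VisC W T (Jst W T w0 j X)) := by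
  induction j with
  | zero =>
    refine ⟨fun h => absurd h (by norm_num), fun _ => jinit_good hW w0, fun _ h => ?_⟩
    omega
  | succ j ih =>
    by_cases h : (j + 1) % 2 = 1
    · rw [Jst_odd h]
      refine ⟨fun _ => stageO_good hW hT h0 (ih.2.1 (by omega)) X, fun h' => ?_, fun h' => ?_⟩ <;>
        omega
    · rw [Jst_even h]
      have h1 := stageC_good hW hT h0 (ih.1 (by omega)) X
      exact ⟨fun h' => absurd h' h, fun _ => h1.1, fun _ _ => h1.2⟩

theorem Jst_exp {W T B : ℕ} (hW : 3 ≤ W) (hT : 1 ≤ T) {w0 : ℝ} (h0 : 0 < w0) (j : ℕ) :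
    IsExp (DJ W T B) (Jst W T w0 j) JS.c := by
  induction j with
  | zero => exact IsExp.const (DJ W T B) (jinit W) JS.c rfl rfl
  | succ j ih =>
    by_cases h : (j + 1) % 2 = 1
    · have h1 := stageO_exp hW hT h0 ih
        (fun X => (Jst_good hW hT h0 j X).2.1 (by omega))
      have h2 : Jst W T w0 (j + 1) = fun X => stgO W T w0 (Jst W T w0 j X) X :=
        funext fun X => Jst_odd h X
      rw [h2]
      exact h1
    · have h1 := stageC_exp hW hT h0 ih
        (fun X => (Jst_good hW hT h0 j X).1 (by omega))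
      have h2 : Jst W T w0 (j + 1) = fun X => stgC W T (Jst W T w0 j X) X :=
        funext fun X => Jst_even h X
      rw [h2]
      exact h1

theorem Jst_mono {W T : ℕ} (hW : 3 ≤ W) (hT : 1 ≤ T) {w0 : ℝ} (h0 : 0 < w0) (j : ℕ) (X : V → ℝ) :
    (Jst W T w0 j X).A ⊆ (Jst W T w0 (j + 1) X).A ∧ (Jst W T w0 (j + 1) X).c.S ⊆ (Jst W T w0 j X).c.S := by
  by_cases h : (j + 1) % 2 = 1
  · rw [Jst_odd h]
    exact stageO_mono hW hT h0 ((Jst_good hW hT h0 j X).2.1 (by omega)) X
  · rw [Jst_even h]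
    exact stageC_mono hW hT h0 ((Jst_good hW hT h0 j X).1 (by omega)) X

private theorem IsLR.weaken {adj : V → V → Prop} {a b c d : ℤ} {A : Set V} {h : ℤ} {n : ℕ}
    {p : ℕ → V} (hp : IsLR adj a b c d A h n p) : IsLR adj a b c d univ h n p :=
  ⟨hp.1, hp.2.1, fun i hi => ⟨mem_univ _, (hp.2.2.1 i hi).2⟩, hp.2.2.2⟩

theorem Jst_block {W T H : ℕ} (hW : 3 ≤ W) (hT : H + 1 ≤ T) {w0 : ℝ} (h0 : 0 < w0) (n : ℕ) (X : V → ℝ)
    (hA : Alt 0 n 0 w0 1 (W - 1) 1 H X) (j : ℕ) (hj : j ≤ n) : ∀ v ∈ (Jst W T w0 j X).A, v.2 ≤ H := by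
  obtain ⟨h, len, p, hst, hnn, hinc, hdis⟩ := hA
  have key : ∀ j ≤ n, (∀ v ∈ (Jst W T w0 j X).A, v.2 ≤ H) ∧
      (j < n → ∀ i ≤ len j, p j i ∉ (Jst W T w0 j X).A) := by
    intro j
    induction j with
    | zero =>
      intro _
      constructor
      · intro v hv
        have h1 := mem_Rc'.1 (show v ∈ Rc 1 (W - 1) 0 0 from hv)
        omega
      · intro hn i hi hv
        have h1 := mem_Rc'.1 (show p 0 i ∈ Rc 1 (W - 1) 0 0 from hv)
        have h2 := mem_Rc'.1 ((hst 0 hn (by norm_num)).2.2.1 i hi).2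
        omega
    | succ j ih =>
      intro hj
      obtain ⟨-, ih2⟩ := ih (by omega)
      have hjn : j < n := by omega
      have hd := ih2 hjn
      have hgood := Jst_good hW (by omega : 1 ≤ T) h0 j X
      by_cases hpar : (j + 1) % 2 = 1
      · rw [Jst_odd hpar]
        have hb := blockO hW hT h0 (hgood.2.1 (by omega)) X (hst j hjn (by omega)) hd
        refine ⟨hb.1, fun hj' i hi => ?_⟩
        exact hb.2 (h (j + 1)) (len (j + 1)) (p (j + 1)) (hinc j hj')
          (hnn (j + 1) hj' (by omega)).weaken (hdis j hj') i hi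
      · rw [Jst_even hpar]
        have hb := blockC hW hT h0 (hgood.1 (by omega)) X (hnn j hjn (by omega)) hd
        refine ⟨hb.1, fun hj' i hi => ?_⟩
        exact hb.2 (h (j + 1)) (len (j + 1)) (p (j + 1)) (hinc j hj')
          (hst (j + 1) hj' (by omega)).weaken (hdis j hj') i hi
  exact (key j hj).1

end GF
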