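import Pool.Agent.Lib.MP_acf58e_gf.P1c
import Pool.Agent.Lib.MP_acf58e_gf.G3

/-! MP_acf58e_pr, row P6b: variance bound for spread measures, supremum of the field. -/

open MeasureTheory Set
open scoped ENNReal

namespace GF

private lemma p6b_sum_inv_sqrt (n : ℕ) :
    ∑ j ∈ Finset.range (n + 1), 1 / Real.sqrt (1 + (j : ℝ)) ≤ 2 * Real.sqrt (n + 1) := by
  induction n with
  | zero => norm_num
  | succ n ih =>
    rw [Finset.sum_range_succ]
    have h1 : 0 < Real.sqrt (1 + ((n + 1 : ℕ) : ℝ)) := Real.sqrt_pos.2 (by positivity)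
    have h2 : Real.sqrt (1 + ((n + 1 : ℕ) : ℝ)) ^ 2 = 1 + ((n + 1 : ℕ) : ℝ) :=
      Real.sq_sqrt (by positivity)
    have h3 : Real.sqrt ((n : ℝ) + 1) ^ 2 = n + 1 := Real.sq_sqrt (by positivity)
    have h4 : (((n + 1 : ℕ) : ℝ) + 1) = 1 + ((n + 1 : ℕ) : ℝ) := by ring
    rw [h4]
    have h5 : 1 / Real.sqrt (1 + ((n + 1 : ℕ) : ℝ)) ≤
        2 * Real.sqrt (1 + ((n + 1 : ℕ) : ℝ)) - 2 * Real.sqrt ((n : ℝ) + 1) := by
      rw [div_le_iff₀ h1]
      push_cast at h2 ⊢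
      nlinarith [sq_nonneg (Real.sqrt (1 + ((n : ℝ) + 1)) - Real.sqrt ((n : ℝ) + 1))]
    linarith

private lemma p6b_sum_line (x : ℤ) (n : ℕ) (s : Finset ℤ) (hs : ∀ a ∈ s, |x - a| ≤ n) :
    ∑ a ∈ s, 1 / Real.sqrt (1 + ((|x - a| : ℤ) : ℝ)) ≤ 4 * Real.sqrt (n + 1) := by
  classical
  have hsub : s ⊆ (Finset.range (n + 1)).image (fun j : ℕ => x - (j : ℤ)) ∪
      (Finset.range (n + 1)).image (fun j : ℕ => x + (j : ℤ)) := by
    intro a ha
    have h1 := abs_le.1 (hs a ha)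
    rw [Finset.mem_union, Finset.mem_image, Finset.mem_image]
    rcases le_total a x with h | h
    · left
      exact ⟨(x - a).toNat, by rw [Finset.mem_range]; omega, by omega⟩
    · right
      exact ⟨(a - x).toNat, by rw [Finset.mem_range]; omega, by omega⟩
  have hnn : ∀ a : ℤ, 0 ≤ 1 / Real.sqrt (1 + ((|x - a| : ℤ) : ℝ)) := fun a => by positivity
  have hs1 : ∑ a ∈ (Finset.range (n + 1)).image (fun j : ℕ => x - (j : ℤ)),
      1 / Real.sqrt (1 + ((|x - a| : ℤ) : ℝ)) ≤ 2 * Real.sqrt (n + 1) := by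
    rw [Finset.sum_image (by intro i _ j _ h; simpa using h)]
    refine le_trans (le_of_eq ?_) (p6b_sum_inv_sqrt n)
    apply Finset.sum_congr rfl
    intro j _
    have : |x - (x - (j : ℤ))| = j := by
      rw [sub_sub_cancel]
      exact abs_of_nonneg (by positivity)
    rw [this]
    simp
  have hs2 : ∑ a ∈ (Finset.range (n + 1)).image (fun j : ℕ => x + (j : ℤ)),
      1 / Real.sqrt (1 + ((|x - a| : ℤ) : ℝ)) ≤ 2 * Real.sqrt (n + 1) := by
    rw [Finset.sum_image (by intro i _ j _ h; simpa using h)]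
    refine le_trans (le_of_eq ?_) (p6b_sum_inv_sqrt n)
    apply Finset.sum_congr rfl
    intro j _
    have : |x - (x + (j : ℤ))| = j := by
      rw [sub_add_cancel_left, abs_neg]
      exact abs_of_nonneg (by positivity)
    rw [this]
    simp
  calc ∑ a ∈ s, 1 / Real.sqrt (1 + ((|x - a| : ℤ) : ℝ))
      ≤ ∑ a ∈ (Finset.range (n + 1)).image (fun j : ℕ => x - (j : ℤ)) ∪
        (Finset.range (n + 1)).image (fun j : ℕ => x + (j : ℤ)),
        1 / Real.sqrt (1 + ((|x - a| : ℤ) : ℝ)) :=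
        Finset.sum_le_sum_of_subset_of_nonneg hsub (fun a _ _ => hnn a)
    _ ≤ _ := by
        have h := Finset.sum_union_inter
          (s₁ := (Finset.range (n + 1)).image (fun j : ℕ => x - (j : ℤ)))
          (s₂ := (Finset.range (n + 1)).image (fun j : ℕ => x + (j : ℤ)))
          (f := fun a => 1 / Real.sqrt (1 + ((|x - a| : ℤ) : ℝ)))
        have h0 := Finset.sum_nonneg
          (s := (Finset.range (n + 1)).image (fun j : ℕ => x - (j : ℤ)) ∩
            (Finset.range (n + 1)).image (fun j : ℕ => x + (j : ℤ)))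
          (f := fun a => 1 / Real.sqrt (1 + ((|x - a| : ℤ) : ℝ))) (fun a _ => hnn a)
        linarith

private lemma p6b_mem_Q {x y : V} {ρ : ℤ} :
    x ∈ Q y ρ ↔ (y.1 - ρ ≤ x.1 ∧ x.1 ≤ y.1 + ρ) ∧ (y.2 - ρ ≤ x.2 ∧ x.2 ≤ y.2 + ρ) := by
  rw [Q, Finset.mem_Icc, Prod.le_def, Prod.le_def]
  simp only
  tauto

private lemma p6b_Q_eq (y : V) (ρ : ℤ) :
    Q y ρ = Finset.Icc (y.1 - ρ) (y.1 + ρ) ×ˢ Finset.Icc (y.2 - ρ) (y.2 + ρ) := by
  ext x
  rw [p6b_mem_Q, Finset.mem_product, Finset.mem_Icc, Finset.mem_Icc]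

private lemma p6b_dI_nonneg (x w : V) : 0 ≤ dI x w := le_max_of_le_left (abs_nonneg _)

private lemma p6b_sum_box (x y : V) (ρ : ℤ) (hρ : 1 ≤ ρ) (hx : x ∈ Q y ρ) :
    ∑ w ∈ Q y ρ, 1 / (1 + (dI x w : ℝ)) ≤ 48 * ρ := by
  rw [p6b_mem_Q] at hx
  have hpt : ∀ w ∈ Q y ρ, 1 / (1 + (dI x w : ℝ)) ≤
      1 / Real.sqrt (1 + ((|x.1 - w.1| : ℤ) : ℝ)) * (1 / Real.sqrt (1 + ((|x.2 - w.2| : ℤ) : ℝ))) := by
    intro w _
    have h1 : (0 : ℝ) ≤ ((|x.1 - w.1| : ℤ) : ℝ) := by exact_mod_cast abs_nonneg _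
    have h2 : (0 : ℝ) ≤ ((|x.2 - w.2| : ℤ) : ℝ) := by exact_mod_cast abs_nonneg _
    have h3 : ((|x.1 - w.1| : ℤ) : ℝ) ≤ (dI x w : ℝ) := by exact_mod_cast le_max_left _ _
    have h4 : ((|x.2 - w.2| : ℤ) : ℝ) ≤ (dI x w : ℝ) := by exact_mod_cast le_max_right _ _
    rw [one_div_mul_one_div, ← Real.sqrt_mul (by linarith)]
    apply one_div_le_one_div_of_le (Real.sqrt_pos.2 (by positivity))
    apply Real.sqrt_le_iff.2
    refine ⟨by linarith, ?_⟩
    rw [sq]
    exact mul_le_mul (by linarith) (by linarith) (by linarith) (by linarith)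
  refine (Finset.sum_le_sum hpt).trans ?_
  rw [p6b_Q_eq, Finset.sum_product]
  simp only
  rw [← Finset.sum_mul_sum]
  obtain ⟨n, hn⟩ : ∃ n : ℕ, (n : ℤ) = 2 * ρ := ⟨(2 * ρ).toNat, by omega⟩
  have hA := p6b_sum_line x.1 n (Finset.Icc (y.1 - ρ) (y.1 + ρ)) (by
    intro a ha
    rw [Finset.mem_Icc] at ha
    rw [abs_le]
    omega)
  have hB := p6b_sum_line x.2 n (Finset.Icc (y.2 - ρ) (y.2 + ρ)) (by
    intro a ha
    rw [Finset.mem_Icc] at ha
    rw [abs_le]
    omega)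
  have hA0 : 0 ≤ ∑ a ∈ Finset.Icc (y.1 - ρ) (y.1 + ρ), 1 / Real.sqrt (1 + ((|x.1 - a| : ℤ) : ℝ)) :=
    Finset.sum_nonneg (fun a _ => by positivity)
  have hB0 : 0 ≤ ∑ a ∈ Finset.Icc (y.2 - ρ) (y.2 + ρ), 1 / Real.sqrt (1 + ((|x.2 - a| : ℤ) : ℝ)) :=
    Finset.sum_nonneg (fun a _ => by positivity)
  refine (mul_le_mul hA hB hB0 (by positivity)).trans ?_
  have h5 : 4 * Real.sqrt ((n : ℝ) + 1) * (4 * Real.sqrt ((n : ℝ) + 1)) = 16 * ((n : ℝ) + 1) := by
    have := Real.mul_self_sqrt (show (0 : ℝ) ≤ (n : ℝ) + 1 by positivity)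
    nlinarith
  rw [h5]
  have h6 : (n : ℝ) = 2 * ρ := by exact_mod_cast hn
  have h7 : (1 : ℝ) ≤ ρ := by exact_mod_cast hρ
  rw [h6]
  linarith

/-- P6 (ii) -/
theorem var_spread (A : ℝ) : ∃ C : ℝ, 0 < C ∧ ∀ (D : Finset V) (z y : V) (N ρ : ℤ) (μ : V → ℝ), 1 ≤ ρ → ρ ≤ N →
    D ⊆ Q z N → (∀ x, 0 ≤ μ x) → (∀ x, μ x ≤ A / ρ ^ 2) → (∀ x ∉ Q y ρ, μ x = 0) → ∑ x ∈ Q y ρ, μ x ≤ 1 →
    vr D (Q y ρ) μ ≤ C * (1 + Real.log (N / ρ)) := by
  obtain ⟨C₀, hC₀⟩ := green_upper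
  have hk : 0 ≤ kap⁻¹ := (inv_pos.2 kap_pos).le
  refine ⟨1 + kap⁻¹ + |C₀| + 48 * kap⁻¹ * |A|, by positivity, ?_⟩
  intro D z y N ρ μ hρ hρN hD hμ0 hμA _ hμ1
  have hρR : (1 : ℝ) ≤ ρ := by exact_mod_cast hρ
  have hρ0 : (0 : ℝ) < ρ := by linarith
  have hNR : (ρ : ℝ) ≤ N := by exact_mod_cast hρN
  have hN0 : (0 : ℝ) < N := by linarith
  have hlog : 0 ≤ Real.log (N / ρ) := Real.log_nonneg (by rw [le_div_iff₀ hρ0]; linarith)
  have hgr : ∀ x w : V, gr D x w ≤ kap⁻¹ * Real.log (N / ρ) + |C₀| + kap⁻¹ * (ρ * (1 / (1 + (dI x w : ℝ)))) := by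
    intro x w
    have hd : (0 : ℝ) ≤ (dI x w : ℝ) := by exact_mod_cast p6b_dI_nonneg x w
    have hpos : 0 ≤ kap⁻¹ * Real.log (N / ρ) + |C₀| + kap⁻¹ * (ρ * (1 / (1 + (dI x w : ℝ)))) := by
      positivity
    by_cases hx : x ∈ D
    · by_cases hw : w ∈ D
      · refine (hC₀ D z N (hρ.trans hρN) hD x hx w hw).trans ?_
        have h1 : Real.log (N / (1 + dI x w)) = Real.log (N / ρ) + Real.log (ρ / (1 + dI x w)) := by
          rw [← Real.log_mul (by positivity) (by positivity)]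
          congr 1
          field_simp
        have h2 : Real.log (ρ / (1 + dI x w)) ≤ ρ * (1 / (1 + (dI x w : ℝ))) := by
          have := Real.log_le_sub_one_of_pos (show (0 : ℝ) < ρ / (1 + dI x w) by positivity)
          rw [mul_one_div]
          linarith
        rw [h1]
        have h3 := mul_le_mul_of_nonneg_left h2 hk
        have h4 := le_abs_self C₀
        linarith
      · rw [gr_off_right hw]
        exact hpos
    · rw [gr_off_left hx]
      exact hpos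
  have hμA' : ∀ x, μ x ≤ |A| / ρ ^ 2 := fun x => (hμA x).trans (by gcongr; exact le_abs_self A)
  have hinner : ∀ x ∈ Q y ρ, ∑ w ∈ Q y ρ, μ x * gr D x w * μ w ≤
      μ x * (kap⁻¹ * Real.log (N / ρ) + |C₀| + 48 * kap⁻¹ * |A|) := by
    intro x hx
    have hc : 0 ≤ kap⁻¹ * Real.log (N / ρ) + |C₀| := by positivity
    calc ∑ w ∈ Q y ρ, μ x * gr D x w * μ w
        ≤ ∑ w ∈ Q y ρ, (μ x * (kap⁻¹ * Real.log (N / ρ) + |C₀|) * μ w +
            μ x * (kap⁻¹ * ρ * (|A| / ρ ^ 2)) * (1 / (1 + (dI x w : ℝ)))) := by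
          apply Finset.sum_le_sum
          intro w _
          have hd : (0 : ℝ) ≤ (dI x w : ℝ) := by exact_mod_cast p6b_dI_nonneg x w
          have h1 : μ x * gr D x w * μ w ≤ μ x * (kap⁻¹ * Real.log (N / ρ) + |C₀| +
              kap⁻¹ * (ρ * (1 / (1 + (dI x w : ℝ))))) * μ w := by
            apply mul_le_mul_of_nonneg_right _ (hμ0 w)
            exact mul_le_mul_of_nonneg_left (hgr x w) (hμ0 x)
          have h2 : μ x * (kap⁻¹ * (ρ * (1 / (1 + (dI x w : ℝ))))) * μ w ≤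
              μ x * (kap⁻¹ * (ρ * (1 / (1 + (dI x w : ℝ))))) * (|A| / ρ ^ 2) := by
            apply mul_le_mul_of_nonneg_left (hμA' w)
            have := hμ0 x
            positivity
          calc μ x * gr D x w * μ w ≤ _ := h1
            _ = μ x * (kap⁻¹ * Real.log (N / ρ) + |C₀|) * μ w +
                μ x * (kap⁻¹ * (ρ * (1 / (1 + (dI x w : ℝ))))) * μ w := by ring
            _ ≤ μ x * (kap⁻¹ * Real.log (N / ρ) + |C₀|) * μ w +
                μ x * (kap⁻¹ * (ρ * (1 / (1 + (dI x w : ℝ))))) * (|A| / ρ ^ 2) := by linarith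
            _ = _ := by ring
      _ = μ x * (kap⁻¹ * Real.log (N / ρ) + |C₀|) * ∑ w ∈ Q y ρ, μ w +
            μ x * (kap⁻¹ * ρ * (|A| / ρ ^ 2)) * ∑ w ∈ Q y ρ, 1 / (1 + (dI x w : ℝ)) := by
          rw [Finset.sum_add_distrib, ← Finset.mul_sum, ← Finset.mul_sum]
      _ ≤ μ x * (kap⁻¹ * Real.log (N / ρ) + |C₀|) * 1 +
            μ x * (kap⁻¹ * ρ * (|A| / ρ ^ 2)) * (48 * ρ) := by
          have hx0 := hμ0 x
          apply add_le_add
          · exact mul_le_mul_of_nonneg_left hμ1 (by positivity)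
          · exact mul_le_mul_of_nonneg_left (p6b_sum_box x y ρ hρ hx) (by positivity)
      _ = μ x * (kap⁻¹ * Real.log (N / ρ) + |C₀| + 48 * kap⁻¹ * |A|) := by
          field_simp
  calc vr D (Q y ρ) μ = ∑ x ∈ Q y ρ, ∑ w ∈ Q y ρ, μ x * gr D x w * μ w := rfl
    _ ≤ ∑ x ∈ Q y ρ, μ x * (kap⁻¹ * Real.log (N / ρ) + |C₀| + 48 * kap⁻¹ * |A|) :=
        Finset.sum_le_sum hinner
    _ = (∑ x ∈ Q y ρ, μ x) * (kap⁻¹ * Real.log (N / ρ) + |C₀| + 48 * kap⁻¹ * |A|) := by
        rw [Finset.sum_mul]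
    _ ≤ 1 * (kap⁻¹ * Real.log (N / ρ) + |C₀| + 48 * kap⁻¹ * |A|) := by
        apply mul_le_mul_of_nonneg_right hμ1
        positivity
    _ ≤ (1 + kap⁻¹ + |C₀| + 48 * kap⁻¹ * |A|) * (1 + Real.log (N / ρ)) := by
        have h1 : 0 ≤ (1 + |C₀| + 48 * kap⁻¹ * |A|) * Real.log (N / ρ) := by positivity
        nlinarith [h1, hk]

private lemma p6b_exp_sup_le (D : Finset V) (g : V → ℝ) :
    Real.exp (⨆ x : D, g x) ≤ 1 + ∑ x ∈ D, Real.exp (g x) := by
  rcases isEmpty_or_nonempty D with h | h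
  · rw [Real.iSup_of_isEmpty, Real.exp_zero]
    have : 0 ≤ ∑ x ∈ D, Real.exp (g x) := Finset.sum_nonneg (fun x _ => (Real.exp_pos _).le)
    linarith
  · obtain ⟨i, hi⟩ := exists_eq_ciSup_of_finite (f := fun x : D => g x)
    rw [← hi]
    have h1 : Real.exp (g i) ≤ ∑ x ∈ D, Real.exp (g x) :=
      Finset.single_le_sum (f := fun x => Real.exp (g x)) (fun x _ => (Real.exp_pos _).le) i.2
    linarith

private lemma p6b_lin_single (D : Finset V) (β : V → ℝ) (x : V) (X : V → ℝ) :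
    lin D β {x} (fun _ => 1) X = X x - hx D β x := by
  rw [lin, Finset.sum_singleton, one_mul]

private lemma p6b_vr_single (D : Finset V) (x : V) : vr D {x} (fun _ => 1) = gr D x x := by
  rw [vr, Finset.sum_singleton, Finset.sum_singleton, one_mul, mul_one]

private lemma p6b_meas (D : Finset V) (β : V → ℝ) :
    Measurable (fun X : V → ℝ => ⨆ x : D, |X x - hx D β x|) := by
  apply Measurable.iSup
  intro x
  have h1 : Measurable (fun X : V → ℝ => X x - hx D β x) :=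
    (measurable_pi_apply (x : V)).sub measurable_const
  exact measurable_abs.comp h1

private lemma p6b_card (z : V) (N : ℤ) (hN : 1 ≤ N) (D : Finset V) (hD : D ⊆ Q z N) :
    (D.card : ℝ) ≤ (2 * (N : ℝ) + 1) ^ 2 := by
  have h1 := Finset.card_le_card hD
  rw [p6b_Q_eq, Finset.card_product, Int.card_Icc, Int.card_Icc] at h1
  have h2 : (((z.1 + N + 1 - (z.1 - N)).toNat : ℤ)) = 2 * N + 1 := by omega
  have h3 : (((z.2 + N + 1 - (z.2 - N)).toNat : ℤ)) = 2 * N + 1 := by omega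
  have h4 : ((D.card : ℤ)) ≤ (2 * N + 1) * (2 * N + 1) := by
    calc ((D.card : ℤ)) ≤ (((z.1 + N + 1 - (z.1 - N)).toNat * (z.2 + N + 1 - (z.2 - N)).toNat : ℕ) : ℤ) := by
          exact_mod_cast h1
      _ = (2 * N + 1) * (2 * N + 1) := by rw [Nat.cast_mul, h2, h3]
  rw [sq]
  exact_mod_cast h4

/-- P6 (iii), exponential form: every moment of the supremum is at most logarithmic -/
theorem sup_exp : ∃ C : ℝ, 0 < C ∧ ∀ (D : Finset V) (β : V → ℝ) (z : V) (N : ℤ), 1 ≤ N → D ⊆ Q z N →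
    ∫⁻ X, ENNReal.ofReal (Real.exp (⨆ x : D, |X x - hx D β x|)) ∂gam D β
      ≤ ENNReal.ofReal (Real.exp (C * Real.log (N + 2))) := by
  obtain ⟨C₀, hC₀⟩ := green_upper
  have hk : 0 ≤ kap⁻¹ := (inv_pos.2 kap_pos).le
  refine ⟨6 + kap⁻¹ + |C₀|, by positivity, ?_⟩
  intro D β z N hN hD
  have hNR : (1 : ℝ) ≤ N := by exact_mod_cast hN
  set L := Real.log ((N : ℝ) + 2) with hL
  have hL1 : 1 ≤ L := by
    rw [hL, Real.le_log_iff_exp_le (by linarith)]
    have := Real.exp_one_lt_d9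
    linarith
  have hLN : Real.log N ≤ L := Real.log_le_log (by linarith) (by linarith)
  have hLN0 : 0 ≤ Real.log N := Real.log_nonneg hNR
  have hexpL : Real.exp L = (N : ℝ) + 2 := by rw [hL, Real.exp_log (by linarith)]
  -- the expectation of one term
  have hone : ∀ x ∈ D, ∫⁻ X, ENNReal.ofReal (Real.exp |X x - hx D β x|) ∂gam D β ≤
      ENNReal.ofReal (2 * Real.exp ((kap⁻¹ + |C₀|) * L)) := by
    intro x hx'
    obtain ⟨hint, hle⟩ := integral_exp_abs_lin_le D β {x} (fun _ => 1) 1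
    have hfun : (fun X : V → ℝ => Real.exp (1 * |lin D β {x} (fun _ => 1) X|)) =
        fun X => Real.exp |X x - hx D β x| := by
      funext X
      rw [p6b_lin_single, one_mul]
    rw [hfun] at hint hle
    rw [← ofReal_integral_eq_lintegral_ofReal hint
      (Filter.Eventually.of_forall fun X => (Real.exp_pos _).le)]
    apply ENNReal.ofReal_le_ofReal
    refine hle.trans ?_
    rw [p6b_vr_single]
    have h1 := hC₀ D z N hN hD x hx' x hx'
    have h2 : dI x x = 0 := by simp [dI]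
    rw [h2] at h1
    have h3 : (N : ℝ) / (1 + ((0 : ℤ) : ℝ)) = N := by simp
    rw [h3] at h1
    have h4 : gr D x x ≤ (kap⁻¹ + |C₀|) * L := by
      have h5 := mul_le_mul_of_nonneg_left hLN hk
      have h6 := le_abs_self C₀
      have h7 : |C₀| ≤ |C₀| * L := le_mul_of_one_le_right (abs_nonneg _) hL1
      nlinarith
    have h8 : 0 ≤ gr D x x := gr_nonneg D x x
    have h9 : (1 : ℝ) ^ 2 * gr D x x / 2 ≤ (kap⁻¹ + |C₀|) * L := by linarith
    have h10 := Real.exp_le_exp.2 h9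
    linarith
  have hmeas1 : ∀ x : V, Measurable (fun X : V → ℝ => ENNReal.ofReal (Real.exp |X x - hx D β x|)) := by
    intro x
    apply ENNReal.measurable_ofReal.comp
    apply Real.measurable_exp.comp
    exact measurable_abs.comp ((measurable_pi_apply x).sub measurable_const)
  calc ∫⁻ X, ENNReal.ofReal (Real.exp (⨆ x : D, |X x - hx D β x|)) ∂gam D β
      ≤ ∫⁻ X, (1 + ∑ x ∈ D, ENNReal.ofReal (Real.exp |X x - hx D β x|)) ∂gam D β := by
        apply lintegral_mono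
        intro X
        have h1 := p6b_exp_sup_le D (fun x => |X x - hx D β x|)
        refine (ENNReal.ofReal_le_ofReal h1).trans ?_
        rw [ENNReal.ofReal_add zero_le_one
          (Finset.sum_nonneg (fun x _ => (Real.exp_pos _).le)), ENNReal.ofReal_one,
          ENNReal.ofReal_sum_of_nonneg (fun x _ => (Real.exp_pos _).le)]
    _ = 1 + ∑ x ∈ D, ∫⁻ X, ENNReal.ofReal (Real.exp |X x - hx D β x|) ∂gam D β := by
        rw [lintegral_add_left measurable_const, lintegral_const, measure_univ, one_mul,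
          lintegral_finsetSum _ (fun x _ => hmeas1 x)]
    _ ≤ 1 + ∑ _x ∈ D, ENNReal.ofReal (2 * Real.exp ((kap⁻¹ + |C₀|) * L)) := by
        gcongr with x hx'
        exact hone x hx'
    _ = ENNReal.ofReal (1 + D.card * (2 * Real.exp ((kap⁻¹ + |C₀|) * L))) := by
        rw [Finset.sum_const, nsmul_eq_mul, ENNReal.ofReal_add zero_le_one (by positivity),
          ENNReal.ofReal_one, ENNReal.ofReal_mul (p := (D.card : ℝ)) (Nat.cast_nonneg _),
          ENNReal.ofReal_natCast]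
    _ ≤ ENNReal.ofReal (Real.exp ((6 + kap⁻¹ + |C₀|) * L)) := by
        apply ENNReal.ofReal_le_ofReal
        have hc := p6b_card z N hN D hD
        set E := Real.exp ((kap⁻¹ + |C₀|) * L) with hE
        have hE1 : 1 ≤ E := Real.one_le_exp (by positivity)
        have h1 : (2 * (N : ℝ) + 1) ^ 2 ≤ 4 * ((N : ℝ) + 2) ^ 2 := by nlinarith
        have h2 : 1 + (D.card : ℝ) * (2 * E) ≤ 16 * ((N : ℝ) + 2) ^ 2 * E := by
          have h3 : (D.card : ℝ) * (2 * E) ≤ 4 * ((N : ℝ) + 2) ^ 2 * (2 * E) := by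
            gcongr
            exact hc.trans h1
          have h4 : 1 ≤ ((N : ℝ) + 2) ^ 2 * E := by
            have : 1 ≤ ((N : ℝ) + 2) ^ 2 := by nlinarith
            nlinarith
          nlinarith
        have h5 : (16 : ℝ) ≤ ((N : ℝ) + 2) ^ 3 := by
          have : (3 : ℝ) ≤ (N : ℝ) + 2 := by linarith
          calc (16 : ℝ) ≤ 3 ^ 3 := by norm_num
            _ ≤ _ := by gcongr
        have h6 : Real.exp ((6 + kap⁻¹ + |C₀|) * L) = ((N : ℝ) + 2) ^ 6 * E := by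
          rw [hE, ← hexpL, ← Real.exp_nat_mul, ← Real.exp_add]
          congr 1
          push_cast
          ring
        rw [h6]
        refine h2.trans ?_
        have h7 : (1 : ℝ) ≤ (N : ℝ) + 2 := by linarith
        have h8 : 16 * ((N : ℝ) + 2) ^ 2 ≤ ((N : ℝ) + 2) ^ 6 := by
          calc 16 * ((N : ℝ) + 2) ^ 2 ≤ ((N : ℝ) + 2) ^ 3 * ((N : ℝ) + 2) ^ 2 := by gcongr
            _ = ((N : ℝ) + 2) ^ 5 := by ring
            _ ≤ ((N : ℝ) + 2) ^ 6 := pow_le_pow_right₀ h7 (by norm_num)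
        gcongr

theorem sup_mean : ∃ C : ℝ, 0 < C ∧ ∀ (D : Finset V) (β : V → ℝ) (z : V) (N : ℤ), 1 ≤ N → D ⊆ Q z N →
    Integrable (fun X : V → ℝ => ⨆ x : D, |X x - hx D β x|) (gam D β) ∧
    ∫ X : V → ℝ, (⨆ x : D, |X x - hx D β x|) ∂gam D β ≤ C * Real.log (N + 2) := by
  obtain ⟨C, hC, h⟩ := sup_exp
  refine ⟨C + 1, by linarith, ?_⟩
  intro D β z N hN hD
  have hNR : (1 : ℝ) ≤ N := by exact_mod_cast hN
  set L := Real.log ((N : ℝ) + 2) with hL
  have hL1 : 1 ≤ L := by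
    rw [hL, Real.le_log_iff_exp_le (by linarith)]
    have := Real.exp_one_lt_d9
    linarith
  set S : (V → ℝ) → ℝ := fun X => ⨆ x : D, |X x - hx D β x| with hS
  have hSm : Measurable S := p6b_meas D β
  have hS0 : ∀ X, 0 ≤ S X := fun X => Real.iSup_nonneg fun x => abs_nonneg _
  have h1 := h D β z N hN hD
  have hexpm : Measurable (fun X => Real.exp (S X)) := Real.measurable_exp.comp hSm
  have hexp : Integrable (fun X => Real.exp (S X)) (gam D β) := by
    rw [← lintegral_ofReal_ne_top_iff_integrable hexpm.aestronglyMeasurable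
      (Filter.Eventually.of_forall fun X => (Real.exp_pos _).le)]
    exact ne_top_of_le_ne_top ENNReal.ofReal_ne_top h1
  have hexpi : ∫ X, Real.exp (S X) ∂gam D β ≤ Real.exp (C * L) := by
    rw [← ENNReal.ofReal_le_ofReal_iff (Real.exp_pos _).le, ofReal_integral_eq_lintegral_ofReal hexp
      (Filter.Eventually.of_forall fun X => (Real.exp_pos _).le)]
    exact h1
  have hSi : Integrable S (gam D β) := by
    refine hexp.mono' hSm.aestronglyMeasurable (Filter.Eventually.of_forall fun X => ?_)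
    rw [Real.norm_of_nonneg (hS0 X)]
    have := Real.add_one_le_exp (S X)
    linarith
  refine ⟨hSi, ?_⟩
  have hpt : ∀ X, S X ≤ C * L + Real.exp (-(C * L)) * Real.exp (S X) := by
    intro X
    rw [← Real.exp_add]
    have := Real.add_one_le_exp (-(C * L) + S X)
    linarith
  calc ∫ X : V → ℝ, S X ∂gam D β
      ≤ ∫ X, (C * L + Real.exp (-(C * L)) * Real.exp (S X)) ∂gam D β := by
        apply integral_mono hSi _ hpt
        exact (integrable_const _).add (hexp.const_mul _)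
    _ = C * L + Real.exp (-(C * L)) * ∫ X, Real.exp (S X) ∂gam D β := by
        rw [integral_add (integrable_const _) (hexp.const_mul _), integral_const,
          integral_const_mul]
        simp
    _ ≤ C * L + Real.exp (-(C * L)) * Real.exp (C * L) := by
        gcongr
    _ = C * L + 1 := by rw [← Real.exp_add]; simp
    _ ≤ (C + 1) * L := by nlinarith

end GF
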