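import Pool.Agent.Lib.MP_acf58e_gf.X1
open MeasureTheory Set ProbabilityTheory
open scoped ENNReal
namespace GF

namespace X2

variable {D : Finset V} {σ : Type*} {s : (V → ℝ) → σ} {cell : σ → Cell}

private theorem fib_eq (hs : IsExp D s cell) (X : V → ℝ) : {Y | s Y = s X} = (cell (s X)).S := by
  ext Y
  constructor
  · intro h
    have h' : s Y = s X := h
    rw [← h']
    exact hs.2.2.1 Y
  · intro h
    exact hs.2.2.2 X Y h

private theorem meas_fib (hs : IsExp D s cell) (q : σ) : MeasurableSet {Y | s Y = q} := by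
  by_cases h : ∃ X, s X = q
  · obtain ⟨X, rfl⟩ := h
    rw [fib_eq hs]
    exact Cell.meas _
  · have : {Y | s Y = q} = ∅ := by
      ext Y
      constructor
      · intro hY
        exact absurd ⟨Y, hY⟩ h
      · intro hY
        exact absurd hY (Set.notMem_empty Y)
    rw [this]
    exact MeasurableSet.empty

private theorem univ_eq (hs : IsExp D s cell) :
    (⋃ q ∈ hs.1.toFinset, {Y | s Y = q}) = (univ : Set (V → ℝ)) := by
  ext Y
  simp

private theorem disj (hs : IsExp D s cell) :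
    Set.PairwiseDisjoint (↑hs.1.toFinset) (fun q => {Y : V → ℝ | s Y = q}) := by
  intro q _ q' _ hqq
  rw [Function.onFun, Set.disjoint_left]
  intro Y h1 h2
  exact hqq (h1.symm.trans h2)

private theorem lint_fib (hs : IsExp D s cell) (β : V → ℝ) (f : (V → ℝ) → ℝ≥0∞) :
    ∫⁻ X, f X ∂gam D β = ∑ q ∈ hs.1.toFinset, ∫⁻ X in {Y | s Y = q}, f X ∂gam D β := by
  rw [← lintegral_biUnion_finset (disj hs) (fun q _ => meas_fib hs q), univ_eq hs,
    Measure.restrict_univ]

private theorem int_fib (hs : IsExp D s cell) (β : V → ℝ) {f : (V → ℝ) → ℝ}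
    (hf : Integrable f (gam D β)) :
    ∫ X, f X ∂gam D β = ∑ q ∈ hs.1.toFinset, ∫ X in {Y | s Y = q}, f X ∂gam D β := by
  rw [← integral_biUnion_finset _ (fun q _ => meas_fib hs q) (disj hs)
    (fun q _ => hf.integrableOn), univ_eq hs, Measure.restrict_univ]

private theorem mass_pos (hs : IsExp D s cell) (β : V → ℝ) (X : V → ℝ) :
    (gam D β {Y | s Y = s X}).toReal ≠ 0 := by
  rw [fib_eq hs]
  exact (ENNReal.toReal_pos (Cell.pos D β _ (hs.2.1 X)) (measure_ne_top _ _)).ne'

/-- coordinates -/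
private theorem key_coord (hs : IsExp D s cell) (β : V → ℝ) (X : V → ℝ) (v : V) :
    (cm D β (cell (s X)) v - hx D β v) * (gam D β {Y | s Y = s X}).toReal
      = ∫ Y in {Y | s Y = s X}, (Y v - hx D β v) ∂gam D β := by
  have h0 := mass_pos hs β X
  rw [integral_sub (integrable_coord D β v).integrableOn (integrable_const _)]
  rw [setIntegral_const, smul_eq_mul]
  unfold cm
  rw [← fib_eq hs, sub_mul, div_mul_cancel₀ _ h0]
  simp only [Measure.real]
  ring

private theorem lin_eq (D : Finset V) (β ψ X : V → ℝ) :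
    lin D β D ψ X = ∑ v ∈ D, ψ v * (X v - hx D β v) := rfl

private theorem key (hs : IsExp D s cell) (β ψ : V → ℝ) (X : V → ℝ) :
    (cN D β ψ (cell (s X)) - ∑ v ∈ D, ψ v * hx D β v) * (gam D β {Y | s Y = s X}).toReal
      = ∫ Y in {Y | s Y = s X}, lin D β D ψ Y ∂gam D β := by
  have h1 : ∀ Y, lin D β D ψ Y = ∑ v ∈ D, ψ v * (Y v - hx D β v) := fun Y => rfl
  simp only [h1]
  have h2 : ∀ v ∈ D, Integrable (fun Y : V → ℝ => ψ v * (Y v - hx D β v))
      ((gam D β).restrict {Y | s Y = s X}) := fun v _ =>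
    ((integrable_coord D β v).sub (integrable_const (hx D β v))).integrableOn.const_mul _
  rw [integral_finsetSum _ h2]
  unfold cN
  rw [← Finset.sum_sub_distrib, Finset.sum_mul]
  refine Finset.sum_congr rfl fun v _ => ?_
  rw [integral_const_mul, ← key_coord hs]
  ring

/-- Jensen -/
private theorem jensen (hs : IsExp D s cell) (β ψ : V → ℝ) {φ : ℝ → ℝ} (h0 : ∀ y, 0 ≤ φ y)
    (hφ : ∀ a, ∃ k : ℝ, ∀ y, φ a + k * (y - a) ≤ φ y)
    (hi : Integrable (fun X => φ (lin D β D ψ X)) (gam D β)) :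
    ∫⁻ X, ENNReal.ofReal (φ (cN D β ψ (cell (s X)) - ∑ v ∈ D, ψ v * hx D β v)) ∂gam D β
      ≤ ENNReal.ofReal (∫ X, φ (lin D β D ψ X) ∂gam D β) := by
  rw [ofReal_integral_eq_lintegral_ofReal hi (Filter.Eventually.of_forall fun X => h0 _),
    lint_fib hs, lint_fib hs]
  refine Finset.sum_le_sum fun q hq => ?_
  obtain ⟨X, rfl⟩ := hs.1.mem_toFinset.1 hq
  rw [← ofReal_integral_eq_lintegral_ofReal hi.integrableOn
    (Filter.Eventually.of_forall fun X => h0 _)]
  have e1 : ∫⁻ Y in {Y | s Y = s X},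
      ENNReal.ofReal (φ (cN D β ψ (cell (s Y)) - ∑ v ∈ D, ψ v * hx D β v)) ∂gam D β
      = ∫⁻ _ in {Y | s Y = s X},
      ENNReal.ofReal (φ (cN D β ψ (cell (s X)) - ∑ v ∈ D, ψ v * hx D β v)) ∂gam D β := by
    refine setLIntegral_congr_fun (meas_fib hs _) fun Y hY => ?_
    have : s Y = s X := hY
    simp only [this]
  rw [e1, setLIntegral_const]
  set a : ℝ := cN D β ψ (cell (s X)) - ∑ v ∈ D, ψ v * hx D β v with ha
  have hk := key hs β ψ X
  rw [← ha] at hk
  rw [← ENNReal.ofReal_toReal (measure_ne_top (gam D β) {Y | s Y = s X}), ← ENNReal.ofReal_mul (h0 _)]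
  refine ENNReal.ofReal_le_ofReal ?_
  obtain ⟨k, hk2⟩ := hφ a
  have h3 : ∫ Y in {Y | s Y = s X}, (φ a + k * (lin D β D ψ Y - a)) ∂gam D β
      ≤ ∫ Y in {Y | s Y = s X}, φ (lin D β D ψ Y) ∂gam D β := by
    refine integral_mono ?_ hi.integrableOn fun Y => hk2 _
    exact (integrable_const _).add
      (((integrable_lin D β D ψ).integrableOn.sub (integrable_const _)).const_mul _)
  refine le_trans (le_of_eq ?_) h3
  have i1 : Integrable (fun Y => lin D β D ψ Y - a) ((gam D β).restrict {Y | s Y = s X}) :=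
    (integrable_lin D β D ψ).integrableOn.sub (integrable_const _)
  have i2 : Integrable (fun Y => k * (lin D β D ψ Y - a)) ((gam D β).restrict {Y | s Y = s X}) :=
    i1.const_mul _
  rw [integral_add (integrable_const _) i2,
    integral_const_mul, integral_sub (integrable_lin D β D ψ).integrableOn (integrable_const _),
    setIntegral_const, setIntegral_const, ← hk]
  simp only [smul_eq_mul, Measure.real]
  ring

/-- functions of the state -/
private theorem fun_state (hs : IsExp D s cell) {g : (V → ℝ) → ℝ}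
    (hg : ∀ X X', s X = s X' → g X = g X') :
    Measurable g ∧ ∃ B : ℝ, ∀ X, |g X| ≤ B := by
  classical
  set G : σ → ℝ := fun q => if h : ∃ X, s X = q then g h.choose else 0 with hG
  have hGs : ∀ X, G (s X) = g X := by
    intro X
    have h : ∃ Y, s Y = s X := ⟨X, rfl⟩
    rw [hG]
    simp only
    rw [dif_pos h]
    exact hg _ _ h.choose_spec
  constructor
  · have h1 : g = fun X => ∑ q ∈ hs.1.toFinset, Set.indicator {Y | s Y = q} (fun _ => G q) X := by
      funext X
      rw [Finset.sum_eq_single (s X)]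
      · simp [hGs]
      · intro q _ hq
        rw [Set.indicator_of_notMem]
        exact fun h => hq h.symm
      · intro h
        exact absurd (hs.1.mem_toFinset.2 ⟨X, rfl⟩) h
    rw [h1]
    exact Finset.measurable_sum _ fun q _ => measurable_const.indicator (meas_fib hs q)
  · refine ⟨∑ q ∈ hs.1.toFinset, |G q|, fun X => ?_⟩
    rw [← hGs]
    exact Finset.single_le_sum (f := fun q => |G q|) (fun q _ => abs_nonneg _)
      (hs.1.mem_toFinset.2 ⟨X, rfl⟩)

private theorem int_state (hs : IsExp D s cell) (β : V → ℝ) {g : (V → ℝ) → ℝ}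
    (hg : ∀ X X', s X = s X' → g X = g X') : Integrable g (gam D β) := by
  obtain ⟨h1, B, h2⟩ := fun_state hs hg
  exact Integrable.of_bound h1.aestronglyMeasurable B (Filter.Eventually.of_forall fun X => h2 X)

private theorem int_state_mul (hs : IsExp D s cell) (β : V → ℝ) {g f : (V → ℝ) → ℝ}
    (hg : ∀ X X', s X = s X' → g X = g X') (hf : Integrable f (gam D β)) :
    Integrable (fun X => g X * f X) (gam D β) := by
  obtain ⟨h1, B, h2⟩ := fun_state hs hg
  exact hf.bdd_mul h1.aestronglyMeasurable (Filter.Eventually.of_forall fun X => h2 X)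

private theorem proj (hs : IsExp D s cell) (β ψ : V → ℝ) {g : (V → ℝ) → ℝ}
    (hg : ∀ X X', s X = s X' → g X = g X') :
    ∫ X, g X * (cN D β ψ (cell (s X)) - ∑ v ∈ D, ψ v * hx D β v) ∂gam D β
      = ∫ X, g X * lin D β D ψ X ∂gam D β := by
  have hst : ∀ X X', s X = s X' → (cN D β ψ (cell (s X)) - ∑ v ∈ D, ψ v * hx D β v)
      = (cN D β ψ (cell (s X')) - ∑ v ∈ D, ψ v * hx D β v) := fun X X' h => by rw [h]
  rw [int_fib hs β (int_state_mul hs β hg (int_state hs β hst)),
    int_fib hs β (int_state_mul hs β hg (integrable_lin D β D ψ))]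
  refine Finset.sum_congr rfl fun q hq => ?_
  obtain ⟨X, rfl⟩ := hs.1.mem_toFinset.1 hq
  have e1 : ∫ Y in {Y | s Y = s X}, g Y * (cN D β ψ (cell (s Y)) - ∑ v ∈ D, ψ v * hx D β v) ∂gam D β
      = ∫ _ in {Y | s Y = s X}, g X * (cN D β ψ (cell (s X)) - ∑ v ∈ D, ψ v * hx D β v) ∂gam D β := by
    refine setIntegral_congr_fun (meas_fib hs _) fun Y hY => ?_
    have h : s Y = s X := hY
    simp only [h, hg Y X h]
  have e2 : ∫ Y in {Y | s Y = s X}, g Y * lin D β D ψ Y ∂gam D β
      = ∫ Y in {Y | s Y = s X}, g X * lin D β D ψ Y ∂gam D β := by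
    refine setIntegral_congr_fun (meas_fib hs _) fun Y hY => ?_
    have h : s Y = s X := hY
    simp only [hg Y X h]
  rw [e1, e2, integral_const_mul (g X) (fun Y => lin D β D ψ Y), ← key hs, setIntegral_const,
    smul_eq_mul]
  simp only [Measure.real]
  ring

end X2

open X2

theorem cN_abs {D : Finset V} {σ : Type*} {s : (V → ℝ) → σ} {cell : σ → Cell} (hs : IsExp D s cell)
    (β ψ : V → ℝ) :
    ∫⁻ X, ENNReal.ofReal |cN D β ψ (cell (s X)) - ∑ v ∈ D, ψ v * hx D β v| ∂(gam D β) ≤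
      ENNReal.ofReal (Real.sqrt (vr D D ψ)) := by
  refine (jensen hs β ψ (φ := fun y => |y|) (fun y => abs_nonneg _) ?_
    (integrable_lin D β D ψ).abs).trans (ENNReal.ofReal_le_ofReal (integral_abs_lin_le D β D ψ))
  intro a
  rcases le_total 0 a with ha | ha
  · refine ⟨1, fun y => ?_⟩
    show |a| + 1 * (y - a) ≤ |y|
    rw [abs_of_nonneg ha]
    have := le_abs_self y
    linarith
  · refine ⟨-1, fun y => ?_⟩
    show |a| + -1 * (y - a) ≤ |y|
    rw [abs_of_nonpos ha]
    have := neg_le_abs y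
    linarith

theorem cN_exp {D : Finset V} {σ : Type*} {s : (V → ℝ) → σ} {cell : σ → Cell} (hs : IsExp D s cell)
    (β ψ : V → ℝ) (lam : ℝ) :
    ∫⁻ X, ENNReal.ofReal (Real.exp (lam * (cN D β ψ (cell (s X)) - ∑ v ∈ D, ψ v * hx D β v))) ∂(gam D β) ≤
      ENNReal.ofReal (Real.exp (lam ^ 2 * vr D D ψ / 2)) := by
  have h := jensen hs β ψ (φ := fun y => Real.exp (lam * y)) (fun y => (Real.exp_pos _).le) ?_
    (integrable_exp_lin D β D ψ lam)
  · rw [integral_exp_lin] at h
    exact h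
  · intro a
    refine ⟨lam * Real.exp (lam * a), fun y => ?_⟩
    show Real.exp (lam * a) + lam * Real.exp (lam * a) * (y - a) ≤ Real.exp (lam * y)
    have h1 := Real.add_one_le_exp (lam * y - lam * a)
    have h2 : Real.exp (lam * y) = Real.exp (lam * a) * Real.exp (lam * y - lam * a) := by
      rw [← Real.exp_add]; congr 1; ring
    rw [h2]
    have h3 := mul_le_mul_of_nonneg_left h1 (Real.exp_pos (lam * a)).le
    linarith

/-- martingale: refining explorations -/
theorem cN_mart {D : Finset V} {σ : Type*} {n : ℕ} {s : ℕ → (V → ℝ) → σ} {cell : σ → Cell}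
    (hs : ∀ j ≤ n, IsExp D (s j) cell) (href : ∀ j < n, ∀ X, (cell (s (j + 1) X)).S ⊆ (cell (s j X)).S)
    (β ψ : V → ℝ) :
    ∑ j ∈ Finset.range n, ∫⁻ X, ENNReal.ofReal ((cN D β ψ (cell (s (j + 1) X)) - cN D β ψ (cell (s j X))) ^ 2)
      ∂(gam D β) ≤ ENNReal.ofReal (vr D D ψ) := by
  set m : ℝ := ∑ v ∈ D, ψ v * hx D β v with hm
  set f : ℕ → (V → ℝ) → ℝ := fun j X => cN D β ψ (cell (s j X)) - m with hf
  have hst : ∀ j, ∀ X X', s j X = s j X' → f j X = f j X' := fun j X X' h => by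
    rw [hf]; simp only [h]
  have hst2 : ∀ j < n, ∀ X X', s (j + 1) X = s (j + 1) X' → f j X = f j X' := by
    intro j hj X X' h
    refine hst j X X' ?_
    have h1 : X ∈ (cell (s (j + 1) X')).S := by
      rw [← h]
      exact (hs (j + 1) hj).2.2.1 X
    exact (hs j hj.le).2.2.2 X' X (href j hj X' h1)
  have hint : ∀ j ≤ n, Integrable (f j) (gam D β) := fun j hj => int_state (hs j hj) β (hst j)
  have hint2 : ∀ j ≤ n, Integrable (fun X => f j X * f j X) (gam D β) := fun j hj =>
    int_state_mul (hs j hj) β (hst j) (hint j hj)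
  have hL := integrable_lin D β D ψ
  have hsq : ∀ j ≤ n, ∫ X, f j X * f j X ∂gam D β = ∫ X, f j X * lin D β D ψ X ∂gam D β :=
    fun j hj => proj (hs j hj) β ψ (hst j)
  have hcr : ∀ j < n, ∫ X, f j X * f (j + 1) X ∂gam D β = ∫ X, f j X * f j X ∂gam D β := by
    intro j hj
    rw [hsq j hj.le]
    exact proj (hs (j + 1) hj) β ψ (hst2 j hj)
  have hcri : ∀ j < n, Integrable (fun X => f j X * f (j + 1) X) (gam D β) := fun j hj =>
    int_state_mul (hs (j + 1) hj) β (hst2 j hj) (hint (j + 1) hj)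
  have hstep : ∀ j < n, ∫ X, (f (j + 1) X - f j X) ^ 2 ∂gam D β
      = ∫ X, f (j + 1) X * f (j + 1) X ∂gam D β - ∫ X, f j X * f j X ∂gam D β := by
    intro j hj
    have e : (fun X => (f (j + 1) X - f j X) ^ 2) = fun X => f (j + 1) X * f (j + 1) X
        - 2 * (f j X * f (j + 1) X) + f j X * f j X := by
      funext X; ring
    have i1 : Integrable (fun X => f (j + 1) X * f (j + 1) X - 2 * (f j X * f (j + 1) X))
        (gam D β) := (hint2 (j + 1) hj).sub ((hcri j hj).const_mul 2)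
    rw [e, integral_add i1 (hint2 j hj.le),
      integral_sub (hint2 (j + 1) hj) ((hcri j hj).const_mul 2), integral_const_mul, hcr j hj]
    ring
  have hstepi : ∀ j < n, Integrable (fun X => (f (j + 1) X - f j X) ^ 2) (gam D β) := by
    intro j hj
    have e : (fun X => (f (j + 1) X - f j X) ^ 2) = fun X => f (j + 1) X * f (j + 1) X
        - 2 * (f j X * f (j + 1) X) + f j X * f j X := by
      funext X; ring
    rw [e]
    exact ((hint2 (j + 1) hj).sub ((hcri j hj).const_mul 2)).add (hint2 j hj.le)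
  have hterm : ∀ j ∈ Finset.range n, ∫⁻ X, ENNReal.ofReal ((cN D β ψ (cell (s (j + 1) X))
      - cN D β ψ (cell (s j X))) ^ 2) ∂(gam D β)
      = ENNReal.ofReal (∫ X, (f (j + 1) X - f j X) ^ 2 ∂gam D β) := by
    intro j hj
    rw [ofReal_integral_eq_lintegral_ofReal (hstepi j (Finset.mem_range.1 hj))
      (Filter.Eventually.of_forall fun X => sq_nonneg _)]
    refine lintegral_congr fun X => ?_
    rw [hf]
    simp only
    congr 2
    ring
  rw [Finset.sum_congr rfl hterm, ← ENNReal.ofReal_sum_of_nonneg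
    (fun j _ => integral_nonneg fun X => sq_nonneg _)]
  refine ENNReal.ofReal_le_ofReal ?_
  have htel : ∀ k ≤ n, ∑ j ∈ Finset.range k, ∫ X, (f (j + 1) X - f j X) ^ 2 ∂gam D β
      = ∫ X, f k X * f k X ∂gam D β - ∫ X, f 0 X * f 0 X ∂gam D β := by
    intro k
    induction k with
    | zero => intro _; simp
    | succ k ih =>
      intro hk
      rw [Finset.sum_range_succ, ih (by omega), hstep k (by omega)]
      ring
  rw [htel n le_rfl]
  have h0 : 0 ≤ ∫ X, f 0 X * f 0 X ∂gam D β := integral_nonneg fun X => mul_self_nonneg _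
  have hLf : Integrable (fun X => f n X * lin D β D ψ X) (gam D β) :=
    int_state_mul (hs n le_rfl) β (hst n) hL
  have h1 : 0 ≤ ∫ X, (lin D β D ψ X - f n X) ^ 2 ∂gam D β := integral_nonneg fun X => sq_nonneg _
  have e : (fun X => (lin D β D ψ X - f n X) ^ 2) = fun X => (lin D β D ψ X) ^ 2
      - 2 * (f n X * lin D β D ψ X) + f n X * f n X := by
    funext X; ring
  have i1 : Integrable (fun X => (lin D β D ψ X) ^ 2 - 2 * (f n X * lin D β D ψ X)) (gam D β) :=
    (integrable_lin_sq D β D ψ).sub (hLf.const_mul 2)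
  rw [e, integral_add i1 (hint2 n le_rfl),
    integral_sub (integrable_lin_sq D β D ψ) (hLf.const_mul 2), integral_const_mul,
    ← hsq n le_rfl, integral_lin_sq] at h1
  linarith

/-- conditional mean of a supremum -/
theorem cm_sup {D : Finset V} {σ : Type*} {s : (V → ℝ) → σ} {cell : σ → Cell} (hs : IsExp D s cell)
    (β : V → ℝ) :
    ∫⁻ X, (⨆ v ∈ D, ENNReal.ofReal |cm D β (cell (s X)) v - hx D β v|) ∂(gam D β) ≤
      ∫⁻ X, (⨆ v ∈ D, ENNReal.ofReal |X v - hx D β v|) ∂(gam D β) := by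
  rw [lint_fib hs, lint_fib hs]
  refine Finset.sum_le_sum fun q hq => ?_
  obtain ⟨X, rfl⟩ := hs.1.mem_toFinset.1 hq
  have e1 : ∫⁻ Y in {Y | s Y = s X}, (⨆ v ∈ D, ENNReal.ofReal |cm D β (cell (s Y)) v - hx D β v|) ∂gam D β
      = ∫⁻ _ in {Y | s Y = s X}, (⨆ v ∈ D, ENNReal.ofReal |cm D β (cell (s X)) v - hx D β v|) ∂gam D β := by
    refine setLIntegral_congr_fun (meas_fib hs _) fun Y hY => ?_
    have : s Y = s X := hY
    simp only [this]
  rw [e1, setLIntegral_const, ENNReal.iSup_mul]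
  refine iSup_le fun v => ?_
  rw [ENNReal.iSup_mul]
  refine iSup_le fun hv => ?_
  have hi : Integrable (fun Y : V → ℝ => Y v - hx D β v) (gam D β) :=
    (integrable_coord D β v).sub (integrable_const _)
  calc ENNReal.ofReal |cm D β (cell (s X)) v - hx D β v| * gam D β {Y | s Y = s X}
      = ENNReal.ofReal (|cm D β (cell (s X)) v - hx D β v| * (gam D β {Y | s Y = s X}).toReal) := by
        rw [ENNReal.ofReal_mul (abs_nonneg _), ENNReal.ofReal_toReal (measure_ne_top _ _)]
    _ = ENNReal.ofReal |∫ Y in {Y | s Y = s X}, (Y v - hx D β v) ∂gam D β| := by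
        rw [← key_coord hs, abs_mul, abs_of_nonneg (a := (gam D β {Y | s Y = s X}).toReal)
          ENNReal.toReal_nonneg]
    _ ≤ ENNReal.ofReal (∫ Y in {Y | s Y = s X}, |Y v - hx D β v| ∂gam D β) :=
        ENNReal.ofReal_le_ofReal (abs_integral_le_integral_abs)
    _ = ∫⁻ Y in {Y | s Y = s X}, ENNReal.ofReal |Y v - hx D β v| ∂gam D β :=
        ofReal_integral_eq_lintegral_ofReal hi.abs.integrableOn
          (Filter.Eventually.of_forall fun Y => abs_nonneg _)
    _ ≤ ∫⁻ Y in {Y | s Y = s X}, (⨆ v ∈ D, ENNReal.ofReal |Y v - hx D β v|) ∂gam D β :=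
        lintegral_mono fun Y => le_iSup₂ (f := fun v (_ : v ∈ D) => ENNReal.ofReal |Y v - hx D β v|) v hv

end GF
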