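import Pool.Agent.Lib.MP_acf58e_gf.JI
import Pool.Agent.Lib.MP_acf58e_gf.X2
import Pool.Agent.Lib.MP_acf58e_gf.P6b
/-! tightness in normalised coordinates, bounded mean -/
open MeasureTheory Set ProbabilityTheory
open scoped ENNReal
namespace GF

/-! ### measurability -/

private theorem jk_fib {D : Finset V} {σ : Type*} {s : (V → ℝ) → σ} {cell : σ → Cell} (hs : IsExp D s cell)
    (q : σ) : MeasurableSet {X | s X = q} := by
  by_cases hq : q ∈ range s
  · obtain ⟨X0, rfl⟩ := hq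
    have e : {X | s X = s X0} = (cell (s X0)).S := by
      ext X
      constructor
      · intro h
        have h' : s X = s X0 := h
        rw [← h']
        exact hs.2.2.1 X
      · intro h
        exact hs.2.2.2 X0 X h
    rw [e]
    exact Cell.meas _
  · have e : {X | s X = q} = ∅ := by
      ext X
      simp only [Set.mem_ofPred_eq, mem_empty_iff_false, iff_false]
      intro h
      exact hq ⟨X, h⟩
    rw [e]
    exact MeasurableSet.empty

private theorem jk_meas2 {D : Finset V} {σ : Type*} {s : (V → ℝ) → σ} {cell : σ → Cell} (hs : IsExp D s cell)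
    {g : σ → (V → ℝ) → ℝ} (hg : ∀ q, Measurable (g q)) :
    Measurable (fun p : (V → ℝ) × (V → ℝ) => g (s p.2) p.1) := by
  classical
  have e : (fun p : (V → ℝ) × (V → ℝ) => g (s p.2) p.1) = fun p : (V → ℝ) × (V → ℝ) =>
      ∑ q ∈ hs.1.toFinset, (Prod.snd ⁻¹' {X | s X = q}).indicator (fun p : (V → ℝ) × (V → ℝ) => g q p.1) p := by
    funext p
    rw [Finset.sum_eq_single_of_mem (s p.2) (hs.1.mem_toFinset.2 ⟨p.2, rfl⟩)]
    · rw [Set.indicator_of_mem]
      exact rfl
    · intro q _ hq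
      rw [Set.indicator_of_notMem]
      intro h
      exact hq (Eq.symm h)
  rw [e]
  refine Finset.measurable_sum _ fun q _ => ?_
  exact ((hg q).comp measurable_fst).indicator (measurable_snd (jk_fib hs q))

private theorem jk_meas {D : Finset V} {σ : Type*} {s : (V → ℝ) → σ} {cell : σ → Cell} (hs : IsExp D s cell)
    {g : σ → (V → ℝ) → ℝ} (hg : ∀ q, Measurable (g q)) : Measurable (fun X => g (s X) X) :=
  (jk_meas2 hs hg).comp (measurable_id.prodMk measurable_id)

/-! ### counting -/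

private theorem jk_count (f : ℕ → ℕ) (m : ℕ) (h : ∀ j < m, f j ≤ f (j + 1)) :
    ((Finset.range m).filter (fun j => f j ≠ f (j + 1))).card + f 0 ≤ f m := by
  induction m with
  | zero => simp
  | succ m ih =>
    have h1 := ih (fun j hj => h j (by omega))
    have h2 := h m (by omega)
    rw [Finset.range_add_one, Finset.filter_insert]
    split_ifs with h3
    · rw [Finset.card_insert_of_notMem (by simp)]
      omega
    · omega

/-! ### boxes -/

private noncomputable def bx (W s k : ℕ) : Finset V :=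
  Rc ((W / 2 : ℕ) : ℤ) ((W / 2 : ℕ) + s - 1) (1 + k * s) (k * s + s)

private theorem jk_mem_bx {W s k : ℕ} {g : V} : g ∈ bx W s k ↔
    ((W / 2 : ℕ) : ℤ) ≤ g.1 ∧ g.1 ≤ (W / 2 : ℕ) + s - 1 ∧ 1 + (k : ℤ) * s ≤ g.2 ∧ g.2 ≤ k * s + s := by
  unfold bx Rc
  rw [Finset.mem_Icc, Prod.le_def, Prod.le_def]
  constructor
  · rintro ⟨⟨h1, h2⟩, h3, h4⟩
    exact ⟨h1, h3, h2, h4⟩
  · rintro ⟨h1, h2, h3, h4⟩
    exact ⟨⟨h1, h3⟩, h2, h4⟩

private theorem jk_card_bx (W s k : ℕ) : (bx W s k).card = s * s := by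
  unfold bx Rc
  rw [show Finset.Icc ((((W / 2 : ℕ) : ℤ), 1 + (k : ℤ) * s) : V) (((W / 2 : ℕ) : ℤ) + s - 1, (k : ℤ) * s + s)
    = (Finset.Icc (((W / 2 : ℕ) : ℤ)) (((W / 2 : ℕ) : ℤ) + s - 1)) ×ˢ
      (Finset.Icc (1 + (k : ℤ) * s) ((k : ℤ) * s + s)) from (Finset.Icc_product_Icc _ _ _ _).symm]
  rw [Finset.card_product, Int.card_Icc, Int.card_Icc]
  congr 1
  · omega
  · have h : (k : ℤ) * s + s + 1 - (1 + k * s) = s := by ring
    rw [h]
    exact Int.toNat_natCast s

/-- uniform probability on the box -/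
private noncomputable def ps (W s k : ℕ) (x : V) : ℝ := by
  classical
  exact if x ∈ bx W s k then 1 / (s : ℝ) ^ 2 else 0

private theorem jk_ps_nonneg (W s k : ℕ) (x : V) : 0 ≤ ps W s k x := by
  unfold ps
  split_ifs
  · positivity
  · exact le_rfl

private theorem jk_ps_sum {W s k : ℕ} (hs : 1 ≤ s) {S : Finset V} (h : bx W s k ⊆ S) :
    ∑ x ∈ S, ps W s k x = 1 := by
  classical
  have h1 : ∑ x ∈ S, ps W s k x = ∑ x ∈ bx W s k, 1 / (s : ℝ) ^ 2 := by
    rw [← Finset.sum_subset h]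
    · refine Finset.sum_congr rfl fun x hx => ?_
      unfold ps
      rw [if_pos hx]
    · intro x _ hx
      unfold ps
      rw [if_neg hx]
  rw [h1, Finset.sum_const, jk_card_bx, nsmul_eq_mul]
  have hs0 : (s : ℝ) ≠ 0 := by
    have : s ≠ 0 := by omega
    exact_mod_cast this
  push_cast
  field_simp

private theorem jk_vr {D S : Finset V} {ψ : V → ℝ} (h : ∀ x ∉ S, ψ x = 0) : vr D D ψ = vr D S ψ := by
  classical
  have h1 : vr D D ψ = vr D (D ∪ S) ψ := by
    unfold vr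
    rw [← Finset.sum_subset (Finset.subset_union_left (s₁ := D) (s₂ := S))]
    · refine Finset.sum_congr rfl fun x _ => ?_
      rw [← Finset.sum_subset (Finset.subset_union_left (s₁ := D) (s₂ := S))]
      intro y _ hy
      rw [gr_off_right hy]
      ring
    · intro x _ hx
      refine Finset.sum_eq_zero fun y _ => ?_
      rw [gr_off_left hx]
      ring
  have h2 : vr D S ψ = vr D (D ∪ S) ψ := by
    unfold vr
    rw [← Finset.sum_subset (Finset.subset_union_right (s₁ := D) (s₂ := S))]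
    · refine Finset.sum_congr rfl fun x _ => ?_
      rw [← Finset.sum_subset (Finset.subset_union_right (s₁ := D) (s₂ := S))]
      intro y _ hy
      rw [h y hy]
      ring
    · intro x _ hx
      refine Finset.sum_eq_zero fun y _ => ?_
      rw [h x hx]
      ring
  rw [h1, h2]


private theorem jk_mem_DJ {W T B : ℕ} {g : V} : g ∈ DJ W T B ↔
    1 ≤ g.1 ∧ g.1 ≤ (W : ℤ) - 1 ∧ -(B : ℤ) ≤ g.2 ∧ g.2 ≤ T := by
  unfold DJ Rc
  rw [Finset.mem_Icc, Prod.le_def, Prod.le_def]
  constructor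
  · rintro ⟨⟨h1, h2⟩, h3, h4⟩
    exact ⟨h1, h3, h2, h4⟩
  · rintro ⟨h1, h2, h3, h4⟩
    exact ⟨⟨h1, h3⟩, h2, h4⟩

private theorem jk_deep {r W H s k : ℕ} (hW : r + 2 ≤ W) (hs : 4 * s ≤ r) (hk : k * s ≤ H + s) {g : V}
    (hg : g ∈ bx W s k) : Deep (DJ W (H + W) W) g (1 / 4 * r) := by
  intro q hq x hx
  rw [jk_mem_bx] at hg
  obtain ⟨g1, g2, g3, g4⟩ := hg
  have hq' : 4 * q + 1 ≤ r := by
    have h1 : (4 * q : ℝ) < r := by linarith
    have h2 : 4 * q < r := by exact_mod_cast h1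
    omega
  unfold Q at hx
  rw [Finset.mem_Icc, Prod.le_def, Prod.le_def] at hx
  obtain ⟨⟨h1, h2⟩, h3, h4⟩ := hx
  simp only at h1 h2 h3 h4
  rw [jk_mem_DJ]
  have hk' : (k : ℤ) * s ≤ H + s := by exact_mod_cast hk
  have hk0 : (0 : ℤ) ≤ (k : ℤ) * s := by positivity
  push_cast
  generalize (k : ℤ) * s = ks at *
  refine ⟨?_, ?_, ?_, ?_⟩ <;> omega

private theorem jk_bx_sub {r W H s k : ℕ} (hr : 1 ≤ r) (hW : r + 2 ≤ W) (hs : 4 * s ≤ r) (hk : k * s ≤ H + s) :
    bx W s k ⊆ DJ W (H + W) W := by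
  intro g hg
  have h1 := jk_deep hW hs hk hg 0 (by
    have : (1 : ℝ) ≤ r := by exact_mod_cast hr
    push_cast
    linarith)
  refine h1 ?_
  unfold Q
  rw [Finset.mem_Icc, Prod.le_def, Prod.le_def]
  simp

private theorem jk_UJ_nonneg (W T B r : ℕ) (w0 : ℝ) (j : ℕ) (X : V → ℝ) : 0 ≤ UJ W T B r w0 j X := by
  unfold UJ
  refine div_nonneg (Finset.sum_nonneg fun y _ => le_max_left _ _) (by positivity)

/-- the deterministic part -/
private theorem jk_det {w0 : ℝ} (h0 : 0 < w0) {r W H s m : ℕ} (hr : 1 ≤ r) (hW : r + 2 ≤ W) (hs : 1 ≤ s)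
    (hs4 : 4 * s ≤ r) (X : V → ℝ) (hA : Alt 0 (m + 1) 0 w0 1 (W - 1) 1 H X) {L η : ℝ} (hL : 0 < L)
    (hη : 2 * (s : ℝ) ≤ η * r)
    (hJI : ∀ j, 1 ≤ j → UJ W (H + W) W r w0 j X ≤ L → ∀ g : V, g ∈ DJ W (H + W) W →
      g ∉ GJ W W (Jst W (H + W) w0 j X) → Deep (DJ W (H + W) W) g (1 / 4 * r) →
      (∃ g' ∈ GJ W W (Jst W (H + W) w0 j X), (dI g g' : ℝ) ≤ η * r) →
      (j % 2 = 1 → cm (DJ W (H + W) W) X (Jst W (H + W) w0 j X).c g ≤ - (7 / 8) * w0) ∧
      (j % 2 = 0 → - (1 / 8) * w0 ≤ cm (DJ W (H + W) W) X (Jst W (H + W) w0 j X).c g)) :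
    (m : ℝ) ≤ ((H / s + 1 : ℕ) : ℝ) + 2 * ((∑ j ∈ Finset.range (m + 1), UJ W (H + W) W r w0 (j + 1) X) / L) +
      (∑ j ∈ Finset.range (m + 1), ∑ k ∈ Finset.range (H / s + 2),
        (cN (DJ W (H + W) W) X (ps W s k) (Jst W (H + W) w0 (j + 1) X).c -
          cN (DJ W (H + W) W) X (ps W s k) (Jst W (H + W) w0 j X).c) ^ 2) / (3 / 4 * w0) ^ 2 := by
  classical
  have hW3 : 3 ≤ W := by omega
  have hT1 : 1 ≤ H + W := by omega
  have hTH : H + 1 ≤ H + W := by omega
  set D := DJ W (H + W) W with hD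
  set J : ℕ → JS := fun j => Jst W (H + W) w0 j X with hJ
  set G : ℕ → Finset V := fun j => GJ W W (J j) with hG
  have hGmono : ∀ j, G j ⊆ G (j + 1) := by
    intro j
    have h1 := (Jst_mono hW3 hT1 h0 j X).1
    exact Finset.union_subset_union h1 (Finset.Subset.refl _)
  have hGH : ∀ j, j ≤ m + 1 → ∀ v ∈ G j, v.2 ≤ H := by
    intro j hj v hv
    rcases Finset.mem_union.1 hv with h | h
    · exact Jst_block hW3 hTH h0 (m + 1) X hA j hj v h
    · unfold Rc at h
      rw [Finset.mem_Icc, Prod.le_def, Prod.le_def] at h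
      have h1 := h.2.2
      simp only at h1
      have h2 : (0 : ℤ) ≤ H := Int.natCast_nonneg H
      linarith
  set P : ℕ → Set ℕ := fun j => {k | ∀ k', k ≤ k' → Disjoint (bx W s k') (G j)} with hP
  set Km := H / s + 1 with hKm
  have hHs : H < (H / s + 1) * s := by
    have := Nat.lt_div_mul_add (a := H) (b := s) (by omega)
    calc H < H / s * s + s := this
      _ = (H / s + 1) * s := by ring
  have hKmP : ∀ j, j ≤ m + 1 → Km ∈ P j := by
    intro j hj k' hk'
    rw [Finset.disjoint_left]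
    intro g hg hg'
    have h1 := (jk_mem_bx.1 hg).2.2.1
    have h2 := hGH j hj g hg'
    have h3 : (H / s + 1) * s ≤ k' * s := Nat.mul_le_mul_right _ hk'
    have h4 : (H : ℤ) < (k' : ℤ) * s := by
      have : H < k' * s := lt_of_lt_of_le hHs h3
      exact_mod_cast this
    linarith
  set kk : ℕ → ℕ := fun j => sInf (P j) with hkk
  have hkkP : ∀ j, j ≤ m + 1 → kk j ∈ P j := fun j hj => Nat.sInf_mem ⟨Km, hKmP j hj⟩
  have hkkle : ∀ j, j ≤ m + 1 → kk j ≤ Km := fun j hj => Nat.sInf_le (hKmP j hj)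
  have hkkmono : ∀ j, j < m + 1 → kk j ≤ kk (j + 1) := by
    intro j hj
    refine Nat.sInf_le ?_
    intro k' hk'
    exact (hkkP (j + 1) (by omega) k' hk').mono_right (hGmono j)
  have hKs : ∀ k, k ≤ Km → k * s ≤ H + s := by
    intro k hk
    have h1 : k * s ≤ (H / s + 1) * s := Nat.mul_le_mul_right _ hk
    have h2 : H / s * s ≤ H := Nat.div_mul_le_self H s
    have h3 : (H / s + 1) * s = H / s * s + s := by ring
    omega
  have hsub : ∀ k, k ≤ Km → bx W s k ⊆ D := fun k hk => jk_bx_sub hr hW hs4 (hKs k hk)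
  -- points of the box kk j are unexplored and close to the explored set
  have hnear : ∀ j, j ≤ m + 1 → ∀ g ∈ bx W s (kk j), g ∉ G j ∧ ∃ g' ∈ G j, (dI g g' : ℝ) ≤ η * r := by
    intro j hj g hg
    refine ⟨?_, ?_⟩
    · exact Finset.disjoint_left.1 (hkkP j hj (kk j) le_rfl) hg
    · have hgD := jk_mem_DJ.1 (hsub (kk j) (hkkle j hj) hg)
      obtain ⟨g1, g2, g3, g4⟩ := jk_mem_bx.1 hg
      rcases Nat.eq_zero_or_pos (kk j) with hk | hk
      · refine ⟨(g.1, 0), ?_, ?_⟩
        · refine Finset.mem_union_right _ ?_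
          unfold Rc
          rw [Finset.mem_Icc, Prod.le_def, Prod.le_def]
          exact ⟨⟨hgD.1, by simp⟩, hgD.2.1, le_rfl⟩
        · have h1 : dI g (g.1, 0) ≤ s := by
            unfold dI
            rw [hk] at g3 g4
            simp only [Nat.cast_zero, zero_mul, add_zero, zero_add, sub_self, abs_zero, sub_zero] at g3 g4 ⊢
            refine max_le (by omega) ?_
            rw [abs_of_nonneg (by linarith)]
            exact g4
          have h2 : (dI g (g.1, 0) : ℝ) ≤ s := by exact_mod_cast h1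
          have h3 : (0 : ℝ) ≤ s := Nat.cast_nonneg s
          linarith
      · obtain ⟨k0, hk0⟩ := Nat.exists_eq_succ_of_ne_zero (Nat.pos_iff_ne_zero.1 hk)
        have h1 : k0 ∉ P j := by
          refine Nat.notMem_of_lt_sInf ?_
          have : kk j = sInf (P j) := rfl
          omega
        have h2 : ∃ k', k0 ≤ k' ∧ ¬ Disjoint (bx W s k') (G j) := by
          by_contra hcon
          push Not at hcon
          exact h1 hcon
        obtain ⟨k', hk', hdis⟩ := h2
        have h3 : k' = k0 := by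
          by_contra hne
          have h4 : kk j ≤ k' := by omega
          exact hdis (hkkP j hj k' h4)
        rw [h3] at hdis
        obtain ⟨g', hg', hg'G⟩ := Finset.not_disjoint_iff.1 hdis
        refine ⟨g', hg'G, ?_⟩
        obtain ⟨e1, e2, e3, e4⟩ := jk_mem_bx.1 hg'
        rw [hk0] at g3 g4
        have h5 : dI g g' ≤ 2 * s := by
          unfold dI
          push_cast at g3 g4
          refine max_le ?_ ?_
          · rw [abs_le]
            constructor <;> linarith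
          · rw [abs_le]
            constructor <;> linarith
        have h6 : (dI g g' : ℝ) ≤ 2 * s := by exact_mod_cast h5
        linarith
  -- the increments
  set dl : ℕ → ℕ → ℝ := fun j k => (cN D X (ps W s k) (J (j + 1)).c - cN D X (ps W s k) (J j).c) ^ 2 with hdl
  have hinc : ∀ j, 1 ≤ j → j + 1 ≤ m + 1 → kk j = kk (j + 1) → UJ W (H + W) W r w0 j X ≤ L →
      UJ W (H + W) W r w0 (j + 1) X ≤ L → (3 / 4 * w0) ^ 2 ≤ dl j (kk j) := by
    intro j hj1 hj2 hkeq hU1 hU2
    have hk := hkkle j (by omega)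
    have hbs := hsub (kk j) hk
    have hsum := jk_ps_sum hs hbs
    have hpt : ∀ g ∈ bx W s (kk j), (j % 2 = 1 → 3 / 4 * w0 ≤ cm D X (J (j + 1)).c g - cm D X (J j).c g) ∧
        (j % 2 = 0 → 3 / 4 * w0 ≤ cm D X (J j).c g - cm D X (J (j + 1)).c g) := by
      intro g hg
      have hgD := hbs hg
      have hdeep := jk_deep hW hs4 (hKs _ hk) hg
      obtain ⟨n1, n2⟩ := hnear j (by omega) g hg
      have hg2 : g ∈ bx W s (kk (j + 1)) := by rw [← hkeq]; exact hg
      obtain ⟨n3, n4⟩ := hnear (j + 1) (by omega) g hg2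
      have a1 := hJI j hj1 hU1 g hgD n1 hdeep n2
      have a2 := hJI (j + 1) (by omega) hU2 g hgD n3 hdeep n4
      constructor
      · intro hpar
        have b1 := a1.1 hpar
        have b2 := a2.2 (by omega)
        show 3 / 4 * w0 ≤ cm D X (J (j + 1)).c g - cm D X (J j).c g
        linarith
      · intro hpar
        have b1 := a1.2 hpar
        have b2 := a2.1 (by omega)
        show 3 / 4 * w0 ≤ cm D X (J j).c g - cm D X (J (j + 1)).c g
        linarith
    have hdiff : cN D X (ps W s (kk j)) (J (j + 1)).c - cN D X (ps W s (kk j)) (J j).c =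
        ∑ v ∈ D, ps W s (kk j) v * (cm D X (J (j + 1)).c v - cm D X (J j).c v) := by
      unfold cN
      rw [← Finset.sum_sub_distrib]
      refine Finset.sum_congr rfl fun v _ => ?_
      ring
    have hw : 0 ≤ 3 / 4 * w0 := by positivity
    have hpar : j % 2 = 1 ∨ j % 2 = 0 := by omega
    show (3 / 4 * w0) ^ 2 ≤ (cN D X (ps W s (kk j)) (J (j + 1)).c - cN D X (ps W s (kk j)) (J j).c) ^ 2
    rcases hpar with hp | hp
    · have h1 : 3 / 4 * w0 ≤ cN D X (ps W s (kk j)) (J (j + 1)).c - cN D X (ps W s (kk j)) (J j).c := by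
        rw [hdiff]
        calc 3 / 4 * w0 = ∑ v ∈ D, ps W s (kk j) v * (3 / 4 * w0) := by
              rw [← Finset.sum_mul, hsum, one_mul]
          _ ≤ _ := by
              refine Finset.sum_le_sum fun v _ => ?_
              by_cases hv : v ∈ bx W s (kk j)
              · exact mul_le_mul_of_nonneg_left ((hpt v hv).1 hp) (jk_ps_nonneg _ _ _ _)
              · have : ps W s (kk j) v = 0 := by unfold ps; rw [if_neg hv]
                rw [this]; simp
      exact pow_le_pow_left₀ hw h1 2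
    · have h1 : 3 / 4 * w0 ≤ -(cN D X (ps W s (kk j)) (J (j + 1)).c - cN D X (ps W s (kk j)) (J j).c) := by
        rw [hdiff, ← Finset.sum_neg_distrib]
        calc 3 / 4 * w0 = ∑ v ∈ D, ps W s (kk j) v * (3 / 4 * w0) := by
              rw [← Finset.sum_mul, hsum, one_mul]
          _ ≤ _ := by
              refine Finset.sum_le_sum fun v _ => ?_
              by_cases hv : v ∈ bx W s (kk j)
              · have h2 := mul_le_mul_of_nonneg_left ((hpt v hv).2 hp) (jk_ps_nonneg W s (kk j) v)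
                linarith
              · have : ps W s (kk j) v = 0 := by unfold ps; rw [if_neg hv]
                rw [this]; simp
      calc (3 / 4 * w0) ^ 2 ≤ (-(cN D X (ps W s (kk j)) (J (j + 1)).c - cN D X (ps W s (kk j)) (J j).c)) ^ 2 :=
            pow_le_pow_left₀ hw h1 2
        _ = _ := by ring
  -- counting
  set U : ℕ → ℝ := fun j => UJ W (H + W) W r w0 (j + 1) X with hU
  have hU0 : ∀ j, 0 ≤ U j := fun j => jk_UJ_nonneg _ _ _ _ _ _ _
  set F1 := (Finset.range m).filter (fun j => kk (j + 1) ≠ kk (j + 2)) with hF1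
  set F2 := (Finset.range m).filter (fun j => L < U j) with hF2
  set F3 := (Finset.range m).filter (fun j => L < U (j + 1)) with hF3
  set F4 := (Finset.range m).filter (fun j => kk (j + 1) = kk (j + 2) ∧ U j ≤ L ∧ U (j + 1) ≤ L) with hF4
  have hcov : Finset.range m ⊆ F1 ∪ F2 ∪ F3 ∪ F4 := by
    intro j hj
    simp only [hF1, hF2, hF3, hF4, Finset.mem_union, Finset.mem_filter]
    by_cases h1 : kk (j + 1) = kk (j + 2)
    · by_cases h2 : L < U j
      · exact Or.inl (Or.inl (Or.inr ⟨hj, h2⟩))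
      · by_cases h3 : L < U (j + 1)
        · exact Or.inl (Or.inr ⟨hj, h3⟩)
        · exact Or.inr ⟨hj, h1, not_lt.1 h2, not_lt.1 h3⟩
    · exact Or.inl (Or.inl (Or.inl ⟨hj, h1⟩))
  have hcard : m ≤ F1.card + F2.card + F3.card + F4.card := by
    calc m = (Finset.range m).card := (Finset.card_range m).symm
      _ ≤ (F1 ∪ F2 ∪ F3 ∪ F4).card := Finset.card_le_card hcov
      _ ≤ (F1 ∪ F2 ∪ F3).card + F4.card := Finset.card_union_le _ _
      _ ≤ (F1 ∪ F2).card + F3.card + F4.card := by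
          have := Finset.card_union_le (F1 ∪ F2) F3
          omega
      _ ≤ F1.card + F2.card + F3.card + F4.card := by
          have := Finset.card_union_le F1 F2
          omega
  have hc1 : F1.card ≤ Km := by
    have h1 := jk_count (fun j => kk (j + 1)) m (fun j hj => hkkmono (j + 1) (by omega))
    have h2 := hkkle (m + 1) le_rfl
    have h3 : F1.card + kk 1 ≤ kk (m + 1) := h1
    omega
  have hsumU : ∑ j ∈ Finset.range m, U j ≤ ∑ j ∈ Finset.range (m + 1), U j := by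
    rw [Finset.sum_range_succ]
    linarith [hU0 m]
  have hsumU' : ∑ j ∈ Finset.range m, U (j + 1) ≤ ∑ j ∈ Finset.range (m + 1), U j := by
    rw [Finset.sum_range_succ']
    linarith [hU0 0]
  have hc2 : (F2.card : ℝ) ≤ (∑ j ∈ Finset.range (m + 1), U j) / L := by
    rw [le_div_iff₀ hL]
    calc (F2.card : ℝ) * L = ∑ _j ∈ F2, L := by rw [Finset.sum_const, nsmul_eq_mul]
      _ ≤ ∑ j ∈ F2, U j := Finset.sum_le_sum fun j hj => (Finset.mem_filter.1 hj).2.le
      _ ≤ ∑ j ∈ Finset.range m, U j :=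
          Finset.sum_le_sum_of_subset_of_nonneg (Finset.filter_subset _ _) fun j _ _ => hU0 j
      _ ≤ _ := hsumU
  have hc3 : (F3.card : ℝ) ≤ (∑ j ∈ Finset.range (m + 1), U j) / L := by
    rw [le_div_iff₀ hL]
    calc (F3.card : ℝ) * L = ∑ _j ∈ F3, L := by rw [Finset.sum_const, nsmul_eq_mul]
      _ ≤ ∑ j ∈ F3, U (j + 1) := Finset.sum_le_sum fun j hj => (Finset.mem_filter.1 hj).2.le
      _ ≤ ∑ j ∈ Finset.range m, U (j + 1) :=
          Finset.sum_le_sum_of_subset_of_nonneg (Finset.filter_subset _ _) fun j _ _ => hU0 (j + 1)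
      _ ≤ _ := hsumU'
  have hdl0 : ∀ j k, 0 ≤ dl j k := fun j k => sq_nonneg _
  have hw2 : 0 < (3 / 4 * w0) ^ 2 := by positivity
  have hc4 : (F4.card : ℝ) ≤ (∑ j ∈ Finset.range (m + 1), ∑ k ∈ Finset.range (H / s + 2), dl j k) /
      (3 / 4 * w0) ^ 2 := by
    rw [le_div_iff₀ hw2]
    calc (F4.card : ℝ) * (3 / 4 * w0) ^ 2 = ∑ _j ∈ F4, (3 / 4 * w0) ^ 2 := by
          rw [Finset.sum_const, nsmul_eq_mul]
      _ ≤ ∑ j ∈ F4, ∑ k ∈ Finset.range (H / s + 2), dl (j + 1) k := by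
          refine Finset.sum_le_sum fun j hj => ?_
          obtain ⟨h1, h2, h3, h4⟩ := Finset.mem_filter.1 hj
          have h5 := Finset.mem_range.1 h1
          have h6 := hinc (j + 1) (by omega) (by omega) h2 h3 h4
          refine h6.trans ?_
          have h7 := hkkle (j + 1) (by omega)
          exact Finset.single_le_sum (f := fun k => dl (j + 1) k) (fun k _ => hdl0 _ k)
            (Finset.mem_range.2 (by omega))
      _ ≤ ∑ j ∈ Finset.range m, ∑ k ∈ Finset.range (H / s + 2), dl (j + 1) k :=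
          Finset.sum_le_sum_of_subset_of_nonneg (Finset.filter_subset _ _)
            fun j _ _ => Finset.sum_nonneg fun k _ => hdl0 _ k
      _ ≤ _ := by
          rw [Finset.sum_range_succ' _ m]
          have : 0 ≤ ∑ k ∈ Finset.range (H / s + 2), dl 0 k := Finset.sum_nonneg fun k _ => hdl0 _ k
          linarith
  have hfin : (m : ℝ) ≤ (F1.card : ℝ) + F2.card + F3.card + F4.card := by exact_mod_cast hcard
  have hc1' : (F1.card : ℝ) ≤ (Km : ℝ) := by exact_mod_cast hc1
  have e2 : 2 * ((∑ j ∈ Finset.range (m + 1), U j) / L) =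
      (∑ j ∈ Finset.range (m + 1), U j) / L + (∑ j ∈ Finset.range (m + 1), U j) / L := by ring
  calc (m : ℝ) ≤ (F1.card : ℝ) + F2.card + F3.card + F4.card := hfin
    _ ≤ (Km : ℝ) + 2 * ((∑ j ∈ Finset.range (m + 1), U j) / L) +
        (∑ j ∈ Finset.range (m + 1), ∑ k ∈ Finset.range (H / s + 2), dl j k) / (3 / 4 * w0) ^ 2 := by
        rw [e2]
        linarith


/-! ### expectations -/

private theorem jk_S {D Damb : Finset V} (h : D ⊆ Damb) (β : V → ℝ) {σ : Type*} {s : ℕ → (V → ℝ) → σ}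
    {cell : σ → Cell} (hs : ∀ j, IsExp D (s j) cell)
    (href : ∀ j X, (cell (s (j + 1) X)).S ⊆ (cell (s j X)).S) (ψ : V → ℝ) (n : ℕ) :
    ∑ j ∈ Finset.range n, ∫⁻ X, ENNReal.ofReal ((cN D X ψ (cell (s (j + 1) X)) - cN D X ψ (cell (s j X))) ^ 2)
      ∂(gam Damb β) ≤ ENNReal.ofReal (vr D D ψ) := by
  have hg : ∀ q, Measurable (fun X : V → ℝ => cN D X ψ (cell q)) := by
    intro q
    unfold cN
    exact Finset.measurable_sum _ fun v _ => (cm_meas D (cell q) v).const_mul _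
  set F : ℕ → (V → ℝ) × (V → ℝ) → ℝ≥0∞ := fun j p =>
    ENNReal.ofReal ((cN D p.1 ψ (cell (s (j + 1) p.2)) - cN D p.1 ψ (cell (s j p.2))) ^ 2) with hF
  have hFm : ∀ j, Measurable (F j) := fun j =>
    (((jk_meas2 (hs (j + 1)) (g := fun q X => cN D X ψ (cell q)) hg).sub
      (jk_meas2 (hs j) (g := fun q X => cN D X ψ (cell q)) hg)).pow_const 2).ennreal_ofReal
  have hFE : ∀ j, ∀ X X' Y : V → ℝ, (∀ x ∉ D, X x = X' x) → F j (X, Y) = F j (X', Y) := by
    intro j X X' Y hX
    have e : ∀ c, cN D X ψ c = cN D X' ψ c := by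
      intro c
      unfold cN
      exact Finset.sum_congr rfl fun v _ => by rw [cm_congr D X X' hX c v]
    simp only [hF, e]
  have h1 : ∀ j, ∫⁻ X, ENNReal.ofReal ((cN D X ψ (cell (s (j + 1) X)) - cN D X ψ (cell (s j X))) ^ 2)
      ∂(gam Damb β) = ∫⁻ X, (∫⁻ Y, F j (X, Y) ∂gam D X) ∂gam Damb β :=
    fun j => dlr_pair h β (hFm j) (hFE j)
  rw [Finset.sum_congr rfl fun j _ => h1 j, ← lintegral_finsetSum _
    (fun j _ => measurable_gam_lintegral D (hFm j))]
  calc ∫⁻ X, ∑ j ∈ Finset.range n, (∫⁻ Y, F j (X, Y) ∂gam D X) ∂gam Damb β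
      ≤ ∫⁻ _, ENNReal.ofReal (vr D D ψ) ∂gam Damb β := by
        refine lintegral_mono fun X => ?_
        exact cN_mart (n := n) (fun j _ => hs j) (fun j _ Y => href j Y) X ψ
    _ = ENNReal.ofReal (vr D D ψ) := by rw [lintegral_const, measure_univ, mul_one]

private theorem jk_UJ_meas {W T B : ℕ} (hW : 3 ≤ W) (hT : 1 ≤ T) {w0 : ℝ} (h0 : 0 < w0) (r j : ℕ) :
    Measurable (fun X : V → ℝ => UJ W T B r w0 j X) := by
  classical
  unfold UJ
  refine Measurable.div_const ?_ _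
  refine jk_meas (Jst_exp (B := B) hW hT h0 j) (g := fun q X => ∑ y ∈ (DJ W T B).filter
    (fun y => Deep (DJ W T B) y (1 / 8 * r) ∧ y ∉ GJ W B q), max 0 (sgJ j * cm (DJ W T B) X q.c y)) ?_
  intro q
  refine Finset.measurable_sum _ fun y _ => ?_
  exact measurable_const.max ((cm_meas (DJ W T B) q.c y).const_mul _)

private theorem jk_cN_meas {W T B : ℕ} (hW : 3 ≤ W) (hT : 1 ≤ T) {w0 : ℝ} (h0 : 0 < w0) (ψ : V → ℝ) (j : ℕ) :
    Measurable (fun X : V → ℝ => cN (DJ W T B) X ψ (Jst W T w0 j X).c) := by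
  refine jk_meas (Jst_exp (B := B) hW hT h0 j) (g := fun q X => cN (DJ W T B) X ψ q.c) ?_
  intro q
  unfold cN
  exact Finset.measurable_sum _ fun v _ => (cm_meas (DJ W T B) q.c v).const_mul _

private theorem jk_bd_sub {W T B : ℕ} : bd (DJ W T B) ⊆ Rc 0 W (-B - 1) (T + 1) := by
  intro y hy
  obtain ⟨_, h⟩ := mem_bd_iff.1 hy
  have key : ∀ x : V, x ∈ DJ W T B → |x.1 - y.1| ≤ 1 → |x.2 - y.2| ≤ 1 → y ∈ Rc 0 W (-B - 1) (T + 1) := by
    intro x hx h1 h2
    rw [jk_mem_DJ] at hx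
    rw [abs_le] at h1 h2
    unfold Rc
    rw [Finset.mem_Icc, Prod.le_def, Prod.le_def]
    refine ⟨⟨?_, ?_⟩, ?_, ?_⟩
    · show (0 : ℤ) ≤ y.1
      omega
    · show -(B : ℤ) - 1 ≤ y.2
      omega
    · show y.1 ≤ (W : ℤ)
      omega
    · show y.2 ≤ (T : ℤ) + 1
      omega
  rcases h with h | h | h | h
  · exact key _ h (by simp [nE]) (by simp [nE])
  · exact key _ h (by simp [nW]) (by simp [nW])
  · exact key _ h (by simp [nN]) (by simp [nN])
  · exact key _ h (by simp [nS]) (by simp [nS])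


private theorem jk_vr_bound : ∃ C : ℝ, 0 < C ∧ ∀ (D : Finset V) (z : V) (A r W s k : ℕ) (c : ℝ), 1 ≤ s → s ≤ A * r →
    D ⊆ Q z (A * r) → 1 ≤ A → 1 ≤ r → ((A : ℝ) * r / s) ≤ c →
    vr D D (ps W s k) ≤ C * (1 + |Real.log c|) := by
  classical
  obtain ⟨Cv, hCv, hv⟩ := var_spread 1
  refine ⟨Cv, hCv, ?_⟩
  intro D z A r W s k c hs hsA hD hA hr hc
  set y : V := (((W / 2 : ℕ) : ℤ), 1 + (k : ℤ) * s) with hy
  have hs0 : (0 : ℝ) < s := by exact_mod_cast hs
  have hsub : bx W s k ⊆ Q y s := by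
    intro g hg
    obtain ⟨g1, g2, g3, g4⟩ := jk_mem_bx.1 hg
    unfold Q
    rw [Finset.mem_Icc, Prod.le_def, Prod.le_def]
    refine ⟨⟨?_, ?_⟩, ?_, ?_⟩
    · show ((W / 2 : ℕ) : ℤ) - s ≤ g.1
      omega
    · show 1 + (k : ℤ) * s - s ≤ g.2
      linarith [Int.natCast_nonneg s]
    · show g.1 ≤ ((W / 2 : ℕ) : ℤ) + s
      omega
    · show g.2 ≤ 1 + (k : ℤ) * s + s
      linarith
  have hsupp : ∀ x ∉ Q y s, ps W s k x = 0 := by
    intro x hx
    unfold ps
    rw [if_neg]
    intro h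
    exact hx (hsub h)
  rw [jk_vr hsupp]
  have h1 := hv D z y ((A : ℤ) * r) s (ps W s k) (by exact_mod_cast hs) (by exact_mod_cast hsA) hD
    (jk_ps_nonneg W s k) (by
      intro x
      unfold ps
      split_ifs
      · simp
      · positivity) hsupp (jk_ps_sum hs hsub).le
  refine h1.trans (mul_le_mul_of_nonneg_left ?_ hCv.le)
  have h2 : (((A : ℤ) * (r : ℤ) : ℤ) : ℝ) / ((s : ℤ) : ℝ) = (A : ℝ) * r / s := by push_cast; rfl
  rw [h2]
  have hpos : 0 < (A : ℝ) * r / s := by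
    have hA' : (0 : ℝ) < A := by exact_mod_cast hA
    have hr' : (0 : ℝ) < r := by exact_mod_cast hr
    positivity
  have h3 := Real.log_le_log hpos hc
  linarith [le_abs_self (Real.log c)]

private theorem jk_nsmul (n : ℕ) (x : ℝ) : (n : ℝ≥0∞) * ENNReal.ofReal x = ENNReal.ofReal ((n : ℝ) * x) := by
  rw [ENNReal.ofReal_mul (Nat.cast_nonneg n), ENNReal.ofReal_natCast]

theorem JK {w0 : ℝ} (h0 : 0 < w0) (h1 : w0 ≤ 1) (hV : VisProp w0) (A : ℕ) (K1 : ℝ) (hK : 0 < K1) (ε : ℝ≥0∞) (hε : 0 < ε) :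
    ∃ (n r0 : ℕ), ∀ (r W H : ℕ), r0 ≤ r → r + 2 ≤ W → W ≤ A * r → r ≤ H → H ≤ A * r →
    ∀ (Damb : Finset V) (z : V), Rc 0 W (- W - 1) (H + W + 1) ⊆ Damb → Damb ⊆ Q z (A * r) → ∀ (mu : ℝ), |mu| ≤ K1 →
    gam Damb (fun _ => mu) {X | Alt 0 n 0 w0 1 (W - 1) 1 H X} ≤ ε := by
  classical
  obtain ⟨Cs, hCs, hsup⟩ := sup_mean
  obtain ⟨CU, hCU, hU⟩ := JU h0 h1 (2 * A)
  obtain ⟨Cv, hCv, hv⟩ := jk_vr_bound
  set e : ℝ := (min ε 1).toReal with he
  have hmin : min ε 1 ≠ ⊤ := ne_top_of_le_ne_top ENNReal.one_ne_top (min_le_right _ _)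
  have he0 : 0 < e := ENNReal.toReal_pos (lt_min hε one_pos).ne' hmin
  have hee : ENNReal.ofReal e ≤ ε := by
    rw [he, ENNReal.ofReal_toReal hmin]
    exact min_le_left _ _
  set Cf : ℝ := 16 * Cs / e with hCf
  have hCf0 : 0 < Cf := by positivity
  set L : ℝ := 64 * CU * (1 + K1) / e with hL
  have hL0 : 0 < L := by positivity
  obtain ⟨η, r1, hη0, hη1, hJI⟩ := JI h0 h1 hV (2 * A) Cf L hCf0 hL0
  set KK : ℕ := ⌊6 * A / η⌋₊ + 1 with hKK
  set Vm : ℝ := Cv * (1 + |Real.log (6 * A / η)|) with hVm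
  have hVm0 : 0 < Vm := by positivity
  set w : ℝ := (3 / 4 * w0) ^ 2 with hw
  have hw0 : 0 < w := by positivity
  obtain ⟨m, hm⟩ := exists_nat_gt (2 * (KK : ℝ) + 16 * ((KK : ℝ) + 2) * Vm / (w * e) + 1)
  have hm1 : (1 : ℝ) < m := by
    have : 0 ≤ 2 * (KK : ℝ) + 16 * ((KK : ℝ) + 2) * Vm / (w * e) := by positivity
    linarith
  have hm2 : 2 * (KK : ℝ) < m := by
    have : 0 ≤ 16 * ((KK : ℝ) + 2) * Vm / (w * e) := by positivity
    linarith
  have hm3 : 16 * ((KK : ℝ) + 2) * Vm ≤ m * (w * e) := by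
    have h2 : 16 * ((KK : ℝ) + 2) * Vm / (w * e) ≤ m := by
      have : 0 ≤ 2 * (KK : ℝ) := by positivity
      linarith
    rwa [div_le_iff₀ (by positivity)] at h2
  refine ⟨m + 1, max r1 (max ⌈6 / η⌉₊ (max (A + 2) ⌈Real.exp (2 * K1 / Cf)⌉₊)), ?_⟩
  intro r W H hr hW1 hW2 hH1 hH2 Damb z hsub hDamb mu hmu
  have hr1 : r1 ≤ r := (le_max_left _ _).trans hr
  have hr' := (le_max_right _ _).trans hr
  have hr2 : ⌈6 / η⌉₊ ≤ r := (le_max_left _ _).trans hr'
  have hr'' := (le_max_right _ _).trans hr'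
  have hr3 : A + 2 ≤ r := (le_max_left _ _).trans hr''
  have hr4 : ⌈Real.exp (2 * K1 / Cf)⌉₊ ≤ r := (le_max_right _ _).trans hr''
  have hr0 : 1 ≤ r := by omega
  have hrR : (0 : ℝ) < r := by exact_mod_cast hr0
  have hA1 : 1 ≤ A := by
    by_contra hcon
    have hA0 : A = 0 := by omega
    rw [hA0] at hW2
    omega
  have hAR : (0 : ℝ) < A := by exact_mod_cast hA1
  have h6 : 6 ≤ η * r := by
    have h2 : 6 / η ≤ r := (Nat.le_ceil _).trans (by exact_mod_cast hr2)
    rw [div_le_iff₀ hη0] at h2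
    linarith
  set s : ℕ := ⌊η * r / 3⌋₊ with hs
  have hs1 : (s : ℝ) ≤ η * r / 3 := Nat.floor_le (by positivity)
  have hs2 : η * r / 3 - 1 < s := Nat.sub_one_lt_floor _
  have hs3 : η * r / 6 ≤ s := by linarith
  have hs4 : 1 ≤ s := by
    have : (0 : ℝ) < s := by linarith
    exact_mod_cast this
  have hsR : (0 : ℝ) < s := by exact_mod_cast hs4
  have hs5 : 4 * s ≤ r := by
    have h2 : (4 * s : ℝ) ≤ r := by
      have : η * r ≤ 1 / 64 * r := mul_le_mul_of_nonneg_right hη1 hrR.le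
      linarith
    exact_mod_cast h2
  have hs6 : 2 * (s : ℝ) ≤ η * r := by linarith
  have hsA : s ≤ A * r := by
    have : r ≤ A * r := Nat.le_mul_of_pos_left _ hA1
    omega
  have hratio : (A : ℝ) * r / s ≤ 6 * A / η := by
    rw [div_le_div_iff₀ hsR hη0]
    nlinarith
  have hW3 : 3 ≤ W := by omega
  have hT1 : 1 ≤ H + W := by omega
  set D := DJ W (H + W) W with hD
  have hbd : bd D ⊆ Damb := by
    refine (jk_bd_sub).trans ?_
    have e1 : (((H + W : ℕ) : ℤ) + 1) = (H : ℤ) + W + 1 := by push_cast; ring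
    rw [e1]
    exact hsub
  have hDsub : D ⊆ Damb := by
    refine Finset.Subset.trans ?_ hsub
    intro g hg
    rw [hD, jk_mem_DJ] at hg
    push_cast at hg
    unfold Rc
    rw [Finset.mem_Icc, Prod.le_def, Prod.le_def]
    refine ⟨⟨?_, ?_⟩, ?_, ?_⟩
    · show (0 : ℤ) ≤ g.1
      omega
    · show -(W : ℤ) - 1 ≤ g.2
      omega
    · show g.1 ≤ (W : ℤ)
      omega
    · show g.2 ≤ (H : ℤ) + W + 1
      omega
  set μ := gam Damb (fun _ => mu) with hμ
  -- event 1
  have hlogr : 2 * K1 / Cf ≤ Real.log r := by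
    rw [Real.le_log_iff_exp_le hrR]
    exact (Nat.le_ceil _).trans (by exact_mod_cast hr4)
  have hKlog : 2 * K1 ≤ Cf * Real.log r := by
    rw [div_le_iff₀ hCf0] at hlogr
    linarith
  have hlogpos : 0 < Real.log r := by
    have : 0 < 2 * K1 / Cf := by positivity
    linarith
  have hlog2 : Real.log ((A : ℝ) * r + 2) ≤ 2 * Real.log r := by
    have h2 : (A : ℝ) * r + 2 ≤ (r : ℝ) ^ 2 := by
      have h3 : (A : ℝ) + 2 ≤ r := by exact_mod_cast hr3
      have h4 : (1 : ℝ) ≤ r := by exact_mod_cast hr0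
      nlinarith
    have h5 := Real.log_le_log (by positivity) h2
    rw [Real.log_pow] at h5
    exact_mod_cast h5
  set E0 : Set (V → ℝ) := {X | ∃ x ∈ bd D, Cf * Real.log r < |X x|} with hE0
  have hP0 : μ E0 ≤ ENNReal.ofReal (e / 4) := by
    obtain ⟨hint, hle⟩ := hsup Damb (fun _ => mu) z ((A : ℤ) * r)
      (by
        have : 1 ≤ A * r := Nat.mul_pos hA1 hr0
        exact_mod_cast this) hDamb
    set M : (V → ℝ) → ℝ := fun X => ⨆ x : Damb, |X x - hx Damb (fun _ => mu) x| with hM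
    set c : ℝ := Cf * Real.log r - K1 with hc
    have hc0 : 0 < c := by linarith
    have hsubE : E0 ⊆ {X | ENNReal.ofReal c ≤ ENNReal.ofReal (M X)} := by
      rintro X ⟨x, hxb, hxl⟩
      refine ENNReal.ofReal_le_ofReal ?_
      have h2 : |X x - hx Damb (fun _ => mu) x| ≤ M X :=
        le_ciSup (f := fun x : Damb => |X x - hx Damb (fun _ => mu) x|) (Set.finite_range _).bddAbove ⟨x, hbd hxb⟩
      rw [hx_const] at h2
      have h3 : |X x| ≤ |X x - mu| + |mu| := by
        have := abs_add_le (X x - mu) mu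
        simpa using this
      linarith
    refine (measure_mono hsubE).trans ?_
    refine (meas_ge_le_lintegral_div hint.aestronglyMeasurable.aemeasurable.ennreal_ofReal
      (ENNReal.ofReal_pos.2 hc0).ne' ENNReal.ofReal_ne_top).trans ?_
    refine ENNReal.div_le_of_le_mul ?_
    rw [← ofReal_integral_eq_lintegral_ofReal hint
      (Filter.Eventually.of_forall (fun Y => Real.iSup_nonneg (fun x => abs_nonneg _))),
      ← ENNReal.ofReal_mul (by positivity)]
    refine ENNReal.ofReal_le_ofReal (hle.trans ?_)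
    have e2 : (((A : ℤ) * (r : ℤ) : ℤ) : ℝ) + 2 = (A : ℝ) * r + 2 := by push_cast; rfl
    rw [e2]
    have h4 : Cs * Real.log ((A : ℝ) * r + 2) ≤ Cs * (2 * Real.log r) := mul_le_mul_of_nonneg_left hlog2 hCs.le
    have h5 : Cf * Real.log r / 2 ≤ c := by linarith
    have h6' : e / 4 * (Cf * Real.log r / 2) = Cs * (2 * Real.log r) := by
      rw [hCf]
      field_simp
      ring
    have h7 : e / 4 * (Cf * Real.log r / 2) ≤ e / 4 * c := mul_le_mul_of_nonneg_left h5 (by positivity)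
    linarith
  -- event 2
  set U : (V → ℝ) → ℝ := fun X => ∑ j ∈ Finset.range (m + 1), UJ W (H + W) W r w0 (j + 1) X with hUdef
  have hUm : ∀ j, Measurable (fun X : V → ℝ => UJ W (H + W) W r w0 j X) := fun j =>
    jk_UJ_meas hW3 hT1 h0 r j
  have hDamb2 : Damb ⊆ Q z ((2 * A : ℕ) * r) := by
    refine hDamb.trans ?_
    intro x hx
    unfold Q at hx ⊢
    rw [Finset.mem_Icc, Prod.le_def, Prod.le_def] at hx ⊢
    obtain ⟨⟨a1, a2⟩, a3, a4⟩ := hx
    simp only at a1 a2 a3 a4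
    have h8 : (A : ℤ) * r ≤ (2 * A : ℕ) * r := by
      have : A * r ≤ 2 * A * r := by
        rw [mul_assoc]
        omega
      exact_mod_cast this
    exact ⟨⟨by simp only; linarith, by simp only; linarith⟩, by simp only; linarith, by simp only; linarith⟩
  have hWA : W ≤ 2 * A * r := by
    rw [mul_assoc]
    omega
  have hTA : H + W ≤ 2 * A * r := by
    rw [mul_assoc]
    omega
  have hUJ : ∀ j, 1 ≤ j → ∫⁻ X, ENNReal.ofReal (UJ W (H + W) W r w0 j X) ∂μ ≤ ENNReal.ofReal (CU * (1 + K1)) := by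
    intro j hj
    have h2 := hU r W (H + W) W hr0 hW1 hWA (by omega) hTA le_rfl hWA Damb z (by
      have e1 : (((H + W : ℕ) : ℤ) + 1) = (H : ℤ) + W + 1 := by push_cast; ring
      rw [e1]
      exact hsub) hDamb2 mu j hj
    refine h2.trans (ENNReal.ofReal_le_ofReal ?_)
    exact mul_le_mul_of_nonneg_left (by linarith) hCU.le
  set EU : Set (V → ℝ) := {X | ENNReal.ofReal (L * m / 8) ≤ ENNReal.ofReal (U X)} with hEU
  have hPU : μ EU ≤ ENNReal.ofReal (e / 4) := by
    have hUm' : Measurable U := Finset.measurable_sum _ fun j _ => hUm (j + 1)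
    refine (meas_ge_le_lintegral_div hUm'.ennreal_ofReal.aemeasurable
      (ENNReal.ofReal_pos.2 (by positivity)).ne' ENNReal.ofReal_ne_top).trans ?_
    refine ENNReal.div_le_of_le_mul ?_
    have h2 : ∀ X, ENNReal.ofReal (U X) = ∑ j ∈ Finset.range (m + 1), ENNReal.ofReal (UJ W (H + W) W r w0 (j + 1) X) :=
      fun X => ENNReal.ofReal_sum_of_nonneg fun j _ => jk_UJ_nonneg _ _ _ _ _ _ _
    rw [lintegral_congr h2, lintegral_finsetSum _ (fun j _ => (hUm (j + 1)).ennreal_ofReal),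
      ← ENNReal.ofReal_mul (by positivity)]
    calc ∑ j ∈ Finset.range (m + 1), ∫⁻ X, ENNReal.ofReal (UJ W (H + W) W r w0 (j + 1) X) ∂μ
        ≤ ∑ _j ∈ Finset.range (m + 1), ENNReal.ofReal (CU * (1 + K1)) :=
          Finset.sum_le_sum fun j _ => hUJ (j + 1) (by omega)
      _ = ENNReal.ofReal (((m + 1 : ℕ) : ℝ) * (CU * (1 + K1))) := by
          rw [Finset.sum_const, Finset.card_range, nsmul_eq_mul, jk_nsmul]
      _ ≤ _ := by
          refine ENNReal.ofReal_le_ofReal ?_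
          have h3 : e / 4 * (L * m / 8) = 2 * m * (CU * (1 + K1)) := by
            rw [hL]
            field_simp
            ring
          rw [h3]
          refine mul_le_mul_of_nonneg_right ?_ (by positivity)
          push_cast
          linarith
  -- event 3
  set dl : ℕ → ℕ → (V → ℝ) → ℝ := fun j k X =>
    (cN D X (ps W s k) (Jst W (H + W) w0 (j + 1) X).c - cN D X (ps W s k) (Jst W (H + W) w0 j X).c) ^ 2 with hdl
  set S : (V → ℝ) → ℝ := fun X => ∑ j ∈ Finset.range (m + 1), ∑ k ∈ Finset.range (H / s + 2), dl j k X with hS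
  have hdlm : ∀ j k, Measurable (dl j k) := fun j k =>
    ((jk_cN_meas (B := W) hW3 hT1 h0 (ps W s k) (j + 1)).sub (jk_cN_meas (B := W) hW3 hT1 h0 (ps W s k) j)).pow_const 2
  have hHs : H / s + 1 ≤ KK := by
    have h2 : ((H / s : ℕ) : ℝ) ≤ 6 * A / η := by
      refine (Nat.cast_div_le).trans ?_
      refine le_trans ?_ hratio
      have : (H : ℝ) ≤ (A : ℝ) * r := by exact_mod_cast hH2
      exact div_le_div_of_nonneg_right this hsR.le
    have h3 := Nat.le_floor h2
    omega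
  set ES : Set (V → ℝ) := {X | ENNReal.ofReal (w * m / 4) ≤ ENNReal.ofReal (S X)} with hES
  have hDQ : D ⊆ Q z (A * r) := hDsub.trans hDamb
  have hPS : μ ES ≤ ENNReal.ofReal (e / 4) := by
    have hSm : Measurable S := Finset.measurable_sum _ fun j _ => Finset.measurable_sum _ fun k _ => hdlm j k
    refine (meas_ge_le_lintegral_div hSm.ennreal_ofReal.aemeasurable
      (ENNReal.ofReal_pos.2 (by positivity)).ne' ENNReal.ofReal_ne_top).trans ?_
    refine ENNReal.div_le_of_le_mul ?_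
    have h2 : ∀ X, ENNReal.ofReal (S X) = ∑ k ∈ Finset.range (H / s + 2), ∑ j ∈ Finset.range (m + 1),
        ENNReal.ofReal (dl j k X) := by
      intro X
      rw [hS]
      simp only
      rw [Finset.sum_comm, ENNReal.ofReal_sum_of_nonneg fun k _ => Finset.sum_nonneg fun j _ => sq_nonneg _]
      refine Finset.sum_congr rfl fun k _ => ?_
      exact ENNReal.ofReal_sum_of_nonneg fun j _ => sq_nonneg _
    rw [lintegral_congr h2, lintegral_finsetSum _ (fun k _ => Finset.measurable_sum _ fun j _ =>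
      (hdlm j k).ennreal_ofReal), ← ENNReal.ofReal_mul (by positivity)]
    have h3 : ∀ k, ∫⁻ X, ∑ j ∈ Finset.range (m + 1), ENNReal.ofReal (dl j k X) ∂μ ≤ ENNReal.ofReal Vm := by
      intro k
      rw [lintegral_finsetSum _ (fun j _ => (hdlm j k).ennreal_ofReal)]
      refine (jk_S (s := fun j => Jst W (H + W) w0 j) (cell := JS.c) hDsub (fun _ => mu)
        (fun j => Jst_exp (B := W) hW3 hT1 h0 j) (fun j X => (Jst_mono hW3 hT1 h0 j X).2)
        (ps W s k) (m + 1)).trans ?_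
      refine ENNReal.ofReal_le_ofReal ?_
      exact hv D z A r W s k (6 * A / η) hs4 hsA hDQ hA1 hr0 hratio
    calc ∑ k ∈ Finset.range (H / s + 2), ∫⁻ X, ∑ j ∈ Finset.range (m + 1), ENNReal.ofReal (dl j k X) ∂μ
        ≤ ∑ _k ∈ Finset.range (H / s + 2), ENNReal.ofReal Vm := Finset.sum_le_sum fun k _ => h3 k
      _ = ENNReal.ofReal (((H / s + 2 : ℕ) : ℝ) * Vm) := by
          rw [Finset.sum_const, Finset.card_range, nsmul_eq_mul, jk_nsmul]
      _ ≤ _ := by
          refine ENNReal.ofReal_le_ofReal ?_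
          have h4 : ((H / s + 2 : ℕ) : ℝ) ≤ (KK : ℝ) + 2 := by
            have : H / s + 2 ≤ KK + 2 := by omega
            exact_mod_cast this
          have h5 : ((H / s + 2 : ℕ) : ℝ) * Vm ≤ ((KK : ℝ) + 2) * Vm := mul_le_mul_of_nonneg_right h4 hVm0.le
          linarith
  -- the union
  have hincl : {X | Alt 0 (m + 1) 0 w0 1 (W - 1) 1 H X} ⊆ E0 ∪ EU ∪ ES := by
    intro X hX
    by_contra hcon
    simp only [Set.mem_union, not_or] at hcon
    obtain ⟨⟨n1, n2⟩, n3⟩ := hcon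
    have b1 : ∀ x ∈ bd D, |X x| ≤ Cf * Real.log r := by
      intro x hx
      by_contra hc
      exact n1 ⟨x, hx, not_le.1 hc⟩
    have b2 : U X < L * m / 8 := by
      by_contra hc
      exact n2 (ENNReal.ofReal_le_ofReal (not_lt.1 hc))
    have b3 : S X < w * m / 4 := by
      by_contra hc
      exact n3 (ENNReal.ofReal_le_ofReal (not_lt.1 hc))
    have hdet := jk_det h0 hr0 hW1 hs4 hs5 X hX hL0 hs6 (fun j hj hUj g hg hg' hdeep hnear =>
      hJI r W (H + W) W hr1 hW1 hWA (by omega) hTA le_rfl hWA X b1 j hj hUj g hg hg' hdeep hnear)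
    have c1 : U X / L < m / 8 := by
      rw [div_lt_iff₀ hL0]
      linarith
    have c2 : S X / w < m / 4 := by
      rw [div_lt_iff₀ hw0]
      linarith
    have c3 : ((H / s + 1 : ℕ) : ℝ) ≤ KK := by exact_mod_cast hHs
    have hdet' : (m : ℝ) ≤ ((H / s + 1 : ℕ) : ℝ) + 2 * (U X / L) + S X / w := hdet
    linarith
  calc μ {X | Alt 0 (m + 1) 0 w0 1 (W - 1) 1 H X} ≤ μ (E0 ∪ EU ∪ ES) := measure_mono hincl
    _ ≤ μ E0 + μ EU + μ ES := (measure_union_le _ _).trans (add_le_add (measure_union_le _ _) le_rfl)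
    _ ≤ ENNReal.ofReal (e / 4) + ENNReal.ofReal (e / 4) + ENNReal.ofReal (e / 4) :=
        add_le_add (add_le_add hP0 hPU) hPS
    _ = ENNReal.ofReal (e / 4 + e / 4 + e / 4) := by
        rw [ENNReal.ofReal_add (by positivity) (by positivity), ENNReal.ofReal_add (by positivity) (by positivity)]
    _ ≤ ENNReal.ofReal e := ENNReal.ofReal_le_ofReal (by linarith)
    _ ≤ ε := hee

end GF
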