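import Pool.Agent.Lib.MP_acf58e_gf.J0
import Pool.Agent.Lib.MP_acf58e_gf.X3
import Pool.Agent.Lib.MP_acf58e_gf.T3
import Pool.Agent.Lib.MP_acf58e_gf.JF
/-! O-growth stage (blueprint 7.1) -/
open MeasureTheory Set ProbabilityTheory
open scoped ENNReal
namespace GF

/-- invariants inside an O-growth stage -/
private structure InvO (W T : ℕ) (w0 : ℝ) (q : JS) : Prop where
  sub : q.A ⊆ TT W T \ Sd W T
  row : row0 W ⊆ q.A
  conn : IsConn nn (q.A : Set V)
  fill : fl st W T q.A = q.A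
  revC : ∀ v ∈ q.c.C, v ∈ q.A ∨ (v ∈ PO W T q.A ∧ v ∉ Sd W T ∧ v ∈ q.K)
  KC : ∀ v ∈ q.K, v ∈ q.c.C ∧ q.c.θ v = w0
  revO : q.c.O ⊆ q.A
  up : ∀ v ∈ q.c.C ∪ q.c.O, 1 ≤ v.2
  dis : Disjoint q.c.C q.c.O
  thr : ∀ v ∈ q.c.C ∪ q.c.O, q.c.θ v = 0 ∨ q.c.θ v = w0
  i3 : ∀ v ∈ q.c.O, ∃ p, st v p ∧ (p ∈ q.c.C ∨ p ∈ Sd W T)
  i4 : ∀ v ∈ q.c.C, q.c.θ v = w0 → ∃ p, ConnIn st (q.c.C : Set V) v p ∧ ∃ s ∈ Sd W T, st p s

private theorem InvO_of_GoodC {W T : ℕ} {w0 : ℝ} {q : JS} (hq : GoodC W T w0 q) : InvO W T w0 q where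
  sub := hq.sub
  row := hq.row
  conn := hq.conn
  fill := hq.fill
  revC := fun v hv => Or.inl (hq.revC hv)
  KC := fun v hv => by rw [hq.K] at hv; exact absurd hv (by simp)
  revO := hq.revO
  up := hq.up
  dis := hq.dis
  thr := hq.thr
  i3 := hq.i3
  i4 := hq.i4

private theorem row0_nonempty' {W : ℕ} (hW : 3 ≤ W) : (row0 W).Nonempty := by
  refine ⟨(1, 0), JF_row0.2 ⟨le_refl _, ?_, rfl⟩⟩
  show (1 : ℤ) ≤ W - 1
  omega

private theorem mem_candO {W T : ℕ} {q : JS} {v : V} :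
    v ∈ candO W T q ↔ (v ∈ PO W T q.A ∧ v ∉ Sd W T) ∧ v ∉ q.c.C ∧ v ∉ q.c.O ∧
      ∃ p ∈ PO W T q.A, st v p ∧ (p ∈ Sd W T ∨ p ∈ q.K) := by
  classical
  unfold candO
  rw [Finset.mem_filter, Finset.mem_sdiff]

private theorem nxtO_some {W T : ℕ} {w0 : ℝ} {q : JS} {v : V} {th : ℝ} (h : nxtO W T w0 q = some (v, th)) :
    v ∈ candO W T q ∧ th = w0 := by
  classical
  unfold nxtO at h
  by_cases hc : (candO W T q).Nonempty
  · rw [dif_pos hc] at h
    have h' := Option.some.inj h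
    have h1 : hc.choose = v := congrArg Prod.fst h'
    have h2 : w0 = th := congrArg Prod.snd h'
    exact ⟨h1 ▸ hc.choose_spec, h2.symm⟩
  · rw [dif_neg hc] at h
    exact absurd h (by simp)

private theorem nxtO_none {W T : ℕ} {w0 : ℝ} {q : JS} (h : nxtO W T w0 q = none) : ∀ v, v ∉ candO W T q := by
  classical
  intro v hv
  unfold nxtO at h
  rw [dif_pos ⟨v, hv⟩] at h
  exact absurd h (by simp)

private theorem updO_true (W T : ℕ) (w0 : ℝ) (q : JS) (v : V) :
    updO W T w0 q v true = ⟨⟨insert v q.c.C, q.c.O, Function.update q.c.θ v w0⟩, q.A, insert v q.K⟩ := by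
  unfold updO Cell.reveal
  simp

private theorem updO_false (W T : ℕ) (w0 : ℝ) (q : JS) (v : V) :
    updO W T w0 q v false = ⟨⟨q.c.C, insert v q.c.O, Function.update q.c.θ v w0⟩, fl st W T (insert v q.A), q.K⟩ := by
  unfold updO Cell.reveal
  simp

private theorem cand_in' {W T : ℕ} {q : JS} {v : V} (hv : v ∈ candO W T q) :
    v ∈ TT W T \ Sd W T ∧ v ∉ q.A ∧ v ∈ Top st W T q.A ∧ ∃ a ∈ q.A, nn v a := by
  obtain ⟨⟨h1, h2⟩, h3, h4, _⟩ := mem_candO.1 hv
  obtain ⟨h5, h6⟩ := JF_mem_PO.1 h1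
  exact ⟨Finset.mem_sdiff.2 ⟨(JF_Top_sub h5).1, h2⟩, (JF_Top_sub h5).2, h5, h6⟩

private theorem InvO_up {W T : ℕ} {w0 : ℝ} {q : JS} (hq : InvO W T w0 q) {v : V} (hv : v ∈ candO W T q) :
    1 ≤ v.2 := by
  obtain ⟨h1, h2, _, _⟩ := cand_in' hv
  rw [JF_mem_in] at h1
  by_contra hcon
  have : v.2 = 0 := by omega
  exact h2 (hq.row (JF_row0.2 ⟨h1.1, h1.2.1, this⟩))

private theorem conn_insert_nn {A : Finset V} (hc : IsConn nn (A : Set V)) {v a : V} (ha : a ∈ A)
    (hva : nn v a) : IsConn nn ((insert v A : Finset V) : Set V) := by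
  classical
  have hv : v ∈ ((insert v A : Finset V) : Set V) := Finset.mem_coe.2 (Finset.mem_insert_self _ _)
  have hA : ∀ x ∈ (A : Set V), x ∈ ((insert v A : Finset V) : Set V) := fun x hx =>
    Finset.mem_coe.2 (Finset.mem_insert_of_mem hx)
  have h1 : ConnIn nn ((insert v A : Finset V) : Set V) v a := TT.conn_single hv (hA a ha) hva
  have key : ∀ x ∈ ((insert v A : Finset V) : Set V), ConnIn nn ((insert v A : Finset V) : Set V) a x := by
    intro x hx
    rcases Finset.mem_insert.1 (Finset.mem_coe.1 hx) with rfl | hx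
    · exact TT.conn_symm TT.nn_symm' h1
    · exact TT.conn_mono hA (hc a ha x hx)
  intro x hx y hy
  exact TT.conn_trans (TT.conn_symm TT.nn_symm' (key x hx)) (key y hy)

private theorem InvO_pres_true {W T : ℕ} {w0 : ℝ} {q : JS} (hq : InvO W T w0 q) {v : V}
    (hv : v ∈ candO W T q) : InvO W T w0 (updO W T w0 q v true) := by
  classical
  obtain ⟨c1, c2, c3, a, haA, hva⟩ := cand_in' hv
  obtain ⟨⟨hvP, hvS⟩, hvC, hvO, p0, hp0, hvp0, hpK⟩ := mem_candO.1 hv
  have thold : ∀ w, w ≠ v → Function.update q.c.θ v w0 w = q.c.θ w := fun w hw => Function.update_of_ne hw _ _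
  have hmono : ∀ x ∈ (q.c.C : Set V), x ∈ ((insert v q.c.C : Finset V) : Set V) := fun x hx =>
    Finset.mem_coe.2 (Finset.mem_insert_of_mem hx)
  rw [updO_true]
  refine ⟨hq.sub, hq.row, hq.conn, hq.fill, ?_, ?_, hq.revO, ?_, ?_, ?_, ?_, ?_⟩
  · intro w hw
    rcases Finset.mem_insert.1 hw with rfl | hw
    · exact Or.inr ⟨hvP, hvS, Finset.mem_insert_self _ _⟩
    · rcases hq.revC w hw with h | ⟨h1, h2, h3⟩
      · exact Or.inl h
      · exact Or.inr ⟨h1, h2, Finset.mem_insert_of_mem h3⟩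
  · intro w hw
    by_cases hwv : w = v
    · subst hwv
      refine ⟨Finset.mem_insert_self _ _, ?_⟩
      show Function.update q.c.θ w w0 w = w0
      rw [Function.update_self]
    · have hwK : w ∈ q.K := (Finset.mem_insert.1 hw).resolve_left hwv
      obtain ⟨h1, h2⟩ := hq.KC w hwK
      refine ⟨Finset.mem_insert_of_mem h1, ?_⟩
      show Function.update q.c.θ v w0 w = w0
      rw [thold w hwv]; exact h2
  · intro w hw
    rcases Finset.mem_union.1 hw with hw | hw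
    · rcases Finset.mem_insert.1 hw with rfl | hw
      · exact InvO_up hq hv
      · exact hq.up w (Finset.mem_union_left _ hw)
    · exact hq.up w (Finset.mem_union_right _ hw)
  · rw [Finset.disjoint_left]
    intro w hw hwO
    rcases Finset.mem_insert.1 hw with rfl | hw
    · exact hvO hwO
    · exact Finset.disjoint_left.1 hq.dis hw hwO
  · intro w hw
    show Function.update q.c.θ v w0 w = 0 ∨ Function.update q.c.θ v w0 w = w0
    by_cases hwv : w = v
    · right; rw [hwv, Function.update_self]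
    · rw [thold w hwv]
      rcases Finset.mem_union.1 hw with hw | hw
      · rcases Finset.mem_insert.1 hw with rfl | hw
        · exact absurd rfl hwv
        · exact hq.thr w (Finset.mem_union_left _ hw)
      · exact hq.thr w (Finset.mem_union_right _ hw)
  · intro w hw
    obtain ⟨p, h1, h2⟩ := hq.i3 w hw
    exact ⟨p, h1, h2.imp (fun h => Finset.mem_insert_of_mem h) id⟩
  · intro w hw hθ
    by_cases hwv : w = v
    · subst hwv
      have hself : w ∈ ((insert w q.c.C : Finset V) : Set V) := Finset.mem_coe.2 (Finset.mem_insert_self _ _)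
      rcases hpK with hS | hK
      · exact ⟨w, TT.conn_refl hself, p0, hS, hvp0⟩
      · obtain ⟨h1, h2⟩ := hq.KC p0 hK
        obtain ⟨p', h3, h4⟩ := hq.i4 p0 h1 h2
        exact ⟨p', TT.conn_trans (TT.conn_single hself (hmono p0 h1) hvp0) (TT.conn_mono hmono h3), h4⟩
    · have hwC : w ∈ q.c.C := (Finset.mem_insert.1 hw).resolve_left hwv
      have hθ' : q.c.θ w = w0 := by rw [← thold w hwv]; exact hθ
      obtain ⟨p, h1, h2⟩ := hq.i4 w hwC hθ'
      exact ⟨p, TT.conn_mono hmono h1, h2⟩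

private theorem InvO_pres_false {W T : ℕ} {w0 : ℝ} {q : JS} (hq : InvO W T w0 q) {v : V}
    (hv : v ∈ candO W T q) : InvO W T w0 (updO W T w0 q v false) := by
  classical
  obtain ⟨c1, c2, c3, a, haA, hva⟩ := cand_in' hv
  obtain ⟨⟨hvP, hvS⟩, hvC, hvO, p0, hp0, hvp0, hpK⟩ := mem_candO.1 hv
  have thold : ∀ w, w ≠ v → Function.update q.c.θ v w0 w = q.c.θ w := fun w hw => Function.update_of_ne hw _ _
  have hins : insert v q.A ⊆ TT W T \ Sd W T := JF_insert_in hq.sub c1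
  have hinsT := JF_sub_TT hins
  have hne : (insert v q.A).Nonempty := ⟨v, Finset.mem_insert_self _ _⟩
  have hsubfl : insert v q.A ⊆ fl st W T (insert v q.A) := JF_sub_fl hinsT
  have hAfl : q.A ⊆ fl st W T (insert v q.A) := (Finset.subset_insert _ _).trans hsubfl
  rw [updO_false]
  refine ⟨JF_fl_in JFadj_st hins, hq.row.trans hAfl, ?_, JF_fl_fl hinsT, ?_, ?_, ?_, ?_, ?_, ?_, ?_, ?_⟩
  · exact JF_fl_conn JFadj_st JFadj_nn hinsT hne (conn_insert_nn hq.conn haA hva)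
  · intro w hw
    rcases hq.revC w hw with h | ⟨h1, h2, h3⟩
    · exact Or.inl (hAfl h)
    · by_cases hwf : w ∈ fl st W T (insert v q.A)
      · exact Or.inl hwf
      · right
        obtain ⟨h4, b, hb, hwb⟩ := JF_mem_PO.1 h1
        exact ⟨JF_mem_PO.2 ⟨JF_mem_Top_of_fill (JF_fl_fl hinsT) (JF_Top_sub h4).1 hwf, b, hAfl hb, hwb⟩, h2, h3⟩
  · intro w hw
    obtain ⟨h1, h2⟩ := hq.KC w hw
    refine ⟨h1, ?_⟩
    have hwv : w ≠ v := by rintro rfl; exact hvC h1
    show Function.update q.c.θ v w0 w = w0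
    rw [thold w hwv]; exact h2
  · intro w hw
    rcases Finset.mem_insert.1 hw with rfl | hw
    · exact hsubfl (Finset.mem_insert_self _ _)
    · exact hAfl (hq.revO hw)
  · intro w hw
    rcases Finset.mem_union.1 hw with hw | hw
    · exact hq.up w (Finset.mem_union_left _ hw)
    · rcases Finset.mem_insert.1 hw with rfl | hw
      · exact InvO_up hq hv
      · exact hq.up w (Finset.mem_union_right _ hw)
  · rw [Finset.disjoint_left]
    intro w hw hwO
    rcases Finset.mem_insert.1 hwO with rfl | hwO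
    · exact hvC hw
    · exact Finset.disjoint_left.1 hq.dis hw hwO
  · intro w hw
    show Function.update q.c.θ v w0 w = 0 ∨ Function.update q.c.θ v w0 w = w0
    by_cases hwv : w = v
    · right; rw [hwv, Function.update_self]
    · rw [thold w hwv]
      rcases Finset.mem_union.1 hw with hw | hw
      · exact hq.thr w (Finset.mem_union_left _ hw)
      · rcases Finset.mem_insert.1 hw with rfl | hw
        · exact absurd rfl hwv
        · exact hq.thr w (Finset.mem_union_right _ hw)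
  · intro w hw
    rcases Finset.mem_insert.1 hw with rfl | hw
    · exact ⟨p0, hvp0, hpK.elim Or.inr (fun h => Or.inl (hq.KC p0 h).1)⟩
    · exact hq.i3 w hw
  · intro w hw hθ
    have hwv : w ≠ v := by rintro rfl; exact hvC hw
    have hθ' : q.c.θ w = w0 := by rw [← thold w hwv]; exact hθ
    exact hq.i4 w hw hθ'

private theorem InvO_alg {W T : ℕ} {w0 : ℝ} (D : Finset V) (hD : TT W T \ Sd W T ⊆ D) :
    IsAlg D JS.c (InvO W T w0) (nxtO W T w0) (updO W T w0) where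
  mem := by
    intro q v th hq h
    obtain ⟨hv, _⟩ := nxtO_some h
    obtain ⟨_, h2, h3, _⟩ := mem_candO.1 hv
    exact ⟨hD (cand_in' hv).1, h2, h3⟩
  cell_upd := by
    intro q v th b hq h
    obtain ⟨hv, hth⟩ := nxtO_some h
    subst hth
    unfold updO
    cases b <;> simp
  pres := by
    intro q v th b hq h
    obtain ⟨hv, hth⟩ := nxtO_some h
    cases b
    · exact InvO_pres_false hq hv
    · exact InvO_pres_true hq hv

/-- the invariant together with monotonicity from a fixed start -/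
private theorem InvO_alg2 {W T : ℕ} {w0 : ℝ} (A0 : Finset V) :
    IsAlg (TT W T) JS.c (fun q => InvO W T w0 q ∧ A0 ⊆ q.A) (nxtO W T w0) (updO W T w0) where
  mem := fun q v th hq h => (InvO_alg (TT W T) Finset.sdiff_subset).mem q v th hq.1 h
  cell_upd := fun q v th b hq h => (InvO_alg (TT W T) Finset.sdiff_subset).cell_upd q v th b hq.1 h
  pres := by
    classical
    intro q v th b hq h
    refine ⟨(InvO_alg (TT W T) Finset.sdiff_subset).pres q v th b hq.1 h, ?_⟩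
    obtain ⟨hv, hth⟩ := nxtO_some h
    cases b
    · rw [updO_false]
      have hins : insert v q.A ⊆ TT W T \ Sd W T := JF_insert_in hq.1.sub (cand_in' hv).1
      exact hq.2.trans ((Finset.subset_insert _ _).trans (JF_sub_fl (JF_sub_TT hins)))
    · rw [updO_true]; exact hq.2

private theorem okTT' {W T : ℕ} {w0 : ℝ} {q : JS} (hq : GoodC W T w0 q) : Cell.Ok q.c (TT W T) :=
  ⟨hq.revC.trans (JF_sub_TT hq.sub), hq.revO.trans (JF_sub_TT hq.sub), hq.dis⟩

private theorem run_facts' {W T : ℕ} {w0 : ℝ} {q : JS} (hq : GoodC W T w0 q) (X : V → ℝ) :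
    InvO W T w0 (runA (nxtO W T w0) (updO W T w0) (TT W T).card q X) ∧
    q.A ⊆ (runA (nxtO W T w0) (updO W T w0) (TT W T).card q X).A ∧
    (∀ v, v ∉ candO W T (runA (nxtO W T w0) (updO W T w0) (TT W T).card q X)) ∧
    (runA (nxtO W T w0) (updO W T w0) (TT W T).card q X).c.S ⊆ q.c.S := by
  have hA := InvO_alg2 (W := W) (T := T) (w0 := w0) q.A
  have hP : InvO W T w0 q ∧ q.A ⊆ q.A := ⟨InvO_of_GoodC hq, Finset.Subset.refl _⟩
  have h1 := runA_pres hA (q := q) hP (TT W T).card X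
  exact ⟨h1.1, h1.2, nxtO_none (runA_stop hA hP (okTT' hq) _ le_rfl X),
    (runA_subset hA hP (TT W T).card X).1⟩

/-- the set before the last filling -/
private theorem end_sub' {W T : ℕ} {w0 : ℝ} {q : JS} (hq : InvO W T w0 q) :
    q.A ∪ (PO W T q.A \ Sd W T) ⊆ TT W T \ Sd W T := by
  intro v hv
  rcases Finset.mem_union.1 hv with h | h
  · exact hq.sub h
  · obtain ⟨h1, h2⟩ := Finset.mem_sdiff.1 h
    exact Finset.mem_sdiff.2 ⟨(JF_Top_sub (JF_mem_PO.1 h1).1).1, h2⟩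

private theorem end_conn' {W T : ℕ} {w0 : ℝ} {q : JS} (hq : InvO W T w0 q) :
    IsConn nn ((q.A ∪ (PO W T q.A \ Sd W T) : Finset V) : Set V) := by
  obtain ⟨B, hB⟩ : ∃ B : Finset V, B = q.A ∪ (PO W T q.A \ Sd W T) := ⟨_, rfl⟩
  rw [← hB]
  have hAB : ∀ v ∈ (q.A : Set V), v ∈ (B : Set V) := fun v hv => by
    rw [hB]; exact Finset.mem_coe.2 (Finset.mem_union_left _ hv)
  have hBA : ∀ v ∈ (B : Set V), ∃ a ∈ q.A, ConnIn nn (B : Set V) v a := by
    intro v hv
    have hv' := hv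
    rw [hB] at hv'
    rcases Finset.mem_union.1 (Finset.mem_coe.1 hv') with h | h
    · exact ⟨v, h, TT.conn_refl hv⟩
    · obtain ⟨h1, h2⟩ := Finset.mem_sdiff.1 h
      obtain ⟨_, a, ha, hva⟩ := JF_mem_PO.1 h1
      exact ⟨a, ha, TT.conn_single hv (hAB a ha) hva⟩
  intro u hu v hv
  obtain ⟨a, ha, h1⟩ := hBA u hu
  obtain ⟨b, hb, h2⟩ := hBA v hv
  exact TT.conn_trans h1 (TT.conn_trans (TT.conn_mono hAB (hq.conn a ha b hb)) (TT.conn_symm TT.nn_symm' h2))

/-- the frontier is star connected (T3_star) -/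
private theorem PO_conn {W T : ℕ} {A : Finset V} (hA : A ⊆ TT W T) (hc : IsConn nn (A : Set V)) :
    IsConn st (PO W T A : Set V) := by
  have h := T3_star (A := (A : Set V)) (a := 0) (b := W) (c := 0) (d := T + 1)
    (fun v hv => Finset.mem_coe.2 (hA (Finset.mem_coe.1 hv))) hc (s0 T)
  have he : (PO W T A : Set V) = {v | v ∈ comp st ((Rc 0 W 0 (T + 1) : Set V) \ (A : Set V)) (s0 T) ∧
      ∃ u ∈ (A : Set V), nn v u} := by
    ext v
    constructor
    · intro hv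
      obtain ⟨h1, h2⟩ := JF_mem_PO.1 (Finset.mem_coe.1 hv)
      exact ⟨JF_mem_Top.1 h1, h2⟩
    · rintro ⟨h1, h2⟩
      exact Finset.mem_coe.2 (JF_mem_PO.2 ⟨JF_mem_Top.2 h1, h2⟩)
  rw [he]; exact h

/-- when there is no candidate left, the whole frontier is revealed closed or lies on the sides -/
private theorem PO_all {W T : ℕ} (hW : 3 ≤ W) {w0 : ℝ} {q : JS} (hq : InvO W T w0 q)
    (hcand : ∀ v, v ∉ candO W T q) : ∀ v ∈ PO W T q.A, v ∈ Sd W T ∨ v ∈ q.K := by
  have hAT := JF_sub_TT hq.sub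
  have hcorner : ((0, 0) : V) ∈ Sd W T := by
    rw [JF_mem_Sd]
    refine ⟨JF_mem_TT.2 ⟨le_refl _, ?_, le_refl _, ?_⟩, Or.inl rfl⟩
    · show (0 : ℤ) ≤ W
      omega
    · show (0 : ℤ) ≤ T + 1
      omega
  have hPc : ((0, 0) : V) ∈ PO W T q.A := by
    refine JF_mem_PO.2 ⟨JF_Sd_Top JFadj_st hq.sub hcorner, (1, 0), hq.row ?_, ?_⟩
    · refine JF_row0.2 ⟨le_refl _, ?_, rfl⟩
      show (1 : ℤ) ≤ W - 1
      omega
    · unfold nn
      simp
  intro v hv
  have h := PO_conn hAT hq.conn (0, 0) hPc v hv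
  refine TT.conn_induction (Q := fun v => v ∈ Sd W T ∨ v ∈ q.K) h (Or.inl hcorner) ?_
  intro u w hu hw huw hQ
  by_cases hwS : w ∈ Sd W T
  · exact Or.inl hwS
  · right
    have hwA : w ∉ q.A := (JF_Top_sub (JF_mem_PO.1 hw).1).2
    by_contra hwK
    refine hcand w (mem_candO.2 ⟨⟨hw, hwS⟩, ?_, fun h => hwA (hq.revO h), u, hu, TT.st_comm.1 huw, hQ⟩)
    intro hwC
    rcases hq.revC w hwC with h | h
    · exact hwA h
    · exact hwK h.2.2

private theorem Sd_neighbour {W T : ℕ} (hW : 3 ≤ W) {v : V} (hv : v ∈ Sd W T) :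
    ∃ p ∈ Sd W T, st v p := by
  obtain ⟨x, y⟩ := v
  rw [JF_mem_Sd, JF_mem_TT] at hv
  obtain ⟨⟨h1, h2, h3, h4⟩, h5⟩ := hv
  simp only at h1 h2 h3 h4 h5
  by_cases hx : x = 0 ∨ x = W
  · by_cases hy : y ≤ T
    · refine ⟨(x, y + 1), JF_mem_Sd.2 ⟨JF_mem_TT.2 ⟨h1, h2, ?_, ?_⟩, ?_⟩, ?_⟩
      · show 0 ≤ y + 1
        omega
      · show y + 1 ≤ T + 1
        omega
      · exact hx.imp id (fun h => Or.inl h)
      · exact TT.st_of_nn (by unfold nn; simp)
    · refine ⟨(x, y - 1), JF_mem_Sd.2 ⟨JF_mem_TT.2 ⟨h1, h2, ?_, ?_⟩, ?_⟩, ?_⟩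
      · show 0 ≤ y - 1
        omega
      · show y - 1 ≤ T + 1
        omega
      · exact hx.imp id (fun h => Or.inl h)
      · exact TT.st_of_nn (by unfold nn; simp)
  · push Not at hx
    have hy : y = T + 1 := by
      rcases h5 with h | h | h
      · exact absurd h hx.1
      · exact absurd h hx.2
      · exact h
    refine ⟨(x + 1, y), JF_mem_Sd.2 ⟨JF_mem_TT.2 ⟨?_, ?_, h3, h4⟩, ?_⟩, ?_⟩
    · show 0 ≤ x + 1
      omega
    · show x + 1 ≤ W
      have := hx.2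
      omega
    · exact Or.inr (Or.inr hy)
    · exact TT.st_of_nn (by unfold nn; simp)

theorem stageO_good {W T : ℕ} (hW : 3 ≤ W) (hT : 1 ≤ T) {w0 : ℝ} (h0 : 0 < w0) {q : JS} (hq : GoodC W T w0 q) (X : V → ℝ) :
    GoodO W T w0 (stgO W T w0 q X) := by
  obtain ⟨hI, _, hcand, _⟩ := run_facts' hq X
  unfold stgO
  obtain ⟨r, hr⟩ : ∃ r : JS, r = runA (nxtO W T w0) (updO W T w0) (TT W T).card q X := ⟨_, rfl⟩
  rw [← hr] at hI hcand ⊢
  have hall := PO_all hW hI hcand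
  obtain ⟨B, hB⟩ : ∃ B : Finset V, B = r.A ∪ (PO W T r.A \ Sd W T) := ⟨_, rfl⟩
  have hBin : B ⊆ TT W T \ Sd W T := by rw [hB]; exact end_sub' hI
  have hBT := JF_sub_TT hBin
  have hAB : r.A ⊆ B := by rw [hB]; exact Finset.subset_union_left
  have hAfl : r.A ⊆ fl nn W T B := hAB.trans (JF_sub_fl hBT)
  have hend : endO W T r = ⟨r.c, fl nn W T B, ∅⟩ := by unfold endO; rw [hB]
  rw [hend]
  have hne : B.Nonempty := (row0_nonempty' hW).mono (hI.row.trans hAB)
  -- a vertex of TT outside A next to A is in PO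
  have hPO : ∀ y ∈ TT W T, y ∉ r.A → ∀ a ∈ r.A, nn y a → y ∈ PO W T r.A := fun y hy hyA a ha hya =>
    JF_mem_PO.2 ⟨JF_mem_Top_of_fill hI.fill hy hyA, a, ha, hya⟩
  refine ⟨⟨JF_fl_in JFadj_nn hBin, hI.row.trans hAfl, ?_, ?_, hI.revO.trans hAfl, hI.up, hI.dis, hI.thr, rfl,
    hI.i3, hI.i4⟩, JF_fl_fl hBT, ?_, ?_⟩
  · exact JF_fl_conn JFadj_nn JFadj_nn hBT hne (by rw [hB]; exact end_conn' hI)
  · intro v hv
    rcases hI.revC v hv with h | ⟨h1, h2, _⟩
    · exact hAfl h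
    · exact JF_sub_fl hBT (by rw [hB]; exact Finset.mem_union_right _ (Finset.mem_sdiff.2 ⟨h1, h2⟩))
  · intro v hv y hy hyA hyS hvy
    change v ∈ fl nn W T B at hv
    change y ∉ fl nn W T B at hyA
    change v ∈ r.c.C ∧ r.c.θ v = w0
    have hyB : y ∉ B := fun h => hyA (JF_sub_fl hBT h)
    have hyT : y ∈ Top nn W T B := by
      by_contra h
      exact hyA (JF_mem_fl.2 ⟨hy, h⟩)
    have hvB : v ∈ B := by
      by_contra hvB
      exact (JF_mem_fl.1 hv).2 (JF_Top_step hyT (JF_mem_fl.1 hv).1 hvB (TT.nn_comm.1 hvy))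
    have hvA : v ∉ r.A := by
      intro hvA
      apply hyB
      rw [hB]
      exact Finset.mem_union_right _ (Finset.mem_sdiff.2
        ⟨hPO y hy (fun h => hyB (hAB h)) v hvA (TT.nn_comm.1 hvy), hyS⟩)
    rw [hB] at hvB
    rcases Finset.mem_union.1 hvB with h | h
    · exact absurd h hvA
    · obtain ⟨h1, h2⟩ := Finset.mem_sdiff.1 h
      exact hI.KC v ((hall v h1).resolve_left h2)
  · rintro v hv ⟨a, ha, hva⟩
    change v ∈ Top nn W T (fl nn W T B) at hv
    change a ∈ fl nn W T B at ha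
    change ∃ p, st v p ∧ (p ∈ r.c.C ∨ p ∈ Sd W T)
    have hvT : v ∈ Top nn W T B := by
      have := JF_Top_fl (adj := nn) hBT
      rw [← this]; exact hv
    obtain ⟨hvTT, hvB⟩ := JF_Top_sub hvT
    obtain ⟨b, hb, hvb⟩ := JF_adj_fl hvT ha hva
    -- if v is next to A then v is on a side
    have hcase : ∀ a ∈ r.A, nn v a → ∃ p, st v p ∧ (p ∈ r.c.C ∨ p ∈ Sd W T) := by
      intro a ha hva
      have hvP := hPO v hvTT (fun h => hvB (hAB h)) a ha hva
      have hvS : v ∈ Sd W T := by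
        by_contra hvS
        apply hvB
        rw [hB]
        exact Finset.mem_union_right _ (Finset.mem_sdiff.2 ⟨hvP, hvS⟩)
      obtain ⟨p, hp, hvp⟩ := Sd_neighbour hW hvS
      exact ⟨p, hvp, Or.inr hp⟩
    have hb' := hb
    rw [hB] at hb'
    rcases Finset.mem_union.1 hb' with h | h
    · by_cases hnn : nn v b
      · exact hcase b h hnn
      · obtain ⟨h1, h2, _, _⟩ := JF_diag hvb hnn
        obtain ⟨w, hw⟩ : ∃ w : V, w = (v.1, b.2) := ⟨_, rfl⟩
        rw [← hw] at h1 h2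
        by_cases hwA : w ∈ r.A
        · exact hcase w hwA h1
        · have hwT : w ∈ TT W T := by
            rw [hw]; exact JF_corner_TT hvTT (JF_sub_TT hI.sub h)
          have hwP := hPO w hwT hwA b h (TT.nn_comm.1 h2)
          rcases hall w hwP with hS | hK
          · exact ⟨w, TT.st_of_nn h1, Or.inr hS⟩
          · exact ⟨w, TT.st_of_nn h1, Or.inl (hI.KC w hK).1⟩
    · obtain ⟨h1, h2⟩ := Finset.mem_sdiff.1 h
      exact ⟨b, hvb, Or.inl (hI.KC b ((hall b h1).resolve_left h2)).1⟩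

theorem stageO_mono {W T : ℕ} (hW : 3 ≤ W) (hT : 1 ≤ T) {w0 : ℝ} (h0 : 0 < w0) {q : JS} (hq : GoodC W T w0 q) (X : V → ℝ) :
    q.A ⊆ (stgO W T w0 q X).A ∧ (stgO W T w0 q X).c.S ⊆ q.c.S := by
  obtain ⟨hI, hsub, _, hS⟩ := run_facts' hq X
  refine ⟨?_, hS⟩
  have h1 := JF_sub_fl (adj := nn) (JF_sub_TT (end_sub' hI))
  exact hsub.trans ((Finset.subset_union_left).trans h1)

theorem stageO_exp {W T B : ℕ} (hW : 3 ≤ W) (hT : 1 ≤ T) {w0 : ℝ} (h0 : 0 < w0) {s : (V → ℝ) → JS}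
    (hs : IsExp (DJ W T B) s JS.c) (hq : ∀ X, GoodC W T w0 (s X)) :
    IsExp (DJ W T B) (fun X => stgO W T w0 (s X) X) JS.c := by
  have hD : TT W T \ Sd W T ⊆ DJ W T B := by
    intro v hv
    rw [JF_mem_in] at hv
    unfold DJ
    rw [TT.mem_Rc]
    refine ⟨hv.1, hv.2.1, ?_, hv.2.2.2⟩
    have : (0 : ℤ) ≤ (B : ℤ) := Int.natCast_nonneg B
    linarith [hv.2.2.1]
  have h1 := IsExp.run hs (InvO_alg _ hD) (fun X => InvO_of_GoodC (hq X)) (TT W T).card
  exact IsExp.map h1 (endO W T) JS.c (fun X => rfl)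

end GF
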