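import Pool.Agent.Lib.MP_acf58e_gf.JK
import Pool.Agent.Lib.MP_acf58e_gf.Mrc
import Pool.Agent.Lib.MP_acf58e_gf.G5
import Pool.Agent.Lib.MP_acf58e_gf.M1
/-! THEOREM J -/
open MeasureTheory Set ProbabilityTheory
open scoped ENNReal
namespace GF

/-- start heights are distinct: no long alternating sequence in a small rectangle -/
theorem Alt_bound {e n : ℕ} {t0 t1 : ℝ} {a b c d : ℤ} {X : V → ℝ} (h : Alt e n t0 t1 a b c d X) :
    (n : ℤ) ≤ max 0 (d - c + 1) := by
  obtain ⟨h, len, p, h1, h2, h3, h4⟩ := h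
  rcases Nat.eq_zero_or_pos n with hn | hn
  · subst hn
    exact le_max_left _ _
  have hr : ∀ j < n, c ≤ h j ∧ h j ≤ d := by
    intro j hj
    have key : ∀ (adj : V → V → Prop) (A : Set V), IsLR adj a b c d A (h j) (len j) (p j) → c ≤ h j ∧ h j ≤ d := by
      intro adj A hl
      have h5 := (hl.2.2.1 0 (Nat.zero_le _)).2
      rw [hl.1] at h5
      unfold Rc at h5
      rw [Finset.mem_Icc, Prod.le_def, Prod.le_def] at h5
      exact ⟨h5.1.2, h5.2.2⟩
    rcases Nat.mod_two_eq_zero_or_one (j + e) with hp | hp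
    · exact key _ _ (h1 j hj hp)
    · exact key _ _ (h2 j hj hp)
  have hlin : ∀ j, j < n → h 0 + j ≤ h j := by
    intro j
    induction j with
    | zero => intro _; simp
    | succ j ih =>
      intro hj
      have h5 := ih (by omega)
      have h6 := h3 j hj
      push_cast
      omega
  obtain ⟨m, rfl⟩ := Nat.exists_eq_succ_of_ne_zero (Nat.pos_iff_ne_zero.1 hn)
  have h5 := hlin m (by omega)
  have h6 := (hr 0 hn).1
  have h7 := (hr m (by omega)).2
  refine le_trans ?_ (le_max_right _ _)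
  push_cast
  omega

private theorem jt_nn (x y v : V) : nn (x + v) (y + v) ↔ nn x y := by
  unfold nn
  simp

private theorem jt_st (x y v : V) : st (x + v) (y + v) ↔ st x y := by
  unfold st dI
  simp

private theorem jt_Rc {a b c d : ℤ} {x v : V} (h : x ∈ Rc a b c d) :
    x + v ∈ Rc (a + v.1) (b + v.1) (c + v.2) (d + v.2) := by
  unfold Rc at *
  rw [Finset.mem_Icc, Prod.le_def, Prod.le_def] at *
  obtain ⟨⟨h1, h2⟩, h3, h4⟩ := h
  simp only [Prod.fst_add, Prod.snd_add] at *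
  exact ⟨⟨by linarith, by linarith⟩, by linarith, by linarith⟩

private theorem jt_lr {adj : V → V → Prop} (hadj : ∀ x y v, adj (x + v) (y + v) ↔ adj x y) {a b c d : ℤ}
    {A A' : Set V} {h : ℤ} {n : ℕ} {p : ℕ → V} (v : V) (hA : ∀ x ∈ A, x + v ∈ A')
    (hl : IsLR adj a b c d A h n p) :
    IsLR adj (a + v.1) (b + v.1) (c + v.2) (d + v.2) A' (h + v.2) n (fun i => p i + v) := by
  obtain ⟨h1, h2, h3, h4, h5⟩ := hl
  refine ⟨?_, ?_, ?_, ?_, ?_⟩
  · show p 0 + v = (a + v.1, h + v.2)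
    rw [h1]
    rfl
  · show (p n + v).1 = b + v.1
    rw [Prod.fst_add, h2]
  · intro i hi
    exact ⟨hA _ (h3 i hi).1, jt_Rc (h3 i hi).2⟩
  · intro i hi
    exact (hadj _ _ _).2 (h4 i hi)
  · intro i hi hi'
    have h6 := h5 i hi hi'
    show a + v.1 < (p i + v).1 ∧ (p i + v).1 < b + v.1
    rw [Prod.fst_add]
    exact ⟨by linarith, by linarith⟩

private theorem jt_alt {e n : ℕ} {t0 t1 : ℝ} {a b c d : ℤ} {X : V → ℝ} (h : Alt e n t0 t1 a b c d X) (v : V) (t : ℝ) :
    Alt e n (t0 - t) (t1 - t) (a + v.1) (b + v.1) (c + v.2) (d + v.2) (fun x => X (x - v) + -t) := by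
  obtain ⟨h, len, p, h1, h2, h3, h4⟩ := h
  refine ⟨fun j => h j + v.2, len, fun j i => p j i + v, ?_, ?_, ?_, ?_⟩
  · intro j hj hp
    refine jt_lr jt_st v ?_ (h1 j hj hp)
    intro x hx
    have h5 : X x < t1 := hx
    show X (x + v - v) + -t < t1 - t
    rw [add_sub_cancel_right]
    linarith
  · intro j hj hp
    refine jt_lr jt_nn v ?_ (h2 j hj hp)
    intro x hx
    have h5 : t0 ≤ X x := hx
    show t0 - t ≤ X (x + v - v) + -t
    rw [add_sub_cancel_right]
    linarith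
  · intro j hj
    have h6 := h3 j hj
    show h j + v.2 < h (j + 1) + v.2
    linarith
  · intro j hj i hi i' hi' heq
    exact h4 j hj i hi i' hi' (add_right_cancel heq)

theorem J_theorem (hR : RCProp) : ∃ w0 : ℝ, 0 < w0 ∧ w0 ≤ 1 ∧ JProp w0 := by
  classical
  obtain ⟨w0, hw0, hw1, hV⟩ := vis_bound
  refine ⟨w0, hw0, hw1, ?_⟩
  intro A ε hε
  obtain ⟨C1, hC1, hminus⟩ := rc_minus hR A
  obtain ⟨C2, hC2, hstar⟩ := rc_star hR A
  set e : ℝ := (min ε 1).toReal with he
  have hmin : min ε 1 ≠ ⊤ := ne_top_of_le_ne_top ENNReal.one_ne_top (min_le_right _ _)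
  have he0 : 0 < e := ENNReal.toReal_pos (lt_min hε one_pos).ne' hmin
  have hee : ENNReal.ofReal e ≤ ε := by
    rw [he, ENNReal.ofReal_toReal hmin]
    exact min_le_left _ _
  set a' : ℝ := 1 + (C1 + C2) / e with ha'
  have ha1 : 1 ≤ a' := by
    have : 0 ≤ (C1 + C2) / e := by positivity
    linarith
  have hdiv : ∀ C, 0 < C → C ≤ C1 + C2 → ENNReal.ofReal (C / a') ≤ ε := by
    intro C hC hC'
    refine le_trans (ENNReal.ofReal_le_ofReal ?_) hee
    rw [div_le_iff₀ (by linarith)]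
    have h1 : e * ((C1 + C2) / e) = C1 + C2 := by field_simp
    rw [ha', mul_add, h1]
    linarith
  set K1 : ℝ := a' + 1 with hK1
  obtain ⟨n1, r1, hJK⟩ := JK hw0 hw1 hV (A + 2) K1 (by linarith) ε hε
  refine ⟨max 2 (max n1 (A * r1 + 2)), ?_⟩
  intro r hr D z t a x0 y0 W H hW1 hW2 hH1 hH2 hDz hsub
  have hn2 : 2 ≤ max 2 (max n1 (A * r1 + 2)) := le_max_left _ _
  have hn1 : n1 ≤ max 2 (max n1 (A * r1 + 2)) := (le_max_left _ _).trans (le_max_right _ _)
  have hn3 : A * r1 + 2 ≤ max 2 (max n1 (A * r1 + 2)) := (le_max_right _ _).trans (le_max_right _ _)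
  set n := max 2 (max n1 (A * r1 + 2)) with hn
  have hWz : (0 : ℤ) ≤ W := Int.natCast_nonneg W
  have hHz : (0 : ℤ) ≤ H := Int.natCast_nonneg H
  have hrz : (1 : ℤ) ≤ r := by exact_mod_cast hr
  have hsub' : Rc (x0 - 8) (x0 + W + 8) (y0 - r - 8) (y0 + H + r + 8) ⊆ D := by
    refine Finset.Subset.trans ?_ hsub
    intro g hg
    unfold Rc at hg ⊢
    rw [Finset.mem_Icc, Prod.le_def, Prod.le_def] at hg ⊢
    obtain ⟨⟨g1, g2⟩, g3, g4⟩ := hg
    simp only at g1 g2 g3 g4 ⊢
    exact ⟨⟨g1, by linarith⟩, g3, by linarith⟩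
  rcases lt_or_ge r r1 with hrr | hrr
  · -- small r
    have hemp : {X | Alt 0 n t (t + w0) x0 (x0 + W) y0 (y0 + H) X} = ∅ := by
      ext X
      simp only [Set.mem_ofPred_eq, mem_empty_iff_false, iff_false]
      intro hX
      have h1 := Alt_bound hX
      have h2 : max 0 (y0 + (H : ℤ) - y0 + 1) = (H : ℤ) + 1 := by
        rw [max_eq_right (by linarith)]
        ring
      rw [h2] at h1
      have h3 : n ≤ H + 1 := by exact_mod_cast h1
      have h4 : A * r ≤ A * r1 := Nat.mul_le_mul_left _ hrr.le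
      omega
    rw [hemp, measure_empty]
    exact zero_le
  rcases le_or_gt |a - t| K1 with hat | hat
  · -- bounded mean
    set v : V := (1 - x0, 1 - y0) with hv
    set f : (V → ℝ) → (V → ℝ) := fun X x => X (x - v) + -t with hf
    have hfm : Measurable f := measurable_pi_lambda _ fun x => (measurable_pi_apply _).add_const _
    set D' := D.image (fun x => x + v) with hD'
    have hmap : gam D' (fun _ => a - t) = (gam D (fun _ => a)).map f := by
      have h1 := gam_add_const D (fun _ => a) (-t)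
      have h2 := gam_trans D (fun _ => a + -t) v
      rw [h1, Measure.map_map] at h2
      · rw [hD', sub_eq_add_neg, h2]
        rfl
      · exact measurable_pi_lambda _ fun x => measurable_pi_apply _
      · exact measurable_pi_lambda _ fun x => (measurable_pi_apply _).add_const _
    have hincl : {X | Alt 0 n t (t + w0) x0 (x0 + W) y0 (y0 + H) X} ⊆
        f ⁻¹' {Y | Alt 0 n1 0 w0 1 (((W + 2 : ℕ) : ℤ) - 1) 1 ((H + 1 : ℕ) : ℤ) Y} := by
      intro X hX
      have h1 := jt_alt (Alt.mono hX hn1) v t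
      have e1 : t - t = 0 := sub_self t
      have e2 : t + w0 - t = w0 := by ring
      have e3 : x0 + v.1 = 1 := by rw [hv]; ring
      have e4 : x0 + (W : ℤ) + v.1 = ((W + 2 : ℕ) : ℤ) - 1 := by rw [hv]; push_cast; ring
      have e5 : y0 + v.2 = 1 := by rw [hv]; ring
      have e6 : y0 + (H : ℤ) + v.2 = ((H + 1 : ℕ) : ℤ) := by rw [hv]; push_cast; ring
      rw [e1, e2, e3, e4, e5, e6] at h1
      exact h1
    refine (measure_mono hincl).trans ((Measure.le_map_apply hfm.aemeasurable _).trans ?_)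
    rw [← hmap]
    refine hJK r (W + 2) (H + 1) hrr (by omega) ?_ (by omega) ?_ D' (z + v) ?_ ?_ (a - t) hat
    · have : (A + 2) * r = A * r + 2 * r := by ring
      omega
    · have : (A + 2) * r = A * r + 2 * r := by ring
      omega
    · intro u hu
      refine Finset.mem_image.2 ⟨u - v, hsub ?_, sub_add_cancel u v⟩
      unfold Rc at hu ⊢
      rw [Finset.mem_Icc, Prod.le_def, Prod.le_def] at hu ⊢
      obtain ⟨⟨g1, g2⟩, g3, g4⟩ := hu
      push_cast at g1 g2 g3 g4
      simp only [Prod.fst_sub, Prod.snd_sub, hv] at g1 g2 g3 g4 ⊢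
      refine ⟨⟨?_, ?_⟩, ?_, ?_⟩ <;> linarith
    · intro u hu
      obtain ⟨x, hx, rfl⟩ := Finset.mem_image.1 hu
      have h1 := hDz hx
      unfold Q at h1 ⊢
      rw [Finset.mem_Icc, Prod.le_def, Prod.le_def] at h1 ⊢
      obtain ⟨⟨g1, g2⟩, g3, g4⟩ := h1
      push_cast
      simp only [Prod.fst_add, Prod.snd_add] at g1 g2 g3 g4 ⊢
      refine ⟨⟨?_, ?_⟩, ?_, ?_⟩ <;> nlinarith
  · -- large mean
    rcases lt_abs.1 hat with h1 | h1
    · have hstar' := hstar r hr D z (t + w0) a' a x0 y0 W H hW1 hW2 hH1 hH2 hDz hsub' ha1 (by linarith)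
      refine le_trans (measure_mono ?_) (hstar'.trans (hdiv C2 hC2 (by linarith)))
      rintro X ⟨h, len, p, h2, -, -, -⟩
      exact ⟨h 0, len 0, p 0, h2 0 (by omega) rfl⟩
    · have hminus' := hminus r hr D z t a' a x0 y0 W H hW1 hW2 hH1 hH2 hDz hsub' ha1 (by linarith)
      refine le_trans (measure_mono ?_) (hminus'.trans (hdiv C1 hC1 (by linarith)))
      rintro X ⟨h, len, p, -, h2, -, -⟩
      exact ⟨h 1, len 1, p 1, h2 1 (by omega) rfl⟩

end GF
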