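import Pool.Agent.Lib.MP_acf58e_gf.X2
import Pool.Agent.Lib.MP_acf58e_gf.P6b

open MeasureTheory Set ProbabilityTheory
open scoped ENNReal

namespace GF

private theorem x4m_hx_meas (D : Finset V) (v : V) : Measurable (fun β : V → ℝ => hx D β v) := by
  by_cases h : v ∈ D
  · have e : (fun β : V → ℝ => hx D β v) = fun β => ∑ y ∈ bd D, hm D v y * β y := by
      funext β
      exact hx_eq_sum h β
    rw [e]
    exact Finset.measurable_sum _ (fun y _ => (measurable_pi_apply y).const_mul _)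
  · have e : (fun β : V → ℝ => hx D β v) = fun β => β v := by
      funext β
      exact hx_off h
    rw [e]
    exact measurable_pi_apply v

private theorem x4m_hx_congr {D : Finset V} {β β' : V → ℝ} (h : ∀ x ∉ D, β x = β' x) (v : V) :
    hx D β v = hx D β' v :=
  le_antisymm (hx_mono (fun x hx => (h x hx).le) v) (hx_mono (fun x hx => (h x hx).ge) v)

private theorem x4m_meas {D : Finset V} {σ : Type} {s : (V → ℝ) → σ} {cell : σ → Cell}
    (hs : IsExp D s cell) :
    Measurable (fun p : (V → ℝ) × (V → ℝ) =>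
      ⨆ v ∈ D, ENNReal.ofReal |cm D p.1 (cell (s p.2)) v - hx D p.1 v|) := by
  classical
  have e : (fun p : (V → ℝ) × (V → ℝ) =>
      ⨆ v ∈ D, ENNReal.ofReal |cm D p.1 (cell (s p.2)) v - hx D p.1 v|) =
      fun p => ∑ q ∈ hs.1.toFinset, if s p.2 = q then
        (⨆ v ∈ D, ENNReal.ofReal |cm D p.1 (cell q) v - hx D p.1 v|) else 0 := by
    funext p
    rw [Finset.sum_ite_eq, if_pos]
    rw [Set.Finite.mem_toFinset]
    exact ⟨p.2, rfl⟩
  rw [e]
  refine Finset.measurable_sum _ (fun q hq => ?_)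
  refine Measurable.ite ?_ ?_ measurable_const
  · have hq' : q ∈ range s := (Set.Finite.mem_toFinset hs.1).1 hq
    obtain ⟨X0, rfl⟩ := hq'
    have e2 : {Y : V → ℝ | s Y = s X0} = (cell (s X0)).S := by
      ext Y
      constructor
      · intro hY
        have hY' : s Y = s X0 := hY
        rw [← hY']
        exact hs.2.2.1 Y
      · intro hY
        exact hs.2.2.2 X0 Y hY
    have e3 : {p : (V → ℝ) × (V → ℝ) | s p.2 = s X0} = Prod.snd ⁻¹' (cell (s X0)).S := by
      rw [← e2]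
      rfl
    rw [e3]
    exact measurable_snd (Cell.meas _)
  · refine Measurable.biSup _ (D.countable_toSet) (fun v _ => ?_)
    have h1 : Measurable (fun p : (V → ℝ) × (V → ℝ) => cm D p.1 (cell q) v) :=
      (cm_meas D (cell q) v).comp measurable_fst
    have h2 : Measurable (fun p : (V → ℝ) × (V → ℝ) => hx D p.1 v) :=
      (x4m_hx_meas D v).comp measurable_fst
    exact ENNReal.measurable_ofReal.comp ((h1.sub h2).abs)

private theorem x4m_log (A : ℕ) (r : ℕ) (hr : 1 ≤ r) :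
    Real.log ((((A : ℤ) + 1) * (r : ℤ) : ℤ) + 2) ≤
      (Real.log (A + 3) / Real.log 2 + 1) * Real.log (r + 1) := by
  have hr' : (1 : ℝ) ≤ r := by exact_mod_cast hr
  have hA : (0 : ℝ) ≤ A := Nat.cast_nonneg A
  have h1 : ((((A : ℤ) + 1) * (r : ℤ) : ℤ) : ℝ) + 2 ≤ (A + 3) * (r + 1) := by
    push_cast
    nlinarith
  have h0 : (0 : ℝ) < ((((A : ℤ) + 1) * (r : ℤ) : ℤ) : ℝ) + 2 := by
    push_cast
    positivity
  have h2 := Real.log_le_log h0 h1
  rw [Real.log_mul (by positivity) (by positivity)] at h2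
  have h3 : 0 < Real.log 2 := Real.log_pos (by norm_num)
  have h4 : Real.log 2 ≤ Real.log ((r : ℝ) + 1) := Real.log_le_log (by norm_num) (by linarith)
  have h5 : 0 ≤ Real.log ((A : ℝ) + 3) := Real.log_nonneg (by linarith)
  have h6 : Real.log ((A : ℝ) + 3) ≤ Real.log (A + 3) / Real.log 2 * Real.log (r + 1) := by
    rw [div_mul_eq_mul_div, le_div_iff₀ h3]
    exact mul_le_mul_of_nonneg_left h4 h5
  linarith

/-- crude bound -/
theorem X4M (A : ℕ) : ∃ C : ℝ, 0 < C ∧ ∀ (r : ℕ), 1 ≤ r → ∀ (D Damb : Finset V) (z : V), D ⊆ Damb →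
    Damb ⊆ Q z (A * r) → ∀ (mu : ℝ) {σ : Type} (s : (V → ℝ) → σ) (cell : σ → Cell), IsExp D s cell →
    ∫⁻ X, (⨆ v ∈ D, ENNReal.ofReal |cm D X (cell (s X)) v - hx D X v|) ∂(gam Damb (fun _ => mu)) ≤
      ENNReal.ofReal (C * Real.log (r + 1)) := by
  obtain ⟨C, hC, hsup⟩ := sup_mean
  have hA5 : 0 ≤ Real.log ((A : ℝ) + 3) / Real.log 2 := by
    have h3 : 0 < Real.log 2 := Real.log_pos (by norm_num)
    have hA : (0 : ℝ) ≤ A := Nat.cast_nonneg A
    exact div_nonneg (Real.log_nonneg (by linarith)) h3.le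
  refine ⟨C * (Real.log (A + 3) / Real.log 2 + 1), by positivity, ?_⟩
  intro r hr D Damb z hD hQ mu σ s cell hs
  have hDQ : D ⊆ Q z ((A + 1) * r) := by
    intro x hx
    have h1 := hQ (hD hx)
    simp only [Q, Finset.mem_Icc, Prod.le_def] at h1 ⊢
    obtain ⟨⟨h2, h3⟩, h4, h5⟩ := h1
    have h6 : (A : ℤ) * r ≤ (A + 1) * r := by nlinarith
    refine ⟨⟨by linarith, by linarith⟩, by linarith, by linarith⟩
  have hN1 : (1 : ℤ) ≤ ((A : ℤ) + 1) * r := by
    have : (1 : ℤ) ≤ r := by exact_mod_cast hr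
    nlinarith [Int.natCast_nonneg A]
  have hmeas := x4m_meas hs
  have hdlr := dlr_pair hD (fun _ => mu) hmeas (by
    intro X X' Y hX
    have e1 : ∀ v, cm D X (cell (s Y)) v = cm D X' (cell (s Y)) v :=
      fun v => cm_congr D X X' hX _ v
    have e2 : ∀ v, hx D X v = hx D X' v := fun v => x4m_hx_congr hX v
    simp only [e1, e2])
  rw [hdlr]
  have hin : ∀ X : V → ℝ, ∫⁻ Y, (⨆ v ∈ D, ENNReal.ofReal |cm D X (cell (s Y)) v - hx D X v|)
      ∂(gam D X) ≤ ENNReal.ofReal (C * (Real.log (A + 3) / Real.log 2 + 1) * Real.log (r + 1)) := by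
    intro X
    refine (cm_sup hs X).trans ?_
    obtain ⟨hint, hle⟩ := hsup D X z (((A : ℤ) + 1) * r) hN1 hDQ
    have h1 : ∫⁻ Y, (⨆ v ∈ D, ENNReal.ofReal |Y v - hx D X v|) ∂(gam D X) ≤
        ∫⁻ Y : V → ℝ, ENNReal.ofReal (⨆ x : D, |Y x - hx D X x|) ∂(gam D X) := by
      refine lintegral_mono (fun Y => ?_)
      refine iSup₂_le (fun v hv => ENNReal.ofReal_le_ofReal ?_)
      exact le_ciSup (f := fun x : D => |Y x - hx D X x|) (Set.finite_range _).bddAbove ⟨v, hv⟩
    refine h1.trans ?_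
    rw [← ofReal_integral_eq_lintegral_ofReal hint
      (Filter.Eventually.of_forall (fun Y => Real.iSup_nonneg (fun x => abs_nonneg _)))]
    apply ENNReal.ofReal_le_ofReal
    refine hle.trans ?_
    rw [mul_assoc]
    exact mul_le_mul_of_nonneg_left (x4m_log A r hr) hC.le
  calc ∫⁻ X, (∫⁻ Y, (⨆ v ∈ D, ENNReal.ofReal |cm D X (cell (s Y)) v - hx D X v|)
      ∂(gam D X)) ∂(gam Damb (fun _ => mu))
      ≤ ∫⁻ _, ENNReal.ofReal (C * (Real.log (A + 3) / Real.log 2 + 1) * Real.log (r + 1))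
        ∂(gam Damb (fun _ => mu)) := lintegral_mono hin
    _ = ENNReal.ofReal (C * (Real.log (A + 3) / Real.log 2 + 1) * Real.log (r + 1)) := by
        rw [lintegral_const, measure_univ, mul_one]

end GF
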