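import Pool.Agent.Lib.MP_acf58e_gf.X2
import Pool.Agent.Lib.MP_acf58e_gf.P6a

open MeasureTheory Set ProbabilityTheory
open scoped ENNReal

namespace GF

/-- FAR case -/
theorem X4far (A : ℕ) : ∃ C : ℝ, 0 < C ∧ ∀ (r m : ℕ), 1 ≤ m → m ≤ r → ∀ (D : Finset V) (z y : V), D ⊆ Q z (A * r) →
    Q y m ⊆ D → ∀ (β : V → ℝ) {σ : Type} (s : (V → ℝ) → σ) (cell : σ → Cell), IsExp D s cell →
    ∫⁻ X, ENNReal.ofReal |∑ v ∈ bd (Q y m), hm (Q y m) y v * (cm D β (cell (s X)) v - hx D β v)| ∂(gam D β) ≤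
      ENNReal.ofReal (C * Real.sqrt (1 + Real.log (r / m))) := by
  obtain ⟨C0, hC0, hvar⟩ := var_hx_le
  have hkap : 0 ≤ kap⁻¹ := inv_nonneg.2 kap_pos.le
  have hA1 : (1 : ℝ) ≤ (A : ℝ) + 1 := by
    have : (0 : ℝ) ≤ A := Nat.cast_nonneg A
    linarith
  have hlogA : 0 ≤ Real.log ((A : ℝ) + 1) := Real.log_nonneg hA1
  obtain ⟨K, hK⟩ : ∃ K : ℝ, K = kap⁻¹ * (Real.log ((A : ℝ) + 1) + 1) + C0 := ⟨_, rfl⟩
  have hKpos : 0 < K := by
    rw [hK]
    have := mul_nonneg hkap (by linarith : 0 ≤ Real.log ((A : ℝ) + 1) + 1)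
    linarith
  refine ⟨Real.sqrt K, Real.sqrt_pos.2 hKpos, fun r m hm hmr D z y hD hQ β σ s cell hs => ?_⟩
  obtain ⟨E, hE⟩ : ∃ E : Finset V, E = Q y (m : ℤ) := ⟨_, rfl⟩
  rw [← hE] at hQ ⊢
  obtain ⟨ψ, hψ⟩ : ∃ ψ : V → ℝ, ψ = chg (bd E) (fun v => GF.hm E y v) := ⟨_, rfl⟩
  have hsum : ∀ X, ∑ v ∈ bd E, GF.hm E y v * (cm D β (cell (s X)) v - hx D β v) =
      cN D β ψ (cell (s X)) - ∑ v ∈ D, ψ v * hx D β v := by
    intro X
    have h1 := sum_chg D (bd E) (fun v => GF.hm E y v) (fun v => cm D β (cell (s X)) v - hx D β v)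
      (fun v hv => by
        show cm D β (cell (s X)) v - hx D β v = 0
        rw [cm_off D β _ (hs.2.1 X) hv, hx_off hv, sub_self])
    rw [h1, hψ]
    unfold cN
    rw [← Finset.sum_sub_distrib]
    exact Finset.sum_congr rfl (fun v _ => by ring)
  simp_rw [hsum]
  refine (cN_abs hs β ψ).trans (ENNReal.ofReal_le_ofReal ?_)
  have hvr : vr D D ψ = vr D (bd E) (fun v => GF.hm E y v) := by
    rw [vr_chg D (bd E), hψ]
    rfl
  rw [hvr, ← Real.sqrt_mul hKpos.le]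
  apply Real.sqrt_le_sqrt
  have hr1 : 1 ≤ r := hm.trans hmr
  have hmR : (1 : ℝ) ≤ (m : ℝ) := by exact_mod_cast hm
  have hrR : (1 : ℝ) ≤ (r : ℝ) := by exact_mod_cast hr1
  have hmrR : (m : ℝ) ≤ (r : ℝ) := by exact_mod_cast hmr
  have hDN : D ⊆ Q z (((A + 1) * r : ℕ) : ℤ) := by
    refine hD.trans ?_
    unfold Q
    apply Finset.Icc_subset_Icc
    · rw [Prod.le_def]
      push_cast
      constructor <;> nlinarith
    · rw [Prod.le_def]
      push_cast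
      constructor <;> nlinarith
  have hN1 : (1 : ℤ) ≤ (((A + 1) * r : ℕ) : ℤ) := by
    have : 1 ≤ (A + 1) * r := Nat.one_le_iff_ne_zero.2 (Nat.mul_ne_zero (by omega) (by omega))
    exact_mod_cast this
  have hv := hvar D E z y (((A + 1) * r : ℕ) : ℤ) (m : ℤ) (by exact_mod_cast hm) hN1 hDN hQ (by rw [hE])
  refine hv.trans ?_
  have hlog : Real.log (((((A + 1) * r : ℕ) : ℤ) : ℝ) / ((m : ℤ) : ℝ)) =
      Real.log ((A : ℝ) + 1) + Real.log ((r : ℝ) / (m : ℝ)) := by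
    rw [← Real.log_mul (by positivity) (by positivity)]
    congr 1
    push_cast
    ring
  have hlr : 0 ≤ Real.log ((r : ℝ) / (m : ℝ)) := Real.log_nonneg (by
    rw [le_div_iff₀ (by linarith)]
    linarith)
  rw [hlog, hK]
  have e1 := mul_nonneg hkap hlogA
  have e2 := mul_nonneg e1 hlr
  have e3 := mul_nonneg hC0.le hlr
  nlinarith
end GF
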