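import Pool.Agent.Lib.MP_acf58e_gf.P2

/-! MP_acf58e_pr, row P3: Beurling estimate. -/

open Set

namespace GF

private theorem mem_Q' {z x : V} {r : ℤ} :
    x ∈ Q z r ↔ (z.1 - r ≤ x.1 ∧ z.2 - r ≤ x.2) ∧ x.1 ≤ z.1 + r ∧ x.2 ≤ z.2 + r := by
  simp only [Q, Finset.mem_Icc, Prod.le_def]

private theorem mem_Q_dI {z x : V} {r : ℤ} : x ∈ Q z r ↔ dI x z ≤ r := by
  rw [mem_Q']
  unfold dI
  rw [max_le_iff, abs_le, abs_le]
  constructor
  · rintro ⟨⟨h1, h2⟩, h3, h4⟩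
    refine ⟨⟨by linarith, by linarith⟩, by linarith, by linarith⟩
  · rintro ⟨⟨h1, h2⟩, h3, h4⟩
    refine ⟨⟨by linarith, by linarith⟩, by linarith, by linarith⟩

private theorem Q_mono' {z : V} {r s : ℤ} (h : r ≤ s) : Q z r ⊆ Q z s := by
  intro x hx
  rw [mem_Q_dI] at hx ⊢
  omega

private theorem bd_sub {D : Finset V} {z w : V} {r : ℤ} (h : D ⊆ Q z r) (hw : w ∈ bd D) :
    w ∈ Q z (r + 1) := by
  have h2 := (mem_bd_iff.1 hw).2
  rcases h2 with h2 | h2 | h2 | h2 <;>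
  · have h3 := h h2
    rw [mem_Q'] at h3 ⊢
    simp only [nE, nW, nN, nS] at h3
    refine ⟨⟨?_, ?_⟩, ?_, ?_⟩ <;> omega

private theorem hm_sum_le (D S : Finset V) (x : V) : ∑ y ∈ S, hm D x y ≤ 1 := by
  by_cases hx : x ∈ D
  · calc ∑ y ∈ S, hm D x y = ∑ y ∈ S.filter (fun y => y ∈ bd D), hm D x y := by
          rw [Finset.sum_filter]
          apply Finset.sum_congr rfl
          intro y _
          split_ifs with h
          · rfl
          · exact hm_eq_zero hx h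
      _ ≤ ∑ y ∈ bd D, hm D x y := by
          apply Finset.sum_le_sum_of_subset_of_nonneg
          · intro y hy; exact (Finset.mem_filter.1 hy).2
          · intro y _ _; exact hm_nonneg D x y
      _ = 1 := hm_sum hx
  · simp only [hm_off hx]
    rw [Finset.sum_ite_eq]
    split_ifs <;> norm_num

/-- one step of the iteration -/
private theorem step {Λ : ℤ} {c : ℝ} (hΛ : 2 ≤ Λ)
    (H : ∀ (ρ : ℤ) (z : V) (K : Finset V), 1 ≤ ρ →
      (∀ r : ℤ, ρ < 2 * r → r ≤ ρ → ∃ k ∈ K, dI k z = r) →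
      ∀ x ∈ Q z ρ, x ∉ K → c ≤ ∑ k ∈ K, hm (Q z (Λ * ρ) \ K) x k)
    (r₁ r₂ : ℤ) (z : V) (K : Finset V) (h1 : 1 ≤ r₁)
    (hK : ∀ r : ℤ, r₁ ≤ r → r ≤ r₂ → ∃ k ∈ K, dI k z = r)
    (ρ : ℤ) (hρ : 2 * r₁ ≤ ρ) (hρ2 : 2 * Λ * ρ ≤ r₂) (B : ℝ) (hB : 0 ≤ B)
    (hw : ∀ w ∈ Q z (2 * Λ * ρ), w ∉ K → ∑ y ∈ bd (Q z r₂), hm (Q z r₂ \ K) w y ≤ B) :
    ∀ x ∈ Q z ρ, x ∉ K → ∑ y ∈ bd (Q z r₂), hm (Q z r₂ \ K) x y ≤ (1 - c) * B := by
  intro x hx hxK
  obtain ⟨f, hf⟩ : ∃ f : V → ℝ, f = fun w => ∑ y ∈ bd (Q z r₂), hm (Q z r₂ \ K) w y := ⟨_, rfl⟩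
  have hρ1 : 1 ≤ ρ := by linarith
  have hΛρ : ρ ≤ Λ * ρ := by nlinarith
  have hΛρ2 : Λ * ρ + 1 ≤ 2 * Λ * ρ := by nlinarith
  have hρr2 : ρ ≤ r₂ := by linarith
  have hxE : x ∈ Q z (Λ * ρ) \ K := Finset.mem_sdiff.2 ⟨Q_mono' hΛρ hx, hxK⟩
  have hED : Q z (Λ * ρ) \ K ⊆ Q z r₂ \ K :=
    Finset.sdiff_subset_sdiff (Q_mono' (by linarith)) (Finset.Subset.refl _)
  have hc := H ρ z K hρ1 (fun r hr hr2 => hK r (by omega) (by omega)) x hx hxK
  have e1 : f x = ∑ w ∈ bd (Q z (Λ * ρ) \ K), hm (Q z (Λ * ρ) \ K) x w * f w := by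
    rw [hf]
    simp only
    rw [Finset.sum_congr rfl (fun y _ => hm_markov hED hxE y), Finset.sum_comm]
    apply Finset.sum_congr rfl
    intro w _
    rw [Finset.mul_sum]
  have h2 : ∀ w ∈ bd (Q z (Λ * ρ) \ K), f w ≤ if w ∈ K then 0 else B := by
    intro w hw1
    have hwQ : w ∈ Q z (Λ * ρ + 1) := bd_sub Finset.sdiff_subset hw1
    split_ifs with hwK
    · rw [hf]
      simp only
      have hwD : w ∉ Q z r₂ \ K := fun h => (Finset.mem_sdiff.1 h).2 hwK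
      simp only [hm_off hwD]
      rw [Finset.sum_ite_eq]
      rw [if_neg]
      intro h
      exact not_mem_of_mem_bd h (Q_mono' (by linarith) hwQ)
    · rw [hf]
      exact hw w (Q_mono' hΛρ2 hwQ) hwK
  have e3 : ∑ w ∈ bd (Q z (Λ * ρ) \ K), hm (Q z (Λ * ρ) \ K) x w * (if w ∈ K then 0 else B)
      = (1 - ∑ w ∈ bd (Q z (Λ * ρ) \ K), if w ∈ K then hm (Q z (Λ * ρ) \ K) x w else 0) * B := by
    rw [← hm_sum hxE, ← Finset.sum_sub_distrib, Finset.sum_mul]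
    apply Finset.sum_congr rfl
    intro w _
    split_ifs <;> ring
  have e4 : ∑ k ∈ K, hm (Q z (Λ * ρ) \ K) x k
      ≤ ∑ w ∈ bd (Q z (Λ * ρ) \ K), if w ∈ K then hm (Q z (Λ * ρ) \ K) x w else 0 := by
    rw [← Finset.sum_filter]
    calc ∑ k ∈ K, hm (Q z (Λ * ρ) \ K) x k
        = ∑ k ∈ K.filter (fun k => k ∈ bd (Q z (Λ * ρ) \ K)), hm (Q z (Λ * ρ) \ K) x k := by
          rw [Finset.sum_filter]
          apply Finset.sum_congr rfl
          intro y _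
          split_ifs with h
          · rfl
          · exact hm_eq_zero hxE h
      _ = _ := by
          apply Finset.sum_congr _ (fun _ _ => rfl)
          ext k
          simp only [Finset.mem_filter]
          tauto
      _ ≤ _ := le_rfl
  calc ∑ y ∈ bd (Q z r₂), hm (Q z r₂ \ K) x y = f x := by rw [hf]
    _ = _ := e1
    _ ≤ ∑ w ∈ bd (Q z (Λ * ρ) \ K), hm (Q z (Λ * ρ) \ K) x w * (if w ∈ K then 0 else B) := by
        apply Finset.sum_le_sum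
        intro w hw1
        exact mul_le_mul_of_nonneg_left (h2 w hw1) (hm_nonneg _ _ _)
    _ = _ := e3
    _ ≤ (1 - c) * B := by
        apply mul_le_mul_of_nonneg_right _ hB
        linarith

private theorem real_part {M q : ℝ} (hM : 4 ≤ M) (hq0 : 0 < q) (hq1 : q < 1) {a b : ℝ} (ha : 0 < a)
    (hb : 0 < b) (j : ℕ) (h : b ≤ a * M ^ (j + 2)) :
    q ^ j ≤ (q⁻¹) ^ 2 * (a / b) ^ (- Real.log q / Real.log M) := by
  have hM0 : 0 < M := by linarith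
  have hlM : 0 < Real.log M := Real.log_pos (by linarith)
  have hlq : Real.log q < 0 := Real.log_neg hq0 hq1
  have hc : 0 ≤ - Real.log q / Real.log M := div_nonneg (by linarith) hlM.le
  have h1 : (M⁻¹) ^ (- Real.log q / Real.log M) = q := by
    rw [Real.rpow_def_of_pos (by positivity), Real.log_inv]
    rw [show -Real.log M * (-Real.log q / Real.log M) = Real.log q by field_simp]
    exact Real.exp_log hq0
  have h2 : (M⁻¹) ^ (j + 2) ≤ a / b := by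
    rw [inv_pow, inv_le_comm₀ (by positivity) (by positivity), inv_div]
    rw [div_le_iff₀ ha]
    linarith
  have h3 : ((M⁻¹) ^ (j + 2)) ^ (- Real.log q / Real.log M) ≤ (a / b) ^ (- Real.log q / Real.log M) :=
    Real.rpow_le_rpow (by positivity) h2 hc
  have h4 : ((M⁻¹) ^ (j + 2)) ^ (- Real.log q / Real.log M) = q ^ (j + 2) := by
    rw [← Real.rpow_natCast, ← Real.rpow_mul (by positivity), mul_comm, Real.rpow_mul (by positivity), h1,
      Real.rpow_natCast]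
  rw [h4] at h3
  calc q ^ j = (q⁻¹) ^ 2 * q ^ (j + 2) := by
        rw [pow_add]
        field_simp
    _ ≤ _ := mul_le_mul_of_nonneg_left h3 (by positivity)

/-- P3, Beurling -/
theorem beurling : ∃ (C c : ℝ), 0 < C ∧ 0 < c ∧ ∀ (r₁ r₂ : ℤ) (z : V) (K : Finset V), 1 ≤ r₁ → r₁ ≤ r₂ →
    (∀ r : ℤ, r₁ ≤ r → r ≤ r₂ → ∃ k ∈ K, dI k z = r) →
    ∀ x ∈ Q z r₁, x ∉ K → ∑ y ∈ bd (Q z r₂), hm (Q z r₂ \ K) x y ≤ C * ((r₁ : ℝ) / r₂) ^ c := by
  obtain ⟨Λ, c₀, hΛ, hc₀, H₀⟩ := hit_lower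
  obtain ⟨c, hc⟩ : ∃ c : ℝ, c = min c₀ (1 / 2) := ⟨_, rfl⟩
  have hcpos : 0 < c := by rw [hc]; exact lt_min hc₀ (by norm_num)
  have hc1 : c ≤ 1 / 2 := by rw [hc]; exact min_le_right _ _
  have H : ∀ (ρ : ℤ) (z : V) (K : Finset V), 1 ≤ ρ →
      (∀ r : ℤ, ρ < 2 * r → r ≤ ρ → ∃ k ∈ K, dI k z = r) →
      ∀ x ∈ Q z ρ, x ∉ K → c ≤ ∑ k ∈ K, hm (Q z (Λ * ρ) \ K) x k := by
    intro ρ z K h1 h2 x hx hxK
    exact le_trans (by rw [hc]; exact min_le_left _ _) (H₀ ρ z K h1 h2 x hx hxK)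
  have hMc : ((2 * Λ : ℤ) : ℝ) = 2 * (Λ : ℝ) := by push_cast; ring
  have hΛR : (2 : ℝ) ≤ Λ := by exact_mod_cast hΛ
  have hM : (4 : ℝ) ≤ 2 * (Λ : ℝ) := by linarith
  have hlM : 0 < Real.log (2 * (Λ : ℝ)) := Real.log_pos (by linarith)
  refine ⟨((1 - c)⁻¹) ^ 2, - Real.log (1 - c) / Real.log (2 * (Λ : ℝ)), by
    have : 0 < 1 - c := by linarith
    positivity, div_pos (by
      have := Real.log_neg (show 0 < 1 - c by linarith) (by linarith)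
      linarith) hlM, ?_⟩
  intro r₁ r₂ z K h1 h12 hK x hx hxK
  have hr1 : (0 : ℝ) < r₁ := by exact_mod_cast (by linarith : (0:ℤ) < r₁)
  have hr2 : (0 : ℝ) < r₂ := by exact_mod_cast (by linarith : (0:ℤ) < r₂)
  have key : ∀ j : ℕ, ∀ ρ : ℤ, 2 * r₁ ≤ ρ → ρ * (2 * Λ) ^ j ≤ r₂ → ∀ x ∈ Q z ρ, x ∉ K →
      ∑ y ∈ bd (Q z r₂), hm (Q z r₂ \ K) x y ≤ (1 - c) ^ j := by
    intro j
    induction j with
    | zero =>
      intro ρ _ _ x _ _
      rw [pow_zero]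
      exact hm_sum_le _ _ _
    | succ j ih =>
      intro ρ hρ hρ2 x hx hxK
      have hρ0 : 1 ≤ ρ := by linarith
      have hp : (1 : ℤ) ≤ (2 * Λ) ^ j := one_le_pow₀ (by linarith)
      have e : ρ * (2 * Λ) ^ (j + 1) = (2 * Λ * ρ) * (2 * Λ) ^ j := by ring
      have h3 : 2 * Λ * ρ ≤ r₂ := by
        have : 0 ≤ 2 * Λ * ρ := by positivity
        nlinarith
      rw [pow_succ, mul_comm]
      apply step hΛ H r₁ r₂ z K h1 hK ρ hρ h3 _ (pow_nonneg (by linarith) _) _ x hx hxK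
      intro w hw hwK
      exact ih (2 * Λ * ρ) (by nlinarith) (by rw [← e]; exact hρ2) w hw hwK
  by_cases hcase : r₂ < 2 * r₁
  · have h3 := real_part (q := 1 - c) hM (by linarith) (by linarith) hr1 hr2 0 (by
      have h4 : (r₂ : ℝ) < 2 * r₁ := by exact_mod_cast hcase
      have h5 : (2 * (Λ : ℝ)) ^ (0 + 2) = (2 * (Λ : ℝ)) * (2 * (Λ : ℝ)) := by ring
      have h6 : (2 : ℝ) ≤ (2 * (Λ : ℝ)) ^ (0 + 2) := by rw [h5]; nlinarith
      nlinarith)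
    rw [pow_zero] at h3
    exact le_trans (hm_sum_le _ _ _) h3
  · push Not at hcase
    obtain ⟨n, hn⟩ : ∃ n : ℕ, n = (r₂ / (2 * r₁)).toNat := ⟨_, rfl⟩
    have hdiv : 1 ≤ r₂ / (2 * r₁) := (Int.le_ediv_iff_mul_le (by linarith)).2 (by linarith)
    have hnZ : (n : ℤ) = r₂ / (2 * r₁) := by rw [hn]; exact Int.toNat_of_nonneg (by linarith)
    obtain ⟨L, hL⟩ : ∃ L : ℕ, L = (2 * Λ).toNat := ⟨_, rfl⟩
    have hLZ : (L : ℤ) = 2 * Λ := by rw [hL]; exact Int.toNat_of_nonneg (by linarith)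
    have hL1 : 1 < L := by
      have : (1 : ℤ) < L := by rw [hLZ]; linarith
      exact_mod_cast this
    have hn0 : n ≠ 0 := by
      intro h; rw [h] at hnZ; simp at hnZ; omega
    obtain ⟨j, hj⟩ : ∃ j : ℕ, j = Nat.log L n := ⟨_, rfl⟩
    have hj1 : L ^ j ≤ n := by rw [hj]; exact Nat.pow_log_le_self L hn0
    have hj2 : n < L ^ (j + 1) := by rw [hj]; exact Nat.lt_pow_succ_log_self hL1 n
    have hj1Z : (2 * Λ) ^ j ≤ r₂ / (2 * r₁) := by
      rw [← hnZ, ← hLZ]; exact_mod_cast hj1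
    have hj2Z : r₂ / (2 * r₁) + 1 ≤ (2 * Λ) ^ (j + 1) := by
      rw [← hnZ, ← hLZ]; exact_mod_cast hj2
    have hup : 2 * r₁ * (2 * Λ) ^ j ≤ r₂ := by
      have := Int.mul_ediv_self_le (x := r₂) (k := 2 * r₁) (by linarith)
      nlinarith
    have hlo : r₂ < 2 * r₁ * (2 * Λ) ^ (j + 1) := by
      have := Int.lt_mul_ediv_self_add (x := r₂) (k := 2 * r₁) (by linarith)
      nlinarith
    have h3 := real_part (q := 1 - c) hM (by linarith) (by linarith) hr1 hr2 j (by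
      have h4 : (r₂ : ℝ) < 2 * r₁ * (2 * Λ) ^ (j + 1) := by exact_mod_cast hlo
      have h5 : (0 : ℝ) < (2 * (Λ : ℝ)) ^ (j + 1) := by positivity
      have h6 : (r₁ : ℝ) * (2 * (Λ : ℝ)) ^ (j + 2) = (2 * (Λ : ℝ)) * (r₁ * (2 * (Λ : ℝ)) ^ (j + 1)) := by ring
      rw [h6]
      have h7 : (0:ℝ) < r₁ * (2 * (Λ : ℝ)) ^ (j + 1) := by positivity
      nlinarith)
    exact le_trans (key j (2 * r₁) le_rfl hup x (Q_mono' (by linarith) hx) hxK) h3

/-- P3': the same for any domain: D \ K, exit through points at distance > r₂ from z -/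
theorem beurling_dom : ∃ (C c : ℝ), 0 < C ∧ 0 < c ∧ ∀ (r₁ r₂ : ℤ) (z : V) (D K : Finset V), 1 ≤ r₁ → r₁ ≤ r₂ →
    (∀ r : ℤ, r₁ ≤ r → r ≤ r₂ → ∃ k ∈ K, dI k z = r) →
    ∀ x ∈ Q z r₁, x ∉ K → x ∈ D → ∀ Y : Finset V, (∀ y ∈ Y, y ∉ K ∧ r₂ < dI y z) →
      ∑ y ∈ Y, hm (D \ K) x y ≤ C * ((r₁ : ℝ) / r₂) ^ c := by
  obtain ⟨C, c, hC, hc, H⟩ := beurling
  refine ⟨C, c, hC, hc, ?_⟩
  intro r₁ r₂ z D K h1 h12 hK x hx hxK hxD Y hY
  refine le_trans ?_ (H r₁ r₂ z K h1 h12 hK x hx hxK)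
  obtain ⟨E, hE⟩ : ∃ E : Finset V, E = (Q z r₂ ∩ D) \ K := ⟨_, rfl⟩
  have hxE : x ∈ E := by
    rw [hE]
    exact Finset.mem_sdiff.2 ⟨Finset.mem_inter.2 ⟨Q_mono' h12 hx, hxD⟩, hxK⟩
  have hED : E ⊆ D \ K := by
    rw [hE]; exact Finset.sdiff_subset_sdiff Finset.inter_subset_right (Finset.Subset.refl _)
  have hEQ : E ⊆ Q z r₂ \ K := by
    rw [hE]; exact Finset.sdiff_subset_sdiff Finset.inter_subset_left (Finset.Subset.refl _)
  have e1 : ∑ y ∈ Y, hm (D \ K) x y = ∑ w ∈ bd E, hm E x w * ∑ y ∈ Y, hm (D \ K) w y := by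
    rw [Finset.sum_congr rfl (fun y _ => hm_markov hED hxE y), Finset.sum_comm]
    apply Finset.sum_congr rfl
    intro w _
    rw [Finset.mul_sum]
  have h2 : ∀ w ∈ bd E, hm E x w * ∑ y ∈ Y, hm (D \ K) w y ≤
      if w ∈ bd (Q z r₂) then hm E x w else 0 := by
    intro w hw
    split_ifs with h
    · calc _ ≤ hm E x w * 1 := mul_le_mul_of_nonneg_left (hm_sum_le _ _ _) (hm_nonneg _ _ _)
        _ = _ := mul_one _
    · have hwE := mem_bd_iff.1 hw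
      have hwQ : w ∈ Q z r₂ := by
        by_contra hcon
        apply h
        rw [mem_bd_iff]
        refine ⟨hcon, ?_⟩
        have hs : ∀ u, u ∈ E → u ∈ Q z r₂ := fun u hu => (Finset.mem_sdiff.1 (hEQ hu)).1
        rcases hwE.2 with h | h | h | h
        · exact Or.inl (hs _ h)
        · exact Or.inr (Or.inl (hs _ h))
        · exact Or.inr (Or.inr (Or.inl (hs _ h)))
        · exact Or.inr (Or.inr (Or.inr (hs _ h)))
      have hwD : w ∉ D \ K := by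
        intro h3
        apply hwE.1
        rw [hE]
        have h4 := Finset.mem_sdiff.1 h3
        exact Finset.mem_sdiff.2 ⟨Finset.mem_inter.2 ⟨hwQ, h4.1⟩, h4.2⟩
      simp only [hm_off hwD]
      rw [Finset.sum_ite_eq, if_neg, mul_zero]
      intro hwY
      have h5 := (hY w hwY).2
      have h6 := mem_Q_dI.1 hwQ
      omega
  rw [e1]
  calc ∑ w ∈ bd E, hm E x w * ∑ y ∈ Y, hm (D \ K) w y
      ≤ ∑ w ∈ bd E, if w ∈ bd (Q z r₂) then hm E x w else 0 := Finset.sum_le_sum h2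
    _ = ∑ w ∈ (bd E).filter (fun w => w ∈ bd (Q z r₂)), hm E x w := by rw [Finset.sum_filter]
    _ ≤ ∑ w ∈ bd (Q z r₂), hm E x w := by
        apply Finset.sum_le_sum_of_subset_of_nonneg
        · intro w hw; exact (Finset.mem_filter.1 hw).2
        · intro w _ _; exact hm_nonneg _ _ _
    _ ≤ ∑ w ∈ bd (Q z r₂), hm (Q z r₂ \ K) x w := by
        apply Finset.sum_le_sum
        intro w hw
        exact hm_mono hEQ x (fun h => not_mem_of_mem_bd hw (Finset.mem_sdiff.1 h).1)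

end GF
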