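import Pool.Agent.Lib.MP_acf58e_gf.X0
import Pool.Agent.Lib.MP_acf58e_gf.P3
import Pool.Agent.Lib.MP_acf58e_gf.P4

open MeasureTheory Set ProbabilityTheory
open scoped ENNReal

namespace GF

private lemma x4n_mem_Q {x y : V} {ρ : ℤ} : x ∈ Q y ρ ↔ dI x y ≤ ρ := by
  rw [Q, Finset.mem_Icc, Prod.le_def, Prod.le_def, dI, max_le_iff, abs_le, abs_le]
  simp only
  constructor
  · rintro ⟨⟨h1, h2⟩, h3, h4⟩
    exact ⟨⟨by linarith, by linarith⟩, ⟨by linarith, by linarith⟩⟩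
  · rintro ⟨⟨h1, h2⟩, h3, h4⟩
    exact ⟨⟨by linarith, by linarith⟩, ⟨by linarith, by linarith⟩⟩

private lemma x4n_dI_comm (x y : V) : dI x y = dI y x := by
  rw [dI, dI, abs_sub_comm x.1 y.1, abs_sub_comm x.2 y.2]

private lemma x4n_dI_tri (x y z : V) : dI x z ≤ dI x y + dI y z := by
  rw [dI, dI, dI]
  have h1 : |x.1 - z.1| ≤ |x.1 - y.1| + |y.1 - z.1| := abs_sub_le _ _ _
  have h2 : |x.2 - z.2| ≤ |x.2 - y.2| + |y.2 - z.2| := abs_sub_le _ _ _
  apply max_le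
  · exact h1.trans (add_le_add (le_max_left _ _) (le_max_left _ _))
  · exact h2.trans (add_le_add (le_max_right _ _) (le_max_right _ _))

private lemma x4n_nbr {D : Finset V} {v : V} (h : v ∈ bd D) :
    ∃ x ∈ D, nn v x ∧ dI v x = 1 := by
  obtain ⟨_, h1⟩ := mem_bd_iff.1 h
  rcases h1 with h1 | h1 | h1 | h1
  · exact ⟨_, h1, by simp [nn, nE], by simp [dI, nE]⟩
  · exact ⟨_, h1, by simp [nn, nW], by simp [dI, nW]⟩
  · exact ⟨_, h1, by simp [nn, nN], by simp [dI, nN]⟩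
  · exact ⟨_, h1, by simp [nn, nS], by simp [dI, nS]⟩

private lemma x4n_bd_sdiff {D G : Finset V} {v : V} (h : v ∈ bd (D \ G)) (hv : v ∉ G) : v ∈ bd D := by
  obtain ⟨h0, h1⟩ := mem_bd_iff.1 h
  rw [mem_bd_iff]
  refine ⟨fun hD => h0 (Finset.mem_sdiff.2 ⟨hD, hv⟩), ?_⟩
  simp only [Finset.mem_sdiff] at h1
  tauto

/-- one radius -/
private lemma x4n_one (C3 c3 C4 : ℝ) (hC4 : 0 < C4)
    (h3 : ∀ (r₁ r₂ : ℤ) (z : V) (K : Finset V), 1 ≤ r₁ → r₁ ≤ r₂ →
      (∀ r : ℤ, r₁ ≤ r → r ≤ r₂ → ∃ k ∈ K, dI k z = r) →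
      ∀ x ∈ Q z r₁, x ∉ K → ∑ y ∈ bd (Q z r₂), hm (Q z r₂ \ K) x y ≤ C3 * ((r₁ : ℝ) / r₂) ^ c3)
    (h4 : ∀ (r : ℤ) (z x y : V), 1 ≤ r → 5 * dI x z ≤ 4 * r → hm (Q z r) x y ≤ C4 / r)
    (ρ m q : ℕ) (hm1 : 1 ≤ m) (hmρ : 32 * m ≤ ρ) (hq1 : ρ ≤ 4 * q) (hq2 : q + 1 ≤ ρ / 2)
    (D G F : Finset V) (y : V) (f : V → ℝ)
    (B M : ℝ) (hFG : F ⊆ G) (hQ : Q y ρ ⊆ D) (hy : y ∉ G) (hB : 0 ≤ B) (hM : 0 ≤ M)
    (hg : ∃ g ∈ G, dI y g ≤ m) (hthick : ∀ g ∈ G, ∀ k : ℕ, 1 ≤ k → k ≤ ρ → ∃ g' ∈ G, dI g g' = k)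
    (hf : ∀ x ∈ D \ G, f x = av f x)
    (hvis : ∀ v ∈ G, dI y v ≤ (ρ / 2 : ℕ) → (∃ x ∈ D \ G, nn v x) → v ∈ F ∨ f v ≤ B)
    (hfM : ∀ v ∈ F, f v ≤ M) :
    f y ≤ B + M * (∑ v ∈ F, hm (D \ G) y v) +
      (C4 / q * (C3 * ((m : ℝ) / (ρ / 8 : ℕ)) ^ c3)) * ∑ x ∈ bd (Q y q) \ G, max 0 (f x) := by
  classical
  obtain ⟨g, hgG, hgy⟩ := hg
  have hqD : Q y q ⊆ D := by
    intro x hx
    apply hQ
    rw [x4n_mem_Q] at hx ⊢
    have : (q : ℤ) ≤ ρ := by omega
    linarith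
  have hDD : Q y q \ G ⊆ D \ G := Finset.sdiff_subset_sdiff hqD (le_refl _)
  have hyD : y ∈ Q y q \ G := by
    rw [Finset.mem_sdiff, x4n_mem_Q]
    refine ⟨?_, hy⟩
    have : dI y y = 0 := by simp [dI]
    rw [this]
    positivity
  have hfy : f y = ∑ v ∈ bd (Q y q \ G), hm (Q y q \ G) y v * f v := by
    have h := hx_self (D := Q y q \ G) (f := f) (fun x hx => hf x (hDD hx))
    conv_lhs => rw [← h]
    exact hx_eq_sum hyD f
  -- the density of the exits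
  set ε := C4 / q * (C3 * ((m : ℝ) / (ρ / 8 : ℕ)) ^ c3) with hε
  have hdens : ∀ z ∈ bd (Q y q), z ∉ G → hm (Q y q \ G) y z ≤ ε := by
    intro z hz hzG
    have hr2 : m ≤ ρ / 8 := by omega
    have hsub : Q g ((ρ / 8 : ℕ) : ℤ) ⊆ Q y q := by
      intro x hx
      rw [x4n_mem_Q] at hx ⊢
      have h1 := x4n_dI_tri x g y
      rw [x4n_dI_comm g y] at h1
      omega
    have hE : Q g ((ρ / 8 : ℕ) : ℤ) \ G ⊆ Q y q \ G := Finset.sdiff_subset_sdiff hsub (le_refl _)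
    have hyE : y ∈ Q g ((ρ / 8 : ℕ) : ℤ) \ G := by
      rw [Finset.mem_sdiff, x4n_mem_Q]
      refine ⟨?_, hy⟩
      omega
    rw [hm_markov hE hyE z]
    have hb := h3 m ((ρ / 8 : ℕ) : ℤ) g G (by exact_mod_cast hm1) (by exact_mod_cast hr2)
      (by
        intro r hr1 hr2'
        obtain ⟨g', hg', hd⟩ := hthick g hgG r.toNat (by omega) (by omega)
        refine ⟨g', hg', ?_⟩
        rw [x4n_dI_comm, hd]
        omega) y (by rw [x4n_mem_Q]; exact hgy) hy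
    have hterm : ∀ w ∈ bd (Q g ((ρ / 8 : ℕ) : ℤ) \ G),
        hm (Q g ((ρ / 8 : ℕ) : ℤ) \ G) y w * hm (Q y q \ G) w z ≤
        (if w ∈ G then 0 else hm (Q g ((ρ / 8 : ℕ) : ℤ) \ G) y w * (C4 / q)) := by
      intro w hw
      split_ifs with hwG
      · have h1 : w ∉ Q y q \ G := fun h => (Finset.mem_sdiff.1 h).2 hwG
        rw [hm_off h1, if_neg (by rintro rfl; exact hzG hwG), mul_zero]
      · apply mul_le_mul_of_nonneg_left _ (hm_nonneg _ _ _)
        have hw1 := x4n_bd_sdiff hw hwG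
        obtain ⟨x, hxQ, _, hxd⟩ := x4n_nbr hw1
        rw [x4n_mem_Q] at hxQ
        have h1 := x4n_dI_tri w x g
        have h2 := x4n_dI_tri w g y
        rw [x4n_dI_comm g y] at h2
        have h5 := h4 q y w z (by omega) (by omega)
        refine (hm_mono (D := Q y q) (E := Q y q \ G) Finset.sdiff_subset w
          (not_mem_of_mem_bd hz)).trans ?_
        exact_mod_cast h5
    calc ∑ w ∈ bd (Q g ((ρ / 8 : ℕ) : ℤ) \ G),
          hm (Q g ((ρ / 8 : ℕ) : ℤ) \ G) y w * hm (Q y q \ G) w z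
        ≤ ∑ w ∈ bd (Q g ((ρ / 8 : ℕ) : ℤ) \ G),
          (if w ∈ G then 0 else hm (Q g ((ρ / 8 : ℕ) : ℤ) \ G) y w * (C4 / q)) :=
          Finset.sum_le_sum hterm
      _ = ∑ w ∈ (bd (Q g ((ρ / 8 : ℕ) : ℤ) \ G)).filter (fun w => w ∉ G),
          hm (Q g ((ρ / 8 : ℕ) : ℤ) \ G) y w * (C4 / q) := by
          rw [Finset.sum_filter]
          apply Finset.sum_congr rfl
          intro w _
          by_cases hw : w ∈ G
          · rw [if_pos hw, if_neg (not_not.2 hw)]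
          · rw [if_neg hw, if_pos hw]
      _ ≤ ∑ w ∈ bd (Q g ((ρ / 8 : ℕ) : ℤ)),
          hm (Q g ((ρ / 8 : ℕ) : ℤ) \ G) y w * (C4 / q) := by
          apply Finset.sum_le_sum_of_subset_of_nonneg
          · intro w hw
            rw [Finset.mem_filter] at hw
            exact x4n_bd_sdiff hw.1 hw.2
          · intro w _ _
            exact mul_nonneg (hm_nonneg _ _ _) (by positivity)
      _ = (∑ w ∈ bd (Q g ((ρ / 8 : ℕ) : ℤ)),
          hm (Q g ((ρ / 8 : ℕ) : ℤ) \ G) y w) * (C4 / q) := by rw [Finset.sum_mul]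
      _ ≤ (C3 * ((m : ℝ) / (ρ / 8 : ℕ)) ^ c3) * (C4 / q) := by
          apply mul_le_mul_of_nonneg_right _ (by positivity)
          simp only [Int.cast_natCast] at hb
          exact hb
      _ = ε := by rw [hε]; ring
  -- termwise
  have hterm : ∀ v ∈ bd (Q y q \ G), hm (Q y q \ G) y v * f v ≤
      hm (Q y q \ G) y v * B + (if v ∈ F then hm (Q y q \ G) y v * M else 0) +
        (if v ∈ G then 0 else ε * max 0 (f v)) := by
    intro v hv
    have h0 := hm_nonneg (Q y q \ G) y v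
    by_cases hvG : v ∈ G
    · rw [if_pos hvG, add_zero]
      by_cases hvF : v ∈ F
      · rw [if_pos hvF]
        have h1 := mul_le_mul_of_nonneg_left (hfM v hvF) h0
        have h2 := mul_nonneg h0 hB
        linarith
      · rw [if_neg hvF, add_zero]
        apply mul_le_mul_of_nonneg_left _ h0
        obtain ⟨x, hxQ, hnn, hxd⟩ := x4n_nbr hv
        have hx1 := Finset.mem_sdiff.1 hxQ
        have hx2 := x4n_mem_Q.1 hx1.1
        rcases hvis v hvG (by
          have h1 := x4n_dI_tri y x v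
          rw [x4n_dI_comm y x, x4n_dI_comm x v] at h1
          omega) ⟨x, hDD hxQ, hnn⟩ with h | h
        · exact absurd h hvF
        · exact h
    · rw [if_neg hvG, if_neg (fun h => hvG (hFG h)), add_zero]
      have h1 := hdens v (x4n_bd_sdiff hv hvG) hvG
      have h2 : hm (Q y q \ G) y v * f v ≤ hm (Q y q \ G) y v * max 0 (f v) :=
        mul_le_mul_of_nonneg_left (le_max_right _ _) h0
      have h3 : hm (Q y q \ G) y v * max 0 (f v) ≤ ε * max 0 (f v) :=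
        mul_le_mul_of_nonneg_right h1 (le_max_left _ _)
      have h5 := mul_nonneg h0 hB
      linarith
  rw [hfy]
  refine (Finset.sum_le_sum hterm).trans ?_
  rw [Finset.sum_add_distrib, Finset.sum_add_distrib, ← Finset.sum_mul, hm_sum hyD, one_mul]
  have hpart2 : ∑ v ∈ bd (Q y q \ G), (if v ∈ F then hm (Q y q \ G) y v * M else 0) ≤
      M * ∑ v ∈ F, hm (D \ G) y v := by
    rw [← Finset.sum_filter, Finset.mul_sum]
    calc ∑ v ∈ (bd (Q y q \ G)).filter (fun v => v ∈ F), hm (Q y q \ G) y v * M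
        ≤ ∑ v ∈ (bd (Q y q \ G)).filter (fun v => v ∈ F), M * hm (D \ G) y v := by
          apply Finset.sum_le_sum
          intro v hv
          rw [Finset.mem_filter] at hv
          rw [mul_comm]
          apply mul_le_mul_of_nonneg_left _ hM
          exact hm_mono hDD y (fun h => (Finset.mem_sdiff.1 h).2 (hFG hv.2))
      _ ≤ ∑ v ∈ F, M * hm (D \ G) y v := by
          apply Finset.sum_le_sum_of_subset_of_nonneg
          · intro v hv
            exact (Finset.mem_filter.1 hv).2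
          · intro v _ _
            exact mul_nonneg hM (hm_nonneg _ _ _)
  have hε0 : 0 ≤ ε ∨ (bd (Q y q) \ G) = ∅ := by
    rcases (bd (Q y q) \ G).eq_empty_or_nonempty with h | ⟨z, hz⟩
    · exact Or.inr h
    · rw [Finset.mem_sdiff] at hz
      exact Or.inl ((hm_nonneg _ _ _).trans (hdens z hz.1 hz.2))
  have hpart3 : ∑ v ∈ bd (Q y q \ G), (if v ∈ G then 0 else ε * max 0 (f v)) ≤
      ε * ∑ x ∈ bd (Q y q) \ G, max 0 (f x) := by
    have hsubs : (bd (Q y q \ G)).filter (fun v => v ∉ G) ⊆ bd (Q y q) \ G := by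
      intro v hv
      rw [Finset.mem_filter] at hv
      rw [Finset.mem_sdiff]
      exact ⟨x4n_bd_sdiff hv.1 hv.2, hv.2⟩
    have heq : ∑ v ∈ bd (Q y q \ G), (if v ∈ G then 0 else ε * max 0 (f v)) =
        ∑ v ∈ (bd (Q y q \ G)).filter (fun v => v ∉ G), ε * max 0 (f v) := by
      rw [Finset.sum_filter]
      apply Finset.sum_congr rfl
      intro w _
      by_cases hw : w ∈ G
      · rw [if_pos hw, if_neg (not_not.2 hw)]
      · rw [if_neg hw, if_pos hw]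
    rw [heq, Finset.mul_sum]
    rcases hε0 with h | h
    · apply Finset.sum_le_sum_of_subset_of_nonneg hsubs
      intro v _ _
      exact mul_nonneg h (le_max_left _ _)
    · rw [h] at hsubs ⊢
      rw [Finset.subset_empty.1 hsubs]
  linarith

/-- NEAR case (deterministic) -/
theorem X4near : ∃ C c0 : ℝ, 0 < C ∧ 0 < c0 ∧ ∀ (ρ m : ℕ), 1 ≤ m → 32 * m ≤ ρ → ∀ (D G F : Finset V) (y : V) (f : V → ℝ)
    (B M : ℝ), G ⊆ D → F ⊆ G → Q y ρ ⊆ D → y ∉ G → 0 ≤ B → 0 ≤ M →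
    (∃ g ∈ G, dI y g ≤ m) → (∀ g ∈ G, ∀ k : ℕ, 1 ≤ k → k ≤ ρ → ∃ g' ∈ G, dI g g' = k) →
    (∀ x ∈ D \ G, f x = av f x) →
    (∀ v ∈ G, dI y v ≤ (ρ / 2 : ℕ) → (∃ x ∈ D \ G, nn v x) → v ∈ F ∨ f v ≤ B) → (∀ v ∈ F, f v ≤ M) →
    f y ≤ B + M * (∑ v ∈ F, hm (D \ G) y v) +
      C * ((m : ℝ) / ρ) ^ c0 / (ρ : ℝ) ^ 2 * ∑ x ∈ Q y (ρ / 2 : ℕ) \ G, max 0 (f x) := by
  obtain ⟨C3, c3, hC3, hc3, h3⟩ := beurling
  obtain ⟨C4, hC4, h4⟩ := exit_density
  refine ⟨32 * C4 * C3 * (16 : ℝ) ^ c3, c3, by positivity, hc3, ?_⟩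
  intro ρ m hm1 hmρ D G F y f B M _ hFG hQ hy hB hM hg hthick hf hvis hfM
  set S := B + M * (∑ v ∈ F, hm (D \ G) y v) with hS
  set T := ∑ x ∈ Q y (ρ / 2 : ℕ) \ G, max 0 (f x) with hT
  have hT0 : 0 ≤ T := Finset.sum_nonneg (fun x _ => le_max_left _ _)
  have hρ : 32 ≤ ρ := by omega
  have hρR : (32 : ℝ) ≤ ρ := by exact_mod_cast hρ
  have hρ0 : (0 : ℝ) < ρ := by linarith
  set J := Finset.Ico ((ρ + 3) / 4) (ρ / 2) with hJ
  have hJc : (ρ : ℝ) ≤ 8 * (J.card : ℝ) := by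
    rw [hJ, Nat.card_Ico]
    have : ρ ≤ 8 * (ρ / 2 - (ρ + 3) / 4) := by omega
    exact_mod_cast this
  set ε := C4 * 4 / ρ * (C3 * ((16 : ℝ) ^ c3 * ((m : ℝ) / ρ) ^ c3)) with hε
  have hε0 : 0 ≤ ε := by positivity
  have hq : ∀ q ∈ J, f y ≤ S + ε * ∑ x ∈ bd (Q y (q : ℤ)) \ G, max 0 (f x) := by
    intro q hq
    rw [hJ, Finset.mem_Ico] at hq
    have h := x4n_one C3 c3 C4 hC4 h3 h4 ρ m q hm1 hmρ (by omega) (by omega) D G F y f B M hFG hQ hy
      hB hM hg hthick hf hvis hfM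
    refine h.trans ?_
    have hs0 : 0 ≤ ∑ x ∈ bd (Q y (q : ℤ)) \ G, max 0 (f x) :=
      Finset.sum_nonneg (fun x _ => le_max_left _ _)
    have hq0 : (0 : ℝ) < q := by
      have : 0 < q := by omega
      exact_mod_cast this
    have h1 : C4 / q ≤ C4 * 4 / ρ := by
      rw [div_le_div_iff₀ hq0 hρ0]
      have : (ρ : ℝ) ≤ 4 * q := by
        have : ρ ≤ 4 * q := by omega
        exact_mod_cast this
      nlinarith
    have h2 : ((m : ℝ) / (ρ / 8 : ℕ)) ^ c3 ≤ (16 : ℝ) ^ c3 * ((m : ℝ) / ρ) ^ c3 := by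
      rw [← Real.mul_rpow (by norm_num) (by positivity)]
      apply Real.rpow_le_rpow (by positivity) _ hc3.le
      have h5 : (0 : ℝ) < ((ρ / 8 : ℕ) : ℝ) := by
        have : 0 < ρ / 8 := by omega
        exact_mod_cast this
      rw [mul_div_assoc', div_le_div_iff₀ h5 hρ0]
      have h6 : (ρ : ℝ) ≤ 16 * ((ρ / 8 : ℕ) : ℝ) := by
        have : ρ ≤ 16 * (ρ / 8) := by omega
        exact_mod_cast this
      have h7 : (0 : ℝ) ≤ m := by positivity
      nlinarith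
    have h8 : C4 / q * (C3 * ((m : ℝ) / (ρ / 8 : ℕ)) ^ c3) ≤ ε := by
      rw [hε]
      gcongr
    have := mul_le_mul_of_nonneg_right h8 hs0
    linarith
  -- sum over q
  have hsum : (J.card : ℝ) * f y ≤ (J.card : ℝ) * S + ε * T := by
    calc (J.card : ℝ) * f y = ∑ _q ∈ J, f y := by rw [Finset.sum_const, nsmul_eq_mul]
      _ ≤ ∑ q ∈ J, (S + ε * ∑ x ∈ bd (Q y (q : ℤ)) \ G, max 0 (f x)) := Finset.sum_le_sum hq
      _ = (J.card : ℝ) * S + ε * ∑ q ∈ J, ∑ x ∈ bd (Q y (q : ℤ)) \ G, max 0 (f x) := by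
          rw [Finset.sum_add_distrib, Finset.sum_const, nsmul_eq_mul, Finset.mul_sum]
      _ ≤ (J.card : ℝ) * S + ε * T := by
          have hdist : ∀ q : ℕ, ∀ x ∈ bd (Q y (q : ℤ)) \ G, dI x y = q + 1 := by
            intro q x hx
            rw [Finset.mem_sdiff] at hx
            have h1 := not_mem_of_mem_bd hx.1
            obtain ⟨w, hw, _, hwd⟩ := x4n_nbr hx.1
            rw [x4n_mem_Q] at h1 hw
            have h2 := x4n_dI_tri x w y
            omega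
          have hle : ∑ q ∈ J, ∑ x ∈ bd (Q y (q : ℤ)) \ G, max 0 (f x) ≤ T := by
            rw [← Finset.sum_biUnion]
            · apply Finset.sum_le_sum_of_subset_of_nonneg
              · intro x hx
                rw [Finset.mem_biUnion] at hx
                obtain ⟨q, hqJ, hxq⟩ := hx
                have h1 := hdist q x hxq
                rw [hJ, Finset.mem_Ico] at hqJ
                rw [Finset.mem_sdiff] at hxq ⊢
                refine ⟨?_, hxq.2⟩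
                rw [x4n_mem_Q, h1]
                omega
              · intro x _ _
                exact le_max_left _ _
            · intro q _ q' _ hqq'
              rw [Function.onFun, Finset.disjoint_left]
              intro x hx hx'
              apply hqq'
              have h1 := hdist q x hx
              have h2 := hdist q' x hx'
              omega
          have := mul_le_mul_of_nonneg_left hle hε0
          linarith
  have hJ0 : (0 : ℝ) < J.card := by linarith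
  have hfin : f y ≤ S + ε * T / J.card := by
    rw [← sub_le_iff_le_add', le_div_iff₀ hJ0]
    nlinarith
  refine hfin.trans ?_
  have hlast : ε * T / J.card ≤ 32 * C4 * C3 * (16 : ℝ) ^ c3 * ((m : ℝ) / ρ) ^ c3 / (ρ : ℝ) ^ 2 * T := by
    have h1 : ε * T / J.card ≤ ε * T * (8 / ρ) := by
      rw [div_eq_mul_inv]
      apply mul_le_mul_of_nonneg_left _ (mul_nonneg hε0 hT0)
      rw [inv_le_iff_one_le_mul₀ hJ0, mul_comm_div, ← mul_div_assoc, le_div_iff₀ hρ0]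
      linarith
    refine h1.trans (le_of_eq ?_)
    rw [hε]
    field_simp
    ring
  linarith

end GF
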