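import Pool.Agent.Lib.MP_acf58e_gf.P8b

/-! MP_acf58e_pr, row P8c: supremum of the harmonic extension. -/

open MeasureTheory Set
open scoped ENNReal

namespace GF

private theorem mem_Q_iff {z x : V} {r : ℤ} : x ∈ Q z r ↔ dI x z ≤ r := by
  unfold Q dI
  rw [Finset.mem_Icc, Prod.le_def, Prod.le_def, max_le_iff, abs_le, abs_le]
  simp only
  constructor
  · rintro ⟨⟨h1, h2⟩, h3, h4⟩
    refine ⟨⟨?_, ?_⟩, ?_, ?_⟩ <;> linarith
  · rintro ⟨⟨h1, h2⟩, h3, h4⟩
    refine ⟨⟨?_, ?_⟩, ?_, ?_⟩ <;> linarith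

private theorem dI_tri (x y z : V) : dI x z ≤ dI x y + dI y z := by
  unfold dI
  apply max_le
  · have h1 : |x.1 - z.1| ≤ |x.1 - y.1| + |y.1 - z.1| := abs_sub_le _ _ _
    have h2 := le_max_left |x.1 - y.1| |x.2 - y.2|
    have h3 := le_max_left |y.1 - z.1| |y.2 - z.2|
    linarith
  · have h1 : |x.2 - z.2| ≤ |x.2 - y.2| + |y.2 - z.2| := abs_sub_le _ _ _
    have h2 := le_max_right |x.1 - y.1| |x.2 - y.2|
    have h3 := le_max_right |y.1 - z.1| |y.2 - z.2|
    linarith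

private theorem Q_subset {z w : V} {r s : ℤ} (h : dI z w + r ≤ s) : Q z r ⊆ Q w s := by
  intro x hx
  rw [mem_Q_iff] at hx ⊢
  have := dI_tri x z w
  linarith

private theorem Q_mono {z : V} {r s : ℤ} (h : r ≤ s) : Q z r ⊆ Q z s := by
  intro x hx
  rw [mem_Q_iff] at hx ⊢
  linarith

private theorem bd_Q_subset {z v : V} {r : ℤ} (h : v ∈ bd (Q z r)) : v ∈ Q z (r + 1) := by
  obtain ⟨_, h2⟩ := mem_bd_iff.1 h
  rw [mem_Q_iff]
  have key : ∀ u : V, dI v u ≤ 1 → u ∈ Q z r → dI v z ≤ r + 1 := by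
    intro u h1 h2
    rw [mem_Q_iff] at h2
    have := dI_tri v u z
    linarith
  rcases h2 with h2 | h2 | h2 | h2
  · exact key _ (by simp [dI, nE]) h2
  · exact key _ (by simp [dI, nW]) h2
  · exact key _ (by simp [dI, nN]) h2
  · exact key _ (by simp [dI, nS]) h2

private theorem dI_bd_Q {z v : V} {r : ℤ} (h : v ∈ bd (Q z r)) : dI v z = r + 1 := by
  have h1 := bd_Q_subset h
  have h2 := not_mem_of_mem_bd h
  rw [mem_Q_iff] at h1 h2
  push Not at h2
  omega

private theorem card_Q (z : V) (r : ℤ) (hr : 0 ≤ r) : ((Q z r).card : ℝ) = (2 * r + 1) ^ 2 := by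
  unfold Q
  rw [← Finset.Icc_product_Icc, Finset.card_product, Int.card_Icc, Int.card_Icc]
  have e1 : z.1 + r + 1 - (z.1 - r) = 2 * r + 1 := by ring
  have e2 : z.2 + r + 1 - (z.2 - r) = 2 * r + 1 := by ring
  rw [e1, e2]
  have h : ((2 * r + 1).toNat : ℝ) = 2 * r + 1 := by
    have : (((2 * r + 1).toNat : ℤ) : ℝ) = ((2 * r + 1 : ℤ) : ℝ) := by
      rw [Int.toNat_of_nonneg (by linarith)]
    push_cast at this
    rw [← this]
  push_cast
  rw [h]
  ring

/-- the integrated bound -/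
private theorem sup_bound {D E : Finset V} (β : V → ℝ) (hED : E ⊆ D) (T : Finset V) (S : Finset V) (hS : S ⊆ E)
    (c B : ℝ) (hc : 0 ≤ c)
    (hv : ∀ z ∈ S, vr D (bd E) (fun y => hm E z y) ≤ B)
    (hb : ∀ X : V → ℝ, ∀ y ∈ T, |hx E X y - hx D β y| ≤ c * ∑ z ∈ S, |hx E X z - hx D β z|) :
    ∫⁻ X, ENNReal.ofReal (⨆ y : T, |hx E X y - hx D β y|) ∂gam D β
      ≤ ENNReal.ofReal (c * (S.card * Real.sqrt B)) := by
  have h1 : ∀ X : V → ℝ, (⨆ y : T, |hx E X y - hx D β y|) ≤ c * ∑ z ∈ S, |hx E X z - hx D β z| := by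
    intro X
    apply Real.iSup_le
    · rintro ⟨y, hy⟩
      exact hb X y hy
    · positivity
  have h2 : ∀ z ∈ S, (fun X : V → ℝ => |hx E X z - hx D β z|)
      = fun X => |lin D β (bd E) (fun y => hm E z y) X| := by
    intro z hz
    funext X
    rw [hx_sub_eq_lin hED (hS hz)]
  have hint : ∀ z ∈ S, Integrable (fun X : V → ℝ => |hx E X z - hx D β z|) (gam D β) := by
    intro z hz
    rw [h2 z hz]
    exact (integrable_lin D β (bd E) _).abs
  calc ∫⁻ X, ENNReal.ofReal (⨆ y : T, |hx E X y - hx D β y|) ∂gam D β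
      ≤ ∫⁻ X, ENNReal.ofReal (c * ∑ z ∈ S, |hx E X z - hx D β z|) ∂gam D β :=
        lintegral_mono (fun X => ENNReal.ofReal_le_ofReal (h1 X))
    _ = ENNReal.ofReal (∫ X, c * ∑ z ∈ S, |hx E X z - hx D β z| ∂gam D β) := by
        rw [ofReal_integral_eq_lintegral_ofReal]
        · exact (integrable_finsetSum S hint).const_mul c
        · exact Filter.Eventually.of_forall (fun X => by positivity)
    _ ≤ ENNReal.ofReal (c * (S.card * Real.sqrt B)) := by
        apply ENNReal.ofReal_le_ofReal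
        rw [integral_const_mul, integral_finsetSum S hint]
        apply mul_le_mul_of_nonneg_left _ hc
        rw [← nsmul_eq_mul]
        apply Finset.sum_le_card_nsmul
        intro z hz
        rw [h2 z hz]
        exact (integral_abs_lin_le D β (bd E) _).trans (Real.sqrt_le_sqrt (hv z hz))

/-- the deterministic averaging bound -/
private theorem avg_bound {C4 : ℝ} (hC4 : 0 < C4)
    (h4 : ∀ (r : ℤ) (z x y : V), 1 ≤ r → 5 * dI x z ≤ 4 * r → hm (Q z r) x y ≤ C4 / r)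
    (x : V) (r : ℤ) (hr : 4 ≤ r) (Y : V → ℝ) (hY : ∀ v ∈ Q x (8 * r), Y v = av Y v) (y : V)
    (hy : dI y x ≤ 4 * r + 3) :
    |Y y| ≤ C4 / (6 * r ^ 2) * ∑ z ∈ Q x (7 * r), |Y z| := by
  have hr0 : (0:ℝ) < r := by exact_mod_cast (by linarith : (0:ℤ) < r)
  have hx0 : dI x x = 0 := by simp [dI]
  -- one radius
  have h1 : ∀ q ∈ Finset.Ico (6 * r) (7 * r), |Y y| ≤ C4 / (6 * r) * ∑ z ∈ bd (Q x q), |Y z| := by
    intro q hq
    rw [Finset.mem_Ico] at hq
    have hq0 : (0:ℝ) < q := by exact_mod_cast (by linarith [hq.1] : (0:ℤ) < q)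
    have hyq : y ∈ Q x q := mem_Q_iff.2 (by linarith [hq.1])
    have e1 : Y = hx (Q x q) Y := by
      symm
      apply hx_self
      intro v hv
      exact hY v (Q_mono (by linarith [hq.2]) hv)
    have e2 : Y y = ∑ z ∈ bd (Q x q), hm (Q x q) y z * Y z := by
      conv_lhs => rw [e1]
      exact hx_eq_sum hyq Y
    rw [e2, Finset.mul_sum]
    refine (Finset.abs_sum_le_sum_abs _ _).trans (Finset.sum_le_sum ?_)
    intro z _
    rw [abs_mul, abs_of_nonneg (hm_nonneg _ _ _)]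
    apply mul_le_mul_of_nonneg_right _ (abs_nonneg _)
    refine (h4 q x y z (by linarith [hq.1]) (by linarith [hq.1])).trans ?_
    apply div_le_div_of_nonneg_left hC4.le (by positivity)
    have : (6 * r : ℤ) ≤ q := hq.1
    exact_mod_cast this
  -- sum over the radii
  have h2 : ∑ q ∈ Finset.Ico (6 * r) (7 * r), ∑ z ∈ bd (Q x q), |Y z| ≤ ∑ z ∈ Q x (7 * r), |Y z| := by
    rw [← Finset.sum_biUnion]
    · apply Finset.sum_le_sum_of_subset_of_nonneg
      · intro v hv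
        rw [Finset.mem_biUnion] at hv
        obtain ⟨q, hq, hv⟩ := hv
        rw [Finset.mem_Ico] at hq
        exact Q_mono (by linarith [hq.2]) (bd_Q_subset hv)
      · intro _ _ _; exact abs_nonneg _
    · intro q hq q' hq' hne
      rw [Function.onFun, Finset.disjoint_left]
      intro v hv hv'
      have e1 := dI_bd_Q hv
      have e2 := dI_bd_Q hv'
      exact hne (by linarith)
  have h3 : (r : ℝ) * |Y y| ≤ C4 / (6 * r) * ∑ z ∈ Q x (7 * r), |Y z| := by
    have e : ((Finset.Ico (6 * r) (7 * r)).card : ℝ) = r := by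
      rw [Int.card_Ico]
      have : (7 * r - 6 * r).toNat = r.toNat := by congr 1; ring
      rw [this]
      exact_mod_cast Int.toNat_of_nonneg (by linarith : (0:ℤ) ≤ r)
    calc (r : ℝ) * |Y y| = ∑ q ∈ Finset.Ico (6 * r) (7 * r), |Y y| := by
          rw [Finset.sum_const, nsmul_eq_mul, e]
      _ ≤ ∑ q ∈ Finset.Ico (6 * r) (7 * r), C4 / (6 * r) * ∑ z ∈ bd (Q x q), |Y z| := Finset.sum_le_sum h1
      _ = C4 / (6 * r) * ∑ q ∈ Finset.Ico (6 * r) (7 * r), ∑ z ∈ bd (Q x q), |Y z| := by rw [Finset.mul_sum]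
      _ ≤ _ := mul_le_mul_of_nonneg_left h2 (by positivity)
  have h5 : C4 / (6 * r ^ 2) * ∑ z ∈ Q x (7 * r), |Y z| = (C4 / (6 * r) * ∑ z ∈ Q x (7 * r), |Y z|) / r := by
    field_simp
  rw [h5, le_div_iff₀ hr0]
  linarith

/-- P8 (iii) -/
theorem sup_hx : ∃ C : ℝ, 0 < C ∧ ∀ (D E : Finset V) (β : V → ℝ) (z x : V) (N ρ : ℤ), 1 ≤ ρ → D ⊆ Q z N → E ⊆ D →
    Q x ρ ⊆ E →
    ∫⁻ X, ENNReal.ofReal (⨆ y : Q x (ρ / 2), |hx E X y - hx D β y|) ∂gam D β
      ≤ ENNReal.ofReal (C * Real.sqrt (1 + Real.log (N / ρ))) := by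
  obtain ⟨C4, hC4, h4⟩ := exit_density
  obtain ⟨C6, hC6, h6⟩ := var_hx_le
  have hk := kap_pos
  have hki : 0 < kap⁻¹ := inv_pos.2 hk
  -- the constant
  obtain ⟨K, hK⟩ : ∃ K : ℝ, K = kap⁻¹ * (1 + Real.log 32) + C6 := ⟨_, rfl⟩
  have hl32 : 0 < Real.log 32 := Real.log_pos (by norm_num)
  have hK0 : 0 < K := by rw [hK]; positivity
  have hsK : 0 < Real.sqrt K := Real.sqrt_pos.2 hK0
  refine ⟨(961 + 225 / 6 * C4) * Real.sqrt K, by positivity, ?_⟩
  intro D E β z x N ρ hρ hD hED hQ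
  have hρ0 : (0:ℝ) < ρ := by exact_mod_cast (by linarith : (0:ℤ) < ρ)
  -- ρ ≤ N
  have hρN : ρ ≤ N := by
    have a1 : ((x.1 + ρ, x.2) : V) ∈ Q z N := by
      apply hD; apply hED; apply hQ
      rw [mem_Q_iff]; simp [dI, abs_of_pos (by linarith : (0:ℤ) < ρ)]; linarith
    have a2 : ((x.1 - ρ, x.2) : V) ∈ Q z N := by
      apply hD; apply hED; apply hQ
      rw [mem_Q_iff]; simp [dI, abs_of_pos (by linarith : (0:ℤ) < ρ)]; linarith
    rw [mem_Q_iff] at a1 a2
    unfold dI at a1 a2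
    have b1 := (le_max_left _ _).trans a1
    have b2 := (le_max_left _ _).trans a2
    rw [abs_le] at b1 b2
    simp only at b1 b2
    linarith [b1.2, b2.1]
  have hN1 : 1 ≤ N := hρ.trans hρN
  have hN0 : (0:ℝ) < N := by exact_mod_cast (by linarith : (0:ℤ) < N)
  have hρNr : (ρ:ℝ) ≤ N := by exact_mod_cast hρN
  have hlog : 0 ≤ Real.log (N / ρ) := Real.log_nonneg (by rw [le_div_iff₀ hρ0]; linarith)
  obtain ⟨L, hL⟩ : ∃ L : ℝ, L = Real.log (N / ρ) := ⟨_, rfl⟩
  rw [← hL] at hlog ⊢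
  -- the variance bound
  have hvar : ∀ (m : ℤ), 1 ≤ m → (ρ:ℝ) ≤ 32 * m → ∀ w : V, Q w m ⊆ E →
      vr D (bd E) (fun y => hm E w y) ≤ K * (1 + L) := by
    intro m hm1 hρm w hw
    have hm0 : (0:ℝ) < m := by exact_mod_cast (by linarith : (0:ℤ) < m)
    refine (h6 D E z w N m hm1 hN1 hD hED hw).trans ?_
    have e : Real.log (N / m) ≤ L + Real.log 32 := by
      rw [hL, ← Real.log_mul (by positivity) (by norm_num)]
      apply Real.log_le_log (by positivity)
      rw [div_mul_eq_mul_div, div_le_div_iff₀ hm0 hρ0]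
      nlinarith
    calc kap⁻¹ * Real.log (N / m) + C6 ≤ kap⁻¹ * (L + Real.log 32) + C6 := by gcongr
      _ ≤ K * (1 + L) := by
        rw [hK]
        have : 0 ≤ (kap⁻¹ * Real.log 32 + C6) * L := by positivity
        nlinarith
  have hfin : ∀ (a : ℝ), 0 ≤ a → a ≤ 961 + 225 / 6 * C4 →
      ENNReal.ofReal (a * Real.sqrt (K * (1 + L)))
        ≤ ENNReal.ofReal ((961 + 225 / 6 * C4) * Real.sqrt K * Real.sqrt (1 + L)) := by
    intro a ha hle
    apply ENNReal.ofReal_le_ofReal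
    rw [Real.sqrt_mul hK0.le, ← mul_assoc]
    gcongr
  by_cases hbig : 32 ≤ ρ
  · -- large radius
    obtain ⟨r, hrdef⟩ : ∃ r : ℤ, r = ρ / 8 := ⟨_, rfl⟩
    have hr4 : 4 ≤ r := by omega
    have hr8 : 8 * r ≤ ρ := by omega
    have hr8' : ρ ≤ 8 * r + 7 := by omega
    have hr0 : (0:ℝ) < r := by exact_mod_cast (by linarith : (0:ℤ) < r)
    have hS : Q x (7 * r) ⊆ E := (Q_mono (by linarith)).trans hQ
    have hmain := sup_bound (D := D) (E := E) β hED (Q x (ρ / 2)) (Q x (7 * r)) hS (C4 / (6 * r ^ 2)) (K * (1 + L))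
      (by positivity)
      (by
        intro w hw
        apply hvar r (by linarith)
        · have : ρ ≤ 32 * r := by omega
          exact_mod_cast this
        · refine (Q_subset (s := ρ) ?_).trans hQ
          rw [mem_Q_iff] at hw
          linarith)
      (by
        intro X y hy
        rw [mem_Q_iff] at hy
        apply avg_bound hC4 h4 x r hr4 (fun v => hx E X v - hx D β v)
        · intro v hv
          have hvE : v ∈ E := hQ (Q_mono hr8 hv)
          have e1 := hx_harm E X hvE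
          have e2 := hx_harm D β (hED hvE)
          have e3 : av (fun v => hx E X v - hx D β v) v = av (hx E X) v - av (hx D β) v := by unfold av; ring
          rw [e3, ← e1, ← e2]
        · omega)
    refine hmain.trans ?_
    rw [← mul_assoc]
    apply hfin _ (by positivity)
    rw [card_Q x (7 * r) (by linarith)]
    push_cast
    have e1 : (2 * (7 * (r:ℝ)) + 1) ^ 2 ≤ 225 * r ^ 2 := by
      have : (1:ℝ) ≤ r := by exact_mod_cast (by linarith : (1:ℤ) ≤ r)
      nlinarith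
    calc C4 / (6 * (r:ℝ) ^ 2) * (2 * (7 * (r:ℝ)) + 1) ^ 2 ≤ C4 / (6 * (r:ℝ) ^ 2) * (225 * r ^ 2) := by
          gcongr
      _ = 225 / 6 * C4 := by field_simp
      _ ≤ _ := by linarith
  · -- small radius
    have hsm : ρ ≤ 31 := by omega
    have hS : Q x (ρ / 2) ⊆ E := (Q_mono (by omega)).trans hQ
    have hmain := sup_bound (D := D) (E := E) β hED (Q x (ρ / 2)) (Q x (ρ / 2)) hS 1 (K * (1 + L)) (by norm_num)
      (by
        intro w hw
        apply hvar 1 le_rfl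
        · have : (ρ:ℝ) ≤ 31 := by exact_mod_cast hsm
          push_cast
          linarith
        · refine (Q_subset (s := ρ) ?_).trans hQ
          rw [mem_Q_iff] at hw
          omega)
      (by
        intro X y hy
        rw [one_mul]
        exact Finset.single_le_sum (f := fun v => |hx E X v - hx D β v|) (fun _ _ => abs_nonneg _) hy)
    refine hmain.trans ?_
    rw [one_mul]
    apply hfin _ (by positivity)
    rw [card_Q x (ρ / 2) (by omega)]
    have h1 : (((ρ / 2 : ℤ)) : ℝ) ≤ 15 := by exact_mod_cast (by omega : ρ / 2 ≤ 15)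
    have h2 : (0:ℝ) ≤ ((ρ / 2 : ℤ) : ℝ) := by exact_mod_cast (by omega : 0 ≤ ρ / 2)
    nlinarith

end GF
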