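import Pool.Agent.Lib.MP_acf58e_gf.X0
import Pool.Agent.Lib.MP_acf58e_gf.P8c
import Pool.Agent.Lib.MP_acf58e_gf.P8b

open MeasureTheory Set ProbabilityTheory
open scoped ENNReal

namespace GF

/-- supremum of the harmonic extension of the environment -/
theorem X4sup (A : ℕ) : ∃ C : ℝ, 0 < C ∧ ∀ (r ρ : ℕ), 1 ≤ ρ → ρ ≤ r → ∀ (D Damb : Finset V) (z y : V), D ⊆ Damb →
    Damb ⊆ Q z (A * r) → Q y ρ ⊆ D → ∀ mu : ℝ,
    ∫⁻ X, (⨆ x ∈ Q y (ρ / 2 : ℕ), ENNReal.ofReal |hx D X x - mu|) ∂(gam Damb (fun _ => mu)) ≤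
      ENNReal.ofReal (C * Real.sqrt (1 + Real.log (r / ρ))) := by
  obtain ⟨C, hC, hsup⟩ := sup_hx
  refine ⟨C * Real.sqrt (1 + Real.log A), ?_, ?_⟩
  · apply mul_pos hC
    apply Real.sqrt_pos.2
    have := Real.log_natCast_nonneg A
    linarith
  intro r ρ hρ hρr D Damb z y hD hDamb hQ mu
  have hA : 1 ≤ A := by
    by_contra hcon
    have hA0 : A = 0 := by omega
    subst hA0
    have h1 : y ∈ Q z (((0 : ℕ) : ℤ) * r) := hDamb (hD (hQ (by
      unfold Q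
      rw [Finset.mem_Icc, Prod.le_def, Prod.le_def]
      simp only
      refine ⟨⟨?_, ?_⟩, ?_, ?_⟩ <;> linarith [(Nat.cast_nonneg ρ : (0:ℤ) ≤ ρ)])))
    have h2 : (y.1 + 1, y.2) ∈ Q z (((0 : ℕ) : ℤ) * r) := hDamb (hD (hQ (by
      have hρ' : (1:ℤ) ≤ ρ := by exact_mod_cast hρ
      unfold Q
      rw [Finset.mem_Icc, Prod.le_def, Prod.le_def]
      simp only
      refine ⟨⟨?_, ?_⟩, ?_, ?_⟩ <;> linarith)))
    unfold Q at h1 h2
    rw [Finset.mem_Icc, Prod.le_def, Prod.le_def] at h1 h2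
    simp only [Nat.cast_zero, zero_mul, sub_zero, add_zero] at h1 h2
    linarith [h1.1.1, h2.2.1]
  have hρ' : (1:ℤ) ≤ (ρ : ℤ) := by exact_mod_cast hρ
  have h := hsup Damb D (fun _ => mu) z y ((A : ℤ) * r) ρ hρ' hDamb hD hQ
  rw [hx_const] at h
  refine le_trans ?_ (le_trans h ?_)
  · apply lintegral_mono
    intro X
    apply iSup₂_le
    intro x hxQ
    have hxQ' : x ∈ Q y ((ρ : ℤ) / 2) := by
      have e : (((ρ / 2 : ℕ)) : ℤ) = (ρ : ℤ) / 2 := by push_cast; rfl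
      rw [e] at hxQ
      exact hxQ
    apply ENNReal.ofReal_le_ofReal
    exact le_ciSup (f := fun y' : Q y ((ρ : ℤ) / 2) => |hx D X y' - mu|) (Set.finite_range _).bddAbove ⟨x, hxQ'⟩
  · apply ENNReal.ofReal_le_ofReal
    have hρ0 : (0:ℝ) < ρ := by exact_mod_cast hρ
    have hr0 : (0:ℝ) < r := by exact_mod_cast (by omega : 0 < r)
    have hA0 : (0:ℝ) < A := by exact_mod_cast hA
    have hlogA : 0 ≤ Real.log A := Real.log_natCast_nonneg A
    have hlogr : 0 ≤ Real.log (r / ρ) := by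
      apply Real.log_nonneg
      rw [le_div_iff₀ hρ0, one_mul]
      exact_mod_cast hρr
    have e : Real.log (((((A : ℤ) * r : ℤ)) : ℝ) / ((ρ : ℤ) : ℝ)) = Real.log A + Real.log (r / ρ) := by
      push_cast
      rw [mul_div_assoc, Real.log_mul hA0.ne' (div_pos hr0 hρ0).ne']
    rw [e, mul_assoc, ← Real.sqrt_mul (by linarith)]
    apply mul_le_mul_of_nonneg_left _ hC.le
    apply Real.sqrt_le_sqrt
    nlinarith [mul_nonneg hlogA hlogr]

end GF
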