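import Pool.Agent.Lib.MP_acf58e_gf.X1
import Pool.Agent.Lib.MP_acf58e_gf.X2
import Pool.Agent.Lib.MP_acf58e_gf.X4far
import Pool.Agent.Lib.MP_acf58e_gf.X4near
import Pool.Agent.Lib.MP_acf58e_gf.X4sup
import Pool.Agent.Lib.MP_acf58e_gf.X4M

open MeasureTheory Set ProbabilityTheory
open scoped ENNReal

namespace GF

namespace X4

private theorem mem_Q {z x : V} {k : ℤ} : x ∈ Q z k ↔ dI z x ≤ k := by
  unfold Q dI
  rw [Finset.mem_Icc, Prod.le_def, Prod.le_def, max_le_iff, abs_le, abs_le]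
  constructor
  · rintro ⟨⟨h1, h2⟩, h3, h4⟩
    simp only at h1 h2 h3 h4
    refine ⟨⟨by linarith, by linarith⟩, by linarith, by linarith⟩
  · rintro ⟨⟨h1, h2⟩, h3, h4⟩
    refine ⟨⟨?_, ?_⟩, ?_, ?_⟩ <;> simp only <;> linarith

private theorem dI_comm (x y : V) : dI x y = dI y x := by
  unfold dI
  rw [abs_sub_comm x.1, abs_sub_comm x.2]

private theorem dI_tri (x y z : V) : dI x z ≤ dI x y + dI y z := by
  unfold dI
  refine max_le ?_ ?_
  · have h1 := abs_sub_le x.1 y.1 z.1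
    have h2 := le_max_left |x.1 - y.1| |x.2 - y.2|
    have h3 := le_max_left |y.1 - z.1| |y.2 - z.2|
    linarith
  · have h1 := abs_sub_le x.2 y.2 z.2
    have h2 := le_max_right |x.1 - y.1| |x.2 - y.2|
    have h3 := le_max_right |y.1 - z.1| |y.2 - z.2|
    linarith

private theorem dI_self (x : V) : dI x x = 0 := by
  unfold dI; simp

private theorem card_Q (z : V) (k : ℕ) : ((Q z k).card : ℝ) = (2 * k + 1) ^ 2 := by
  unfold Q
  rw [Finset.card_Icc_prod, Int.card_Icc, Int.card_Icc]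
  have h1 : (z.1 + (k : ℤ) + 1 - (z.1 - k)).toNat = 2 * k + 1 := by omega
  have h2 : (z.2 + (k : ℤ) + 1 - (z.2 - k)).toNat = 2 * k + 1 := by omega
  simp only [h1, h2]
  push_cast
  ring

private theorem card_Rc {a b c d : ℤ} {A r : ℕ} (hr : 1 ≤ r) (h0 : (r : ℤ) ≤ b - a)
    (h1 : b - a ≤ A * r) (h2 : (r : ℤ) ≤ d - c) (h3 : d - c ≤ A * r) :
    ((Rc a b c d).card : ℝ) ≤ ((A : ℝ) + 1) ^ 2 * (r : ℝ) ^ 2 := by
  unfold Rc
  rw [Finset.card_Icc_prod, Int.card_Icc, Int.card_Icc]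
  simp only
  have e1 : (((b + 1 - a).toNat : ℤ)) = b + 1 - a := Int.toNat_of_nonneg (by omega)
  have e2 : (((d + 1 - c).toNat : ℤ)) = d + 1 - c := Int.toNat_of_nonneg (by omega)
  have f1 : (((b + 1 - a).toNat : ℤ)) ≤ (A + 1) * r := by
    rw [e1]
    have : (1 : ℤ) ≤ r := by exact_mod_cast hr
    linarith
  have f2 : (((d + 1 - c).toNat : ℤ)) ≤ (A + 1) * r := by
    rw [e2]
    have : (1 : ℤ) ≤ r := by exact_mod_cast hr
    linarith
  have g1 : (((b + 1 - a).toNat : ℝ)) ≤ (A + 1) * r := by exact_mod_cast f1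
  have g2 : (((d + 1 - c).toNat : ℝ)) ≤ (A + 1) * r := by exact_mod_cast f2
  push_cast
  calc ((b + 1 - a).toNat : ℝ) * ((d + 1 - c).toNat : ℝ) ≤ ((A + 1) * r) * ((A + 1) * r) := by
        gcongr
    _ = _ := by ring

/-- X4near as a definition -/
private def Near (C c0 : ℝ) : Prop :=
  ∀ (ρ m : ℕ), 1 ≤ m → 32 * m ≤ ρ → ∀ (D G F : Finset V) (y : V) (f : V → ℝ)
    (B M : ℝ), G ⊆ D → F ⊆ G → Q y ρ ⊆ D → y ∉ G → 0 ≤ B → 0 ≤ M →
    (∃ g ∈ G, dI y g ≤ m) → (∀ g ∈ G, ∀ k : ℕ, 1 ≤ k → k ≤ ρ → ∃ g' ∈ G, dI g g' = k) →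
    (∀ x ∈ D \ G, f x = av f x) →
    (∀ v ∈ G, dI y v ≤ (ρ / 2 : ℕ) → (∃ x ∈ D \ G, nn v x) → v ∈ F ∨ f v ≤ B) → (∀ v ∈ F, f v ≤ M) →
    f y ≤ B + M * (∑ v ∈ F, hm (D \ G) y v) +
      C * ((m : ℝ) / ρ) ^ c0 / (ρ : ℝ) ^ 2 * ∑ x ∈ Q y (ρ / 2 : ℕ) \ G, max 0 (f x)

/-- one point -/
private theorem point {C c0 κ : ℝ} (hC : 0 < C) (hc0 : 0 < c0) (hn : Near C c0) {ρ m : ℕ}
    (hm1 : 1 ≤ m) (hm2 : 32 * m ≤ ρ) (hmκ : (m : ℝ) ≤ κ * ρ)
    {D G F : Finset V} {y : V} {f : V → ℝ} {B M : ℝ}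
    (hGD : G ⊆ D) (hFG : F ⊆ G) (hQ : Q y ρ ⊆ D) (hyG : y ∉ G) (hB : 0 ≤ B) (hM : 0 ≤ M)
    (thick : ∀ g ∈ G, ∀ k : ℕ, 1 ≤ k → k ≤ ρ → ∃ g' ∈ G, dI g g' = k)
    (harm : ∀ x ∈ D \ G, f x = av f x)
    (vis : ∀ v ∈ G, dI y v ≤ (ρ / 2 : ℕ) → (∃ x ∈ D \ G, nn v x) → v ∈ F ∨ f v ≤ B)
    (hFM : ∀ v ∈ F, f v ≤ M) :
    max 0 (f y) ≤ |∑ v ∈ bd (Q y m), hm (Q y m) y v * f v| + B + M * (∑ v ∈ F, hm (D \ G) y v)
      + C * κ ^ c0 / (ρ : ℝ) ^ 2 * ∑ x ∈ Q y (ρ / 2 : ℕ) \ G, max 0 (f x) := by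
  have hρ0 : (0 : ℝ) < ρ := by
    have : 0 < ρ := by omega
    exact_mod_cast this
  have hs0 : 0 ≤ ∑ v ∈ F, hm (D \ G) y v := Finset.sum_nonneg fun v _ => hm_nonneg _ _ _
  have hs1 : 0 ≤ ∑ x ∈ Q y (ρ / 2 : ℕ) \ G, max 0 (f x) :=
    Finset.sum_nonneg fun v _ => le_max_left _ _
  have hm0 : (0 : ℝ) < m := by exact_mod_cast hm1
  have hκ0 : 0 < κ := by
    by_contra h
    push Not at h
    have := mul_nonpos_of_nonpos_of_nonneg h hρ0.le
    linarith
  have hκc : 0 < κ ^ c0 := Real.rpow_pos_of_pos hκ0 _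
  have hT3 : 0 ≤ M * (∑ v ∈ F, hm (D \ G) y v) := mul_nonneg hM hs0
  have hT4 : 0 ≤ C * κ ^ c0 / (ρ : ℝ) ^ 2 * ∑ x ∈ Q y (ρ / 2 : ℕ) \ G, max 0 (f x) := by
    positivity
  have hT1 : 0 ≤ |∑ v ∈ bd (Q y m), hm (Q y m) y v * f v| := abs_nonneg _
  refine max_le (by linarith) ?_
  by_cases hnear : ∃ g ∈ G, dI y g ≤ m
  · have h := hn ρ m hm1 hm2 D G F y f B M hGD hFG hQ hyG hB hM hnear thick harm vis hFM
    have h1 : ((m : ℝ) / ρ) ^ c0 ≤ κ ^ c0 := by
      refine Real.rpow_le_rpow (by positivity) ?_ hc0.le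
      rw [div_le_iff₀ hρ0]
      exact hmκ
    have h2 : C * ((m : ℝ) / ρ) ^ c0 / (ρ : ℝ) ^ 2 * ∑ x ∈ Q y (ρ / 2 : ℕ) \ G, max 0 (f x)
        ≤ C * κ ^ c0 / (ρ : ℝ) ^ 2 * ∑ x ∈ Q y (ρ / 2 : ℕ) \ G, max 0 (f x) := by
      refine mul_le_mul_of_nonneg_right ?_ hs1
      exact div_le_div_of_nonneg_right (mul_le_mul_of_nonneg_left h1 hC.le) (by positivity)
    linarith
  · push Not at hnear
    have hyQ : y ∈ Q y m := by
      rw [mem_Q, dI_self]
      positivity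
    have hh : ∀ x ∈ Q y m, f x = av f x := by
      intro x hx
      refine harm x (Finset.mem_sdiff.2 ⟨hQ ?_, fun hxG => ?_⟩)
      · rw [mem_Q] at hx ⊢
        have : (m : ℤ) ≤ ρ := by exact_mod_cast (by omega : m ≤ ρ)
        linarith
      · rw [mem_Q] at hx
        have := hnear x hxG
        linarith
    have h1 : f y = ∑ v ∈ bd (Q y m), hm (Q y m) y v * f v := by
      conv_lhs => rw [← hx_self hh]
      exact hx_eq_sum hyQ f
    have h2 := le_abs_self (∑ v ∈ bd (Q y m), hm (Q y m) y v * f v)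
    linarith

open Classical in
/-- deep points which are not in G -/
private noncomputable def DG (D G : Finset V) (R : ℝ) : Finset V :=
  D.filter (fun y => Deep D y R ∧ y ∉ G)

open Classical in
/-- deep points -/
private noncomputable def DD (D : Finset V) (R : ℝ) : Finset V :=
  D.filter (fun y => Deep D y R)

private theorem mem_DG {D G : Finset V} {R : ℝ} {y : V} :
    y ∈ DG D G R ↔ y ∈ D ∧ Deep D y R ∧ y ∉ G := by
  simp only [DG, Finset.mem_filter]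

private theorem DG_sub (D G : Finset V) (R : ℝ) : DG D G R ⊆ DD D R := by
  intro y hy
  simp only [DG, DD, Finset.mem_filter] at hy ⊢
  exact ⟨hy.1, hy.2.1⟩

private theorem deep_half {D : Finset V} {y x : V} {R : ℝ} {ρ : ℕ} (hy : Deep D y R) (hρ : (ρ : ℝ) < R)
    (hx : x ∈ Q y (ρ / 2 : ℕ)) : Deep D x (R / 2) := by
  intro k hk w hw
  rw [mem_Q] at hx hw
  have h1 : ((k + ρ / 2 : ℕ) : ℝ) < R := by
    have h2 : ((ρ / 2 : ℕ) : ℝ) ≤ ρ / 2 := Nat.cast_div_le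
    push_cast
    linarith
  refine hy (k + ρ / 2) h1 ?_
  rw [mem_Q]
  have := dI_tri y x w
  push_cast at *
  linarith

private theorem swap_sum {D G : Finset V} {R : ℝ} {ρ : ℕ} (hρ1 : 1 ≤ ρ) (hρ : (ρ : ℝ) < R) {g : V → ℝ}
    (hg : ∀ x, 0 ≤ g x) :
    ∑ y ∈ DG D G R, ∑ x ∈ Q y (ρ / 2 : ℕ) \ G, g x ≤ 4 * (ρ : ℝ) ^ 2 * ∑ x ∈ DG D G (R / 2), g x := by
  classical
  have hR : 0 < R := lt_of_le_of_lt (Nat.cast_nonneg _) hρ
  rw [Finset.sum_comm' (s' := fun x => (DG D G R).filter (fun y => x ∈ Q y (ρ / 2 : ℕ)))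
    (t' := DG D G (R / 2))]
  · rw [Finset.mul_sum]
    refine Finset.sum_le_sum fun x _ => ?_
    rw [Finset.sum_const, nsmul_eq_mul]
    refine mul_le_mul_of_nonneg_right ?_ (hg x)
    have h1 : ((DG D G R).filter (fun y => x ∈ Q y (ρ / 2 : ℕ))) ⊆ Q x (ρ / 2 : ℕ) := by
      intro y hy
      have h2 := (Finset.mem_filter.1 hy).2
      rw [mem_Q] at h2 ⊢
      rwa [dI_comm]
    have h2 : (((DG D G R).filter (fun y => x ∈ Q y (ρ / 2 : ℕ))).card : ℝ)
        ≤ ((Q x (ρ / 2 : ℕ)).card : ℝ) := by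
      exact_mod_cast Finset.card_le_card h1
    refine h2.trans ?_
    rw [card_Q]
    have h3 : ((ρ / 2 : ℕ) : ℝ) ≤ ρ / 2 := Nat.cast_div_le
    have h4 : (1 : ℝ) ≤ ρ := by exact_mod_cast hρ1
    have h5 : (0 : ℝ) ≤ ((ρ / 2 : ℕ) : ℝ) := Nat.cast_nonneg _
    nlinarith
  · intro y x
    constructor
    · rintro ⟨hy, hx⟩
      have hx1 := Finset.mem_sdiff.1 hx
      refine ⟨Finset.mem_filter.2 ⟨hy, hx1.1⟩, ?_⟩
      have hy2 := mem_DG.1 hy
      have hd := deep_half hy2.2.1 hρ hx1.1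
      refine mem_DG.2 ⟨?_, hd, hx1.2⟩
      refine hd 0 (by push_cast; linarith) ?_
      rw [mem_Q, dI_self]
      simp
    · rintro ⟨hy, hx⟩
      have hy1 := Finset.mem_filter.1 hy
      have hx1 := mem_DG.1 hx
      exact ⟨hy1.1, Finset.mem_sdiff.2 ⟨hy1.2, hx1.2.2⟩⟩

/-- one scale -/
private theorem scale {C c0 κ : ℝ} (hC : 0 < C) (hc0 : 0 < c0) (hn : Near C c0) {ρ m : ℕ}
    (hm1 : 1 ≤ m) (hm2 : 32 * m ≤ ρ) (hmκ : (m : ℝ) ≤ κ * ρ) (hκ : C * κ ^ c0 ≤ 1 / 16) {R T E : ℝ}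
    (hρR : (ρ : ℝ) < R) (hRT : R ≤ T)
    {D G F : Finset V} {f B : V → ℝ} {M : ℝ}
    (hGD : G ⊆ D) (hFG : F ⊆ G) (hB : ∀ y, 0 ≤ B y) (hM : 0 ≤ M)
    (thick : ∀ g ∈ G, ∀ k : ℕ, 1 ≤ k → (k : ℝ) ≤ T → ∃ g' ∈ G, dI g g' = k)
    (harm : ∀ x ∈ D \ G, f x = av f x)
    (vis : ∀ y, ∀ v ∈ G, dI y v ≤ (ρ / 2 : ℕ) → (∃ x ∈ D \ G, nn v x) → v ∈ F ∨ f v ≤ B y)
    (hFM : ∀ v ∈ F, f v ≤ M)
    (hE : ∑ y ∈ D \ G, ∑ v ∈ F, hm (D \ G) y v ≤ E) :
    ∑ y ∈ DG D G R, max 0 (f y) ≤ ∑ y ∈ DD D R, (|∑ v ∈ bd (Q y m), hm (Q y m) y v * f v| + B y)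
      + M * E + 1 / 4 * ∑ y ∈ DG D G (R / 2), max 0 (f y) := by
  have hρ0 : (0 : ℝ) < ρ := by
    have : 0 < ρ := by omega
    exact_mod_cast this
  have hpt : ∀ y ∈ DG D G R, max 0 (f y) ≤ (|∑ v ∈ bd (Q y m), hm (Q y m) y v * f v| + B y)
      + M * (∑ v ∈ F, hm (D \ G) y v)
      + C * κ ^ c0 / (ρ : ℝ) ^ 2 * ∑ x ∈ Q y (ρ / 2 : ℕ) \ G, max 0 (f x) := by
    intro y hy
    have hy2 := mem_DG.1 hy
    exact point hC hc0 hn hm1 hm2 hmκ hGD hFG (hy2.2.1 ρ hρR) hy2.2.2 (hB y) hM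
      (fun g hg k hk1 hk2 => thick g hg k hk1 (by
        have : (k : ℝ) ≤ ρ := by exact_mod_cast hk2
        linarith)) harm (vis y) hFM
  refine (Finset.sum_le_sum hpt).trans ?_
  rw [Finset.sum_add_distrib, Finset.sum_add_distrib, ← Finset.mul_sum, ← Finset.mul_sum]
  have h1 : ∑ y ∈ DG D G R, (|∑ v ∈ bd (Q y m), hm (Q y m) y v * f v| + B y)
      ≤ ∑ y ∈ DD D R, (|∑ v ∈ bd (Q y m), hm (Q y m) y v * f v| + B y) :=
    Finset.sum_le_sum_of_subset_of_nonneg (DG_sub D G R) fun y _ _ =>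
      add_nonneg (abs_nonneg _) (hB y)
  have h2 : M * ∑ y ∈ DG D G R, ∑ v ∈ F, hm (D \ G) y v ≤ M * E := by
    refine mul_le_mul_of_nonneg_left (le_trans ?_ hE) hM
    refine Finset.sum_le_sum_of_subset_of_nonneg ?_ fun y _ _ =>
      Finset.sum_nonneg fun v _ => hm_nonneg _ _ _
    intro y hy
    have hy2 := mem_DG.1 hy
    exact Finset.mem_sdiff.2 ⟨hy2.1, hy2.2.2⟩
  have h3 : C * κ ^ c0 / (ρ : ℝ) ^ 2 * ∑ y ∈ DG D G R, ∑ x ∈ Q y (ρ / 2 : ℕ) \ G, max 0 (f x)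
      ≤ 1 / 4 * ∑ y ∈ DG D G (R / 2), max 0 (f y) := by
    have hsw := swap_sum (D := D) (G := G) (R := R) (ρ := ρ) (by omega) hρR
      (g := fun x => max 0 (f x)) (fun x => le_max_left _ _)
    have hs0 : 0 ≤ ∑ x ∈ DG D G (R / 2), max 0 (f x) := Finset.sum_nonneg fun v _ => le_max_left _ _
    have hκ0 : 0 < κ := by
      by_contra h
      push Not at h
      have := mul_nonpos_of_nonpos_of_nonneg h hρ0.le
      have hm0 : (0 : ℝ) < m := by exact_mod_cast hm1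
      linarith
    have hκc : 0 < κ ^ c0 := Real.rpow_pos_of_pos hκ0 _
    calc C * κ ^ c0 / (ρ : ℝ) ^ 2 * ∑ y ∈ DG D G R, ∑ x ∈ Q y (ρ / 2 : ℕ) \ G, max 0 (f x)
        ≤ C * κ ^ c0 / (ρ : ℝ) ^ 2 * (4 * (ρ : ℝ) ^ 2 * ∑ x ∈ DG D G (R / 2), max 0 (f x)) :=
          mul_le_mul_of_nonneg_left hsw (by positivity)
      _ = C * κ ^ c0 * 4 * ∑ x ∈ DG D G (R / 2), max 0 (f x) := by
          field_simp
      _ ≤ 1 / 4 * ∑ y ∈ DG D G (R / 2), max 0 (f y) := by
          refine mul_le_mul_of_nonneg_right ?_ hs0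
          linarith
  linarith

/-- iteration -/
private theorem iter {S a : ℕ → ℝ} {I : ℕ} (h : ∀ i < I, S i ≤ a i + 1 / 4 * S (i + 1)) :
    S 0 ≤ ∑ i ∈ Finset.range I, (1 / 4) ^ i * a i + (1 / 4) ^ I * S I := by
  induction I with
  | zero => simp
  | succ n ih =>
    have h1 := ih fun i hi => h i (by omega)
    have h2 := h n (by omega)
    rw [Finset.sum_range_succ]
    have h3 : (0 : ℝ) < (1 / 4) ^ n := by positivity
    have h4 := mul_le_mul_of_nonneg_left h2 h3.le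
    rw [pow_succ]
    nlinarith


/-! ### probability -/

private theorem meas_state {D : Finset V} {σ : Type*} {s : (V → ℝ) → σ} {cell : σ → Cell}
    (hs : IsExp D s cell) {α : Type*} [MeasurableSpace α] {g : α → V → ℝ} (hg : Measurable g)
    {Φ : σ → α → ℝ} (hΦ : ∀ q, Measurable (Φ q)) : Measurable (fun x => Φ (s (g x)) x) := by
  have hfib : ∀ q, MeasurableSet {Y | s Y = q} := by
    intro q
    by_cases h : ∃ X, s X = q
    · obtain ⟨X, rfl⟩ := h
      have e : {Y | s Y = s X} = (cell (s X)).S := by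
        ext Y
        constructor
        · intro h
          have h' : s Y = s X := h
          rw [← h']
          exact hs.2.2.1 Y
        · intro h
          exact hs.2.2.2 X Y h
      rw [e]
      exact Cell.meas _
    · have : {Y | s Y = q} = ∅ := by
        ext Y
        constructor
        · intro hY
          exact absurd ⟨Y, hY⟩ h
        · intro hY
          exact absurd hY (Set.notMem_empty Y)
      rw [this]
      exact MeasurableSet.empty
  intro t ht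
  have e : (fun x => Φ (s (g x)) x) ⁻¹' t
      = ⋃ q ∈ hs.1.toFinset, (g ⁻¹' {Y | s Y = q}) ∩ (Φ q ⁻¹' t) := by
    ext x
    simp only [Set.mem_iUnion, Set.mem_inter_iff, Set.mem_preimage, exists_prop]
    constructor
    · intro hx
      exact ⟨s (g x), hs.1.mem_toFinset.2 ⟨g x, rfl⟩, rfl, hx⟩
    · rintro ⟨q, _, h1, h2⟩
      have h1' : s (g x) = q := h1
      rw [h1']
      exact h2
  rw [e]
  exact Finset.measurableSet_biUnion _ fun q _ => (hg (hfib q)).inter (hΦ q ht)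

private theorem meas_cm {D : Finset V} {σ : Type*} {s : (V → ℝ) → σ} {cell : σ → Cell}
    (hs : IsExp D s cell) (v : V) :
    Measurable (fun X : V → ℝ => cm D X (cell (s X)) v) :=
  meas_state hs measurable_id (Φ := fun q X => cm D X (cell q) v) fun q => cm_meas D (cell q) v

private theorem meas_cm2 {D : Finset V} {σ : Type*} {s : (V → ℝ) → σ} {cell : σ → Cell}
    (hs : IsExp D s cell) (v : V) :
    Measurable (fun p : (V → ℝ) × (V → ℝ) => cm D p.1 (cell (s p.2)) v) :=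
  meas_state hs measurable_snd (Φ := fun q p => cm D p.1 (cell q) v)
    fun q => (cm_meas D (cell q) v).comp measurable_fst

/-- the far functional under the ambient measure -/
private theorem far_amb {D Damb : Finset V} (hD : D ⊆ Damb) {σ : Type*} {s : (V → ℝ) → σ}
    {cell : σ → Cell} (hs : IsExp D s cell) {y : V} {m : ℕ} {c : ℝ≥0∞}
    (h : ∀ β : V → ℝ, ∫⁻ X, ENNReal.ofReal |∑ v ∈ bd (Q y m), hm (Q y m) y v *
      (cm D β (cell (s X)) v - hx D β v)| ∂(gam D β) ≤ c) (γ : V → ℝ) :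
    ∫⁻ X, ENNReal.ofReal |∑ v ∈ bd (Q y m), hm (Q y m) y v *
      (cm D X (cell (s X)) v - hx D X v)| ∂(gam Damb γ) ≤ c := by
  have h1 := dlr_pair hD γ (F := fun p : (V → ℝ) × (V → ℝ) => ENNReal.ofReal
    |∑ v ∈ bd (Q y m), hm (Q y m) y v * (cm D p.1 (cell (s p.2)) v - hx D p.1 v)|) ?_ ?_
  · simp only at h1
    rw [h1]
    calc ∫⁻ X, ∫⁻ Y, ENNReal.ofReal |∑ v ∈ bd (Q y m), hm (Q y m) y v *
          (cm D X (cell (s Y)) v - hx D X v)| ∂gam D X ∂gam Damb γ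
        ≤ ∫⁻ _, c ∂gam Damb γ := lintegral_mono fun X => h X
      _ = c := by rw [lintegral_const, measure_univ, mul_one]
  · refine ENNReal.measurable_ofReal.comp ?_
    have : Measurable (fun p : (V → ℝ) × (V → ℝ) =>
        ∑ v ∈ bd (Q y m), hm (Q y m) y v * (cm D p.1 (cell (s p.2)) v - hx D p.1 v)) := by
      refine Finset.measurable_sum _ fun v _ => measurable_const.mul ?_
      exact (meas_cm2 hs v).sub ((measurable_hx D v).comp measurable_fst)
    exact this.abs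
  · intro X X' Y hXX
    simp only
    have e : ∀ v, cm D X (cell (s Y)) v - hx D X v = cm D X' (cell (s Y)) v - hx D X' v := by
      intro v
      rw [cm_congr D X X' hXX]
      congr 1
      exact le_antisymm (hx_mono (fun x hx => (hXX x hx).le) v)
        (hx_mono (fun x hx => (hXX x hx).ge) v)
    simp only [e]

private theorem sup_fin (T : Finset V) (g : V → ℝ) : (⨆ v ∈ T, ENNReal.ofReal (g v)) ≠ ∞ := by
  have h : (⨆ v ∈ T, ENNReal.ofReal (g v)) ≤ ∑ v ∈ T, ENNReal.ofReal (g v) :=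
    iSup₂_le fun v hv => Finset.single_le_sum (f := fun v => ENNReal.ofReal (g v))
      (fun _ _ => zero_le) hv
  refine ne_top_of_le_ne_top ?_ h
  exact (ENNReal.sum_lt_top.2 fun v _ => ENNReal.ofReal_lt_top).ne

private theorem le_sup {T : Finset V} {g : V → ℝ} {v : V} (hv : v ∈ T) :
    g v ≤ (⨆ v ∈ T, ENNReal.ofReal (g v)).toReal := by
  rw [← ENNReal.ofReal_le_iff_le_toReal (sup_fin T g)]
  exact le_iSup₂ (f := fun v (_ : v ∈ T) => ENNReal.ofReal (g v)) v hv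

private theorem conv {ι : Type*} (t : Finset ι) {c z S : ι → ℝ} {b cM M : ℝ} (hc : ∀ i, 0 ≤ c i)
    (hz : ∀ i, 0 ≤ z i) (hS : ∀ i, 0 ≤ S i) (hb : 0 ≤ b) (hcM : 0 ≤ cM) (hM : 0 ≤ M) :
    ∑ i ∈ t, ENNReal.ofReal (c i) * (ENNReal.ofReal (z i) + ENNReal.ofReal b + ENNReal.ofReal (S i))
      + ENNReal.ofReal cM * ENNReal.ofReal M
      = ENNReal.ofReal (∑ i ∈ t, c i * (z i + b + S i) + cM * M) := by
  rw [ENNReal.ofReal_add (Finset.sum_nonneg fun i _ =>
    mul_nonneg (hc i) (add_nonneg (add_nonneg (hz i) hb) (hS i))) (mul_nonneg hcM hM),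
    ENNReal.ofReal_mul hcM, ENNReal.ofReal_sum_of_nonneg fun i _ =>
    mul_nonneg (hc i) (add_nonneg (add_nonneg (hz i) hb) (hS i))]
  congr 1
  refine Finset.sum_congr rfl fun i _ => ?_
  rw [ENNReal.ofReal_mul (hc i), ENNReal.ofReal_add (add_nonneg (hz i) hb) (hS i),
    ENNReal.ofReal_add (hz i) hb]

/-! ### sums -/

private theorem geo1 (I : ℕ) : ∑ i ∈ Finset.range I, ((1 : ℝ) / 4) ^ i ≤ 2 := by
  have h : ∑ i ∈ Finset.range I, ((1 : ℝ) / 4) ^ i ≤ 2 - 2 * (1 / 4) ^ I := by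
    induction I with
    | zero => simp
    | succ n ih =>
      rw [Finset.sum_range_succ, pow_succ]
      have : (0 : ℝ) < (1 / 4) ^ n := by positivity
      linarith
  have : (0 : ℝ) < (1 / 4) ^ I := by positivity
  linarith

private theorem geo2 (I : ℕ) : ∑ i ∈ Finset.range I, ((1 : ℝ) / 4) ^ i * i ≤ 2 := by
  have h : ∑ i ∈ Finset.range I, ((1 : ℝ) / 4) ^ i * i ≤ 2 - 2 * (I + 1) * (1 / 4) ^ I := by
    induction I with
    | zero => simp
    | succ n ih =>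
      rw [Finset.sum_range_succ, pow_succ]
      push_cast
      have : (0 : ℝ) < (1 / 4) ^ n := by positivity
      have h2 : (0 : ℝ) ≤ (n : ℝ) * (1 / 4) ^ n := by positivity
      nlinarith
  have : (0 : ℝ) < 2 * (I + 1) * (1 / 4) ^ I := by positivity
  linarith

private theorem log_bd {r m L : ℝ} (hm : 0 < m) (hmr : m ≤ r) (hL : 0 < L) (i : ℕ)
    (h : r ≤ m * (L * 2 ^ i)) : Real.sqrt (1 + Real.log (r / m)) ≤ 1 + L + i := by
  have hr : 0 < r := by linarith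
  have h1 : 1 ≤ r / m := by rw [le_div_iff₀ hm]; linarith
  have h2 : 0 ≤ Real.log (r / m) := Real.log_nonneg h1
  have h3 : r / m ≤ L * 2 ^ i := by rw [div_le_iff₀ hm]; linarith
  have h4 : Real.log (r / m) ≤ L + i := by
    refine (Real.log_le_log (by positivity) h3).trans ?_
    rw [Real.log_mul hL.ne' (by positivity), Real.log_pow]
    have h5 := Real.log_le_sub_one_of_pos hL
    have h6 : Real.log 2 ≤ 1 := by
      have := Real.log_le_sub_one_of_pos (by norm_num : (0 : ℝ) < 2)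
      linarith
    have h7 : (i : ℝ) * Real.log 2 ≤ i * 1 := mul_le_mul_of_nonneg_left h6 (Nat.cast_nonneg _)
    linarith
  have h5 : Real.sqrt (1 + Real.log (r / m)) ≤ 1 + Real.log (r / m) := by
    rw [Real.sqrt_le_iff]
    constructor
    · linarith
    · nlinarith
  linarith

end X4

open X4

open Classical in
/-- CHAIN LEMMA -/
theorem chain (A : ℕ) (δ : ℝ) (hδ : 0 < δ) (hδ' : δ ≤ 1 / 8) : ∃ C : ℝ, 0 < C ∧ ∀ (r : ℕ), 1 ≤ r →
    ∀ (a b c d : ℤ), (r : ℤ) ≤ b - a → b - a ≤ A * r → (r : ℤ) ≤ d - c → d - c ≤ A * r →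
    ∀ (Damb : Finset V) (z : V), Rc (a - 1) (b + 1) (c - 1) (d + 1) ⊆ Damb → Damb ⊆ Q z (A * r) →
    ∀ (mu w e η : ℝ), 0 ≤ w → (e = 1 ∨ e = -1) → 0 ≤ η → η * Real.log (r + 1) ≤ 1 →
    ∀ {σ : Type} (s : (V → ℝ) → σ) (cell : σ → Cell), IsExp (Rc a b c d) s cell →
    ∀ (G F : σ → Finset V),
      (∀ X, (cell (s X)).C ⊆ G (s X) ∧ (cell (s X)).O ⊆ G (s X) ∧ G (s X) ⊆ Rc a b c d ∧ F (s X) ⊆ G (s X)) →
      (∀ X, ∀ g ∈ G (s X), ∀ k : ℕ, 1 ≤ k → (k : ℝ) ≤ δ * r → ∃ g' ∈ G (s X), dI g g' = k) →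
      (∀ X, ∑ y ∈ Rc a b c d \ G (s X), ∑ v ∈ F (s X), hm (Rc a b c d \ G (s X)) y v ≤ η * (r : ℝ) ^ 2) →
      (∀ X, ∀ v ∈ G (s X), (∃ y ∈ Rc a b c d \ G (s X), nn v y) →
        v ∈ F (s X) ∨ e * cm (Rc a b c d) X (cell (s X)) v ≤ w) →
      ∫⁻ X, ENNReal.ofReal ((∑ y ∈ (Rc a b c d).filter (fun y => Deep (Rc a b c d) y (δ * r) ∧ y ∉ G (s X)),
          max 0 (e * (cm (Rc a b c d) X (cell (s X)) y - hx (Rc a b c d) X y))) / (r : ℝ) ^ 2)
        ∂(gam Damb (fun _ => mu)) ≤ ENNReal.ofReal (C * (1 + max 0 (w - e * mu))) := by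
  obtain ⟨C1, hC1, far⟩ := X4far A
  obtain ⟨C2, c0, hC2, hc0, near⟩ := X4near
  obtain ⟨C3, hC3, sup⟩ := X4sup A
  obtain ⟨C4, hC4, crude⟩ := X4M A
  obtain ⟨κ, hκ0, hκ32, hκ⟩ : ∃ κ : ℝ, 0 < κ ∧ κ ≤ 1 / 32 ∧ C2 * κ ^ c0 ≤ 1 / 16 := by
    have h1 : 0 < (1 / (16 * C2)) ^ (1 / c0) := Real.rpow_pos_of_pos (by positivity) _
    refine ⟨min (1 / 32) ((1 / (16 * C2)) ^ (1 / c0)), lt_min (by norm_num) h1,
      min_le_left _ _, ?_⟩
    have h2 : (min (1 / 32) ((1 / (16 * C2)) ^ (1 / c0))) ^ c0 ≤ 1 / (16 * C2) := by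
      have h3 := Real.rpow_le_rpow (lt_min (by norm_num) h1).le
        (min_le_right (1 / 32 : ℝ) ((1 / (16 * C2)) ^ (1 / c0))) hc0.le
      rwa [← Real.rpow_mul (by positivity), one_div_mul_cancel hc0.ne', Real.rpow_one] at h3
    calc C2 * (min (1 / 32) ((1 / (16 * C2)) ^ (1 / c0))) ^ c0 ≤ C2 * (1 / (16 * C2)) :=
          mul_le_mul_of_nonneg_left h2 hC2.le
      _ = 1 / 16 := by field_simp
  set T0 : ℝ := 1 / κ + 2 with hT0
  have hT0p : 0 < T0 := by rw [hT0]; positivity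
  set L : ℝ := 4 / (κ * δ) with hL
  have hLp : 0 < L := by rw [hL]; positivity
  set A2 : ℝ := ((A : ℝ) + 1) ^ 2 with hA2
  have hA2p : 0 < A2 := by rw [hA2]; positivity
  refine ⟨A2 * ((C1 + C3) * (2 * (1 + L) + 2) + 2) + 2 * C4 + (T0 / δ) ^ 2 * A2 * C4,
    by positivity, ?_⟩
  intro r hr a b c d hab hab' hcd hcd' Damb z hsub hDamb mu w e η hw he hη hηr σ s cell hs G F hG
    thick hF vis
  have hr0 : (0 : ℝ) < r := by exact_mod_cast hr
  have hr1 : (1 : ℝ) ≤ r := by exact_mod_cast hr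
  obtain ⟨D, hDdef⟩ : ∃ D, D = Rc a b c d := ⟨_, rfl⟩
  rw [← hDdef] at hs hG hF vis ⊢
  have hcard : (D.card : ℝ) ≤ A2 * (r : ℝ) ^ 2 := by
    rw [hDdef]
    exact card_Rc hr hab hab' hcd hcd'
  have hD : D ⊆ Damb := by
    refine Finset.Subset.trans ?_ hsub
    rw [hDdef]
    unfold Rc
    refine Finset.Icc_subset_Icc ?_ ?_ <;> rw [Prod.le_def] <;> constructor <;> simp only <;> linarith
  have hDQ : D ⊆ Q z (A * r) := hD.trans hDamb
  -- the scales
  set R : ℕ → ℝ := fun i => δ * r / 2 ^ i with hR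
  have hRpos : ∀ i, 0 < R i := fun i => by rw [hR]; positivity
  have hRs : ∀ i, R (i + 1) = R i / 2 := fun i => by
    rw [hR]
    simp only [pow_succ]
    field_simp
  have hex : ∃ i : ℕ, R i < T0 := by
    obtain ⟨i, hi⟩ := pow_unbounded_of_one_lt (δ * r / T0) (by norm_num : (1 : ℝ) < 2)
    refine ⟨i, ?_⟩
    rw [hR]
    simp only
    rw [div_lt_iff₀ hT0p] at hi
    rw [div_lt_iff₀ (by positivity)]
    linarith
  obtain ⟨I, hI⟩ : ∃ I, I = Nat.find hex := ⟨_, rfl⟩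
  have hI1 : R I < T0 := by rw [hI]; exact Nat.find_spec hex
  have hI2 : ∀ i < I, T0 ≤ R i := fun i hi => by
    rw [hI] at hi
    exact not_lt.1 (Nat.find_min hex hi)
  set ρ : ℕ → ℕ := fun i => ⌈R i⌉₊ - 1 with hρ
  set m : ℕ → ℕ := fun i => ⌊κ * (ρ i : ℝ)⌋₊ with hmdef
  have hρ0 : ∀ i, ((ρ i : ℕ) : ℝ) + 1 = ⌈R i⌉₊ := by
    intro i
    have : 1 ≤ ⌈R i⌉₊ := Nat.one_le_ceil_iff.2 (hRpos i)
    rw [hρ]
    simp only
    push_cast [this]
    ring
  have hρ1 : ∀ i, (ρ i : ℝ) < R i := by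
    intro i
    have h1 := Nat.ceil_lt_add_one (hRpos i).le
    have h2 := hρ0 i
    linarith
  have hρ2 : ∀ i, R i ≤ ρ i + 1 := by
    intro i
    have h1 := Nat.le_ceil (R i)
    have h2 := hρ0 i
    linarith
  have hρκ : ∀ i < I, 1 ≤ κ * (ρ i : ℝ) := by
    intro i hi
    have h1 := hI2 i hi
    have h2 := hρ2 i
    have h3 : 1 / κ ≤ ρ i := by rw [hT0] at h1; linarith
    rw [div_le_iff₀ hκ0] at h3
    linarith
  have hm1 : ∀ i < I, 1 ≤ m i := fun i hi => by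
    rw [hmdef]
    exact Nat.le_floor (by exact_mod_cast hρκ i hi)
  have hm2 : ∀ i, (m i : ℝ) ≤ κ * (ρ i : ℝ) := fun i => by
    rw [hmdef]
    exact Nat.floor_le (by positivity)
  have hm3 : ∀ i, κ * (ρ i : ℝ) < m i + 1 := fun i => by
    rw [hmdef]
    exact Nat.lt_floor_add_one _
  have hm32 : ∀ i, 32 * m i ≤ ρ i := by
    intro i
    have h1 := hm2 i
    have h2 : κ * (ρ i : ℝ) ≤ 1 / 32 * ρ i := mul_le_mul_of_nonneg_right hκ32 (Nat.cast_nonneg _)
    have h3 : 32 * (m i : ℝ) ≤ ρ i := by linarith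
    exact_mod_cast h3
  have hRT : ∀ i, R i ≤ δ * r := by
    intro i
    rw [hR]
    exact div_le_self (by positivity) (one_le_pow₀ (by norm_num))
  have hρr : ∀ i, ρ i ≤ r := by
    intro i
    have h1 := hρ1 i
    have h2 := hRT i
    have h3 : δ * r ≤ 1 * r := mul_le_mul_of_nonneg_right (by linarith) hr0.le
    have h4 : (ρ i : ℝ) ≤ r := by linarith
    exact_mod_cast h4
  have hrm : ∀ i < I, (r : ℝ) ≤ m i * (L * 2 ^ i) := by
    intro i hi
    have h1 : (1 : ℝ) ≤ m i := by exact_mod_cast hm1 i hi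
    have h2 := hm3 i
    have h3 : κ * (ρ i : ℝ) ≤ 2 * m i := by linarith
    have h4 : R i ≤ 2 * ρ i := by
      have h5 := hρ2 i
      have h6 : (1 : ℝ) ≤ ρ i := by
        have := hm32 i
        have := hm1 i hi
        exact_mod_cast (by omega : 1 ≤ ρ i)
      linarith
    have h5 : κ * R i ≤ 4 * m i := by
      have := mul_le_mul_of_nonneg_left h4 hκ0.le
      linarith
    have h6 : R i = δ * r / 2 ^ i := rfl
    rw [h6, ← mul_div_assoc, div_le_iff₀ (by positivity)] at h5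
    rw [hL]
    have h7 : (r : ℝ) = (κ * (δ * r)) / (κ * δ) := by field_simp
    rw [h7, div_le_iff₀ (by positivity)]
    calc κ * (δ * r) ≤ 4 * m i * 2 ^ i := h5
      _ = m i * (4 / (κ * δ) * 2 ^ i) * (κ * δ) := by field_simp
  -- the functionals
  set Zf : (Σ _ : ℕ, V) → (V → ℝ) → ℝ≥0∞ := fun p X => ENNReal.ofReal
    |∑ v ∈ bd (Q p.2 (m p.1)), hm (Q p.2 (m p.1)) p.2 v * (cm D X (cell (s X)) v - hx D X v)| with hZf
  set Sf : (Σ _ : ℕ, V) → (V → ℝ) → ℝ≥0∞ := fun p X =>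
    ⨆ x ∈ Q p.2 (ρ p.1 / 2 : ℕ), ENNReal.ofReal |hx D X x - mu| with hSf
  set Mf : (V → ℝ) → ℝ≥0∞ := fun X =>
    ⨆ v ∈ D, ENNReal.ofReal |cm D X (cell (s X)) v - hx D X v| with hMf
  set bb : ℝ := max 0 (w - e * mu) with hbb
  have hbb0 : 0 ≤ bb := le_max_left _ _
  set cM : ℝ := 2 * η + (T0 / (δ * r)) ^ 2 * A2 with hcM
  have hcM0 : 0 ≤ cM := by rw [hcM]; positivity
  set ss : Finset (Σ _ : ℕ, V) := (Finset.range I).sigma fun i => DD D (R i) with hss
  have hMfin : ∀ X, Mf X ≠ ∞ := fun X => sup_fin D _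
  have hSfin : ∀ p X, Sf p X ≠ ∞ := fun p X => sup_fin _ _
  have he1 : |e| = 1 := by rcases he with h | h <;> rw [h] <;> norm_num
  -- pointwise
  have hpt : ∀ X, ENNReal.ofReal ((∑ y ∈ D.filter (fun y => Deep D y (δ * r) ∧ y ∉ G (s X)),
      max 0 (e * (cm D X (cell (s X)) y - hx D X y))) / (r : ℝ) ^ 2)
      ≤ ∑ p ∈ ss, ENNReal.ofReal ((1 / 4) ^ p.1 / (r : ℝ) ^ 2) * (Zf p X + ENNReal.ofReal bb + Sf p X)
        + ENNReal.ofReal cM * Mf X := by
    intro X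
    set f : V → ℝ := fun v => e * (cm D X (cell (s X)) v - hx D X v) with hf
    obtain ⟨hGC, hGO, hGD, hFG⟩ := hG X
    have hM0 : 0 ≤ (Mf X).toReal := ENNReal.toReal_nonneg
    have hfabs : ∀ v, f v ≤ |cm D X (cell (s X)) v - hx D X v| := by
      intro v
      have h1 := le_abs_self (f v)
      rw [hf] at h1
      simp only [abs_mul, he1, one_mul] at h1
      exact h1
    have harm : ∀ x ∈ D \ G (s X), f x = av f x := by
      intro x hx'
      obtain ⟨h1, h2⟩ := Finset.mem_sdiff.1 hx'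
      have h3 := cm_harm D X (cell (s X)) (hs.2.1 X) h1 (fun h => h2 (hGC h)) (fun h => h2 (hGO h))
      have h4 := hx_harm D X h1
      have h5 : av f x = e * (av (cm D X (cell (s X))) x - av (hx D X) x) := by
        rw [hf]
        unfold av
        ring
      rw [h5, ← h3, ← h4]
    have hvis : ∀ i y, ∀ v ∈ G (s X), dI y v ≤ (ρ i / 2 : ℕ) → (∃ x ∈ D \ G (s X), nn v x) →
        v ∈ F (s X) ∨ f v ≤ bb + (Sf ⟨i, y⟩ X).toReal := by
      intro i y v hv hdv hvx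
      rcases vis X v hv hvx with h | h
      · exact Or.inl h
      · right
        have h1 : |hx D X v - mu| ≤ (Sf ⟨i, y⟩ X).toReal := by
          rw [hSf]
          exact le_sup (g := fun x => |hx D X x - mu|) (mem_Q.2 hdv)
        have h2 : w - e * mu ≤ bb := le_max_right _ _
        have h3 : e * (mu - hx D X v) ≤ |hx D X v - mu| := by
          have := le_abs_self (e * (mu - hx D X v))
          rwa [abs_mul, he1, one_mul, abs_sub_comm] at this
        rw [hf]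
        simp only
        linarith
    have hFM : ∀ v ∈ F (s X), f v ≤ (Mf X).toReal := by
      intro v hv
      refine (hfabs v).trans ?_
      rw [hMf]
      exact le_sup (g := fun v => |cm D X (cell (s X)) v - hx D X v|) (hGD (hFG hv))
    have hscale : ∀ i < I, ∑ y ∈ DG D (G (s X)) (R i), max 0 (f y)
        ≤ (∑ y ∈ DD D (R i), (|∑ v ∈ bd (Q y (m i)), hm (Q y (m i)) y v * f v|
          + (bb + (Sf ⟨i, y⟩ X).toReal)) + (Mf X).toReal * (η * (r : ℝ) ^ 2))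
          + 1 / 4 * ∑ y ∈ DG D (G (s X)) (R (i + 1)), max 0 (f y) := by
      intro i hi
      rw [hRs]
      exact scale hC2 hc0 near (hm1 i hi) (hm32 i) (hm2 i) hκ (hρ1 i) (hRT i) hGD hFG
        (fun y => add_nonneg hbb0 ENNReal.toReal_nonneg) hM0 (thick X) harm (hvis i) hFM (hF X)
    have hit := iter (S := fun i => ∑ y ∈ DG D (G (s X)) (R i), max 0 (f y)) hscale
    have hR0 : R 0 = δ * r := by rw [hR]; simp
    rw [hR0] at hit
    have hDG : DG D (G (s X)) (δ * r) = D.filter (fun y => Deep D y (δ * r) ∧ y ∉ G (s X)) := rfl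
    rw [hDG] at hit
    -- the last scale
    have hlast : ∑ y ∈ DG D (G (s X)) (R I), max 0 (f y) ≤ A2 * (r : ℝ) ^ 2 * (Mf X).toReal := by
      calc ∑ y ∈ DG D (G (s X)) (R I), max 0 (f y)
          ≤ ∑ y ∈ DG D (G (s X)) (R I), (Mf X).toReal := by
            refine Finset.sum_le_sum fun y hy => max_le hM0 ((hfabs y).trans ?_)
            rw [hMf]
            exact le_sup (g := fun v => |cm D X (cell (s X)) v - hx D X v|) (mem_DG.1 hy).1
        _ = ((DG D (G (s X)) (R I)).card : ℝ) * (Mf X).toReal := by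
            rw [Finset.sum_const, nsmul_eq_mul]
        _ ≤ A2 * (r : ℝ) ^ 2 * (Mf X).toReal := by
            refine mul_le_mul_of_nonneg_right (le_trans ?_ hcard) hM0
            exact_mod_cast Finset.card_le_card fun y hy => (mem_DG.1 hy).1
    have hq : ((1 : ℝ) / 4) ^ I ≤ (T0 / (δ * r)) ^ 2 := by
      have h1 : δ * r / 2 ^ I < T0 := hI1
      have h2 : ((1 : ℝ) / 2) ^ I ≤ T0 / (δ * r) := by
        rw [le_div_iff₀ (by positivity), one_div, inv_pow, inv_mul_eq_div]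
        exact h1.le
      calc ((1 : ℝ) / 4) ^ I = (((1 : ℝ) / 2) ^ I) ^ 2 := by
            rw [← pow_mul, mul_comm, pow_mul]; norm_num
        _ ≤ (T0 / (δ * r)) ^ 2 := pow_le_pow_left₀ (by positivity) h2 2
    have hz : ∀ i y, |∑ v ∈ bd (Q y (m i)), hm (Q y (m i)) y v * f v|
        = |∑ v ∈ bd (Q y (m i)), hm (Q y (m i)) y v * (cm D X (cell (s X)) v - hx D X v)| := by
      intro i y
      have : ∑ v ∈ bd (Q y (m i)), hm (Q y (m i)) y v * f v
          = e * ∑ v ∈ bd (Q y (m i)), hm (Q y (m i)) y v * (cm D X (cell (s X)) v - hx D X v) := by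
        rw [Finset.mul_sum]
        refine Finset.sum_congr rfl fun v _ => ?_
        rw [hf]
        simp only
        ring
      rw [this, abs_mul, he1, one_mul]
    simp only [hz] at hit
    have hreal : (∑ y ∈ D.filter (fun y => Deep D y (δ * r) ∧ y ∉ G (s X)), max 0 (f y)) / (r : ℝ) ^ 2
        ≤ ∑ p ∈ ss, (1 / 4) ^ p.1 / (r : ℝ) ^ 2 * (|∑ v ∈ bd (Q p.2 (m p.1)), hm (Q p.2 (m p.1)) p.2 v *
          (cm D X (cell (s X)) v - hx D X v)| + bb + (Sf p X).toReal) + cM * (Mf X).toReal := by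
      rw [hss, Finset.sum_sigma, div_le_iff₀ (by positivity)]
      refine hit.trans ?_
      have e1 : ∑ i ∈ Finset.range I, ((1 : ℝ) / 4) ^ i * (∑ y ∈ DD D (R i),
            (|∑ v ∈ bd (Q y (m i)), hm (Q y (m i)) y v * (cm D X (cell (s X)) v - hx D X v)|
            + (bb + (Sf ⟨i, y⟩ X).toReal)) + (Mf X).toReal * (η * (r : ℝ) ^ 2))
          = (∑ i ∈ Finset.range I, ∑ y ∈ DD D (R i), (1 / 4) ^ i / (r : ℝ) ^ 2 *
            (|∑ v ∈ bd (Q y (m i)), hm (Q y (m i)) y v * (cm D X (cell (s X)) v - hx D X v)|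
            + bb + (Sf ⟨i, y⟩ X).toReal)) * (r : ℝ) ^ 2
            + (∑ i ∈ Finset.range I, ((1 : ℝ) / 4) ^ i) * ((Mf X).toReal * (η * (r : ℝ) ^ 2)) := by
        rw [Finset.sum_mul, Finset.sum_mul, ← Finset.sum_add_distrib]
        refine Finset.sum_congr rfl fun i _ => ?_
        rw [mul_add, Finset.mul_sum, Finset.sum_mul]
        congr 1
        refine Finset.sum_congr rfl fun y _ => ?_
        field_simp
        ring
      rw [e1]
      have h1 : (∑ i ∈ Finset.range I, ((1 : ℝ) / 4) ^ i) * ((Mf X).toReal * (η * (r : ℝ) ^ 2))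
          ≤ 2 * ((Mf X).toReal * (η * (r : ℝ) ^ 2)) :=
        mul_le_mul_of_nonneg_right (geo1 I) (by positivity)
      have h2 : ((1 : ℝ) / 4) ^ I * ∑ y ∈ DG D (G (s X)) (R I), max 0 (f y)
          ≤ (T0 / (δ * r)) ^ 2 * (A2 * (r : ℝ) ^ 2 * (Mf X).toReal) :=
        mul_le_mul hq hlast (Finset.sum_nonneg fun y _ => le_max_left _ _) (by positivity)
      rw [hcM]
      nlinarith
    refine (ENNReal.ofReal_le_ofReal hreal).trans (le_of_eq ?_)
    rw [← conv ss (fun p => by positivity) (fun p => abs_nonneg _)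
      (fun p => ENNReal.toReal_nonneg) hbb0 hcM0 hM0]
    rw [ENNReal.ofReal_toReal (hMfin X)]
    congr 1
    refine Finset.sum_congr rfl fun p _ => ?_
    rw [ENNReal.ofReal_toReal (hSfin p X)]
  -- measurability
  have hZm : ∀ p, Measurable (Zf p) := by
    intro p
    rw [hZf]
    refine ENNReal.measurable_ofReal.comp ?_
    have : Measurable (fun X : V → ℝ => ∑ v ∈ bd (Q p.2 (m p.1)), hm (Q p.2 (m p.1)) p.2 v *
        (cm D X (cell (s X)) v - hx D X v)) :=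
      Finset.measurable_sum _ fun v _ => measurable_const.mul ((meas_cm hs v).sub (measurable_hx D v))
    exact this.abs
  have hSm : ∀ p, Measurable (Sf p) := by
    intro p
    rw [hSf]
    refine Measurable.iSup fun x => Measurable.iSup fun _ => ?_
    exact ENNReal.measurable_ofReal.comp ((measurable_hx D x).sub measurable_const).abs
  have hMm : Measurable Mf := by
    rw [hMf]
    refine Measurable.iSup fun x => Measurable.iSup fun _ => ?_
    exact ENNReal.measurable_ofReal.comp ((meas_cm hs x).sub (measurable_hx D x)).abs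
  -- expectations
  have hDDs : ∀ p ∈ ss, p.1 < I ∧ Deep D p.2 (R p.1) := by
    intro p hp
    rw [hss, Finset.mem_sigma] at hp
    refine ⟨Finset.mem_range.1 hp.1, ?_⟩
    have := hp.2
    simp only [DD, Finset.mem_filter] at this
    exact this.2
  have hEZ : ∀ p ∈ ss, ∫⁻ X, Zf p X ∂gam Damb (fun _ => mu)
      ≤ ENNReal.ofReal (C1 * (1 + L + p.1)) := by
    intro p hp
    obtain ⟨h1, h2⟩ := hDDs p hp
    have hmr : m p.1 ≤ r := by
      have := hm32 p.1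
      have := hρr p.1
      omega
    have hmpos : (0 : ℝ) < m p.1 := by exact_mod_cast hm1 p.1 h1
    have hQm : Q p.2 (m p.1) ⊆ D := by
      refine h2 (m p.1) ?_
      have h3 := hρ1 p.1
      have h4 : (m p.1 : ℝ) ≤ ρ p.1 := by
        have := hm32 p.1
        exact_mod_cast (by omega : m p.1 ≤ ρ p.1)
      linarith
    refine (far_amb hD hs (fun β => far r (m p.1) (hm1 p.1 h1) hmr D z p.2 hDQ hQm β s cell hs)
      _).trans (ENNReal.ofReal_le_ofReal (mul_le_mul_of_nonneg_left ?_ hC1.le))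
    exact log_bd hmpos (by exact_mod_cast hmr) hLp p.1 (hrm p.1 h1)
  have hES : ∀ p ∈ ss, ∫⁻ X, Sf p X ∂gam Damb (fun _ => mu)
      ≤ ENNReal.ofReal (C3 * (1 + L + p.1)) := by
    intro p hp
    obtain ⟨h1, h2⟩ := hDDs p hp
    have hmρ : m p.1 ≤ ρ p.1 := by
      have := hm32 p.1
      omega
    have hρ1' : 1 ≤ ρ p.1 := (hm1 p.1 h1).trans hmρ
    have hρpos : (0 : ℝ) < ρ p.1 := by exact_mod_cast hρ1'
    refine (sup r (ρ p.1) hρ1' (hρr p.1) D Damb z p.2 hD hDamb (h2 _ (hρ1 p.1)) mu).trans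
      (ENNReal.ofReal_le_ofReal (mul_le_mul_of_nonneg_left ?_ hC3.le))
    refine log_bd hρpos (by exact_mod_cast hρr p.1) hLp p.1 ((hrm p.1 h1).trans ?_)
    refine mul_le_mul_of_nonneg_right ?_ (by positivity)
    exact_mod_cast hmρ
  have hEM : ∫⁻ X, Mf X ∂gam Damb (fun _ => mu) ≤ ENNReal.ofReal (C4 * Real.log (r + 1)) :=
    crude r hr D Damb z hD hDamb mu s cell hs
  have hlog0 : 0 ≤ Real.log (r + 1) := Real.log_nonneg (by linarith)
  calc ∫⁻ X, ENNReal.ofReal ((∑ y ∈ D.filter (fun y => Deep D y (δ * r) ∧ y ∉ G (s X)),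
          max 0 (e * (cm D X (cell (s X)) y - hx D X y))) / (r : ℝ) ^ 2) ∂gam Damb (fun _ => mu)
      ≤ ∫⁻ X, (∑ p ∈ ss, ENNReal.ofReal ((1 / 4) ^ p.1 / (r : ℝ) ^ 2) *
          (Zf p X + ENNReal.ofReal bb + Sf p X) + ENNReal.ofReal cM * Mf X) ∂gam Damb (fun _ => mu) :=
        lintegral_mono hpt
    _ = ∑ p ∈ ss, ENNReal.ofReal ((1 / 4) ^ p.1 / (r : ℝ) ^ 2) *
          ((∫⁻ X, Zf p X ∂gam Damb (fun _ => mu)) + ENNReal.ofReal bb
            + ∫⁻ X, Sf p X ∂gam Damb (fun _ => mu))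
          + ENNReal.ofReal cM * ∫⁻ X, Mf X ∂gam Damb (fun _ => mu) := by
        have k1 : Measurable (fun X => ENNReal.ofReal cM * Mf X) := measurable_const.mul hMm
        have k2 : ∀ p, Measurable (fun X => Zf p X + ENNReal.ofReal bb + Sf p X) := fun p =>
          ((hZm p).add measurable_const).add (hSm p)
        have k3 : ∀ p ∈ ss, Measurable (fun X => ENNReal.ofReal ((1 / 4) ^ p.1 / (r : ℝ) ^ 2) *
          (Zf p X + ENNReal.ofReal bb + Sf p X)) := fun p _ => measurable_const.mul (k2 p)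
        rw [lintegral_add_right _ k1, lintegral_const_mul _ hMm, lintegral_finsetSum _ k3]
        congr 1
        refine Finset.sum_congr rfl fun p _ => ?_
        rw [lintegral_const_mul _ (k2 p), lintegral_add_right _ (hSm p),
          lintegral_add_right _ measurable_const, lintegral_const, measure_univ, mul_one]
    _ ≤ ∑ p ∈ ss, ENNReal.ofReal ((1 / 4) ^ p.1 / (r : ℝ) ^ 2) *
          (ENNReal.ofReal (C1 * (1 + L + p.1)) + ENNReal.ofReal bb + ENNReal.ofReal (C3 * (1 + L + p.1)))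
          + ENNReal.ofReal cM * ENNReal.ofReal (C4 * Real.log (r + 1)) := by
        refine add_le_add (Finset.sum_le_sum fun p hp => ?_) ?_
        · exact mul_le_mul' le_rfl (add_le_add (add_le_add (hEZ p hp) le_rfl) (hES p hp))
        · exact mul_le_mul' le_rfl hEM
    _ = ENNReal.ofReal (∑ p ∈ ss, (1 / 4) ^ p.1 / (r : ℝ) ^ 2 * (C1 * (1 + L + p.1) + bb
          + C3 * (1 + L + p.1)) + cM * (C4 * Real.log (r + 1))) := by
        exact conv ss (fun p => by positivity) (fun p => by positivity) (fun p => by positivity)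
          hbb0 hcM0 (by positivity)
    _ ≤ _ := by
        refine ENNReal.ofReal_le_ofReal ?_
        have h1 : ∑ p ∈ ss, (1 / 4) ^ p.1 / (r : ℝ) ^ 2 * (C1 * (1 + L + p.1) + bb
            + C3 * (1 + L + p.1)) ≤ A2 * ((C1 + C3) * (2 * (1 + L) + 2) + 2 * bb) := by
          rw [hss, Finset.sum_sigma]
          calc ∑ i ∈ Finset.range I, ∑ y ∈ DD D (R i), (1 / 4) ^ i / (r : ℝ) ^ 2 *
                (C1 * (1 + L + i) + bb + C3 * (1 + L + i))
              ≤ ∑ i ∈ Finset.range I, A2 * ((1 / 4) ^ i * ((C1 + C3) * (1 + L) + bb)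
                + (C1 + C3) * ((1 / 4) ^ i * i)) := by
                refine Finset.sum_le_sum fun i _ => ?_
                rw [Finset.sum_const, nsmul_eq_mul]
                have h2 : ((DD D (R i)).card : ℝ) ≤ A2 * (r : ℝ) ^ 2 := by
                  refine le_trans ?_ hcard
                  refine Nat.cast_le.2 (Finset.card_le_card fun y hy => ?_)
                  simp only [DD, Finset.mem_filter] at hy
                  exact hy.1
                calc ((DD D (R i)).card : ℝ) * ((1 / 4) ^ i / (r : ℝ) ^ 2 *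
                      (C1 * (1 + L + i) + bb + C3 * (1 + L + i)))
                    ≤ A2 * (r : ℝ) ^ 2 * ((1 / 4) ^ i / (r : ℝ) ^ 2 *
                      (C1 * (1 + L + i) + bb + C3 * (1 + L + i))) :=
                      mul_le_mul_of_nonneg_right h2 (by positivity)
                  _ = _ := by field_simp; ring
            _ = A2 * ((∑ i ∈ Finset.range I, ((1 : ℝ) / 4) ^ i) * ((C1 + C3) * (1 + L) + bb)
                + (C1 + C3) * ∑ i ∈ Finset.range I, ((1 : ℝ) / 4) ^ i * i) := by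
                rw [← Finset.mul_sum, Finset.sum_add_distrib, Finset.sum_mul, Finset.mul_sum]
            _ ≤ A2 * (2 * ((C1 + C3) * (1 + L) + bb) + (C1 + C3) * 2) := by
                refine mul_le_mul_of_nonneg_left (add_le_add ?_ ?_) hA2p.le
                · exact mul_le_mul_of_nonneg_right (geo1 I) (by positivity)
                · exact mul_le_mul_of_nonneg_left (geo2 I) (by positivity)
            _ = _ := by ring
        have h2 : cM * (C4 * Real.log (r + 1)) ≤ 2 * C4 + (T0 / δ) ^ 2 * A2 * C4 := by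
          have h3 : Real.log (r + 1) ≤ (r : ℝ) ^ 2 := by
            have h4 := Real.log_le_sub_one_of_pos (by linarith : (0 : ℝ) < r + 1)
            nlinarith
          have h5 : (T0 / (δ * r)) ^ 2 * A2 * (C4 * Real.log (r + 1)) ≤ (T0 / δ) ^ 2 * A2 * C4 := by
            calc (T0 / (δ * r)) ^ 2 * A2 * (C4 * Real.log (r + 1))
                ≤ (T0 / (δ * r)) ^ 2 * A2 * (C4 * (r : ℝ) ^ 2) :=
                  mul_le_mul_of_nonneg_left (mul_le_mul_of_nonneg_left h3 hC4.le) (by positivity)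
              _ = _ := by field_simp
          have h6 : 2 * η * (C4 * Real.log (r + 1)) ≤ 2 * C4 := by
            have := mul_le_mul_of_nonneg_left hηr hC4.le
            nlinarith
          rw [hcM]
          nlinarith
        have h3 : 0 ≤ A2 * ((C1 + C3) * (2 * (1 + L) + 2) + 2) + 2 * C4 + (T0 / δ) ^ 2 * A2 * C4
            - 2 * A2 := by
          have : 0 ≤ A2 * ((C1 + C3) * (2 * (1 + L) + 2)) := by positivity
          have : 0 ≤ (T0 / δ) ^ 2 * A2 * C4 := by positivity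
          nlinarith
        have h4 := mul_nonneg h3 hbb0
        nlinarith

end GF
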