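import Pool.Agent.Lib.MP_acf58e_gf.JG
import Pool.Agent.Lib.MP_acf58e_gf.X4
/-! bound of the one-sided averages U_j -/
open MeasureTheory Set ProbabilityTheory
open scoped ENNReal
namespace GF

/-- sign of stage j: +1 for O-growth (j odd), -1 for C-growth -/
noncomputable def sgJ (j : ℕ) : ℝ := if j % 2 = 1 then 1 else -1

open Classical in
/-- U_j = r^-2 * sum over unexplored deep y of (e_j u_j(y))^+ -/
noncomputable def UJ (W T B r : ℕ) (w0 : ℝ) (j : ℕ) (X : V → ℝ) : ℝ :=
  (∑ y ∈ (DJ W T B).filter (fun y => Deep (DJ W T B) y (1 / 8 * r) ∧ y ∉ GJ W B (Jst W T w0 j X)),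
    max 0 (sgJ j * cm (DJ W T B) X (Jst W T w0 j X).c y)) / (r : ℝ) ^ 2

private theorem mem_RcU {a b c d : ℤ} {v : V} :
    v ∈ Rc a b c d ↔ (a ≤ v.1 ∧ c ≤ v.2) ∧ v.1 ≤ b ∧ v.2 ≤ d := by
  unfold Rc
  rw [Finset.mem_Icc, Prod.le_def, Prod.le_def]

private theorem Q_monoU {z : V} {r r' : ℤ} (h : r ≤ r') : Q z r ⊆ Q z r' := by
  unfold Q
  apply Finset.Icc_subset_Icc
  · rw [Prod.le_def]
    constructor <;> simp only <;> omega
  · rw [Prod.le_def]
    constructor <;> simp only <;> omega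

/-- mean of the harmonic extension at a deep point -/
private theorem hx_meanU (A : ℕ) : ∃ C : ℝ, 0 < C ∧ ∀ (r : ℕ), 1 ≤ r → ∀ (D Damb : Finset V) (z y : V),
    D ⊆ Damb → Damb ⊆ Q z (A * r) → y ∈ D → Deep D y (1 / 8 * r) → ∀ mu : ℝ,
    ∫⁻ X, ENNReal.ofReal |hx D X y| ∂(gam Damb (fun _ => mu)) ≤ ENNReal.ofReal (C * (1 + |mu|)) := by
  obtain ⟨C2, hC2, hv⟩ := var_hx_le
  obtain ⟨C3, hg⟩ := green_upper
  have hk := kap_pos
  set Vb : ℝ := kap⁻¹ * Real.log (16 * (A + 1)) + C2 + |C3| with hVb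
  have hlog : 0 ≤ Real.log (16 * ((A : ℝ) + 1)) := Real.log_nonneg (by
    have : (0 : ℝ) ≤ A := Nat.cast_nonneg A
    linarith)
  have hVb0 : 0 ≤ Vb := by positivity
  refine ⟨1 + Real.sqrt Vb, by positivity, ?_⟩
  intro r hr D Damb z y hD hDamb hy hdeep mu
  have hDamb' : Damb ⊆ Q z ((A + 1 : ℤ) * r) := hDamb.trans (Q_monoU (by nlinarith))
  have hr' : (1 : ℝ) ≤ r := by exact_mod_cast hr
  have hN1 : (1 : ℤ) ≤ (A + 1 : ℤ) * r := by
    have : (1 : ℤ) ≤ r := by exact_mod_cast hr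
    nlinarith [(Nat.cast_nonneg A : (0 : ℤ) ≤ A)]
  -- the variance
  have hvr : vr Damb (bd D) (fun v => hm D y v) ≤ Vb := by
    by_cases h9 : 9 ≤ r
    · -- a point at distance at least `r / 16`
      set m : ℕ := ⌈(1 / 8 * r : ℝ)⌉₊ - 1 with hm
      have h1 : (1 : ℝ) < 1 / 8 * r := by
        have : (9 : ℝ) ≤ r := by exact_mod_cast h9
        linarith
      have h2 : 1 < ⌈(1 / 8 * r : ℝ)⌉₊ := by
        rw [Nat.lt_ceil]
        exact_mod_cast h1
      have h3 : ((⌈(1 / 8 * r : ℝ)⌉₊ : ℕ) : ℝ) < 1 / 8 * r + 1 :=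
        Nat.ceil_lt_add_one (by positivity)
      have h4 : (1 / 8 * r : ℝ) ≤ (⌈(1 / 8 * r : ℝ)⌉₊ : ℕ) := Nat.le_ceil _
      have h5 : ((m : ℕ) : ℝ) = ((⌈(1 / 8 * r : ℝ)⌉₊ : ℕ) : ℝ) - 1 := by
        rw [hm]
        have := Nat.cast_sub (R := ℝ) h2.le
        simpa using this
      have hm1 : 1 ≤ m := by omega
      have hm1' : (1 : ℝ) ≤ m := by exact_mod_cast hm1
      have hQ : Q y m ⊆ D := hdeep m (by rw [h5]; linarith)
      have h6 := hv Damb D z y ((A + 1 : ℤ) * r) m (by exact_mod_cast hm1) hN1 hDamb' hD hQ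
      refine h6.trans ?_
      have h7 : Real.log ((((A + 1 : ℤ) * r : ℤ) : ℝ) / ((m : ℤ) : ℝ)) ≤
          Real.log (16 * ((A : ℝ) + 1)) := by
        apply Real.log_le_log
        · push_cast
          positivity
        · push_cast
          rw [div_le_iff₀ (by positivity)]
          have h8 : (r : ℝ) ≤ 16 * m := by
            linarith
          nlinarith [(Nat.cast_nonneg A : (0 : ℝ) ≤ A)]
      have h8 := mul_le_mul_of_nonneg_left h7 (inv_nonneg.2 hk.le)
      have h9 := abs_nonneg C3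
      rw [hVb]
      linarith
    · rw [var_hx hD hy]
      have h1 := gr_nonneg D y y
      have h2 := hg Damb z ((A + 1 : ℤ) * r) hN1 hDamb' y (hD hy) y (hD hy)
      have h3 : Real.log ((((A + 1 : ℤ) * r : ℤ) : ℝ) / (1 + ((dI y y : ℤ) : ℝ))) ≤
          Real.log (16 * ((A : ℝ) + 1)) := by
        have h4 : dI y y = 0 := by simp [dI]
        rw [h4]
        apply Real.log_le_log
        · push_cast
          positivity
        · push_cast
          have h5 : (r : ℝ) ≤ 16 := by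
            have : r ≤ 16 := by omega
            exact_mod_cast this
          rw [add_zero, div_one]
          nlinarith [(Nat.cast_nonneg A : (0 : ℝ) ≤ A)]
      have h4 := mul_le_mul_of_nonneg_left h3 (inv_nonneg.2 hk.le)
      have h5 := le_abs_self C3
      rw [hVb]
      linarith
  -- the mean
  have hL := integral_abs_lin_le Damb (fun _ => mu) (bd D) (fun v => hm D y v)
  have hLi := (integrable_lin Damb (fun _ => mu) (bd D) (fun v => hm D y v)).abs
  have hpt : ∀ X : V → ℝ, |hx D X y| ≤ |lin Damb (fun _ => mu) (bd D) (fun v => hm D y v) X| +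
      |mu| := by
    intro X
    rw [← hx_sub_eq_lin hD hy (fun _ => mu) X, hx_const]
    have := abs_add_le (hx D X y - mu) mu
    simpa using this
  calc ∫⁻ X, ENNReal.ofReal |hx D X y| ∂(gam Damb (fun _ => mu))
      ≤ ∫⁻ X, (ENNReal.ofReal |lin Damb (fun _ => mu) (bd D) (fun v => hm D y v) X| +
          ENNReal.ofReal |mu|) ∂(gam Damb (fun _ => mu)) := by
        apply lintegral_mono
        intro X
        change ENNReal.ofReal |hx D X y| ≤ _ + _
        rw [← ENNReal.ofReal_add (abs_nonneg _) (abs_nonneg _)]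
        exact ENNReal.ofReal_le_ofReal (hpt X)
    _ = ∫⁻ X, ENNReal.ofReal |lin Damb (fun _ => mu) (bd D) (fun v => hm D y v) X|
          ∂(gam Damb (fun _ => mu)) + ENNReal.ofReal |mu| := by
        rw [lintegral_add_right _ measurable_const, lintegral_const, measure_univ, mul_one]
    _ = ENNReal.ofReal (∫ X, |lin Damb (fun _ => mu) (bd D) (fun v => hm D y v) X|
          ∂(gam Damb (fun _ => mu))) + ENNReal.ofReal |mu| := by
        rw [ofReal_integral_eq_lintegral_ofReal hLi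
          (Filter.Eventually.of_forall fun _ => abs_nonneg _)]
    _ ≤ ENNReal.ofReal (Real.sqrt Vb) + ENNReal.ofReal |mu| := by
        gcongr
        exact hL.trans (Real.sqrt_le_sqrt hvr)
    _ = ENNReal.ofReal (Real.sqrt Vb + |mu|) :=
        (ENNReal.ofReal_add (Real.sqrt_nonneg _) (abs_nonneg _)).symm
    _ ≤ ENNReal.ofReal ((1 + Real.sqrt Vb) * (1 + |mu|)) := by
        apply ENNReal.ofReal_le_ofReal
        have h1 := Real.sqrt_nonneg Vb
        have h2 := abs_nonneg mu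
        nlinarith

theorem JU {w0 : ℝ} (h0 : 0 < w0) (h1 : w0 ≤ 1) (A : ℕ) : ∃ C : ℝ, 0 < C ∧ ∀ (r W T B : ℕ), 1 ≤ r → r + 2 ≤ W →
    W ≤ A * r → W ≤ T → T ≤ A * r → W ≤ B → B ≤ A * r → ∀ (Damb : Finset V) (z : V),
    Rc 0 W (-B - 1) (T + 1) ⊆ Damb → Damb ⊆ Q z (A * r) → ∀ (mu : ℝ) (j : ℕ), 1 ≤ j →
    ∫⁻ X, ENNReal.ofReal (UJ W T B r w0 j X) ∂(gam Damb (fun _ => mu)) ≤ ENNReal.ofReal (C * (1 + |mu|)) := by
  classical
  obtain ⟨C1, hC1, hch⟩ := chain (2 * A) (1 / 8) (by norm_num) le_rfl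
  obtain ⟨C2, hC2, hme⟩ := hx_meanU A
  refine ⟨2 * C1 + 3 * (A : ℝ) ^ 2 * C2, by positivity, ?_⟩
  intro r W T B hr hrW hWA hWT hTA hWB hBA Damb z hRD hDQ mu j hj
  have hW3 : 3 ≤ W := by omega
  have hT1 : 1 ≤ T := by omega
  have hDD : DJ W T B ⊆ Damb := by
    refine Finset.Subset.trans ?_ hRD
    intro v hv
    have h2 := mem_RcU.1 hv
    apply mem_RcU.2
    omega
  have hgood := fun X => Jst_good hW3 hT1 h0 j X
  have hgB : ∀ X, GoodB W T w0 (Jst W T w0 j X) := by
    intro X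
    rcases Nat.mod_two_eq_zero_or_one j with h | h
    · exact ((hgood X).2.1 h).toGoodB
    · exact ((hgood X).1 h).toGoodB
  set w : ℝ := if j % 2 = 1 then w0 else 0 with hw
  have hw0 : 0 ≤ w := by
    rw [hw]
    split_ifs
    · exact h0.le
    · exact le_rfl
  have hw1 : w ≤ 1 := by
    rw [hw]
    split_ifs
    · exact h1
    · norm_num
  have he : sgJ j = 1 ∨ sgJ j = -1 := by
    unfold sgJ
    split_ifs
    · exact Or.inl rfl
    · exact Or.inr rfl
  have hrR : (1 : ℝ) ≤ r := by exact_mod_cast hr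
  have key := hch r hr 1 ((W : ℤ) - 1) (-(B : ℤ)) (T : ℤ)
    (by omega) (by push_cast; have : (W : ℤ) ≤ A * r := by exact_mod_cast hWA
                   nlinarith) (by omega)
    (by push_cast
        have h2 : (T : ℤ) ≤ A * r := by exact_mod_cast hTA
        have h3 : (B : ℤ) ≤ A * r := by exact_mod_cast hBA
        nlinarith)
    Damb z (by
      intro v hv
      apply hRD
      have h2 := mem_RcU.1 hv
      apply mem_RcU.2
      omega)
    (hDQ.trans (Q_monoU (by push_cast; nlinarith [(Nat.cast_nonneg A : (0 : ℤ) ≤ A),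
      (Nat.cast_nonneg r : (0 : ℤ) ≤ r)])))
    mu w (sgJ j) 0 hw0 he le_rfl (by simp) (Jst W T w0 j) JS.c (Jst_exp hW3 hT1 h0 j)
    (fun q => GJ W B q) (fun _ => ∅)
    (fun X => by
      have h2 := GJ_sub (T := T) (hgB X) (B := B)
      exact ⟨h2.2.1, h2.2.2, h2.1, Finset.empty_subset _⟩)
    (fun X g hg k hk1 hk2 => by
      refine GJ_thick hW3 hWB (hgB X) hg k hk1 ?_
      have h2 : (8 * k : ℝ) ≤ r := by linarith
      have h3 : 8 * k ≤ r := by exact_mod_cast h2
      omega)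
    (fun X => by simp)
    (fun X v hv => by
      rintro ⟨y, hy, hvy⟩
      right
      rw [Finset.mem_sdiff] at hy
      have hok := (Jst_exp (B := B) hW3 hT1 h0 j).2.1 X
      by_cases hpar : j % 2 = 1
      · have h2 := GJ_visO (B := B) ((hgood X).1 hpar) hv hy.1 hy.2 hvy
        have h3 := cm_le (DJ W T B) X (Jst W T w0 j X).c hok h2.1
        rw [h2.2] at h3
        have h4 : sgJ j = 1 := if_pos hpar
        have h5 : w = w0 := if_pos hpar
        rw [h4, h5, one_mul]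
        exact h3
      · have hpar' : j % 2 = 0 := by omega
        have h2 := GJ_visC (B := B) ((hgood X).2.1 hpar') ((hgood X).2.2 hpar' hj) hv hy.1
          hy.2 hvy
        have h3 := le_cm (DJ W T B) X (Jst W T w0 j X).c hok h2.1
        rw [h2.2] at h3
        have h4 : sgJ j = -1 := if_neg hpar
        have h5 : w = 0 := if_neg hpar
        rw [h4, h5]
        change -1 * cm (DJ W T B) X (Jst W T w0 j X).c v ≤ 0
        linarith)
  -- the deep points
  set Dp : Finset V := (DJ W T B).filter (fun y => Deep (DJ W T B) y (1 / 8 * r)) with hDp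
  have hcard : ((Dp.card : ℕ) : ℝ) ≤ 3 * (A : ℝ) ^ 2 * (r : ℝ) ^ 2 := by
    have h2 : Dp.card ≤ (DJ W T B).card := Finset.card_filter_le _ _
    have h3 : (DJ W T B).card = (W - 1) * (T + B + 1) := by
      unfold DJ Rc
      rw [← Finset.Icc_product_Icc, Finset.card_product, Int.card_Icc, Int.card_Icc]
      congr 1 <;> omega
    have h4 : (W - 1) * (T + B + 1) ≤ (A * r) * (3 * (A * r)) := by
      apply Nat.mul_le_mul <;> omega
    have h5 : Dp.card ≤ (A * r) * (3 * (A * r)) := by omega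
    calc ((Dp.card : ℕ) : ℝ) ≤ (((A * r) * (3 * (A * r)) : ℕ) : ℝ) := by exact_mod_cast h5
      _ = 3 * (A : ℝ) ^ 2 * (r : ℝ) ^ 2 := by
        push_cast
        ring
  have hr2 : (0 : ℝ) < (r : ℝ) ^ 2 := by positivity
  have hpt : ∀ X : V → ℝ, UJ W T B r w0 j X ≤
      (∑ y ∈ (DJ W T B).filter (fun y => Deep (DJ W T B) y (1 / 8 * r) ∧
        y ∉ GJ W B (Jst W T w0 j X)),
        max 0 (sgJ j * (cm (DJ W T B) X (Jst W T w0 j X).c y - hx (DJ W T B) X y))) /
          (r : ℝ) ^ 2 + ∑ y ∈ Dp, |hx (DJ W T B) X y| * ((r : ℝ) ^ 2)⁻¹ := by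
    intro X
    unfold UJ
    rw [← Finset.sum_mul, ← div_eq_mul_inv, ← add_div]
    apply div_le_div_of_nonneg_right _ hr2.le
    have h2 : ∑ y ∈ (DJ W T B).filter (fun y => Deep (DJ W T B) y (1 / 8 * r) ∧
        y ∉ GJ W B (Jst W T w0 j X)), |hx (DJ W T B) X y| ≤
        ∑ y ∈ Dp, |hx (DJ W T B) X y| := by
      apply Finset.sum_le_sum_of_subset_of_nonneg
      · intro y hy
        rw [Finset.mem_filter] at hy
        exact Finset.mem_filter.2 ⟨hy.1, hy.2.1⟩
      · intro _ _ _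
        exact abs_nonneg _
    refine le_trans ?_ (add_le_add_right h2 _)
    rw [← Finset.sum_add_distrib]
    apply Finset.sum_le_sum
    intro y _
    have h3 : sgJ j * cm (DJ W T B) X (Jst W T w0 j X).c y =
        sgJ j * (cm (DJ W T B) X (Jst W T w0 j X).c y - hx (DJ W T B) X y) +
          sgJ j * hx (DJ W T B) X y := by ring
    have h4 : sgJ j * hx (DJ W T B) X y ≤ |hx (DJ W T B) X y| := by
      rcases he with he | he
      · rw [he, one_mul]
        exact le_abs_self _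
      · rw [he, neg_one_mul]
        exact neg_le_abs _
    rw [h3]
    apply max_le
    · exact add_nonneg (le_max_left _ _) (abs_nonneg _)
    · exact add_le_add (le_max_right _ _) h4
  have hmeas : ∀ y ∈ Dp, Measurable fun X : V → ℝ =>
      ENNReal.ofReal (|hx (DJ W T B) X y| * ((r : ℝ) ^ 2)⁻¹) := by
    intro y _
    exact (((measurable_hx (DJ W T B) y).abs).mul_const _).ennreal_ofReal
  have hsecond : ∫⁻ X, ENNReal.ofReal (∑ y ∈ Dp, |hx (DJ W T B) X y| * ((r : ℝ) ^ 2)⁻¹)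
      ∂(gam Damb (fun _ => mu)) ≤ ENNReal.ofReal (3 * (A : ℝ) ^ 2 * (C2 * (1 + |mu|))) := by
    calc ∫⁻ X, ENNReal.ofReal (∑ y ∈ Dp, |hx (DJ W T B) X y| * ((r : ℝ) ^ 2)⁻¹)
          ∂(gam Damb (fun _ => mu))
        = ∫⁻ X, ∑ y ∈ Dp, ENNReal.ofReal (|hx (DJ W T B) X y| * ((r : ℝ) ^ 2)⁻¹)
          ∂(gam Damb (fun _ => mu)) := by
          apply lintegral_congr
          intro X
          rw [ENNReal.ofReal_sum_of_nonneg]
          intro _ _
          positivity
      _ = ∑ y ∈ Dp, ∫⁻ X, ENNReal.ofReal (|hx (DJ W T B) X y| * ((r : ℝ) ^ 2)⁻¹)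
          ∂(gam Damb (fun _ => mu)) := lintegral_finsetSum _ hmeas
      _ ≤ ∑ y ∈ Dp, ENNReal.ofReal (C2 * (1 + |mu|) * ((r : ℝ) ^ 2)⁻¹) := by
          apply Finset.sum_le_sum
          intro y hy
          rw [hDp, Finset.mem_filter] at hy
          have h2 := hme r hr (DJ W T B) Damb z y hDD hDQ hy.1 hy.2 mu
          calc ∫⁻ X, ENNReal.ofReal (|hx (DJ W T B) X y| * ((r : ℝ) ^ 2)⁻¹)
                ∂(gam Damb (fun _ => mu))
              = ∫⁻ X, ENNReal.ofReal |hx (DJ W T B) X y| * ENNReal.ofReal ((r : ℝ) ^ 2)⁻¹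
                ∂(gam Damb (fun _ => mu)) := by
                apply lintegral_congr
                intro X
                rw [ENNReal.ofReal_mul (abs_nonneg _)]
            _ = (∫⁻ X, ENNReal.ofReal |hx (DJ W T B) X y| ∂(gam Damb (fun _ => mu))) *
                ENNReal.ofReal ((r : ℝ) ^ 2)⁻¹ :=
                lintegral_mul_const _ ((measurable_hx (DJ W T B) y).abs.ennreal_ofReal)
            _ ≤ ENNReal.ofReal (C2 * (1 + |mu|)) * ENNReal.ofReal ((r : ℝ) ^ 2)⁻¹ := by
                gcongr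
            _ = ENNReal.ofReal (C2 * (1 + |mu|) * ((r : ℝ) ^ 2)⁻¹) := by
                rw [← ENNReal.ofReal_mul (by positivity)]
      _ = ENNReal.ofReal ((Dp.card : ℝ) * (C2 * (1 + |mu|) * ((r : ℝ) ^ 2)⁻¹)) := by
          rw [Finset.sum_const, nsmul_eq_mul, ENNReal.ofReal_mul (Nat.cast_nonneg _),
            ENNReal.ofReal_natCast]
      _ ≤ ENNReal.ofReal (3 * (A : ℝ) ^ 2 * (C2 * (1 + |mu|))) := by
          apply ENNReal.ofReal_le_ofReal
          calc (Dp.card : ℝ) * (C2 * (1 + |mu|) * ((r : ℝ) ^ 2)⁻¹)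
              ≤ (3 * (A : ℝ) ^ 2 * (r : ℝ) ^ 2) * (C2 * (1 + |mu|) * ((r : ℝ) ^ 2)⁻¹) :=
                mul_le_mul_of_nonneg_right hcard (by positivity)
            _ = 3 * (A : ℝ) ^ 2 * (C2 * (1 + |mu|)) := by
                field_simp
  have hmeas2 : Measurable fun X : V → ℝ =>
      ENNReal.ofReal (∑ y ∈ Dp, |hx (DJ W T B) X y| * ((r : ℝ) ^ 2)⁻¹) := by
    apply Measurable.ennreal_ofReal
    apply Finset.measurable_fun_sum
    intro y _
    exact ((measurable_hx (DJ W T B) y).abs).mul_const _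
  have hmu : max 0 (w - sgJ j * mu) ≤ 1 + |mu| := by
    apply max_le
    · positivity
    · rcases he with he | he
      · rw [he, one_mul]
        linarith [neg_abs_le mu]
      · rw [he]
        linarith [le_abs_self mu]
  calc ∫⁻ X, ENNReal.ofReal (UJ W T B r w0 j X) ∂(gam Damb (fun _ => mu))
      ≤ ∫⁻ X, (ENNReal.ofReal ((∑ y ∈ (DJ W T B).filter (fun y =>
          Deep (DJ W T B) y (1 / 8 * r) ∧ y ∉ GJ W B (Jst W T w0 j X)),
          max 0 (sgJ j * (cm (DJ W T B) X (Jst W T w0 j X).c y - hx (DJ W T B) X y))) /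
            (r : ℝ) ^ 2) +
          ENNReal.ofReal (∑ y ∈ Dp, |hx (DJ W T B) X y| * ((r : ℝ) ^ 2)⁻¹))
          ∂(gam Damb (fun _ => mu)) := by
        apply lintegral_mono
        intro X
        change ENNReal.ofReal (UJ W T B r w0 j X) ≤ _ + _
        rw [← ENNReal.ofReal_add _ _]
        · exact ENNReal.ofReal_le_ofReal (hpt X)
        · apply div_nonneg _ hr2.le
          exact Finset.sum_nonneg fun _ _ => le_max_left _ _
        · apply Finset.sum_nonneg
          intro _ _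
          positivity
    _ = ∫⁻ X, ENNReal.ofReal ((∑ y ∈ (DJ W T B).filter (fun y =>
          Deep (DJ W T B) y (1 / 8 * r) ∧ y ∉ GJ W B (Jst W T w0 j X)),
          max 0 (sgJ j * (cm (DJ W T B) X (Jst W T w0 j X).c y - hx (DJ W T B) X y))) /
            (r : ℝ) ^ 2) ∂(gam Damb (fun _ => mu)) +
        ∫⁻ X, ENNReal.ofReal (∑ y ∈ Dp, |hx (DJ W T B) X y| * ((r : ℝ) ^ 2)⁻¹)
          ∂(gam Damb (fun _ => mu)) := lintegral_add_right _ hmeas2
    _ ≤ ENNReal.ofReal (C1 * (1 + max 0 (w - sgJ j * mu))) +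
        ENNReal.ofReal (3 * (A : ℝ) ^ 2 * (C2 * (1 + |mu|))) := by
        refine add_le_add ?_ hsecond
        refine le_trans (le_of_eq ?_) key
        apply lintegral_congr
        intro X
        congr 3
    _ = ENNReal.ofReal (C1 * (1 + max 0 (w - sgJ j * mu)) +
        3 * (A : ℝ) ^ 2 * (C2 * (1 + |mu|))) := by
        rw [← ENNReal.ofReal_add (by positivity) (by positivity)]
    _ ≤ ENNReal.ofReal ((2 * C1 + 3 * (A : ℝ) ^ 2 * C2) * (1 + |mu|)) := by
        apply ENNReal.ofReal_le_ofReal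
        have h2 := abs_nonneg mu
        have h3 := mul_le_mul_of_nonneg_left hmu hC1.le
        nlinarith

end GF
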