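import Pool.Agent.Lib.MP_acf58e_gf.G0b
/-! two-step maximum principle (blueprint 7.2 (c)) -/
open MeasureTheory Set
open scoped ENNReal
namespace GF

/-- the king neighbours of x: either a nearest neighbour or a neighbour of a nearest neighbour -/
private theorem jv2_st_cases {x p : V} (h : st x p) :
    (p = nE x ∨ p = nW x ∨ p = nN x ∨ p = nS x) ∨
    (∃ b, (b = nE x ∨ b = nW x ∨ b = nN x ∨ b = nS x) ∧ (p = nE b ∨ p = nW b ∨ p = nN b ∨ p = nS b)) := by
  obtain ⟨a, b⟩ := x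
  obtain ⟨c, d⟩ := p
  simp only [st, dI] at h
  have h1 : |a - c| ≤ 1 := h ▸ le_max_left _ _
  have h2 : |b - d| ≤ 1 := h ▸ le_max_right _ _
  rw [abs_le] at h1 h2
  have h3 : c = a - 1 ∨ c = a ∨ c = a + 1 := by omega
  have h4 : d = b - 1 ∨ d = b ∨ d = b + 1 := by omega
  rcases h3 with h3 | h3 | h3 <;> rcases h4 with h4 | h4 | h4 <;> subst h3 <;> subst h4
  · right; exact ⟨(a - 1, b), by simp [nE, nW, nN, nS], by simp [nE, nW, nN, nS]⟩
  · left; simp [nE, nW, nN, nS]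
  · right; exact ⟨(a - 1, b), by simp [nE, nW, nN, nS], by simp [nE, nW, nN, nS]⟩
  · left; simp [nE, nW, nN, nS]
  · exfalso; simp at h
  · left; simp [nE, nW, nN, nS]
  · right; exact ⟨(a + 1, b), by simp [nE, nW, nN, nS], by simp [nE, nW, nN, nS]⟩
  · left; simp [nE, nW, nN, nS]
  · right; exact ⟨(a + 1, b), by simp [nE, nW, nN, nS], by simp [nE, nW, nN, nS]⟩

private theorem jv2_av_le {g : V → ℝ} {M K : ℝ} (hM : ∀ y, g y ≤ M) {x p : V}
    (hp : p = nE x ∨ p = nW x ∨ p = nN x ∨ p = nS x) (hK : g p ≤ K) :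
    av g x ≤ (3 * M + K) / 4 := by
  have h1 := hM (nE x)
  have h2 := hM (nW x)
  have h3 := hM (nN x)
  have h4 := hM (nS x)
  unfold av
  rcases hp with rfl | rfl | rfl | rfl <;> linarith

theorem two_step {D O : Finset V} {m H : V → ℝ} {C1 : ℝ} (hC : 0 ≤ C1) (hO : O ⊆ D)
    (h1 : ∀ x ∈ D, x ∉ O → m x = av m x) (h2 : ∀ x ∈ O, m x ≤ av m x + C1)
    (hH : ∀ x ∈ D, H x = av H x) (hb : ∀ x ∉ D, m x ≤ H x) (h3 : ∀ x ∈ O, ∃ p ∉ D, st x p) :
    ∀ x, m x ≤ H x + 20 * C1 := by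
  classical
  obtain ⟨g, hg⟩ : ∃ g : V → ℝ, ∀ x, g x = m x - H x := ⟨fun x => m x - H x, fun _ => rfl⟩
  have hav : ∀ x, av g x = av m x - av H x := by
    intro x; unfold av; simp only [hg]; ring
  have hg0 : ∀ x ∉ D, g x ≤ 0 := by intro x hx; rw [hg]; linarith [hb x hx]
  have hg1 : ∀ x ∈ D, x ∉ O → g x = av g x := by
    intro x hx hxO; rw [hav, hg, h1 x hx hxO, hH x hx]
  have hg2 : ∀ x ∈ D, g x ≤ av g x + C1 := by
    intro x hx
    by_cases hxO : x ∈ O
    · rw [hav, hg]; linarith [h2 x hxO, hH x hx]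
    · rw [← hg1 x hx hxO]; linarith
  suffices hall : ∀ x, g x ≤ 20 * C1 by
    intro x; have := hall x; rw [hg] at this; linarith
  rcases D.eq_empty_or_nonempty with hD | hD
  · intro x
    have := hg0 x (by rw [hD]; simp)
    linarith
  obtain ⟨x0, hx0, hmax⟩ := D.exists_max_image g hD
  obtain ⟨M, hM⟩ : ∃ M, M = max (g x0) 0 := ⟨_, rfl⟩
  have hM0 : 0 ≤ M := hM ▸ le_max_right _ _
  have hMx : g x0 ≤ M := hM ▸ le_max_left _ _
  have hle : ∀ y, g y ≤ M := by
    intro y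
    by_cases hy : y ∈ D
    · exact le_trans (hmax y hy) hMx
    · exact le_trans (hg0 y hy) hM0
  obtain ⟨K, hK⟩ : ∃ K, K = 5 / 4 * C1 + 15 / 16 * M := ⟨_, rfl⟩
  have hOb : ∀ x ∈ O, g x ≤ K := by
    intro x hx
    obtain ⟨p, hp, hst⟩ := h3 x hx
    have hx2 := hg2 x (hO hx)
    rcases jv2_st_cases hst with h | ⟨b, hb1, hb2⟩
    · have := jv2_av_le hle h (hg0 p hp)
      rw [hK]; linarith
    · by_cases hbD : b ∈ D
      · have h5 := jv2_av_le hle hb2 (hg0 p hp)
        have h6 := hg2 b hbD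
        have h7 := jv2_av_le hle hb1 (show g b ≤ 3 * M / 4 + C1 by linarith)
        rw [hK]; linarith
      · have := jv2_av_le hle hb1 (hg0 b hbD)
        rw [hK]; linarith
  have hK0 : 0 ≤ K := by rw [hK]; linarith
  have hDb : ∀ x ∈ D, g x ≤ K := by
    intro x hx
    by_cases hxO : x ∈ O
    · exact hOb x hxO
    · refine max_principle (D \ O) (f := g) (M := K) ?_ ?_ x (by simp [hx, hxO])
      · intro y hy
        rw [Finset.mem_sdiff] at hy
        exact (hg1 y hy.1 hy.2).le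
      · intro y hy
        have hy2 := not_mem_of_mem_bd hy
        by_cases hyO : y ∈ O
        · exact hOb y hyO
        · have : y ∉ D := by
            intro hyD
            exact hy2 (by simp [hyD, hyO])
          exact le_trans (hg0 y this) hK0
  have hMK : M ≤ K := by
    rw [hM]; exact max_le (hDb x0 hx0) hK0
  have : M ≤ 20 * C1 := by rw [hK] at hMK; linarith
  intro x
  exact le_trans (hle x) this

end GF
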