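import Pool.Agent.Lib.MP_acf58e_gf.P3
/-! hitting the far boundary from a neighbour of a long closed star path (blueprint 7.2 (d)) -/
open MeasureTheory Set
open scoped ENNReal
namespace GF

private theorem jv3_dI_comm (a b : V) : dI a b = dI b a := by
  unfold dI
  rw [abs_sub_comm a.1 b.1, abs_sub_comm a.2 b.2]

private theorem jv3_mem_Q {z x : V} {r : ℤ} : x ∈ Q z r ↔ dI x z ≤ r := by
  unfold Q dI
  rw [Finset.mem_Icc, Prod.le_def, Prod.le_def, max_le_iff, abs_le, abs_le]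
  constructor
  · rintro ⟨⟨h1, h2⟩, h3, h4⟩
    simp only at h1 h2 h3 h4
    exact ⟨⟨by linarith, by linarith⟩, by linarith, by linarith⟩
  · rintro ⟨⟨h1, h2⟩, h3, h4⟩
    refine ⟨⟨?_, ?_⟩, ?_, ?_⟩ <;> simp only <;> linarith

theorem hit_small : ∃ C c0 : ℝ, 0 < C ∧ 0 < c0 ∧ ∀ (D K : Finset V) (v x : V) (ρ : ℕ), K ⊆ D → v ∈ K → 4 ≤ ρ →
    Q v ρ ⊆ D → (∀ k : ℕ, k + 2 ≤ ρ → ∃ p ∈ K, dI v p = k) → x ∈ D → x ∉ K → nn v x → ∀ (β : V → ℝ) (Λ : ℝ), 0 ≤ Λ →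
    (∀ y ∈ K, β y = 0) → (∀ y ∉ D, β y ≤ Λ) → hx (D \ K) β x ≤ Λ * (C / (ρ : ℝ) ^ c0) := by
  obtain ⟨C, c, hC, hc, H⟩ := beurling_dom
  refine ⟨C * 2 ^ c, c, by positivity, hc, ?_⟩
  intro D K v x ρ hKD hvK hρ hQ hthick hxD hxK hnn β Λ hΛ hβK hβD
  obtain ⟨E, hE⟩ : ∃ E : Finset V, E = D \ K := ⟨_, rfl⟩
  have hxE : x ∈ E := by rw [hE]; exact Finset.mem_sdiff.2 ⟨hxD, hxK⟩
  obtain ⟨Y, hY⟩ : ∃ Y : Finset V, Y = (bd E).filter (fun y => y ∉ D) := ⟨_, rfl⟩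
  have h1 : (1 : ℤ) ≤ (ρ : ℤ) - 2 := by omega
  have hx1 : x ∈ Q v 1 := by
    rw [jv3_mem_Q]
    unfold nn at hnn
    unfold dI
    rw [max_le_iff]
    have e1 := abs_sub_comm v.1 x.1
    have e2 := abs_sub_comm v.2 x.2
    have e3 := abs_nonneg (v.1 - x.1)
    have e4 := abs_nonneg (v.2 - x.2)
    constructor <;> linarith
  have hK : ∀ r : ℤ, 1 ≤ r → r ≤ (ρ : ℤ) - 2 → ∃ k ∈ K, dI k v = r := by
    intro r hr1 hr2
    obtain ⟨p, hp, hpr⟩ := hthick r.toNat (by omega)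
    refine ⟨p, hp, ?_⟩
    rw [jv3_dI_comm, hpr]
    exact Int.toNat_of_nonneg (by omega)
  have hYc : ∀ y ∈ Y, y ∉ K ∧ (ρ : ℤ) - 2 < dI y v := by
    intro y hy
    rw [hY, Finset.mem_filter] at hy
    refine ⟨fun h => hy.2 (hKD h), ?_⟩
    by_contra hcon
    exact hy.2 (hQ (jv3_mem_Q.2 (by omega)))
  have hsum := H 1 ((ρ : ℤ) - 2) v D K le_rfl h1 hK x hx1 hxK hxD Y hYc
  rw [← hE] at hsum ⊢
  have hle : GF.hx E β x ≤ Λ * ∑ y ∈ Y, hm E x y := by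
    rw [hx_eq_sum hxE β, hY, Finset.sum_filter, Finset.mul_sum]
    apply Finset.sum_le_sum
    intro y hy
    have hyE : y ∉ E := not_mem_of_mem_bd hy
    have hh := hm_nonneg E x y
    by_cases hyD : y ∈ D
    · have hyK : y ∈ K := by
        by_contra hcon
        exact hyE (by rw [hE]; exact Finset.mem_sdiff.2 ⟨hyD, hcon⟩)
      rw [hβK y hyK]
      simp [hyD]
    · rw [if_pos hyD, mul_comm Λ]
      exact mul_le_mul_of_nonneg_left (hβD y hyD) hh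
  refine hle.trans (mul_le_mul_of_nonneg_left (hsum.trans ?_) hΛ)
  have hρ4 : (4 : ℝ) ≤ (ρ : ℝ) := by exact_mod_cast hρ
  rw [mul_div_assoc, ← Real.div_rpow (by norm_num) (by linarith)]
  apply mul_le_mul_of_nonneg_left _ hC.le
  have e1 : ((((ρ : ℤ) - 2 : ℤ)) : ℝ) = (ρ : ℝ) - 2 := by push_cast; ring
  rw [e1]
  apply Real.rpow_le_rpow (by
    apply div_nonneg
    · norm_num
    · linarith) _ hc.le
  rw [div_le_div_iff₀ (by linarith) (by linarith)]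
  push_cast
  linarith

end GF
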