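import Pool.Agent.Lib.MP_acf58e_gf.G0b

/-! MP_acf58e_pr, row P1b: Lipschitz property of the Green function. -/

open Set

namespace GF

private theorem gr_flux {D : Finset V} (x : V) {z z' : V} (h : nn z z') :
    gr D z x - gr D z' x ≤ 1 := by
  classical
  by_cases hle : gr D z x ≤ gr D z' x
  · linarith
  push Not at hle
  have hpos : 0 < gr D z x := lt_of_le_of_lt (gr_nonneg D z' x) hle
  have hzD : z ∈ D := by
    by_contra hz
    rw [gr_off_left hz] at hpos
    exact lt_irrefl _ hpos
  set g : V → ℝ := fun w => gr D w x with hg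
  set φ : V → ℝ := fun w => if w ∈ D ∧ g z ≤ g w then 1 else 0 with hφdef
  have hφ : ∀ w ∉ D, φ w = 0 := by
    intro w hw
    simp [hφdef, hw]
  have hφz : φ z = 1 := by simp [hφdef, hzD]
  have hφz' : φ z' = 0 := by
    simp only [hφdef]
    rw [if_neg]
    rintro ⟨_, h2⟩
    exact absurd h2 (not_le.2 hle)
  have hoff : ∀ w, φ w = 0 → g w < g z := by
    intro w hw
    by_cases hwD : w ∈ D
    · by_contra hc
      push Not at hc
      simp [hφdef, hwD, hc] at hw
    · rw [hg]; simp only; rw [gr_off_left hwD]; exact hpos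
  have hon : ∀ w, φ w ≠ 0 → φ w = 1 ∧ g z ≤ g w := by
    intro w hw
    by_cases hc : w ∈ D ∧ g z ≤ g w
    · exact ⟨by simp [hφdef, hc], hc.2⟩
    · exact absurd (by simp only [hφdef]; rw [if_neg hc]) hw
  have hterm : ∀ a b, 0 ≤ (φ a - φ b) * (g a - g b) := by
    intro a b
    by_cases ha : φ a = 0
    · by_cases hb : φ b = 0
      · rw [ha, hb]; simp
      · obtain ⟨h1, h2⟩ := hon b hb
        have h3 := hoff a ha
        rw [ha, h1]
        nlinarith
    · obtain ⟨h1, h2⟩ := hon a ha
      by_cases hb : φ b = 0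
      · have h3 := hoff b hb
        rw [hb, h1]
        nlinarith
      · obtain ⟨h3, _⟩ := hon b hb
        rw [h1, h3]; simp
  have hebil : ebil D φ g ≤ 1 := by
    rw [ebil_parts hφ]
    have e : ∀ w ∈ D, φ w * lap g w = - (φ w * (if w = x then 1 else 0)) := by
      intro w hw
      rw [hg, lap_gr x hw]; ring
    rw [Finset.sum_congr rfl e, Finset.sum_neg_distrib, neg_neg]
    by_cases hx : x ∈ D
    · rw [Finset.sum_eq_single x]
      · simp only [hφdef, if_true, mul_one]
        split_ifs <;> norm_num
      · intro b _ hb; rw [if_neg hb, mul_zero]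
      · intro h; exact absurd hx h
    · rw [Finset.sum_eq_zero]
      · norm_num
      · intro w hw
        have : w ≠ x := fun h => hx (h ▸ hw)
        rw [if_neg this, mul_zero]
  have hH : 0 ≤ ∑ w ∈ eH D, (φ (nE w) - φ w) * (g (nE w) - g w) :=
    Finset.sum_nonneg fun w _ => hterm _ _
  have hV : 0 ≤ ∑ w ∈ eV D, (φ (nN w) - φ w) * (g (nN w) - g w) :=
    Finset.sum_nonneg fun w _ => hterm _ _
  have hcases : z' = nE z ∨ z' = nW z ∨ z' = nN z ∨ z' = nS z := by
    obtain ⟨a, b⟩ := z
    obtain ⟨c, d⟩ := z'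
    unfold nn at h
    simp only at h
    unfold nE nW nN nS
    simp only [Prod.mk.injEq]
    rcases abs_cases (a - c) with ⟨h1, _⟩ | ⟨h1, _⟩ <;>
      rcases abs_cases (b - d) with ⟨h2, _⟩ | ⟨h2, _⟩ <;> omega
  unfold ebil at hebil
  show g z - g z' ≤ 1
  rcases hcases with e | e | e | e
  · have h1 := Finset.single_le_sum (f := fun w => (φ (nE w) - φ w) * (g (nE w) - g w))
      (s := eH D) (fun w _ => hterm _ _) (Finset.mem_union_left _ hzD)
    simp only [← e, hφz, hφz'] at h1
    linarith
  · have hmem : z' ∈ eH D := Finset.mem_union_right _ (Finset.mem_image.2 ⟨z, hzD, e.symm⟩)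
    have h1 := Finset.single_le_sum (f := fun w => (φ (nE w) - φ w) * (g (nE w) - g w))
      (s := eH D) (fun w _ => hterm _ _) hmem
    have e2 : nE z' = z := by rw [e]; simp [nE, nW]
    simp only [e2, hφz, hφz'] at h1
    linarith
  · have h1 := Finset.single_le_sum (f := fun w => (φ (nN w) - φ w) * (g (nN w) - g w))
      (s := eV D) (fun w _ => hterm _ _) (Finset.mem_union_left _ hzD)
    simp only [← e, hφz, hφz'] at h1
    linarith
  · have hmem : z' ∈ eV D := Finset.mem_union_right _ (Finset.mem_image.2 ⟨z, hzD, e.symm⟩)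
    have h1 := Finset.single_le_sum (f := fun w => (φ (nN w) - φ w) * (g (nN w) - g w))
      (s := eV D) (fun w _ => hterm _ _) hmem
    have e2 : nN z' = z := by rw [e]; simp [nN, nS]
    simp only [e2, hφz, hφz'] at h1
    linarith

/-- P1b: the Green function changes by at most one along an edge -/
theorem gr_lip {D : Finset V} (x : V) {z z' : V} (h : nn z z') : |gr D x z - gr D x z'| ≤ 1 := by
  rw [gr_symm D x z, gr_symm D x z', abs_le]
  have h1 := gr_flux (D := D) x h
  have h' : nn z' z := by
    unfold nn at *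
    rw [abs_sub_comm z'.1, abs_sub_comm z'.2]; exact h
  have h2 := gr_flux (D := D) x h'
  constructor <;> linarith

theorem gr_lip_dist {D : Finset V} (x z z' : V) : |gr D x z - gr D x z'| ≤ |z.1 - z'.1| + |z.2 - z'.2| := by
  have hor : ∀ (n : ℕ) (a b : ℤ), |gr D x (a + n, b) - gr D x (a, b)| ≤ n := by
    intro n
    induction n with
    | zero => intro a b; simp
    | succ n ih =>
      intro a b
      have h1 := ih a b
      have h2 : |gr D x (a + (n + 1 : ℕ), b) - gr D x (a + n, b)| ≤ 1 := by
        apply gr_lip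
        unfold nn
        push_cast
        have : a + (n + 1 : ℤ) - (a + n) = 1 := by ring
        simp [this]
      have h3 := abs_sub_le (gr D x (a + (n + 1 : ℕ), b)) (gr D x (a + n, b)) (gr D x (a, b))
      push_cast at *
      linarith
  have ver : ∀ (n : ℕ) (a b : ℤ), |gr D x (a, b + n) - gr D x (a, b)| ≤ n := by
    intro n
    induction n with
    | zero => intro a b; simp
    | succ n ih =>
      intro a b
      have h1 := ih a b
      have h2 : |gr D x (a, b + (n + 1 : ℕ)) - gr D x (a, b + n)| ≤ 1 := by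
        apply gr_lip
        unfold nn
        push_cast
        have : b + (n + 1 : ℤ) - (b + n) = 1 := by ring
        simp [this]
      have h3 := abs_sub_le (gr D x (a, b + (n + 1 : ℕ))) (gr D x (a, b + n)) (gr D x (a, b))
      push_cast at *
      linarith
  have hor' : ∀ (a a' b : ℤ), |gr D x (a, b) - gr D x (a', b)| ≤ (|a - a'| : ℤ) := by
    intro a a' b
    rcases le_total a' a with h | h
    · have h1 := hor (a - a').toNat a' b
      have e : ((a - a').toNat : ℤ) = a - a' := Int.toNat_of_nonneg (by omega)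
      have e' : ((a - a').toNat : ℝ) = ((a - a' : ℤ) : ℝ) := by exact_mod_cast congrArg (Int.cast (R := ℝ)) e
      rw [e, e'] at h1
      rw [abs_of_nonneg (by omega : 0 ≤ a - a')]
      have e2 : a' + (a - a') = a := by ring
      rwa [e2] at h1
    · have h1 := hor (a' - a).toNat a b
      have e : ((a' - a).toNat : ℤ) = a' - a := Int.toNat_of_nonneg (by omega)
      have e' : ((a' - a).toNat : ℝ) = ((a' - a : ℤ) : ℝ) := by exact_mod_cast congrArg (Int.cast (R := ℝ)) e
      rw [e, e'] at h1
      rw [abs_sub_comm a a', abs_of_nonneg (by omega : 0 ≤ a' - a), abs_sub_comm]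
      have e2 : a + (a' - a) = a' := by ring
      rwa [e2] at h1
  have ver' : ∀ (a b b' : ℤ), |gr D x (a, b) - gr D x (a, b')| ≤ (|b - b'| : ℤ) := by
    intro a b b'
    rcases le_total b' b with h | h
    · have h1 := ver (b - b').toNat a b'
      have e : ((b - b').toNat : ℤ) = b - b' := Int.toNat_of_nonneg (by omega)
      have e' : ((b - b').toNat : ℝ) = ((b - b' : ℤ) : ℝ) := by exact_mod_cast congrArg (Int.cast (R := ℝ)) e
      rw [e, e'] at h1
      rw [abs_of_nonneg (by omega : 0 ≤ b - b')]
      have e2 : b' + (b - b') = b := by ring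
      rwa [e2] at h1
    · have h1 := ver (b' - b).toNat a b
      have e : ((b' - b).toNat : ℤ) = b' - b := Int.toNat_of_nonneg (by omega)
      have e' : ((b' - b).toNat : ℝ) = ((b' - b : ℤ) : ℝ) := by exact_mod_cast congrArg (Int.cast (R := ℝ)) e
      rw [e, e'] at h1
      rw [abs_sub_comm b b', abs_of_nonneg (by omega : 0 ≤ b' - b), abs_sub_comm]
      have e2 : b + (b' - b) = b' := by ring
      rwa [e2] at h1
  obtain ⟨a, b⟩ := z
  obtain ⟨a', b'⟩ := z'
  have h1 := hor' a a' b
  have h2 := ver' a' b b'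
  have h3 := abs_sub_le (gr D x (a, b)) (gr D x (a', b)) (gr D x (a', b'))
  simp only
  linarith

end GF
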