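import Pool.Agent.Lib.MP_acf58e_gf.Func
import Pool.Agent.Lib.MP_acf58e_gf.G6
import Pool.Agent.Lib.MP_acf58e_gf.G3

/-! Cells and explorations (blueprint 5): definitions. -/

open MeasureTheory Set ProbabilityTheory
open scoped ENNReal

namespace GF

/-- a cell: product of half lines. C = closed type (X < θ), O = open type (θ ≤ X). -/
structure Cell where
  C : Finset V
  O : Finset V
  θ : V → ℝ

/-- the set of configurations of the cell -/
def Cell.S (c : Cell) : Set (V → ℝ) := cell c.C c.O c.θ

/-- conditional mean given the cell, under gam D β -/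
noncomputable def cm (D : Finset V) (β : V → ℝ) (c : Cell) (v : V) : ℝ :=
  (∫ X in c.S, X v ∂(gam D β)) / (gam D β c.S).toReal

/-- admissible cell in D -/
def Cell.Ok (c : Cell) (D : Finset V) : Prop := c.C ⊆ D ∧ c.O ⊆ D ∧ Disjoint c.C c.O

/-- exploration of D: s X is a state, determined by the revealed information -/
def IsExp (D : Finset V) {σ : Type*} (s : (V → ℝ) → σ) (cell : σ → Cell) : Prop :=
  (range s).Finite ∧ (∀ X, (cell (s X)).Ok D) ∧ (∀ X, X ∈ (cell (s X)).S) ∧
    ∀ X X', X' ∈ (cell (s X)).S → s X' = s X

/-- conditional expectation of the linear functional ψ given the exploration -/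
noncomputable def cN (D : Finset V) (β ψ : V → ℝ) (c : Cell) : ℝ := ∑ v ∈ D, ψ v * cm D β c v

/-- reveal v with threshold th -/
noncomputable def Cell.reveal (c : Cell) (v : V) (th : ℝ) (closed : Bool) : Cell := by
  classical
  exact if closed then ⟨insert v c.C, c.O, Function.update c.θ v th⟩
    else ⟨c.C, insert v c.O, Function.update c.θ v th⟩

open Classical in
/-- one step of an adaptive algorithm -/
noncomputable def stepA {σ : Type*} (nxt : σ → Option (V × ℝ)) (upd : σ → V → Bool → σ) (q : σ)
    (X : V → ℝ) : σ :=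
  match nxt q with
  | none => q
  | some (v, th) => upd q v (decide (X v < th))

/-- n steps -/
noncomputable def runA {σ : Type*} (nxt : σ → Option (V × ℝ)) (upd : σ → V → Bool → σ) :
    ℕ → σ → (V → ℝ) → σ
  | 0, q, _ => q
  | n + 1, q, X => stepA nxt upd (runA nxt upd n q X) X

/-- distance from y to the complement of D is at least ρ (Q(y,k) ⊆ D for every natural k < ρ) -/
def Deep (D : Finset V) (y : V) (ρ : ℝ) : Prop := ∀ k : ℕ, (k : ℝ) < ρ → Q y k ⊆ D

end GF
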