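import Pool.Agent.Lib.MP_acf58e_gf.JV2
import Pool.Agent.Lib.MP_acf58e_gf.JV3
import Pool.Agent.Lib.MP_acf58e_gf.X0
import Pool.Agent.Lib.MP_acf58e_gf.FG
import Pool.Agent.Lib.MP_acf58e_gf.FL
import Pool.Agent.Lib.MP_acf58e_gf.P1b
import Pool.Agent.Lib.MP_acf58e_gf.G7
/-! pinned comparison bound (blueprint 7.2) -/
open MeasureTheory Set ProbabilityTheory
open scoped ENNReal
namespace GF

/-! #### lattice -/

private theorem jv4_dI_tri (x y z : V) : dI x z ≤ dI x y + dI y z := by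
  unfold dI
  have h1 : |x.1 - z.1| ≤ |x.1 - y.1| + |y.1 - z.1| := by
    have : x.1 - z.1 = (x.1 - y.1) + (y.1 - z.1) := by ring
    rw [this]
    exact abs_add_le _ _
  have h2 : |x.2 - z.2| ≤ |x.2 - y.2| + |y.2 - z.2| := by
    have : x.2 - z.2 = (x.2 - y.2) + (y.2 - z.2) := by ring
    rw [this]
    exact abs_add_le _ _
  have := le_max_left |x.1 - y.1| |x.2 - y.2|
  have := le_max_right |x.1 - y.1| |x.2 - y.2|
  have := le_max_left |y.1 - z.1| |y.2 - z.2|
  have := le_max_right |y.1 - z.1| |y.2 - z.2|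
  exact max_le (by linarith) (by linarith)

private theorem jv4_chain {K : Set V} {v p : V} (h : ConnIn st K v p) :
    ∀ k : ℕ, (k : ℤ) ≤ dI v p → ∃ y ∈ K, dI v y = k := by
  obtain ⟨hv, h⟩ := h
  induction h with
  | refl =>
    intro k hk
    have h0 : dI v v = 0 := by simp [dI]
    refine ⟨v, hv, ?_⟩
    rw [h0] at hk ⊢
    omega
  | tail _ hbc ih =>
    rename_i b c _
    intro k hk
    by_cases hkb : (k : ℤ) ≤ dI v b
    · exact ih k hkb
    · have h1 := jv4_dI_tri v b c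
      have h2 : dI b c = 1 := hbc.1
      exact ⟨c, hbc.2, by omega⟩

private theorem jv4_mem_Q {z x : V} {r : ℤ} (h : dI z x ≤ r) : x ∈ Q z r := by
  unfold dI at h
  have h1 := le_trans (le_max_left _ _) h
  have h2 := le_trans (le_max_right _ _) h
  rw [abs_le] at h1 h2
  unfold Q
  rw [Finset.mem_Icc]
  refine ⟨⟨?_, ?_⟩, ⟨?_, ?_⟩⟩
  · change z.1 - r ≤ x.1
    linarith [h1.2]
  · change z.2 - r ≤ x.2
    linarith [h2.2]
  · change x.1 ≤ z.1 + r
    linarith [h1.1]
  · change x.2 ≤ z.2 + r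
    linarith [h2.1]

/-- the four neighbours -/
private noncomputable def jv4n (x : V) : Finset V := {nE x, nW x, nN x, nS x}

private theorem jv4_nn {x y : V} (h : y ∈ jv4n x) : nn x y := by
  unfold jv4n at h
  simp only [Finset.mem_insert, Finset.mem_singleton] at h
  rcases h with rfl | rfl | rfl | rfl <;> simp [nn, nE, nW, nN, nS]

private theorem jv4_nn_dI {x y : V} (h : nn x y) : dI x y ≤ 1 := by
  unfold nn at h
  unfold dI
  have h1 := abs_nonneg (x.1 - y.1)
  have h2 := abs_nonneg (x.2 - y.2)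
  exact max_le (by omega) (by omega)

private theorem jv4_sum (x : V) (f : V → ℝ) :
    ∑ y ∈ jv4n x, f y = f (nE x) + f (nW x) + f (nN x) + f (nS x) := by
  unfold jv4n
  have h1 : nE x ∉ ({nW x, nN x, nS x} : Finset V) := by
    simp [nE, nW, nN, nS, Prod.ext_iff]
    omega
  have h2 : nW x ∉ ({nN x, nS x} : Finset V) := by
    simp [nW, nN, nS, Prod.ext_iff]
  have h3 : nN x ∉ ({nS x} : Finset V) := by
    simp [nN, nS, Prod.ext_iff]
    omega
  rw [Finset.sum_insert h1, Finset.sum_insert h2, Finset.sum_insert h3, Finset.sum_singleton]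
  ring

private theorem jv4_av_lin (E : Finset V) (w0 : ℝ) (x : V) (X : V → ℝ) :
    lin E (fun _ => w0) (jv4n x) (fun _ => 1 / 4) X = av X x - w0 := by
  unfold lin
  rw [jv4_sum, hx_const]
  unfold av
  ring

private theorem jv4_vr {E : Finset V} {x : V} (h : ∀ y ∈ jv4n x, gr E y y ≤ 3) :
    vr E (jv4n x) (fun _ => 1 / 4) ≤ 3 := by
  have hc : (jv4n x).card ≤ 4 := Finset.card_le_four
  have hc' : ((jv4n x).card : ℝ) ≤ 4 := by exact_mod_cast hc
  unfold vr
  have h1 : ∀ y ∈ jv4n x, ∀ y' ∈ jv4n x, (1 / 4 : ℝ) * gr E y y' * (1 / 4) ≤ 3 / 16 := by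
    intro y _ y' hy'
    have := gr_le_diag E y y'
    have := h y' hy'
    linarith
  calc ∑ y ∈ jv4n x, ∑ y' ∈ jv4n x, (1 / 4 : ℝ) * gr E y y' * (1 / 4)
      ≤ ∑ y ∈ jv4n x, ∑ y' ∈ jv4n x, (3 / 16 : ℝ) :=
        Finset.sum_le_sum fun y hy => Finset.sum_le_sum fun y' hy' => h1 y hy y' hy'
    _ = ((jv4n x).card : ℝ) * (((jv4n x).card : ℝ) * (3 / 16)) := by simp
    _ ≤ 4 * (4 * (3 / 16)) := by gcongr
    _ = 3 := by norm_num

/-! #### averages -/

private theorem jv4_int_av (E : Finset V) (β : V → ℝ) (S : Set (V → ℝ)) (x : V) :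
    ∫ X in S, av X x ∂gam E β = av (fun y => ∫ X in S, X y ∂gam E β) x := by
  have hi : ∀ y : V, IntegrableOn (fun X : V → ℝ => X y) S (gam E β) := fun y =>
    (integrable_coord E β y).integrableOn
  unfold av
  rw [integral_div]
  congr 1
  have a1 : IntegrableOn (fun X : V → ℝ => X (nE x) + X (nW x)) S (gam E β) := (hi _).add (hi _)
  have a2 : IntegrableOn (fun X : V → ℝ => X (nE x) + X (nW x) + X (nN x)) S (gam E β) :=
    a1.add (hi _)
  rw [integral_add a2 (hi _), integral_add a1 (hi _), integral_add (hi _) (hi _)]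

private theorem jv4_av_mono {X Y : V → ℝ} (h : X ≤ Y) (x : V) : av X x ≤ av Y x := by
  unfold av
  have h1 := h (nE x)
  have h2 := h (nW x)
  have h3 := h (nN x)
  have h4 := h (nS x)
  linarith

private theorem jv4_cl_univ (θ θ' : V → ℝ) : cl ∅ ∅ θ θ' = univ := by
  ext X
  simp [cl]

/-- the negative part of the average at a point near the pinned set -/
private theorem jv4_neg {E O : Finset V} {β : V → ℝ} {w0 : ℝ} {x : V}
    (hβ : ∀ v ∉ E, w0 ≤ β v) (hgr : ∀ y ∈ jv4n x, gr E y y ≤ 3) :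
    ∫ X in cell ∅ O (fun _ => w0), max (w0 - av X x) 0 ∂gam E β ≤
      2 * (gam E β (cell ∅ O (fun _ => w0))).toReal := by
  have hD : Dom (gam E (fun _ => w0)) (cl ∅ ∅ (fun _ => w0) (fun _ => w0)) (gam E β)
      (cl ∅ O (fun _ => w0) (fun _ => w0)) :=
    cmp_main E (fun v hv => hβ v hv) (meas_cl _ _ _ _) (meas_cl _ _ _ _)
      (sle_cl (Finset.Subset.refl _) (Finset.empty_subset _) (fun v hv => le_rfl)
        (fun v hv => le_rfl))
  have hFm : Measurable (fun X : V → ℝ => max (w0 - av X x) 0) :=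
    (measurable_const.sub (measurable_av x)).max measurable_const
  have hFa : Antitone (fun X : V → ℝ => max (w0 - av X x) 0) := by
    intro X Y h
    have := jv4_av_mono h x
    exact max_le_max (by linarith) le_rfl
  have hFi : ∀ β' : V → ℝ, Integrable (fun X : V → ℝ => max (w0 - av X x) 0) (gam E β') := by
    intro β'
    exact ((integrable_const w0).sub (integrable_av E β' x)).pos_part
  have h1 := hD.real_anti (measure_ne_top _ _) (measure_ne_top _ _) hFm hFa
    (hFi _).integrableOn (hFi _).integrableOn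
  rw [jv4_cl_univ, Measure.restrict_univ, measure_univ, ENNReal.toReal_one, mul_one] at h1
  have h2 : ∫ X, max (w0 - av X x) 0 ∂gam E (fun _ => w0) ≤ 2 := by
    have h3 := integral_abs_lin_le E (fun _ => w0) (jv4n x) (fun _ => 1 / 4)
    have h4 : Real.sqrt (vr E (jv4n x) (fun _ => 1 / 4)) ≤ 2 := by
      rw [Real.sqrt_le_left (by norm_num)]
      linarith [jv4_vr hgr]
    refine le_trans (integral_mono (hFi _) (integrable_lin _ _ _ _).abs fun X => ?_) (h3.trans h4)
    rw [jv4_av_lin]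
    refine max_le ?_ (abs_nonneg _)
    have := neg_le_abs (av X x - w0)
    linarith
  refine h1.trans ?_
  exact mul_le_mul_of_nonneg_right h2 ENNReal.toReal_nonneg

/-- the positive part of the average at a pinned point -/
private theorem jv4_pos {E O : Finset V} {β : V → ℝ} {w0 Λ : ℝ} (hO : O ⊆ E)
    (hβ : ∀ v ∉ E, w0 ≤ β v) (hOp : ∀ v ∈ O, ∃ p, st v p ∧ p ∉ E) {v : V} (hv : v ∉ E)
    (hH : ∀ x ∈ jv4n v, hx E (fun y => β y - w0) x ≤ Λ) :
    ∫ X in cell ∅ O (fun _ => w0), max (av X v - w0) 0 ∂gam E β ≤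
      (Λ + 62) * (gam E β (cell ∅ O (fun _ => w0))).toReal := by
  set S : Set (V → ℝ) := cell ∅ O (fun _ => w0) with hS
  set P : ℝ := (gam E β S).toReal with hP
  have hSm : MeasurableSet S := measurableSet_cell _ _ _
  have hP0 : 0 < P := by
    rw [hP]
    exact ENNReal.toReal_pos (cell_pos (Finset.empty_subset _) hO (Finset.disjoint_empty_left _)
      _ _).ne' (measure_ne_top _ _)
  set J : V → ℝ := fun x => ∫ X in S, X x ∂gam E β with hJ
  set m : V → ℝ := fun x => J x / P - w0 with hm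
  have hgrn : ∀ x p : V, p ∉ E → dI x p ≤ 1 → ∀ y ∈ jv4n x, gr E y y ≤ 3 := fun x p hp hxp y hy =>
    gr_near hp hxp (Or.inr (jv4_nn hy))
  have hcard : ∀ c : ℝ, ∫ _X in S, c ∂gam E β = c * P := by
    intro c
    rw [setIntegral_const, smul_eq_mul, mul_comm]
    rfl
  have havm : ∀ x, av m x = av J x / P - w0 := by
    intro x
    simp only [hm, av]
    ring
  -- free points
  have h1 : ∀ x ∈ E, x ∉ O → m x = av m x := by
    intro x hxE hxO
    have h := cell_free hxE (Finset.notMem_empty x) hxO (fun _ => w0) β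
    rw [jv4_int_av] at h
    rw [havm]
    change J x / P - w0 = _
    have h' : J x = av J x := h
    rw [h']
  -- open points
  have h2 : ∀ x ∈ O, m x ≤ av m x + 3 := by
    intro x hxO
    obtain ⟨p, hxp, hpE⟩ := hOp x hxO
    have h := cell_open (hO hxO) (Finset.notMem_empty x) hxO (fun _ => w0) β
    have hneg := jv4_neg (O := O) hβ (hgrn x p hpE (le_of_eq hxp))
    have hi1 : IntegrableOn (fun X : V → ℝ => av X x) S (gam E β) :=
      (integrable_av E β x).integrableOn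
    have hi2 : IntegrableOn (fun X : V → ℝ => max (w0 - av X x) 0) S (gam E β) :=
      (((integrable_const w0).sub (integrable_av E β x)).pos_part).integrableOn
    have hi3 : IntegrableOn (fun _ : V → ℝ => (1 : ℝ)) S (gam E β) :=
      (integrable_const _).integrableOn
    have e : ∫ X in S, (av X x + 1 + max (w0 - av X x) 0) ∂gam E β
        = av J x + 1 * P + ∫ X in S, max (w0 - av X x) 0 ∂gam E β := by
      have hi13 : IntegrableOn (fun X : V → ℝ => av X x + 1) S (gam E β) := hi1.add hi3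
      rw [integral_add hi13 hi2, integral_add hi1 hi3, jv4_int_av, hcard]
    have h' : J x ≤ av J x + 1 * P + 2 * P := by
      calc J x ≤ _ := h
        _ = _ := e
        _ ≤ _ := by linarith
    rw [havm]
    change J x / P - w0 ≤ _
    have : J x / P ≤ (av J x + 3 * P) / P := by
      apply div_le_div_of_nonneg_right _ hP0.le
      linarith
    have e2 : (av J x + 3 * P) / P = av J x / P + 3 := by field_simp
    linarith
  -- outside
  have hoff : ∀ x ∉ E, m x = β x - w0 := by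
    intro x hxE
    have h : J x = β x * P := by
      rw [hJ]
      change ∫ X in S, X x ∂gam E β = _
      rw [← hcard]
      apply integral_congr_ae
      filter_upwards [ae_restrict_of_ae (gam_ae_off E β)] with X hX
      exact hX x hxE
    change J x / P - w0 = _
    rw [h]
    field_simp
  have h4 := two_step (D := E) (O := O) (m := m) (H := hx E (fun y => β y - w0)) (C1 := 3)
    (by norm_num) hO h1 h2 (fun x hxE => hx_harm E _ hxE)
    (fun x hxE => by rw [hoff x hxE, hx_off hxE]) (fun x hxO => by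
      obtain ⟨p, hxp, hpE⟩ := hOp x hxO
      exact ⟨p, hpE, hxp⟩)
  have h5 : av m v ≤ Λ + 60 := by
    have h6 : ∀ x ∈ jv4n v, m x ≤ Λ + 60 := by
      intro x hx'
      have := h4 x
      have := hH x hx'
      linarith
    have hE := h6 (nE v) (by simp [jv4n])
    have hW := h6 (nW v) (by simp [jv4n])
    have hN := h6 (nN v) (by simp [jv4n])
    have hS' := h6 (nS v) (by simp [jv4n])
    unfold av
    linarith
  have h7 : av J v ≤ (Λ + 60 + w0) * P := by
    rw [havm] at h5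
    have : av J v / P ≤ Λ + 60 + w0 := by linarith
    rwa [div_le_iff₀ hP0] at this
  have hneg := jv4_neg (O := O) hβ (hgrn v v hv (by simp [dI]))
  have hi1 : IntegrableOn (fun X : V → ℝ => av X v) S (gam E β) :=
    (integrable_av E β v).integrableOn
  have hi2 : IntegrableOn (fun X : V → ℝ => max (w0 - av X v) 0) S (gam E β) :=
    (((integrable_const w0).sub (integrable_av E β v)).pos_part).integrableOn
  have hi3 : IntegrableOn (fun _ : V → ℝ => w0) S (gam E β) :=
    (integrable_const _).integrableOn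
  have e : ∫ X in S, max (av X v - w0) 0 ∂gam E β
      = av J v - w0 * P + ∫ X in S, max (w0 - av X v) 0 ∂gam E β := by
    have e1 : ∀ X : V → ℝ, max (av X v - w0) 0 = av X v - w0 + max (w0 - av X v) 0 := by
      intro X
      rcases le_total (av X v) w0 with h | h
      · rw [max_eq_right (by linarith), max_eq_left (by linarith)]
        ring
      · rw [max_eq_left (by linarith), max_eq_right (by linarith)]
        ring
    simp_rw [e1]
    have hi13 : IntegrableOn (fun X : V → ℝ => av X v - w0) S (gam E β) := hi1.sub hi3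
    rw [integral_add hi13 hi2, integral_sub hi1 hi3, jv4_int_av, hcard]
  rw [e]
  linarith

/-! #### asymptotics -/

private theorem jv4_asym {C c0 Cf δ : ℝ} (hC : 0 < C) (hc0 : 0 < c0) (hCf : 0 < Cf) (hδ : 0 < δ) :
    ∃ r0 : ℕ, ∀ r : ℕ, r0 ≤ r → ∃ ρ : ℕ, 4 ≤ ρ ∧ (ρ : ℝ) < δ * r ∧ 1 ≤ r ∧
      Cf * Real.log r * (C / (ρ : ℝ) ^ c0) ≤ 1 := by
  have h1 := isLittleO_log_rpow_atTop hc0
  have hε : 0 < (δ / 4) ^ c0 / (Cf * C) := by positivity
  have h2 := h1.bound hε
  have h3 : ∀ᶠ r : ℕ in Filter.atTop, ‖Real.log r‖ ≤ (δ / 4) ^ c0 / (Cf * C) * ‖(r : ℝ) ^ c0‖ :=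
    tendsto_natCast_atTop_atTop.eventually h2
  have h4 : ∀ᶠ r : ℕ in Filter.atTop, 20 / δ ≤ (r : ℝ) :=
    tendsto_natCast_atTop_atTop.eventually (Filter.eventually_ge_atTop _)
  obtain ⟨r0, hr0⟩ := Filter.eventually_atTop.1 (h3.and (h4.and (Filter.eventually_ge_atTop 1)))
  refine ⟨r0, fun r hr => ?_⟩
  obtain ⟨h5, h6, h7⟩ := hr0 r hr
  have hr1 : (1 : ℝ) ≤ r := by exact_mod_cast h7
  have hr0' : (0 : ℝ) < r := by linarith
  have hδr : 20 ≤ δ * r := by
    rw [div_le_iff₀ hδ] at h6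
    linarith
  have hfl : δ * r / 2 - 1 < (⌊δ * r / 2⌋₊ : ℝ) := Nat.sub_one_lt_floor _
  have hfl2 : (⌊δ * r / 2⌋₊ : ℝ) ≤ δ * r / 2 := Nat.floor_le (by linarith)
  refine ⟨⌊δ * r / 2⌋₊, ?_, ?_, h7, ?_⟩
  · have : (4 : ℝ) ≤ (⌊δ * r / 2⌋₊ : ℝ) := by linarith
    exact_mod_cast this
  · linarith
  · have hρ : δ / 4 * r ≤ (⌊δ * r / 2⌋₊ : ℝ) := by linarith
    have hρ0 : (0 : ℝ) < (⌊δ * r / 2⌋₊ : ℝ) := by linarith
    rw [Real.norm_of_nonneg (Real.log_nonneg hr1), Real.norm_of_nonneg (by positivity)] at h5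
    have h8 : (δ / 4 * r) ^ c0 ≤ (⌊δ * r / 2⌋₊ : ℝ) ^ c0 :=
      Real.rpow_le_rpow (by positivity) hρ hc0.le
    rw [Real.mul_rpow (by positivity) hr0'.le] at h8
    have h9 : Cf * C * Real.log r ≤ (δ / 4) ^ c0 * (r : ℝ) ^ c0 := by
      calc Cf * C * Real.log r ≤ Cf * C * ((δ / 4) ^ c0 / (Cf * C) * (r : ℝ) ^ c0) := by gcongr
        _ = (δ / 4) ^ c0 * (r : ℝ) ^ c0 := by field_simp
    have h10 : 0 < (⌊δ * r / 2⌋₊ : ℝ) ^ c0 := by positivity
    have e : Cf * Real.log r * (C / (⌊δ * r / 2⌋₊ : ℝ) ^ c0)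
        = (Cf * C * Real.log r) / (⌊δ * r / 2⌋₊ : ℝ) ^ c0 := by ring
    rw [e, div_le_one h10]
    linarith

theorem pinned_bound : ∃ C6 : ℝ, 0 ≤ C6 ∧ ∀ w0 : ℝ, 0 < w0 → w0 ≤ 1 → ∀ (A : ℕ) (Cf δ : ℝ), 0 < Cf → 0 < δ →
    ∃ r0 : ℕ, ∀ (r : ℕ), r0 ≤ r →
    ∀ (a b c d : ℤ) (z : V), Rc a b c d ⊆ Q z (A * r) → ∀ (q : Cell), q.Ok (Rc a b c d) →
    (∀ v ∈ q.C ∪ q.O, q.θ v = 0 ∨ q.θ v = w0) →
    (∀ v ∈ q.O, ∃ p, st v p ∧ (p ∈ q.C ∨ p ∉ Rc a b c d)) →
    ∀ v ∈ q.C, q.θ v = w0 → Deep (Rc a b c d) v (δ * r) →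
    (∃ p, ConnIn st (q.C : Set V) v p ∧ ∃ s ∉ Rc a b c d, st p s) →
    ∀ β : V → ℝ, (∀ x ∈ bd (Rc a b c d), β x ≤ Cf * Real.log r) →
    ∫ X in cell q.C q.O q.θ, max (av X v - q.θ v) 0 ∂(gam (Rc a b c d) β) ≤
      C6 * (gam (Rc a b c d) β (cell q.C q.O q.θ)).toReal := by
  classical
  obtain ⟨C, c0, hC, hc0, hhit⟩ := hit_small
  refine ⟨63, by norm_num, fun w0 hw0 hw1 A Cf δ hCf hδ => ?_⟩
  obtain ⟨r0, hr0⟩ := jv4_asym hC hc0 hCf hδ
  refine ⟨r0, fun r hr a b c d z _ q hq hθ hO v hvC hθv hdeep hchain β hβ => ?_⟩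
  obtain ⟨ρ, hρ4, hρδ, hr1, hρ1⟩ := hr0 r hr
  obtain ⟨hCD, hOD, hCO⟩ := hq
  set D : Finset V := Rc a b c d with hD
  have hΛ : 0 ≤ Cf * Real.log r := mul_nonneg hCf.le (Real.log_nonneg (by exact_mod_cast hr1))
  obtain ⟨E, hE⟩ : ∃ E, E = D \ q.C := ⟨_, rfl⟩
  have hmemE : ∀ x, x ∈ E ↔ x ∈ D ∧ x ∉ q.C := by
    intro x
    rw [hE, Finset.mem_sdiff]
  have hOE : q.O ⊆ E := fun x hx => (hmemE x).2 ⟨hOD hx, fun h => Finset.disjoint_left.1 hCO h hx⟩
  -- the new boundary values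
  obtain ⟨β2, hβ2⟩ : ∃ β2 : V → ℝ, β2 = fun x => if x ∈ q.C then w0 else max (β x) w0 := ⟨_, rfl⟩
  have hβ2C : ∀ x ∈ q.C, β2 x = w0 := by
    intro x hx
    rw [hβ2]
    exact if_pos hx
  have hβ2n : ∀ x, x ∉ q.C → β2 x = max (β x) w0 := by
    intro x hx
    rw [hβ2]
    exact if_neg hx
  have hβ2ge : ∀ x, w0 ≤ β2 x := by
    intro x
    by_cases hx : x ∈ q.C
    · rw [hβ2C x hx]
    · rw [hβ2n x hx]
      exact le_max_right _ _
  have hθle : ∀ x ∈ q.C ∪ q.O, q.θ x ≤ w0 := by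
    intro x hx
    rcases hθ x hx with h | h <;> rw [h]
    exact hw0.le
  -- domination
  have hdom1 : Dom (gam D β) (cl q.C q.O q.θ q.θ) (gam E (pin q.C q.θ β)) (cl ∅ q.O q.θ q.θ) := by
    rw [hE]
    exact cmp_pinned D q.C q.O hCD q.θ q.θ β
  have hdom2 : Dom (gam E (pin q.C q.θ β)) (cl ∅ q.O q.θ q.θ) (gam E β2)
      (cl ∅ q.O (fun _ => w0) (fun _ => w0)) := by
    refine cmp_main E ?_ (meas_cl _ _ _ _) (meas_cl _ _ _ _)
      (sle_cl (Finset.Subset.refl _) (Finset.Subset.refl _)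
        (fun x hx => absurd hx (Finset.notMem_empty x))
        (fun x hx => hθle x (Finset.mem_union_right _ hx)))
    intro x hx
    by_cases hxC : x ∈ q.C
    · rw [pin_on hxC, hβ2C x hxC]
      exact hθle x (Finset.mem_union_left _ hxC)
    · rw [pin_off hxC, hβ2n x hxC]
      exact le_max_left _ _
  have hpos1 : gam E (pin q.C q.θ β) (cl ∅ q.O q.θ q.θ) ≠ 0 :=
    (cell_pos (Finset.empty_subset _) hOE (Finset.disjoint_empty_left _) q.θ _).ne'
  have hdom := hdom1.trans hdom2 hpos1 (measure_ne_top _ _)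
  have hFm : Measurable (fun X : V → ℝ => max (av X v - w0) 0) :=
    ((measurable_av v).sub measurable_const).max measurable_const
  have hFmono : Monotone (fun X : V → ℝ => max (av X v - w0) 0) := by
    intro X Y h
    have := jv4_av_mono h v
    exact max_le_max (by linarith) le_rfl
  have hFi : ∀ (D' : Finset V) (β' : V → ℝ),
      Integrable (fun X : V → ℝ => max (av X v - w0) 0) (gam D' β') := by
    intro D' β'
    exact ((integrable_av D' β' v).sub (integrable_const w0)).pos_part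
  have hreal := hdom.real (measure_ne_top _ _) (measure_ne_top _ _) hFm hFmono
    (hFi _ _).integrableOn (hFi _ _).integrableOn
  -- the harmonic extension at the neighbours of v
  have hvD : v ∈ D := hCD hvC
  have hvE : v ∉ E := fun h => ((hmemE v).1 h).2 hvC
  have hQρ : Q v ρ ⊆ D := hdeep ρ hρδ
  have hfar : ∀ k : ℕ, k + 2 ≤ ρ → ∃ p ∈ q.C, dI v p = k := by
    intro k hk
    obtain ⟨p, hvp, s, hsD, hps⟩ := hchain
    have h1 : (ρ : ℤ) < dI v s := by
      by_contra hcon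
      push Not at hcon
      exact hsD (hQρ (jv4_mem_Q hcon))
    have h2 := jv4_dI_tri v p s
    have h3 : dI p s = 1 := hps
    obtain ⟨y, hy, hvy⟩ := jv4_chain hvp k (by omega)
    exact ⟨y, by exact_mod_cast hy, hvy⟩
  have hH : ∀ x ∈ jv4n v, hx E (fun y => β2 y - w0) x ≤ 1 := by
    intro x hx'
    have hvx := jv4_nn hx'
    have hxD : x ∈ D := by
      apply hQρ
      apply jv4_mem_Q
      have := jv4_nn_dI hvx
      omega
    by_cases hxC : x ∈ q.C
    · have hxE : x ∉ E := fun h => ((hmemE x).1 h).2 hxC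
      rw [hx_off hxE, hβ2C x hxC]
      linarith
    · have hxE : x ∈ E := (hmemE x).2 ⟨hxD, hxC⟩
      have h1 := hhit D q.C v x ρ hCD hvC hρ4 hQρ hfar hxD hxC hvx
        (fun y => if y ∈ q.C then 0 else Cf * Real.log r) (Cf * Real.log r) hΛ
        (fun y hy => if_pos hy) (fun y hy => by
          rw [if_neg fun h => hy (hCD h)])
      rw [← hE] at h1
      have h2 : hx E (fun y => β2 y - w0) x
          ≤ hx E (fun y => if y ∈ q.C then 0 else Cf * Real.log r) x := by
        refine hx_mono_bd (fun y hy => ?_) x hxE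
        by_cases hyC : y ∈ q.C
        · rw [if_pos hyC, hβ2C y hyC, sub_self]
        · rw [if_neg hyC, hβ2n y hyC]
          obtain ⟨hyE, hyn⟩ := mem_bd_iff.1 hy
          have hyD : y ∉ D := fun h => hyE ((hmemE y).2 ⟨h, hyC⟩)
          have hybd : y ∈ bd D := by
            rw [mem_bd_iff]
            refine ⟨hyD, ?_⟩
            rcases hyn with h | h | h | h
            · exact Or.inl ((hmemE _).1 h).1
            · exact Or.inr (Or.inl ((hmemE _).1 h).1)
            · exact Or.inr (Or.inr (Or.inl ((hmemE _).1 h).1))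
            · exact Or.inr (Or.inr (Or.inr ((hmemE _).1 h).1))
          have h3 := hβ y hybd
          rcases le_total (β y) w0 with h | h
          · rw [max_eq_right h, sub_self]
            exact hΛ
          · rw [max_eq_left h]
            linarith
      exact h2.trans (h1.trans hρ1)
  have hOp : ∀ x ∈ q.O, ∃ p, st x p ∧ p ∉ E := by
    intro x hx
    obtain ⟨p, hxp, hp⟩ := hO x hx
    refine ⟨p, hxp, fun h => ?_⟩
    have h' := (hmemE p).1 h
    rcases hp with hp | hp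
    · exact h'.2 hp
    · exact hp h'.1
  have hfin := jv4_pos (E := E) (O := q.O) (β := β2) (w0 := w0) (Λ := 1) hOE
    (fun x _ => hβ2ge x) hOp hvE hH
  have hP0 : 0 < (gam E β2 (cell ∅ q.O (fun _ => w0))).toReal :=
    ENNReal.toReal_pos (cell_pos (Finset.empty_subset _) hOE (Finset.disjoint_empty_left _)
      _ _).ne' (measure_ne_top _ _)
  have hreal' : (∫ X in cell q.C q.O q.θ, max (av X v - w0) 0 ∂gam D β)
      * (gam E β2 (cell ∅ q.O (fun _ => w0))).toReal
      ≤ (∫ X in cell ∅ q.O (fun _ => w0), max (av X v - w0) 0 ∂gam E β2)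
        * (gam D β (cell q.C q.O q.θ)).toReal := hreal
  rw [hθv]
  have hnn : 0 ≤ (gam D β (cell q.C q.O q.θ)).toReal := ENNReal.toReal_nonneg
  have h1 : (∫ X in cell q.C q.O q.θ, max (av X v - w0) 0 ∂gam D β)
      * (gam E β2 (cell ∅ q.O (fun _ => w0))).toReal
      ≤ (63 * (gam D β (cell q.C q.O q.θ)).toReal)
        * (gam E β2 (cell ∅ q.O (fun _ => w0))).toReal := by
    refine hreal'.trans ?_
    calc (∫ X in cell ∅ q.O (fun _ => w0), max (av X v - w0) 0 ∂gam E β2)
        * (gam D β (cell q.C q.O q.θ)).toReal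
        ≤ ((1 + 62) * (gam E β2 (cell ∅ q.O (fun _ => w0))).toReal)
          * (gam D β (cell q.C q.O q.θ)).toReal := mul_le_mul_of_nonneg_right hfin hnn
      _ = _ := by ring
  exact le_of_mul_le_mul_right h1 hP0

end GF
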