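import Pool.Agent.Lib.MP_acf58e_gf.G0b

/-! MP_acf58e_pr, row P1a: the logarithmic potential. -/

open Set

namespace GF

/-- logarithmic potential with pole y -/
noncomputable def Fp (y x : V) : ℝ :=
  Real.log (1 + ((x.1 - y.1 : ℤ) : ℝ) ^ 2 + ((x.2 - y.2 : ℤ) : ℝ) ^ 2) / 2

/-- kappa = sum of the Laplacian of Fp 0 -/
noncomputable def kap : ℝ := ∑' x : V, lap (Fp 0) x

/-- `1 + a ^ 2 + b ^ 2` -/
private noncomputable def qq (y x : V) : ℝ :=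
  1 + ((x.1 - y.1 : ℤ) : ℝ) ^ 2 + ((x.2 - y.2 : ℤ) : ℝ) ^ 2

private theorem qq_one_le (y x : V) : 1 ≤ qq y x := by
  unfold qq
  nlinarith [sq_nonneg ((x.1 - y.1 : ℤ) : ℝ), sq_nonneg ((x.2 - y.2 : ℤ) : ℝ)]

private theorem qq_pos (y x : V) : 0 < qq y x := lt_of_lt_of_le one_pos (qq_one_le y x)

/-- the Laplacian of `Fp` in closed form -/
private theorem lap_Fp_eq (y x : V) : lap (Fp y) x =
    Real.log (1 + (2 * qq y x ^ 2 + 8 * qq y x + 5 +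
      16 * ((x.1 - y.1 : ℤ) : ℝ) ^ 2 * ((x.2 - y.2 : ℤ) : ℝ) ^ 2) / qq y x ^ 4) / 2 := by
  have hq := qq_pos y x
  have hE := qq_pos y (nE x)
  have hW := qq_pos y (nW x)
  have hN := qq_pos y (nN x)
  have hS := qq_pos y (nS x)
  have h1 : lap (Fp y) x = (Real.log (qq y (nE x)) + Real.log (qq y (nW x)) +
      Real.log (qq y (nN x)) + Real.log (qq y (nS x)) - 4 * Real.log (qq y x)) / 2 := by
    unfold lap av Fp qq
    ring
  rw [h1]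
  congr 1
  have h4 : (4 : ℝ) * Real.log (qq y x) = Real.log (qq y x ^ 4) := by
    rw [Real.log_pow]
    norm_num
  rw [h4, ← Real.log_mul hE.ne' hW.ne', ← Real.log_mul (mul_pos hE hW).ne' hN.ne',
    ← Real.log_mul (mul_pos (mul_pos hE hW) hN).ne' hS.ne',
    ← Real.log_div (mul_pos (mul_pos (mul_pos hE hW) hN) hS).ne' (pow_pos hq 4).ne']
  congr 1
  rw [div_eq_iff (pow_pos hq 4).ne', add_mul, one_mul, div_mul_cancel₀ _ (pow_pos hq 4).ne']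
  unfold qq nE nW nN nS
  push_cast
  ring

/-- P1a -/
theorem lap_Fp_nonneg (y x : V) : 0 ≤ lap (Fp y) x := by
  rw [lap_Fp_eq]
  have hq := qq_pos y x
  have : (0 : ℝ) ≤ (2 * qq y x ^ 2 + 8 * qq y x + 5 +
      16 * ((x.1 - y.1 : ℤ) : ℝ) ^ 2 * ((x.2 - y.2 : ℤ) : ℝ) ^ 2) / qq y x ^ 4 := by positivity
  have := Real.log_nonneg (x := 1 + (2 * qq y x ^ 2 + 8 * qq y x + 5 +
      16 * ((x.1 - y.1 : ℤ) : ℝ) ^ 2 * ((x.2 - y.2 : ℤ) : ℝ) ^ 2) / qq y x ^ 4) (by linarith)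
  linarith

theorem lap_Fp_le (y x : V) :
    lap (Fp y) x ≤ 10 / (1 + ((x.1 - y.1 : ℤ) : ℝ) ^ 2 + ((x.2 - y.2 : ℤ) : ℝ) ^ 2) ^ 2 := by
  rw [lap_Fp_eq]
  have hq := qq_pos y x
  have hq1 := qq_one_le y x
  set a : ℝ := ((x.1 - y.1 : ℤ) : ℝ) with ha
  set b : ℝ := ((x.2 - y.2 : ℤ) : ℝ) with hb
  have hqd : qq y x = 1 + a ^ 2 + b ^ 2 := rfl
  rw [← hqd]
  set q := qq y x with hqq
  have hpos : (0 : ℝ) ≤ (2 * q ^ 2 + 8 * q + 5 + 16 * a ^ 2 * b ^ 2) / q ^ 4 := by positivity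
  have h1 : Real.log (1 + (2 * q ^ 2 + 8 * q + 5 + 16 * a ^ 2 * b ^ 2) / q ^ 4) ≤
      (2 * q ^ 2 + 8 * q + 5 + 16 * a ^ 2 * b ^ 2) / q ^ 4 := by
    have := Real.log_le_sub_one_of_pos (x := 1 + (2 * q ^ 2 + 8 * q + 5 + 16 * a ^ 2 * b ^ 2) /
      q ^ 4) (by linarith)
    linarith
  have h2 : (2 * q ^ 2 + 8 * q + 5 + 16 * a ^ 2 * b ^ 2) / q ^ 4 ≤ 20 / q ^ 2 := by
    rw [div_le_div_iff₀ (by positivity) (by positivity)]
    have h3 : 2 * q ^ 2 + 8 * q + 5 + 16 * a ^ 2 * b ^ 2 ≤ 20 * q ^ 2 := by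
      have h4 : 4 * a ^ 2 * b ^ 2 ≤ (a ^ 2 + b ^ 2) ^ 2 := by nlinarith [sq_nonneg (a ^ 2 - b ^ 2)]
      have h5 : a ^ 2 + b ^ 2 = q - 1 := by rw [hqd]; ring
      rw [h5] at h4
      nlinarith
    calc (2 * q ^ 2 + 8 * q + 5 + 16 * a ^ 2 * b ^ 2) * q ^ 2 ≤ (20 * q ^ 2) * q ^ 2 := by
          gcongr
      _ = 20 * q ^ 4 := by ring
  have h3 : (20 : ℝ) / q ^ 2 / 2 = 10 / q ^ 2 := by ring
  linarith

private theorem summable_g : Summable (fun n : ℤ => (1 + (n : ℝ) ^ 2) ^ (-(3 / 4) : ℝ)) := by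
  have h1 : Summable (fun n : ℤ => |(n : ℝ)| ^ (-(3 / 2) : ℝ)) :=
    Real.summable_abs_int_rpow (by norm_num)
  refine Summable.of_norm_bounded_eventually h1 ?_
  have h2 : ∀ᶠ n : ℤ in Filter.cofinite, n ≠ 0 :=
    (Set.finite_singleton (0 : ℤ)).eventually_cofinite_notMem
  filter_upwards [h2] with n hn
  have hn' : (0 : ℝ) < |(n : ℝ)| := abs_pos.2 (Int.cast_ne_zero.2 hn)
  rw [Real.norm_of_nonneg (by positivity)]
  have h3 : |(n : ℝ)| ^ (-(3 / 2) : ℝ) = (|(n : ℝ)| ^ 2) ^ (-(3 / 4) : ℝ) := by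
    rw [← Real.rpow_natCast, ← Real.rpow_mul hn'.le]
    norm_num
  rw [h3, sq_abs]
  refine Real.rpow_le_rpow_of_nonpos (by positivity) (by linarith) (by norm_num)

theorem summable_lap_Fp (y : V) :
    Summable (fun x : V => (1 + |((x.1 - y.1 : ℤ) : ℝ)| + |((x.2 - y.2 : ℤ) : ℝ)|) * lap (Fp y) x) := by
  have h0 : Summable (fun u : ℤ × ℤ => (1 + (u.1 : ℝ) ^ 2) ^ (-(3 / 4) : ℝ) *
      (1 + (u.2 : ℝ) ^ 2) ^ (-(3 / 4) : ℝ)) :=
    summable_g.mul_of_nonneg summable_g (fun n => by positivity) (fun n => by positivity)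
  have h1 : Summable (fun x : V => (1 + ((x.1 - y.1 : ℤ) : ℝ) ^ 2) ^ (-(3 / 4) : ℝ) *
      (1 + ((x.2 - y.2 : ℤ) : ℝ) ^ 2) ^ (-(3 / 4) : ℝ)) :=
    (Equiv.subRight y).summable_iff.2 h0
  refine Summable.of_nonneg_of_le (fun x => mul_nonneg (by positivity) (lap_Fp_nonneg y x))
    (fun x => ?_) (h1.mul_left 20)
  have hle := lap_Fp_le y x
  set a : ℝ := ((x.1 - y.1 : ℤ) : ℝ) with ha
  set b : ℝ := ((x.2 - y.2 : ℤ) : ℝ) with hb
  have hq : (0 : ℝ) < 1 + a ^ 2 + b ^ 2 := by positivity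
  set q : ℝ := 1 + a ^ 2 + b ^ 2 with hqd
  have hs : 1 + |a| + |b| ≤ 2 * q ^ (1 / 2 : ℝ) := by
    rw [← Real.sqrt_eq_rpow]
    have : (1 + |a| + |b|) / 2 ≤ √q := by
      apply Real.le_sqrt_of_sq_le
      have ha2 := sq_abs a
      have hb2 := sq_abs b
      nlinarith [sq_nonneg (|a| - |b|), sq_nonneg (|a| - 1), sq_nonneg (|b| - 1)]
    linarith
  calc (1 + |a| + |b|) * lap (Fp y) x ≤ (2 * q ^ (1 / 2 : ℝ)) * (10 / q ^ 2) := by
        gcongr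
        exact lap_Fp_nonneg y x
    _ = 20 * (q ^ 2) ^ (-(3 / 4) : ℝ) := by
        have h5 : (q ^ 2) ^ (-(3 / 4) : ℝ) = q ^ (-(3 / 2) : ℝ) := by
          rw [← Real.rpow_natCast, ← Real.rpow_mul hq.le]
          norm_num
        have h6 : q ^ (1 / 2 : ℝ) = q ^ (-(3 / 2) : ℝ) * q ^ 2 := by
          rw [← Real.rpow_natCast, ← Real.rpow_add hq]
          norm_num
        rw [h5, h6]
        field_simp
        norm_num
    _ ≤ 20 * ((1 + a ^ 2) * (1 + b ^ 2)) ^ (-(3 / 4) : ℝ) := by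
        refine mul_le_mul_of_nonneg_left (Real.rpow_le_rpow_of_nonpos
          (x := (1 + a ^ 2) * (1 + b ^ 2)) (by positivity) ?_ (by norm_num)) (by norm_num)
        rw [hqd]
        nlinarith [sq_nonneg a, sq_nonneg b, mul_nonneg (sq_nonneg a) (sq_nonneg b),
          sq_nonneg (a ^ 2), sq_nonneg (b ^ 2)]
    _ = 20 * ((1 + a ^ 2) ^ (-(3 / 4) : ℝ) * (1 + b ^ 2) ^ (-(3 / 4) : ℝ)) := by
        rw [Real.mul_rpow (by positivity) (by positivity)]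

private theorem summable_lap (y : V) : Summable (fun x : V => lap (Fp y) x) := by
  refine Summable.of_nonneg_of_le (fun x => lap_Fp_nonneg y x) (fun x => ?_) (summable_lap_Fp y)
  have h := lap_Fp_nonneg y x
  have h1 := abs_nonneg (((x.1 - y.1 : ℤ) : ℝ))
  have h2 := abs_nonneg (((x.2 - y.2 : ℤ) : ℝ))
  nlinarith

theorem kap_pos : 0 < kap := by
  unfold kap
  refine (summable_lap 0).tsum_pos (fun x => lap_Fp_nonneg 0 x) 0 ?_
  rw [lap_Fp_eq]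
  have : qq 0 0 = 1 := by
    unfold qq
    simp
  rw [this]
  have h : (0 : ℝ) < Real.log (1 + (2 * 1 ^ 2 + 8 * 1 + 5 +
      16 * (((0 : V).1 - (0 : V).1 : ℤ) : ℝ) ^ 2 * (((0 : V).2 - (0 : V).2 : ℤ) : ℝ) ^ 2) / 1 ^ 4) := by
    apply Real.log_pos
    norm_num
  linarith

theorem tsum_lap_Fp (y : V) : ∑' x : V, lap (Fp y) x = kap := by
  unfold kap
  rw [← (Equiv.subRight y).tsum_eq (lap (Fp 0))]
  refine tsum_congr fun x => ?_
  unfold lap av Fp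
  simp only [Equiv.subRight_apply, nE, nW, nN, nS, Prod.fst_sub, Prod.snd_sub, Prod.fst_zero,
    Prod.snd_zero, sub_zero]
  push_cast
  ring_nf

end GF
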