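import Pool.Agent.Lib.MP_acf58e_gf.P1a
import Pool.Agent.Lib.MP_acf58e_gf.P1b

/-! MP_acf58e_pr, row P1c: Green function estimates. -/

open Set

namespace GF

private theorem P1c_ident (D : Finset V) (x y : V) :
    hx D (Fp y) x - Fp y x = ∑ z ∈ D, gr D x z * lap (Fp y) z := by
  have h : Fp y = sol D (Fp y) (fun z => - lap (Fp y) z) :=
    sol_unique (fun _ _ => rfl) (fun z _ => by unfold lap; ring)
  have h2 := congrFun h x
  rw [sol_eq] at h2
  have h3 : ∑ z ∈ D, gr D x z * -lap (Fp y) z = - ∑ z ∈ D, gr D x z * lap (Fp y) z := by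
    rw [← Finset.sum_neg_distrib]
    exact Finset.sum_congr rfl fun z _ => by ring
  rw [h3] at h2
  linarith

private theorem P1c_summable_lap (y : V) : Summable (fun x : V => lap (Fp y) x) := by
  refine Summable.of_nonneg_of_le (fun x => lap_Fp_nonneg y x) (fun x => ?_) (summable_lap_Fp y)
  have h1 : 1 ≤ 1 + |((x.1 - y.1 : ℤ) : ℝ)| + |((x.2 - y.2 : ℤ) : ℝ)| := by
    have := abs_nonneg ((x.1 - y.1 : ℤ) : ℝ)
    have := abs_nonneg ((x.2 - y.2 : ℤ) : ℝ)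
    linarith
  have := lap_Fp_nonneg y x
  nlinarith

private theorem P1c_trans (y x : V) : Fp y x = Fp 0 (x - y) := by
  unfold Fp
  simp

private theorem P1c_lap_trans (y x : V) : lap (Fp y) x = lap (Fp 0) (x - y) := by
  unfold lap av
  rw [P1c_trans y (nE x), P1c_trans y (nW x), P1c_trans y (nN x), P1c_trans y (nS x),
    P1c_trans y x]
  have e1 : nE x - y = nE (x - y) := by
    ext <;> simp [nE]; ring
  have e2 : nW x - y = nW (x - y) := by
    ext <;> simp [nW]; ring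
  have e3 : nN x - y = nN (x - y) := by
    ext <;> simp [nN]; ring
  have e4 : nS x - y = nS (x - y) := by
    ext <;> simp [nS]; ring
  rw [e1, e2, e3, e4]

private noncomputable def P1c_C : ℝ :=
  ∑' x : V, (1 + |((x.1 - (0 : V).1 : ℤ) : ℝ)| + |((x.2 - (0 : V).2 : ℤ) : ℝ)|) * lap (Fp 0) x

private theorem P1c_tsum (y : V) :
    ∑' x : V, (1 + |((x.1 - y.1 : ℤ) : ℝ)| + |((x.2 - y.2 : ℤ) : ℝ)|) * lap (Fp y) x = P1c_C := by
  unfold P1c_C
  rw [← (Equiv.subRight y).tsum_eq (fun x : V =>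
    (1 + |((x.1 - (0 : V).1 : ℤ) : ℝ)| + |((x.2 - (0 : V).2 : ℤ) : ℝ)|) * lap (Fp 0) x)]
  refine tsum_congr fun x => ?_
  simp only [Equiv.subRight_apply, P1c_lap_trans y x, Prod.fst_sub, Prod.snd_sub, Prod.fst_zero,
    Prod.snd_zero, sub_zero]

/-- P1c: precise form -/
theorem green_precise : ∃ C : ℝ, ∀ (D : Finset V) (x y : V), x ∈ D → y ∈ D →
    |kap * gr D x y - (hx D (Fp y) x - Fp y x)| ≤ C := by
  refine ⟨P1c_C, fun D x y hxD hyD => ?_⟩
  rw [P1c_ident]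
  have h1 : ∑ z ∈ D, gr D x z * lap (Fp y) z = ∑' z : V, gr D x z * lap (Fp y) z := by
    symm
    apply tsum_eq_sum
    intro z hz
    rw [gr_off_right hz, zero_mul]
  have hs1 : Summable fun z : V => gr D x z * lap (Fp y) z := by
    apply summable_of_ne_finset_zero (s := D)
    intro z hz
    rw [gr_off_right hz, zero_mul]
  have hs2 : Summable fun z : V => lap (Fp y) z * gr D x y := (P1c_summable_lap y).mul_right _
  have h2 : kap * gr D x y = ∑' z : V, lap (Fp y) z * gr D x y := by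
    rw [tsum_mul_right, tsum_lap_Fp]
  rw [h1, h2, ← hs2.tsum_sub hs1, ← P1c_tsum y]
  have hle : ∀ z : V, ‖lap (Fp y) z * gr D x y - gr D x z * lap (Fp y) z‖ ≤
      (1 + |((z.1 - y.1 : ℤ) : ℝ)| + |((z.2 - y.2 : ℤ) : ℝ)|) * lap (Fp y) z := by
    intro z
    have e : lap (Fp y) z * gr D x y - gr D x z * lap (Fp y) z =
        (gr D x y - gr D x z) * lap (Fp y) z := by ring
    rw [e, norm_mul, Real.norm_eq_abs, Real.norm_eq_abs, abs_of_nonneg (lap_Fp_nonneg y z)]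
    apply mul_le_mul_of_nonneg_right _ (lap_Fp_nonneg y z)
    have h3 := gr_lip_dist (D := D) x y z
    have h4 : ((|y.1 - z.1| : ℤ) : ℝ) = |((z.1 - y.1 : ℤ) : ℝ)| := by
      rw [abs_sub_comm]; push_cast; rfl
    have h5 : ((|y.2 - z.2| : ℤ) : ℝ) = |((z.2 - y.2 : ℤ) : ℝ)| := by
      rw [abs_sub_comm]; push_cast; rfl
    rw [h4, h5] at h3
    linarith
  have hs3 : Summable fun z : V => ‖lap (Fp y) z * gr D x y - gr D x z * lap (Fp y) z‖ :=
    Summable.of_nonneg_of_le (fun _ => norm_nonneg _) hle (summable_lap_Fp y)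
  calc |∑' z : V, (lap (Fp y) z * gr D x y - gr D x z * lap (Fp y) z)|
      ≤ ∑' z : V, ‖lap (Fp y) z * gr D x y - gr D x z * lap (Fp y) z‖ := by
        rw [← Real.norm_eq_abs]
        exact norm_tsum_le_tsum_norm hs3
    _ ≤ _ := hs3.tsum_le_tsum hle (summable_lap_Fp y)

private theorem P1c_dI_nonneg (x y : V) : 0 ≤ dI x y := le_trans (abs_nonneg _) (le_max_left _ _)

private theorem P1c_Fp_lower (y x : V) :
    Real.log (1 + dI x y) - Real.log 2 / 2 ≤ Fp y x := by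
  have h0 : (0 : ℝ) ≤ (dI x y : ℝ) := by exact_mod_cast P1c_dI_nonneg x y
  have h1 : ((dI x y : ℤ) : ℝ) ^ 2 ≤
      ((x.1 - y.1 : ℤ) : ℝ) ^ 2 + ((x.2 - y.2 : ℤ) : ℝ) ^ 2 := by
    have : (dI x y) ^ 2 ≤ (x.1 - y.1) ^ 2 + (x.2 - y.2) ^ 2 := by
      unfold dI
      rcases max_choice |x.1 - y.1| |x.2 - y.2| with h | h
      · rw [h, sq_abs]; nlinarith [sq_nonneg (x.2 - y.2)]
      · rw [h, sq_abs]; nlinarith [sq_nonneg (x.1 - y.1)]
    exact_mod_cast this
  have h2 : (1 + (dI x y : ℝ)) ^ 2 / 2 ≤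
      1 + ((x.1 - y.1 : ℤ) : ℝ) ^ 2 + ((x.2 - y.2 : ℤ) : ℝ) ^ 2 := by
    nlinarith [sq_nonneg (1 - (dI x y : ℝ))]
  have h3 : Real.log ((1 + (dI x y : ℝ)) ^ 2 / 2) ≤
      Real.log (1 + ((x.1 - y.1 : ℤ) : ℝ) ^ 2 + ((x.2 - y.2 : ℤ) : ℝ) ^ 2) :=
    Real.log_le_log (by positivity) h2
  rw [Real.log_div (by positivity) (by norm_num), Real.log_pow] at h3
  unfold Fp
  push_cast at h3 ⊢
  linarith

private theorem P1c_Fp_upper (y x : V) :
    Fp y x ≤ Real.log (1 + dI x y) + Real.log 2 / 2 := by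
  have h0 : (0 : ℝ) ≤ (dI x y : ℝ) := by exact_mod_cast P1c_dI_nonneg x y
  have h1 : ((x.1 - y.1 : ℤ) : ℝ) ^ 2 + ((x.2 - y.2 : ℤ) : ℝ) ^ 2 ≤
      2 * ((dI x y : ℤ) : ℝ) ^ 2 := by
    have : (x.1 - y.1) ^ 2 + (x.2 - y.2) ^ 2 ≤ 2 * (dI x y) ^ 2 := by
      unfold dI
      have a1 := le_max_left |x.1 - y.1| |x.2 - y.2|
      have a2 := le_max_right |x.1 - y.1| |x.2 - y.2|
      have b1 : (x.1 - y.1) ^ 2 ≤ (max |x.1 - y.1| |x.2 - y.2|) ^ 2 := by
        rw [← sq_abs (x.1 - y.1)]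
        exact pow_le_pow_left₀ (abs_nonneg _) a1 2
      have b2 : (x.2 - y.2) ^ 2 ≤ (max |x.1 - y.1| |x.2 - y.2|) ^ 2 := by
        rw [← sq_abs (x.2 - y.2)]
        exact pow_le_pow_left₀ (abs_nonneg _) a2 2
      linarith
    exact_mod_cast this
  have h2 : 1 + ((x.1 - y.1 : ℤ) : ℝ) ^ 2 + ((x.2 - y.2 : ℤ) : ℝ) ^ 2 ≤
      (1 + (dI x y : ℝ)) ^ 2 * 2 := by
    nlinarith
  have h3 := Real.log_le_log (by positivity) h2
  rw [Real.log_mul (by positivity) (by norm_num), Real.log_pow] at h3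
  unfold Fp
  push_cast at h3 ⊢
  linarith

private theorem P1c_mem_Q {z w : V} {N : ℤ} : w ∈ Q z N ↔ dI w z ≤ N := by
  unfold Q dI
  rw [Finset.mem_Icc, Prod.le_def, Prod.le_def, max_le_iff, abs_le, abs_le]
  constructor
  · rintro ⟨⟨h1, h2⟩, h3, h4⟩
    simp only at h1 h2 h3 h4
    refine ⟨⟨?_, ?_⟩, ?_, ?_⟩ <;> omega
  · rintro ⟨⟨h1, h2⟩, h3, h4⟩
    refine ⟨⟨?_, ?_⟩, ?_, ?_⟩ <;> simp only <;> omega

private theorem P1c_dI_tri (x y z : V) : dI x z ≤ dI x y + dI y z := by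
  unfold dI
  apply max_le
  · have := abs_sub_le x.1 y.1 z.1
    have := le_max_left |x.1 - y.1| |x.2 - y.2|
    have := le_max_left |y.1 - z.1| |y.2 - z.2|
    linarith
  · have := abs_sub_le x.2 y.2 z.2
    have := le_max_right |x.1 - y.1| |x.2 - y.2|
    have := le_max_right |y.1 - z.1| |y.2 - z.2|
    linarith

private theorem P1c_dI_comm (x y : V) : dI x y = dI y x := by
  unfold dI
  rw [abs_sub_comm x.1, abs_sub_comm x.2]

private theorem P1c_bd_dist {D : Finset V} {w : V} (hw : w ∈ bd D) :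
    ∃ v ∈ D, dI w v ≤ 1 := by
  obtain ⟨-, h⟩ := mem_bd_iff.1 hw
  rcases h with h | h | h | h
  · exact ⟨_, h, by simp [dI, nE]⟩
  · exact ⟨_, h, by simp [dI, nW]⟩
  · exact ⟨_, h, by simp [dI, nN]⟩
  · exact ⟨_, h, by simp [dI, nS]⟩

private theorem P1c_hx_le {D : Finset V} {β : V → ℝ} {M : ℝ} (h : ∀ w ∈ bd D, β w ≤ M) :
    ∀ x ∈ D, hx D β x ≤ M := by
  intro x hxD
  have := hx_mono_bd (β := β) (γ := fun _ => M) h x hxD
  rwa [hx_const] at this

private theorem P1c_le_hx {D : Finset V} {β : V → ℝ} {M : ℝ} (h : ∀ w ∈ bd D, M ≤ β w) :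
    ∀ x ∈ D, M ≤ hx D β x := by
  intro x hxD
  have := hx_mono_bd (γ := β) (β := fun _ => M) h x hxD
  rwa [hx_const] at this

/-- P1d: upper and lower bounds -/
theorem green_upper : ∃ C : ℝ, ∀ (D : Finset V) (z : V) (N : ℤ), 1 ≤ N → D ⊆ Q z N → ∀ x ∈ D, ∀ y ∈ D,
    gr D x y ≤ kap⁻¹ * Real.log (N / (1 + dI x y)) + C := by
  obtain ⟨C, hC⟩ := green_precise
  refine ⟨kap⁻¹ * (C + Real.log 4 + Real.log 2), fun D z N hN hD x hxD y hyD => ?_⟩
  have hN' : (1 : ℝ) ≤ (N : ℝ) := by exact_mod_cast hN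
  have hk := kap_pos
  have h1 := (abs_le.1 (hC D x y hxD hyD)).2
  have h2 : hx D (Fp y) x ≤ Real.log (4 * N) + Real.log 2 / 2 := by
    apply P1c_hx_le _ x hxD
    intro w hw
    obtain ⟨v, hv, hwv⟩ := P1c_bd_dist hw
    have hv1 := P1c_mem_Q.1 (hD hv)
    have hy1 := P1c_mem_Q.1 (hD hyD)
    have hwy : dI w y ≤ 2 * N + 1 := by
      have a1 := P1c_dI_tri w v y
      have a2 := P1c_dI_tri v z y
      rw [P1c_dI_comm z y] at a2
      linarith
    have hwy' : (dI w y : ℝ) ≤ 2 * N + 1 := by exact_mod_cast hwy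
    have h0 : (0 : ℝ) ≤ (dI w y : ℝ) := by exact_mod_cast P1c_dI_nonneg w y
    have h3 := P1c_Fp_upper y w
    have h4 : Real.log (1 + (dI w y : ℝ)) ≤ Real.log (4 * N) :=
      Real.log_le_log (by positivity) (by linarith)
    linarith
  have h3 := P1c_Fp_lower y x
  have h0 : (0 : ℝ) ≤ (dI x y : ℝ) := by exact_mod_cast P1c_dI_nonneg x y
  have h4 : kap * gr D x y ≤ Real.log (N / (1 + dI x y)) + (C + Real.log 4 + Real.log 2) := by
    rw [Real.log_div (by positivity) (by positivity)]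
    rw [Real.log_mul (by norm_num) (by positivity)] at h2
    linarith
  have h5 : gr D x y = kap⁻¹ * (kap * gr D x y) := by
    rw [← mul_assoc, inv_mul_cancel₀ hk.ne', one_mul]
  rw [h5, ← mul_add]
  exact mul_le_mul_of_nonneg_left h4 (inv_nonneg.2 hk.le)

theorem green_lower : ∃ C : ℝ, ∀ (z : V) (N : ℤ), 1 ≤ N → ∀ x y : V, 2 * dI x z ≤ N → 2 * dI y z ≤ N →
    kap⁻¹ * Real.log (N / (1 + dI x y)) - C ≤ gr (Q z N) x y := by
  obtain ⟨C, hC⟩ := green_precise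
  refine ⟨kap⁻¹ * (C + 2 * Real.log 2), fun z N hN x y hxz hyz => ?_⟩
  have hN' : (1 : ℝ) ≤ (N : ℝ) := by exact_mod_cast hN
  have hk := kap_pos
  have hxD : x ∈ Q z N := P1c_mem_Q.2 (by have := P1c_dI_nonneg x z; omega)
  have hyD : y ∈ Q z N := P1c_mem_Q.2 (by have := P1c_dI_nonneg y z; omega)
  have h1 := (abs_le.1 (hC (Q z N) x y hxD hyD)).1
  have h2 : Real.log (N / 2) - Real.log 2 / 2 ≤ hx (Q z N) (Fp y) x := by
    apply P1c_le_hx _ x hxD
    intro w hw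
    have hw1 : ¬ dI w z ≤ N := fun h => not_mem_of_mem_bd hw (P1c_mem_Q.2 h)
    have a1 := P1c_dI_tri w y z
    have hwy : N ≤ 2 * dI w y := by omega
    have hwy' : (N : ℝ) ≤ 2 * (dI w y : ℝ) := by exact_mod_cast hwy
    have h3 := P1c_Fp_lower y w
    have h4 : Real.log (N / 2) ≤ Real.log (1 + (dI w y : ℝ)) :=
      Real.log_le_log (by positivity) (by linarith)
    linarith
  have h3 := P1c_Fp_upper y x
  have h0 : (0 : ℝ) ≤ (dI x y : ℝ) := by exact_mod_cast P1c_dI_nonneg x y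
  have h4 : Real.log (N / (1 + dI x y)) - (C + 2 * Real.log 2) ≤ kap * gr (Q z N) x y := by
    rw [Real.log_div (by positivity) (by positivity)]
    rw [Real.log_div (by positivity) (by norm_num)] at h2
    linarith
  have h5 : gr (Q z N) x y = kap⁻¹ * (kap * gr (Q z N) x y) := by
    rw [← mul_assoc, inv_mul_cancel₀ hk.ne', one_mul]
  rw [h5, ← mul_sub]
  exact mul_le_mul_of_nonneg_left h4 (inv_nonneg.2 hk.le)

/-- a point at distance > m from the complement -/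
theorem green_diag_lower : ∃ C : ℝ, ∀ (D : Finset V) (x : V) (m : ℤ), 1 ≤ m → Q x m ⊆ D →
    kap⁻¹ * Real.log m - C ≤ gr D x x := by
  obtain ⟨C, hC⟩ := green_lower
  refine ⟨C, fun D x m hm hD => ?_⟩
  have hxx : dI x x = 0 := by simp [dI]
  have h1 := hC x m hm x x (by rw [hxx]; omega) (by rw [hxx]; omega)
  rw [hxx] at h1
  simp only [Int.cast_zero, add_zero, div_one] at h1
  exact h1.trans (gr_mono hD x x)

end GF
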