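import Pool.Agent.Lib.MP_acf58e_gf.P1c

/-! MP_acf58e_pr, row P2: hitting estimate. -/

open Set

namespace GF

/-- primitive of `1 / sqrt (1 + |t|)` -/
private noncomputable def pG (t : ℤ) : ℝ :=
  if 0 ≤ t then 2 * Real.sqrt t else -(2 * Real.sqrt (-(t : ℝ)))

private theorem key_sqrt {s u : ℝ} (hs : 0 < s) (h : s ^ 2 - u ^ 2 = 1) : 1 / s ≤ 2 * s - 2 * u := by
  rw [div_le_iff₀ hs]
  nlinarith [sq_nonneg (s - u)]

private theorem pG_step (t : ℤ) : 1 / Real.sqrt (1 + |(t : ℝ)|) ≤ pG (t + 1) - pG t := by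
  by_cases ht : 0 ≤ t
  · have ht' : (0:ℝ) ≤ t := by exact_mod_cast ht
    rw [pG, pG, if_pos ht, if_pos (by omega)]
    rw [abs_of_nonneg ht', add_comm (1:ℝ)]
    push_cast
    exact key_sqrt (Real.sqrt_pos.2 (by positivity))
      (by rw [Real.sq_sqrt (by positivity), Real.sq_sqrt ht']; ring)
  · push Not at ht
    have ht' : (t:ℝ) ≤ -1 := by exact_mod_cast Int.le_sub_one_of_lt ht
    have h1 : pG (t + 1) = -(2 * Real.sqrt (-((t:ℝ) + 1))) := by
      rw [pG]
      by_cases h : 0 ≤ t + 1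
      · have : t = -1 := by omega
        subst this
        simp
      · rw [if_neg h]
        push_cast
        rfl
    rw [h1, pG, if_neg (by omega), abs_of_neg (by linarith)]
    have h2 := key_sqrt (s := Real.sqrt (-(t:ℝ))) (u := Real.sqrt (-((t:ℝ) + 1)))
      (Real.sqrt_pos.2 (by linarith))
      (by rw [Real.sq_sqrt (by linarith), Real.sq_sqrt (by linarith)]; ring)
    have h3 : 1 / Real.sqrt (1 + -(t:ℝ)) ≤ 1 / Real.sqrt (-(t:ℝ)) :=
      one_div_le_one_div_of_le (Real.sqrt_pos.2 (by linarith)) (Real.sqrt_le_sqrt (by linarith))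
    linarith

private theorem log_le_sqrt {a b : ℝ} (ha : 0 < a) (hb : 0 < b) :
    Real.log (a / b) ≤ 2 * Real.sqrt a * (1 / Real.sqrt b) := by
  have hpos : 0 < Real.sqrt (a / b) := Real.sqrt_pos.2 (by positivity)
  have h1 : Real.log (a / b) = 2 * Real.log (Real.sqrt (a / b)) := by
    rw [Real.log_sqrt (by positivity)]; ring
  have h2 := Real.log_le_sub_one_of_pos hpos
  have h3 : Real.sqrt (a / b) = Real.sqrt a * (1 / Real.sqrt b) := by
    rw [Real.sqrt_div ha.le]; ring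
  rw [h1]
  nlinarith

/-- P2 -/
theorem hit_lower : ∃ (Λ : ℤ) (c : ℝ), 2 ≤ Λ ∧ 0 < c ∧ ∀ (ρ : ℤ) (z : V) (K : Finset V), 1 ≤ ρ →
    (∀ r : ℤ, ρ < 2 * r → r ≤ ρ → ∃ k ∈ K, dI k z = r) →
    ∀ x ∈ Q z ρ, x ∉ K → c ≤ ∑ k ∈ K, hm (Q z (Λ * ρ) \ K) x k := by
  classical
  obtain ⟨C1, hC1⟩ := green_lower
  obtain ⟨C2', hC2'⟩ := green_upper
  set C2 : ℝ := max C2' 0 with hC2def
  have hC2 : ∀ (D : Finset V) (z : V) (N : ℤ), 1 ≤ N → D ⊆ Q z N → ∀ x ∈ D, ∀ y ∈ D,
      gr D x y ≤ kap⁻¹ * Real.log (N / (1 + dI x y)) + C2 := fun D z N hN hD x hx y hy =>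
    (hC2' D z N hN hD x hx y hy).trans (by have := le_max_left C2' 0; linarith)
  have hC2n : 0 ≤ C2 := le_max_right _ _
  have hk : 0 < kap⁻¹ := inv_pos.2 kap_pos
  -- choice of Λ
  obtain ⟨n, hn⟩ := exists_nat_ge (3 * Real.exp (kap * (1 + C1)))
  set Λ : ℤ := (n : ℤ) + 2 with hΛ
  have hΛ2 : 2 ≤ Λ := by omega
  have hΛR : (3 * Real.exp (kap * (1 + C1))) ≤ (Λ : ℝ) := by
    rw [hΛ]; push_cast; linarith
  have hΛ2R : (2:ℝ) ≤ (Λ : ℝ) := by exact_mod_cast hΛ2
  have hlogΛ : 1 ≤ kap⁻¹ * Real.log ((Λ : ℝ) / 3) - C1 := by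
    have h1 : kap * (1 + C1) ≤ Real.log ((Λ : ℝ) / 3) := by
      rw [Real.le_log_iff_exp_le (by linarith)]
      linarith
    have h2 := mul_le_mul_of_nonneg_left h1 hk.le
    rw [← mul_assoc, inv_mul_cancel₀ kap_pos.ne', one_mul] at h2
    linarith
  have hMpos : 0 < 16 * kap⁻¹ * Λ + C2 := by positivity
  refine ⟨Λ, 1 / (16 * kap⁻¹ * Λ + C2), hΛ2, by positivity, ?_⟩
  intro ρ z K hρ hK x hxQ hxK
  have hρR : (1:ℝ) ≤ ρ := by exact_mod_cast hρ
  set N : ℤ := Λ * ρ with hN
  have hNρ : 2 * ρ ≤ N := by rw [hN]; nlinarith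
  have hNR : (N : ℝ) = Λ * ρ := by rw [hN]; push_cast; ring
  set D : Finset V := Q z N with hD
  have hQmem : ∀ (w : V) (r : ℤ), w ∈ Q z r ↔ dI w z ≤ r := by
    intro w r
    unfold Q dI
    rw [Finset.mem_Icc, Prod.le_def, Prod.le_def]
    simp only
    rw [max_le_iff, abs_le, abs_le]
    constructor
    · rintro ⟨⟨h1, h2⟩, h3, h4⟩; constructor <;> constructor <;> linarith
    · rintro ⟨⟨h1, h2⟩, h3, h4⟩; constructor <;> constructor <;> linarith
  have htri : ∀ a b : V, |dI a z - dI b z| ≤ dI a b := by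
    intro a b
    unfold dI
    refine (abs_max_sub_max_le_max _ _ _ _).trans (max_le_max ?_ ?_)
    · refine (abs_abs_sub_abs_le _ _).trans (le_of_eq ?_)
      congr 1; ring
    · refine (abs_abs_sub_abs_le _ _).trans (le_of_eq ?_)
      congr 1; ring
  have htri2 : ∀ a b : V, dI a b ≤ dI a z + dI b z := by
    intro a b
    unfold dI
    apply max_le
    · have h1 := le_max_left |a.1 - z.1| |a.2 - z.2|
      have h2 := le_max_left |b.1 - z.1| |b.2 - z.2|
      have h3 : |a.1 - b.1| ≤ |a.1 - z.1| + |b.1 - z.1| := by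
        have : a.1 - b.1 = (a.1 - z.1) - (b.1 - z.1) := by ring
        rw [this]; exact abs_sub _ _
      linarith
    · have h1 := le_max_right |a.1 - z.1| |a.2 - z.2|
      have h2 := le_max_right |b.1 - z.1| |b.2 - z.2|
      have h3 : |a.2 - b.2| ≤ |a.2 - z.2| + |b.2 - z.2| := by
        have : a.2 - b.2 = (a.2 - z.2) - (b.2 - z.2) := by ring
        rw [this]; exact abs_sub _ _
      linarith
  have hdI0 : ∀ a b : V, 0 ≤ dI a b := fun a b => by
    unfold dI; exact (abs_nonneg _).trans (le_max_left _ _)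
  -- the radii
  set m : ℤ := ρ / 2 + 1 with hmdef
  set n0 : ℕ := (ρ - ρ / 2).toNat with hn0
  have hn0Z : (n0 : ℤ) = ρ - ρ / 2 := by rw [hn0]; omega
  have hn0pos : (1:ℝ) ≤ n0 := by
    have : (1:ℤ) ≤ n0 := by omega
    exact_mod_cast this
  have hn0R : (ρ : ℝ) ≤ 2 * n0 := by
    have : ρ ≤ 2 * (n0 : ℤ) := by omega
    exact_mod_cast this
  have hKi : ∀ i : ℕ, ∃ k : V, i < n0 → k ∈ K ∧ dI k z = m + i := by
    intro i
    by_cases hi : i < n0
    · obtain ⟨k, hk1, hk2⟩ := hK (m + i) (by omega) (by omega)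
      exact ⟨k, fun _ => ⟨hk1, hk2⟩⟩
    · exact ⟨z, fun h => absurd h hi⟩
  choose k hk' using hKi
  set φ : V → ℝ := fun w => ∑ i ∈ Finset.range n0, gr D w (k i) with hφ
  have hkD : ∀ i < n0, k i ∈ D := by
    intro i hi
    rw [hD, hQmem, (hk' i hi).2]
    omega
  -- upper bound
  have hup : ∀ w ∈ D, φ w ≤ (16 * kap⁻¹ * Λ + C2) * n0 := by
    intro w hw
    have haN : dI w z ≤ N := (hQmem w N).1 hw
    set a : ℤ := dI w z with ha
    have ha0 : 0 ≤ a := hdI0 _ _
    have hterm : ∀ i ∈ Finset.range n0, gr D w (k i) ≤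
        2 * kap⁻¹ * Real.sqrt N * (pG (m + ((i + 1 : ℕ) : ℤ) - a) - pG (m + (i : ℤ) - a)) + C2 := by
      intro i hi
      have hi' := Finset.mem_range.1 hi
      have h1 := hC2 D z N (by omega) (le_refl _) w hw (k i) (hkD i hi')
      have h2 : |m + (i:ℤ) - a| ≤ dI w (k i) := by
        have := htri w (k i)
        rw [(hk' i hi').2, abs_sub_comm] at this
        exact this
      have h3 : (0:ℝ) < N := by
        rw [hNR]; positivity
      have h4 : (0:ℝ) < 1 + |((m + (i:ℤ) - a : ℤ) : ℝ)| := by positivity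
      have h5 : Real.log (N / (1 + dI w (k i))) ≤
          2 * Real.sqrt N * (1 / Real.sqrt (1 + |((m + (i:ℤ) - a : ℤ) : ℝ)|)) := by
        refine le_trans (Real.log_le_log ?_ ?_) (log_le_sqrt h3 h4)
        · have : (0:ℝ) ≤ dI w (k i) := by exact_mod_cast hdI0 _ _
          positivity
        · apply div_le_div_of_nonneg_left h3.le h4
          have : ((|m + (i:ℤ) - a| : ℤ) : ℝ) ≤ dI w (k i) := by exact_mod_cast h2
          rw [Int.cast_abs] at this
          linarith
      have h6 := pG_step (m + (i:ℤ) - a)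
      have e1 : m + ((i + 1 : ℕ) : ℤ) - a = m + (i:ℤ) - a + 1 := by push_cast; ring
      rw [e1]
      have h7 : kap⁻¹ * Real.log (N / (1 + dI w (k i))) ≤ kap⁻¹ * (2 * Real.sqrt N *
          (pG (m + (i:ℤ) - a + 1) - pG (m + (i:ℤ) - a))) := by
        refine mul_le_mul_of_nonneg_left (h5.trans ?_) hk.le
        exact mul_le_mul_of_nonneg_left h6 (by positivity)
      linarith
    have hsum : φ w ≤ 2 * kap⁻¹ * Real.sqrt N * (pG (m + (n0 : ℤ) - a) - pG (m + ((0:ℕ) : ℤ) - a))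
        + n0 * C2 := by
      refine (Finset.sum_le_sum hterm).trans (le_of_eq ?_)
      rw [Finset.sum_add_distrib, ← Finset.mul_sum, Finset.sum_const, Finset.card_range,
        nsmul_eq_mul]
      rw [Finset.sum_range_sub (fun i : ℕ => pG (m + (i : ℤ) - a))]
    have hNn : (0:ℝ) ≤ N := by rw [hNR]; positivity
    have hsq : Real.sqrt N * Real.sqrt N = N := Real.mul_self_sqrt hNn
    have hG1 : pG (m + (n0 : ℤ) - a) ≤ 2 * Real.sqrt N := by
      rw [pG]
      split_ifs with h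
      · have : ((m + (n0:ℤ) - a : ℤ) : ℝ) ≤ N := by
          have : m + (n0:ℤ) - a ≤ N := by omega
          exact_mod_cast this
        have := Real.sqrt_le_sqrt this
        linarith
      · have h1 := Real.sqrt_nonneg (-((m + (n0:ℤ) - a : ℤ) : ℝ))
        have h2 := Real.sqrt_nonneg (N:ℝ)
        linarith
    have hG2 : -(2 * Real.sqrt N) ≤ pG (m + ((0:ℕ) : ℤ) - a) := by
      rw [pG]
      split_ifs with h
      · have h1 := Real.sqrt_nonneg ((m + ((0:ℕ):ℤ) - a : ℤ) : ℝ)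
        have h2 := Real.sqrt_nonneg (N:ℝ)
        linarith
      · have : -((m + ((0:ℕ):ℤ) - a : ℤ) : ℝ) ≤ N := by
          have : -(m + ((0:ℕ):ℤ) - a) ≤ N := by omega
          exact_mod_cast this
        have := Real.sqrt_le_sqrt this
        linarith
    have h8 : 2 * kap⁻¹ * Real.sqrt N * (pG (m + (n0 : ℤ) - a) - pG (m + ((0:ℕ) : ℤ) - a)) ≤
        2 * kap⁻¹ * Real.sqrt N * (4 * Real.sqrt N) :=
      mul_le_mul_of_nonneg_left (by linarith) (by positivity)
    have h9 : 2 * kap⁻¹ * Real.sqrt N * (4 * Real.sqrt N) = 8 * kap⁻¹ * (Λ * ρ) := by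
      rw [← hNR]
      calc 2 * kap⁻¹ * Real.sqrt N * (4 * Real.sqrt N) =
          8 * kap⁻¹ * (Real.sqrt N * Real.sqrt N) := by ring
        _ = _ := by rw [hsq]
    have h10 : 8 * kap⁻¹ * ((Λ:ℝ) * ρ) ≤ 8 * kap⁻¹ * (Λ * (2 * n0)) := by
      apply mul_le_mul_of_nonneg_left _ (by positivity)
      exact mul_le_mul_of_nonneg_left hn0R (by linarith)
    nlinarith
  -- lower bound
  have hlow : (n0 : ℝ) ≤ φ x := by
    have h1 : ∀ i ∈ Finset.range n0, (1:ℝ) ≤ gr D x (k i) := by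
      intro i hi
      have hi' := Finset.mem_range.1 hi
      have hxz : dI x z ≤ ρ := (hQmem x ρ).1 hxQ
      have hkz : dI (k i) z ≤ ρ := by rw [(hk' i hi').2]; omega
      have h2 := hC1 z N (by omega) x (k i) (by omega) (by omega)
      have h3 : Real.log ((Λ:ℝ) / 3) ≤ Real.log (N / (1 + dI x (k i))) := by
        apply Real.log_le_log (by positivity)
        have h4 : (dI x (k i) : ℝ) ≤ 2 * ρ := by
          have := htri2 x (k i)
          have : dI x (k i) ≤ 2 * ρ := by omega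
          exact_mod_cast this
        have h5 : (0:ℝ) ≤ dI x (k i) := by exact_mod_cast hdI0 _ _
        rw [hNR, div_le_div_iff₀ (by norm_num) (by positivity)]
        nlinarith
      have h6 := mul_le_mul_of_nonneg_left h3 hk.le
      linarith
    have := Finset.sum_le_sum h1
    simpa using this
  -- maximum principle
  have hxD : x ∈ D := by
    rw [hD, hQmem]
    have := (hQmem x ρ).1 hxQ
    omega
  have hxE : x ∈ D \ K := Finset.mem_sdiff.2 ⟨hxD, hxK⟩
  have hharm : ∀ w ∈ D \ K, φ w = av φ w := by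
    intro w hw
    rw [Finset.mem_sdiff] at hw
    have h1 : ∀ i ∈ Finset.range n0, gr D w (k i) = av (fun z => gr D z (k i)) w := by
      intro i hi
      have h2 := gr_on (k i) hw.1
      have h3 : w ≠ k i := by
        rintro rfl
        exact hw.2 (hk' i (Finset.mem_range.1 hi)).1
      rw [if_neg h3] at h2
      linarith
    have h4 : av φ w = ∑ i ∈ Finset.range n0, av (fun z => gr D z (k i)) w := by
      simp only [av, hφ, ← Finset.sum_add_distrib, Finset.sum_div]
    rw [h4]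
    exact Finset.sum_congr rfl h1
  have hself : hx (D \ K) φ = φ := hx_self hharm
  set M : ℝ := (16 * kap⁻¹ * Λ + C2) * n0 with hM
  have hM0 : 0 ≤ M := by positivity
  have hcomp : hx (D \ K) φ x ≤ hx (D \ K) (fun y => if y ∈ K then M else 0) x := by
    apply hx_mono
    intro y hy
    by_cases hyK : y ∈ K
    · simp only [hyK, if_true]
      by_cases hyD : y ∈ D
      · exact hup y hyD
      · have : φ y = 0 := Finset.sum_eq_zero fun i _ => gr_off_left hyD
        rw [this]; exact hM0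
    · simp only [hyK, if_false]
      have hyD : y ∉ D := fun h => hy (Finset.mem_sdiff.2 ⟨h, hyK⟩)
      exact (Finset.sum_eq_zero fun i _ => gr_off_left hyD).le
  have hval : hx (D \ K) (fun y => if y ∈ K then M else 0) x = M * ∑ y ∈ K, hm (D \ K) x y := by
    rw [hx_eq_sum hxE, Finset.mul_sum]
    have h1 : ∑ y ∈ bd (D \ K), hm (D \ K) x y * (if y ∈ K then M else 0) =
        ∑ y ∈ (bd (D \ K)).filter (· ∈ K), M * hm (D \ K) x y := by
      rw [Finset.sum_filter]
      refine Finset.sum_congr rfl fun y _ => ?_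
      split_ifs <;> ring
    rw [h1]
    apply Finset.sum_subset
    · intro y hy
      exact (Finset.mem_filter.1 hy).2
    · intro y hyK hy
      rw [hm_eq_zero hxE, mul_zero]
      intro h
      exact hy (Finset.mem_filter.2 ⟨h, hyK⟩)
  rw [hself, hval] at hcomp
  have hfin : (n0 : ℝ) ≤ M * ∑ y ∈ K, hm (D \ K) x y := hlow.trans hcomp
  rw [div_le_iff₀ hMpos]
  have hn0' : (0:ℝ) < n0 := by linarith
  have : (n0 : ℝ) * 1 ≤ n0 * ((∑ y ∈ K, hm (D \ K) x y) * (16 * kap⁻¹ * Λ + C2)) := by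
    rw [hM] at hfin
    linarith
  exact le_of_mul_le_mul_left this hn0'

end GF
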