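import Pool.Agent.Lib.MP_acf58e_gf.G0b

/-! MP_acf58e_pr, module P, row P9: corridor. -/

open Set

namespace GF

private lemma cosh_add_cos (θ : ℝ) (hθ : 0 ≤ θ) : 2 - Real.cos θ ≤ Real.cosh θ := by
  have h1 := Real.one_sub_sq_div_two_le_cos (x := θ)
  have h2 : θ / 2 ≤ Real.sinh (θ / 2) := Real.self_le_sinh_iff.2 (by linarith)
  have h3 : Real.cosh θ = 1 + 2 * Real.sinh (θ / 2) ^ 2 := by
    have : θ = 2 * (θ / 2) := by ring
    conv_lhs => rw [this]
    rw [Real.cosh_two_mul, Real.cosh_sq]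
    ring
  have h4 : (θ / 2) ^ 2 ≤ Real.sinh (θ / 2) ^ 2 := pow_le_pow_left₀ (by linarith) h2 2
  nlinarith

private lemma exists_alpha (H : ℝ) (hH : 2 ≤ H) :
    ∃ α : ℝ, 0 < α ∧ α ≤ Real.pi / H ∧ Real.cosh α = 2 - Real.cos (Real.pi / H) := by
  have hθ : 0 < Real.pi / H := by positivity
  have hθ2 : Real.pi / H ≤ Real.pi / 2 := by
    gcongr
  have h1 := cosh_add_cos (Real.pi / H) hθ.le
  have h0 : Real.cosh 0 ≤ 2 - Real.cos (Real.pi / H) := by
    rw [Real.cosh_zero]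
    have := Real.cos_le_one (Real.pi / H)
    linarith
  have hc : ContinuousOn Real.cosh (Icc 0 (Real.pi / H)) := Real.continuous_cosh.continuousOn
  obtain ⟨α, hα, hα2⟩ := intermediate_value_Icc hθ.le hc ⟨h0, h1⟩
  refine ⟨α, ?_, hα.2, hα2⟩
  rcases hα.1.lt_or_eq with h | h
  · exact h
  · exfalso
    rw [← h, Real.cosh_zero] at hα2
    have h3 : Real.cos (Real.pi / H) < 1 := by
      have := Real.cos_lt_cos_of_nonneg_of_le_pi_div_two le_rfl hθ2 hθ
      rwa [Real.cos_zero] at this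
    linarith

private lemma sinh_le_mul_cosh {t : ℝ} (ht : 0 ≤ t) : Real.sinh t ≤ t * Real.cosh t := by
  have hmono : MonotoneOn (fun s : ℝ => s * Real.cosh s - Real.sinh s) (Ici 0) := by
    refine monotoneOn_of_deriv_nonneg (convex_Ici 0) (by fun_prop) (by fun_prop) fun s hs => ?_
    rw [interior_Ici] at hs
    have hs0 : 0 < s := hs
    have hd : HasDerivAt (fun s : ℝ => s * Real.cosh s - Real.sinh s)
        (1 * Real.cosh s + s * Real.sinh s - Real.cosh s) s :=
      ((hasDerivAt_id s).mul (Real.hasDerivAt_cosh s)).sub (Real.hasDerivAt_sinh s)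
    rw [hd.deriv]
    have := Real.sinh_pos_iff.2 hs0
    nlinarith
  have := hmono (mem_Ici.2 le_rfl) (mem_Ici.2 ht) ht
  simp only [zero_mul, Real.sinh_zero, sub_zero] at this
  linarith

/-- the comparison function -/
private noncomputable def cf (α : ℝ) (L H a b : ℤ) (z : V) : ℝ :=
  Real.sin (Real.pi * ((z.2 : ℝ) - b) / H) * (Real.sinh (α * (L - ((z.1 : ℝ) - a))) / Real.sinh (α * L))

private lemma cf_harm {α : ℝ} {L H a b : ℤ} (hH : 2 ≤ H)
    (h : Real.cosh α = 2 - Real.cos (Real.pi / (H : ℝ))) (z : V) :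
    cf α L H a b z = av (cf α L H a b) z := by
  have hH0 : (H : ℝ) ≠ 0 := by
    have : (2 : ℝ) ≤ H := by exact_mod_cast hH
    linarith
  unfold av cf nE nW nN nS
  simp only
  push_cast
  set u := Real.pi * ((z.2 : ℝ) - b) / H with hu
  set s := α * (L - ((z.1 : ℝ) - a)) with hs
  have e1 : α * ((L : ℝ) - ((z.1 : ℝ) + 1 - a)) = s - α := by rw [hs]; ring
  have e2 : α * ((L : ℝ) - ((z.1 : ℝ) - 1 - a)) = s + α := by rw [hs]; ring
  have e3 : Real.pi * ((z.2 : ℝ) + 1 - b) / H = u + Real.pi / H := by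
    rw [hu]; field_simp; ring
  have e4 : Real.pi * ((z.2 : ℝ) - 1 - b) / H = u - Real.pi / H := by
    rw [hu]; field_simp; ring
  rw [e1, e2, e3, e4, Real.sinh_sub, Real.sinh_add, Real.sin_add, Real.sin_sub, h]
  ring

private lemma cf_le_one {α : ℝ} {L H a b : ℤ} (hα : 0 < α) (hL : 2 ≤ L) {z : V} (hz : a ≤ z.1)
    (hz' : z.1 ≤ a + L) : cf α L H a b z ≤ 1 := by
  have hL0 : (2 : ℝ) ≤ L := by exact_mod_cast hL
  have hz0 : (a : ℝ) ≤ z.1 := by exact_mod_cast hz
  have hz1 : (z.1 : ℝ) ≤ a + L := by exact_mod_cast hz'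
  have hs : 0 < Real.sinh (α * L) := Real.sinh_pos_iff.2 (by positivity)
  unfold cf
  have h1 : Real.sinh (α * (L - ((z.1 : ℝ) - a))) / Real.sinh (α * L) ≤ 1 := by
    rw [div_le_one hs]
    exact Real.sinh_le_sinh.2 (mul_le_mul_of_nonneg_left (by linarith) hα.le)
  have h0 : 0 ≤ Real.sinh (α * (L - ((z.1 : ℝ) - a))) / Real.sinh (α * L) :=
    div_nonneg (Real.sinh_nonneg_iff.2 (mul_nonneg hα.le (by linarith))) hs.le
  have h2 := Real.sin_le_one (Real.pi * ((z.2 : ℝ) - b) / H)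
  calc Real.sin (Real.pi * ((z.2 : ℝ) - b) / H)
        * (Real.sinh (α * (L - ((z.1 : ℝ) - a))) / Real.sinh (α * L))
      ≤ 1 * (Real.sinh (α * (L - ((z.1 : ℝ) - a))) / Real.sinh (α * L)) :=
        mul_le_mul_of_nonneg_right h2 h0
    _ ≤ 1 := by rw [one_mul]; exact h1

private lemma cf_lower {α : ℝ} {L H a b : ℤ} (hα : 0 < α) (hL : 2 ≤ L) (hH : 2 ≤ H)
    (hα2 : α ≤ Real.pi / (H : ℝ)) {z : V} (hz1 : z.1 ≤ a + L) (hz2 : b ≤ z.2) (hz3 : z.2 ≤ b + H) :
    Real.sin (Real.pi * ((z.2 : ℝ) - b) / H) * ((L - ((z.1 : ℝ) - a)) / L) / Real.cosh (Real.pi * L / H)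
      ≤ cf α L H a b z := by
  have hL0 : (2 : ℝ) ≤ L := by exact_mod_cast hL
  have hH0 : (2 : ℝ) ≤ H := by exact_mod_cast hH
  have hz1' : (z.1 : ℝ) ≤ a + L := by exact_mod_cast hz1
  have hz2' : (b : ℝ) ≤ z.2 := by exact_mod_cast hz2
  have hz3' : (z.2 : ℝ) ≤ b + H := by exact_mod_cast hz3
  have hs : 0 < Real.sinh (α * L) := Real.sinh_pos_iff.2 (by positivity)
  have hsin : 0 ≤ Real.sin (Real.pi * ((z.2 : ℝ) - b) / H) := by
    refine Real.sin_nonneg_of_nonneg_of_le_pi (by have := Real.pi_pos; apply div_nonneg; nlinarith; linarith) ?_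
    rw [div_le_iff₀ (by linarith)]
    exact mul_le_mul_of_nonneg_left (by linarith) Real.pi_pos.le
  unfold cf
  rw [mul_div_assoc]
  refine mul_le_mul_of_nonneg_left ?_ hsin
  set d : ℝ := L - ((z.1 : ℝ) - a) with hd
  have hd0 : 0 ≤ d := by rw [hd]; linarith
  have h1 : α * d ≤ Real.sinh (α * d) := Real.self_le_sinh_iff.2 (mul_nonneg hα.le hd0)
  have h2 : Real.sinh (α * L) ≤ α * L * Real.cosh (α * L) := sinh_le_mul_cosh (by positivity)
  have h3 : Real.cosh (α * L) ≤ Real.cosh (Real.pi * L / H) := by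
    rw [Real.cosh_le_cosh, abs_of_nonneg (by positivity), abs_of_nonneg (by positivity)]
    calc α * L ≤ Real.pi / H * L := mul_le_mul_of_nonneg_right hα2 (by linarith)
      _ = Real.pi * L / H := by ring
  have hc : 0 < Real.cosh (Real.pi * L / H) := Real.cosh_pos _
  have h4 : Real.sinh (α * L) ≤ α * L * Real.cosh (Real.pi * L / H) :=
    h2.trans (mul_le_mul_of_nonneg_left h3 (by positivity))
  rw [div_div, div_le_div_iff₀ (by positivity) hs]
  calc d * Real.sinh (α * L) ≤ d * (α * L * Real.cosh (Real.pi * L / H)) :=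
        mul_le_mul_of_nonneg_left h4 hd0
    _ = α * d * (L * Real.cosh (Real.pi * L / H)) := by ring
    _ ≤ Real.sinh (α * d) * (L * Real.cosh (Real.pi * L / H)) :=
        mul_le_mul_of_nonneg_right h1 (by positivity)

private lemma mem_Rc {a b c d : ℤ} {z : V} : z ∈ Rc a b c d ↔ (a ≤ z.1 ∧ z.1 ≤ b) ∧ (c ≤ z.2 ∧ z.2 ≤ d) := by
  unfold Rc
  rw [Finset.mem_Icc, Prod.le_def, Prod.le_def]
  constructor
  · rintro ⟨⟨h1, h2⟩, h3, h4⟩
    exact ⟨⟨h1, h3⟩, h2, h4⟩
  · rintro ⟨⟨h1, h2⟩, h3, h4⟩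
    exact ⟨⟨h1, h3⟩, h2, h4⟩

/-- P9': any domain containing the corridor: probability to hit the left side (a set K containing it) -/
theorem corridor_hit (L H a b : ℤ) (hL : 2 ≤ L) (hH : 2 ≤ H) (D K : Finset V)
    (hD : Rc (a + 1) (a + L - 1) (b + 1) (b + H - 1) ⊆ D) (hK : ∀ y : ℤ, b + 1 ≤ y → y ≤ b + H - 1 → ((a, y) : V) ∈ K)
    (x : V) (hx : x ∈ Rc (a + 1) (a + L - 1) (b + 1) (b + H - 1)) (hxK : x ∉ K) :
    Real.sin (Real.pi * (x.2 - b) / H) * ((L - (x.1 - a)) / L) / Real.cosh (Real.pi * L / H)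
      ≤ ∑ y ∈ K, hm (D \ K) x y := by
  obtain ⟨α, hα, hα2, hα3⟩ := exists_alpha (H : ℝ) (by exact_mod_cast hH)
  set E := Rc (a + 1) (a + L - 1) (b + 1) (b + H - 1) with hE
  have hx' := mem_Rc.1 hx
  refine (cf_lower hα hL hH hα2 (z := x) (by omega) (by omega) (by omega)).trans ?_
  have hEK : E \ K ⊆ D \ K := Finset.sdiff_subset_sdiff hD le_rfl
  have key := max_principle (E \ K) (f := fun z => cf α L H a b z - ∑ y ∈ K, hm (D \ K) z y) (M := 0)
    (fun z hz => by
      have e1 := cf_harm (L := L) (a := a) (b := b) hH hα3 z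
      have e2 : ∀ y, hm (D \ K) z y = av (fun w => hm (D \ K) w y) z := fun y =>
        hx_harm (D \ K) _ (hEK hz)
      have e3 : av (fun z => cf α L H a b z - ∑ y ∈ K, hm (D \ K) z y) z
          = av (cf α L H a b) z - ∑ y ∈ K, av (fun w => hm (D \ K) w y) z := by
        unfold av
        simp only
        rw [← Finset.sum_div]
        rw [Finset.sum_add_distrib, Finset.sum_add_distrib, Finset.sum_add_distrib]
        ring
      rw [e3, ← e1, Finset.sum_congr rfl fun y _ => (e2 y).symm])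
    (fun z hz => by
      have hz2 := (mem_bd_iff.1 hz).2
      have hz1 := (mem_bd_iff.1 hz).1
      have hr : (a ≤ z.1 ∧ z.1 ≤ a + L) ∧ (b ≤ z.2 ∧ z.2 ≤ b + H) := by
        rcases hz2 with h | h | h | h <;>
        · have := mem_Rc.1 (Finset.mem_sdiff.1 h).1
          simp only [nE, nW, nN, nS] at this
          omega
      by_cases hzK : z ∈ K
      · have h1 := cf_le_one (H := H) (b := b) hα hL hr.1.1 hr.1.2
        have h2 : ∑ y ∈ K, hm (D \ K) z y = 1 := by
          have : ∀ y ∈ K, hm (D \ K) z y = if z = y then 1 else 0 := fun y _ =>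
            hm_off (by simp [hzK])
          rw [Finset.sum_congr rfl this]
          simp [hzK]
        rw [h2]
        linarith
      · have h3 : z ∉ E := fun h => hz1 (Finset.mem_sdiff.2 ⟨h, hzK⟩)
        have h2 : 0 ≤ ∑ y ∈ K, hm (D \ K) z y := Finset.sum_nonneg fun y _ => hm_nonneg _ _ _
        have h4 : ¬ (z.1 = a ∧ b + 1 ≤ z.2 ∧ z.2 ≤ b + H - 1) := by
          rintro ⟨e, h5, h6⟩
          exact hzK (by have := hK z.2 h5 h6; rwa [← e] at this)
        have h5 : z.1 = a + L ∨ z.2 = b ∨ z.2 = b + H := by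
          have h6 : ¬ ((a + 1 ≤ z.1 ∧ z.1 ≤ a + L - 1) ∧ (b + 1 ≤ z.2 ∧ z.2 ≤ b + H - 1)) :=
            fun h => h3 (mem_Rc.2 h)
          omega
        have h6 : cf α L H a b z = 0 := by
          unfold cf
          rcases h5 with h | h | h
          · have : α * ((L : ℝ) - ((z.1 : ℝ) - a)) = 0 := by
              rw [h]; push_cast; ring
            rw [this, Real.sinh_zero, zero_div, mul_zero]
          · have : Real.pi * ((z.2 : ℝ) - b) / H = 0 := by
              rw [h, sub_self, mul_zero, zero_div]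
            rw [this, Real.sin_zero, zero_mul]
          · have hH0 : (H : ℝ) ≠ 0 := by
              have : (2 : ℝ) ≤ H := by exact_mod_cast hH
              linarith
            have : Real.pi * ((z.2 : ℝ) - b) / H = Real.pi := by
              rw [h]; push_cast; field_simp; ring
            rw [this, Real.sin_pi, zero_mul]
        rw [h6]
        linarith) x (Finset.mem_sdiff.2 ⟨hx, hxK⟩)
  linarith

/-- P9: harmonic measure of the left side of the corridor Rc 1 (L-1) 1 (H-1), columns 0 and L, rows 0 and H -/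
theorem corridor (L H : ℤ) (hL : 2 ≤ L) (hH : 2 ≤ H) (x : V) (hx : x ∈ Rc 1 (L - 1) 1 (H - 1)) :
    Real.sin (Real.pi * x.2 / H) * ((L - x.1) / L) / Real.cosh (Real.pi * L / H)
      ≤ ∑ y ∈ Rc 0 0 1 (H - 1), hm (Rc 1 (L - 1) 1 (H - 1)) x y := by
  have hd : Rc 1 (L - 1) 1 (H - 1) \ Rc 0 0 1 (H - 1) = Rc 1 (L - 1) 1 (H - 1) := by
    refine Finset.sdiff_eq_self_of_disjoint (Finset.disjoint_left.2 fun z h1 h2 => ?_)
    have e1 := mem_Rc.1 h1
    have e2 := mem_Rc.1 h2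
    omega
  have h := corridor_hit L H 0 0 hL hH (Rc 1 (L - 1) 1 (H - 1)) (Rc 0 0 1 (H - 1))
    (by intro z hz; have := mem_Rc.1 hz; exact mem_Rc.2 (by omega))
    (fun y h1 h2 => mem_Rc.2 (by simp only; omega)) x (by have := mem_Rc.1 hx; exact mem_Rc.2 (by omega))
    (fun h => by have e1 := mem_Rc.1 h; have e2 := mem_Rc.1 hx; omega)
  rw [hd] at h
  simpa using h

end GF
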