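import Pool.Agent.Lib.MP_acf58e_gf.RDet
import Pool.Agent.Lib.MP_acf58e_gf.P4
import Pool.Agent.Lib.MP_acf58e_gf.P9

/-!
MP_acf58e_pr, module R: the deterministic averaging lemma.
-/

set_option autoImplicit false

open Set

namespace GF.RR

/-- inner rectangle -/
noncomputable def Dq (x0 y0 : ℤ) (W H r : ℕ) (q : ℤ) : Finset V :=
  Rc (x0 - r + q) (x0 + W + r - q) (y0 + q) (y0 + H - q)

/-- support of the test measure -/
noncomputable def supR (x0 y0 : ℤ) (W H r : ℕ) : Finset V :=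
  Rc (x0 + W + (r : ℤ) / 3 + 1) (x0 + W + 2 * (r : ℤ) / 3) (y0 + (H : ℤ) / 3 + 1)
    (y0 + 2 * (H : ℤ) / 3)

variable {x0 y0 : ℤ} {W H r : ℕ}

lemma Dq_mono {q q' : ℤ} (h : q ≤ q') : Dq x0 y0 W H r q' ⊆ Dq x0 y0 W H r q := by
  intro v hv
  rw [Dq, mem_Rc] at hv ⊢
  omega

lemma Dq_subset {q : ℤ} (h : 0 ≤ q) : Dq x0 y0 W H r q ⊆ DR x0 y0 W H r := by
  intro v hv
  rw [Dq, mem_Rc] at hv
  rw [DR, mem_Rc]
  omega

lemma nbr_Dq {q : ℤ} {v y : V} (hy : y ∈ Dq x0 y0 W H r q) (h : nn v y) :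
    v ∈ Dq x0 y0 W H r (q - 1) := by
  rw [Dq, mem_Rc] at hy ⊢
  rcases nn_iff.1 h with h3 | h3 | h3 | h3 <;>
  · rw [h3] at hy
    simp only [nE, nW, nN, nS] at hy
    omega

lemma card_supR (hr : 12 ≤ r) (hH : r ≤ H) :
    (r : ℝ) ^ 2 / 16 ≤ (supR x0 y0 W H r).card := by
  rw [supR, Rc, Finset.card_Icc_prod, Int.card_Icc, Int.card_Icc]
  dsimp only
  have h1 : (r : ℝ) / 4 ≤ ((x0 + W + 2 * (r : ℤ) / 3 + 1 - (x0 + W + (r : ℤ) / 3 + 1)).toNat : ℕ) := by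
    have h2 : ((r : ℤ)) ≤ 4 * ((x0 + W + 2 * (r : ℤ) / 3 + 1 - (x0 + W + (r : ℤ) / 3 + 1)).toNat : ℤ) := by
      omega
    have h3 : (r : ℝ) ≤ 4 * (((x0 + W + 2 * (r : ℤ) / 3 + 1 - (x0 + W + (r : ℤ) / 3 + 1)).toNat : ℕ) : ℝ) := by
      exact_mod_cast h2
    linarith
  have h4 : (r : ℝ) / 4 ≤ ((y0 + 2 * (H : ℤ) / 3 + 1 - (y0 + (H : ℤ) / 3 + 1)).toNat : ℕ) := by
    have h2 : ((r : ℤ)) ≤ 4 * ((y0 + 2 * (H : ℤ) / 3 + 1 - (y0 + (H : ℤ) / 3 + 1)).toNat : ℤ) := by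
      omega
    have h3 : (r : ℝ) ≤ 4 * (((y0 + 2 * (H : ℤ) / 3 + 1 - (y0 + (H : ℤ) / 3 + 1)).toNat : ℕ) : ℝ) := by
      exact_mod_cast h2
    linarith
  push_cast
  calc (r : ℝ) ^ 2 / 16 = (r / 4) * (r / 4) := by ring
    _ ≤ _ := mul_le_mul h1 h4 (by positivity) (Nat.cast_nonneg _)

/-- lower bound for the hitting probability of the column -/
lemma hit_col (A : ℕ) : ∃ c : ℝ, 0 < c ∧ ∀ (r : ℕ), 1000 ≤ r → ∀ (x0 y0 : ℤ) (W H : ℕ),
    r ≤ W → W ≤ A * r → r ≤ H → H ≤ A * r → ∀ (G : Finset V),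
    (∀ y : ℤ, y0 ≤ y → y ≤ y0 + H → ((x0, y) : V) ∈ G) → ∀ (q : ℤ), 0 ≤ q → 50 * q ≤ r →
    ∀ g ∈ supR x0 y0 W H r, g ∉ G → c ≤ ∑ y ∈ G, hm (Dq x0 y0 W H r q \ G) g y := by
  refine ⟨(1 / 2) * (1 / (4 * ((A : ℝ) + 2))) / Real.cosh (2 * Real.pi * ((A : ℝ) + 2)),
    by positivity, ?_⟩
  intro r hr x0 y0 W H hW hWA hH hHA G hG q hq0 hq g hg hgG
  have hg' := hg
  rw [supR, mem_Rc] at hg'
  have hWA' : (W : ℤ) ≤ A * r := by exact_mod_cast hWA
  have hHA' : (H : ℤ) ≤ A * r := by exact_mod_cast hHA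
  have hL : (2 : ℤ) ≤ W + r - q + 1 := by omega
  have hHH : (2 : ℤ) ≤ H - 2 * q + 2 := by omega
  have h1 := corridor_hit (W + r - q + 1) (H - 2 * q + 2) x0 (y0 + q - 1) hL hHH
    (Dq x0 y0 W H r q) G
    (by
      intro v hv
      rw [mem_Rc] at hv
      rw [Dq, mem_Rc]
      omega)
    (by
      intro y hy hy'
      exact hG y (by omega) (by omega))
    g (by
      rw [mem_Rc]
      omega) hgG
  refine le_trans ?_ h1
  have hrR : (1000 : ℝ) ≤ r := by exact_mod_cast hr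
  have hqR : 50 * (q : ℝ) ≤ r := by exact_mod_cast hq
  have hq0R : (0 : ℝ) ≤ q := by exact_mod_cast hq0
  have hWR : (r : ℝ) ≤ W := by exact_mod_cast hW
  have hHR : (r : ℝ) ≤ H := by exact_mod_cast hH
  have hWAR : (W : ℝ) ≤ A * r := by exact_mod_cast hWA
  have hA0 : (0 : ℝ) ≤ A := Nat.cast_nonneg A
  -- the vertical position
  have hy1 : (H : ℝ) - 2 * q + 2 ≤ 4 * ((g.2 : ℝ) - ((y0 + q - 1 : ℤ) : ℝ)) := by
    have h2 : (H : ℤ) - 2 * q + 2 ≤ 4 * (g.2 - (y0 + q - 1)) := by omega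
    have h3 : ((H : ℤ) - 2 * q + 2 : ℝ) ≤ 4 * (g.2 - ((y0 + q - 1 : ℤ) : ℝ)) := by
      exact_mod_cast h2
    push_cast at h3 ⊢
    linarith
  have hy2 : 4 * ((g.2 : ℝ) - ((y0 + q - 1 : ℤ) : ℝ)) ≤ 3 * ((H : ℝ) - 2 * q + 2) := by
    have h2 : 4 * (g.2 - (y0 + q - 1)) ≤ 3 * ((H : ℤ) - 2 * q + 2) := by omega
    have h3 : 4 * ((g.2 : ℝ) - ((y0 + q - 1 : ℤ) : ℝ)) ≤ 3 * (((H : ℤ) : ℝ) - 2 * q + 2) := by
      exact_mod_cast h2
    push_cast at h3 ⊢
    linarith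
  have hHpos : (0 : ℝ) < (H : ℝ) - 2 * q + 2 := by linarith
  have hcast1 : (((H : ℤ) - 2 * q + 2 : ℤ) : ℝ) = (H : ℝ) - 2 * q + 2 := by push_cast; ring
  have hcast2 : (((W : ℤ) + r - q + 1 : ℤ) : ℝ) = (W : ℝ) + r - q + 1 := by push_cast; ring
  rw [hcast1, hcast2]
  have hsin : (1 : ℝ) / 2 ≤ Real.sin (Real.pi * ((g.2 : ℝ) - ((y0 + q - 1 : ℤ) : ℝ)) /
      ((H : ℝ) - 2 * q + 2)) := by
    set t : ℝ := ((g.2 : ℝ) - ((y0 + q - 1 : ℤ) : ℝ)) / ((H : ℝ) - 2 * q + 2) with ht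
    have ht1 : 1 / 4 ≤ t := by
      rw [ht, le_div_iff₀ hHpos]
      linarith
    have ht2 : t ≤ 3 / 4 := by
      rw [ht, div_le_iff₀ hHpos]
      linarith
    have ht3 : Real.pi * ((g.2 : ℝ) - ((y0 + q - 1 : ℤ) : ℝ)) / ((H : ℝ) - 2 * q + 2) =
        Real.pi * t := by
      rw [ht]
      ring
    rw [ht3]
    have hpi := Real.pi_pos
    have h6 : Real.sin (Real.pi / 6) = 1 / 2 := Real.sin_pi_div_six
    rcases le_total t (1 / 2) with h7 | h7
    · rw [← h6]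
      apply Real.sin_le_sin_of_le_of_le_pi_div_two
      · linarith
      · nlinarith
      · nlinarith
    · rw [← Real.sin_pi_sub, ← h6]
      apply Real.sin_le_sin_of_le_of_le_pi_div_two
      · linarith
      · nlinarith
      · nlinarith
  have hx : 1 / (4 * ((A : ℝ) + 2)) ≤
      (((W : ℝ) + r - q + 1) - ((g.1 : ℝ) - x0)) / ((W : ℝ) + r - q + 1) := by
    have hLpos : (0 : ℝ) < (W : ℝ) + r - q + 1 := by linarith
    have h2 : (r : ℤ) ≤ 4 * ((W : ℤ) + r - q + 1 - (g.1 - x0)) := by omega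
    have h3 : (r : ℝ) ≤ 4 * (((W : ℝ) + r - q + 1) - ((g.1 : ℝ) - x0)) := by
      have h4 : (r : ℝ) ≤ 4 * ((((W : ℤ) : ℝ) + ((r : ℤ) : ℝ) - q + 1) - ((g.1 : ℝ) - x0)) := by
        exact_mod_cast h2
      push_cast at h4
      exact h4
    rw [div_le_div_iff₀ (by positivity) hLpos, one_mul]
    have h5 : (W : ℝ) + r - q + 1 ≤ (A + 2) * r := by nlinarith
    nlinarith
  have hcosh : Real.cosh (Real.pi * ((W : ℝ) + r - q + 1) / ((H : ℝ) - 2 * q + 2)) ≤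
      Real.cosh (2 * Real.pi * ((A : ℝ) + 2)) := by
    have hLpos : (0 : ℝ) < (W : ℝ) + r - q + 1 := by linarith
    have hpi := Real.pi_pos
    rw [Real.cosh_le_cosh, abs_of_nonneg (by positivity), abs_of_nonneg (by positivity),
      div_le_iff₀ hHpos]
    have h5 : (W : ℝ) + r - q + 1 ≤ (A + 2) * r := by nlinarith
    have h6 : (r : ℝ) ≤ 2 * ((H : ℝ) - 2 * q + 2) := by linarith
    have h7 : (W : ℝ) + r - q + 1 ≤ (A + 2) * (2 * ((H : ℝ) - 2 * q + 2)) :=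
      h5.trans (mul_le_mul_of_nonneg_left h6 (by linarith))
    calc Real.pi * ((W : ℝ) + r - q + 1) ≤ Real.pi * ((A + 2) * (2 * ((H : ℝ) - 2 * q + 2))) :=
          mul_le_mul_of_nonneg_left h7 hpi.le
      _ = 2 * Real.pi * ((A : ℝ) + 2) * ((H : ℝ) - 2 * q + 2) := by ring
  apply div_le_div₀ _ _ (Real.cosh_pos _) hcosh
  · exact mul_nonneg (le_trans (by norm_num) hsin) (le_trans (by positivity) hx)
  · exact mul_le_mul hsin hx (by positivity) (le_trans (by norm_num) hsin)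

/-- upper bound for the exit density -/
lemma exit_q (A : ℕ) : ∃ C : ℝ, 0 < C ∧ ∀ (r : ℕ), 1000 ≤ r → ∀ (x0 y0 : ℤ) (W H : ℕ),
    r ≤ W → W ≤ A * r → r ≤ H → H ≤ A * r → ∀ (G : Finset V) (q : ℤ), 0 ≤ q → 50 * q ≤ r →
    ∀ g ∈ supR x0 y0 W H r, ∀ z ∉ Dq x0 y0 W H r q,
      hm (Dq x0 y0 W H r q \ G) g z ≤ C / r := by
  obtain ⟨C, hC, h⟩ := exit_density_rect (3 * ((A : ℝ) + 2))
  refine ⟨3 * C, by positivity, ?_⟩
  intro r hr x0 y0 W H hW hWA hH hHA G q hq0 hq g hg z hz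
  rw [supR, mem_Rc] at hg
  have hrR : (1000 : ℝ) ≤ r := by exact_mod_cast hr
  have hqR : 50 * (q : ℝ) ≤ r := by exact_mod_cast hq
  have hq0R : (0 : ℝ) ≤ q := by exact_mod_cast hq0
  have hWAR : (W : ℝ) ≤ A * r := by exact_mod_cast hWA
  have hHAR : (H : ℝ) ≤ A * r := by exact_mod_cast hHA
  have hA0 : (0 : ℝ) ≤ A := Nat.cast_nonneg A
  have hr2 : (r : ℝ) ≤ 3 * (((r : ℤ) / 2 : ℤ) : ℝ) := by
    have : (r : ℤ) ≤ 3 * ((r : ℤ) / 2) := by omega
    exact_mod_cast this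
  have h1 : hm (Dq x0 y0 W H r q \ G) g z ≤ hm (Dq x0 y0 W H r q) g z :=
    hm_mono Finset.sdiff_subset g hz
  have h2 := h ((r : ℤ) / 2) (x0 - r + q) (x0 + W + r - q) (y0 + q) (y0 + H - q) g z
    (by omega) (by omega)
    (by
      push_cast
      nlinarith)
    (by omega)
    (by
      push_cast
      nlinarith)
    (by
      intro x' hx'
      rw [mem_Rc]
      have h3 : |g.1 - x'.1| ≤ dI g x' := le_max_left _ _
      have h4 : |g.2 - x'.2| ≤ dI g x' := le_max_right _ _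
      have h5 := abs_le.1 h3
      have h6 := abs_le.1 h4
      omega)
  refine h1.trans (h2.trans ?_)
  have hpos : (0 : ℝ) < (((r : ℤ) / 2 : ℤ) : ℝ) := by linarith
  rw [div_le_div_iff₀ hpos (by linarith)]
  nlinarith

/-- one radius -/
lemma avg_one {x0 y0 : ℤ} {W H r : ℕ} {G F : Finset V} {f : V → ℝ} {m M c K : ℝ} {q ρ : ℤ}
    (hq : 0 ≤ q) (hρ : ρ ≤ q - 1) (hm0 : 0 ≤ m) (hM : 0 ≤ M) (hK : 0 ≤ K) (hFG : F ⊆ G)
    (hSG : ∀ g ∈ supR x0 y0 W H r, g ∉ G) (hSD : supR x0 y0 W H r ⊆ Dq x0 y0 W H r q)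
    (hf : ∀ v ∈ DR x0 y0 W H r \ G, f v = av f v)
    (hvis : ∀ v ∈ G, (∃ y ∈ DR x0 y0 W H r \ G, nn v y) → v ∈ Dq x0 y0 W H r ρ →
      v ∈ F ∨ f v ≤ -m) (hfF : ∀ v ∈ F, f v ≤ M)
    (hhit : ∀ g ∈ supR x0 y0 W H r, c ≤ ∑ y ∈ G, hm (Dq x0 y0 W H r q \ G) g y)
    (hexit : ∀ g ∈ supR x0 y0 W H r, ∀ z ∉ Dq x0 y0 W H r q,
      hm (Dq x0 y0 W H r q \ G) g z ≤ K) :
    ∑ g ∈ supR x0 y0 W H r, f g ≤ (supR x0 y0 W H r).card * (-(c * m))
      + (m + M) * (∑ y ∈ DR x0 y0 W H r \ G, ∑ v ∈ F, hm (DR x0 y0 W H r \ G) y v)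
      + (supR x0 y0 W H r).card * (K * ∑ z ∈ ((Dq x0 y0 W H r ρ).filter fun z => z ∉ G).filter
          (fun z => z ∈ Dq x0 y0 W H r (q - 1) ∧ z ∉ Dq x0 y0 W H r q), max 0 (f z)) := by
  classical
  set E := Dq x0 y0 W H r q \ G with hE
  set T := ((Dq x0 y0 W H r ρ).filter fun z => z ∉ G).filter
    (fun z => z ∈ Dq x0 y0 W H r (q - 1) ∧ z ∉ Dq x0 y0 W H r q) with hT
  have hED : E ⊆ DR x0 y0 W H r \ G := Finset.sdiff_subset_sdiff (Dq_subset hq) (Finset.Subset.refl _)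
  have hfE : hx E f = f := hx_self fun x hx => hf x (hED hx)
  have hgE : ∀ g ∈ supR x0 y0 W H r, g ∈ E := fun g hg => Finset.mem_sdiff.2 ⟨hSD hg, hSG g hg⟩
  have hg1 : ∀ g ∈ supR x0 y0 W H r, f g ≤ -(c * m) + (m + M) * (∑ v ∈ F,
      hm (DR x0 y0 W H r \ G) g v) + K * ∑ z ∈ T, max 0 (f z) := by
    intro g hg
    have h1 : f g = ∑ z ∈ bd E, hm E g z * f z := by
      conv_lhs => rw [← hfE]
      exact hx_eq_sum (hgE g hg) f
    have h2 : ∀ z ∈ bd E, hm E g z * f z ≤ (if z ∈ G then hm E g z * (-m) else 0) +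
        (if z ∈ F then hm E g z * (m + M) else 0) + (if z ∈ T then K * max 0 (f z) else 0) := by
      intro z hz
      have hh0 := hm_nonneg E g z
      obtain ⟨y, hyE, hzy⟩ := exists_nn_of_mem_bd hz
      have hyE' := Finset.mem_sdiff.1 hyE
      have hzq : z ∈ Dq x0 y0 W H r (q - 1) := nbr_Dq hyE'.1 hzy
      have hT0 : 0 ≤ (if z ∈ T then K * max 0 (f z) else 0) := by
        split_ifs
        · exact mul_nonneg hK (le_max_left _ _)
        · exact le_rfl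
      by_cases hzG : z ∈ G
      · by_cases hzF : z ∈ F
        · rw [if_pos hzG, if_pos hzF]
          have h3 := mul_le_mul_of_nonneg_left (hfF z hzF) hh0
          nlinarith
        · rw [if_pos hzG, if_neg hzF]
          rcases hvis z hzG ⟨y, hED hyE, hzy⟩ (Dq_mono hρ hzq) with h3 | h3
          · exact absurd h3 hzF
          · have h4 := mul_le_mul_of_nonneg_left h3 hh0
            linarith
      · have hzF : z ∉ F := fun h => hzG (hFG h)
        have hzD : z ∉ Dq x0 y0 W H r q := fun h =>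
          not_mem_of_mem_bd hz (Finset.mem_sdiff.2 ⟨h, hzG⟩)
        have hzT : z ∈ T := by
          rw [hT, Finset.mem_filter, Finset.mem_filter]
          exact ⟨⟨Dq_mono hρ hzq, hzG⟩, hzq, hzD⟩
        rw [if_neg hzG, if_neg hzF, if_pos hzT]
        have h3 := hexit g hg z hzD
        have h4 : hm E g z * f z ≤ hm E g z * max 0 (f z) :=
          mul_le_mul_of_nonneg_left (le_max_right _ _) hh0
        have h5 : hm E g z * max 0 (f z) ≤ K * max 0 (f z) :=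
          mul_le_mul_of_nonneg_right h3 (le_max_left _ _)
        linarith
    have h3 : ∀ B : Finset V, ∑ z ∈ bd E, (if z ∈ B then hm E g z else 0) = ∑ z ∈ B, hm E g z := by
      intro B
      rw [Finset.sum_ite_mem]
      apply Finset.sum_subset Finset.inter_subset_right
      intro z hzB hz
      apply hm_eq_zero (hgE g hg)
      intro h4
      exact hz (Finset.mem_inter.2 ⟨h4, hzB⟩)
    have h4 : ∑ z ∈ bd E, (if z ∈ G then hm E g z * (-m) else 0) = (∑ z ∈ G, hm E g z) * (-m) := by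
      rw [← h3 G, Finset.sum_mul]
      apply Finset.sum_congr rfl
      intro z _
      split_ifs <;> ring
    have h5 : ∑ z ∈ bd E, (if z ∈ F then hm E g z * (m + M) else 0) =
        (∑ z ∈ F, hm E g z) * (m + M) := by
      rw [← h3 F, Finset.sum_mul]
      apply Finset.sum_congr rfl
      intro z _
      split_ifs <;> ring
    have h6 : ∑ z ∈ bd E, (if z ∈ T then K * max 0 (f z) else 0) ≤ K * ∑ z ∈ T, max 0 (f z) := by
      rw [Finset.sum_ite_mem, Finset.mul_sum]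
      exact Finset.sum_le_sum_of_subset_of_nonneg Finset.inter_subset_right
        fun z _ _ => mul_nonneg hK (le_max_left _ _)
    have h7 : ∑ z ∈ F, hm E g z ≤ ∑ v ∈ F, hm (DR x0 y0 W H r \ G) g v := by
      apply Finset.sum_le_sum
      intro v hv
      exact hm_mono hED g fun h => (Finset.mem_sdiff.1 h).2 (hFG hv)
    have h8 : c * m ≤ (∑ z ∈ G, hm E g z) * m := mul_le_mul_of_nonneg_right (hhit g hg) hm0
    have h9 : (∑ z ∈ F, hm E g z) * (m + M) ≤ (∑ v ∈ F, hm (DR x0 y0 W H r \ G) g v) * (m + M) :=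
      mul_le_mul_of_nonneg_right h7 (by linarith)
    calc f g = ∑ z ∈ bd E, hm E g z * f z := h1
      _ ≤ ∑ z ∈ bd E, ((if z ∈ G then hm E g z * (-m) else 0) +
          (if z ∈ F then hm E g z * (m + M) else 0) + (if z ∈ T then K * max 0 (f z) else 0)) :=
          Finset.sum_le_sum h2
      _ = (∑ z ∈ G, hm E g z) * (-m) + (∑ z ∈ F, hm E g z) * (m + M) +
          ∑ z ∈ bd E, (if z ∈ T then K * max 0 (f z) else 0) := by
          rw [Finset.sum_add_distrib, Finset.sum_add_distrib, h4, h5]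
      _ ≤ _ := by linarith
  calc ∑ g ∈ supR x0 y0 W H r, f g ≤ ∑ g ∈ supR x0 y0 W H r, (-(c * m) + (m + M) * (∑ v ∈ F,
      hm (DR x0 y0 W H r \ G) g v) + K * ∑ z ∈ T, max 0 (f z)) := Finset.sum_le_sum hg1
    _ = (supR x0 y0 W H r).card * (-(c * m)) + (m + M) * (∑ g ∈ supR x0 y0 W H r, ∑ v ∈ F,
        hm (DR x0 y0 W H r \ G) g v) + (supR x0 y0 W H r).card * (K * ∑ z ∈ T, max 0 (f z)) := by
        rw [Finset.sum_add_distrib, Finset.sum_add_distrib, Finset.sum_const, Finset.sum_const,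
          nsmul_eq_mul, nsmul_eq_mul, ← Finset.mul_sum]
    _ ≤ _ := by
        have h1 : ∑ g ∈ supR x0 y0 W H r, ∑ v ∈ F, hm (DR x0 y0 W H r \ G) g v ≤
            ∑ y ∈ DR x0 y0 W H r \ G, ∑ v ∈ F, hm (DR x0 y0 W H r \ G) y v :=
          Finset.sum_le_sum_of_subset_of_nonneg (fun g hg => hED (hgE g hg))
            fun y _ _ => Finset.sum_nonneg fun v _ => hm_nonneg _ _ _
        have h2 : (m + M) * (∑ g ∈ supR x0 y0 W H r, ∑ v ∈ F, hm (DR x0 y0 W H r \ G) g v) ≤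
            (m + M) * (∑ y ∈ DR x0 y0 W H r \ G, ∑ v ∈ F, hm (DR x0 y0 W H r \ G) y v) :=
          mul_le_mul_of_nonneg_left h1 (by linarith)
        linarith

/-- AVERAGING LEMMA -/
theorem avg (A : ℕ) : ∃ (c C : ℝ), 0 < c ∧ 0 < C ∧ ∀ (r : ℕ), 1000 ≤ r → ∀ (x0 y0 : ℤ) (W H : ℕ),
    r ≤ W → W ≤ A * r → r ≤ H → H ≤ A * r → ∀ (G F : Finset V) (f : V → ℝ) (m M : ℝ),
    0 ≤ m → 0 ≤ M → F ⊆ G → (∀ y : ℤ, y0 ≤ y → y ≤ y0 + H → ((x0, y) : V) ∈ G) →
    (∀ g ∈ supR x0 y0 W H r, g ∉ G) →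
    (∀ v ∈ DR x0 y0 W H r \ G, f v = av f v) →
    (∀ v ∈ G, (∃ y ∈ DR x0 y0 W H r \ G, nn v y) → v ∈ Dq x0 y0 W H r ((r / 100 : ℕ) : ℤ) →
      v ∈ F ∨ f v ≤ -m) → (∀ v ∈ F, f v ≤ M) →
    (∑ g ∈ supR x0 y0 W H r, f g) / (supR x0 y0 W H r).card ≤ -(c * m)
      + (m + M) * ((∑ y ∈ DR x0 y0 W H r \ G, ∑ v ∈ F, hm (DR x0 y0 W H r \ G) y v) /
        (supR x0 y0 W H r).card)
      + C * ((∑ z ∈ (Dq x0 y0 W H r ((r / 100 : ℕ) : ℤ)).filter (fun z => z ∉ G), max 0 (f z))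
        / (r : ℝ) ^ 2) := by
  classical
  obtain ⟨c, hc, hhit⟩ := hit_col A
  obtain ⟨C, hC, hexit⟩ := exit_q A
  refine ⟨c, 200 * C, hc, by positivity, ?_⟩
  intro r hr x0 y0 W H hW hWA hH hHA G F f m M hm0 hM hFG hcol hSG hf hvis hfF
  set n : ℕ := r / 100 with hn
  set S := supR x0 y0 W H r with hS
  set T := (Dq x0 y0 W H r (n : ℤ)).filter (fun z => z ∉ G) with hT
  have hrR : (1000 : ℝ) ≤ r := by exact_mod_cast hr
  have hr0 : (0 : ℝ) < r := by linarith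
  have hScard : (r : ℝ) ^ 2 / 16 ≤ S.card := card_supR (by omega) hH
  have hSpos : (0 : ℝ) < S.card := lt_of_lt_of_le (by positivity) hScard
  have hn0 : 0 < n := by omega
  have hn0R : (0 : ℝ) < n := by exact_mod_cast hn0
  have hnr : (r : ℝ) ≤ 200 * n := by
    have : r ≤ 200 * n := by omega
    exact_mod_cast this
  have key : ∀ j ∈ Finset.range n, ∑ g ∈ S, f g ≤ S.card * (-(c * m))
      + (m + M) * (∑ y ∈ DR x0 y0 W H r \ G, ∑ v ∈ F, hm (DR x0 y0 W H r \ G) y v)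
      + S.card * (C / r * ∑ z ∈ T.filter (fun z => z ∈ Dq x0 y0 W H r ((n : ℤ) + j) ∧
          z ∉ Dq x0 y0 W H r ((n : ℤ) + 1 + j)), max 0 (f z)) := by
    intro j hj
    have hj' := Finset.mem_range.1 hj
    have h1 := avg_one (x0 := x0) (y0 := y0) (W := W) (H := H) (r := r) (G := G) (F := F) (f := f)
      (m := m) (M := M) (c := c) (K := C / r) (q := (n : ℤ) + 1 + j) (ρ := n) (by omega) (by omega)
      hm0 hM (by positivity) hFG hSG
      (by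
        intro g hg
        rw [supR, mem_Rc] at hg
        rw [Dq, mem_Rc]
        omega) hf hvis hfF
      (fun g hg => hhit r hr x0 y0 W H hW hWA hH hHA G hcol _ (by omega) (by omega) g hg (hSG g hg))
      (fun g hg z hz => hexit r hr x0 y0 W H hW hWA hH hHA G _ (by omega) (by omega) g hg z hz)
    have h2 : (n : ℤ) + 1 + j - 1 = n + j := by ring
    rw [h2] at h1
    exact h1
  have hsum := Finset.sum_le_sum key
  rw [Finset.sum_const, Finset.card_range, nsmul_eq_mul, Finset.sum_add_distrib, Finset.sum_const,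
    Finset.card_range, nsmul_eq_mul, ← Finset.mul_sum, ← Finset.mul_sum] at hsum
  have hring : ∑ j ∈ Finset.range n, ∑ z ∈ T.filter (fun z => z ∈ Dq x0 y0 W H r ((n : ℤ) + j) ∧
          z ∉ Dq x0 y0 W H r ((n : ℤ) + 1 + j)), max 0 (f z) ≤ ∑ z ∈ T, max 0 (f z) := by
    simp_rw [Finset.sum_filter]
    rw [Finset.sum_comm]
    apply Finset.sum_le_sum
    intro z _
    by_cases hex : ∃ j ∈ Finset.range n, z ∈ Dq x0 y0 W H r ((n : ℤ) + j) ∧
        z ∉ Dq x0 y0 W H r ((n : ℤ) + 1 + j)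
    · obtain ⟨j, hj, hj1, hj2⟩ := hex
      rw [Finset.sum_eq_single j]
      · rw [if_pos ⟨hj1, hj2⟩]
      · intro i _ hij
        rw [if_neg]
        rintro ⟨hi1, hi2⟩
        rcases lt_or_gt_of_ne hij with h3 | h3
        · exact hi2 (Dq_mono (by omega) hj1)
        · exact hj2 (Dq_mono (by omega) hi1)
      · intro h
        exact absurd hj h
    · push Not at hex
      rw [Finset.sum_eq_zero]
      · exact le_max_left _ _
      · intro j hj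
        rw [if_neg]
        rintro ⟨h1, h2⟩
        exact h2 (hex j hj h1)
  have hCr : 0 ≤ C / r := by positivity
  have h1 : S.card * (C / r * ∑ j ∈ Finset.range n, ∑ z ∈ T.filter
      (fun z => z ∈ Dq x0 y0 W H r ((n : ℤ) + j) ∧ z ∉ Dq x0 y0 W H r ((n : ℤ) + 1 + j)),
      max 0 (f z)) ≤ S.card * (C / r * ∑ z ∈ T, max 0 (f z)) :=
    mul_le_mul_of_nonneg_left (mul_le_mul_of_nonneg_left hring hCr) hSpos.le
  set Φ := ∑ y ∈ DR x0 y0 W H r \ G, ∑ v ∈ F, hm (DR x0 y0 W H r \ G) y v with hΦ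
  set Sf := ∑ z ∈ T, max 0 (f z) with hSf
  have hS0 : 0 ≤ Sf := Finset.sum_nonneg fun z _ => le_max_left _ _
  have h2 : (n : ℝ) * ∑ g ∈ S, f g ≤ n * (S.card * (-(c * m)) + (m + M) * Φ) +
      S.card * (C / r * Sf) := by linarith
  have h3 : (∑ g ∈ S, f g) / S.card ≤ -(c * m) + (m + M) * (Φ / S.card) + C / r * Sf / n := by
    rw [div_le_iff₀ hSpos]
    have h4 : ((-(c * m) + (m + M) * (Φ / S.card) + C / r * Sf / n) * S.card) * n =
        n * (S.card * (-(c * m)) + (m + M) * Φ) + S.card * (C / r * Sf) := by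
      field_simp
    have h5 : (∑ g ∈ S, f g) * n ≤ ((-(c * m) + (m + M) * (Φ / S.card) + C / r * Sf / n)
        * S.card) * n := by
      rw [h4]
      linarith
    exact le_of_mul_le_mul_right h5 hn0R
  have h6 : C / r * Sf / n ≤ 200 * C * (Sf / (r : ℝ) ^ 2) := by
    rw [div_mul_eq_mul_div, div_div, mul_div_assoc', div_le_div_iff₀ (by positivity) (by positivity)]
    have h7 : C * Sf * (r : ℝ) ^ 2 ≤ C * Sf * (r * (200 * n)) := by
      apply mul_le_mul_of_nonneg_left _ (by positivity)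
      nlinarith
    nlinarith
  linarith

end GF.RR
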