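import Pool.Agent.Lib.MP_acf58e_gf.Defs

/-!
MP_acf58e_pr, module R (rectangle crossing), deterministic part: the breadth first search of the
open vertices.
-/

set_option autoImplicit false

open Set

namespace GF.RR

/-- the nearest neighbours of the points of a finite set -/
noncomputable def nbF (F : Finset V) : Finset V :=
  F.image nE ∪ F.image nW ∪ F.image nN ∪ F.image nS

/-- breadth first search of the open vertices (`0 ≤ X v`): `P` is the region which may be explored,
`S` the set revealed at time `0`; the value is (revealed set, open vertices revealed last) -/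
noncomputable def bfs (P S : Finset V) (X : V → ℝ) : ℕ → Finset V × Finset V
  | 0 => (S, S.filter fun v => 0 ≤ X v)
  | k + 1 => ((bfs P S X k).1 ∪ ((nbF (bfs P S X k).2 ∩ P) \ (bfs P S X k).1),
      ((nbF (bfs P S X k).2 ∩ P) \ (bfs P S X k).1).filter fun v => 0 ≤ X v)

lemma nn_comm {x y : V} : nn x y ↔ nn y x := by
  unfold nn
  rw [abs_sub_comm x.1, abs_sub_comm x.2]

lemma nn_iff {x y : V} : nn x y ↔ y = nE x ∨ y = nW x ∨ y = nN x ∨ y = nS x := by
  obtain ⟨a, b⟩ := x
  obtain ⟨c, d⟩ := y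
  simp only [nn, nE, nW, nN, nS, Prod.mk.injEq]
  constructor
  · intro h
    rcases abs_cases (a - c) with ⟨h1, h2⟩ | ⟨h1, h2⟩ <;>
    rcases abs_cases (b - d) with ⟨h3, h4⟩ | ⟨h3, h4⟩ <;> omega
  · rintro (⟨rfl, rfl⟩ | ⟨rfl, rfl⟩ | ⟨rfl, rfl⟩ | ⟨rfl, rfl⟩) <;> simp

lemma mem_nbF {F : Finset V} {y : V} : y ∈ nbF F ↔ ∃ x ∈ F, nn x y := by
  simp only [nbF, Finset.mem_union, Finset.mem_image]
  constructor
  · rintro (((⟨x, hx, rfl⟩ | ⟨x, hx, rfl⟩) | ⟨x, hx, rfl⟩) | ⟨x, hx, rfl⟩)
    · exact ⟨x, hx, nn_iff.2 (Or.inl rfl)⟩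
    · exact ⟨x, hx, nn_iff.2 (Or.inr (Or.inl rfl))⟩
    · exact ⟨x, hx, nn_iff.2 (Or.inr (Or.inr (Or.inl rfl)))⟩
    · exact ⟨x, hx, nn_iff.2 (Or.inr (Or.inr (Or.inr rfl)))⟩
  · rintro ⟨x, hx, h⟩
    rcases nn_iff.1 h with rfl | rfl | rfl | rfl
    · exact Or.inl (Or.inl (Or.inl ⟨x, hx, rfl⟩))
    · exact Or.inl (Or.inl (Or.inr ⟨x, hx, rfl⟩))
    · exact Or.inl (Or.inr ⟨x, hx, rfl⟩)
    · exact Or.inr ⟨x, hx, rfl⟩

variable {P S : Finset V} {X X' : V → ℝ}

lemma bfs_mono_succ (k : ℕ) : (bfs P S X k).1 ⊆ (bfs P S X (k + 1)).1 := by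
  rw [bfs]
  exact Finset.subset_union_left

lemma bfs_mono {j k : ℕ} (h : j ≤ k) : (bfs P S X j).1 ⊆ (bfs P S X k).1 := by
  induction h with
  | refl => exact Finset.Subset.refl _
  | step _ ih => exact ih.trans (bfs_mono_succ _)

lemma start_subset_bfs (k : ℕ) : S ⊆ (bfs P S X k).1 := bfs_mono (Nat.zero_le k)

lemma bfs_subset (k : ℕ) : (bfs P S X k).1 ⊆ S ∪ P := by
  induction k with
  | zero => exact Finset.subset_union_left
  | succ k ih =>
    rw [bfs]
    intro v hv
    rcases Finset.mem_union.1 hv with h | h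
    · exact ih h
    · exact Finset.mem_union_right _ (Finset.mem_inter.1 (Finset.mem_sdiff.1 h).1).2

lemma bfs_front_subset (k : ℕ) : (bfs P S X k).2 ⊆ (bfs P S X k).1 := by
  cases k with
  | zero => exact Finset.filter_subset _ _
  | succ k =>
    rw [bfs]
    exact (Finset.filter_subset _ _).trans Finset.subset_union_right

lemma bfs_front_open {k : ℕ} {v : V} (hv : v ∈ (bfs P S X k).2) : 0 ≤ X v := by
  cases k with
  | zero => exact (Finset.mem_filter.1 hv).2
  | succ k => exact (Finset.mem_filter.1 hv).2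

/-- The search depends only on the signs of the revealed vertices. -/
theorem bfs_congr {k : ℕ} (h : ∀ v ∈ (bfs P S X k).1, (0 ≤ X' v ↔ 0 ≤ X v)) :
    ∀ j ≤ k, bfs P S X' j = bfs P S X j := by
  intro j
  induction j with
  | zero =>
    intro _
    simp only [bfs]
    congr 1
    apply Finset.filter_congr
    intro v hv
    exact h v (start_subset_bfs k hv)
  | succ j ih =>
    intro hj
    have h1 := ih (Nat.le_of_succ_le hj)
    simp only [bfs, h1]
    congr 1
    apply Finset.filter_congr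
    intro v hv
    apply h v
    apply bfs_mono hj
    rw [bfs]
    exact Finset.mem_union_right _ hv

/-- The open revealed vertices are the frontier or have all their neighbours revealed. -/
theorem bfs_closure {k : ℕ} {v y : V} (hv : v ∈ (bfs P S X k).1) (h0 : 0 ≤ X v)
    (hF : v ∉ (bfs P S X k).2) (hy : y ∈ P) (hvy : nn v y) : y ∈ (bfs P S X k).1 := by
  induction k with
  | zero =>
    exact absurd (Finset.mem_filter.2 ⟨hv, h0⟩) hF
  | succ k ih =>
    by_cases h1 : v ∈ (bfs P S X k).1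
    · by_cases h2 : v ∈ (bfs P S X k).2
      · by_cases h3 : y ∈ (bfs P S X k).1
        · exact bfs_mono_succ k h3
        · rw [bfs]
          apply Finset.mem_union_right
          rw [Finset.mem_sdiff, Finset.mem_inter]
          exact ⟨⟨mem_nbF.2 ⟨v, h2, hvy⟩, hy⟩, h3⟩
      · exact bfs_mono_succ k (ih h1 h2)
    · exfalso
      apply hF
      rw [bfs] at hv ⊢
      rcases Finset.mem_union.1 hv with h | h
      · exact absurd h h1
      · exact Finset.mem_filter.2 ⟨h, h0⟩

/-- Newly revealed vertices are adjacent to the frontier. -/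
theorem bfs_new {k : ℕ} {v : V} (hv : v ∈ (bfs P S X (k + 1)).1) (h : v ∉ (bfs P S X k).1) :
    v ∈ P ∧ ∃ x ∈ (bfs P S X k).2, nn x v := by
  rw [bfs] at hv
  rcases Finset.mem_union.1 hv with h1 | h1
  · exact absurd h1 h
  · rw [Finset.mem_sdiff, Finset.mem_inter] at h1
    exact ⟨h1.1.2, mem_nbF.1 h1.1.1⟩

/-- The neighbours in the unexplored region of a frontier vertex are revealed next. -/
theorem bfs_next {k : ℕ} {v y : V} (hv : v ∈ (bfs P S X k).2)
    (hy : y ∈ P \ (bfs P S X k).1) (hvy : nn v y) :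
    y ∈ (bfs P S X (k + 1)).1 \ (bfs P S X k).1 := by
  rw [Finset.mem_sdiff] at hy ⊢
  refine ⟨?_, hy.2⟩
  rw [bfs]
  apply Finset.mem_union_right
  rw [Finset.mem_sdiff, Finset.mem_inter]
  exact ⟨⟨mem_nbF.2 ⟨v, hv, hvy⟩, hy.1⟩, hy.2⟩

/-- A frontier vertex is joined to the start by an open path of length `k` which stays in `P`
after time `0`, and whose vertex number `i` is in the frontier of time `i`. -/
theorem bfs_path {k : ℕ} {v : V} (hv : v ∈ (bfs P S X k).2) :
    ∃ p : ℕ → V, p k = v ∧ (∀ i ≤ k, p i ∈ (bfs P S X i).2) ∧ ∀ i < k, nn (p i) (p (i + 1)) := by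
  induction k generalizing v with
  | zero =>
    exact ⟨fun _ => v, rfl, fun i hi => by rw [Nat.le_zero.1 hi]; exact hv, fun i hi => absurd hi (Nat.not_lt_zero i)⟩
  | succ k ih =>
    have h1 : v ∈ ((nbF (bfs P S X k).2 ∩ P) \ (bfs P S X k).1) := by
      have h2 := hv
      rw [bfs] at h2
      exact (Finset.mem_filter.1 h2).1
    rw [Finset.mem_sdiff, Finset.mem_inter] at h1
    obtain ⟨x, hx, hxv⟩ := mem_nbF.1 h1.1.1
    obtain ⟨p, hp1, hp2, hp3⟩ := ih hx
    refine ⟨fun i => if i ≤ k then p i else v, ?_, ?_, ?_⟩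
    · simp
    · intro i hi
      by_cases hik : i ≤ k
      · simp only [hik, if_true]
        exact hp2 i hik
      · have : i = k + 1 := by omega
        subst this
        simpa using hv
    · intro i hi
      have hik : i ≤ k := Nat.lt_succ_iff.1 hi
      by_cases hik' : i + 1 ≤ k
      · simp only [hik, hik', if_true]
        exact hp3 i (by omega)
      · have : i = k := by omega
        subst this
        simp only [le_refl, if_true, hik', if_false]
        rw [hp1]
        exact hxv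

/-- Every revealed vertex is joined to the start by a path of revealed vertices. -/
theorem bfs_conn {k : ℕ} {v : V} (hv : v ∈ (bfs P S X k).1) :
    ∃ s ∈ S, ConnIn nn ((bfs P S X k).1 : Set V) s v := by
  induction k generalizing v with
  | zero => exact ⟨v, hv, hv, Relation.ReflTransGen.refl⟩
  | succ k ih =>
    have mono : ∀ s w, ConnIn nn ((bfs P S X k).1 : Set V) s w →
        ConnIn nn ((bfs P S X (k + 1)).1 : Set V) s w := by
      rintro s w ⟨h1, h2⟩
      refine ⟨bfs_mono_succ k h1, ?_⟩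
      exact Relation.ReflTransGen.mono (fun a b hab => ⟨hab.1, bfs_mono_succ k hab.2⟩) _ _ h2
    by_cases h : v ∈ (bfs P S X k).1
    · obtain ⟨s, hs, hc⟩ := ih h
      exact ⟨s, hs, mono s v hc⟩
    · obtain ⟨hP, x, hx, hxv⟩ := bfs_new hv h
      obtain ⟨s, hs, hc⟩ := ih (bfs_front_subset k hx)
      obtain ⟨h1, h2⟩ := mono s x hc
      exact ⟨s, hs, h1, h2.tail ⟨hxv, hv⟩⟩

end GF.RR
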