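import Pool.Agent.Lib.MP_acf58e_gf.X4sup
import Pool.Agent.Lib.MP_acf58e_gf.X0
import Pool.Agent.Lib.MP_acf58e_gf.G1

/-! supremum of the harmonic extension over the deep points -/

open MeasureTheory Set ProbabilityTheory
open scoped ENNReal

namespace GF

private theorem memQ {z x : V} {r : ℤ} : x ∈ Q z r ↔ (z.1 - r ≤ x.1 ∧ z.2 - r ≤ x.2) ∧
    (x.1 ≤ z.1 + r ∧ x.2 ≤ z.2 + r) := by
  unfold Q
  rw [Finset.mem_Icc, Prod.le_def, Prod.le_def]

theorem net_hx (A : ℕ) (δ : ℝ) (hδ : 0 < δ) (hδ' : δ ≤ 1) : ∃ C : ℝ, 0 < C ∧ ∀ (r : ℕ), 2 ≤ δ * r →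
    ∀ (D Damb : Finset V) (z : V), D ⊆ Damb → Damb ⊆ Q z (A * r) → ∀ mu : ℝ,
    ∫⁻ X, (⨆ x : V, ⨆ (_ : Deep D x (δ * r)), ENNReal.ofReal |hx D X x - mu|)
      ∂(gam Damb (fun _ => mu)) ≤ ENNReal.ofReal C := by
  classical
  obtain ⟨C1, hC1, h1⟩ := X4sup A
  refine ⟨(16 * A / δ + 2) ^ 2 * (C1 * Real.sqrt (1 + Real.log (4 / δ))), ?_, ?_⟩
  · have h2 : 0 ≤ Real.log (4 / δ) := by
      apply Real.log_nonneg
      rw [le_div_iff₀ hδ]
      linarith
    have h3 : 0 < Real.sqrt (1 + Real.log (4 / δ)) := Real.sqrt_pos.2 (by linarith)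
    positivity
  intro r hr D Damb z hD hQ mu
  have hr0 : (0 : ℝ) < r := by
    by_contra hcon
    have : (r : ℝ) ≤ 0 := not_lt.1 hcon
    nlinarith
  set ρ : ℕ := ⌊δ * r / 2⌋₊ with hρ
  have hx1 : 1 ≤ δ * r / 2 := by linarith
  have hρ1 : 1 ≤ ρ := Nat.one_le_floor_iff _ |>.2 hx1
  have hρle : (ρ : ℝ) ≤ δ * r / 2 := Nat.floor_le (by linarith)
  have hρge : δ * r / 4 ≤ ρ := by
    have := Nat.lt_floor_add_one (δ * r / 2)
    rw [← hρ] at this
    have h5 : (1 : ℝ) ≤ ρ := by exact_mod_cast hρ1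
    linarith
  have hρr : ρ ≤ r := by
    have : (ρ : ℝ) ≤ r := by nlinarith
    exact_mod_cast this
  have hρpos : (0 : ℝ) < ρ := by exact_mod_cast hρ1
  -- the cells
  set q : ℕ := ρ / 2 with hq
  let cell : V → V := fun x => (x.1 / (q + 1 : ℤ), x.2 / (q + 1 : ℤ))
  set S : Finset V := D.filter (fun y => Deep D y (δ * r)) with hS
  set I : Finset V := S.image cell with hI
  have hdeepD : ∀ y, Deep D y (δ * r) → Q y ρ ⊆ D := fun y hy => hy ρ (by linarith)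
  have hself : ∀ (y : V) (k : ℕ), y ∈ Q y k := by
    intro y k
    rw [memQ]
    omega
  have hmemS : ∀ y, Deep D y (δ * r) → y ∈ S := fun y hy =>
    Finset.mem_filter.2 ⟨hdeepD y hy (hself y ρ), hy⟩
  have hrep : ∀ i : V, ∃ y : V, i ∈ I → (y ∈ S ∧ cell y = i) := by
    intro i
    by_cases hi : i ∈ I
    · obtain ⟨y, hy, hyi⟩ := Finset.mem_image.1 hi
      exact ⟨y, fun _ => ⟨hy, hyi⟩⟩
    · exact ⟨i, fun h => absurd h hi⟩
  choose rep hrep using hrep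
  have hcellQ : ∀ x y : V, cell x = cell y → x ∈ Q y q := by
    intro x y hxy
    have e1 : x.1 / (q + 1 : ℤ) = y.1 / (q + 1 : ℤ) := congrArg Prod.fst hxy
    have e2 : x.2 / (q + 1 : ℤ) = y.2 / (q + 1 : ℤ) := congrArg Prod.snd hxy
    have hq0 : (0 : ℤ) < q + 1 := by positivity
    have f1 := Int.emod_add_mul_ediv x.1 (q + 1)
    have f2 := Int.emod_add_mul_ediv y.1 (q + 1)
    have f3 := Int.emod_add_mul_ediv x.2 (q + 1)
    have f4 := Int.emod_add_mul_ediv y.2 (q + 1)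
    have g1 := Int.emod_nonneg x.1 hq0.ne'
    have g2 := Int.emod_nonneg y.1 hq0.ne'
    have g3 := Int.emod_nonneg x.2 hq0.ne'
    have g4 := Int.emod_nonneg y.2 hq0.ne'
    have k1 := Int.emod_lt_of_pos x.1 hq0
    have k2 := Int.emod_lt_of_pos y.1 hq0
    have k3 := Int.emod_lt_of_pos x.2 hq0
    have k4 := Int.emod_lt_of_pos y.2 hq0
    rw [e1] at f1
    rw [e2] at f3
    rw [memQ]
    omega
  -- pointwise bound
  have hpt : ∀ X : V → ℝ, (⨆ x : V, ⨆ (_ : Deep D x (δ * r)), ENNReal.ofReal |hx D X x - mu|) ≤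
      ∑ i ∈ I, ⨆ x ∈ Q (rep i) (ρ / 2 : ℕ), ENNReal.ofReal |hx D X x - mu| := by
    intro X
    refine iSup₂_le fun x hx' => ?_
    have hxS := hmemS x hx'
    have hi : cell x ∈ I := Finset.mem_image_of_mem _ hxS
    have h2 := hrep (cell x) hi
    refine le_trans ?_ (Finset.single_le_sum
      (f := fun i => ⨆ x ∈ Q (rep i) (ρ / 2 : ℕ), ENNReal.ofReal |hx D X x - mu|) (fun _ _ => zero_le) hi)
    exact le_iSup₂_of_le x (hcellQ _ _ h2.2.symm) le_rfl
  -- number of cells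
  have hcard : (I.card : ℝ) ≤ (16 * A / δ + 2) ^ 2 := by
    have hq0 : (0 : ℤ) < q + 1 := by positivity
    have hsub : I ⊆ Finset.Icc (((z.1 - A * r) / (q + 1 : ℤ), (z.2 - A * r) / (q + 1 : ℤ)) : V)
        ((z.1 + A * r) / (q + 1 : ℤ), (z.2 + A * r) / (q + 1 : ℤ)) := by
      intro i hi
      obtain ⟨y, hy, rfl⟩ := Finset.mem_image.1 hi
      have hyQ := memQ.1 (hQ (hD (Finset.mem_filter.1 hy).1))
      rw [Finset.mem_Icc, Prod.le_def, Prod.le_def]
      exact ⟨⟨Int.ediv_le_ediv hq0 hyQ.1.1, Int.ediv_le_ediv hq0 hyQ.1.2⟩,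
        ⟨Int.ediv_le_ediv hq0 hyQ.2.1, Int.ediv_le_ediv hq0 hyQ.2.2⟩⟩
    have hnum : ∀ w : ℤ, ((((w + A * r) / (q + 1 : ℤ) + 1 - (w - A * r) / (q + 1 : ℤ)).toNat : ℕ) : ℝ) ≤
        16 * A / δ + 2 := by
      intro w
      have e1 := Int.emod_add_mul_ediv (w + A * r) (q + 1)
      have e2 := Int.emod_add_mul_ediv (w - A * r) (q + 1)
      have g1 := Int.emod_nonneg (w + A * r) hq0.ne'
      have k1 := Int.emod_lt_of_pos (w - A * r) hq0
      have hle : (w - A * r) / (q + 1 : ℤ) ≤ (w + A * r) / (q + 1 : ℤ) := by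
        apply Int.ediv_le_ediv hq0
        have : (0 : ℤ) ≤ A * r := by positivity
        linarith
      have hcast : ((((w + A * r) / (q + 1 : ℤ) + 1 - (w - A * r) / (q + 1 : ℤ)).toNat : ℕ) : ℝ) =
          (((w + A * r) / (q + 1 : ℤ) + 1 - (w - A * r) / (q + 1 : ℤ) : ℤ) : ℝ) := by
        rw [← Int.cast_natCast, Int.toNat_of_nonneg (by omega)]
      rw [hcast]
      -- (q+1) * (u - v) ≤ 2 A r + q + 1
      have h6 : ((q : ℤ) + 1) * ((w + A * r) / (q + 1 : ℤ) - (w - A * r) / (q + 1 : ℤ)) ≤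
          2 * (A * r) + (q + 1) := by
        nlinarith
      have h7 : ((q : ℝ) + 1) * ((((w + A * r) / (q + 1 : ℤ) - (w - A * r) / (q + 1 : ℤ)) : ℤ) : ℝ) ≤
          2 * (A * r) + (q + 1) := by exact_mod_cast h6
      have hq2 : (δ * r / 8 : ℝ) ≤ q + 1 := by
        have : (ρ : ℝ) ≤ 2 * (q + 1) := by
          have : ρ ≤ 2 * (q + 1) := by omega
          exact_mod_cast this
        linarith
      have hq3 : (0 : ℝ) < q + 1 := by positivity
      have h8 : ((((w + A * r) / (q + 1 : ℤ) - (w - A * r) / (q + 1 : ℤ)) : ℤ) : ℝ) ≤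
          2 * (A * r) / (q + 1) + 1 := by
        rw [← sub_nonneg]
        have h9 : 0 ≤ (2 * (A * r) + (q + 1) - ((q : ℝ) + 1) *
            ((((w + A * r) / (q + 1 : ℤ) - (w - A * r) / (q + 1 : ℤ)) : ℤ) : ℝ)) / (q + 1) := by
          apply div_nonneg (by linarith) hq3.le
        have h10 : (2 * (A * r) + (q + 1) - ((q : ℝ) + 1) *
            ((((w + A * r) / (q + 1 : ℤ) - (w - A * r) / (q + 1 : ℤ)) : ℤ) : ℝ)) / (q + 1) =
            2 * (A * r) / (q + 1) + 1 -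
            ((((w + A * r) / (q + 1 : ℤ) - (w - A * r) / (q + 1 : ℤ)) : ℤ) : ℝ) := by
          field_simp
        rw [h10] at h9
        exact h9
      have h11 : 2 * ((A : ℝ) * r) / (q + 1) ≤ 16 * A / δ := by
        rw [div_le_div_iff₀ hq3 hδ]
        have hA : (0 : ℝ) ≤ A := Nat.cast_nonneg A
        nlinarith
      push_cast at h8 ⊢
      linarith
    have hc := Finset.card_le_card hsub
    have hc2 : (I.card : ℝ) ≤ ((Finset.Icc (((z.1 - A * r) / (q + 1 : ℤ), (z.2 - A * r) / (q + 1 : ℤ)) : V)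
        ((z.1 + A * r) / (q + 1 : ℤ), (z.2 + A * r) / (q + 1 : ℤ))).card : ℝ) := by exact_mod_cast hc
    refine hc2.trans ?_
    rw [← Finset.Icc_product_Icc, Finset.card_product, Int.card_Icc, Int.card_Icc]
    push_cast
    rw [sq]
    exact mul_le_mul (hnum z.1) (hnum z.2) (Nat.cast_nonneg _) (by positivity)
  have hterm : ∀ i ∈ I, ∫⁻ X, (⨆ x ∈ Q (rep i) (ρ / 2 : ℕ), ENNReal.ofReal |hx D X x - mu|)
      ∂(gam Damb (fun _ => mu)) ≤ ENNReal.ofReal (C1 * Real.sqrt (1 + Real.log (4 / δ))) := by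
    intro i hi
    have h2 := hrep i hi
    refine (h1 r ρ hρ1 hρr D Damb z (rep i) hD hQ (hdeepD _ (Finset.mem_filter.1 h2.1).2) mu).trans ?_
    apply ENNReal.ofReal_le_ofReal
    have h3 : (r : ℝ) / ρ ≤ 4 / δ := by
      rw [div_le_div_iff₀ hρpos hδ]
      linarith
    have h4 : Real.log (r / ρ) ≤ Real.log (4 / δ) := Real.log_le_log (by positivity) h3
    have h5 : Real.sqrt (1 + Real.log (r / ρ)) ≤ Real.sqrt (1 + Real.log (4 / δ)) :=
      Real.sqrt_le_sqrt (by linarith)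
    exact mul_le_mul_of_nonneg_left h5 hC1.le
  calc ∫⁻ X, (⨆ x : V, ⨆ (_ : Deep D x (δ * r)), ENNReal.ofReal |hx D X x - mu|)
        ∂(gam Damb (fun _ => mu))
      ≤ ∫⁻ X, (∑ i ∈ I, ⨆ x ∈ Q (rep i) (ρ / 2 : ℕ), ENNReal.ofReal |hx D X x - mu|)
        ∂(gam Damb (fun _ => mu)) := lintegral_mono hpt
    _ = ∑ i ∈ I, ∫⁻ X, (⨆ x ∈ Q (rep i) (ρ / 2 : ℕ), ENNReal.ofReal |hx D X x - mu|)
        ∂(gam Damb (fun _ => mu)) := by
        rw [lintegral_finsetSum]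
        intro i _
        refine Measurable.iSup fun x => Measurable.iSup fun _ => ?_
        exact ENNReal.measurable_ofReal.comp (((measurable_hx D x).sub_const mu).abs)
    _ ≤ ∑ _i ∈ I, ENNReal.ofReal (C1 * Real.sqrt (1 + Real.log (4 / δ))) := Finset.sum_le_sum hterm
    _ = I.card * ENNReal.ofReal (C1 * Real.sqrt (1 + Real.log (4 / δ))) := by
        rw [Finset.sum_const, nsmul_eq_mul]
    _ ≤ ENNReal.ofReal ((16 * A / δ + 2) ^ 2 * (C1 * Real.sqrt (1 + Real.log (4 / δ)))) := by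
        rw [ENNReal.ofReal_mul (p := (16 * A / δ + 2) ^ 2) (by positivity)]
        have hc3 : (I.card : ℝ≥0∞) ≤ ENNReal.ofReal ((16 * A / δ + 2) ^ 2) := by
          rw [← ENNReal.ofReal_natCast]
          exact ENNReal.ofReal_le_ofReal hcard
        exact mul_le_mul' hc3 (le_refl _)

end GF
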