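import Pool.Agent.Lib.MP_acf58e_gf.RCa
import Pool.Agent.Lib.MP_acf58e_gf.RNet
import Pool.Agent.Lib.MP_acf58e_gf.TBase

/-!
MP_acf58e_pr, module R: uniform bound for the harmonic extension in the inner rectangle.
-/

set_option autoImplicit false

open MeasureTheory Set
open scoped ENNReal

namespace GF.RR

/-- With ρ = r / 100 ≥ 10 the inner rectangle Dq ρ consists of deep points of DR: use `net_hx`
and Markov. -/
theorem rc_net (A : ℕ) : ∃ C : ℝ, 0 < C ∧ ∀ (r : ℕ), 1000 ≤ r → ∀ (x0 y0 : ℤ) (W H : ℕ),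
    W ≤ A * r → H ≤ A * r → ∀ (Damb : Finset V) (z : V) (a : ℝ), DR x0 y0 W H r ⊆ Damb →
    Damb ⊆ Q z (A * r) → 0 < a →
    gam Damb (fun _ => a) {X | ∃ v ∈ Dq x0 y0 W H r ((r / 100 : ℕ) : ℤ),
      a / 2 ≤ |hx (DR x0 y0 W H r) X v - a|} ≤ ENNReal.ofReal (C / a) := by
  obtain ⟨C, hC, h⟩ := net_hx A (1 / 100) (by norm_num) (by norm_num)
  refine ⟨2 * C, by linarith, ?_⟩
  intro r hr x0 y0 W H _ _ Damb z a hD hQ ha
  have hrR : (1000 : ℝ) ≤ r := by exact_mod_cast hr
  have h1 := h r (by linarith) (DR x0 y0 W H r) Damb z hD hQ a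
  have hF : Measurable (fun X : V → ℝ => ⨆ x : V, ⨆ (_ : Deep (DR x0 y0 W H r) x (1 / 100 * r)),
      ENNReal.ofReal |hx (DR x0 y0 W H r) X x - a|) := by
    refine Measurable.iSup fun x => Measurable.iSup fun _ => ?_
    exact ENNReal.measurable_ofReal.comp (((measurable_hx _ x).sub_const a).abs)
  have h2 := markov hF (half_pos ha) h1
  refine (measure_mono ?_).trans (h2.trans (le_of_eq ?_))
  · rintro X ⟨v, hv, hva⟩
    have hdeep : Deep (DR x0 y0 W H r) v (1 / 100 * r) := by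
      intro k hk y hy
      have hk' : k ≤ r / 100 := by
        rw [Nat.le_div_iff_mul_le (by norm_num)]
        have h3 : (k : ℝ) * 100 ≤ r := by linarith
        exact_mod_cast h3
      unfold Dq at hv
      rw [TT.mem_Rc] at hv
      unfold Q at hy
      rw [Finset.mem_Icc, Prod.le_def, Prod.le_def] at hy
      simp only at hy
      unfold DR
      rw [TT.mem_Rc]
      obtain ⟨⟨y1, y2⟩, y3, y4⟩ := hy
      obtain ⟨v1, v2, v3, v4⟩ := hv
      have hk2 : (k : ℤ) ≤ ((r / 100 : ℕ) : ℤ) := by exact_mod_cast hk'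
      refine ⟨by linarith, by linarith, by linarith, by linarith⟩
    show ENNReal.ofReal (a / 2) ≤ ⨆ x : V, ⨆ (_ : Deep (DR x0 y0 W H r) x (1 / 100 * r)),
      ENNReal.ofReal |hx (DR x0 y0 W H r) X x - a|
    exact le_iSup₂_of_le v hdeep (ENNReal.ofReal_le_ofReal hva)
  · congr 1
    field_simp

end GF.RR
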