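import Pool.Agent.Lib.MP_acf58e_gf.G0b
import Pool.Agent.Lib.MP_acf58e_gf.RBfs

/-!
MP_acf58e_pr, module R, the potential lemma.
-/

set_option autoImplicit false

open Set

namespace GF.RR

/-- total mass of the Green function -/
noncomputable def gsum (D : Finset V) : ℝ := ∑ x ∈ D, ∑ y ∈ D, gr D x y

lemma gsum_nonneg (D : Finset V) : 0 ≤ gsum D :=
  Finset.sum_nonneg fun x _ => Finset.sum_nonneg fun y _ => gr_nonneg D x y

lemma gr_diff_sdiff {D E : Finset V} {x : V} (hx : x ∈ D) (y : V) :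
    gr D x y - gr (D \ E) x y = ∑ z ∈ E, hm (D \ E) x z * gr D z y := by
  classical
  by_cases hxE : x ∈ E
  · have h1 : x ∉ D \ E := fun h => (Finset.mem_sdiff.1 h).2 hxE
    rw [gr_off_left h1, sub_zero]
    rw [Finset.sum_eq_single x]
    · rw [hm_off h1, if_pos rfl, one_mul]
    · intro z _ hz
      rw [hm_off h1, if_neg (Ne.symm hz), zero_mul]
    · intro h
      exact absurd hxE h
  · have h1 : x ∈ D \ E := Finset.mem_sdiff.2 ⟨hx, hxE⟩
    rw [gr_diff Finset.sdiff_subset h1 y]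
    have h2 : ∀ z ∈ bd (D \ E) ∪ E, z ∉ bd (D \ E) → hm (D \ E) x z * gr D z y = 0 := by
      intro z _ hz
      rw [hm_eq_zero h1 hz, zero_mul]
    have h3 : ∀ z ∈ bd (D \ E) ∪ E, z ∉ E → hm (D \ E) x z * gr D z y = 0 := by
      intro z hz hzE
      rcases Finset.mem_union.1 hz with h | h
      · have h4 : z ∉ D := fun h5 => not_mem_of_mem_bd h (Finset.mem_sdiff.2 ⟨h5, hzE⟩)
        rw [gr_off_left h4, mul_zero]
      · exact absurd h hzE
    rw [Finset.sum_subset Finset.subset_union_left h2,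
      Finset.sum_subset (Finset.subset_union_right (s₁ := bd (D \ E))) h3]

lemma hm_sum_le {D : Finset V} {x : V} (hx : x ∈ D) (F : Finset V) :
    ∑ v ∈ F, hm D x v ≤ 1 := by
  classical
  rw [← hm_sum hx]
  have h1 : ∑ v ∈ F, hm D x v = ∑ v ∈ F ∩ bd D, hm D x v := by
    symm
    apply Finset.sum_subset Finset.inter_subset_left
    intro v hv h
    apply hm_eq_zero hx
    intro h2
    exact h (Finset.mem_inter.2 ⟨hv, h2⟩)
  rw [h1]
  exact Finset.sum_le_sum_of_subset_of_nonneg Finset.inter_subset_right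
    fun v _ _ => hm_nonneg D x v

lemma exists_nn_of_mem_bd {D : Finset V} {z : V} (hz : z ∈ bd D) : ∃ x ∈ D, nn z x := by
  obtain ⟨-, h⟩ := mem_bd_iff.1 hz
  rcases h with h | h | h | h
  · exact ⟨_, h, nn_iff.2 (Or.inl rfl)⟩
  · exact ⟨_, h, nn_iff.2 (Or.inr (Or.inl rfl))⟩
  · exact ⟨_, h, nn_iff.2 (Or.inr (Or.inr (Or.inl rfl)))⟩
  · exact ⟨_, h, nn_iff.2 (Or.inr (Or.inr (Or.inr rfl)))⟩

/-- The potential lemma for one step. -/
theorem gsum_step {D E F : Finset V} (hE : E ⊆ D)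
    (hFE : ∀ v ∈ F, ∀ y ∈ D, nn v y → y ∈ E) :
    (∑ y ∈ D, ∑ v ∈ F, hm D y v) ^ 2 ≤ 4 * E.card * (gsum D - gsum (D \ E)) := by
  classical
  set ν : V → ℝ := fun e => ∑ x ∈ D, hm (D \ E) x e with hν
  have hν0 : ∀ e, 0 ≤ ν e := fun e => Finset.sum_nonneg fun x _ => hm_nonneg _ _ _
  -- the formula for the difference
  have h1 : gsum (D \ E) = ∑ x ∈ D, ∑ y ∈ D, gr (D \ E) x y := by
    rw [gsum]
    have h2 : ∀ x ∈ D, x ∉ D \ E → ∑ y ∈ D, gr (D \ E) x y = 0 := by
      intro x _ hx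
      apply Finset.sum_eq_zero
      intro y _
      exact gr_off_left hx
    rw [← Finset.sum_subset Finset.sdiff_subset h2]
    apply Finset.sum_congr rfl
    intro x _
    apply Finset.sum_subset Finset.sdiff_subset
    intro y _ hy
    exact gr_off_right hy
  have h2 : gsum D - gsum (D \ E) = ∑ z ∈ E, ∑ w ∈ E, ν z * ν w * gr D w z := by
    rw [h1, gsum, ← Finset.sum_sub_distrib]
    have h3 : ∀ x ∈ D, (∑ y ∈ D, gr D x y - ∑ y ∈ D, gr (D \ E) x y) =
        ∑ y ∈ D, ∑ z ∈ E, ∑ w ∈ E, hm (D \ E) x z * hm (D \ E) y w * gr D w z := by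
      intro x hx
      rw [← Finset.sum_sub_distrib]
      apply Finset.sum_congr rfl
      intro y hy
      rw [gr_diff_sdiff hx y]
      apply Finset.sum_congr rfl
      intro z hz
      have h4 := gr_diff_sdiff (E := E) hy z
      rw [gr_off_right (D := D \ E) (x := y) (y := z)
        (fun h => (Finset.mem_sdiff.1 h).2 hz), sub_zero] at h4
      rw [gr_symm D z y, h4, Finset.mul_sum]
      apply Finset.sum_congr rfl
      intro w _
      ring
    rw [Finset.sum_congr rfl h3]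
    have h5 : ∑ x ∈ D, ∑ y ∈ D, ∑ z ∈ E, ∑ w ∈ E,
        hm (D \ E) x z * hm (D \ E) y w * gr D w z =
        ∑ z ∈ E, ∑ w ∈ E, ∑ x ∈ D, ∑ y ∈ D,
          hm (D \ E) x z * hm (D \ E) y w * gr D w z := by
      have h6 : ∀ x ∈ D, ∑ y ∈ D, ∑ z ∈ E, ∑ w ∈ E,
          hm (D \ E) x z * hm (D \ E) y w * gr D w z = ∑ z ∈ E, ∑ w ∈ E, ∑ y ∈ D,
          hm (D \ E) x z * hm (D \ E) y w * gr D w z := by
        intro x _
        rw [Finset.sum_comm]
        apply Finset.sum_congr rfl
        intro z _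
        rw [Finset.sum_comm]
      rw [Finset.sum_congr rfl h6, Finset.sum_comm]
      apply Finset.sum_congr rfl
      intro z _
      rw [Finset.sum_comm]
    rw [h5]
    apply Finset.sum_congr rfl
    intro z _
    apply Finset.sum_congr rfl
    intro w _
    rw [hν, Finset.sum_mul_sum, Finset.sum_mul]
    apply Finset.sum_congr rfl
    intro x _
    rw [Finset.sum_mul]
  have h3 : (1 / 4) * ∑ z ∈ E, ν z ^ 2 ≤ gsum D - gsum (D \ E) := by
    rw [h2, Finset.mul_sum]
    apply Finset.sum_le_sum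
    intro z hz
    have h4 : ν z * ν z * gr D z z ≤ ∑ w ∈ E, ν z * ν w * gr D w z :=
      Finset.single_le_sum (f := fun w => ν z * ν w * gr D w z)
        (fun w _ => mul_nonneg (mul_nonneg (hν0 z) (hν0 w)) (gr_nonneg _ _ _)) hz
    refine le_trans ?_ h4
    have h5 := gr_diag_ge (hE hz)
    nlinarith [mul_nonneg (mul_self_nonneg (ν z)) (sub_nonneg.2 h5)]
  have h4 : (∑ z ∈ E, ν z) ^ 2 ≤ E.card * ∑ z ∈ E, ν z ^ 2 := sq_sum_le_card_mul_sum_sq
  have h5 : ∑ y ∈ D, ∑ v ∈ F, hm D y v ≤ ∑ z ∈ E, ν z := by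
    have h50 : ∑ z ∈ E, ν z = ∑ y ∈ D, ∑ z ∈ E, hm (D \ E) y z := by
      rw [hν, Finset.sum_comm]
    rw [h50]
    apply Finset.sum_le_sum
    intro y hy
    by_cases hyE : y ∈ E
    · refine (hm_sum_le hy F).trans ?_
      have h6 : y ∉ D \ E := fun h => (Finset.mem_sdiff.1 h).2 hyE
      have h7 : hm (D \ E) y y ≤ ∑ z ∈ E, hm (D \ E) y z :=
        Finset.single_le_sum (f := fun z => hm (D \ E) y z) (fun z _ => hm_nonneg _ _ _) hyE
      rw [hm_off h6, if_pos rfl] at h7
      exact h7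
    · have h6 : y ∈ D \ E := Finset.mem_sdiff.2 ⟨hy, hyE⟩
      have h7 : ∑ v ∈ F, hm D y v =
          ∑ z ∈ bd (D \ E), hm (D \ E) y z * ∑ v ∈ F, hm D z v := by
        rw [Finset.sum_congr rfl fun v _ => hm_markov (D := D) Finset.sdiff_subset h6 v,
          Finset.sum_comm]
        apply Finset.sum_congr rfl
        intro z _
        rw [Finset.mul_sum]
      rw [h7]
      have h8 : ∀ z ∈ bd (D \ E), z ∉ E → ∑ v ∈ F, hm D z v = 0 := by
        intro z hz hzE
        have h9 : z ∉ D := fun h => not_mem_of_mem_bd hz (Finset.mem_sdiff.2 ⟨h, hzE⟩)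
        apply Finset.sum_eq_zero
        intro v hv
        rw [hm_off h9, if_neg]
        rintro rfl
        obtain ⟨x, hx, hxz⟩ := exists_nn_of_mem_bd hz
        rw [Finset.mem_sdiff] at hx
        exact hx.2 (hFE z hv x hx.1 hxz)
      calc ∑ z ∈ bd (D \ E), hm (D \ E) y z * ∑ v ∈ F, hm D z v
          ≤ ∑ z ∈ bd (D \ E), (if z ∈ E then hm (D \ E) y z else 0) := by
            apply Finset.sum_le_sum
            intro z hz
            by_cases hzE : z ∈ E
            · rw [if_pos hzE]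
              have h10 := hm_sum_le (hE hzE) F
              exact mul_le_of_le_one_right (hm_nonneg _ _ _) h10
            · rw [if_neg hzE, h8 z hz hzE, mul_zero]
        _ = ∑ z ∈ bd (D \ E) ∩ E, hm (D \ E) y z := by
            rw [Finset.sum_ite_mem]
        _ ≤ ∑ z ∈ E, hm (D \ E) y z :=
            Finset.sum_le_sum_of_subset_of_nonneg Finset.inter_subset_right
              fun z _ _ => hm_nonneg _ _ _
  have h6 : 0 ≤ ∑ y ∈ D, ∑ v ∈ F, hm D y v :=
    Finset.sum_nonneg fun y _ => Finset.sum_nonneg fun v _ => hm_nonneg _ _ _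
  calc (∑ y ∈ D, ∑ v ∈ F, hm D y v) ^ 2 ≤ (∑ z ∈ E, ν z) ^ 2 := by
        apply pow_le_pow_left₀ h6 h5
    _ ≤ E.card * ∑ z ∈ E, ν z ^ 2 := h4
    _ ≤ E.card * (4 * (gsum D - gsum (D \ E))) := by
        apply mul_le_mul_of_nonneg_left _ (Nat.cast_nonneg _)
        linarith
    _ = 4 * E.card * (gsum D - gsum (D \ E)) := by ring

/-- The potential lemma for the breadth first search. -/
theorem exists_small (P S : Finset V) (X : V → ℝ) {L : ℕ} (hL : 0 < L) :
    ∃ k < L, (∑ y ∈ P \ (bfs P S X k).1, ∑ v ∈ (bfs P S X k).2,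
      hm (P \ (bfs P S X k).1) y v) * L ≤ 2 * Real.sqrt (P.card * gsum (P \ S)) := by
  classical
  set D : ℕ → Finset V := fun k => P \ (bfs P S X k).1 with hD
  set E : ℕ → Finset V := fun k => D k \ D (k + 1) with hE
  set b : ℕ → ℝ := fun k => ∑ y ∈ D k, ∑ v ∈ (bfs P S X k).2, hm (D k) y v with hb
  have hb0 : ∀ k, 0 ≤ b k := fun k =>
    Finset.sum_nonneg fun y _ => Finset.sum_nonneg fun v _ => hm_nonneg _ _ _
  have hsub : ∀ k, D (k + 1) ⊆ D k := fun k =>
    Finset.sdiff_subset_sdiff (Finset.Subset.refl _) (bfs_mono_succ k)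
  have hDE : ∀ k, D k \ E k = D (k + 1) := fun k => by
    rw [hE]
    exact Finset.sdiff_sdiff_eq_self (hsub k)
  have hstep : ∀ k, b k ^ 2 ≤ 4 * (E k).card * (gsum (D k) - gsum (D (k + 1))) := by
    intro k
    have h1 := gsum_step (D := D k) (E := E k) (F := (bfs P S X k).2) Finset.sdiff_subset
      (by
        intro v hv y hy hvy
        rw [hE, Finset.mem_sdiff]
        refine ⟨hy, ?_⟩
        have h2 := bfs_next hv hy hvy
        rw [hD]
        simp only [Finset.mem_sdiff, not_and, not_not] at h2 ⊢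
        intro _
        exact h2.1)
    rw [hDE k] at h1
    exact h1
  have hcard : ∀ k, ∑ j ∈ Finset.range k, ((E j).card : ℝ) + (D k).card = (D 0).card := by
    intro k
    induction k with
    | zero => simp
    | succ k ih =>
      rw [Finset.sum_range_succ, ← ih]
      have h1 : (E k).card + (D (k + 1)).card = (D k).card := by
        rw [hE]
        exact Finset.card_sdiff_add_card_eq_card (hsub k)
      have h2 : ((E k).card : ℝ) + (D (k + 1)).card = (D k).card := by exact_mod_cast h1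
      linarith
  have hmono : ∀ k, gsum (D (k + 1)) ≤ gsum (D k) := by
    intro k
    rw [gsum, gsum]
    calc ∑ x ∈ D (k + 1), ∑ y ∈ D (k + 1), gr (D (k + 1)) x y
        ≤ ∑ x ∈ D (k + 1), ∑ y ∈ D (k + 1), gr (D k) x y :=
          Finset.sum_le_sum fun x _ => Finset.sum_le_sum fun y _ => gr_mono (hsub k) x y
      _ ≤ ∑ x ∈ D (k + 1), ∑ y ∈ D k, gr (D k) x y :=
          Finset.sum_le_sum fun x _ => Finset.sum_le_sum_of_subset_of_nonneg (hsub k)
            fun y _ _ => gr_nonneg _ _ _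
      _ ≤ ∑ x ∈ D k, ∑ y ∈ D k, gr (D k) x y :=
          Finset.sum_le_sum_of_subset_of_nonneg (hsub k)
            fun x _ _ => Finset.sum_nonneg fun y _ => gr_nonneg _ _ _
  have hD0 : D 0 = P \ S := rfl
  set G : ℕ → ℝ := fun k => gsum (D k) with hG
  have htel : ∑ k ∈ Finset.range L, (G k - G (k + 1)) ≤ G 0 := by
    rw [Finset.sum_range_sub']
    have := gsum_nonneg (D L)
    simp only [hG]
    linarith
  have hsum : (∑ k ∈ Finset.range L, b k) ^ 2 ≤ 4 * (P.card * gsum (P \ S)) := by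
    have h1 : ∑ k ∈ Finset.range L, b k ≤
        ∑ k ∈ Finset.range L, Real.sqrt (4 * (E k).card) * Real.sqrt (G k - G (k + 1)) := by
      apply Finset.sum_le_sum
      intro k _
      rw [← Real.sqrt_mul (by positivity)]
      exact Real.le_sqrt_of_sq_le (hstep k)
    have h2 := Real.sum_sqrt_mul_sqrt_le (Finset.range L)
      (f := fun k => 4 * ((E k).card : ℝ)) (g := fun k => G k - G (k + 1))
      (fun k => by positivity) (fun k => sub_nonneg.2 (hmono k))
    have h3 : ∑ k ∈ Finset.range L, 4 * ((E k).card : ℝ) ≤ 4 * P.card := by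
      rw [← Finset.mul_sum]
      have h4 := hcard L
      have h5 : ((D 0).card : ℝ) ≤ P.card := by
        exact_mod_cast Finset.card_le_card Finset.sdiff_subset
      have h6 : (0 : ℝ) ≤ (D L).card := by positivity
      linarith
    have h7 : ∑ k ∈ Finset.range L, b k ≤
        Real.sqrt (4 * P.card) * Real.sqrt (gsum (P \ S)) := by
      refine h1.trans (h2.trans ?_)
      apply mul_le_mul (Real.sqrt_le_sqrt h3) (Real.sqrt_le_sqrt htel) (Real.sqrt_nonneg _)
        (Real.sqrt_nonneg _)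
    have h8 : 0 ≤ ∑ k ∈ Finset.range L, b k := Finset.sum_nonneg fun k _ => hb0 k
    calc (∑ k ∈ Finset.range L, b k) ^ 2
        ≤ (Real.sqrt (4 * P.card) * Real.sqrt (gsum (P \ S))) ^ 2 :=
          pow_le_pow_left₀ h8 h7 2
      _ = 4 * (P.card * gsum (P \ S)) := by
          rw [mul_pow, Real.sq_sqrt (by positivity), Real.sq_sqrt (gsum_nonneg _)]
          ring
  have h1 : ∑ k ∈ Finset.range L, b k ≤ 2 * Real.sqrt (P.card * gsum (P \ S)) := by
    have h2 : 2 * Real.sqrt (P.card * gsum (P \ S)) =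
        Real.sqrt (4 * (P.card * gsum (P \ S))) := by
      rw [Real.sqrt_mul (by norm_num : (0 : ℝ) ≤ 4)]
      congr 1
      rw [show (4 : ℝ) = 2 ^ 2 by norm_num, Real.sqrt_sq (by norm_num)]
    rw [h2]
    exact Real.le_sqrt_of_sq_le hsum
  by_contra hcon
  push Not at hcon
  have h2 : ∀ k ∈ Finset.range L, 2 * Real.sqrt (P.card * gsum (P \ S)) / L < b k := by
    intro k hk
    have h3 := hcon k (Finset.mem_range.1 hk)
    rw [div_lt_iff₀ (by exact_mod_cast hL)]
    exact h3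
  have h3 : ∑ k ∈ Finset.range L, 2 * Real.sqrt (P.card * gsum (P \ S)) / L <
      ∑ k ∈ Finset.range L, b k :=
    Finset.sum_lt_sum_of_nonempty (Finset.nonempty_range_iff.2 hL.ne') h2
  rw [Finset.sum_const, Finset.card_range, nsmul_eq_mul, mul_div_cancel₀] at h3
  · linarith
  · exact_mod_cast hL.ne'

end GF.RR
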