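import Pool.Agent.Lib.MP_acf58e_gf.Func
import Pool.Agent.Lib.MP_acf58e_gf.RPot

/-!
MP_acf58e_pr, module R, deterministic facts: mass of the Green function of a strip, thickness of
the explored set, crossings found by the search.
-/

set_option autoImplicit false

open Set

namespace GF.RR

/-! ### mass of the Green function -/

theorem sum_gr_le {D : Finset V} {a b : ℤ} (hD : ∀ x ∈ D, a ≤ x.1 ∧ x.1 ≤ b) {x : V} (hx : x ∈ D) :
    ∑ y ∈ D, gr D x y ≤ ((b - a + 2 : ℤ) : ℝ) ^ 2 / 8 := by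
  classical
  set f : V → ℝ := fun x => ((x.1 : ℝ) - a + 1) * (b + 1 - x.1) / 2 with hf
  set g : V → ℝ := fun x => ∑ y ∈ D, gr D x y with hg
  have hgx : ∀ x ∈ D, 4 * (g x - av g x) = 1 := by
    intro x hx
    have h1 : g x - av g x = ∑ y ∈ D, (gr D x y - av (fun z => gr D z y) x) := by
      simp only [hg, av, Finset.sum_sub_distrib, ← Finset.sum_div, Finset.sum_add_distrib]
    rw [h1, Finset.mul_sum, Finset.sum_congr rfl fun y _ => gr_on y hx]
    simp [hx]
  have h2 := max_principle D (f := fun x => g x - f x) (M := 0)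
    (by
      intro x hx
      have h3 := hgx x hx
      have h4 : av (fun x => g x - f x) x = av g x - av f x := by
        unfold av; ring
      have h5 : f x - av f x = 1 / 4 := by
        simp only [hf, av, nE, nW, nN, nS]
        push_cast
        ring
      rw [h4]
      linarith)
    (by
      intro y hy
      have h3 : g y = 0 := by
        simp only [hg]
        exact Finset.sum_eq_zero fun z _ => gr_off_left (not_mem_of_mem_bd hy)
      have h4 : a - 1 ≤ y.1 ∧ y.1 ≤ b + 1 := by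
        obtain ⟨-, h⟩ := mem_bd_iff.1 hy
        rcases h with h | h | h | h <;>
        · have := hD _ h
          simp only [nE, nW, nN, nS] at this
          omega
      have h5 : (0 : ℝ) ≤ (y.1 : ℝ) - a + 1 := by
        have : (0 : ℤ) ≤ y.1 - a + 1 := by omega
        exact_mod_cast this
      have h6 : (0 : ℝ) ≤ (b : ℝ) + 1 - y.1 := by
        have : (0 : ℤ) ≤ b + 1 - y.1 := by omega
        exact_mod_cast this
      have h7 : 0 ≤ f y := by
        simp only [hf]
        positivity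
      simp only [h3]
      linarith) x hx
  have h3 : f x ≤ ((b - a + 2 : ℤ) : ℝ) ^ 2 / 8 := by
    simp only [hf]
    push_cast
    nlinarith [sq_nonneg ((x.1 : ℝ) - a + 1 - (b + 1 - x.1))]
  have h4 : g x ≤ f x := by linarith
  exact h4.trans h3

theorem gsum_le {D : Finset V} {a b : ℤ} (hD : ∀ x ∈ D, a ≤ x.1 ∧ x.1 ≤ b) :
    gsum D ≤ D.card * (((b - a + 2 : ℤ) : ℝ) ^ 2 / 8) := by
  rw [gsum, ← nsmul_eq_mul]
  exact Finset.sum_le_card_nsmul _ _ _ fun x hx => sum_gr_le hD hx

/-! ### distances along paths -/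

lemma dI_comm (x y : V) : dI x y = dI y x := by
  unfold dI
  rw [abs_sub_comm x.1, abs_sub_comm x.2]

lemma dI_nn {x y z : V} (h : nn y z) : dI x z ≤ dI x y + 1 := by
  obtain ⟨a, b⟩ := x
  rcases nn_iff.1 h with rfl | rfl | rfl | rfl <;>
  · simp only [dI, nE, nW, nN, nS]
    apply max_le
    · rcases abs_cases (a - y.1) with h1 | h1 <;>
      rcases le_max_iff.1 (le_refl (max |a - y.1| |b - y.2|)) with h2 | h2 <;>
      first
      | (have := le_max_left |a - y.1| |b - y.2|
         have h5 := abs_sub_abs_le_abs_sub a y.1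
         rw [abs_le]
         rw [abs_eq_max_neg] at this
         constructor <;> [have := le_of_max_le_left this; have := le_of_max_le_right this] <;>
           omega)
    · have := le_max_right |a - y.1| |b - y.2|
      have h1 := abs_le.1 (le_refl |b - y.2|)
      rw [abs_le]
      omega

/-- Discrete intermediate values of the distance on a connected set. -/
theorem exists_dI_eq {A : Set V} {g x y : V} (h : ConnIn nn A x y) {q : ℤ} (h1 : dI g x ≤ q)
    (h2 : q ≤ dI g y) : ∃ w ∈ A, dI g w = q := by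
  obtain ⟨hx, hp⟩ := h
  have key : ∀ w, Relation.ReflTransGen (fun a b => nn a b ∧ b ∈ A) x w → w ∈ A ∧
      (q ≤ dI g w → ∃ w ∈ A, dI g w = q) := by
    intro w hw
    induction hw with
    | refl => exact ⟨hx, fun h3 => ⟨x, hx, le_antisymm h1 h3⟩⟩
    | tail hab hbc ih =>
      refine ⟨hbc.2, fun h3 => ?_⟩
      rename_i b c
      by_cases h4 : q ≤ dI g b
      · exact ih.2 h4
      · refine ⟨c, hbc.2, ?_⟩
        have h5 := dI_nn (x := g) hbc.1
        omega
  exact (key y hp).2 h2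

theorem exists_dI_eq' {A : Set V} {g x y : V} (h : ConnIn nn A x y) {q : ℤ} (h1 : q ≤ dI g x)
    (h2 : dI g y ≤ q) : ∃ w ∈ A, dI g w = q := by
  obtain ⟨hx, hp⟩ := h
  have key : ∀ w, Relation.ReflTransGen (fun a b => nn a b ∧ b ∈ A) x w → w ∈ A ∧
      (dI g w ≤ q → ∃ w ∈ A, dI g w = q) := by
    intro w hw
    induction hw with
    | refl => exact ⟨hx, fun h3 => ⟨x, hx, le_antisymm h3 h1⟩⟩
    | tail hab hbc ih =>
      refine ⟨hbc.2, fun h3 => ?_⟩
      rename_i b c
      by_cases h4 : dI g b ≤ q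
      · exact ih.2 h4
      · refine ⟨c, hbc.2, ?_⟩
        have h5 := dI_nn (x := g) (nn_comm.1 hbc.1)
        omega
  exact (key y hp).2 h2

/-! ### geometry -/

lemma mem_Rc {a b c d : ℤ} {x : V} : x ∈ Rc a b c d ↔ a ≤ x.1 ∧ x.1 ≤ b ∧ c ≤ x.2 ∧ x.2 ≤ d := by
  rw [Rc, Finset.mem_Icc, Prod.le_def, Prod.le_def]
  constructor
  · rintro ⟨⟨h1, h2⟩, h3, h4⟩
    exact ⟨h1, h3, h2, h4⟩
  · rintro ⟨h1, h2, h3, h4⟩
    exact ⟨⟨h1, h3⟩, h2, h4⟩

/-- the arena of the exploration -/
noncomputable def DR (x0 y0 : ℤ) (W H r : ℕ) : Finset V := Rc (x0 - r) (x0 + W + r) y0 (y0 + H)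
/-- the region which may be explored -/
noncomputable def PR (x0 y0 : ℤ) (W H r : ℕ) : Finset V := Rc (x0 + 1) (x0 + W + r) y0 (y0 + H)
/-- the starting column -/
noncomputable def SR (x0 y0 : ℤ) (H : ℕ) : Finset V := Rc x0 x0 y0 (y0 + H)
/-- revealed set -/
noncomputable def RV (x0 y0 : ℤ) (W H r : ℕ) (X : V → ℝ) (k : ℕ) : Finset V :=
  (bfs (PR x0 y0 W H r) (SR x0 y0 H) X k).1
/-- frontier -/
noncomputable def FR (x0 y0 : ℤ) (W H r : ℕ) (X : V → ℝ) (k : ℕ) : Finset V :=
  (bfs (PR x0 y0 W H r) (SR x0 y0 H) X k).2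
/-- explored set -/
noncomputable def GR (x0 y0 : ℤ) (W H r : ℕ) (X : V → ℝ) (k : ℕ) : Finset V :=
  DR x0 y0 W H r \ (PR x0 y0 W H r \ RV x0 y0 W H r X k)

variable {x0 y0 : ℤ} {W H r : ℕ} {X : V → ℝ}

lemma PR_subset_DR : PR x0 y0 W H r ⊆ DR x0 y0 W H r := by
  intro v hv
  rw [PR, mem_Rc] at hv
  rw [DR, mem_Rc]
  omega

lemma SR_subset_DR : SR x0 y0 H ⊆ DR x0 y0 W H r := by
  intro v hv
  rw [SR, mem_Rc] at hv
  rw [DR, mem_Rc]
  omega

lemma SR_disj : PR x0 y0 W H r \ SR x0 y0 H = PR x0 y0 W H r := by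
  apply Finset.sdiff_eq_self_of_disjoint
  rw [Finset.disjoint_left]
  intro v hv hv'
  rw [PR, mem_Rc] at hv
  rw [SR, mem_Rc] at hv'
  omega

lemma RR_subset (k : ℕ) : RV x0 y0 W H r X k ⊆ SR x0 y0 H ∪ PR x0 y0 W H r := bfs_subset k

lemma RR_subset_DR (k : ℕ) : RV x0 y0 W H r X k ⊆ DR x0 y0 W H r :=
  (RR_subset k).trans (Finset.union_subset SR_subset_DR PR_subset_DR)

lemma RR_subset_GR (k : ℕ) : RV x0 y0 W H r X k ⊆ GR x0 y0 W H r X k := by
  intro v hv
  rw [GR, Finset.mem_sdiff]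
  exact ⟨RR_subset_DR k hv, fun h => (Finset.mem_sdiff.1 h).2 hv⟩

lemma DR_sdiff_GR (k : ℕ) : DR x0 y0 W H r \ GR x0 y0 W H r X k =
    PR x0 y0 W H r \ RV x0 y0 W H r X k :=
  Finset.sdiff_sdiff_eq_self (Finset.sdiff_subset.trans PR_subset_DR)

lemma GR_subset_DR (k : ℕ) : GR x0 y0 W H r X k ⊆ DR x0 y0 W H r := Finset.sdiff_subset

lemma mem_GR_left {k : ℕ} {v : V} (hv : v ∈ DR x0 y0 W H r) (h : v.1 ≤ x0) :
    v ∈ GR x0 y0 W H r X k := by
  rw [GR, Finset.mem_sdiff]
  refine ⟨hv, fun h1 => ?_⟩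
  have h2 := (Finset.mem_sdiff.1 h1).1
  rw [PR, mem_Rc] at h2
  omega

lemma mem_GR {k : ℕ} {v : V} (hv : v ∈ GR x0 y0 W H r X k) :
    v ∈ RV x0 y0 W H r X k ∨ (v ∈ DR x0 y0 W H r ∧ v.1 < x0) := by
  rw [GR, Finset.mem_sdiff, Finset.mem_sdiff, not_and, not_not] at hv
  by_cases h : v ∈ PR x0 y0 W H r
  · exact Or.inl (hv.2 h)
  · have h1 := hv.1
    rw [DR, mem_Rc] at h1
    rw [PR, mem_Rc] at h
    by_cases h2 : v.1 = x0
    · left
      apply start_subset_bfs k
      rw [SR, mem_Rc]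
      omega
    · right
      refine ⟨hv.1, ?_⟩
      omega

/-- The visible points of the explored set are closed or in the frontier. -/
theorem GR_visible {k : ℕ} {v y : V} (hv : v ∈ GR x0 y0 W H r X k)
    (hy : y ∈ DR x0 y0 W H r \ GR x0 y0 W H r X k) (hvy : nn v y) :
    v ∈ RV x0 y0 W H r X k ∧ (X v < 0 ∨ v ∈ FR x0 y0 W H r X k) := by
  rw [DR_sdiff_GR, Finset.mem_sdiff] at hy
  have h1 : v ∈ RV x0 y0 W H r X k := by
    rcases mem_GR hv with h | h
    · exact h
    · exfalso
      have h2 := hy.1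
      rw [PR, mem_Rc] at h2
      rcases nn_iff.1 hvy with h3 | h3 | h3 | h3 <;>
      · rw [h3] at h2
        simp only [nE, nW, nN, nS] at h2
        omega
  refine ⟨h1, ?_⟩
  by_contra hcon
  push Not at hcon
  exact hy.2 (bfs_closure h1 hcon.1 hcon.2 hy.1 hvy)

/-- The explored set is thick. -/
theorem GR_thick {k : ℕ} {g : V} (hg : g ∈ GR x0 y0 W H r X k) {q : ℤ} (h1 : 1 ≤ q)
    (h2 : 2 * q ≤ r) : ∃ g' ∈ GR x0 y0 W H r X k, dI g g' = q := by
  rcases mem_GR hg with h | ⟨h, h3⟩
  · obtain ⟨s, hs, hc⟩ := bfs_conn h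
    have hs' := hs
    rw [SR, mem_Rc] at hs'
    -- from the left end of the row of `s` to `s`
    have h4 : ∀ j : ℕ, (j : ℤ) ≤ r → ConnIn nn (GR x0 y0 W H r X k : Set V)
        (x0 - r, s.2) (x0 - r + j, s.2) := by
      intro j
      induction j with
      | zero =>
        intro _
        have h5 : ((x0 - r, s.2) : V) ∈ GR x0 y0 W H r X k := by
          apply mem_GR_left
          · rw [DR, mem_Rc]
            simp only
            omega
          · simp only
            omega
        have h6 : ((x0 - r + (0 : ℕ), s.2) : V) = (x0 - r, s.2) := by simp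
        rw [h6]
        exact ⟨h5, Relation.ReflTransGen.refl⟩
      | succ j ih =>
        intro hj
        obtain ⟨h5, h6⟩ := ih (by push_cast at hj; omega)
        refine ⟨h5, h6.tail ⟨?_, ?_⟩⟩
        · rw [nn_iff]
          left
          simp only [nE, Prod.mk.injEq, and_true]
          push_cast
          ring
        · apply mem_GR_left
          · rw [DR, mem_Rc]
            push_cast at hj ⊢
            omega
          · push_cast at hj ⊢
            omega
    have h5 := h4 r le_rfl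
    have h6 : ((x0 - r + (r : ℕ), s.2) : V) = s := by
      apply Prod.ext
      · simp only
        omega
      · rfl
    rw [h6] at h5
    have h7 : ConnIn nn (GR x0 y0 W H r X k : Set V) (x0 - r, s.2) g := by
      refine ⟨h5.1, h5.2.trans ?_⟩
      exact Relation.ReflTransGen.mono (fun a b hab => ⟨hab.1, RR_subset_GR k hab.2⟩) _ _ hc.2
    refine exists_dI_eq' h7 ?_ ?_
    · have h8 : x0 ≤ g.1 := by
        have h9 := RR_subset k h
        rw [Finset.mem_union, SR, PR, mem_Rc, mem_Rc] at h9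
        omega
      simp only [dI]
      refine le_trans ?_ (le_max_left _ _)
      rw [abs_of_nonneg (by omega)]
      omega
    · simp only [dI]
      simp
      omega
  · have h4 := h
    rw [DR, mem_Rc] at h4
    by_cases h5 : x0 - r ≤ g.1 - q
    · refine ⟨(g.1 - q, g.2), mem_GR_left ?_ ?_, ?_⟩
      · rw [DR, mem_Rc]
        simp only
        omega
      · simp only
        omega
      · simp only [dI, sub_self, abs_zero]
        rw [sub_sub_cancel, abs_of_nonneg (by omega), max_eq_left (by omega)]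
    · refine ⟨(g.1 + q, g.2), mem_GR_left ?_ ?_, ?_⟩
      · rw [DR, mem_Rc]
        simp only
        omega
      · simp only
        omega
      · simp only [dI, sub_self, abs_zero]
        rw [sub_add_cancel_left, abs_neg, abs_of_nonneg (by omega), max_eq_left (by omega)]

/-- The search finds a short crossing when the frontier reaches the last column. -/
theorem cross_of_front {k : ℕ} {v : V} (hv : v ∈ FR x0 y0 W H r X k) (h : x0 + W ≤ v.1) {L : ℝ}
    (hL : (k : ℝ) ≤ L) : ShortLR L x0 (x0 + W) y0 (y0 + H) X := by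
  classical
  obtain ⟨p, hp1, hp2, hp3⟩ := bfs_path hv
  have hP : ∃ i, i ≤ k ∧ x0 + W ≤ (p i).1 := ⟨k, le_rfl, by rw [hp1]; exact h⟩
  set i := Nat.find hP with hi
  obtain ⟨hik, hi2⟩ := Nat.find_spec hP
  rw [← hi] at hik hi2
  have hmin : ∀ j < i, (p j).1 < x0 + W := by
    intro j hj
    by_contra hcon
    exact Nat.find_min hP hj ⟨by omega, not_lt.1 hcon⟩
  have hmem : ∀ j ≤ k, p j ∈ SR x0 y0 H ∪ PR x0 y0 W H r := fun j hj =>
    bfs_subset j (bfs_front_subset j (hp2 j hj))
  have h0 : (p 0).1 = x0 := by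
    have h1 := hp2 0 (Nat.zero_le _)
    have h2 : p 0 ∈ SR x0 y0 H := (Finset.mem_filter.1 h1).1
    rw [SR, mem_Rc] at h2
    omega
  have hi3 : (p i).1 = x0 + W := by
    apply le_antisymm _ hi2
    rcases Nat.eq_zero_or_pos i with h1 | h1
    · rw [h1, h0]
      omega
    · have h2 := hp3 (i - 1) (by omega)
      have h3 := hmin (i - 1) (by omega)
      have h4 : i - 1 + 1 = i := by omega
      rw [h4] at h2
      rcases nn_iff.1 h2 with h5 | h5 | h5 | h5 <;>
      · rw [h5]
        simp only [nE, nW, nN, nS]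
        omega
  refine ⟨i, p, p 0, p i, le_trans (by exact_mod_cast hik) hL, h0, hi3, rfl, rfl, ?_, ?_⟩
  · intro j hj
    have h1 := hmem j (hj.trans hik)
    refine ⟨bfs_front_open (hp2 j (hj.trans hik)), ?_⟩
    have h2 : (p j).1 ≤ x0 + W := by
      rcases Nat.lt_or_ge j i with h3 | h3
      · exact (hmin j h3).le
      · have : j = i := le_antisymm hj h3
        rw [this, hi3]
    rw [Finset.mem_union, SR, PR, mem_Rc, mem_Rc] at h1
    rw [Finset.mem_coe, mem_Rc]
    omega
  · intro j hj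
    exact hp3 j (by omega)

/-- Without a short crossing the revealed vertices stay to the left. -/
theorem RR_left {L : ℝ} (hX : ¬ ShortLR L x0 (x0 + W) y0 (y0 + H) X) {k : ℕ} (hk : (k : ℝ) ≤ L)
    {v : V} (hv : v ∈ RV x0 y0 W H r X k) : v.1 ≤ x0 + W := by
  induction k with
  | zero =>
    have h1 : v ∈ SR x0 y0 H := hv
    rw [SR, mem_Rc] at h1
    omega
  | succ k ih =>
    have hk' : (k : ℝ) ≤ L := by
      push_cast at hk
      linarith
    by_cases h : v ∈ RV x0 y0 W H r X k
    · exact ih hk' h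
    · obtain ⟨-, x, hx, hxv⟩ := bfs_new hv h
      have h1 : x.1 < x0 + W := by
        by_contra hcon
        exact hX (cross_of_front (k := k) hx (not_lt.1 hcon) hk')
      rcases nn_iff.1 hxv with h5 | h5 | h5 | h5 <;>
      · rw [h5]
        simp only [nE, nW, nN, nS]
        omega

end GF.RR
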