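import Pool.Agent.Lib.MP_acf58e_gf.Func
import Pool.Agent.Lib.MP_acf58e_gf.G3
import Pool.Agent.Lib.MP_acf58e_gf.G7
import Pool.Agent.Lib.MP_acf58e_gf.TBase

/-! rectangle crossing, bounded scales -/

open MeasureTheory Set ProbabilityTheory
open scoped ENNReal

namespace GF

theorem gam_neg_le {D : Finset V} {a M : ℝ} (ha : 1 ≤ a) {v : V} (hM : gr D v v ≤ M) :
    gam D (fun _ => a) {X | X v < 0} ≤ ENNReal.ofReal (M / a) := by
  have ha0 : 0 < a := by linarith
  have hvr : vr D {v} (fun _ => 1) = gr D v v := by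
    unfold vr
    simp
  have hlin : ∀ X, lin D (fun _ => a) {v} (fun _ => 1) X = X v - a := by
    intro X
    unfold lin
    rw [Finset.sum_singleton, hx_const, one_mul]
  have hM0 : 0 ≤ M := by
    have := vr_nonneg D {v} (fun _ => 1)
    rw [hvr] at this
    linarith
  have h1 : ∫⁻ X, ENNReal.ofReal ((lin D (fun _ => a) {v} (fun _ => 1) X) ^ 2) ∂(gam D (fun _ => a)) ≤
      ENNReal.ofReal M := by
    rw [← ofReal_integral_eq_lintegral_ofReal (integrable_lin_sq _ _ _ _)
      (Filter.Eventually.of_forall fun X => sq_nonneg _), integral_lin_sq, hvr]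
    exact ENNReal.ofReal_le_ofReal hM
  have h2 : ENNReal.ofReal (a ^ 2) * gam D (fun _ => a) {X | X v < 0} ≤ ENNReal.ofReal M := by
    refine le_trans ?_ h1
    refine le_trans ?_ (mul_meas_ge_le_lintegral₀ ?_ (ENNReal.ofReal (a ^ 2)))
    · refine mul_le_mul' le_rfl (measure_mono ?_)
      intro X hX
      have hX' : X v < 0 := hX
      show ENNReal.ofReal (a ^ 2) ≤ _
      rw [hlin]
      apply ENNReal.ofReal_le_ofReal
      nlinarith
    · exact (ENNReal.measurable_ofReal.comp ((measurable_lin D (fun _ => a) {v} (fun _ => 1)).pow_const 2)).aemeasurable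
  have h3 : gam D (fun _ => a) {X | X v < 0} ≤ ENNReal.ofReal M / ENNReal.ofReal (a ^ 2) := by
    rw [ENNReal.le_div_iff_mul_le (Or.inl (by positivity)) (Or.inl ENNReal.ofReal_ne_top), mul_comm]
    exact h2
  refine h3.trans ?_
  rw [← ENNReal.ofReal_div_of_pos (by positivity)]
  apply ENNReal.ofReal_le_ofReal
  apply div_le_div_of_nonneg_left hM0 ha0
  nlinarith

theorem gr_le_box {D : Finset V} {z v : V} {m : ℕ} (hD : D ⊆ Q z m) (hv : v ∈ D) :
    gr D v v ≤ 2 * m + 1 := by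
  have hv' := hD hv
  unfold Q at hv'
  rw [Finset.mem_Icc, Prod.le_def, Prod.le_def] at hv'
  simp only at hv'
  have h := gr_le_path (D := D) (y := v) (z := ((v.1 + (2 * m + 1 : ℕ), v.2) : V)) (n := 2 * m + 1)
    (p := fun i : ℕ => ((v.1 + i, v.2) : V)) ⟨by simp, rfl, fun _ _ => mem_univ _, ?_⟩ ?_
  · push_cast at h
    exact h
  · intro i _
    rw [TT.nn_iff']
    left
    push_cast
    constructor
    · ring
    · rfl
  · intro hm
    have h2 := hD hm
    unfold Q at h2
    rw [Finset.mem_Icc, Prod.le_def, Prod.le_def] at h2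
    simp only at h2
    push_cast at h2
    omega

theorem RC_small (A r0 : ℕ) (ε : ℝ) (hε : 0 < ε) : ∃ C0 : ℝ, 0 < C0 ∧ ∀ C : ℝ, C0 ≤ C → ∀ (r : ℕ), 1 ≤ r →
    r ≤ r0 → ∀ (D : Finset V) (z : V) (a : ℝ) (x0 y0 : ℤ) (W H Wd : ℕ),
      r ≤ W → W ≤ A * r → r ≤ H → H ≤ A * r → r ≤ Wd → Wd ≤ A * r → D ⊆ Q z (A * r) →
      Rc (x0 - Wd - 8) (x0 + W + Wd + 8) (y0 - 8) (y0 + H + 8) ⊆ D → 1 ≤ a →
      gam D (fun _ => a) {X | ¬ ShortLR (C * (r : ℝ) ^ (1 + ε)) x0 (x0 + W) y0 (y0 + H) X}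
        ≤ ENNReal.ofReal (C / a) := by
  refine ⟨(A * r0 + 1) * (2 * (A * r0) + 1) + A, by positivity, ?_⟩
  intro C hC r hr hr0 D z a x0 y0 W H Wd h1 h2 h3 h4 h5 h6 hD hR ha
  have ha0 : 0 < a := by linarith
  have hin : ∀ i : ℕ, i ≤ W → ((x0 + i, y0) : V) ∈ D := by
    intro i hi
    apply hR
    rw [TT.mem_Rc]
    refine ⟨by simp only; omega, by simp only; omega, by simp only; omega, by simp only; omega⟩
  have hsub : {X : V → ℝ | ¬ ShortLR (C * (r : ℝ) ^ (1 + ε)) x0 (x0 + W) y0 (y0 + H) X} ⊆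
      ⋃ i ∈ Finset.range (W + 1), {X | X ((x0 + (i : ℕ), y0) : V) < 0} := by
    intro X hX
    by_contra hcon
    apply hX
    simp only [Set.mem_iUnion, Set.mem_ofPred_eq, Finset.mem_range, not_exists, not_lt] at hcon
    refine ⟨W, fun i : ℕ => ((x0 + i, y0) : V), (x0, y0), (x0 + W, y0), ?_, rfl, rfl, by simp, rfl, ?_, ?_⟩
    · have hA : (W : ℝ) ≤ A * r := by exact_mod_cast h2
      have hr1 : (1 : ℝ) ≤ r := by exact_mod_cast hr
      have hpow : (r : ℝ) ≤ (r : ℝ) ^ (1 + ε) := by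
        calc (r : ℝ) = (r : ℝ) ^ (1 : ℝ) := (Real.rpow_one _).symm
          _ ≤ (r : ℝ) ^ (1 + ε) := Real.rpow_le_rpow_of_exponent_le hr1 (by linarith)
      have hCA : (A : ℝ) ≤ C := by
        have : (0 : ℝ) ≤ (A * r0 + 1) * (2 * (A * r0) + 1) := by positivity
        linarith
      calc (W : ℝ) ≤ A * r := hA
        _ ≤ C * (r : ℝ) ^ (1 + ε) := by
          apply mul_le_mul hCA hpow (by positivity)
          exact le_trans (by positivity) hCA
    · intro i hi
      refine ⟨hcon i (by omega), ?_⟩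
      rw [Finset.mem_coe, TT.mem_Rc]
      refine ⟨by simp only; omega, by simp only; omega, by simp only; omega, by simp only; omega⟩
    · intro i _
      rw [TT.nn_iff']
      left
      push_cast
      constructor
      · ring
      · rfl
  have hAr : A * r ≤ A * r0 := Nat.mul_le_mul_left A hr0
  have hD' : D ⊆ Q z ((A * r : ℕ) : ℤ) := by
    push_cast
    exact hD
  calc gam D (fun _ => a) {X : V → ℝ | ¬ ShortLR (C * (r : ℝ) ^ (1 + ε)) x0 (x0 + W) y0 (y0 + H) X}
      ≤ gam D (fun _ => a) (⋃ i ∈ Finset.range (W + 1), {X | X ((x0 + (i : ℕ), y0) : V) < 0}) :=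
        measure_mono hsub
    _ ≤ ∑ i ∈ Finset.range (W + 1), gam D (fun _ => a) {X | X ((x0 + (i : ℕ), y0) : V) < 0} :=
        measure_biUnion_finset_le _ _
    _ ≤ ∑ _i ∈ Finset.range (W + 1), ENNReal.ofReal ((2 * (A * r0) + 1) / a) := by
        refine Finset.sum_le_sum fun i hi => ?_
        rw [Finset.mem_range] at hi
        apply gam_neg_le ha
        refine (gr_le_box hD' (hin i (by omega))).trans ?_
        have : ((A * r : ℕ) : ℝ) ≤ ((A * r0 : ℕ) : ℝ) := by exact_mod_cast hAr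
        push_cast at this ⊢
        linarith
    _ = ENNReal.ofReal ((W + 1) * ((2 * (A * r0) + 1) / a)) := by
        rw [Finset.sum_const, Finset.card_range, nsmul_eq_mul, ENNReal.ofReal_mul (by positivity)]
        congr 1
        rw [show ((W : ℝ) + 1) = ((W + 1 : ℕ) : ℝ) by push_cast; ring, ENNReal.ofReal_natCast]
    _ ≤ ENNReal.ofReal (C / a) := by
        apply ENNReal.ofReal_le_ofReal
        rw [← mul_div_assoc]
        apply div_le_div_of_nonneg_right _ ha0.le
        have hW : (W : ℝ) ≤ A * r0 := by exact_mod_cast h2.trans hAr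
        have : ((W : ℝ) + 1) * (2 * (A * r0) + 1) ≤ (A * r0 + 1) * (2 * (A * r0) + 1) := by
          gcongr
        have hA0 : (0 : ℝ) ≤ A := Nat.cast_nonneg A
        linarith

end GF
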