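import Pool.Agent.Lib.MP_acf58e_gf.P6b
import Pool.Agent.Lib.MP_acf58e_gf.RDet
import Pool.Agent.Lib.MP_acf58e_gf.RSm
import Pool.Agent.Lib.MP_acf58e_gf.Func

/-!
MP_acf58e_pr, module R: the rectangle crossing theorem for small radii.
-/

set_option autoImplicit false

open MeasureTheory Set
open scoped ENNReal

namespace GF.RR

/-- If there is no short crossing, then some vertex v of the bottom row has X v < 0. The row is a
path of length W ≤ A * r ≤ A * 1000. -/
theorem rc_small (A : ℕ) : ∃ C : ℝ, 0 < C ∧ ∀ (r : ℕ), 1 ≤ r → r < 1000 →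
    ∀ (D : Finset V) (z : V) (a : ℝ) (x0 y0 : ℤ) (W H : ℕ),
      r ≤ W → W ≤ A * r → D ⊆ Q z (A * r) →
      Rc x0 (x0 + W) y0 (y0 + H) ⊆ D → 1 ≤ a →
      gam D (fun _ => a) {X | ¬ ShortLR ((A : ℝ) * r) x0 (x0 + W) y0 (y0 + H) X}
        ≤ ENNReal.ofReal (C / a) := by
  refine ⟨(A * 1000 + 1) * (2 * (A * 1000) + 1), by positivity, ?_⟩
  intro r hr hr0 D z a x0 y0 W H h1 h2 hD hR ha
  have ha0 : 0 < a := by linarith
  have hin : ∀ i : ℕ, i ≤ W → ((x0 + i, y0) : V) ∈ D := by
    intro i hi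
    apply hR
    rw [TT.mem_Rc]
    refine ⟨by simp only; omega, by simp only; omega, by simp only; omega, by simp only; omega⟩
  have hsub : {X : V → ℝ | ¬ ShortLR ((A : ℝ) * r) x0 (x0 + W) y0 (y0 + H) X} ⊆
      ⋃ i ∈ Finset.range (W + 1), {X | X ((x0 + (i : ℕ), y0) : V) < 0} := by
    intro X hX
    by_contra hcon
    apply hX
    simp only [Set.mem_iUnion, Set.mem_ofPred_eq, Finset.mem_range, not_exists, not_lt] at hcon
    refine ⟨W, fun i : ℕ => ((x0 + i, y0) : V), (x0, y0), (x0 + W, y0), ?_, rfl, rfl, by simp, rfl, ?_, ?_⟩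
    · exact_mod_cast h2
    · intro i hi
      refine ⟨hcon i (by omega), ?_⟩
      rw [Finset.mem_coe, TT.mem_Rc]
      refine ⟨by simp only; omega, by simp only; omega, by simp only; omega, by simp only; omega⟩
    · intro i _
      rw [TT.nn_iff']
      left
      push_cast
      constructor
      · ring
      · rfl
  have hAr : A * r ≤ A * 1000 := Nat.mul_le_mul_left A hr0.le
  have hD' : D ⊆ Q z ((A * r : ℕ) : ℤ) := by
    push_cast
    exact hD
  calc gam D (fun _ => a) {X : V → ℝ | ¬ ShortLR ((A : ℝ) * r) x0 (x0 + W) y0 (y0 + H) X}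
      ≤ gam D (fun _ => a) (⋃ i ∈ Finset.range (W + 1), {X | X ((x0 + (i : ℕ), y0) : V) < 0}) :=
        measure_mono hsub
    _ ≤ ∑ i ∈ Finset.range (W + 1), gam D (fun _ => a) {X | X ((x0 + (i : ℕ), y0) : V) < 0} :=
        measure_biUnion_finset_le _ _
    _ ≤ ∑ _i ∈ Finset.range (W + 1), ENNReal.ofReal ((2 * (A * 1000) + 1) / a) := by
        refine Finset.sum_le_sum fun i hi => ?_
        rw [Finset.mem_range] at hi
        apply gam_neg_le ha
        refine (gr_le_box hD' (hin i (by omega))).trans ?_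
        have : ((A * r : ℕ) : ℝ) ≤ ((A * 1000 : ℕ) : ℝ) := by exact_mod_cast hAr
        push_cast at this ⊢
        linarith
    _ = ENNReal.ofReal ((W + 1) * ((2 * (A * 1000) + 1) / a)) := by
        rw [Finset.sum_const, Finset.card_range, nsmul_eq_mul, ENNReal.ofReal_mul (by positivity)]
        congr 1
        rw [show ((W : ℝ) + 1) = ((W + 1 : ℕ) : ℝ) by push_cast; ring, ENNReal.ofReal_natCast]
    _ ≤ ENNReal.ofReal ((A * 1000 + 1) * (2 * (A * 1000) + 1) / a) := by
        apply ENNReal.ofReal_le_ofReal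
        rw [← mul_div_assoc]
        apply div_le_div_of_nonneg_right _ ha0.le
        have hW : (W : ℝ) ≤ A * 1000 := by exact_mod_cast h2.trans hAr
        gcongr

end GF.RR
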