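import Pool.Agent.Lib.MP_acf58e_gf.RCc
import Pool.Agent.Lib.MP_acf58e_gf.RCs
import Pool.Agent.Lib.MP_acf58e_gf.RCn

/-!
MP_acf58e_pr, module R: the rectangle crossing theorem.
-/

set_option autoImplicit false

open MeasureTheory Set
open scoped ENNReal

namespace GF.RR

open Classical in
/-- the chain lemma for the search -/
theorem chain_st (A : ℕ) : ∃ C : ℝ, 0 < C ∧ ∀ (r : ℕ), 1000 ≤ r →
    ∀ (D : Finset V) (z : V) (a : ℝ) (x0 y0 : ℤ) (W H : ℕ),
      r ≤ W → W ≤ A * r → r ≤ H → H ≤ A * r → D ⊆ Q z (A * r) →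
      Rc (x0 - r - 1) (x0 + W + r + 1) (y0 - 1) (y0 + H + 1) ⊆ D → 1 ≤ a →
      ∀ (η : ℝ), 0 ≤ η → η * Real.log (r + 1) ≤ 1 → ∀ (L : ℕ) (hL : 0 < L),
      (∀ X, massR (PR x0 y0 W H r) (stR x0 y0 W H r hL X).1 ≤ η * (r : ℝ) ^ 2) →
      ∫⁻ X, ENNReal.ofReal ((∑ y ∈ (DR x0 y0 W H r).filter
          (fun y => Deep (DR x0 y0 W H r) y (1 / 100 * r) ∧
            y ∉ Gq x0 y0 W H r (stR x0 y0 W H r hL X)),
          max 0 (1 * (cm (DR x0 y0 W H r) X (cellR (stR x0 y0 W H r hL X)) y -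
            hx (DR x0 y0 W H r) X y))) / (r : ℝ) ^ 2)
        ∂(gam D (fun _ => a)) ≤ ENNReal.ofReal C := by
  obtain ⟨C2, hC2, hchain⟩ := chain (A + 2) (1 / 100) (by norm_num) (by norm_num)
  refine ⟨C2, hC2, ?_⟩
  intro r hr D z a x0 y0 W H hW hWA hH hHA hDQ hRD ha η hη0 hηlog L hL hmass
  have hch := hchain r (by omega) (x0 - r) (x0 + W + r) y0 (y0 + H) (by omega)
    (by
      have : (W : ℤ) ≤ A * r := by exact_mod_cast hWA
      push_cast
      linarith) (by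
      have : (r : ℤ) ≤ H := by exact_mod_cast hH
      linarith)
    (by
      have : (H : ℤ) ≤ A * r := by exact_mod_cast hHA
      push_cast
      linarith) D z hRD (hDQ.trans (Q_mono (by push_cast; linarith))) a 0 1 η le_rfl
    (Or.inl rfl) hη0 hηlog (stR x0 y0 W H r hL) cellR (stR_isExp hL) (Gq x0 y0 W H r)
    (fun q => q.1.2)
    (by
      intro X
      refine ⟨?_, ?_, ?_, ?_⟩
      · exact (cellC hL X).trans (RR_subset_GR _)
      · exact (cellO hL X).trans (RR_subset_GR _)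
      · exact Finset.sdiff_subset
      · exact (bfs_front_subset _).trans (RR_subset_GR _))
    (by
      intro X g hg k hk1 hk2
      have h1 : (2 * k : ℝ) ≤ r := by linarith
      exact GR_thick (k := kst x0 y0 W H r hL X) hg (by exact_mod_cast hk1)
        (by exact_mod_cast h1))
    (by
      intro X
      refine le_trans (le_of_eq ?_) (hmass X)
      exact mass_eq hL X)
    (by
      intro X v hv hex
      obtain ⟨y, hy, hvy⟩ := hex
      have h1 := GR_visible (k := kst x0 y0 W H r hL X) hv hy hvy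
      rcases h1.2 with h2 | h2
      · right
        rw [one_mul]
        exact cellcm hL X h1.1 h2
      · left
        exact h2)
  have hmax : max 0 ((0 : ℝ) - 1 * a) = 0 := max_eq_left (by linarith)
  rw [hmax, add_zero, mul_one] at hch
  exact hch

theorem rc_big (A : ℕ) (hA : 1 ≤ A) (ε : ℝ) (hε : 0 < ε) : ∃ K C : ℝ, 0 < K ∧ 0 < C ∧
    ∀ (r : ℕ), 1000 ≤ r →
    ∀ (D : Finset V) (z : V) (a : ℝ) (x0 y0 : ℤ) (W H : ℕ),
      r ≤ W → W ≤ A * r → r ≤ H → H ≤ A * r → D ⊆ Q z (A * r) →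
      Rc (x0 - r - 1) (x0 + W + r + 1) (y0 - 1) (y0 + H + 1) ⊆ D → 1 ≤ a →
      gam D (fun _ => a) {X | ¬ ShortLR (K * (r : ℝ) ^ (1 + ε)) x0 (x0 + W) y0 (y0 + H) X}
        ≤ ENNReal.ofReal (C / a) := by
  obtain ⟨c, C1, hc, hC1, havg⟩ := avg A
  obtain ⟨C2, hC2, hchain⟩ := chain_st A
  obtain ⟨C3, hC3, hM⟩ := X4M A
  obtain ⟨C4, hC4, hnet⟩ := rc_net A
  obtain ⟨C5, hC5, hvar⟩ := vr_psR A hA
  obtain ⟨K1, hK1⟩ : ∃ K1 : ℝ, K1 = ((A : ℝ) + 1) ^ 2 * (A + 2) := ⟨_, rfl⟩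
  have hK1pos : 0 < K1 := by rw [hK1]; positivity
  obtain ⟨K, hK⟩ : ∃ K : ℝ, K = 1 + K1 * 2 ^ ε / ε + 32 * K1 / c := ⟨_, rfl⟩
  have hKpos : 0 < K := by rw [hK]; positivity
  refine ⟨K, C4 + 192 * C3 / c + 12 * C1 * C2 / c + 12 * Real.sqrt C5 / c, hKpos,
    by positivity, ?_⟩
  intro r hr D z a x0 y0 W H hW hWA hH hHA hDQ hRD ha
  have hrR : (1000 : ℝ) ≤ r := by exact_mod_cast hr
  have hr0 : (0 : ℝ) < r := by linarith
  have ha0 : 0 < a := by linarith
  obtain ⟨L, hL⟩ : ∃ L : ℕ, L = ⌈K * (r : ℝ) ^ (1 + ε)⌉₊ := ⟨_, rfl⟩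
  have hLpos : 0 < L := by
    rw [hL]
    exact Nat.ceil_pos.2 (mul_pos hKpos (Real.rpow_pos_of_pos hr0 _))
  have hLge : K * (r : ℝ) ^ (1 + ε) ≤ L := by
    rw [hL]
    exact Nat.le_ceil _
  obtain ⟨η, hη⟩ : ∃ η : ℝ, η = K1 / K * (r : ℝ) ^ (-ε) := ⟨_, rfl⟩
  have hη0 : 0 < η := by
    rw [hη]
    exact mul_pos (div_pos hK1pos hKpos) (Real.rpow_pos_of_pos hr0 _)
  have hηlog : η * Real.log (r + 1) ≤ 1 := by
    rw [hη]
    apply eta_log hK1pos hKpos hε _ (by omega)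
    rw [hK]
    have h1 : 0 < 32 * K1 / c := by positivity
    linarith
  have hη16 : 16 * η ≤ c / 2 := by
    have h1 : (r : ℝ) ^ (-ε) ≤ 1 := Real.rpow_le_one_of_one_le_of_nonpos (by linarith) (by linarith)
    have h2 : η ≤ K1 / K := by
      rw [hη]
      exact mul_le_of_le_one_right (by positivity) h1
    have h3 : K1 / K ≤ c / 32 := by
      rw [div_le_div_iff₀ hKpos (by norm_num)]
      have h4 : 32 * K1 / c ≤ K := by
        rw [hK]
        have h5 : 0 < K1 * 2 ^ ε / ε := by positivity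
        linarith
      rw [div_le_iff₀ hc] at h4
      linarith
    linarith
  have hD0D : DR x0 y0 W H r ⊆ D := by
    refine Finset.Subset.trans ?_ hRD
    intro v hv
    rw [DR, mem_Rc] at hv
    rw [mem_Rc]
    omega
  have hmass : ∀ X, massR (PR x0 y0 W H r) (stR x0 y0 W H r hLpos X).1 ≤ η * (r : ℝ) ^ 2 := by
    intro X
    rw [hη, hK1]
    exact mass_le A hKpos (by omega) hWA hHA hLpos hLge X
  refine rc_core hA hc hC1 hC2 hC3 hC4 hη0 hr hηlog ha hD0D (stR_isExp hLpos) (Gq x0 y0 W H r)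
    (hchain r hr D z a x0 y0 W H hW hWA hH hHA hDQ hRD ha η hη0.le hηlog L hLpos hmass)
    (hM r (by omega) (DR x0 y0 W H r) D z hD0D hDQ a _ _ (stR_isExp hLpos))
    (hnet r hr x0 y0 W H hWA hHA D z a hD0D hDQ ha0)
    (hvar r (by omega) x0 y0 W H hH z (hD0D.trans hDQ)) _ ?_
  intro X hX h1 h2 h3 h4
  have hX' : ¬ ShortLR (K * (r : ℝ) ^ (1 + ε)) x0 (x0 + W) y0 (y0 + H) X := hX
  have hkL : (kst x0 y0 W H r hLpos X : ℝ) ≤ K * (r : ℝ) ^ (1 + ε) := by
    have h5 : kst x0 y0 W H r hLpos X < L := (kst_spec hLpos X).1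
    exact (Nat.lt_ceil.1 (lt_of_lt_of_eq h5 hL)).le
  exact det hc hC1 havg hη0 hη16 hr hW hWA hH hHA ha hX' hkL ((stR_isExp hLpos).2.1 X)
    (fun v hv hv0 => cellcm hLpos X hv hv0) (cellC hLpos X) (cellO hLpos X)
    (by
      rw [mass_eq]
      exact hmass X) h1 h2 h3 h4

end GF.RR

namespace GF

open RR

lemma ShortLR.mono {L L' : ℝ} (h : L ≤ L') {a b c d : ℤ} {X : V → ℝ} (hX : ShortLR L a b c d X) :
    ShortLR L' a b c d X := by
  obtain ⟨n, p, x, y, h1, h2⟩ := hX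
  exact ⟨n, p, x, y, h1.trans h, h2⟩

theorem RC : RCProp := by
  intro A ε hε
  rcases Nat.eq_zero_or_pos A with hA | hA
  · refine ⟨1, one_pos, ?_⟩
    intro r hr D z a x0 y0 W H Wd hW hWA
    subst hA
    omega
  obtain ⟨K, C, hK, hC, hbig⟩ := rc_big A hA ε hε
  obtain ⟨C', hC', hsmall⟩ := rc_small A
  have hA1 : (1 : ℝ) ≤ A := by exact_mod_cast hA
  refine ⟨K + C + C' + A, by positivity, ?_⟩
  intro r hr D z a x0 y0 W H Wd hW hWA hH hHA hWd hWdA hDQ hRD ha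
  have ha0 : 0 < a := by linarith
  have hr1 : (1 : ℝ) ≤ r := by exact_mod_cast hr
  have hpow : (r : ℝ) ≤ (r : ℝ) ^ (1 + ε) := by
    conv_lhs => rw [← Real.rpow_one (r : ℝ)]
    exact Real.rpow_le_rpow_of_exponent_le hr1 (by linarith)
  have hpow0 : (0 : ℝ) ≤ (r : ℝ) ^ (1 + ε) := by positivity
  by_cases h : r < 1000
  · refine le_trans (measure_mono ?_) ((hsmall r hr h D z a x0 y0 W H hW hWA hDQ ?_ ha).trans
      (ENNReal.ofReal_le_ofReal ?_))
    · intro X hX hX'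
      refine hX (ShortLR.mono ?_ hX')
      calc (A : ℝ) * r ≤ A * (r : ℝ) ^ (1 + ε) := mul_le_mul_of_nonneg_left hpow (by linarith)
        _ ≤ _ := mul_le_mul_of_nonneg_right (by linarith) hpow0
    · refine Finset.Subset.trans ?_ hRD
      intro v hv
      rw [mem_Rc] at hv ⊢
      omega
    · exact div_le_div_of_nonneg_right (by linarith) ha0.le
  · refine le_trans (measure_mono ?_) ((hbig r (by omega) D z a x0 y0 W H hW hWA hH hHA hDQ ?_
      ha).trans (ENNReal.ofReal_le_ofReal ?_))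
    · intro X hX hX'
      refine hX (ShortLR.mono ?_ hX')
      exact mul_le_mul_of_nonneg_right (by linarith) hpow0
    · refine Finset.Subset.trans ?_ hRD
      intro v hv
      rw [mem_Rc] at hv ⊢
      omega
    · exact div_le_div_of_nonneg_right (by linarith) ha0.le

end GF
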