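import Pool.Agent.Lib.MP_acf58e_gf.RExp
import Pool.Agent.Lib.MP_acf58e_gf.RAvg
import Pool.Agent.Lib.MP_acf58e_gf.X4M
import Pool.Agent.Lib.MP_acf58e_gf.X4sup

/-!
MP_acf58e_pr, module R: estimates used in the proof of the rectangle crossing theorem.
-/

set_option autoImplicit false

open MeasureTheory Set
open scoped ENNReal

namespace GF.RR

lemma markov {μ : Measure (V → ℝ)} {F : (V → ℝ) → ℝ≥0∞} (hF : Measurable F) {K t : ℝ}
    (ht : 0 < t) (h : ∫⁻ X, F X ∂μ ≤ ENNReal.ofReal K) :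
    μ {X | ENNReal.ofReal t ≤ F X} ≤ ENNReal.ofReal (K / t) := by
  have h1 := meas_ge_le_lintegral_div (μ := μ) hF.aemeasurable
    (ENNReal.ofReal_pos.2 ht).ne' ENNReal.ofReal_ne_top
  refine h1.trans ?_
  rw [ENNReal.ofReal_div_of_pos ht]
  exact ENNReal.div_le_div_right h _

lemma meas_state {D : Finset V} {σ : Type} {s : (V → ℝ) → σ} {cell : σ → Cell}
    (hs : IsExp D s cell) {F : (V → ℝ) → σ → ℝ≥0∞} (hF : ∀ q, Measurable fun X => F X q) :
    Measurable (fun p : (V → ℝ) × (V → ℝ) => F p.1 (s p.2)) := by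
  classical
  have e : (fun p : (V → ℝ) × (V → ℝ) => F p.1 (s p.2)) =
      fun p => ∑ q ∈ hs.1.toFinset, if s p.2 = q then F p.1 q else 0 := by
    funext p
    rw [Finset.sum_ite_eq, if_pos]
    rw [Set.Finite.mem_toFinset]
    exact ⟨p.2, rfl⟩
  rw [e]
  refine Finset.measurable_sum _ (fun q hq => ?_)
  refine Measurable.ite ?_ ((hF q).comp measurable_fst) measurable_const
  have hq' : q ∈ range s := (Set.Finite.mem_toFinset hs.1).1 hq
  obtain ⟨X0, rfl⟩ := hq'
  have e2 : {Y : V → ℝ | s Y = s X0} = (cell (s X0)).S := by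
    ext Y
    constructor
    · intro hY
      have hY' : s Y = s X0 := hY
      rw [← hY']
      exact hs.2.2.1 Y
    · intro hY
      exact hs.2.2.2 X0 Y hY
  have e3 : {p : (V → ℝ) × (V → ℝ) | s p.2 = s X0} = Prod.snd ⁻¹' (cell (s X0)).S := by
    rw [← e2]
    rfl
  rw [e3]
  exact measurable_snd (Cell.meas _)

lemma meas_hx (D : Finset V) (v : V) : Measurable (fun β : V → ℝ => hx D β v) :=
  measurable_hx D v

lemma hx_congr' {D : Finset V} {β β' : V → ℝ} (h : ∀ x ∉ D, β x = β' x) (v : V) :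
    hx D β v = hx D β' v :=
  le_antisymm (hx_mono (fun x hx => (h x hx).le) v) (hx_mono (fun x hx => (h x hx).ge) v)

/-- mean of the absolute value of the averaged difference -/
lemma mean_Z {D Damb : Finset V} (hD : D ⊆ Damb) (mu : ℝ) {σ : Type} {s : (V → ℝ) → σ}
    {cell : σ → Cell} (hs : IsExp D s cell) (ψ : V → ℝ) {C : ℝ} (hC : vr D D ψ ≤ C) :
    ∫⁻ X, ENNReal.ofReal |cN D X ψ (cell (s X)) - ∑ v ∈ D, ψ v * hx D X v| ∂(gam Damb fun _ => mu)
      ≤ ENNReal.ofReal (Real.sqrt C) := by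
  have hmeas : Measurable (fun p : (V → ℝ) × (V → ℝ) =>
      ENNReal.ofReal |cN D p.1 ψ (cell (s p.2)) - ∑ v ∈ D, ψ v * hx D p.1 v|) := by
    apply meas_state hs (F := fun X q => ENNReal.ofReal |cN D X ψ (cell q) -
      ∑ v ∈ D, ψ v * hx D X v|)
    intro q
    apply ENNReal.measurable_ofReal.comp
    apply Measurable.abs
    apply Measurable.sub
    · unfold cN
      exact Finset.measurable_sum _ fun v _ => (cm_meas D (cell q) v).const_mul _
    · exact Finset.measurable_sum _ fun v _ => (meas_hx D v).const_mul _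
  have hdlr := dlr_pair hD (fun _ => mu) hmeas (by
    intro X X' Y hX
    have e1 : ∀ v, cm D X (cell (s Y)) v = cm D X' (cell (s Y)) v :=
      fun v => cm_congr D X X' hX _ v
    have e2 : ∀ v, hx D X v = hx D X' v := fun v => hx_congr' hX v
    simp only [cN, e1, e2])
  rw [hdlr]
  calc ∫⁻ X, (∫⁻ Y, ENNReal.ofReal |cN D X ψ (cell (s Y)) - ∑ v ∈ D, ψ v * hx D X v| ∂gam D X)
        ∂(gam Damb fun _ => mu)
      ≤ ∫⁻ _, ENNReal.ofReal (Real.sqrt C) ∂(gam Damb fun _ => mu) := by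
        apply lintegral_mono
        intro X
        exact (cN_abs hs X ψ).trans (ENNReal.ofReal_le_ofReal (Real.sqrt_le_sqrt hC))
    _ = ENNReal.ofReal (Real.sqrt C) := by rw [lintegral_const, measure_univ, mul_one]

lemma Q_mono {z : V} {m n : ℤ} (h : m ≤ n) : Q z m ⊆ Q z n := by
  intro v hv
  rw [Q, Finset.mem_Icc, Prod.le_def, Prod.le_def] at hv ⊢
  simp only at hv ⊢
  omega

/-- the test function -/
noncomputable def psR (x0 y0 : ℤ) (W H r : ℕ) (v : V) : ℝ :=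
  if v ∈ supR x0 y0 W H r then ((supR x0 y0 W H r).card : ℝ)⁻¹ else 0

lemma supR_subset {x0 y0 : ℤ} {W H r : ℕ} : supR x0 y0 W H r ⊆ DR x0 y0 W H r := by
  intro v hv
  rw [supR, mem_Rc] at hv
  rw [DR, mem_Rc]
  omega

lemma sum_psR {x0 y0 : ℤ} {W H r : ℕ} {B : Finset V} (hB : supR x0 y0 W H r ⊆ B) (g : V → ℝ) :
    ∑ v ∈ B, psR x0 y0 W H r v * g v =
      (∑ v ∈ supR x0 y0 W H r, g v) / (supR x0 y0 W H r).card := by
  rw [Finset.sum_div, ← Finset.sum_subset hB]
  · apply Finset.sum_congr rfl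
    intro v hv
    rw [psR, if_pos hv, div_eq_inv_mul]
  · intro v _ hv
    rw [psR, if_neg hv, zero_mul]

/-- variance of the test function -/
lemma vr_psR (A : ℕ) (hA : 1 ≤ A) : ∃ C : ℝ, 0 < C ∧ ∀ (r : ℕ), 12 ≤ r → ∀ (x0 y0 : ℤ) (W H : ℕ),
    r ≤ H → ∀ (z : V), DR x0 y0 W H r ⊆ Q z ((A : ℤ) * r) →
    vr (DR x0 y0 W H r) (DR x0 y0 W H r) (psR x0 y0 W H r) ≤ C := by
  obtain ⟨C, hC, h⟩ := var_spread (16 * (A : ℝ) ^ 2)
  refine ⟨C, hC, ?_⟩
  intro r hr x0 y0 W H hH z hQ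
  have hrR : (12 : ℝ) ≤ r := by exact_mod_cast hr
  have hAR : (1 : ℝ) ≤ A := by exact_mod_cast hA
  have hN : (1 : ℤ) ≤ (A : ℤ) * r := by
    have h1 : (1 : ℤ) ≤ A := by exact_mod_cast hA
    have h2 : (1 : ℤ) ≤ r := by exact_mod_cast (by omega : 1 ≤ r)
    nlinarith
  have hScard : (r : ℝ) ^ 2 / 16 ≤ (supR x0 y0 W H r).card := card_supR hr hH
  have hSpos : (0 : ℝ) < (supR x0 y0 W H r).card := lt_of_lt_of_le (by positivity) hScard
  have h1 := h (DR x0 y0 W H r) z z ((A : ℤ) * r) ((A : ℤ) * r) (psR x0 y0 W H r) hN le_rfl hQ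
    (by
      intro x
      rw [psR]
      split_ifs
      · positivity
      · exact le_rfl)
    (by
      intro x
      rw [psR]
      have hpos : (0 : ℝ) < ((((A : ℤ) * r : ℤ) : ℝ)) ^ 2 := by
        push_cast
        positivity
      split_ifs
      · rw [inv_eq_one_div, div_le_div_iff₀ hSpos hpos]
        push_cast
        nlinarith
      · positivity)
    (by
      intro x hx
      rw [psR, if_neg]
      intro h2
      exact hx (hQ (supR_subset h2)))
    (by
      have h2 := sum_psR (x0 := x0) (y0 := y0) (W := W) (H := H) (r := r)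
        (B := Q z ((A : ℤ) * r)) (supR_subset.trans hQ) (fun _ => 1)
      simp only [mul_one] at h2
      rw [h2, Finset.sum_const, nsmul_eq_mul, mul_one, div_self hSpos.ne'])
  have h2 : vr (DR x0 y0 W H r) (Q z ((A : ℤ) * r)) (psR x0 y0 W H r) =
      vr (DR x0 y0 W H r) (DR x0 y0 W H r) (psR x0 y0 W H r) := by
    unfold vr
    symm
    have h3 : ∀ x, ∑ y ∈ DR x0 y0 W H r, psR x0 y0 W H r x * gr (DR x0 y0 W H r) x y *
        psR x0 y0 W H r y = ∑ y ∈ Q z ((A : ℤ) * r), psR x0 y0 W H r x *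
        gr (DR x0 y0 W H r) x y * psR x0 y0 W H r y := by
      intro x
      apply Finset.sum_subset hQ
      intro y _ hy
      rw [gr_off_right hy, mul_zero, zero_mul]
    rw [Finset.sum_congr rfl fun x _ => h3 x]
    apply Finset.sum_subset hQ
    intro x _ hx
    apply Finset.sum_eq_zero
    intro y _
    rw [gr_off_left hx, mul_zero, zero_mul]
  rw [h2] at h1
  have hNpos : (0 : ℝ) < ((((A : ℤ) * r : ℤ) : ℝ)) := by exact_mod_cast (by omega : 0 < (A : ℤ) * r)
  rw [div_self hNpos.ne', Real.log_one, add_zero, mul_one] at h1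
  exact h1

/-- bound for the potential quantity -/
lemma mass_bound (A : ℕ) (r : ℕ) (hr : 1 ≤ r) (x0 y0 : ℤ) (W H : ℕ) (hWA : W ≤ A * r)
    (hHA : H ≤ A * r) :
    2 * Real.sqrt ((PR x0 y0 W H r).card * gsum (PR x0 y0 W H r)) ≤
      ((A : ℝ) + 1) ^ 2 * (A + 2) * (r : ℝ) ^ 3 := by
  have hr1 : (1 : ℝ) ≤ r := by exact_mod_cast hr
  have hWR : (W : ℝ) ≤ A * r := by exact_mod_cast hWA
  have hHR : (H : ℝ) ≤ A * r := by exact_mod_cast hHA
  have hA0 : (0 : ℝ) ≤ A := Nat.cast_nonneg A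
  set P := PR x0 y0 W H r with hP
  have hcard : (P.card : ℝ) = (W + r) * (H + 1) := by
    rw [hP, PR, Rc, Finset.card_Icc_prod, Int.card_Icc, Int.card_Icc]
    dsimp only
    have h1 : (x0 + W + r + 1 - (x0 + 1)).toNat = W + r := by omega
    have h2 : (y0 + H + 1 - y0).toNat = H + 1 := by omega
    rw [h1, h2]
    push_cast
    ring
  have hcard' : (P.card : ℝ) ≤ ((A : ℝ) + 1) ^ 2 * (r : ℝ) ^ 2 := by
    rw [hcard]
    have h1 : (W : ℝ) + r ≤ (A + 1) * r := by linarith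
    have h2 : (H : ℝ) + 1 ≤ (A + 1) * r := by linarith
    calc ((W : ℝ) + r) * (H + 1) ≤ ((A + 1) * r) * ((A + 1) * r) :=
          mul_le_mul h1 h2 (by positivity) (by positivity)
      _ = ((A : ℝ) + 1) ^ 2 * (r : ℝ) ^ 2 := by ring
  have hg := gsum_le (D := P) (a := x0 + 1) (b := x0 + W + r) (by
    intro x hx
    rw [hP, PR, mem_Rc] at hx
    exact ⟨hx.1, hx.2.1⟩)
  have hX : (((x0 + W + r - (x0 + 1) + 2 : ℤ)) : ℝ) = W + r + 1 := by push_cast; ring
  rw [hX] at hg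
  have hX2 : (W : ℝ) + r + 1 ≤ (A + 2) * r := by linarith
  have h3 : (P.card : ℝ) * gsum P ≤ ((P.card : ℝ) * (W + r + 1) / 2) ^ 2 := by
    have h4 : (P.card : ℝ) * gsum P ≤ P.card * (P.card * ((W + r + 1) ^ 2 / 8)) :=
      mul_le_mul_of_nonneg_left hg (Nat.cast_nonneg _)
    refine h4.trans ?_
    have h5 : 0 ≤ (P.card : ℝ) ^ 2 * (W + r + 1) ^ 2 := by positivity
    nlinarith
  calc 2 * Real.sqrt (P.card * gsum P) ≤ 2 * Real.sqrt (((P.card : ℝ) * (W + r + 1) / 2) ^ 2) := by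
        apply mul_le_mul_of_nonneg_left (Real.sqrt_le_sqrt h3) (by norm_num)
    _ = (P.card : ℝ) * (W + r + 1) := by
        rw [Real.sqrt_sq (by positivity)]
        ring
    _ ≤ (((A : ℝ) + 1) ^ 2 * (r : ℝ) ^ 2) * ((A + 2) * r) :=
        mul_le_mul hcard' hX2 (by positivity) (by positivity)
    _ = _ := by ring

end GF.RR
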