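import Pool.Agent.Lib.MP_acf58e_gf.RCa

/-!
MP_acf58e_pr, module R: measurability and the deterministic contradiction.
-/

set_option autoImplicit false

open MeasureTheory Set
open scoped ENNReal

namespace GF.RR

/-- the explored set as a function of the state -/
noncomputable def Gq (x0 y0 : ℤ) (W H r : ℕ) (q : (Finset V × Finset V) × Finset V) : Finset V :=
  DR x0 y0 W H r \ (PR x0 y0 W H r \ q.1.1)

lemma mass_le (A : ℕ) {K ε : ℝ} (hK : 0 < K) {x0 y0 : ℤ} {W H r : ℕ} (hr : 1 ≤ r)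
    (hWA : W ≤ A * r) (hHA : H ≤ A * r) {L : ℕ} (hL : 0 < L)
    (hL2 : K * (r : ℝ) ^ (1 + ε) ≤ L) (X : V → ℝ) :
    massR (PR x0 y0 W H r) (stR x0 y0 W H r hL X).1 ≤
      ((A : ℝ) + 1) ^ 2 * (A + 2) / K * (r : ℝ) ^ (-ε) * (r : ℝ) ^ 2 := by
  have h1 := (kst_spec (x0 := x0) (y0 := y0) (W := W) (H := H) (r := r) hL X).2
  have h2 := mass_bound A r hr x0 y0 W H hWA hHA
  have hr0 : (0 : ℝ) < r := by exact_mod_cast hr
  have hm0 : 0 ≤ massR (PR x0 y0 W H r) (stR x0 y0 W H r hL X).1 :=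
    Finset.sum_nonneg fun y _ => Finset.sum_nonneg fun v _ => hm_nonneg _ _ _
  set m := massR (PR x0 y0 W H r) (stR x0 y0 W H r hL X).1 with hm
  have h3 := (mul_le_mul_of_nonneg_left hL2 hm0).trans (h1.trans h2)
  have h4 : (r : ℝ) ^ (1 + ε) = r * (r : ℝ) ^ ε := by rw [Real.rpow_add hr0, Real.rpow_one]
  have h5 : (r : ℝ) ^ (-ε) * (r : ℝ) ^ ε = 1 := by
    rw [← Real.rpow_add hr0, neg_add_cancel, Real.rpow_zero]
  have hu : 0 < (r : ℝ) ^ ε := Real.rpow_pos_of_pos hr0 _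
  rw [h4] at h3
  rw [div_mul_eq_mul_div, div_mul_eq_mul_div, le_div_iff₀ hK]
  have h6 : m * K * (r * (r : ℝ) ^ ε) ≤
      ((A : ℝ) + 1) ^ 2 * (A + 2) * (r : ℝ) ^ (-ε) * (r : ℝ) ^ 2 * (r * (r : ℝ) ^ ε) := by
    calc m * K * (r * (r : ℝ) ^ ε) = m * (K * (r * (r : ℝ) ^ ε)) := by ring
      _ ≤ ((A : ℝ) + 1) ^ 2 * (A + 2) * (r : ℝ) ^ 3 := h3
      _ = ((A : ℝ) + 1) ^ 2 * (A + 2) * ((r : ℝ) ^ (-ε) * (r : ℝ) ^ ε) * (r : ℝ) ^ 3 := by
          rw [h5, mul_one]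
      _ = _ := by ring
  exact le_of_mul_le_mul_right h6 (by positivity)

lemma eta_log {K1 K ε : ℝ} (hK1 : 0 < K1) (hK : 0 < K) (hε : 0 < ε) (h : K1 * 2 ^ ε / ε ≤ K)
    {r : ℕ} (hr : 1 ≤ r) : K1 / K * (r : ℝ) ^ (-ε) * Real.log (r + 1) ≤ 1 := by
  have hr1 : (1 : ℝ) ≤ r := by exact_mod_cast hr
  have hr0 : (0 : ℝ) < r := by linarith
  have h1 : Real.log ((r : ℝ) + 1) ≤ (2 : ℝ) ^ ε * (r : ℝ) ^ ε / ε := by
    refine (Real.log_le_rpow_div (by positivity) hε).trans ?_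
    rw [← Real.mul_rpow (by norm_num) hr0.le]
    apply div_le_div_of_nonneg_right _ hε.le
    exact Real.rpow_le_rpow (by positivity) (by linarith) hε.le
  have h5 : (r : ℝ) ^ (-ε) * (r : ℝ) ^ ε = 1 := by
    rw [← Real.rpow_add hr0, neg_add_cancel, Real.rpow_zero]
  have hv : 0 < (r : ℝ) ^ (-ε) := Real.rpow_pos_of_pos hr0 _
  calc K1 / K * (r : ℝ) ^ (-ε) * Real.log (r + 1) ≤
      K1 / K * (r : ℝ) ^ (-ε) * ((2 : ℝ) ^ ε * (r : ℝ) ^ ε / ε) :=
        mul_le_mul_of_nonneg_left h1 (by positivity)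
    _ = (K1 * 2 ^ ε / ε) / K * ((r : ℝ) ^ (-ε) * (r : ℝ) ^ ε) := by ring
    _ = (K1 * 2 ^ ε / ε) / K := by rw [h5, mul_one]
    _ ≤ 1 := (div_le_one hK).2 h

lemma meas_diag {D : Finset V} {σ : Type} {s : (V → ℝ) → σ} {cell : σ → Cell}
    (hs : IsExp D s cell) {F : (V → ℝ) → σ → ℝ≥0∞} (hF : ∀ q, Measurable fun X => F X q) :
    Measurable (fun X => F X (s X)) :=
  (meas_state hs hF).comp (measurable_id.prodMk measurable_id)

open Classical in
lemma measA {D : Finset V} {σ : Type} {s : (V → ℝ) → σ} {cell : σ → Cell}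
    (hs : IsExp D s cell) (G : σ → Finset V) (ρ R : ℝ) :
    Measurable fun X : V → ℝ => ENNReal.ofReal ((∑ y ∈ D.filter
      (fun y => Deep D y ρ ∧ y ∉ G (s X)),
        max 0 (1 * (cm D X (cell (s X)) y - hx D X y))) / R) := by
  apply meas_diag hs (F := fun X q => ENNReal.ofReal ((∑ y ∈ D.filter
      (fun y => Deep D y ρ ∧ y ∉ G q),
        max 0 (1 * (cm D X (cell q) y - hx D X y))) / R))
  intro q
  apply ENNReal.measurable_ofReal.comp
  apply Measurable.div_const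
  apply Finset.measurable_sum
  intro y _
  exact measurable_const.max (((cm_meas D (cell q) y).sub (meas_hx D y)).const_mul 1)

lemma measM {D : Finset V} {σ : Type} {s : (V → ℝ) → σ} {cell : σ → Cell}
    (hs : IsExp D s cell) : Measurable fun X : V → ℝ =>
      ⨆ v ∈ D, ENNReal.ofReal |cm D X (cell (s X)) v - hx D X v| := by
  apply meas_diag hs (F := fun X q => ⨆ v ∈ D, ENNReal.ofReal |cm D X (cell q) v - hx D X v|)
  intro q
  refine Measurable.iSup fun v => Measurable.iSup fun _ => ?_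
  exact ENNReal.measurable_ofReal.comp
    (((cm_meas D (cell q) v).sub (meas_hx D v)).abs)

lemma measZ {D : Finset V} {σ : Type} {s : (V → ℝ) → σ} {cell : σ → Cell}
    (hs : IsExp D s cell) (ψ : V → ℝ) : Measurable fun X : V → ℝ => ENNReal.ofReal
      |cN D X ψ (cell (s X)) - ∑ v ∈ D, ψ v * hx D X v| := by
  apply meas_diag hs (F := fun X q => ENNReal.ofReal |cN D X ψ (cell q) -
    ∑ v ∈ D, ψ v * hx D X v|)
  intro q
  apply ENNReal.measurable_ofReal.comp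
  apply Measurable.abs
  apply Measurable.sub
  · unfold cN
    exact Finset.measurable_sum _ fun v _ => (cm_meas D (cell q) v).const_mul _
  · exact Finset.measurable_sum _ fun v _ => (meas_hx D v).const_mul _

open Classical in
lemma det {A : ℕ} {c C1 η : ℝ} (hc : 0 < c) (hC1 : 0 < C1)
    (havg : ∀ (r : ℕ), 1000 ≤ r → ∀ (x0 y0 : ℤ) (W H : ℕ),
    r ≤ W → W ≤ A * r → r ≤ H → H ≤ A * r → ∀ (G F : Finset V) (f : V → ℝ) (m M : ℝ),
    0 ≤ m → 0 ≤ M → F ⊆ G → (∀ y : ℤ, y0 ≤ y → y ≤ y0 + H → ((x0, y) : V) ∈ G) →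
    (∀ g ∈ supR x0 y0 W H r, g ∉ G) →
    (∀ v ∈ DR x0 y0 W H r \ G, f v = av f v) →
    (∀ v ∈ G, (∃ y ∈ DR x0 y0 W H r \ G, nn v y) → v ∈ Dq x0 y0 W H r ((r / 100 : ℕ) : ℤ) →
      v ∈ F ∨ f v ≤ -m) → (∀ v ∈ F, f v ≤ M) →
    (∑ g ∈ supR x0 y0 W H r, f g) / (supR x0 y0 W H r).card ≤ -(c * m)
      + (m + M) * ((∑ y ∈ DR x0 y0 W H r \ G, ∑ v ∈ F, hm (DR x0 y0 W H r \ G) y v) /
        (supR x0 y0 W H r).card)
      + C1 * ((∑ z ∈ (Dq x0 y0 W H r ((r / 100 : ℕ) : ℤ)).filter (fun z => z ∉ G), max 0 (f z))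
        / (r : ℝ) ^ 2))
    (hη0 : 0 < η) (hη16 : 16 * η ≤ c / 2) {r : ℕ} (hr : 1000 ≤ r) {x0 y0 : ℤ} {W H : ℕ}
    (hW : r ≤ W) (hWA : W ≤ A * r) (hH : r ≤ H) (hHA : H ≤ A * r) {a : ℝ} (ha : 1 ≤ a)
    {X : V → ℝ} {L : ℝ} {k : ℕ} (hX' : ¬ ShortLR L x0 (x0 + W) y0 (y0 + H) X)
    (hkL : (k : ℝ) ≤ L) {ce : Cell} (hOk : ce.Ok (DR x0 y0 W H r))
    (hCm : ∀ v ∈ RV x0 y0 W H r X k, X v < 0 → cm (DR x0 y0 W H r) X ce v ≤ 0)
    (hceC : ce.C ⊆ RV x0 y0 W H r X k) (hceO : ce.O ⊆ RV x0 y0 W H r X k)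
    (hmass : ∑ y ∈ DR x0 y0 W H r \ GR x0 y0 W H r X k, ∑ v ∈ FR x0 y0 W H r X k,
        hm (DR x0 y0 W H r \ GR x0 y0 W H r X k) y v ≤ η * (r : ℝ) ^ 2)
    (h1 : ∀ v ∈ Dq x0 y0 W H r ((r / 100 : ℕ) : ℤ), |hx (DR x0 y0 W H r) X v - a| < a / 2)
    (h2 : ∀ v ∈ DR x0 y0 W H r, |cm (DR x0 y0 W H r) X ce v - hx (DR x0 y0 W H r) X v| <
      c * a / (192 * η))
    (h3 : (∑ y ∈ (DR x0 y0 W H r).filter (fun y => Deep (DR x0 y0 W H r) y (1 / 100 * r) ∧
      y ∉ GR x0 y0 W H r X k), max 0 (1 * (cm (DR x0 y0 W H r) X ce y -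
        hx (DR x0 y0 W H r) X y))) / (r : ℝ) ^ 2 < c * a / (12 * C1))
    (h4 : |cN (DR x0 y0 W H r) X (psR x0 y0 W H r) ce -
      ∑ v ∈ DR x0 y0 W H r, psR x0 y0 W H r v * hx (DR x0 y0 W H r) X v| < c * a / 12) :
    False := by
  have hrR : (1000 : ℝ) ≤ r := by exact_mod_cast hr
  have hr0 : (0 : ℝ) < r := by linarith
  have ha0 : 0 < a := by linarith
  have ht2p : 0 < c * a / (192 * η) := by positivity
  set t2 := c * a / (192 * η) with ht2
  set D0 := DR x0 y0 W H r with hD0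
  set f : V → ℝ := fun v => cm D0 X ce v - hx D0 X v with hf
  have hSG : ∀ g ∈ supR x0 y0 W H r, g ∉ GR x0 y0 W H r X k := by
    intro g hg hgG
    rw [supR, mem_Rc] at hg
    rcases mem_GR hgG with h5 | h5
    · have h6 := RR_left hX' hkL h5
      omega
    · omega
  have havg' := havg r hr x0 y0 W H hW hWA hH hHA (GR x0 y0 W H r X k) (FR x0 y0 W H r X k)
    f (a / 2) t2 (by positivity) ht2p.le ((bfs_front_subset _).trans (RR_subset_GR _))
    (by
      intro y hy hy'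
      apply mem_GR_left
      · rw [DR, mem_Rc]
        dsimp only
        omega
      · exact le_rfl) hSG
    (by
      intro v hv
      have hv' := Finset.mem_sdiff.1 hv
      have h5 : v ∉ RV x0 y0 W H r X k := fun h => hv'.2 (RR_subset_GR _ h)
      have h6 := cm_harm D0 X ce hOk hv'.1
        (fun h => h5 (hceC h)) (fun h => h5 (hceO h))
      have h7 := hx_harm D0 X hv'.1
      simp only [hf]
      rw [h6, h7]
      unfold av
      ring)
    (by
      intro v hv hex hvq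
      obtain ⟨y, hy, hvy⟩ := hex
      have h5 := GR_visible hv hy hvy
      rcases h5.2 with h6 | h6
      · right
        have h7 := hCm v h5.1 h6
        have h8 := h1 v hvq
        have h9 := (abs_lt.1 h8).1
        simp only [hf]
        linarith
      · left
        exact h6)
    (by
      intro v hv
      exact (le_abs_self _).trans (h2 v (RR_subset_DR _ (bfs_front_subset _ hv))).le)
  have hScard : (r : ℝ) ^ 2 / 16 ≤ (supR x0 y0 W H r).card := card_supR (by omega) hH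
  have hSpos : (0 : ℝ) < (supR x0 y0 W H r).card := lt_of_lt_of_le (by positivity) hScard
  have hmass2 : (∑ y ∈ DR x0 y0 W H r \ GR x0 y0 W H r X k, ∑ v ∈ FR x0 y0 W H r X k,
      hm (DR x0 y0 W H r \ GR x0 y0 W H r X k) y v) / (supR x0 y0 W H r).card ≤ 16 * η := by
    rw [div_le_iff₀ hSpos]
    refine hmass.trans ?_
    have h5 := mul_le_mul_of_nonneg_left hScard hη0.le
    linarith
  have hmass3 := mul_le_mul_of_nonneg_left hmass2 (by positivity : 0 ≤ a / 2 + t2)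
  -- the positive part
  have hpos : (∑ z ∈ (Dq x0 y0 W H r ((r / 100 : ℕ) : ℤ)).filter
      (fun z => z ∉ GR x0 y0 W H r X k), max 0 (f z)) / (r : ℝ) ^ 2 < c * a / (12 * C1) := by
    refine lt_of_le_of_lt ?_ h3
    apply div_le_div_of_nonneg_right _ (by positivity)
    simp only [one_mul]
    apply Finset.sum_le_sum_of_subset_of_nonneg
    · intro v hv
      rw [Finset.mem_filter] at hv ⊢
      refine ⟨Dq_subset (by omega) hv.1, ?_, hv.2⟩
      intro j hj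
      have h6 : j ≤ r / 100 := by
        have h8 : (j : ℝ) * 100 < r := by linarith
        have h9 : j * 100 < r := by exact_mod_cast h8
        omega
      intro u hu
      have h7 := hv.1
      rw [Dq, mem_Rc] at h7
      rw [hD0, DR, mem_Rc]
      rw [Q, Finset.mem_Icc, Prod.le_def, Prod.le_def] at hu
      dsimp only at hu
      omega
    · intro v _ _
      exact le_max_left _ _
  have hpos2 := mul_lt_mul_of_pos_left hpos hC1
  -- the mean
  have hmean : (∑ g ∈ supR x0 y0 W H r, f g) / (supR x0 y0 W H r).card =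
      cN D0 X (psR x0 y0 W H r) ce - ∑ v ∈ D0, psR x0 y0 W H r v * hx D0 X v := by
    rw [← sum_psR supR_subset f, cN, ← Finset.sum_sub_distrib]
    apply Finset.sum_congr rfl
    intro v _
    simp only [hf]
    ring
  rw [← hmean] at h4
  have h4'' := (abs_lt.1 h4).1
  have e2 : t2 * (16 * η) = c * a / 12 := by
    rw [ht2]
    field_simp
    ring
  have e3 : C1 * (c * a / (12 * C1)) = c * a / 12 := by
    field_simp
  have e4 : a / 2 * (16 * η) ≤ c * a / 4 := by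
    have h5 := mul_le_mul_of_nonneg_left hη16 (by positivity : 0 ≤ a / 2)
    linarith
  rw [e3] at hpos2
  rw [add_mul (a / 2) t2 (16 * η), e2] at hmass3
  linarith

end GF.RR
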