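import Pool.Agent.Lib.MP_acf58e_gf.RCb
import Pool.Agent.Lib.MP_acf58e_gf.X4

/-!
MP_acf58e_pr, module R: the four bad events.
-/

set_option autoImplicit false

open MeasureTheory Set
open scoped ENNReal

namespace GF.RR

lemma stR_RV {x0 y0 : ℤ} {W H r L : ℕ} (hL : 0 < L) (X : V → ℝ) :
    (stR x0 y0 W H r hL X).1.1 = RV x0 y0 W H r X (kst x0 y0 W H r hL X) := rfl

lemma stR_FR {x0 y0 : ℤ} {W H r L : ℕ} (hL : 0 < L) (X : V → ℝ) :
    (stR x0 y0 W H r hL X).1.2 = FR x0 y0 W H r X (kst x0 y0 W H r hL X) := rfl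

lemma Gq_stR {x0 y0 : ℤ} {W H r L : ℕ} (hL : 0 < L) (X : V → ℝ) :
    Gq x0 y0 W H r (stR x0 y0 W H r hL X) = GR x0 y0 W H r X (kst x0 y0 W H r hL X) := rfl

lemma cellC {x0 y0 : ℤ} {W H r L : ℕ} (hL : 0 < L) (X : V → ℝ) :
    (cellR (stR x0 y0 W H r hL X)).C ⊆ RV x0 y0 W H r X (kst x0 y0 W H r hL X) :=
  Finset.filter_subset _ _

lemma cellO {x0 y0 : ℤ} {W H r L : ℕ} (hL : 0 < L) (X : V → ℝ) :
    (cellR (stR x0 y0 W H r hL X)).O ⊆ RV x0 y0 W H r X (kst x0 y0 W H r hL X) :=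
  Finset.sdiff_subset

lemma cellcm {x0 y0 : ℤ} {W H r L : ℕ} (hL : 0 < L) (X : V → ℝ) {v : V}
    (hv : v ∈ RV x0 y0 W H r X (kst x0 y0 W H r hL X)) (hX : X v < 0) :
    cm (DR x0 y0 W H r) X (cellR (stR x0 y0 W H r hL X)) v ≤ 0 :=
  cm_le (DR x0 y0 W H r) X (cellR (stR x0 y0 W H r hL X)) ((stR_isExp hL).2.1 X)
    (Finset.mem_filter.2 ⟨hv, hX⟩)

lemma mass_eq {x0 y0 : ℤ} {W H r L : ℕ} (hL : 0 < L) (X : V → ℝ) :
    ∑ y ∈ DR x0 y0 W H r \ GR x0 y0 W H r X (kst x0 y0 W H r hL X),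
      ∑ v ∈ FR x0 y0 W H r X (kst x0 y0 W H r hL X),
        hm (DR x0 y0 W H r \ GR x0 y0 W H r X (kst x0 y0 W H r hL X)) y v =
    massR (PR x0 y0 W H r) (stR x0 y0 W H r hL X).1 := by
  rw [DR_sdiff_GR]
  rfl

open Classical in
/-- abstract form of the estimate -/
theorem rc_core {A : ℕ} (hA : 1 ≤ A) {c C1 C2 C3 C4 C5 η : ℝ} (hc : 0 < c) (hC1 : 0 < C1)
    (hC2 : 0 < C2) (hC3 : 0 < C3) (hC4 : 0 < C4) (hη0 : 0 < η)
    {r : ℕ} (hr : 1000 ≤ r)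
    (hηlog : η * Real.log (r + 1) ≤ 1) {x0 y0 : ℤ} {W H : ℕ}
    {a : ℝ} (ha : 1 ≤ a) {D D0 : Finset V} (hD0D : D0 ⊆ D) {σ : Type} {s : (V → ℝ) → σ}
    {cell : σ → Cell} (hs : IsExp D0 s cell) (G : σ → Finset V)
    (hch : ∫⁻ X, ENNReal.ofReal ((∑ y ∈ D0.filter (fun y => Deep D0 y (1 / 100 * r) ∧ y ∉ G (s X)),
          max 0 (1 * (cm D0 X (cell (s X)) y - hx D0 X y))) / (r : ℝ) ^ 2)
        ∂(gam D (fun _ => a)) ≤ ENNReal.ofReal C2)
    (hMM : ∫⁻ X, (⨆ v ∈ D0, ENNReal.ofReal |cm D0 X (cell (s X)) v - hx D0 X v|)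
      ∂(gam D (fun _ => a)) ≤ ENNReal.ofReal (C3 * Real.log (r + 1)))
    (hN1 : gam D (fun _ => a) {X | ∃ v ∈ Dq x0 y0 W H r ((r / 100 : ℕ) : ℤ),
      a / 2 ≤ |hx D0 X v - a|} ≤ ENNReal.ofReal (C4 / a))
    (hvar : vr D0 D0 (psR x0 y0 W H r) ≤ C5) (E : Set (V → ℝ))
    (hdet : ∀ X ∈ E, (∀ v ∈ Dq x0 y0 W H r ((r / 100 : ℕ) : ℤ), |hx D0 X v - a| < a / 2) →
      (∀ v ∈ D0, |cm D0 X (cell (s X)) v - hx D0 X v| < c * a / (192 * η)) →
      (∑ y ∈ D0.filter (fun y => Deep D0 y (1 / 100 * r) ∧ y ∉ G (s X)),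
          max 0 (1 * (cm D0 X (cell (s X)) y - hx D0 X y))) / (r : ℝ) ^ 2 < c * a / (12 * C1) →
      |cN D0 X (psR x0 y0 W H r) (cell (s X)) -
        ∑ v ∈ D0, psR x0 y0 W H r v * hx D0 X v| < c * a / 12 → False) :
    gam D (fun _ => a) E ≤ ENNReal.ofReal
      ((C4 + 192 * C3 / c + 12 * C1 * C2 / c + 12 * Real.sqrt C5 / c) / a) := by
  have hrR : (1000 : ℝ) ≤ r := by exact_mod_cast hr
  have hr0 : (0 : ℝ) < r := by linarith
  have ha0 : 0 < a := by linarith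
  have hZZ := mean_Z hD0D a hs (psR x0 y0 W H r) hvar
  set t2 : ℝ := c * a / (192 * η) with ht2
  set t3 : ℝ := c * a / (12 * C1) with ht3
  set t4 : ℝ := c * a / 12 with ht4
  have ht2p : 0 < t2 := by positivity
  have ht3p : 0 < t3 := by positivity
  have ht4p : 0 < t4 := by positivity
  have hN2 := markov (measM hs) ht2p hMM
  have hN3 := markov (measA hs G (1 / 100 * r) ((r : ℝ) ^ 2)) ht3p hch
  have hN4 := markov (measZ hs (psR x0 y0 W H r)) ht4p hZZ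
  have hsub : E ⊆
      {X | ∃ v ∈ Dq x0 y0 W H r ((r / 100 : ℕ) : ℤ), a / 2 ≤ |hx D0 X v - a|} ∪
      ({X | ENNReal.ofReal t2 ≤ ⨆ v ∈ D0, ENNReal.ofReal |cm D0 X (cell (s X)) v - hx D0 X v|} ∪
      ({X | ENNReal.ofReal t3 ≤ ENNReal.ofReal ((∑ y ∈ D0.filter
        (fun y => Deep D0 y (1 / 100 * r) ∧ y ∉ G (s X)),
          max 0 (1 * (cm D0 X (cell (s X)) y - hx D0 X y))) / (r : ℝ) ^ 2)} ∪
      {X | ENNReal.ofReal t4 ≤ ENNReal.ofReal
        |cN D0 X (psR x0 y0 W H r) (cell (s X)) - ∑ v ∈ D0, psR x0 y0 W H r v * hx D0 X v|})) := by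
    intro X hX
    by_contra hcon
    simp only [Set.mem_union, Set.mem_ofPred_eq, not_or, not_exists, not_and, not_le] at hcon
    obtain ⟨h1, h2, h3, h4⟩ := hcon
    refine hdet X hX h1 ?_ ((ENNReal.ofReal_lt_ofReal_iff ht3p).1 h3)
      ((ENNReal.ofReal_lt_ofReal_iff ht4p).1 h4)
    intro v hv
    have h5 : ENNReal.ofReal |cm D0 X (cell (s X)) v - hx D0 X v| < ENNReal.ofReal t2 :=
      lt_of_le_of_lt (le_iSup₂ (f := fun v (_ : v ∈ D0) =>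
        ENNReal.ofReal |cm D0 X (cell (s X)) v - hx D0 X v|) v hv) h2
    exact (ENNReal.ofReal_lt_ofReal_iff ht2p).1 h5
  refine (measure_mono hsub).trans ?_
  refine (measure_union_le _ _).trans ?_
  refine (add_le_add hN1 ((measure_union_le _ _).trans (add_le_add hN2
    ((measure_union_le _ _).trans (add_le_add hN3 hN4))))).trans ?_
  have hlog0 : 0 ≤ Real.log ((r : ℝ) + 1) := Real.log_nonneg (by linarith)
  rw [← ENNReal.ofReal_add (by positivity) (by positivity),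
    ← ENNReal.ofReal_add (by positivity) (by positivity),
    ← ENNReal.ofReal_add (by positivity) (by positivity)]
  apply ENNReal.ofReal_le_ofReal
  have b2 : C3 * Real.log (r + 1) / t2 ≤ 192 * C3 / c / a := by
    have h5 := mul_le_mul_of_nonneg_left hηlog hC3.le
    rw [ht2, div_div_eq_mul_div, div_div]
    apply div_le_div_of_nonneg_right _ (by positivity)
    linarith
  have b3 : C2 / t3 = 12 * C1 * C2 / c / a := by
    rw [ht3]
    field_simp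
  have b4 : Real.sqrt C5 / t4 = 12 * Real.sqrt C5 / c / a := by
    rw [ht4]
    field_simp
  rw [b3, b4]
  have e5 : (C4 + 192 * C3 / c + 12 * C1 * C2 / c + 12 * Real.sqrt C5 / c) / a =
      C4 / a + (192 * C3 / c / a + (12 * C1 * C2 / c / a + 12 * Real.sqrt C5 / c / a)) := by
    ring
  rw [e5]
  linarith

end GF.RR
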