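import Pool.Agent.Lib.MP_acf58e_gf.X0
open MeasureTheory Set ProbabilityTheory
open scoped ENNReal
namespace GF

theorem Cell.meas (c : Cell) : MeasurableSet c.S := measurableSet_cell _ _ _

theorem Cell.pos (D : Finset V) (β : V → ℝ) (c : Cell) (h : c.Ok D) : gam D β c.S ≠ 0 :=
  (cell_pos h.1 h.2.1 h.2.2 c.θ β).ne'

private theorem toReal_pos (D : Finset V) (β : V → ℝ) (c : Cell) (h : c.Ok D) :
    0 < (gam D β c.S).toReal :=
  ENNReal.toReal_pos (Cell.pos D β c h) (measure_ne_top _ _)

theorem cm_off (D : Finset V) (β : V → ℝ) (c : Cell) (h : c.Ok D) {v : V} (hv : v ∉ D) : cm D β c v = β v := by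
  have hp := toReal_pos D β c h
  have e : ∫ X in c.S, X v ∂(gam D β) = ∫ X in c.S, β v ∂(gam D β) := by
    apply integral_congr_ae
    apply ae_restrict_of_ae
    filter_upwards [gam_ae_off D β] with X hX
    exact hX v hv
  unfold cm
  rw [e, setIntegral_const, smul_eq_mul]
  unfold Measure.real
  field_simp

private theorem mean_site (v : V) (X : V → ℝ) : ∫ Y : V → ℝ, Y v ∂gam {v} X = av X v := by
  have h1 : ∫ Y : V → ℝ, Y v ∂gam {v} X = ∫ y : ℝ, y ∂((gam {v} X).map (fun Y : V → ℝ => Y v)) := by
    rw [integral_map (measurable_pi_apply v).aemeasurable (by fun_prop)]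
  rw [h1, law_site]
  exact integral_id_gaussianReal

private theorem cell_ins (c : Cell) {v : V} (hC : v ∉ c.C) (hO : v ∉ c.O) {X Y : V → ℝ}
    (h : ∀ x ∉ ({v} : Finset V), Y x = X x) : Y ∈ c.S ↔ X ∈ c.S := by
  have h1 : ∀ x ∈ c.C, Y x = X x := fun x hx => h x (by
    rw [Finset.mem_singleton]; rintro rfl; exact hC hx)
  have h2 : ∀ x ∈ c.O, Y x = X x := fun x hx => h x (by
    rw [Finset.mem_singleton]; rintro rfl; exact hO hx)
  unfold Cell.S cell
  simp only [Set.mem_ofPred_eq]
  constructor
  · rintro ⟨a, b⟩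
    exact ⟨fun x hx => by rw [← h1 x hx]; exact a x hx, fun x hx => by rw [← h2 x hx]; exact b x hx⟩
  · rintro ⟨a, b⟩
    exact ⟨fun x hx => by rw [h1 x hx]; exact a x hx, fun x hx => by rw [h2 x hx]; exact b x hx⟩

theorem cm_harm (D : Finset V) (β : V → ℝ) (c : Cell) (h : c.Ok D) {v : V} (hv : v ∈ D) (hC : v ∉ c.C)
    (hO : v ∉ c.O) : cm D β c v = av (cm D β c) v := by
  have hp := toReal_pos D β c h
  have hint : ∀ x : V, IntegrableOn (fun X : V → ℝ => X x) c.S (gam D β) :=
    fun x => (integrable_coord D β x).integrableOn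
  have hF : Measurable (c.S.indicator (fun X : V → ℝ => X v)) := (measurable_pi_apply v).indicator c.meas
  have hFi : Integrable (c.S.indicator (fun X : V → ℝ => X v)) (gam D β) :=
    (integrable_indicator_iff c.meas).2 (hint v)
  have hd := (dlr_integral (E := {v}) (Finset.singleton_subset_iff.2 hv) β hF hFi).2.2
  have e1 : ∀ X : V → ℝ, ∫ Y, c.S.indicator (fun X : V → ℝ => X v) Y ∂gam {v} X =
      c.S.indicator (fun X : V → ℝ => av X v) X := by
    intro X
    have e2 : ∫ Y, c.S.indicator (fun X : V → ℝ => X v) Y ∂gam {v} X =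
        ∫ Y : V → ℝ, (c.S.indicator (fun _ => (1:ℝ)) X) * Y v ∂gam {v} X := by
      apply integral_congr_ae
      filter_upwards [gam_ae_off {v} X] with Y hY
      have hiff := cell_ins c hC hO hY
      by_cases hXS : X ∈ c.S
      · have hYS := hiff.2 hXS
        simp [indicator_of_mem, hXS, hYS]
      · have hYS : Y ∉ c.S := fun hh => hXS (hiff.1 hh)
        simp [indicator_of_notMem, hXS, hYS]
    rw [e2, integral_const_mul, mean_site]
    by_cases hXS : X ∈ c.S
    · simp [indicator_of_mem, hXS]
    · simp [indicator_of_notMem, hXS]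
  simp only [e1] at hd
  rw [integral_indicator c.meas, integral_indicator c.meas] at hd
  have e3 : ∫ X in c.S, av X v ∂gam D β =
      ((∫ X in c.S, X (nE v) ∂gam D β) + (∫ X in c.S, X (nW v) ∂gam D β) +
        (∫ X in c.S, X (nN v) ∂gam D β) + (∫ X in c.S, X (nS v) ∂gam D β)) / 4 := by
    unfold av
    rw [integral_div]
    have i1 := hint (nE v); have i2 := hint (nW v); have i3 := hint (nN v); have i4 := hint (nS v)
    have h12 : IntegrableOn (fun X : V → ℝ => X (nE v) + X (nW v)) c.S (gam D β) := i1.add i2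
    have h123 : IntegrableOn (fun X : V → ℝ => X (nE v) + X (nW v) + X (nN v)) c.S (gam D β) := h12.add i3
    rw [integral_add h123 i4, integral_add h12 i3, integral_add i1 i2]
  unfold cm
  rw [hd, e3]
  unfold av
  ring

theorem cm_le (D : Finset V) (β : V → ℝ) (c : Cell) (h : c.Ok D) {v : V} (hv : v ∈ c.C) : cm D β c v ≤ c.θ v := by
  have hp := toReal_pos D β c h
  unfold cm
  rw [div_le_iff₀ hp]
  have h1 : ∫ X in c.S, X v ∂(gam D β) ≤ ∫ X in c.S, c.θ v ∂(gam D β) := by
    apply setIntegral_mono_on (integrable_coord D β v).integrableOn (integrable_const _).integrableOn c.meas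
    intro X hX
    exact (hX.1 v hv).le
  rw [setIntegral_const, smul_eq_mul] at h1
  unfold Measure.real at h1
  linarith

theorem le_cm (D : Finset V) (β : V → ℝ) (c : Cell) (h : c.Ok D) {v : V} (hv : v ∈ c.O) : c.θ v ≤ cm D β c v := by
  have hp := toReal_pos D β c h
  unfold cm
  rw [le_div_iff₀ hp]
  have h1 : ∫ X in c.S, c.θ v ∂(gam D β) ≤ ∫ X in c.S, X v ∂(gam D β) := by
    apply setIntegral_mono_on (integrable_const _).integrableOn (integrable_coord D β v).integrableOn c.meas
    intro X hX
    exact hX.2 v hv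
  rw [setIntegral_const, smul_eq_mul] at h1
  unfold Measure.real at h1
  linarith

/-- cm depends only on the values of β off D; measurability in β -/
theorem cm_meas (D : Finset V) (c : Cell) (v : V) : Measurable (fun β : V → ℝ => cm D β c v) := by
  unfold cm
  apply Measurable.div
  · have hF : Measurable (c.S.indicator (fun X : V → ℝ => X v)) := (measurable_pi_apply v).indicator c.meas
    let κ : Kernel (V → ℝ) (V → ℝ) := ⟨gam D, measurable_gam D⟩
    have h1 := (hF.stronglyMeasurable.integral_kernel (κ := κ)).measurable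
    have e : (fun β : V → ℝ => ∫ X in c.S, X v ∂gam D β) =
        fun β : V → ℝ => ∫ X, c.S.indicator (fun X : V → ℝ => X v) X ∂κ β := by
      funext β
      rw [integral_indicator c.meas]
      rfl
    rw [e]
    exact h1
  · exact ((Measure.measurable_coe c.meas).comp (measurable_gam D)).ennreal_toReal

theorem cm_congr (D : Finset V) (β β' : V → ℝ) (h : ∀ v ∉ D, β v = β' v) (c : Cell) (v : V) :
    cm D β c v = cm D β' c v := by
  unfold cm
  rw [gam_congr h]

end GF
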