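import Pool.Agent.Lib.MP_acf58e_gf.RDet
import Pool.Agent.Lib.MP_acf58e_gf.X1

/-!
MP_acf58e_pr, module R: the stopped breadth first search as an exploration.
-/

set_option autoImplicit false

open MeasureTheory Set
open scoped ENNReal

namespace GF.RR

/-- mass of the harmonic measure of the frontier -/
noncomputable def massR (P : Finset V) (q : Finset V × Finset V) : ℝ :=
  ∑ y ∈ P \ q.1, ∑ v ∈ q.2, hm (P \ q.1) y v

variable {x0 y0 : ℤ} {W H r : ℕ}

lemma exists_k (x0 y0 : ℤ) (W H r : ℕ) {L : ℕ} (hL : 0 < L) (X : V → ℝ) :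
    ∃ k, k < L ∧ massR (PR x0 y0 W H r) (bfs (PR x0 y0 W H r) (SR x0 y0 H) X k) * L ≤
      2 * Real.sqrt ((PR x0 y0 W H r).card * gsum (PR x0 y0 W H r)) := by
  obtain ⟨k, hk, h⟩ := exists_small (PR x0 y0 W H r) (SR x0 y0 H) X hL
  rw [SR_disj] at h
  exact ⟨k, hk, h⟩

open Classical in
/-- the stopping time -/
noncomputable def kst (x0 y0 : ℤ) (W H r : ℕ) {L : ℕ} (hL : 0 < L) (X : V → ℝ) : ℕ :=
  Nat.find (exists_k x0 y0 W H r hL X)

open Classical in
/-- the state: revealed set, frontier, closed revealed vertices -/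
noncomputable def stR (x0 y0 : ℤ) (W H r : ℕ) {L : ℕ} (hL : 0 < L) (X : V → ℝ) :
    (Finset V × Finset V) × Finset V :=
  (bfs (PR x0 y0 W H r) (SR x0 y0 H) X (kst x0 y0 W H r hL X),
    (bfs (PR x0 y0 W H r) (SR x0 y0 H) X (kst x0 y0 W H r hL X)).1.filter fun v => X v < 0)

/-- the cell of a state -/
noncomputable def cellR (q : (Finset V × Finset V) × Finset V) : Cell :=
  ⟨q.2, q.1.1 \ q.2, fun _ => 0⟩

lemma kst_spec {L : ℕ} (hL : 0 < L) (X : V → ℝ) :
    kst x0 y0 W H r hL X < L ∧ massR (PR x0 y0 W H r) (stR x0 y0 W H r hL X).1 * L ≤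
      2 * Real.sqrt ((PR x0 y0 W H r).card * gsum (PR x0 y0 W H r)) := by
  classical
  exact Nat.find_spec (exists_k x0 y0 W H r hL X)

theorem stR_isExp {L : ℕ} (hL : 0 < L) :
    IsExp (DR x0 y0 W H r) (stR x0 y0 W H r hL) cellR := by
  classical
  have hsub : ∀ X, (stR x0 y0 W H r hL X).1.1 ⊆ DR x0 y0 W H r := fun X => RR_subset_DR _
  have hF : ∀ X, (stR x0 y0 W H r hL X).1.2 ⊆ DR x0 y0 W H r := fun X =>
    (bfs_front_subset _).trans (RR_subset_DR _)
  have hC : ∀ X, (stR x0 y0 W H r hL X).2 ⊆ (stR x0 y0 W H r hL X).1.1 := fun X =>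
    Finset.filter_subset _ _
  refine ⟨?_, ?_, ?_, ?_⟩
  · have h1 : (((DR x0 y0 W H r).powerset ×ˢ (DR x0 y0 W H r).powerset) ×ˢ
        (DR x0 y0 W H r).powerset : Finset ((Finset V × Finset V) × Finset V)).finite_toSet =
        ((((DR x0 y0 W H r).powerset ×ˢ (DR x0 y0 W H r).powerset) ×ˢ
        (DR x0 y0 W H r).powerset : Finset ((Finset V × Finset V) × Finset V))).finite_toSet := rfl
    refine Set.Finite.subset (((((DR x0 y0 W H r).powerset ×ˢ (DR x0 y0 W H r).powerset) ×ˢ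
        (DR x0 y0 W H r).powerset : Finset ((Finset V × Finset V) × Finset V))).finite_toSet) ?_
    rintro _ ⟨X, rfl⟩
    rw [Finset.mem_coe, Finset.mem_product, Finset.mem_product, Finset.mem_powerset,
      Finset.mem_powerset, Finset.mem_powerset]
    exact ⟨⟨hsub X, hF X⟩, (hC X).trans (hsub X)⟩
  · intro X
    exact ⟨(hC X).trans (hsub X), Finset.sdiff_subset.trans (hsub X), Finset.disjoint_sdiff⟩
  · intro X
    refine ⟨fun v hv => ?_, fun v hv => ?_⟩
    · exact (Finset.mem_filter.1 hv).2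
    · have h1 := Finset.mem_sdiff.1 hv
      by_contra hcon
      exact h1.2 (Finset.mem_filter.2 ⟨h1.1, not_le.1 hcon⟩)
  · intro X X' hX'
    have hsign : ∀ v ∈ (bfs (PR x0 y0 W H r) (SR x0 y0 H) X (kst x0 y0 W H r hL X)).1,
        (0 ≤ X' v ↔ 0 ≤ X v) := by
      intro v hv
      by_cases h : X v < 0
      · have h1 : X' v < 0 := hX'.1 v (Finset.mem_filter.2 ⟨hv, h⟩)
        exact iff_of_false (not_le.2 h1) (not_le.2 h)
      · have h1 : 0 ≤ X' v := hX'.2 v (Finset.mem_sdiff.2 ⟨hv, fun h2 => h (Finset.mem_filter.1 h2).2⟩)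
        exact iff_of_true h1 (not_lt.1 h)
    have hb := bfs_congr hsign
    have hk : kst x0 y0 W H r hL X' = kst x0 y0 W H r hL X := by
      unfold kst
      rw [Nat.find_eq_iff]
      refine ⟨?_, ?_⟩
      · have h1 := hb (kst x0 y0 W H r hL X) le_rfl
        unfold kst at h1
        rw [h1]
        exact Nat.find_spec (exists_k x0 y0 W H r hL X)
      · intro n hn
        have h1 := hb n (by unfold kst; exact hn.le)
        rw [h1]
        exact Nat.find_min (exists_k x0 y0 W H r hL X) hn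
    unfold stR
    rw [hk, hb _ le_rfl]
    congr 1
    apply Finset.filter_congr
    intro v hv
    have h1 := hsign v hv
    constructor
    · intro h2
      by_contra h3
      exact not_le.2 h2 (h1.2 (not_lt.1 h3))
    · intro h2
      by_contra h3
      exact not_le.2 h2 (h1.1 (not_lt.1 h3))

end GF.RR
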