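import Pool.Agent.Lib.MP_acf58e_gf.TBase

/-!
MP_acf58e_pr, module T, T2: parity blocking.
-/

set_option autoImplicit false

open Set

namespace GF

/-- the number of steps of the path `p` over the column gap `x | x + 1` strictly above height `y` -/
def nGap (n : ℕ) (p : ℕ → V) (x y : ℤ) : ℕ :=
  ((Finset.range n).filter fun i => (p i).1 + (p (i + 1)).1 = 2 * x + 1 ∧
    2 * y < (p i).2 + (p (i + 1)).2).card

/-- the number of steps over the column gap to the right of `v`, strictly above `v` -/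
def nAb (n : ℕ) (p : ℕ → V) (v : V) : ℕ := nGap n p v.1 v.2

namespace TT

variable {n : ℕ} {p : ℕ → V} {x y a b : ℤ}

/-- vertical move, nearest neighbour path -/
lemma gap_up_nn (hp : ∀ i < n, nn (p i) (p (i + 1)))
    (h : (∀ i ≤ n, p i ≠ (x, y + 1)) ∨ (∀ i ≤ n, p i ≠ (x + 1, y + 1))) :
    nGap n p x y = nGap n p x (y + 1) := by
  unfold nGap
  congr 1
  apply Finset.filter_congr
  intro i hi
  have hi := Finset.mem_range.1 hi
  have h1 := nn_iff'.1 (hp i hi)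
  constructor
  · rintro ⟨h2, h3⟩
    refine ⟨h2, ?_⟩
    by_contra hcon
    have h4 : (p i).2 = y + 1 := by omega
    have h5 : (p (i + 1)).2 = y + 1 := by omega
    rcases h with h | h
    · rcases (show (p i).1 = x ∨ (p (i + 1)).1 = x by omega) with h6 | h6
      · exact h i hi.le (Prod.ext h6 h4)
      · exact h (i + 1) hi (Prod.ext h6 h5)
    · rcases (show (p i).1 = x + 1 ∨ (p (i + 1)).1 = x + 1 by omega) with h6 | h6
      · exact h i hi.le (Prod.ext h6 h4)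
      · exact h (i + 1) hi (Prod.ext h6 h5)
  · rintro ⟨h2, h3⟩
    exact ⟨h2, by omega⟩

/-- vertical move, star path -/
lemma gap_up_st (hp : ∀ i < n, st (p i) (p (i + 1)))
    (h : ∀ i ≤ n, p i ≠ (x, y + 1)) (h' : ∀ i ≤ n, p i ≠ (x, y)) :
    nGap n p x y = nGap n p x (y + 1) := by
  unfold nGap
  congr 1
  apply Finset.filter_congr
  intro i hi
  have hi := Finset.mem_range.1 hi
  have h1 := st_iff'.1 (hp i hi)
  constructor
  · rintro ⟨h2, h3⟩
    refine ⟨h2, ?_⟩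
    by_contra hcon
    rcases (show (p i).1 = x ∨ (p (i + 1)).1 = x by omega) with h6 | h6
    · rcases (show (p i).2 = y ∨ (p i).2 = y + 1 by omega) with h7 | h7
      · exact h' i hi.le (Prod.ext h6 h7)
      · exact h i hi.le (Prod.ext h6 h7)
    · rcases (show (p (i + 1)).2 = y ∨ (p (i + 1)).2 = y + 1 by omega) with h7 | h7
      · exact h' (i + 1) hi (Prod.ext h6 h7)
      · exact h (i + 1) hi (Prod.ext h6 h7)
  · rintro ⟨h2, h3⟩
    exact ⟨h2, by omega⟩

/-- horizontal move: the general statement -/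
lemma gap_side (h0 : (p 0).1 ≠ x + 1) (hn : (p n).1 ≠ x + 1)
    (hR : ∀ i < n, (¬ ((p i).1 = x + 1 ∧ y < (p i).2 ↔ (p (i + 1)).1 = x + 1 ∧ y < (p (i + 1)).2)) ↔
      (((p i).1 + (p (i + 1)).1 = 2 * x + 1 ∧ 2 * y < (p i).2 + (p (i + 1)).2) ∨
      ((p i).1 + (p (i + 1)).1 = 2 * (x + 1) + 1 ∧ 2 * y < (p i).2 + (p (i + 1)).2))) :
    nGap n p x y % 2 = nGap n p (x + 1) y % 2 := by
  have h1 := changes_parity (fun i => (p i).1 = x + 1 ∧ y < (p i).2) n
  have h2 : ((p 0).1 = x + 1 ∧ y < (p 0).2 ↔ (p n).1 = x + 1 ∧ y < (p n).2) :=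
    iff_of_false (fun h => h0 h.1) (fun h => hn h.1)
  rw [if_pos h2] at h1
  have h3 : ((Finset.range n).filter fun i =>
      ¬ ((p i).1 = x + 1 ∧ y < (p i).2 ↔ (p (i + 1)).1 = x + 1 ∧ y < (p (i + 1)).2)).card =
      nGap n p x y + nGap n p (x + 1) y := by
    rw [Finset.filter_congr (fun i hi => hR i (Finset.mem_range.1 hi)), Finset.filter_or,
      Finset.card_union_of_disjoint]
    · rfl
    · rw [Finset.disjoint_left]
      intro i hi hi'
      rw [Finset.mem_filter] at hi hi'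
      omega
  rw [h3] at h1
  omega

lemma gap_side_nn (hp : ∀ i < n, nn (p i) (p (i + 1))) (h0 : (p 0).1 ≠ x + 1)
    (hn : (p n).1 ≠ x + 1)
    (h : (∀ i ≤ n, p i ≠ (x + 1, y)) ∨ (∀ i ≤ n, p i ≠ (x + 1, y + 1))) :
    nGap n p x y % 2 = nGap n p (x + 1) y % 2 := by
  apply gap_side h0 hn
  intro i hi
  have h1 := nn_iff'.1 (hp i hi)
  rcases h with h | h
  · have h3 : ∀ j ≤ n, ¬ ((p j).1 = x + 1 ∧ (p j).2 = y) :=
      fun j hj h4 => h j hj (Prod.ext h4.1 h4.2)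
    have h4 := h3 i hi.le
    have h5 := h3 (i + 1) hi
    constructor
    · intro h2
      by_contra hcon
      apply h2
      constructor
      · rintro ⟨h6, h7⟩
        omega
      · rintro ⟨h6, h7⟩
        omega
    · intro h2 h6
      omega
  · have h3 : ∀ j ≤ n, ¬ ((p j).1 = x + 1 ∧ (p j).2 = y + 1) :=
      fun j hj h4 => h j hj (Prod.ext h4.1 h4.2)
    have h4 := h3 i hi.le
    have h5 := h3 (i + 1) hi
    constructor
    · intro h2
      by_contra hcon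
      apply h2
      constructor
      · rintro ⟨h6, h7⟩
        omega
      · rintro ⟨h6, h7⟩
        omega
    · intro h2 h6
      omega

lemma gap_side_st (hp : ∀ i < n, st (p i) (p (i + 1))) (h0 : (p 0).1 ≠ x + 1)
    (hn : (p n).1 ≠ x + 1) (h : ∀ i ≤ n, p i ≠ (x + 1, y)) :
    nGap n p x y % 2 = nGap n p (x + 1) y % 2 := by
  apply gap_side h0 hn
  intro i hi
  have h1 := st_iff'.1 (hp i hi)
  have h3 : ∀ j ≤ n, ¬ ((p j).1 = x + 1 ∧ (p j).2 = y) :=
    fun j hj h4 => h j hj (Prod.ext h4.1 h4.2)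
  have h4 := h3 i hi.le
  have h5 := h3 (i + 1) hi
  constructor
  · intro h2
    by_contra hcon
    apply h2
    constructor
    · rintro ⟨h6, h7⟩
      omega
    · rintro ⟨h6, h7⟩
      omega
  · intro h2 h6
    omega

end TT

open TT

variable {n : ℕ} {p : ℕ → V} {a b : ℤ} {v w : V}

private lemma nAb_nn_aux (hp : ∀ i < n, nn (p i) (p (i + 1))) (h0 : (p 0).1 < a)
    (hn : b < (p n).1) (hv : a ≤ v.1 ∧ v.1 ≤ b) (hw : a ≤ w.1 ∧ w.1 ≤ b)
    (hvp : ∀ i ≤ n, p i ≠ v) (hwp : ∀ i ≤ n, p i ≠ w)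
    (h : (w.1 = v.1 ∧ w.2 = v.2 + 1) ∨ (w.1 = v.1 + 1 ∧ w.2 = v.2) ∨
      (w.1 = v.1 + 1 ∧ w.2 = v.2 + 1) ∨ (w.1 = v.1 + 1 ∧ w.2 = v.2 - 1)) :
    nAb n p v % 2 = nAb n p w % 2 := by
  obtain ⟨x, y⟩ := v
  obtain ⟨x', y'⟩ := w
  simp only at h hv hw
  unfold nAb
  simp only
  rcases h with ⟨rfl, rfl⟩ | ⟨rfl, rfl⟩ | ⟨rfl, rfl⟩ | ⟨rfl, rfl⟩
  · rw [gap_up_nn hp (Or.inl hwp)]
  · exact gap_side_nn hp (by omega) (by omega) (Or.inl hwp)
  · rw [← gap_up_nn (x := x + 1) hp (Or.inl hwp)]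
    exact gap_side_nn hp (by omega) (by omega) (Or.inr hwp)
  · have h1 : nGap n p x (y - 1) = nGap n p x y := by
      have h2 := gap_up_nn (n := n) (p := p) (x := x) (y := y - 1) hp
        (Or.inl (by rw [sub_add_cancel]; exact hvp))
      rw [sub_add_cancel] at h2
      exact h2
    rw [← h1]
    exact gap_side_nn hp (by omega) (by omega) (Or.inl hwp)

/-- T2 (a): the parity above a nearest neighbour path does not change under star steps. -/
theorem nAb_nn (hp : ∀ i < n, nn (p i) (p (i + 1))) (h0 : (p 0).1 < a)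
    (hn : b < (p n).1) (hv : a ≤ v.1 ∧ v.1 ≤ b) (hw : a ≤ w.1 ∧ w.1 ≤ b)
    (hvp : ∀ i ≤ n, p i ≠ v) (hwp : ∀ i ≤ n, p i ≠ w) (h : st v w) :
    nAb n p v % 2 = nAb n p w % 2 := by
  have h1 := st_iff'.1 h
  have h2 : v.1 ≠ w.1 ∨ v.2 ≠ w.2 := by
    by_contra hcon
    push Not at hcon
    exact h1.1 (Prod.ext hcon.1 hcon.2)
  by_cases h3 : (w.1 = v.1 ∧ w.2 = v.2 + 1) ∨ (w.1 = v.1 + 1 ∧ w.2 = v.2) ∨
      (w.1 = v.1 + 1 ∧ w.2 = v.2 + 1) ∨ (w.1 = v.1 + 1 ∧ w.2 = v.2 - 1)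
  · exact nAb_nn_aux hp h0 hn hv hw hvp hwp h3
  · symm
    apply nAb_nn_aux hp h0 hn hw hv hwp hvp
    omega

private lemma nAb_st_aux (hp : ∀ i < n, st (p i) (p (i + 1))) (h0 : (p 0).1 < a)
    (hn : b < (p n).1) (hv : a ≤ v.1 ∧ v.1 ≤ b) (hw : a ≤ w.1 ∧ w.1 ≤ b)
    (hvp : ∀ i ≤ n, p i ≠ v) (hwp : ∀ i ≤ n, p i ≠ w)
    (h : (w.1 = v.1 ∧ w.2 = v.2 + 1) ∨ (w.1 = v.1 + 1 ∧ w.2 = v.2)) :
    nAb n p v % 2 = nAb n p w % 2 := by
  obtain ⟨x, y⟩ := v
  obtain ⟨x', y'⟩ := w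
  simp only at h hv hw
  unfold nAb
  simp only
  rcases h with ⟨rfl, rfl⟩ | ⟨rfl, rfl⟩
  · rw [gap_up_st hp hwp hvp]
  · exact gap_side_st hp (by omega) (by omega) hwp

/-- T2 (b): the parity above a star path does not change under nearest neighbour steps. -/
theorem nAb_st (hp : ∀ i < n, st (p i) (p (i + 1))) (h0 : (p 0).1 < a)
    (hn : b < (p n).1) (hv : a ≤ v.1 ∧ v.1 ≤ b) (hw : a ≤ w.1 ∧ w.1 ≤ b)
    (hvp : ∀ i ≤ n, p i ≠ v) (hwp : ∀ i ≤ n, p i ≠ w) (h : nn v w) :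
    nAb n p v % 2 = nAb n p w % 2 := by
  have h1 := nn_iff'.1 h
  by_cases h3 : (w.1 = v.1 ∧ w.2 = v.2 + 1) ∨ (w.1 = v.1 + 1 ∧ w.2 = v.2)
  · exact nAb_st_aux hp h0 hn hv hw hvp hwp h3
  · symm
    apply nAb_st_aux hp h0 hn hw hv hwp hvp
    omega

/-- T2 (e), nearest neighbour path, star connected set -/
theorem nAb_conn_nn {A : Set V} (hp : ∀ i < n, nn (p i) (p (i + 1))) (h0 : (p 0).1 < a)
    (hn : b < (p n).1) (hA : ∀ v ∈ A, a ≤ v.1 ∧ v.1 ≤ b) (hAp : ∀ i ≤ n, p i ∉ A)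
    (h : ConnIn st A v w) : nAb n p v % 2 = nAb n p w % 2 := by
  refine conn_induction (Q := fun w => nAb n p v % 2 = nAb n p w % 2) h rfl ?_
  intro u u' hu hu' hadj hq
  rw [hq]
  exact nAb_nn hp h0 hn (hA u hu) (hA u' hu') (fun i hi h1 => hAp i hi (h1 ▸ hu))
    (fun i hi h1 => hAp i hi (h1 ▸ hu')) hadj

/-- T2 (e), star path, nearest neighbour connected set -/
theorem nAb_conn_st {A : Set V} (hp : ∀ i < n, st (p i) (p (i + 1))) (h0 : (p 0).1 < a)
    (hn : b < (p n).1) (hA : ∀ v ∈ A, a ≤ v.1 ∧ v.1 ≤ b) (hAp : ∀ i ≤ n, p i ∉ A)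
    (h : ConnIn nn A v w) : nAb n p v % 2 = nAb n p w % 2 := by
  refine conn_induction (Q := fun w => nAb n p v % 2 = nAb n p w % 2) h rfl ?_
  intro u u' hu hu' hadj hq
  rw [hq]
  exact nAb_st hp h0 hn (hA u hu) (hA u' hu') (fun i hi h1 => hAp i hi (h1 ▸ hu))
    (fun i hi h1 => hAp i hi (h1 ▸ hu')) hadj

/-- T2 (c): above the path -/
theorem nAb_above (h : ∀ i ≤ n, (p i).2 < v.2) : nAb n p v = 0 := by
  unfold nAb nGap
  rw [Finset.card_eq_zero, Finset.filter_eq_empty_iff]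
  intro i hi
  have hi := Finset.mem_range.1 hi
  have h1 := h i hi.le
  have h2 := h (i + 1) hi
  omega

/-- T2 (c): below the path -/
theorem nAb_below (hp : ∀ i < n, st (p i) (p (i + 1))) (h0 : (p 0).1 < a)
    (hn : b < (p n).1) (hv : a ≤ v.1 ∧ v.1 ≤ b) (h : ∀ i ≤ n, v.2 < (p i).2) :
    nAb n p v % 2 = 1 := by
  have h1 := changes_parity (fun i => (p i).1 ≤ v.1) n
  have h2 : ¬ ((p 0).1 ≤ v.1 ↔ (p n).1 ≤ v.1) := by
    intro h3
    have := h3.1 (by omega)
    omega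
  rw [if_neg h2] at h1
  rw [← h1]
  unfold nAb nGap
  congr 2
  apply Finset.filter_congr
  intro i hi
  have hi := Finset.mem_range.1 hi
  have h3 := st_iff'.1 (hp i hi)
  have h4 := h i hi.le
  have h5 := h (i + 1) hi
  constructor
  · rintro ⟨h6, h7⟩ h8
    omega
  · intro h6
    refine ⟨?_, by omega⟩
    by_contra hcon
    apply h6
    constructor <;> intro h7 <;> omega

/-- T2 (d): next to the start -/
theorem nAb_start {h y : ℤ} (hp : ∀ i < n, st (p i) (p (i + 1))) (h0 : p 0 = (a - 1, h))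
    (h1 : p 1 = (a, h)) (h2 : ∀ i, 2 ≤ i → i ≤ n → a < (p i).1) (hn : 2 ≤ n) (hy : y ≠ h) :
    nAb n p (a, y) = if y < h then 1 else 0 := by
  unfold nAb nGap
  have h3 : (p 1).1 = a := by rw [h1]
  have h4 : (p 1).2 = h := by rw [h1]
  have h5 := h2 2 le_rfl hn
  have h6 := st_iff'.1 (hp 1 (by omega))
  have h7 : (p 0).1 = a - 1 := by rw [h0]
  split_ifs with hyh
  · rw [Finset.card_eq_one]
    refine ⟨1, ?_⟩
    ext i
    rw [Finset.mem_filter, Finset.mem_range, Finset.mem_singleton]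
    constructor
    · rintro ⟨hi, h8, h9⟩
      simp only at h8 h9
      by_contra hcon
      rcases Nat.lt_or_ge i 1 with h10 | h10
      · have : i = 0 := by omega
        subst this
        simp only [zero_add] at h8
        omega
      · have h11 := h2 i (by omega) hi.le
        have h12 := h2 (i + 1) (by omega) hi
        omega
    · rintro rfl
      refine ⟨by omega, ?_, ?_⟩
      · simp only
        have h13 : (1 : ℕ) + 1 = 2 := rfl
        rw [h13] at h6 ⊢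
        omega
      · simp only
        have h13 : (1 : ℕ) + 1 = 2 := rfl
        rw [h13] at h6 ⊢
        omega
  · rw [Finset.card_eq_zero, Finset.filter_eq_empty_iff]
    intro i hi
    have hi := Finset.mem_range.1 hi
    rintro ⟨h8, h9⟩
    simp only at h8 h9
    rcases Nat.lt_or_ge i 1 with h10 | h10
    · have : i = 0 := by omega
      subst this
      simp only [zero_add] at h8
      omega
    · rcases Nat.lt_or_ge i 2 with h14 | h14
      · have : i = 1 := by omega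
        subst this
        have h13 : (1 : ℕ) + 1 = 2 := rfl
        rw [h13] at h6 h9
        omega
      · have h11 := h2 i (by omega) hi.le
        have h12 := h2 (i + 1) (by omega) hi
        omega

end GF
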